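import Pool.Agent.P.MP_788ef7_an.SDefs

/-!
The three types of second factor, and the data used in the reduction from manifolds.
-/

set_option autoImplicit false

open Set Filter Topology Metric Bundle
open scoped Manifold ContDiff

namespace Pool.Agent.P.MP_788ef7_an

noncomputable section

/-- Euclidean three-space. -/
abbrev E3 : Type := EuclideanSpace ℝ (Fin 3)

namespace Setting

variable {𝔾 X E : Type*} [Group 𝔾] [MetricSpace X] [MulAction 𝔾 X]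
  [NormedAddCommGroup E] [NormedSpace ℝ E] (S : Setting 𝔾 X E)
  {𝔊 : Type*} [Group 𝔊] [MulAction 𝔊 Circle] {𝔊' : Type*} [Group 𝔊'] [MulAction 𝔊' Circle]

/-- Two hyperbolic factors. -/
structure HH (Φ : Fuchs 𝔊) (pj : 𝔾 →* 𝔊) (pr : X → KD) (set : X → KD → X)
    (Φ' : Fuchs 𝔊') (pj' : 𝔾 →* 𝔊') (pr' : X → KD) (set' : X → KD → X) (j : E ≃L[ℝ] ℂ × ℂ) :
    Prop where
  univ : S.Λ = univ
  hf : S.HF Φ pj pr set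
  hf' : S.HF Φ' pj' pr' set'
  je : ∀ z, j (S.e z) = ((pr z).val, (pr' z).val)
  range_eq : range S.e = j ⁻¹' (ball 0 1 ×ˢ ball 0 1)
  dist_le : ∀ z z', dist z z' ≤ max (dist (pr z) (pr z')) (dist (pr' z) (pr' z'))
  pair : ∀ g g', Φ.ht g = Φ'.ht g' → ∃ G, pj G = g ∧ pj' G = g'
  inj : ∀ G, pj G = 1 → pj' G = 1 → G = 1
  pr'_set : ∀ z x, pr' (set z x) = pr' z
  pr_set' : ∀ z x, pr (set' z x) = pr z

/-- A hyperbolic factor and a flat factor. -/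
structure TT (Φ : Fuchs 𝔊) (pj : 𝔾 →* 𝔊) (pr : X → KD) (set : X → KD → X) (j : E ≃L[ℝ] ℂ × ℂ)
    (tr : 𝔾 → ℂ) (B : ℂ ≃L[ℝ] ℂ) (τ : ℤ) : Prop where
  univ : S.Λ = univ
  hf : S.HF Φ pj pr set
  sf : S.SF pr j Set.univ (fun γ y => y + tr γ) (fun y y' => y' - y)
  snd_set : ∀ z x, (j (S.e (set z x))).2 = (j (S.e z)).2
  lip : ∀ z z', ‖(j (S.e z)).2 - (j (S.e z')).2‖ ≤ dist z z'
  dist_le : ∀ z z', pr z = pr z' → dist z z' ≤ ‖(j (S.e z)).2 - (j (S.e z')).2‖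
  split : ∀ γ, S.ht γ = 0 → ∃ ν, pj ν = 1 ∧ tr ν = tr γ
  cocpt : ∃ R, ∀ y : ℂ, ∃ ν, pj ν = 1 ∧ ‖y - tr ν‖ ≤ R
  conj : ∀ ν, pj ν = 1 → tr (S.t * ν * S.t⁻¹) = B (tr ν)
  trace : ∀ y, B y + B.symm y = (τ : ℝ) • y
  det : (B : ℂ →L[ℝ] ℂ).det = 1
  le : -2 ≤ τ

/-- A hyperbolic factor and a spherical factor, with a contracted radial direction added. -/
structure SS (Φ : Fuchs 𝔊) (pj : 𝔾 →* 𝔊) (pr : X → KD) (set : X → KD → X) (j : E ≃L[ℝ] ℂ × E3) :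
    Prop where
  hf : S.HF Φ pj pr set
  sf : S.SF pr j {0}ᶜ (fun _ y => y) (fun y y' => y' - y)
  snd_set : ∀ z x, (j (S.e (set z x))).2 = (j (S.e z)).2
  inj : ∀ G, pj G = 1 → G = 1
  mem : ∀ z, z ∈ S.Λ ↔ ‖(j (S.e z)).2‖ = 1
  rad : ∀ (g : 𝔾) z, ‖(j (S.e (g • z))).2‖ = ‖(j (S.e z)).2‖ ^ ((2 : ℝ) ^ (-S.ht g))
  scale : ∀ (g : 𝔾) z z' (c : ℝ), 0 < c → pr z' = pr z → (j (S.e z')).2 = c • (j (S.e z)).2 →
    pr (g • z') = pr (g • z) ∧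
      (j (S.e (g • z'))).2 = c ^ ((2 : ℝ) ^ (-S.ht g)) • (j (S.e (g • z))).2

end Setting

section Lattice

variable {X : Type*} [MetricSpace X]

/-- A group of isometries acting freely, properly and cocompactly on `Λ`. -/
structure Lat (Γ : Subgroup (X ≃ᵢ X)) (Λ : Set X) : Prop where
  free : ∀ γ ∈ Γ, ∀ x, γ x = x → γ = 1
  proper : ∀ (x : X) (R : ℝ), {γ | γ ∈ Γ ∧ dist (γ x) x ≤ R}.Finite
  cocpt : ∃ (x₀ : X) (R : ℝ), ∀ x ∈ Λ, ∃ γ ∈ Γ, dist (γ x) x₀ ≤ R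

/-- The subgroup generated by the squares. -/
def Sq (Γ : Subgroup (X ≃ᵢ X)) : Subgroup (X ≃ᵢ X) := Subgroup.closure {δ | ∃ γ ∈ Γ, δ = γ * γ}

/-- The isometries preserving `q`. -/
def deck {S : Type*} (q : X → S) : Subgroup (X ≃ᵢ X) where
  carrier := {γ | ∀ z, q (γ z) = q z}
  one_mem' := fun _ => rfl
  mul_mem' := fun {a b} ha hb z => (ha (b z)).trans (hb z)
  inv_mem' := fun {a} ha z => by
    have := ha (a⁻¹ z)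
    rw [← this]
    exact congrArg q (a.apply_symm_apply z).symm ▸ rfl

variable {Y : Type*} [MetricSpace Y]

/-- `F` normalises `Γ₁ × Γ₂`. -/
def Nrm (F : Equiv.Perm (X × Y)) (Γ₁ : Subgroup (X ≃ᵢ X)) (Γ₂ : Subgroup (Y ≃ᵢ Y)) : Prop :=
  ∀ γ₁ ∈ Γ₁, ∀ γ₂ ∈ Γ₂, ∃ γ₁' ∈ Γ₁, ∃ γ₂' ∈ Γ₂, ∀ x y,
    F (γ₁ x, γ₂ y) = (γ₁' (F (x, y)).1, γ₂' (F (x, y)).2)

/-- `F` normalises `1 × Γ₂`. -/
def Nrm₂ (F : Equiv.Perm (X × Y)) (Γ₂ : Subgroup (Y ≃ᵢ Y)) : Prop :=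
  ∀ γ₂ ∈ Γ₂, ∃ γ₂' ∈ Γ₂, ∀ x y, F (x, γ₂ y) = ((F (x, y)).1, γ₂' (F (x, y)).2)

/-- `F` normalises `Γ₁ × 1`. -/
def Nrm₁ (F : Equiv.Perm (X × Y)) (Γ₁ : Subgroup (X ≃ᵢ X)) : Prop :=
  ∀ γ₁ ∈ Γ₁, ∃ γ₁' ∈ Γ₁, ∀ x y, F (γ₁ x, y) = (γ₁' (F (x, y)).1, (F (x, y)).2)

/-- `𝔾` is the group generated by `Γ₁ × Γ₂` and `F`, with its height. -/
structure Pres {𝔾 : Type*} [Group 𝔾] [MulAction 𝔾 (X × Y)] (F : Equiv.Perm (X × Y))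
    (Γ₁ : Subgroup (X ≃ᵢ X)) (Γ₂ : Subgroup (Y ≃ᵢ Y)) (ht : 𝔾 → ℤ) (t : 𝔾)
    (l₁ : 𝔾 → X ≃ᵢ X) (l₂ : 𝔾 → Y ≃ᵢ Y) : Prop where
  ht_mul : ∀ g h, ht (g * h) = ht g + ht h
  ht_t : ht t = 1
  t_smul : ∀ z, t • z = F z
  mem₁ : ∀ γ, ht γ = 0 → l₁ γ ∈ Γ₁
  mem₂ : ∀ γ, ht γ = 0 → l₂ γ ∈ Γ₂
  smul : ∀ γ, ht γ = 0 → ∀ x y, γ • (x, y) = (l₁ γ x, l₂ γ y)
  surj : ∀ γ₁ ∈ Γ₁, ∀ γ₂ ∈ Γ₂, ∃ γ, ht γ = 0 ∧ l₁ γ = γ₁ ∧ l₂ γ = γ₂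
  inj : ∀ γ, ht γ = 0 → l₁ γ = 1 → l₂ γ = 1 → γ = 1

/-- A space that is the union of two simply connected open sets with connected intersection. -/
def TwoSC (Z : Type*) [TopologicalSpace Z] : Prop :=
  ∃ U₁ U₂ : Set Z, IsOpen U₁ ∧ IsOpen U₂ ∧ U₁ ∪ U₂ = univ ∧ SimplyConnectedSpace U₁ ∧
    SimplyConnectedSpace U₂ ∧ IsConnected (U₁ ∩ U₂)

end Lattice

section Smooth

variable {EM : Type*} [NormedAddCommGroup EM] [NormedSpace ℝ EM] {HM : Type*} [TopologicalSpace HM]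
  (I : ModelWithCorners ℝ EM HM) {M : Type*} [TopologicalSpace M] [ChartedSpace HM M]

/-- The Anosov property in terms of a projection field and a norm field. -/
structure AData [IsManifold I 1 M] (f : M ≃ₘ^1⟮I, I⟯ M)
    (Pm : ∀ x : M, TangentSpace I x →L[ℝ] TangentSpace I x) (ν : ∀ x : M, TangentSpace I x → ℝ)
    (C lam : ℝ) : Prop where
  contP : Continuous fun p : TangentBundle I M => (⟨p.proj, Pm p.proj p.2⟩ : TangentBundle I M)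
  idem : ∀ x v, Pm x (Pm x v) = Pm x v
  comm : ∀ x v, Pm (f x) (mfderiv I I f x v) = mfderiv I I f x (Pm x v)
  contν : Continuous fun p : TangentBundle I M => ν p.proj p.2
  ν_smul : ∀ x (c : ℝ) v, ν x (c • v) = |c| * ν x v
  ν_pos : ∀ x v, v ≠ 0 → 0 < ν x v
  C_pos : 0 < C
  lam_pos : 0 < lam
  lam_lt : lam < 1
  rate_s : ∀ (n : ℕ) x v, Pm x v = 0 →
    ν (f^[n] x) (mfderiv I I f^[n] x v) ≤ C * lam ^ n * ν x v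
  rate_u : ∀ (n : ℕ) x v, Pm x v = v →
    ν (f.symm^[n] x) (mfderiv I I f.symm^[n] x v) ≤ C * lam ^ n * ν x v

variable {X E W : Type*} [TopologicalSpace X] [NormedAddCommGroup E] [NormedSpace ℝ E]
  [NormedAddCommGroup W] [NormedSpace ℝ W]

/-- `(q, τ)` is a local `C¹` diffeomorphism from the open set `range e` to `M × W`. -/
structure Model (e : X → E) (q : E → M) (τ : E → W) : Prop where
  emb : IsOpenEmbedding e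
  cq : ContMDiffOn 𝓘(ℝ, E) I 1 q (range e)
  cτ : ContDiffOn ℝ 1 τ (range e)
  bij : ∀ x, Function.Bijective fun v : E =>
    ((mfderiv 𝓘(ℝ, E) I q (e x) v : EM), fderiv ℝ τ (e x) v)

/-- `h` covers the `n`-th iterate of `f × (1/2)`. -/
structure Cov (e : X → E) (q : E → M) (τ : E → W) (f : Equiv.Perm M) (N : ℕ) (n : ℤ)
    (h : X → X) : Prop where
  cont : Continuous h
  eq_q : ∀ x, q (e (h x)) = (f ^ (N * n)) (q (e x))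
  eq_τ : ∀ x, τ (e (h x)) = (2 : ℝ) ^ (-n) • τ (e x)

/-- The hyperbolic structure of the maps in the class `𝓗`, read in the chart `e`. -/
structure HypD (e : X → E) (𝓗 : ℤ → (X → X) → Prop) (Q : X → E →L[ℝ] E) (u s : ℕ) (lam : ℝ) :
    Prop where
  contQ : Continuous Q
  idem : ∀ x v, Q x (Q x v) = Q x v
  rank_u : ∀ x, Module.finrank ℝ (LinearMap.range (Q x : E →ₗ[ℝ] E)) = u
  rank_s : ∀ x, Module.finrank ℝ (LinearMap.ker (Q x : E →ₗ[ℝ] E)) = s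
  lam_pos : 0 < lam
  lam_lt : lam < 1
  c1 : ∀ n h, 𝓗 n h → ContDiffOn ℝ 1 (chartMap e h) (range e)
  comm : ∀ n h, 𝓗 n h → ∀ x v, Q (h x) (fderiv ℝ (chartMap e h) (e x) v) =
    fderiv ℝ (chartMap e h) (e x) (Q x v)
  rate : ∀ K : Set X, IsCompact K → ∃ C : ℝ, ∀ (k : ℤ) h (n : ℕ), 𝓗 k h → ∀ x ∈ K, h x ∈ K → ∀ v,
    ((k = n ∧ Q x v = 0) ∨ (k = -n ∧ Q x v = v)) →
      ‖fderiv ℝ (chartMap e h) (e x) v‖ ≤ C * lam ^ n * ‖v‖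

end Smooth

/-- The data from which the lifted system on `KD × Y` is built. `η` is the distance to the
cocompact part of `Y`, and `ρ` a retraction onto it. -/
structure Raw {Y E₂ : Type*} [MetricSpace Y] [NormedAddCommGroup E₂] [NormedSpace ℝ E₂]
    (F : Equiv.Perm (KD × Y)) (Γ₁ : Subgroup (KD ≃ᵢ KD)) (Γ₂ : Subgroup (Y ≃ᵢ Y)) (e₂ : Y → E₂)
    (a₂ : (Y ≃ᵢ Y) → E₂ → E₂) (vec₂ : E₂ → E₂ → E₂) (η : Y → ℝ) (ρ : Y → Y) : Prop where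
  lat₁ : Lat Γ₁ univ
  op₁ : ∀ γ ∈ Γ₁, IsOP γ
  lat₂ : Lat Γ₂ {y | η y = 0}
  nrm₂ : Nrm₂ F Γ₂
  nrm₂' : Nrm₂ F⁻¹ Γ₂
  cont : Continuous F
  cont' : Continuous (F⁻¹ : Equiv.Perm (KD × Y))
  emb : IsOpenEmbedding e₂
  star : TwoStar (ball (0 : ℂ) 1 ×ˢ range e₂)
  act : ∀ γ ∈ Γ₂, ∀ y, e₂ (γ y) = a₂ γ (e₂ y)
  c2 : ∀ γ ∈ Γ₂, ContDiffOn ℝ 2 (a₂ γ) (range e₂)
  c1 : ContDiffOn ℝ 1 (fun p : E₂ × E₂ => vec₂ p.1 p.2) (range e₂ ×ˢ range e₂)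
  zero : ∀ y ∈ range e₂, ∀ y' ∈ range e₂, vec₂ y y' = 0 ↔ y = y'
  eqv : ∀ γ ∈ Γ₂, ∀ y ∈ range e₂, ∀ y' ∈ range e₂,
    vec₂ (a₂ γ y) (a₂ γ y') = fderiv ℝ (a₂ γ) y (vec₂ y y')
  diag : ∀ y ∈ range e₂, HasFDerivAt (fun p : E₂ × E₂ => vec₂ p.1 p.2)
    (ContinuousLinearMap.snd ℝ E₂ E₂ - ContinuousLinearMap.fst ℝ E₂ E₂) (y, y)
  η_lip : ∀ y y', |η y - η y'| ≤ dist y y'
  η_inv : ∀ γ ∈ Γ₂, ∀ y, η (γ y) = η y
  η_F : ∀ z, η (F z).2 = η z.2 / 2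
  η_ρ : ∀ y, η (ρ y) = 0
  dist_ρ : ∀ y, dist y (ρ y) ≤ |η y|
  fst_ρ : ∀ (n : ℤ) x y, ((F ^ n) (x, y)).1 = ((F ^ n) (x, ρ y)).1
  nonempty : Nonempty Y

end

end Pool.Agent.P.MP_788ef7_an
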