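import Pool.Agent.P.MP_788ef7_an.Defs
import Pool.Agent.P.MP_788ef7_an.CDefs

set_option autoImplicit false

open Set Filter Topology Metric

namespace Pool.Agent.P.MP_788ef7_an

open Bundle
open scoped Manifold ContDiff

variable {EM : Type*} [NormedAddCommGroup EM] [NormedSpace ℝ EM] {HM : Type*} [TopologicalSpace HM]
  {I : ModelWithCorners ℝ EM HM} {M : Type*} [TopologicalSpace M] [ChartedSpace HM M]

theorem cont_len_anoD [IsManifold I 1 M] [RiemannianBundle (fun x : M => TangentSpace I x)]
    [IsContinuousRiemannianBundle EM (fun x : M => TangentSpace I x)] :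
    Continuous fun p : TangentBundle I M => len (I := I) p.2 := by
  have h1 : Continuous (fun p : TangentBundle I M =>
      ((p.2 : TangentSpace I p.proj) : TotalSpace EM (fun x : M => TangentSpace I x))) :=
    continuous_id
  have h2 := (h1.inner_bundle h1).sqrt
  refine h2.congr fun p => ?_
  rw [len, real_inner_self_eq_norm_sq, Real.sqrt_sq (norm_nonneg _)]

theorem len_smul_anoD [RiemannianBundle (fun x : M => TangentSpace I x)] (x : M) (c : ℝ)
    (v : TangentSpace I x) : len (I := I) (c • v) = |c| * len (I := I) v := by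
  rw [len, len, norm_smul, Real.norm_eq_abs]

theorem len_pos_anoD [RiemannianBundle (fun x : M => TangentSpace I x)] (x : M)
    (v : TangentSpace I x) (hv : v ≠ 0) : 0 < len (I := I) v := by
  rw [len]
  exact norm_pos_iff.2 hv

theorem IsAnosov.aData [FiniteDimensional ℝ EM] [IsManifold I 1 M]
    [RiemannianBundle (fun x : M => TangentSpace I x)]
    [IsContinuousRiemannianBundle EM (fun x : M => TangentSpace I x)] {f : M ≃ₘ^1⟮I, I⟯ M}
    (h : IsAnosov I f) : ∃ Pm ν C lam, AData I f Pm ν C lam := by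
  obtain ⟨Es, Eu, ⟨hc, hP⟩, hs, hu, C, lam, hC, hl, hl1, hr, hr2⟩ := h
  let Pm : ∀ x : M, TangentSpace I x →L[ℝ] TangentSpace I x := fun x =>
    LinearMap.toContinuousLinearMap (𝕜 := ℝ) (E := EM) (F' := EM) ((Eu x).projection (Es x) (hc x))
  have hPm : ∀ x v, Pm x v = (Eu x).projection (Es x) (hc x) v := fun x v => rfl
  refine ⟨Pm, fun x v => len (I := I) v, C, lam, hP, fun x v => ?_, fun x v => ?_, cont_len_anoD,
    len_smul_anoD, len_pos_anoD, hC, hl, hl1, fun n x v hv => ?_, fun n x v hv => ?_⟩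
  · rw [hPm, hPm]
    exact Submodule.projection_apply_of_mem_left _ (Submodule.projection_apply_mem _ _)
  · have e1 : mfderiv I I f x v = mfderiv I I f x (Pm x v) + mfderiv I I f x (v - Pm x v) := by
      rw [← map_add, add_sub_cancel]
    have m1 : mfderiv I I f x (Pm x v) ∈ Eu (f x) := by
      rw [← SetLike.mem_coe, ← hu x]
      exact mem_image_of_mem _ (Submodule.projection_apply_mem (hc x) v)
    have m2 : mfderiv I I f x (v - Pm x v) ∈ Es (f x) := by
      rw [← SetLike.mem_coe, ← hs x]
      exact mem_image_of_mem _ (Submodule.sub_projection_mem (hc x) v)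
    rw [e1, map_add, hPm (f x), hPm (f x), Submodule.projection_apply_of_mem_left _ m1,
      (Submodule.projection_apply_eq_zero_iff _).2 m2, add_zero]
  · exact hr n x v ((Submodule.projection_apply_eq_zero_iff (hc x)).1 hv)
  · exact hr2 n x v ((Submodule.projection_eq_self_iff (hc x) v).1 hv)

theorem cont_sub_anoD [IsManifold I 1 M]
    {Pm : ∀ x : M, TangentSpace I x →L[ℝ] TangentSpace I x}
    (hP : Continuous fun p : TangentBundle I M => (⟨p.proj, Pm p.proj p.2⟩ : TangentBundle I M)) :
    Continuous fun p : TangentBundle I M =>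
      (⟨p.proj, p.2 - Pm p.proj p.2⟩ : TangentBundle I M) := by
  refine continuous_iff_continuousAt.2 fun p₀ => ?_
  have c0 : ContinuousAt (fun p : TangentBundle I M => p) p₀ := continuousAt_id
  have c1 := (FiberBundle.continuousAt_totalSpace EM _).1 c0
  have c2 := (FiberBundle.continuousAt_totalSpace EM _).1 (hP.continuousAt (x := p₀))
  refine (FiberBundle.continuousAt_totalSpace EM _).2 ⟨c1.1, (c1.2.sub c2.2).congr ?_⟩
  have hb : (trivializationAt EM (TangentSpace I : M → Type _) p₀.proj).baseSet ∈ 𝓝 p₀.proj :=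
    (trivializationAt EM (TangentSpace I : M → Type _) p₀.proj).open_baseSet.mem_nhds
      (FiberBundle.mem_baseSet_trivializationAt' _)
  filter_upwards [c1.1.eventually hb] with p hp
  exact (((trivializationAt EM (TangentSpace I : M → Type _) p₀.proj).linear ℝ hp).map_sub
    p.2 (Pm p.proj p.2)).symm

theorem comm_symm_anoD [IsManifold I 1 M] {f : M ≃ₘ^1⟮I, I⟯ M}
    {Pm : ∀ x : M, TangentSpace I x →L[ℝ] TangentSpace I x}
    (h : ∀ x v, Pm (f x) (mfderiv I I f x v) = mfderiv I I f x (Pm x v)) (x : M)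
    (v : TangentSpace I x) :
    Pm (f.symm x) (mfderiv I I f.symm x v) = mfderiv I I f.symm x (Pm x v) := by
  obtain ⟨y, rfl⟩ := f.surjective x
  have d1 : ∀ z, MDifferentiableAt I I f z := fun z => f.contMDiff.mdifferentiableAt one_ne_zero
  have d2 : ∀ z, MDifferentiableAt I I f.symm z := fun z =>
    f.symm.contMDiff.mdifferentiableAt one_ne_zero
  have e1 : (f.symm : M → M) ∘ f = id := funext f.symm_apply_apply
  have e2 : (f : M → M) ∘ f.symm = id := funext f.apply_symm_apply
  have k1 : ∀ w : EM, (mfderiv I I f.symm (f y) (mfderiv I I f y w) : EM) = w := fun w => by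
    have := mfderiv_comp_apply y (d2 (f y)) (d1 y) w
    rw [e1, mfderiv_id] at this
    exact this.symm
  have k2 : ∀ w : EM, (mfderiv I I f y (mfderiv I I f.symm (f y) w) : EM) = w := fun w => by
    have := mfderiv_comp_apply (f y) (d1 (f.symm (f y))) (d2 (f y)) w
    rw [e2, mfderiv_id] at this
    have e3 : (mfderiv I I f (f.symm (f y)) : EM →L[ℝ] EM) = mfderiv I I f y := by
      rw [f.symm_apply_apply]
    exact (congrArg (fun L : EM →L[ℝ] EM => L (mfderiv I I f.symm (f y) w)) e3).symm.trans this.symm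
  have e4 : (Pm (f.symm (f y)) : EM →L[ℝ] EM) = Pm y := by rw [f.symm_apply_apply]
  have k3 := h y (mfderiv I I f.symm (f y) v)
  have k4 : Pm (f y) v = mfderiv I I f y (Pm y (mfderiv I I f.symm (f y) v)) :=
    (congrArg (Pm (f y)) (k2 v)).symm.trans k3
  exact (congrArg (fun L : EM →L[ℝ] EM => L (mfderiv I I f.symm (f y) v)) e4).trans
    ((k1 _).symm.trans (congrArg (mfderiv I I f.symm (f y)) k4.symm))

theorem AData.symm [IsManifold I 1 M] {f : M ≃ₘ^1⟮I, I⟯ M}
    {Pm : ∀ x : M, TangentSpace I x →L[ℝ] TangentSpace I x} {ν : ∀ x : M, TangentSpace I x → ℝ}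
    {C lam : ℝ} (h : AData I f Pm ν C lam) :
    AData I f.symm (fun x => ContinuousLinearMap.id ℝ _ - Pm x) ν C lam := by
  have e : ∀ x (v : TangentSpace I x),
      (ContinuousLinearMap.id ℝ (TangentSpace I x) - Pm x) v = v - Pm x v := fun x v => rfl
  refine ⟨cont_sub_anoD h.contP, fun x v => ?_, fun x v => ?_, h.contν, h.ν_smul, h.ν_pos, h.C_pos,
    h.lam_pos, h.lam_lt, fun n x v hv => ?_, fun n x v hv => ?_⟩
  · rw [e, e, map_sub, h.idem, sub_self, sub_zero]
  · rw [e, e, map_sub, comm_symm_anoD h.comm]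
  · rw [e] at hv
    exact h.rate_u n x v (sub_eq_zero.1 hv).symm
  · rw [e] at hv
    exact h.rate_s n x v (sub_eq_self.1 hv)

theorem AData.rank_add [FiniteDimensional ℝ EM] [IsManifold I 1 M] {f : M ≃ₘ^1⟮I, I⟯ M}
    {Pm : ∀ x : M, TangentSpace I x →L[ℝ] TangentSpace I x} {ν : ∀ x : M, TangentSpace I x → ℝ}
    {C lam : ℝ} (h : AData I f Pm ν C lam) (x : M) :
    Module.finrank ℝ (LinearMap.range (Pm x : TangentSpace I x →ₗ[ℝ] TangentSpace I x)) +
      Module.finrank ℝ (LinearMap.range ((ContinuousLinearMap.id ℝ _ - Pm x :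
        TangentSpace I x →L[ℝ] TangentSpace I x) : TangentSpace I x →ₗ[ℝ] TangentSpace I x)) =
      Module.finrank ℝ EM := by
  have e : LinearMap.range ((ContinuousLinearMap.id ℝ _ - Pm x :
        TangentSpace I x →L[ℝ] TangentSpace I x) : TangentSpace I x →ₗ[ℝ] TangentSpace I x) =
      LinearMap.ker (Pm x : TangentSpace I x →ₗ[ℝ] TangentSpace I x) := by
    ext v
    constructor
    · rintro ⟨w, rfl⟩
      show Pm x (w - Pm x w) = 0
      rw [map_sub, h.idem, sub_self]
    · intro hv
      have hv' : Pm x v = 0 := hv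
      refine ⟨v, ?_⟩
      show v - Pm x v = v
      rw [hv', sub_zero]
  rw [e]
  have : FiniteDimensional ℝ (TangentSpace I x) := inferInstanceAs (FiniteDimensional ℝ EM)
  exact LinearMap.finrank_range_add_finrank_ker _

end Pool.Agent.P.MP_788ef7_an
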