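import Pool.Agent.P.MP_788ef7_an.Arc1

set_option autoImplicit false

open Set Filter Topology Metric

namespace Pool.Agent.P.MP_788ef7_an

variable {a b c d p q p' q' r ξ ζ : Circle}

/-- The gap of a closed set containing a point. -/
theorem exists_gap {s : Set Circle} (hs : IsClosed s) (h2 : s.Nontrivial) (hζ : ζ ∉ s) :
    ∃ p ∈ s, ∃ q ∈ s, ζ ∈ arc p q ∧ Disjoint (arc p q) s := by
  obtain ⟨t, t', -, ct, -, h1, -, h3, h4, -, -⟩ := exists_chart ζ
  have hne : ∀ x ∈ s, x ≠ ζ := fun x hx e => hζ (e ▸ hx)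
  have ct' : ContinuousOn t s := ct.mono fun x hx => hne x hx
  obtain ⟨p, hp, mp⟩ := hs.isCompact.exists_isMaxOn h2.nonempty ct'
  obtain ⟨q, hq, mq⟩ := hs.isCompact.exists_isMinOn h2.nonempty ct'
  have ep := h1 p (hne p hp)
  have eq := h1 q (hne q hq)
  have hlt : t q < t p := by
    obtain ⟨x, hx, y, hy, hxy⟩ := h2
    have k1 : t x ≤ t p := mp hx
    have k2 : t y ≤ t p := mp hy
    have k3 : t q ≤ t x := mq hx
    have k4 : t q ≤ t y := mq hy
    by_contra hc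
    apply hxy
    rw [← h1 x (hne x hx), ← h1 y (hne y hy), show t x = t y by linarith]
  refine ⟨p, hp, q, hq, ?_, Set.disjoint_left.2 fun x hx hx' => ?_⟩
  · have := (h3 _ _).2 hlt
    rw [ep, eq] at this
    exact this.rot.rot
  · have hx : Cyc p x q := hx
    have k1 : t x ≤ t p := mp hx'
    have k3 : t q ≤ t x := mq hx'
    rw [← ep, ← eq, ← h1 x (hne x hx'), h4] at hx
    rcases hx with ⟨k, -⟩ | ⟨k, -⟩ | ⟨-, k⟩ <;> linarith

private theorem ne_of_tendsto_arc {c : ℝ} (hc : 0 < c) {p q : ℕ → Circle} {P Q : Circle}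
    (h : ∀ n, c ≤ rho (p n) (q n)) (hp : Tendsto p atTop (𝓝 P)) (hq : Tendsto q atTop (𝓝 Q)) :
    P ≠ Q := by
  rintro rfl
  have h1 : Tendsto (fun n => dist (p n) (q n) ^ 2) atTop (𝓝 (dist P P ^ 2)) := (hp.dist hq).pow 2
  have h2 : 2 * c ≤ dist P P ^ 2 := ge_of_tendsto' h1 fun n => by
    rw [circle_dist_sq]; linarith [h n]
  rw [dist_self] at h2
  linarith

theorem arcs_meet {c : ℝ} (hc : 0 < c) (p q : ℕ → Circle) (h : ∀ n, c ≤ rho (p n) (q n)) :
    ∃ n m, n < m ∧ ¬ Disjoint (arc (p n) (q n)) (arc (p m) (q m)) := by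
  obtain ⟨⟨P, Q⟩, φ, hφ, l⟩ := CompactSpace.tendsto_subseq fun n => (p n, q n)
  have lp : Tendsto (fun n => p (φ n)) atTop (𝓝 P) := l.fst_nhds
  have lq : Tendsto (fun n => q (φ n)) atTop (𝓝 Q) := l.snd_nhds
  obtain ⟨x, hx⟩ := arc_nonempty (ne_of_tendsto_arc hc (fun n => h (φ n)) lp lq)
  obtain ⟨N, hN⟩ := eventually_atTop.1 (Cyc.eventually hx lp tendsto_const_nhds lq)
  exact ⟨φ N, φ (N + 1), hφ N.lt_succ_self,
    Set.not_disjoint_iff.2 ⟨x, hN N le_rfl, hN (N + 1) N.le_succ⟩⟩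

private theorem exists_nhds_arc (ω : Circle) {V : Set Circle} (hV : V ∈ 𝓝 ω) :
    ∃ p q, ω ∈ arc p q ∧ closure (arc p q) ⊆ V := by
  obtain ⟨t, t', -, -, -, h1, -, h3, h4, l1, l2⟩ := exists_chart ω
  obtain ⟨R, hR⟩ := eventually_atTop.1 (l1.eventually hV)
  obtain ⟨R', hR'⟩ := eventually_atBot.1 (l2.eventually hV)
  have hlt : R' < max R (R' + 1) := (lt_add_one R').trans_le (le_max_right _ _)
  have hω : ω ∈ arc (t' (max R (R' + 1))) (t' R') := ((h3 _ _).2 hlt).rot.rot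
  refine ⟨_, _, hω, ?_⟩
  rw [closure_arc (Cyc.ne₁₃ hω)]
  rintro x (rfl | rfl | hx)
  · exact hR _ (le_max_left _ _)
  · exact hR' _ le_rfl
  · by_cases e : x = ω
    · exact e ▸ mem_of_mem_nhds hV
    have hx : Cyc (t' (max R (R' + 1))) x (t' R') := hx
    rw [← h1 x e, h4] at hx
    rw [← h1 x e]
    rcases hx with ⟨k, -⟩ | ⟨k, -⟩ | ⟨-, k⟩
    · exact hR _ ((le_max_left _ _).trans k.le)
    · exact hR' _ k.le
    · exact hR _ ((le_max_left _ _).trans k.le)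

theorem small_arc (ω : Circle) {V : Set Circle} (hV : V ∈ 𝓝 ω) : ∃ δ > 0, ∀ p q : Circle,
    dist p ω < δ → dist q ω < δ → arc p q ⊆ V ∨ arc q p ⊆ V := by
  obtain ⟨p₀, q₀, hω, hsub⟩ := exists_nhds_arc ω hV
  obtain ⟨δ, hδ, hb⟩ := Metric.isOpen_iff.1 (isOpen_arc p₀ q₀) ω hω
  refine ⟨δ, hδ, fun p q hp hq => ?_⟩
  by_cases e : p = q
  · exact Or.inl fun x hx => absurd e (Cyc.ne₁₃ hx)
  have k : arc p₀ q₀ ⊆ V := subset_closure.trans hsub
  exact (arc_subset_of_mem (subset_closure (hb hp)) (subset_closure (hb hq)) e).imp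
    (fun h => h.trans k) fun h => h.trans k

theorem exists_arc_nhds (ω : Circle) {V : Set Circle} (hV : V ∈ 𝓝 ω) :
    ∃ p q, ω ∈ arc p q ∧ closure (arc p q) ⊆ V := exists_nhds_arc ω hV

private theorem linked_of_lt_arc {θ : Circle → ℝ} (H : ∀ x y z, y ∈ arc x z ↔
      (θ x < θ y ∧ θ y < θ z) ∨ (θ y < θ z ∧ θ z < θ x) ∨ (θ z < θ x ∧ θ x < θ y))
    (h1 : θ a < θ b) (h2 : θ b < θ c) (h3 : θ c < θ d) : Linked a c b d :=
  linked_iff.2 (Or.inl ⟨(H _ _ _).2 (Or.inl ⟨h1, h2⟩),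
    (H _ _ _).2 (Or.inr (Or.inr ⟨h1.trans h2, h3⟩))⟩)

private theorem pack_arc {x y z a' b' d' : Circle} (ha : a ∈ arc z x) (ha' : a' ∈ arc z x)
    (hb : b ∈ arc x y) (hb' : b' ∈ arc x y) (hd : d ∈ arc y z) (hd' : d' ∈ arc y z)
    (h : y ∈ arc x z) : (a = a' ∧ b = b' ∧ d = d') ∨ Linked a b a' d' ∨ Linked a d a' b' ∨
      Linked b d b' a' ∨ Linked b a b' d' ∨ Linked d a d' b' ∨ Linked d b d' a' := by
  obtain ⟨θ, e, m, H⟩ := exists_theta_arc1 z
  have := m x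
  have := m y
  have := m a
  have := m a'
  have := m b
  have := m b'
  have := m d
  have := m d'
  rw [H] at ha ha' hb hb' hd hd' h
  have k0 : θ x < θ y := by grind
  have k1 : θ a < θ x := by grind
  have k2 : θ a' < θ x := by grind
  have k3 : θ x < θ b ∧ θ b < θ y := by grind
  have k4 : θ x < θ b' ∧ θ b' < θ y := by grind
  have k5 : θ y < θ d := by grind
  have k6 : θ y < θ d' := by grind
  rcases lt_trichotomy (θ a) (θ a') with u | u | u
  · exact Or.inr (Or.inl (linked_of_lt_arc H u (k2.trans k3.1) (k3.2.trans k6)))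
  swap
  · exact Or.inr (Or.inr (Or.inl
      (linked_of_lt_arc H u (k1.trans k4.1) (k4.2.trans k5)).symm))
  rcases lt_trichotomy (θ b) (θ b') with v | v | v
  · exact Or.inr (Or.inr (Or.inr (Or.inl
      (linked_of_lt_arc H (k2.trans k3.1) v (k4.2.trans k5)).symm.swap_right)))
  swap
  · exact Or.inr (Or.inr (Or.inr (Or.inr (Or.inl
      (linked_of_lt_arc H (k1.trans k4.1) v (k3.2.trans k6)).swap_left))))
  rcases lt_trichotomy (θ d) (θ d') with w | w | w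
  · exact Or.inr (Or.inr (Or.inr (Or.inr (Or.inr (Or.inl
      (linked_of_lt_arc H (k1.trans k4.1) (k4.2.trans k5) w).swap_left.swap_right)))))
  · exact Or.inl ⟨(e _ _).2 u, (e _ _).2 v, (e _ _).2 w⟩
  · exact Or.inr (Or.inr (Or.inr (Or.inr (Or.inr (Or.inr
      (linked_of_lt_arc H (k2.trans k3.1) (k3.2.trans k6) w).symm.swap_left.swap_right)))))

private theorem pack_lim_arc {a b d : ℕ → Circle} {A B D : Circle} (h : Cyc A B D)
    (la : Tendsto a atTop (𝓝 A)) (lb : Tendsto b atTop (𝓝 B)) (ld : Tendsto d atTop (𝓝 D)) :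
    ∃ n, (a n = a (n + 1) ∧ b n = b (n + 1) ∧ d n = d (n + 1)) ∨
      Linked (a n) (b n) (a (n + 1)) (d (n + 1)) ∨ Linked (a n) (d n) (a (n + 1)) (b (n + 1)) ∨
      Linked (b n) (d n) (b (n + 1)) (a (n + 1)) ∨ Linked (b n) (a n) (b (n + 1)) (d (n + 1)) ∨
      Linked (d n) (a n) (d (n + 1)) (b (n + 1)) ∨ Linked (d n) (b n) (d (n + 1)) (a (n + 1)) := by
  obtain ⟨x, hx⟩ := arc_nonempty h.ne₁₂
  obtain ⟨y, hy⟩ := arc_nonempty h.ne₂₃
  obtain ⟨z, hz⟩ := arc_nonempty h.ne₁₃.symm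
  have hB : B ∈ arc A D := h
  obtain ⟨θ, -, m, H⟩ := exists_theta_arc1 A
  have := m x
  have := m y
  have := m z
  have := m B
  have := m D
  rw [H] at hx hy hz hB
  have k0 : θ A < θ B ∧ θ B < θ D := by grind
  have k1 : θ A < θ x ∧ θ x < θ B := by grind
  have k2 : θ B < θ y ∧ θ y < θ D := by grind
  have k3 : θ D < θ z := by grind
  have c1 : Cyc z A x := (H z A x).2 (Or.inr (Or.inl ⟨k1.1, by linarith⟩))
  have c2 : Cyc x B y := (H x B y).2 (Or.inl ⟨k1.2, k2.1⟩)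
  have c3 : Cyc y D z := (H y D z).2 (Or.inl ⟨k2.2, k3⟩)
  have c4 : y ∈ arc x z := (H x y z).2 (Or.inl ⟨by linarith, by linarith⟩)
  obtain ⟨N, hN⟩ := eventually_atTop.1
    ((c1.eventually tendsto_const_nhds la tendsto_const_nhds).and
      ((c2.eventually tendsto_const_nhds lb tendsto_const_nhds).and
        (c3.eventually tendsto_const_nhds ld tendsto_const_nhds)))
  obtain ⟨u1, u2, u3⟩ := hN N le_rfl
  obtain ⟨v1, v2, v3⟩ := hN (N + 1) N.le_succ
  exact ⟨N, pack_arc u1 v1 u2 v2 u3 v3 c4⟩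

theorem packing {c : ℝ} (hc : 0 < c) (a b d : ℕ → Circle)
    (h : ∀ n, c ≤ rho (a n) (b n) ∧ c ≤ rho (b n) (d n) ∧ c ≤ rho (a n) (d n)) :
    ∃ n m, n < m ∧ ((a n = a m ∧ b n = b m ∧ d n = d m) ∨
      ∃ x ∈ ({a n, b n, d n} : Set Circle), ∃ y ∈ ({a n, b n, d n} : Set Circle),
      ∃ x' ∈ ({a m, b m, d m} : Set Circle), ∃ y' ∈ ({a m, b m, d m} : Set Circle),
        Linked x y x' y') := by
  obtain ⟨⟨A, B, D⟩, φ, hφ, l⟩ := CompactSpace.tendsto_subseq fun n => (a n, b n, d n)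
  have la : Tendsto (fun n => a (φ n)) atTop (𝓝 A) := l.fst_nhds
  have lb : Tendsto (fun n => b (φ n)) atTop (𝓝 B) := l.snd_nhds.fst_nhds
  have ld : Tendsto (fun n => d (φ n)) atTop (𝓝 D) := l.snd_nhds.snd_nhds
  have m1 : ∀ n, a n ∈ ({a n, b n, d n} : Set Circle) := fun n => Or.inl rfl
  have m2 : ∀ n, b n ∈ ({a n, b n, d n} : Set Circle) := fun n => Or.inr (Or.inl rfl)
  have m3 : ∀ n, d n ∈ ({a n, b n, d n} : Set Circle) := fun n => Or.inr (Or.inr rfl)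
  rcases cyc_total (ne_of_tendsto_arc hc (fun n => (h (φ n)).1) la lb)
    (ne_of_tendsto_arc hc (fun n => (h (φ n)).2.1) lb ld)
    (ne_of_tendsto_arc hc (fun n => (h (φ n)).2.2) la ld) with k | k
  · obtain ⟨n, hn⟩ := pack_lim_arc k la lb ld
    refine ⟨φ n, φ (n + 1), hφ n.lt_succ_self, ?_⟩
    rcases hn with u | u | u | u | u | u | u
    · exact Or.inl u
    · exact Or.inr ⟨_, m1 _, _, m2 _, _, m1 _, _, m3 _, u⟩
    · exact Or.inr ⟨_, m1 _, _, m3 _, _, m1 _, _, m2 _, u⟩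
    · exact Or.inr ⟨_, m2 _, _, m3 _, _, m2 _, _, m1 _, u⟩
    · exact Or.inr ⟨_, m2 _, _, m1 _, _, m2 _, _, m3 _, u⟩
    · exact Or.inr ⟨_, m3 _, _, m1 _, _, m3 _, _, m2 _, u⟩
    · exact Or.inr ⟨_, m3 _, _, m2 _, _, m3 _, _, m1 _, u⟩
  · obtain ⟨n, hn⟩ := pack_lim_arc k ld lb la
    refine ⟨φ n, φ (n + 1), hφ n.lt_succ_self, ?_⟩
    rcases hn with u | u | u | u | u | u | u
    · exact Or.inl ⟨u.2.2, u.2.1, u.1⟩
    · exact Or.inr ⟨_, m3 _, _, m2 _, _, m3 _, _, m1 _, u⟩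
    · exact Or.inr ⟨_, m3 _, _, m1 _, _, m3 _, _, m2 _, u⟩
    · exact Or.inr ⟨_, m2 _, _, m1 _, _, m2 _, _, m3 _, u⟩
    · exact Or.inr ⟨_, m2 _, _, m3 _, _, m2 _, _, m1 _, u⟩
    · exact Or.inr ⟨_, m1 _, _, m3 _, _, m1 _, _, m2 _, u⟩
    · exact Or.inr ⟨_, m1 _, _, m2 _, _, m1 _, _, m3 _, u⟩

private theorem mem_segment_arc {x : ℂ} (hne : p ≠ q) (hx : ‖x‖ ≤ 1) (h : ori p q x = 0) :
    x ∈ segment ℝ (p : ℂ) q := by
  have e1 := sq_circle_cyc p
  have e2 := sq_circle_cyc q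
  have e3 := rho_self_nonneg hx
  have hN : 0 < rho p q := by
    have := circle_dist_sq p q
    have := dist_pos.2 hne
    nlinarith
  unfold rho at e3 hN
  unfold ori at h
  generalize hp1 : (p : ℂ).re = p1 at *
  generalize hp2 : (p : ℂ).im = p2 at *
  generalize hq1 : (q : ℂ).re = q1 at *
  generalize hq2 : (q : ℂ).im = q2 at *
  obtain ⟨N, hNe⟩ : ∃ N, N = 2 * (1 - (p1 * q1 + p2 * q2)) := ⟨_, rfl⟩
  have hN' : 0 < N := by linarith
  have eN : N = (q1 - p1) ^ 2 + (q2 - p2) ^ 2 := by linarith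
  obtain ⟨u, hu⟩ : ∃ u, u * N = (x.re - p1) * (q1 - p1) + (x.im - p2) * (q2 - p2) :=
    ⟨_, div_mul_cancel₀ _ hN'.ne'⟩
  have f1 : x.re = (1 - u) * p1 + u * q1 := by
    apply mul_right_cancel₀ hN'.ne'
    linear_combination (x.re - p1) * eN - (q1 - p1) * hu - (q2 - p2) * h
  have f2 : x.im = (1 - u) * p2 + u * q2 := by
    apply mul_right_cancel₀ hN'.ne'
    linear_combination (x.im - p2) * eN - (q2 - p2) * hu + (q1 - p1) * h
  have f3 : 0 ≤ N * (u * (1 - u)) := by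
    rw [f1, f2] at e3
    have : 1 - (((1 - u) * p1 + u * q1) * ((1 - u) * p1 + u * q1) +
        ((1 - u) * p2 + u * q2) * ((1 - u) * p2 + u * q2)) = N * (u * (1 - u)) := by
      linear_combination (-(1 - u) ^ 2) * e1 - u ^ 2 * e2 - (u * (1 - u)) * hNe
    linarith
  have f4 : 0 ≤ u * (1 - u) := nonneg_of_mul_nonneg_right f3 hN'
  refine ⟨1 - u, u, by nlinarith, by nlinarith, by ring, Complex.ext ?_ ?_⟩
  · simp only [Complex.add_re, Complex.smul_re, smul_eq_mul, hp1, hq1, f1]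
  · simp only [Complex.add_im, Complex.smul_im, smul_eq_mul, hp2, hq2, f2]

private theorem ori_combo_arc (x y z w : ℂ) {s t : ℝ} (h : s + t = 1) :
    ori x y (s • z + t • w) = s * ori x y z + t * ori x y w := by
  simp only [ori, Complex.add_re, Complex.add_im, Complex.smul_re, Complex.smul_im, smul_eq_mul]
  linear_combination ((y.re - x.re) * x.im - (y.im - x.im) * x.re) * h

/-- The chord of an arc separates the arc from points behind it. -/
theorem exists_mem_chord {x₀ : KD} (hζ : ζ ∈ arc p q) (h : 0 ≤ ori p q x₀.val) :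
    ∃ x : KD, x.val ∈ segment ℝ x₀.val ζ ∧ x.val ∈ segment ℝ (p : ℂ) q := by
  have h1 : 0 < ori p ζ q := hζ
  have h2 : 0 < ori p ζ q + ori p q x₀.val := by linarith
  have e : ori p ζ q / (ori p ζ q + ori p q x₀.val) +
      ori p q x₀.val / (ori p ζ q + ori p q x₀.val) = 1 := by
    rw [← add_div, div_self h2.ne']
  have k1 := div_pos h1 h2
  have k2 := div_nonneg h h2.le
  have k3 : ori p q ((ori p ζ q / (ori p ζ q + ori p q x₀.val)) • x₀.val +
      (ori p q x₀.val / (ori p ζ q + ori p q x₀.val)) • (ζ : ℂ)) = 0 := by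
    rw [ori_combo_arc _ _ _ _ e, ori_swap_cyc p ζ q]
    ring
  generalize ori p ζ q / (ori p ζ q + ori p q x₀.val) = s at *
  generalize ori p q x₀.val / (ori p ζ q + ori p q x₀.val) = t at *
  have k4 : ‖s • x₀.val + t • (ζ : ℂ)‖ < 1 := by
    refine (norm_add_le _ _).trans_lt ?_
    rw [norm_smul, norm_smul, Real.norm_of_nonneg k1.le, Real.norm_of_nonneg k2, ζ.norm_coe]
    have := mul_lt_mul_of_pos_left x₀.lt k1
    linarith
  exact ⟨⟨_, k4⟩, ⟨s, t, k1.le, k2, e, rfl⟩, mem_segment_arc (Cyc.ne₁₃ hζ) k4.le k3⟩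

theorem ori_nonneg_of_segment {x : ℂ} (hne : p ≠ q) (hp : p' ∉ arc p q) (hq : q' ∉ arc p q)
    (hx : x ∈ segment ℝ (p' : ℂ) q') : 0 ≤ ori p q x := by
  have _ := hne
  obtain ⟨s, t, hs, ht, e, rfl⟩ := hx
  have h1 : ¬ 0 < ori p p' q := hp
  have h2 : ¬ 0 < ori p q' q := hq
  rw [ori_swap_cyc] at h1 h2
  rw [ori_combo_arc _ _ _ _ e]
  exact add_nonneg (mul_nonneg hs (by linarith)) (mul_nonneg ht (by linarith))

theorem exists_between (hb : b ∈ arc a c) (hb' : d ∈ arc a c) :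
    ∃ ω, ω ∈ arc a c ∧ b ∈ arc a ω ∧ d ∈ arc a ω := by
  obtain ⟨t, t', -, -, -, h1, -, h3, -⟩ := exists_chart a
  have hb : Cyc a b c := hb
  have hd : Cyc a d c := hb'
  have eb := h1 b hb.ne₁₂.symm
  have ec := h1 c hb.ne₁₃.symm
  have ed := h1 d hd.ne₁₂.symm
  rw [← eb, ← ec, h3] at hb
  rw [← ed, ← ec, h3] at hd
  obtain ⟨u, hu, hu'⟩ := _root_.exists_between (max_lt hb hd)
  have k1 := (h3 _ _).2 hu'
  have k2 := (h3 _ _).2 ((le_max_left _ _).trans_lt hu)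
  have k3 := (h3 _ _).2 ((le_max_right _ _).trans_lt hu)
  rw [ec] at k1
  rw [eb] at k2
  rw [ed] at k3
  exact ⟨t' u, k1, k2, k3⟩

private theorem preconn_arc :
    IsPreconnected {t : Circle × Circle × Circle | Cyc t.1 t.2.1 t.2.2} := by
  have c : Continuous fun w : Circle × ℝ × ℝ =>
      ((w.1, w.1 * cay_cyc w.2.1, w.1 * cay_cyc w.2.2) : Circle × Circle × Circle) :=
    continuous_fst.prodMk ((continuous_fst.mul (cay_cont_cyc.comp continuous_snd.fst)).prodMk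
      (continuous_fst.mul (cay_cont_cyc.comp continuous_snd.snd)))
  have hc : Convex ℝ {w : ℝ × ℝ | w.1 < w.2} := by
    have := convex_halfSpace_lt (𝕜 := ℝ) (f := fun w : ℝ × ℝ => w.1 - w.2)
      ⟨fun x y => by simp only [Prod.fst_add, Prod.snd_add]; ring,
        fun s x => by simp only [Prod.smul_fst, Prod.smul_snd, smul_eq_mul]; ring⟩ 0
    simpa only [sub_neg] using this
  have := ((isPreconnected_univ (α := Circle)).prod hc.isPreconnected).image _ c.continuousOn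
  refine (congrArg IsPreconnected (Set.ext ?_)).mp this
  rintro ⟨x, y, z⟩
  constructor
  · rintro ⟨⟨ω, r₁, r₂⟩, ⟨-, hr⟩, e⟩
    rw [← e]
    have := (cyc_mul_cyc ω _ _ _).2 ((cyc_one_cyc r₁ r₂).2 hr)
    rwa [mul_one] at this
  · intro h
    have h : Cyc x y z := h
    have hn : ∀ ξ : Circle, x ≠ ξ → x⁻¹ * ξ ≠ 1 := fun ξ h e => h (inv_mul_eq_one.1 e)
    have ey := cay_inv_cyc (hn y h.ne₁₂)
    have ez := cay_inv_cyc (hn z h.ne₁₃)
    have h' := (cyc_mul_cyc x⁻¹ _ _ _).2 h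
    rw [inv_mul_cancel, ← ey, ← ez, cyc_one_cyc] at h'
    refine ⟨(x, _, _), ⟨mem_univ _, h'⟩, ?_⟩
    simp only [ey, ez, mul_inv_cancel_left]

/-- An injective continuous map of the circle preserves or reverses the cyclic order. -/
theorem cyc_map_or {φ : Circle → Circle} (hφ : Continuous φ) (hi : Function.Injective φ) :
    (∀ a b c, Cyc a b c → Cyc (φ a) (φ b) (φ c)) ∨
      ∀ a b c, Cyc a b c → Cyc (φ c) (φ b) (φ a) := by
  by_contra hc
  rw [not_or] at hc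
  obtain ⟨h1, h2⟩ := hc
  push Not at h1 h2
  obtain ⟨a, b, c, k1, k2⟩ := h1
  obtain ⟨a', b', c', k3, k4⟩ := h2
  have ct : Continuous fun t : Circle × Circle × Circle => ori (φ t.1) (φ t.2.1) (φ t.2.2) :=
    cont_ori_cyc (hφ.comp continuous_fst) (hφ.comp continuous_snd.fst)
      (hφ.comp continuous_snd.snd)
  have k5 : ori (φ a) (φ b) (φ c) ≤ 0 := not_lt.1 k2
  have k6 : 0 ≤ ori (φ a') (φ b') (φ c') := by
    have : ori (φ c') (φ b') (φ a') ≤ 0 := not_lt.1 k4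
    rw [ori_rev_cyc] at this
    linarith
  obtain ⟨⟨x, y, z⟩, k7, k8⟩ := preconn_arc.intermediate_value (a := (a, b, c)) (b := (a', b', c'))
    k1 k3 ct.continuousOn ⟨k5, k6⟩
  have k7 : Cyc x y z := k7
  have k8 : ori (φ x) (φ y) (φ z) = 0 := k8
  rcases cyc_total (hi.ne k7.ne₁₂) (hi.ne k7.ne₂₃) (hi.ne k7.ne₁₃) with k | k
  · exact (ne_of_gt k) k8
  · have k : 0 < ori (φ z) (φ y) (φ x) := k
    rw [ori_rev_cyc, k8] at k
    simp at k

end Pool.Agent.P.MP_788ef7_an
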