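import Pool.Agent.P.MP_788ef7_an.Cyc

set_option autoImplicit false

open Set Filter Topology Metric

namespace Pool.Agent.P.MP_788ef7_an

variable {a b c d p q p' q' r ξ ζ : Circle}

/-- Cutting the circle at a given point. -/
theorem exists_theta_arc1 (ω : Circle) : ∃ θ : Circle → ℝ, (∀ x y, x = y ↔ θ x = θ y) ∧
    (∀ x, θ ω ≤ θ x) ∧ ∀ x y z, y ∈ arc x z ↔
      (θ x < θ y ∧ θ y < θ z) ∨ (θ y < θ z ∧ θ z < θ x) ∨ (θ z < θ x ∧ θ x < θ y) := by
  classical
  obtain ⟨s, s', -, -, h1, h2, h3, h4, h5, -, -⟩ := exists_chart ω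
  let θ : Circle → ℝ := fun x => if x = ω then 0 else Real.exp (s x)
  have e0 : θ ω = 0 := if_pos rfl
  have e1 : ∀ t, θ (s' t) = Real.exp t := fun t => by
    simp only [θ, if_neg (h3 t), h1]
  have hc : ∀ x, x = ω ∨ ∃ t, x = s' t := fun x => by
    by_cases h : x = ω
    exacts [Or.inl h, Or.inr ⟨s x, (h2 x h).symm⟩]
  have p1 : ∀ t : ℝ, ¬ Real.exp t < 0 := fun t => (Real.exp_pos t).le.not_gt
  refine ⟨θ, fun x y => ⟨fun h => h ▸ rfl, fun h => ?_⟩, fun x => ?_, fun x y z => ?_⟩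
  · rcases hc x with rfl | ⟨t, rfl⟩ <;> rcases hc y with rfl | ⟨u, rfl⟩
    · rfl
    · rw [e0, e1] at h
      exact absurd h (Real.exp_pos u).ne
    · rw [e0, e1] at h
      exact absurd h (Real.exp_pos t).ne'
    · rw [e1, e1] at h
      rw [Real.exp_injective h]
  · rcases hc x with rfl | ⟨t, rfl⟩
    · exact le_rfl
    · rw [e0, e1]
      exact (Real.exp_pos t).le
  · show Cyc x y z ↔ _
    rcases hc x with hx | ⟨t, rfl⟩ <;> rcases hc y with hy | ⟨u, rfl⟩ <;>
      rcases hc z with hz | ⟨v, rfl⟩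
    · rw [hx, hy, hz]
      exact ⟨fun h => absurd rfl h.ne₁₂, by simp⟩
    · rw [hx, hy]
      exact ⟨fun h => absurd rfl h.ne₁₂, by simp [e0, e1, p1]⟩
    · rw [hx, hz]
      exact ⟨fun h => absurd rfl h.ne₁₃, by simp [e0, e1, p1]⟩
    · rw [hx, h4]
      simp [e0, e1, p1, Real.exp_pos]
    · rw [hy, hz]
      exact ⟨fun h => absurd rfl h.ne₂₃, by simp [e0, e1, p1]⟩
    · rw [hy]
      refine Iff.trans ⟨fun h => h.rot, fun h => h.rot.rot⟩ ?_
      rw [h4]
      simp [e0, e1, p1, Real.exp_pos]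
    · rw [hz]
      refine Iff.trans ⟨fun h => h.rot.rot, fun h => h.rot⟩ ?_
      rw [h4]
      simp [e0, e1, p1, Real.exp_pos]
    · rw [h5]
      simp [e1]

theorem arc_eq_or_disjoint (h₁ : p ∉ arc p' q') (h₂ : q ∉ arc p' q') (h₃ : p' ∉ arc p q)
    (h₄ : q' ∉ arc p q) : (p = p' ∧ q = q') ∨ Disjoint (arc p q) (arc p' q') := by
  refine or_iff_not_imp_right.2 fun h => ?_
  obtain ⟨x, k1, k2⟩ := Set.not_disjoint_iff.1 h
  obtain ⟨θ, e, m, H⟩ := exists_theta_arc1 x
  have := m p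
  have := m q
  have := m p'
  have := m q'
  rw [H] at h₁ h₂ h₃ h₄ k1 k2
  rw [e, e]
  grind

theorem arc_subset (h : ζ ∈ arc p q) (h' : ζ ∈ arc p' q') (h₁ : p ∉ arc p' q') (h₂ : q ∉ arc p' q') :
    arc p' q' ⊆ arc p q := by
  intro x hx
  obtain ⟨θ, -, m, H⟩ := exists_theta_arc1 ζ
  have := m p
  have := m q
  have := m p'
  have := m q'
  have := m x
  rw [H] at h h' h₁ h₂ hx ⊢
  grind

theorem arc_subset_ends (h : arc p' q' ⊆ arc p q) (hne : p' ≠ q') :
    p ∉ arc p' q' ∧ q ∉ arc p' q' :=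
  ⟨fun k => left_notMem_arc p q (h k), fun k => right_notMem_arc p q (h k)⟩

theorem arc_inj (hne : p ≠ q) (h : arc p q = arc p' q') : p = p' ∧ q = q' := by
  refine (arc_eq_or_disjoint (h ▸ left_notMem_arc p q) (h ▸ right_notMem_arc p q)
    (h ▸ left_notMem_arc p' q') (h ▸ right_notMem_arc p' q')).resolve_right fun k => ?_
  rw [← h, disjoint_self] at k
  exact (arc_nonempty hne).ne_empty k

theorem not_linked_of_disjoint (h : Disjoint (arc p q) (arc p' q')) (hne : p ≠ q) (hne' : p' ≠ q')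
    (ha : a ∈ closure (arc p q)) (hb : b ∈ closure (arc p q)) (hc : c ∈ closure (arc p' q'))
    (hd : d ∈ closure (arc p' q')) : ¬ Linked a b c d := by
  have k : Disjoint (arc p q) (closure (arc p' q')) := h.closure_right (isOpen_arc p q)
  have kc : c ∉ arc p q := fun t => Set.disjoint_left.1 k t hc
  have kd : d ∉ arc p q := fun t => Set.disjoint_left.1 k t hd
  rw [closure_arc hne, mem_insert_iff, mem_insert_iff] at ha hb
  obtain ⟨θ, e, m, H⟩ := exists_theta_arc1 p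
  have := m q
  have := m a
  have := m b
  have := m c
  have := m d
  rw [linked_iff]
  rw [Ne, e] at hne
  rw [e, e, H] at ha hb
  rw [H] at kc kd
  rw [H, H, H, H]
  grind

theorem mem_arc_of_outside (hp : p ∈ arc r a) (hq : q ∈ arc r a) (hζ : ζ ∈ arc a r)
    (h : ζ ∈ arc p q) : a ∈ arc p q ∧ r ∈ arc p q := by
  obtain ⟨θ, -, m, H⟩ := exists_theta_arc1 ζ
  have := m p
  have := m q
  have := m a
  have := m r
  rw [H] at hp hq hζ h
  rw [H, H]
  grind

theorem arc_subset_of_mem (hp : p' ∈ closure (arc p q)) (hq : q' ∈ closure (arc p q))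
    (hne : p' ≠ q') : arc p' q' ⊆ arc p q ∨ arc q' p' ⊆ arc p q := by
  have hpq : p ≠ q := by
    rintro rfl
    have : arc p p = ∅ := eq_empty_of_forall_notMem fun x hx => Cyc.ne₁₃ hx rfl
    rw [this, closure_empty] at hp
    exact hp
  rw [closure_arc hpq, mem_insert_iff, mem_insert_iff] at hp hq
  obtain ⟨θ, e, m, H⟩ := exists_theta_arc1 p
  have := m q
  have := m p'
  have := m q'
  rw [e, e, H] at hp hq
  rw [Ne, e] at hne hpq
  rcases lt_or_gt_of_ne hne with k | k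
  · refine Or.inl fun x hx => ?_
    have := m x
    rw [H] at hx ⊢
    grind
  · refine Or.inr fun x hx => ?_
    have := m x
    rw [H] at hx ⊢
    grind

theorem subset_closure_of_not_linked {s : Set Circle} (hne : p ≠ q)
    (h : ∀ x ∈ s, ∀ y ∈ s, ¬ Linked p q x y) (hξ : ξ ∈ s) (hξ' : ξ ∈ arc p q) :
    s ⊆ closure (arc p q) := by
  intro y hy
  rw [closure_arc hne]
  rcases arc_trichotomy hne y with k | k | k | k
  · exact Or.inl k
  · exact Or.inr (Or.inl k)
  · exact Or.inr (Or.inr k)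
  · exact absurd (linked_iff.2 (Or.inl ⟨hξ', k⟩)) (h ξ hξ y hy)

end Pool.Agent.P.MP_788ef7_an
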