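import Pool.Agent.P.MP_788ef7_an.SB2

set_option autoImplicit false
set_option linter.unusedSectionVars false

open Set Filter Topology Metric

namespace Pool.Agent.P.MP_788ef7_an

theorem exists_param_atl (E U : Type*) [NormedAddCommGroup E] [NormedSpace ℝ E]
    [FiniteDimensional ℝ E] [NormedAddCommGroup U] [NormedSpace ℝ U] [FiniteDimensional ℝ U] :
    ∃ c : ℝ, 0 ≤ c ∧ ∀ W : Submodule ℝ E, Module.finrank ℝ W = Module.finrank ℝ U →
      ∃ A : U →L[ℝ] E, (∀ u, A u ∈ W) ∧ (∀ w ∈ W, ∃ u, A u = w) ∧ (∀ u, ‖A u‖ ≤ c * ‖u‖) ∧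
        ∀ u, ‖u‖ ≤ c * ‖A u‖ := by
  obtain ⟨φ⟩ : Nonempty (E ≃L[ℝ] EuclideanSpace ℝ (Fin (Module.finrank ℝ E))) := ⟨toEuclidean⟩
  obtain ⟨ψ⟩ : Nonempty (U ≃L[ℝ] EuclideanSpace ℝ (Fin (Module.finrank ℝ U))) := ⟨toEuclidean⟩
  obtain ⟨a, a0, ha⟩ := φ.toContinuousLinearMap.bound
  obtain ⟨a', a0', ha'⟩ := φ.symm.toContinuousLinearMap.bound
  obtain ⟨b, b0, hb⟩ := ψ.toContinuousLinearMap.bound
  obtain ⟨b', b0', hb'⟩ := ψ.symm.toContinuousLinearMap.bound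
  refine ⟨a' * b + b' * a, by positivity, fun W hW => ?_⟩
  have h : Module.finrank ℝ (W.map φ.toLinearEquiv.toLinearMap) = Module.finrank ℝ U := by
    rw [LinearEquiv.finrank_map_eq, hW]
  obtain ⟨i⟩ : Nonempty (EuclideanSpace ℝ (Fin (Module.finrank ℝ U)) ≃ₗᵢ[ℝ]
    W.map φ.toLinearEquiv.toLinearMap) :=
    ⟨((stdOrthonormalBasis ℝ _).reindex (finCongr h)).repr.symm⟩
  refine ⟨φ.symm.toContinuousLinearMap ∘L (Submodule.subtypeL _) ∘L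
    i.toContinuousLinearEquiv.toContinuousLinearMap ∘L ψ.toContinuousLinearMap,
    fun u => ?_, fun w hw => ?_, fun u => ?_, fun u => ?_⟩
  · obtain ⟨w, hw, e⟩ := (i (ψ u)).2
    change φ.symm (i (ψ u)) ∈ W
    rw [← e]
    simpa using hw
  · refine ⟨ψ.symm (i.symm ⟨φ w, w, hw, rfl⟩), ?_⟩
    simp
  · change ‖φ.symm (i (ψ u))‖ ≤ _
    have e1 : ‖φ.symm (i (ψ u))‖ ≤ a' * ‖i (ψ u)‖ := ha' _
    have e2 : ‖ψ u‖ ≤ b * ‖u‖ := hb u
    rw [i.norm_map] at e1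
    have e3 : 0 ≤ b' * a * ‖u‖ := by positivity
    nlinarith
  · change _ ≤ _ * ‖φ.symm (i (ψ u))‖
    have e1 : ‖φ (φ.symm (i (ψ u)))‖ ≤ a * ‖φ.symm (i (ψ u))‖ := ha _
    have e2 : ‖ψ.symm (ψ u)‖ ≤ b' * ‖ψ u‖ := hb' _
    rw [φ.apply_symm_apply, ← Submodule.coe_norm, i.norm_map] at e1
    rw [ψ.symm_apply_apply] at e2
    have e3 : 0 ≤ a' * b * ‖φ.symm (i (ψ u))‖ := by positivity
    nlinarith

theorem unif_atl {X E Z : Type*} [TopologicalSpace X] [NormedAddCommGroup E] [PseudoMetricSpace Z]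
    {e : X → E} (he : Continuous e) (hi : Function.Injective e) {K : Set X} (hK : IsCompact K)
    {F : X → Z} (hF : Continuous F) {ε : ℝ} (hε : 0 < ε) :
    ∀ᶠ δ in 𝓝[>] (0 : ℝ), ∀ a ∈ K, ∀ b ∈ K, ‖e a - e b‖ ≤ δ → dist (F a) (F b) ≤ ε := by
  obtain ⟨m, hm, h⟩ := ((hK.prod hK).inter_right (t := {p | ε ≤ dist (F p.1) (F p.2)})
    (isClosed_le continuous_const (by fun_prop))).exists_forall_le'
    (f := fun p : X × X => ‖e p.1 - e p.2‖) (a := 0) (by fun_prop) fun p hp =>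
      norm_pos_iff.2 (sub_ne_zero.2 fun h0 => by
        have h1 : ε ≤ dist (F p.1) (F p.2) := hp.2
        rw [hi h0, dist_self] at h1
        exact absurd hε h1.not_gt)
  filter_upwards [Ioo_mem_nhdsGT hm] with δ hδ a ha b hb hab
  by_contra hc
  exact absurd (h (a, b) ⟨⟨ha, hb⟩, (not_le.1 hc).le⟩) (not_le.2 (hab.trans_lt hδ.2))

namespace Setting

variable {𝔾 X E : Type*} [Group 𝔾] [MetricSpace X] [MulAction 𝔾 X] [ProperSpace X]
  [NormedAddCommGroup E] [NormedSpace ℝ E] [FiniteDimensional ℝ E] {S : Setting 𝔾 X E}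
  {g g' G G' γ c w : 𝔾} {p p' q x y z : X} {C : Subgroup 𝔾} {K : Set X} {R : ℝ}
  {V U : Type*} [NormedAddCommGroup V] [NormedSpace ℝ V] [FiniteDimensional ℝ V]
  [NormedAddCommGroup U] [NormedSpace ℝ U] [FiniteDimensional ℝ U]

/-- Uniformly bounded frames adapted to the splitting over a compact set. -/
theorem exists_frames (S : Setting 𝔾 X E) (hV : Module.finrank ℝ V = S.s)
    (hU : Module.finrank ℝ U = S.u) (hK : IsCompact K) : ∃ (L : X → (V × U) ≃L[ℝ] E) (c : ℝ),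
      ∀ x ∈ K, (∀ v : V × U, S.Q x (L x v) = L x (0, v.2)) ∧ (∀ v, ‖L x v‖ ≤ c * ‖v‖) ∧
        ∀ w, ‖(L x).symm w‖ ≤ c * ‖w‖ := by
  obtain ⟨a, a0, ha⟩ := exists_param_atl E U
  obtain ⟨b, b0, hb⟩ := exists_param_atl E V
  obtain ⟨M, M0, hM⟩ := (hK.image S.contQ).isBounded.exists_pos_norm_le
  have key : ∀ x, ∃ L : (V × U) ≃L[ℝ] E, x ∈ K → (∀ v : V × U, S.Q x (L v) = L (0, v.2)) ∧
      (∀ v, ‖L v‖ ≤ (a + b) * (1 + M) * ‖v‖) ∧ ∀ w, ‖L.symm w‖ ≤ (a + b) * (1 + M) * ‖w‖ := by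
    intro x
    obtain ⟨A, a1, a2, a3, a4⟩ := ha _ ((S.rank_u x).trans hU.symm)
    obtain ⟨B, b1, b2, b3, b4⟩ := hb _ ((S.rank_s x).trans hV.symm)
    have hQ : ∀ v : V × U, S.Q x (B v.1 + A v.2) = A v.2 := fun v => by
      obtain ⟨w, hw⟩ := a1 v.2
      have e : S.Q x (B v.1) = 0 := b1 v.1
      rw [map_add, e, zero_add, ← hw]
      exact S.idem x w
    have hbij : Function.Bijective (B.coprod A).toLinearMap := by
      refine ⟨(injective_iff_map_eq_zero _).2 fun v hv => ?_, fun w => ?_⟩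
      · have e : B v.1 + A v.2 = 0 := hv
        have e1 := hQ v
        rw [e, map_zero] at e1
        rw [← e1, add_zero] at e
        have e2 := a4 v.2
        have e3 := b4 v.1
        rw [← e1, norm_zero, mul_zero] at e2
        rw [e, norm_zero, mul_zero] at e3
        exact Prod.ext (norm_le_zero_iff.1 e3) (norm_le_zero_iff.1 e2)
      · obtain ⟨u, hu⟩ := a2 (S.Q x w) ⟨w, rfl⟩
        obtain ⟨v, hv⟩ := b2 (w - S.Q x w) (by simp [S.idem])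
        exact ⟨(v, u), by simp [hu, hv]⟩
    obtain ⟨L, hL⟩ : ∃ L : (V × U) ≃L[ℝ] E, ∀ v, L v = B v.1 + A v.2 :=
      ⟨(LinearEquiv.ofBijective _ hbij).toContinuousLinearEquiv, fun _ => rfl⟩
    refine ⟨L, fun hx => ⟨fun v => by simp [hL, hQ], fun v => ?_, fun w => ?_⟩⟩
    · have e1 := (a3 v.2).trans (mul_le_mul_of_nonneg_left (norm_snd_le v) a0)
      have e2 := (b3 v.1).trans (mul_le_mul_of_nonneg_left (norm_fst_le v) b0)
      have e3 : 0 ≤ (a + b) * M * ‖v‖ := by positivity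
      rw [hL]
      linarith [norm_add_le (B v.1) (A v.2)]
    · obtain ⟨v, rfl⟩ := L.surjective w
      have e1 : ‖A v.2‖ ≤ M * ‖L v‖ := by
        rw [← hQ, ← hL]
        exact (S.Q x).le_of_opNorm_le (hM _ ⟨x, hx, rfl⟩) _
      have e2 : ‖B v.1‖ ≤ ‖L v‖ + ‖A v.2‖ := by
        rw [hL]
        exact norm_le_add_norm_add _ _
      have e3 := (a4 v.2).trans (mul_le_mul_of_nonneg_left e1 a0)
      have e4 := (b4 v.1).trans (mul_le_mul_of_nonneg_left (e2.trans (add_le_add_right e1 _)) b0)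
      have e5 : 0 ≤ a * ‖L v‖ := by positivity
      have e6 : 0 ≤ b * ‖L v‖ := by positivity
      have e7 : 0 ≤ a * M * ‖L v‖ := by positivity
      have e8 : 0 ≤ b * M * ‖L v‖ := by positivity
      rw [L.symm_apply_apply]
      exact norm_prod_le_iff.2 ⟨by linarith, by linarith⟩
  choose L hL using key
  exact ⟨L, _, hL⟩

/-- The linear algebra of one step: `D` intertwines `Q` and `Q'`, and `Q''` is close to `Q'`. -/
theorem exists_blk {c : ℝ} (hc : 1 ≤ c) : ∃ θ > 0, ∃ η > 0, ∀ (M : ℝ), 1 ≤ M →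
    ∀ (D Q Q' Q'' : E →L[ℝ] E) (L L' : (V × U) ≃L[ℝ] E),
      (∀ v : V × U, Q (L v) = L (0, v.2)) → (∀ v : V × U, Q'' (L' v) = L' (0, v.2)) →
      (∀ v, ‖L v‖ ≤ c * ‖v‖) → (∀ w, ‖L.symm w‖ ≤ c * ‖w‖) → (∀ v, ‖L' v‖ ≤ c * ‖v‖) →
      (∀ w, ‖L'.symm w‖ ≤ c * ‖w‖) → (∀ v, Q' (D v) = D (Q v)) → ‖D‖ ≤ M →
      (∀ v, Q v = 0 → ‖D v‖ ≤ θ * ‖v‖) → (∀ v, Q v = v → ‖v‖ ≤ θ * ‖D v‖) →
      M * ‖Q'' - Q'‖ ≤ η → ∃ As Au, Blk (1 / 4) 4 As Au ∧
        ∀ v : V × U, ‖L'.symm (D (L v)) - (As v.1, Au v.2)‖ ≤ 1 / 16 * ‖v‖ := by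
  have c0 : 0 < c := zero_lt_one.trans_le hc
  refine ⟨1 / (8 * c ^ 2), by positivity, 1 / (16 * c ^ 2), by positivity,
    fun M hM D Q Q' Q'' L L' h1 h2 h3 h4 h5 h6 h7 h8 h9 h10 h11 => ?_⟩
  have k1 : ∀ v, ‖L'.symm ((Q'' - Q') (D (L v)))‖ ≤ 1 / 16 * ‖v‖ := fun v => by
    calc _ ≤ c * (‖Q'' - Q'‖ * (M * (c * ‖v‖))) :=
          (h6 _).trans (mul_le_mul_of_nonneg_left (((Q'' - Q').le_opNorm _).trans
            (mul_le_mul_of_nonneg_left ((D.le_of_opNorm_le h8 _).trans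
              (mul_le_mul_of_nonneg_left (h3 v) (by linarith))) (norm_nonneg _))) c0.le)
      _ = M * ‖Q'' - Q'‖ * (c ^ 2 * ‖v‖) := by ring
      _ ≤ 1 / (16 * c ^ 2) * (c ^ 2 * ‖v‖) := mul_le_mul_of_nonneg_right h11 (by positivity)
      _ = _ := by field_simp
  have k2 : ∀ w, L'.symm (Q'' w) = (0, (L'.symm w).2) := fun w => by
    rw [L'.symm_apply_eq, ← h2, L'.apply_symm_apply]
  have k3 : ∀ a, ‖(L'.symm (D (L (a, 0)))).2‖ ≤ 1 / 16 * ‖a‖ := fun a => by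
    have e := k1 (a, 0)
    rw [sub_apply, h7, h1, Prod.mk_zero_zero, map_zero, map_zero, sub_zero,
      k2] at e
    simpa using e
  have k4 : ∀ b, ‖(L'.symm (D (L (0, b)))).1‖ ≤ 1 / 16 * ‖b‖ := fun b => by
    have e := (norm_fst_le _).trans (k1 (0, b))
    rw [sub_apply, h7, h1, map_sub, k2] at e
    simpa using e
  have k5 : ∀ a, ‖(L'.symm (D (L (a, 0)))).1‖ ≤ 1 / 4 * ‖a‖ := fun a => by
    have e1 := h9 (L (a, 0)) (by rw [h1, Prod.mk_zero_zero, map_zero])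
    have e2 : ‖L (a, 0)‖ ≤ c * ‖a‖ := by simpa using h3 (a, 0)
    calc _ ≤ c * (1 / (8 * c ^ 2) * (c * ‖a‖)) := (norm_fst_le _).trans ((h6 _).trans
          (mul_le_mul_of_nonneg_left (e1.trans (mul_le_mul_of_nonneg_left e2 (by positivity)))
            c0.le))
      _ = 1 / 8 * ‖a‖ := by field_simp
      _ ≤ _ := by linarith [norm_nonneg a]
  have k6 : ∀ b, 4 * ‖b‖ ≤ ‖(L'.symm (D (L (0, b)))).2‖ := fun b => by
    have e1 := h10 (L (0, b)) (h1 _)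
    have e2 : ‖b‖ ≤ c * ‖L (0, b)‖ := by simpa using h4 (L (0, b))
    have e3 : ‖D (L (0, b))‖ ≤ c * ‖L'.symm (D (L (0, b)))‖ := by
      simpa using h5 (L'.symm (D (L (0, b))))
    have e4 : ‖b‖ ≤ 1 / 8 * ‖L'.symm (D (L (0, b)))‖ :=
      calc _ ≤ c * (1 / (8 * c ^ 2) * (c * ‖L'.symm (D (L (0, b)))‖)) := e2.trans
            (mul_le_mul_of_nonneg_left (e1.trans (mul_le_mul_of_nonneg_left e3 (by positivity)))
              c0.le)
        _ = _ := by field_simp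
    have e5 := k4 b
    have e6 := norm_nonneg (L'.symm (D (L (0, b)))).2
    rw [Prod.norm_def] at e4
    rcases max_cases ‖(L'.symm (D (L (0, b)))).1‖ ‖(L'.symm (D (L (0, b)))).2‖ with
      ⟨t, -⟩ | ⟨t, -⟩ <;> rw [t] at e4 <;> linarith [norm_nonneg b]
  obtain ⟨Φ, hΦ⟩ : ∃ Φ : V × U →L[ℝ] V × U, ∀ v, Φ v = L'.symm (D (L v)) :=
    ⟨L'.symm.toContinuousLinearMap ∘L D ∘L L.toContinuousLinearMap, fun _ => rfl⟩
  simp only [← hΦ] at k3 k4 k5 k6 ⊢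
  have hinj : Function.Injective (ContinuousLinearMap.snd ℝ V U ∘L Φ ∘L
      ContinuousLinearMap.inr ℝ V U).toLinearMap :=
    (injective_iff_map_eq_zero _).2 fun b hb => by
      have e : (Φ (0, b)).2 = 0 := hb
      have e1 := k6 b
      rw [e, norm_zero] at e1
      exact norm_le_zero_iff.1 (by linarith)
  refine ⟨ContinuousLinearMap.fst ℝ V U ∘L Φ ∘L ContinuousLinearMap.inl ℝ V U,
    (LinearEquiv.ofInjectiveEndo _ hinj).toContinuousLinearEquiv, ⟨k5, k6⟩, fun v => ?_⟩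
  change ‖Φ v - ((Φ (v.1, 0)).1, (Φ (0, v.2)).2)‖ ≤ _
  have e : Φ v = Φ (v.1, 0) + Φ (0, v.2) := by rw [← map_add]; simp
  rw [e]
  refine norm_prod_le_iff.2 ⟨?_, ?_⟩
  · simpa using (k4 v.2).trans (mul_le_mul_of_nonneg_left (norm_snd_le v) (by norm_num))
  · simpa using (k3 v.1).trans (mul_le_mul_of_nonneg_left (norm_fst_le v) (by norm_num))

theorem exists_atl (S : Setting 𝔾 X E) (hV : Module.finrank ℝ V = S.s)
    (hU : Module.finrank ℝ U = S.u) : ∃ (N : ℕ) (γ₀ : X → 𝔾) (L : X → (V × U) ≃L[ℝ] E)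
      (κ : X → X → V × U) (τ : X → V × U → X) (ρ r : ℝ), S.Atl N γ₀ L κ τ ρ r := by
  classical
  have : Nonempty X := ⟨S.nonempty.some⟩
  have : ProperSpace E := FiniteDimensional.proper_real E
  have ce := S.emb.continuous
  have ie := S.emb.injective
  obtain ⟨K₀, hK₀, h0⟩ := S.exists_cpt 1
  obtain ⟨γ, g0, g1⟩ : ∃ γ : X → 𝔾, (∀ x, S.ht (γ x) = 0) ∧
      ∀ x ∈ S.Λ, ∀ z, dist z x ≤ 1 → γ x • z ∈ K₀ := by
    choose! γ g0 g1 using h0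
    refine ⟨fun x => if x ∈ S.Λ then γ x else 1, fun x => ?_, fun x hx => ?_⟩
    · beta_reduce
      split_ifs with hx
      exacts [g0 x hx, S.ht_one]
    · simpa only [if_pos hx] using g1 x hx
  have g2 : ∀ x ∈ S.Λ, γ x • x ∈ K₀ := fun x hx => g1 x hx x (by simp)
  obtain ⟨L, c, hc, l1, l2, l3⟩ : ∃ (L : X → (V × U) ≃L[ℝ] E) (c : ℝ), 1 ≤ c ∧
      (∀ x ∈ K₀, ∀ v : V × U, S.Q x (L x v) = L x (0, v.2)) ∧
      (∀ x ∈ K₀, ∀ v, ‖L x v‖ ≤ c * ‖v‖) ∧ ∀ x ∈ K₀, ∀ w, ‖(L x).symm w‖ ≤ c * ‖w‖ := by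
    obtain ⟨L, c, h⟩ := S.exists_frames hV hU hK₀
    exact ⟨L, max c 1, le_max_right _ _, fun x hx => (h x hx).1,
      fun x hx v => ((h x hx).2.1 v).trans (by gcongr; exact le_max_left _ _),
      fun x hx v => ((h x hx).2.2 v).trans (by gcongr; exact le_max_left _ _)⟩
  have c0 : 0 < c := zero_lt_one.trans_le hc
  obtain ⟨θ, θ0, η, η0, hb⟩ := exists_blk (E := E) (V := V) (U := U) hc
  obtain ⟨C, hC⟩ := S.rate K₀ hK₀
  obtain ⟨N, hN, hθ⟩ : ∃ N : ℕ, 1 ≤ N ∧ C * S.lam ^ N ≤ θ := by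
    have h := (tendsto_pow_atTop_nhds_zero_of_lt_one S.lam_pos.le S.lam_lt).const_mul C
    rw [mul_zero] at h
    exact ((eventually_ge_atTop 1).and (h.eventually (eventually_le_nhds θ0))).exists
  have hF := S.finite_meet hK₀ hK₀ N
  obtain ⟨M, hM, m1⟩ : ∃ M : ℝ, 1 ≤ M ∧ ∀ g, S.ht g = N → ∀ y ∈ K₀, g • y ∈ K₀ →
      ‖S.D g y‖ ≤ M := by
    obtain ⟨M, h⟩ := (hF.isCompact_biUnion fun g _ =>
      hK₀.image (S.continuous_D g)).isBounded.exists_norm_le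
    exact ⟨max M 1, le_max_right _ _, fun g hg y hy hy' =>
      (h _ (mem_biUnion (t := fun g => S.D g '' K₀) ⟨hg, y, hy, hy'⟩ ⟨y, hy, rfl⟩)).trans
        (le_max_left _ _)⟩
  obtain ⟨δ₀, d0, d1⟩ := (hK₀.image ce).exists_cthickening_subset_open S.emb.isOpen_range
    (image_subset_range _ _)
  obtain ⟨K₁, hK₁, k1⟩ : ∃ K₁ : Set X, IsCompact K₁ ∧ ∀ y ∈ K₀, ∀ w, ‖w - S.e y‖ ≤ δ₀ →
      ∃ z ∈ K₁, S.e z = w := by
    refine ⟨_, S.isCompact_preimage ((hK₀.image ce).cthickening (r := δ₀)) d1, fun y hy w hw => ?_⟩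
    have h := mem_cthickening_of_dist_le w _ δ₀ _ (mem_image_of_mem S.e hy)
      (by rwa [dist_eq_norm])
    obtain ⟨z, rfl⟩ := d1 h
    exact ⟨z, h, rfl⟩
  have k2 : ∀ y ∈ K₀, ∀ z, ‖S.e z - S.e y‖ ≤ δ₀ → z ∈ K₁ := fun y hy z hz => by
    obtain ⟨z', h, e⟩ := k1 y hy _ hz
    rwa [← ie e]
  have k3 : ∀ y ∈ K₀, y ∈ K₁ := fun y hy => k2 y hy y (by simpa using d0.le)
  have ε0 : 0 < 1 / (16 * c ^ 2) := by positivity
  obtain ⟨δ, ⟨⟨u1, u2⟩, d2⟩⟩ := (((unif_atl ce ie hK₁ S.contQ ε0).and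
    ((eventually_all_finite hF).2 fun g _ => unif_atl ce ie hK₁ (S.continuous_D g) ε0)).and
    (Ioc_mem_nhdsGT d0)).exists
  obtain ⟨ρ, ρ0, ρ1, u3⟩ : ∃ ρ > 0, ρ ≤ 1 ∧ ∀ a ∈ K₀, ∀ b ∈ K₀, dist a b ≤ ρ →
      M * ‖S.Q a - S.Q b‖ ≤ η := by
    obtain ⟨ρ, ρ0, h⟩ := Metric.uniformContinuousOn_iff_le.1
      (hK₀.uniformContinuousOn_of_continuous S.contQ.continuousOn) (η / M) (by positivity)
    refine ⟨min ρ 1, by positivity, min_le_right _ _, fun a ha b hb hab => ?_⟩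
    rw [← le_div_iff₀' (by positivity), ← dist_eq_norm]
    exact h a ha b hb (hab.trans (min_le_left _ _))
  have b1 : ∀ y ∈ K₀, ∀ {δ : ℝ} (v : V × U), ‖v‖ ≤ δ / c → ‖L y v‖ ≤ δ := fun y hy δ v hv =>
    (l2 y hy v).trans ((le_div_iff₀' c0).1 hv)
  have b2 : ∀ y ∈ K₀, ∀ w, ‖(L y).symm w‖ ≤ δ / c → ‖w‖ ≤ δ := fun y hy w hw => by
    simpa using b1 y hy _ hw
  have b3 : ∀ y ∈ K₀, ∀ y' ∈ K₀, ∀ w v, ‖w‖ ≤ 1 / (16 * c ^ 2) * ‖L y v‖ →
      ‖(L y').symm w‖ ≤ 1 / 16 * ‖v‖ := fun y hy y' hy' w v h =>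
    calc _ ≤ c * (1 / (16 * c ^ 2) * (c * ‖v‖)) := (l3 y' hy' w).trans
          (mul_le_mul_of_nonneg_left (h.trans (mul_le_mul_of_nonneg_left (l2 y hy v) ε0.le)) c0.le)
      _ = _ := by field_simp
  refine ⟨N, γ, fun x => L (γ x • x), fun x a => (L (γ x • x)).symm (S.e (γ x • a) - S.e (γ x • x)),
    fun x v => (γ x)⁻¹ • Function.invFun S.e (S.e (γ x • x) + L (γ x • x) v), ρ, δ / c, hN, ρ0,
    div_pos d2.1 c0, g0, fun _ _ => rfl, fun x a => ?_, fun x hx v hv => ?_, fun r' hr' => ?_,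
    fun ρ' hρ' => ?_, fun x hx x' hx' hd => ?_, fun x hx a ha v => ?_,
    ⟨c, fun x hx => ⟨l2 _ (g2 x hx), l3 _ (g2 x hx)⟩⟩,
    K₁, hK₁, fun x hx a ha => k2 _ (g2 x hx) _ ((b2 _ (g2 x hx) _ ha).trans d2.2)⟩
  · rw [ContinuousLinearEquiv.apply_symm_apply, add_sub_cancel, Function.leftInverse_invFun ie,
      inv_smul_smul]
  · obtain ⟨z, -, e⟩ := k1 _ (g2 x hx) (S.e (γ x • x) + L (γ x • x) v)
      (by rw [add_sub_cancel_left]; exact (b1 _ (g2 x hx) v hv).trans d2.2)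
    rw [smul_inv_smul, Function.invFun_eq ⟨z, e⟩, add_sub_cancel_left,
      ContinuousLinearEquiv.symm_apply_apply]
  · obtain ⟨ρ', p0, h⟩ := Metric.uniformContinuousOn_iff_le.1
      (hK₀.uniformContinuousOn_of_continuous ce.continuousOn) (r' / c) (by positivity)
    refine ⟨min ρ' 1, by positivity, fun x hx a ha => (l3 _ (g2 x hx) _).trans ?_⟩
    rw [← le_div_iff₀' c0, ← dist_eq_norm]
    refine h _ (g1 x hx a (ha.trans (min_le_right _ _))) _ (g2 x hx) ?_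
    rw [S.iso _ (g0 x)]
    exact ha.trans (min_le_left _ _)
  · obtain ⟨δ', h, d3⟩ := ((unif_atl ce ie hK₁ continuous_id hρ').and (Ioc_mem_nhdsGT d0)).exists
    refine ⟨δ' / c, div_pos d3.1 c0, fun x hx v hv => ?_⟩
    have e1 := b1 _ (g2 x hx) v hv
    obtain ⟨z, hz, e⟩ := k1 _ (g2 x hx) (S.e (γ x • x) + L (γ x • x) v)
      (by rw [add_sub_cancel_left]; exact e1.trans d3.2)
    rw [← S.iso _ (g0 x), smul_inv_smul, ← e, Function.leftInverse_invFun ie]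
    exact h z hz _ (k3 _ (g2 x hx)) (by rwa [e, add_sub_cancel_left])
  · obtain ⟨g, hg, e⟩ : ∃ g, S.ht g = N ∧ ∀ a : X, g • γ x • a = γ x' • S.t ^ N • a :=
      ⟨γ x' * S.t ^ N * (γ x)⁻¹, by simp [S.ht_mul, S.ht_inv, S.ht_pow, g0, S.ht_t],
        fun a => by rw [mul_smul, mul_smul, inv_smul_smul]⟩
    have y1 := g2 x hx
    have y2 := g2 x' hx'
    have y3 : g • γ x • x ∈ K₀ := by
      rw [e]
      exact g1 x' hx' _ (hd.trans ρ1)
    obtain ⟨As, Au, hA, h⟩ := hb M hM (S.D g (γ x • x)) _ (S.Q (g • γ x • x)) _ _ _ (l1 _ y1)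
      (l1 _ y2) (l2 _ y1) (l3 _ y1) (l2 _ y2) (l3 _ y2) (S.Q_D g _) (m1 g hg _ y1 y3)
      (fun v hv => (hC g N _ y1 y3 v (Or.inl ⟨hg, hv⟩)).trans (by gcongr))
      (fun v hv => by
        have e1 := hC g⁻¹ N _ y3 (by rwa [inv_smul_smul]) (S.D g (γ x • x) v)
          (Or.inr ⟨by rw [S.ht_inv, hg], by rw [S.Q_D, hv]⟩)
        have e2 : ‖S.D g⁻¹ (g • γ x • x) (S.D g (γ x • x) v)‖ ≤ _ := e1
        rw [S.D_inv_apply] at e2
        exact e2.trans (by gcongr))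
      (u3 _ y2 _ y3 (by rwa [e, S.iso _ (g0 x'), dist_comm]))
    refine ⟨As, Au, hA, fun a b ha hb => ?_⟩
    have hz : ∀ w ∈ closedBall (S.e (γ x • x)) δ, ∃ z ∈ K₁, S.e z = w := fun w hw =>
      k1 _ y1 w ((mem_closedBall_iff_norm.1 hw).trans d2.2)
    have e1 := (convex_closedBall (S.e (γ x • x)) δ).norm_image_sub_le_of_norm_fderiv_le'
      (f := S.A g) (φ := S.D g (γ x • x)) (C := 1 / (16 * c ^ 2))
      (fun w hw => by
        obtain ⟨z, -, rfl⟩ := hz w hw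
        exact (S.hasFDerivAt_A g z).differentiableAt)
      (fun w hw => by
        obtain ⟨z, h1, rfl⟩ := hz w hw
        rw [← dist_eq_norm]
        exact u2 g ⟨hg, _, y1, y3⟩ z h1 _ (k3 _ y1) (mem_closedBall_iff_norm.1 hw))
      (mem_closedBall_iff_norm.2 (b2 _ y1 _ hb)) (mem_closedBall_iff_norm.2 (b2 _ y1 _ ha))
    rw [S.A_e, S.A_e, e, e] at e1
    simp only [← map_sub, sub_sub_sub_cancel_right]
    obtain ⟨v, hv⟩ := (L (γ x • x)).surjective (S.e (γ x • a) - S.e (γ x • b))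
    rw [← hv] at e1 ⊢
    have e2 := b3 _ y1 _ y2 _ v e1
    have e3 := h v
    rw [map_sub] at e2
    rw [ContinuousLinearEquiv.symm_apply_apply]
    linarith [norm_sub_le_norm_sub_add_norm_sub
      ((L (γ x' • x')).symm (S.e (γ x' • S.t ^ N • a) - S.e (γ x' • S.t ^ N • b)))
      ((L (γ x' • x')).symm (S.D g (γ x • x) (L (γ x • x) v))) (As v.1, Au v.2)]
  · have y1 := g2 x hx
    have e1 := b2 _ y1 _ ha
    have e2 := u1 _ (k2 _ y1 _ (e1.trans d2.2)) _ (k3 _ y1) e1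
    rw [dist_eq_norm] at e2
    have e3 := b3 _ y1 _ y1 _ v ((S.Q (γ x • a) - S.Q (γ x • x)).le_of_opNorm_le e2 _)
    rw [sub_apply, map_sub, l1 _ y1,
      ContinuousLinearEquiv.symm_apply_apply] at e3
    linarith [norm_nonneg v]

end Setting

end Pool.Agent.P.MP_788ef7_an
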