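import Pool.Agent.P.MP_788ef7_an.Attr1

set_option autoImplicit false
set_option linter.unusedVariables false

open Set Filter Topology Metric

namespace Pool.Agent.P.MP_788ef7_an

namespace Fuchs

variable {𝔊 : Type*} [Group 𝔊] [MulAction 𝔊 Circle] {Φ : Fuchs 𝔊} {g g' γ δ u u' G g₀ : 𝔊}
  {H : Subgroup 𝔊} {ξ η ζ a b c d p q a₁ a₂ r₁ r₂ a₁' a₂' r₁' r₂' : Circle} {k : ℕ} {T : Set 𝔊}

theorem tattr_or_attr (h : g • ξ = ξ) (hb : Φ.HBfree (Φ.Cen g) ξ) : TAttr g ξ ∨ TAttr g⁻¹ ξ :=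
  (dichot_bd h hb).imp tattr_of_bd tattr_of_bd

theorem inv_lim_attr : Φ.inv.Lim (Φ.inv.Cen g) = Φ.Lim (Φ.Cen g) :=
  congrArg Φ.Lim (Φ.toPreFuchs.inv_cen g)

theorem not_hbfree_cen (h : ξ ∈ Φ.Lim (Φ.Cen g)) : ¬ Φ.HBfree (Φ.Cen g) ξ := by
  intro hb
  have hiso : ∀ᶠ η in 𝓝 ξ, η ∈ Fix g → η = ξ := by
    rcases tattr_or_attr (lim_cen_subset g h) hb with h1 | h1
    · exact h1.isolated
    · simpa only [fix_inv] using h1.isolated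
  obtain ⟨δ, hδ, a, b, hax, ha⟩ := lim_dense (H := Φ.Cen g) (fun _ h => h.1) h hiso
  obtain rfl : a = ξ := ha (hax.fix_of_comm hδ.2).1
  obtain ⟨β, hβ, hb⟩ := hb
  exact absurd (ge_of_tendsto' hax.bus fun n => hb _ (pow_mem hδ n)) (not_le.2 hβ)

theorem att_or (h : g • ξ = ξ) (h' : ξ ∉ Φ.Lim (Φ.Cen g)) : Φ.Att g ξ ∨ Φ.Att g⁻¹ ξ := by
  rcases tattr_or_attr h (Φ.hbfree_of_notMem (fun _ h => h.1) h') with h1 | h1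
  · exact Or.inl ⟨h, h', h1⟩
  · exact Or.inr ⟨inv_smul_eq_iff.2 h.symm, by rwa [PreFuchs.cen_inv], h1⟩

theorem Att.sattr (h : Φ.Att g ξ) : Φ.SAttr g ξ := by
  rcases dichot_bd h.1 (Φ.hbfree_of_notMem (fun _ h => h.1) h.2.1) with h1 | h1
  · exact sattr_of_bd h1
  · exact absurd (tattr_of_bd h1) h.2.2.not_inv

theorem Att.not_inv (h : Φ.Att g ξ) : ¬ Φ.Att g⁻¹ ξ := fun h' => h.2.2.not_inv h'.2.2

theorem att_pow (hg : Stable g) {n : ℕ} (hn : 1 ≤ n) : Φ.Att (g ^ n) ξ ↔ Φ.Att g ξ := by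
  constructor
  · intro h
    have h1 : ξ ∈ Fix g := hg.fix_pow hn ▸ h.1
    rcases att_or h1 (cen_pow (Φ := Φ) hg hn ▸ h.2.1) with h2 | h2
    · exact h2
    · exact absurd (inv_pow g n ▸ h2.2.2.pow hn) h.2.2.not_inv
  · intro h
    exact ⟨pow_fix_cdyn h.1 n, by rw [cen_pow hg hn]; exact h.2.1, h.2.2.pow hn⟩

theorem att_inv_pow (hg : Stable g) {n : ℕ} (hn : 1 ≤ n) :
    Φ.Att (g ^ n)⁻¹ ξ ↔ Φ.Att g⁻¹ ξ := by
  rw [← inv_pow, att_pow hg.inv hn]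

theorem Att.conj (h : Φ.Att g ξ) (u : 𝔊) : Φ.Att (u * g * u⁻¹) (u • ξ) :=
  ⟨(mem_fix_conj u).2 h.1, fun h' => h.2.1 ((Φ.smul_mem_lim_cen u).1 h'), h.2.2.conj Φ.cont u⟩

theorem Att.smul_cen (h : Φ.Att g ξ) (hu : u ∈ Φ.Cen g) : Φ.Att g (u • ξ) := by
  have h1 := h.conj u
  rwa [hu.2, mul_inv_cancel_right] at h1

theorem att_of_fix_eq (hg : Stable g) (hg' : Stable g') (he : Ess g) (h : Fix g = Fix g')
    (h0 : 0 < Φ.ht g) (h0' : 0 < Φ.ht g') : Φ.Att g ξ ↔ Φ.Att g' ξ := by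
  obtain ⟨m, n, hm, hn, e⟩ := exists_pow_eq he h h0 h0'
  rw [← att_pow hg hm, e, att_pow hg' hn]

theorem rset_pow (hg : Stable g) {n : ℕ} (hn : 1 ≤ n) : Φ.RSet (g ^ n) = Φ.RSet g := by
  simp only [RSet, cen_pow hg hn, att_inv_pow hg hn]

theorem rset_subset (g : 𝔊) : Φ.RSet g ⊆ Fix g := by
  rintro ξ (h | h)
  · exact lim_cen_subset g h
  · exact fix_inv g ▸ h.1

theorem mem_rset_conj (h : ξ ∈ Φ.RSet g) (u : 𝔊) : u • ξ ∈ Φ.RSet (u * g * u⁻¹) := by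
  rcases h with h | h
  · exact Or.inl ((Φ.smul_mem_lim_cen u).2 h)
  · refine Or.inr ?_
    have h1 := Att.conj h u
    rwa [show u * g⁻¹ * u⁻¹ = (u * g * u⁻¹)⁻¹ by group] at h1

theorem fix_subset (h : ξ ∈ Fix g) : ξ ∈ Φ.RSet g ∨ Φ.Att g ξ := by
  by_cases h' : ξ ∈ Φ.Lim (Φ.Cen g)
  · exact Or.inl (Or.inl h')
  · rcases att_or h h' with h1 | h1
    · exact Or.inr h1
    · exact Or.inl (Or.inr h1)

/-- The forward orbit of a point converges to an attracting point, or the point is repelling. -/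
theorem att_limit (hg : Stable g) (ha : a ∉ Φ.Lim (Φ.Cen g))
    (h : Tendsto (fun n : ℕ => g ^ n • ζ) atTop (𝓝 a)) :
    (Φ.Att g a ∧ Tendsto (fun n : ℕ => g ^ n • ζ) atTop (𝓝 a)) ∨
      (Φ.Att g⁻¹ a ∧ Tendsto (fun n : ℕ => g⁻¹ ^ n • ζ) atTop (𝓝 a)) := by
  rcases att_or (tendsto_mem_fix Φ.cont h) ha with h1 | h1
  · exact Or.inl ⟨h1, h⟩
  · obtain rfl : ζ = a := by
      by_contra hne
      exact h1.2.2.not_limit hne h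
    refine Or.inr ⟨h1, ?_⟩
    simp only [pow_fix_cdyn h1.1]
    exact tendsto_const_nhds

theorem alt_att (hg : Stable g) (ha : Φ.Att g a) (hb : Φ.Att g b) (hab : a ≠ b) :
    ∃ ξ ∈ arc a b, ξ ∈ Φ.RSet g := by
  obtain ⟨ξ, h1, h2, h3⟩ := hg.alt Φ.cont ha.2.2 hb.2.2 hab
  exact ⟨ξ, h1, (fix_subset h2).resolve_right fun h => h3 h.2.2⟩

theorem finite_fix_inter {K : Set Circle} (hK : IsCompact K) (hd : Disjoint K (Φ.Lim (Φ.Cen g))) :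
    (Fix g ∩ K).Finite := by
  obtain ⟨t, -, ht⟩ := (hK.inter_left (isClosed_fix Φ.cont g)).elim_nhds_subcover
    (fun x => {η | η ∈ Fix g → η = x}) fun x hx => by
      rcases att_or hx.1 (disjoint_left.1 hd hx.2) with h1 | h1
      · exact h1.2.2.isolated
      · have h2 := h1.2.2.isolated
        rwa [fix_inv] at h2
  refine t.finite_toSet.subset fun x hx => ?_
  obtain ⟨y, hy, h1⟩ := mem_iUnion₂.1 (ht hx)
  rwa [h1 hx.1]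

theorem inv_att : Φ.inv.Att g ξ ↔ Φ.Att g ξ := by
  simp only [Att, inv_lim_attr]

theorem inv_rset : Φ.inv.RSet g = Φ.RSet g := by
  simp only [RSet, inv_lim_attr, inv_att]

theorem inv_reg : Φ.inv.Reg g a₁ a₂ r₁ r₂ ↔ Φ.Reg g a₁ a₂ r₁ r₂ :=
  ⟨fun h => ⟨h.op, (Φ.toPreFuchs.inv_cen g).symm.trans h.cen, h.fix, inv_att.1 h.att₁,
      inv_att.1 h.att₂, inv_att.1 h.rep₁, inv_att.1 h.rep₂, h.ne_a, h.ne_r⟩,
    fun h => ⟨h.op, (Φ.toPreFuchs.inv_cen g).trans h.cen, h.fix, inv_att.2 h.att₁,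
      inv_att.2 h.att₂, inv_att.2 h.rep₁, inv_att.2 h.rep₂, h.ne_a, h.ne_r⟩⟩

theorem inv_regular : Φ.inv.Regular g ↔ Φ.Regular g := by
  simp only [Regular, inv_reg]

theorem Reg.swap_a (h : Φ.Reg g a₁ a₂ r₁ r₂) : Φ.Reg g a₂ a₁ r₁ r₂ :=
  ⟨h.op, h.cen, fun ξ hξ => by have := h.fix ξ hξ; tauto, h.att₂, h.att₁, h.rep₁, h.rep₂,
    h.ne_a.symm, h.ne_r⟩

theorem Reg.swap_r (h : Φ.Reg g a₁ a₂ r₁ r₂) : Φ.Reg g a₁ a₂ r₂ r₁ :=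
  ⟨h.op, h.cen, fun ξ hξ => by have := h.fix ξ hξ; tauto, h.att₁, h.att₂, h.rep₂, h.rep₁,
    h.ne_a, h.ne_r.symm⟩

theorem Reg.inv (h : Φ.Reg g a₁ a₂ r₁ r₂) : Φ.Reg g⁻¹ r₁ r₂ a₁ a₂ :=
  ⟨h.op.inv, by rw [PreFuchs.cen_inv, h.cen],
    fun ξ hξ => by have := h.fix ξ (inv_smul_eq_iff.1 hξ).symm; tauto, h.rep₁, h.rep₂,
    by rw [_root_.inv_inv]; exact h.att₁, by rw [_root_.inv_inv]; exact h.att₂, h.ne_r, h.ne_a⟩

theorem Reg.stable (h : Φ.Reg g a₁ a₂ r₁ r₂) : Stable g := ⟨h.op, a₁, h.att₁.1⟩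

theorem Reg.ess (h : Φ.Reg g a₁ a₂ r₁ r₂) : Ess g :=
  ⟨a₁, h.att₁.1, a₂, h.att₂.1, r₁, fix_inv g ▸ h.rep₁.1, h.ne_a,
    fun e => h.att₂.not_inv (e ▸ h.rep₁), fun e => h.att₁.not_inv (e ▸ h.rep₁)⟩

theorem Reg.pow (h : Φ.Reg g a₁ a₂ r₁ r₂) {n : ℕ} (hn : 1 ≤ n) : Φ.Reg (g ^ n) a₁ a₂ r₁ r₂ :=
  ⟨h.op.pow n, by rw [cen_pow h.stable hn, h.cen],
    fun ξ hξ => h.fix ξ (show ξ ∈ Fix g from h.stable.fix_pow hn ▸ hξ),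
    (att_pow h.stable hn).2 h.att₁, (att_pow h.stable hn).2 h.att₂,
    (att_inv_pow h.stable hn).2 h.rep₁, (att_inv_pow h.stable hn).2 h.rep₂, h.ne_a, h.ne_r⟩

theorem Reg.conj (h : Φ.Reg g a₁ a₂ r₁ r₂) (u : 𝔊) :
    Φ.Reg (u * g * u⁻¹) (u • a₁) (u • a₂) (u • r₁) (u • r₂) := by
  have e : u * g⁻¹ * u⁻¹ = (u * g * u⁻¹)⁻¹ := by group
  refine ⟨h.op.conj Φ.cont u, (Subgroup.eq_bot_iff_forall _).2 fun γ hγ => ?_, fun ξ hξ => ?_,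
    h.att₁.conj u, h.att₂.conj u, e ▸ h.rep₁.conj u, e ▸ h.rep₂.conj u,
    fun e => h.ne_a (smul_left_cancel u e), fun e => h.ne_r (smul_left_cancel u e)⟩
  · rw [show γ = u * (u⁻¹ * γ * u) * u⁻¹ by group, PreFuchs.mem_cen_conj, h.cen,
      Subgroup.mem_bot] at hγ
    rw [show γ = u * (u⁻¹ * γ * u) * u⁻¹ by group, hγ, mul_one, mul_inv_cancel]
  · have h1 : u • u⁻¹ • ξ ∈ Fix (u * g * u⁻¹) := by rwa [smul_inv_smul]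
    simpa only [inv_smul_eq_iff] using h.fix _ ((mem_fix_conj u).1 h1)

theorem Reg.att_iff (h : Φ.Reg g a₁ a₂ r₁ r₂) : Φ.Att g ξ ↔ ξ = a₁ ∨ ξ = a₂ := by
  constructor
  · intro h1
    rcases h.fix ξ h1.1 with e | e | e | e
    · exact Or.inl e
    · exact Or.inr e
    · exact absurd (e ▸ h.rep₁) h1.not_inv
    · exact absurd (e ▸ h.rep₂) h1.not_inv
  · rintro (rfl | rfl)
    · exact h.att₁
    · exact h.att₂

theorem Reg.linked (h : Φ.Reg g a₁ a₂ r₁ r₂) : Linked a₁ a₂ r₁ r₂ := by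
  have key : ∀ ξ ∈ Φ.RSet g, ξ = r₁ ∨ ξ = r₂ := by
    rintro ξ (h1 | h1)
    · rw [h.cen, PreFuchs.lim_bot] at h1
      exact h1.elim
    · exact h.inv.att_iff.1 h1
  obtain ⟨ξ, h1, h2⟩ := alt_att h.stable h.att₁ h.att₂ h.ne_a
  obtain ⟨η, h3, h4⟩ := alt_att h.stable h.att₂ h.att₁ h.ne_a.symm
  have hd := disjoint_left.1 (disjoint_arc a₁ a₂) h1
  rw [linked_iff]
  rcases key ξ h2 with rfl | rfl <;> rcases key η h4 with rfl | rfl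
  · exact absurd h3 hd
  · exact Or.inl ⟨h1, h3⟩
  · exact Or.inr ⟨h1, h3⟩
  · exact absurd h3 hd

theorem Reg.ne_ar (h : Φ.Reg g a₁ a₂ r₁ r₂) (h' : Φ.Reg g' a₁' a₂' r₁' r₂') (h0 : 0 < Φ.ht g)
    (h0' : 0 < Φ.ht g') : a₁ ≠ r₁' ∧ a₁ ≠ r₂' ∧ a₂ ≠ r₁' ∧ a₂ ≠ r₂' := by
  have key : ∀ ξ, Φ.Att g ξ → ¬ Φ.Att g'⁻¹ ξ := fun ξ h1 h2 => by
    by_cases e : Fix g = Fix g'
    · exact ((att_of_fix_eq h.stable h'.stable h.ess e h0 h0').1 h1).not_inv h2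
    · obtain ⟨v, hv, hv', -⟩ := common_fix h.stable h'.stable h0.ne' h0'.ne' e h1.1
        (fix_inv g' ▸ h2.1)
      rw [h.cen] at hv'
      exact hv (Subgroup.mem_bot.1 hv')
  exact ⟨fun e => key _ h.att₁ (e ▸ h'.rep₁), fun e => key _ h.att₁ (e ▸ h'.rep₂),
    fun e => key _ h.att₂ (e ▸ h'.rep₁), fun e => key _ h.att₂ (e ▸ h'.rep₂)⟩

theorem Regular.pow (h : Φ.Regular g) {n : ℕ} (hn : 1 ≤ n) : Φ.Regular (g ^ n) := by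
  obtain ⟨_, _, _, _, h⟩ := h
  exact ⟨_, _, _, _, h.pow hn⟩

theorem Regular.conj (h : Φ.Regular g) (u : 𝔊) : Φ.Regular (u * g * u⁻¹) := by
  obtain ⟨_, _, _, _, h⟩ := h
  exact ⟨_, _, _, _, h.conj u⟩

theorem Regular.inv (h : Φ.Regular g) : Φ.Regular g⁻¹ := by
  obtain ⟨_, _, _, _, h⟩ := h
  exact ⟨_, _, _, _, h.inv⟩

theorem Regular.of_fix_eq (h : Φ.Regular g) (hg' : Stable g') (e : Fix g = Fix g')
    (h0 : 0 < Φ.ht g) (h0' : 0 < Φ.ht g') : Φ.Regular g' := by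
  obtain ⟨a₁, a₂, r₁, r₂, h⟩ := h
  have hc : Φ.Cen g = Φ.Cen g' := cen_of_fix_eq e
  have ha : ∀ ξ, Φ.Att g ξ ↔ Φ.Att g' ξ := fun ξ => att_of_fix_eq h.stable hg' h.ess e h0 h0'
  have hr : ∀ ξ, Φ.Att g⁻¹ ξ → Φ.Att g'⁻¹ ξ := fun ξ h1 => by
    have h2 : ξ ∈ Fix g' := e ▸ fix_inv g ▸ h1.1
    have h3 := h1.2.1
    rw [PreFuchs.cen_inv, hc] at h3
    exact (att_or h2 h3).resolve_left fun h4 => ((ha ξ).2 h4).not_inv h1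
  exact ⟨a₁, a₂, r₁, r₂, hg'.1, hc ▸ h.cen, fun ξ hξ => h.fix ξ (show ξ ∈ Fix g from e ▸ hξ),
    (ha _).1 h.att₁, (ha _).1 h.att₂, hr _ h.rep₁, hr _ h.rep₂, h.ne_a, h.ne_r⟩

end Fuchs

end Pool.Agent.P.MP_788ef7_an
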