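import Pool.Agent.P.MP_788ef7_an.Hyp

set_option autoImplicit false

open Set Filter Topology Metric

namespace Pool.Agent.P.MP_788ef7_an

theorem rho_smul_attr1 (s : ℝ) (a w : ℂ) : rho (s • a) w = 1 - s * (1 - rho a w) := by
  simp only [rho, Complex.smul_re, Complex.smul_im, smul_eq_mul]
  ring

theorem rho_neg_attr1 (a w : ℂ) : rho a (-w) = 2 - rho a w := by
  simp only [rho, Complex.neg_re, Complex.neg_im]
  ring

theorem rho_self_le_attr1 (y : ℂ) (ξ : Circle) : rho y y ≤ 2 * rho y ξ := by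
  have h := rho_circle_self ξ
  simp only [rho] at h ⊢
  nlinarith [sq_nonneg (y.re - (ξ : ℂ).re), sq_nonneg (y.im - (ξ : ℂ).im)]

theorem rho_nonneg_attr1 (a b : Circle) : 0 ≤ rho a b :=
  rho_nonneg a.norm_coe.le b.norm_coe.le

theorem vis_le_attr1 {y : KD} {a b : Circle} {c : ℝ} (h : c ≤ vis y.val a b) :
    c * (rho y.val a * rho y.val b) ≤ rho a b * rho y.val y.val :=
  (le_div_iff₀ (mul_pos (rho_pos y.lt a.norm_coe.le) (rho_pos y.lt b.norm_coe.le))).1 h

theorem exists_path_attr1 (ξ : Circle) :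
    ∃ p : ℝ → Circle, Continuous p ∧ ∀ t, 0 ≤ t → t ≤ 1 → rho (p t) ξ = t := by
  refine ⟨fun t => Circle.exp (Real.arccos (1 - t)) * ξ,
    (Circle.exp.continuous.comp (Real.continuous_arccos.comp (by fun_prop))).mul continuous_const,
    fun t h0 h1 => ?_⟩
  have h := rho_circle_self ξ
  have hc : Real.cos (Real.arccos (1 - t)) = 1 - t := Real.cos_arccos (by linarith) (by linarith)
  simp only [rho, Circle.coe_mul, Circle.coe_exp, Complex.mul_re, Complex.mul_im,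
    Complex.exp_ofReal_mul_I_re, Complex.exp_ofReal_mul_I_im, hc] at h ⊢
  linear_combination (1 - t) * h

theorem rho_nhds_attr1 (ξ : Circle) {ε : ℝ} (hε : 0 < ε) : {η : Circle | rho η ξ < ε} ∈ 𝓝 ξ := by
  have hc : Continuous fun η : Circle => rho η ξ :=
    continuous_rho continuous_subtype_val continuous_const
  exact (isOpen_lt hc continuous_const).mem_nhds (by simpa [rho_circle_self] using hε)

theorem exists_rho_attr1 {ξ : Circle} {V : Set Circle} (hV : V ∈ 𝓝 ξ) :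
    ∃ ε > 0, ∀ η : Circle, rho η ξ < ε → η ∈ V := by
  obtain ⟨r, hr, h⟩ := Metric.mem_nhds_iff.1 hV
  refine ⟨r ^ 2 / 2, by positivity, fun η hη => h (mem_ball.2 ?_)⟩
  refine lt_of_pow_lt_pow_left₀ 2 hr.le ?_
  rw [circle_dist_sq]
  linarith

namespace Fuchs

variable {𝔊 : Type*} [Group 𝔊] [MulAction 𝔊 Circle] {Φ : Fuchs 𝔊} {g g' γ δ u u' G g₀ : 𝔊}
  {H : Subgroup 𝔊} {ξ η ζ a b c d p q a₁ a₂ r₁ r₂ a₁' a₂' r₁' r₂' : Circle} {k : ℕ} {T : Set 𝔊}

theorem cmp_attr1 (Φ : Fuchs 𝔊) (h : g • ξ = ξ) : ∃ c > 0, ∃ t₀ > 0, ∃ C, ∀ t, 0 < t → t < t₀ →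
    ∃ x y : KD, Φ.Step g C x y ∧ rho x.val ξ = t ∧ t ≤ rho x.val x.val ∧
      c * rho y.val ξ ≤ rho y.val y.val ∧ ∀ η : Circle, rho η ξ = t →
        c * rho y.val ξ ≤ rho (g • η : Circle) ξ ∧ c * rho (g • η : Circle) ξ ≤ rho y.val ξ := by
  obtain ⟨C, hC⟩ := Φ.exists_step g
  obtain ⟨c, hc, hv⟩ := Φ.step_vis g C one_pos
  have hne : (ξ : ℂ) ≠ (g • -ξ : Circle) := fun e => by
    have e' : g • ξ = g • -ξ := h.trans (Circle.ext e)
    exact ξ.neg_ne_self (MulAction.injective g e').symm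
  have h0 := rho_pos_of_ne ξ.norm_coe.le hne
  have hcont : Continuous fun y : ℂ => rho y (g • -ξ : Circle) :=
    continuous_rho continuous_id continuous_const
  obtain ⟨ε, hε, hb⟩ := Metric.mem_nhds_iff.1
    ((isOpen_lt continuous_const hcont).mem_nhds (half_lt_self h0))
  obtain ⟨m, hm, hb⟩ : ∃ m > 0, ∀ y : ℂ, ‖y - ξ‖ < ε → m < rho y (g • -ξ : Circle) :=
    ⟨_, half_pos h0, fun y hy => hb (mem_ball_iff_norm.2 hy)⟩
  obtain ⟨δ, hδ, hs⟩ := Φ.step_nhds g C ξ hε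
  refine ⟨min (c / 2) (c * m / 4), by positivity, min δ 1, by positivity, C, fun t ht ht' => ?_⟩
  have ht1 : t < 1 := ht'.trans_le (min_le_right _ _)
  have htδ : t < δ := ht'.trans_le (min_le_left _ _)
  let x : KD := ⟨(1 - t) • (ξ : ℂ), by
    rw [norm_smul, ξ.norm_coe, mul_one, Real.norm_eq_abs, abs_lt]
    constructor <;> linarith⟩
  have hx : ∀ w, rho x.val w = 1 - (1 - t) * (1 - rho ξ w) := fun w => rho_smul_attr1 _ _ _
  have hξ := rho_circle_self ξ
  have x1 : rho x.val ξ = t := by rw [hx, hξ]; ring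
  have x2 : rho x.val x.val = t * (2 - t) := by rw [hx, rho_comm, x1]; ring
  have x3 : rho x.val (-ξ : Circle) = 2 - t := by rw [Circle.coe_neg, rho_neg_attr1, x1]
  have t2 : 2 - t ≠ 0 := by linarith
  obtain ⟨y, hy⟩ := hC x
  have hyb : m < rho y.val (g • -ξ : Circle) := by
    refine hb _ (h ▸ hs x y hy ?_)
    have e : x.val - ξ = (-t) • (ξ : ℂ) := by
      change (1 - t) • (ξ : ℂ) - ξ = _
      rw [sub_smul, one_smul, neg_smul, sub_sub_cancel_left]
    rwa [e, norm_smul, ξ.norm_coe, mul_one, norm_neg, Real.norm_of_nonneg ht.le]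
  have hY := y.rho_pos
  have far : ∀ a : Circle, c ≤ vis y.val a (g • -ξ : Circle) →
      c * m * rho y.val a ≤ 2 * rho y.val y.val := fun a ha => by
    have h1 := vis_le_attr1 ha
    have h2 := mul_le_mul_of_nonneg_right
      (rho_le_two a.norm_coe.le (g • -ξ : Circle).norm_coe.le) hY.le
    have h3 := mul_le_mul_of_nonneg_left hyb.le
      (mul_pos hc (rho_pos y.lt a.norm_coe.le)).le
    linarith
  have hA := rho_pos y.lt ξ.norm_coe.le
  have c1 := min_le_left (c / 2) (c * m / 4)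
  have c2 := min_le_right (c / 2) (c * m / 4)
  have a1 : c * m * rho y.val ξ ≤ 2 * rho y.val y.val := by
    have h1 := hv x y ξ (-ξ) hy
    rw [h] at h1
    refine far ξ (h1 ?_)
    rw [vis, x1, x2, x3, Circle.coe_neg, rho_neg_attr1, hξ]
    field_simp
    norm_num
  refine ⟨x, y, hy, x1, by rw [x2]; nlinarith, ?_, fun η hη => ?_⟩
  · have := mul_le_mul_of_nonneg_right c2 hA.le
    linarith
  have x4 : rho x.val η = t * (2 - t) := by rw [hx, rho_comm, hη]; ring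
  have hB := rho_pos y.lt (g • η : Circle).norm_coe.le
  have hF := rho_nonneg_attr1 (g • η) ξ
  have a2 : c * m * rho y.val (g • η : Circle) ≤ 2 * rho y.val y.val := by
    refine far _ (hv x y η (-ξ) hy ?_)
    rw [vis, x2, x3, x4, Circle.coe_neg, rho_neg_attr1, hη]
    field_simp
    exact le_rfl
  have a3 : c ≤ vis y.val (g • η : Circle) ξ := by
    refine h ▸ hv x y η ξ hy ?_
    rw [vis, x1, x2, x4, hη]
    field_simp
    exact le_rfl
  constructor
  · have h1 := vis_le_attr1 a3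
    have h2 := mul_le_mul_of_nonneg_left (rho_self_le_attr1 y.val (g • η)) hF
    have h3 : c * rho y.val ξ ≤ 2 * rho (g • η : Circle) ξ :=
      le_of_mul_le_mul_right (by linarith) hB
    have := mul_le_mul_of_nonneg_right c1 hA.le
    linarith
  · have h1 := rho_trib (g • η : Circle).norm_coe.le y.lt.le ξ.norm_coe.le
    rw [rho_comm (g • η : Circle) y.val] at h1
    have h2 := mul_le_mul_of_nonneg_left h1 (mul_pos hc hm).le
    have h3 := mul_le_mul_of_nonneg_right a2 hA.le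
    have h4 : c * m * rho (g • η : Circle) ξ ≤ 4 * rho y.val ξ :=
      le_of_mul_le_mul_right (by linarith) hY
    have := mul_le_mul_of_nonneg_right c2 hF
    linarith

theorem avoid_attr1 (h : g • ξ = ξ) (hb : Φ.HBfree (Φ.Cen g) ξ) {θ : ℝ} (hθ : 0 < θ) :
    ∃ ε > 0, ∀ η : Circle, 0 < rho η ξ → rho η ξ < ε →
      rho (g • η : Circle) ξ < θ * rho η ξ ∨ rho η ξ < θ * rho (g • η : Circle) ξ := by
  obtain ⟨c, hc, t₀, ht₀, C, H⟩ := Φ.cmp_attr1 h
  obtain ⟨R, hR⟩ := dist_le_of_rho (16 / (c * θ * c))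
  obtain ⟨R', hR'⟩ := Φ.step_near_cen g C R
  obtain ⟨β, hβ, hβ'⟩ := PreFuchs.HBfree.bus_near _ hb R'
  refine ⟨min t₀ β, by positivity, fun η h0 h1 => ?_⟩
  obtain ⟨x, y, hs, x1, x2, y1, hη⟩ := H _ h0 (h1.trans_le (min_le_left _ _))
  obtain ⟨f1, f2⟩ := hη η rfl
  by_contra hn
  rw [not_or, not_lt, not_lt] at hn
  obtain ⟨n1, n2⟩ := hn
  have hA := rho_pos y.lt ξ.norm_coe.le
  have r1 := rho_tri x.lt.le y.lt.le ξ
  have r0 := rho_nonneg x.lt.le y.lt.le
  have hbus := hβ' x (hR' x y hs (hR x y ?_))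
  · rw [bus, le_div_iff₀ x.rho_pos, x1] at hbus
    have h2 := mul_le_mul_of_nonneg_left x2 hβ.le
    have h3 : β ≤ rho η ξ := le_of_mul_le_mul_right (by linarith) h0
    exact (h1.trans_le (min_le_right _ _)).not_ge h3
  · rw [x1] at r1
    have p := mul_le_mul x2 y1 (mul_pos hc hA).le x.rho_pos.le
    generalize rho η ξ = t at *
    generalize rho y.val ξ = A at *
    have m1 : c * θ * t ≤ A := by nlinarith
    have m2 : c * θ * A ≤ t := by nlinarith
    have s1 : rho x.val y.val ^ 2 ≤ 8 * t ^ 2 + 8 * A ^ 2 :=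
      (pow_le_pow_left₀ r0 r1 2).trans (by nlinarith [sq_nonneg (t - A)])
    have s2 := mul_le_mul_of_nonneg_right s1 (mul_pos hc hθ).le
    have s3 := mul_le_mul_of_nonneg_right m1 h0.le
    have s4 := mul_le_mul_of_nonneg_right m2 hA.le
    have s5 : rho x.val y.val ^ 2 * (c * θ) ≤ 16 * (t * A) := by linarith
    have s6 := mul_le_mul_of_nonneg_right s5 hc.le
    rw [div_mul_eq_mul_div, le_div_iff₀ (by positivity)]
    linarith

/-- Boundary form of the dichotomy. -/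
theorem dichot_bd (h : g • ξ = ξ) (hb : Φ.HBfree (Φ.Cen g) ξ) :
    (∀ θ > 0, ∃ ε > 0, ∀ η : Circle, rho η ξ < ε → rho (g • η : Circle) ξ ≤ θ * rho η ξ) ∨
    ∀ θ > 0, ∃ ε > 0, ∀ η : Circle, rho η ξ < ε → rho (g⁻¹ • η : Circle) ξ ≤ θ * rho η ξ := by
  obtain ⟨c, hc, t₀, ht₀, C, H⟩ := Φ.cmp_attr1 h
  obtain ⟨p, hp, hp'⟩ := exists_path_attr1 ξ
  obtain ⟨ε₁, hε₁, h₁⟩ := avoid_attr1 h hb one_pos
  have cmp : ∀ η η' : Circle, 0 < rho η ξ → rho η ξ < t₀ → rho η' ξ = rho η ξ →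
      c * c * rho (g • η : Circle) ξ ≤ rho (g • η' : Circle) ξ ∧
      c * c * rho (g • η' : Circle) ξ ≤ rho (g • η : Circle) ξ := fun η η' h0 h1 e => by
    obtain ⟨_, y, -, -, -, -, hη⟩ := H _ h0 h1
    obtain ⟨a1, a2⟩ := hη η rfl
    obtain ⟨b1, b2⟩ := hη η' e
    constructor <;> nlinarith
  have hcont : Continuous fun t => rho (g • p t : Circle) ξ - t :=
    (continuous_rho (continuous_subtype_val.comp ((Φ.cont g).comp hp)) continuous_const).sub
      continuous_id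
  have hne : ∀ t ∈ Ioo 0 (min ε₁ 1), rho (g • p t : Circle) ξ - t ≠ 0 := fun t ht e => by
    have e1 := hp' t ht.1.le (ht.2.le.trans (min_le_right _ _))
    have := h₁ (p t) (by rw [e1]; exact ht.1) (by rw [e1]; exact ht.2.trans_le (min_le_left _ _))
    rw [e1] at this
    rcases this with h | h <;> linarith
  have key : ∀ θ > 0, ∃ ε > 0, ∀ η : Circle, 0 < rho η ξ → rho η ξ < ε →
      rho η ξ ∈ Ioo 0 (min ε₁ 1) ∧
      ((rho (g • p (rho η ξ) : Circle) ξ < rho η ξ ∧ rho (g • η : Circle) ξ ≤ θ * rho η ξ) ∨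
        (rho η ξ < rho (g • p (rho η ξ) : Circle) ξ ∧ rho η ξ ≤ θ * rho (g • η : Circle) ξ)) := by
    intro θ hθ
    have hcc := mul_pos hc hc
    obtain ⟨ε₂, hε₂, h₂⟩ := avoid_attr1 h hb (θ := min (c * c * θ) 1) (by positivity)
    refine ⟨min (min ε₁ 1) (min t₀ ε₂), by positivity, fun η h0 h1 => ?_⟩
    rw [lt_min_iff, lt_min_iff (b := t₀)] at h1
    have e1 := hp' _ h0.le (h1.1.le.trans (min_le_right _ _))
    obtain ⟨c1, c2⟩ := cmp η _ h0 h1.2.1 e1
    have hF := rho_nonneg_attr1 (g • p (rho η ξ)) ξ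
    have m1 := min_le_left (c * c * θ) 1
    have m2 := min_le_right (c * c * θ) 1
    have := h₂ (p (rho η ξ)) (by rwa [e1]) (by rw [e1]; exact h1.2.2)
    rw [e1] at this
    refine ⟨⟨h0, h1.1⟩, this.imp (fun h' => ⟨?_, ?_⟩) fun h' => ⟨?_, ?_⟩⟩
    · have := mul_le_mul_of_nonneg_right m2 h0.le
      linarith
    · have := mul_le_mul_of_nonneg_right m1 h0.le
      exact le_of_mul_le_mul_left (by linarith) hcc
    · have := mul_le_mul_of_nonneg_right m2 hF
      linarith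
    · have h3 := mul_le_mul_of_nonneg_right m1 hF
      have h4 := mul_le_mul_of_nonneg_left c2 hθ.le
      linarith
  have zero : ∀ η : Circle, ¬ 0 < rho η ξ → η = ξ := fun η h0 => by
    by_contra hn
    exact h0 (rho_pos_of_ne η.norm_coe.le fun e => hn (Circle.ext e))
  rcases isPreconnected_Ioo.mapsTo_Ioi_or_Iio hcont.continuousOn hne with hs | hs
  · refine Or.inr fun θ hθ => ?_
    obtain ⟨ε, hε, hk⟩ := key θ hθ
    have h' : g⁻¹ • ξ = ξ := inv_smul_eq_iff.2 h.symm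
    have hn : {η : Circle | rho η ξ < ε} ∈ 𝓝 (g⁻¹ • ξ) := by
      rw [h']
      exact rho_nhds_attr1 ξ hε
    obtain ⟨ε', hε', hv⟩ := exists_rho_attr1 ((Φ.cont g⁻¹).continuousAt.preimage_mem_nhds hn)
    refine ⟨ε', hε', fun η hη => ?_⟩
    by_cases h0 : 0 < rho (g⁻¹ • η : Circle) ξ
    · obtain ⟨h1, h2 | h2⟩ := hk _ h0 (hv η hη)
      · exact absurd (sub_pos.1 (hs h1)) h2.1.not_gt
      · simpa only [smul_inv_smul] using h2.2
    · exact (not_lt.1 h0).trans (mul_nonneg hθ.le (rho_nonneg_attr1 η ξ))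
  · refine Or.inl fun θ hθ => ?_
    obtain ⟨ε, hε, hk⟩ := key θ hθ
    refine ⟨ε, hε, fun η hη => ?_⟩
    by_cases h0 : 0 < rho η ξ
    · obtain ⟨h1, h2 | h2⟩ := hk _ h0 hη
      · exact h2.2
      · exact absurd (sub_neg.1 (hs h1)) h2.1.not_gt
    · rw [zero η h0, h, rho_circle_self, mul_zero]

theorem sattr_of_bd
    (h : ∀ θ > 0, ∃ ε > 0, ∀ η : Circle, rho η ξ < ε → rho (g • η : Circle) ξ ≤ θ * rho η ξ) :
    Φ.SAttr g ξ := by
  intro C θ hθ
  obtain ⟨c, hc, hv⟩ := Φ.step_vis g C two_pos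
  obtain ⟨K, hK, hr⟩ := rho_le_of_vis hc
  obtain ⟨ε, hε, hb⟩ := h (θ / (2 * K)) (by positivity)
  refine ⟨ε, hε, fun x y hs hx => ?_⟩
  obtain ⟨a, b, hab, ha, hb'⟩ := cap_chord x.lt ξ
  have h1 := hr y.val y.lt _ _ ξ (hv x y a b hs (vis_chord x.lt hab).ge)
  have h2 := hb a (by rwa [ha])
  have h3 := hb b (by rwa [hb'])
  rw [ha] at h2
  rw [hb'] at h3
  refine (h1.trans (mul_le_mul_of_nonneg_left (add_le_add h2 h3) hK.le)).trans_eq ?_
  field_simp
  ring

theorem tattr_of_bd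
    (h : ∀ θ > 0, ∃ ε > 0, ∀ η : Circle, rho η ξ < ε → rho (g • η : Circle) ξ ≤ θ * rho η ξ) :
    TAttr g ξ := by
  intro V hV
  obtain ⟨ε, hε, hb⟩ := h (1 / 2) one_half_pos
  obtain ⟨ε', hε', hv⟩ := exists_rho_attr1 hV
  have step : ∀ η : Circle, rho η ξ < min ε ε' → rho (g • η : Circle) ξ < min ε ε' := fun η hη => by
    have h1 := hb η (hη.trans_le (min_le_left _ _))
    have h2 := rho_nonneg_attr1 η ξ
    linarith
  refine ⟨_, rho_nhds_attr1 ξ (lt_min hε hε'), fun η hη => hv η (hη.trans_le (min_le_right _ _)),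
    fun η hη => ⟨step η hη, ?_⟩⟩
  have it : ∀ n : ℕ, rho (g ^ n • η : Circle) ξ < min ε ε' ∧
      rho (g ^ n • η : Circle) ξ ≤ (1 / 2) ^ n * rho η ξ := fun n => by
    induction n with
    | zero => simpa using hη
    | succ n ih =>
      rw [pow_succ', mul_smul]
      have h1 := hb _ (ih.1.trans_le (min_le_left _ _))
      exact ⟨step _ ih.1, by rw [pow_succ']; linarith [ih.2]⟩
  have lim : Tendsto (fun n : ℕ => (1 / 2 : ℝ) ^ n * rho η ξ) atTop (𝓝 0) := by
    simpa using (tendsto_pow_atTop_nhds_zero_of_lt_one one_half_pos.le one_half_lt_one).mul_const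
      (rho η ξ)
  refine tendsto_def.2 fun U hU => ?_
  obtain ⟨r, hr, hu⟩ := exists_rho_attr1 hU
  filter_upwards [lim.eventually (gt_mem_nhds hr)] with n hn
  exact hu _ ((it n).2.trans_lt hn)

end Fuchs

end Pool.Agent.P.MP_788ef7_an
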