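import Pool.Agent.P.MP_788ef7_an.CDefs

set_option autoImplicit false

open Set Filter Topology Metric

namespace Pool.Agent.P.MP_788ef7_an

theorem triv_autp {A B G : Type*} [Group G] (hG : ∃ a a' : G, a * a' ≠ a' * a)
    (cG : ∀ a : G, a ≠ 1 → ∀ u v, u * a = a * u → v * a = a * v → u * v = v * u)
    (f : A → G) (g : B → G) (hc : ∀ a b, f a * g b = g b * f a) (hs : ∀ x, ∃ a b, x = f a * g b) :
    (∀ a, f a = 1) ∨ ∀ b, g b = 1 := by
  by_contra h
  push Not at h
  obtain ⟨⟨a₀, ha⟩, b₀, hb⟩ := h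
  obtain ⟨u, v, huv⟩ := hG
  have key : ∀ x, x * g b₀ = g b₀ * x := by
    intro x
    obtain ⟨a, b, rfl⟩ := hs x
    rw [mul_assoc, cG _ ha (g b) (g b₀) (hc _ _).symm (hc _ _).symm, ← mul_assoc, hc, mul_assoc]
  exact huv (cG _ hb u v (key u) (key v))

/-- An automorphism of a product of two nonabelian commutation transitive groups permutes the
factors. -/
theorem aut_prod {A B : Type*} [Group A] [Group B] (hA : ∃ a a' : A, a * a' ≠ a' * a)
    (hB : ∃ b b' : B, b * b' ≠ b' * b)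
    (cA : ∀ a : A, a ≠ 1 → ∀ u v, u * a = a * u → v * a = a * v → u * v = v * u)
    (cB : ∀ b : B, b ≠ 1 → ∀ u v, u * b = b * u → v * b = b * v → u * v = v * u)
    (θ : A × B ≃* A × B) : (∀ a, (θ (θ (a, 1))).2 = 1) ∧ ∀ b, (θ (θ (1, b))).1 = 1 := by
  have hc : ∀ a b, θ (a, 1) * θ (1, b) = θ (1, b) * θ (a, 1) := by
    intro a b
    rw [← map_mul, ← map_mul]
    simp
  have hs : ∀ x, ∃ a b, x = θ (a, 1) * θ (1, b) := by
    intro x
    refine ⟨(θ.symm x).1, (θ.symm x).2, ?_⟩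
    rw [← map_mul]
    simp
  have h1 := triv_autp hA cA (fun a => (θ (a, 1)).1) (fun b => (θ (1, b)).1)
    (fun a b => congrArg Prod.fst (hc a b)) fun x => by
      obtain ⟨a, b, h⟩ := hs (x, 1)
      exact ⟨a, b, congrArg Prod.fst h⟩
  have h2 := triv_autp hB cB (fun a => (θ (a, 1)).2) (fun b => (θ (1, b)).2)
    (fun a b => congrArg Prod.snd (hc a b)) fun x => by
      obtain ⟨a, b, h⟩ := hs (1, x)
      exact ⟨a, b, congrArg Prod.snd h⟩
  rcases h1 with h1 | h1 <;> rcases h2 with h2 | h2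
  · obtain ⟨a, a', h⟩ := hA
    have : θ (a, 1) = θ 1 := by
      rw [map_one]
      exact Prod.ext (h1 a) (h2 a)
    have ha : a = 1 := congrArg Prod.fst (θ.injective this)
    exact absurd (by rw [ha, one_mul, mul_one]) h
  · refine ⟨fun a => ?_, fun b => ?_⟩
    · rw [show θ (a, 1) = (1, (θ (a, 1)).2) from Prod.ext (h1 a) rfl]
      exact h2 _
    · rw [show θ (1, b) = ((θ (1, b)).1, 1) from Prod.ext rfl (h2 b)]
      exact h1 _
  · refine ⟨fun a => ?_, fun b => ?_⟩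
    · rw [show θ (a, 1) = ((θ (a, 1)).1, 1) from Prod.ext rfl (h2 a)]
      exact h2 _
    · rw [show θ (1, b) = (1, (θ (1, b)).2) from Prod.ext (h1 b) rfl]
      exact h1 _
  · obtain ⟨b, b', h⟩ := hB
    have : θ (1, b) = θ 1 := by
      rw [map_one]
      exact Prod.ext (h1 b) (h2 b)
    have hb : b = 1 := congrArg Prod.snd (θ.injective this)
    exact absurd (by rw [hb, one_mul, mul_one]) h

theorem mat_autp (M M' : Matrix (Fin 2) (Fin 2) ℤ) (h : M' * M = 1) :
    ∃ τ : ℤ, M * M + M' * M' = τ • (1 : Matrix (Fin 2) (Fin 2) ℤ) ∧ (M * M).det = 1 ∧ -2 ≤ τ := by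
  have hd : M'.det * M.det = 1 := by rw [← Matrix.det_mul, h, Matrix.det_one]
  have ha : M.adjugate = M.det • M' := by
    calc M.adjugate = M' * M * M.adjugate := by rw [h, one_mul]
      _ = M.det • M' := by rw [mul_assoc, Matrix.mul_adjugate, Matrix.mul_smul, mul_one]
  have h2 : M.det * M.det = 1 := by
    rcases Int.eq_one_or_neg_one_of_mul_eq_one' hd with ⟨-, a⟩ | ⟨-, a⟩ <;> rw [a] <;> norm_num
  have h3 : M' * M' = M.adjugate * M.adjugate := by
    rw [ha, Matrix.smul_mul, Matrix.mul_smul, smul_smul, h2, one_smul]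
  refine ⟨(M 0 0 + M 1 1) ^ 2 - 2 * M.det, ?_, by rw [Matrix.det_mul, h2], ?_⟩
  · rw [h3, Matrix.adjugate_fin_two, Matrix.det_fin_two]
    ext i j
    fin_cases i <;> fin_cases j <;> simp [Matrix.mul_apply, Fin.sum_univ_two] <;> ring
  · have : M.det ≤ 1 := by nlinarith
    nlinarith [sq_nonneg (M 0 0 + M 1 1)]

/-- The linear map induced on a lattice of translations. -/
theorem exists_lattice_map {Λ : AddSubgroup ℂ} (hd : ∀ R : ℝ, {v | v ∈ Λ ∧ ‖v‖ ≤ R}.Finite)
    (hc : ∃ R : ℝ, ∀ y : ℂ, ∃ v ∈ Λ, ‖y - v‖ ≤ R) (θ : Λ ≃+ Λ) :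
    ∃ (B : ℂ ≃L[ℝ] ℂ) (τ : ℤ), (∀ v : Λ, B v = θ (θ v)) ∧ (∀ y, B y + B.symm y = (τ : ℝ) • y) ∧
      (B : ℂ →L[ℝ] ℂ).det = 1 ∧ -2 ≤ τ := by
  classical
  set L : Submodule ℤ ℂ := AddSubgroup.toIntSubmodule Λ with hL
  have hdisc : DiscreteTopology L := by
    have h1 : IsDiscrete (L : Set ℂ) := by
      refine isDiscrete_iff_nhdsNE.2 fun x _ => ?_
      have h2 := ((hd (‖x‖ + 1)).sdiff (t := {x})).isClosed.isOpen_compl.mem_nhds
        (x := x) (by simp)
      rw [inf_principal_eq_bot]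
      filter_upwards [mem_nhdsWithin_of_mem_nhds h2, self_mem_nhdsWithin,
        mem_nhdsWithin_of_mem_nhds (ball_mem_nhds x one_pos)] with y a1 a2 a3 a4
      refine a1 ⟨⟨a4, ?_⟩, a2⟩
      rw [mem_ball_iff_norm] at a3
      linarith [norm_sub_norm_le y x]
    exact h1.to_subtype
  have hZ : IsZLattice ℝ L := by
    refine ⟨?_⟩
    obtain ⟨R, hR⟩ := hc
    rw [eq_top_iff]
    intro y _
    have hcl : IsClosed (Submodule.span ℝ (L : Set ℂ) : Set ℂ) := Submodule.closed_of_finiteDimensional _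
    refine hcl.closure_subset (Metric.mem_closure_iff.2 fun ε hε => ?_)
    have hR0 : 0 ≤ R := by
      obtain ⟨v, -, hv⟩ := hR 0
      exact (norm_nonneg _).trans hv
    obtain ⟨v, hv, h⟩ := hR (((R + 1) / ε : ℝ) • y)
    have hp : 0 < (R + 1) / ε := by positivity
    refine ⟨((R + 1) / ε : ℝ)⁻¹ • v, Submodule.smul_mem _ _ (Submodule.subset_span hv), ?_⟩
    have : y - ((R + 1) / ε : ℝ)⁻¹ • v = ((R + 1) / ε : ℝ)⁻¹ • (((R + 1) / ε : ℝ) • y - v) := by
      rw [smul_sub, smul_smul, inv_mul_cancel₀ hp.ne', one_smul]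
    rw [dist_eq_norm, this, norm_smul, Real.norm_of_nonneg (inv_pos.2 hp).le, inv_mul_lt_iff₀ hp,
      div_mul_cancel₀ _ hε.ne']
    linarith
  have hr : Module.finrank ℤ L = 2 := by rw [ZLattice.rank ℝ L, Complex.finrank_real_complex]
  have := ZLattice.module_free ℝ L
  have := ZLattice.module_finite ℝ L
  let b : Module.Basis (Fin 2) ℤ L := Module.finBasisOfFinrankEq ℤ L hr
  let β := b.ofZLatticeBasis ℝ L
  let ψ : L ≃ₗ[ℤ] L := AddEquiv.toIntLinearEquiv (show L ≃+ L from θ)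
  let T : Matrix (Fin 2) (Fin 2) ℤ →+* (ℂ →ₗ[ℝ] ℂ) :=
    (Matrix.toLinAlgEquiv β).toRingEquiv.toRingHom.comp (Int.castRingHom ℝ).mapMatrix
  have hT : ∀ (φ : L →ₗ[ℤ] L) (v : L), T (LinearMap.toMatrix b b φ) v = φ v := by
    intro φ v
    have h1 : T (LinearMap.toMatrix b b φ) v =
        ∑ j, ((LinearMap.toMatrix b b φ).map (Int.castRingHom ℝ)).mulVec (β.repr v) j • β j :=
      Matrix.toLinAlgEquiv_apply _ _ _
    have h2 : ∀ j, ((LinearMap.toMatrix b b φ).map (Int.castRingHom ℝ)).mulVec (β.repr v) j =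
        β.repr (φ v) j := by
      intro j
      rw [Module.Basis.ofZLatticeBasis_repr_apply, ← LinearMap.toMatrix_mulVec_repr b b φ v]
      simp [Matrix.mulVec, dotProduct, β]
    rw [h1]
    simp only [h2]
    exact β.sum_repr _
  set M := LinearMap.toMatrix b b (ψ : L →ₗ[ℤ] L) with hM
  set M' := LinearMap.toMatrix b b (ψ.symm : L →ₗ[ℤ] L) with hM'
  have h1 : M' * M = 1 := by
    rw [hM, hM', ← LinearMap.toMatrix_comp, LinearEquiv.symm_comp, LinearMap.toMatrix_id]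
  have h2 : M * M' = 1 := mul_eq_one_comm.1 h1
  obtain ⟨τ, t1, t2, t3⟩ := mat_autp M M' h1
  have e1 : T (M * M) ∘ₗ T (M' * M') = LinearMap.id := by
    rw [← Module.End.mul_eq_comp, ← map_mul, mul_assoc, ← mul_assoc M M', h2, one_mul, h2, map_one]
    rfl
  have e2 : T (M' * M') ∘ₗ T (M * M) = LinearMap.id := by
    rw [← Module.End.mul_eq_comp, ← map_mul, mul_assoc, ← mul_assoc M' M, h1, one_mul, h1, map_one]
    rfl
  refine ⟨(LinearEquiv.ofLinearMap _ _ e1 e2).toContinuousLinearEquiv, τ, fun v => ?_, fun y => ?_, ?_,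
    t3⟩
  · change T (M * M) v = _
    rw [map_mul, Module.End.mul_apply, hT _ (show L from v), hT]
    rfl
  · change T (M * M) y + T (M' * M') y = _
    rw [← LinearMap.add_apply, ← map_add, t1, map_zsmul, map_one]
    simp
  · change LinearMap.det (T (M * M)) = 1
    have : T (M * M) = Matrix.toLin β β ((Int.castRingHom ℝ).mapMatrix (M * M)) := rfl
    rw [this, LinearMap.det_toLin, ← RingHom.map_det, t2, map_one]

end Pool.Agent.P.MP_788ef7_an
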