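import Pool.Agent.P.MP_788ef7_an.Leaf1

set_option autoImplicit false

open Set Filter Topology Metric

namespace Pool.Agent.P.MP_788ef7_an

namespace Setting

variable {𝔾 X E : Type*} [Group 𝔾] [MetricSpace X] [MulAction 𝔾 X] [ProperSpace X]
  [NormedAddCommGroup E] [NormedSpace ℝ E] [FiniteDimensional ℝ E] {S : Setting 𝔾 X E}
  {g g' G G' γ c w : 𝔾} {p p' q x y z : X} {C : Subgroup 𝔾} {K : Set X} {R : ℝ}
  {V U : Type*} [NormedAddCommGroup V] [NormedSpace ℝ V] [FiniteDimensional ℝ V]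
  [NormedAddCommGroup U] [NormedSpace ℝ U] [FiniteDimensional ℝ U]
  {N : ℕ} {γ₀ : X → 𝔾} {L : X → (V × U) ≃L[ℝ] E} {κ : X → X → V × U} {τ : X → V × U → X} {ρ r : ℝ}

/-- The first coordinate of the projection of `V` on the kernel of `P`. -/
noncomputable abbrev mLeafF (P : V × U →L[ℝ] V × U) : V →L[ℝ] V :=
  ((ContinuousLinearMap.fst ℝ V U).comp (1 - P)).comp (ContinuousLinearMap.inl ℝ V U)

/-- The parametrisation of the kernel of `P` by the first coordinate. -/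
noncomputable abbrev jLeafF (P : V × U →L[ℝ] V × U) : V →L[ℝ] V × U :=
  ((1 - P).comp (ContinuousLinearMap.inl ℝ V U)).comp (Ring.inverse (mLeafF P))

omit [FiniteDimensional ℝ U] in
theorem unit_leafF {P : V × U →L[ℝ] V × U} (hP : ∀ v : V × U, ‖P v - (0, v.2)‖ ≤ 1 / 8 * ‖v‖) :
    IsUnit (mLeafF P) := by
  have := FiniteDimensional.complete ℝ V
  have h : ‖1 - mLeafF P‖ ≤ 1 / 8 := ContinuousLinearMap.opNorm_le_bound _ (by norm_num) fun v => by
    have h1 := (norm_fst_le _).trans (hP (v, 0))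
    simpa using h1
  have := (Units.oneSub _ (h.trans_lt (by norm_num))).isUnit
  rwa [Units.val_oneSub, sub_sub_cancel] at this

omit [FiniteDimensional ℝ U] in
theorem fst_leafF {P : V × U →L[ℝ] V × U} (hP : ∀ v : V × U, ‖P v - (0, v.2)‖ ≤ 1 / 8 * ‖v‖)
    (v : V) : (jLeafF P v).1 = v :=
  congrArg (fun B : V →L[ℝ] V => B v) (Ring.mul_inverse_cancel _ (unit_leafF hP))

omit [FiniteDimensional ℝ U] in
theorem ker_leafF {P : V × U →L[ℝ] V × U} (hP : ∀ v : V × U, ‖P v - (0, v.2)‖ ≤ 1 / 8 * ‖v‖)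
    (hi : ∀ v, P (P v) = P v) {u : V × U} (hu : P u = 0) : jLeafF P u.1 = u := by
  have h1 : P (jLeafF P u.1 - u) = 0 := by simp [hi, hu]
  have h2 : (jLeafF P u.1 - u).1 = 0 := by rw [Prod.fst_sub, fst_leafF hP, sub_self]
  have h3 := hP (jLeafF P u.1 - u)
  rw [h1, ← h2, Prod.mk.eta, zero_sub, norm_neg] at h3
  exact sub_eq_zero.1 (norm_le_zero_iff.1 (by linarith))

/-- A Lipschitz graph with tangent cones given by a projection close to `(0, snd)`. -/
theorem hasFDerivAt_graph {φ : V → U} {a : V} {P : V × U →L[ℝ] V × U}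
    (hP : ∀ v : V × U, ‖P v - (0, v.2)‖ ≤ 1 / 8 * ‖v‖) (hi : ∀ v, P (P v) = P v)
    {s : Set V} (hs : s ∈ 𝓝 a) (hφ : LipschitzOnWith 1 φ s)
    (ht : ∀ η > 0, ∀ᶠ b in 𝓝 a, ‖P (b - a, φ b - φ a)‖ ≤ η * ‖(b - a, φ b - φ a)‖) :
    HasFDerivAt (fun b => (b, φ b)) (((1 - P).comp (ContinuousLinearMap.inl ℝ V U)).comp
      (Ring.inverse (((ContinuousLinearMap.fst ℝ V U).comp (1 - P)).comp
        (ContinuousLinearMap.inl ℝ V U)))) a := by
  have h1 : (fun b => P (b - a, φ b - φ a)) =o[𝓝 a] fun b => (b - a, φ b - φ a) :=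
    Asymptotics.isLittleO_iff.2 fun η hη => ht η hη
  have h2 : (fun b => (b - a, φ b - φ a)) =O[𝓝 a] fun b => b - a := by
    refine Asymptotics.IsBigO.of_bound 1 ?_
    filter_upwards [hs] with b hb
    have := hφ.dist_le_mul b hb a (mem_of_mem_nhds hs)
    rw [dist_eq_norm, dist_eq_norm, NNReal.coe_one, one_mul] at this
    rw [one_mul, Prod.norm_mk, max_eq_left this]
  have h3 := ((1 - (jLeafF P).comp (ContinuousLinearMap.fst ℝ V U)).isBigO_comp
    (fun b => P (b - a, φ b - φ a)) (𝓝 a)).trans_isLittleO (h1.trans_isBigO h2)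
  refine HasFDerivAt.of_isLittleO (h3.congr_left fun b => ?_)
  have h4 := ker_leafF hP hi (u := (b - a, φ b - φ a) - P (b - a, φ b - φ a))
    (by rw [map_sub, hi, sub_self])
  rw [Prod.fst_sub, map_sub] at h4
  change P _ - jLeafF P (P _).1 = (b - a, φ b - φ a) - jLeafF P (b - a)
  rw [eq_sub_iff_add_eq, sub_add, ← neg_sub (jLeafF P (b - a)), h4, neg_sub, sub_sub_cancel]

omit [FiniteDimensional ℝ E] [FiniteDimensional ℝ U] in
theorem frame_leafF {Q : E →L[ℝ] E} (hQ : ∀ v, Q (Q v) = Q v) (L : (V × U) ≃L[ℝ] E)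
    (hP : ∀ v : V × U, ‖L.symm (Q (L v)) - (0, v.2)‖ ≤ 1 / 8 * ‖v‖) :
    IsFrame (1 - Q) ((L : V × U →L[ℝ] E).comp
      (jLeafF ((L.symm : E →L[ℝ] V × U).comp (Q.comp (L : V × U →L[ℝ] E))))) := by
  replace hP : ∀ v : V × U, ‖((L.symm : E →L[ℝ] V × U).comp (Q.comp (L : V × U →L[ℝ] E))) v -
    (0, v.2)‖ ≤ 1 / 8 * ‖v‖ := hP
  refine ⟨fun v v' h => ?_, Subset.antisymm ?_ ?_⟩
  · exact (fst_leafF hP v).symm.trans
      ((congrArg Prod.fst (L.injective h)).trans (fst_leafF hP v'))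
  · rintro _ ⟨v, rfl⟩
    exact ⟨L (Ring.inverse (mLeafF ((L.symm : E →L[ℝ] V × U).comp
      (Q.comp (L : V × U →L[ℝ] E)))) v, 0), by simp⟩
  · rintro _ ⟨y, rfl⟩
    refine ⟨(L.symm ((1 - Q) y)).1, ?_⟩
    rw [ContinuousLinearMap.comp_apply, ker_leafF hP (by simp [hQ]) (by simp [hQ])]
    exact L.apply_symm_apply _

omit [FiniteDimensional ℝ U] in
theorem cont_leafF {P : V → V × U →L[ℝ] V × U} {s : Set V} (hc : ContinuousOn P s)
    (hP : ∀ a ∈ s, ∀ v : V × U, ‖P a v - (0, v.2)‖ ≤ 1 / 8 * ‖v‖) :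
    ContinuousOn (fun a => jLeafF (P a)) s := by
  have := FiniteDimensional.complete ℝ V
  have h1 : ContinuousOn (fun a => 1 - P a) s := continuousOn_const.sub hc
  have h2 : ContinuousOn (fun a => mLeafF (P a)) s :=
    (continuousOn_const.clm_comp h1).clm_comp continuousOn_const
  refine (h1.clm_comp continuousOn_const).clm_comp fun a ha => ?_
  exact ContinuousAt.comp_continuousWithinAt (f := fun a => mLeafF (P a))
    (NormedRing.inverse_continuousAt (unit_leafF (hP a ha)).unit) (h2 a ha)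

theorem Atl.leaf_leafF (h : S.Atl N γ₀ L κ τ ρ r) (hx : x ∈ S.Λ) {ε : ℝ} (hε : 0 < ε) :
    ∃ (r : ℝ) (σ : V → X) (σ' : V → V →L[ℝ] E), S.Leaf x ε r σ σ' := by
  obtain ⟨δ, hδ, hu⟩ := S.unif N 0 hε
  obtain ⟨r', hr', hn⟩ := h.near δ hδ
  obtain ⟨r₁, hr₁, φ, φ0, hφ, hg, hon⟩ := h.graph hx (lt_min hr' h.r_pos) (min_le_right r' r)
  have hκ : ∀ a ∈ closedBall (0 : V) r₁, κ x (τ x (a, φ a)) = (a, φ a) := fun a ha =>
    h.κτ x hx _ ((hg a ha).1.trans (min_le_right _ _))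
  have he : ∀ a ∈ closedBall (0 : V) r₁,
      S.e (γ₀ x • τ x (a, φ a)) = S.e (γ₀ x • x) + L x (a, φ a) := fun a ha => by
    rw [← hκ a ha, h.τκ, h.eq, ContinuousLinearEquiv.apply_symm_apply, add_sub_cancel]
  have hc0 : ContinuousOn (fun a => γ₀ x • τ x (a, φ a)) (closedBall 0 r₁) :=
    S.emb.isInducing.continuousOn_iff.2 ((continuousOn_const.add
      ((L x).continuous.comp_continuousOn (continuousOn_id.prodMk hφ.continuousOn))).congr he)
  have hc : ContinuousOn (fun a => τ x (a, φ a)) (closedBall 0 r₁) :=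
    ((S.cont_smul (γ₀ x)⁻¹).comp_continuousOn hc0).congr fun a _ => (inv_smul_smul _ _).symm
  have hP : ∀ a ∈ closedBall (0 : V) r₁, ∀ v : V × U,
      ‖(L x).symm (S.Q (γ₀ x • τ x (a, φ a)) (L x v)) - (0, v.2)‖ ≤ 1 / 8 * ‖v‖ := fun a ha =>
    h.proj x hx _ (by rw [hκ a ha]; exact (hg a ha).1.trans (min_le_right _ _))
  refine ⟨r₁, fun a => τ x (a, φ a), fun a => (S.D (γ₀ x)⁻¹ (γ₀ x • τ x (a, φ a))).comp
    ((L x : V × U →L[ℝ] E).comp (jLeafF (((L x).symm : E →L[ℝ] V × U).comp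
      ((S.Q (γ₀ x • τ x (a, φ a))).comp (L x : V × U →L[ℝ] E))))), hr₁, ?_, hc,
    fun a ha b hb hab => ?_, fun a ha n => ?_, fun r'' hr'' => ?_, fun a ha => ?_, ?_,
    fun a ha => ?_⟩
  · rw [φ0, Prod.mk_zero_zero, ← h.κ_self x, h.τκ]
  · have := hκ a ha
    rw [show τ x (a, φ a) = τ x (b, φ b) from hab, hκ b hb] at this
    exact (congrArg Prod.fst this).symm
  · have hN : 0 < N := h.N_pos
    have hx' := S.smul_mem ((S.t ^ N) ^ (n / N)) x hx
    have h1 := hn _ hx' _ (((hg a ha).2 (n / N)).trans (min_le_left _ _))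
    rw [h.τκ] at h1
    have h2 := hu (S.t ^ (n % N)) (by
      rw [S.ht_pow, S.ht_t, mul_one, Nat.abs_cast]
      exact_mod_cast (Nat.mod_lt n hN).le) _ hx' _ _ (dist_self _).le h1
    rwa [smul_smul, smul_smul, ← pow_mul, ← pow_add, Nat.mod_add_div] at h2
  · obtain ⟨ρ', hρ', hs⟩ := h.small (min (r'' / 2) (min r₁ r))
      (lt_min (half_pos hr'') (lt_min hr₁ h.r_pos))
    refine ⟨ρ', hρ', fun z hz => ?_⟩
    have h1 : ∀ k : ℕ, ‖κ ((S.t ^ N) ^ k • x) ((S.t ^ N) ^ k • z)‖ ≤ min (r'' / 2) (min r₁ r) :=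
      fun k => hs _ (S.smul_mem _ x hx) _ (by rw [← pow_mul]; exact hz _)
    have h2 := (norm_fst_le _).trans (h1 0)
    rw [pow_zero, one_smul, one_smul, le_min_iff, le_min_iff] at h2
    exact ⟨(κ x z).1, h2.1.trans_lt (half_lt_self hr''), h2.2.1,
      (hon z (fun k => (h1 k).trans ((min_le_right _ _).trans (min_le_right _ _))) h2.2.1).symm⟩
  · have hb : closedBall (0 : V) r₁ ∈ 𝓝 a :=
      mem_of_superset (isOpen_ball.mem_nhds ha) ball_subset_closedBall
    have ha' := ball_subset_closedBall ha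
    have hr : ∀ b ∈ closedBall (0 : V) r₁, ∀ k : ℕ,
        ‖κ ((S.t ^ N) ^ k • x) ((S.t ^ N) ^ k • τ x (b, φ b))‖ ≤ r :=
      fun b hb k => ((hg b hb).2 k).trans (min_le_right _ _)
    have h1 := hasFDerivAt_graph (P := ((L x).symm : E →L[ℝ] V × U).comp
      ((S.Q (γ₀ x • τ x (a, φ a))).comp (L x : V × U →L[ℝ] E))) (hP a ha')
      (by simp [S.idem]) hb hφ fun η hη => by
        have c1 := norm_nonneg (L x : V × U →L[ℝ] E)
        have c2 := norm_nonneg ((L x).symm : E →L[ℝ] V × U)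
        have c3 := mul_nonneg c2 c1
        have hη' := div_pos hη (add_pos_of_nonneg_of_pos c3 one_pos)
        filter_upwards [hb, (hc.continuousAt hb).eventually (h.tangent hx (hr a ha') hη')]
          with b hb' ht
        have h2 := ht (hr b hb')
        rw [he b hb', he a ha', add_sub_add_left_eq_sub, ← map_sub, Prod.mk_sub_mk] at h2
        have h3 := (L x : V × U →L[ℝ] E).le_opNorm (b - a, φ b - φ a)
        refine (((L x).symm : E →L[ℝ] V × U).le_opNorm _).trans ?_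
        refine (mul_le_mul_of_nonneg_left
          (h2.trans (mul_le_mul_of_nonneg_left h3 hη'.le)) c2).trans ?_
        rw [← mul_assoc, ← mul_assoc]
        refine mul_le_mul_of_nonneg_right ?_ (norm_nonneg _)
        rw [mul_right_comm, mul_div_assoc', div_le_iff₀ (add_pos_of_nonneg_of_pos c3 one_pos)]
        linarith
    have h2 := S.hasFDerivAt_A (γ₀ x)⁻¹ (γ₀ x • τ x (a, φ a))
    rw [he a ha'] at h2
    refine (h2.comp a (((L x : V × U →L[ℝ] E).hasFDerivAt.comp a h1).const_add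
      (S.e (γ₀ x • x)))).congr_of_eventuallyEq ?_
    filter_upwards [hb] with b hb'
    exact ((congrArg (S.A (γ₀ x)⁻¹) (he b hb')).symm.trans
      (by rw [S.A_e, inv_smul_smul])).symm
  · have hc1 := hc0.mono ball_subset_closedBall
    exact ((S.continuous_D _).comp_continuousOn hc1).clm_comp (continuousOn_const.clm_comp
      (cont_leafF (continuousOn_const.clm_comp
        ((S.contQ.comp_continuousOn hc1).clm_comp continuousOn_const))
        fun a ha => hP a (ball_subset_closedBall ha)))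
  · have := isFrame_D (S := S.inv) (x := γ₀ x • τ x (a, φ a)) (γ₀ x)⁻¹
      (frame_leafF (S.idem _) (L x) (hP a (ball_subset_closedBall ha)))
    rwa [inv_smul_smul] at this

/-- The stable manifold theorem. -/
theorem exists_leaf (S : Setting 𝔾 X E) (hV : Module.finrank ℝ V = S.s) (hx : x ∈ S.Λ) {ε : ℝ}
    (hε : 0 < ε) : ∃ (r : ℝ) (σ : V → X) (σ' : V → V →L[ℝ] E), S.Leaf x ε r σ σ' := by
  obtain ⟨N, γ₀, L, κ, τ, ρ, r, h⟩ := S.exists_atl (U := Fin S.u → ℝ) hV (by simp)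
  exact h.leaf_leafF hx hε

end Setting

end Pool.Agent.P.MP_788ef7_an
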