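import Pool.Agent.P.MP_788ef7_an.Dyn
import Pool.Agent.P.MP_788ef7_an.LeafF

set_option autoImplicit false
set_option linter.unusedSectionVars false

open Set Filter Topology Metric

namespace Pool.Agent.P.MP_788ef7_an

namespace Setting

variable {𝔾 X E : Type*} [Group 𝔾] [MetricSpace X] [MulAction 𝔾 X] [ProperSpace X]
  [NormedAddCommGroup E] [NormedSpace ℝ E] [FiniteDimensional ℝ E] {S : Setting 𝔾 X E}
  {g g' G G' γ c w : 𝔾} {p p' q x y z : X} {C : Subgroup 𝔾} {K : Set X} {R : ℝ}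

theorem dist_t_baire {n : ℕ} (h : S.ht g = n) (x y : X) :
    dist (g • x) (g • y) = dist (S.t ^ n • x) (S.t ^ n • y) :=
  dist_smul_eq (S := S) (by rw [h, S.ht_pow, S.ht_t, mul_one]) x y

theorem pigeon_baire {α : Type*} {F : Set α} (hF : F.Finite) {P : α → ℕ → Prop}
    (hm : ∀ a m m', m ≤ m' → P a m' → P a m) (h : ∀ m, ∃ a ∈ F, P a m) : ∃ a ∈ F, ∀ m, P a m := by
  by_contra hcon
  push Not at hcon
  choose! j hj using hcon
  obtain ⟨k, hk⟩ := (hF.image j).bddAbove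
  obtain ⟨a, ha, h1⟩ := h k
  exact hj a ha (hm a _ _ (hk (mem_image_of_mem j ha)) h1)

theorem stay_step_baire {A : ℝ → Set X} (hr : S.Region C g A) (hc : c ∈ C)
    (hz : z ∈ Stay g (A R)) (j m : ℕ) : (c * g ^ j) ^ m • z ∈ Stay g (A R) := by
  induction m with
  | zero => simpa using hz
  | succ m ih =>
    rw [pow_succ', mul_smul, mul_smul]
    exact (hr.stay_smul hc).2 (stay_smul ih j)

theorem FinPer.thin (h : S.FinPer C G) (hG : 0 < S.ht G) (hK : IsCompact K) (hu : 1 ≤ S.u)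
    (hΛ : ∀ x ∈ S.Λ, S.Wu x ⊆ S.Λ) : S.Thin (Stay G (Tr C K)) := by
  intro U hU hsub
  by_contra hne
  obtain ⟨x, hxU, hx⟩ := nonempty_iff_ne_empty.2 hne
  obtain ⟨ε, hε, hws⟩ := S.inv.ws_of_close
  obtain ⟨r, σ, σ', hl⟩ := S.inv.exists_leaf (V := EuclideanSpace ℝ (Fin S.u))
    finrank_euclideanSpace_fin hx hε
  have h0 : (0 : EuclideanSpace ℝ (Fin S.u)) ∈ closedBall 0 r := mem_closedBall_self hl.pos.le
  have h1 : σ ⁻¹' U ∈ 𝓝 (0 : EuclideanSpace ℝ (Fin S.u)) :=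
    (hl.cont.continuousAt (closedBall_mem_nhds 0 hl.pos)).preimage_mem_nhds
      (hU.mem_nhds (by rwa [hl.zero]))
  have h2 : (σ ⁻¹' U ∩ closedBall 0 r).Countable := by
    refine countable_of_injective_of_countable_image (hl.inj.mono inter_subset_right)
      ((h.countable hG hK hx).mono ?_)
    rintro _ ⟨w, ⟨hwU, hw⟩, rfl⟩
    have h3 : σ w ∈ S.Wu x := hws x hx _ (hl.close w hw)
    exact ⟨h3, hsub ⟨hwU, hΛ x hx h3⟩⟩
  have : Nonempty (Fin S.u) := ⟨⟨0, hu⟩⟩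
  obtain ⟨w, hw, hw'⟩ := (h2.dense_compl ℝ).inter_nhds_nonempty
    (inter_mem h1 (closedBall_mem_nhds 0 hl.pos))
  exact hw hw'

/-- A point of an open set whose orbit eventually stays in no region. -/
theorem exists_free {ι : Type*} [Finite ι] {C : ι → Subgroup 𝔾} {g : ι → 𝔾} {A : ι → ℝ → Set X}
    (hr : ∀ i, S.Region (C i) (g i) (A i)) (k : ℕ) {U : Set X} (hU : IsOpen U)
    (hne : (U ∩ S.Λ).Nonempty) (hthin : ∀ i w (n : ℕ), S.ht w = k * n → ∀ R,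
      S.Thin (U ∩ {z | w • z ∈ Stay (g i) (A i R)})) (R : ℝ) :
    ∃ z ∈ U ∩ S.Λ, ∀ i w (n : ℕ), S.ht w = k * n → w • z ∉ Stay (g i) (A i R) := by
  have := S.countable
  have : CompleteSpace S.Λ := S.closed.completeSpace_coe
  let B : ι × 𝔾 → Set S.Λ := fun j =>
    {z | z.1 ∈ U ∧ (∃ n : ℕ, S.ht j.2 = k * n) ∧ j.2 • z.1 ∈ Stay (g j.1) (A j.1 R)}
  have hd : Dense (⋂ j, (closure (B j))ᶜ) := by
    refine dense_iInter_of_isOpen (fun j => isClosed_closure.isOpen_compl) fun j => ?_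
    refine dense_iff_inter_open.2 fun V hV ⟨z, hz⟩ => ?_
    by_contra hcon
    have hsub : V ⊆ closure (B j) := fun y hy => by
      by_contra h1
      exact hcon ⟨y, hy, h1⟩
    obtain ⟨y, hyV, hyU, ⟨n, hn⟩, -⟩ := mem_closure_iff.1 (hsub hz) V hV hz
    obtain ⟨V', hV', rfl⟩ := isOpen_induced_iff.1 hV
    have h2 := hthin j.1 j.2 n hn (R + 1) (V' ∩ U) (hV'.inter hU) fun x hx =>
      ⟨hx.1.2, (hr j.1).closure_stay R (map_mem_closure (f := fun z : S.Λ => j.2 • z.1)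
        ((S.cont_smul j.2).comp continuous_subtype_val) (hsub (a := ⟨x, hx.2⟩) hx.1.1)
        fun a ha => ha.2.2)⟩
    exact (eq_empty_iff_forall_notMem.1 h2) y.1 ⟨⟨hyV, hyU⟩, y.2⟩
  obtain ⟨x, hxU, hx⟩ := hne
  obtain ⟨z, hz, hzU⟩ := hd.exists_mem_open (hU.preimage continuous_subtype_val) ⟨⟨x, hx⟩, hxU⟩
  exact ⟨z.1, ⟨hzU, z.2⟩, fun i w n hn h1 =>
    mem_iInter.1 hz (i, w) (subset_closure ⟨hzU, ⟨n, hn⟩, h1⟩)⟩

/-- The stable manifold of a periodic point that is not bad meets the open set. -/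
theorem baire {ι : Type*} [Finite ι] {C : ι → Subgroup 𝔾} {g : ι → 𝔾} {A : ι → ℝ → Set X}
    (hr : ∀ i, S.Region (C i) (g i) (A i)) {Bad : 𝔾 → Prop}
    (hc : ∀ w G, Bad G → Bad (w * G * w⁻¹))
    (ht : ∃ R, ∀ G p, Bad G → 0 < S.ht G → G • p = p →
      ∃ i γ, S.ht γ = 0 ∧ γ • p ∈ Stay (g i) (A i R))
    {k : ℕ} (hk : 1 ≤ k) {U : Set X} (hU : IsOpen U) (hne : (U ∩ S.Λ).Nonempty)
    (hthin : ∀ i w (n : ℕ), S.ht w = k * n → ∀ R, S.Thin (U ∩ {z | w • z ∈ Stay (g i) (A i R)})) :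
    ∃ G p, 0 < S.ht G ∧ G • p = p ∧ ¬ Bad G ∧ (S.Ws p ∩ U).Nonempty := by
  obtain ⟨R, hR⟩ := ht
  obtain ⟨z, ⟨hzU, hz⟩, hfree⟩ := exists_free hr k hU hne hthin (R + 1)
  obtain ⟨ε, hε, hball⟩ := nhds_basis_closedBall.mem_iff.1 (hU.mem_nhds hzU)
  obtain ⟨δ, hδ, hbr⟩ := S.bracket hε
  obtain ⟨δ', hδ', hcl⟩ := S.closing (lt_min one_pos hδ)
  obtain ⟨K, hK, hKΛ⟩ := S.exists_cpt 0
  have hs : z ∈ Stay (S.t ^ k) (Tr S.Γ K) := fun n => by
    obtain ⟨γ, h0, h1⟩ := hKΛ _ (S.smul_mem ((S.t ^ k) ^ n) z hz)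
    exact ⟨γ, mem_Γ.2 h0, h1 _ (dist_self _).le⟩
  obtain ⟨n, -, c, hcΓ, h1⟩ := recur (S := S) (fun c hc => mem_Γ.1 hc) hK hs hδ' 0
  have hw : S.ht (c * (S.t ^ k) ^ n) = k * n := by
    rw [S.ht_mul, S.ht_pow, S.ht_pow, S.ht_t, mem_Γ.1 hcΓ]
    ring
  generalize c * (S.t ^ k) ^ n = w at h1 hw
  have hx : w • z ∈ S.Λ := S.smul_mem w z hz
  by_contra hcon
  push Not at hcon
  choose T hT hTφ using fun i => (hr i).cofin (w • z) (R + 1)
  obtain ⟨⟨i, φ⟩, -, h2⟩ := pigeon_baire (F := univ ×ˢ ⋃ i, T i)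
    (finite_univ.prod (finite_iUnion hT))
    (P := fun a m => S.ht a.2 = 0 ∧ ∀ l : ℕ, l * S.ht (g a.1) ≤ m →
      g a.1 ^ l • a.2 • w • z ∈ A a.1 (R + 1))
    (fun a m m' hm h => ⟨h.1, fun l hl => h.2 l (by omega)⟩) fun m₀ => by
      obtain ⟨m, hm, c', hc', h2⟩ := h1 (m₀ + 1)
      have h3 : S.ht (c' * (S.t ^ k) ^ (n + m) * w⁻¹) = k * m := by
        rw [S.ht_mul, S.ht_mul, S.ht_inv, S.ht_pow, S.ht_pow, S.ht_t, mem_Γ.1 hc', hw]
        push_cast
        ring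
      have h4 : (m : ℤ) ≤ k * m := le_mul_of_one_le_left (by omega) (by omega)
      have h5 : (c' * (S.t ^ k) ^ (n + m) * w⁻¹) • w • z = (c' * (S.t ^ k) ^ (n + m)) • z := by
        rw [smul_smul, inv_mul_cancel_right]
      rw [← h5] at h2
      generalize c' * (S.t ^ k) ^ (n + m) * w⁻¹ = G at h2 h3
      obtain ⟨q, hq, h6⟩ := hcl _ hx G (by omega) h2
      have hbad : Bad G := by
        by_contra hnb
        have h7 := h6 0 (by omega)
        rw [pow_zero, one_smul, one_smul, dist_comm] at h7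
        obtain ⟨b, -, -, hb, hb', -⟩ := hbr _ hx q (mem_of_fix (by omega) hq)
          (h7.trans (min_le_right _ _))
        have h8 := hcon (w⁻¹ * G * w⁻¹⁻¹) (w⁻¹ • q) (by rw [S.ht_conj]; omega)
          (by rw [mul_smul, inv_smul_smul, mul_smul, hq]) fun h =>
            hnb (by simpa [mul_assoc] using hc w _ h)
        refine (eq_empty_iff_forall_notMem.1 h8) (w⁻¹ • b) ⟨(smul_mem_ws w⁻¹).2 hb, hball ?_⟩
        have h9 := hb' (k * n)
        rw [← dist_smul_eq (S := S) (g := w⁻¹) (by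
          rw [S.ht_pow, S.ht_inv, S.ht_inv, S.ht_t, hw]; push_cast; ring), inv_smul_smul] at h9
        exact h9
      obtain ⟨i, γ, hγ, hst⟩ := hR G q hbad (by omega) hq
      have hpos := (hr i).pos
      have h7 : ∀ l : ℕ, l * S.ht (g i) ≤ m₀ → g i ^ l • γ • w • z ∈ A i (R + 1) := fun l hl => by
        refine (hr i).grow R 1 _ _ (hst l) ?_
        have h8 : S.ht (g i ^ l * γ) = (l * (S.ht (g i)).toNat : ℕ) := by
          rw [S.ht_mul, S.ht_pow, hγ]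
          push_cast
          rw [Int.toNat_of_nonneg hpos.le, add_zero]
        rw [← mul_smul (g i ^ l), ← mul_smul (g i ^ l), dist_t_baire h8, dist_comm]
        refine (h6 _ ?_).trans (min_le_left _ _)
        rw [← h8, S.ht_mul, S.ht_pow, hγ]
        omega
      obtain ⟨d, hd, φ, hφ, rfl⟩ := hTφ i γ hγ (by simpa using h7 0 (by omega))
      refine ⟨(i, φ), ⟨mem_univ _, mem_iUnion.2 ⟨i, hφ⟩⟩, ?_, fun l hl => ?_⟩
      · rwa [S.ht_mul, (hr i).le d hd, zero_add] at hγ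
      · have h8 := (hr i).inv _ ((C i).inv_mem (conj_pow_mem_dyn (hr i).norm hd l)) _ _ (h7 l hl)
        have e : (g i ^ l * d * (g i ^ l)⁻¹)⁻¹ • g i ^ l • (d * φ) • w • z =
            g i ^ l • φ • w • z := by
          simp only [smul_smul]
          congr 1
          group
        rwa [e] at h8
  refine hfree i (φ * w) n (by rw [S.ht_mul, (h2 0).1, hw, zero_add]) fun l => ?_
  rw [mul_smul]
  exact (h2 (l * S.ht (g i)).toNat).2 l (Int.self_le_toNat _)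

/-- An open staying set met by a stable manifold contains the unstable manifold. -/
theorem uy (hΛ : S.Λ = univ) {A : ℝ → Set X} (hr : S.Region C g A) {U : Set X} (hU : IsOpen U)
    (hs : U ⊆ Stay g (A R)) (hG : 0 < S.ht G) (hp : G • p = p) (hm : (S.Ws p ∩ U).Nonempty) :
    ∃ (w : 𝔾) (a j : ℕ), ∃ c ∈ C, 1 ≤ a ∧ 1 ≤ j ∧ w * G ^ a * w⁻¹ = c * g ^ j ∧
      S.Wu (w • p) ⊆ Stay g (A (R + 2)) := by
  obtain ⟨y, hy, hyU⟩ := hm
  have hg := hr.pos
  obtain ⟨α, hα⟩ := Int.eq_ofNat_of_zero_le hg.le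
  obtain ⟨β, hβ⟩ := Int.eq_ofNat_of_zero_le hG.le
  have hfix : ∀ {G : 𝔾} {p : X}, G • p = p → ∀ n : ℕ, G ^ n • p = p := fun h n =>
    (MulAction.stabilizer 𝔾 _).pow_mem h n
  obtain ⟨l₀, hl₀⟩ := eventually_atTop.1 ((ws_tendsto_dist hg hy).eventually (ge_mem_nhds one_pos))
  obtain ⟨T, hT, hTφ⟩ := hr.cofin p (R + 1)
  have h1 : ∀ l : ℕ, ∃ c ∈ C, ∃ φ ∈ T, g ^ ((l₀ + l) * β) * (G ^ ((l₀ + l) * α))⁻¹ = c * φ :=
    fun l => by
      refine hTφ _ ?_ ?_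
      · rw [S.ht_mul, S.ht_inv, S.ht_pow, S.ht_pow, hα, hβ]
        push_cast
        ring
      · rw [mul_smul, inv_smul_eq_iff.2 (hfix hp _).symm]
        refine hr.grow R 1 _ _ (hs hyU ((l₀ + l) * β)) ?_
        rw [dist_comm]
        exact hl₀ _ (le_self_add.trans (Nat.le_mul_of_pos_right _ (by omega)))
  choose d hd φ hφ he using h1
  obtain ⟨l, l', hl, hll⟩ := Set.Finite.exists_lt_map_eq_of_forall_mem hφ hT
  obtain ⟨s, rfl⟩ := Nat.exists_eq_add_of_lt hl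
  have hc : d l * (d (l + s + 1))⁻¹ ∈ C := C.mul_mem (hd _) (C.inv_mem (hd _))
  have e : g ^ ((l₀ + l) * β) * G ^ ((s + 1) * α) * (g ^ ((l₀ + l) * β))⁻¹ =
      d l * (d (l + s + 1))⁻¹ * g ^ ((s + 1) * β) := by
    have e1 := he l
    have e2 := he (l + s + 1)
    rw [← hll, show (l₀ + (l + s + 1)) * β = (s + 1) * β + (l₀ + l) * β by ring,
      show (l₀ + (l + s + 1)) * α = (l₀ + l) * α + (s + 1) * α by ring, pow_add, pow_add] at e2
    rw [← mul_inv_eq_iff_eq_mul] at e1 e2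
    rw [← e1, ← e2]
    group
  have hwy : ∀ u ∈ U, g ^ ((l₀ + l) * β) • u ∈ Stay g (A R) := fun u hu => stay_smul (hs hu) _
  refine ⟨g ^ ((l₀ + l) * β), (s + 1) * α, (s + 1) * β, _, hc, Nat.mul_pos (by omega) (by omega),
    Nat.mul_pos (by omega) (by omega), e, fun z hz => ?_⟩
  have hht : S.ht (d l * (d (l + s + 1))⁻¹ * g ^ ((s + 1) * β)) = ((s + 1) * α * β : ℕ) := by
    rw [← e, S.ht_conj, S.ht_pow, hβ]
    push_cast
    ring
  have hh : 0 < (s + 1) * α * β := Nat.mul_pos (Nat.mul_pos (by omega) (by omega)) (by omega)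
  have hp1 : (d l * (d (l + s + 1))⁻¹ * g ^ ((s + 1) * β)) • g ^ ((l₀ + l) * β) • p =
      g ^ ((l₀ + l) * β) • p := by
    rw [← e, mul_smul, inv_smul_smul, mul_smul, hfix hp]
  have hstep := fun (R : ℝ) (z : X) (hz : z ∈ Stay g (A R)) =>
    stay_step_baire hr hc hz ((s + 1) * β)
  have hy1 := (smul_mem_ws (S := S) (g ^ ((l₀ + l) * β))).2 hy
  generalize g ^ ((l₀ + l) * β) = w at hwy hz hp1 hy1
  generalize d l * (d (l + s + 1))⁻¹ * g ^ ((s + 1) * β) = G₁ at hht hp1 hstep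
  generalize (s + 1) * α * β = h at hht hh
  generalize w • p = p₁ at hz hp1 hy1
  have hall : ∀ x, x ∈ S.Λ := fun x => hΛ ▸ mem_univ x
  obtain ⟨ε₀, hε₀, hun⟩ := S.unif_contr
  have hε : 0 < min 1 (ε₀ / 3) := lt_min one_pos (by positivity)
  obtain ⟨δ, hδ, hbr⟩ := S.bracket hε
  obtain ⟨m, hm⟩ := eventually_atTop.1
    (Filter.Tendsto.eventually hy1 (ge_mem_nhds (lt_min hε (half_pos hδ))))
  have h2 : ∀ n : ℕ, dist (S.t ^ n • G₁ ^ m • w • y) (S.t ^ n • p₁) ≤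
      min (min 1 (ε₀ / 3)) (δ / 2) := fun n => by
    have h3 : S.ht (S.t ^ n * G₁ ^ m) = (n + m * h : ℕ) := by
      rw [S.ht_mul, S.ht_pow, S.ht_pow, S.ht_t, hht]
      push_cast
      ring
    have h4 := hm (n + m * h) (le_add_left (Nat.le_mul_of_pos_right _ hh))
    rwa [← dist_t_baire h3, mul_smul, mul_smul, hfix hp1] at h4
  obtain ⟨η, hη, hball⟩ := nhds_basis_closedBall.mem_iff.1
    ((hU.preimage (S.cont_smul (G₁ ^ m * w)⁻¹)).mem_nhds (x := G₁ ^ m • w • y)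
      (by rwa [mem_preimage, ← mul_smul (G₁ ^ m), inv_smul_smul]))
  obtain ⟨N, hN⟩ := hun η hη
  have h5 := (mem_wu_iff (by omega) hp1).1 hz
  have h6 : ∀ᶠ k in atTop, ∀ n ∈ Finset.range (N + 1),
      dist (S.t ^ n • G₁⁻¹ ^ k • z) (S.t ^ n • p₁) ≤ min (min 1 (ε₀ / 3)) (δ / 2) :=
    (eventually_all_finset _).2 fun n _ =>
      (Metric.tendsto_nhds.1 (((S.cont_smul (S.t ^ n)).tendsto p₁).comp h5) _
        (lt_min hε (half_pos hδ))).mono fun k hk => hk.le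
  obtain ⟨k, hk⟩ := h6.exists
  have h7 := (h2 0).trans (min_le_right _ _)
  have h8 := (hk 0 (by simp)).trans (min_le_right _ _)
  simp only [pow_zero, one_smul] at h7 h8
  obtain ⟨b, -, -, -, hb, hb'⟩ := hbr (G₁ ^ m • w • y) (hall _) (G₁⁻¹ ^ k • z) (hall _)
    (by linarith [dist_triangle_right (G₁ ^ m • w • y) (G₁⁻¹ ^ k • z) p₁])
  have h9 : b ∈ Stay g (A R) := by
    have h10 := hstep R _ (hwy _ (hball (hN _ (hall _) b fun n hn => ?_))) m
    · rwa [← mul_smul (G₁ ^ m), smul_inv_smul] at h10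
    · rcases zpow_cases_dyn S.t n with ⟨j, rfl, e⟩ | ⟨j, rfl, e⟩ <;> rw [e]
      · have i1 := (hb' j).trans (min_le_right _ _)
        have i2 := (hk j (by
          rw [abs_of_nonneg (by omega)] at hn
          simp only [Finset.mem_range]
          omega)).trans ((min_le_left _ _).trans (min_le_right _ _))
        have i3 := (h2 j).trans ((min_le_left _ _).trans (min_le_right _ _))
        linarith [dist_triangle4_right (S.t ^ j • b) (S.t ^ j • G₁ ^ m • w • y)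
          (S.t ^ j • G₁⁻¹ ^ k • z) (S.t ^ j • p₁)]
      · linarith [(hb j).trans (min_le_right _ _)]
  have h11 : G₁⁻¹ ^ k • z ∈ Stay g (A (R + 1)) := fun n => by
    refine hr.grow R 1 _ _ (h9 n) ?_
    rw [dist_t_baire (n := n * α) (by rw [S.ht_pow, hα]; push_cast; ring), dist_comm]
    exact (hb' _).trans (min_le_left _ _)
  have h12 := hstep _ _ h11 k
  rw [inv_pow, smul_inv_smul] at h12
  exact stay_mono (hr.mono (by linarith)) h12

end Setting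

end Pool.Agent.P.MP_788ef7_an
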