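import Pool.Agent.P.MP_788ef7_an.KLor

set_option autoImplicit false

open Set Filter Topology Metric

namespace Pool.Agent.P.MP_788ef7_an

private theorem one_le_cosh_o (x : KD) : 1 ≤ Real.cosh (dist x KD.o) := Real.one_le_cosh _

private theorem inv_sqrt_le (x : KD) {r : ℝ} (hr : 0 ≤ r) (h : r ≤ ‖x.val‖) :
    (√(1 - r ^ 2))⁻¹ ≤ Real.cosh (dist x KD.o) := by
  rw [cosh_dist_o]
  refine inv_anti₀ (Real.sqrt_pos.2 x.rho_pos) (Real.sqrt_le_sqrt ?_)
  rw [rho_self]
  nlinarith

private theorem cosh_tri (x y : KD) :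
    Real.cosh (dist x KD.o) ≤ Real.cosh (dist y KD.o) * Real.exp (dist x y) := by
  have h1 : Real.cosh (dist x KD.o) ≤ Real.cosh (dist y KD.o + dist x y) := by
    rw [Real.cosh_le_cosh, abs_of_nonneg dist_nonneg, abs_of_nonneg (by positivity), add_comm]
    exact dist_triangle _ _ _
  rw [Real.cosh_add, ← Real.cosh_add_sinh] at *
  have h2 := Real.sinh_lt_cosh (dist y KD.o)
  have h3 : 0 ≤ Real.sinh (dist x y) := Real.sinh_nonneg_iff.2 dist_nonneg
  nlinarith

private theorem rho_comb (x y : ℂ) (p q p' q' : ℝ) (h : p + q = 1) (h' : p' + q' = 1) :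
    rho (p • x + q • y) (p' • x + q' • y) =
      p * p' * rho x x + (p * q' + q * p') * rho x y + q * q' * rho y y := by
  obtain rfl : q = 1 - p := by linarith
  obtain rfl : q' = 1 - p' := by linarith
  simp only [rho, Complex.add_re, Complex.add_im, Complex.smul_re, Complex.smul_im, smul_eq_mul]
  ring

private theorem exists_geod (x y : KD) (hd : 0 < dist x y) :
    ∃ (z : ℝ → KD) (α β : ℝ), 0 ≤ α ∧ 0 ≤ β ∧ z 0 = x ∧ z (dist x y) = y ∧
      (∀ s t, dist (z s) (z t) = |s - t|) ∧
      (∀ s, Real.cosh (dist (z s) KD.o) = α * Real.exp s + β * Real.exp (-s)) ∧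
      ∀ s, 0 ≤ s → s ≤ dist x y → (z s).val ∈ segment ℝ x.val y.val := by
  set d := dist x y with hdd
  set a := Real.cosh (dist x KD.o) with ha
  set b := Real.cosh (dist y KD.o) with hb
  have ha0 : 0 < a := Real.cosh_pos _
  have hb0 : 0 < b := Real.cosh_pos _
  have hS : 0 < Real.sinh d := Real.sinh_pos_iff.2 hd
  have hE := Real.exp_pos d
  have h1 : a ≤ b * Real.exp d := cosh_tri x y
  have h2 : b ≤ a * Real.exp d := by have := cosh_tri y x; rwa [dist_comm y x] at this
  have sx := Real.sqrt_pos.2 x.rho_pos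
  have sy := Real.sqrt_pos.2 y.rho_pos
  have e1 : a * a * rho x.val x.val = 1 := by
    rw [ha, cosh_dist_o, ← mul_inv, Real.mul_self_sqrt x.rho_pos.le, inv_mul_cancel₀ x.rho_pos.ne']
  have e2 : b * b * rho y.val y.val = 1 := by
    rw [hb, cosh_dist_o, ← mul_inv, Real.mul_self_sqrt y.rho_pos.le, inv_mul_cancel₀ y.rho_pos.ne']
  have e3 : a * b * rho x.val y.val = Real.cosh d := by
    rw [ha, hb, cosh_dist_o, cosh_dist_o, hdd, KD.cosh_dist]; field_simp
  set α := (b - a * Real.exp (-d)) / (2 * Real.sinh d) with hα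
  set β := (a * Real.exp d - b) / (2 * Real.sinh d) with hβ
  have hα0 : 0 ≤ α := div_nonneg (by
    rw [Real.exp_neg, ← div_eq_mul_inv, sub_nonneg, div_le_iff₀ hE]; exact h1) (by positivity)
  have hβ0 : 0 ≤ β := div_nonneg (by linarith) (by positivity)
  set w : ℝ → ℝ := fun s => Real.sinh (d - s) * a + Real.sinh s * b with hw
  have hc : ∀ s, w s = (α * Real.exp s + β * Real.exp (-s)) * Real.sinh d := by
    intro s
    simp only [hw, hα, hβ]
    rw [Real.sinh_eq (d - s), Real.sinh_eq s, neg_sub, Real.exp_sub, Real.exp_sub, Real.exp_neg,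
      Real.exp_neg]
    have := Real.exp_pos s
    field_simp
    ring
  have hab : α + β = a := by
    have := hc 0
    simp only [hw, sub_zero, Real.sinh_zero, zero_mul, add_zero, Real.exp_zero, neg_zero,
      mul_one] at this
    exact mul_right_cancel₀ hS.ne' (by linarith)
  have hcp : ∀ s, 0 < α * Real.exp s + β * Real.exp (-s) := by
    intro s
    have k1 := Real.exp_pos s
    have k2 := Real.exp_pos (-s)
    rcases hα0.eq_or_lt with h | h
    · have : 0 < β := by linarith
      positivity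
    · positivity
  have hw0 : ∀ s, 0 < w s := fun s => by rw [hc]; exact mul_pos (hcp s) hS
  set P : ℝ → ℂ := fun s => (Real.sinh (d - s) * a / w s) • x.val + (Real.sinh s * b / w s) • y.val
    with hP
  have hsum : ∀ s, Real.sinh (d - s) * a / w s + Real.sinh s * b / w s = 1 := fun s => by
    rw [← add_div]; exact div_self (hw0 s).ne'
  have hr : ∀ s t, rho (P s) (P t) = Real.cosh (s - t) * Real.sinh d ^ 2 / (w s * w t) := by
    intro s t
    have k1 := (hw0 s).ne'
    have k2 := (hw0 t).ne'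
    have id1 : Real.cosh (s - t) * Real.sinh d ^ 2 = Real.sinh (d - s) * Real.sinh (d - t) +
        (Real.sinh (d - s) * Real.sinh t + Real.sinh s * Real.sinh (d - t)) * Real.cosh d +
        Real.sinh s * Real.sinh t := by
      rw [Real.sinh_sub, Real.sinh_sub, Real.cosh_sub]
      linear_combination (Real.sinh s * Real.sinh t) * Real.cosh_sq d
    simp only [hP]
    rw [rho_comb _ _ _ _ _ _ (hsum s) (hsum t), id1, ← e3]
    field_simp
    linear_combination Real.sinh (d - s) * Real.sinh (d - t) * e1 + Real.sinh s * Real.sinh t * e2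
  have hr' : ∀ s, √(rho (P s) (P s)) = Real.sinh d / w s := fun s => by
    rw [hr, sub_self, Real.cosh_zero, one_mul, ← sq, ← div_pow,
      Real.sqrt_sq (div_pos hS (hw0 s)).le]
  have hlt : ∀ s, ‖P s‖ < 1 := fun s => norm_lt_one_of_rho (Real.sqrt_pos.1 (by
    rw [hr']; exact div_pos hS (hw0 s)))
  refine ⟨fun s => ⟨P s, hlt s⟩, α, β, hα0, hβ0, KD.ext ?_, KD.ext ?_, fun s t => ?_, fun s => ?_,
    fun s h0 h1 => ?_⟩
  · have := hsum 0
    simp only [hP, Real.sinh_zero, zero_mul, zero_div, add_zero, zero_smul] at this ⊢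
    rw [this, one_smul]
  · have := hsum d
    simp only [hP, sub_self, Real.sinh_zero, zero_mul, zero_div, zero_add, zero_smul] at this ⊢
    rw [this, one_smul]
  · have k1 := (hw0 s).ne'
    have k2 := (hw0 t).ne'
    have k : Real.cosh (dist (⟨P s, hlt s⟩ : KD) ⟨P t, hlt t⟩) = Real.cosh (s - t) := by
      rw [KD.cosh_dist]
      change rho (P s) (P t) / (√(rho (P s) (P s)) * √(rho (P t) (P t))) = _
      rw [hr', hr', hr]
      field_simp
    rw [← abs_of_nonneg (dist_nonneg (x := (⟨P s, hlt s⟩ : KD)) (y := ⟨P t, hlt t⟩))]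
    exact le_antisymm (Real.cosh_le_cosh.1 k.le) (Real.cosh_le_cosh.1 k.ge)
  · rw [cosh_dist_o]
    change (√(rho (P s) (P s)))⁻¹ = _
    rw [hr', inv_div, hc, mul_div_assoc, div_self hS.ne', mul_one]
  · exact ⟨_, _, div_nonneg (mul_nonneg (Real.sinh_nonneg_iff.2 (by linarith)) ha0.le) (hw0 s).le,
      div_nonneg (mul_nonneg (Real.sinh_nonneg_iff.2 h0) hb0.le) (hw0 s).le, hsum s, rfl⟩

private theorem grow {p q h t : ℝ} (hp : 0 ≤ p) (hq : 0 ≤ q) (h0 : 1 / 2 ≤ h) (h1 : h ≤ 1)
    (ht : 0 ≤ t) (hm : p + q ≤ p * Real.exp h + q * Real.exp (-h)) :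
    (p + q) * Real.exp (t / 2) ≤ 8 * (p * Real.exp (t * h) + q * Real.exp (-(t * h))) := by
  have a1 : 1 < Real.exp h := Real.one_lt_exp_iff.2 (by linarith)
  have a2 : Real.exp h ≤ 3 := (Real.exp_le_exp.2 h1).trans Real.exp_one_lt_three.le
  have a3 : Real.exp h * Real.exp (-h) = 1 := by rw [← Real.exp_add]; simp
  have a4 : q ≤ p * Real.exp h := by
    have : q * (Real.exp h - 1) ≤ p * Real.exp h * (Real.exp h - 1) := by
      have := mul_le_mul_of_nonneg_right hm (Real.exp_pos h).le
      nlinarith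
    exact le_of_mul_le_mul_right this (by linarith)
  have a5 : p + q ≤ 4 * p := by nlinarith
  have a6 : Real.exp (t / 2) ≤ Real.exp (t * h) := Real.exp_le_exp.2 (by nlinarith)
  have a7 : 0 ≤ q * Real.exp (-(t * h)) := by positivity
  have a8 := mul_le_mul a5 a6 (Real.exp_pos _).le (by positivity)
  have a9 : 0 ≤ p * Real.exp (t * h) := by positivity
  linarith

/-- Points of a geodesic segment at spacing at most one, with the growth of the distance to `o`. -/
theorem exists_chain (x y : KD) : ∃ (n : ℕ) (z : ℕ → KD), z 0 = x ∧ z n = y ∧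
    (n : ℝ) ≤ dist x y + 1 ∧ (∀ i < n, dist (z i) (z (i + 1)) ≤ 1) ∧
    ∃ m A : ℝ, 1 ≤ A ∧ (∀ i ≤ n, A * Real.exp (|(i : ℝ) - m| / 2) ≤
      8 * Real.cosh (dist (z i) KD.o)) ∧
      ∀ r : ℝ, 0 ≤ r → (∀ w ∈ segment ℝ x.val y.val, r ≤ ‖w‖) → (√(1 - r ^ 2))⁻¹ ≤ A := by
  rcases le_or_gt (dist x y) 1 with hd | hd
  · refine ⟨1, fun i => if i = 0 then x else y, rfl, rfl, by simp, fun i hi => ?_, 0,
      min (Real.cosh (dist x KD.o)) (Real.cosh (dist y KD.o)),
      le_min (one_le_cosh_o x) (one_le_cosh_o y), fun i hi => ?_, fun r hr h => le_min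
        (inv_sqrt_le x hr (h _ (left_mem_segment _ _ _)))
        (inv_sqrt_le y hr (h _ (right_mem_segment _ _ _)))⟩
    · obtain rfl : i = 0 := by omega
      simpa using hd
    · have h1 : Real.exp (|(i : ℝ) - 0| / 2) ≤ 8 := by
        have : (i : ℝ) ≤ 1 := by exact_mod_cast hi
        rw [sub_zero, Nat.abs_cast]
        exact (Real.exp_le_exp.2 (by linarith)).trans
          (Real.exp_one_lt_three.le.trans (by norm_num))
      rw [mul_comm]
      refine mul_le_mul h1 ?_ (le_min (Real.cosh_pos _).le (Real.cosh_pos _).le) (by norm_num)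
      beta_reduce
      split_ifs
      · exact min_le_left _ _
      · exact min_le_right _ _
  obtain ⟨z, α, β, hα, hβ, z0, z1, hz, hc, hs⟩ := exists_geod x y (by linarith)
  set n := ⌈dist x y⌉₊ with hn
  have n1 : dist x y ≤ n := Nat.le_ceil _
  have n2 : (n : ℝ) < dist x y + 1 := Nat.ceil_lt_add_one dist_nonneg
  have n0 : (0 : ℝ) < n := by linarith
  set h := dist x y / n with hh
  have h1 : h ≤ 1 := (div_le_one n0).2 n1
  have h0 : 1 / 2 ≤ h := by rw [hh, le_div_iff₀ n0]; linarith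
  have hnh : (n : ℝ) * h = dist x y := mul_div_cancel₀ _ n0.ne'
  obtain ⟨j, hj, hmin⟩ := (Finset.range (n + 1)).exists_min_image
    (fun i : ℕ => Real.cosh (dist (z (i * h)) KD.o)) ⟨0, by simp⟩
  simp only [Finset.mem_range, Nat.lt_succ_iff] at hj hmin
  refine ⟨n, fun i => z (i * h), by simpa using z0, by simp only [hnh, z1], n2.le, fun i _ => ?_,
    j, Real.cosh (dist (z (j * h)) KD.o), one_le_cosh_o _, fun i hi => ?_, fun r hr hw =>
      inv_sqrt_le _ hr (hw _ (hs _ (by positivity) ?_))⟩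
  · rw [hz]
    push_cast
    rw [show (i : ℝ) * h - (i + 1) * h = -h by ring, abs_neg, abs_of_nonneg (by linarith)]
    exact h1
  · have p0 : 0 ≤ α * Real.exp (j * h) := by positivity
    have q0 : 0 ≤ β * Real.exp (-(j * h)) := by positivity
    rcases lt_trichotomy i j with hij | hij | hij
    · obtain ⟨k, rfl⟩ : ∃ k, j = k + 1 := ⟨j - 1, by omega⟩
      have hij' : (i : ℝ) ≤ ((k + 1 : ℕ) : ℝ) := by exact_mod_cast hij.le
      have k1 := hmin k (by omega)
      rw [hc, hc] at k1
      have k2 := grow q0 p0 h0 h1 (sub_nonneg.2 hij') (by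
        rw [mul_assoc, mul_assoc, ← Real.exp_add, ← Real.exp_add,
          show -(((k + 1 : ℕ) : ℝ) * h) + h = -(k * h) by push_cast; ring,
          show ((k + 1 : ℕ) : ℝ) * h + -h = k * h by push_cast; ring]
        linarith)
      rw [mul_assoc, mul_assoc, ← Real.exp_add, ← Real.exp_add,
        show -(((k + 1 : ℕ) : ℝ) * h) + (((k + 1 : ℕ) : ℝ) - i) * h = -(i * h) by ring,
        show ((k + 1 : ℕ) : ℝ) * h + -((((k + 1 : ℕ) : ℝ) - i) * h) = i * h by ring] at k2
      rw [hc, hc, abs_sub_comm, abs_of_nonneg (sub_nonneg.2 hij')]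
      linarith
    · subst hij
      have := Real.cosh_pos (dist (z (i * h)) KD.o)
      simp only [sub_self, abs_zero, zero_div, Real.exp_zero]
      linarith
    · have hij' : (j : ℝ) ≤ i := by exact_mod_cast hij.le
      have k1 := hmin (j + 1) (by omega)
      rw [hc, hc] at k1
      have k2 := grow p0 q0 h0 h1 (sub_nonneg.2 hij') (by
        rw [mul_assoc, mul_assoc, ← Real.exp_add, ← Real.exp_add,
          show (j : ℝ) * h + h = ((j + 1 : ℕ) : ℝ) * h by push_cast; ring,
          show -((j : ℝ) * h) + -h = -(((j + 1 : ℕ) : ℝ) * h) by push_cast; ring]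
        exact k1)
      rw [mul_assoc, mul_assoc, ← Real.exp_add, ← Real.exp_add,
        show (j : ℝ) * h + ((i : ℝ) - j) * h = i * h by ring,
        show -((j : ℝ) * h) + -(((i : ℝ) - j) * h) = -(i * h) by ring] at k2
      rw [hc, hc, abs_of_nonneg (sub_nonneg.2 hij')]
      exact k2
  · rw [← hnh]
    exact mul_le_mul_of_nonneg_right (by exact_mod_cast hj) (by linarith)

theorem norm_sub_le_of_dist (R : ℝ) : ∃ c > 0, ∀ x y : KD, dist x y ≤ R →
    ‖x.val - y.val‖ ≤ c * Real.exp (-dist x KD.o) := by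
  obtain ⟨K, hK⟩ := rho_sq_le R
  obtain ⟨c, hc, h⟩ := rho_self_cmp R
  refine ⟨2 * √(|K| * c) + 1, by positivity, fun x y hd => ?_⟩
  have h1 := hK x y hd
  have h2 := h y x (by rwa [dist_comm])
  have px := x.rho_pos
  have py := y.rho_pos
  have h3 : rho x.val x.val * ‖x.val - y.val‖ ^ 2 ≤ rho x.val y.val ^ 2 := by
    have e : rho x.val y.val ^ 2 = rho x.val x.val * ‖x.val - y.val‖ ^ 2 +
        rho x.val x.val * rho y.val y.val +
        (x.val.re * (y.val.re - x.val.re) + x.val.im * (y.val.im - x.val.im)) ^ 2 := by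
      rw [Complex.sq_norm, Complex.normSq_apply]
      simp only [rho, Complex.sub_re, Complex.sub_im]
      ring
    rw [e]
    have := mul_pos px py
    nlinarith [sq_nonneg (x.val.re * (y.val.re - x.val.re) + x.val.im * (y.val.im - x.val.im))]
  have h4 : ‖x.val - y.val‖ ^ 2 ≤ |K| * c * rho x.val x.val := by
    have a1 : ‖x.val - y.val‖ ^ 2 ≤ K * rho y.val y.val :=
      le_of_mul_le_mul_left (by linarith) px
    have a2 : K * rho y.val y.val ≤ |K| * (c * rho x.val x.val) :=
      mul_le_mul (le_abs_self K) h2 py.le (abs_nonneg K)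
    linarith
  have h5 : ‖x.val - y.val‖ ≤ √(|K| * c) * √(rho x.val x.val) := by
    rw [← Real.sqrt_mul (by positivity)]
    exact Real.le_sqrt_of_sq_le h4
  have h6 : √(rho x.val x.val) ≤ 2 * Real.exp (-dist x KD.o) := by
    rw [← inv_inv (√(rho x.val x.val)), ← cosh_dist_o, Real.exp_neg, ← div_eq_mul_inv,
      ← inv_div]
    refine inv_anti₀ (by positivity) ?_
    rw [Real.cosh_eq]
    have := Real.exp_pos (-dist x KD.o)
    linarith
  have h7 := mul_le_mul_of_nonneg_left h6 (Real.sqrt_nonneg (|K| * c))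
  have := Real.exp_pos (-dist x KD.o)
  nlinarith

end Pool.Agent.P.MP_788ef7_an
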