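import Pool.Agent.P.MP_788ef7_an.PBasic
import Pool.Agent.P.MP_788ef7_an.KChain

set_option autoImplicit false

open Set Filter Topology Metric

namespace Pool.Agent.P.MP_788ef7_an

variable {𝔊 : Type*} [Group 𝔊]

/-- Points of the orbit near a chain, and the Lipschitz constant of `g` on them. -/
theorem PreFuchs.near_chain_bd (Φ : PreFuchs 𝔊) (g : 𝔊) : ∃ R C : ℝ, 0 ≤ C ∧
    ∀ z : ℕ → KD, ∃ v : ℕ → 𝔊, (∀ i, dist (z i) (Φ.pt (v i)) ≤ R) ∧
      (∀ i u, Φ.pt u = z i → dist (Φ.pt (g * v i)) (Φ.pt (g * u)) ≤ C) ∧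
      ∀ i, dist (z i) (z (i + 1)) ≤ 1 → dist (Φ.pt (g * v i)) (Φ.pt (g * v (i + 1))) ≤ C := by
  obtain ⟨R, hR⟩ := Φ.exists_pt_near
  obtain ⟨C, hC⟩ := Φ.lip g (2 * R + 1)
  have hR0 : 0 ≤ R := by
    obtain ⟨γ, -, h⟩ := hR KD.o
    exact dist_nonneg.trans h
  refine ⟨R, C, dist_nonneg.trans (hC 1 1 (by rw [dist_self]; linarith)), fun z => ?_⟩
  choose v hv0 hv using fun i => hR (z i)
  refine ⟨v, hv, fun i u hu => hC _ _ ?_, fun i hi => hC _ _ ?_⟩
  · rw [hu, dist_comm]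
    linarith [hv i]
  · have h1 := dist_triangle4 (Φ.pt (v i)) (z i) (z (i + 1)) (Φ.pt (v (i + 1)))
    rw [dist_comm (Φ.pt (v i)) (z i)] at h1
    linarith [hv i, hv (i + 1)]

theorem PreFuchs.lin_bound (Φ : PreFuchs 𝔊) (g : 𝔊) : ∃ c > 0, ∀ u u',
    dist (Φ.pt (g * u)) (Φ.pt (g * u')) ≤ c * (dist (Φ.pt u) (Φ.pt u') + 1) := by
  obtain ⟨R, C, hC, h⟩ := Φ.near_chain_bd g
  refine ⟨3 * C + 1, by linarith, fun u u' => ?_⟩
  obtain ⟨n, z, hz0, hzn, hn, hz, -⟩ := exists_chain (Φ.pt u) (Φ.pt u')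
  obtain ⟨v, -, hv1, hv2⟩ := h z
  have h1 := hv1 0 u hz0.symm
  have h2 := hv1 n u' hzn.symm
  have h3 : dist (Φ.pt (g * v 0)) (Φ.pt (g * v n)) ≤ n * C := by
    refine (dist_le_range_sum_of_dist_le (f := fun i => Φ.pt (g * v i)) (d := fun _ => C) n
      fun {i} hi => hv2 i (hz i hi)).trans ?_
    simp
  have h4 := dist_triangle4 (Φ.pt (g * u)) (Φ.pt (g * v 0)) (Φ.pt (g * v n)) (Φ.pt (g * u'))
  rw [dist_comm (Φ.pt (g * u)) (Φ.pt (g * v 0))] at h4
  have h5 : 0 ≤ dist (Φ.pt u) (Φ.pt u') := dist_nonneg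
  have h6 := mul_le_mul_of_nonneg_right hn hC
  nlinarith [mul_nonneg h5 hC]

theorem geom_sum_bd {a : ℝ} (ha : 0 < a) : ∃ S : ℝ, 0 ≤ S ∧ ∀ (n : ℕ) (m : ℝ),
    ∑ i ∈ Finset.range n, Real.exp (-(a * |(i : ℝ) - m|)) ≤ S := by
  have hN : Summable fun n : ℕ => Real.exp (-(a * n)) := by
    have := Real.summable_exp_nat_mul_iff.2 (neg_lt_zero.2 ha)
    refine this.congr fun n => ?_
    rw [mul_neg, mul_comm]
  have hs : Summable fun j : ℤ => Real.exp (-(a * |(j : ℝ)|)) := by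
    refine Summable.of_nat_of_neg ?_ ?_
    · simpa using hN
    · simpa using hN
  refine ⟨Real.exp a * ∑' j : ℤ, Real.exp (-(a * |(j : ℝ)|)),
    mul_nonneg (Real.exp_pos _).le (tsum_nonneg fun _ => (Real.exp_pos _).le), fun n m => ?_⟩
  have hinj : Set.InjOn (fun i : ℕ => (i : ℤ) - ⌊m⌋) (Finset.range n : Set ℕ) := by
    intro i _ j _ hij
    simpa using hij
  have h1 := hs.sum_le_tsum ((Finset.range n).image fun i : ℕ => (i : ℤ) - ⌊m⌋)
    fun _ _ => (Real.exp_pos _).le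
  rw [Finset.sum_image hinj] at h1
  refine le_trans ?_ (mul_le_mul_of_nonneg_left h1 (Real.exp_pos a).le)
  rw [Finset.mul_sum]
  refine Finset.sum_le_sum fun i _ => ?_
  rw [← Real.exp_add, Real.exp_le_exp]
  have h2 : |(((i : ℤ) - ⌊m⌋ : ℤ) : ℝ)| ≤ |(i : ℝ) - m| + 1 := by
    push_cast
    have h3 := Int.floor_le m
    have h4 := Int.lt_floor_add_one m
    have h5 := le_abs_self ((i : ℝ) - m)
    have h6 := neg_abs_le ((i : ℝ) - m)
    rw [abs_le]
    constructor <;> linarith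
  nlinarith

theorem cosh_le_exp_bd {d : ℝ} (hd : 0 ≤ d) : Real.cosh d ≤ Real.exp d := by
  rw [Real.cosh_eq]
  have : Real.exp (-d) ≤ Real.exp d := Real.exp_le_exp.2 (by linarith)
  linarith

theorem PreFuchs.unif_bd (Φ : PreFuchs 𝔊) (g : 𝔊) {ε : ℝ} (hε : 0 < ε) : ∃ δ > 0, ∀ u u',
    1 - δ < ‖(Φ.pt u).val‖ → ‖(Φ.pt u).val - (Φ.pt u').val‖ < δ →
      ‖(Φ.pt (g * u)).val - (Φ.pt (g * u')).val‖ < ε ∧ 1 - ε < ‖(Φ.pt (g * u)).val‖ := by
  obtain ⟨R, C, hC, h⟩ := Φ.near_chain_bd g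
  obtain ⟨c, hc, hlin⟩ := Φ.lin_bound g⁻¹
  obtain ⟨c1, hc1, hnorm⟩ := norm_sub_le_of_dist C
  obtain ⟨S, hS0, hS⟩ := geom_sum_bd (a := 1 / (2 * c)) (by positivity)
  set D := dist (Φ.pt g⁻¹) KD.o with hD
  have hlow : ∀ w, dist (Φ.pt w) KD.o ≤ c * (dist (Φ.pt (g * w)) KD.o + 1) + D := by
    intro w
    have h1 := hlin (g * w) 1
    rw [inv_mul_cancel_left, mul_one, Φ.pt_one] at h1
    linarith [dist_triangle (Φ.pt w) (Φ.pt g⁻¹) KD.o]
  obtain ⟨R1, hR1⟩ := exists_dist_le (r := 1 - ε) (by linarith)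
  obtain ⟨r2, hr2, hR2⟩ := exists_norm_le (c * (R1 + 1) + D)
  set η := ε / (c1 * (S + 2) + 1) with hη
  have hη0 : 0 < η := by positivity
  set T := R + D + c * (1 - Real.log η) with hT
  set b := (8 * Real.exp T)⁻¹ with hb
  have hb0 : 0 < b := by positivity
  refine ⟨min (min (1 / 2) (b ^ 2 / 4)) (1 - r2), by
    refine lt_min (lt_min (by norm_num) (by positivity)) (by linarith), fun u u' hu huu => ?_⟩
  set δ := min (min (1 / 2) (b ^ 2 / 4)) (1 - r2) with hδ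
  have hδ1 : δ ≤ 1 / 2 := (min_le_left _ _).trans (min_le_left _ _)
  have hδ2 : δ ≤ b ^ 2 / 4 := (min_le_left _ _).trans (min_le_right _ _)
  have hδ3 : δ ≤ 1 - r2 := min_le_right _ _
  have hδ0 : 0 < δ := (norm_nonneg _).trans_lt huu
  refine ⟨?_, ?_⟩
  · obtain ⟨n, z, hz0, hzn, -, hz, m, A, -, hA, hAr⟩ := exists_chain (Φ.pt u) (Φ.pt u')
    obtain ⟨v, hv0, hv1, hv2⟩ := h z
    have hA8 : 8 * Real.exp T ≤ A := by
      refine le_trans ?_ (hAr (1 - 2 * δ) (by linarith) fun w hw => ?_)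
      · have h1 : 0 < 1 - (1 - 2 * δ) ^ 2 := by nlinarith
        rw [← _root_.inv_inv (8 * Real.exp T), ← hb]
        refine inv_anti₀ (Real.sqrt_pos.2 h1) ?_
        rw [Real.sqrt_le_left hb0.le]
        nlinarith
      · have h1 : w ∈ closedBall (Φ.pt u).val δ := by
          refine (convex_closedBall _ _).segment_subset (mem_closedBall_self hδ0.le) ?_ hw
          rw [mem_closedBall, dist_comm, dist_eq_norm]
          exact huu.le
        rw [mem_closedBall, dist_comm, dist_eq_norm] at h1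
        have h2 := norm_sub_norm_le (Φ.pt u).val w
        linarith
    have he : ∀ i ≤ n, Real.exp (-dist (Φ.pt (g * v i)) KD.o) ≤
        η * Real.exp (-(1 / (2 * c) * |(i : ℝ) - m|)) := by
      intro i hi
      have h1 := hA i hi
      have h2 := cosh_le_exp_bd (dist_nonneg : 0 ≤ dist (z i) KD.o)
      have h3 : Real.exp (T + |(i : ℝ) - m| / 2) ≤ Real.exp (dist (z i) KD.o) := by
        rw [Real.exp_add]
        have := mul_le_mul_of_nonneg_right hA8 (Real.exp_pos (|(i : ℝ) - m| / 2)).le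
        linarith
      rw [Real.exp_le_exp] at h3
      have h4 := hlow (v i)
      have h5 := dist_triangle (z i) (Φ.pt (v i)) KD.o
      have h6 := hv0 i
      rw [← Real.exp_log hη0, ← Real.exp_add, Real.exp_le_exp]
      have h7 : c * (1 / (2 * c) * |(i : ℝ) - m|) = |(i : ℝ) - m| / 2 := by field_simp
      refine le_of_mul_le_mul_left ?_ hc
      rw [mul_add, mul_neg, mul_neg, h7]
      linarith
    have he1 : ∀ i ≤ n, Real.exp (-dist (Φ.pt (g * v i)) KD.o) ≤ η := by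
      intro i hi
      refine (he i hi).trans (mul_le_of_le_one_right hη0.le ?_)
      rw [Real.exp_le_one_iff, neg_nonpos]
      positivity
    have h1 := (hnorm _ _ (hv1 0 u hz0.symm)).trans
      (mul_le_mul_of_nonneg_left (he1 0 n.zero_le) hc1.le)
    have h2 := (hnorm _ _ (hv1 n u' hzn.symm)).trans
      (mul_le_mul_of_nonneg_left (he1 n le_rfl) hc1.le)
    have h3 : dist (Φ.pt (g * v 0)).val (Φ.pt (g * v n)).val ≤ c1 * η * S := by
      refine (dist_le_range_sum_of_dist_le (f := fun i => (Φ.pt (g * v i)).val)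
        (d := fun i => c1 * η * Real.exp (-(1 / (2 * c) * |(i : ℝ) - m|))) n
        fun {i} hi => ?_).trans ?_
      · rw [dist_eq_norm, mul_assoc]
        exact (hnorm _ _ (hv2 i (hz i hi))).trans (mul_le_mul_of_nonneg_left (he i hi.le) hc1.le)
      · rw [← Finset.mul_sum]
        exact mul_le_mul_of_nonneg_left (hS n m) (by positivity)
    have h4 := dist_triangle4 (Φ.pt (g * u)).val (Φ.pt (g * v 0)).val (Φ.pt (g * v n)).val
      (Φ.pt (g * u')).val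
    rw [dist_comm (Φ.pt (g * u)).val (Φ.pt (g * v 0)).val] at h4
    rw [← dist_eq_norm] at h1 h2 ⊢
    have h5 : η * (c1 * (S + 2) + 1) = ε := by rw [hη]; field_simp
    nlinarith
  · by_contra hcon
    have h1 := hR1 _ (not_lt.1 hcon)
    have h2 := hlow u
    have h3 := hR2 (Φ.pt u) (by nlinarith)
    linarith

/-- The limit on the circle, with a modulus that does not depend on the point. -/
theorem PreFuchs.exists_act_bd (Φ : PreFuchs 𝔊) (g : 𝔊) : ∃ F : Circle → Circle,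
    ∀ ε > 0, ∃ δ > 0, ∀ (ξ : Circle) u, ‖(Φ.pt u).val - ξ‖ < δ →
      ‖(Φ.pt (g * u)).val - F ξ‖ < ε := by
  choose f hf0 hf using Φ.exists_tendsto_pt
  have hnear : ∀ (ξ : Circle) (δ : ℝ), 0 < δ → ∀ᶠ n in atTop, ‖(Φ.pt (f ξ n)).val - ξ‖ < δ := by
    intro ξ δ hδ
    simpa only [dist_eq_norm] using Metric.tendsto_nhds.1 (hf ξ) δ hδ
  have hkey : ∀ ε > 0, ∃ δ > 0, ∀ (ξ : Circle) u u', ‖(Φ.pt u).val - ξ‖ < δ →
      ‖(Φ.pt u').val - ξ‖ < δ →
      ‖(Φ.pt (g * u)).val - (Φ.pt (g * u')).val‖ < ε ∧ 1 - ε < ‖(Φ.pt (g * u)).val‖ := by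
    intro ε hε
    obtain ⟨δ, hδ, h⟩ := Φ.unif_bd g hε
    refine ⟨δ / 2, by positivity, fun ξ u u' hu hu' => h u u' ?_ ?_⟩
    · have h1 := norm_sub_norm_le (ξ : ℂ) (Φ.pt u).val
      rw [Circle.norm_coe, norm_sub_rev] at h1
      linarith
    · have h1 := dist_triangle_right (Φ.pt u).val (Φ.pt u').val ξ
      simp only [dist_eq_norm] at h1
      linarith
  have hlim : ∀ ξ : Circle, ∃ ζ : Circle,
      Tendsto (fun n => (Φ.pt (g * f ξ n)).val) atTop (𝓝 ζ) := by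
    intro ξ
    have hc : CauchySeq fun n => (Φ.pt (g * f ξ n)).val := by
      rw [Metric.cauchySeq_iff]
      intro ε hε
      obtain ⟨δ, hδ, h⟩ := hkey ε hε
      obtain ⟨N, hN⟩ := eventually_atTop.1 (hnear ξ δ hδ)
      exact ⟨N, fun m hm n hn => by
        rw [dist_eq_norm]; exact (h ξ _ _ (hN m hm) (hN n hn)).1⟩
    obtain ⟨l, hl⟩ := cauchySeq_tendsto_of_complete hc
    have h1 : ‖l‖ = 1 := by
      refine le_antisymm (le_of_tendsto' hl.norm fun n => (Φ.pt _).lt.le) ?_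
      refine le_of_forall_pos_le_add fun ε hε => ?_
      obtain ⟨δ, hδ, h⟩ := hkey ε hε
      have : 1 - ε ≤ ‖l‖ :=
        ge_of_tendsto hl.norm ((hnear ξ δ hδ).mono fun n hn => (h ξ _ _ hn hn).2.le)
      linarith
    exact ⟨⟨l, mem_sphere_zero_iff_norm.2 h1⟩, hl⟩
  choose F hF using hlim
  refine ⟨F, fun ε hε => ?_⟩
  obtain ⟨δ, hδ, h⟩ := hkey (ε / 2) (by positivity)
  refine ⟨δ, hδ, fun ξ u hu => ?_⟩
  have : ‖(Φ.pt (g * u)).val - F ξ‖ ≤ ε / 2 :=
    le_of_tendsto (tendsto_const_nhds.sub (hF ξ)).norm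
      ((hnear ξ δ hδ).mono fun n hn => (h ξ _ _ hu hn).1.le)
  linarith

/-- The action extends to the circle at infinity. -/
theorem PreFuchs.exists_fuchs (Φ : PreFuchs 𝔊) :
    ∃ (_ : MulAction 𝔊 Circle) (Φ' : Fuchs 𝔊), Φ'.toPreFuchs = Φ := by
  choose F hF using Φ.exists_act_bd
  choose f hf0 hf using Φ.exists_tendsto_pt
  have hten : ∀ (g : 𝔊) (ξ : Circle) (u : ℕ → 𝔊),
      Tendsto (fun n => (Φ.pt (u n)).val) atTop (𝓝 ξ) →
      Tendsto (fun n => (Φ.pt (g * u n)).val) atTop (𝓝 (F g ξ)) := by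
    intro g ξ u hu
    rw [Metric.tendsto_nhds] at hu ⊢
    intro ε hε
    obtain ⟨δ, hδ, h⟩ := hF g ε hε
    refine (hu δ hδ).mono fun n hn => ?_
    rw [dist_eq_norm] at hn ⊢
    exact h ξ _ hn
  let inst : MulAction 𝔊 Circle :=
    { smul := F
      one_smul := fun ξ => by
        apply Circle.ext
        have h1 := hten 1 ξ _ (hf ξ)
        simp only [one_mul] at h1
        exact tendsto_nhds_unique h1 (hf ξ)
      mul_smul := fun g g' ξ => by
        apply Circle.ext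
        have h1 := hten (g * g') ξ _ (hf ξ)
        have h2 := hten g _ _ (hten g' ξ _ (hf ξ))
        simp only [mul_assoc] at h1
        exact tendsto_nhds_unique h1 h2 }
  refine ⟨inst, ⟨Φ, fun g => ?_, fun γ ξ hγ => ?_, fun g ξ ε hε => ?_⟩, rfl⟩
  · rw [Metric.continuous_iff]
    intro ξ ε hε
    obtain ⟨δ, hδ, h⟩ := hF g (ε / 2) (by positivity)
    refine ⟨δ / 2, by positivity, fun ξ' hξ' => ?_⟩
    obtain ⟨n, hn⟩ := (Metric.tendsto_nhds.1 (hf ξ) (δ / 2) (by positivity)).exists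
    have h0 : dist (ξ' : ℂ) ξ < δ / 2 := hξ'
    have h1 := h ξ (f ξ n) (by rw [← dist_eq_norm]; linarith)
    have h2 := h ξ' (f ξ n) (by
      rw [← dist_eq_norm]
      linarith [dist_triangle_right (Φ.pt (f ξ n)).val (ξ' : ℂ) ξ])
    have h3 := dist_triangle_left (F g ξ' : ℂ) (F g ξ) (Φ.pt (g * f ξ n)).val
    rw [← dist_eq_norm] at h1 h2
    show dist (F g ξ' : ℂ) (F g ξ) < ε
    linarith
  · have h1 := hten γ ξ _ (hf ξ)
    have h2 : Tendsto (fun n => kact (Φ.L γ) (Φ.pt (f ξ n)).val) atTop (𝓝 (kact (Φ.L γ) ξ)) := by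
      refine ((Φ.lor γ).continuousOn_kact ξ
        (mem_closedBall_zero_iff.2 (Circle.norm_coe ξ).le)).tendsto.comp ?_
      exact tendsto_nhdsWithin_iff.2 ⟨hf ξ, Eventually.of_forall fun n =>
        mem_closedBall_zero_iff.2 (Φ.pt _).lt.le⟩
    simp only [Φ.pt_mul hγ, Φ.mv_val] at h1
    exact tendsto_nhds_unique h1 h2
  · obtain ⟨δ, hδ, h⟩ := hF g ε hε
    exact ⟨δ, hδ, h ξ⟩

end Pool.Agent.P.MP_788ef7_an
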