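import Pool.Agent.P.MP_788ef7_an.CDefs

set_option autoImplicit false

open Set Filter Topology Metric

namespace Pool.Agent.P.MP_788ef7_an

theorem sc_of_star_cover {X E : Type*} [TopologicalSpace X] [NormedAddCommGroup E]
    [NormedSpace ℝ E] {e : X → E} (he : IsOpenEmbedding e) {W : Set E} {c : E} (hc : c ∈ W)
    (hs : StarConvex ℝ c W) (hW : W ⊆ range e) : SimplyConnectedSpace (e ⁻¹' W) := by
  have : ContractibleSpace W := hs.contractibleSpace ⟨c, hc⟩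
  exact (he.isEmbedding.homeomorphOfSubsetRange hW).toHomotopyEquiv.simplyConnectedSpace

theorem twoSC_of_twoStar {X E : Type*} [TopologicalSpace X] [NormedAddCommGroup E]
    [NormedSpace ℝ E] {e : X → E} (he : IsOpenEmbedding e) (h : TwoStar (range e)) : TwoSC X := by
  obtain ⟨W₁, W₂, c₁, c₂, ho₁, ho₂, hc₁, hc₂, hs₁, hs₂, hU, hI⟩ := h
  have h₁ : W₁ ⊆ range e := hU ▸ subset_union_left
  have h₂ : W₂ ⊆ range e := hU ▸ subset_union_right
  refine ⟨e ⁻¹' W₁, e ⁻¹' W₂, ho₁.preimage he.continuous, ho₂.preimage he.continuous, ?_,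
    sc_of_star_cover he hc₁ hs₁ h₁, sc_of_star_cover he hc₂ hs₂ h₂, ?_⟩
  · rw [← preimage_union, hU, preimage_range]
  · rw [← preimage_inter]
    exact hI.preimage_of_isOpenMap he.injective he.isOpenMap (inter_subset_left.trans h₁)

theorem lift_on_cover {Z : Type*} [TopologicalSpace Z] [LocallyPathConnectedSpace Z] {U : Set Z}
    (hU : IsOpen U) (hs : SimplyConnectedSpace U)
    {E B : Type*} [TopologicalSpace E] [TopologicalSpace B] {p : E → B} (hp : IsCoveringMap p)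
    {f : Z → B} (hf : Continuous f) {z₀ : Z} (hz : z₀ ∈ U) {e₀ : E} (h₀ : p e₀ = f z₀) :
    ∃ g : Z → E, ContinuousOn g U ∧ (∀ z ∈ U, p (g z) = f z) ∧ g z₀ = e₀ := by
  classical
  have : LocallyPathConnectedSpace U := hU.locallyPathConnectedSpace
  obtain ⟨F, ⟨hF0, hF⟩, -⟩ := hp.existsUnique_continuousMap_lifts
    (⟨fun z : U => f z, hf.comp continuous_subtype_val⟩ : C(U, B)) ⟨z₀, hz⟩ e₀ h₀
  refine ⟨fun z => if h : z ∈ U then F ⟨z, h⟩ else e₀, ?_, ?_, ?_⟩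
  · rw [continuousOn_iff_continuous_domRestrict]
    refine F.continuous.congr fun z => ?_
    change F z = if h : z.1 ∈ U then F ⟨z.1, h⟩ else e₀
    rw [dif_pos z.2]
  · intro z hzU
    simp only [dif_pos hzU]
    exact congrFun hF ⟨z, hzU⟩
  · simp only [dif_pos hz]
    exact hF0

theorem lift_two_cover {Z : Type*} [TopologicalSpace Z] [LocallyPathConnectedSpace Z]
    {U₁ U₂ : Set Z} (ho₁ : IsOpen U₁) (ho₂ : IsOpen U₂) (hU : U₁ ∪ U₂ = univ)
    (hs₁ : SimplyConnectedSpace U₁) (hs₂ : SimplyConnectedSpace U₂) (hI : IsConnected (U₁ ∩ U₂))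
    {E B : Type*} [TopologicalSpace E] [TopologicalSpace B] {p : E → B} (hp : IsCoveringMap p)
    {f : Z → B} (hf : Continuous f) {z₀ : Z} (hz : z₀ ∈ U₁) {e₀ : E} (h₀ : p e₀ = f z₀) :
    ∃ g : Z → E, Continuous g ∧ (∀ z, p (g z) = f z) ∧ g z₀ = e₀ := by
  classical
  obtain ⟨g₁, hc₁, hl₁, hz₁⟩ := lift_on_cover ho₁ hs₁ hp hf hz h₀
  obtain ⟨w, hw⟩ := hI.nonempty
  obtain ⟨g₂, hc₂, hl₂, hz₂⟩ := lift_on_cover ho₂ hs₂ hp hf hw.2 (hl₁ w hw.1)
  have heq : EqOn g₁ g₂ (U₁ ∩ U₂) :=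
    hp.eqOn_of_comp_eqOn hI.isPreconnected (hc₁.mono inter_subset_left)
      (hc₂.mono inter_subset_right)
      (fun z hz => (hl₁ z hz.1).trans (hl₂ z hz.2).symm) hw hz₂.symm
  have e₁ : EqOn (U₁.piecewise g₁ g₂) g₁ U₁ := fun z hz => piecewise_eq_of_mem _ _ _ hz
  have e₂ : EqOn (U₁.piecewise g₁ g₂) g₂ U₂ := by
    intro z hz
    by_cases h : z ∈ U₁
    · exact (e₁ h).trans (heq ⟨h, hz⟩)
    · exact piecewise_eq_of_notMem _ _ _ h
  have hm : ∀ z, z ∈ U₁ ∨ z ∈ U₂ := fun z => by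
    have : z ∈ U₁ ∪ U₂ := hU ▸ mem_univ z
    exact this
  refine ⟨U₁.piecewise g₁ g₂, ?_, ?_, (e₁ hz).trans hz₁⟩
  · rw [continuous_iff_continuousAt]
    intro z
    rcases hm z with h | h
    · exact (hc₁.congr e₁).continuousAt (ho₁.mem_nhds h)
    · exact (hc₂.congr e₂).continuousAt (ho₂.mem_nhds h)
  · intro z
    rcases hm z with h | h
    · rw [e₁ h]; exact hl₁ z h
    · rw [e₂ h]; exact hl₂ z h

theorem TwoSC.lift {Z : Type*} [TopologicalSpace Z] [LocallyPathConnectedSpace Z] (hZ : TwoSC Z)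
    {E B : Type*} [TopologicalSpace E] [TopologicalSpace B] {p : E → B} (hp : IsCoveringMap p)
    {f : Z → B} (hf : Continuous f) {z₀ : Z} {e₀ : E} (h₀ : p e₀ = f z₀) :
    ∃ g : Z → E, Continuous g ∧ (∀ z, p (g z) = f z) ∧ g z₀ = e₀ := by
  obtain ⟨U₁, U₂, ho₁, ho₂, hU, hs₁, hs₂, hI⟩ := hZ
  have hm : z₀ ∈ U₁ ∪ U₂ := hU ▸ mem_univ z₀
  rcases hm with h | h
  · exact lift_two_cover ho₁ ho₂ hU hs₁ hs₂ hI hp hf h h₀
  · exact lift_two_cover ho₂ ho₁ ((union_comm _ _).trans hU) hs₂ hs₁ (inter_comm U₁ U₂ ▸ hI)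
      hp hf h h₀

theorem TwoSC.lift_retract {Z Z' : Type*} [TopologicalSpace Z] [TopologicalSpace Z']
    [LocallyPathConnectedSpace Z'] (hZ : TwoSC Z') {i : Z → Z'} {r : Z' → Z} (hi : Continuous i)
    (hr : Continuous r) (hri : ∀ z, r (i z) = z) {E B : Type*} [TopologicalSpace E]
    [TopologicalSpace B] {p : E → B} (hp : IsCoveringMap p) {f : Z → B} (hf : Continuous f)
    {z₀ : Z} {e₀ : E} (h₀ : p e₀ = f z₀) :
    ∃ g : Z → E, Continuous g ∧ (∀ z, p (g z) = f z) ∧ g z₀ = e₀ := by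
  obtain ⟨g, hg, hl, hz⟩ := hZ.lift hp (f := fun z => f (r z)) (hf.comp hr) (z₀ := i z₀)
    (e₀ := e₀) (by rw [h₀, hri])
  exact ⟨fun z => g (i z), hg.comp hi, fun z => by rw [hl, hri], hz⟩

theorem evenly_prod_cover {X Y M M' I J : Type*} [TopologicalSpace X] [TopologicalSpace Y]
    [TopologicalSpace M] [TopologicalSpace M'] [TopologicalSpace I] [TopologicalSpace J]
    {p : X → M} {p' : Y → M'} {m : M} {m' : M'} (h : IsEvenlyCovered p m I)
    (h' : IsEvenlyCovered p' m' J) : IsEvenlyCovered (Prod.map p p') (m, m') (I × J) := by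
  obtain ⟨hI, U, hm, hU, hpU, H, hH⟩ := h
  obtain ⟨hJ, V, hm', hV, hpV, K, hK⟩ := h'
  have hpre : Prod.map p p' ⁻¹' (U ×ˢ V) = (p ⁻¹' U) ×ˢ (p' ⁻¹' V) := rfl
  refine ⟨inferInstance, U ×ˢ V, ⟨hm, hm'⟩, hU.prod hV, hpre ▸ hpU.prod hpV, ?_⟩
  refine ⟨((Homeomorph.Set.prod (p ⁻¹' U) (p' ⁻¹' V)).trans (H.prodCongr K)).trans
    ((Homeomorph.prodProdProdComm U I V J).trans
      ((Homeomorph.Set.prod U V).symm.prodCongr (Homeomorph.refl (I × J)))), ?_⟩
  intro x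
  exact Prod.ext (hH ⟨x.1.1, x.2.1⟩) (hK ⟨x.1.2, x.2.2⟩)

theorem isCoveringMap_prodMap {X Y M M' : Type*} [TopologicalSpace X] [TopologicalSpace Y]
    [TopologicalSpace M] [TopologicalSpace M'] {p : X → M} {p' : Y → M'} (h : IsCoveringMap p)
    (h' : IsCoveringMap p') : IsCoveringMap (Prod.map p p') := fun m =>
  (evenly_prod_cover (h m.1) (h' m.2)).to_isEvenlyCovered_preimage

theorem nrm_of_lift_cover {X Y M M' : Type*} [MetricSpace X] [MetricSpace Y] [TopologicalSpace M]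
    [TopologicalSpace M'] [ConnectedSpace (X × Y)] {p : X → M} {p' : Y → M'}
    (h : IsCoveringMap p) (h' : IsCoveringMap p')
    (ht : ∀ x y, p x = p y → ∃ γ : X ≃ᵢ X, (∀ z, p (γ z) = p z) ∧ γ x = y)
    (ht' : ∀ x y, p' x = p' y → ∃ γ : Y ≃ᵢ Y, (∀ z, p' (γ z) = p' z) ∧ γ x = y)
    (φ : M × M' → M × M') (F : Equiv.Perm (X × Y)) (hF : Continuous F)
    (hl : ∀ z, Prod.map p p' (F z) = φ (Prod.map p p' z)) : Nrm F (deck p) (deck p') := by
  intro γ₁ h₁ γ₂ h₂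
  have h₁' : ∀ z, p (γ₁ z) = p z := h₁
  have h₂' : ∀ z, p' (γ₂ z) = p' z := h₂
  have key : ∀ z : X × Y, Prod.map p p' (F (γ₁ z.1, γ₂ z.2)) = Prod.map p p' (F z) := by
    intro z
    rw [hl, hl]
    exact congrArg φ (Prod.ext (h₁' z.1) (h₂' z.2))
  obtain ⟨z₀⟩ : Nonempty (X × Y) := inferInstance
  obtain ⟨δ₁, hδ₁, e₁⟩ := ht (F z₀).1 (F (γ₁ z₀.1, γ₂ z₀.2)).1 (congrArg Prod.fst (key z₀)).symm
  obtain ⟨δ₂, hδ₂, e₂⟩ := ht' (F z₀).2 (F (γ₁ z₀.1, γ₂ z₀.2)).2 (congrArg Prod.snd (key z₀)).symm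
  refine ⟨δ₁, hδ₁, δ₂, hδ₂, fun x y => ?_⟩
  have c₁ : Continuous fun z : X × Y => F (γ₁ z.1, γ₂ z.2) :=
    hF.comp ((γ₁.continuous.comp continuous_fst).prodMk (γ₂.continuous.comp continuous_snd))
  have c₂ : Continuous fun z : X × Y => (δ₁ (F z).1, δ₂ (F z).2) :=
    (δ₁.continuous.comp hF.fst).prodMk (δ₂.continuous.comp hF.snd)
  have := (isCoveringMap_prodMap h h').eq_of_comp_eq c₁ c₂
    (funext fun z => (key z).trans (Prod.ext (hδ₁ _).symm (hδ₂ _).symm)) z₀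
    (Prod.ext e₁.symm e₂.symm)
  exact congrFun this (x, y)

/-- The lift of a homeomorphism of a product normalises the product of the deck groups. -/
theorem raw_lift {X Y M M' : Type*} [MetricSpace X] [MetricSpace Y] [TopologicalSpace M]
    [TopologicalSpace M'] [ConnectedSpace (X × Y)] {p : X → M} {p' : Y → M'}
    (h : IsCoveringMap p) (h' : IsCoveringMap p') (hs : Function.Surjective p)
    (hs' : Function.Surjective p')
    (ht : ∀ x y, p x = p y → ∃ γ : X ≃ᵢ X, (∀ z, p (γ z) = p z) ∧ γ x = y)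
    (ht' : ∀ x y, p' x = p' y → ∃ γ : Y ≃ᵢ Y, (∀ z, p' (γ z) = p' z) ∧ γ x = y)
    (hl : ∀ (f : X × Y → M × M') (z₀ e₀ : X × Y), Continuous f → Prod.map p p' e₀ = f z₀ →
      ∃ g : X × Y → X × Y, Continuous g ∧ (∀ z, Prod.map p p' (g z) = f z) ∧ g z₀ = e₀)
    (f : Equiv.Perm (M × M')) (hf : Continuous f) (hf' : Continuous f.symm) :
    ∃ F : Equiv.Perm (X × Y), Continuous F ∧ Continuous (F⁻¹ : Equiv.Perm (X × Y)) ∧
      (∀ z, Prod.map p p' (F z) = f (Prod.map p p' z)) ∧ Nrm F (deck p) (deck p') ∧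
      Nrm F⁻¹ (deck p) (deck p') := by
  have hP := isCoveringMap_prodMap h h'
  obtain ⟨z₀⟩ : Nonempty (X × Y) := inferInstance
  obtain ⟨e₀, he₀⟩ := (hs.prodMap hs') (f (Prod.map p p' z₀))
  obtain ⟨F, hFc, hFl, hF0⟩ := hl (fun z => f (Prod.map p p' z)) z₀ e₀ (hf.comp hP.continuous) he₀
  obtain ⟨G, hGc, hGl, hG0⟩ := hl (fun z => f.symm (Prod.map p p' z)) e₀ z₀
    (hf'.comp hP.continuous) (by rw [he₀, Equiv.symm_apply_apply])
  have hGF : (fun z => G (F z)) = id :=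
    hP.eq_of_comp_eq (hGc.comp hFc) continuous_id
      (funext fun z => by
        simp only [Function.comp_apply, id]
        rw [hGl, hFl, Equiv.symm_apply_apply]) z₀ (by rw [hF0, hG0]; rfl)
  have hFG : (fun z => F (G z)) = id :=
    hP.eq_of_comp_eq (hFc.comp hGc) continuous_id
      (funext fun z => by
        simp only [Function.comp_apply, id]
        rw [hFl, hGl, Equiv.apply_symm_apply]) e₀ (by rw [hG0, hF0]; rfl)
  let Φ : Equiv.Perm (X × Y) := ⟨F, G, fun z => congrFun hGF z, fun z => congrFun hFG z⟩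
  exact ⟨Φ, hFc, hGc, hFl, nrm_of_lift_cover h h' ht ht' f Φ hFc hFl,
    nrm_of_lift_cover h h' ht ht' f.symm Φ⁻¹ hGc hGl⟩

theorem twoStar_of_convex {E : Type*} [NormedAddCommGroup E] [NormedSpace ℝ E] {O : Set E}
    (ho : IsOpen O) (hc : Convex ℝ O) (hne : O.Nonempty) : TwoStar O := by
  obtain ⟨c, hcO⟩ := hne
  refine ⟨O, O, c, c, ho, ho, hcO, hcO, hc hcO, hc hcO, union_self O, ?_⟩
  rw [inter_self]
  exact hc.isConnected ⟨c, hcO⟩

theorem cont_coord_cover (i : Fin 3) : Continuous fun y : E3 => y i := by fun_prop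

theorem lin_coord_cover (i : Fin 3) : IsLinearMap ℝ fun y : E3 => y i :=
  ⟨fun _ _ => rfl, fun _ _ => rfl⟩

theorem open_ray_cover (σ : ℝ) : IsOpen {y : E3 | 0 < σ * y 0 ∨ y 1 ≠ 0 ∨ y 2 ≠ 0} :=
  (isOpen_lt continuous_const (continuous_const.mul (cont_coord_cover 0))).union
    ((isOpen_ne_fun (cont_coord_cover 1) continuous_const).union
      (isOpen_ne_fun (cont_coord_cover 2) continuous_const))

theorem star_ray_cover {σ : ℝ} (hσ : σ * σ = 1) :
    StarConvex ℝ (EuclideanSpace.single 0 σ : E3) {y : E3 | 0 < σ * y 0 ∨ y 1 ≠ 0 ∨ y 2 ≠ 0} := by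
  intro y hy a b ha hb hab
  have h0 : (a • (EuclideanSpace.single 0 σ : E3) + b • y) 0 = a * σ + b * y 0 := by simp
  have h1 : (a • (EuclideanSpace.single 0 σ : E3) + b • y) 1 = b * y 1 := by simp
  have h2 : (a • (EuclideanSpace.single 0 σ : E3) + b • y) 2 = b * y 2 := by simp
  simp only [mem_ofPred_eq] at hy ⊢
  rw [h0, h1, h2]
  have e : σ * (a * σ + b * y 0) = a + b * (σ * y 0) := by linear_combination a * hσ
  rw [e]
  rcases hb.eq_or_lt with hb0 | hb0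
  · left
    rw [← hb0] at hab ⊢
    linarith
  · rcases hy with hy | hy | hy
    · left
      have := mul_pos hb0 hy
      linarith
    · exact Or.inr (Or.inl (mul_ne_zero hb0.ne' hy))
    · exact Or.inr (Or.inr (mul_ne_zero hb0.ne' hy))

theorem conn_line_cover : IsConnected {y : E3 | y 1 ≠ 0 ∨ y 2 ≠ 0} := by
  have a₁ := (convex_halfSpace_gt (lin_coord_cover 1) (0 : ℝ)).isPreconnected
  have a₂ := (convex_halfSpace_gt (lin_coord_cover 2) (0 : ℝ)).isPreconnected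
  have a₃ := (convex_halfSpace_lt (lin_coord_cover 1) (0 : ℝ)).isPreconnected
  have a₄ := (convex_halfSpace_lt (lin_coord_cover 2) (0 : ℝ)).isPreconnected
  have b₁ := a₁.union (!₂[0, 1, 1] : E3) (by simp) (by simp) a₂
  have b₂ := b₁.union (!₂[0, -1, 1] : E3) (by simp) (by simp) a₃
  have b₃ := b₂.union (!₂[0, 1, -1] : E3) (by simp) (by simp) a₄
  refine ⟨⟨(!₂[0, 1, 1] : E3), by simp⟩, ?_⟩
  have e : {y : E3 | y 1 ≠ 0 ∨ y 2 ≠ 0} =
      {y : E3 | 0 < y 1} ∪ {y : E3 | 0 < y 2} ∪ {y : E3 | y 1 < 0} ∪ {y : E3 | y 2 < 0} := by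
    ext y
    simp only [mem_ofPred_eq, mem_union, ne_iff_lt_or_gt]
    tauto
  rw [e]
  exact b₃

theorem twoStar_punctured : TwoStar (ball (0 : ℂ) 1 ×ˢ ({0}ᶜ : Set E3)) := by
  have hb : (0 : ℂ) ∈ ball (0 : ℂ) 1 := mem_ball_self one_pos
  refine ⟨ball (0 : ℂ) 1 ×ˢ {y : E3 | 0 < 1 * y 0 ∨ y 1 ≠ 0 ∨ y 2 ≠ 0},
    ball (0 : ℂ) 1 ×ˢ {y : E3 | 0 < (-1) * y 0 ∨ y 1 ≠ 0 ∨ y 2 ≠ 0},
    (0, EuclideanSpace.single 0 1), (0, EuclideanSpace.single 0 (-1)),
    isOpen_ball.prod (open_ray_cover 1), isOpen_ball.prod (open_ray_cover (-1)),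
    ⟨hb, by simp⟩, ⟨hb, by simp⟩,
    (convex_ball (0 : ℂ) 1 hb).prod (star_ray_cover (by norm_num)),
    (convex_ball (0 : ℂ) 1 hb).prod (star_ray_cover (by norm_num)), ?_, ?_⟩
  · rw [← prod_union]
    refine congrArg (fun s : Set E3 => ball (0 : ℂ) 1 ×ˢ s) ?_
    ext y
    simp only [mem_union, mem_ofPred_eq, mem_compl_iff, mem_singleton_iff]
    constructor
    · rintro h rfl
      simp at h
    · intro h
      by_contra hc
      push Not at hc
      obtain ⟨⟨h0, h1, h2⟩, h0', -, -⟩ := hc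
      apply h
      ext i
      fin_cases i
      · change y 0 = 0
        linarith
      · exact h1
      · exact h2
  · rw [← prod_inter]
    have e : {y : E3 | 0 < 1 * y 0 ∨ y 1 ≠ 0 ∨ y 2 ≠ 0} ∩
        {y : E3 | 0 < (-1) * y 0 ∨ y 1 ≠ 0 ∨ y 2 ≠ 0} = {y : E3 | y 1 ≠ 0 ∨ y 2 ≠ 0} := by
      ext y
      simp only [mem_inter_iff, mem_ofPred_eq]
      constructor
      · rintro ⟨h | h, h' | h'⟩
        · exfalso
          linarith
        · exact h'
        · exact h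
        · exact h
      · intro h
        exact ⟨Or.inr h, Or.inr h⟩
    rw [e]
    exact ((convex_ball (0 : ℂ) 1).isConnected ⟨0, hb⟩).prod conn_line_cover

end Pool.Agent.P.MP_788ef7_an
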