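import Pool.Agent.P.MP_788ef7_an.Arc

set_option autoImplicit false
set_option linter.unusedVariables false

open Set Filter Topology Metric

namespace Pool.Agent.P.MP_788ef7_an

private theorem nest0 {u v u' v' ω x : Circle} (h1 : ω ∉ arc u v) (h2 : ω ∉ arc u' v')
    (n1 : u ≠ ω) (n2 : u' ≠ ω) (n3 : v ≠ ω) (n4 : v' ≠ ω) (hl : ¬ Linked u v u' v')
    (hx : x ∈ arc u v) (hx' : x ∈ arc u' v') : arc u v ⊆ arc u' v' ∨ arc u' v' ⊆ arc u v := by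
  obtain ⟨θ, e, m, H⟩ := exists_theta_arc1 ω
  have := m u
  have := m v
  have := m u'
  have := m v'
  have := m x
  rw [linked_iff, H, H, H, H] at hl
  rw [H] at h1 h2 hx hx'
  rw [Ne, e] at n1 n2 n3 n4
  by_cases h : θ u ≤ θ u' ∧ θ v' ≤ θ v
  · refine Or.inr fun y hy => ?_
    have := m y
    rw [H] at hy ⊢
    grind
  · refine Or.inl fun y hy => ?_
    have := m y
    rw [H] at hy ⊢
    grind

private theorem gap_ex {a b c u : Circle} (h : Cyc a b c) (n1 : u ≠ a) (n2 : u ≠ b) (n3 : u ≠ c) :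
    u ∈ arc a b ∨ u ∈ arc b c ∨ u ∈ arc c a := by
  obtain ⟨θ, e, m, H⟩ := exists_theta_arc1 a
  have := m b
  have := m c
  have := m u
  have h' : b ∈ arc a c := h
  rw [H] at h'
  rw [H, H, H]
  rw [Ne, e] at n1 n2 n3
  grind

private theorem gap_disj {a b c u : Circle} (h : Cyc a b c) (h1 : u ∈ arc a b) :
    u ∉ arc b c ∧ u ∉ arc c a ∧ u ∈ arc c b := by
  obtain ⟨θ, e, m, H⟩ := exists_theta_arc1 a
  have := m b
  have := m c
  have := m u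
  have h' : b ∈ arc a c := h
  rw [H] at h' h1
  rw [H, H, H]
  grind

private theorem gap_cl {a b c u v w : Circle} (h : Cyc a b c) (hu : u ∈ arc a b) (hne : u ≠ v)
    (k2 : b ∉ arc u v) (n2 : v ≠ b) (hw : w = u ∨ w = v ∨ w ∈ arc u v) : w ∈ arc a b := by
  obtain ⟨θ, e, m, H⟩ := exists_theta_arc1 a
  have := m b
  have := m c
  have := m u
  have := m v
  have := m w
  have h' : b ∈ arc a c := h
  rw [H] at h' hu k2
  rw [e, e, H] at hw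
  rw [H]
  rw [Ne, e] at n2 hne
  grind

private theorem iso_cl {a b c u v w : Circle} (h : Cyc a b c) (k1 : a ∈ arc u v)
    (k2 : b ∉ arc u v) (k3 : c ∉ arc u v) (n1 : u ≠ c) (n2 : v ≠ b)
    (hw : w = u ∨ w = v ∨ w ∈ arc u v) : w ∈ arc c b := by
  obtain ⟨θ, e, m, H⟩ := exists_theta_arc1 a
  have := m b
  have := m c
  have := m u
  have := m v
  have := m w
  have h' : b ∈ arc a c := h
  rw [H] at h' k1 k2 k3
  rw [e, e, H] at hw
  rw [H]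
  rw [Ne, e] at n1 n2
  grind

private theorem colour_aux {M : Set (Circle × Circle)} (hne : ∀ l ∈ M, l.1 ≠ l.2)
    (hnc : ∀ l ∈ M, ∀ l' ∈ M, ¬ Linked l.1 l.2 l'.1 l'.2)
    {ξ : Fin 3 → Circle} (hξ : Cyc (ξ 0) (ξ 1) (ξ 2)) (hg : ∀ l ∈ M, ∀ i, l.1 ≠ ξ i ∧ l.2 ≠ ξ i)
    (hs : ∀ l ∈ M, ∀ i j, ξ i ∈ arc l.1 l.2 → ξ j ∈ arc l.1 l.2 → i = j)
    {p q : Fin 3 → Circle} (hpq : ∀ i, (p i, q i) ∈ M) (hm : ∀ i, ξ i ∈ arc (p i) (q i)) :
    ∃ col : Circle × Circle → Fin 3,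
      (∀ l ∈ M, ∀ l' ∈ M, ∀ x, x ∈ arc l.1 l.2 → x ∈ arc l'.1 l'.2 → col l = col l') ∧
      ∀ l ∈ M, ∀ w, w = l.1 ∨ w = l.2 → w ∈ arc (ξ (col l + 2)) (ξ (col l + 1)) ∧
        ∀ j, j ≠ col l → w ∉ arc (p j) (q j) := by
  have cyc : ∀ i, Cyc (ξ i) (ξ (i + 1)) (ξ (i + 2)) := by
    intro i
    fin_cases i
    exacts [hξ, hξ.rot, hξ.rot.rot]
  have nest : ∀ l ∈ M, ∀ l' ∈ M, ∀ x, x ∈ arc l.1 l.2 → x ∈ arc l'.1 l'.2 →
      arc l.1 l.2 ⊆ arc l'.1 l'.2 ∨ arc l'.1 l'.2 ⊆ arc l.1 l.2 := by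
    intro l hl l' hl' x hx hx'
    obtain ⟨k, k1, k2⟩ : ∃ k, ξ k ∉ arc l.1 l.2 ∧ ξ k ∉ arc l'.1 l'.2 := by
      by_contra hc
      push Not at hc
      have a := hs l hl
      have b := hs l' hl'
      by_cases h0 : ξ 0 ∈ arc l.1 l.2
      · exact absurd (b 1 2 (hc 1 fun h => absurd (a 0 1 h0 h) (by decide))
          (hc 2 fun h => absurd (a 0 2 h0 h) (by decide))) (by decide)
      · by_cases h1 : ξ 1 ∈ arc l.1 l.2
        · exact absurd (b 0 2 (hc 0 h0) (hc 2 fun h => absurd (a 1 2 h1 h) (by decide)))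
            (by decide)
        · exact absurd (b 0 1 (hc 0 h0) (hc 1 h1)) (by decide)
    exact nest0 k1 k2 (hg l hl k).1 (hg l' hl' k).1 (hg l hl k).2 (hg l' hl' k).2
      (hnc l hl l' hl') hx hx'
  have cl : ∀ l ∈ M, ∀ l' ∈ M, arc l.1 l.2 ⊆ arc l'.1 l'.2 → ∀ w, w = l.1 ∨ w = l.2 →
      w = l'.1 ∨ w = l'.2 ∨ w ∈ arc l'.1 l'.2 := by
    intro l hl l' hl' h w hw
    have h1 : w ∈ closure (arc l.1 l.2) := by
      rw [closure_arc (hne l hl)]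
      rcases hw with hw | hw
      exacts [Or.inl hw, Or.inr (Or.inl hw)]
    have h2 := closure_mono h h1
    rwa [closure_arc (hne l' hl')] at h2
  let A : Circle × Circle → Fin 3 → Prop := fun l j =>
    ∃ l' ∈ M, ξ j ∈ arc l'.1 l'.2 ∧ arc l.1 l.2 ⊆ arc l'.1 l'.2
  let Col : Circle × Circle → Fin 3 → Prop := fun l i =>
    A l i ∨ ((∀ j, ¬ A l j) ∧ l.1 ∈ arc (ξ i) (ξ (i + 1)))
  have ex : ∀ l, ∃ i, l ∈ M → Col l i := by
    intro l
    by_cases hl : l ∈ M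
    swap
    · exact ⟨0, fun h => absurd h hl⟩
    by_cases h : ∃ j, A l j
    · obtain ⟨j, hj⟩ := h
      exact ⟨j, fun _ => Or.inl hj⟩
    push Not at h
    rcases gap_ex hξ (hg l hl 0).1 (hg l hl 1).1 (hg l hl 2).1 with k | k | k
    exacts [⟨0, fun _ => Or.inr ⟨h, k⟩⟩, ⟨1, fun _ => Or.inr ⟨h, k⟩⟩, ⟨2, fun _ => Or.inr ⟨h, k⟩⟩]
  choose col hcol using ex
  have uA : ∀ l ∈ M, ∀ i j, A l i → A l j → i = j := by
    rintro l hl i j ⟨a, ha, a1, a2⟩ ⟨b, hb, b1, b2⟩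
    obtain ⟨x, hx⟩ := arc_nonempty (hne l hl)
    rcases nest a ha b hb x (a2 hx) (b2 hx) with h | h
    · exact hs b hb i j (h a1) b1
    · exact hs a ha i j a1 (h b1)
  have sub : ∀ l ∈ M, ∀ l' ∈ M, arc l.1 l.2 ⊆ arc l'.1 l'.2 → col l = col l' := by
    intro l hl l' hl' h
    rcases hcol l' hl' with ⟨a, ha, a1, a2⟩ | ⟨h1, h2⟩
    · rcases hcol l hl with k | ⟨k, -⟩
      · exact uA l hl _ _ k ⟨a, ha, a1, h.trans a2⟩
      · exact absurd ⟨a, ha, a1, h.trans a2⟩ (k _)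
    · rcases hcol l hl with ⟨a, ha, a1, a2⟩ | ⟨-, k⟩
      · obtain ⟨x, hx⟩ := arc_nonempty (hne l hl)
        rcases nest a ha l' hl' x (a2 hx) (h hx) with k | k
        · exact absurd ⟨l', hl', k a1, Subset.rfl⟩ (h1 _)
        · exact absurd ⟨a, ha, a1, k⟩ (h1 _)
      · have k2 := gap_cl (cyc _) h2 (hne l' hl') (fun t => h1 _ ⟨l', hl', t, Subset.rfl⟩)
          (hg l' hl' _).2 (cl l hl l' hl' h l.1 (Or.inl rfl))
        have k3 := gap_disj (cyc _) k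
        generalize col l = i at k3 ⊢
        generalize col l' = j at k2 ⊢
        have e1 : ∀ i : Fin 3, i + 1 + 1 = i + 2 := by decide
        have e2 : ∀ i : Fin 3, i + 2 + 1 = i := by decide
        have e3 : ∀ i j : Fin 3, i = j ∨ j = i + 1 ∨ j = i + 2 := by decide
        rcases e3 i j with e | e | e
        · exact e
        · rw [e, e1] at k2; exact absurd k2 k3.1
        · rw [e, e2] at k2; exact absurd k2 k3.2.1
  refine ⟨col, fun l hl l' hl' x hx hx' => ?_, fun l hl w hw => ?_⟩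
  · rcases nest l hl l' hl' x hx hx' with h | h
    exacts [sub l hl l' hl' h, (sub l' hl' l hl h).symm]
  have key : ∀ j, w ∈ arc (p j) (q j) → A l j := by
    intro j hj
    have h1 : w ∈ closure (arc l.1 l.2) := by
      rw [closure_arc (hne l hl)]
      rcases hw with hw | hw
      exacts [Or.inl hw, Or.inr (Or.inl hw)]
    obtain ⟨x, hx, hx'⟩ := mem_closure_iff.1 h1 _ (isOpen_arc _ _) hj
    rcases nest l hl _ (hpq j) x hx' hx with h | h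
    · exact ⟨_, hpq j, hm j, h⟩
    · exfalso
      rcases hw with rfl | rfl
      exacts [left_notMem_arc _ _ (h hj), right_notMem_arc _ _ (h hj)]
  rcases hcol l hl with k | ⟨h1, h2⟩
  · refine ⟨?_, fun j hj t => hj (uA l hl _ _ (key j t) k)⟩
    obtain ⟨a, ha, a1, a2⟩ := k
    have e1 : ∀ i : Fin 3, i ≠ i + 1 ∧ i ≠ i + 2 := by decide
    exact iso_cl (cyc _) a1 (fun t => (e1 _).1 (hs a ha _ _ a1 t))
      (fun t => (e1 _).2 (hs a ha _ _ a1 t)) (hg a ha _).1 (hg a ha _).2 (cl l hl a ha a2 w hw)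
  · exact ⟨(gap_disj (cyc _) (gap_cl (cyc _) h2 (hne l hl) (fun t => h1 _ ⟨l, hl, t, Subset.rfl⟩)
      (hg l hl _).2 (hw.imp_right Or.inl))).2.2, fun j _ t => h1 j (key j t)⟩

/-- Three-colouring of a family of pairs that do not cross. -/
theorem colour {ℒ : Set (Circle × Circle)} (hne : ∀ l ∈ ℒ, l.1 ≠ l.2)
    (hnc : ∀ l ∈ ℒ, ∀ l' ∈ ℒ, ¬ Linked l.1 l.2 l'.1 l'.2)
    {ξ : Fin 3 → Circle} (hξ : Cyc (ξ 0) (ξ 1) (ξ 2)) (hg : ∀ l ∈ ℒ, ∀ i, l.1 ≠ ξ i ∧ l.2 ≠ ξ i)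
    {p q : Fin 3 → Circle} (hpq : ∀ i, (p i, q i) ∈ ℒ ∨ (q i, p i) ∈ ℒ)
    (hm : ∀ i j, ξ j ∈ arc (p i) (q i) ↔ j = i) : ∃ col : Circle × Circle → Fin 3,
      (∀ (r₁ r₂ : Circle) (f : Fin 3 → Circle × Circle),
        (∀ i, f i ∈ ℒ ∧ Linked (f i).1 (f i).2 r₁ r₂) → ¬ ∀ i, col (f i) = i) ∧
      ∃ ε > 0, ∀ l ∈ ℒ, ∀ θ : Circle, dist l.1 θ < ε ∨ dist l.2 θ < ε →
        0 < ori (ξ (col l + 1)) (ξ (col l + 2)) θ := by
  let M : Set (Circle × Circle) := {l | (l ∈ ℒ ∨ l.swap ∈ ℒ) ∧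
    ∀ i j, ξ i ∈ arc l.1 l.2 → ξ j ∈ arc l.1 l.2 → i = j}
  obtain ⟨col, c1, c2⟩ := colour_aux (M := M) (p := p) (q := q)
    (fun l hl => hl.1.elim (hne l) fun h => (hne _ h).symm)
    (fun l hl l' hl' k => by
      rcases hl.1 with h | h <;> rcases hl'.1 with h' | h'
      exacts [hnc _ h _ h' k, hnc _ h _ h' k.swap_right, hnc _ h _ h' k.swap_left,
        hnc _ h _ h' k.swap_left.swap_right])
    hξ (fun l hl i => hl.1.elim (fun h => hg l h i) fun h => (hg _ h i).symm) (fun l hl => hl.2)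
    (fun i => ⟨hpq i, fun j k hj hk => ((hm i j).1 hj).trans ((hm i k).1 hk).symm⟩)
    (fun i => (hm i i).2 rfl)
  have ex : ∀ l : Circle × Circle, ∃ m, l ∈ ℒ → m ∈ M ∧ (m = l ∨ m = l.swap) := by
    intro l
    by_cases h : ∀ i j, ξ i ∈ arc l.1 l.2 → ξ j ∈ arc l.1 l.2 → i = j
    · exact ⟨l, fun hl => ⟨⟨Or.inl hl, h⟩, Or.inl rfl⟩⟩
    push Not at h
    obtain ⟨i, j, hi, hj, hij⟩ := h
    refine ⟨l.swap, fun hl => ⟨⟨Or.inr hl, fun i' j' hi' hj' => ?_⟩, Or.inr rfl⟩⟩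
    have d : ∀ a b, ξ a ∈ arc l.1 l.2 → ξ b ∈ arc l.2 l.1 → a ≠ b := by
      rintro a b ha hb rfl
      exact Set.disjoint_left.1 (disjoint_arc _ _) ha hb
    have e : ∀ i j i' j' : Fin 3, i ≠ j → i ≠ i' → j ≠ i' → i ≠ j' → j ≠ j' → i' = j' := by decide
    exact e i j i' j' hij (d _ _ hi hi') (d _ _ hj hi') (d _ _ hi hj') (d _ _ hj hj')
  choose sm hsm using ex
  refine ⟨fun l => col (sm l), fun r₁ r₂ f hf hc => ?_, ?_⟩
  · have h1 : ∀ i, r₁ ∈ arc (sm (f i)).1 (sm (f i)).2 ∨ r₂ ∈ arc (sm (f i)).1 (sm (f i)).2 := by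
      intro i
      have k : Linked (sm (f i)).1 (sm (f i)).2 r₁ r₂ := by
        rcases (hsm _ (hf i).1).2 with e | e <;> rw [e]
        exacts [(hf i).2, (hf i).2.swap_left]
      exact (linked_iff.1 k).imp And.left And.left
    have h2 : ∀ i j x, x ∈ arc (sm (f i)).1 (sm (f i)).2 → x ∈ arc (sm (f j)).1 (sm (f j)).2 →
        i = j := fun i j x hi hj =>
      (hc i).symm.trans ((c1 _ (hsm _ (hf i).1).1 _ (hsm _ (hf j).1).1 x hi hj).trans (hc j))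
    rcases h1 0 with a | a <;> rcases h1 1 with b | b <;> rcases h1 2 with c | c <;>
      first
      | exact absurd (h2 _ _ _ a b) (by decide)
      | exact absurd (h2 _ _ _ a c) (by decide)
      | exact absurd (h2 _ _ _ b c) (by decide)
  have hδ : ∀ i : Fin 3, ∃ δ > 0, ∀ w θ : Circle, w ∈ arc (ξ (i + 2)) (ξ (i + 1)) →
      (∀ j, j ≠ i → w ∉ arc (p j) (q j)) → dist w θ < δ → θ ∈ arc (ξ (i + 2)) (ξ (i + 1)) := by
    intro i
    have e1 : ∀ i : Fin 3, i + 1 ≠ i ∧ i + 2 ≠ i := by decide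
    have hn : ξ (i + 1) ≠ ξ (i + 2) := by
      fin_cases i
      exacts [hξ.ne₂₃, hξ.ne₁₃.symm, hξ.ne₁₂]
    have hK : IsCompact ((arc (ξ (i + 1)) (ξ (i + 2)))ᶜ ∩ ((arc (p (i + 1)) (q (i + 1)))ᶜ ∩
        (arc (p (i + 2)) (q (i + 2)))ᶜ)) :=
      ((isOpen_arc _ _).isClosed_compl.inter ((isOpen_arc _ _).isClosed_compl.inter
        (isOpen_arc _ _).isClosed_compl)).isCompact
    obtain ⟨δ, h0, h⟩ := hK.exists_thickening_subset_open (isOpen_arc (ξ (i + 2)) (ξ (i + 1))) (by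
      rintro x ⟨h1, h2, h3⟩
      rw [compl_arc hn] at h1
      rcases h1 with rfl | rfl | h1
      exacts [absurd ((hm _ _).2 rfl) h2, absurd ((hm _ _).2 rfl) h3, h1])
    refine ⟨δ, h0, fun w θ hw hj hd => h (mem_thickening_iff.2 ⟨w, ⟨fun t =>
      Set.disjoint_left.1 (disjoint_arc _ _) t hw, hj _ (e1 i).1, hj _ (e1 i).2⟩, ?_⟩)⟩
    rwa [dist_comm]
  choose δ h0 hδ using hδ
  refine ⟨min (δ 0) (min (δ 1) (δ 2)), lt_min (h0 0) (lt_min (h0 1) (h0 2)), fun l hl θ hd => ?_⟩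
  have hle : ∀ i, min (δ 0) (min (δ 1) (δ 2)) ≤ δ i := by
    intro i
    fin_cases i
    exacts [min_le_left _ _, (min_le_right _ _).trans (min_le_left _ _),
      (min_le_right _ _).trans (min_le_right _ _)]
  obtain ⟨w, hw, hw'⟩ : ∃ w, (w = (sm l).1 ∨ w = (sm l).2) ∧
      dist w θ < min (δ 0) (min (δ 1) (δ 2)) := by
    rcases (hsm l hl).2 with e | e <;> rw [e] <;> rcases hd with hd | hd
    exacts [⟨_, Or.inl rfl, hd⟩, ⟨_, Or.inr rfl, hd⟩, ⟨_, Or.inr rfl, hd⟩, ⟨_, Or.inl rfl, hd⟩]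
  obtain ⟨k1, k2⟩ := c2 _ (hsm l hl).1 w hw
  exact Cyc.rot (Cyc.rot (hδ _ w θ k1 k2 (hw'.trans_le (hle _))))

end Pool.Agent.P.MP_788ef7_an
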