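import Pool.Agent.P.MP_788ef7_an.KB1

set_option autoImplicit false

open Set Filter Topology Metric

namespace Pool.Agent.P.MP_788ef7_an

variable {a b c d p q p' q' ξ ζ : Circle}

theorem ori_rot_cyc (x y z : ℂ) : ori y z x = ori x y z := by unfold ori; ring

theorem ori_rev_cyc (x y z : ℂ) : ori z y x = -ori x y z := by unfold ori; ring

theorem ori_swap_cyc (x y z : ℂ) : ori x z y = -ori x y z := by unfold ori; ring

theorem Cyc.rot (h : Cyc a b c) : Cyc b c a := by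
  unfold Cyc at *; rwa [ori_rot_cyc]

theorem Cyc.asymm (h : Cyc a b c) : ¬ Cyc c b a := by
  unfold Cyc at *; rw [ori_rev_cyc]; linarith

theorem Cyc.ne₁₂ (h : Cyc a b c) : a ≠ b := by
  rintro rfl; simp [Cyc, ori] at h

theorem Cyc.ne₂₃ (h : Cyc a b c) : b ≠ c := h.rot.ne₁₂

theorem Cyc.ne₁₃ (h : Cyc a b c) : a ≠ c := h.rot.rot.ne₁₂.symm

theorem sq_circle_cyc (z : Circle) : (z : ℂ).re ^ 2 + (z : ℂ).im ^ 2 = 1 := by
  have := Circle.normSq_coe z
  rw [Complex.normSq_apply] at this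
  linarith

/-- The Cayley map. -/
noncomputable def cay_cyc (r : ℝ) : Circle :=
  ⟨⟨(r ^ 2 - 1) / (r ^ 2 + 1), -2 * r / (r ^ 2 + 1)⟩, by
    have e : Complex.normSq ⟨(r ^ 2 - 1) / (r ^ 2 + 1), -2 * r / (r ^ 2 + 1)⟩ = 1 := by
      rw [Complex.normSq_apply]; field_simp; ring
    simpa [Submonoid.unitSphere, Complex.normSq_eq_norm_sq, pow_eq_one_iff_of_nonneg] using e⟩

theorem cay_re_cyc (r : ℝ) : (cay_cyc r : ℂ).re = (r ^ 2 - 1) / (r ^ 2 + 1) := rfl

theorem cay_im_cyc (r : ℝ) : (cay_cyc r : ℂ).im = -2 * r / (r ^ 2 + 1) := rfl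

theorem cay_cont_cyc : Continuous cay_cyc := by
  refine Continuous.subtype_mk ?_ _
  have p : ∀ r : ℝ, r ^ 2 + 1 ≠ 0 := fun r => by positivity
  change Continuous fun r : ℝ =>
    Complex.equivRealProdCLM.symm ((r ^ 2 - 1) / (r ^ 2 + 1), -2 * r / (r ^ 2 + 1))
  fun_prop (disch := assumption)

theorem re_lt_cyc {z : Circle} (h : z ≠ 1) : (z : ℂ).re < 1 := by
  have e := sq_circle_cyc z
  by_contra hc
  apply h
  have h1 : (z : ℂ).re = 1 := by nlinarith [sq_nonneg (z : ℂ).im]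
  have h2 : (z : ℂ).im = 0 := by
    rw [h1] at e
    exact pow_eq_zero_iff two_ne_zero |>.1 (by linarith)
  exact Circle.ext (Complex.ext h1 h2)

theorem cay_inv_cyc {z : Circle} (h : z ≠ 1) : cay_cyc (-(z : ℂ).im / (1 - (z : ℂ).re)) = z := by
  have e := sq_circle_cyc z
  have h1 : 1 - (z : ℂ).re ≠ 0 := (sub_pos.2 (re_lt_cyc h)).ne'
  have e2 : (-(z : ℂ).im / (1 - (z : ℂ).re)) ^ 2 = (1 + (z : ℂ).re) / (1 - (z : ℂ).re) := by
    rw [div_pow, neg_sq, show (z : ℂ).im ^ 2 = (1 - (z : ℂ).re) * (1 + (z : ℂ).re) by linarith]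
    field_simp
  refine Circle.ext (Complex.ext ?_ ?_)
  · rw [cay_re_cyc, e2]; field_simp; ring
  · rw [cay_im_cyc, e2]; field_simp; ring

theorem cay_ne_cyc (r : ℝ) : cay_cyc r ≠ 1 := fun h => by
  have e := cay_re_cyc r
  rw [h, eq_div_iff (by positivity)] at e
  simp at e
  linarith

theorem cay_lim_cyc {l : Filter ℝ} (h : Tendsto (fun r : ℝ => r ^ 2) l atTop) :
    Tendsto cay_cyc l (𝓝 1) := by
  rw [tendsto_iff_dist_tendsto_zero]
  have h1 : Tendsto (fun r : ℝ => √(4 * (r ^ 2 + 1)⁻¹)) l (𝓝 √(4 * 0)) :=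
    ((tendsto_atTop_add_const_right _ 1 h).inv_tendsto_atTop.const_mul 4).sqrt
  rw [mul_zero, Real.sqrt_zero] at h1
  refine h1.congr fun r => ?_
  have e : dist (cay_cyc r) 1 = ‖(cay_cyc r : ℂ) - (1 : Circle)‖ := by
    rw [← dist_eq_norm]; rfl
  rw [e, ← Real.sqrt_sq (norm_nonneg _), ← rho_circle]
  congr 1
  simp only [rho, cay_re_cyc, Circle.coe_one, Complex.one_re, Complex.one_im]
  field_simp
  ring

theorem ori_mul_cyc (ω : Circle) (x y z : ℂ) : ori (ω * x) (ω * y) (ω * z) = ori x y z := by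
  have e := sq_circle_cyc ω
  simp only [ori, Complex.mul_re, Complex.mul_im]
  linear_combination ((y.re - x.re) * (z.im - x.im) - (y.im - x.im) * (z.re - x.re)) * e

theorem cyc_mul_cyc (ω x y z : Circle) : Cyc (ω * x) (ω * y) (ω * z) ↔ Cyc x y z := by
  simp only [Cyc, Circle.coe_mul, ori_mul_cyc]

theorem cyc_one_cyc (r₁ r₂ : ℝ) : Cyc 1 (cay_cyc r₁) (cay_cyc r₂) ↔ r₁ < r₂ := by
  have e : ori (1 : Circle) (cay_cyc r₁) (cay_cyc r₂) =
      (4 / ((r₁ ^ 2 + 1) * (r₂ ^ 2 + 1))) * (r₂ - r₁) := by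
    simp only [ori, cay_re_cyc, cay_im_cyc, Circle.coe_one, Complex.one_re, Complex.one_im]
    field_simp
    ring
  rw [Cyc, e, mul_pos_iff_of_pos_left (by positivity), sub_pos]

theorem cyc_three_cyc (r₁ r₂ r₃ : ℝ) : Cyc (cay_cyc r₁) (cay_cyc r₂) (cay_cyc r₃) ↔
    (r₁ < r₂ ∧ r₂ < r₃) ∨ (r₂ < r₃ ∧ r₃ < r₁) ∨ (r₃ < r₁ ∧ r₁ < r₂) := by
  have e : ori (cay_cyc r₁) (cay_cyc r₂) (cay_cyc r₃) =
      (4 / ((r₁ ^ 2 + 1) * (r₂ ^ 2 + 1) * (r₃ ^ 2 + 1))) * ((r₂ - r₁) * (r₃ - r₂) * (r₃ - r₁)) := by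
    simp only [ori, cay_re_cyc, cay_im_cyc]
    field_simp
    ring
  rw [Cyc, e, mul_pos_iff_of_pos_left (by positivity)]
  constructor
  · intro h
    rcases pos_and_pos_or_neg_and_neg_of_mul_pos h with ⟨h1, h2⟩ | ⟨h1, h2⟩
    · rcases pos_and_pos_or_neg_and_neg_of_mul_pos h1 with ⟨h3, h4⟩ | ⟨h3, h4⟩
      · exact Or.inl ⟨by linarith, by linarith⟩
      · exfalso; linarith
    · rcases mul_neg_iff.1 h1 with ⟨h3, h4⟩ | ⟨h3, h4⟩
      · exact Or.inr (Or.inr ⟨by linarith, by linarith⟩)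
      · exact Or.inr (Or.inl ⟨by linarith, by linarith⟩)
  · rintro (⟨h1, h2⟩ | ⟨h1, h2⟩ | ⟨h1, h2⟩)
    · exact mul_pos (mul_pos (by linarith) (by linarith)) (by linarith)
    · exact mul_pos_of_neg_of_neg (mul_neg_of_neg_of_pos (by linarith) (by linarith)) (by linarith)
    · exact mul_pos_of_neg_of_neg (mul_neg_of_pos_of_neg (by linarith) (by linarith)) (by linarith)

/-- The stereographic chart from `ω`. -/
theorem exists_chart (ω : Circle) : ∃ (s : Circle → ℝ) (s' : ℝ → Circle), Continuous s' ∧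
    ContinuousOn s {ω}ᶜ ∧ (∀ r, s (s' r) = r) ∧ (∀ ξ, ξ ≠ ω → s' (s ξ) = ξ) ∧ (∀ r, s' r ≠ ω) ∧
    (∀ r₁ r₂, Cyc ω (s' r₁) (s' r₂) ↔ r₁ < r₂) ∧
    (∀ r₁ r₂ r₃, Cyc (s' r₁) (s' r₂) (s' r₃) ↔
      (r₁ < r₂ ∧ r₂ < r₃) ∨ (r₂ < r₃ ∧ r₃ < r₁) ∨ (r₃ < r₁ ∧ r₁ < r₂)) ∧
    Tendsto s' atTop (𝓝 ω) ∧ Tendsto s' atBot (𝓝 ω) := by
  have hn : ∀ ξ : Circle, ξ ≠ ω → ω⁻¹ * ξ ≠ 1 := fun ξ h e => h (inv_mul_eq_one.1 e).symm
  have lim : ∀ l : Filter ℝ, Tendsto (fun r : ℝ => r ^ 2) l atTop →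
      Tendsto (fun r => ω * cay_cyc r) l (𝓝 ω) := fun l h => by
    simpa using (cay_lim_cyc h).const_mul ω
  refine ⟨fun ξ => -((ω⁻¹ * ξ : Circle) : ℂ).im / (1 - ((ω⁻¹ * ξ : Circle) : ℂ).re),
    fun r => ω * cay_cyc r, cay_cont_cyc.const_mul ω, ?_, fun r => ?_, fun ξ h => ?_,
    fun r h => cay_ne_cyc r (mul_eq_left.1 h), fun r₁ r₂ => ?_, fun r₁ r₂ r₃ => ?_,
    lim _ (tendsto_pow_atTop two_ne_zero), lim _ ?_⟩
  · have c : Continuous fun ξ : Circle => ((ω⁻¹ * ξ : Circle) : ℂ) :=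
      continuous_subtype_val.comp (continuous_const_mul ω⁻¹)
    exact (Complex.continuous_im.comp c).neg.continuousOn.div
      (continuous_const.sub (Complex.continuous_re.comp c)).continuousOn
      fun ξ h => (sub_pos.2 (re_lt_cyc (hn ξ h))).ne'
  · simp only [inv_mul_cancel_left, cay_re_cyc, cay_im_cyc]
    field_simp
    ring
  · simp only
    rw [cay_inv_cyc (hn ξ h), mul_inv_cancel_left]
  · rw [← cyc_one_cyc, ← cyc_mul_cyc ω 1, mul_one]
  · rw [cyc_mul_cyc, cyc_three_cyc]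
  · exact ((tendsto_pow_atTop two_ne_zero).comp tendsto_neg_atBot_atTop).congr fun r => neg_sq r

theorem cyc_total (hab : a ≠ b) (hbc : b ≠ c) (hac : a ≠ c) : Cyc a b c ∨ Cyc c b a := by
  obtain ⟨s, s', -, -, -, h1, -, h2, -⟩ := exists_chart a
  have eb := h1 b hab.symm
  have ec := h1 c hac.symm
  rcases lt_trichotomy (s b) (s c) with h | h | h
  · left; rw [← eb, ← ec]; exact (h2 _ _).2 h
  · exact absurd (by rw [← eb, ← ec, h]) hbc
  · right; refine Cyc.rot ?_; rw [← eb, ← ec]; exact (h2 _ _).2 h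

theorem Cyc.trans (h : Cyc a b c) (h' : Cyc a c d) : Cyc a b d := by
  obtain ⟨s, s', -, -, -, h1, -, h2, -⟩ := exists_chart a
  have eb := h1 b h.ne₁₂.symm
  have ec := h1 c h.ne₁₃.symm
  have ed := h1 d h'.ne₁₃.symm
  rw [← eb, ← ec, h2] at h
  rw [← ec, ← ed, h2] at h'
  rw [← eb, ← ed, h2]
  exact h.trans h'

theorem Cyc.trans' (h : Cyc a b c) (h' : Cyc a c d) : Cyc b c d := by
  obtain ⟨s, s', -, -, -, h1, -, h2, h3, -⟩ := exists_chart a
  have eb := h1 b h.ne₁₂.symm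
  have ec := h1 c h.ne₁₃.symm
  have ed := h1 d h'.ne₁₃.symm
  rw [← eb, ← ec, h2] at h
  rw [← ec, ← ed, h2] at h'
  rw [← eb, ← ec, ← ed, h3]
  exact Or.inl ⟨h, h'⟩

theorem cont_ori_cyc {α : Type*} [TopologicalSpace α] {x y z : α → Circle} (hx : Continuous x)
    (hy : Continuous y) (hz : Continuous z) : Continuous fun t => ori (x t) (y t) (z t) := by
  have cx : Continuous fun t => (x t : ℂ) := continuous_subtype_val.comp hx
  have cy : Continuous fun t => (y t : ℂ) := continuous_subtype_val.comp hy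
  have cz : Continuous fun t => (z t : ℂ) := continuous_subtype_val.comp hz
  unfold ori
  fun_prop

theorem isOpen_cyc : IsOpen {t : Circle × Circle × Circle | Cyc t.1 t.2.1 t.2.2} :=
  isOpen_lt continuous_const (cont_ori_cyc continuous_fst continuous_snd.fst continuous_snd.snd)

theorem Cyc.eventually {ι : Type*} {l : Filter ι} {x y z : ι → Circle} (h : Cyc a b c)
    (hx : Tendsto x l (𝓝 a)) (hy : Tendsto y l (𝓝 b)) (hz : Tendsto z l (𝓝 c)) :
    ∀ᶠ i in l, Cyc (x i) (y i) (z i) :=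
  (hx.prodMk_nhds (hy.prodMk_nhds hz)).eventually (isOpen_cyc.mem_nhds h)

theorem isOpen_arc (p q : Circle) : IsOpen (arc p q) :=
  isOpen_lt continuous_const (cont_ori_cyc continuous_const continuous_id continuous_const)

theorem left_notMem_arc (p q : Circle) : p ∉ arc p q := fun h => Cyc.ne₁₂ h rfl

theorem right_notMem_arc (p q : Circle) : q ∉ arc p q := fun h => Cyc.ne₂₃ h rfl

theorem disjoint_arc (p q : Circle) : Disjoint (arc p q) (arc q p) :=
  Set.disjoint_left.2 fun _ h h' => Cyc.asymm h h'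

theorem arc_trichotomy (h : p ≠ q) (ξ : Circle) : ξ = p ∨ ξ = q ∨ ξ ∈ arc p q ∨ ξ ∈ arc q p := by
  by_cases h1 : ξ = p
  · exact Or.inl h1
  by_cases h2 : ξ = q
  · exact Or.inr (Or.inl h2)
  exact Or.inr (Or.inr (cyc_total (Ne.symm h1) h2 h))

theorem arc_eq_cyc (h : p ≠ q) : ∃ (s' : ℝ → Circle) (r : ℝ), Continuous s' ∧
    Function.Injective s' ∧ s' r = q ∧ arc p q = s' '' Iio r ∧ Tendsto s' atBot (𝓝 p) := by
  obtain ⟨s, s', c, -, h0, h1, -, h2, -, -, h3⟩ := exists_chart p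
  refine ⟨s', s q, c, Function.LeftInverse.injective h0, h1 q h.symm, ?_, h3⟩
  ext ξ
  constructor
  · intro hξ
    have hξ : Cyc p ξ q := hξ
    have e := h1 ξ hξ.ne₁₂.symm
    refine ⟨s ξ, ?_, e⟩
    rw [← e, ← h1 q h.symm, h2] at hξ
    exact hξ
  · rintro ⟨r, hr, rfl⟩
    have := (h2 r (s q)).2 hr
    rwa [h1 q h.symm] at this

theorem arc_not_countable (h : p ≠ q) : ¬ (arc p q).Countable := by
  obtain ⟨s', r, -, i, -, e, -⟩ := arc_eq_cyc h
  intro hc
  rw [e] at hc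
  have := (Set.countable_of_injective_of_countable_image i.injOn hc).measure_zero
    MeasureTheory.volume
  simp at this

theorem arc_nonempty (h : p ≠ q) : (arc p q).Nonempty := by
  by_contra hc
  rw [Set.not_nonempty_iff_eq_empty] at hc
  exact arc_not_countable h (hc ▸ countable_empty)

theorem isPreconnected_arc (p q : Circle) : IsPreconnected (arc p q) := by
  by_cases h : p = q
  · have : arc p q = ∅ := Set.eq_empty_of_forall_notMem fun ξ hξ => Cyc.ne₁₃ hξ h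
    rw [this]; exact isPreconnected_empty
  · obtain ⟨s', r, c, -, -, e, -⟩ := arc_eq_cyc h
    rw [e]
    exact isPreconnected_Iio.image _ c.continuousOn

theorem compl_arc (h : p ≠ q) : (arc p q)ᶜ = insert p (insert q (arc q p)) := by
  ext ξ
  constructor
  · intro hξ
    rcases arc_trichotomy h ξ with h | h | h | h
    · exact Or.inl h
    · exact Or.inr (Or.inl h)
    · exact absurd h hξ
    · exact Or.inr (Or.inr h)
  · rintro (rfl | rfl | h)
    · exact left_notMem_arc _ _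
    · exact right_notMem_arc _ _
    · exact fun h' => Cyc.asymm h h'

theorem closure_arc (h : p ≠ q) : closure (arc p q) = insert p (insert q (arc p q)) := by
  obtain ⟨s', r, c, -, e', e, l⟩ := arc_eq_cyc h
  apply Subset.antisymm
  · rw [insert_comm, ← compl_arc h.symm]
    exact closure_minimal (disjoint_arc p q).subset_compl_right (isOpen_arc q p).isClosed_compl
  · rintro ξ (rfl | rfl | hξ)
    · refine mem_closure_of_tendsto l ?_
      filter_upwards [eventually_lt_atBot r] with x hx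
      rw [e]; exact mem_image_of_mem _ hx
    · rw [e]
      refine image_closure_subset_closure_image c ⟨r, ?_, e'⟩
      rw [closure_Iio]; exact self_mem_Iic
    · exact subset_closure hξ

theorem mem_closed_arc_iff (h : p ≠ q) :
    ξ ∈ insert p (insert q (arc p q)) ↔ ori p q ξ ≤ 0 := by
  rw [insert_comm, ← compl_arc h.symm, mem_compl_iff, ← not_lt, ← ori_rot_cyc]
  rfl

theorem linked_iff : Linked a b c d ↔
    (c ∈ arc a b ∧ d ∈ arc b a) ∨ (d ∈ arc a b ∧ c ∈ arc b a) := by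
  have e1 : ∀ x : Circle, x ∈ arc a b ↔ ori a b x < 0 := fun x => by
    change 0 < ori a x b ↔ _
    rw [ori_swap_cyc, neg_pos]
  have e2 : ∀ x : Circle, x ∈ arc b a ↔ 0 < ori a b x := fun x => by
    change 0 < ori b x a ↔ _
    rw [ori_rot_cyc]
  rw [Linked, mul_neg_iff, e1, e1, e2, e2]
  tauto

theorem Linked.swap_right (h : Linked a b c d) : Linked a b d c := by
  unfold Linked at *; rwa [mul_comm]

theorem Linked.swap_left (h : Linked a b c d) : Linked b a c d :=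
  linked_iff.2 ((linked_iff.1 h).symm.imp And.symm And.symm)

theorem Linked.symm (h : Linked a b c d) : Linked c d a b := by
  have key : ∀ c d : Circle, Cyc a c b → Cyc b d a → Linked c d a b := fun c d h1 h2 =>
    linked_iff.2 (Or.inr ⟨h1.trans' h2.rot.rot, (h1.trans h2.rot.rot).rot.rot⟩)
  rcases linked_iff.1 h with ⟨h1, h2⟩ | ⟨h1, h2⟩
  · exact key c d h1 h2
  · exact (key d c h1 h2).swap_left

theorem Linked.ne (h : Linked a b c d) :
    a ≠ b ∧ c ≠ d ∧ a ≠ c ∧ a ≠ d ∧ b ≠ c ∧ b ≠ d := by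
  have hcd : c ≠ d := by
    rintro rfl
    exact absurd h (not_lt.2 (mul_self_nonneg _))
  rcases linked_iff.1 h with ⟨h1, h2⟩ | ⟨h1, h2⟩
  · exact ⟨Cyc.ne₁₃ h1, hcd, Cyc.ne₁₂ h1, (Cyc.ne₂₃ h2).symm, (Cyc.ne₂₃ h1).symm, Cyc.ne₁₂ h2⟩
  · exact ⟨Cyc.ne₁₃ h1, hcd, (Cyc.ne₂₃ h2).symm, Cyc.ne₁₂ h1, Cyc.ne₁₂ h2, (Cyc.ne₂₃ h1).symm⟩

theorem Linked.eventually {ι : Type*} {l : Filter ι} {x y z w : ι → Circle} (h : Linked a b c d)
    (hx : Tendsto x l (𝓝 a)) (hy : Tendsto y l (𝓝 b)) (hz : Tendsto z l (𝓝 c))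
    (hw : Tendsto w l (𝓝 d)) : ∀ᶠ i in l, Linked (x i) (y i) (z i) (w i) := by
  rcases linked_iff.1 h with ⟨h1, h2⟩ | ⟨h1, h2⟩
  · filter_upwards [Cyc.eventually h1 hx hz hy, Cyc.eventually h2 hy hw hx] with i h1 h2
    exact linked_iff.2 (Or.inl ⟨h1, h2⟩)
  · filter_upwards [Cyc.eventually h1 hx hw hy, Cyc.eventually h2 hy hz hx] with i h1 h2
    exact linked_iff.2 (Or.inr ⟨h1, h2⟩)

theorem Linked.cross (h : Linked a b c d) : ∃ x : KD, x.val ∈ segment ℝ (a : ℂ) b ∧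
    x.val ∈ segment ℝ (c : ℂ) d := by
  have key : ∀ c d : Circle, Cyc a c b → Cyc b d a → ∃ x : KD, x.val ∈ segment ℝ (a : ℂ) b ∧
      x.val ∈ segment ℝ (c : ℂ) d := fun c d h1 h2 => by
    have h3 : Cyc c b d := h1.trans' h2.rot.rot
    have h4 : Cyc a c d := h1.trans h2.rot.rot
    unfold Cyc at h1 h2 h3 h4
    have e : ori c b d + ori a c d = ori b d a + ori a c b := by unfold ori; ring
    have hp : 0 < ori b d a + ori a c b := add_pos h2 h1
    have e1 : ori c b d / (ori b d a + ori a c b) + ori a c d / (ori b d a + ori a c b) = 1 := by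
      rw [← add_div, e, div_self hp.ne']
    have e2 : ori b d a / (ori b d a + ori a c b) + ori a c b / (ori b d a + ori a c b) = 1 := by
      rw [← add_div, div_self hp.ne']
    refine ⟨⟨_, norm_combo_lt_of_ne a.norm_coe.le b.norm_coe.le
      (fun e => Cyc.ne₁₃ h1 (Circle.ext e)) (div_pos h3 hp) (div_pos h4 hp) e1⟩,
      ⟨_, _, (div_pos h3 hp).le, (div_pos h4 hp).le, e1, rfl⟩,
      ⟨_, _, (div_pos h2 hp).le, (div_pos h1 hp).le, e2, ?_⟩⟩
    have := hp.ne'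
    apply Complex.ext
    · simp only [Complex.add_re, Complex.smul_re, smul_eq_mul]
      field_simp
      unfold ori
      ring
    · simp only [Complex.add_im, Complex.smul_im, smul_eq_mul]
      field_simp
      unfold ori
      ring
  rcases linked_iff.1 h with ⟨h1, h2⟩ | ⟨h1, h2⟩
  · exact key c d h1 h2
  · obtain ⟨x, hx, hx'⟩ := key d c h1 h2
    exact ⟨x, hx, segment_symm ℝ (d : ℂ) c ▸ hx'⟩

theorem circle_dist_sq (a b : Circle) : dist a b ^ 2 = 2 * rho a b := by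
  rw [rho_circle, ← dist_eq_norm]; rfl

end Pool.Agent.P.MP_788ef7_an
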