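import Pool.Agent.P.MP_788ef7_an.Deg
import Pool.Agent.P.MP_788ef7_an.Cyc

set_option autoImplicit false

open Set Filter Topology Metric

namespace Pool.Agent.P.MP_788ef7_an

theorem key_kkm1 (ξ : Fin 3 → ℂ) (d : Fin 3 → ℝ) (u s : ℝ) (θ : ℂ)
    (h : (u + s * (d 0 + d 1 + d 2)) • θ = u • ((3 : ℝ)⁻¹ • (ξ 0 + ξ 1 + ξ 2)) +
      s • (d 0 • ξ 0 + d 1 • ξ 1 + d 2 • ξ 2)) (i : Fin 3) :
    (u + s * (d 0 + d 1 + d 2)) * ori (ξ (i + 1)) (ξ (i + 2)) θ =
      (u / 3 + s * d i) * ori (ξ 0) (ξ 1) (ξ 2) := by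
  have h1 := congrArg Complex.re h
  have h2 := congrArg Complex.im h
  simp only [Complex.smul_re, Complex.smul_im, Complex.add_re, Complex.add_im, smul_eq_mul] at h1 h2
  unfold ori
  fin_cases i
  · show _ * (((ξ 2).re - (ξ 1).re) * (θ.im - (ξ 1).im) - ((ξ 2).im - (ξ 1).im) *
      (θ.re - (ξ 1).re)) = (u / 3 + s * d 0) * _
    linear_combination ((ξ 2).re - (ξ 1).re) * h2 - ((ξ 2).im - (ξ 1).im) * h1
  · show _ * (((ξ 0).re - (ξ 2).re) * (θ.im - (ξ 2).im) - ((ξ 0).im - (ξ 2).im) *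
      (θ.re - (ξ 2).re)) = (u / 3 + s * d 1) * _
    linear_combination ((ξ 0).re - (ξ 2).re) * h2 - ((ξ 0).im - (ξ 2).im) * h1
  · show _ * (((ξ 1).re - (ξ 0).re) * (θ.im - (ξ 0).im) - ((ξ 1).im - (ξ 0).im) *
      (θ.re - (ξ 0).re)) = (u / 3 + s * d 2) * _
    linear_combination ((ξ 1).re - (ξ 0).re) * h2 - ((ξ 1).im - (ξ 0).im) * h1

theorem kkm {ξ : Fin 3 → Circle} (hξ : Cyc (ξ 0) (ξ 1) (ξ 2)) {r : ℝ} (hr : 0 < r)
    {C : Fin 3 → Set ℂ} (hC : ∀ i, IsClosed (C i)) (hcov : closedBall (0 : ℂ) r ⊆ ⋃ i, C i)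
    (hb : ∀ i (θ : Circle), r • (θ : ℂ) ∈ C i → 0 < ori (ξ (i + 1)) (ξ (i + 2)) θ) :
    ∃ x ∈ closedBall (0 : ℂ) r, ∀ i, x ∈ C i := by
  by_contra hno
  have hΔ : 0 < ori (ξ 0) (ξ 1) (ξ 2) := hξ
  set c : ℂ := (3 : ℝ)⁻¹ • ((ξ 0 : ℂ) + ξ 1 + ξ 2) with hc
  have hc1 : ‖c‖ < 1 := by
    have h1 : ‖(2 : ℝ)⁻¹ • (ξ 0 : ℂ) + (2 : ℝ)⁻¹ • (ξ 1 : ℂ)‖ < 1 :=
      norm_combo_lt_of_ne (Circle.norm_coe _).le (Circle.norm_coe _).le (fun h => hξ.ne₁₂ (Subtype.ext h)) (by norm_num)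
        (by norm_num) (by norm_num)
    rw [← smul_add, norm_smul, Real.norm_of_nonneg (by norm_num)] at h1
    have h2 := norm_add_le ((ξ 0 : ℂ) + ξ 1) (ξ 2)
    rw [hc, norm_smul, Real.norm_of_nonneg (by norm_num)]
    rw [Circle.norm_coe] at h2
    linarith
  let d : ℂ → Fin 3 → ℝ := fun x i => infDist x (insert ((2 * r : ℝ) : ℂ) (C i))
  have hd0 : ∀ x i, 0 ≤ d x i := fun x i => infDist_nonneg
  have hdc : ∀ i, Continuous fun x => d x i := fun i => continuous_infDist_pt _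
  have hdz : ∀ x ∈ closedBall (0 : ℂ) r, ∀ i, d x i = 0 ↔ x ∈ C i := by
    intro x hx i
    have hcl : IsClosed (insert ((2 * r : ℝ) : ℂ) (C i)) := isClosed_singleton.union (hC i)
    rw [← hcl.mem_iff_infDist_zero (insert_nonempty _ _), mem_insert_iff]
    refine or_iff_right ?_
    rintro rfl
    rw [mem_closedBall_zero_iff, Complex.norm_real, Real.norm_of_nonneg (by linarith)] at hx
    linarith
  have hD : ∀ x ∈ closedBall (0 : ℂ) r, 0 < d x 0 + d x 1 + d x 2 := by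
    intro x hx
    by_contra h0
    have := hd0 x 0
    have := hd0 x 1
    have := hd0 x 2
    refine hno ⟨x, hx, fun i => (hdz x hx i).1 ?_⟩
    fin_cases i
    · show d x 0 = 0
      linarith
    · show d x 1 = 0
      linarith
    · show d x 2 = 0
      linarith
  obtain ⟨x, hx, h0⟩ := exists_zero (Ω := ball (0 : ℂ) r) isOpen_ball isBounded_ball
    (H := fun τ x => (1 - τ) • (r⁻¹ • x - c) +
      τ • ((d x 0 + d x 1 + d x 2) • c - (d x 0 • (ξ 0 : ℂ) + d x 1 • ξ 1 + d x 2 • ξ 2)))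
    (Continuous.continuousOn (by
      have h0 := hdc 0
      have h1 := hdc 1
      have h2 := hdc 2
      fun_prop))
    (fun s hs x hx h0 => by
      rw [frontier_ball _ hr.ne', mem_sphere_zero_iff_norm] at hx
      have hx' : x ∈ closedBall (0 : ℂ) r := mem_closedBall_zero_iff.2 hx.le
      have hθ : ‖r⁻¹ • x‖ = 1 := by
        rw [norm_smul, hx, Real.norm_of_nonneg (by positivity), inv_mul_cancel₀ hr.ne']
      obtain ⟨i, hi⟩ := mem_iUnion.1 (hcov hx')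
      have h1 : 0 < ori (ξ (i + 1)) (ξ (i + 2)) (r⁻¹ • x) :=
        hb i ⟨r⁻¹ • x, mem_sphere_zero_iff_norm.2 hθ⟩ (by
          show r • r⁻¹ • x ∈ C i
          rwa [smul_inv_smul₀ hr.ne'])
      have hDx := hD x hx'
      have e : (1 - s - s * (d x 0 + d x 1 + d x 2) + s * (d x 0 + d x 1 + d x 2)) • (r⁻¹ • x) =
          (1 - s - s * (d x 0 + d x 1 + d x 2)) • c +
            s • (d x 0 • (ξ 0 : ℂ) + d x 1 • ξ 1 + d x 2 • ξ 2) := by
        rw [← sub_eq_zero, ← h0]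
        module
      have h2 := key_kkm1 (fun j => (ξ j : ℂ)) (d x) _ s _ e i
      rw [(hdz x hx' i).2 hi, sub_add_cancel] at h2
      have h3 : 0 < 1 - s - s * (d x 0 + d x 1 + d x 2) := by
        rcases hs.2.eq_or_lt with rfl | hs1
        · nlinarith [mul_pos hDx hΔ]
        · have := mul_pos (sub_pos.2 hs1) h1
          rw [h2] at this
          have := (mul_pos_iff_of_pos_right hΔ).1 this
          linarith
      have h4 : ‖d x 0 • (ξ 0 : ℂ) + d x 1 • ξ 1 + d x 2 • ξ 2‖ ≤ d x 0 + d x 1 + d x 2 := by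
        refine norm_add₃_le.trans (le_of_eq ?_)
        simp only [norm_smul, Circle.norm_coe, mul_one, Real.norm_of_nonneg (hd0 x _)]
      have h5 := congrArg norm e
      rw [sub_add_cancel, norm_smul, hθ, Real.norm_of_nonneg (sub_nonneg.2 hs.2)] at h5
      have h6 := norm_add_le ((1 - s - s * (d x 0 + d x 1 + d x 2)) • c)
        (s • (d x 0 • (ξ 0 : ℂ) + d x 1 • ξ 1 + d x 2 • ξ 2))
      rw [← h5, norm_smul, norm_smul s, Real.norm_of_nonneg h3.le, Real.norm_of_nonneg hs.1] at h6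
      nlinarith [mul_le_mul_of_nonneg_left h4 hs.1, mul_lt_mul_of_pos_left hc1 h3])
    (σ := 1)
    (fun x _ _ => ⟨r⁻¹ • ContinuousLinearMap.id ℝ ℂ, by
      simp only [sub_zero, one_smul, zero_smul, add_zero]
      exact ((hasFDerivAt_id x).const_smul r⁻¹).sub_const c, by
      have : (r⁻¹ • ContinuousLinearMap.id ℝ ℂ).det = r⁻¹ ^ 2 := by
        simp [ContinuousLinearMap.det, LinearMap.det_smul]
      rw [this]
      positivity⟩)
    ⟨r • c, by
      rw [mem_ball_zero_iff, norm_smul, Real.norm_of_nonneg hr.le]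
      nlinarith, by
      simp only [sub_zero, one_smul, zero_smul, add_zero, inv_smul_smul₀ hr.ne', sub_self]⟩
  have hx' := ball_subset_closedBall hx
  obtain ⟨i, hi⟩ := mem_iUnion.1 (hcov hx')
  have e : (-(d x 0 + d x 1 + d x 2) + 1 * (d x 0 + d x 1 + d x 2)) • (0 : ℂ) =
      (-(d x 0 + d x 1 + d x 2)) • c +
        (1 : ℝ) • (d x 0 • (ξ 0 : ℂ) + d x 1 • ξ 1 + d x 2 • ξ 2) := by
    rw [smul_zero, eq_comm, ← neg_eq_zero, ← h0]
    module
  have h2 := key_kkm1 (fun j => (ξ j : ℂ)) (d x) _ 1 _ e i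
  rw [(hdz x hx' i).2 hi] at h2
  nlinarith [mul_pos (hD x hx') hΔ]

end Pool.Agent.P.MP_788ef7_an
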