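import Pool.Agent.P.MP_788ef7_an.NI

set_option autoImplicit false
set_option linter.unusedSectionVars false

open Set Filter Topology Metric

namespace Pool.Agent.P.MP_788ef7_an

theorem cap_link {a b x y : Circle} (h0 : ori a b 0 ≤ 0) (hx : 0 < ori a b x)
    (hy : 0 < ori a b y) : dist x y ≤ dist a b := by
  have hab : a ≠ b := Cyc.ne₁₂ (c := x) hx
  have h1 : 0 < rho a b := rho_pos_of_ne a.norm_coe.le fun h => hab (Circle.ext h)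
  refine le_of_sq_le_sq ?_ dist_nonneg
  rw [circle_dist_sq, circle_dist_sq]
  have ua := rho_circle_self a
  have ub := rho_circle_self b
  have ux := rho_circle_self x
  have uy := rho_circle_self y
  simp only [rho, ori, Complex.zero_re, Complex.zero_im] at *
  generalize (a : ℂ).re = a1, (a : ℂ).im = a2, (b : ℂ).re = b1, (b : ℂ).im = b2,
    (x : ℂ).re = x1, (x : ℂ).im = x2, (y : ℂ).re = y1, (y : ℂ).im = y2 at *
  obtain ⟨h, hh⟩ : ∃ h, h = a2 * b1 - a1 * b2 := ⟨_, rfl⟩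
  obtain ⟨P, hP⟩ : ∃ P, P = (b1 - a1) * x2 - (b2 - a2) * x1 := ⟨_, rfl⟩
  obtain ⟨Q, hQ⟩ : ∃ Q, Q = (b1 - a1) * y2 - (b2 - a2) * y1 := ⟨_, rfl⟩
  obtain ⟨P', hP'⟩ : ∃ P, P = (b1 - a1) * x1 + (b2 - a2) * x2 := ⟨_, rfl⟩
  obtain ⟨Q', hQ'⟩ : ∃ Q, Q = (b1 - a1) * y1 + (b2 - a2) * y2 := ⟨_, rfl⟩
  obtain ⟨t, ht⟩ : ∃ t, t = a1 * b1 + a2 * b2 := ⟨_, rfl⟩
  have e0 : 0 ≤ h := by rw [hh]; linarith
  have e1 : h ≤ P := by rw [hh, hP]; linarith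
  have e2 : h ≤ Q := by rw [hh, hQ]; linarith
  have l0 : (b1 - a1) ^ 2 + (b2 - a2) ^ 2 = 2 * (1 - t) := by rw [ht]; linarith
  have e3 : h ^ 2 = 1 - t ^ 2 := by
    rw [hh, ht]
    linear_combination -(b1 * b1 + b2 * b2) * ua - ub
  have e4 : P ^ 2 + P' ^ 2 = 2 * (1 - t) := by
    rw [hP, hP']
    linear_combination (x1 * x1 + x2 * x2) * l0 - 2 * (1 - t) * ux
  have e5 : Q ^ 2 + Q' ^ 2 = 2 * (1 - t) := by
    rw [hQ, hQ']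
    linear_combination (y1 * y1 + y2 * y2) * l0 - 2 * (1 - t) * uy
  have e6 : P * Q + P' * Q' = 2 * (1 - t) * (x1 * y1 + x2 * y2) := by
    rw [hP, hP', hQ, hQ']
    linear_combination (x1 * y1 + x2 * y2) * l0
  have e7 : h * h ≤ P * Q := mul_le_mul e1 e2 e0 (e0.trans e1)
  have e8 : h * h ≤ P * P := mul_le_mul e1 e1 e0 (e0.trans e1)
  have e9 : h * h ≤ Q * Q := mul_le_mul e2 e2 e0 (e0.trans e2)
  rw [← ht] at h1 ⊢
  have e10 : (1 - t) * t ≤ (1 - t) * (x1 * y1 + x2 * y2) := by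
    linarith [sq_nonneg (P' + Q')]
  linarith [le_of_mul_le_mul_left e10 h1]

namespace Setting

variable {𝔾 X E : Type*} [Group 𝔾] [MetricSpace X] [MulAction 𝔾 X] [ProperSpace X]
  [NormedAddCommGroup E] [NormedSpace ℝ E] [FiniteDimensional ℝ E] {S : Setting 𝔾 X E}
  {g g' G G' γ c w : 𝔾} {p p' q x y z : X} {C : Subgroup 𝔾} {K : Set X} {R : ℝ}
  {𝔊 : Type*} [Group 𝔊] [MulAction 𝔊 Circle] {Φ : Fuchs 𝔊} {pj : 𝔾 →* 𝔊} {pr : X → KD}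
  {set : X → KD → X} {H : Subgroup 𝔊} {a₁ a₂ r₁ r₂ : Circle}
  {Good : 𝔾 → Prop} {F F' : Fam 𝔾 X} {a₁' a₂' r₁' r₂' : Circle}

theorem exists_sep {a₁ a₂ r₁ r₂ : Circle} (ha : a₁ ≠ a₂) (h₁ : a₁ ≠ r₁) (h₂ : a₁ ≠ r₂)
    (h₃ : a₂ ≠ r₁) (h₄ : a₂ ≠ r₂) (h : ¬ Linked a₁ a₂ r₁ r₂) : ∃ b,
      (Cyc a₁ b a₂ ∧ Cyc a₁ r₁ b ∧ Cyc a₁ r₂ b) ∨ (Cyc a₁ a₂ b ∧ Cyc a₁ b r₁ ∧ Cyc a₁ b r₂) := by
  have aux : ∀ r r' : Circle, Cyc a₂ r a₁ → Cyc a₂ r' a₁ → (r = r' ∨ Cyc a₂ r r') →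
      ∃ b, Cyc a₁ a₂ b ∧ Cyc a₁ b r ∧ Cyc a₁ b r' := by
    intro r r' e e' hc
    obtain ⟨b, hb⟩ := arc_nonempty e.ne₁₂
    have hb1 : Cyc a₂ b r := hb
    have hb2 : Cyc a₂ b r' := hc.elim (fun h => h ▸ hb1) hb1.trans
    exact ⟨b, (hb1.trans e).rot.rot, (hb1.trans' e).rot.rot, (hb2.trans' e').rot.rot⟩
  have t1 := ((arc_trichotomy ha r₁).resolve_left h₁.symm).resolve_left h₃.symm
  have t2 := ((arc_trichotomy ha r₂).resolve_left h₂.symm).resolve_left h₄.symm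
  rcases t1 with t1 | t1 <;> rcases t2 with t2 | t2
  · obtain ⟨b, hb⟩ := exists_between t1 t2
    exact ⟨b, Or.inl hb⟩
  · exact absurd (linked_iff.2 (Or.inl ⟨t1, t2⟩)) h
  · exact absurd (linked_iff.2 (Or.inr ⟨t2, t1⟩)) h
  · by_cases e : r₁ = r₂
    · exact (aux _ _ t1 t2 (Or.inl e)).imp fun _ => Or.inr
    rcases cyc_total h₃ e h₄ with e | e
    · exact (aux _ _ t1 t2 (Or.inr e)).imp fun _ => Or.inr
    · exact (aux _ _ t2 t1 (Or.inr e.rot.rot)).imp fun _ hb => Or.inr ⟨hb.1, hb.2.2, hb.2.1⟩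

/-- The linking lemma. -/
theorem Half.linked (h : S.Half Φ pj pr set Good F) (d : S.DR Φ pj Good G p a₁ a₂ r₁ r₂)
    (d' : S.DR Φ pj Good G' p' a₁' a₂' r₁' r₂') (hz : z ∈ S.Wu p) (hz' : z ∈ S.Ws p') :
    Linked a₁ a₂ r₁' r₂' := by
  by_contra hc
  have hf := h.hf
  obtain ⟨n1, n2, n3, n4⟩ := d.reg.ne_ar d'.reg (by rw [hf.ht_eq]; exact d.pos)
    (by rw [hf.ht_eq]; exact d'.pos)
  obtain ⟨b, e, hb, he, s1, s2, s3⟩ : ∃ (b : Circle) (e : ℝ), a₁ ≠ b ∧ |e| = 1 ∧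
      (∀ M, ∃ ε > 0, ∀ x : KD, rho x.val a₂ < ε → M < e * sig a₁ b x.val) ∧
      (∀ M, ∃ ε > 0, ∀ x : KD, rho x.val r₁' < ε → e * sig a₁ b x.val < -M) ∧
      ∀ M, ∃ ε > 0, ∀ x : KD, rho x.val r₂' < ε → e * sig a₁ b x.val < -M := by
    obtain ⟨b, ⟨c1, c2, c3⟩ | ⟨c1, c2, c3⟩⟩ := exists_sep d.reg.ne_a n1 n2 n3 n4 hc
    · refine ⟨b, 1, c1.ne₁₂, abs_one, ?_⟩
      simp only [one_mul]
      exact ⟨sig_large c1, sig_small c2, sig_small c3⟩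
    · refine ⟨b, -1, c1.ne₁₃, by simp, ?_⟩
      simp only [neg_one_mul, lt_neg (b := sig _ _ _), neg_lt_neg_iff]
      exact ⟨sig_small c1, sig_large c2, sig_large c3⟩
  have s4 : ∀ (g : 𝔾) (R : ℝ), ∃ M, ∀ z ∈ Stay g (NearP Φ pr ⊥ R),
      |e * sig a₁ b (pr z).val| ≤ M := fun g R => by
    obtain ⟨M, hM⟩ := kap_sig_bdd a₁ b R
    refine ⟨M, fun z hz => ?_⟩
    rw [abs_mul, he, one_mul]
    exact (hM _ (mem_nearP_bot.1 (by simpa using hz 0))).2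
  have s5 : ∀ M, ∃ R, ∀ z ∈ S.Ws p', -M ≤ e * sig a₁ b (pr z).val →
      z ∈ Stay G' (NearP Φ pr ⊥ R) := fun M => by
    obtain ⟨ε₁, p1, q1⟩ := s2 M
    obtain ⟨ε₂, p2, q2⟩ := s3 M
    obtain ⟨R, hR⟩ := hf.ws_near d'.reg d'.pos d'.fix (lt_min p1 p2)
    exact ⟨R, fun z hz hs => hR z hz
      ((min_le_left _ _).trans (not_lt.1 fun h => (q1 _ h).not_ge hs))
      ((min_le_right _ _).trans (not_lt.1 fun h => (q2 _ h).not_ge hs))⟩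
  obtain ⟨M₀, k0⟩ : ∃ M, ∀ z ∈ S.Ws p', kap a₁ b (pr z).val ≤ M := by
    obtain ⟨ε, p1, q1⟩ := hf.ws_away d'.reg d'.pos d'.fix n1 n2
    obtain ⟨M, hM⟩ := kap_le a₁ b p1
    exact ⟨M, fun z hz => hM _ (q1 z hz)⟩
  obtain ⟨M₁, k1⟩ : ∃ M, ∀ z ∈ S.Ws p', e * sig a₁ b (pr z).val ≤ M := by
    obtain ⟨R, hR⟩ := s5 0
    obtain ⟨M, hM⟩ := s4 G' R
    refine ⟨max M 0, fun z hz => ?_⟩
    rcases le_total (e * sig a₁ b (pr z).val) 0 with h0 | h0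
    · exact h0.trans (le_max_right _ _)
    · exact ((le_abs_self _).trans (hM z (hR z hz (by rwa [neg_zero])))).trans (le_max_left _ _)
  obtain ⟨R₁, k2⟩ : ∃ R, ∀ z ∈ S.Wu p, kap a₁ b (pr z).val ≤ M₀ → e * sig a₁ b (pr z).val ≤ M₁ →
      z ∈ Stay G⁻¹ (NearP Φ pr ⊥ R) := by
    obtain ⟨ε₁, p1, q1⟩ := kap_large hb M₀
    obtain ⟨ε₂, p2, q2⟩ := s1 M₁
    obtain ⟨R, hR⟩ := hf.wu_near d.reg d.pos d.fix (lt_min p1 p2)
    exact ⟨R, fun z hz h1 h2 => hR z hz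
      ((min_le_left _ _).trans (not_lt.1 fun h => (q1 _ h).not_ge h1))
      ((min_le_right _ _).trans (not_lt.1 fun h => (q2 _ h).not_ge h2))⟩
  obtain ⟨M₂, k3⟩ := s4 G⁻¹ R₁
  obtain ⟨R₂, k4⟩ := s5 M₂
  obtain ⟨K, hK, k5⟩ := h.fac.link G G' p p' d.pos d'.pos d.good d'.good d.fix d'.fix (max R₁ R₂)
  obtain ⟨C, hC, -⟩ := d.trap h
  obtain ⟨C', hC', k6⟩ := d'.trap h
  obtain ⟨ψ, f1, f2, f3, f4⟩ := exists_flow hb
  obtain ⟨σ, -, g1, g2, g3⟩ := dl_flow (U := EuclideanSpace ℝ (Fin S.u)) hC hC' d.pos d'.pos d.fix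
    d'.fix finrank_euclideanSpace_fin hK hz hz'
  obtain ⟨v, hv, s, s0, hs⟩ := g3 (fun z => kap a₁ b (pr z).val)
    (fun s z => set z (ψ s (pr z))) Set.univ M₀ ((continuous_kap a₁ b).comp hf.continuous_pr)
    (hf.cont.comp (continuous_snd.prodMk (f1.comp (continuous_fst.prodMk
      (hf.continuous_pr.comp continuous_snd)))))
    (fun z => by rw [f2, hf.set_pr]) (fun s z => by rw [hf.pr_set, f3]) (fun _ _ _ => trivial)
    (fun z hz _ => k0 z hz) fun T hT => (k6 T hT).imp fun K' hK' =>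
      ⟨hK'.1, fun z hz _ => hK'.2 z hz⟩
  have w1 := g1 v (sphere_subset_closedBall hv)
  have w2 := k0 _ hs
  have w3 := k1 _ hs
  rw [hf.pr_set, f3] at w2
  rw [hf.pr_set, f4] at w3
  have w4 := k2 _ w1 (by linarith) w3
  have w5 := k4 _ hs (by rw [hf.pr_set, f4]; exact (abs_le.1 (k3 _ w4)).1)
  exact g2 v hv (stay_mono (subset_tr C K) (k5 _ w1 _ hs
    (stay_mono (nearP_mono (le_max_left _ _)) w4) (stay_mono (nearP_mono (le_max_right _ _)) w5)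
    (by rw [hf.pr_set])))

theorem Half.linked_near (h : S.Half Φ pj pr set Good F) : ∃ δ > 0,
    ∀ G p a₁ a₂ r₁ r₂ G' p' a₁' a₂' r₁' r₂', S.DR Φ pj Good G p a₁ a₂ r₁ r₂ →
      S.DR Φ pj Good G' p' a₁' a₂' r₁' r₂' → ∀ z ∈ S.Wu p, ∀ z' ∈ S.Ws p', dist z z' ≤ δ →
        Linked a₁ a₂ r₁' r₂' := by
  obtain ⟨δ, hδ, hb⟩ := S.bracket one_pos
  refine ⟨δ, hδ, fun G p a₁ a₂ r₁ r₂ G' p' a₁' a₂' r₁' r₂' d d' z hz z' hz' hd => ?_⟩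
  obtain ⟨b, -, b1, b2, -⟩ := hb z (by rw [h.univ]; trivial) z' (by rw [h.univ]; trivial) hd
  exact h.linked d d' (ws_trans (S := S.inv) b1 hz) (ws_trans b2 hz')

theorem le_dist_of_linked {a b c d c' d' : Circle} {m : ℝ} (h : Linked a b c d)
    (h' : Linked a b c' d') (h₁ : m ≤ dist c c') (h₂ : m ≤ dist c d') (h₃ : m ≤ dist d c')
    (h₄ : m ≤ dist d d') : m ≤ dist a b := by
  have key : ∀ a b : Circle, Linked a b c d → Linked a b c' d' → ori a b 0 ≤ 0 → m ≤ dist a b := by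
    intro a b h h' h0
    rcases mul_neg_iff.1 h with ⟨e, -⟩ | ⟨-, e⟩ <;> rcases mul_neg_iff.1 h' with ⟨e', -⟩ | ⟨-, e'⟩
    exacts [h₁.trans (cap_link h0 e e'), h₂.trans (cap_link h0 e e'),
      h₃.trans (cap_link h0 e e'), h₄.trans (cap_link h0 e e')]
  rcases le_total (ori a b 0) 0 with h0 | h0
  · exact key a b h h' h0
  · rw [dist_comm]
    refine key b a h.swap_left h'.swap_left ?_
    simp only [ori] at h0 ⊢
    linarith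

/-- Unstable manifolds of doubly regular points stay uniformly close to their chords. -/
theorem Half.vis_ge (h : S.Half Φ pj pr set Good F) (hu : 2 ≤ S.u) (ht : S.ThinFam F) :
    ∃ c₀ > 0, ∀ G p a₁ a₂ r₁ r₂, S.DR Φ pj Good G p a₁ a₂ r₁ r₂ → ∀ z ∈ S.Wu p,
      c₀ ≤ vis (pr z).val a₁ a₂ := by
  obtain ⟨δ, hδ, hl⟩ := h.linked_near
  obtain ⟨K, hK, k1⟩ := S.exists_cpt 0
  obtain ⟨m, m0, hm⟩ : ∃ m > 0, ∀ G p a₁ a₂ r₁ r₂, S.DR Φ pj Good G p a₁ a₂ r₁ r₂ →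
      ∀ z ∈ S.Wu p, z ∈ K → m ≤ dist a₁ a₂ := by
    refine hK.induction_on (p := fun K => ∃ m > 0, ∀ G p a₁ a₂ r₁ r₂,
      S.DR Φ pj Good G p a₁ a₂ r₁ r₂ → ∀ z ∈ S.Wu p, z ∈ K → m ≤ dist a₁ a₂)
      ⟨1, one_pos, fun _ _ _ _ _ _ _ _ _ h => h.elim⟩ ?_ ?_ fun y _ => ?_
    · rintro s t hst ⟨m, m0, hm⟩
      exact ⟨m, m0, fun G p a₁ a₂ r₁ r₂ d z hz hs => hm G p a₁ a₂ r₁ r₂ d z hz (hst hs)⟩
    · rintro s t ⟨m, m0, hm⟩ ⟨m', m0', hm'⟩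
      exact ⟨min m m', lt_min m0 m0', fun G p a₁ a₂ r₁ r₂ d z hz hs => hs.elim
        (fun hs => (min_le_left _ _).trans (hm G p a₁ a₂ r₁ r₂ d z hz hs))
        fun hs => (min_le_right _ _).trans (hm' G p a₁ a₂ r₁ r₂ d z hz hs)⟩
    obtain ⟨G₁, p₁, _, _, c, d, G₂, p₂, _, _, c', d', d1, d2, ⟨z₁, w1, w2⟩, ⟨z₂, w3, w4⟩, n1, n2,
      n3, n4⟩ := h.two hu ht (isOpen_ball (x := y) (ε := δ / 2)) (nonempty_ball.2 (half_pos hδ))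
    refine ⟨ball y (δ / 2), mem_nhdsWithin_of_mem_nhds (ball_mem_nhds y (half_pos hδ)),
      min (min (dist c c') (dist c d')) (min (dist d c') (dist d d')),
      lt_min (lt_min (dist_pos.2 n1) (dist_pos.2 n2)) (lt_min (dist_pos.2 n3) (dist_pos.2 n4)),
      fun G p a₁ a₂ r₁ r₂ d0 z hz hs => ?_⟩
    have e : ∀ w ∈ ball y (δ / 2), dist z w ≤ δ := fun w hw => by
      linarith [dist_triangle_right z w y, mem_ball.1 hs, mem_ball.1 hw]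
    exact le_dist_of_linked (hl _ _ _ _ _ _ _ _ _ _ _ _ d0 d1 z hz z₁ w1 (e _ w2))
      (hl _ _ _ _ _ _ _ _ _ _ _ _ d0 d2 z hz z₂ w3 (e _ w4))
      ((min_le_left _ _).trans (min_le_left _ _)) ((min_le_left _ _).trans (min_le_right _ _))
      ((min_le_right _ _).trans (min_le_left _ _)) ((min_le_right _ _).trans (min_le_right _ _))
  obtain ⟨R, hR⟩ := (hK.image h.hf.continuous_pr).isBounded.subset_closedBall KD.o
  obtain ⟨c, c0, hc⟩ := vis_cmp R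
  refine ⟨m ^ 2 / 2 / c, by positivity, fun G p a₁ a₂ r₁ r₂ d z hz => ?_⟩
  obtain ⟨γ, g0, g1⟩ := k1 z (by rw [h.univ]; trivial)
  have g2 := g1 z (by simp)
  have e1 := hm _ _ _ _ _ _ (d.conj h γ) _ ((smul_mem_wu γ).2 hz) g2
  have e2 := hc KD.o (pr (γ • z)) (by rw [dist_comm]; exact hR ⟨_, g2, rfl⟩)
    (pj γ • a₁ : Circle) (pj γ • a₂ : Circle) (Circle.norm_coe _).le (Circle.norm_coe _).le
  rw [h.hf.eqv γ z g0, Φ.vis_mv (by rw [h.hf.ht_eq, g0])] at e2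
  have e3 : vis KD.o.val (pj γ • a₁ : Circle) (pj γ • a₂ : Circle) = _ := vis_zero _ _
  have e4 := pow_le_pow_left₀ m0.le e1 2
  rw [circle_dist_sq] at e4
  rw [div_le_iff₀' c0]
  linarith

end Setting

end Pool.Agent.P.MP_788ef7_an
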