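import Pool.Agent.P.MP_788ef7_an.Low
import Pool.Agent.P.MP_788ef7_an.Link
import Pool.Agent.P.MP_788ef7_an.Kkm
import Pool.Agent.P.MP_788ef7_an.Kkm1

set_option autoImplicit false
set_option linter.unusedSectionVars false

open Set Filter Topology Metric

namespace Pool.Agent.P.MP_788ef7_an

namespace Setting

variable {𝔾 X E : Type*} [Group 𝔾] [MetricSpace X] [MulAction 𝔾 X] [ProperSpace X]
  [NormedAddCommGroup E] [NormedSpace ℝ E] [FiniteDimensional ℝ E] {S : Setting 𝔾 X E}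
  {g g' G G' γ c w : 𝔾} {p p' q x y z : X} {C : Subgroup 𝔾} {K : Set X} {R : ℝ}
  {𝔊 : Type*} [Group 𝔊] [MulAction 𝔊 Circle] {Φ : Fuchs 𝔊} {pj : 𝔾 →* 𝔊} {pr : X → KD}
  {set : X → KD → X} {H : Subgroup 𝔊} {a₁ a₂ r₁ r₂ : Circle}
  {Good : 𝔾 → Prop} {F F' : Fam 𝔾 X} {a₁' a₂' r₁' r₂' : Circle}

theorem exists_small_mainp (Φ : Fuchs 𝔊) {ℒ : Set (Circle × Circle)} (hc : ℒ.Countable)
    {a b : Circle} (hab : a ≠ b) (hm : ∀ γ, Φ.ht γ = 0 → (γ • a, γ • b) ∈ ℒ) (ω : Circle)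
    {V : Set Circle} (hV : V ∈ 𝓝 ω) : ∃ ξ p q : Circle, (∀ l ∈ ℒ, l.1 ≠ ξ ∧ l.2 ≠ ξ) ∧
      ((p, q) ∈ ℒ ∨ (q, p) ∈ ℒ) ∧ ξ ∈ arc p q ∧ arc p q ⊆ V := by
  obtain ⟨δ, hδ, hs⟩ := small_arc ω hV
  obtain ⟨γ, h0, ha, hb⟩ := Φ.orbit_small a b ω hδ
  have hne : γ • a ≠ γ • b := fun e => hab (MulAction.injective γ e)
  have key : ∀ p q : Circle, p ≠ q → ∃ ξ ∈ arc p q, ∀ l ∈ ℒ, l.1 ≠ ξ ∧ l.2 ≠ ξ := by
    intro p q hpq
    by_contra hn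
    apply arc_not_countable hpq
    refine ((hc.image Prod.fst).union (hc.image Prod.snd)).mono fun ξ hξ => ?_
    by_contra h2
    exact hn ⟨ξ, hξ, fun l hl =>
      ⟨fun e => h2 (Or.inl ⟨l, hl, e⟩), fun e => h2 (Or.inr ⟨l, hl, e⟩)⟩⟩
  rcases hs _ _ ha hb with h | h
  · obtain ⟨ξ, h1, h2⟩ := key _ _ hne
    exact ⟨ξ, _, _, h2, Or.inl (hm γ h0), h1, h⟩
  · obtain ⟨ξ, h1, h2⟩ := key _ _ hne.symm
    exact ⟨ξ, _, _, h2, Or.inr (hm γ h0), h1, h⟩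

/-- Three generic points of the circle, each cut off by a small chord of the family. -/
theorem exists_three (Φ : Fuchs 𝔊) {ℒ : Set (Circle × Circle)} (hc : ℒ.Countable)
    {a b : Circle} (hab : a ≠ b) (hm : ∀ γ, Φ.ht γ = 0 → (γ • a, γ • b) ∈ ℒ) :
    ∃ ξ p q : Fin 3 → Circle, Cyc (ξ 0) (ξ 1) (ξ 2) ∧ (∀ l ∈ ℒ, ∀ i, l.1 ≠ ξ i ∧ l.2 ≠ ξ i) ∧
      (∀ i, (p i, q i) ∈ ℒ ∨ (q i, p i) ∈ ℒ) ∧ ∀ i k, ξ k ∈ arc (p i) (q i) ↔ k = i := by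
  obtain ⟨s, s', -, -, -, -, -, -, h3, -, -⟩ := exists_chart 1
  have h0 : Cyc (s' 0) (s' 1) (s' 2) := (h3 0 1 2).2 (Or.inl ⟨by norm_num, by norm_num⟩)
  have hn : {t : Circle × Circle × Circle | Cyc t.1 t.2.1 t.2.2} ∈ 𝓝 (s' 0, s' 1, s' 2) :=
    isOpen_cyc.mem_nhds h0
  obtain ⟨V₀, hV₀, W, hW, h1⟩ := mem_nhds_prod_iff.1 hn
  obtain ⟨V₁, hV₁, V₂, hV₂, h2⟩ := mem_nhds_prod_iff.1 hW
  have hcyc : ∀ x ∈ V₀, ∀ y ∈ V₁, ∀ z ∈ V₂, Cyc x y z := fun x hx y hy z hz =>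
    h1 (mk_mem_prod hx (h2 (mk_mem_prod hy hz)))
  obtain ⟨ξ₀, p₀, q₀, a₀, b₀, c₀, d₀⟩ := exists_small_mainp Φ hc hab hm _ hV₀
  obtain ⟨ξ₁, p₁, q₁, a₁, b₁, c₁, d₁⟩ := exists_small_mainp Φ hc hab hm _ hV₁
  obtain ⟨ξ₂, p₂, q₂, a₂, b₂, c₂, d₂⟩ := exists_small_mainp Φ hc hab hm _ hV₂
  have e₀ := d₀ c₀
  have e₁ := d₁ c₁
  have e₂ := d₂ c₂
  refine ⟨![ξ₀, ξ₁, ξ₂], ![p₀, p₁, p₂], ![q₀, q₁, q₂], hcyc _ e₀ _ e₁ _ e₂, ?_, ?_, ?_⟩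
  · intro l hl i
    fin_cases i
    exacts [a₀ l hl, a₁ l hl, a₂ l hl]
  · intro i
    fin_cases i
    exacts [b₀, b₁, b₂]
  · intro i k
    fin_cases i <;> fin_cases k
    · exact iff_of_true c₀ rfl
    · exact iff_of_false (fun h => (hcyc _ (d₀ h) _ e₁ _ e₂).ne₁₂ rfl) (by decide)
    · exact iff_of_false (fun h => (hcyc _ (d₀ h) _ e₁ _ e₂).ne₁₃ rfl) (by decide)
    · exact iff_of_false (fun h => (hcyc _ e₀ _ (d₁ h) _ e₂).ne₁₂ rfl) (by decide)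
    · exact iff_of_true c₁ rfl
    · exact iff_of_false (fun h => (hcyc _ e₀ _ (d₁ h) _ e₂).ne₂₃ rfl) (by decide)
    · exact iff_of_false (fun h => (hcyc _ e₀ _ e₁ _ (d₂ h)).ne₁₃ rfl) (by decide)
    · exact iff_of_false (fun h => (hcyc _ e₀ _ e₁ _ (d₂ h)).ne₂₃ rfl) (by decide)
    · exact iff_of_true c₂ rfl

theorem countable_pairs (S : Setting 𝔾 X E) (Φ : Fuchs 𝔊) (pj : 𝔾 →* 𝔊) (Good : 𝔾 → Prop) :
    {l : Circle × Circle | ∃ G p r₁ r₂, S.DR Φ pj Good G p l.1 l.2 r₁ r₂}.Countable := by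
  have := S.countable
  have h1 : ∀ G : 𝔾, {l : Circle × Circle | ∃ r₁ r₂, Φ.Reg (pj G) l.1 l.2 r₁ r₂}.Countable := by
    intro G
    rcases Set.eq_empty_or_nonempty
      {l : Circle × Circle | ∃ r₁ r₂, Φ.Reg (pj G) l.1 l.2 r₁ r₂} with h | ⟨l₀, s₁, s₂, h⟩
    · rw [h]; exact countable_empty
    · have hf : (({l₀.1, l₀.2} : Set Circle) ×ˢ ({l₀.1, l₀.2} : Set Circle)).Finite :=
        (Set.toFinite _).prod (Set.toFinite _)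
      refine hf.countable.mono ?_
      rintro l ⟨t₁, t₂, hl⟩
      exact ⟨h.att_iff.1 hl.att₁, h.att_iff.1 hl.att₂⟩
  refine (countable_iUnion h1).mono ?_
  rintro l ⟨G, p, t₁, t₂, d⟩
  exact mem_iUnion.2 ⟨G, t₁, t₂, d.reg⟩

theorem Half.final (h : S.Half Φ pj pr set Good F) (hu : 2 ≤ S.u) (ht : S.ThinFam F)
    (hd : ∀ U : Set X, IsOpen U → U.Nonempty → ∃ G p a₁ a₂ r₁ r₂,
      S.DR Φ pj Good G p a₁ a₂ r₁ r₂ ∧ (S.Wu p ∩ U).Nonempty) : False := by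
  obtain ⟨z₀, -⟩ := S.nonempty
  obtain ⟨G₀, p₀, b₁, b₂, s₁, s₂, d₀, -⟩ := hd Set.univ isOpen_univ ⟨z₀, trivial⟩
  have hm : ∀ γ, Φ.ht γ = 0 → (γ • b₁, γ • b₂) ∈
      {l : Circle × Circle | ∃ G p r₁ r₂, S.DR Φ pj Good G p l.1 l.2 r₁ r₂} := by
    intro γ _
    obtain ⟨w, rfl⟩ := h.hf.surj γ
    exact ⟨_, _, _, _, d₀.conj h w⟩
  obtain ⟨ξ, P, Q, hξ, hg, hpq, harc⟩ :=
    exists_three Φ (countable_pairs S Φ pj Good) d₀.reg.ne_a hm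
  have hnc : ∀ l ∈ {l : Circle × Circle | ∃ G p r₁ r₂, S.DR Φ pj Good G p l.1 l.2 r₁ r₂},
      ∀ l' ∈ {l : Circle × Circle | ∃ G p r₁ r₂, S.DR Φ pj Good G p l.1 l.2 r₁ r₂},
        ¬ Linked l.1 l.2 l'.1 l'.2 := by
    rintro l ⟨G, p, t₁, t₂, d⟩ l' ⟨G', p', t₁', t₂', d'⟩ hl
    have hG : 0 < Φ.ht (pj G) := by rw [h.hf.ht_eq]; exact d.pos
    have hG' : 0 < Φ.ht (pj G') := by rw [h.hf.ht_eq]; exact d'.pos
    rcases d.reg.nc d'.reg hG hG' with e | e | e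
    · exact hl.ne.2.2.1 e.1
    · exact hl.ne.2.2.2.1 e.1
    · exact e.2.2.2.2 hl
  obtain ⟨col, hcol, ε, hε, hbd⟩ :=
    colour (fun l hl => by obtain ⟨G, p, t₁, t₂, d⟩ := hl; exact d.reg.ne_a) hnc hξ hg hpq harc
  obtain ⟨c₀, hc₀, hvis⟩ := h.vis_ge hu ht
  obtain ⟨ρ₀, hρ₀, hend⟩ := end_near hc₀ (show 0 < ε / 3 by positivity)
  obtain ⟨ρ₁, hρ₁, h10, h11, h12⟩ : ∃ ρ₁ : ℝ, ρ₁ < 1 ∧ ρ₀ ≤ ρ₁ ∧ 0 ≤ ρ₁ ∧ 1 - ε / 3 ≤ ρ₁ :=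
    ⟨max (max ρ₀ 0) (1 - ε / 3), max_lt (max_lt hρ₀ one_pos) (by linarith),
      (le_max_left _ _).trans (le_max_left _ _), (le_max_right _ _).trans (le_max_left _ _),
      le_max_right _ _⟩
  obtain ⟨r, hr1, hr2⟩ := _root_.exists_between hρ₁
  have hr0 : 0 < r := h11.trans_lt hr1
  let Y : Fin 3 → Set X := fun i => {z | ∃ G p a₁ a₂ r₁ r₂, S.DR Φ pj Good G p a₁ a₂ r₁ r₂ ∧
    col (a₁, a₂) = i ∧ z ∈ S.Wu p}
  have hY : ∀ z, ∃ i, z ∈ closure (Y i) := by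
    intro z
    have hz : z ∈ closure (⋃ i, Y i) := by
      refine mem_closure_iff.2 fun U hU hzU => ?_
      obtain ⟨G, p, a₁, a₂, r₁, r₂, d, y, hy, hyU⟩ := hd U hU ⟨z, hzU⟩
      exact ⟨y, hyU, mem_iUnion.2 ⟨_, G, p, a₁, a₂, r₁, r₂, d, rfl, hy⟩⟩
    rw [closure_iUnion_of_finite] at hz
    exact mem_iUnion.1 hz
  have hset : Continuous (set z₀) := h.hf.cont.comp (Continuous.prodMk_right z₀)
  have hsub : closedBall (0 : ℂ) r ⊆ range KD.val := by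
    rw [KD.range_val]; exact closedBall_subset_ball hr2
  have hK : IsCompact (KD.val ⁻¹' closedBall (0 : ℂ) r) :=
    KD.isOpenEmbedding_val.isInducing.isCompact_preimage' (isCompact_closedBall 0 r) hsub
  let D : Fin 3 → Set ℂ := fun i =>
    KD.val '' (KD.val ⁻¹' closedBall (0 : ℂ) r ∩ set z₀ ⁻¹' closure (Y i))
  have hD : ∀ i, IsClosed (D i) := fun i =>
    ((hK.inter_right (isClosed_closure.preimage hset)).image KD.continuous_val).isClosed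
  have hcov : closedBall (0 : ℂ) r ⊆ ⋃ i, D i := by
    intro x hx
    obtain ⟨y, rfl⟩ := hsub hx
    obtain ⟨i, hi⟩ := hY (set z₀ y)
    exact mem_iUnion.2 ⟨i, y, ⟨hx, hi⟩, rfl⟩
  have hb : ∀ i (θ : Circle), r • (θ : ℂ) ∈ D i → 0 < ori (ξ (i + 1)) (ξ (i + 2)) θ := by
    rintro i θ ⟨y, ⟨-, hy⟩, e⟩
    have hη : 0 < min (ε / 3) (r - ρ₁) := lt_min (by positivity) (sub_pos.2 hr1)
    have hU : IsOpen {z | ‖(pr z).val - r • (θ : ℂ)‖ < min (ε / 3) (r - ρ₁)} :=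
      isOpen_lt ((KD.continuous_val.comp h.hf.continuous_pr).sub continuous_const).norm
        continuous_const
    obtain ⟨z, hz, G, p, a₁, a₂, r₁, r₂, d, hc, hw⟩ := mem_closure_iff.1 hy _ hU (by
      show ‖(pr (set z₀ y)).val - r • (θ : ℂ)‖ < _
      rw [h.hf.pr_set, e, sub_self, norm_zero]; exact hη)
    have hz1 : ‖(pr z).val - r • (θ : ℂ)‖ < ε / 3 := lt_of_lt_of_le hz (min_le_left _ _)
    have hz2 : ‖(pr z).val - r • (θ : ℂ)‖ < r - ρ₁ := lt_of_lt_of_le hz (min_le_right _ _)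
    have hn : ‖r • (θ : ℂ)‖ = r := by
      rw [norm_smul, Circle.norm_coe, mul_one, Real.norm_of_nonneg hr0.le]
    have hz3 : ρ₀ ≤ ‖(pr z).val‖ := by
      have := norm_sub_norm_le (r • (θ : ℂ)) (pr z).val
      rw [norm_sub_rev, hn] at this
      linarith
    have hz4 : ‖r • (θ : ℂ) - θ‖ ≤ ε / 3 := by
      have e1 : r • (θ : ℂ) - θ = (r - 1) • (θ : ℂ) := by rw [sub_smul, one_smul]
      rw [e1, norm_smul, Circle.norm_coe, mul_one, Real.norm_of_nonpos (by linarith)]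
      linarith
    have hz5 : ∀ a : Circle, ‖(a : ℂ) - (pr z).val‖ < ε / 3 → dist a θ < ε := by
      intro a ha
      have e1 : dist a θ = ‖(a : ℂ) - θ‖ := dist_eq_norm (a : ℂ) θ
      have t1 := norm_sub_le_norm_sub_add_norm_sub (a : ℂ) (pr z).val θ
      have t2 := norm_sub_le_norm_sub_add_norm_sub (pr z).val (r • (θ : ℂ)) θ
      linarith
    have := hbd (a₁, a₂) ⟨G, p, r₁, r₂, d⟩ θ
      ((hend _ hz3 (pr z).lt a₁ a₂ (hvis G p a₁ a₂ r₁ r₂ d z hw)).imp (hz5 a₁) (hz5 a₂))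
    rwa [hc] at this
  obtain ⟨x, hx, hxD⟩ := kkm hξ hr0 hD hcov hb
  obtain ⟨y, rfl⟩ := hsub hx
  have hy : ∀ i, set z₀ y ∈ closure (Y i) := by
    intro i
    obtain ⟨y', ⟨-, h1⟩, e⟩ := hxD i
    rwa [KD.ext e] at h1
  obtain ⟨δ, hδ, hlk⟩ := h.linked_near
  have hδ2 : 0 < δ / 2 := half_pos hδ
  obtain ⟨G', p', a₁', a₂', r₁', r₂', d', z', hz', hz'U⟩ :=
    h.dens hu ht (isOpen_ball (x := set z₀ y) (ε := δ / 2)) ⟨_, mem_ball_self hδ2⟩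
  have hf : ∀ i, ∃ l : Circle × Circle,
      (l ∈ {l : Circle × Circle | ∃ G p r₁ r₂, S.DR Φ pj Good G p l.1 l.2 r₁ r₂} ∧
        Linked l.1 l.2 r₁' r₂') ∧ col l = i := by
    intro i
    obtain ⟨z, hz, G, p, a₁, a₂, r₁, r₂, d, hc, hw⟩ :=
      mem_closure_iff.1 (hy i) _ isOpen_ball (mem_ball_self hδ2)
    refine ⟨(a₁, a₂), ⟨⟨G, p, r₁, r₂, d⟩, hlk _ _ _ _ _ _ _ _ _ _ _ _ d d' z hw z' hz' ?_⟩, hc⟩
    have t := dist_triangle_right z z' (set z₀ y)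
    rw [mem_ball] at hz hz'U
    linarith
  choose f hf1 hf2 using hf
  exact hcol r₁' r₂' f hf1 hf2

theorem main_aux (h : S.Half Φ pj pr set Good F) (h' : S.inv.Half Φ.inv pj pr set Good F')
    (hi : ∀ G, Good G → Good G⁻¹) (ht : 2 ≤ S.u → S.ThinFam F) (ht' : 2 ≤ S.s → S.inv.ThinFam F')
    (hu : 2 ≤ S.u) : False := by
  obtain ⟨z₀, -⟩ := S.nonempty
  obtain ⟨G, p, a₁, a₂, r₁, r₂, d, -⟩ := h.dens hu (ht hu) isOpen_univ ⟨z₀, trivial⟩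
  have hs : 2 ≤ S.inv.u := h'.low (d.inv hi)
  refine h.final hu (ht hu) fun U hU hne => ?_
  obtain ⟨G', p', a₁', a₂', r₁', r₂', d', hw⟩ := h'.dens hs (ht' hs) hU hne
  exact ⟨_, _, _, _, _, _, DR.of_inv hi d', hw⟩

/-- The main argument. -/
theorem main_plane (h : S.Half Φ pj pr set Good F) (h' : S.inv.Half Φ.inv pj pr set Good F')
    (hi : ∀ G, Good G → Good G⁻¹) (ht : 2 ≤ S.u → S.ThinFam F) (ht' : 2 ≤ S.s → S.inv.ThinFam F')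
    (h3 : 3 ≤ Module.finrank ℝ E) : False := by
  have e := S.u_add_s
  by_cases hu : 2 ≤ S.u
  · exact main_aux h h' hi ht ht' hu
  · have hs : 2 ≤ S.s := by omega
    have h2 : S.inv.inv.Half Φ.inv.inv pj pr set Good F := by
      rw [S.inv_inv, Fuchs.inv_inv]; exact h
    have ht2 : 2 ≤ S.inv.s → S.inv.inv.ThinFam F := by
      rw [S.inv_inv]; exact ht
    exact main_aux h' h2 hi ht' ht2 hs

end Setting

end Pool.Agent.P.MP_788ef7_an
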