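import Pool.Agent.P.MP_788ef7_an.HH1
import Pool.Agent.P.MP_788ef7_an.MainP

set_option autoImplicit false
set_option linter.unusedSectionVars false

open Set Filter Topology Metric

namespace Pool.Agent.P.MP_788ef7_an

namespace Setting

variable {𝔾 X E : Type*} [Group 𝔾] [MetricSpace X] [MulAction 𝔾 X] [ProperSpace X]
  [NormedAddCommGroup E] [NormedSpace ℝ E] [FiniteDimensional ℝ E] {S : Setting 𝔾 X E}
  {g g' G G' γ c w : 𝔾} {p p' q x y z : X} {C : Subgroup 𝔾} {K : Set X} {R : ℝ}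
  {𝔊 : Type*} [Group 𝔊] [MulAction 𝔊 Circle] {Φ : Fuchs 𝔊} {pj : 𝔾 →* 𝔊} {pr : X → KD}
  {set : X → KD → X} {H : Subgroup 𝔊} {a₁ a₂ r₁ r₂ : Circle}
  {𝔊' : Type*} [Group 𝔊'] [MulAction 𝔊' Circle] {Φ' : Fuchs 𝔊'} {pj' : 𝔾 →* 𝔊'} {pr' : X → KD}
  {set' : X → KD → X} {H' : Subgroup 𝔊'} {j : E ≃L[ℝ] ℂ × ℂ}

theorem near_conj_hhc {u : 𝔊} {H₁ : Subgroup 𝔊} {x : KD} (hu : Φ.ht u = 0)
    (hH : ∀ a ∈ H, Φ.ht a = 0) (hH₁ : ∀ a ∈ H, u⁻¹ * a * u ∈ H₁) (h : Φ.Near H R x) :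
    Φ.Near H₁ (R + dist KD.o (Φ.pt u)) (Φ.mv u⁻¹ x) := by
  obtain ⟨a, ha, h1⟩ := h
  refine ⟨_, hH₁ a ha, ?_⟩
  rw [mul_assoc, Φ.pt_mul (by rw [Φ.ht_inv, hu, neg_zero]), Φ.dist_mv, Φ.pt_mul (hH a ha)]
  refine (dist_triangle _ (Φ.pt a) _).trans (add_le_add h1 (le_of_eq ?_))
  exact Φ.dist_mv a _ _

theorem HH.stay_hhc (h : S.HH Φ pj pr set Φ' pj' pr' set' j) (R R' : ℝ) : ∃ K, IsCompact K ∧
    ∀ (H : Subgroup 𝔊) (H' : Subgroup 𝔊'), (∀ a ∈ H, Φ.ht a = 0) → (∀ a ∈ H', Φ'.ht a = 0) →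
      ∀ (g : 𝔾) z, z ∈ Stay g (NearP Φ pr H R) → z ∈ Stay g (NearP Φ' pr' H' R') →
        z ∈ Stay g (Tr (H.comap pj ⊓ H'.comap pj') K) := by
  obtain ⟨K, hK, h1⟩ := h.tr (max R R')
  exact ⟨K, hK, fun H H' hH hH' g z a1 a2 n => h1 H H' hH hH'
    ⟨nearP_mono (le_max_left _ _) (a1 n), nearP_mono (le_max_right _ _) (a2 n)⟩⟩

theorem HH.dt (h : S.HH Φ pj pr set Φ' pj' pr' set' j) (hu : 1 ≤ S.u) (hc : Φ.Core H (pj G))
    (hc' : Φ'.Core H' (pj' g)) (e : S.ht G = S.ht g) (hγ : S.ht γ = 0) (R R' : ℝ) :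
    S.Thin (Stay G (NearP Φ pr H R) ∩ {z | γ • z ∈ Stay g (NearP Φ' pr' H' R')}) := by
  obtain ⟨G', e1, e2⟩ := h.pair (pj G) (pj' (γ⁻¹ * g * γ)) (by
    rw [h.hf.ht_eq, h.hf'.ht_eq, S.ht_mul, S.ht_mul, S.ht_inv, hγ, e, neg_zero, zero_add, add_zero])
  have hu0 : Φ'.ht (pj' γ) = 0 := by rw [h.hf'.ht_eq, hγ]
  have c1 : Φ.Core H (pj G') := e1.symm ▸ hc
  have c2 : Φ'.Core (H'.comap (MulAut.conj (pj' γ)).toMonoidHom) (pj' G') := by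
    have := hc'.conj (γ := (pj' γ)⁻¹) (by rw [Φ'.ht_inv, hu0, neg_zero])
      (H' := H'.comap (MulAut.conj (pj' γ)).toMonoidHom) fun a => by
        rw [_root_.inv_inv]
        exact Iff.rfl
    rwa [_root_.inv_inv, ← map_inv, ← map_mul, ← map_mul, ← e2] at this
  obtain ⟨K, hK, k1⟩ := h.stay_hhc R (R' + dist KD.o (Φ'.pt (pj' γ)))
  refine ((h.finPer c1 c2).thin (h.hf.region c1).pos hK hu fun x _ => ?_).mono fun z hz => ?_
  · rw [h.univ]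
    exact subset_univ _
  refine k1 _ _ c1.le c2.le _ z (by rw [h.hf.stay_eq e1]; exact hz.1.1) ?_
  rw [h.hf'.stay_eq e2]
  intro n
  have e3 : (γ⁻¹ * g * γ) ^ n = γ⁻¹ * g ^ n * γ := by
    have := conj_pow (i := n) (a := γ⁻¹) (b := g)
    rwa [_root_.inv_inv] at this
  have := near_conj_hhc (H₁ := H'.comap (MulAut.conj (pj' γ)).toMonoidHom) hu0 hc'.le
    (fun a ha => by
      have e4 : pj' γ * ((pj' γ)⁻¹ * a * pj' γ) * (pj' γ)⁻¹ = a := by group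
      exact Subgroup.mem_comap.2 (e4.symm ▸ ha :
        pj' γ * ((pj' γ)⁻¹ * a * pj' γ) * (pj' γ)⁻¹ ∈ H')) (hz.1.2 n)
  rw [← map_inv, ← h.hf'.eqv _ _ (by rw [S.ht_inv, hγ, neg_zero])] at this
  rw [e3, mul_smul, mul_smul]
  exact this

theorem HH.fac (h : S.HH Φ pj pr set Φ' pj' pr' set' j) : ∃ F : Fam 𝔾 X,
    S.Fac2 Φ pj pr set (fun G => Φ'.Regular (pj' G)) F ∧
      ∀ i, ∃ H', Φ'.Core H' (pj' (F.g i)) ∧ F.A i = NearP Φ' pr' H' := by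
  obtain ⟨F, H', hb, hc⟩ := h.hf'.fam h.swap.iness
  refine ⟨F, ⟨fun g G hG => ?_, fun G i hi hG => ?_, hb, ?_, ?_, ?_, ?_⟩, fun i => ⟨_, hc i⟩⟩
  · rw [map_mul, map_mul, map_inv]
    exact hG.conj _
  · rw [map_pow]
    exact hG.pow hi
  · intro hu H G c1 i n hn e γ hγ R R'
    rw [(hc i).2]
    refine h.dt (by omega) c1 ?_ (by rw [e, S.ht_pow, hb.ht_g, mul_comm]) hγ R R'
    have := (hc i).1.pow (one_mem _) hn
    rwa [one_mul, ← map_pow] at this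
  · intro H G p c1 hreg hp
    have hG := (h.hf.region c1).pos
    have c2 := hreg.core (by rw [h.hf'.ht_eq]; exact hG)
    obtain ⟨a₁, a₂, r₁, r₂, hr⟩ := hreg
    obtain ⟨ψ, f1, f2, f3, -⟩ := exists_flow hr.ne_a
    have cp := h.hf'.continuous_pr
    refine ⟨_, fun z => kap a₁ a₂ (pr' z).val, fun s z => set' z (ψ s (pr' z)), h.finPer c1 c2,
      (continuous_kap a₁ a₂).comp cp, h.hf'.cont.comp (continuous_snd.prodMk
        (f1.comp (continuous_fst.prodMk (cp.comp continuous_snd)))),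
      fun z => by simp only [f2, h.hf'.set_pr], fun s z => by simp only [h.hf'.pr_set, f3],
      fun s z => h.pr_set' _ _, fun R => ?_, fun R M => ?_, fun R T hT => ?_⟩
    · obtain ⟨M, hM⟩ := h.hf'.ws_kap hr hG hp
      exact ⟨M, fun z hz _ => hM z hz⟩
    · obtain ⟨R', hR⟩ := h.hf'.wu_kap hr hG hp M
      obtain ⟨K, hK, k1⟩ := h.stay_hhc R R'
      exact ⟨K, hK, fun z hz a1 a2 => k1 _ _ c1.le c2.le _ z a1 (hR z hz a2)⟩
    · obtain ⟨L, hL⟩ :=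
        hT.bddAbove_image (cp.dist continuous_const (g := fun _ => KD.o)).continuousOn
      obtain ⟨R', hR⟩ := h.hf'.core_ws c2 hp L
      obtain ⟨K, hK, k1⟩ := h.stay_hhc R R'
      exact ⟨K, hK, fun z hz a1 => k1 _ _ c1.le c2.le _ z a1
        (hR z hz.1 (mem_nearP_bot.2 (hL (mem_image_of_mem _ hz.2))))⟩
  · rintro G G' p p' hG hG' ⟨a₁, a₂, r₁, r₂, hr⟩ ⟨a₁', a₂', r₁', r₂', hr'⟩ hp hp' R
    obtain ⟨n1, n2, n3, n4⟩ :=
      hr.ne_ar hr' (by rw [h.hf'.ht_eq]; exact hG) (by rw [h.hf'.ht_eq]; exact hG')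
    obtain ⟨ε₁, p1, q1⟩ := h.hf'.ws_away hr' hG' hp' n1 n2
    obtain ⟨ε₂, p2, q2⟩ := h.hf'.ws_away hr' hG' hp' n3 n4
    obtain ⟨R', hR⟩ := h.hf'.wu_near hr hG hp (lt_min p1 p2)
    obtain ⟨K, hK, k1⟩ := h.stay_hhc R R'
    refine ⟨K, hK, fun z hz z' hz' a1 _ e => ?_⟩
    have e1 : pr' z = pr' z' := by rw [← e, h.pr'_set]
    have e2 : (⊥ : Subgroup 𝔊).comap pj ⊓ (⊥ : Subgroup 𝔊').comap pj' = ⊥ :=
      (Subgroup.eq_bot_iff_forall _).2 fun c hc => h.inj c hc.1 hc.2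
    have := k1 ⊥ ⊥ (fun a ha => by rw [Subgroup.mem_bot.1 ha, Φ.ht_one])
      (fun a ha => by rw [Subgroup.mem_bot.1 ha, Φ'.ht_one]) _ z a1
      (hR z hz (by rw [e1]; exact (min_le_left _ _).trans (q1 z' hz'))
        (by rw [e1]; exact (min_le_right _ _).trans (q2 z' hz')))
    rwa [e2, tr_bot] at this
  · rintro G p hG ⟨a₁, a₂, r₁, r₂, hr⟩ hp R
    obtain ⟨n1, n2, -⟩ :=
      hr.ne_ar hr (by rw [h.hf'.ht_eq]; exact hG) (by rw [h.hf'.ht_eq]; exact hG)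
    obtain ⟨ε, p1, q1⟩ := h.hf'.ws_away hr hG hp n1 n2
    obtain ⟨f, -, hf⟩ := Φ'.exists_tendsto_pt a₁
    have t1 := tendsto_rho hf (tendsto_const_nhds (x := (a₁ : ℂ)))
    rw [rho_circle_self] at t1
    obtain ⟨n, hn⟩ := (t1.eventually (gt_mem_nhds p1)).exists
    refine ⟨set' p (Φ'.pt (f n)), fun z' hz' _ e => ?_⟩
    have := q1 z' hz'
    rw [← e, h.pr'_set, h.hf'.pr_set] at this
    exact hn.not_ge this

theorem HH.half_hhc (h : S.HH Φ pj pr set Φ' pj' pr' set' j) : ∃ F : Fam 𝔾 X,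
    S.Half Φ pj pr set (fun G => Φ'.Regular (pj' G)) F ∧
      ∀ i, ∃ H', Φ'.Core H' (pj' (F.g i)) ∧ F.A i = NearP Φ' pr' H' := by
  obtain ⟨F, h1, h2⟩ := h.fac
  refine ⟨F, ⟨h.univ, ?_, h.hf, h.iness, h1⟩, h2⟩
  rw [h.range_eq]
  exact ((convex_ball _ _).prod (convex_ball _ _)).linear_preimage j.toLinearEquiv.toLinearMap

theorem HH.half (h : S.HH Φ pj pr set Φ' pj' pr' set' j) : ∃ F : Fam 𝔾 X,
    S.Half Φ pj pr set (fun G => Φ'.Regular (pj' G)) F ∧ (2 ≤ S.u → S.ThinFam F) := by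
  obtain ⟨F, h1, h2⟩ := h.half_hhc
  obtain ⟨F', h3, -⟩ := h.swap.half_hhc
  refine ⟨F, h1, fun hu i R => ?_⟩
  obtain ⟨H', hc, e⟩ := h2 i
  rw [e]
  exact h3.ni hu hc R

theorem HH.false (h : S.HH Φ pj pr set Φ' pj' pr' set' j) : False := by
  obtain ⟨F, h1, h2⟩ := h.half
  obtain ⟨F', h3, h4⟩ := h.inv.half
  simp only [Fuchs.inv_regular] at h3
  refine main_plane h1 h3 (fun G hG => ?_) h2 h4 ?_
  · rw [map_inv]
    exact hG.inv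
  · rw [j.toLinearEquiv.finrank_eq, Module.finrank_prod, Complex.finrank_real_complex]
    norm_num

end Setting

end Pool.Agent.P.MP_788ef7_an
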