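import Pool.Agent.P.MP_788ef7_an.Mk
import Pool.Agent.P.MP_788ef7_an.HHc
import Pool.Agent.P.MP_788ef7_an.Cover

set_option autoImplicit false

open Set Filter Topology Metric

namespace Pool.Agent.P.MP_788ef7_an

variable {M : Type*} {f : Equiv.Perm M} {N u s : ℕ} {lam : ℝ} {Γ₁ : Subgroup (KD ≃ᵢ KD)}

theorem raw_buildH {F : Equiv.Perm (KD × KD)} {Γ₂ : Subgroup (KD ≃ᵢ KD)} (h₁ : Lat Γ₁ univ)
    (h₂ : Lat Γ₂ univ) (o₁ : ∀ γ ∈ Γ₁, IsOP γ) (o₂ : ∀ γ ∈ Γ₂, IsOP γ) (hF : Continuous F)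
    (hF' : Continuous (F⁻¹ : Equiv.Perm (KD × KD))) (n₂ : Nrm₂ F Γ₂) (n₂' : Nrm₂ F⁻¹ Γ₂) :
    ∃ a₂ : (KD ≃ᵢ KD) → ℂ → ℂ, Raw F Γ₁ Γ₂ KD.val a₂ vec1 (fun _ => 0) id := by
  choose! L hL hLx using o₂
  refine ⟨fun γ => kact (L γ), h₁, o₁, by simpa using h₂, n₂, n₂', hF, hF',
    KD.isOpenEmbedding_val, ?_, hLx, ?_, ?_, ?_, ?_, ?_, fun y y' => by simp, fun _ _ _ => rfl,
    fun z => by simp, fun _ => rfl, fun y => by simp, fun _ _ _ => rfl, ⟨KD.o⟩⟩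
  · rw [KD.range_val]
    exact twoStar_of_convex (isOpen_ball.prod isOpen_ball)
      ((convex_ball _ _).prod (convex_ball _ _))
      ((nonempty_ball.2 one_pos).prod (nonempty_ball.2 one_pos))
  · intro γ hγ
    rw [KD.range_val]
    exact (hL γ hγ).contDiffOn_kact
  · rw [KD.range_val]
    exact contDiffOn_vec1
  · rintro _ ⟨y, rfl⟩ _ ⟨y', rfl⟩
    exact vec1_eq_zero y.lt y'.lt.le
  · rintro γ hγ _ ⟨y, rfl⟩ _ ⟨y', rfl⟩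
    exact (hL γ hγ).vec1_eqv y.lt y'.lt.le
  · rintro _ ⟨y, rfl⟩
    exact vec1_diag y.lt

theorem false_hh {F : Equiv.Perm (KD × KD)} {Γ₂ : Subgroup (KD ≃ᵢ KD)} (h₁ : Lat Γ₁ univ)
    (h₂ : Lat Γ₂ univ) (o₁ : ∀ γ ∈ Γ₁, IsOP γ) (o₂ : ∀ γ ∈ Γ₂, IsOP γ) (hF : Continuous F)
    (hF' : Continuous (F⁻¹ : Equiv.Perm (KD × KD))) (n : Nrm F Γ₁ Γ₂) (n' : Nrm F⁻¹ Γ₁ Γ₂)
    (n₁ : Nrm₁ F Γ₁) (n₁' : Nrm₁ F⁻¹ Γ₁) (n₂ : Nrm₂ F Γ₂) (n₂' : Nrm₂ F⁻¹ Γ₂) {q : ℂ × ℂ → M}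
    {Q : KD × KD → ℂ × ℂ →L[ℝ] ℂ × ℂ} (hh : HypD (Prod.map KD.val KD.val)
      (Cov (Prod.map KD.val KD.val) q (fun _ => (0 : Fin 0 → ℝ)) f N) Q u s lam)
    (c₁ : ∀ z, q (Prod.map KD.val KD.val (F z)) = (f ^ N) (q (Prod.map KD.val KD.val z)))
    (c₂ : ∀ γ₁ ∈ Γ₁, ∀ γ₂ ∈ Γ₂, ∀ x y, q ((γ₁ x).val, (γ₂ y).val) = q (x.val, y.val)) : False := by
  obtain ⟨𝔾, _, _, ht, t, l₁, l₂, hp⟩ := mk_pres n n'
  obtain ⟨a₂, hr⟩ := raw_buildH h₁ h₂ o₁ o₂ hF hF' n₂ n₂'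
  have hc := hp.cov hF hF' (e := Prod.map KD.val KD.val) (τ := fun _ => (0 : Fin 0 → ℝ)) c₁
    (fun _ => (smul_zero _).symm) fun γ₁ a γ₂ b x y => ⟨c₂ γ₁ a γ₂ b x y, rfl⟩
  obtain ⟨S, e1, -, e3, e4, -⟩ := mk_setting hp hr hh hc
  obtain ⟨𝔊, _, _, Φ, pj, hf, hk⟩ := mk_hf hp hr e1 e4
  obtain ⟨𝔊', _, _, Φ', pj', hs', hht', hmv', hk'⟩ := mkf (l := l₂) hp.ht_mul hp.ht_t
    (fun γ δ a b => (hp.l_mul a b).2) hp.mem₂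
    (fun γ₂ h => by
      obtain ⟨γ, a, -, b⟩ := hp.surj 1 Γ₁.one_mem γ₂ h
      exact ⟨γ, a, b⟩)
    (hp.ker₂ n₁ n₁') h₂ o₂
  have hΛ : S.Λ = univ := by
    rw [e4]
    exact eq_univ_of_forall fun _ => rfl
  have hht : ∀ g, Φ'.ht (pj' g) = S.ht g := fun g => by rw [hht', e1]
  have heqv : ∀ (γ : 𝔾) (z : KD × KD), S.ht γ = 0 → (γ • z).2 = Φ'.mv (pj' γ) z.2 := by
    rintro γ ⟨x, y⟩ h
    rw [e1] at h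
    rw [hp.smul γ h, hmv' γ h]
  have hf' : S.HF Φ' pj' Prod.snd fun z y => (z.1, y) :=
    ⟨hht, hs', heqv, fun z z' => le_max_right _ _,
      Setting.step_of hht continuous_snd heqv fun G z => ⟨z, hΛ ▸ mem_univ z, rfl, rfl⟩,
      fun _ _ => rfl, fun _ => rfl, fun _ _ _ => rfl, by fun_prop⟩
  refine Setting.HH.false (j := ContinuousLinearEquiv.refl ℝ (ℂ × ℂ))
    ⟨hΛ, hf, hf', fun z => ?_, ?_, fun z z' => le_rfl, fun g g' h => ?_, fun G a b => ?_,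
      fun _ _ => rfl, fun _ _ => rfl⟩
  · rw [e3]
    rfl
  · rw [e3, range_prodMap, KD.range_val]
    rfl
  · obtain ⟨G₁, rfl⟩ := hf.surj g
    obtain ⟨G₂, rfl⟩ := hs' g'
    rw [hf.ht_eq, hht] at h
    have hδ : ht (G₂ * G₁⁻¹) = 0 := by
      rw [← e1, S.ht_mul, S.ht_inv, h, add_neg_cancel]
    obtain ⟨ν, h0, h1, h2⟩ := hp.surj 1 Γ₁.one_mem _ (hp.mem₂ _ hδ)
    have h3 : ht (ν * (G₂ * G₁⁻¹)⁻¹) = 0 := by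
      rw [← e1] at h0 hδ ⊢
      rw [S.ht_mul, S.ht_inv, h0, hδ, neg_zero, add_zero]
    have h4 := (hp.l_mul h3 hδ).2
    rw [inv_mul_cancel_right, h2] at h4
    have h5 := (hk' _).2 ⟨h3, mul_eq_right.1 h4.symm⟩
    rw [map_mul, map_inv, mul_inv_eq_one] at h5
    refine ⟨ν * G₁, ?_, ?_⟩
    · rw [map_mul, (hk ν).2 ⟨h0, h1⟩, one_mul]
    · rw [map_mul, h5, ← map_mul, inv_mul_cancel_right]
  · exact hp.inj G ((hk G).1 a).1 ((hk G).1 a).2 ((hk' G).1 b).2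

end Pool.Agent.P.MP_788ef7_an
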