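import Mathlib

/-!
Surfaces of constant curvature.
-/

set_option autoImplicit false

open scoped Manifold ContDiff UpperHalfPlane

namespace Pool.Agent.P.MP_788ef7_an

/-- The surface `S` is the quotient of the model space `X` by a group of isometries: there is a
surjective covering map `q : X → S` that is a smooth local diffeomorphism, and any two points of a
fibre are related by an isometry of `X` that preserves `q`. -/
def Uniformized (X : Type*) [MetricSpace X] (V : Type*) [NormedAddCommGroup V] [NormedSpace ℝ V]
    [ChartedSpace V X] (S : Type*) [TopologicalSpace S]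
    [ChartedSpace (EuclideanSpace ℝ (Fin 2)) S] : Prop :=
  ∃ q : X → S, IsCoveringMap q ∧ Function.Surjective q ∧ IsLocalDiffeomorph 𝓘(ℝ, V) (𝓡 2) ∞ q ∧
    ∀ x y, q x = q y → ∃ γ : X ≃ᵢ X, (∀ z, q (γ z) = q z) ∧ γ x = y

variable (S : Type*) [TopologicalSpace S] [ChartedSpace (EuclideanSpace ℝ (Fin 2)) S]

/-- A quotient of the hyperbolic plane. -/
def IsHyp : Prop := Uniformized ℍ ℂ S

/-- A quotient of the Euclidean plane. -/
def IsFlat : Prop := Uniformized ℂ ℂ S

/-- A quotient of the round sphere. -/
def IsRound : Prop :=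
  Uniformized (Metric.sphere (0 : EuclideanSpace ℝ (Fin 3)) 1) (EuclideanSpace ℝ (Fin 2)) S

end Pool.Agent.P.MP_788ef7_an
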