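import Pool.Agent.P.MP_788ef7_an.CDefs
import Pool.Agent.P.MP_788ef7_an.UDefs
import Pool.Agent.Lib.Unif.Defs

set_option autoImplicit false
set_option linter.unusedSectionVars false

open Set Filter Topology Metric

namespace Pool.Agent.P.MP_788ef7_an

open scoped Manifold ContDiff UpperHalfPlane

theorem Model.prod {EM EM' : Type*} [NormedAddCommGroup EM] [NormedSpace ℝ EM]
    [NormedAddCommGroup EM'] [NormedSpace ℝ EM'] {HM HM' : Type*} [TopologicalSpace HM]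
    [TopologicalSpace HM'] {I : ModelWithCorners ℝ EM HM} {I' : ModelWithCorners ℝ EM' HM'}
    {M M' : Type*} [TopologicalSpace M] [ChartedSpace HM M] [TopologicalSpace M']
    [ChartedSpace HM' M'] {X X' E E' W W' : Type*} [TopologicalSpace X] [TopologicalSpace X']
    [NormedAddCommGroup E] [NormedSpace ℝ E] [NormedAddCommGroup E'] [NormedSpace ℝ E']
    [NormedAddCommGroup W] [NormedSpace ℝ W] [NormedAddCommGroup W'] [NormedSpace ℝ W']
    [Subsingleton W] {e : X → E} {q : E → M} {τ : E → W} {e' : X' → E'} {q' : E' → M'}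
    {τ' : E' → W'} (h : Model I e q τ) (h' : Model I' e' q' τ') :
    Model (I.prod I') (Prod.map e e') (Prod.map q q') fun ζ => τ' ζ.2 := by
  have c1 : ∀ x, ContMDiffAt 𝓘(ℝ, E) I 1 q (e x) := fun x =>
    h.cq.contMDiffAt (h.emb.isOpen_range.mem_nhds ⟨x, rfl⟩)
  have c2 : ∀ x, ContMDiffAt 𝓘(ℝ, E') I' 1 q' (e' x) := fun x =>
    h'.cq.contMDiffAt (h'.emb.isOpen_range.mem_nhds ⟨x, rfl⟩)
  have c3 : ∀ x, ContDiffAt ℝ 1 τ' (e' x) := fun x =>
    h'.cτ.contDiffAt (h'.emb.isOpen_range.mem_nhds ⟨x, rfl⟩)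
  refine ⟨h.emb.prodMap h'.emb, ?_, ?_, fun x => ?_⟩
  · rintro _ ⟨x, rfl⟩
    exact (((c1 x.1).comp (Prod.map e e' x) contDiffAt_fst.contMDiffAt).prodMk
      ((c2 x.2).comp (Prod.map e e' x) contDiffAt_snd.contMDiffAt)).contMDiffWithinAt
  · rintro _ ⟨x, rfl⟩
    exact ((c3 x.2).comp (Prod.map e e' x) contDiffAt_snd).contDiffWithinAt
  have d1 := (((c1 x.1).mdifferentiableAt one_ne_zero).hasMFDerivAt.comp (Prod.map e e' x)
    (hasFDerivAt_fst (𝕜 := ℝ)).hasMFDerivAt).prodMk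
      (((c2 x.2).mdifferentiableAt one_ne_zero).hasMFDerivAt.comp (Prod.map e e' x)
        (hasFDerivAt_snd (𝕜 := ℝ)).hasMFDerivAt)
  have d2 := ((c3 x.2).differentiableAt one_ne_zero).hasFDerivAt.comp (Prod.map e e' x)
    (hasFDerivAt_snd (𝕜 := ℝ))
  have e1 : ∀ v : E × E', (mfderiv 𝓘(ℝ, E × E') (I.prod I') (Prod.map q q') (Prod.map e e' x) v :
      EM × EM') = ((mfderiv 𝓘(ℝ, E) I q (e x.1) v.1 : EM),
        (mfderiv 𝓘(ℝ, E') I' q' (e' x.2) v.2 : EM')) := fun v => DFunLike.congr_fun d1.mfderiv v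
  have e2 : ∀ v : E × E', fderiv ℝ (fun ζ : E × E' => τ' ζ.2) (Prod.map e e' x) v =
      fderiv ℝ τ' (e' x.2) v.2 := fun v => DFunLike.congr_fun d2.fderiv v
  refine ⟨fun v w hvw => ?_, fun y => ?_⟩
  · have a := ((e1 v).symm.trans (congrArg Prod.fst hvw)).trans (e1 w)
    have b := ((e2 v).symm.trans (congrArg Prod.snd hvw)).trans (e2 w)
    exact Prod.ext ((h.bij x.1).1 (Prod.ext (congrArg Prod.fst a :) (Subsingleton.elim _ _)))
      ((h'.bij x.2).1 (Prod.ext (congrArg Prod.snd a :) b))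
  · obtain ⟨v, hv⟩ := (h.bij x.1).2 (y.1.1, 0)
    obtain ⟨w, hw⟩ := (h'.bij x.2).2 (y.1.2, y.2)
    exact ⟨(v, w), Prod.ext ((e1 _).trans (Prod.ext (congrArg Prod.fst hv :)
      (congrArg Prod.fst hw :))) ((e2 _).trans (congrArg Prod.snd hw :))⟩

variable {S : Type*} [TopologicalSpace S] [ChartedSpace (EuclideanSpace ℝ (Fin 2)) S]
  [IsManifold (𝓡 2) ∞ S]

theorem model_models {V N X E E' W : Type*} [NormedAddCommGroup V] [NormedSpace ℝ V]
    [TopologicalSpace N] [ChartedSpace V N] [TopologicalSpace X] [NormedAddCommGroup E]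
    [NormedSpace ℝ E] [NormedAddCommGroup E'] [NormedSpace ℝ E'] [NormedAddCommGroup W]
    [NormedSpace ℝ W] [FiniteDimensional ℝ E] [FiniteDimensional ℝ W] {q : N → S}
    (hq : ContMDiff 𝓘(ℝ, V) (𝓡 2) 1 q)
    (hj : ∀ x, Function.Injective (mfderiv 𝓘(ℝ, V) (𝓡 2) q x)) {e : X → E} (he : IsOpenEmbedding e) {g : E → N}
    {τ : E → W} (hg : ∀ x, ContMDiffAt 𝓘(ℝ, E) 𝓘(ℝ, V) 1 g (e x))
    (hτ : ∀ x, ContDiffAt ℝ 1 τ (e x)) {a : N → E'} (ha : ContMDiff 𝓘(ℝ, V) 𝓘(ℝ, E') 1 a)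
    {K : E' × W → E} (hK : ∀ x, DifferentiableAt ℝ K (a (g (e x)), τ (e x)))
    (hi : ∀ x, K (a (g (e x)), τ (e x)) = e x)
    (hd : Module.finrank ℝ E = 2 + Module.finrank ℝ W) : Model (𝓡 2) e (q ∘ g) τ := by
  refine ⟨he, ?_, ?_, fun x => ?_⟩
  · rintro _ ⟨x, rfl⟩
    exact ((hq _).comp _ (hg x)).contMDiffWithinAt
  · rintro _ ⟨x, rfl⟩
    exact (hτ x).contDiffWithinAt
  have dg := ((hg x).mdifferentiableAt one_ne_zero).hasMFDerivAt
  have d1 := ((hq _).mdifferentiableAt one_ne_zero).hasMFDerivAt.comp (e x) dg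
  have d2 := (((ha _).mdifferentiableAt one_ne_zero).hasMFDerivAt.comp (e x) dg).hasFDerivAt
  have d3 := (hK x).hasFDerivAt.comp (e x)
    (d2.prodMk ((hτ x).differentiableAt one_ne_zero).hasFDerivAt)
  have d4 := d3.unique ((hasFDerivAt_id (e x)).congr_of_eventuallyEq (by
    filter_upwards [he.isOpen_range.mem_nhds ⟨x, rfl⟩]
    rintro _ ⟨y, rfl⟩
    exact hi y))
  let L : E →ₗ[ℝ] EuclideanSpace ℝ (Fin 2) × W :=
    LinearMap.prod (mfderiv 𝓘(ℝ, E) (𝓡 2) (q ∘ g) (e x)).toLinearMap (fderiv ℝ τ (e x)).toLinearMap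
  have hL : Function.Injective L := by
    refine (injective_iff_map_eq_zero L).2 fun v hv => ?_
    have a1 : mfderiv 𝓘(ℝ, E) 𝓘(ℝ, V) g (e x) v = 0 :=
      (map_eq_zero_iff _ (hj _)).1
        ((DFunLike.congr_fun d1.mfderiv v).symm.trans (congrArg Prod.fst hv))
    have a2 : fderiv ℝ τ (e x) v = 0 := congrArg Prod.snd hv
    refine (DFunLike.congr_fun d4 v).symm.trans ?_
    refine (congrArg (fderiv ℝ K _) (Prod.ext ?_ a2 : _ = (0 : E' × W))).trans (map_zero _)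
    exact (congrArg (mfderiv 𝓘(ℝ, V) 𝓘(ℝ, E') a _) a1).trans (map_zero _)
  refine ⟨hL, (LinearMap.injective_iff_surjective_of_finrank_eq_finrank ?_).1 hL⟩
  rw [hd, Module.finrank_prod, finrank_euclideanSpace_fin]

theorem model_klein {q : ℍ → S} (h : ContMDiff 𝓘(ℝ, ℂ) (𝓡 2) 1 q)
    (hj : ∀ x, Function.Injective (mfderiv 𝓘(ℝ, ℂ) (𝓡 2) q x)) :
    ∃ q' : ℂ → S, Model (𝓡 2) KD.val q' (fun _ => (0 : Fin 0 → ℝ)) ∧
      ∀ x : KD, q' x.val = q x.toH := by
  let T : ℂ → ℂ := fun z => Complex.equivRealProdCLM.symm (z.im / (1 - z.re),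
    √(1 - (z.re * z.re + z.im * z.im)) / (1 - z.re))
  have hT : ∀ x : KD, UpperHalfPlane.ofComplex (T x.val) = x.toH := fun x =>
    UpperHalfPlane.ofComplex_apply x.toH
  have c1 : ContDiff ℝ 1 Complex.re := Complex.reCLM.contDiff
  have c2 : ContDiff ℝ 1 Complex.im := Complex.imCLM.contDiff
  refine ⟨q ∘ UpperHalfPlane.ofComplex ∘ T, model_models h hj KD.isOpenEmbedding_val (fun x => ?_)
    (fun _ => contDiffAt_const) (contMDiff_isOpenEmbedding UpperHalfPlane.isOpenEmbedding_coe)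
    (K := fun z => Complex.equivRealProdCLM.symm
      ((z.1.re ^ 2 + z.1.im ^ 2 - 1) / (z.1.re ^ 2 + z.1.im ^ 2 + 1),
        2 * z.1.re / (z.1.re ^ 2 + z.1.im ^ 2 + 1))) (fun x => ?_) (fun x => ?_) (by simp),
    fun x => congrArg q (hT x)⟩
  · refine ((contMDiffOn_isOpenEmbedding_symm UpperHalfPlane.isOpenEmbedding_coe).contMDiffAt
      (UpperHalfPlane.isOpenEmbedding_coe.isOpen_range.mem_nhds (x := T x.val)
        ⟨x.toH, rfl⟩)).comp x.val (ContDiffAt.contMDiffAt ?_)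
    have p1 : 1 - x.val.re ≠ 0 := (sub_pos.2 x.re_lt).ne'
    have p2 : 1 - (x.val.re * x.val.re + x.val.im * x.val.im) ≠ 0 := x.rho_pos.ne'
    refine Complex.equivRealProdCLM.symm.contDiff.contDiffAt.comp _ ?_
    fun_prop (disch := assumption)
  · refine (Complex.equivRealProdCLM.symm.contDiff.contDiffAt.comp _ ?_).differentiableAt
      one_ne_zero
    fun_prop (disch := positivity)
  · rw [Function.comp_apply, hT]
    exact congrArg KD.val x.ofH_toH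

theorem model_plane {q : ℂ → S} (h : ContMDiff 𝓘(ℝ, ℂ) (𝓡 2) 1 q)
    (hj : ∀ x, Function.Injective (mfderiv 𝓘(ℝ, ℂ) (𝓡 2) q x)) :
    Model (𝓡 2) (id : ℂ → ℂ) q fun _ => (0 : Fin 0 → ℝ) :=
  model_models h hj .id (g := id) (fun _ => contMDiffAt_id) (fun _ => contDiffAt_const) contMDiff_id
    (K := Prod.fst) (fun _ => differentiableAt_fst) (fun _ => rfl) (by simp)

theorem polar_models : (fun p : sphere (0 : E3) 1 × ℝ => Real.exp p.2 • (p.1 : E3)) =
    Subtype.val ∘ ((Homeomorph.refl _).prodCongr Real.expOrderIso.toHomeomorph).trans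
      (homeomorphUnitSphereProd E3).symm := rfl

theorem isOpenEmbedding_polar :
    IsOpenEmbedding fun p : sphere (0 : E3) 1 × ℝ => Real.exp p.2 • (p.1 : E3) := by
  rw [polar_models]
  exact isOpen_compl_singleton.isOpenEmbedding_subtypeVal.comp (Homeomorph.isOpenEmbedding _)

theorem range_polar : range (fun p : sphere (0 : E3) 1 × ℝ => Real.exp p.2 • (p.1 : E3)) = {0}ᶜ :=
  by rw [polar_models, (Homeomorph.surjective _).range_comp, Subtype.range_coe]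

theorem model_sphere {q : sphere (0 : E3) 1 → S}
    (h : ContMDiff 𝓘(ℝ, EuclideanSpace ℝ (Fin 2)) (𝓡 2) 1 q)
    (hj : ∀ x, Function.Injective (mfderiv 𝓘(ℝ, EuclideanSpace ℝ (Fin 2)) (𝓡 2) q x)) :
    ∃ q' : E3 → S, Model (𝓡 2) (fun p : sphere (0 : E3) 1 × ℝ => Real.exp p.2 • (p.1 : E3)) q'
      (fun y => Real.log ‖y‖) ∧ ∀ p : sphere (0 : E3) 1 × ℝ, q' (Real.exp p.2 • (p.1 : E3)) = q p.1 :=
  by
  classical
  have : Fact (Module.finrank ℝ E3 = 2 + 1) := ⟨by simp⟩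
  have hm : ∀ y : E3, y ≠ 0 → ‖y‖⁻¹ • y ∈ sphere (0 : E3) 1 := fun y hy => by
    simp [norm_smul, hy]
  let g : E3 → sphere (0 : E3) 1 := fun y =>
    if hy : y ≠ 0 then ⟨_, hm y hy⟩ else ⟨EuclideanSpace.single 0 1, by simp⟩
  have h0 : ∀ p : sphere (0 : E3) 1 × ℝ, Real.exp p.2 • (p.1 : E3) ≠ 0 := fun p =>
    range_polar.subset ⟨p, rfl⟩
  have hn : ∀ p : sphere (0 : E3) 1 × ℝ, ‖Real.exp p.2 • (p.1 : E3)‖ = Real.exp p.2 := fun p => by
    simp [norm_smul]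
  have hg : ∀ p : sphere (0 : E3) 1 × ℝ, g (Real.exp p.2 • (p.1 : E3)) = p.1 := fun p => by
    simp only [g, dif_pos (h0 p), hn, smul_smul, inv_mul_cancel₀ (Real.exp_pos _).ne', one_smul]
  refine ⟨q ∘ g, model_models h hj isOpenEmbedding_polar (fun x => ?_)
    (fun x => (contDiffAt_norm ℝ (h0 x)).log (norm_ne_zero_iff.2 (h0 x))) contMDiff_coe_sphere
    (K := fun z => Real.exp z.2 • z.1) (fun x => by fun_prop) (fun x => ?_) (by simp),
    fun x => congrArg q (hg x)⟩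
  · let U : TopologicalSpace.Opens E3 := ⟨{0}ᶜ, isOpen_compl_singleton⟩
    have a : ContMDiff 𝓘(ℝ, E3) 𝓘(ℝ, E3) 1 fun y : U => ‖(y : E3)‖⁻¹ • (y : E3) := fun y =>
      (contMDiffAt_subtype_iff (f := fun y : E3 => ‖y‖⁻¹ • y)).2 (((contDiffAt_norm ℝ y.2).inv
        (norm_ne_zero_iff.2 y.2)).smul contDiffAt_id).contMDiffAt
    refine (contMDiffAt_subtype_iff (U := U) (x := ⟨_, h0 x⟩)).1 ?_
    have b : (fun y : U => g y) = codRestrict _ _ fun y : U => hm y y.2 :=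
      funext fun y => dif_pos y.2
    rw [b]
    exact a.codRestrict_sphere _ _
  · rw [hg, hn, Real.log_exp]

theorem Uniformized.unif1 {X : Type*} [MetricSpace X] {V : Type*} [NormedAddCommGroup V]
    [NormedSpace ℝ V] [ChartedSpace V X] (h : Uniformized X V S) : Lib.Unif.Unif1 X V S := by
  obtain ⟨q, hc, hs, hl, ht⟩ := h
  have hn : (1 : WithTop ℕ∞) ≤ ∞ := by exact_mod_cast le_top
  exact ⟨q, hc, hs, hl.contMDiff.of_le hn,
    fun x => ((hl x).mfderivToContinuousLinearEquiv (one_pos.trans_le hn).ne').injective, ht⟩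

end Pool.Agent.P.MP_788ef7_an
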