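import Pool.Agent.P.MP_788ef7_an.Deg1

set_option autoImplicit false

open Set Filter Topology Metric

namespace Pool.Agent.P.MP_788ef7_an

variable {E : Type*} [NormedAddCommGroup E] [NormedSpace ℝ E] [FiniteDimensional ℝ E]

/-- Homotopy invariance of the signed number of zeros. -/
theorem deg_eq {Ω : Set E} (hΩ : IsOpen Ω) (hb : Bornology.IsBounded Ω) {H : ℝ → E → E}
    (hH : ContinuousOn (fun p : ℝ × E => H p.1 p.2) (Icc 0 1 ×ˢ closure Ω))
    (hne : ∀ τ ∈ Icc (0 : ℝ) 1, ∀ x ∈ frontier Ω, H τ x ≠ 0) {F₀ F₁ : Finset E}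
    {D₀ D₁ : E → E →L[ℝ] E} (h₀ : ∀ x, x ∈ F₀ ↔ x ∈ Ω ∧ H 0 x = 0)
    (h₁ : ∀ x, x ∈ F₁ ↔ x ∈ Ω ∧ H 1 x = 0)
    (d₀ : ∀ x ∈ F₀, HasFDerivAt (H 0) (D₀ x) x ∧ (D₀ x).det ≠ 0)
    (d₁ : ∀ x ∈ F₁, HasFDerivAt (H 1) (D₁ x) x ∧ (D₁ x).det ≠ 0) :
    ∑ x ∈ F₀, sgn (D₀ x) = ∑ x ∈ F₁, sgn (D₁ x) := by
  classical
  let e : E ≃L[ℝ] (Fin (Module.finrank ℝ E) → ℝ) :=
    (Module.finBasis ℝ E).equivFun.toContinuousLinearEquiv
  let c : (E →L[ℝ] E) → (Fin (Module.finrank ℝ E) → ℝ) →L[ℝ] (Fin (Module.finrank ℝ E) → ℝ) :=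
    fun D => (e : E →L[ℝ] _).comp (D.comp (e.symm : _ →L[ℝ] E))
  have hc : ∀ D, (c D).det = D.det := fun D =>
    LinearMap.det_conj (D : E →ₗ[ℝ] E) e.toLinearEquiv
  have hs : ∀ D, sgn (c D) = sgn D := fun D => by simp only [sgn, hc]
  have hm : ∀ (F : Finset E) y, y ∈ F.map e.toEquiv.toEmbedding ↔ e.symm y ∈ F := fun F y =>
    Finset.mem_map_equiv
  have hd : ∀ (f : E → E) (D : E →L[ℝ] E) y, HasFDerivAt f D (e.symm y) →
      HasFDerivAt (fun y => e (f (e.symm y))) (c D) y := fun f D y h =>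
    e.hasFDerivAt.comp y (h.comp y e.symm.hasFDerivAt)
  have key := deg_eq_pi (Ω := e.symm ⁻¹' Ω) (H := fun τ y => e (H τ (e.symm y)))
    (F₀ := F₀.map e.toEquiv.toEmbedding) (F₁ := F₁.map e.toEquiv.toEmbedding)
    (D₀ := fun y => c (D₀ (e.symm y))) (D₁ := fun y => c (D₁ (e.symm y)))
    (hΩ.preimage e.symm.continuous) (e.symm.antilipschitz.isBounded_preimage hb) ?_ ?_ ?_ ?_ ?_ ?_
  · simpa [Finset.sum_map, hs] using key
  · refine e.continuous.comp_continuousOn (hH.comp (f := fun p : ℝ × _ => (p.1, e.symm p.2))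
      (by fun_prop) fun p hp => ⟨hp.1, ?_⟩)
    exact (e.symm.toHomeomorph.preimage_closure Ω).ge hp.2
  · intro τ hτ y hy h0
    refine hne τ hτ (e.symm y) ?_ (e.map_eq_zero_iff.1 h0)
    exact (e.symm.toHomeomorph.preimage_frontier Ω).ge hy
  · intro y
    rw [hm, h₀, e.map_eq_zero_iff, mem_preimage]
  · intro y
    rw [hm, h₁, e.map_eq_zero_iff, mem_preimage]
  · intro y hy
    rw [hm] at hy
    exact ⟨hd _ _ _ (d₀ _ hy).1, by rw [hc]; exact (d₀ _ hy).2⟩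
  · intro y hy
    rw [hm] at hy
    exact ⟨hd _ _ _ (d₁ _ hy).1, by rw [hc]; exact (d₁ _ hy).2⟩

/-- If all zeros at time `0` have the same sign and there is one, there is a zero at time `1`. -/
theorem exists_zero {Ω : Set E} (hΩ : IsOpen Ω) (hb : Bornology.IsBounded Ω) {H : ℝ → E → E}
    (hH : ContinuousOn (fun p : ℝ × E => H p.1 p.2) (Icc 0 1 ×ˢ closure Ω))
    (hne : ∀ τ ∈ Icc (0 : ℝ) 1, ∀ x ∈ frontier Ω, H τ x ≠ 0) {σ : ℝ}
    (d₀ : ∀ x ∈ Ω, H 0 x = 0 → ∃ D : E →L[ℝ] E, HasFDerivAt (H 0) D x ∧ 0 < σ * D.det)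
    (h₀ : ∃ x ∈ Ω, H 0 x = 0) : ∃ x ∈ Ω, H 1 x = 0 := by
  classical
  by_contra hcon
  have hmem : ∀ x ∈ closure Ω, H 0 x = 0 → x ∈ Ω := fun x hx h0 => by
    by_contra hn
    exact hne 0 ⟨le_rfl, zero_le_one⟩ x (by rw [hΩ.frontier_eq]; exact ⟨hx, hn⟩) h0
  have hfin : {x | x ∈ closure Ω ∧ H 0 x = 0}.Finite := by
    refine finite_zeros hb.isCompact_closure
      (hH.comp (f := fun x : E => ((0 : ℝ), x)) (by fun_prop)
        fun x hx => ⟨⟨le_rfl, zero_le_one⟩, hx⟩) fun x hx h0 => ?_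
    obtain ⟨D, h1, h2⟩ := d₀ x (hmem x hx h0) h0
    exact ⟨D, h1, fun h => by simp [h] at h2⟩
  choose! D hD using d₀
  have hF : ∀ x, x ∈ hfin.toFinset ↔ x ∈ Ω ∧ H 0 x = 0 := fun x => by
    rw [Set.Finite.mem_toFinset]
    exact ⟨fun h => ⟨hmem x h.1 h.2, h.2⟩, fun h => ⟨subset_closure h.1, h.2⟩⟩
  have key := deg_eq hΩ hb hH hne (F₀ := hfin.toFinset) (F₁ := ∅) (D₀ := D) (D₁ := D) hF
    (fun x => ⟨fun h => absurd h (Finset.notMem_empty x), fun h => absurd ⟨x, h⟩ hcon⟩)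
    (fun x hx => ⟨(hD x ((hF x).1 hx).1 ((hF x).1 hx).2).1, fun h => by
      simpa [h] using (hD x ((hF x).1 hx).1 ((hF x).1 hx).2).2⟩)
    (fun x hx => absurd hx (Finset.notMem_empty x))
  obtain ⟨x₀, hx₀⟩ := h₀
  have hne' : hfin.toFinset.Nonempty := ⟨x₀, (hF _).2 hx₀⟩
  rw [Finset.sum_empty] at key
  rcases le_or_gt 0 σ with hσ | hσ
  · refine absurd key (Finset.sum_pos (fun x hx => ?_) hne').ne'
    have := (hD x ((hF x).1 hx).1 ((hF x).1 hx).2).2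
    have h2 : 0 < (D x).det := by
      by_contra h
      nlinarith
    simp [sgn, h2]
  · refine absurd key (Finset.sum_neg (fun x hx => ?_) hne').ne
    have := (hD x ((hF x).1 hx).1 ((hF x).1 hx).2).2
    have h2 : ¬ 0 < (D x).det := by
      intro h
      nlinarith
    simp [sgn, h2]

/-- Sard: regular values of a `C¹` map on an open set have full measure, so finitely many maps
have a common small regular value. -/
theorem exists_regular {ι : Type*} [Countable ι] {O : ι → Set E} (hO : ∀ i, IsOpen (O i))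
    {f : ι → E → E} (hf : ∀ i, ContDiffOn ℝ 1 (f i) (O i)) {V : Set E} (hV : IsOpen V)
    (hne : V.Nonempty) : ∃ y ∈ V, ∀ i, ∀ x ∈ O i, f i x = y → (fderiv ℝ (f i) x).det ≠ 0 := by
  borelize E
  have h0 : MeasureTheory.Measure.addHaar
      (⋃ i, f i '' {x | x ∈ O i ∧ (fderiv ℝ (f i) x).det = 0}) = 0 := by
    refine MeasureTheory.measure_iUnion_null fun i => ?_
    refine MeasureTheory.addHaar_image_eq_zero_of_det_fderivWithin_eq_zero _
      (f' := fderiv ℝ (f i)) (fun x hx => ?_) fun x hx => hx.2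
    exact (((hf i).contDiffAt ((hO i).mem_nhds hx.1)).differentiableAt
      one_ne_zero).hasFDerivAt.hasFDerivWithinAt
  by_contra hcon
  push Not at hcon
  refine (hV.measure_pos MeasureTheory.Measure.addHaar hne).ne'
    (MeasureTheory.measure_mono_null (fun y hy => ?_) h0)
  obtain ⟨i, x, h1, h2, h3⟩ := hcon y hy
  exact mem_iUnion.2 ⟨i, x, ⟨h1, h3⟩, h2⟩

end Pool.Agent.P.MP_788ef7_an
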