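import Pool.Agent.P.MP_788ef7_an.SB1

set_option autoImplicit false

open Set Filter Topology Metric

namespace Pool.Agent.P.MP_788ef7_an

namespace Setting

variable {𝔾 X E : Type*} [Group 𝔾] [MetricSpace X] [MulAction 𝔾 X] [ProperSpace X]
  [NormedAddCommGroup E] [NormedSpace ℝ E] [FiniteDimensional ℝ E] {S : Setting 𝔾 X E}
  {g g' G G' γ c w : 𝔾} {p p' q x y z : X} {C : Subgroup 𝔾} {K : Set X} {R : ℝ}
  {V U : Type*} [NormedAddCommGroup V] [NormedSpace ℝ V] [FiniteDimensional ℝ V]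
  [NormedAddCommGroup U] [NormedSpace ℝ U] [FiniteDimensional ℝ U]

set_option linter.unusedSectionVars false

theorem const_sign {Y α : Type*} [TopologicalSpace Y] [PreconnectedSpace Y] (F φ : Y → α → Prop)
    (hne : ∀ z, ∃ a, F z a) (hind : ∀ z a a', F z a → F z a' → (φ z a ↔ φ z a'))
    (hloc : ∀ z a, F z a → ∃ s : Y → α, ∀ᶠ z' in 𝓝 z, F z' (s z') ∧ (φ z' (s z') ↔ φ z a)) :
    ∃ P : Prop, ∀ z a, F z a → (φ z a ↔ P) := by
  choose f hf using hne
  have hl : IsLocallyConstant fun z => φ z (f z) := by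
    refine (IsLocallyConstant.iff_eventually_eq _).2 fun z => ?_
    obtain ⟨s, hs⟩ := hloc z _ (hf z)
    filter_upwards [hs] with z' h
    exact propext ((hind _ _ _ (hf z') h.1).trans h.2)
  refine ⟨∀ z, φ z (f z), fun z a ha => (hind _ _ _ ha (hf z)).trans ⟨fun h z' => ?_, fun h => h z⟩⟩
  exact (hl.apply_eq_of_preconnectedSpace z z').mp h

theorem frame_apply_sign {Q : E →L[ℝ] E} (hi : ∀ v, Q (Q v) = Q v) {A : U →L[ℝ] E}
    (h : IsFrame Q A) (v : U) : Q (A v) = A v := by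
  obtain ⟨w, hw⟩ : A v ∈ Set.range Q := h.2 ▸ mem_range_self v
  rw [← hw, hi]

theorem frame_comp_sign {Q : E →L[ℝ] E} (hi : ∀ v, Q (Q v) = Q v) {A : U →L[ℝ] E}
    (h : IsFrame Q A) : Q.comp A = A := ContinuousLinearMap.ext (frame_apply_sign hi h)

theorem det_ne_sign {M : E →L[ℝ] E} (h : ∀ v, M v = 0 → v = 0) : M.det ≠ 0 := by
  intro h0
  exact LinearMap.det_eq_zero_iff_ker_ne_bot.1 h0 (LinearMap.ker_eq_bot'.2 h)

theorem det_comp_sign (M N : E →L[ℝ] E) : (M.comp N).det = M.det * N.det :=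
  LinearMap.det_comp (M : E →ₗ[ℝ] E) (N : E →ₗ[ℝ] E)

theorem det_frames_sign (J : E ≃L[ℝ] U × V) (A : U →L[ℝ] E) (B : V →L[ℝ] E) (A' : U →L[ℝ] U)
    (B' : V →L[ℝ] V) : (((A.comp A').coprod (B.comp B')).comp (J : E →L[ℝ] U × V)).det =
      ((A.coprod B).comp (J : E →L[ℝ] U × V)).det * (A'.det * B'.det) := by
  have e : ((A.comp A').coprod (B.comp B')).comp (J : E →L[ℝ] U × V) =
      ((A.coprod B).comp (J : E →L[ℝ] U × V)).comp ((J.symm : U × V →L[ℝ] E).comp
        ((A'.prodMap B').comp (J : E →L[ℝ] U × V))) := by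
    ext v
    simp
  rw [e, det_comp_sign]
  congr 1
  have h := LinearMap.det_conj ((A' : U →ₗ[ℝ] U).prodMap (B' : V →ₗ[ℝ] V)) J.symm.toLinearEquiv
  rw [LinearMap.det_prodMap] at h
  exact h

theorem pos_mul_iff_sign {a b : ℝ} (ha : a ≠ 0) (hb : b ≠ 0) : 0 < a * b ↔ (0 < a ↔ 0 < b) := by
  rcases ha.lt_or_gt with ha | ha <;> rcases hb.lt_or_gt with hb | hb
  · simp [mul_pos_of_neg_of_neg ha hb, ha.not_gt, hb.not_gt]
  · simp [(mul_neg_of_neg_of_pos ha hb).not_gt, ha.not_gt, hb]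
  · simp [(mul_neg_of_pos_of_neg ha hb).not_gt, ha, hb.not_gt]
  · simp [mul_pos ha hb, ha, hb]

theorem loc_sign {Q : X → E →L[ℝ] E} {o : X → (U →L[ℝ] E) → Prop} (ho : Orient Q o)
    {f : X → X} {a : X → U →L[ℝ] E} (hf : Continuous f) (ha : Continuous a)
    (h : IsFrame (Q (f z)) (a z)) :
    ∀ᶠ z' in 𝓝 z, IsFrame (Q (f z')) (a z') → (o (f z') (a z') ↔ o (f z) (a z)) :=
  ((hf.prodMk ha).tendsto z).eventually (ho.loc _ _ h)

theorem ev_sign {f : X → ℝ} (hf : Continuous f) (h : f z ≠ 0) :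
    ∀ᶠ z' in 𝓝 z, (0 < f z' ↔ 0 < f z) := by
  rcases h.lt_or_gt with h0 | h0
  · exact ((hf.tendsto z).eventually_lt_const h0).mono fun z' hz' =>
      iff_of_false hz'.not_gt h0.not_gt
  · exact ((hf.tendsto z).eventually_const_lt h0).mono fun z' hz' => iff_of_true hz' h0

theorem iff1_sign (d a b p q : Prop) :
    (d ↔ (a ↔ b)) ↔ ((d ↔ (p ↔ q)) ↔ ((a ↔ p) ↔ (b ↔ q))) := by tauto

theorem iff2_sign {d a P f : Prop} (h1 : (d ↔ a) ↔ P) (h : ¬ P) (hf : ¬ f) : (f ↔ d) ↔ a := by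
  tauto

theorem iff3_sign (a b p : Prop) : (a ↔ b) ↔ ((a ↔ p) ↔ (b ↔ p)) := by tauto

theorem iff4_sign {x y a a' b m P : Prop} (h1 : x ↔ y) (h7 : (y ↔ (a ↔ b)) ↔ (a' ↔ (b ↔ m)))
    (h8 : (a' ↔ a) ↔ P) : x ↔ (P ↔ m) := by tauto

theorem rank_one_sub_sign (S : Setting 𝔾 X E) (x : X) :
    Module.finrank ℝ (LinearMap.range ((1 - S.Q x : E →L[ℝ] E) : E →ₗ[ℝ] E)) = S.s :=
  S.inv.rank_u x

theorem sign_orient {ou : X → (U →L[ℝ] E) → Prop} {os : X → (V →L[ℝ] E) → Prop}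
    (hu : Orient S.Q ou) (hs : Orient (fun x => 1 - S.Q x) os) (hU : Module.finrank ℝ U = S.u)
    (hV : Module.finrank ℝ V = S.s) (J : E ≃L[ℝ] U × V) : ∃ σ₀ : ℝ, σ₀ ≠ 0 ∧ ∀ z A B,
      IsFrame (S.Q z) A → IsFrame (1 - S.Q z) B →
        ((A.coprod B).comp (J : E →L[ℝ] U × V)).det ≠ 0 ∧
        (0 < σ₀ * ((A.coprod B).comp (J : E →L[ℝ] U × V)).det ↔ (ou z A ↔ os z B)) := by
  have := S.preconn
  have hi' : ∀ x v, (1 - S.Q x) ((1 - S.Q x) v) = (1 - S.Q x) v := S.inv.idem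
  have hne : ∀ z A B, IsFrame (S.Q z) A → IsFrame (1 - S.Q z) B →
      ((A.coprod B).comp (J : E →L[ℝ] U × V)).det ≠ 0 := by
    intro z A B hA hB
    refine det_ne_sign fun v hv => ?_
    have h0 : A (J v).1 + B (J v).2 = 0 := hv
    have h1 := frame_apply_sign (S.idem z) hA (J v).1
    have h2 : B (J v).2 - S.Q z (B (J v).2) = B (J v).2 := frame_apply_sign (hi' z) hB (J v).2
    have h3 := congrArg (S.Q z) h0
    rw [map_add, h1, sub_eq_self.1 h2, add_zero, map_zero] at h3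
    rw [h3, zero_add] at h0
    have h4 : (J v).1 = 0 := hA.1 (h3.trans (map_zero A).symm)
    have h5 : (J v).2 = 0 := hB.1 (h0.trans (map_zero B).symm)
    exact J.injective ((Prod.ext h4 h5).trans (map_zero J).symm)
  obtain ⟨P, hP⟩ := const_sign (α := (U →L[ℝ] E) × (V →L[ℝ] E))
    (fun z a => IsFrame (S.Q z) a.1 ∧ IsFrame (1 - S.Q z) a.2)
    (fun z a => 0 < ((a.1.coprod a.2).comp (J : E →L[ℝ] U × V)).det ↔ (ou z a.1 ↔ os z a.2))
    (fun z => by
      obtain ⟨A, hA⟩ := exists_frame (U := U) ((S.rank_u z).trans hU.symm)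
      obtain ⟨B, hB⟩ := exists_frame (U := V) ((S.rank_one_sub_sign z).trans hV.symm)
      exact ⟨(A, B), hA, hB⟩)
    (fun z a a' h h' => by
      obtain ⟨A', h1, e1⟩ := h.1.exists_comp h'.1
      obtain ⟨B', h2, e2⟩ := h.2.exists_comp h'.2
      rw [e1, e2, det_frames_sign, pos_mul_iff_sign (hne z _ _ h.1 h.2) (mul_ne_zero h1 h2),
        pos_mul_iff_sign h1 h2, hu.comp z _ _ h.1 h1, hs.comp z _ _ h.2 h2]
      exact iff1_sign _ _ _ _ _)
    (fun z a h => by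
      have c1 : Continuous fun z' => (S.Q z').comp a.1 := S.contQ.clm_comp continuous_const
      have c2 : Continuous fun z' => (1 - S.Q z').comp a.2 :=
        S.inv.contQ.clm_comp continuous_const
      have e1 := frame_comp_sign (S.idem z) h.1
      have e2 := frame_comp_sign (hi' z) h.2
      have c3 : Continuous fun z' => ((((S.Q z').comp a.1).coprod
          ((1 - S.Q z').comp a.2)).comp (J : E →L[ℝ] U × V)).det := by
        refine ContinuousLinearMap.continuous_det.comp (Continuous.clm_comp ?_ continuous_const)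
        simp only [← ContinuousLinearMap.comp_fst_add_comp_snd]
        exact (c1.clm_comp continuous_const).add (c2.clm_comp continuous_const)
      have h3 := ev_sign c3 (z := z) (by simpa only [e1, e2] using hne z _ _ h.1 h.2)
      refine ⟨fun z' => ((S.Q z').comp a.1, (1 - S.Q z').comp a.2), ?_⟩
      filter_upwards [h.1.eventually S.contQ S.idem,
        IsFrame.eventually (Q := fun x => 1 - S.Q x) S.inv.contQ hi' h.2, h3,
        loc_sign hu continuous_id c1 (z := z) (by simpa only [e1, id] using h.1),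
        loc_sign hs continuous_id c2 (z := z) (by simpa only [e2, id] using h.2)]
        with z' f1 f2 f3 f4 f5
      have g4 := f4 f1
      have g5 := f5 f2
      simp only [id, e1, e2] at f3 g4 g5
      exact ⟨⟨f1, f2⟩, by rw [f3, g4, g5]⟩)
  by_cases h : P
  · refine ⟨1, one_ne_zero, fun z A B hA hB => ⟨hne z A B hA hB, ?_⟩⟩
    rw [one_mul]
    exact (hP z (A, B) ⟨hA, hB⟩).2 h
  · refine ⟨-1, by norm_num, fun z A B hA hB => ⟨hne z A B hA hB, ?_⟩⟩
    have h1 := hP z (A, B) ⟨hA, hB⟩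
    rw [pos_mul_iff_sign (by norm_num) (hne z A B hA hB)]
    exact iff2_sign h1 h (by norm_num)

/-- All intersections of a connected unstable family with a connected stable family have the same
sign. -/
theorem sign_pair (hU : Module.finrank ℝ U = S.u) (hV : Module.finrank ℝ V = S.s)
    (J : E ≃L[ℝ] U × V) {α β : Type*} [TopologicalSpace α] [TopologicalSpace β] {T₁ : Set α}
    {T₂ : Set β} (h₁ : IsPreconnected T₁) (h₂ : IsPreconnected T₂) {z₁ : α → X} {z₂ : β → X}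
    {A : α → U →L[ℝ] E} {B : β → V →L[ℝ] E} (c₁ : ContinuousOn z₁ T₁) (c₂ : ContinuousOn z₂ T₂)
    (cA : ContinuousOn A T₁) (cB : ContinuousOn B T₂) (fA : ∀ a ∈ T₁, IsFrame (S.Q (z₁ a)) (A a))
    (fB : ∀ b ∈ T₂, IsFrame (1 - S.Q (z₂ b)) (B b)) : ∃ σ₀ : ℝ, ∀ a ∈ T₁, ∀ b ∈ T₂, z₁ a = z₂ b →
      0 < σ₀ * (((A a).coprod (B b)).comp (J : E →L[ℝ] U × V)).det := by
  obtain ⟨ou, hu⟩ := exists_orient (U := U) S.emb S.star S.contQ S.idem
    fun x => (S.rank_u x).trans hU.symm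
  obtain ⟨os, hs⟩ := exists_orient (U := V) (Q := fun x => 1 - S.Q x) S.emb S.star S.inv.contQ
    S.inv.idem fun x => (S.rank_one_sub_sign x).trans hV.symm
  obtain ⟨σ, hσ, H⟩ := sign_orient hu hs hU hV J
  by_cases h : ∃ a ∈ T₁, ∃ b ∈ T₂, (ou (z₁ a) (A a) ↔ os (z₂ b) (B b))
  · obtain ⟨a₀, ha₀, b₀, hb₀, h⟩ := h
    refine ⟨σ, fun a ha b hb e => (H (z₁ a) _ _ (fA a ha) (e ▸ fB b hb)).2.2 ?_⟩
    rw [hu.const h₁ c₁ cA fA ha ha₀, h, e]
    exact hs.const h₂ c₂ cB fB hb₀ hb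
  · refine ⟨-σ, fun a ha b hb e => ?_⟩
    obtain ⟨h1, h2⟩ := H (z₁ a) _ _ (fA a ha) (e ▸ fB b hb)
    have h3 : ¬ 0 < σ * (((A a).coprod (B b)).comp (J : E →L[ℝ] U × V)).det :=
      fun h3 => h ⟨a, ha, b, hb, e ▸ h2.1 h3⟩
    rw [neg_mul, neg_pos]
    exact lt_of_le_of_ne (not_lt.1 h3) (mul_ne_zero hσ h1)

/-- The sign of `det (D - 1)` for a hyperbolic map. -/
theorem det_sub_one {D Q : E →L[ℝ] E} (hi : ∀ v, Q (Q v) = Q v) (hc : ∀ v, Q (D v) = D (Q v))
    (hs : ∀ v, Q v = 0 → Tendsto (fun n : ℕ => (D ^ n) v) atTop (𝓝 0))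
    (hu : ∃ n : ℕ, 1 ≤ n ∧ ∀ v, Q v = v → 2 * ‖v‖ ≤ ‖(D ^ n) v‖) :
    0 < (D - 1).det * (D * Q - (1 - Q)).det := by
  obtain ⟨n, hn, hu⟩ := hu
  let M : ℝ → E →L[ℝ] E := fun c => D * Q + c • (D * (1 - Q) - Q) - (1 - Q)
  have hM : ∀ c ∈ Icc (0 : ℝ) 1, (M c).det ≠ 0 := by
    intro c hc01
    refine det_ne_sign fun v hv => ?_
    have h0 : D (Q v) + c • (D (v - Q v) - Q v) - (v - Q v) = 0 := hv
    have h1 := congrArg Q h0
    simp only [map_sub, map_add, map_smul, hc, hi, sub_self, map_zero, zero_sub, sub_zero] at h1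
    have h2 : D (Q v) = c • Q v := by
      rw [← sub_eq_zero, ← h1]; module
    have h3 : ∀ m : ℕ, (D ^ m) (Q v) = c ^ m • Q v := fun m => by
      induction m with
      | zero => simp
      | succ m ih => rw [pow_succ, mul_apply_eq_comp, h2, map_smul, ih, smul_smul, pow_succ']
    have h4 : Q v = 0 := by
      have := hu (Q v) (hi v)
      rw [h3, norm_smul, Real.norm_of_nonneg (pow_nonneg hc01.1 _)] at this
      have h5 := pow_le_one₀ (n := n) hc01.1 hc01.2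
      rw [← norm_le_zero_iff]
      nlinarith [norm_nonneg (Q v)]
    rw [h4] at h0
    have h5 : c • D v = v := by
      rw [← sub_eq_zero, ← h0]; simp
    have h6 : ∀ m : ℕ, c ^ m • (D ^ m) v = v := fun m => by
      induction m with
      | zero => simp
      | succ m ih => rw [pow_succ D, mul_apply_eq_comp, pow_succ, mul_smul, ← map_smul, h5, ih]
    have h7 : ∀ m : ℕ, ‖v‖ ≤ ‖(D ^ m) v‖ := fun m => by
      conv_lhs => rw [← h6 m]
      rw [norm_smul, Real.norm_of_nonneg (pow_nonneg hc01.1 _)]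
      exact mul_le_of_le_one_left (norm_nonneg _) (pow_le_one₀ hc01.1 hc01.2)
    have h8 := ge_of_tendsto' (hs v h4).norm h7
    simpa using h8
  have hcont : Continuous fun c => (M c).det :=
    ContinuousLinearMap.continuous_det.comp (by fun_prop)
  have e1 : M 1 = D - 1 := by simp only [M, one_smul, mul_sub, mul_one]; abel
  have e0 : M 0 = D * Q - (1 - Q) := by simp only [M, zero_smul, add_zero]
  rw [← e1, ← e0]
  by_contra hno
  have h0 : (0 : ℝ) ∈ uIcc (M 0).det (M 1).det := by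
    rw [mem_uIcc]
    rcases mul_nonpos_iff.1 (not_lt.1 hno) with h | h
    · exact Or.inl ⟨h.2, h.1⟩
    · exact Or.inr ⟨h.1, h.2⟩
  obtain ⟨c, hc01, h⟩ := intermediate_value_uIcc hcont.continuousOn h0
  rw [uIcc_of_le zero_le_one] at hc01
  exact hM c hc01 h

theorem D_pow_sign (S : Setting 𝔾 X E) (hp : G • p = p) (n : ℕ) :
    G ^ n • p = p ∧ S.D (G ^ n) p = S.D G p ^ n := by
  induction n with
  | zero => exact ⟨by simp, by rw [pow_zero, pow_zero, S.D_one]; rfl⟩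
  | succ n ih =>
    refine ⟨by rw [pow_succ, mul_smul, hp, ih.1], ?_⟩
    rw [pow_succ, S.D_mul, hp, ih.2, pow_succ]
    rfl

theorem hyp_sign (S : Setting 𝔾 X E) (hG : 0 < S.ht G) (hp : G • p = p) :
    0 < (S.D G p - 1).det * (S.D G p * S.Q p - (1 - S.Q p)).det := by
  obtain ⟨C, hC⟩ := S.rate {p} isCompact_singleton
  obtain ⟨k, hk⟩ := Int.eq_ofNat_of_zero_le hG.le
  have hk1 : 1 ≤ k := by omega
  have hq : ∀ v, S.Q p (S.D G p v) = S.D G p (S.Q p v) := fun v => by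
    simpa only [hp] using S.Q_D G p v
  have ht : Tendsto (fun n : ℕ => C * S.lam ^ (n * k)) atTop (𝓝 0) := by
    have := ((tendsto_pow_atTop_nhds_zero_of_lt_one S.lam_pos.le S.lam_lt).comp
      (tendsto_atTop_mono (fun m => Nat.le_mul_of_pos_right m hk1) tendsto_id)).const_mul C
    simpa using this
  refine det_sub_one (S.idem p) hq (fun v hv => ?_) ?_
  · refine squeeze_zero_norm (fun n => ?_) (by simpa using ht.mul_const ‖v‖)
    rw [← (S.D_pow_sign hp n).2]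
    exact hC (G ^ n) (n * k) p rfl (S.D_pow_sign hp n).1 v
      (Or.inl ⟨by rw [S.ht_pow, hk]; push_cast; ring, hv⟩)
  · obtain ⟨n, hn, hn1⟩ := ((ht.eventually (gt_mem_nhds (show (0 : ℝ) < 1 / 2 by norm_num))).and
      (eventually_ge_atTop 1)).exists
    refine ⟨n, hn1, fun v hv => ?_⟩
    obtain ⟨h1, h2⟩ := S.D_pow_sign hp n
    have h3 := S.D_inv_apply (G ^ n) p v
    have h4 := S.Q_D (G ^ n) p v
    rw [h1] at h3 h4
    rw [hv] at h4
    have h5 := hC (G ^ n)⁻¹ (n * k) p rfl (inv_smul_eq_iff.2 h1.symm) _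
      (Or.inr ⟨by rw [S.ht_inv, S.ht_pow, hk]; push_cast; ring, h4⟩)
    have h6 : ‖v‖ ≤ C * S.lam ^ (n * k) * ‖S.D (G ^ n) p v‖ := (congrArg norm h3).symm.trans_le h5
    rw [← h2]
    nlinarith [norm_nonneg (S.D (G ^ n) p v)]

theorem fix_aux_sign (S : Setting 𝔾 X E) (hG : 0 < S.ht G) (hU : Module.finrank ℝ U = S.u)
    (hV : Module.finrank ℝ V = S.s) (J : E ≃L[ℝ] U × V) : ∃ σ₀ : ℤ, ∀ p, G • p = p →
    (S.D G p - 1).det ≠ 0 ∧ sgn (S.D G p - 1) = σ₀ := by
  have := S.preconn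
  obtain ⟨ou, hu⟩ := exists_orient (U := U) S.emb S.star S.contQ S.idem
    fun x => (S.rank_u x).trans hU.symm
  obtain ⟨os, hs⟩ := exists_orient (U := V) (Q := fun x => 1 - S.Q x) S.emb S.star
    S.inv.contQ S.inv.idem fun x => (S.rank_one_sub_sign x).trans hV.symm
  obtain ⟨σ, hσ, H⟩ := sign_orient hu hs hU hV J
  obtain ⟨P, hP⟩ := const_sign (α := U →L[ℝ] E) (fun z a => IsFrame (S.Q z) a)
    (fun z a => ou (G • z) ((S.D G z).comp a) ↔ ou z a)
    (fun z => exists_frame ((S.rank_u z).trans hU.symm))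
    (fun z a a' h h' => by
      obtain ⟨A', h1, e1⟩ := h.exists_comp h'
      rw [e1, ← ContinuousLinearMap.comp_assoc, hu.comp z _ _ h h1,
        hu.comp _ _ _ (isFrame_D G h) h1]
      exact iff3_sign _ _ _)
    (fun z a h => by
      have c1 : Continuous fun z' => (S.Q z').comp a := S.contQ.clm_comp continuous_const
      have e1 := frame_comp_sign (S.idem z) h
      refine ⟨fun z' => (S.Q z').comp a, ?_⟩
      filter_upwards [h.eventually S.contQ S.idem,
        loc_sign hu continuous_id c1 (z := z) (by simpa only [e1, id] using h),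
        loc_sign hu (S.cont_smul G) ((S.continuous_D G).clm_comp c1) (z := z)
          (by simpa only [e1] using isFrame_D G h)] with z' f1 f2 f3
      have g2 := f2 f1
      have g3 := f3 (isFrame_D G f1)
      simp only [id, e1] at g2 g3
      exact ⟨f1, by rw [g2, g3]⟩)
  have hm : (-1 : V →L[ℝ] V).det ≠ 0 :=
    det_ne_sign fun v hv => neg_eq_zero.1 hv
  classical
  refine ⟨if (P ↔ 0 < (-1 : V →L[ℝ] V).det) then 1 else -1,
    fun p hp => ?_⟩
  have h1 := S.hyp_sign hG hp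
  have h2 := left_ne_zero_of_mul h1.ne'
  have h3 := right_ne_zero_of_mul h1.ne'
  refine ⟨h2, ?_⟩
  obtain ⟨A, hA⟩ := exists_frame (U := U) ((S.rank_u p).trans hU.symm)
  obtain ⟨B, hB⟩ := exists_frame (U := V) ((S.rank_one_sub_sign p).trans hV.symm)
  have hA' : IsFrame (S.Q p) ((S.D G p).comp A) := by simpa only [hp] using isFrame_D G hA
  have hB' : IsFrame (1 - S.Q p) (B.comp (-1 : V →L[ℝ] V)) := by
    refine ⟨hB.1.comp neg_injective, Eq.trans ?_ hB.2⟩
    exact neg_surjective.range_comp B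
  obtain ⟨h4, h5⟩ := H p A B hA hB
  obtain ⟨h6, h7⟩ := H p _ _ hA' hB'
  have e : (((S.D G p).comp A).coprod (B.comp (-1 : V →L[ℝ] V))).comp
      (J : E →L[ℝ] _) =
      (S.D G p * S.Q p - (1 - S.Q p)).comp ((A.coprod B).comp (J : E →L[ℝ] _)) := by
    ext v
    have a1 := frame_apply_sign (S.idem p) hA (J v).1
    have a2 : B (J v).2 - S.Q p (B (J v).2) = B (J v).2 :=
      frame_apply_sign (S.inv.idem p) hB (J v).2
    show S.D G p (A (J v).1) + B (-(J v).2) = S.D G p (S.Q p (A (J v).1 + B (J v).2)) -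
      (A (J v).1 + B (J v).2 - S.Q p (A (J v).1 + B (J v).2))
    rw [map_add (S.Q p), a1, sub_eq_self.1 a2, map_neg]
    simp [sub_eq_add_neg]
  have h8 := hP p A hA
  rw [hp] at h8
  rw [e, det_comp_sign, mul_left_comm, pos_mul_iff_sign h3 (mul_ne_zero hσ h4), h5,
    hs.comp p B _ hB hm] at h7
  rw [pos_mul_iff_sign h2 h3] at h1
  unfold sgn
  exact if_congr (iff4_sign h1 h7 h8) rfl rfl

/-- All fixed points of `G` have the same index. -/
theorem sign_fix (S : Setting 𝔾 X E) (hG : 0 < S.ht G) : ∃ σ₀ : ℤ, ∀ p, G • p = p →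
    (S.D G p - 1).det ≠ 0 ∧ sgn (S.D G p - 1) = σ₀ := by
  have hU : Module.finrank ℝ (Fin S.u → ℝ) = S.u := by simp
  have hV : Module.finrank ℝ (Fin S.s → ℝ) = S.s := by simp
  exact S.fix_aux_sign hG hU hV
    (ContinuousLinearEquiv.ofFinrankEq (by rw [Module.finrank_prod, hU, hV, S.u_add_s]))

end Setting

end Pool.Agent.P.MP_788ef7_an
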