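import Pool.Agent.P.MP_788ef7_an.DL1
import Pool.Agent.P.MP_788ef7_an.Sign
import Pool.Agent.P.MP_788ef7_an.Deg

set_option autoImplicit false

open Set Filter Topology Metric

namespace Pool.Agent.P.MP_788ef7_an

namespace Setting

variable {𝔾 X E : Type*} [Group 𝔾] [MetricSpace X] [MulAction 𝔾 X] [ProperSpace X]
  [NormedAddCommGroup E] [NormedSpace ℝ E] [FiniteDimensional ℝ E] {S : Setting 𝔾 X E}
  {g g' G G' γ c w : 𝔾} {p p' q x y z : X} {C : Subgroup 𝔾} {K : Set X} {R : ℝ}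
  {V U : Type*} [NormedAddCommGroup V] [NormedSpace ℝ V] [FiniteDimensional ℝ V]
  [NormedAddCommGroup U] [NormedSpace ℝ U] [FiniteDimensional ℝ U]

/-- The deformation lemma. -/
theorem dl {C' : Subgroup 𝔾} (h : S.FinPer C G) (h' : S.FinPer C' G') (hG : 0 < S.ht G)
    (hG' : 0 < S.ht G') (hp : G • p = p) (hp' : G' • p' = p') (hU : Module.finrank ℝ U = S.u)
    (hK : IsCompact K) (hz : z ∈ S.Wu p) (hz' : z ∈ S.Ws p') :
    ∃ σ : U → X, ContinuousOn σ (closedBall 0 1) ∧ (∀ v ∈ closedBall (0 : U) 1, σ v ∈ S.Wu p) ∧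
      (∀ v ∈ sphere (0 : U) 1, σ v ∉ Stay G⁻¹ (Tr C K)) ∧
      ∀ (H : ℝ → U → X) (K' : Set X), IsCompact K' →
        ContinuousOn (fun q : ℝ × U => H q.1 q.2) (Icc 0 1 ×ˢ closedBall 0 1) →
        (∀ v ∈ closedBall (0 : U) 1, H 0 v = σ v) →
        (∀ s ∈ Icc (0 : ℝ) 1, ∀ v ∈ closedBall (0 : U) 1, H s v ∈ S.Ws p' →
          H s v ∈ Stay G' (Tr C' K')) →
        (∀ s ∈ Icc (0 : ℝ) 1, ∀ v ∈ sphere (0 : U) 1, H s v ∉ S.Ws p') →
        ∃ v ∈ closedBall (0 : U) 1, H 1 v ∈ S.Ws p' := by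
  obtain ⟨σ, σ', c1, w1, ⟨v₀, hv₀, e1⟩, b1, d1, c1', f1⟩ := FinPer.disc (S := S.inv) (V := U) h.inv
    (show 0 < -S.ht G⁻¹ by rw [S.ht_inv, neg_neg]; exact hG) (inv_smul_eq_iff.2 hp.symm) hU hK hz
  refine ⟨σ, c1, w1, b1, fun H K' hK' hH h0 hst hsp => ?_⟩
  obtain ⟨τ, τ', c2, w2, ⟨w₀, hw₀, e2⟩, b2, d2, c2', f2⟩ :=
    h'.disc (V := EuclideanSpace ℝ (Fin S.s)) hG' hp' finrank_euclideanSpace_fin hK' hz'
  let J : E ≃L[ℝ] U × EuclideanSpace ℝ (Fin S.s) := ContinuousLinearEquiv.ofFinrankEq (by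
    rw [Module.finrank_prod, hU, finrank_euclideanSpace_fin, S.u_add_s])
  obtain ⟨σ₀, hσ₀⟩ := sign_pair (S := S) hU finrank_euclideanSpace_fin J
    (convex_ball (0 : U) 1).isPreconnected
    (convex_ball (0 : EuclideanSpace ℝ (Fin S.s)) 1).isPreconnected
    (c1.mono ball_subset_closedBall) (c2.mono ball_subset_closedBall) c1' c2'.neg
    (fun a ha => by
      have := f1 a ha
      rwa [show 1 - S.inv.Q (σ a) = S.Q (σ a) from sub_sub_cancel _ _] at this)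
    (fun a ha => ⟨fun x y hxy => (f2 a ha).1 (neg_injective hxy), by
      rw [← (f2 a ha).2]
      ext y
      exact ⟨fun ⟨x, hx⟩ => ⟨-x, by rw [map_neg]; exact hx⟩,
        fun ⟨x, hx⟩ => ⟨-x, by rw [map_neg]; exact (neg_neg _).trans hx⟩⟩⟩)
  have hop : IsOpen (J ⁻¹' (ball 0 1 ×ˢ ball 0 1)) :=
    (isOpen_ball.prod isOpen_ball).preimage J.continuous
  have hcl : closure (J ⁻¹' (ball 0 1 ×ˢ ball 0 1)) ⊆ J ⁻¹' (closedBall 0 1 ×ˢ closedBall 0 1) :=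
    closure_minimal (preimage_mono (prod_mono ball_subset_closedBall ball_subset_closedBall))
      ((isClosed_closedBall.prod isClosed_closedBall).preimage J.continuous)
  obtain ⟨x, hx, hx0⟩ := exists_zero (H := fun s x => S.e (H s (J x).1) - S.e (τ (J x).2))
    (σ := σ₀) hop (J.antilipschitz.isBounded_preimage (isBounded_ball.prod isBounded_ball))
    ((S.emb.continuous.comp_continuousOn (hH.comp (f := fun q : ℝ × E => (q.1, (J q.2).1))
      (by fun_prop) fun q hq => ⟨hq.1, (hcl hq.2).1⟩)).sub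
      (S.emb.continuous.comp_continuousOn (c2.comp (f := fun q : ℝ × E => (J q.2).2)
        (by fun_prop) fun q hq => (hcl hq.2).2)))
    (fun s hs x hx hx0 => by
      rw [hop.frontier_eq] at hx
      obtain ⟨h1, h2⟩ := hcl hx.1
      have e : H s (J x).1 = τ (J x).2 := S.emb.injective (sub_eq_zero.1 hx0)
      have h3 : H s (J x).1 ∈ S.Ws p' := e ▸ w2 _ h2
      by_cases h4 : (J x).1 ∈ ball (0 : U) 1
      · refine b2 _ (le_antisymm h2 (not_lt.1 fun h5 => hx.2 ⟨h4, h5⟩)) ?_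
        exact e ▸ hst s hs _ h1 h3
      · exact hsp s hs _ (le_antisymm h1 (not_lt.1 h4)) h3)
    (fun x hx hx0 => by
      have e : σ (J x).1 = τ (J x).2 := by
        rw [← h0 _ (ball_subset_closedBall hx.1)]
        exact S.emb.injective (sub_eq_zero.1 hx0)
      refine ⟨_, ?_, hσ₀ _ hx.1 _ hx.2 e⟩
      have h1 := ((d1 _ hx.1).comp x (J.hasFDerivAt (x := x)).fst).sub
        ((d2 _ hx.2).comp x (J.hasFDerivAt (x := x)).snd)
      refine (h1.congr_fderiv ?_).congr_of_eventuallyEq ?_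
      · ext v
        simp [sub_eq_add_neg]
      · filter_upwards [hop.mem_nhds hx] with y hy
        rw [h0 _ (ball_subset_closedBall hy.1)]
        rfl)
    ⟨J.symm (v₀, w₀), by
      rw [mem_preimage, J.apply_symm_apply]
      exact ⟨hv₀, hw₀⟩, by
      rw [J.apply_symm_apply, h0 _ (ball_subset_closedBall hv₀), e1, e2, sub_self]⟩
  refine ⟨_, ball_subset_closedBall hx.1, ?_⟩
  rw [S.emb.injective (sub_eq_zero.1 hx0)]
  exact w2 _ (ball_subset_closedBall hx.2)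

/-- Pushing an unstable disc along a flow. -/
theorem dl_flow {C' : Subgroup 𝔾} (h : S.FinPer C G) (h' : S.FinPer C' G') (hG : 0 < S.ht G)
    (hG' : 0 < S.ht G') (hp : G • p = p) (hp' : G' • p' = p') (hU : Module.finrank ℝ U = S.u)
    (hK : IsCompact K) (hz : z ∈ S.Wu p) (hz' : z ∈ S.Ws p') :
    ∃ σ : U → X, ContinuousOn σ (closedBall 0 1) ∧ (∀ v ∈ closedBall (0 : U) 1, σ v ∈ S.Wu p) ∧
      (∀ v ∈ sphere (0 : U) 1, σ v ∉ Stay G⁻¹ (Tr C K)) ∧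
      ∀ (κ : X → ℝ) (ψ : ℝ → X → X) (B : Set X) (M : ℝ), Continuous κ →
        Continuous (fun q : ℝ × X => ψ q.1 q.2) → (∀ z, ψ 0 z = z) →
        (∀ s z, κ (ψ s z) = κ z + s) → (∀ s, ∀ z ∈ S.Wu p, ψ s z ∈ B) →
        (∀ z ∈ S.Ws p', z ∈ B → κ z ≤ M) →
        (∀ T, IsCompact T → ∃ K', IsCompact K' ∧ ∀ z ∈ S.Ws p' ∩ T, z ∈ B →
          z ∈ Stay G' (Tr C' K')) →
        ∃ v ∈ sphere (0 : U) 1, ∃ s, 0 ≤ s ∧ ψ s (σ v) ∈ S.Ws p' := by
  obtain ⟨σ, c1, w1, b1, key⟩ := dl h h' hG hG' hp hp' hU hK hz hz'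
  refine ⟨σ, c1, w1, b1, fun κ ψ B M hκ hψ h0 hk hB hM hT => ?_⟩
  by_contra hcon
  push Not at hcon
  obtain ⟨m, hm⟩ := (isCompact_closedBall (0 : U) 1).exists_bound_of_continuousOn
    (hκ.comp_continuousOn c1)
  have hL : 0 ≤ |M| + |m| + 1 := by positivity
  have hc : ContinuousOn (fun q : ℝ × U => ψ (q.1 * (|M| + |m| + 1)) (σ q.2))
      (Icc 0 1 ×ˢ closedBall 0 1) :=
    hψ.comp_continuousOn (f := fun q : ℝ × U => (q.1 * (|M| + |m| + 1), σ q.2))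
      (ContinuousOn.prodMk (by fun_prop) (c1.comp continuousOn_snd fun q hq => hq.2))
  obtain ⟨K', hK', hK''⟩ :=
    hT _ ((isCompact_Icc.prod (isCompact_closedBall _ _)).image_of_continuousOn hc)
  obtain ⟨v, hv, h1⟩ := key (fun s v => ψ (s * (|M| + |m| + 1)) (σ v)) K' hK' hc
    (fun v _ => by rw [zero_mul, h0])
    (fun s hs v hv h1 => hK'' _ ⟨h1, (s, v), ⟨hs, hv⟩, rfl⟩ (hB _ _ (w1 v hv)))
    fun s hs v hv => hcon v hv _ (mul_nonneg hs.1 hL)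
  have h2 := hM _ h1 (hB _ _ (w1 v hv))
  have h3 : -m ≤ κ (σ v) := (abs_le.1 (hm v hv)).1
  rw [hk] at h2
  linarith [le_abs_self M, le_abs_self m]

theorem e3 (h : S.FinPer C G) (hG : 0 < S.ht G) (hp : G • p = p) (hu : 2 ≤ S.u) {κ : X → ℝ}
    {ψ : ℝ → X → X} {B : Set X} (hκ : Continuous κ) (hψ : Continuous fun q : ℝ × X => ψ q.1 q.2)
    (h0 : ∀ z, ψ 0 z = z) (hk : ∀ s z, κ (ψ s z) = κ z + s) (hB : ∀ s, ∀ z ∈ S.Wu p, ψ s z ∈ B)
    (h1 : ∃ M, ∀ z ∈ S.Ws p, z ∈ B → |κ z| ≤ M)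
    (h2 : ∀ M, ∃ K, IsCompact K ∧ ∀ z ∈ S.Wu p, |κ z| ≤ M → z ∈ Stay G⁻¹ (Tr C K))
    (h3 : ∀ T, IsCompact T → ∃ K, IsCompact K ∧ ∀ z ∈ S.Ws p ∩ T, z ∈ B → z ∈ Stay G (Tr C K)) :
    False := by
  obtain ⟨M, hM⟩ := h1
  obtain ⟨K, hK, hK'⟩ := h2 M
  have hpu : p ∈ S.Wu p := S.inv.ws_refl p
  obtain ⟨σ, c1, w1, b1, key⟩ := dl_flow (U := EuclideanSpace ℝ (Fin S.u)) h h hG hG hp hp
    finrank_euclideanSpace_fin hK hpu (S.ws_refl p)
  have hM0 : 0 ≤ M := (abs_nonneg _).trans (hM p (S.ws_refl p) (h0 p ▸ hB 0 p hpu))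
  have hbig : ∀ v ∈ sphere (0 : EuclideanSpace ℝ (Fin S.u)) 1, M < |κ (σ v)| := fun v hv =>
    not_le.1 fun h4 => b1 v hv (hK' _ (w1 v (sphere_subset_closedBall hv)) h4)
  have hpre : IsPreconnected (sphere (0 : EuclideanSpace ℝ (Fin S.u)) 1) := by
    refine isPreconnected_sphere ?_ _ _
    rw [← Module.finrank_eq_rank, finrank_euclideanSpace_fin]
    exact_mod_cast hu
  obtain ⟨v, hv, s, hs, h4⟩ := key κ ψ B M hκ hψ h0 hk hB
    (fun z hz hz' => (le_abs_self _).trans (hM z hz hz')) h3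
  obtain ⟨v', hv', s', hs', h5⟩ := key (fun z => -κ z) (fun s z => ψ (-s) z) B M hκ.neg
    (hψ.comp (f := fun q : ℝ × X => (-q.1, q.2)) (by fun_prop)) (fun z => by rw [neg_zero, h0])
    (fun s z => by rw [hk]; ring) (fun s => hB (-s))
    (fun z hz hz' => (neg_le_abs _).trans (hM z hz hz')) h3
  have h6 := abs_le.1 (hM _ h4 (hB _ _ (w1 v (sphere_subset_closedBall hv))))
  have h7 := abs_le.1 (hM _ h5 (hB _ _ (w1 v' (sphere_subset_closedBall hv'))))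
  rw [hk] at h6 h7
  have h8 : κ (σ v) ≤ 0 := by
    rcases lt_abs.1 (hbig v hv) with h9 | h9 <;> linarith
  have h9 : 0 ≤ κ (σ v') := by
    rcases lt_abs.1 (hbig v' hv') with h9 | h9 <;> linarith
  obtain ⟨w, hw, h10⟩ := hpre.intermediate_value hv hv'
    (hκ.comp_continuousOn (c1.mono sphere_subset_closedBall)) ⟨h8, h9⟩
  have h11 := hbig w hw
  rw [show κ (σ w) = 0 from h10, abs_zero] at h11
  linarith

end Setting

end Pool.Agent.P.MP_788ef7_an
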