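import Pool.Agent.P.MP_788ef7_an.FreeGap

set_option autoImplicit false

open Set Filter Topology Metric

namespace Pool.Agent.P.MP_788ef7_an

namespace Fuchs

variable {𝔊 : Type*} [Group 𝔊] [MulAction 𝔊 Circle] {Φ : Fuchs 𝔊} {g g' γ δ u u' G g₀ : 𝔊}
  {H : Subgroup 𝔊} {ξ η ζ a b c d p q a₁ a₂ r₁ r₂ a₁' a₂' r₁' r₂' : Circle} {k : ℕ} {T : Set 𝔊}

theorem core_bot (hg : Stable g) (h0 : 0 < Φ.ht g) (hc : Φ.Cen g = ⊥) : Φ.Core ⊥ g where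
  le h hh := by rw [Subgroup.mem_bot.1 hh, Φ.ht_one]
  pos := h0
  op := hg.1
  norm h := by simp
  star ζ _ := by
    obtain ⟨a, -, ha⟩ := hg.conv Φ.cont ζ
    have h1 : a ∉ Φ.Lim ⊥ := by
      rw [Φ.lim_bot]
      exact notMem_empty _
    refine ⟨1, one_mem _, a, h1, ?_⟩
    rw [one_mul]
    exact att_limit hg (by rwa [hc]) ha
  fin := by
    refine ⟨{g}, finite_singleton g, ?_, fun h hh j hj _ _ => ?_⟩
    · rintro E rfl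
      exact ⟨h0, hg, hc.le⟩
    · refine ⟨g, rfl, 1, one_mem _, 1, j, le_rfl, hj, ?_⟩
      rw [Subgroup.mem_bot.1 hh]
      simp
  uni θ _ γ hγ := by
    rw [Subgroup.mem_bot.1 hγ]
    simp

theorem Regular.core (h : Φ.Regular g) (h0 : 0 < Φ.ht g) : Φ.Core ⊥ g := by
  obtain ⟨a₁, a₂, r₁, r₂, h⟩ := h
  exact core_bot h.stable h0 h.cen

theorem NR.pos_cores (h : Φ.NR k g) (hk : 1 ≤ k) : 0 < Φ.ht g := by
  rw [h.1]
  exact_mod_cast hk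

theorem IsStab.pos_cores (hH : Φ.IsStab k g₀ H) (h₀ : Φ.NR k g₀) (hk : 1 ≤ k) (hu : u ∈ H) {j : ℕ}
    (hj : 1 ≤ j) : 0 < Φ.ht (u * g₀ ^ j) := by
  rw [Φ.ht_mul, ((hH u).1 hu).1, Φ.ht_pow, zero_add]
  exact mul_pos (by exact_mod_cast hj) (h₀.pos_cores hk)

theorem IsStab.norm_pow_cores (hH : Φ.IsStab k g₀ H) (j : ℕ) (hγ : γ ∈ H) :
    g₀ ^ j * γ * (g₀ ^ j)⁻¹ ∈ H := by
  induction j with
  | zero => simpa using hγ
  | succ j ih =>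
    have := (hH.norm _).1 ih
    rwa [show g₀ * (g₀ ^ j * γ * (g₀ ^ j)⁻¹) * g₀⁻¹ = g₀ ^ (j + 1) * γ * (g₀ ^ (j + 1))⁻¹ by
      rw [pow_succ']; group] at this

theorem exists_fix_eq (hH : Φ.IsStab k g₀ H) (hT : Φ.Classes k T) (h₀ : Φ.NR k g₀)
    (hc : Φ.Cen g₀ ≠ ⊥) (hu : u ∈ H) {j : ℕ} (hj : 1 ≤ j) (hs : Stable (u * g₀ ^ j))
    (he : Ess (u * g₀ ^ j)) : ∃ g ∈ Φ.Cpt k g₀, Fix g = Fix (u * g₀ ^ j) := by
  have hG0 := hH.pos_cores h₀ hT.pos hu hj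
  have hGn : ∀ h ∈ H, (u * g₀ ^ j) * h * (u * g₀ ^ j)⁻¹ ∈ H := fun h hh => by
    have := H.mul_mem (H.mul_mem hu (hH.norm_pow_cores j hh)) (H.inv_mem hu)
    rwa [show u * (g₀ ^ j * h * (g₀ ^ j)⁻¹) * u⁻¹ = (u * g₀ ^ j) * h * (u * g₀ ^ j)⁻¹ by
      group] at this
  generalize u * g₀ ^ j = G at hs he hG0 hGn ⊢
  have hH0 : ∀ h ∈ H, Φ.ht h = 0 := fun h hh => ((hH h).1 hh).1
  by_contra hne
  have hdis : ∀ g ∈ Φ.Cpt k g₀, Disjoint (Fix g) (Fix G) := fun g hg => by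
    rw [Set.disjoint_left]
    intro ξ h1 h2
    have hn := cpt_nr h₀ hg
    obtain ⟨v, hv1, hv, hv', -⟩ := common_fix (Φ := Φ) hn.2.1 hs (hn.pos_cores hT.pos).ne' hG0.ne'
      (fun e => hne ⟨g, hg, e⟩) h1 h2
    have hr : ¬ Φ.Regular G := by
      rintro ⟨a₁, a₂, r₁, r₂, hr⟩
      rw [hr.cen] at hv'
      exact hv1 (Subgroup.mem_bot.1 hv')
    obtain ⟨g', hg', e⟩ := hT.rep G hG0 hs he hr
    refine hne ⟨g', Relation.ReflTransGen.tail hg ⟨hn, hg', v, hv1, hv, ?_⟩, e⟩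
    rwa [cen_of_fix_eq e]
  have hg₀ : g₀ ∈ Φ.Cpt k g₀ := Relation.ReflTransGen.refl
  obtain ⟨ξ₀, hξ₀⟩ := (lim_nontrivial (Φ := Φ) (fun h hh => (Φ.mem_cen.1 hh).1) hc).nonempty
  have h2 : (Fix G).Nontrivial := by
    obtain ⟨a, ha, b, hb, -, -, hab, -⟩ := he
    exact ⟨a, ha, b, hb, hab⟩
  obtain ⟨c, hcG, d, hdG, hξ, hgap⟩ := exists_gap (isClosed_fix Φ.cont G) h2
    (Set.disjoint_left.1 (hdis g₀ hg₀) (lim_cen_subset g₀ hξ₀))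
  have hcd : c ≠ d := Cyc.ne₁₃ hξ
  have step : ∀ g ∈ Φ.Cpt k g₀, ∀ ξ ∈ Φ.Lim (Φ.Cen g), ξ ∈ arc c d →
      Φ.Lim (Φ.Cen g) ⊆ arc c d := fun g hg ξ h1 h2 η hη => by
    have hn := cpt_nr h₀ hg
    have h3 := subset_closure_of_not_linked hcd (fun x hx y hy hl => not_sep hn.2.1 hs hn.2.2.1 he
      (hn.pos_cores hT.pos) hG0 (hdis g hg) hx hy hcG hdG hl.symm) h1 h2 hη
    have h4 := Set.disjoint_left.1 (hdis g hg) (lim_cen_subset g hη)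
    rw [closure_arc hcd] at h3
    rcases h3 with rfl | rfl | h3
    exacts [absurd hcG h4, absurd hdG h4, h3]
  have all : ∀ g ∈ Φ.Cpt k g₀, Φ.Lim (Φ.Cen g) ⊆ arc c d := fun g hg => by
    induction hg with
    | refl => exact step _ hg₀ _ hξ₀ hξ
    | tail h1 h2 ih =>
      obtain ⟨δ, hδ, hδ₁, hδ₂⟩ := h2.2.2
      obtain ⟨a, b, hab⟩ := exists_ax (Φ := Φ) hδ₁.1 hδ
      exact step _ (Relation.ReflTransGen.tail h1 h2) a (hab.mem_lim hδ₂).1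
        (ih (hab.mem_lim hδ₁).1)
  have hL : Φ.Lim H ⊆ closure (arc c d) :=
    lim_subset_of_cpt hH hc isClosed_closure fun g hg => (all g hg).trans subset_closure
  rw [closure_arc hcd] at hL
  obtain ⟨a, haG, ha⟩ := hs.conv Φ.cont ξ₀
  have haH : a ∈ Φ.Lim H := by
    refine (Φ.isClosed_lim H).mem_of_tendsto ha (Eventually.of_forall fun n => ?_)
    induction n with
    | zero => simpa using Φ.lim_mono (hH.cen_le hg₀) hξ₀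
    | succ n ih =>
      rw [pow_succ', mul_smul]
      exact Φ.smul_mem_lim G hH0 hGn ih
  obtain ⟨ζ, hζ⟩ := arc_nonempty hcd.symm
  have hζH : ζ ∉ Φ.Lim H := fun h => by
    rcases hL h with rfl | rfl | h
    exacts [right_notMem_arc _ _ hζ, left_notMem_arc _ _ hζ,
      Set.disjoint_left.1 (disjoint_arc c d) h hζ]
  obtain ⟨g, hg, p, q, δ, hδ, hδ1, hp, hq, hζ', hd, -⟩ :=
    free_gap hH hT h₀ hc (Φ.hbfree_of_notMem hH0 hζH)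
  obtain ⟨h3, h4⟩ := mem_arc_of_outside (all g hg (mem_lim_of_fix hδ hδ.1 hδ1 hp))
    (all g hg (mem_lim_of_fix hδ hδ.1 hδ1 hq)) hζ hζ'
  rcases hL haH with rfl | rfl | h
  exacts [Set.disjoint_left.1 hd h4 haH, Set.disjoint_left.1 hd h3 haH,
    Set.disjoint_left.1 hgap h haG]

theorem exists_core (hT : Φ.Classes k T) (h₀ : Φ.NR k g₀) : ∃ H, Φ.Core H g₀ := by
  by_cases hc : Φ.Cen g₀ = ⊥
  · exact ⟨⊥, core_bot h₀.2.1 (h₀.pos_cores hT.pos) hc⟩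
  obtain ⟨H, hH⟩ := Φ.exists_isStab k g₀
  refine ⟨H, fun h hh => ((hH h).1 hh).1, h₀.pos_cores hT.pos, h₀.2.1.1, hH.norm, fun ζ hζ => ?_,
    ?_, fun θ hθ γ hγ => hH.uni h₀ hT.pos θ hθ hγ⟩
  · obtain ⟨g, hg, p, q, δ, hδ, hδ1, hp, hq, hζ', hd, ξ, hξ, hgξ⟩ := free_gap hH hT h₀ hc hζ
    have hn := cpt_nr h₀ hg
    obtain ⟨m, n, h1, h2⟩ := exists_between_orbit hδ.1 hδ1 hp hq hξ hζ'
    have hf : ∀ i : ℤ, g • δ ^ i • ξ = δ ^ i • ξ := fun i => by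
      rw [← mul_smul, ← ((Φ.Cen g).zpow_mem hδ i).2, mul_smul, hgξ]
    obtain ⟨a, -, ha⟩ := hn.2.1.conv Φ.cont ζ
    have h3 : a ∈ arc p q := h2 (mem_closure_of_tendsto ha (Eventually.of_forall fun i => by
      simpa only [zpow_natCast] using hn.2.1.1.stay (hf m) (hf n) h1 i))
    have h4 : a ∉ Φ.Lim H := Set.disjoint_left.1 hd h3
    refine ⟨g * g₀⁻¹, hH.mul_inv_mem h₀ hT.pos hg, a, h4, ?_⟩
    rw [inv_mul_cancel_right]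
    exact att_limit hn.2.1 (fun h => h4 (Φ.lim_mono (hH.cen_le hg) h)) ha
  · obtain ⟨T', h1, h2, h3⟩ := hH.finite hT h₀
    refine ⟨T', h1, fun E hE => ?_, fun h hh j hj hs he => ?_⟩
    · have hn := cpt_nr h₀ (h2 hE)
      exact ⟨hn.pos_cores hT.pos, hn.2.1, hH.cen_le (h2 hE)⟩
    · obtain ⟨g, hg, e⟩ := exists_fix_eq hH hT h₀ hc hh hj hs he
      obtain ⟨E, hE, h', hh', rfl⟩ := h3 g hg
      obtain ⟨m, n, hm, hn, e'⟩ := exists_pow_eq he e.symm (hH.pos_cores h₀ hT.pos hh hj)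
        ((cpt_nr h₀ hg).pos_cores hT.pos)
      exact ⟨E, hE, h', hh', m, n, hm, hn, by rw [e', conj_pow]⟩

theorem exists_cores (Φ : Fuchs 𝔊) : ∃ (k n : ℕ) (H : Fin n → Subgroup 𝔊) (g : Fin n → 𝔊), 1 ≤ k ∧
    (∀ i, Φ.Core (H i) (g i) ∧ Φ.ht (g i) = k) ∧ ∀ G, 0 < Φ.ht G → Stable G → Ess G →
      ¬ Φ.Regular G → ∃ (i : Fin n) (γ : 𝔊) (a b : ℕ), Φ.ht γ = 0 ∧ 1 ≤ a ∧ 1 ≤ b ∧
        G ^ a = γ * g i ^ b * γ⁻¹ := by
  obtain ⟨k, T, hT⟩ := Φ.exists_classes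
  obtain ⟨n, g, -, hg⟩ := hT.fin.fin_param
  have hn : ∀ i, Φ.NR k (g i) := fun i => hT.nr _ (hg ▸ mem_range_self i)
  choose H hH using fun i => exists_core hT (hn i)
  refine ⟨k, n, H, g, hT.pos, fun i => ⟨hH i, (hn i).1⟩, fun G h0 hs he hr => ?_⟩
  obtain ⟨g', hg', e⟩ := hT.rep G h0 hs he hr
  obtain ⟨E, hE, γ, hγ, rfl⟩ := hT.conj g' hg'
  rw [← hg] at hE
  obtain ⟨i, rfl⟩ := hE
  obtain ⟨a, b, ha, hb, e'⟩ := exists_pow_eq he e.symm h0 (hg'.pos_cores hT.pos)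
  exact ⟨i, γ, a, b, hγ, ha, hb, by rw [e', conj_pow]⟩

end Fuchs

end Pool.Agent.P.MP_788ef7_an
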