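import Pool.Agent.P.MP_788ef7_an.HFBasic
import Pool.Agent.P.MP_788ef7_an.Cores

set_option autoImplicit false
set_option linter.unusedSectionVars false

open Set Filter Topology Metric

namespace Pool.Agent.P.MP_788ef7_an

namespace Setting

variable {𝔾 X E : Type*} [Group 𝔾] [MetricSpace X] [MulAction 𝔾 X] [ProperSpace X]
  [NormedAddCommGroup E] [NormedSpace ℝ E] [FiniteDimensional ℝ E] {S : Setting 𝔾 X E}
  {g g' G G' γ c w : 𝔾} {p p' q x y z : X} {C : Subgroup 𝔾} {K : Set X} {R : ℝ}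
  {𝔊 : Type*} [Group 𝔊] [MulAction 𝔊 Circle] {Φ : Fuchs 𝔊} {pj : 𝔾 →* 𝔊} {pr : X → KD}
  {set : X → KD → X} {H : Subgroup 𝔊} {a₁ a₂ r₁ r₂ : Circle}

theorem bdd_of_periodic_fam {x : ℤ → KD} {b : ℕ} (hb : 1 ≤ b) (hx : Function.Periodic x (b : ℤ))
    (y : KD) : ∃ L, ∀ n, dist (x n) y ≤ L := by
  obtain ⟨L, hL⟩ := ((Set.finite_Ico (0 : ℤ) b).image fun r => dist (x r) y).bddAbove
  refine ⟨L, fun n => ?_⟩
  have h0 : (0 : ℤ) < b := by exact_mod_cast hb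
  have e := hx.zsmul (n / b) (n % b)
  rw [smul_eq_mul, Int.emod_add_ediv_mul] at e
  rw [e]
  exact hL (mem_image_of_mem _ ⟨Int.emod_nonneg _ h0.ne', Int.emod_lt_of_pos _ h0⟩)

/-- The family of the cores of the factor. -/
theorem HF.fam (h : S.HF Φ pj pr set) (hi : S.Iness pj) : ∃ (F : Fam 𝔾 X)
    (H : Fin F.n → Subgroup 𝔊), S.BadFam (fun G => ∀ a : ℕ, 1 ≤ a → ¬ Φ.Regular (pj (G ^ a))) F ∧
      ∀ i, Φ.Core (H i) (pj (F.g i)) ∧ F.A i = NearP Φ pr (H i) := by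
  obtain ⟨k, n, H, g, hk, hc, ht⟩ := Φ.exists_cores
  choose l hl using h.surj
  have hc' : ∀ i, Φ.Core (H i) (pj (l (g i))) := fun i => by
    rw [hl]
    exact (hc i).1
  refine ⟨⟨n, k, fun i => (H i).comap pj, fun i => l (g i), fun i => NearP Φ pr (H i)⟩, H,
    ⟨hk, fun i => ?_, fun i => h.region (hc' i), ?_⟩, fun i => ⟨hc' i, rfl⟩⟩
  · rw [← h.ht_eq, hl]
    exact (hc i).2
  choose C₀ hC using fun i => h.po (l (g i))
  choose R hR using fun i => (hc' i).core1 (C₀ i)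
  obtain ⟨R₀, hR₀⟩ := (Set.finite_range R).bddAbove
  refine ⟨R₀, fun G p hB hG hp => ?_⟩
  obtain ⟨m, hm, h1⟩ := hi.exists_pow Φ hG hp
  have h2 := h1 1 le_rfl
  rw [mul_one] at h2
  obtain ⟨i, γ, a, b, hγ, -, hb, e⟩ := ht (pj (G ^ m))
    (by rw [h.ht_eq, S.ht_pow]; exact mul_pos (by exact_mod_cast hm) hG) h2.1 h2.2 (hB m hm)
  have h3 : (G ^ m) ^ a • p = p := MulAction.mem_stabilizer_iff.1
    (pow_mem (pow_mem (MulAction.mem_stabilizer_iff.2 hp) m) a)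
  have h4 : Function.Periodic (fun r : ℤ => pr (l (g i) ^ r • (l γ)⁻¹ • p)) (b : ℤ) := fun r => by
    have e1 : pj (l (g i) ^ (r + b) * (l γ)⁻¹) = pj (l (g i) ^ r * (l γ)⁻¹ * (G ^ m) ^ a) := by
      rw [map_mul, map_mul, map_mul, map_pow pj (G ^ m), e, map_inv, map_zpow, map_zpow, hl, hl,
        zpow_add, zpow_natCast]
      group
    have := h.pr_eq e1 p
    rwa [mul_smul, mul_smul, mul_smul, h3] at this
  obtain ⟨L, hL⟩ := bdd_of_periodic_fam hb h4 (Φ.pt 1)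
  refine ⟨i, (l γ)⁻¹, by rw [S.ht_inv, ← h.ht_eq, hl, hγ, neg_zero], fun r => ?_⟩
  have h5 := hR i _ (hC i ((l γ)⁻¹ • p)) ⟨L, fun r => ⟨1, one_mem _, hL r⟩⟩ r
  rw [zpow_natCast] at h5
  exact nearP_mono (hR₀ (mem_range_self i)) h5

end Setting

end Pool.Agent.P.MP_788ef7_an
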