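import Pool.Agent.P.MP_788ef7_an.Idx1

set_option autoImplicit false
set_option linter.unusedSectionVars false

open Set Filter Topology Metric

namespace Pool.Agent.P.MP_788ef7_an

variable {E : Type*} [NormedAddCommGroup E] [NormedSpace ℝ E] [FiniteDimensional ℝ E]
  {C : Type*} [Group C] {O : Set E} {a : C → E → E} {v v' : E → E} {F F' : Finset E} {K : Set E}

theorem orb_mono_idx {K K' : Set E} (h : K ⊆ K') : Orb a K ⊆ Orb a K' :=
  fun _ ⟨c, k, hk, e⟩ => ⟨c, k, h hk, e⟩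

theorem Eqv.add_idx {w w' : E → E} (hw : Eqv O a w) (hw' : Eqv O a w') :
    Eqv O a fun x => w x + w' x := fun c x hx => by
  simp only [hw c x hx, hw' c x hx, map_add]

theorem Eqv.smul_idx {w : E → E} {θ : E → ℝ} (hθ : ∀ c, ∀ x ∈ O, θ (a c x) = θ x)
    (hw : Eqv O a w) : Eqv O a fun x => θ x • w x := fun c x hx => by
  simp only [hw c x hx, hθ c x hx, map_smul]

theorem DAct.orb_gen_idx (h : DAct O a) {w : E → E} (hw : Eqv O a w) (hw1 : ContDiffOn ℝ 1 w O)
    (hKO : K ⊆ O) (hk : ∀ x ∈ K, w x = 0 → (fderiv ℝ w x).det ≠ 0) :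
    ∀ x ∈ Orb a K, w x = 0 → (fderiv ℝ w x).det ≠ 0 := by
  rintro _ ⟨c, k, hk', rfl⟩ h0
  rw [hw c k (hKO hk'), h.fderiv_eq_zero c (hKO hk')] at h0
  rw [h.det_eq hw hw1 c (hKO hk') h0]
  exact hk k hk' h0

theorem DAct.glue_idx (h : DAct O a) {w : E → E} (hw : Eqv O a w) (hw1 : ContDiffOn ℝ 1 w O)
    (hK : IsCompact K) (hKO : K ⊆ O) (he : ∀ x ∈ O, x ∉ Orb a K → v x = w x)
    (hv : ∀ x ∈ O, x ∉ Orb a K → v x = 0 → (fderiv ℝ v x).det ≠ 0)
    (hk : ∀ x ∈ K, w x = 0 → (fderiv ℝ w x).det ≠ 0) : Gen O w := by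
  refine ⟨hw1, fun x hx h0 => ?_⟩
  by_cases hxK : x ∈ Orb a K
  · exact h.orb_gen_idx hw hw1 hKO hk x hxK h0
  · have e : v =ᶠ[𝓝 x] w := by
      filter_upwards [(h.isOpen_diff_orb hKO hK).mem_nhds ⟨hx, hxK⟩] with y hy
      exact he y hy.1 hy.2
    rw [← e.fderiv_eq]
    exact hv x hx hxK ((he x hx hxK).trans h0)

theorem DAct.rep_idx (h : DAct O a) {w : E → E} (hw : Eqv O a w) (hg : Gen O w)
    (hK : IsCompact K) (hKO : K ⊆ O) (he : ∀ x ∈ O, x ∉ Orb a K → v x = w x)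
    (hF : IsRep O a v F) : ∃ G, IsRep O a w G := by
  refine h.exists_rep hw hg (hK.union F.finite_toSet.isCompact)
    (union_subset hKO fun x hx => (hF.zero x hx).1) fun x hx h0 => ?_
  by_cases hxK : x ∈ Orb a K
  · exact orb_mono_idx subset_union_left hxK
  · obtain ⟨c, k, hk, e⟩ := hF.cover x hx ((he x hx hxK).trans h0)
    exact ⟨c, k, Or.inr hk, e⟩

theorem DAct.bump_idx (h : DAct O a) {x₀ : E} {R : ℝ} (hR : 0 < R) (hB : closedBall x₀ R ⊆ O)
    (hfree : ∀ c, ∀ y ∈ closedBall x₀ R, a c y ∈ closedBall x₀ R → c = 1) :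
    ∃ θ : E → ℝ, ContDiffOn ℝ 1 θ O ∧ (∀ c, ∀ x ∈ O, θ (a c x) = θ x) ∧
      (∀ x ∈ Orb a (closedBall x₀ (R / 5)), θ x = 1) ∧
      ∀ x ∈ O, x ∉ Orb a (closedBall x₀ (2 * R / 5)) → θ x = 0 := by
  let χ : ContDiffBump x₀ := ⟨R / 5, 2 * R / 5, by positivity, by linarith⟩
  have s1 : closedBall x₀ (2 * R / 5) ⊆ closedBall x₀ R := closedBall_subset_closedBall (by linarith)
  have s2 : closedBall x₀ (R / 5) ⊆ closedBall x₀ R := closedBall_subset_closedBall (by linarith)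
  have hz : ∀ x, x ∉ closedBall x₀ (2 * R / 5) → χ x = 0 := fun x hx =>
    χ.zero_of_le_dist (le_of_lt (not_le.1 hx))
  obtain ⟨θ, t1, t2, -, t4, t5⟩ := h.push_fun (isCompact_closedBall x₀ (2 * R / 5)) (s1.trans hB)
    (χ := χ) χ.contDiff.contDiffOn (fun x => χ.nonneg) fun x _ hx => hz x hx
  refine ⟨θ, t1, t2, ?_, fun x hx hx' => ?_⟩
  · rintro _ ⟨c, k, hk, rfl⟩
    rw [t2 c k (hB (s2 hk)), t5 k (hB (s2 hk)) fun c hc => hfree c k (s2 hk) (s1 hc)]
    exact χ.one_of_mem_closedBall hk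
  · by_contra h0
    obtain ⟨c, hc⟩ := t4 x hx h0
    refine hx' ((h.mem_orb (s1.trans hB) c hx).1 (h.subset_orb (s1.trans hB) ?_))
    by_contra h1
    exact hc (hz _ h1)

theorem DAct.balls_idx (h : DAct O a) {r : E → ℝ} (s : Finset E) (hr : ∀ x ∈ s, 0 < r x)
    (hB : ∀ x ∈ s, closedBall x (r x) ⊆ O)
    (hfree : ∀ x ∈ s, ∀ c, ∀ y ∈ closedBall x (r x), a c y ∈ closedBall x (r x) → c = 1) :
    ∀ {v v' : E → E} {F F' : Finset E}, Eqv O a v → Eqv O a v' → Gen O v → Gen O v' →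
      (∀ x ∈ O, x ∉ Orb a (⋃ y ∈ s, closedBall y (r y / 5)) → v x = v' x) → IsRep O a v F →
      IsRep O a v' F' → ∑ x ∈ F, sgn (fderiv ℝ v x) = ∑ x ∈ F', sgn (fderiv ℝ v' x) := by
  classical
  induction s using Finset.induction_on with
  | empty =>
    intro v v' F F' hv hv' hg hg' he hF hF'
    have e : ∀ x ∈ O, v x = v' x := fun x hx => he x hx (by
      rintro ⟨c, k, hk, -⟩
      simp at hk)
    have hF2 : IsRep O a v' F := ⟨fun x hx => ⟨(hF.zero x hx).1, e x (hF.zero x hx).1 ▸ (hF.zero x hx).2⟩,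
      fun x hx h0 => hF.cover x hx ((e x hx).trans h0), hF.uniq⟩
    rw [← (h.sum_eq hv' hg' hF2 hF').1]
    refine Finset.sum_congr rfl fun x hx => ?_
    have : v =ᶠ[𝓝 x] v' := by
      filter_upwards [h.isOpen.mem_nhds (hF.zero x hx).1] with y hy
      exact e y hy
    rw [this.fderiv_eq]
  | insert x₀ s hx₀ ih =>
    intro v v' F F' hv hv' hg hg' he hF hF'
    have m0 := Finset.mem_insert_self x₀ s
    have hR := hr x₀ m0
    have hB0 := hB x₀ m0
    have hf0 := hfree x₀ m0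
    set R := r x₀ with hRdef
    obtain ⟨θ, t1, t2, t3, t4⟩ := h.bump_idx hR hB0 hf0
    have s4 : closedBall x₀ (4 * R / 5) ⊆ closedBall x₀ R :=
      closedBall_subset_closedBall (by linarith)
    have s2 : closedBall x₀ (2 * R / 5) ⊆ closedBall x₀ (4 * R / 5) :=
      closedBall_subset_closedBall (by linarith)
    let u : E → E := fun x => (1 - θ x) • v x + θ x • v' x
    have hu : Eqv O a u :=
      (Eqv.smul_idx (θ := fun x => 1 - θ x) (fun c x hx => by rw [t2 c x hx]) hv).add_idx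
        (Eqv.smul_idx t2 hv')
    have hu1 : ContDiffOn ℝ 1 u O := ((contDiffOn_const.sub t1).smul hg.1).add (t1.smul hg'.1)
    have huv : ∀ x ∈ O, x ∉ Orb a (closedBall x₀ (2 * R / 5)) → v x = u x := fun x hx hx' => by
      simp only [u, t4 x hx hx', sub_zero, one_smul, zero_smul, add_zero]
    have hug : ∀ x ∈ closedBall x₀ (4 * R / 5) \ ball x₀ (3 * R / 5), u x = 0 →
        (fderiv ℝ u x).det ≠ 0 := by
      intro x hx h0
      have hxO := hB0 (s4 hx.1)
      have hn : x ∉ Orb a (closedBall x₀ (2 * R / 5)) := by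
        rintro ⟨c, k, hk, rfl⟩
        have hc := hf0 c k (s4 (s2 hk)) (s4 hx.1)
        rw [hc, h.one k (hB0 (s4 (s2 hk)))] at hx
        exact hx.2 (closedBall_subset_ball (by linarith) hk)
      have e : v =ᶠ[𝓝 x] u := by
        filter_upwards [(h.isOpen_diff_orb ((s2.trans s4).trans hB0)
          (isCompact_closedBall _ _)).mem_nhds ⟨hxO, hn⟩] with y hy
        exact huv y hy.1 hy.2
      rw [← e.fderiv_eq]
      exact hg.2 x hxO ((huv x hxO hn).trans h0)
    obtain ⟨P, p1, p2, p3, p4⟩ := h.step (ι := Bool) (u := fun i => bif i then u else v')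
      (fun i => by cases i <;> assumption) (fun i => by cases i; exacts [hg'.1, hu1])
      (A := fun _ => closedBall x₀ (4 * R / 5) \ ball x₀ (3 * R / 5))
      (fun _ => (isCompact_closedBall _ _).diff isOpen_ball)
      (fun _ => sdiff_subset.trans (s4.trans hB0))
      (fun i => by
        cases i
        exacts [fun x hx => hg'.2 x (hB0 (s4 hx.1)), hug])
      (x₀ := x₀) (r := 4 * R / 5) (r' := 3 * R / 5) (by positivity) (by linarith) (s4.trans hB0)
      fun c y hy hy' => hf0 c y (s4 hy) (s4 hy')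
    have s3 : ∀ x ∈ closedBall x₀ (4 * R / 5), x ∈ (closedBall x₀ (4 * R / 5) \ ball x₀ (3 * R / 5))
        ∪ closedBall x₀ (3 * R / 5) := fun x hx => by
      by_cases hx' : x ∈ ball x₀ (3 * R / 5)
      exacts [Or.inr (ball_subset_closedBall hx'), Or.inl ⟨hx, hx'⟩]
    have e1 : ∀ x ∈ O, x ∉ Orb a (closedBall x₀ (4 * R / 5)) → v x = u x + P x := fun x hx hx' => by
      rw [p3 x hx hx', add_zero]
      exact huv x hx fun t => hx' (orb_mono_idx s2 t)
    have e2 : ∀ x ∈ O, x ∉ Orb a (closedBall x₀ (4 * R / 5)) → v' x = v' x + P x :=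
      fun x hx hx' => by rw [p3 x hx hx', add_zero]
    have hw := hu.add_idx p2
    have hw' := hv'.add_idx p2
    have g1 : Gen O fun x => u x + P x := h.glue_idx hw (hu1.add p1) (isCompact_closedBall _ _)
      (s4.trans hB0) e1 (fun x hx _ => hg.2 x hx) fun x hx => p4 true x (s3 x hx)
    have g2 : Gen O fun x => v' x + P x := h.glue_idx hw' (hg'.1.add p1) (isCompact_closedBall _ _)
      (s4.trans hB0) e2 (fun x hx _ => hg'.2 x hx) fun x hx => p4 false x (s3 x hx)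
    obtain ⟨G, hG⟩ := h.rep_idx hw g1 (isCompact_closedBall _ _) (s4.trans hB0) e1 hF
    obtain ⟨G', hG'⟩ := h.rep_idx hw' g2 (isCompact_closedBall _ _) (s4.trans hB0) e2 hF'
    rw [h.idx_local hv hw hg g1 (r' := 4 * R / 5) (by positivity) (by linarith) hB0 hf0 e1 hF hG,
      h.idx_local hv' hw' hg' g2 (r' := 4 * R / 5) (by positivity) (by linarith) hB0 hf0 e2 hF' hG']
    refine ih (fun x hx => hr x (Finset.mem_insert_of_mem hx))
      (fun x hx => hB x (Finset.mem_insert_of_mem hx))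
      (fun x hx => hfree x (Finset.mem_insert_of_mem hx)) hw hw' g1 g2 (fun x hx hx' => ?_) hG hG'
    show (1 - θ x) • v x + θ x • v' x + P x = v' x + P x
    by_cases hb : x ∈ Orb a (closedBall x₀ (R / 5))
    · rw [t3 x hb, sub_self, zero_smul, zero_add, one_smul]
    · rw [he x hx, ← add_smul, sub_add_cancel, one_smul]
      rintro ⟨c, k, hk, rfl⟩
      rw [Finset.set_biUnion_insert] at hk
      rcases hk with hk | hk
      exacts [hb ⟨c, k, hk, rfl⟩, hx' ⟨c, k, hk, rfl⟩]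

/-- A change supported in the translates of a compact set. -/
theorem DAct.idx_cpt (h : DAct O a) (hv : Eqv O a v) (hv' : Eqv O a v') (hg : Gen O v)
    (hg' : Gen O v') (hK : IsCompact K) (hKO : K ⊆ O)
    (he : ∀ x ∈ O, x ∉ Orb a K → v x = v' x) (hF : IsRep O a v F) (hF' : IsRep O a v' F') :
    ∑ x ∈ F, sgn (fderiv ℝ v x) = ∑ x ∈ F', sgn (fderiv ℝ v' x) := by
  choose! r hr hB hfree using fun x (hx : x ∈ O) => h.exists_ball hx
  obtain ⟨s, s1, s2⟩ := hK.elim_nhds_subcover (fun x => closedBall x (r x / 5))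
    fun x hx => closedBall_mem_nhds x (by have := hr x (hKO hx); positivity)
  exact h.balls_idx s (fun x hx => hr x (hKO (s1 x hx))) (fun x hx => hB x (hKO (s1 x hx)))
    (fun x hx => hfree x (hKO (s1 x hx))) hv hv' hg hg'
    (fun x hx hx' => he x hx fun t => hx' (orb_mono_idx s2 t)) hF hF'

theorem Avoid.zero_mem {Adm : E → E → Prop} (hA : Cone O a Adm) (ha : Avoid O a Adm K v) {x : E}
    (hx : x ∈ O) (h0 : v x = 0) : x ∈ Orb a K := by
  by_contra hn
  obtain ⟨W, -, hW⟩ := hA.loc x hx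
  exact ha x hx hn (W x) hW.self_of_nhds 0 ⟨le_rfl, zero_le_one⟩ (by simp [h0])

/-- Invariance of the index. -/
theorem DAct.idx (h : DAct O a) (hv : Eqv O a v) (hv' : Eqv O a v') (hg : Gen O v)
    (hg' : Gen O v') {Adm : E → E → Prop} (hA : Cone O a Adm) (hK : IsCompact K) (hKO : K ⊆ O)
    (ha : Avoid O a Adm K v) (ha' : Avoid O a Adm K v') (hF : IsRep O a v F)
    (hF' : IsRep O a v' F') :
    ∑ x ∈ F, sgn (fderiv ℝ v x) = ∑ x ∈ F', sgn (fderiv ℝ v' x) := by
  obtain ⟨K₁, θ₁, k1, k2, k3, a1, a2, a3, a4, a5⟩ := h.cutoff hK hKO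
  obtain ⟨K₂, θ₂, l1, l2, l3, b1, b2, b3, b4, b5⟩ := h.cutoff k1 k2
  obtain ⟨W, w1, w2, w3⟩ := h.section hA l1 l2
  let u : E → E := fun x => θ₁ x • v' x + (1 - θ₁ x) • ((1 - θ₂ x) • v x + θ₂ x • W x)
  have hu : Eqv O a u := (Eqv.smul_idx a2 hv').add_idx
    (Eqv.smul_idx (θ := fun x => 1 - θ₁ x) (fun c x hx => by rw [a2 c x hx])
      ((Eqv.smul_idx (θ := fun x => 1 - θ₂ x) (fun c x hx => by rw [b2 c x hx]) hv).add_idx
        (Eqv.smul_idx b2 w2)))
  have hu1 : ContDiffOn ℝ 1 u O := (a1.smul hg'.1).add ((contDiffOn_const.sub a1).smul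
    (((contDiffOn_const.sub b1).smul hg.1).add (b1.smul w1)))
  have e1 : ∀ x ∈ Orb a K, u =ᶠ[𝓝 x] v' := fun x hx => by
    filter_upwards [a4 x hx] with y hy
    simp only [u, hy, one_smul, sub_self, zero_smul, add_zero]
  have e2 : ∀ x ∈ O, x ∉ Orb a K₂ → v x = u x := fun x hx hx' => by
    simp only [u, a5 x hx fun t => hx' (orb_mono_idx l3 t), b5 x hx hx', one_smul, sub_zero,
      zero_smul, add_zero, zero_add]
  have e3 : ∀ x ∈ O, u x = 0 → x ∈ Orb a K := by
    intro x hx h0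
    by_contra hn
    by_cases c1 : x ∈ Orb a K₁
    · refine ha' x hx hn (W x) (w3 x (orb_mono_idx l3 c1)) (1 - θ₁ x)
        ⟨sub_nonneg.2 (a3 x hx).2, sub_le_self _ (a3 x hx).1⟩ ?_
      simpa only [u, (b4 x c1).self_of_nhds, sub_self, zero_smul, zero_add, one_smul,
        sub_sub_cancel] using h0
    · by_cases c2 : x ∈ Orb a K₂
      · refine ha x hx hn (W x) (w3 x c2) (θ₂ x) (b3 x hx) ?_
        simpa only [u, a5 x hx c1, zero_smul, zero_add, sub_zero, one_smul] using h0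
      · exact hn (ha.zero_mem hA hx ((e2 x hx c2).trans h0))
  have gu : Gen O u := ⟨hu1, fun x hx h0 => by
    have e := e1 x (e3 x hx h0)
    rw [e.fderiv_eq]
    exact hg'.2 x hx (e.self_of_nhds.symm.trans h0)⟩
  have hm : ∀ x ∈ F', x ∈ Orb a K := fun x hx =>
    ha'.zero_mem hA (hF'.zero x hx).1 (hF'.zero x hx).2
  have ru : IsRep O a u F' :=
    ⟨fun x hx => ⟨(hF'.zero x hx).1, (e1 x (hm x hx)).self_of_nhds.trans (hF'.zero x hx).2⟩,
      fun x hx h0 => hF'.cover x hx ((e1 x (e3 x hx h0)).self_of_nhds.symm.trans h0), hF'.uniq⟩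
  rw [h.idx_cpt hv hu hg gu l1 l2 e2 hF ru]
  exact Finset.sum_congr rfl fun x hx => by rw [(e1 x (hm x hx)).fderiv_eq]

/-- Generic perturbation. -/
theorem DAct.perturb (h : DAct O a) (hv : Eqv O a v) (hc : ContDiffOn ℝ 1 v O) (hK : IsCompact K)
    (hKO : K ⊆ O) (hz : ∀ x ∈ O, v x = 0 → x ∈ Orb a K) : ∃ (v' : E → E) (K' : Set E),
      IsCompact K' ∧ K' ⊆ O ∧ K ⊆ K' ∧ Eqv O a v' ∧ Gen O v' ∧
      ∀ x ∈ O, x ∉ Orb a K' → v' x = v x := by
  classical
  choose! r hr hB hfree using fun x (hx : x ∈ O) => h.exists_ball hx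
  obtain ⟨t, t1, t2⟩ := hK.elim_nhds_subcover (fun x => ball x (r x / 2))
    fun x hx => ball_mem_nhds x (half_pos (hr x (hKO hx)))
  have tO : ∀ x ∈ t, x ∈ O := fun x hx => hKO (t1 x hx)
  have sb : ∀ x ∈ t, closedBall x (r x / 2) ⊆ closedBall x (r x) := fun x hx =>
    closedBall_subset_closedBall (half_le_self (hr x (tO x hx)).le)
  set K' : Set E := ⋃ x ∈ t, closedBall x (r x) with hK'
  set U : Set E := ⋃ x ∈ t, ball x (r x / 2) with hU
  have c1 : IsCompact K' := t.isCompact_biUnion fun x _ => isCompact_closedBall _ _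
  have c2 : K' ⊆ O := iUnion₂_subset fun x hx => hB x (tO x hx)
  have c3 : U ⊆ K' := iUnion₂_mono fun x hx => ball_subset_closedBall.trans (sb x hx)
  have c4 : IsOpen (Orb a U) := h.isOpen_orb (c3.trans c2) (isOpen_biUnion fun x _ => isOpen_ball)
  have key : ∀ s : Finset E, s ⊆ t → ∃ w : E → E, Eqv O a w ∧ ContDiffOn ℝ 1 w O ∧
      (∀ x ∈ O, x ∉ Orb a K' → v x = w x) ∧
      ∀ x ∈ (K' \ Orb a U) ∪ ⋃ y ∈ s, closedBall y (r y / 2), w x = 0 →
        (fderiv ℝ w x).det ≠ 0 := by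
    intro s
    induction s using Finset.induction_on with
    | empty =>
      refine fun _ => ⟨v, hv, hc, fun _ _ _ => rfl, fun x hx h0 => ?_⟩
      rcases hx with hx | hx
      · exact (hx.2 (orb_mono_idx t2 (hz x (c2 hx.1) h0))).elim
      · simp at hx
    | insert y s hy ih =>
      intro hs
      have hyt := hs (Finset.mem_insert_self y s)
      have hst : s ⊆ t := (Finset.subset_insert y s).trans hs
      obtain ⟨w, w1, w2, w3, w4⟩ := ih hst
      obtain ⟨P, p1, p2, p3, p4⟩ := h.step (ι := Unit) (u := fun _ => w) (fun _ => w1) (fun _ => w2)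
        (A := fun _ => (K' \ Orb a U) ∪ ⋃ y ∈ s, closedBall y (r y / 2))
        (fun _ => (c1.diff c4).union (s.isCompact_biUnion fun x _ => isCompact_closedBall _ _))
        (fun _ => union_subset (sdiff_subset.trans c2)
          (iUnion₂_subset fun x hx => (sb x (hst hx)).trans (hB x (tO x (hst hx)))))
        (fun _ => w4) (x₀ := y) (r := r y) (r' := r y / 2) (half_pos (hr y (tO y hyt)))
        (half_lt_self (hr y (tO y hyt))) (hB y (tO y hyt)) (hfree y (tO y hyt))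
      refine ⟨fun x => w x + P x, w1.add_idx p2, w2.add p1, fun x hx hx' => ?_, fun x hx => ?_⟩
      · show v x = w x + P x
        rw [p3 x hx fun k => hx' (orb_mono_idx (subset_biUnion_of_mem
          (u := fun x => closedBall x (r x)) hyt) k), add_zero, w3 x hx hx']
      · refine p4 () x ?_
        rw [Finset.set_biUnion_insert] at hx
        rcases hx with hx | hx | hx
        exacts [Or.inl (Or.inl hx), Or.inr hx, Or.inl (Or.inr hx)]
  obtain ⟨w, w1, w2, w3, w4⟩ := key t subset_rfl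
  refine ⟨w, K', c1, c2, t2.trans c3, w1, ?_, fun x hx hx' => (w3 x hx hx').symm⟩
  refine h.glue_idx w1 w2 c1 c2 w3
    (fun x hx hx' h0 => (hx' (orb_mono_idx (t2.trans c3) (hz x hx h0))).elim) fun x hx => ?_
  by_cases hxU : x ∈ Orb a U
  · exact h.orb_gen_idx w1 w2 (c3.trans c2) (fun y hy => w4 y (Or.inr
      (iUnion₂_mono (fun x _ => ball_subset_closedBall) hy))) x hxU
  · exact w4 x (Or.inl ⟨hx, hxU⟩)

end Pool.Agent.P.MP_788ef7_an
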