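import Pool.Agent.P.MP_788ef7_an.Attr

set_option autoImplicit false

open Set Filter Topology Metric

namespace Pool.Agent.P.MP_788ef7_an

namespace Fuchs

variable {𝔊 : Type*} [Group 𝔊] [MulAction 𝔊 Circle] {Φ : Fuchs 𝔊} {g g' γ δ u u' G g₀ : 𝔊}
  {H : Subgroup 𝔊} {ξ η ζ a b c d p q a₁ a₂ r₁ r₂ a₁' a₂' r₁' r₂' : Circle} {k : ℕ} {T : Set 𝔊}

private theorem model0_aux (hq : ∀ h ∈ Φ.Cen g, h • q = q)
    (hd : ∀ ζ : Circle, ζ ∉ Φ.Lim (Φ.Cen g) → (g • ζ = ζ ∨ q = ζ) →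
      (q = ζ ∧ Φ.SAttr g ζ) ∨ (q ≠ ζ ∧ Φ.SAttr g⁻¹ ζ)) (C : ℝ) :
    ∃ R, ∀ x y : KD, Φ.Step g C x y → x.val ∈ segment ℝ y.val q → Φ.Near (Φ.Cen g) R x := by
  by_contra hcon
  push Not at hcon
  choose x y hxy hseg hfar using fun n : ℕ => hcon n
  have h0 : ∀ h ∈ Φ.Cen g, Φ.ht h = 0 := fun h hh => hh.1
  obtain ⟨h, φ, ζ, -, hh, -, hlim, hfree⟩ := Φ.exists_dirichlet_limit h0 hfar
  have hζ : ζ ∉ Φ.Lim (Φ.Cen g) := fun hc => not_hbfree_cen hc hfree
  have hstep : ∀ n, Φ.Step g C (Φ.mv (h n) (x (φ n))) (Φ.mv (h n) (y (φ n))) := by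
    intro n
    have := PreFuchs.Step.move Φ.toPreFuchs (hxy (φ n)) (h0 _ (hh n)) (h0 _ (hh n))
    rwa [(hh n).2, mul_inv_cancel_right] at this
  have hseg' : ∀ n, (Φ.mv (h n) (x (φ n))).val ∈ segment ℝ (Φ.mv (h n) (y (φ n))).val (q : ℂ) := by
    intro n
    have := (Φ.lor (h n)).segment (y (φ n)).lt.le (Circle.norm_coe q).le (hseg (φ n))
    rwa [← Φ.bd_eq (h n) q (h0 _ (hh n)), hq _ (hh n)] at this
  generalize hx' : (fun n => Φ.mv (h n) (x (φ n))) = x' at *
  generalize hy' : (fun n => Φ.mv (h n) (y (φ n))) = y' at *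
  have ex : ∀ n, Φ.mv (h n) (x (φ n)) = x' n := fun n => congrFun hx' n
  have ey : ∀ n, Φ.mv (h n) (y (φ n)) = y' n := fun n => congrFun hy' n
  simp only [ex, ey] at hlim hstep hseg'
  have hy := Φ.step_tendsto hstep hlim
  have hext := extreme (Circle.norm_coe _).le (Circle.norm_coe _).le
    (mem_segment_of_tendsto hseg' hlim hy tendsto_const_nhds)
  have hext' : g • ζ = ζ ∨ q = ζ := hext.imp Circle.ext Circle.ext
  have hz1 := (Circle.norm_coe ζ).le
  rcases hd ζ hζ hext' with ⟨e, hs⟩ | ⟨e, hs⟩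
  · obtain ⟨ε, hε, hs⟩ := hs C (1 / 2) (by norm_num)
    have ht := tendsto_rho hlim (tendsto_const_nhds (x := (ζ : ℂ)))
    rw [rho_circle_self] at ht
    obtain ⟨n, hn⟩ := (ht.eventually (gt_mem_nhds hε)).exists
    have h1 := hs _ _ (hstep n) hn
    have h2 : rho (x' n).val ζ ≤ rho (y' n).val ζ := by
      refine rho_le_of_segment (hseg' n) le_rfl ?_
      rw [e, rho_circle_self]
      exact rho_nonneg (y' n).lt.le hz1
    have h3 := rho_pos (x' n).lt hz1
    linarith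
  · obtain ⟨ε, hε, hs⟩ := hs C (1 / 2) (by norm_num)
    rw [hext'.resolve_right e] at hy
    have ht := tendsto_rho hy (tendsto_const_nhds (x := (ζ : ℂ)))
    rw [rho_circle_self] at ht
    have hp : 0 < rho q ζ := rho_pos_of_ne (Circle.norm_coe q).le fun hc => e (Circle.ext hc)
    obtain ⟨n, hn, hn'⟩ :=
      ((ht.eventually (gt_mem_nhds hε)).and (ht.eventually (gt_mem_nhds hp))).exists
    have h1 := hs _ _ (PreFuchs.Step.symm Φ.toPreFuchs (hstep n)) hn
    have h2 : rho (y' n).val ζ ≤ rho (x' n).val ζ := le_rho_of_segment (hseg' n) le_rfl hn'.le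
    have h3 := rho_pos (y' n).lt hz1
    linarith

/-- A model without zeros for stable elements that are not essential. -/
theorem model0 (hg : Stable g) (he : ¬ Ess g) : ∃ q : Circle, (∀ h ∈ Φ.Cen g, h • q = q) ∧
    ∀ C, ∃ R, ∀ x y : KD, Φ.Step g C x y → x.val ∈ segment ℝ y.val q →
      Φ.Near (Φ.Cen g) R x := by
  have two : ∀ {a b c : Circle}, g • a = a → g • b = b → g • c = c → a ≠ b → c = a ∨ c = b := by
    intro a b c ha hb hc hab
    by_contra hn
    push Not at hn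
    exact he ⟨a, ha, b, hb, c, hc, hab, hn.2.symm, hn.1.symm⟩
  by_cases hbot : Φ.Cen g = ⊥
  · have hl : ∀ ζ : Circle, ζ ∉ Φ.Lim (Φ.Cen g) := by
      intro ζ
      rw [hbot, Φ.lim_bot]
      exact notMem_empty _
    obtain ⟨η, hη⟩ : ∃ η : Circle, g • η ≠ η := by
      by_contra hn
      push Not at hn
      obtain ⟨s, s', -, -, hs, -⟩ := exists_chart 1
      have inj : Function.Injective s' := Function.LeftInverse.injective hs
      rcases two (hn (s' 0)) (hn (s' 1)) (hn (s' 2)) (inj.ne (by norm_num)) with e | e <;>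
        · have := inj e
          norm_num at this
    obtain ⟨a, ha, hlim⟩ := hg.conv Φ.cont η
    have hatt : Φ.Att g a := by
      refine (att_or ha (hl a)).resolve_right fun hr => hr.2.2.not_limit ?_ hlim
      rintro rfl
      exact hη ha
    have hq : ∀ h ∈ Φ.Cen g, h • a = a := by
      intro h hh
      rw [hbot, Subgroup.mem_bot] at hh
      rw [hh, one_smul]
    refine ⟨a, hq, model0_aux hq fun ζ hζ hz => ?_⟩
    by_cases e : a = ζ
    · exact Or.inl ⟨e, e ▸ hatt.sattr⟩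
    · refine Or.inr ⟨e, Att.sattr ?_⟩
      have hz' := hz.resolve_right e
      refine (att_or hz' hζ).resolve_left fun hb => ?_
      obtain ⟨ξ, hξ, hr⟩ := alt_att hg hatt hb e
      rcases two ha hz' (rset_subset g hr) e with e' | e'
      · exact left_notMem_arc a ζ (e' ▸ hξ)
      · exact right_notMem_arc a ζ (e' ▸ hξ)
  · obtain ⟨⟨δ, hδ⟩, h1⟩ := Subgroup.ne_bot_iff_exists_ne_one.1 hbot
    have h1' : δ ≠ 1 := fun hc => h1 (Subtype.ext hc)
    obtain ⟨a, b, hax⟩ := exists_ax (Φ := Φ) hδ.1 h1'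
    obtain ⟨ha, hb⟩ := hax.fix_of_comm hδ.2
    obtain ⟨la, lb⟩ := hax.mem_lim hδ
    have hq : ∀ h ∈ Φ.Cen g, h • a = a := by
      intro h hh
      by_cases e : h = 1
      · rw [e, one_smul]
      · obtain ⟨a', b', hax'⟩ := exists_ax (Φ := Φ) hh.1 e
        obtain ⟨ha', hb'⟩ := hax'.fix_of_comm hh.2
        rcases two ha' hb' ha hax'.ne with e' | e'
        · rw [e', hax'.fa]
        · rw [e', hax'.fb]
    refine ⟨a, hq, model0_aux hq fun ζ hζ hz => ?_⟩
    exfalso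
    have hz' : g • ζ = ζ := hz.elim id fun e => e ▸ ha
    rcases two ha hb hz' hax.ne with e | e
    · exact hζ (e ▸ la)
    · exact hζ (e ▸ lb)

end Fuchs

end Pool.Agent.P.MP_788ef7_an
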