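import Pool.Agent.P.MP_788ef7_an.VG1
import Pool.Agent.P.MP_788ef7_an.Idx
import Pool.Agent.P.MP_788ef7_an.Model0

set_option autoImplicit false
set_option linter.unusedSectionVars false

open Set Filter Topology Metric

namespace Pool.Agent.P.MP_788ef7_an

namespace Setting

variable {𝔾 X E : Type*} [Group 𝔾] [MetricSpace X] [MulAction 𝔾 X] [ProperSpace X]
  [NormedAddCommGroup E] [NormedSpace ℝ E] [FiniteDimensional ℝ E] {S : Setting 𝔾 X E}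
  {g g' G G' γ c w : 𝔾} {p p' q x y z : X} {C : Subgroup 𝔾} {K : Set X} {R : ℝ}
  {𝔊 : Type*} [Group 𝔊] [MulAction 𝔊 Circle] {Φ : Fuchs 𝔊} {pj : 𝔾 →* 𝔊} {pr : X → KD}
  {set : X → KD → X} {H : Subgroup 𝔊} {a₁ a₂ r₁ r₂ : Circle}
  {E₂ : Type*} [NormedAddCommGroup E₂] [NormedSpace ℝ E₂] {j : E ≃L[ℝ] ℂ × E₂} {O₂ : Set E₂}
  {a : 𝔾 → E₂ → E₂} {vec : E₂ → E₂ → E₂}

/-- The number of orbits of fixed points is bounded by the index of any comparable field. -/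
theorem SF.fix_le (h : S.SF pr j O₂ a vec) (hf : S.HF Φ pj pr set) (hG : 0 < S.ht G)
    (hC : C ≤ S.Cen G) {Adm : E → E → Prop} (hA : Cone (range S.e) (fun c : C => S.A c) Adm)
    (hK : IsCompact K) {v : E → E} (hv : Eqv (range S.e) (fun c : C => S.A c) v)
    (hg : Gen (range S.e) v)
    (ha : ∀ z, z ∉ Tr C K → ∀ u, Adm (S.e z) u → ∀ s ∈ Icc (0 : ℝ) 1,
      (1 - s) • S.vG j vec G (S.e z) + s • u ≠ 0 ∧ (1 - s) • v (S.e z) + s • u ≠ 0)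
    {F : Finset E} (hF : IsRep (range S.e) (fun c : C => S.A c) v F) {T : Finset X}
    (hT : ∀ q ∈ T, G • q = q) (hT' : ∀ q ∈ T, ∀ c ∈ C, c • q ∈ T → c • q = q) :
    (T.card : ℤ) ≤ |∑ x ∈ F, sgn (fderiv ℝ v x)| := by
  classical
  have hd : DAct (range S.e) fun c : C => S.A c := dact fun c hc => (hC hc).1
  have hK' : IsCompact (S.e '' K) := hK.image S.emb.continuous
  have hKO : S.e '' K ⊆ range S.e := image_subset_range _ _
  have a1 : Avoid (range S.e) (fun c : C => S.A c) Adm (S.e '' K) (S.vG j vec G) := by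
    rintro _ ⟨z, rfl⟩ hz u hu s hs
    exact (ha z (fun h' => hz (S.mem_orb_iff.2 h')) u hu s hs).1
  have a2 : Avoid (range S.e) (fun c : C => S.A c) Adm (S.e '' K) v := by
    rintro _ ⟨z, rfl⟩ hz u hu s hs
    exact (ha z (fun h' => hz (S.mem_orb_iff.2 h')) u hu s hs).2
  obtain ⟨F₀, hF₀⟩ := hd.exists_rep (h.vG_eqv hf hC) (h.vG_gen hG) hK' hKO
    fun x hx h0 => a1.zero_mem hA hx h0
  rw [← hd.idx (h.vG_eqv hf hC) hv (h.vG_gen hG) hg hA hK' hKO a1 a2 hF₀ hF]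
  obtain ⟨σ, hσ⟩ := S.sign_fix hG
  have hs : ∀ x ∈ F₀, sgn (fderiv ℝ (S.vG j vec G) x) = σ ∧ |σ| = 1 := by
    intro x hx
    obtain ⟨⟨p, rfl⟩, h0⟩ := hF₀.zero x hx
    have hp := h.vG_zero.1 h0
    rw [h.vG_fderiv hp, ← (hσ p hp).2]
    refine ⟨rfl, ?_⟩
    unfold sgn
    split_ifs <;> simp
  have hc : ∀ q ∈ T, ∃ k ∈ F₀, ∃ c : C, S.e q = S.A c k := fun q hq => by
    obtain ⟨c, k, hk, e⟩ := hF₀.cover (S.e q) ⟨q, rfl⟩ (h.vG_zero.2 (hT q hq))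
    exact ⟨k, hk, c, e⟩
  choose! f hf₁ hf₂ using hc
  have hle : T.card ≤ F₀.card := by
    refine Finset.card_le_card_of_injOn f (fun q hq => hf₁ q hq) fun q hq q' hq' e => ?_
    obtain ⟨c, hc⟩ := hf₂ q hq
    obtain ⟨c', hc'⟩ := hf₂ q' hq'
    obtain ⟨⟨p, hp⟩, -⟩ := hF₀.zero _ (hf₁ q hq)
    rw [← e] at hc'
    rw [← hp, S.A_e] at hc hc'
    have e1 := S.emb.injective hc
    have e2 := S.emb.injective hc'
    have e3 : ((c' * c⁻¹ : C) : 𝔾) • q = q' := by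
      rw [e1, e2, Subgroup.coe_mul, Subgroup.coe_inv, mul_smul, inv_smul_smul]
    exact (hT' q hq _ (c' * c⁻¹).2 (e3 ▸ hq')).symm.trans e3
  rw [Finset.sum_congr rfl fun x hx => (hs x hx).1, Finset.sum_const, nsmul_eq_mul, abs_mul]
  rcases F₀.eq_empty_or_nonempty with h0 | ⟨x, hx⟩
  · rw [h0] at hle ⊢
    simpa using hle
  · rw [(hs x hx).2, mul_one, Nat.abs_cast]
    exact_mod_cast hle

theorem abs_sum_sgn_vg {ι : Type*} (F : Finset ι) (D : ι → E →L[ℝ] E) :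
    |∑ x ∈ F, sgn (D x)| ≤ F.card := by
  refine (Finset.abs_sum_le_sum_abs _ _).trans ?_
  rw [Finset.card_eq_sum_ones, Nat.cast_sum]
  refine Finset.sum_le_sum fun x _ => ?_
  unfold sgn
  split_ifs <;> simp

/-- A common cone field for all powers gives finitely many orbits of periodic points. -/
theorem SF.fix_fin (h : S.SF pr j O₂ a vec) (hf : S.HF Φ pj pr set) (hG : 0 < S.ht G)
    (hC : C ≤ S.Cen G) {Adm : E → E → Prop} (hA : Cone (range S.e) (fun c : C => S.A c) Adm)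
    (ha : ∀ b : ℕ, 1 ≤ b → ∃ K, IsCompact K ∧ ∀ z, z ∉ Tr C K → ∀ u, Adm (S.e z) u →
      ∀ s ∈ Icc (0 : ℝ) 1, (1 - s) • S.vG j vec (G ^ b) (S.e z) + s • u ≠ 0) :
    ∃ F : Set X, F.Finite ∧ ∀ b : ℕ, 1 ≤ b → ∀ q, G ^ b • q = q → ∃ c ∈ C, c • q ∈ F := by
  have hd : DAct (range S.e) fun c : C => S.A c := dact fun c hc => (hC hc).1
  obtain ⟨K₁, hK₁, h1⟩ := ha 1 le_rfl
  rw [pow_one] at h1
  have a1 : Avoid (range S.e) (fun c : C => S.A c) Adm (S.e '' K₁) (S.vG j vec G) := by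
    rintro _ ⟨z, rfl⟩ hz u hu s hs
    exact h1 z (fun h' => hz (S.mem_orb_iff.2 h')) u hu s hs
  obtain ⟨F, hF⟩ := hd.exists_rep (h.vG_eqv hf hC) (h.vG_gen hG) (hK₁.image S.emb.continuous)
    (image_subset_range _ _) fun x hx h0 => a1.zero_mem hA hx h0
  refine finite_of_card_le F.card fun b hb T hT hT' => ?_
  obtain ⟨K, hK, h2⟩ := ha b hb
  have hb' : 0 < S.ht (G ^ b) := by
    rw [S.ht_pow]
    exact mul_pos (by exact_mod_cast hb) hG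
  have := h.fix_le hf hb' (hC.trans (S.cen_le_pow G b)) hA (hK.union hK₁) (h.vG_eqv hf hC)
    (h.vG_gen hG) (fun z hz u hu s hs =>
      ⟨h2 z (fun h' => hz (tr_mono le_rfl subset_union_left h')) u hu s hs,
        h1 z (fun h' => hz (tr_mono le_rfl subset_union_right h')) u hu s hs⟩) hF hT hT'
  exact_mod_cast this.trans (abs_sum_sgn_vg F _)

theorem SF.fst_mem_vg (h : S.SF pr j O₂ a vec) {ζ : E} (hζ : ζ ∈ range S.e) :
    (j ζ).1 ∈ ball (0 : ℂ) 1 := by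
  rw [h.range_eq] at hζ
  exact hζ.1

theorem SF.c1_vg (h : S.SF pr j O₂ a vec) {W : ℂ → ℂ} (hW : ContDiffOn ℝ 1 W (ball 0 1))
    {P : E → E₂} (hP : ContDiffOn ℝ 1 P (range S.e)) :
    ContDiffOn ℝ 1 (fun ζ => j.symm (W (j ζ).1, P ζ)) (range S.e) :=
  j.symm.contDiff.comp_contDiffOn
    ((hW.comp (contDiff_fst.comp j.contDiff).contDiffOn fun _ hζ => h.fst_mem_vg hζ).prodMk hP)

theorem SF.c1_snd_vg (h : S.SF pr j O₂ a vec) (G : 𝔾) :
    ContDiffOn ℝ 1 (fun ζ => (j (S.vG j vec G ζ)).2) (range S.e) :=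
  (contDiff_snd.comp j.contDiff).comp_contDiffOn (h.vG_c1 G)

theorem SF.snd_eqv_vg (h : S.SF pr j O₂ a vec) (hf : S.HF Φ pj pr set) (hc : c ∈ S.Cen G) (z : X) :
    (j (S.vG j vec G (S.e (c • z)))).2 =
      fderiv ℝ (a c) (j (S.e z)).2 (j (S.vG j vec G (S.e z))).2 := by
  have e : S.vG j vec G (S.A c (S.e z)) = S.D c z (S.vG j vec G (S.e z)) :=
    h.vG_eqv hf (C := S.Cen G) le_rfl ⟨c, hc⟩ (S.e z) ⟨z, rfl⟩
  rw [S.A_e] at e
  rw [e, h.D_prod hf hc.1]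

theorem SF.fst_smul_vg (h : S.SF pr j O₂ a vec) (hf : S.HF Φ pj pr set) (hc : S.ht c = 0) (z : X) :
    (j (S.e (c • z))).1 = kact (Φ.L (pj c)) (pr z).val := by
  rw [h.fst, hf.eqv c z hc]
  rfl

/-- The cone field made of a cone field of the factor and the second component of `vG`. -/
theorem SF.cone (h : S.SF pr j O₂ a vec) (hf : S.HF Φ pj pr set) {H₀ : Subgroup 𝔊}
    (hH : ∀ c ∈ S.Cen G, pj c ∈ H₀) {Adm₁ : ℂ → ℂ → Prop}
    (hA : Cone (ball 0 1) (fun b : H₀ => kact (Φ.L b)) Adm₁) :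
    Cone (range S.e) (fun c : S.Cen G => S.A c) fun ζ u => Adm₁ (j ζ).1 (j u).1 ∧
      ∃ θ : ℝ, 0 < θ ∧ (j u).2 = θ • (j (S.vG j vec G ζ)).2 := by
  refine ⟨?_, ?_, ?_, ?_⟩
  · rintro x hx w w' ⟨h1, θ, hθ, e⟩ ⟨h1', θ', hθ', e'⟩
    refine ⟨?_, θ + θ', add_pos hθ hθ', ?_⟩
    · rw [map_add, Prod.fst_add]
      exact hA.add _ (h.fst_mem_vg hx) _ _ h1 h1'
    · rw [map_add, Prod.snd_add, e, e', add_smul]
  · rintro x hx w s hs ⟨h1, θ, hθ, e⟩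
    refine ⟨?_, s * θ, mul_pos hs hθ, ?_⟩
    · rw [map_smul, Prod.smul_fst]
      exact hA.smul _ (h.fst_mem_vg hx) _ _ hs h1
    · rw [map_smul, Prod.smul_snd, e, mul_smul]
  · rintro ⟨c, hc⟩ _ ⟨z, rfl⟩ w ⟨h1, θ, hθ, e⟩
    show Adm₁ (j (S.A c (S.e z))).1 (j (S.D c z w)).1 ∧ ∃ θ : ℝ, 0 < θ ∧
      (j (S.D c z w)).2 = θ • (j (S.vG j vec G (S.A c (S.e z)))).2
    rw [S.A_e, h.D_prod hf hc.1, h.fst_smul_vg hf hc.1, h.snd_eqv_vg hf hc]
    refine ⟨?_, θ, hθ, ?_⟩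
    · rw [h.fst] at h1
      exact hA.eqv ⟨pj c, hH c hc⟩ _ (mem_ball_zero_iff.2 (pr z).lt) _ h1
    · rw [e, map_smul]
  · intro x₀ hx₀
    obtain ⟨W, hW, hev⟩ := hA.loc _ (h.fst_mem_vg hx₀)
    refine ⟨fun ζ => j.symm (W (j ζ).1, (j (S.vG j vec G ζ)).2), h.c1_vg hW (h.c1_snd_vg G), ?_⟩
    filter_upwards [(continuous_fst.comp j.continuous).continuousAt.eventually hev] with x hx
    rw [j.apply_symm_apply]
    exact ⟨hx, 1, one_pos, (one_smul _ _).symm⟩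

theorem SF.tr_of_near (h : S.SF pr j O₂ a vec) (hf : S.HF Φ pj pr set) (hG : S.ht G ≠ 0) (R : ℝ) :
    ∃ K, IsCompact K ∧ ∀ z, Φ.Near (Φ.Cen (pj G)) R (pr z) →
      (j (S.e (G • z))).2 = (j (S.e z)).2 → z ∈ Tr (S.Cen G) K := by
  obtain ⟨C₀, hC⟩ := hf.step G
  obtain ⟨R', hR⟩ := Φ.step_dist_le (pj G) C₀ R
  obtain ⟨K, hK, h1⟩ := tr_of_disp hG R'
  refine ⟨K, hK, fun z hz e => h1 z ((h.dist_le _ _ e).trans ?_)⟩
  rw [dist_comm]
  exact hR _ _ (hC z) hz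

theorem comb_eq_zero_vg {V : Type*} [AddCommGroup V] [Module ℝ V] {w : V} {s θ : ℝ}
    (hs : s ∈ Icc (0 : ℝ) 1) (hθ : 0 < θ) (h : (1 - s) • w + s • θ • w = 0) : w = 0 := by
  rw [smul_smul, ← add_smul] at h
  refine (smul_eq_zero.1 h).resolve_left (ne_of_gt ?_)
  rcases hs.1.eq_or_lt with h0 | h0
  · rw [← h0]; norm_num
  · have := mul_pos h0 hθ
    linarith [hs.2]

theorem SF.iness (h : S.SF pr j O₂ a vec) (hf : S.HF Φ pj pr set) : S.Iness pj := by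
  intro G p hG hp hst
  by_contra he
  obtain ⟨q, hq, hm⟩ := Fuchs.model0 (Φ := Φ) hst he
  have hq1 : ‖(q : ℂ)‖ ≤ 1 := (Circle.norm_coe q).le
  have heq : ∀ b ∈ Φ.Cen (pj G), ∀ x : ℂ, ‖x‖ < 1 →
      vec1 (kact (Φ.L b) x) q = fderiv ℝ (kact (Φ.L b)) x (vec1 x q) := fun b hb x hx => by
    rw [← (Φ.lor b).vec1_eqv hx hq1, ← Φ.bd_eq b q hb.1, hq b hb]
  have hne : ∀ x : KD, vec1 x.val q ≠ 0 := fun x h0 => by
    have := x.lt
    rw [(vec1_eq_zero x.lt hq1).1 h0, Circle.norm_coe] at this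
    exact lt_irrefl _ this
  have hA : Cone (ball 0 1) (fun b : Φ.Cen (pj G) => kact (Φ.L b))
      fun x w => ∃ c : ℝ, 0 < c ∧ w = c • vec1 x q := by
    refine ⟨?_, ?_, ?_, fun x₀ _ => ⟨fun x => vec1 x q, contDiffOn_vec1_left hq1,
      Eventually.of_forall fun x => ⟨1, one_pos, (one_smul _ _).symm⟩⟩⟩
    · rintro x - _ _ ⟨c, hc, rfl⟩ ⟨c', hc', rfl⟩
      exact ⟨c + c', add_pos hc hc', (add_smul _ _ _).symm⟩
    · rintro x - _ s hs ⟨c, hc, rfl⟩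
      exact ⟨s * c, mul_pos hs hc, smul_smul _ _ _⟩
    · rintro b x hx _ ⟨c, hc, rfl⟩
      exact ⟨c, hc, by rw [map_smul, heq b b.2 x (mem_ball_zero_iff.1 hx)]⟩
  obtain ⟨C₀, hC⟩ := hf.step G
  obtain ⟨R, hR⟩ := hm C₀
  obtain ⟨K, hK, h1⟩ := h.tr_of_near hf hG.ne' R
  have hv0 : ∀ z, j.symm (vec1 (j (S.e z)).1 q, (j (S.vG j vec G (S.e z))).2) ≠ 0 := fun z h0 => by
    have := congrArg (fun u => (j u).1) h0
    simp only [j.apply_symm_apply, map_zero, Prod.fst_zero, h.fst] at this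
    exact hne _ this
  have := h.fix_le hf hG le_rfl (h.cone hf (fun c hc => hf.mem_cen hc) hA) hK
    (v := fun ζ => j.symm (vec1 (j ζ).1 q, (j (S.vG j vec G ζ)).2)) ?_
    ⟨h.c1_vg (contDiffOn_vec1_left hq1) (h.c1_snd_vg G), ?_⟩ ?_ (F := ∅)
    ⟨by simp, ?_, by simp⟩ (T := {p}) (by simpa using hp) (by simp)
  · simp at this
  · rintro ⟨c, hc⟩ _ ⟨z, rfl⟩
    apply j.injective
    show j (j.symm (vec1 (j (S.A c (S.e z))).1 q, (j (S.vG j vec G (S.A c (S.e z)))).2)) =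
      j (S.D c z _)
    rw [S.A_e, h.D_prod hf hc.1, h.fst_smul_vg hf hc.1, h.snd_eqv_vg hf hc, j.apply_symm_apply,
      j.apply_symm_apply, heq _ (hf.mem_cen hc) _ (pr z).lt, h.fst]
  · rintro _ ⟨z, rfl⟩ h0
    exact (hv0 z h0).elim
  · rintro z hz u ⟨⟨c, hc, e1⟩, θ, hθ, e2⟩ s hs
    rw [h.fst] at e1
    refine ⟨fun h0 => hz ?_, fun h0 => ?_⟩
    · have f1 := congrArg (fun u => (j u).1) h0
      have f2 := congrArg (fun u => (j u).2) h0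
      simp only [map_add, map_smul, map_zero, Prod.fst_add, Prod.smul_fst, Prod.fst_zero,
        Prod.snd_add, Prod.smul_snd, Prod.snd_zero, e1, e2] at f1 f2
      have f3 := comb_eq_zero_vg hs hθ f2
      rw [h.vG_e] at f1 f3
      refine h1 z (hR _ _ (hC z) ?_) ((h.zero _ (h.snd_mem _) _ (h.snd_mem _)).1 f3).symm
      have e3 : c • vec1 (pr z).val q =
          (c * (rho (pr z).val (pr z).val / rho (pr z).val q)) • ((q : ℂ) - (pr z).val) := by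
        rw [vec1, smul_smul]
      rw [e3] at f1
      exact vec1_segment (pr z).lt (pr (G • z)).lt.le hs
        (mul_pos hc (div_pos (pr z).rho_pos (rho_pos (pr z).lt hq1))) f1
    · have f1 := congrArg (fun u => (j u).1) h0
      simp only [map_add, map_smul, map_zero, Prod.fst_add, Prod.smul_fst, Prod.fst_zero,
        e1, j.apply_symm_apply, h.fst] at f1
      exact hne _ (comb_eq_zero_vg hs hc f1)
  · rintro _ ⟨z, rfl⟩ h0
    exact (hv0 z h0).elim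

end Setting

end Pool.Agent.P.MP_788ef7_an
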