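import Pool.Agent.P.MP_788ef7_an.Slice1
import Pool.Agent.P.MP_788ef7_an.VG

set_option autoImplicit false
set_option linter.unusedSectionVars false

open Set Filter Topology Metric

namespace Pool.Agent.P.MP_788ef7_an

theorem exists_reps_slice {α : Type*} {r : α → α → Prop} (hr : Equivalence r) {A : Set α}
    (hA : A.Finite) : ∃ Z : Finset α, (∀ x ∈ Z, x ∈ A) ∧ (∀ x ∈ Z, ∀ x' ∈ Z, r x x' → x' = x) ∧
      ∀ x ∈ A, ∃ x' ∈ Z, r x x' := by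
  classical
  rcases isEmpty_or_nonempty α with h | h
  · exact ⟨∅, by simp, by simp, fun x => isEmptyElim x⟩
  have hf : ∀ x ∈ A, Classical.epsilon (fun x' => x' ∈ A ∧ r x x') ∈ A ∧
      r x (Classical.epsilon fun x' => x' ∈ A ∧ r x x') := fun x hx =>
    Classical.epsilon_spec (p := fun x' => x' ∈ A ∧ r x x') ⟨x, hx, hr.refl x⟩
  refine ⟨hA.toFinset.image fun x => Classical.epsilon fun x' => x' ∈ A ∧ r x x', ?_, ?_,
    fun x hx => ⟨_, Finset.mem_image_of_mem _ (hA.mem_toFinset.2 hx), (hf x hx).2⟩⟩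
  · intro x hx
    obtain ⟨y, hy, rfl⟩ := Finset.mem_image.1 hx
    exact (hf y (hA.mem_toFinset.1 hy)).1
  · intro x hx x' hx' e
    obtain ⟨y, hy, rfl⟩ := Finset.mem_image.1 hx
    obtain ⟨y', hy', rfl⟩ := Finset.mem_image.1 hx'
    have e' : r y y' := hr.trans (hr.trans (hf y (hA.mem_toFinset.1 hy)).2 e)
      (hr.symm (hf y' (hA.mem_toFinset.1 hy')).2)
    congr 1
    funext w
    exact propext ⟨fun h => ⟨h.1, hr.trans e' h.2⟩, fun h => ⟨h.1, hr.trans (hr.symm e') h.2⟩⟩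

theorem DAct.rep_move_slice {E : Type*} [NormedAddCommGroup E] [NormedSpace ℝ E]
    [FiniteDimensional ℝ E] {C : Type*} [Group C] {O : Set E} {a : C → E → E} {v : E → E}
    {F : Finset E} (h : DAct O a) (hv : Eqv O a v) (hF : IsRep O a v F) {B : E → Prop}
    (hB : ∀ x ∈ O, v x = 0 → ∃ c, B (a c x)) : ∃ F', IsRep O a v F' ∧ ∀ x ∈ F', B x := by
  classical
  choose! c hc using hB
  refine ⟨F.image fun x => a (c x) x, ⟨?_, ?_, ?_⟩, ?_⟩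
  · intro x hx
    obtain ⟨k, hk, rfl⟩ := Finset.mem_image.1 hx
    exact ⟨h.maps _ (hF.zero k hk).1, by rw [hv _ _ (hF.zero k hk).1, (hF.zero k hk).2, map_zero]⟩
  · intro x hx h0
    obtain ⟨d, k, hk, rfl⟩ := hF.cover x hx h0
    refine ⟨d * (c k)⁻¹, _, Finset.mem_image_of_mem _ hk, ?_⟩
    rw [← h.mul _ _ _ (hF.zero k hk).1, inv_mul_cancel_right]
  · intro x hx d hd
    obtain ⟨k, hk, rfl⟩ := Finset.mem_image.1 hx
    obtain ⟨k', hk', e⟩ := Finset.mem_image.1 hd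
    have e1 : a ((c k')⁻¹ * (d * c k)) k = k' := by
      rw [h.mul _ _ _ (hF.zero k hk).1, h.mul _ _ _ (hF.zero k hk).1, ← e,
        h.inv_push1 _ (hF.zero k' hk').1]
    have e2 := hF.uniq k hk _ (e1 ▸ hk')
    rw [← e, ← e1, e2]
  · intro x hx
    obtain ⟨k, hk, rfl⟩ := Finset.mem_image.1 hx
    exact hc k (hF.zero k hk).1 (hF.zero k hk).2

theorem sgn_mul_slice {E E₁ E₂ : Type*} [NormedAddCommGroup E] [NormedSpace ℝ E]
    [NormedAddCommGroup E₁] [NormedSpace ℝ E₁] [NormedAddCommGroup E₂] [NormedSpace ℝ E₂]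
    {D : E →L[ℝ] E} {D₁ : E₁ →L[ℝ] E₁} {D₂ : E₂ →L[ℝ] E₂} (h : D.det = D₁.det * D₂.det)
    (h₁ : D₁.det ≠ 0) (h₂ : D₂.det ≠ 0) : sgn D = sgn D₁ * sgn D₂ := by
  unfold sgn
  rw [h]
  rcases h₁.lt_or_gt with h₁ | h₁ <;> rcases h₂.lt_or_gt with h₂ | h₂
  · simp [h₁.not_gt, h₂.not_gt, mul_pos_of_neg_of_neg h₁ h₂]
  · simp [h₁.not_gt, h₂, (mul_neg_of_neg_of_pos h₁ h₂).not_gt]
  · simp [h₁, h₂.not_gt, (mul_neg_of_pos_of_neg h₁ h₂).not_gt]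
  · simp [h₁, h₂]

theorem comb_slice {V : Type*} [NormedAddCommGroup V] [NormedSpace ℝ V] {w P : V} {s θ l β : ℝ}
    (hs : s ∈ Icc (0 : ℝ) 1) (hθ : 0 < θ) (hP : ‖P‖ ≤ β)
    (h : (1 - s) • (w + l • P) + s • θ • w = 0) : ∃ u, ‖u‖ ≤ β ∧ w = l • u := by
  have h1 : 0 < 1 - s + s * θ := by
    rcases hs.1.eq_or_lt with h0 | h0
    · rw [← h0]; norm_num
    · have := mul_pos h0 hθ
      linarith [hs.2]
  have h2 : 0 ≤ 1 - s := sub_nonneg.2 hs.2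
  refine ⟨-(((1 - s) / (1 - s + s * θ)) • P), ?_, ?_⟩
  · rw [norm_neg, norm_smul, Real.norm_of_nonneg (div_nonneg h2 h1.le)]
    refine (mul_le_of_le_one_left (norm_nonneg _) ((div_le_one h1).2 ?_)).trans hP
    linarith [mul_nonneg hs.1 hθ.le]
  · refine smul_right_injective V h1.ne' ?_
    show (1 - s + s * θ) • w = (1 - s + s * θ) • l • -(((1 - s) / (1 - s + s * θ)) • P)
    rw [smul_comm _ l, smul_neg, smul_smul, mul_div_cancel₀ _ h1.ne']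
    linear_combination (norm := module) h

namespace Setting

variable {𝔾 X E : Type*} [Group 𝔾] [MetricSpace X] [MulAction 𝔾 X] [ProperSpace X]
  [NormedAddCommGroup E] [NormedSpace ℝ E] [FiniteDimensional ℝ E] {S : Setting 𝔾 X E}
  {g g' G G' γ c w : 𝔾} {p p' q x y z : X} {C : Subgroup 𝔾} {K : Set X} {R : ℝ}
  {𝔊 : Type*} [Group 𝔊] [MulAction 𝔊 Circle] {Φ : Fuchs 𝔊} {pj : 𝔾 →* 𝔊} {pr : X → KD}
  {set : X → KD → X} {H : Subgroup 𝔊} {a₁ a₂ r₁ r₂ : Circle}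
  {E₂ : Type*} [NormedAddCommGroup E₂] [NormedSpace ℝ E₂] {j : E ≃L[ℝ] ℂ × E₂} {O₂ : Set E₂}
  {a : 𝔾 → E₂ → E₂} {vec : E₂ → E₂ → E₂}
  {tr : 𝔾 → E₂}

/-- The determinant of a field whose first component depends on the first coordinate only. -/
theorem det_slice [FiniteDimensional ℝ E₂] (h : S.SF pr j O₂ a vec) {v : E → E}
    (hv : ContDiffOn ℝ 1 v (range S.e)) {V : ℂ → ℂ} (hV : ContDiffOn ℝ 1 V (ball 0 1))
    (h1 : ∀ ζ, (j (v ζ)).1 = V (j ζ).1) {W : E₂ → E₂} (z : X)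
    (h2 : ∀ z', pr z' = pr z → (j (v (S.e z'))).2 = W (j (S.e z')).2) :
    (fderiv ℝ v (S.e z)).det =
      (fderiv ℝ V (pr z).val).det * (fderiv ℝ W (j (S.e z)).2).det := by
  have d1 : HasFDerivAt v (fderiv ℝ v (S.e z)) (S.e z) :=
    ((hv.contDiffAt (S.emb.isOpen_range.mem_nhds ⟨z, rfl⟩)).differentiableAt (by simp)).hasFDerivAt
  have d2 : HasFDerivAt V (fderiv ℝ V (pr z).val) (j (S.e z)).1 := by
    rw [h.fst]
    exact ((hV.contDiffAt (isOpen_ball.mem_nhds (mem_ball_zero_iff.2 (pr z).lt))).differentiableAt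
      (by simp)).hasFDerivAt
  refine sgn_triangular j (fun w => ?_) fun w hw => ?_
  · have a1 := (j.hasFDerivAt.comp (S.e z) d1).fst
    have a2 := d2.comp (S.e z) j.hasFDerivAt.fst
    have e : (fun ζ => ((j ∘ v) ζ).1) = V ∘ fun ζ => (j ζ).1 := funext h1
    rw [e] at a1
    exact congrArg (fun L => L w) (a1.unique a2)
  · have e0 : j.symm ((pr z).val, (j (S.e z)).2) = S.e z := by
      rw [← h.fst, Prod.mk.eta, j.symm_apply_apply]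
    have a0 : HasFDerivAt (fun y => j.symm ((pr z).val, y))
        ((j.symm : ℂ × E₂ →L[ℝ] E).comp (ContinuousLinearMap.inr ℝ ℂ E₂)) (j (S.e z)).2 :=
      j.symm.hasFDerivAt.comp _ (hasFDerivAt_prodMk_right _ _)
    have d1' : HasFDerivAt v (fderiv ℝ v (S.e z)) (j.symm ((pr z).val, (j (S.e z)).2)) := by
      rw [e0]
      exact d1
    have a1 := (j.hasFDerivAt.comp (j (S.e z)).2 (d1'.comp (j (S.e z)).2 a0)).snd
    have e : W =ᶠ[𝓝 (j (S.e z)).2] fun y => (j (v (j.symm ((pr z).val, y)))).2 := by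
      filter_upwards [h.isOpen.mem_nhds (h.snd_mem z)] with y hy
      obtain ⟨z', e1, rfl⟩ := h.exists_pt (pr z) hy
      rw [← h2 z' e1, ← e1, ← h.fst, Prod.mk.eta, j.symm_apply_apply]
    rw [(a1.congr_of_eventuallyEq e).fderiv]
    have e3 : j.symm (0, (j w).2) = w := by rw [← hw, Prod.mk.eta, j.symm_apply_apply]
    simp [e3]

/-- The regrouping of the index along the slices. -/
theorem sum_slice {F : Finset E} {Z : Finset KD} (hF : ∀ k ∈ F, ∃ x ∈ Z, (j k).1 = x.val)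
    {f : E → ℤ} {σ : KD → ℤ} {g : KD → E₂ → ℤ} (hσ : ∀ x, |σ x| = 1)
    (hf : ∀ k ∈ F, ∀ x ∈ Z, (j k).1 = x.val → f k = σ x * g x (j k).2) :
    ∃ F' : KD → Finset E₂, (∀ x y, y ∈ F' x ↔ ∃ k ∈ F, j k = (x.val, y)) ∧
      |∑ k ∈ F, f k| ≤ ∑ x ∈ Z, |∑ y ∈ F' x, g x y| := by
  classical
  refine ⟨fun x => (F.filter fun k => (j k).1 = x.val).image fun k => (j k).2, fun x y => ?_, ?_⟩
  · simp only [Finset.mem_image, Finset.mem_filter, Prod.ext_iff, and_assoc]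
  · rw [← Finset.sum_fiberwise_of_maps_to (t := Z.image KD.val) (g := fun k => (j k).1)
      fun k hk => by
        obtain ⟨x, hx, e⟩ := hF k hk
        exact Finset.mem_image.2 ⟨x, hx, e.symm⟩, Finset.sum_image fun _ _ _ _ => KD.ext]
    refine (Finset.abs_sum_le_sum_abs _ _).trans (Finset.sum_le_sum fun x hx => le_of_eq ?_)
    rw [Finset.sum_image fun k hk k' hk' e => j.injective (Prod.ext
      ((Finset.mem_filter.1 hk).2.trans (Finset.mem_filter.1 hk').2.symm) e),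
      Finset.sum_congr rfl fun k hk => hf k (Finset.mem_filter.1 hk).1 x hx
        (Finset.mem_filter.1 hk).2, ← Finset.mul_sum, abs_mul, hσ, one_mul]

theorem finite_slice {H₀ : Subgroup 𝔊} (h0 : ∀ b ∈ H₀, Φ.ht b = 0) {Z₀ : Finset KD} {D : Set KD}
    (hD : ∀ x ∈ D, ∃ x₀ ∈ Z₀, ∃ u ∈ H₀, x = Φ.mv u x₀) (x : KD) (R : ℝ) :
    (D ∩ closedBall x R).Finite := by
  refine (Z₀.finite_toSet.biUnion fun x₀ _ =>
    (Φ.finite_mv x₀ x R).image fun u => Φ.mv u x₀).subset ?_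
  rintro w ⟨hw, hw'⟩
  obtain ⟨x₀, hx₀, u, hu, rfl⟩ := hD w hw
  exact mem_biUnion hx₀ ⟨u, ⟨h0 u hu, hw'⟩, rfl⟩

/-- The number of orbits of fixed points is bounded by indices on finitely many slices. -/
theorem slice_gen [FiniteDimensional ℝ E₂]
    (h : S.SF pr j O₂ (fun γ y => y + tr γ) fun y y' => y' - y)
    (hf : S.HF Φ pj pr set) (hs : ∀ γ, S.ht γ = 0 → ∃ ν, pj ν = 1 ∧ tr ν = tr γ)
    {G₀ : 𝔾} (hG : 0 < S.ht G₀) (hg : Stable (pj G₀)) {lam : E₂ → ℝ} (hl : ContDiffOn ℝ 1 lam O₂)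
    (hl' : ∀ γ, S.ht γ = 0 → ∀ y ∈ O₂, lam (y + tr γ) = lam y) : ∃ Z₀ : Finset KD,
    ∀ b : ℕ, 1 ≤ b → ∃ Z : Finset KD,
      (∀ x ∈ Z, ∃ x₀ ∈ Z₀, ∃ u ∈ Φ.Cen (pj G₀), x = Φ.mv u x₀) ∧
      (∀ x ∈ Z, ∀ c ∈ S.Cen (G₀ ^ b), Φ.mv (pj c) x ∈ Z → Φ.mv (pj c) x = x) ∧
      ∀ β : ℝ, 0 ≤ β → (∀ R, ∃ R', ∀ z, dist (pr (G₀ ^ b • z)) (pr z) ≤ R → ∀ u : E₂, ‖u‖ ≤ β →
          (j (S.e (G₀ ^ b • z))).2 - (j (S.e z)).2 = lam (j (S.e z)).2 • u →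
          dist (G₀ ^ b • z) z ≤ R') →
        ∀ (τ : KD → E₂) (W : KD → E₂ → E₂), (∀ x ∈ Z, ‖τ x‖ ≤ β) →
          (∀ z, W (pr z) (j (S.e z)).2 =
            (j (S.e (G₀ ^ b • z))).2 - (j (S.e z)).2 + lam (j (S.e z)).2 • τ (pr z)) →
          (∀ x ∈ Z, ∀ y ∈ O₂, W x y = 0 → (fderiv ℝ (W x) y).det ≠ 0) →
          ∀ T : Finset X, (∀ q ∈ T, G₀ ^ b • q = q) →
            (∀ q ∈ T, ∀ c ∈ S.Cen (G₀ ^ b), c • q ∈ T → c • q = q) →
            ∃ F : KD → Finset E₂, (∀ x ∈ Z, ∀ y ∈ F x, y ∈ O₂ ∧ W x y = 0) ∧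
              (∀ x ∈ Z, ∀ y ∈ O₂, W x y = 0 → ∃ ν, pj ν = 1 ∧ y + tr ν ∈ F x) ∧
              (T.card : ℤ) ≤ ∑ x ∈ Z, |∑ y ∈ F x, sgn (fderiv ℝ (W x) y)| := by
  obtain ⟨Adm, V, K₁, Z₁, hA, hM, hVe, hVg, hK₁, hK₁O, hVa, hZ₁⟩ := slice_model h hf hs hg
  have h0 : ∀ u ∈ Φ.Cen (pj G₀), Φ.ht u = 0 := fun u hu => hu.1
  have hball : ∀ x : KD, x.val ∈ ball (0 : ℂ) 1 := fun x => mem_ball_zero_iff.2 x.lt
  refine ⟨Z₁.preimage KD.val fun _ _ _ _ => KD.ext, fun b hb => ?_⟩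
  have hcen : Φ.Cen (pj (G₀ ^ b)) = Φ.Cen (pj G₀) := by rw [map_pow, Fuchs.cen_pow hg hb]
  have hM' := hM b hb
  rw [← map_pow] at hM'
  have hG' : 0 < S.ht (G₀ ^ b) := by
    rw [S.ht_pow]
    exact mul_pos (by exact_mod_cast hb) hG
  generalize G₀ ^ b = G at *
  have hH : ∀ c ∈ S.Cen G, pj c ∈ Φ.Cen (pj G₀) := fun c hc => hcen ▸ hf.mem_cen hc
  have hD : ∀ x ∈ {x : KD | V x.val = 0}, ∃ x₀ ∈ Z₁.preimage KD.val fun _ _ _ _ => KD.ext,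
      ∃ u ∈ Φ.Cen (pj G₀), x = Φ.mv u x₀ := fun x hx => by
    obtain ⟨u, k, hk, e⟩ := hZ₁.cover _ (hball x) hx
    exact ⟨⟨k, mem_ball_zero_iff.1 (hZ₁.zero k hk).1⟩, Finset.mem_preimage.2 hk, u, u.2, KD.ext e⟩
  have hDi : ∀ u ∈ Φ.Cen (pj G₀), ∀ x : KD, V x.val = 0 → V (Φ.mv u x).val = 0 := fun u hu x hx =>
    (hVe ⟨u, hu⟩ _ (hball x)).trans (by rw [hx, map_zero])
  obtain ⟨R₁, hR₁⟩ := Φ.near_orb h0 hK₁ hK₁O
  obtain ⟨K₂, hK₂, t₂⟩ := h.tr_of_near hf hG'.ne' R₁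
  rw [hcen] at t₂
  obtain ⟨R₂, hR₂⟩ := (hK₂.image hf.continuous_pr).isBounded.subset_closedBall KD.o
  obtain ⟨Z, z1, z2, z3⟩ := exists_reps_slice
    (r := fun x x' : KD => ∃ c ∈ S.Cen G, Φ.mv (pj c) x = x')
    ⟨fun x => ⟨1, one_mem _, by rw [map_one, Φ.mv_one]⟩, by
      rintro x _ ⟨c, hc, rfl⟩
      exact ⟨c⁻¹, inv_mem hc, by rw [map_inv, Φ.mv_inv_mv (h0 _ (hH c hc))]⟩, by
      rintro x _ _ ⟨c, hc, rfl⟩ ⟨c', hc', rfl⟩
      exact ⟨c' * c, mul_mem hc' hc, by rw [map_mul, Φ.mv_mul (h0 _ (hH c' hc'))]⟩⟩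
    (finite_slice h0 hD KD.o R₂)
  refine ⟨Z, fun x hx => hD x (z1 x hx).1, fun x hx c hc hc' => z2 x hx _ hc' ⟨c, hc, rfl⟩,
    fun β hβ hb τ W hτ hW hdet T hT hT' => ?_⟩
  obtain ⟨P, p1, p2, p3, p4, p5⟩ := slice_bump (Φ := Φ) (H₁ := (S.Cen G).map pj)
    (by rintro _ ⟨c, hc, rfl⟩; exact h0 _ (hH c hc)) (D := {x : KD | V x.val = 0})
    (fun x _ => by
      have := ((finite_slice h0 hD x 1).sdiff (t := {x})).isClosed.isOpen_compl.mem_nhds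
        (x := x) fun h' => h'.2 rfl
      filter_upwards [this, closedBall_mem_nhds x one_pos] with w h1 h2 h3
      exact not_not.1 fun h4 => h1 ⟨⟨h3, h2⟩, h4⟩)
    (by rintro _ ⟨c, hc, rfl⟩ x hx; exact hDi _ (hH c hc) x hx) (fun x hx => (z1 x hx).1)
    (by rintro x hx _ ⟨c, hc, rfl⟩ hc'; exact z2 x hx _ hc' ⟨c, hc, rfl⟩) hβ hτ
  obtain ⟨v, hv⟩ : ∃ v : E → E, ∀ ζ, j (v ζ) = (V (j ζ).1,
      (j (S.vG j (fun y y' => y' - y) G ζ)).2 + lam (j ζ).2 • P (j ζ).1) :=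
    ⟨fun ζ => j.symm _, fun ζ => j.apply_symm_apply _⟩
  have hve : ∀ z, j (v (S.e z)) = (V (pr z).val, (j (S.e (G • z))).2 - (j (S.e z)).2 +
      lam (j (S.e z)).2 • P (pr z).val) := fun z => by rw [hv, h.vG_e, h.fst]
  have hv0 : ∀ z, v (S.e z) = 0 ↔ V (pr z).val = 0 ∧ (j (S.e (G • z))).2 - (j (S.e z)).2 +
      lam (j (S.e z)).2 • P (pr z).val = 0 := fun z => by
    rw [← j.map_eq_zero_iff, hve, Prod.mk_eq_zero]
  have hvW : ∀ z, pr z ∈ Z → (j (v (S.e z))).2 = W (pr z) (j (S.e z)).2 := fun z hz => by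
    rw [hve, hW, p4 _ hz]
  have hvZ : ∀ z, pr z ∈ Z → (v (S.e z) = 0 ↔ W (pr z) (j (S.e z)).2 = 0) := fun z hz => by
    rw [hv0, hW, p4 _ hz]
    exact and_iff_right (z1 _ hz).1
  have hc1 : ContDiffOn ℝ 1 v (range S.e) := by
    have e : v = fun ζ => j.symm (V (j ζ).1,
        (j (S.vG j (fun y y' => y' - y) G ζ)).2 + lam (j ζ).2 • P (j ζ).1) :=
      funext fun ζ => by rw [← hv, j.symm_apply_apply]
    rw [e]
    refine h.c1_vg hVg.1 ((h.c1_snd_vg G).add (ContDiffOn.smul (f := fun ζ => lam (j ζ).2)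
      (hl.comp (contDiff_snd.comp j.contDiff).contDiffOn ?_)
      (p1.comp (contDiff_fst.comp j.contDiff).contDiffOn fun _ hζ => h.fst_mem_vg hζ)))
    rintro _ ⟨z, rfl⟩
    exact h.snd_mem z
  have heq : Eqv (range S.e) (fun c : S.Cen G => S.A c) v := by
    rintro ⟨c, hc⟩ _ ⟨z, rfl⟩
    apply j.injective
    show j (v (S.A c (S.e z))) = j (S.D c z _)
    rw [S.A_e, h.D_prod hf hc.1, hv, hv, h.snd_eqv_vg hf hc, h.act c z hc.1,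
      hl' c hc.1 _ (h.snd_mem z), h.fst, h.fst, hf.eqv c z hc.1, p3 _ ⟨c, hc, rfl⟩]
    refine Prod.ext (hVe ⟨pj c, hH c hc⟩ _ (hball _)) ?_
    simp only [fderiv_add_const, fderiv_fun_id, ContinuousLinearMap.id_apply]
  have hd : DAct (range S.e) fun c : S.Cen G => S.A c := dact fun c hc => hc.1
  have hmove : ∀ z, v (S.e z) = 0 → ∃ c ∈ S.Cen G, pr (c • z) ∈ Z := fun z hz => by
    obtain ⟨e1, e2⟩ := (hv0 z).1 hz
    by_contra hn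
    push Not at hn
    rw [p5 _ e1 (by rintro _ ⟨c, hc, rfl⟩; rw [← hf.eqv c z hc.1]; exact hn c hc), smul_zero,
      add_zero, sub_eq_zero] at e2
    obtain ⟨c, hc, hc'⟩ := t₂ z (hR₁ _ (hVa.zero_mem hA (hball _) e1)) e2
    obtain ⟨x', hx', c', hc'', e⟩ := z3 (pr (c • z))
      ⟨by rw [hf.eqv c z hc.1]; exact hDi _ (hH c hc) _ e1, hR₂ ⟨_, hc', rfl⟩⟩
    exact hn (c' * c) (mul_mem hc'' hc) (by rw [mul_smul, hf.eqv _ _ hc''.1, e]; exact hx')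
  have hdt : ∀ z, pr z ∈ Z → (fderiv ℝ v (S.e z)).det =
      (fderiv ℝ V (pr z).val).det * (fderiv ℝ (W (pr z)) (j (S.e z)).2).det := fun z hz =>
    det_slice h hc1 hVg.1 (fun ζ => by rw [hv]) z fun z' e => by rw [← e]; exact hvW z' (e ▸ hz)
  have hgen : Gen (range S.e) v := by
    refine ⟨hc1, ?_⟩
    rintro _ ⟨z, rfl⟩ hz
    obtain ⟨c, hc, hc'⟩ := hmove z hz
    have e1 : v (S.A c (S.e z)) = 0 := (heq ⟨c, hc⟩ _ ⟨z, rfl⟩).trans (by rw [hz, map_zero])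
    have e2 : (fderiv ℝ v (S.A c (S.e z))).det = _ := hd.det_eq heq hc1 ⟨c, hc⟩ ⟨z, rfl⟩ hz
    rw [S.A_e] at e1 e2
    rw [← e2, hdt _ hc']
    exact mul_ne_zero (hVg.2 _ (hball _) (z1 _ hc').1)
      (hdet _ hc' _ (h.snd_mem _) ((hvZ _ hc').1 e1))
  obtain ⟨C₀, hC₀⟩ := hf.step G
  obtain ⟨R₃, hR₃⟩ := hM' C₀
  obtain ⟨K₃, hK₃, t₃⟩ := h.tr_of_near hf hG'.ne' R₃
  obtain ⟨R₄, hR₄⟩ := Φ.step_dist_le (pj G) C₀ R₁
  rw [hcen] at t₃ hR₄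
  obtain ⟨R₅, hR₅⟩ := hb R₄
  obtain ⟨K₅, hK₅, t₅⟩ := tr_of_disp hG'.ne' R₅
  have hcone := h.cone hf hH hA
  have hav : ∀ z, z ∉ Tr (S.Cen G) (K₃ ∪ K₅) → ∀ u, (Adm (j (S.e z)).1 (j u).1 ∧ ∃ θ : ℝ, 0 < θ ∧
      (j u).2 = θ • (j (S.vG j (fun y y' => y' - y) G (S.e z))).2) → ∀ s ∈ Icc (0 : ℝ) 1,
      (1 - s) • S.vG j (fun y y' => y' - y) G (S.e z) + s • u ≠ 0 ∧
        (1 - s) • v (S.e z) + s • u ≠ 0 := by
    rintro z hz u ⟨e1, θ, hθ, e2⟩ s hs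
    rw [h.fst] at e1
    refine ⟨fun e => hz (tr_mono le_rfl subset_union_left ?_),
      fun e => hz (tr_mono le_rfl subset_union_right ?_)⟩
    all_goals
      have f1 := congrArg (fun u => (j u).1) e
      have f2 := congrArg (fun u => (j u).2) e
      simp only [map_add, map_smul, map_zero, Prod.fst_add, Prod.smul_fst, Prod.fst_zero,
        Prod.snd_add, Prod.smul_snd, Prod.snd_zero, e2, hve, h.vG_e] at f1 f2
    · exact t₃ z (hR₃ _ _ (hC₀ z) _ e1 s hs f1) (sub_eq_zero.1 (comb_eq_zero_vg hs hθ f2))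
    · obtain ⟨w, w1, w2⟩ := comb_slice hs hθ (p2 _) f2
      refine t₅ z (hR₅ z ?_ w w1 w2)
      rw [dist_comm]
      exact hR₄ _ _ (hC₀ z) (hR₁ _ (not_not.1 fun hn => hVa _ (hball _) hn _ e1 s hs f1))
  obtain ⟨F₀, hF₀⟩ := hd.exists_rep heq hgen ((hK₃.union hK₅).image S.emb.continuous)
    (image_subset_range _ _) fun x hx e => Avoid.zero_mem hcone (by
      rintro _ ⟨z, rfl⟩ hz u hu s hs
      exact (hav z (fun h' => hz (S.mem_orb_iff.2 h')) u hu s hs).2) hx e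
  obtain ⟨F₁, hF₁, hB⟩ := hd.rep_move_slice heq hF₀ (B := fun k => ∃ z, S.e z = k ∧ pr z ∈ Z) (by
    rintro _ ⟨z, rfl⟩ hz
    obtain ⟨c, hc, hc'⟩ := hmove z hz
    exact ⟨⟨c, hc⟩, c • z, (S.A_e c z).symm, hc'⟩)
  obtain ⟨F, f1, f2⟩ := sum_slice (j := j) (F := F₁) (Z := Z) (fun k hk => by
      obtain ⟨z, rfl, hz⟩ := hB k hk
      exact ⟨_, hz, h.fst z⟩) (f := fun k => sgn (fderiv ℝ v k))
    (σ := fun x => sgn (fderiv ℝ V x.val)) (g := fun x y => sgn (fderiv ℝ (W x) y))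
    (fun x => by unfold sgn; split_ifs <;> simp) (fun k hk x hx e => by
      obtain ⟨z, rfl, hz⟩ := hB k hk
      obtain rfl : pr z = x := KD.ext ((h.fst z).symm.trans e)
      exact sgn_mul_slice (hdt z hz) (hVg.2 _ (hball _) (z1 _ hz).1)
        (hdet _ hz _ (h.snd_mem _) ((hvZ _ hz).1 (hF₁.zero _ hk).2)))
  refine ⟨F, fun x hx y hy => ?_, fun x hx y hy e => ?_,
    (h.fix_le hf hG' le_rfl hcone (hK₃.union hK₅) heq hgen hav hF₁ hT hT').trans f2⟩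
  · obtain ⟨k, hk, e⟩ := (f1 x y).1 hy
    obtain ⟨z, rfl, hz⟩ := hB k hk
    obtain rfl : pr z = x := KD.ext ((h.fst z).symm.trans (congrArg Prod.fst e))
    obtain rfl : (j (S.e z)).2 = y := congrArg Prod.snd e
    exact ⟨h.snd_mem z, (hvZ z hz).1 (hF₁.zero _ hk).2⟩
  · obtain ⟨z, rfl, rfl⟩ := h.exists_pt x hy
    obtain ⟨c, k, hk, e'⟩ := hF₁.cover _ ⟨z, rfl⟩ ((hvZ z hx).2 e)
    obtain ⟨z', rfl, hz'⟩ := hB k hk
    rw [S.A_e] at e'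
    obtain rfl : z' = (c⁻¹ : S.Cen G).1 • z := by
      rw [S.emb.injective e', Subgroup.coe_inv, inv_smul_smul]
    obtain ⟨ν, n1, n2⟩ := hs _ (c⁻¹).2.1
    refine ⟨ν, n1, (f1 _ _).2 ⟨_, hk, Prod.ext ?_ ?_⟩⟩
    · rw [h.fst, z2 _ hx _ hz' ⟨_, (c⁻¹).2, (hf.eqv _ z (c⁻¹).2.1).symm⟩]
    · rw [h.act _ z (c⁻¹).2.1, n2]

end Setting

end Pool.Agent.P.MP_788ef7_an
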