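import Pool.Agent.P.MP_788ef7_an.SS1
import Pool.Agent.P.MP_788ef7_an.Slice
import Pool.Agent.P.MP_788ef7_an.Baire
import Pool.Agent.P.MP_788ef7_an.DL
import Pool.Agent.P.MP_788ef7_an.Fam

set_option autoImplicit false
set_option linter.unusedSectionVars false

open Set Filter Topology Metric

namespace Pool.Agent.P.MP_788ef7_an

namespace Setting

variable {𝔾 X E : Type*} [Group 𝔾] [MetricSpace X] [MulAction 𝔾 X] [ProperSpace X]
  [NormedAddCommGroup E] [NormedSpace ℝ E] [FiniteDimensional ℝ E] {S : Setting 𝔾 X E}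
  {g g' G G' γ c w : 𝔾} {p p' q x y z : X} {C : Subgroup 𝔾} {K : Set X} {R : ℝ}
  {𝔊 : Type*} [Group 𝔊] [MulAction 𝔊 Circle] {Φ : Fuchs 𝔊} {pj : 𝔾 →* 𝔊} {pr : X → KD}
  {set : X → KD → X} {H : Subgroup 𝔊} {a₁ a₂ r₁ r₂ : Circle}
  {j : E ≃L[ℝ] ℂ × E3}

theorem ht_pow_pos_ssc (hG : 0 < S.ht G) {b : ℕ} (hb : 1 ≤ b) : 0 < S.ht (G ^ b) := by
  rw [S.ht_pow]
  exact mul_pos (by exact_mod_cast hb) hG

theorem pow_fix_ssc (hp : G • p = p) (n : ℕ) : G ^ n • p = p :=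
  MulAction.mem_stabilizer_iff.1 (pow_mem (MulAction.mem_stabilizer_iff.2 hp) n)

theorem conj_pow_ssc (hn : ∀ c ∈ C, G * c * G⁻¹ ∈ C) (n : ℕ) :
    ∀ c ∈ C, G ^ n * c * (G ^ n)⁻¹ ∈ C := by
  induction n with
  | zero => simp
  | succ n ih =>
    intro c hc
    have e : G ^ (n + 1) * c * (G ^ (n + 1))⁻¹ = G * (G ^ n * c * (G ^ n)⁻¹) * G⁻¹ := by
      rw [pow_succ']
      group
    rw [e]
    exact hn _ (ih c hc)

theorem rpow_mem_ssc {x θ m M : ℝ} (hm : 0 < m) (h1 : m ≤ x) (h2 : x ≤ M) (h0 : 0 ≤ θ)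
    (h3 : θ ≤ 1) : min m 1 ≤ x ^ θ ∧ x ^ θ ≤ max M 1 := by
  have hx : 0 < x := hm.trans_le h1
  rcases le_total x 1 with h | h
  · refine ⟨(min_le_left _ _).trans (h1.trans ?_),
      (Real.rpow_le_one hx.le h h0).trans (le_max_right _ _)⟩
    have := Real.rpow_le_rpow_of_exponent_ge hx h h3
    rwa [Real.rpow_one] at this
  · refine ⟨(min_le_right _ _).trans (Real.one_le_rpow h h0),
      le_trans ?_ (h2.trans (le_max_left _ _))⟩
    have := Real.rpow_le_rpow_of_exponent_le h h3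
    rwa [Real.rpow_one] at this

theorem SS.stay_ssc (h : S.SS Φ pj pr set j) (R : ℝ) : ∃ K, IsCompact K ∧
    ∀ H : Subgroup 𝔊, (∀ a ∈ H, Φ.ht a = 0) → ∀ g : 𝔾, ∀ z ∈ S.Λ, z ∈ Stay g (NearP Φ pr H R) →
      z ∈ Stay g (Tr (H.comap pj) K) := by
  obtain ⟨K, hK, h1⟩ := h.tr R 1 1 one_pos
  refine ⟨K, hK, fun H hH g z hz hs n => ?_⟩
  have := (h.mem _).1 (S.smul_mem (g ^ n) z hz)
  exact h1 H hH _ (hs n) this.ge this.le

theorem SS.fix_fin (h : S.SS Φ pj pr set j) (hG : 0 < S.ht G) (hs : Stable (pj G)) :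
    ∃ F : Set X, F.Finite ∧ ∀ b : ℕ, 1 ≤ b → ∀ q, G ^ b • q = q → ∃ c ∈ S.Cen G, c • q ∈ F := by
  have hsf : S.SF pr j {0}ᶜ (fun γ y => y + (fun _ : 𝔾 => (0 : E3)) γ) fun y y' => y' - y := by
    have e : (fun (γ : 𝔾) (y : E3) => y + (fun _ : 𝔾 => (0 : E3)) γ) = fun _ y => y :=
      funext fun _ => funext fun y => add_zero y
    rw [e]
    exact h.sf
  obtain ⟨Z₀, hZ⟩ := slice_gen hsf h.hf (fun _ _ => ⟨1, map_one pj, rfl⟩) hG hs
    (lam := fun y : E3 => ‖y‖) (fun y hy => (contDiffAt_norm ℝ hy).contDiffWithinAt)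
    fun _ _ y _ => by rw [add_zero]
  refine finite_of_card_le (2 * Z₀.card) fun b hb T hT hT' => ?_
  have hGb := ht_pow_pos_ssc hG hb
  have ec : S.Cen (G ^ b) = S.Cen G := by
    rw [h.cen, h.cen, map_pow, Fuchs.cen_pow hs hb]
  obtain ⟨Z, z1, z2, z3⟩ := hZ b hb
  choose τ W w1 w2 w3 w4 using h.slice hGb
  obtain ⟨F, f1, f2, f3⟩ := z3 (1 / 2) (by norm_num) (h.disp hGb) τ W (fun x _ => w1 x)
    (fun z => w2 (pr z) z rfl) (fun x _ y hy => w3 x y hy) T hT (by rw [ec]; exact hT')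
  have k1 : ∑ x ∈ Z, |∑ y ∈ F x, sgn (fderiv ℝ (W x) y)| ≤ Z.card • (2 : ℤ) := by
    refine Finset.sum_le_card_nsmul _ _ _ fun x hx => w4 x (F x) fun y => ⟨f1 x hx y, fun hy => ?_⟩
    obtain ⟨ν, -, hν⟩ := f2 x hx y hy.1 hy.2
    rwa [add_zero] at hν
  have k2 : Z.card ≤ Z₀.card := by
    choose! x₀ a1 u a2 a3 using z1
    refine Finset.card_le_card_of_injOn x₀ (fun x hx => a1 x hx) fun x hx x' hx' e => ?_
    obtain ⟨c, hc⟩ := h.hf.surj (u x' * (u x)⁻¹)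
    have b1 : Φ.mv (pj c) x = x' := by
      rw [hc, Φ.mv_mul (a2 x' hx').1]
      have := Φ.mv_inv_mv (a2 x hx).1 (x₀ x)
      rw [← a3 x hx] at this
      rw [this, e]
      exact (a3 x' hx').symm
    have b2 : c ∈ S.Cen (G ^ b) := by
      rw [ec, h.cen, Subgroup.mem_comap, hc]
      exact mul_mem (a2 x' hx') (inv_mem (a2 x hx))
    rw [← b1]
    exact (z2 x hx c b2 (b1.symm ▸ hx')).symm
  rw [nsmul_eq_mul] at k1
  omega

theorem SS.finPer (h : S.SS Φ pj pr set j) (hc : Φ.Core H (pj G)) : S.FinPer (H.comap pj) G := by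
  have hr := h.hf.region hc
  refine ⟨hr.le, hr.norm, ?_⟩
  obtain ⟨T, hT, t1, t2⟩ := hc.fin
  choose l hl using h.hf.surj
  have k : ∀ E' ∈ T, ∃ F : Set X, F.Finite ∧ ∀ b : ℕ, 1 ≤ b → ∀ q, l E' ^ b • q = q →
      ∃ c ∈ S.Cen (l E'), c • q ∈ F := fun E' hE =>
    h.fix_fin (by rw [← h.hf.ht_eq, hl]; exact (t1 E' hE).1) (by rw [hl]; exact (t1 E' hE).2.1)
  choose! F f1 f2 using k
  refine ⟨⋃ E' ∈ T, F E', hT.biUnion f1, fun c hcm i hi q hq => ?_⟩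
  have hpos : 0 < S.ht (c * G ^ i) := by
    rw [S.ht_mul, hr.le c hcm, zero_add]
    exact ht_pow_pos_ssc hr.pos hi
  obtain ⟨n, hn, h1⟩ := (h.sf.iness h.hf).exists_pow Φ hpos hq
  obtain ⟨c', hc', e⟩ := exists_mul_pow (conj_pow_ssc (fun c hc => (hr.norm c).1 hc) i) hcm n
  have h2 := h1 1 le_rfl
  rw [mul_one, e, map_mul, ← pow_mul, map_pow] at h2
  obtain ⟨E', hE, h', hh', a, b, -, hb, e2⟩ := t2 (pj c') hc' (i * n)
    (Nat.mul_pos hi hn) h2.1 h2.2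
  have e3 : ((c * G ^ i) ^ n) ^ a = l h' * l E' ^ b * (l h')⁻¹ := by
    refine (injective_iff_map_eq_one pj).2 h.inj ?_
    rw [e, ← pow_mul G, map_pow, map_mul, map_pow, e2, map_mul, map_mul, map_inv, map_pow, hl, hl]
  have h3 := pow_fix_ssc (pow_fix_ssc hq n) a
  rw [e3, mul_smul, mul_smul, smul_eq_iff_eq_inv_smul] at h3
  obtain ⟨c₁, hc₁, h4⟩ := f2 E' hE b hb _ h3
  refine ⟨c₁ * (l h')⁻¹, mul_mem ?_ (inv_mem ?_), ?_⟩
  · have := h.hf.mem_cen hc₁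
    rw [hl] at this
    exact (t1 E' hE).2.2 this
  · rw [Subgroup.mem_comap, hl]
    exact hh'
  · rw [mul_smul]
    exact mem_biUnion hE h4

theorem SS.exists_regular (h : S.SS Φ pj pr set j) (hu : 1 ≤ S.u) :
    ∃ (G : 𝔾) (p : X), 0 < S.ht G ∧ G • p = p ∧ Φ.Regular (pj G) := by
  obtain ⟨F, H, hb, hc⟩ := h.hf.fam (h.sf.iness h.hf)
  obtain ⟨G, p, hG, hp, h1, -⟩ := baire hb.region (k := 1) (U := univ) (fun w G hG a ha hr => by
      refine hG a ha ?_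
      have := hr.conj (pj w)⁻¹
      rwa [conj_pow, map_mul, map_mul, map_inv, _root_.inv_inv, ← mul_assoc, ← mul_assoc,
        inv_mul_cancel, one_mul, inv_mul_cancel_right] at this) hb.trap le_rfl isOpen_univ
    (by rw [univ_inter]; exact S.nonempty) fun i w n _ R => by
      obtain ⟨K, hK, k1⟩ := h.stay_ssc R
      have t1 := (h.finPer (hc i).1).thin (hb.region i).pos hK hu fun x hx => h.wu_subset hx
      have t2 : S.Thin (Stay (F.g i) (F.A i R)) := by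
        rw [(hc i).2]
        exact t1.mono fun z hz => k1 _ (hc i).1.le _ z hz.2 hz.1
      rw [univ_inter]
      exact t2.smul w
  simp only [not_forall, not_not] at h1
  obtain ⟨a, ha, hr⟩ := h1
  exact ⟨G ^ a, p, ht_pow_pos_ssc hG ha, pow_fix_ssc hp a, hr⟩

theorem SS.false (h : S.SS Φ pj pr set j) (hu : 2 ≤ S.u) : False := by
  obtain ⟨G, p, hG, hp, hreg⟩ := h.exists_regular (by omega)
  have hc := hreg.core (by rw [h.hf.ht_eq]; exact hG)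
  obtain ⟨a₁, a₂, r₁, r₂, hr⟩ := hreg
  obtain ⟨ψ, c1, c2, c3, -⟩ := exists_flow hr.ne_a
  have cp := h.hf.continuous_pr
  refine e3 (h.finPer hc) hG hp hu (κ := fun z => kap a₁ a₂ (pr z).val)
    (ψ := fun s z => set z (ψ s (pr z))) (B := univ) ((continuous_kap a₁ a₂).comp cp)
    (h.hf.cont.comp (continuous_snd.prodMk
      (c1.comp (continuous_fst.prodMk (cp.comp continuous_snd)))))
    (fun z => by rw [c2, h.hf.set_pr]) (fun s z => by rw [h.hf.pr_set, c3])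
    (fun _ _ _ => mem_univ _) ?_ (fun M => ?_) fun T hT => ?_
  · obtain ⟨M, hM⟩ := h.hf.ws_kap hr hG hp
    exact ⟨M, fun z hz _ => hM z hz⟩
  · obtain ⟨R, hR⟩ := h.hf.wu_kap hr hG hp M
    obtain ⟨K, hK, k1⟩ := h.stay_ssc R
    exact ⟨K, hK, fun z hz hM =>
      k1 _ hc.le _ z (h.wu_subset (mem_of_fix hG.ne' hp) hz) (hR z hz hM)⟩
  · have cy : Continuous fun z : X => ‖(j (S.e z)).2‖ :=
      (j.continuous.comp S.emb.continuous).snd.norm
    obtain ⟨L, hL⟩ := hT.bddAbove_image (cp.dist continuous_const (g := fun _ => KD.o)).continuousOn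
    obtain ⟨M, hM⟩ := hT.bddAbove_image cy.continuousOn
    obtain ⟨m, hm, hm'⟩ := hT.exists_forall_le' cy.continuousOn (a := 0)
      fun z _ => norm_pos_iff.2 (h.sf.snd_mem z)
    obtain ⟨R, hR⟩ := h.hf.core_ws hc hp L
    obtain ⟨K, hK, k1⟩ := h.tr R (min m 1) (max M 1) (lt_min hm one_pos)
    refine ⟨K, hK, fun z hz _ n => ?_⟩
    have b1 : -S.ht (G ^ n) ≤ 0 := by
      rw [S.ht_pow, neg_nonpos]
      positivity
    have b2 := rpow_mem_ssc hm (hm' z hz.2) (hM (mem_image_of_mem _ hz.2))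
      (zpow_nonneg zero_le_two _) (zpow_le_one_of_nonpos₀ one_le_two b1)
    rw [← h.rad] at b2
    exact k1 _ hc.le _ (hR z hz.1 (mem_nearP_bot.2 (hL (mem_image_of_mem _ hz.2))) n) b2.1 b2.2

end Setting

end Pool.Agent.P.MP_788ef7_an
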