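import Pool.Agent.P.MP_788ef7_an.Mk
import Pool.Agent.P.MP_788ef7_an.SSc
import Pool.Agent.P.MP_788ef7_an.Cover
import Pool.Agent.P.MP_788ef7_an.Models

set_option autoImplicit false

open Set Filter Topology Metric

namespace Pool.Agent.P.MP_788ef7_an

variable {M : Type*} {f : Equiv.Perm M} {N u s : ℕ} {lam : ℝ} {Γ₁ : Subgroup (KD ≃ᵢ KD)}

/-- The extension of a map by a contraction of the radial direction. -/
theorem exists_ext {A Z : Type} (F₀ : Equiv.Perm (A × Z)) : ∃ F : Equiv.Perm (A × Z × ℝ),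
    (∀ x y r, F (x, y, r) = ((F₀ (x, y)).1, (F₀ (x, y)).2, r / 2)) ∧
      ∀ (n : ℤ) x y r, (F ^ n) (x, y, r) =
        (((F₀ ^ n) (x, y)).1, ((F₀ ^ n) (x, y)).2, (2 : ℝ) ^ (-n) * r) := by
  let F : Equiv.Perm (A × Z × ℝ) :=
    { toFun := fun z => ((F₀ (z.1, z.2.1)).1, (F₀ (z.1, z.2.1)).2, z.2.2 / 2)
      invFun := fun z => ((F₀.symm (z.1, z.2.1)).1, (F₀.symm (z.1, z.2.1)).2, 2 * z.2.2)
      left_inv := fun z => by
        simp only [Prod.mk.eta, Equiv.symm_apply_apply]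
        exact Prod.ext rfl (Prod.ext rfl (by ring))
      right_inv := fun z => by
        simp only [Prod.mk.eta, Equiv.apply_symm_apply]
        exact Prod.ext rfl (Prod.ext rfl (by ring)) }
  refine ⟨F, fun _ _ _ => rfl, fun n x y r => ?_⟩
  have h1 := semiconj_zpow_mk (F := F) (f := F₀) (φ := fun z : A × Z × ℝ => (z.1, z.2.1))
    (fun _ => rfl) n (x, y, r)
  have h2 := smul_zpow_mk (F := F) (φ := fun z : A × Z × ℝ => z.2.2)
    (fun z => by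
      change z.2.2 / 2 = (2 : ℝ)⁻¹ * z.2.2
      ring) n (x, y, r)
  have h3 := congrArg Prod.fst h1
  have h4 := congrArg Prod.snd h1
  exact Prod.ext h3 (Prod.ext h4 h2)

theorem norm_polar_builds (y : sphere (0 : E3) 1) (r : ℝ) :
    ‖Real.exp r • (y : E3)‖ = Real.exp r := by
  rw [norm_smul, norm_eq_of_mem_sphere, mul_one, Real.norm_eq_abs, abs_of_pos (Real.exp_pos r)]

theorem nrm_ext_builds {Z : Type} [MetricSpace Z] {F₀ : Equiv.Perm (KD × Z)}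
    {F : Equiv.Perm (KD × Z × ℝ)} {c : ℝ → ℝ}
    (h : ∀ x y r, F (x, y, r) = ((F₀ (x, y)).1, (F₀ (x, y)).2, c r)) (n : Nrm F₀ Γ₁ ⊥) :
    Nrm F Γ₁ ⊥ := by
  intro γ₁ m₁ γ₂ m₂
  obtain ⟨δ₁, k₁, δ₂, k₂, e⟩ := n γ₁ m₁ 1 (one_mem _)
  rw [Subgroup.mem_bot] at m₂ k₂
  subst m₂ k₂
  refine ⟨δ₁, k₁, 1, one_mem _, fun x ⟨y, r⟩ => ?_⟩
  have e' : F₀ (γ₁ x, y) = (δ₁ (F₀ (x, y)).1, (F₀ (x, y)).2) := e x y
  change F (γ₁ x, y, r) = (δ₁ (F (x, y, r)).1, (F (x, y, r)).2)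
  rw [h, h, e']

theorem cont_ext_builds {Z : Type} [MetricSpace Z] {F₀ : Equiv.Perm (KD × Z)}
    {F : Equiv.Perm (KD × Z × ℝ)} {c : ℝ → ℝ}
    (h : ∀ x y r, F (x, y, r) = ((F₀ (x, y)).1, (F₀ (x, y)).2, c r)) (hF : Continuous F₀)
    (hc : Continuous c) : Continuous F := by
  have e : (F : KD × Z × ℝ → KD × Z × ℝ) =
      fun z => ((F₀ (z.1, z.2.1)).1, (F₀ (z.1, z.2.1)).2, c z.2.2) :=
    funext fun z => h z.1 z.2.1 z.2.2
  rw [e]
  fun_prop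

theorem nrm₂_bot_builds {Y : Type} [MetricSpace Y] (F : Equiv.Perm (KD × Y)) : Nrm₂ F ⊥ := by
  intro γ m
  rw [Subgroup.mem_bot] at m
  subst m
  exact ⟨1, one_mem _, fun _ _ => rfl⟩

theorem raw_builds {F₀ : Equiv.Perm (KD × sphere (0 : E3) 1)} (h₁ : Lat Γ₁ univ)
    (o₁ : ∀ γ ∈ Γ₁, IsOP γ) {F : Equiv.Perm (KD × sphere (0 : E3) 1 × ℝ)} (hF : Continuous F)
    (hF' : Continuous (F⁻¹ : Equiv.Perm (KD × sphere (0 : E3) 1 × ℝ)))
    (e1 : ∀ x y r, F (x, y, r) = ((F₀ (x, y)).1, (F₀ (x, y)).2, r / 2))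
    (e2 : ∀ (n : ℤ) x y r, (F ^ n) (x, y, r) =
      (((F₀ ^ n) (x, y)).1, ((F₀ ^ n) (x, y)).2, (2 : ℝ) ^ (-n) * r)) :
    Raw F Γ₁ ⊥ (fun p : sphere (0 : E3) 1 × ℝ => Real.exp p.2 • (p.1 : E3)) (fun _ y => y)
      (fun y y' => y' - y) Prod.snd fun p => (p.1, 0) := by
  obtain ⟨y₀, hy₀⟩ : (sphere (0 : E3) 1).Nonempty := NormedSpace.sphere_nonempty.2 zero_le_one
  refine
    { lat₁ := h₁
      op₁ := o₁
      lat₂ := ⟨fun γ m _ _ => Subgroup.mem_bot.1 m, fun x R =>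
        (finite_singleton 1).subset fun γ m => Subgroup.mem_bot.1 m.1,
        ⟨(⟨y₀, hy₀⟩, 0), 2, fun x hx => ⟨1, one_mem _, ?_⟩⟩⟩
      nrm₂ := nrm₂_bot_builds _
      nrm₂' := nrm₂_bot_builds _
      cont := hF
      cont' := hF'
      emb := isOpenEmbedding_polar
      star := by rw [range_polar]; exact twoStar_punctured
      act := fun γ m y => by rw [Subgroup.mem_bot.1 m]; rfl
      c2 := fun _ _ => contDiffOn_id
      c1 := (contDiff_snd.sub contDiff_fst).contDiffOn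
      zero := fun y _ y' _ => by rw [sub_eq_zero, eq_comm]
      eqv := fun γ _ y _ y' _ => by rw [fderiv_fun_id]; rfl
      diag := fun y _ => hasFDerivAt_snd.sub hasFDerivAt_fst
      η_lip := fun y y' => le_max_right _ _
      η_inv := fun γ m y => by rw [Subgroup.mem_bot.1 m]; rfl
      η_F := fun z => congrArg (fun w => w.2.2) (e1 z.1 z.2.1 z.2.2)
      η_ρ := fun _ => rfl
      dist_ρ := fun y => ?_
      fst_ρ := fun n x y => ?_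
      nonempty := ⟨(⟨y₀, hy₀⟩, 0)⟩ }
  · have e : x.2 = 0 := hx
    change dist x _ ≤ 2
    rw [Prod.dist_eq, e, dist_self, Subtype.dist_eq]
    refine max_le ((dist_le_norm_add_norm _ _).trans ?_) zero_le_two
    rw [norm_eq_of_mem_sphere, norm_eq_of_mem_sphere, one_add_one_eq_two]
  · rw [Prod.dist_eq, dist_self, Real.dist_eq, sub_zero]
    exact max_le (abs_nonneg _) le_rfl
  · obtain ⟨y, r⟩ := y
    rw [e2, e2]

theorem false_s {F₀ : Equiv.Perm (KD × sphere (0 : E3) 1)} (h₁ : Lat Γ₁ univ)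
    (o₁ : ∀ γ ∈ Γ₁, IsOP γ) (hF : Continuous F₀)
    (hF' : Continuous (F₀⁻¹ : Equiv.Perm (KD × sphere (0 : E3) 1))) (n : Nrm F₀ Γ₁ ⊥)
    (n' : Nrm F₀⁻¹ Γ₁ ⊥) {q : ℂ × E3 → M} {p : KD × sphere (0 : E3) 1 → M}
    {e : KD × sphere (0 : E3) 1 × ℝ → ℂ × E3}
    (he : e = Prod.map KD.val fun p : sphere (0 : E3) 1 × ℝ => Real.exp p.2 • (p.1 : E3))
    {Q : KD × sphere (0 : E3) 1 × ℝ → ℂ × E3 →L[ℝ] ℂ × E3}
    (hh : HypD e (Cov e q (fun ζ => Real.log ‖ζ.2‖) f 1) Q u s lam) (hu : 2 ≤ u)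
    (hq : ∀ x y r, q (e (x, y, r)) = p (x, y)) (c₁ : ∀ z, p (F₀ z) = f (p z))
    (c₂ : ∀ γ₁ ∈ Γ₁, ∀ x y, p (γ₁ x, y) = p (x, y)) : False := by
  obtain ⟨F, e1, e2⟩ := exists_ext F₀
  have e3 : ∀ x y r, F⁻¹ (x, y, r) = ((F₀⁻¹ (x, y)).1, (F₀⁻¹ (x, y)).2, 2 * r) := fun x y r => by
    have := e2 (-1) x y r
    rwa [zpow_neg_one, zpow_neg_one, neg_neg, zpow_one] at this
  have cF : Continuous F := cont_ext_builds (c := fun r => r / 2) e1 hF (by fun_prop)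
  have cF' : Continuous (F⁻¹ : Equiv.Perm (KD × sphere (0 : E3) 1 × ℝ)) :=
    cont_ext_builds (c := fun r => 2 * r) e3 hF' (by fun_prop)
  have hr := raw_builds h₁ o₁ cF cF' e1 e2
  have := hr.nonempty
  obtain ⟨𝔾, _, _, ht, t, l₁, l₂, hp⟩ := mk_pres (nrm_ext_builds (c := fun r => r / 2) e1 n)
    (nrm_ext_builds (c := fun r => 2 * r) e3 n')
  have hτ : ∀ x y r, Real.log ‖(e (x, y, r)).2‖ = r := fun x y r => by
    rw [he]
    exact (congrArg Real.log (norm_polar_builds y r)).trans (Real.log_exp r)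
  have hc : ∀ g : 𝔾, Cov e q (fun ζ => Real.log ‖ζ.2‖) f 1 (ht g) fun z => g • z := by
    refine hp.cov cF cF' (fun ⟨x, y, r⟩ => ?_) (fun ⟨x, y, r⟩ => ?_) fun γ₁ m₁ γ₂ m₂ x ⟨y, r⟩ => ?_
    · rw [e1, hq, hq, pow_one]
      exact c₁ (x, y)
    · rw [e1, hτ, hτ, smul_eq_mul, div_eq_inv_mul]
    · rw [Subgroup.mem_bot.1 m₂]
      change q (e (γ₁ x, y, r)) = _ ∧ Real.log ‖(e (γ₁ x, y, r)).2‖ = _
      rw [hq, hq, hτ, hτ]
      exact ⟨c₂ γ₁ m₁ x y, rfl⟩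
  subst he
  obtain ⟨S, s1, -, s2, s3, s4⟩ := mk_setting hp hr hh hc
  obtain ⟨𝔊, _, _, Φ, pj, hf, hk⟩ := mk_hf hp hr s1 s3
  have hs := mk_sf hp hr s1 s2
  rw [range_polar] at hs
  have hg : ∀ g : 𝔾, ∃ γ₁ : KD ≃ᵢ KD, ∀ x y r, g • (x, y, r) =
      (γ₁ ((F₀ ^ ht g) (x, y)).1, ((F₀ ^ ht g) (x, y)).2, (2 : ℝ) ^ (-ht g) * r) := fun g => by
    obtain ⟨γ₁, -, γ₂, m₂, eg⟩ := hp.exists_eq g
    refine ⟨γ₁, fun x y r => ?_⟩
    rw [eg, Subgroup.mem_bot.1 m₂, e2]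
    rfl
  have hj : ∀ x (y : sphere (0 : E3) 1) r,
      (ContinuousLinearEquiv.refl ℝ (ℂ × E3) (S.e (x, y, r))).2 = Real.exp r • (y : E3) :=
    fun x y r => by rw [s2]; rfl
  refine Setting.SS.false (S := S) (Φ := Φ) (pj := pj) (j := ContinuousLinearEquiv.refl ℝ _)
    ⟨hf, hs, fun ⟨x, y, r⟩ x' => by rw [hj, hj], fun G hG => ?_, fun ⟨x, y, r⟩ => ?_,
      fun g ⟨x, y, r⟩ => ?_, fun g ⟨x, y, r⟩ ⟨x', y', r'⟩ c hc0 k1 k2 => ?_⟩ (s4 ▸ hu)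
  · obtain ⟨k1, k2⟩ := (hk G).1 hG
    exact hp.inj G k1 k2 (Subgroup.mem_bot.1 (hp.mem₂ G k1))
  · rw [hj, norm_polar_builds, s3, Real.exp_eq_one_iff]
    rfl
  · obtain ⟨γ₁, eg⟩ := hg g
    rw [eg, hj, hj, norm_polar_builds, norm_polar_builds, s1, mul_comm, Real.exp_mul]
  · obtain ⟨γ₁, eg⟩ := hg g
    have k0 : x' = x := k1
    rw [hj, hj] at k2
    have k3 : Real.exp r' = c * Real.exp r := by
      have := congrArg norm k2
      rwa [norm_polar_builds, norm_smul, norm_polar_builds, Real.norm_eq_abs, abs_of_pos hc0]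
        at this
    have k4 : y' = y := by
      rw [smul_smul, ← k3] at k2
      exact Subtype.ext (smul_right_injective E3 (Real.exp_pos r').ne' k2)
    subst k0 k4
    rw [eg, eg, hj, hj, s1, smul_smul, mul_comm _ r', mul_comm _ r, Real.exp_mul, Real.exp_mul, k3,
      Real.mul_rpow hc0.le (Real.exp_pos r).le]
    exact ⟨rfl, rfl⟩

end Pool.Agent.P.MP_788ef7_an
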