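import Pool.Agent.P.MP_788ef7_an.SB2

set_option autoImplicit false
set_option linter.unusedSectionVars false

open Set Filter Topology Metric

namespace Pool.Agent.P.MP_788ef7_an

namespace Setting

variable {𝔾 X E : Type*} [Group 𝔾] [MetricSpace X] [MulAction 𝔾 X] [ProperSpace X]
  [NormedAddCommGroup E] [NormedSpace ℝ E] [FiniteDimensional ℝ E] {S : Setting 𝔾 X E}
  {g g' G G' γ c w : 𝔾} {p p' q x y z : X} {C : Subgroup 𝔾} {K : Set X} {R : ℝ}

theorem subset_tr (C : Subgroup 𝔾) (K : Set X) : K ⊆ Tr C K := fun z hz =>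
  ⟨1, C.one_mem, by rwa [one_smul]⟩

theorem tr_mono {C' : Subgroup 𝔾} {K' : Set X} (h : C ≤ C') (h' : K ⊆ K') : Tr C K ⊆ Tr C' K' :=
  fun _ ⟨c, hc, hz⟩ => ⟨c, h hc, h' hz⟩

theorem tr_bot (K : Set X) : Tr (⊥ : Subgroup 𝔾) K = K := by
  refine Subset.antisymm ?_ (subset_tr _ _)
  rintro z ⟨c, hc, hz⟩
  rwa [Subgroup.mem_bot.1 hc, one_smul] at hz

theorem smul_mem_tr (hc : c ∈ C) : c • z ∈ Tr C K ↔ z ∈ Tr C K :=
  ⟨fun ⟨d, hd, hz⟩ => ⟨d * c, C.mul_mem hd hc, by rwa [mul_smul]⟩,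
    fun ⟨d, hd, hz⟩ => ⟨d * c⁻¹, C.mul_mem hd (C.inv_mem hc), by rwa [mul_smul, inv_smul_smul]⟩⟩

theorem isClosed_tr (hC : ∀ c ∈ C, S.ht c = 0) (hK : IsCompact K) : IsClosed (Tr C K) := by
  have e : Tr C K = ⋃ c : C, (fun z : X => (c : 𝔾) • z) ⁻¹' K := by
    ext z
    simp [Tr]
  rw [e]
  refine LocallyFinite.isClosed_iUnion (fun z => ⟨closedBall z 1, closedBall_mem_nhds z one_pos,
    ?_⟩) fun c => hK.isClosed.preimage (S.cont_smul c)
  refine ((S.finite_meet (isCompact_closedBall z 1) hK 0).preimage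
    Subtype.val_injective.injOn).subset ?_
  rintro c ⟨x, hx, hx'⟩
  exact ⟨hC c c.2, x, hx', hx⟩

theorem stay_mono {A B : Set X} (h : A ⊆ B) : Stay g A ⊆ Stay g B := fun _ hz n => h (hz n)

theorem stay_pow {A : Set X} (n : ℕ) : Stay g A ⊆ Stay (g ^ n) A := fun z hz m => by
  rw [← pow_mul]
  exact hz _

theorem stay_smul {A : Set X} (h : z ∈ Stay g A) (n : ℕ) : g ^ n • z ∈ Stay g A := fun m => by
  rw [smul_smul, ← pow_add]
  exact h _

theorem isClosed_stay (S : Setting 𝔾 X E) {A : Set X} (h : IsClosed A) : IsClosed (Stay g A) := by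
  have e : Stay g A = ⋂ n : ℕ, (fun z : X => g ^ n • z) ⁻¹' A := by
    ext z
    simp [Stay]
  rw [e]
  exact isClosed_iInter fun n => h.preimage (S.cont_smul _)

theorem exists_mul_pow (hn : ∀ c ∈ C, g * c * g⁻¹ ∈ C) (hc : c ∈ C) (n : ℕ) :
    ∃ c' ∈ C, (c * g) ^ n = c' * g ^ n := by
  induction n with
  | zero => exact ⟨1, C.one_mem, by simp⟩
  | succ n ih =>
    obtain ⟨d, hd, e⟩ := ih
    exact ⟨c * (g * d * g⁻¹), C.mul_mem hc (hn d hd), by rw [pow_succ', e, pow_succ']; group⟩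

theorem conj_pow_sbasic (hn : ∀ c ∈ C, g * c * g⁻¹ ∈ C) (n : ℕ) :
    ∀ c ∈ C, g ^ n * c * (g ^ n)⁻¹ ∈ C := by
  intro c hc
  induction n with
  | zero => simpa using hc
  | succ n ih =>
    have e : g ^ (n + 1) * c * (g ^ (n + 1))⁻¹ = g * (g ^ n * c * (g ^ n)⁻¹) * g⁻¹ := by
      rw [pow_succ']
      group
    rw [e]
    exact hn _ ih

theorem Region.mono {A : ℝ → Set X} (h : S.Region C g A) {R' : ℝ} (hR : R ≤ R') : A R ⊆ A R' :=
  fun z hz => by simpa using h.grow R (R' - R) z z hz (by simpa using hR)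

theorem Region.closure_stay {A : ℝ → Set X} (h : S.Region C g A) (R : ℝ) :
    closure (Stay g (A R)) ⊆ Stay g (A (R + 1)) := fun z hz n => by
  have h1 : g ^ n • z ∈ closure (A R) := map_mem_closure (S.cont_smul _) hz fun _ h' => h' n
  obtain ⟨y, hy, hd⟩ := Metric.mem_closure_iff.1 h1 1 one_pos
  exact h.grow R 1 y _ hy hd.le

theorem Region.stay_smul {A : ℝ → Set X} (h : S.Region C g A) (hc : c ∈ C) :
    c • z ∈ Stay g (A R) ↔ z ∈ Stay g (A R) := by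
  have key : ∀ c ∈ C, ∀ z ∈ Stay g (A R), c • z ∈ Stay g (A R) := fun c hc z hz n => by
    have := h.inv _ (conj_pow_sbasic (fun c hc => (h.norm c).1 hc) n c hc) R _ (hz n)
    rwa [mul_smul, inv_smul_smul, mul_smul] at this
  exact ⟨fun hz => by simpa using key _ (C.inv_mem hc) _ hz, key c hc z⟩

theorem Region.stay_mul_pow {A : ℝ → Set X} (h : S.Region C g A) (hc : c ∈ C) (j : ℕ) :
    Stay g (A R) ⊆ Stay (c * g ^ j) (A R) := fun z hz n => by
  obtain ⟨d, hd, e⟩ := exists_mul_pow (conj_pow_sbasic (fun c hc => (h.norm c).1 hc) j) hc n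
  rw [e, mul_smul, ← pow_mul]
  exact h.inv d hd R _ (hz _)

theorem Thin.mono {A B : Set X} (h : S.Thin B) (hAB : A ∩ S.Λ ⊆ B) : S.Thin A :=
  fun U hU hA => h U hU fun _ hz => hAB ⟨hA hz, hz.2⟩

theorem Thin.smul {B : Set X} (h : S.Thin B) (w : 𝔾) : S.Thin {z | w • z ∈ B} := by
  intro U hU hA
  have h1 := h _ (hU.preimage (S.cont_smul w⁻¹)) fun z hz => by
    have : w • w⁻¹ • z ∈ B := hA ⟨hz.1, S.smul_mem _ _ hz.2⟩
    rwa [smul_inv_smul] at this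
  refine eq_empty_of_forall_notMem fun z hz => ?_
  have : w • z ∈ (fun x : X => w⁻¹ • x) ⁻¹' U ∩ S.Λ :=
    ⟨by rw [mem_preimage, inv_smul_smul]; exact hz.1, S.smul_mem _ _ hz.2⟩
  rw [h1] at this
  exact this

theorem FinPer.inv (h : S.FinPer C G) : S.inv.FinPer C G⁻¹ := by
  obtain ⟨F, hF, hf⟩ := h.fin
  refine ⟨fun c hc => neg_eq_zero.2 (h.le c hc), fun c => ?_, F, hF, fun c hc j hj q hq => ?_⟩
  · rw [h.norm (G⁻¹ * c * G⁻¹⁻¹), show G * (G⁻¹ * c * G⁻¹⁻¹) * G⁻¹ = c by group]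
  · refine hf _ (conj_pow_sbasic (fun c hc => (h.norm c).1 hc) j _ (C.inv_mem hc)) j hj q ?_
    rw [show G ^ j * c⁻¹ * (G ^ j)⁻¹ * G ^ j = (c * G⁻¹ ^ j)⁻¹ by group, inv_smul_eq_iff, hq]

/-- A uniform bound on the number of orbits gives a finite set of representatives. -/
theorem finite_of_card_le (N : ℕ) (h : ∀ b : ℕ, 1 ≤ b → ∀ T : Finset X, (∀ q ∈ T, G ^ b • q = q) →
    (∀ q ∈ T, ∀ c ∈ C, c • q ∈ T → c • q = q) → T.card ≤ N) :
    ∃ F : Set X, F.Finite ∧ ∀ b : ℕ, 1 ≤ b → ∀ q, G ^ b • q = q → ∃ c ∈ C, c • q ∈ F := by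
  classical
  let P : Set ℕ := {n | ∃ b : ℕ, 1 ≤ b ∧ ∃ T : Finset X, (∀ q ∈ T, G ^ b • q = q) ∧
    (∀ q ∈ T, ∀ c ∈ C, c • q ∈ T → c • q = q) ∧ T.card = n}
  have hb : BddAbove P := ⟨N, fun n ⟨b, hb, T, h1, h2, h3⟩ => h3 ▸ h b hb T h1 h2⟩
  obtain ⟨b₀, hb₀, T, h1, h2, h3⟩ := Nat.sSup_mem (s := P) ⟨0, 1, le_rfl, ∅, by simp⟩ hb
  refine ⟨T, T.finite_toSet, fun b hb1 q hq => ?_⟩
  by_contra hc
  push Not at hc
  have hq' : q ∉ T := by simpa using hc 1 C.one_mem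
  have hm : T.card + 1 ∈ P := by
    refine ⟨b * b₀, Nat.mul_pos hb1 hb₀, insert q T, fun x hx => ?_, fun x hx c hc' hcx => ?_,
      Finset.card_insert_of_notMem hq'⟩
    · rcases Finset.mem_insert.1 hx with rfl | hx
      · rw [pow_mul]
        exact (MulAction.stabilizer 𝔾 x).pow_mem hq b₀
      · rw [pow_mul']
        exact (MulAction.stabilizer 𝔾 x).pow_mem (h1 x hx) b
    · rcases Finset.mem_insert.1 hx with rfl | hx
      · exact (Finset.mem_insert.1 hcx).resolve_right (hc c hc')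
      · rcases Finset.mem_insert.1 hcx with e | hcx
        · exact absurd (by rwa [← e, inv_smul_smul]) (hc c⁻¹ (C.inv_mem hc'))
        · exact h2 x hx c hc' hcx
  have := le_csSup hb hm
  omega

theorem dact (hC : ∀ c ∈ C, S.ht c = 0) : DAct (range S.e) fun c : C => S.A c := by
  refine ⟨S.emb.isOpen_range, ?_, ?_, ?_, fun c => S.c2 c (hC c c.2), fun K hK hK' => ?_, ?_⟩
  · rintro c _ ⟨x, rfl⟩
    exact ⟨_, (S.A_e _ _).symm⟩
  · rintro _ ⟨x, rfl⟩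
    rw [S.A_e, Subgroup.coe_one, one_smul]
  · rintro c c' _ ⟨x, rfl⟩
    rw [S.A_e, S.A_e, S.A_e, Subgroup.coe_mul, mul_smul]
  · have hc := S.isCompact_preimage hK hK'
    refine ((S.finite_meet hc hc 0).preimage Subtype.val_injective.injOn).subset ?_
    rintro c ⟨x, hx, hx'⟩
    obtain ⟨z, rfl⟩ := hK' hx
    rw [S.A_e] at hx'
    exact ⟨hC c c.2, z, hx, hx'⟩
  · rintro c _ ⟨x, rfl⟩ h
    rw [S.A_e] at h
    exact Subtype.ext (S.free c x (hC c c.2) (S.emb.injective h))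

theorem mem_orb_iff (S : Setting 𝔾 X E) :
    S.e z ∈ Orb (fun c : C => S.A c) (S.e '' K) ↔ z ∈ Tr C K := by
  constructor
  · rintro ⟨c, _, ⟨k, hk, rfl⟩, e⟩
    exact ⟨c⁻¹, C.inv_mem c.2, by rwa [S.emb.injective (e.trans (S.A_e _ _)), inv_smul_smul]⟩
  · rintro ⟨c, hc, hz⟩
    exact ⟨⟨c⁻¹, C.inv_mem hc⟩, _, ⟨_, hz, rfl⟩,
      ((S.A_e c⁻¹ _).trans (by rw [inv_smul_smul])).symm⟩

/-- Straight line homotopies. -/
theorem exists_line (hc : Convex ℝ (range S.e)) : ∃ ℓ : ℝ → X → X → X,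
    Continuous (fun q : ℝ × X × X => ℓ q.1 q.2.1 q.2.2) ∧ (∀ a b, ℓ 0 a b = a) ∧
      (∀ a b, ℓ 1 a b = b) ∧ ∀ τ a, ℓ τ a a = a := by
  let φ := S.emb.isEmbedding.toHomeomorph
  let π : ℝ → Icc (0 : ℝ) 1 := projIcc 0 1 zero_le_one
  have key : ∀ (v : range S.e) (a : X), v.1 = S.e a → φ.symm v = a := fun v a h =>
    φ.symm_apply_eq.2 (Subtype.ext h)
  refine ⟨fun s a b => φ.symm ⟨(1 - (π s : ℝ)) • S.e a + (π s : ℝ) • S.e b,
    hc (mem_range_self a) (mem_range_self b) (sub_nonneg.2 (π s).2.2) (π s).2.1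
      (sub_add_cancel _ _)⟩, ?_, fun a b => key _ _ ?_, fun a b => key _ _ ?_,
    fun s a => key _ _ ?_⟩
  · have h1 : Continuous fun q : ℝ × X × X => (π q.1 : ℝ) :=
      continuous_subtype_val.comp (continuous_projIcc.comp continuous_fst)
    have h2 := S.emb.continuous
    exact φ.symm.continuous.comp (Continuous.subtype_mk
      (((continuous_const.sub h1).smul (h2.comp continuous_snd.fst)).add
        (h1.smul (h2.comp continuous_snd.snd))) _)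
  · simp [π]
  · simp [π]
  · simp [← add_smul]

end Setting

end Pool.Agent.P.MP_788ef7_an
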