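import Pool.Agent.P.MP_788ef7_an.Dyn1
import Pool.Agent.P.MP_788ef7_an.SBasic

set_option autoImplicit false
set_option linter.unusedSectionVars false
set_option linter.unusedVariables false

open Set Filter Topology Metric

namespace Pool.Agent.P.MP_788ef7_an

namespace Setting

variable {𝔾 X E : Type*} [Group 𝔾] [MetricSpace X] [MulAction 𝔾 X] [ProperSpace X]
  [NormedAddCommGroup E] [NormedSpace ℝ E] [FiniteDimensional ℝ E] {S : Setting 𝔾 X E}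
  {g g' G G' γ c w : 𝔾} {p p' q x y z : X} {C : Subgroup 𝔾} {K : Set X} {R : ℝ}

/-- Recurrence modulo a group of deck transformations. -/
theorem recur (hC : ∀ c ∈ C, S.ht c = 0) (hK : IsCompact K) (h : z ∈ Stay G (Tr C K)) {δ : ℝ}
    (hδ : 0 < δ) (n₀ : ℕ) : ∃ n ≥ n₀, ∃ c ∈ C, ∀ m₀ : ℕ, ∃ m ≥ m₀, ∃ c' ∈ C,
      dist ((c' * G ^ (n + m)) • z) ((c * G ^ n) • z) ≤ δ := by
  choose c hc hcK using h
  obtain ⟨a, -, φ, hφ, hlim⟩ := hK.tendsto_subseq hcK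
  obtain ⟨N, hN⟩ := Metric.tendsto_atTop.1 hlim (δ / 2) (half_pos hδ)
  refine ⟨φ (max N n₀), (le_max_right _ _).trans hφ.le_apply, c (φ (max N n₀)), hc _, fun m₀ => ?_⟩
  have h1 := hφ.add_le_nat m₀ (max N n₀)
  refine ⟨φ (m₀ + max N n₀) - φ (max N n₀), by omega, c (φ (m₀ + max N n₀)), hc _, ?_⟩
  have h2 : φ (max N n₀) + (φ (m₀ + max N n₀) - φ (max N n₀)) = φ (m₀ + max N n₀) := by omega
  rw [h2, mul_smul, mul_smul]
  have h3 := hN (m₀ + max N n₀) (by omega)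
  have h4 := hN (max N n₀) (le_max_left _ _)
  simp only [Function.comp_apply] at h3 h4
  linarith [dist_triangle_right (c (φ (m₀ + max N n₀)) • G ^ φ (m₀ + max N n₀) • z)
    (c (φ (max N n₀)) • G ^ φ (max N n₀) • z) a]

theorem exists_periodic (S : Setting 𝔾 X E) : ∃ (G : 𝔾) (p : X), 0 < S.ht G ∧ G • p = p := by
  obtain ⟨z, hz⟩ := S.nonempty
  obtain ⟨K, hK, h⟩ := S.exists_cpt 0
  have hs : z ∈ Stay S.t (Tr S.Γ K) := fun n => by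
    obtain ⟨γ, h0, h1⟩ := h _ (S.smul_mem (S.t ^ n) z hz)
    exact ⟨γ, mem_Γ.2 h0, h1 _ (dist_self _).le⟩
  obtain ⟨δ, hδ, hcl⟩ := S.closing one_pos
  obtain ⟨n, -, c, hc, h1⟩ := recur (S := S) (fun c hc => mem_Γ.1 hc) hK hs hδ 0
  obtain ⟨m, hm, c', hc', h2⟩ := h1 1
  have h3 : 0 < S.ht (c' * S.t ^ (n + m) * (c * S.t ^ n)⁻¹) := by
    rw [S.ht_mul, S.ht_mul, S.ht_inv, S.ht_mul, S.ht_pow, S.ht_pow, S.ht_t, mem_Γ.1 hc,
      mem_Γ.1 hc']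
    push_cast
    omega
  obtain ⟨q, hq, -⟩ := hcl _ (S.smul_mem (c * S.t ^ n) z hz) _ h3
    (by rwa [smul_smul, inv_mul_cancel_right])
  exact ⟨_, q, h3, hq⟩

theorem zpow_cases_dyn (t : 𝔾) (m : ℤ) :
    (∃ k : ℕ, m = k ∧ t ^ m = t ^ k) ∨ ∃ k : ℕ, m = -k ∧ t ^ m = t⁻¹ ^ k := by
  obtain ⟨k, rfl | rfl⟩ := m.eq_nat_or_neg
  · exact Or.inl ⟨k, rfl, zpow_natCast _ _⟩
  · exact Or.inr ⟨k, rfl, by rw [zpow_neg, zpow_natCast, inv_pow]⟩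

theorem countable_inter (hp : p ∈ S.Λ) (hq : q ∈ S.Λ) : (S.Wu p ∩ S.Ws q).Countable := by
  obtain ⟨ε, hε, hexp⟩ := S.expansive
  have hsub : S.Wu p ∩ S.Ws q ⊆ ⋃ n : ℕ, {z | z ∈ S.Λ ∧ ∀ m ≥ n,
      dist (S.t ^ m • z) (S.t ^ m • q) ≤ ε / 2 ∧ dist (S.t⁻¹ ^ m • z) (S.t⁻¹ ^ m • p) ≤ ε / 2} := by
    rintro z ⟨hu, hs⟩
    rw [mem_wu] at hu
    obtain ⟨R₁, h₁⟩ := hu.bddAbove_range
    obtain ⟨R₂, h₂⟩ := Filter.Tendsto.bddAbove_range hs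
    have hz : z ∈ S.Λ := S.lm (max R₁ R₂) z fun n => by
      rcases zpow_cases_dyn S.t n with ⟨k, -, e⟩ | ⟨k, -, e⟩ <;> rw [e]
      · exact ⟨_, S.smul_mem _ q hq, (h₂ ⟨k, rfl⟩).trans (le_max_right _ _)⟩
      · exact ⟨_, S.smul_mem _ p hp, (h₁ ⟨k, rfl⟩).trans (le_max_left _ _)⟩
    have e1 := hu.eventually (ge_mem_nhds (half_pos hε))
    have e2 := Filter.Tendsto.eventually hs (ge_mem_nhds (half_pos hε))
    obtain ⟨n, hn⟩ := eventually_atTop.1 (e2.and e1)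
    exact mem_iUnion.2 ⟨n, hz, hn⟩
  refine Countable.mono hsub (countable_iUnion fun n => ?_)
  obtain ⟨δ, hδ, hun⟩ := S.unif n 0 hε
  refine Set.PairwiseDisjoint.countable_of_isOpen (s := fun z => ball z (δ / 2)) ?_
    (fun _ _ => isOpen_ball) fun z _ => nonempty_ball.2 (half_pos hδ)
  rintro y ⟨hy, hy'⟩ z ⟨hz, hz'⟩ hne
  refine ball_disjoint_ball (not_lt.1 fun hlt => hne (hexp z hz y fun m => ?_))
  by_cases hm : |m| ≤ n
  · refine hun _ ?_ z hz z y (dist_self _).le (by linarith)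
    rwa [S.ht_zpow, S.ht_t, mul_one]
  · rcases zpow_cases_dyn S.t m with ⟨k, rfl, e⟩ | ⟨k, rfl, e⟩ <;> rw [e]
    · have hk : k ≥ n := by
        rw [abs_of_nonneg (by omega)] at hm
        omega
      linarith [dist_triangle_right (S.t ^ k • y) (S.t ^ k • z) (S.t ^ k • q), (hy' k hk).1,
        (hz' k hk).1]
    · have hk : k ≥ n := by
        rw [abs_neg, abs_of_nonneg (by omega)] at hm
        omega
      linarith [dist_triangle_right (S.t⁻¹ ^ k • y) (S.t⁻¹ ^ k • z) (S.t⁻¹ ^ k • p), (hy' k hk).2,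
        (hz' k hk).2]

theorem conj_pow_mem_dyn (hn : ∀ c, c ∈ C ↔ G * c * G⁻¹ ∈ C) (hc : c ∈ C) (m : ℕ) :
    G ^ m * c * (G ^ m)⁻¹ ∈ C := by
  induction m with
  | zero => simpa using hc
  | succ m ih =>
    have e : G ^ (m + 1) * c * (G ^ (m + 1))⁻¹ = G * (G ^ m * c * (G ^ m)⁻¹) * G⁻¹ := by
      rw [pow_succ']
      group
    rw [e]
    exact (hn _).1 ih

/-- Trapped points lie on countably many stable manifolds. -/
theorem FinPer.trap (h : S.FinPer C G) (hG : 0 < S.ht G) (hK : IsCompact K) :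
    ∃ P : Set X, P.Countable ∧ P ⊆ S.Λ ∧ ∀ z ∈ S.Λ, z ∈ Stay G (Tr C K) → ∃ q ∈ P, z ∈ S.Ws q := by
  obtain ⟨F, hF, hfin⟩ := h.fin
  have := S.countable
  refine ⟨image2 (fun (g : 𝔾) (f : X) => g • f) univ F ∩ S.Λ,
    (countable_univ.image2 hF.countable _).mono inter_subset_left, inter_subset_right,
    fun z hz hs => ?_⟩
  obtain ⟨ε, hε, hws⟩ := S.ws_of_close
  obtain ⟨δ, hδ, hcl⟩ := S.closing hε
  obtain ⟨n, -, c, hc, h1⟩ := recur h.le hK hs hδ 0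
  have hx : (c * G ^ n) • z ∈ S.Λ := S.smul_mem _ z hz
  have hT := (S.finite_meet (isCompact_closedBall ((c * G ^ n) • z) ε) hF.isCompact 0).image2
    (fun (g : 𝔾) (f : X) => g⁻¹ • f) hF
  have key : ∀ k : ℕ, ∃ q ∈ image2 (fun (g : 𝔾) (f : X) => g⁻¹ • f)
      {g | S.ht g = 0 ∧ ∃ x ∈ closedBall ((c * G ^ n) • z) ε, g • x ∈ F} F, q ∈ S.Λ ∧
      ∀ j ≤ k, dist (S.t ^ j • q) (S.t ^ j • (c * G ^ n) • z) ≤ ε := by
    intro k
    obtain ⟨m, hm, c', hc', h2⟩ := h1 (k + 1)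
    have hc'' : c' * (G ^ m * c⁻¹ * (G ^ m)⁻¹) ∈ C :=
      C.mul_mem hc' (conj_pow_mem_dyn h.norm (C.inv_mem hc) m)
    have e : c' * G ^ (n + m) = c' * (G ^ m * c⁻¹ * (G ^ m)⁻¹) * G ^ m * (c * G ^ n) := by
      rw [add_comm, pow_add]
      group
    have h3 : (m : ℤ) ≤ S.ht (c' * (G ^ m * c⁻¹ * (G ^ m)⁻¹) * G ^ m) := by
      rw [S.ht_mul, h.le _ hc'', S.ht_pow, zero_add]
      exact le_mul_of_one_le_right (by omega) hG
    rw [e, mul_smul] at h2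
    obtain ⟨q, hq, h4⟩ := hcl _ hx _ (by omega) h2
    obtain ⟨d, hd, hdq⟩ := hfin _ hc'' m (by omega) q hq
    have h5 := h4 0 (by omega)
    rw [pow_zero, one_smul, one_smul] at h5
    exact ⟨q, ⟨d, ⟨h.le d hd, q, h5, hdq⟩, _, hdq, inv_smul_smul d q⟩,
      mem_of_fix (by omega) hq, fun j hj => h4 j (by omega)⟩
  obtain ⟨q, ⟨d, -, f, hf, hq⟩, hqΛ, h6⟩ : ∃ q ∈ image2 (fun (g : 𝔾) (f : X) => g⁻¹ • f)
      {g | S.ht g = 0 ∧ ∃ x ∈ closedBall ((c * G ^ n) • z) ε, g • x ∈ F} F, q ∈ S.Λ ∧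
      ∀ j : ℕ, dist (S.t ^ j • q) (S.t ^ j • (c * G ^ n) • z) ≤ ε := by
    by_contra hcon
    push Not at hcon
    choose! j hj using hcon
    obtain ⟨k, hk⟩ := (hT.image j).bddAbove
    obtain ⟨q, hq, hqΛ, h7⟩ := key k
    exact absurd (h7 _ (hk (mem_image_of_mem j hq))) (not_le.2 (hj q hq hqΛ))
  refine ⟨(c * G ^ n)⁻¹ • q, ⟨⟨(c * G ^ n)⁻¹ * d⁻¹, mem_univ _, f, hf, ?_⟩, S.smul_mem _ q hqΛ⟩, ?_⟩
  · simp only at hq ⊢
    rw [mul_smul, hq]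
  · rw [← smul_mem_ws (c * G ^ n), smul_inv_smul]
    exact ws_symm (hws _ hx q h6)

theorem mem_of_wu_stay (hC : ∀ c ∈ C, S.ht c = 0) (hG : 0 < S.ht G) (hK : IsCompact K)
    (hp : p ∈ S.Λ) (hz : z ∈ S.Wu p) (h : z ∈ Stay G (Tr C K)) : z ∈ S.Λ := by
  obtain ⟨R₁, h₁⟩ := hK.isBounded.subset_closedBall p
  have hG' : 0 < S.inv.ht G⁻¹ := by
    change 0 < -S.ht G⁻¹
    rw [S.ht_inv]
    omega
  obtain ⟨R₂, h₂⟩ := (ws_tendsto_dist (S := S.inv) hG' hz).bddAbove_range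
  refine mem_of_orbit (R := max R₁ R₂) hG.ne' fun n => ?_
  rcases zpow_cases_dyn G n with ⟨k, -, e⟩ | ⟨k, -, e⟩ <;> rw [e]
  · obtain ⟨c, hc, hcK⟩ := h k
    refine ⟨c⁻¹ • p, S.smul_mem _ p hp, le_trans ?_ (le_max_left _ _)⟩
    rw [← S.iso c (hC c hc), smul_inv_smul]
    exact h₁ hcK
  · exact ⟨_, S.smul_mem _ p hp, (h₂ ⟨k, rfl⟩).trans (le_max_right _ _)⟩

theorem FinPer.countable (h : S.FinPer C G) (hG : 0 < S.ht G) (hK : IsCompact K) (hp : p ∈ S.Λ) :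
    (S.Wu p ∩ Stay G (Tr C K)).Countable := by
  obtain ⟨P, hP, hPΛ, h1⟩ := h.trap hG hK
  refine Countable.mono ?_ (hP.biUnion fun q hq => countable_inter hp (hPΛ hq))
  rintro z ⟨hz, hs⟩
  obtain ⟨q, hq, h2⟩ := h1 z (mem_of_wu_stay h.le hG hK hp hz hs) hs
  exact mem_biUnion hq ⟨hz, h2⟩

end Setting

end Pool.Agent.P.MP_788ef7_an
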