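import Pool.Agent.P.MP_788ef7_an.Attr

set_option autoImplicit false
set_option linter.unusedSectionVars false

open Set Filter Topology Metric

namespace Pool.Agent.P.MP_788ef7_an

namespace Fuchs

variable {𝔊 : Type*} [Group 𝔊] [MulAction 𝔊 Circle] {Φ : Fuchs 𝔊} {g g' γ δ u u' G g₀ : 𝔊}
  {H : Subgroup 𝔊} {ξ η ζ a b c d p q a₁ a₂ r₁ r₂ a₁' a₂' r₁' r₂' : Circle} {k : ℕ} {T : Set 𝔊}

/-- Coarse orbits starting near a point attracted to `a` converge to `a` uniformly. -/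
theorem Att.capture (h : Φ.Att g a) (hζ : Tendsto (fun n : ℕ => g ^ n • ζ) atTop (𝓝 a)) (C : ℝ) :
    ∃ δ₀ > 0, ∀ ε > 0, ∃ N : ℕ, ∀ x : ℤ → KD, Φ.PO g C x → ‖(x 0).val - ζ‖ < δ₀ →
      ∀ n : ℤ, N ≤ n → rho (x n).val a < ε := by
  obtain ⟨ε₀, h0, h1⟩ := h.sattr C (1 / 2) (by norm_num)
  obtain ⟨M, hM⟩ := (hζ.eventually (ball_mem_nhds a (half_pos h0))).exists
  obtain ⟨δ, hδ, h2⟩ := Φ.po_nhds g C ζ M (half_pos h0)
  refine ⟨δ, hδ, fun ε hε => ?_⟩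
  obtain ⟨k₀, hk⟩ := exists_pow_lt_of_lt_one (div_pos hε h0) (by norm_num : (1 / 2 : ℝ) < 1)
  refine ⟨M + k₀, fun x hx hx0 n hn => ?_⟩
  have key : ∀ k : ℕ, rho (x (M + k)).val a < (1 / 2) ^ k * ε₀ := by
    intro k
    induction k with
    | zero =>
      have b1 := h2 x hx hx0
      have b2 : ‖((g ^ M • ζ : Circle) : ℂ) - a‖ < ε₀ / 2 := by
        rw [← dist_eq_norm]
        exact hM
      have b3 := norm_add_le ((x M).val - (g ^ M • ζ : Circle)) (((g ^ M • ζ : Circle) : ℂ) - a)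
      rw [sub_add_sub_cancel] at b3
      rw [Nat.cast_zero, add_zero, pow_zero, one_mul]
      linarith [rho_le_norm_sub (x M).val a]
    | succ k ih =>
      have b1 : (1 / 2 : ℝ) ^ k * ε₀ ≤ ε₀ :=
        mul_le_of_le_one_left h0.le (pow_le_one₀ (by norm_num) (by norm_num))
      have b2 := h1 _ _ (hx (M + k)) (ih.trans_le b1)
      rw [Nat.cast_succ, ← add_assoc, pow_succ]
      linarith
  obtain ⟨k, rfl⟩ : ∃ k : ℕ, n = M + k := ⟨(n - M).toNat, by omega⟩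
  have b1 : (1 / 2 : ℝ) ^ k ≤ (1 / 2) ^ k₀ :=
    pow_le_pow_of_le_one (by norm_num) (by norm_num) (by omega)
  exact (key k).trans ((lt_div_iff₀ h0).1 (b1.trans_lt hk))

theorem cover_esc (D : Set KD) (δ : Circle → ℝ)
    (hδ : ∀ ζ : Circle, (ζ : ℂ) ∈ closure (KD.val '' D) → 0 < δ ζ) :
    ∃ (F : Finset Circle) (R : ℝ), (∀ ζ ∈ F, (ζ : ℂ) ∈ closure (KD.val '' D)) ∧
      ∀ x ∈ D, dist x KD.o ≤ R ∨ ∃ ζ ∈ F, ‖x.val - ζ‖ < δ ζ := by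
  have hZ : IsCompact {ζ : Circle | (ζ : ℂ) ∈ closure (KD.val '' D)} :=
    IsClosed.isCompact (isClosed_closure.preimage continuous_subtype_val)
  obtain ⟨F, f1, f2⟩ := hZ.elim_nhds_subcover (fun ζ => ball ζ (δ ζ))
    fun ζ h => ball_mem_nhds ζ (hδ ζ h)
  have h1 : closure (KD.val '' D) ⊆ closedBall 0 1 := closure_minimal (by
    rintro _ ⟨x, -, rfl⟩
    exact mem_closedBall_zero_iff.2 x.lt.le) isClosed_closedBall
  have hK : IsCompact (closure (KD.val '' D) \ ⋃ ζ ∈ F, ball (ζ : ℂ) (δ ζ)) :=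
    ((isCompact_closedBall 0 1).of_isClosed_subset isClosed_closure h1).diff
      (isOpen_biUnion fun _ _ => isOpen_ball)
  obtain ⟨r, hr, h2⟩ := hK.exists_forall_le' (f := fun z : ℂ => 1 - ‖z‖) (a := 0)
    (by fun_prop) fun z hz => by
      refine sub_pos.2 (lt_of_le_of_ne (mem_closedBall_zero_iff.1 (h1 hz.1)) fun e => hz.2 ?_)
      obtain ⟨ζ, a1, a2⟩ := mem_iUnion₂.1
        (f2 (show (⟨z, mem_sphere_zero_iff_norm.2 e⟩ : Circle) ∈ _ from hz.1))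
      exact mem_iUnion₂.2 ⟨ζ, a1, a2⟩
  obtain ⟨R, hR⟩ := exists_dist_le (r := 1 - r) (by linarith)
  refine ⟨F, R, f1, fun x hx => or_iff_not_imp_right.2 fun hn => hR x ?_⟩
  have := h2 x.val ⟨subset_closure (mem_image_of_mem _ hx), fun hm => by
    obtain ⟨ζ, a1, a2⟩ := mem_iUnion₂.1 hm
    exact hn ⟨ζ, a1, mem_ball_iff_norm.1 a2⟩⟩
  linarith

theorem fwd_esc (hH : ∀ h ∈ H, Φ.ht h = 0) (hn : ∀ h, h ∈ H ↔ g * h * g⁻¹ ∈ H) (hu : u ∈ H)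
    (ha : a ∉ Φ.Lim H) (h : Φ.Att (u * g) a)
    (hζ : Tendsto (fun n : ℕ => (u * g) ^ n • ζ) atTop (𝓝 a)) (C : ℝ) :
    ∃ δ₀ > 0, ∃ N : ℝ → ℕ, ∀ x : ℤ → KD, Φ.PO g C x → ∀ v ∈ H, ‖(Φ.mv v (x 0)).val - ζ‖ < δ₀ →
      ∀ L, ∀ n : ℤ, N L ≤ n → ¬ Φ.Near H L (x n) := by
  obtain ⟨δ₀, h0, h1⟩ := h.capture hζ C
  choose ε hε h2 using Φ.not_near_of_notMem ha
  choose N hN using fun L => h1 (ε L) (hε L)
  refine ⟨δ₀, h0, N, fun x hx v hv hx0 L n hL hm => ?_⟩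
  obtain ⟨G, hG⟩ : ∃ G, G = u * g := ⟨_, rfl⟩
  rw [← hG] at hN
  have k1 : ∀ m : ℤ, G ^ m * v * (g ^ m)⁻¹ ∈ H := by
    intro m
    have e : ∀ m : ℤ, G ^ (m + 1) * v * (g ^ (m + 1))⁻¹ =
        u * (g * (G ^ m * v * (g ^ m)⁻¹) * g⁻¹) := fun m => by
      rw [add_comm m 1, zpow_one_add G, add_comm 1 m, zpow_add_one g, mul_inv_rev]
      nth_rewrite 1 [hG]
      group
    induction m using Int.induction_on with
    | zero => simpa using hv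
    | succ m ih =>
      rw [e]
      exact mul_mem hu ((hn _).1 ih)
    | pred m ih =>
      rw [← sub_add_cancel (-(m : ℤ)) 1, e] at ih
      exact (hn _).2 ((mul_mem_cancel_left hu).1 ih)
  have k2 : Φ.PO G C fun m => Φ.mv (G ^ m * v * (g ^ m)⁻¹) (x m) := fun m => by
    have := PreFuchs.Step.move _ (hx m) (hH _ (k1 m)) (hH _ (k1 (m + 1)))
    have e : G ^ (m + 1) * v * (g ^ (m + 1))⁻¹ * g * (G ^ m * v * (g ^ m)⁻¹)⁻¹ = G := by group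
    rwa [e] at this
  exact h2 L _ (hN L _ k2 (by simpa using hx0) n hL)
    (PreFuchs.Near.mv _ hm (k1 n) (hH _ (k1 n)))

theorem esc_star (hH : ∀ h ∈ H, Φ.ht h = 0) (hn : ∀ h, h ∈ H ↔ g * h * g⁻¹ ∈ H)
    (hs : ∀ ζ, Φ.HBfree H ζ → ∃ u ∈ H, ∃ a ∉ Φ.Lim H,
      (Φ.Att (u * g) a ∧ Tendsto (fun n : ℕ => (u * g) ^ n • ζ) atTop (𝓝 a)) ∨
      (Φ.Att (u * g)⁻¹ a ∧ Tendsto (fun n : ℕ => (u * g)⁻¹ ^ n • ζ) atTop (𝓝 a))) (C : ℝ) :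
    ∃ (R : ℝ) (N : ℝ → ℕ), ∀ x : ℤ → KD, Φ.PO g C x → ¬ Φ.Near H R (x 0) →
      (∀ L, ∀ n : ℤ, N L ≤ n → ¬ Φ.Near H L (x n)) ∨
        ∀ L, ∀ n : ℤ, n ≤ -N L → ¬ Φ.Near H L (x n) := by
  have key : ∀ ζ : Circle,
      (ζ : ℂ) ∈ closure (KD.val '' {x | ∀ v ∈ H, dist x KD.o ≤ dist x (Φ.pt v)}) →
      ∃ δ₀ > 0, ∃ N : ℝ → ℕ, ∀ x : ℤ → KD, Φ.PO g C x → ∀ v ∈ H,
        ‖(Φ.mv v (x 0)).val - ζ‖ < δ₀ → (∀ L, ∀ n : ℤ, N L ≤ n → ¬ Φ.Near H L (x n)) ∨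
          ∀ L, ∀ n : ℤ, n ≤ -N L → ¬ Φ.Near H L (x n) := by
    intro ζ hζ
    obtain ⟨y, y1, y2⟩ := mem_closure_iff_seq_limit.1 hζ
    choose z z1 z2 using y1
    obtain ⟨u, hu, a, ha, h1 | h1⟩ := hs ζ (Φ.hbfree_of_dirichlet (l := atTop) z1
      (by simpa only [z2] using y2))
    · obtain ⟨δ₀, h0, N, hN⟩ := fwd_esc hH hn hu ha h1.1 h1.2 C
      exact ⟨δ₀, h0, N, fun x hx v hv h2 => Or.inl (hN x hx v hv h2)⟩
    · have e : (u * g)⁻¹ = g⁻¹ * u⁻¹ * g⁻¹⁻¹ * g⁻¹ := by group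
      have hn' : ∀ h, h ∈ H ↔ g⁻¹ * h * g⁻¹⁻¹ ∈ H := fun h => by
        rw [hn (g⁻¹ * h * g⁻¹⁻¹), show g * (g⁻¹ * h * g⁻¹⁻¹) * g⁻¹ = h by group]
      rw [e] at h1
      obtain ⟨δ₀, h0, N, hN⟩ := fwd_esc hH hn' ((hn' _).1 (inv_mem hu)) ha h1.1 h1.2 C
      refine ⟨δ₀, h0, N, fun x hx v hv h2 => Or.inr fun L n hL => ?_⟩
      have := hN _ (PreFuchs.PO.rev _ hx) v hv (by rwa [neg_zero]) L (-n) (by omega)
      rwa [neg_neg] at this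
  choose! δ₀ h0 N hN using key
  obtain ⟨F, R, f1, f2⟩ := cover_esc _ δ₀ h0
  refine ⟨R, fun L => F.sup fun ζ => N ζ L, fun x hx hR => ?_⟩
  obtain ⟨v, hv, h1⟩ := Φ.exists_dirichlet hH (x 0)
  rcases f2 _ h1 with h2 | ⟨ζ, hζ, h2⟩
  · have := PreFuchs.Near.mv _ (PreFuchs.Near.mono _ (Φ.near_self H _) h2) (inv_mem hv)
      (hH _ (inv_mem hv))
    rw [Φ.mv_inv_mv (hH v hv)] at this
    exact absurd this hR
  · have h3 : ∀ L, N ζ L ≤ F.sup fun ζ => N ζ L := fun L => Finset.le_sup (f := fun ζ => N ζ L) hζ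
    refine (hN ζ (f1 ζ hζ) x hx v hv h2).imp (fun h4 L n hL => h4 L n ?_) fun h4 L n hL => h4 L n ?_
    · exact (Int.ofNat_le.2 (h3 L)).trans hL
    · exact hL.trans (neg_le_neg (Int.ofNat_le.2 (h3 L)))

theorem core2_star (hH : ∀ h ∈ H, Φ.ht h = 0) (hn : ∀ h, h ∈ H ↔ g * h * g⁻¹ ∈ H)
    (hs : ∀ ζ, Φ.HBfree H ζ → ∃ u ∈ H, ∃ a ∉ Φ.Lim H,
      (Φ.Att (u * g) a ∧ Tendsto (fun n : ℕ => (u * g) ^ n • ζ) atTop (𝓝 a)) ∨
      (Φ.Att (u * g)⁻¹ a ∧ Tendsto (fun n : ℕ => (u * g)⁻¹ ^ n • ζ) atTop (𝓝 a))) (C L : ℝ) :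
    ∃ R, ∀ x : ℤ → KD, Φ.PO g C x → Φ.Near H L (x 0) → (∃ L', ∀ n : ℕ, Φ.Near H L' (x n)) →
      ∀ n : ℕ, Φ.Near H R (x n) := by
  obtain ⟨R₀, N, h1⟩ := esc_star hH hn hs C
  have key : ∀ i : ℕ, ∃ R, ∀ x : ℤ → KD, Φ.PO g C x → Φ.Near H L (x 0) → ∀ n : ℕ, n ≤ i →
      Φ.Near H R (x n) := by
    intro i
    induction i with
    | zero => exact ⟨L, fun x _ h0 n hi => by rwa [Nat.le_zero.1 hi]⟩
    | succ i ih =>
      obtain ⟨R, hR⟩ := ih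
      obtain ⟨R', hR'⟩ := Φ.step_near hH (fun h hh => (hn h).1 hh) C R
      refine ⟨max R R', fun x hx h0 n hi => ?_⟩
      rcases Nat.le_succ_iff.1 hi with hi | rfl
      · exact PreFuchs.Near.mono _ (hR x hx h0 n hi) (le_max_left _ _)
      · exact PreFuchs.Near.mono _ (hR' _ _ (hx i) (hR x hx h0 i le_rfl)) (le_max_right _ _)
  obtain ⟨R, hR⟩ := key (N L)
  refine ⟨max R R₀, fun x hx h0 ⟨L', hL⟩ n => ?_⟩
  rcases le_total n (N L) with hi | hi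
  · exact PreFuchs.Near.mono _ (hR x hx h0 n hi) (le_max_left _ _)
  refine PreFuchs.Near.mono _ (by_contra fun hc => ?_) (le_max_right _ _)
  rcases h1 _ (PreFuchs.PO.shift _ hx n) (by rwa [zero_add]) with h2 | h2
  · exact h2 L' _ le_rfl (hL (N L' + n))
  · exact h2 L (-n) (by omega) (by rwa [neg_add_cancel])

theorem Core.core1 (h : Φ.Core H g) (C : ℝ) : ∃ R, ∀ x : ℤ → KD, Φ.PO g C x →
    (∃ L, ∀ n, Φ.Near H L (x n)) → ∀ n, Φ.Near H R (x n) := by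
  obtain ⟨R, N, h1⟩ := esc_star h.le h.norm h.star C
  refine ⟨R, fun x hx ⟨L, hL⟩ n => by_contra fun hc => ?_⟩
  rcases h1 _ (PreFuchs.PO.shift _ hx n) (by rwa [zero_add]) with h2 | h2
  · exact h2 L _ le_rfl (hL _)
  · exact h2 L _ le_rfl (hL _)

theorem Core.core2 (h : Φ.Core H g) (C L : ℝ) : ∃ R, ∀ x : ℤ → KD, Φ.PO g C x →
    Φ.Near H L (x 0) → (∃ L', ∀ n : ℕ, Φ.Near H L' (x n)) → ∀ n : ℕ, Φ.Near H R (x n) :=
  core2_star h.le h.norm h.star C L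

/-- Bounded forward coarse orbits starting away from the repelling points are uniformly
bounded. -/
theorem Reg.pr (h : Φ.Reg g a₁ a₂ r₁ r₂) (C : ℝ) {ε : ℝ} (hε : 0 < ε) : ∃ R, ∀ x : ℤ → KD,
    Φ.PO g C x → (∃ L, ∀ n : ℕ, dist (x n) KD.o ≤ L) → ε ≤ rho (x 0).val r₁ →
      ε ≤ rho (x 0).val r₂ → ∀ n : ℕ, dist (x n) KD.o ≤ R := by
  have hb : ∀ a : Circle, a ∉ Φ.Lim ⊥ := fun a => by
    rw [Φ.lim_bot]
    exact notMem_empty a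
  have key : ∀ ζ : Circle,
      (ζ : ℂ) ∈ closure (KD.val '' {x | ε ≤ rho x.val r₁ ∧ ε ≤ rho x.val r₂}) →
      ∃ δ₀ > 0, ∀ x : ℤ → KD, Φ.PO g C x → ‖(x 0).val - ζ‖ < δ₀ →
        ∀ L, ¬ ∀ n : ℕ, dist (x n) KD.o ≤ L := by
    intro ζ hζ
    have k : ∀ r : Circle, (∀ x : KD, ε ≤ rho x.val r₁ ∧ ε ≤ rho x.val r₂ → ε ≤ rho x.val r) →
        ζ ≠ r := fun r hr e => by
      have : (ζ : ℂ) ∈ {z : ℂ | ε ≤ rho z r} := closure_minimal (by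
        rintro _ ⟨x, hx, rfl⟩
        exact hr x hx) (isClosed_le continuous_const (by fun_prop)) hζ
      rw [mem_ofPred_eq, e, rho_circle_self] at this
      exact this.not_gt hε
    obtain ⟨a, a1, a2⟩ := h.stable.conv Φ.cont ζ
    have a3 : Φ.Att g a := by
      rcases h.fix a a1 with rfl | rfl | rfl | rfl
      · exact h.att₁
      · exact h.att₂
      · exact absurd a2 (h.rep₁.2.2.not_limit (k _ fun _ hx => hx.1))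
      · exact absurd a2 (h.rep₂.2.2.not_limit (k _ fun _ hx => hx.2))
    obtain ⟨δ₀, h0, h1⟩ := a3.capture a2 C
    refine ⟨δ₀, h0, fun x hx hx0 L hL => ?_⟩
    obtain ⟨ε', h2, h3⟩ := Φ.not_near_of_notMem (hb a) L
    obtain ⟨N, hN⟩ := h1 ε' h2
    exact h3 _ (hN x hx hx0 N le_rfl) (Φ.near_bot.2 (hL N))
  choose! δ₀ h0 h1 using key
  obtain ⟨F, R₀, f1, f2⟩ := cover_esc _ δ₀ h0
  obtain ⟨R, hR⟩ := core2_star (Φ := Φ) (H := ⊥) (g := g)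
    (fun v hv => by rw [Subgroup.mem_bot.1 hv, Φ.ht_one]) (fun v => by simp) (fun ζ _ => by
      obtain ⟨a, -, a2⟩ := h.stable.conv Φ.cont ζ
      refine ⟨1, one_mem _, a, hb a, ?_⟩
      rw [one_mul]
      exact att_limit h.stable (by rw [h.cen]; exact hb a) a2) C R₀
  refine ⟨R, fun x hx ⟨L, hL⟩ a1 a2 n => Φ.near_bot.1 (hR x hx (Φ.near_bot.2 ?_)
    ⟨L, fun n => Φ.near_bot.2 (hL n)⟩ n)⟩
  rcases f2 (x 0) ⟨a1, a2⟩ with h2 | ⟨ζ, hζ, h2⟩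
  · exact h2
  · exact absurd hL (h1 ζ (f1 ζ hζ) x hx h2 L)

end Fuchs

end Pool.Agent.P.MP_788ef7_an
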