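import Pool.Agent.P.MP_788ef7_an.Attr

set_option autoImplicit false

open Set Filter Topology Metric

namespace Pool.Agent.P.MP_788ef7_an

namespace Fuchs

variable {𝔊 : Type*} [Group 𝔊] [MulAction 𝔊 Circle] {Φ : Fuchs 𝔊} {g g' γ δ u u' G g₀ : 𝔊}
  {H : Subgroup 𝔊} {ξ η ζ a b c d p q a₁ a₂ r₁ r₂ a₁' a₂' r₁' r₂' : Circle} {k : ℕ} {T : Set 𝔊}

omit [MulAction 𝔊 Circle] in
theorem norm_pow_esc1 (hn : ∀ h, h ∈ H ↔ g * h * g⁻¹ ∈ H) (j : ℕ) (x : 𝔊) :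
    x ∈ H ↔ g ^ j * x * (g ^ j)⁻¹ ∈ H := by
  induction j with
  | zero => simp
  | succ j ih =>
    rw [ih, hn]
    have e : g * (g ^ j * x * (g ^ j)⁻¹) * g⁻¹ = g ^ (j + 1) * x * (g ^ (j + 1))⁻¹ := by
      rw [pow_succ']; group
    rw [e]

omit [MulAction 𝔊 Circle] in
theorem mul_pow_esc1 (hn : ∀ h, h ∈ H ↔ g * h * g⁻¹ ∈ H) (hu : u ∈ H) (j i : ℕ) :
    ∃ v ∈ H, (u * g ^ j) ^ i = v * g ^ (j * i) := by
  induction i with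
  | zero => exact ⟨1, H.one_mem, by simp⟩
  | succ i ih =>
    obtain ⟨v, hv, e⟩ := ih
    refine ⟨v * (g ^ (j * i) * u * (g ^ (j * i))⁻¹),
      H.mul_mem hv ((norm_pow_esc1 hn (j * i) u).1 hu), ?_⟩
    rw [pow_succ, e, Nat.mul_succ, pow_add]
    simp only [mul_assoc, inv_mul_cancel_left]

omit [MulAction 𝔊 Circle] in
theorem theta_conj_esc1 {θ : 𝔊 → ℂ} (hθ : ∀ a ∈ H, ∀ b ∈ H, θ (a * b) = θ a + θ b) {x : 𝔊}
    (hu : u ∈ H) (hx : x ∈ H) : θ (u * x * u⁻¹) = θ x := by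
  have h1 := hθ (u * x * u⁻¹) (H.mul_mem (H.mul_mem hu hx) (H.inv_mem hu)) u hu
  have h2 := hθ u hu x hx
  rw [inv_mul_cancel_right] at h1
  rw [h1] at h2
  linear_combination h2

omit [MulAction 𝔊 Circle] in
theorem theta_pow_esc1 (hn : ∀ h, h ∈ H ↔ g * h * g⁻¹ ∈ H) {θ : 𝔊 → ℂ}
    (hu : ∀ γ ∈ H, θ (g ^ 2 * γ * (g ^ 2)⁻¹) - θ (g * γ * g⁻¹) = θ (g * γ * g⁻¹) - θ γ)
    (m : ℕ) : ∀ x ∈ H, θ (g ^ m * x * (g ^ m)⁻¹) = θ x + m * (θ (g * x * g⁻¹) - θ x) := by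
  induction m with
  | zero => intro x _; simp
  | succ m ih =>
    intro x hx
    have e : g ^ (m + 1) * x * (g ^ (m + 1))⁻¹ = g ^ m * (g * x * g⁻¹) * (g ^ m)⁻¹ := by
      rw [pow_succ]; group
    have e2 : g * (g * x * g⁻¹) * g⁻¹ = g ^ 2 * x * (g ^ 2)⁻¹ := by
      rw [pow_two]; group
    rw [e, ih _ ((hn x).1 hx), e2, hu x hx]
    push_cast
    ring

theorem tendsto_pow_esc1 {j : ℕ} (hj : 1 ≤ j)
    (h : Tendsto (fun n : ℕ => g ^ n • ζ) atTop (𝓝 a)) :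
    Tendsto (fun n : ℕ => (g ^ j) ^ n • ζ) atTop (𝓝 a) := by
  have h1 : Tendsto (fun n : ℕ => j * n) atTop atTop :=
    tendsto_atTop_mono (fun n => Nat.le_mul_of_pos_left n hj) tendsto_id
  refine (h.comp h1).congr fun n => ?_
  simp only [Function.comp, pow_mul]

theorem Core.pow (h : Φ.Core H g) (hu : u ∈ H) {j : ℕ} (hj : 1 ≤ j) : Φ.Core H (u * g ^ j) := by
  refine ⟨h.le, ?_, ?_, ?_, ?_, ?_, ?_⟩
  · rw [Φ.ht_mul, h.le u hu, Φ.ht_pow, zero_add]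
    exact mul_pos (by exact_mod_cast hj) h.pos
  · exact (Φ.op_of_ht (h.le u hu)).mul (h.op.pow j)
  · intro x
    have e : u * g ^ j * x * (u * g ^ j)⁻¹ = u * (g ^ j * x * (g ^ j)⁻¹) * u⁻¹ := by
      simp only [mul_assoc, mul_inv_rev]
    rw [e, norm_pow_esc1 h.norm j x, H.mul_mem_cancel_right (H.inv_mem hu),
      H.mul_mem_cancel_left hu]
  · intro ζ hζ
    obtain ⟨u₀, hu₀, a, ha, hh⟩ := h.star ζ hζ
    obtain ⟨v, hv, e⟩ := mul_pow_esc1 h.norm hu₀ 1 j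
    rw [pow_one, one_mul] at e
    have e' : v * u⁻¹ * (u * g ^ j) = (u₀ * g) ^ j := by
      rw [e]; simp only [mul_assoc, inv_mul_cancel_left]
    have hop : OP (u₀ * g) := (Φ.op_of_ht (h.le u₀ hu₀)).mul h.op
    refine ⟨v * u⁻¹, H.mul_mem hv (H.inv_mem hu), a, ha, ?_⟩
    rw [e']
    rcases hh with ⟨h1, h2⟩ | ⟨h1, h2⟩
    · have hs : Stable (u₀ * g) := ⟨hop, a, h1.1⟩
      exact Or.inl ⟨(att_pow hs hj).2 h1, tendsto_pow_esc1 hj h2⟩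
    · have hs : Stable (u₀ * g) := ⟨hop, a, by rw [← fix_inv]; exact h1.1⟩
      refine Or.inr ⟨(att_inv_pow hs hj).2 h1, ?_⟩
      rw [← inv_pow]
      exact tendsto_pow_esc1 hj h2
  · obtain ⟨T, hT, hT', hf⟩ := h.fin
    refine ⟨T, hT, hT', fun x hx i hi hs he => ?_⟩
    obtain ⟨v, hv, e⟩ := mul_pow_esc1 h.norm hu j i
    rw [e, ← mul_assoc] at hs he ⊢
    exact hf _ (H.mul_mem hx hv) _ (Nat.mul_pos hj hi) hs he
  · intro θ hθ x hx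
    have hp := theta_pow_esc1 h.norm (h.uni θ hθ)
    have hj1 : g ^ j * x * (g ^ j)⁻¹ ∈ H := (norm_pow_esc1 h.norm j x).1 hx
    have e1 : u * g ^ j * x * (u * g ^ j)⁻¹ = u * (g ^ j * x * (g ^ j)⁻¹) * u⁻¹ := by
      simp only [mul_assoc, mul_inv_rev]
    obtain ⟨v, hv, e⟩ := mul_pow_esc1 h.norm hu j 2
    have e2 : (u * g ^ j) ^ 2 * x * ((u * g ^ j) ^ 2)⁻¹ =
        v * (g ^ (j * 2) * x * (g ^ (j * 2))⁻¹) * v⁻¹ := by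
      rw [e]; simp only [mul_assoc, mul_inv_rev]
    rw [e1, e2, theta_conj_esc1 hθ hu hj1,
      theta_conj_esc1 hθ hv ((norm_pow_esc1 h.norm (j * 2) x).1 hx), hp _ x hx, hp _ x hx]
    push_cast
    ring

theorem tendsto_conj_esc1 (Φ : Fuchs 𝔊) (γ : 𝔊)
    (h : Tendsto (fun n : ℕ => g ^ n • γ⁻¹ • ζ) atTop (𝓝 a)) :
    Tendsto (fun n : ℕ => (γ * g * γ⁻¹) ^ n • ζ) atTop (𝓝 (γ • a)) := by
  refine (((Φ.cont γ).tendsto a).comp h).congr fun n => ?_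
  simp only [Function.comp, conj_pow, mul_smul]

theorem Core.conj (h : Φ.Core H g) (hγ : Φ.ht γ = 0) {H' : Subgroup 𝔊}
    (hH' : ∀ h', h' ∈ H' ↔ γ⁻¹ * h' * γ ∈ H) : Φ.Core H' (γ * g * γ⁻¹) := by
  have hle : ∀ x ∈ H', Φ.ht x = 0 := fun x hx => by
    have h1 := h.le _ ((hH' x).1 hx)
    have h2 := Φ.ht_conj γ⁻¹ x
    rw [_root_.inv_inv] at h2
    rw [← h2, h1]
  have hup : ∀ x ∈ H, γ * x * γ⁻¹ ∈ H' := fun x hx => by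
    rw [hH']
    simpa only [mul_assoc, inv_mul_cancel_left, inv_mul_cancel, mul_one] using hx
  refine ⟨hle, ?_, h.op.conj Φ.cont γ, ?_, ?_, ?_, ?_⟩
  · rw [Φ.ht_conj]; exact h.pos
  · intro x
    rw [hH', hH', h.norm]
    have e : γ⁻¹ * (γ * g * γ⁻¹ * x * (γ * g * γ⁻¹)⁻¹) * γ = g * (γ⁻¹ * x * γ) * g⁻¹ := by
      group
    rw [e]
  · intro ζ hζ
    have hζ' : Φ.HBfree H (γ⁻¹ • ζ) :=
      Φ.hbfree_conj (by rw [Φ.ht_inv, hγ, neg_zero]) hle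
        (fun x hx => by rw [_root_.inv_inv]; exact hup x hx) hζ
    obtain ⟨u₀, hu₀, a, ha, hh⟩ := h.star _ hζ'
    refine ⟨γ * u₀ * γ⁻¹, hup u₀ hu₀, γ • a, fun hm => ha ?_, ?_⟩
    · have := Φ.smul_mem_lim (H' := H) γ⁻¹ hle
        (fun x hx => by rw [_root_.inv_inv]; exact (hH' x).1 hx) hm
      rwa [inv_smul_smul] at this
    · have e : γ * u₀ * γ⁻¹ * (γ * g * γ⁻¹) = γ * (u₀ * g) * γ⁻¹ := by group
      have e' : (γ * (u₀ * g) * γ⁻¹)⁻¹ = γ * (u₀ * g)⁻¹ * γ⁻¹ := by group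
      rw [e, e']
      rcases hh with ⟨h1, h2⟩ | ⟨h1, h2⟩
      · exact Or.inl ⟨h1.conj γ, tendsto_conj_esc1 Φ γ h2⟩
      · exact Or.inr ⟨h1.conj γ, tendsto_conj_esc1 Φ γ h2⟩
  · obtain ⟨T, hT, hT', hf⟩ := h.fin
    refine ⟨(fun E => γ * E * γ⁻¹) '' T, hT.image _, ?_, fun x hx i hi hs he => ?_⟩
    · rintro _ ⟨E, hE, rfl⟩
      obtain ⟨h1, h2, h3⟩ := hT' E hE
      refine ⟨by rw [Φ.ht_conj]; exact h1, h2.conj Φ.cont γ, fun x hx => (hH' x).2 (h3 ?_)⟩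
      rw [← Φ.mem_cen_conj γ]
      simpa only [mul_assoc, mul_inv_cancel_left, mul_inv_cancel, mul_one] using hx
    · have e : γ⁻¹ * (x * (γ * g * γ⁻¹) ^ i) * γ⁻¹⁻¹ = γ⁻¹ * x * γ * g ^ i := by
        rw [conj_pow]; group
      have hs' := hs.conj Φ.cont γ⁻¹
      have he' := he.conj γ⁻¹
      rw [e] at hs' he'
      obtain ⟨E, hE, v, hv, a, b, ha, hb, e2⟩ := hf _ ((hH' x).1 hx) i hi hs' he'
      refine ⟨_, ⟨E, hE, rfl⟩, γ * v * γ⁻¹, hup v hv, a, b, ha, hb, ?_⟩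
      have e3 : x * (γ * g * γ⁻¹) ^ i = γ * (γ⁻¹ * x * γ * g ^ i) * γ⁻¹ := by
        rw [conj_pow]; group
      rw [e3, conj_pow, e2, conj_pow]
      group
  · intro θ hθ x hx
    have := h.uni (fun y => θ (γ * y * γ⁻¹)) (fun a ha b hb => by
      have e : γ * (a * b) * γ⁻¹ = γ * a * γ⁻¹ * (γ * b * γ⁻¹) := by group
      simp only [e]
      exact hθ _ (hup a ha) _ (hup b hb)) _ ((hH' x).1 hx)
    have e1 : γ * (g ^ 2 * (γ⁻¹ * x * γ) * (g ^ 2)⁻¹) * γ⁻¹ =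
        (γ * g * γ⁻¹) ^ 2 * x * ((γ * g * γ⁻¹) ^ 2)⁻¹ := by
      rw [conj_pow]; group
    have e2 : γ * (g * (γ⁻¹ * x * γ) * g⁻¹) * γ⁻¹ = γ * g * γ⁻¹ * x * (γ * g * γ⁻¹)⁻¹ := by
      group
    have e3 : γ * (γ⁻¹ * x * γ) * γ⁻¹ = x := by group
    simpa only [e1, e2, e3] using this

end Fuchs

end Pool.Agent.P.MP_788ef7_an
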