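import Pool.Agent.P.MP_788ef7_an.KLor

set_option autoImplicit false

open Set Filter Topology Metric

namespace Pool.Agent.P.MP_788ef7_an

variable {a b : Circle}

/-- First coefficient of the boost. -/
noncomputable def alKflow (a b x : ℂ) (τ : ℝ) : ℝ := (Real.exp (τ / 2) - 1) * rho x b / rho a b

/-- Second coefficient of the boost. -/
noncomputable def beKflow (a b x : ℂ) (τ : ℝ) : ℝ := ((Real.exp (τ / 2))⁻¹ - 1) * rho x a / rho a b

/-- Projective factor of the boost. -/
noncomputable def muKflow (a b x : ℂ) (τ : ℝ) : ℝ := 1 + alKflow a b x τ + beKflow a b x τ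

/-- The boost. -/
noncomputable def ptKflow (a b x : ℂ) (τ : ℝ) : ℂ :=
  (muKflow a b x τ)⁻¹ • (x + alKflow a b x τ • a + beKflow a b x τ • b)

theorem rho_comb_kflow (x a b w : ℂ) (α β : ℝ) (h : 1 + α + β ≠ 0) :
    (1 + α + β) * rho ((1 + α + β)⁻¹ • (x + α • a + β • b)) w =
      rho x w + α * rho a w + β * rho b w := by
  simp only [rho, Complex.add_re, Complex.add_im, Complex.smul_re, Complex.smul_im, smul_eq_mul]
  field_simp
  ring

theorem ori_comb_kflow (x a b : ℂ) (α β : ℝ) (h : 1 + α + β ≠ 0) :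
    (1 + α + β) * ori a b ((1 + α + β)⁻¹ • (x + α • a + β • b)) = ori a b x := by
  simp only [ori, Complex.add_re, Complex.add_im, Complex.smul_re, Complex.smul_im, smul_eq_mul]
  field_simp
  ring

theorem rho_ab_kflow (h : a ≠ b) : 0 < rho a b :=
  rho_pos_of_ne (Circle.norm_coe a).le fun e => h (Circle.ext e)

theorem rho_x_kflow (x : KD) (a : Circle) : 0 < rho x.val a := rho_pos x.lt (Circle.norm_coe a).le

theorem al_kflow (h : a ≠ b) (x : ℂ) (τ : ℝ) :
    rho x b + alKflow a b x τ * rho a b = Real.exp (τ / 2) * rho x b := by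
  have := (rho_ab_kflow h).ne'
  unfold alKflow
  field_simp
  ring

theorem be_kflow (h : a ≠ b) (x : ℂ) (τ : ℝ) :
    rho x a + beKflow a b x τ * rho a b = (Real.exp (τ / 2))⁻¹ * rho x a := by
  have := (rho_ab_kflow h).ne'
  unfold beKflow
  field_simp
  ring

theorem albe_kflow (h : a ≠ b) (x : ℂ) (τ : ℝ) :
    alKflow a b x τ * rho x a + beKflow a b x τ * rho x b +
      alKflow a b x τ * beKflow a b x τ * rho a b = 0 := by
  have := (rho_ab_kflow h).ne'
  have := (Real.exp_pos (τ / 2)).ne'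
  unfold alKflow beKflow
  field_simp
  ring

theorem mu_pos_kflow (h : a ≠ b) (x : KD) (τ : ℝ) : 0 < muKflow a b x.val τ := by
  have h1 := al_kflow h x.val τ
  have h2 := albe_kflow h x.val τ
  have h3 := mul_pos (Real.exp_pos (τ / 2)) (rho_x_kflow x b)
  have h4 := x.rho_pos
  have ha := rho_circle_self a
  have hb := rho_circle_self b
  rw [← h1] at h3
  unfold muKflow
  generalize alKflow a b x.val τ = α at *
  generalize beKflow a b x.val τ = β at *
  unfold rho at h2 h3 h4 ha hb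
  generalize (a : ℂ).re = a1 at *
  generalize (a : ℂ).im = a2 at *
  generalize (b : ℂ).re = b1 at *
  generalize (b : ℂ).im = b2 at *
  generalize x.val.re = x1 at *
  generalize x.val.im = x2 at *
  obtain ⟨y1, e1⟩ : ∃ y1, y1 = x1 + α * a1 + β * b1 := ⟨_, rfl⟩
  obtain ⟨y2, e2⟩ : ∃ y2, y2 = x2 + α * a2 + β * b2 := ⟨_, rfl⟩
  obtain ⟨m, e3⟩ : ∃ m, m = 1 + α + β := ⟨_, rfl⟩
  have c1 : m ^ 2 - (y1 ^ 2 + y2 ^ 2) = 1 - (x1 * x1 + x2 * x2) := by
    rw [e1, e2, e3]
    linear_combination 2 * h2 + α ^ 2 * ha + β ^ 2 * hb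
  have c2 : 0 < m - (y1 * b1 + y2 * b2) := by
    have : m - (y1 * b1 + y2 * b2) = 1 - (x1 * b1 + x2 * b2) + α * (1 - (a1 * b1 + a2 * b2)) := by
      rw [e1, e2, e3]
      linear_combination β * hb
    linarith
  have c3 : (y1 * b1 + y2 * b2) ^ 2 ≤ y1 ^ 2 + y2 ^ 2 := by
    have : (y1 ^ 2 + y2 ^ 2) - (y1 * b1 + y2 * b2) ^ 2 = (y1 * b2 - y2 * b1) ^ 2 := by
      linear_combination (y1 ^ 2 + y2 ^ 2) * hb
    nlinarith [sq_nonneg (y1 * b2 - y2 * b1)]
  rw [← e3]
  by_contra hc
  have hm : m ≤ 0 := not_lt.1 hc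
  nlinarith

theorem rho_pt_kflow (h : a ≠ b) (x : KD) (τ : ℝ) (w : ℂ) :
    muKflow a b x.val τ * rho (ptKflow a b x.val τ) w =
      rho x.val w + alKflow a b x.val τ * rho a w + beKflow a b x.val τ * rho b w :=
  rho_comb_kflow _ _ _ _ _ _ (mu_pos_kflow h x τ).ne'

theorem rho_pta_kflow (h : a ≠ b) (x : KD) (τ : ℝ) :
    muKflow a b x.val τ * rho (ptKflow a b x.val τ) a = (Real.exp (τ / 2))⁻¹ * rho x.val a := by
  rw [rho_pt_kflow h, rho_circle_self, rho_comm b a, ← be_kflow h]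
  ring

theorem rho_ptb_kflow (h : a ≠ b) (x : KD) (τ : ℝ) :
    muKflow a b x.val τ * rho (ptKflow a b x.val τ) b = Real.exp (τ / 2) * rho x.val b := by
  rw [rho_pt_kflow h, rho_circle_self, ← al_kflow h]
  ring

theorem rho_ptpt_kflow (h : a ≠ b) (x : KD) (τ : ℝ) :
    muKflow a b x.val τ ^ 2 * rho (ptKflow a b x.val τ) (ptKflow a b x.val τ) =
      rho x.val x.val := by
  have h1 := rho_pt_kflow h x τ (ptKflow a b x.val τ)
  have h2 := rho_pt_kflow h x τ x.val
  have h3 := rho_pt_kflow h x τ a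
  have h4 := rho_pt_kflow h x τ b
  have h5 := albe_kflow h x.val τ
  rw [rho_comm x.val (ptKflow _ _ _ _), rho_comm a (ptKflow _ _ _ _),
    rho_comm b (ptKflow _ _ _ _)] at h1
  rw [rho_comm a x.val, rho_comm b x.val] at h2
  rw [rho_circle_self, rho_comm b a] at h3
  rw [rho_circle_self] at h4
  linear_combination muKflow a b x.val τ * h1 + h2 + alKflow a b x.val τ * h3 +
    beKflow a b x.val τ * h4 + 2 * h5

theorem pt_lt_kflow (h : a ≠ b) (x : KD) (τ : ℝ) : ‖ptKflow a b x.val τ‖ < 1 := by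
  apply norm_lt_one_of_rho
  have h1 := x.rho_pos
  rw [← rho_ptpt_kflow h x τ] at h1
  exact (mul_pos_iff_of_pos_left (pow_pos (mu_pos_kflow h x τ) 2)).1 h1

theorem exists_flow (h : a ≠ b) : ∃ ψ : ℝ → KD → KD, Continuous (fun p : ℝ × KD => ψ p.1 p.2) ∧
    (∀ x, ψ 0 x = x) ∧ (∀ τ x, kap a b (ψ τ x).val = kap a b x.val + τ) ∧
    ∀ τ x, sig a b (ψ τ x).val = sig a b x.val := by
  refine ⟨fun τ x => ⟨ptKflow a b x.val τ, pt_lt_kflow h x τ⟩, ?_, ?_, ?_, ?_⟩
  · refine KD.isOpenEmbedding_val.continuous_iff.2 ?_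
    have cv : Continuous fun p : ℝ × KD => p.2.val := KD.continuous_val.comp continuous_snd
    have ce : Continuous fun p : ℝ × KD => Real.exp (p.1 / 2) := by fun_prop
    have c1 : Continuous fun p : ℝ × KD => alKflow a b p.2.val p.1 :=
      ((ce.sub continuous_const).mul (continuous_rho cv continuous_const)).div_const _
    have c2 : Continuous fun p : ℝ × KD => beKflow a b p.2.val p.1 :=
      (((ce.inv₀ fun p => (Real.exp_pos _).ne').sub continuous_const).mul
        (continuous_rho cv continuous_const)).div_const _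
    have c3 : Continuous fun p : ℝ × KD => muKflow a b p.2.val p.1 :=
      (continuous_const.add c1).add c2
    exact (c3.inv₀ fun p => (mu_pos_kflow h p.2 p.1).ne').smul
      ((cv.add (c1.smul continuous_const)).add (c2.smul continuous_const))
  · intro x
    apply KD.ext
    simp [ptKflow, muKflow, alKflow, beKflow]
  · intro τ x
    have h1 := rho_pta_kflow h x τ
    have h2 := rho_ptb_kflow h x τ
    have h3 := (mu_pos_kflow h x τ).ne'
    have h4 := rho_x_kflow x a
    have h5 := rho_x_kflow x b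
    have h6 := (Real.exp_pos (τ / 2)).ne'
    have e : rho (ptKflow a b x.val τ) b / rho (ptKflow a b x.val τ) a =
        rho x.val b / rho x.val a * Real.exp τ := by
      rw [← mul_div_mul_left _ _ h3, h1, h2, show Real.exp τ = Real.exp (τ / 2) * Real.exp (τ / 2) by
        rw [← Real.exp_add, add_halves]]
      field_simp
    show Real.log (rho (ptKflow a b x.val τ) b / rho (ptKflow a b x.val τ) a) = _
    rw [e, Real.log_mul (div_pos h5 h4).ne' (Real.exp_pos τ).ne', Real.log_exp, kap]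
  · intro τ x
    have h1 := rho_ptpt_kflow h x τ
    have h2 : muKflow a b x.val τ * ori a b (ptKflow a b x.val τ) = ori a b x.val :=
      ori_comb_kflow _ _ _ _ _ (mu_pos_kflow h x τ).ne'
    have h3 := mu_pos_kflow h x τ
    show ori a b (ptKflow a b x.val τ) / √(rho (ptKflow a b x.val τ) (ptKflow a b x.val τ)) = _
    rw [sig, ← h1, ← h2, Real.sqrt_mul (sq_nonneg _), Real.sqrt_sq h3.le, mul_div_mul_left _ _ h3.ne']

theorem continuous_kap (a b : Circle) : Continuous fun x : KD => kap a b x.val :=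
  ((continuous_rho KD.continuous_val continuous_const).div
    (continuous_rho KD.continuous_val continuous_const) fun x => (rho_x_kflow x a).ne').log
    fun x => (div_pos (rho_x_kflow x b) (rho_x_kflow x a)).ne'

theorem continuous_ori_kflow (a b : ℂ) : Continuous fun z => ori a b z := by
  unfold ori
  fun_prop

theorem continuous_sig (a b : Circle) : Continuous fun x : KD => sig a b x.val :=
  ((continuous_ori_kflow a b).comp KD.continuous_val).div
    (continuous_rho KD.continuous_val KD.continuous_val).sqrt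
    fun x => (Real.sqrt_pos.2 x.rho_pos).ne'

theorem kap_swap (a b : Circle) (x : ℂ) : kap b a x = -kap a b x := by
  rw [kap, kap, ← Real.log_inv, inv_div]

theorem near_kflow {η : Circle} {P : ℂ → Prop} (h : ∀ᶠ z in 𝓝 (η : ℂ), P z) :
    ∃ ε > 0, ∀ x : KD, rho x.val η < ε → P x.val := by
  obtain ⟨δ, hδ, H⟩ := Metric.eventually_nhds_iff.1 h
  refine ⟨δ ^ 2 / 2, by positivity, fun x hx => H ?_⟩
  have := norm_sub_sq_le x.lt.le (Circle.norm_coe η).le
  rw [dist_eq_norm]
  exact lt_of_pow_lt_pow_left₀ 2 hδ.le (by linarith)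

theorem lt_kap_kflow (a b : Circle) (M : ℝ) (x : KD) :
    M < kap a b x.val ↔ Real.exp M * rho x.val a < rho x.val b := by
  rw [kap, Real.lt_log_iff_exp_lt (div_pos (rho_x_kflow x b) (rho_x_kflow x a)),
    lt_div_iff₀ (rho_x_kflow x a)]

theorem kap_large (h : a ≠ b) (M : ℝ) : ∃ ε > 0, ∀ x : KD, rho x.val a < ε → M < kap a b x.val := by
  have c1 : Continuous fun z : ℂ => Real.exp M * rho z a := by fun_prop
  have c2 : Continuous fun z : ℂ => rho z b := by fun_prop
  obtain ⟨ε, hε, H⟩ := near_kflow (c1.continuousAt.eventually_lt (x₀ := (a : ℂ)) c2.continuousAt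
    (by simpa [rho_circle_self] using rho_ab_kflow h))
  exact ⟨ε, hε, fun x hx => (lt_kap_kflow a b M x).2 (H x hx)⟩

theorem kap_le (a b : Circle) {ε : ℝ} (hε : 0 < ε) :
    ∃ M, ∀ x : KD, ε ≤ rho x.val a → kap a b x.val ≤ M :=
  ⟨Real.log (2 / ε), fun x hx => Real.log_le_log (div_pos (rho_x_kflow x b) (rho_x_kflow x a))
    (div_le_div₀ zero_le_two (rho_le_two x.lt.le (Circle.norm_coe b).le) hε hx)⟩

theorem kap_near {η : Circle} (ha : η ≠ a) (hb : η ≠ b) :
    ∃ ε > 0, ∃ M, ∀ x : KD, rho x.val η < ε → |kap a b x.val| ≤ M := by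
  have c1 : Continuous fun z : ℂ => rho z a := by fun_prop
  have c2 : Continuous fun z : ℂ => rho z b := by fun_prop
  have c3 : ContinuousAt (fun z : ℂ => |kap a b z|) η :=
    ((c2.continuousAt.div c1.continuousAt (rho_ab_kflow ha).ne').log
      (div_pos (rho_ab_kflow hb) (rho_ab_kflow ha)).ne').abs
  obtain ⟨ε, hε, H⟩ := near_kflow (c3.eventually_lt (g := fun _ => |kap a b η| + 1)
    continuousAt_const (lt_add_one _))
  exact ⟨ε, hε, _, fun x hx => (H x hx).le⟩

theorem sig_large {η : Circle} (h : Cyc a b η) (M : ℝ) :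
    ∃ ε > 0, ∀ x : KD, rho x.val η < ε → M < sig a b x.val := by
  have c1 : Continuous fun z : ℂ => M * √(rho z z) := by fun_prop
  obtain ⟨ε, hε, H⟩ := near_kflow (c1.continuousAt.eventually_lt (x₀ := (η : ℂ))
    (continuous_ori_kflow a b).continuousAt (by simpa [rho_circle_self, Cyc] using h))
  exact ⟨ε, hε, fun x hx => (lt_div_iff₀ (Real.sqrt_pos.2 x.rho_pos)).2 (H x hx)⟩

theorem sig_small {η : Circle} (h : Cyc a η b) (M : ℝ) :
    ∃ ε > 0, ∀ x : KD, rho x.val η < ε → sig a b x.val < -M := by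
  have c1 : Continuous fun z : ℂ => -M * √(rho z z) := by fun_prop
  have e : ori a b η = -ori a η b := by
    unfold ori
    ring
  obtain ⟨ε, hε, H⟩ := near_kflow ((continuous_ori_kflow a b).continuousAt.eventually_lt
    (x₀ := (η : ℂ)) c1.continuousAt (by simpa [rho_circle_self, e, Cyc] using h))
  exact ⟨ε, hε, fun x hx => (div_lt_iff₀ (Real.sqrt_pos.2 x.rho_pos)).2 (H x hx)⟩

theorem kap_sig_bdd (a b : Circle) (R : ℝ) : ∃ M, ∀ x : KD, dist x KD.o ≤ R →
    |kap a b x.val| ≤ M ∧ |sig a b x.val| ≤ M := by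
  obtain ⟨M, hM⟩ := (isCompact_closedBall KD.o R).bddAbove_image
    ((continuous_kap a b).abs.max (continuous_sig a b).abs).continuousOn
  exact ⟨M, fun x hx => max_le_iff.1 (hM ⟨x, hx, rfl⟩)⟩

theorem kap_path (h : a ≠ b) (M : ℝ) : IsPathConnected {x : KD | M < kap a b x.val} := by
  rw [KD.isOpenEmbedding_val.isInducing.isPathConnected_iff]
  have e : KD.val '' {x : KD | M < kap a b x.val} =
      ball 0 1 ∩ {z | Real.exp M * rho z a < rho z b} := by
    ext z
    constructor
    · rintro ⟨x, hx, rfl⟩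
      exact ⟨mem_ball_zero_iff.2 x.lt, (lt_kap_kflow a b M x).1 hx⟩
    · rintro ⟨h1, h2⟩
      exact ⟨⟨z, mem_ball_zero_iff.1 h1⟩, (lt_kap_kflow a b M ⟨z, _⟩).2 h2, rfl⟩
  obtain ⟨ψ, -, -, h1, -⟩ := exists_flow h
  refine Convex.isPathConnected ?_ ⟨_, ψ (M - kap a b KD.o.val + 1) KD.o, ?_, rfl⟩
  · rw [e]
    refine (convex_ball _ _).inter (convex_iff_segment_subset.2 fun p hp q hq x hx => ?_)
    rw [segment_eq_image] at hx
    obtain ⟨s, ⟨h0, h1⟩, rfl⟩ := hx
    simp only [mem_ofPred_eq, rho_affine] at hp hq ⊢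
    rcases h0.eq_or_lt with rfl | h0
    · simpa using hp
    · nlinarith [mul_nonneg (sub_nonneg.2 h1) (sub_pos.2 hp).le, mul_pos h0 (sub_pos.2 hq)]
  · rw [mem_ofPred_eq, h1]
    linarith

end Pool.Agent.P.MP_788ef7_an
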