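import Pool.Agent.P.MP_788ef7_an.Niel1

set_option autoImplicit false

open Set Filter Topology Metric

namespace Pool.Agent.P.MP_788ef7_an

namespace Fuchs

variable {𝔊 : Type*} [Group 𝔊] [MulAction 𝔊 Circle] {Φ : Fuchs 𝔊} {g g' γ δ u u' G g₀ : 𝔊}
  {H : Subgroup 𝔊} {ξ η ζ a b c d p q a₁ a₂ r₁ r₂ a₁' a₂' r₁' r₂' : Circle} {k : ℕ} {T : Set 𝔊}

/-- Nielsen: some power has a fixed point on the circle. -/
theorem nielsen (Φ : Fuchs 𝔊) (g : 𝔊) : ∃ n : ℕ, 1 ≤ n ∧ Stable (g ^ n) := by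
  by_contra hno
  obtain ⟨G, hG⟩ : ∃ G, G = g ^ 2 := ⟨_, rfl⟩
  have ho : OP G := hG ▸ op_sq Φ.cont g
  have hf : ∀ n : ℕ, 1 ≤ n → ∀ ξ : Circle, G ^ n • ξ ≠ ξ := fun n hn ξ h =>
    hno ⟨2 * n, by omega, by rw [pow_mul, ← hG]; exact ⟨ho.pow n, ξ, h⟩⟩
  have hf' : ∀ n m : ℕ, ∀ ξ : Circle, G ^ n • ξ = G ^ m • ξ → n = m := by
    intro n m ξ h
    wlog hnm : n < m generalizing n m
    · rcases (not_lt.1 hnm).eq_or_lt with e | e
      · exact e.symm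
      · exact (this m n h.symm e).symm
    obtain ⟨k, rfl⟩ := Nat.exists_eq_add_of_lt hnm
    rw [add_assoc, pow_add, mul_smul, smul_left_cancel_iff] at h
    exact absurd h.symm (hf _ (by omega) ξ)
  obtain ⟨N, Nc, Ni, ⟨ξ₀, h₀, -⟩, Nm⟩ :=
    exists_minimal Φ.cont (Subgroup.zpowers G) isCompact_univ univ_nonempty
  have hp : ∀ n : ℕ, G ^ n ∈ Subgroup.zpowers G := fun n =>
    Subgroup.pow_mem _ (Subgroup.mem_zpowers G) n
  have hi : N.Infinite := infinite_of_injective_forall_mem (f := fun n : ℕ => G ^ n • ξ₀)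
    (fun n m h => hf' n m ξ₀ h) fun n => Ni _ (hp n) _ h₀
  obtain ⟨ζ, -, hζ⟩ := hi.exists_accPt_of_subset_isCompact isCompact_univ (subset_univ _)
  refine pack (Φ := Φ) (H := ⊥) (fun h hh => ?_) hζ (by rw [Φ.lim_bot]; exact id)
    fun γ h0 h1 => nocross (f := fun n => G ^ n) h0 (fun n m h => ?_) ?_
  · rw [Subgroup.mem_bot.1 hh, Φ.ht_one]
  · obtain ⟨a, b, hab⟩ := exists_ax h0 fun e => h1 (Subgroup.mem_bot.2 e)
    have h2 := hab.conj (G ^ n)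
    have h3 := hab.conj (G ^ m)
    simp only at h
    rw [h] at h2
    exact hf' n m a (h2.unique h3).1
  · intro φ _ ξ₁ ξ₂ α h₁ h₂ m hm m' hm'
    refine not_linked_of_tendsto Φ.cont (f := fun n => G ^ φ n) (fun n => ho.pow _) hi ?_ h₁ h₂
      hm hm'
    intro J Jo Jn
    obtain ⟨S, hS⟩ := Nc.isCompact.elim_finite_subcover
      (fun a : Subgroup.zpowers G => (fun ξ : Circle => a.1 • ξ) ⁻¹' J)
      (fun a => Jo.preimage (Φ.cont _)) fun ξ hξ => by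
        obtain ⟨a, ha, h⟩ := Nm ξ hξ ⟨1, one_mem _, trivial⟩ J Jo Jn
        exact mem_iUnion.2 ⟨⟨a, ha⟩, h⟩
    refine ⟨Subtype.val '' (S : Set (Subgroup.zpowers G)), S.finite_toSet.image _,
      fun n ξ hξ => ?_⟩
    obtain ⟨⟨s, z, rfl⟩, hs, h⟩ := mem_iUnion₂.1 (hS (Ni _ (inv_mem (hp (φ n))) ξ hξ))
    refine ⟨_, ⟨_, hs, rfl⟩, ?_⟩
    rw [← mul_smul, ← (((Commute.refl G).zpow_left z).pow_right (φ n)).inv_right.eq, mul_smul]
    exact h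

end Fuchs

end Pool.Agent.P.MP_788ef7_an
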