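import Pool.Agent.P.MP_788ef7_an.HF1
import Pool.Agent.P.MP_788ef7_an.Esc
import Pool.Agent.P.MP_788ef7_an.Esc1
import Pool.Agent.P.MP_788ef7_an.Niel
import Pool.Agent.P.MP_788ef7_an.KFlow

set_option autoImplicit false

open Set Filter Topology Metric

namespace Pool.Agent.P.MP_788ef7_an

namespace Setting

variable {𝔾 X E : Type*} [Group 𝔾] [MetricSpace X] [MulAction 𝔾 X] [ProperSpace X]
  [NormedAddCommGroup E] [NormedSpace ℝ E] [FiniteDimensional ℝ E] {S : Setting 𝔾 X E}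
  {g g' G G' γ c w : 𝔾} {p p' q x y z : X} {C : Subgroup 𝔾} {K : Set X} {R : ℝ}
  {𝔊 : Type*} [Group 𝔊] [MulAction 𝔊 Circle] {Φ : Fuchs 𝔊} {pj : 𝔾 →* 𝔊} {pr : X → KD}
  {set : X → KD → X} {H : Subgroup 𝔊} {a₁ a₂ r₁ r₂ : Circle}

/-- Uniform bound for forward orbits that start near a core and stay at bounded distance. -/
theorem HF.core_fwd (h : S.HF Φ pj pr set) (hc : Φ.Core H (pj g)) (L : ℝ) : ∃ R, ∀ z,
    z ∈ NearP Φ pr H L → (∃ L', z ∈ Stay g (NearP Φ pr H L')) → z ∈ Stay g (NearP Φ pr H R) := by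
  obtain ⟨C₀, hC⟩ := h.po g
  obtain ⟨R, hR⟩ := hc.core2 C₀ L
  refine ⟨R, fun z hz ⟨L', hL'⟩ n => ?_⟩
  have := hR _ (hC z) (by rw [zpow_zero, one_smul]; exact hz)
    ⟨L', fun n => by rw [zpow_natCast]; exact hL' n⟩ n
  rwa [zpow_natCast] at this

theorem HF.ws_stay (h : S.HF Φ pj pr set) (hG : 0 < S.ht G) (hp : G • p = p) (hz : z ∈ S.Ws p)
    (H : Subgroup 𝔊) : ∃ L, z ∈ Stay G (NearP Φ pr H L) := by
  obtain ⟨L, hL⟩ := ws_bdd hG hp hz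
  exact ⟨dist (pr p) KD.o + L, fun n =>
    PreFuchs.Near.perturb _ (Φ.near_self H (pr p)) ((h.lip _ _).trans (hL n))⟩

theorem HF.core_ws (h : S.HF Φ pj pr set) (hc : Φ.Core H (pj G)) (hp : G • p = p) (L : ℝ) :
    ∃ R, ∀ z ∈ S.Ws p, z ∈ NearP Φ pr H L → z ∈ Stay G (NearP Φ pr H R) := by
  obtain ⟨R, hR⟩ := h.core_fwd hc L
  exact ⟨R, fun z hz hL => hR z hL (h.ws_stay (h.ht_eq G ▸ hc.pos) hp hz H)⟩

theorem HF.ws_near (h : S.HF Φ pj pr set) (hr : Φ.Reg (pj G) a₁ a₂ r₁ r₂) (hG : 0 < S.ht G)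
    (hp : G • p = p) {ε : ℝ} (hε : 0 < ε) : ∃ R, ∀ z ∈ S.Ws p, ε ≤ rho (pr z).val r₁ →
      ε ≤ rho (pr z).val r₂ → z ∈ Stay G (NearP Φ pr ⊥ R) := by
  obtain ⟨C₀, hC⟩ := h.po G
  obtain ⟨R, hR⟩ := hr.pr C₀ hε
  refine ⟨R, fun z hz h₁ h₂ n => ?_⟩
  obtain ⟨L, hL⟩ := h.ws_stay hG hp hz ⊥
  have := hR _ (hC z) ⟨L, fun n => by rw [zpow_natCast]; exact mem_nearP_bot.1 (hL n)⟩
    (by rwa [zpow_zero, one_smul]) (by rwa [zpow_zero, one_smul]) n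
  rw [zpow_natCast] at this
  exact mem_nearP_bot.2 this

theorem HF.wu_near (h : S.HF Φ pj pr set) (hr : Φ.Reg (pj G) a₁ a₂ r₁ r₂) (hG : 0 < S.ht G)
    (hp : G • p = p) {ε : ℝ} (hε : 0 < ε) : ∃ R, ∀ z ∈ S.Wu p, ε ≤ rho (pr z).val a₁ →
      ε ≤ rho (pr z).val a₂ → z ∈ Stay G⁻¹ (NearP Φ pr ⊥ R) := by
  have hr' : Φ.inv.Reg (pj G⁻¹) r₁ r₂ a₁ a₂ := by
    rw [map_inv]
    exact Fuchs.inv_reg.2 hr.inv
  have hG' : 0 < S.inv.ht G⁻¹ := by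
    show 0 < -S.ht G⁻¹
    rwa [S.ht_inv, neg_neg]
  have := h.inv.ws_near hr' hG' (inv_smul_eq_iff.2 hp.symm) hε
  rwa [inv_ws, funext (inv_nearP ⊥)] at this

/-- The stable manifold avoids a neighbourhood of every point other than the repelling ones. -/
theorem HF.ws_away (h : S.HF Φ pj pr set) (hr : Φ.Reg (pj G) a₁ a₂ r₁ r₂) (hG : 0 < S.ht G)
    (hp : G • p = p) {ξ : Circle} (h₁ : ξ ≠ r₁) (h₂ : ξ ≠ r₂) :
    ∃ ε > 0, ∀ z ∈ S.Ws p, ε ≤ rho (pr z).val ξ := by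
  have key : ∀ r : Circle, ξ ≠ r → ∃ ε > 0, ∀ x : KD, rho x.val r < ε → ε ≤ rho x.val ξ := by
    intro r hne
    have hm : 0 < ‖(ξ : ℂ) - r‖ := norm_pos_iff.2 (sub_ne_zero.2 fun e => hne (Circle.ext e))
    refine ⟨‖(ξ : ℂ) - r‖ ^ 2 / 8, by positivity, fun x hx => ?_⟩
    have e1 := norm_sub_sq_le x.lt.le (Circle.norm_coe ξ).le
    have e2 := norm_sub_sq_le x.lt.le (Circle.norm_coe r).le
    have e3 : ‖(ξ : ℂ) - r‖ ≤ ‖x.val - ξ‖ + ‖x.val - r‖ := by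
      rw [norm_sub_rev x.val ξ]
      exact norm_sub_le_norm_sub_add_norm_sub _ _ _
    have e4 : ‖(ξ : ℂ) - r‖ ^ 2 ≤ (‖x.val - ξ‖ + ‖x.val - r‖) ^ 2 := by gcongr
    nlinarith [sq_nonneg (‖x.val - ξ‖ - ‖x.val - r‖)]
  obtain ⟨ε₁, p₁, k₁⟩ := key r₁ h₁
  obtain ⟨ε₂, p₂, k₂⟩ := key r₂ h₂
  obtain ⟨R, hR⟩ := h.ws_near hr hG hp (lt_min p₁ p₂)
  obtain ⟨c, hc, hcmp⟩ := rho_cmp R
  refine ⟨min (min ε₁ ε₂) c⁻¹, lt_min (lt_min p₁ p₂) (inv_pos.2 hc), fun z hz => ?_⟩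
  rcases lt_or_ge (rho (pr z).val r₁) ε₁ with c₁ | c₁
  · exact ((min_le_left _ _).trans (min_le_left _ _)).trans (k₁ _ c₁)
  rcases lt_or_ge (rho (pr z).val r₂) ε₂ with c₂ | c₂
  · exact ((min_le_left _ _).trans (min_le_right _ _)).trans (k₂ _ c₂)
  have h0 := hR z hz ((min_le_left _ _).trans c₁) ((min_le_right _ _).trans c₂) 0
  rw [pow_zero, one_smul, mem_nearP_bot, dist_comm] at h0
  have h1 := hcmp _ _ h0 ξ (Circle.norm_coe ξ).le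
  rw [show KD.o.val = 0 from rfl, rho_zero_left] at h1
  refine (min_le_right _ _).trans ?_
  rwa [inv_le_iff_one_le_mul₀' hc]

theorem HF.ws_kap (h : S.HF Φ pj pr set) (hr : Φ.Reg (pj G) a₁ a₂ r₁ r₂) (hG : 0 < S.ht G)
    (hp : G • p = p) : ∃ M, ∀ z ∈ S.Ws p, |kap a₁ a₂ (pr z).val| ≤ M := by
  obtain ⟨-, -, n₁, n₂, n₃, n₄⟩ := hr.linked.ne
  obtain ⟨ε₁, p₁, k₁⟩ := h.ws_away hr hG hp n₁ n₂
  obtain ⟨ε₂, p₂, k₂⟩ := h.ws_away hr hG hp n₃ n₄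
  obtain ⟨M₁, m₁⟩ := kap_le a₁ a₂ p₁
  obtain ⟨M₂, m₂⟩ := kap_le a₂ a₁ p₂
  refine ⟨max M₁ M₂, fun z hz => abs_le.2 ⟨?_, (m₁ _ (k₁ z hz)).trans (le_max_left _ _)⟩⟩
  have := m₂ _ (k₂ z hz)
  rw [kap_swap] at this
  linarith [le_max_right M₁ M₂]

theorem HF.wu_kap (h : S.HF Φ pj pr set) (hr : Φ.Reg (pj G) a₁ a₂ r₁ r₂) (hG : 0 < S.ht G)
    (hp : G • p = p) (M : ℝ) : ∃ R, ∀ z ∈ S.Wu p, |kap a₁ a₂ (pr z).val| ≤ M →
      z ∈ Stay G⁻¹ (NearP Φ pr ⊥ R) := by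
  obtain ⟨ε₁, p₁, k₁⟩ := kap_large hr.ne_a M
  obtain ⟨ε₂, p₂, k₂⟩ := kap_large hr.ne_a.symm M
  obtain ⟨R, hR⟩ := h.wu_near hr hG hp (lt_min p₁ p₂)
  refine ⟨R, fun z hz hM => hR z hz ((min_le_left _ _).trans (not_lt.1 fun c => ?_))
    ((min_le_right _ _).trans (not_lt.1 fun c => ?_))⟩
  · linarith [k₁ _ c, (abs_le.1 hM).2]
  · have := k₂ _ c
    rw [kap_swap] at this
    linarith [(abs_le.1 hM).1]

/-- A stable essential power of an element with a fixed point. -/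
theorem Iness.exists_pow (hi : S.Iness pj) (Φ : Fuchs 𝔊) (hG : 0 < S.ht G) (hp : G • p = p) :
    ∃ n : ℕ, 1 ≤ n ∧ ∀ m : ℕ, 1 ≤ m → Stable (pj (G ^ (n * m))) ∧ Ess (pj (G ^ (n * m))) := by
  obtain ⟨n, hn, hs⟩ := Φ.nielsen (pj G)
  refine ⟨n, hn, fun m hm => ?_⟩
  have h1 : Stable (pj (G ^ (n * m))) := by
    rw [map_pow, pow_mul]
    exact hs.pow m
  refine ⟨h1, hi _ p ?_ (MulAction.mem_stabilizer_iff.1
    (pow_mem (MulAction.mem_stabilizer_iff.2 hp) _)) h1⟩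
  rw [S.ht_pow]
  exact mul_pos (by exact_mod_cast Nat.mul_pos hn hm) hG

end Setting

end Pool.Agent.P.MP_788ef7_an
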