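import Pool.Agent.P.MP_788ef7_an.TBasic
import Pool.Agent.P.MP_788ef7_an.Slice
import Pool.Agent.P.MP_788ef7_an.Dyn
import Pool.Agent.P.MP_788ef7_an.HFBasic

set_option autoImplicit false

open Set Filter Topology Metric

namespace Pool.Agent.P.MP_788ef7_an

namespace Setting

variable {𝔾 X E : Type*} [Group 𝔾] [MetricSpace X] [MulAction 𝔾 X] [ProperSpace X]
  [NormedAddCommGroup E] [NormedSpace ℝ E] [FiniteDimensional ℝ E] {S : Setting 𝔾 X E}
  {g g' G G' γ c w : 𝔾} {p p' q x y z : X} {C : Subgroup 𝔾} {K : Set X} {R : ℝ}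
  {𝔊 : Type*} [Group 𝔊] [MulAction 𝔊 Circle] {Φ : Fuchs 𝔊} {pj : 𝔾 →* 𝔊} {pr : X → KD}
  {set : X → KD → X} {H : Subgroup 𝔊} {a₁ a₂ r₁ r₂ : Circle}
  {j : E ≃L[ℝ] ℂ × ℂ} {tr : 𝔾 → ℂ} {B : ℂ ≃L[ℝ] ℂ} {τ : ℤ} {ν : 𝔾}

theorem TT.parabolic (h : S.TT Φ pj pr set j tr B τ) (hτ : τ ≤ 2) : False := by
  classical
  obtain ⟨G, p, hG, hp⟩ := S.exists_periodic
  obtain ⟨n, hn, hst⟩ := (h.sf.iness h.hf).exists_pow Φ hG hp
  obtain ⟨l, e, hle, hl⟩ := exists_inv_functional h.trace h.le hτ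
  have hht : S.ht (G ^ (n * 12)) = 12 * (n * S.ht G) := by rw [S.ht_pow]; push_cast; ring
  have hpos : 0 < S.ht (G ^ (n * 12)) := by rw [hht]; positivity
  have hfix : G ^ (n * 12) • p = p := MulAction.mem_stabilizer_iff.1
    (pow_mem (MulAction.mem_stabilizer_iff.2 hp) _)
  obtain ⟨Z₀, hZ₀⟩ := slice_gen h.sf h.hf h.split hpos (hst 12 (by norm_num)).1
    (lam := fun _ => 1) contDiffOn_const fun _ _ _ _ => rfl
  obtain ⟨Z, -, -, hZ⟩ := hZ₀ 1 le_rfl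
  simp only [pow_one, one_smul] at hZ
  obtain ⟨R, hR⟩ := (Z.finite_toSet.image fun x => dist x KD.o).bddAbove
  obtain ⟨M, hM⟩ := h.affine (G ^ (n * 12)) R
  choose σ h1 h2 using fun (x : KD) (y : ℂ) => h.sf.exists_pt x (mem_univ y)
  have hσ : ∀ z, σ (pr z) (j (S.e z)).2 = z := fun z => h.sf.ext (h1 _ _) (h2 _ _)
  have hno : ∀ x ∈ Z, ∀ y, (j (S.e (G ^ (n * 12) • σ x y))).2 - y + (‖l‖ * M + 1) • e ≠ 0 := by
    intro x hx y h0
    have h3 := hM (σ x y) (by rw [h1]; exact hR (mem_image_of_mem _ hx))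
    rw [h2, hht] at h3
    have h4 := l.le_opNorm ((j (S.e (G ^ (n * 12) • σ x y))).2 - (B ^ (12 * (n * S.ht G))) y)
    have h5 := congrArg l h0
    rw [map_add, map_sub, map_smul, hle, map_zero, smul_eq_mul, mul_one] at h5
    rw [map_sub, hl, Real.norm_eq_abs] at h4
    have h6 := mul_le_mul_of_nonneg_left h3 (norm_nonneg l)
    have h7 := neg_abs_le (l (j (S.e (G ^ (n * 12) • σ x y))).2 - l y)
    linarith
  obtain ⟨F, hF, -, hc⟩ := hZ ‖(‖l‖ * M + 1) • e‖ (norm_nonneg _)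
    (fun R => ⟨R + ‖(‖l‖ * M + 1) • e‖, fun z hz u hu e1 =>
      (h.dist_le' _ _).trans (add_le_add hz (e1 ▸ hu))⟩)
    (fun _ => (‖l‖ * M + 1) • e)
    (fun x y => (j (S.e (G ^ (n * 12) • σ x y))).2 - y + (‖l‖ * M + 1) • e)
    (fun _ _ => le_rfl) (fun z => by simp only [hσ])
    (fun x hx y _ h0 => absurd h0 (hno x hx y)) {p}
    (fun q hq => by rw [Finset.mem_singleton.1 hq]; exact hfix)
    (fun q hq c _ hc => (Finset.mem_singleton.1 hc).trans (Finset.mem_singleton.1 hq).symm)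
  rw [Finset.sum_eq_zero fun x hx => by
    rw [Finset.eq_empty_of_forall_notMem fun y hy => hno x hx y (hF x hx y hy).2,
      Finset.sum_empty, abs_zero]] at hc
  simp at hc

end Setting

end Pool.Agent.P.MP_788ef7_an
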