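import Pool.Agent.P.MP_788ef7_an.TFin
import Pool.Agent.P.MP_788ef7_an.TPar
import Pool.Agent.P.MP_788ef7_an.MainP

set_option autoImplicit false

open Set Filter Topology Metric

namespace Pool.Agent.P.MP_788ef7_an

theorem Eig.bound_ttc {B : ℂ ≃L[ℝ] ℂ} {μ : ℝ} {lu ls : ℂ →L[ℝ] ℝ} {eu es : ℂ}
    (hE : Eig B μ lu ls eu es) {m : ℤ} (hm : 0 < m) (M : ℝ) :
    (∃ M₁, ∀ w : ℕ → ℂ, (∀ n, ‖w (n + 1) - (B ^ m) (w n)‖ ≤ M) → (∃ L, ∀ n, ‖w n‖ ≤ L) →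
      ∀ n, |lu (w n)| ≤ M₁) ∧
    ∀ M', ∃ M₂, ∀ w : ℕ → ℂ, (∀ n, ‖w (n + 1) - (B ^ m) (w n)‖ ≤ M) → (∃ L, ∀ n, ‖w n‖ ≤ L) →
      |ls (w 0)| ≤ M' → ∀ n, ‖w n‖ ≤ M₂ := by
  have hν : 1 < μ ^ m := one_lt_zpow₀ hE.one_lt hm
  have hl : ∀ (l : ℂ →L[ℝ] ℝ) (v : ℂ) (c : ℝ), ‖v‖ ≤ c → |l v| ≤ ‖l‖ * c := fun l v c hv =>
    (l.le_opNorm v).trans (mul_le_mul_of_nonneg_left hv (norm_nonneg _))
  have h1 : ∀ w : ℕ → ℂ, (∀ n, ‖w (n + 1) - (B ^ m) (w n)‖ ≤ M) → (∃ L, ∀ n, ‖w n‖ ≤ L) →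
      ∀ n, |lu (w n)| ≤ ‖lu‖ * M / (μ ^ m - 1) := by
    rintro w hw ⟨L, hL⟩
    refine bound_of_expand hν (fun n => ?_) ⟨_, fun n => hl lu _ _ (hL n)⟩
    rw [← hE.lu_B, ← map_sub]
    exact hl _ _ _ (hw n)
  refine ⟨⟨_, h1⟩, fun M' => ⟨‖lu‖ * M / (μ ^ m - 1) * ‖eu‖ +
    max M' (‖ls‖ * M * μ ^ m / (μ ^ m - 1)) * ‖es‖, fun w hw hb h0 n => ?_⟩⟩
  have h2 := bound_of_contract (a := fun n => ls (w n)) (M := ‖ls‖ * M) hν (fun n => by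
    rw [← zpow_neg, ← hE.ls_B, ← map_sub]
    exact hl _ _ _ (hw n)) h0 n
  rw [hE.eq (w n)]
  refine (norm_add_le _ _).trans (add_le_add ?_ ?_)
  · rw [norm_smul]
    exact mul_le_mul_of_nonneg_right (h1 w hw hb n) (norm_nonneg _)
  · rw [norm_smul]
    exact mul_le_mul_of_nonneg_right h2 (norm_nonneg _)

theorem Eig.back_ttc {B : ℂ ≃L[ℝ] ℂ} {μ : ℝ} {lu ls : ℂ →L[ℝ] ℝ} {eu es : ℂ}
    (hE : Eig B μ lu ls eu es) {m : ℤ} (hm : 0 < m) (M M' : ℝ) :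
    ∃ M₂, ∀ w : ℕ → ℂ, (∀ n, ‖w n - (B ^ m) (w (n + 1))‖ ≤ M) → (∃ L, ∀ n, ‖w n‖ ≤ L) →
      |lu (w 0)| ≤ M' → ∀ n, ‖w n‖ ≤ M₂ := by
  obtain ⟨M₂, h⟩ := (hE.symm.bound_ttc hm (‖((B.symm ^ m : ℂ ≃L[ℝ] ℂ) : ℂ →L[ℝ] ℂ)‖ * M)).2 M'
  refine ⟨M₂, fun w hw => h w fun n => ?_⟩
  have e : (B.symm ^ m) ((B ^ m) (w (n + 1))) = w (n + 1) := by
    have e1 : B.symm ^ m = (B ^ m)⁻¹ := inv_zpow B m
    rw [e1]
    exact (B ^ m).symm_apply_apply _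
  rw [← e, ← map_sub, ← neg_sub, map_neg, norm_neg]
  exact (((B.symm ^ m : ℂ ≃L[ℝ] ℂ) : ℂ →L[ℝ] ℂ).le_opNorm _).trans
    (mul_le_mul_of_nonneg_left (hw n) (norm_nonneg _))

theorem bdd_ttc {X : Type*} [MetricSpace X] [ProperSpace X] {f : X → ℂ} (hf : Continuous f)
    {x : ℕ → X} {p : X} (h : ∃ L, ∀ n, dist (x n) p ≤ L) : ∃ L, ∀ n, ‖f (x n)‖ ≤ L := by
  obtain ⟨L, hL⟩ := h
  obtain ⟨M, hM⟩ := (isCompact_closedBall p L).exists_bound_of_continuousOn hf.continuousOn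
  exact ⟨M, fun n => hM _ (hL n)⟩

namespace Setting

variable {𝔾 X E : Type*} [Group 𝔾] [MetricSpace X] [MulAction 𝔾 X] [ProperSpace X]
  [NormedAddCommGroup E] [NormedSpace ℝ E] [FiniteDimensional ℝ E] {S : Setting 𝔾 X E}
  {g g' G G' γ c w : 𝔾} {p p' q x y z : X} {C : Subgroup 𝔾} {K : Set X} {R : ℝ}
  {𝔊 : Type*} [Group 𝔊] [MulAction 𝔊 Circle] {Φ : Fuchs 𝔊} {pj : 𝔾 →* 𝔊} {pr : X → KD}
  {set : X → KD → X} {H : Subgroup 𝔊} {a₁ a₂ r₁ r₂ : Circle}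
  {j : E ≃L[ℝ] ℂ × ℂ} {tr : 𝔾 → ℂ} {B : ℂ ≃L[ℝ] ℂ} {τ : ℤ} {ν : 𝔾}
  {μ : ℝ} {lu ls : ℂ →L[ℝ] ℝ} {eu es : ℂ} {θ : 𝔊 → ℂ}

/-- The coordinate relative to the invariant graph. -/
theorem TT.rel (h : S.TT Φ pj pr set j tr B τ) (hτ : 2 < τ) (hc : Φ.Core H (pj G)) :
    ∃ (C : Subgroup 𝔾) (rel : X → ℂ) (s : KD → ℂ), S.FinPer C G ∧ Continuous s ∧
      (∀ z, rel z = (j (S.e z)).2 - s (pr z)) ∧
      (∀ R, ∃ M, ∀ z, z ∈ NearP Φ pr H R → ‖rel (G • z) - (B ^ S.ht G) (rel z)‖ ≤ M) ∧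
      ∀ R M, ∃ K, IsCompact K ∧ ∀ z ∈ NearP Φ pr H R, ‖rel z‖ ≤ M → z ∈ Tr C K := by
  have hG : 0 < S.ht G := h.hf.ht_eq G ▸ hc.pos
  obtain ⟨θ, hθ, he, D, hD, hD', hd⟩ := h.graph hτ hG.ne' hc.le (fun a ha => (hc.norm a).1 ha) hc.uni
  have h0 : ∀ c, pj c ∈ H → S.ht c = 0 := fun c hc' => h.hf.ht_eq c ▸ hc.le _ hc'
  have hθ1 : θ 1 = 0 := by
    have := hθ 1 H.one_mem 1 H.one_mem
    rwa [mul_one, left_eq_add] at this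
  let C : Subgroup 𝔾 :=
    { carrier := {c | pj c ∈ H ∧ tr c = θ (pj c)}
      one_mem' := ⟨by rw [map_one]; exact H.one_mem, by rw [map_one, hθ1, h.tr_one]⟩
      mul_mem' := fun {a b} ha hb => ⟨by rw [map_mul]; exact H.mul_mem ha.1 hb.1, by
        rw [map_mul, hθ _ ha.1 _ hb.1, h.tr_mul (h0 a ha.1) (h0 b hb.1), ha.2, hb.2]⟩
      inv_mem' := fun {a} ha => ⟨by rw [map_inv]; exact H.inv_mem ha.1, by
        have := hθ _ ha.1 _ (H.inv_mem ha.1)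
        rw [mul_inv_cancel, hθ1] at this
        rw [map_inv, h.tr_inv (h0 a ha.1), ha.2, neg_eq_of_add_eq_zero_right this.symm]⟩ }
  have hF : S.FinPer C G := h.finPer hτ hc hθ he hD hD' hd fun _ => Iff.rfl
  obtain ⟨s, hs, hsM⟩ := Φ.exists_section hc.le hθ
  have k1 : ∀ R, ∃ M, ∀ c ∈ C, ∀ z, dist (pr z) KD.o ≤ R →
      ‖(j (S.e (c • z))).2 - s (pr (c • z)) - (j (S.e z)).2‖ ≤ M := by
    intro R
    obtain ⟨M, hM⟩ := hsM R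
    refine ⟨M, fun c hc' z hz => ?_⟩
    have h1 := hM _ hc'.1 (pr (c • z)) (by
      rw [h.hf.eqv c z (h0 c hc'.1), PreFuchs.pt, Φ.dist_mv]
      exact hz)
    rw [h.sf.act c z (h0 c hc'.1), hc'.2, ← norm_neg]
    refine le_of_eq_of_le (congrArg _ ?_) h1
    ring
  have k2 : ∀ R, ∃ R₀, ∀ z ∈ NearP Φ pr H R, ∃ c ∈ C, dist (pr (c⁻¹ • z)) KD.o ≤ R₀ := by
    intro R
    obtain ⟨R₁, hR₁⟩ := (hD.image fun d => dist (Φ.pt d) KD.o).bddAbove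
    refine ⟨R + R₁, ?_⟩
    rintro z ⟨a, ha, hz⟩
    obtain ⟨d, hdD, c, hc1, hc2, rfl⟩ := hd a ha
    refine ⟨c, ⟨hc1, hc2⟩, ?_⟩
    have h1 : S.ht c⁻¹ = 0 := by rw [S.ht_inv, h0 c hc1, neg_zero]
    rw [Φ.pt_mul (hc.le _ hc1), ← Φ.dist_mv (pj c)⁻¹, Φ.mv_inv_mv (hc.le _ hc1), ← map_inv,
      ← h.hf.eqv _ _ h1] at hz
    linarith [dist_triangle (pr (c⁻¹ • z)) (Φ.pt d) KD.o, hR₁ ⟨d, hdD, rfl⟩]
  refine ⟨C, fun z => (j (S.e z)).2 - s (pr z), s, hF, hs, fun _ => rfl, fun R => ?_,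
    fun R M => ?_⟩
  · obtain ⟨R₀, hR₀⟩ := k2 R
    obtain ⟨C₀, hC₀⟩ := h.hf.step G
    obtain ⟨R₁, hR₁⟩ := Φ.step_near (H := ⊥) (g := pj G)
      (fun a ha => by rw [Subgroup.mem_bot.1 ha, Φ.ht_one])
      (fun a ha => by rw [Subgroup.mem_bot.1 ha, mul_one, mul_inv_cancel]; exact one_mem _) C₀ R₀
    obtain ⟨M₀, hM₀⟩ := k1 R₀
    obtain ⟨M₁, hM₁⟩ := k1 R₁
    obtain ⟨M₂, hM₂⟩ := h.affine G R₀
    refine ⟨M₁ + M₂ + ‖((B ^ S.ht G : ℂ ≃L[ℝ] ℂ) : ℂ →L[ℝ] ℂ)‖ * M₀, fun z hz => ?_⟩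
    obtain ⟨c, hc', hz'⟩ := hR₀ z hz
    have h1 := hM₀ c hc' _ hz'
    have h2 := hM₁ _ ((hF.norm c).1 hc') (G • c⁻¹ • z)
      (Φ.near_bot.1 (hR₁ _ _ (hC₀ _) (Φ.near_bot.2 hz')))
    have h3 := hM₂ _ hz'
    rw [smul_inv_smul] at h1
    rw [mul_smul, mul_smul, inv_smul_smul, smul_inv_smul] at h2
    have h4 := (((B ^ S.ht G : ℂ ≃L[ℝ] ℂ) : ℂ →L[ℝ] ℂ).le_opNorm _).trans
      (mul_le_mul_of_nonneg_left h1 (norm_nonneg _))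
    rw [map_sub, ← norm_neg, neg_sub] at h4
    refine le_trans (le_of_eq (congrArg _ ?_)) ((norm_add₃_le).trans (add_le_add_three h2 h3 h4))
    simp only [ContinuousLinearEquiv.coe_coe]
    ring
  · obtain ⟨R₀, hR₀⟩ := k2 R
    obtain ⟨M₀, hM₀⟩ := k1 R₀
    refine ⟨_, h.sf.compact R₀ (isCompact_closedBall 0 (M + M₀)) (subset_univ _),
      fun z hz hM => ?_⟩
    obtain ⟨c, hc', hz'⟩ := hR₀ z hz
    refine ⟨c⁻¹, C.inv_mem hc', hz', mem_closedBall_zero_iff.2 ?_⟩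
    have h1 := hM₀ c hc' _ hz'
    rw [smul_inv_smul] at h1
    linarith [norm_le_insert ((j (S.e z)).2 - s (pr z)) (j (S.e (c⁻¹ • z))).2]

omit [ProperSpace X] [FiniteDimensional ℝ E] in
theorem TT.cont_ttc (S : Setting 𝔾 X E) (j : E ≃L[ℝ] ℂ × ℂ) :
    Continuous fun z => (j (S.e z)).2 := (j.continuous.comp S.emb.continuous).snd

theorem TT.ws_lu_ttc (h : S.TT Φ pj pr set j tr B τ) (hE : Eig B μ lu ls eu es) (hG : 0 < S.ht G)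
    (hp : G • p = p) (R : ℝ) : ∃ M, ∀ z ∈ S.Ws p, z ∈ Stay G (NearP Φ pr ⊥ R) →
      |lu (j (S.e z)).2| ≤ M := by
  obtain ⟨M, hM⟩ := h.affine G R
  obtain ⟨M₁, h₁⟩ := (hE.bound_ttc hG M).1
  refine ⟨M₁, fun z hz hs => ?_⟩
  have := h₁ (fun n => (j (S.e (G ^ n • z))).2) (fun n => by
    rw [pow_succ', mul_smul]
    exact hM _ (mem_nearP_bot.1 (hs n))) (bdd_ttc (TT.cont_ttc S j) (ws_bdd hG hp hz)) 0
  rwa [pow_zero, one_smul] at this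

theorem TT.fac (h : S.TT Φ pj pr set j tr B τ) (hτ : 2 < τ) :
    S.Fac2 Φ pj pr set (fun _ => True) ⟨0, 1, Fin.elim0, Fin.elim0, Fin.elim0⟩ := by
  obtain ⟨μ, lu, ls, eu, es, hE⟩ := exists_eig h.trace h.det (by exact_mod_cast hτ)
  have hback : ∀ (G : 𝔾) (z : X) (n : ℕ), G • G⁻¹ ^ (n + 1) • z = G⁻¹ ^ n • z := fun G z n => by
    rw [pow_succ', mul_smul, smul_inv_smul]
  refine ⟨fun _ _ _ => trivial, fun _ _ _ _ => trivial,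
    ⟨le_rfl, fun i => i.elim0, fun i => i.elim0, 0, fun G p hb => (hb 1 le_rfl trivial).elim⟩,
    fun _ _ _ _ i => i.elim0, fun H G p hc _ hp => ?_, fun G G' p p' hG hG' _ _ hp hp' R => ?_,
    fun G p hG _ hp R => ?_⟩
  · have hG : 0 < S.ht G := h.hf.ht_eq G ▸ hc.pos
    obtain ⟨C, rel, s, hF, hs, hr, h3, h4⟩ := h.rel hτ hc
    obtain ⟨ψ, hψ, hψ0, hψ1, hψ2⟩ := h.exists_shift eu
    have hrel : Continuous rel := by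
      rw [funext hr]
      exact (TT.cont_ttc S j).sub (hs.comp h.hf.continuous_pr)
    refine ⟨C, fun z => lu (rel z), ψ, hF, lu.continuous.comp hrel, hψ, hψ0, fun t z => ?_, hψ1,
      fun R => ?_, fun R M' => ?_, fun R T hT => ?_⟩
    · simp only [hr, hψ1, hψ2, map_sub, map_add, map_smul, hE.lu_eu, smul_eq_mul]
      ring
    · obtain ⟨M, hM⟩ := h3 R
      obtain ⟨M₁, h₁⟩ := (hE.bound_ttc hG M).1
      refine ⟨M₁, fun z hz hs => ?_⟩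
      have := h₁ (fun n => rel (G ^ n • z)) (fun n => by
        rw [pow_succ', mul_smul]
        exact hM _ (hs n)) (bdd_ttc hrel (ws_bdd hG hp hz)) 0
      rwa [pow_zero, one_smul] at this
    · obtain ⟨M, hM⟩ := h3 R
      obtain ⟨M₂, h₂⟩ := hE.back_ttc hG M M'
      obtain ⟨K, hK, hK'⟩ := h4 R M₂
      refine ⟨K, hK, fun z hz hs hκ n => hK' _ (hs n) ?_⟩
      refine h₂ (fun n => rel (G⁻¹ ^ n • z)) (fun n => ?_) (bdd_ttc hrel (wu_bdd hG hp hz))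
        (by rwa [pow_zero, one_smul]) n
      rw [← hback G z n]
      exact hM _ (hs _)
    · obtain ⟨M, hM⟩ := h3 R
      obtain ⟨M', hM'⟩ := hT.exists_bound_of_continuousOn (ls.continuous.comp hrel).continuousOn
      obtain ⟨M₂, h₂⟩ := (hE.bound_ttc hG M).2 M'
      obtain ⟨K, hK, hK'⟩ := h4 R M₂
      refine ⟨K, hK, fun z hz hs n => hK' _ (hs n) ?_⟩
      refine h₂ (fun n => rel (G ^ n • z)) (fun n => ?_) (bdd_ttc hrel (ws_bdd hG hp hz.1))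
        (by rw [pow_zero, one_smul]; exact hM' z hz.2) n
      rw [pow_succ', mul_smul]
      exact hM _ (hs n)
  · obtain ⟨M', hM'⟩ := h.ws_lu_ttc hE hG' hp' R
    obtain ⟨M, hM⟩ := h.affine G R
    obtain ⟨M₂, h₂⟩ := hE.back_ttc hG M M'
    refine ⟨_, h.sf.compact R (isCompact_closedBall 0 M₂) (subset_univ _),
      fun z hz z' hz' hs hs' he n => ⟨mem_nearP_bot.1 (hs n), mem_closedBall_zero_iff.2 ?_⟩⟩
    refine h₂ (fun n => (j (S.e (G⁻¹ ^ n • z))).2) (fun n => ?_)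
      (bdd_ttc (TT.cont_ttc S j) (wu_bdd hG hp hz)) ?_ n
    · rw [← hback G z n]
      exact hM _ (mem_nearP_bot.1 (hs _))
    · rw [pow_zero, one_smul, ← h.snd_set z (pr z'), he]
      exact hM' z' hz' hs'
  · obtain ⟨M, hM⟩ := h.ws_lu_ttc hE hG hp R
    obtain ⟨y, -, hy⟩ := h.sf.exists_pt KD.o (mem_univ ((M + 1) • eu))
    refine ⟨y, fun z' hz' hs he => ?_⟩
    have := hM z' hz' hs
    rw [← he, h.snd_set, hy, map_smul, hE.lu_eu, smul_eq_mul, mul_one] at this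
    linarith [le_abs_self (M + 1)]

theorem TT.half_ttc (h : S.TT Φ pj pr set j tr B τ) (hτ : 2 < τ) :
    S.Half Φ pj pr set (fun _ => True) ⟨0, 1, Fin.elim0, Fin.elim0, Fin.elim0⟩ :=
  ⟨h.univ, by
    rw [h.sf.range_eq]
    exact ((convex_ball 0 1).prod convex_univ).linear_preimage (j : E →ₗ[ℝ] ℂ × ℂ),
    h.hf, h.sf.iness h.hf, h.fac hτ⟩

theorem TT.false (h : S.TT Φ pj pr set j tr B τ) : False := by
  rcases le_or_gt τ 2 with hτ | hτ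
  · exact h.parabolic hτ
  · refine main_plane (h.half_ttc hτ) (h.inv.half_ttc hτ) (fun _ _ => trivial)
      (fun _ i => i.elim0) (fun _ i => i.elim0) ?_
    rw [j.toLinearEquiv.finrank_eq, Module.finrank_prod, Complex.finrank_real_complex]
    norm_num

end Setting

end Pool.Agent.P.MP_788ef7_an
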