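import Pool.Agent.P.MP_788ef7_an.Mk
import Pool.Agent.P.MP_788ef7_an.TTc
import Pool.Agent.P.MP_788ef7_an.Cover

set_option autoImplicit false

open Set Filter Topology Metric

namespace Pool.Agent.P.MP_788ef7_an

variable {M : Type*} {f : Equiv.Perm M} {N u s : ℕ} {lam : ℝ} {Γ₁ : Subgroup (KD ≃ᵢ KD)}

theorem false_t {F : Equiv.Perm (KD × ℂ)} {Γ₂ : Subgroup (ℂ ≃ᵢ ℂ)} (h₁ : Lat Γ₁ univ)
    (h₂ : Lat Γ₂ univ) (o₁ : ∀ γ ∈ Γ₁, IsOP γ) (o₂ : ∀ γ ∈ Γ₂, ∀ y, γ y = y + γ 0)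
    (hF : Continuous F) (hF' : Continuous (F⁻¹ : Equiv.Perm (KD × ℂ))) (n : Nrm F Γ₁ Γ₂)
    (n' : Nrm F⁻¹ Γ₁ Γ₂) (n₂ : Nrm₂ F Γ₂) (n₂' : Nrm₂ F⁻¹ Γ₂) {B : ℂ ≃L[ℝ] ℂ} {τ : ℤ}
    (hB : ∀ γ ∈ Γ₂, ∀ x y, F (x, γ y) = ((F (x, y)).1, (F (x, y)).2 + B (γ 0)))
    (ht : ∀ y, B y + B.symm y = (τ : ℝ) • y) (hd : (B : ℂ →L[ℝ] ℂ).det = 1) (hτ : -2 ≤ τ)
    {q : ℂ × ℂ → M} {Q : KD × ℂ → ℂ × ℂ →L[ℝ] ℂ × ℂ} (hh : HypD (Prod.map KD.val id)
      (Cov (Prod.map KD.val id) q (fun _ => (0 : Fin 0 → ℝ)) f N) Q u s lam)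
    (c₁ : ∀ z, q (Prod.map KD.val id (F z)) = (f ^ N) (q (Prod.map KD.val id z)))
    (c₂ : ∀ γ₁ ∈ Γ₁, ∀ γ₂ ∈ Γ₂, ∀ x y, q ((γ₁ x).val, γ₂ y) = q (x.val, y)) : False := by
  obtain ⟨𝔾, _, _, hgt, t, l₁, l₂, hp⟩ := mk_pres n n'
  have hr : Raw F Γ₁ Γ₂ (id : ℂ → ℂ) (fun δ y => y + δ 0) (fun y y' => y' - y) (fun _ => 0) id :=
    { lat₁ := h₁
      op₁ := o₁
      lat₂ := by simpa using h₂
      nrm₂ := n₂
      nrm₂' := n₂'
      cont := hF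
      cont' := hF'
      emb := IsOpenEmbedding.id
      star := by
        rw [range_id]
        exact twoStar_of_convex (isOpen_ball.prod isOpen_univ) ((convex_ball 0 1).prod convex_univ)
          ⟨(0, 0), mem_ball_self one_pos, mem_univ _⟩
      act := o₂
      c2 := fun γ _ => (contDiff_id.add contDiff_const).contDiffOn
      c1 := (contDiff_snd.sub contDiff_fst).contDiffOn
      zero := fun y _ y' _ => by rw [sub_eq_zero, eq_comm]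
      eqv := fun γ _ y _ y' _ => by
        rw [fderiv_add_const, fderiv_fun_id, ContinuousLinearMap.id_apply]
        ring
      diag := fun y _ => (hasFDerivAt_snd (𝕜 := ℝ)).sub hasFDerivAt_fst
      η_lip := fun y y' => by simp
      η_inv := fun _ _ _ => rfl
      η_F := fun _ => by simp
      η_ρ := fun _ => rfl
      dist_ρ := fun _ => by simp
      fst_ρ := fun _ _ _ => rfl
      nonempty := ⟨0⟩ }
  have hc := hp.cov hF hF' (e := Prod.map KD.val id) (q := q) (τ := fun _ => (0 : Fin 0 → ℝ))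
    (f := f) (N := N) c₁ (fun _ => by simp) (fun γ₁ m₁ γ₂ m₂ x y => ⟨c₂ γ₁ m₁ γ₂ m₂ x y, rfl⟩)
  obtain ⟨S, e1, e2, e3, e4, -⟩ := mk_setting hp hr hh hc
  obtain ⟨𝔊, _, _, Φ, pj, hf, hk⟩ := mk_hf hp hr e1 e4
  have sf := mk_sf hp hr e1 e3
  rw [range_id] at sf
  refine Setting.TT.false (S := S) (Φ := Φ) (pj := pj) (pr := Prod.fst)
    (set := fun z x => (x, z.2)) (j := ContinuousLinearEquiv.refl ℝ _) (tr := fun γ => l₂ γ 0)
    (B := B) (τ := τ)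
    { univ := by rw [e4]; simp
      hf := hf
      sf := sf
      snd_set := fun z x => by rw [e3]; rfl
      lip := fun z z' => by
        rw [e3, Prod.dist_eq, ← dist_eq_norm]
        exact le_max_right _ _
      dist_le := fun z z' h => by
        rw [e3, Prod.dist_eq, ← dist_eq_norm, h, dist_self]
        exact max_le dist_nonneg le_rfl
      split := fun γ h => ?_
      cocpt := ?_
      conj := fun ν h => ?_
      trace := ht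
      det := hd
      le := hτ }
  · rw [e1] at h
    obtain ⟨ν, a1, a2, a3⟩ := hp.surj 1 (one_mem _) _ (hp.mem₂ γ h)
    exact ⟨ν, (hk ν).2 ⟨a1, a2⟩, by rw [a3]⟩
  · obtain ⟨x₀, R, hR⟩ := h₂.cocpt
    refine ⟨R + ‖x₀‖, fun y => ?_⟩
    obtain ⟨γ, m, hγ⟩ := hR (-y) (mem_univ _)
    obtain ⟨ν, a1, a2, a3⟩ := hp.surj 1 (one_mem _) γ m
    refine ⟨ν, (hk ν).2 ⟨a1, a2⟩, ?_⟩
    rw [o₂ γ m, dist_eq_norm] at hγ
    have e : y - l₂ ν 0 = -(-y + γ 0 - x₀) - x₀ := by rw [a3]; ring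
    change ‖y - l₂ ν 0‖ ≤ _
    rw [e]
    refine (norm_sub_le _ _).trans ?_
    rw [norm_neg]
    gcongr
  · obtain ⟨a1, a2⟩ := (hk ν).1 h
    have h0 : hgt (S.t * ν * S.t⁻¹) = 0 := by
      have := S.ht_inv S.t
      rw [hp.ht_mul, hp.ht_mul, a1, ← e1, this]
      ring
    have b1 := hp.smul _ h0 KD.o 0
    have b2 : F (S.t⁻¹ • ((KD.o, 0) : KD × ℂ)) = (KD.o, 0) := by
      rw [← hp.t_smul, e2, smul_inv_smul]
    rw [mul_smul, mul_smul] at b1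
    generalize S.t⁻¹ • ((KD.o, 0) : KD × ℂ) = z at b1 b2
    obtain ⟨x, y⟩ := z
    rw [hp.smul ν a1, a2, e2, hp.t_smul] at b1
    have b3 := hB _ (hp.mem₂ ν a1) x y
    rw [b2] at b3
    have b4 := congrArg Prod.snd (b1.symm.trans b3)
    rw [e2]
    simpa using b4

end Pool.Agent.P.MP_788ef7_an
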