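import Pool.Agent.P.MP_788ef7_an.FDefs
import Pool.Agent.P.MP_788ef7_an.Arc

set_option autoImplicit false

open Set Filter Topology Metric

namespace Pool.Agent.P.MP_788ef7_an

variable {G : Type*} [Group G] [MulAction G Circle] {g h : G} {a b c d p q r ξ : Circle}

theorem op_one : OP (1 : G) := fun a b c h => by simpa only [one_smul] using h

theorem OP.mul (hg : OP g) (hh : OP h) : OP (g * h) := fun a b c habc => by
  simp only [mul_smul]
  exact hg _ _ _ (hh _ _ _ habc)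

theorem OP.inv (hg : OP g) : OP g⁻¹ := fun a b c habc => by
  have hab : g⁻¹ • a ≠ g⁻¹ • b := fun e => habc.ne₁₂ (MulAction.injective _ e)
  have hbc : g⁻¹ • b ≠ g⁻¹ • c := fun e => habc.ne₂₃ (MulAction.injective _ e)
  have hac : g⁻¹ • a ≠ g⁻¹ • c := fun e => habc.ne₁₃ (MulAction.injective _ e)
  rcases cyc_total hab hbc hac with h | h
  · exact h
  · have := hg _ _ _ h
    simp only [smul_inv_smul] at this
    exact absurd this habc.asymm

theorem OP.pow (hg : OP g) (n : ℕ) : OP (g ^ n) := by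
  induction n with
  | zero => rw [pow_zero]; exact op_one
  | succ n ih => rw [pow_succ]; exact ih.mul hg

theorem OP.zpow (hg : OP g) (n : ℤ) : OP (g ^ n) := by
  rcases n with n | n
  · rw [Int.ofNat_eq_natCast, zpow_natCast]; exact hg.pow n
  · rw [zpow_negSucc]; exact (hg.pow _).inv

theorem OP.cyc_iff (hg : OP g) : Cyc (g • a) (g • b) (g • c) ↔ Cyc a b c := by
  refine ⟨fun h => ?_, hg _ _ _⟩
  have := hg.inv _ _ _ h
  simpa only [inv_smul_smul] using this

theorem OP.mem_arc (hg : OP g) : g • ξ ∈ arc (g • p) (g • q) ↔ ξ ∈ arc p q := hg.cyc_iff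

theorem zpow_fix_cd1 (hp : g • p = p) (n : ℤ) : g ^ n • p = p :=
  MulAction.mem_stabilizer_iff.1 (Subgroup.zpow_mem _ (MulAction.mem_stabilizer_iff.2 hp) n)

theorem OP.stay (hg : OP g) (hp : g • p = p) (hq : g • q = q) (hξ : ξ ∈ arc p q) (n : ℤ) :
    g ^ n • ξ ∈ arc p q := by
  have := (hg.zpow n).mem_arc.2 hξ
  rwa [zpow_fix_cd1 hp, zpow_fix_cd1 hq] at this

theorem op_or_cd1 (hc : ∀ g : G, Continuous fun ξ : Circle => g • ξ) (g : G) :
    OP g ∨ ∀ a b c : Circle, Cyc a b c → Cyc (g • c) (g • b) (g • a) :=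
  cyc_map_or (hc g) (MulAction.injective g)

theorem op_sq (hc : ∀ g : G, Continuous fun ξ : Circle => g • ξ) (g : G) : OP (g ^ 2) := by
  rcases op_or_cd1 hc g with h | h
  · exact h.pow 2
  · intro a b c habc
    simp only [pow_two, mul_smul]
    exact h _ _ _ (h _ _ _ habc)

theorem rev_inv_cd1 {u : G} (h : ∀ a b c : Circle, Cyc a b c → Cyc (u • c) (u • b) (u • a))
    (a b c : Circle) (habc : Cyc a b c) : Cyc (u⁻¹ • c) (u⁻¹ • b) (u⁻¹ • a) := by
  have hab : u⁻¹ • a ≠ u⁻¹ • b := fun e => habc.ne₁₂ (MulAction.injective _ e)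
  have hbc : u⁻¹ • b ≠ u⁻¹ • c := fun e => habc.ne₂₃ (MulAction.injective _ e)
  have hac : u⁻¹ • a ≠ u⁻¹ • c := fun e => habc.ne₁₃ (MulAction.injective _ e)
  rcases cyc_total hab hbc hac with h' | h'
  · have := h _ _ _ h'
    simp only [smul_inv_smul] at this
    exact absurd this habc.asymm
  · exact h'

theorem OP.conj (hc : ∀ g : G, Continuous fun ξ : Circle => g • ξ) (hg : OP g) (u : G) :
    OP (u * g * u⁻¹) := by
  rcases op_or_cd1 hc u with h | h
  · exact (h.mul hg).mul h.inv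
  · intro a b c habc
    simp only [mul_smul]
    exact h _ _ _ (hg _ _ _ (rev_inv_cd1 h _ _ _ habc))

theorem linked_iff_cd1 : Linked a b c d ↔ (Cyc a c b ∧ Cyc b d a) ∨ (Cyc a d b ∧ Cyc b c a) :=
  linked_iff

theorem Linked.smul_cd1 (hc : ∀ g : G, Continuous fun ξ : Circle => g • ξ) (g : G)
    (h : Linked a b c d) : Linked (g • a) (g • b) (g • c) (g • d) := by
  rw [linked_iff_cd1] at h ⊢
  rcases op_or_cd1 hc g with hg | hg
  · rcases h with ⟨h1, h2⟩ | ⟨h1, h2⟩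
    · exact Or.inl ⟨hg _ _ _ h1, hg _ _ _ h2⟩
    · exact Or.inr ⟨hg _ _ _ h1, hg _ _ _ h2⟩
  · rcases h with ⟨h1, h2⟩ | ⟨h1, h2⟩
    · exact Or.inr ⟨hg _ _ _ h2, hg _ _ _ h1⟩
    · exact Or.inl ⟨hg _ _ _ h2, hg _ _ _ h1⟩

theorem linked_smul (hc : ∀ g : G, Continuous fun ξ : Circle => g • ξ) (g : G) :
    Linked (g • a) (g • b) (g • c) (g • d) ↔ Linked a b c d := by
  refine ⟨fun h => ?_, fun h => h.smul_cd1 hc g⟩
  have := h.smul_cd1 hc g⁻¹
  simpa only [inv_smul_smul] using this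

theorem fix_inv (g : G) : Fix g⁻¹ = Fix g := by
  ext ξ
  simp only [Fix, mem_ofPred_eq, inv_smul_eq_iff]
  exact eq_comm

theorem mem_fix_conj (u : G) : u • ξ ∈ Fix (u * g * u⁻¹) ↔ ξ ∈ Fix g := by
  simp only [Fix, mem_ofPred_eq, mul_smul, inv_smul_smul]
  exact (MulAction.injective u).eq_iff

theorem isClosed_fix (hc : ∀ g : G, Continuous fun ξ : Circle => g • ξ) (g : G) :
    IsClosed (Fix g) := isClosed_eq (hc g) continuous_id

theorem tendsto_mem_fix (hc : ∀ g : G, Continuous fun ξ : Circle => g • ξ)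
    (h : Tendsto (fun n : ℕ => g ^ n • ξ) atTop (𝓝 a)) : a ∈ Fix g := by
  have h1 : Tendsto (fun n : ℕ => g • g ^ n • ξ) atTop (𝓝 (g • a)) :=
    ((hc g).tendsto a).comp h
  have h2 : Tendsto (fun n : ℕ => g ^ (n + 1) • ξ) atTop (𝓝 a) :=
    h.comp (tendsto_add_atTop_nat 1)
  simp only [pow_succ', mul_smul] at h2
  exact tendsto_nhds_unique h1 h2

end Pool.Agent.P.MP_788ef7_an
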