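import Pool.Agent.P.MP_788ef7_an.CD1

set_option autoImplicit false

open Set Filter Topology Metric

namespace Pool.Agent.P.MP_788ef7_an

variable {G : Type*} [Group G] [MulAction G Circle] {g h : G} {a b c d p q r ξ : Circle}

theorem pow_fix_cdyn (h : g • a = a) (n : ℕ) : g ^ n • a = a := by
  induction n with
  | zero => simp
  | succ n ih => rw [pow_succ, mul_smul, h, ih]

theorem orbit_cdyn (hg : OP g) (ha : g • a = a) (hξ : ξ ≠ a) :
    ∃ (x : ℕ → ℝ) (s' : ℝ → Circle), Continuous s' ∧ Tendsto s' atTop (𝓝 a) ∧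
      Tendsto s' atBot (𝓝 a) ∧ (∀ n, s' (x n) = g ^ n • ξ) ∧
      (StrictMono x ∨ StrictAnti x ∨ g • ξ = ξ) := by
  obtain ⟨s, s', hc, -, -, h2, -, h4, -, h6, h7⟩ := exists_chart a
  have hne : ∀ n : ℕ, g ^ n • ξ ≠ a := fun n h0 =>
    hξ (smul_left_cancel (g ^ n) (h0.trans (pow_fix_cdyn ha n).symm))
  have he : ∀ n : ℕ, s' (s (g ^ n • ξ)) = g ^ n • ξ := fun n => h2 _ (hne n)
  have hs : ∀ n m : ℕ, s (g ^ n • ξ) < s (g ^ m • ξ) →
      s (g ^ (n + 1) • ξ) < s (g ^ (m + 1) • ξ) := by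
    intro n m h
    have := hg _ _ _ ((h4 _ _).2 h)
    rw [ha, he, he, ← mul_smul, ← mul_smul, ← pow_succ', ← pow_succ', ← he (n + 1),
      ← he (m + 1)] at this
    exact (h4 _ _).1 this
  refine ⟨fun n => s (g ^ n • ξ), s', hc, h6, h7, he, ?_⟩
  rcases lt_trichotomy (s (g ^ 0 • ξ)) (s (g ^ 1 • ξ)) with h | h | h
  · refine Or.inl (strictMono_nat_of_lt_succ fun n => ?_)
    induction n with
    | zero => exact h
    | succ n ih => exact hs _ _ ih
  · refine Or.inr (Or.inr ?_)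
    have := congrArg s' h
    rw [he, he] at this
    simpa using this.symm
  · refine Or.inr (Or.inl (strictAnti_nat_of_succ_lt fun n => ?_))
    induction n with
    | zero => exact h
    | succ n ih => exact hs _ _ ih

theorem stay_cdyn {W : Set Circle} (h : ∀ η ∈ W, g • η ∈ W) (hξ : ξ ∈ W) (n : ℕ) :
    g ^ n • ξ ∈ W := by
  induction n with
  | zero => simpa using hξ
  | succ n ih => rw [pow_succ', mul_smul]; exact h _ ih

theorem Stable.conv (hc : ∀ g : G, Continuous fun ξ : Circle => g • ξ) (hg : Stable g)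
    (ξ : Circle) : ∃ a ∈ Fix g, Tendsto (fun n : ℕ => g ^ n • ξ) atTop (𝓝 a) := by
  obtain ⟨ho, a, ha⟩ := hg
  suffices H : ∃ b, Tendsto (fun n : ℕ => g ^ n • ξ) atTop (𝓝 b) from
    let ⟨b, hb⟩ := H; ⟨b, tendsto_mem_fix hc hb, hb⟩
  by_cases hξ : ξ = a
  · exact ⟨a, by simp only [hξ, pow_fix_cdyn ha]; exact tendsto_const_nhds⟩
  obtain ⟨x, s', h1, h2, h3, h4, h5 | h5 | h5⟩ := orbit_cdyn ho ha hξ
  · rcases tendsto_atTop_of_monotone h5.monotone with h | ⟨l, h⟩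
    · exact ⟨a, (h2.comp h).congr h4⟩
    · exact ⟨s' l, ((h1.tendsto l).comp h).congr h4⟩
  · rcases tendsto_atTop_of_antitone h5.antitone with h | ⟨l, h⟩
    · exact ⟨a, (h3.comp h).congr h4⟩
    · exact ⟨s' l, ((h1.tendsto l).comp h).congr h4⟩
  · exact ⟨ξ, by simp only [pow_fix_cdyn h5]; exact tendsto_const_nhds⟩

theorem Stable.fix_pow (hg : Stable g) {n : ℕ} (hn : 1 ≤ n) : Fix (g ^ n) = Fix g := by
  obtain ⟨ho, a, ha⟩ := hg
  refine Subset.antisymm (fun ξ h => ?_) fun ξ h => pow_fix_cdyn h n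
  by_cases hξ : ξ = a
  · exact hξ ▸ ha
  obtain ⟨s, s', -, -, h1, h2, -, h4, -⟩ := exists_chart a
  have hm : ∀ η, η ≠ a → ∀ ζ, ζ ≠ a → (Cyc a η ζ ↔ s η < s ζ) := fun η hη ζ hζ => by
    rw [← h4, h2 η hη, h2 ζ hζ]
  have hne : ∀ n : ℕ, g ^ n • ξ ≠ a := fun n h0 =>
    hξ (smul_left_cancel (g ^ n) (h0.trans (pow_fix_cdyn ha n).symm))
  have hs : ∀ n m : ℕ, s (g ^ n • ξ) < s (g ^ m • ξ) →
      s (g ^ (n + 1) • ξ) < s (g ^ (m + 1) • ξ) := by
    intro n m h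
    have := ho _ _ _ ((hm _ (hne n) _ (hne m)).2 h)
    rw [ha, ← mul_smul, ← mul_smul, ← pow_succ', ← pow_succ'] at this
    exact (hm _ (hne _) _ (hne _)).1 this
  have h0 : s (g ^ n • ξ) = s (g ^ 0 • ξ) := by rw [show g ^ n • ξ = ξ from h]; simp
  rcases lt_trichotomy (s (g ^ 0 • ξ)) (s (g ^ 1 • ξ)) with h | h | h
  · have : StrictMono fun n : ℕ => s (g ^ n • ξ) := strictMono_nat_of_lt_succ fun n => by
      induction n with
      | zero => exact h
      | succ n ih => exact hs _ _ ih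
    exact absurd h0 (this hn).ne'
  · have := congrArg s' h
    rw [h2 _ (hne 0), h2 _ (hne 1)] at this
    show g • ξ = ξ
    simpa using this.symm
  · have : StrictAnti fun n : ℕ => s (g ^ n • ξ) := strictAnti_nat_of_succ_lt fun n => by
      induction n with
      | zero => exact h
      | succ n ih => exact hs _ _ ih
    exact absurd h0 (this hn).ne

theorem Stable.fix_zpow (hg : Stable g) {n : ℤ} (hn : n ≠ 0) : Fix (g ^ n) = Fix g := by
  obtain ⟨m, rfl | rfl⟩ := n.eq_nat_or_neg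
  · rw [zpow_natCast]
    exact hg.fix_pow (by omega)
  · rw [zpow_neg, zpow_natCast, fix_inv]
    exact hg.fix_pow (by omega)

theorem Stable.pow (hg : Stable g) (n : ℕ) : Stable (g ^ n) :=
  ⟨hg.1.pow n, let ⟨a, ha⟩ := hg.2; ⟨a, pow_fix_cdyn ha n⟩⟩

theorem Stable.inv (hg : Stable g) : Stable g⁻¹ :=
  ⟨hg.1.inv, by rw [fix_inv]; exact hg.2⟩

theorem Stable.conj (hc : ∀ g : G, Continuous fun ξ : Circle => g • ξ) (hg : Stable g) (u : G) :
    Stable (u * g * u⁻¹) :=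
  ⟨hg.1.conj hc u, let ⟨a, ha⟩ := hg.2; ⟨u • a, (mem_fix_conj u).2 ha⟩⟩

theorem Ess.of_fix_eq (hg : Ess g) (e : Fix h = Fix g) : Ess h := by
  unfold Ess at hg ⊢
  rw [e]
  exact hg

theorem Ess.pow (hg : Ess g) (n : ℕ) : Ess (g ^ n) := by
  obtain ⟨a, ha, b, hb, c, hc, h⟩ := hg
  exact ⟨a, pow_fix_cdyn ha n, b, pow_fix_cdyn hb n, c, pow_fix_cdyn hc n, h⟩

theorem Ess.inv (hg : Ess g) : Ess g⁻¹ :=
  hg.of_fix_eq (fix_inv g)

theorem Ess.conj (hg : Ess g) (u : G) : Ess (u * g * u⁻¹) := by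
  obtain ⟨a, ha, b, hb, c, hc, h1, h2, h3⟩ := hg
  exact ⟨u • a, (mem_fix_conj u).2 ha, u • b, (mem_fix_conj u).2 hb, u • c,
    (mem_fix_conj u).2 hc, fun h => h1 (smul_left_cancel u h), fun h => h2 (smul_left_cancel u h),
    fun h => h3 (smul_left_cancel u h)⟩

theorem TAttr.fix (h : TAttr g a) : g • a = a := by
  by_contra h0
  obtain ⟨W, hW, h1, h2⟩ := h {g • a}ᶜ (compl_singleton_mem_nhds (Ne.symm h0))
  exact h1 (h2 a (mem_of_mem_nhds hW)).1 rfl

theorem TAttr.pow (h : TAttr g a) {n : ℕ} (hn : 1 ≤ n) : TAttr (g ^ n) a := by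
  intro V hV
  obtain ⟨W, hW, h1, h2⟩ := h V hV
  refine ⟨W, hW, h1, fun η hη => ⟨stay_cdyn (fun η hη => (h2 η hη).1) hη n, ?_⟩⟩
  have ht : Tendsto (fun m : ℕ => n * m) atTop atTop :=
    tendsto_atTop_mono (fun m => Nat.le_mul_of_pos_left m hn) tendsto_id
  exact ((h2 η hη).2.comp ht).congr fun m => by simp [pow_mul]

theorem TAttr.conj (hc : ∀ g : G, Continuous fun ξ : Circle => g • ξ) (h : TAttr g a) (u : G) :
    TAttr (u * g * u⁻¹) (u • a) := by
  intro V hV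
  obtain ⟨W, hW, h1, h2⟩ := h ((fun ξ => u • ξ) ⁻¹' V) ((hc u).continuousAt.preimage_mem_nhds hV)
  refine ⟨(fun ξ => u⁻¹ • ξ) ⁻¹' W, (hc u⁻¹).continuousAt.preimage_mem_nhds (by simpa using hW),
    fun η hη => by simpa using h1 hη, fun η hη => ⟨?_, ?_⟩⟩
  · simpa [mul_smul] using (h2 _ hη).1
  · exact (((hc u).tendsto a).comp (h2 _ hη).2).congr fun n => by simp [conj_pow, mul_smul]

theorem TAttr.not_limit (h : TAttr g⁻¹ r) (hξ : ξ ≠ r) :
    ¬ Tendsto (fun n : ℕ => g ^ n • ξ) atTop (𝓝 r) := by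
  intro ht
  obtain ⟨W, hW, h1, h2⟩ := h {ξ}ᶜ (compl_singleton_mem_nhds hξ.symm)
  obtain ⟨n, hn⟩ := (ht.eventually hW).exists
  have := h1 (stay_cdyn (fun η hη => (h2 η hη).1) hn n)
  simp at this

theorem TAttr.not_inv (h : TAttr g a) : ¬ TAttr g⁻¹ a := by
  intro h'
  obtain ⟨W, hW, -, h2⟩ := h univ univ_mem
  obtain ⟨s, s', -, -, -, -, h3, -, -, h6, -⟩ := exists_chart a
  obtain ⟨x, hx⟩ := (h6.eventually hW).exists
  exact h'.not_limit (h3 x) (h2 _ hx).2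

theorem TAttr.isolated (h : TAttr g a) : ∀ᶠ η in 𝓝 a, η ∈ Fix g → η = a := by
  obtain ⟨W, hW, -, h2⟩ := h univ univ_mem
  filter_upwards [hW] with η hη hf
  have := (h2 η hη).2
  simp only [pow_fix_cdyn hf] at this
  exact tendsto_nhds_unique tendsto_const_nhds this

theorem TAttr.isOpen_basin (hc : ∀ g : G, Continuous fun ξ : Circle => g • ξ) (h : TAttr g a) :
    IsOpen {η : Circle | Tendsto (fun n : ℕ => g ^ n • η) atTop (𝓝 a)} := by
  obtain ⟨W, hW, -, h2⟩ := h univ univ_mem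
  refine isOpen_iff_mem_nhds.2 fun η hη => ?_
  obtain ⟨n, hn⟩ := (Tendsto.eventually hη (interior_mem_nhds.2 hW)).exists
  filter_upwards [(hc (g ^ n)).continuousAt.preimage_mem_nhds (isOpen_interior.mem_nhds hn)]
    with ζ hζ
  refine (tendsto_add_atTop_iff_nat n).1 ?_
  exact (h2 _ (interior_subset hζ)).2.congr fun m => by rw [pow_add, mul_smul]

/-- Between two attracting fixed points there is a fixed point that is not attracting. -/
theorem Stable.alt (hc : ∀ g : G, Continuous fun ξ : Circle => g • ξ) (hg : Stable g)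
    (ha : TAttr g a) (hb : TAttr g b) (hab : a ≠ b) :
    ∃ ξ ∈ arc a b, ξ ∈ Fix g ∧ ¬ TAttr g ξ := by
  by_contra hno
  push Not at hno
  have hst : ∀ ξ ∈ closure (arc a b), ∀ n : ℕ, g ^ n • ξ ∈ closure (arc a b) := by
    intro ξ hξ n
    rw [closure_arc hab] at hξ ⊢
    rcases hξ with rfl | rfl | hξ
    · exact Or.inl (pow_fix_cdyn ha.fix n)
    · exact Or.inr (Or.inl (pow_fix_cdyn hb.fix n))
    · exact Or.inr (Or.inr (by simpa using hg.1.stay ha.fix hb.fix hξ n))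
  have hat : ∀ ξ ∈ closure (arc a b), ξ ∈ Fix g → TAttr g ξ := by
    intro ξ hξ hf
    rw [closure_arc hab] at hξ
    rcases hξ with rfl | rfl | hξ
    · exact ha
    · exact hb
    · exact hno ξ hξ hf
  obtain ⟨η, -, h1, h2⟩ := (isPreconnected_arc a b).closure
    {η : Circle | Tendsto (fun n : ℕ => g ^ n • η) atTop (𝓝 a)}
    (⋃ ξ ∈ {ξ | ξ ≠ a ∧ TAttr g ξ}, {η : Circle | Tendsto (fun n : ℕ => g ^ n • η) atTop (𝓝 ξ)})
    (ha.isOpen_basin hc) (isOpen_biUnion fun ξ hξ => hξ.2.isOpen_basin hc)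
    (fun η hη => by
      obtain ⟨ξ, hf, ht⟩ := hg.conv hc η
      by_cases h0 : ξ = a
      · exact Or.inl (h0 ▸ ht)
      · exact Or.inr (mem_biUnion (show ξ ∈ {ξ | ξ ≠ a ∧ TAttr g ξ} from ⟨h0, hat ξ
          (isClosed_closure.mem_of_tendsto ht (Eventually.of_forall (hst η hη))) hf⟩) ht))
    ⟨a, by rw [closure_arc hab]; exact Or.inl rfl, by
      simp only [mem_ofPred_eq, pow_fix_cdyn ha.fix]; exact tendsto_const_nhds⟩
    ⟨b, by rw [closure_arc hab]; exact Or.inr (Or.inl rfl),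
      mem_biUnion (show b ∈ {ξ | ξ ≠ a ∧ TAttr g ξ} from ⟨hab.symm, hb⟩) (by
        simp only [mem_ofPred_eq, pow_fix_cdyn hb.fix]; exact tendsto_const_nhds)⟩
  obtain ⟨ξ, hξ, ht⟩ := mem_iUnion₂.1 h2
  exact hξ.1 (tendsto_nhds_unique ht h1)

end Pool.Agent.P.MP_788ef7_an
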