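import Pool.Agent.P.MP_788ef7_an.KB2

set_option autoImplicit false

open Set Filter Topology Metric

namespace Pool.Agent.P.MP_788ef7_an

theorem vis_zero (a b : ℂ) : vis 0 a b = rho a b := by simp [vis, rho_zero_left]

theorem vis_le_two {x a b : ℂ} (hx : ‖x‖ < 1) (ha : ‖a‖ ≤ 1) (hb : ‖b‖ ≤ 1) : vis x a b ≤ 2 := by
  rw [vis, div_le_iff₀ (mul_pos (rho_pos hx ha) (rho_pos hx hb)), ← mul_assoc, rho_comm x a]
  exact rho_trib ha hx.le hb

theorem vis_chord {a b : Circle} {x : ℂ} (hx : ‖x‖ < 1) (h : x ∈ segment ℝ (a : ℂ) b) :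
    vis x a b = 2 := by
  rw [vis, div_eq_iff (mul_pos (rho_pos hx a.norm_coe.le) (rho_pos hx b.norm_coe.le)).ne']
  rw [segment_eq_image] at h
  obtain ⟨s, -, e⟩ := h
  have h1 : rho x a = s * rho a b := by
    rw [← e, rho_affine, rho_circle_self, rho_comm b]; ring
  have h2 : rho x b = (1 - s) * rho a b := by
    rw [← e, rho_affine, rho_circle_self]; ring
  have h3 : rho x x = (1 - s) * rho x a + s * rho x b := by
    nth_rewrite 1 [← e]
    rw [rho_affine, rho_comm a, rho_comm b]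
  rw [h3, h1, h2]
  ring

theorem rho_le_of_vis {c : ℝ} (hc : 0 < c) : ∃ C > 0, ∀ y : ℂ, ‖y‖ < 1 → ∀ a b ξ : Circle,
    c ≤ vis y a b → rho y ξ ≤ C * (rho a ξ + rho b ξ) := by
  refine ⟨16 / c + 2, by positivity, fun y hy a b ξ h => ?_⟩
  have ha := rho_pos hy a.norm_coe.le
  have hb := rho_pos hy b.norm_coe.le
  rw [vis, le_div_iff₀ (mul_pos ha hb)] at h
  have h1 := rho_tri hy.le hy.le b
  have h2 := rho_tri a.norm_coe.le b.norm_coe.le ξ
  have h3 := rho_tri hy.le ξ.norm_coe.le a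
  have h4 := rho_nonneg a.norm_coe.le b.norm_coe.le
  have h5 := rho_nonneg b.norm_coe.le ξ.norm_coe.le
  have h6 : c * rho y a * rho y b ≤ 4 * rho a b * rho y b := by nlinarith
  have h7 : rho y a ≤ 8 / c * (rho a ξ + rho b ξ) := by
    rw [div_mul_eq_mul_div, le_div_iff₀ hc]
    linarith [le_of_mul_le_mul_right h6 hb]
  rw [rho_comm ξ a] at h3
  have e : (16 / c + 2) * (rho a ξ + rho b ξ) =
      2 * (8 / c * (rho a ξ + rho b ξ)) + 2 * rho a ξ + 2 * rho b ξ := by ring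
  linarith

theorem end_near {c ε : ℝ} (hc : 0 < c) (hε : 0 < ε) : ∃ r < 1, ∀ x : ℂ, r ≤ ‖x‖ → ‖x‖ < 1 →
    ∀ a b : Circle, c ≤ vis x a b → ‖(a : ℂ) - x‖ < ε ∨ ‖(b : ℂ) - x‖ < ε := by
  have h0 : 0 < c * (ε ^ 2 * ε ^ 2) := by positivity
  refine ⟨1 - c * (ε ^ 2 * ε ^ 2) / 32, by linarith, fun x hr hx a b h => ?_⟩
  by_contra hn
  rw [not_or, not_lt, not_lt] at hn
  have ha := rho_pos hx a.norm_coe.le
  have hb := rho_pos hx b.norm_coe.le
  rw [vis, le_div_iff₀ (mul_pos ha hb)] at h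
  have h1 := (pow_le_pow_left₀ hε.le hn.1 2).trans (norm_sub_sq_le a.norm_coe.le hx.le)
  have h2 := (pow_le_pow_left₀ hε.le hn.2 2).trans (norm_sub_sq_le b.norm_coe.le hx.le)
  rw [rho_comm] at h1 h2
  have h3 := mul_le_mul_of_nonneg_left (mul_le_mul h1 h2 (by positivity) (by positivity)) hc.le
  have h4 := mul_le_mul_of_nonneg_right (rho_le_two a.norm_coe.le b.norm_coe.le)
    (rho_self_pos hx).le
  have h5 : rho x x ≤ 2 * (1 - ‖x‖) := by rw [rho_self]; nlinarith [sq_nonneg (1 - ‖x‖)]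
  linarith

theorem cap_chord {x : ℂ} (hx : ‖x‖ < 1) (ξ : Circle) : ∃ a b : Circle,
    x ∈ segment ℝ (a : ℂ) b ∧ rho a ξ = rho x ξ ∧ rho b ξ = rho x ξ := by
  have h0 := rho_circle_self ξ
  have h1 := rho_self_pos hx
  simp only [rho] at h0 h1 ⊢
  generalize hu : (ξ : ℂ).re = u at h0 ⊢
  generalize hv : (ξ : ℂ).im = v at h0 ⊢
  set t := x.re * u + x.im * v with ht
  set w := x.im * u - x.re * v with hw
  have h2 : w ^ 2 < 1 - t ^ 2 := by
    have : t ^ 2 + w ^ 2 = x.re * x.re + x.im * x.im := by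
      rw [ht, hw]; linear_combination (-(x.re * x.re + x.im * x.im)) * h0
    linarith
  obtain ⟨h, hh, h3⟩ : ∃ h : ℝ, 0 < h ∧ h ^ 2 = 1 - t ^ 2 :=
    ⟨√(1 - t ^ 2), Real.sqrt_pos.2 (by nlinarith [sq_nonneg w]),
      Real.sq_sqrt (by nlinarith [sq_nonneg w])⟩
  have h4 := abs_lt_of_sq_lt_sq' (h3 ▸ h2) hh.le
  have key : ∀ k : ℝ, k ^ 2 = 1 - t ^ 2 →
      (⟨t * u - k * v, t * v + k * u⟩ : ℂ) ∈ Metric.sphere (0 : ℂ) 1 := fun k hk => by
    rw [mem_sphere_zero_iff_norm, ← sq_eq_sq₀ (norm_nonneg _) zero_le_one, Complex.sq_norm,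
      Complex.normSq_apply]
    linear_combination (u * u + v * v) * hk - h0
  refine ⟨⟨_, key h h3⟩, ⟨_, key (-h) (by rw [neg_sq, h3])⟩,
    ⟨(h + w) / (2 * h), (h - w) / (2 * h), div_nonneg (by linarith [h4.1]) (by positivity),
      div_nonneg (by linarith [h4.2]) (by positivity), by field_simp; ring, ?_⟩, ?_, ?_⟩
  · apply Complex.ext
    · rw [Complex.add_re, Complex.smul_re, Complex.smul_re]
      change (h + w) / (2 * h) * (t * u - h * v) + (h - w) / (2 * h) * (t * u - -h * v) = x.re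
      field_simp
      rw [ht, hw]
      linear_combination (-2 * h * x.re) * h0
    · rw [Complex.add_im, Complex.smul_im, Complex.smul_im]
      change (h + w) / (2 * h) * (t * v + h * u) + (h - w) / (2 * h) * (t * v + -h * u) = x.im
      field_simp
      rw [ht, hw]
      linear_combination (-2 * h * x.im) * h0
  · change 1 - ((t * u - h * v) * u + (t * v + h * u) * v) = 1 - t
    linear_combination t * h0
  · change 1 - ((t * u - -h * v) * u + (t * v + -h * u) * v) = 1 - t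
    linear_combination t * h0

theorem bus_segment (p : KD) (ζ : Circle) {β : ℝ} (hβ : 0 < β) : ∃ R, ∀ x : KD,
    x.val ∈ segment ℝ p.val ζ → β ≤ bus x.val ζ → dist x KD.o ≤ R := by
  obtain ⟨m, hm, hm1, hm2⟩ : ∃ m : ℝ, 0 < m ∧ m ≤ rho p.val p.val ∧ m ≤ rho ζ p.val :=
    ⟨_, lt_min p.rho_pos (rho_comm _ _ ▸ rho_pos p.lt ζ.norm_coe.le), min_le_left _ _,
      min_le_right _ _⟩
  obtain ⟨R, hR⟩ := dist_le_of_rho (4 / (β * m ^ 2))
  refine ⟨R, fun x hx h => hR x KD.o ?_⟩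
  have h0 := le_rho_of_segment hx hm1 hm2
  rw [segment_eq_image] at hx
  obtain ⟨s, hs, e⟩ := hx
  have h1 : rho x.val ζ = (1 - s) * rho p.val ζ := by
    rw [← e, rho_affine, rho_circle_self]; ring
  have h2 : rho x.val x.val = (1 - s) * rho x.val p.val + s * rho x.val ζ := by
    nth_rewrite 1 [← e]
    rw [rho_affine, rho_comm p.val, rho_comm ζ]
  have h3 := rho_pos x.lt ζ.norm_coe.le
  have h4 := rho_pos p.lt ζ.norm_coe.le
  have h5 := rho_le_two p.lt.le ζ.norm_coe.le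
  have h6 : 0 < 1 - s := (mul_pos_iff_of_pos_right h4).1 (h1 ▸ h3)
  have h7 : (1 - s) * m ≤ rho x.val x.val := by
    nlinarith [mul_le_mul_of_nonneg_left h0 h6.le, mul_nonneg hs.1 h3.le]
  rw [bus, le_div_iff₀ x.rho_pos, h1] at h
  have h8 : ((1 - s) * rho p.val ζ) ^ 2 ≤ ((1 - s) * 2) ^ 2 := by gcongr
  have h9 : β * m * (1 - s) ≤ 4 * (1 - s) * (1 - s) := by
    nlinarith [mul_le_mul_of_nonneg_left h7 hβ.le]
  have h10 := mul_le_mul_of_nonneg_right (le_of_mul_le_mul_right h9 h6) hm.le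
  change rho x.val 0 ^ 2 ≤ 4 / (β * m ^ 2) * (rho x.val x.val * rho 0 0)
  rw [rho_comm x.val 0, rho_zero_left, rho_zero_left, div_mul_eq_mul_div,
    le_div_iff₀ (by positivity)]
  nlinarith

theorem extreme {ζ : Circle} {p q : ℂ} (hp : ‖p‖ ≤ 1) (hq : ‖q‖ ≤ 1)
    (h : (ζ : ℂ) ∈ segment ℝ p q) : p = ζ ∨ q = ζ := by
  by_contra hn
  rw [not_or] at hn
  have h1 := le_rho_of_segment (ζ := ζ) h (min_le_left _ _) (min_le_right _ _)
  rw [rho_circle_self] at h1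
  exact (lt_min (rho_pos_of_ne hp hn.1) (rho_pos_of_ne hq hn.2)).not_ge h1

theorem mem_segment_of_tendsto {ι : Type*} {l : Filter ι} [l.NeBot] {x p q : ι → ℂ} {x' p' q' : ℂ}
    (h : ∀ i, x i ∈ segment ℝ (p i) (q i)) (hx : Tendsto x l (𝓝 x')) (hp : Tendsto p l (𝓝 p'))
    (hq : Tendsto q l (𝓝 q')) : x' ∈ segment ℝ p' q' := by
  rw [mem_segment_iff_wbtw, ← dist_add_dist_eq_iff]
  exact tendsto_nhds_unique
    (((hp.dist hx).add (hx.dist hq)).congr fun i => dist_add_dist_of_mem_segment (h i)) (hp.dist hq)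

end Pool.Agent.P.MP_788ef7_an
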