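import Pool.Agent.P.MP_788ef7_an.KL1
import Pool.Agent.P.MP_788ef7_an.KBasic

set_option autoImplicit false

open Set Filter Topology Metric

namespace Pool.Agent.P.MP_788ef7_an

variable {L L' : ℝ × ℂ →L[ℝ] ℝ × ℂ}

theorem IsLor.vec1_eqv (h : IsLor L) {x y : ℂ} (hx : ‖x‖ < 1) (hy : ‖y‖ ≤ 1) :
    vec1 (kact L x) (kact L y) = fderiv ℝ (kact L) x (vec1 x y) := by
  have hA : HasFDerivAt (fun z : ℂ => L (1, z)) (L.comp (ContinuousLinearMap.inr ℝ ℝ ℂ)) x :=
    L.hasFDerivAt.comp x (hasFDerivAt_prodMk_right (1 : ℝ) x)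
  have mx := h.kmu_pos hx.le
  have my := h.kmu_pos hy
  have hD : HasFDerivAt (kact L) _ x :=
    ((hasDerivAt_inv mx.ne').comp_hasFDerivAt x hA.fst).smul hA.snd
  have e : L (0, y - x) = kmu L y • ((1 : ℝ), kact L y) - kmu L x • ((1 : ℝ), kact L x) := by
    rw [← h.apply_eq hy, ← h.apply_eq hx.le, ← map_sub, Prod.mk_sub_mk, sub_self]
  have e2 : (L (1, x)).2 = kmu L x • kact L x := by rw [h.apply_eq hx.le]; rfl
  have e3 : fderiv ℝ (kact L) x (y - x) = (kmu L y / kmu L x) • (kact L y - kact L x) := by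
    rw [hD.fderiv]
    change (kmu L x)⁻¹ • (L (0, y - x)).2 +
      (-(kmu L x ^ 2)⁻¹ • (L (0, y - x)).1) • (L (1, x)).2 = _
    rw [e, e2]
    simp only [Prod.snd_sub, Prod.fst_sub, Prod.smul_fst, Prod.smul_snd, smul_eq_mul, mul_one]
    match_scalars
    · field_simp
    · field_simp
      ring
  have r1 := h.rho_kact hx.le hx.le
  have r2 := h.rho_kact hx.le hy
  have p2 := rho_pos (h.norm_kact_lt hx) (h.norm_kact_le hy)
  rw [vec1, vec1, map_smul, e3, smul_smul, ← r1, ← r2]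
  refine congrArg (· • (kact L y - kact L x)) ?_
  field_simp

theorem contDiff_rho_klor : ContDiff ℝ 1 fun p : ℂ × ℂ => rho p.1 p.2 :=
  contDiff_const.sub
    (((Complex.reCLM.contDiff.comp contDiff_fst).mul (Complex.reCLM.contDiff.comp contDiff_snd)).add
      ((Complex.imCLM.contDiff.comp contDiff_fst).mul (Complex.imCLM.contDiff.comp contDiff_snd)))

theorem contDiffAt_vec1_klor {p : ℂ × ℂ} (h : rho p.1 p.2 ≠ 0) :
    ContDiffAt ℝ 1 (fun p : ℂ × ℂ => rho p.1 p.1 / rho p.1 p.2) p :=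
  (contDiff_rho_klor.comp (contDiff_fst.prodMk contDiff_fst)).contDiffAt.div
    contDiff_rho_klor.contDiffAt h

theorem contDiffOn_vec1 : ContDiffOn ℝ 1 (fun p : ℂ × ℂ => vec1 p.1 p.2) (ball 0 1 ×ˢ ball 0 1) :=
  fun _ hp => ((contDiffAt_vec1_klor (rho_pos (mem_ball_zero_iff.1 hp.1)
    (mem_ball_zero_iff.1 hp.2).le).ne').smul (contDiffAt_snd.sub contDiffAt_fst)).contDiffWithinAt

theorem contDiffOn_vec1_left {q : ℂ} (hq : ‖q‖ ≤ 1) :
    ContDiffOn ℝ 1 (fun x => vec1 x q) (ball 0 1) := fun x hx =>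
  (((contDiffAt_vec1_klor (p := (x, q)) (rho_pos (mem_ball_zero_iff.1 hx) hq).ne').comp x
    (contDiffAt_id.prodMk contDiffAt_const)).smul
      (contDiffAt_const.sub contDiffAt_id)).contDiffWithinAt

theorem vec1_eq_zero {x y : ℂ} (hx : ‖x‖ < 1) (hy : ‖y‖ ≤ 1) : vec1 x y = 0 ↔ x = y := by
  rw [vec1, smul_eq_zero_iff_right (div_pos (rho_self_pos hx) (rho_pos hx hy)).ne', sub_eq_zero,
    eq_comm]

theorem vec1_diag {y : ℂ} (hy : ‖y‖ < 1) : HasFDerivAt (fun p : ℂ × ℂ => vec1 p.1 p.2)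
    (ContinuousLinearMap.snd ℝ ℂ ℂ - ContinuousLinearMap.fst ℝ ℂ ℂ) (y, y) := by
  have h0 := (rho_self_pos hy).ne'
  have h1 := ((contDiffAt_vec1_klor (p := (y, y)) h0).differentiableAt one_ne_zero).hasFDerivAt
  have h2 : HasFDerivAt (fun p : ℂ × ℂ => p.2 - p.1)
      (ContinuousLinearMap.snd ℝ ℂ ℂ - ContinuousLinearMap.fst ℝ ℂ ℂ) (y, y) :=
    hasFDerivAt_snd.sub hasFDerivAt_fst
  refine (h1.smul h2).congr_fderiv ?_
  ext v <;> simp [div_self h0]

theorem vec1_segment {x y q : ℂ} (hx : ‖x‖ < 1) (hy : ‖y‖ ≤ 1) {s c : ℝ} (hs : s ∈ Icc (0 : ℝ) 1)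
    (hc : 0 < c) (h : (1 - s) • vec1 x y + s • c • (q - x) = 0) : x ∈ segment ℝ y q := by
  have hr := div_pos (rho_self_pos hx) (rho_pos hx hy)
  rw [vec1, smul_smul, smul_smul] at h
  set r := rho x x / rho x y
  have ha : 0 ≤ (1 - s) * r := mul_nonneg (sub_nonneg.2 hs.2) hr.le
  have hb : 0 ≤ s * c := mul_nonneg hs.1 hc.le
  have hab : 0 < (1 - s) * r + s * c := by
    rcases hs.1.eq_or_lt with h0 | h0
    · simpa [← h0] using hr
    · have := mul_pos h0 hc
      linarith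
  refine mem_segment_iff_div.2 ⟨_, _, ha, hb, hab, ?_⟩
  apply smul_right_injective ℂ hab.ne'
  simp only [smul_add, smul_smul, mul_div_cancel₀ _ hab.ne']
  linear_combination (norm := module) h

theorem dist_le_of_segment {x y y' : KD} (h : x.val ∈ segment ℝ y.val y'.val) :
    dist x y ≤ dist y y' := by
  obtain ⟨a, b, ha, hb, hab, e⟩ := h
  obtain rfl : a = 1 - b := by linarith
  have pA := y.rho_pos
  have pC := y'.rho_pos
  have pX := x.rho_pos
  have pB := rho_pos y.lt y'.lt.le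
  have pD := rho_pos x.lt y.lt.le
  have e1 : rho x.val y.val = (1 - b) * rho y.val y.val + b * rho y.val y'.val := by
    rw [← e, rho_affine, rho_comm y'.val]
  have e2 : rho x.val x.val = (1 - b) ^ 2 * rho y.val y.val +
      2 * b * (1 - b) * rho y.val y'.val + b ^ 2 * rho y'.val y'.val := by
    nth_rewrite 1 [← e]
    rw [rho_affine, rho_comm y.val, rho_comm y'.val, e1, ← e, rho_affine]
    ring
  have h1 : √(rho y.val y.val) * √(rho y'.val y'.val) ≤ rho y.val y'.val := by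
    have := Real.one_le_cosh (dist y y')
    rwa [KD.cosh_dist, le_div_iff₀ (by positivity), one_mul] at this
  have h2 : rho y.val y.val * rho y'.val y'.val ≤ rho y.val y'.val ^ 2 := by
    rw [← Real.sqrt_mul pA.le] at h1
    exact (Real.sqrt_le_left pB.le).1 h1
  have h3 : rho x.val y.val * √(rho y'.val y'.val) ≤ rho y.val y'.val * √(rho x.val x.val) := by
    refine (sq_le_sq₀ (by positivity) (by positivity)).1 ?_
    rw [mul_pow, mul_pow, Real.sq_sqrt pC.le, Real.sq_sqrt pX.le, e1, e2]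
    have h4 := mul_nonneg (add_nonneg (mul_nonneg (sq_nonneg (1 - b)) pA.le)
      (mul_nonneg (mul_nonneg (mul_nonneg zero_le_two hb) ha) pB.le)) (sub_nonneg.2 h2)
    linarith
  have h5 : Real.cosh (dist x y) ≤ Real.cosh (dist y y') := by
    rw [KD.cosh_dist, KD.cosh_dist, div_le_div_iff₀ (by positivity) (by positivity)]
    have := mul_le_mul_of_nonneg_right h3 (Real.sqrt_nonneg (rho y.val y.val))
    linarith
  rwa [Real.cosh_le_cosh, abs_of_nonneg dist_nonneg, abs_of_nonneg dist_nonneg] at h5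

/-- The unit vector above a point of the disc. -/
noncomputable def hat_klor (x : KD) : ℝ × ℂ := (√(rho x.val x.val))⁻¹ • ((1 : ℝ), x.val)

theorem mink_hat_klor (x y : KD) : mink (hat_klor x) (hat_klor y) = Real.cosh (dist x y) := by
  rw [KD.cosh_dist, div_eq_mul_inv, mul_inv, hat_klor, hat_klor]
  generalize (√(rho x.val x.val))⁻¹ = s
  generalize (√(rho y.val y.val))⁻¹ = t
  simp only [mink, rho, Prod.smul_fst, Prod.smul_snd, smul_eq_mul, Complex.smul_re,
    Complex.smul_im]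
  ring

/-- The linear map with given columns. -/
noncomputable def col_klor (a b c : ℝ × ℂ) : ℝ × ℂ →L[ℝ] ℝ × ℂ :=
  (ContinuousLinearMap.fst ℝ ℝ ℂ).smulRight a +
    (Complex.reCLM.comp (ContinuousLinearMap.snd ℝ ℝ ℂ)).smulRight b +
    (Complex.imCLM.comp (ContinuousLinearMap.snd ℝ ℝ ℂ)).smulRight c

theorem col_klor_apply (a b c v : ℝ × ℂ) :
    col_klor a b c v = v.1 • a + v.2.re • b + v.2.im • c := rfl

theorem mink_comb_klor (u a b c : ℝ × ℂ) (r s t : ℝ) :
    mink u (r • a + s • b + t • c) = r * mink u a + s * mink u b + t * mink u c := by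
  simp only [mink, Prod.fst_add, Prod.snd_add, Prod.smul_fst, Prod.smul_snd, smul_eq_mul,
    Complex.add_re, Complex.add_im, Complex.smul_re, Complex.smul_im]
  ring

theorem mink_comm_klor (u v : ℝ × ℂ) : mink u v = mink v u := by
  simp only [mink]
  ring

theorem eq_of_mink_klor {u v : ℝ × ℂ} (h : ∀ w, mink u w = mink v w) : u = v := by
  have h0 := h (1, 0)
  have h1 := h (0, 1)
  have h2 := h (0, Complex.I)
  simp only [mink, Complex.zero_re, Complex.zero_im, Complex.one_re, Complex.one_im, Complex.I_re,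
    Complex.I_im] at h0 h1 h2
  exact Prod.ext (by linarith) (Complex.ext (by linarith) (by linarith))

theorem exists_lin_klor (γ : KD ≃ᵢ KD) : ∃ (L : ℝ × ℂ →L[ℝ] ℝ × ℂ) (d : ℝ), d * d = 1 ∧
    (∀ v w, mink (L v) (L w) = mink v w) ∧ (∀ x, L (hat_klor x) = hat_klor (γ x)) ∧
    ∀ u v w, det3 (L u) (L v) (L w) = d * det3 u v w := by
  let p : KD := ⟨⟨3 / 5, 0⟩, norm_lt_one_of_rho (by norm_num [rho])⟩
  let q : KD := ⟨⟨0, 3 / 5⟩, norm_lt_one_of_rho (by norm_num [rho])⟩
  have s45 : √(16 / 25 : ℝ) = 4 / 5 := by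
    rw [show (16 / 25 : ℝ) = (4 / 5) ^ 2 by norm_num, Real.sqrt_sq (by norm_num)]
  have ho : hat_klor KD.o = (1, 0) := by simp [hat_klor, KD.o, rho]
  have hp : hat_klor p = (5 / 4, ⟨3 / 4, 0⟩) := by
    have : rho p.val p.val = 16 / 25 := by norm_num [rho, p]
    rw [hat_klor, this, s45]
    refine Prod.ext (by norm_num) (Complex.ext ?_ ?_) <;> norm_num [p]
  have hq : hat_klor q = (5 / 4, ⟨0, 3 / 4⟩) := by
    have : rho q.val q.val = 16 / 25 := by norm_num [rho, q]
    rw [hat_klor, this, s45]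
    refine Prod.ext (by norm_num) (Complex.ext ?_ ?_) <;> norm_num [q]
  have hγ : ∀ x y, mink (hat_klor (γ x)) (hat_klor (γ y)) = mink (hat_klor x) (hat_klor y) :=
    fun x y => by rw [mink_hat_klor, mink_hat_klor, γ.dist_eq]
  set a := hat_klor (γ KD.o) with ha
  set b := hat_klor (γ p) with hb
  set c := hat_klor (γ q) with hc
  let M := col_klor a ((4 / 3 : ℝ) • b - (5 / 3 : ℝ) • a) ((4 / 3 : ℝ) • c - (5 / 3 : ℝ) • a)
  have hM : ∀ v, M v = (v.1 - 5 / 3 * v.2.re - 5 / 3 * v.2.im) • a + (4 / 3 * v.2.re) • b +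
      (4 / 3 * v.2.im) • c := fun v => by
    rw [col_klor_apply]
    module
  have k1 : ∀ x w, mink (hat_klor (γ x)) (M w) = mink (hat_klor x) w := fun x w => by
    rw [hM, mink_comb_klor, hγ, hγ, hγ, ho, hp, hq]
    simp only [mink, Complex.zero_re, Complex.zero_im]
    ring
  have k2 : ∀ v w, mink (M v) (M w) = mink v w := fun v w => by
    rw [mink_comm_klor, hM v, mink_comb_klor, mink_comm_klor _ a, mink_comm_klor _ b,
      mink_comm_klor _ c, k1, k1, k1, ho, hp, hq]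
    simp only [mink, Complex.zero_re, Complex.zero_im]
    ring
  have k3 : Function.Surjective M :=
    (LinearMap.injective_iff_surjective (f := M.toLinearMap)).1 fun v w e =>
      eq_of_mink_klor fun u => by rw [← k2, ← k2 w, show M v = M w from e]
  refine ⟨M, det3 (M (1, 0)) (M (0, 1)) (M (0, Complex.I)), ?_, k2, fun x =>
    eq_of_mink_klor fun u => ?_, fun u v w => ?_⟩
  · have g : ∀ u v w, det3 u v w * det3 u v w =
        mink u u * (mink v v * mink w w - mink v w * mink v w) -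
        mink u v * (mink u v * mink w w - mink v w * mink u w) +
        mink u w * (mink u v * mink v w - mink v v * mink u w) := fun u v w => by
      simp only [det3, mink]
      ring
    rw [g]
    simp only [k2]
    simp [mink]
  · obtain ⟨u, rfl⟩ := k3 u
    rw [k2, k1]
  · have e : ∀ v : ℝ × ℂ, M v = v.1 • M (1, 0) + v.2.re • M (0, 1) + v.2.im • M (0, Complex.I) :=
      fun v => by
        rw [← map_smul, ← map_smul, ← map_smul, ← map_add, ← map_add]
        exact congrArg M (Prod.ext (by simp) (Complex.ext (by simp) (by simp)))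
    rw [e u, e v, e w]
    generalize M (1, 0) = a'
    generalize M (0, 1) = b'
    generalize M (0, Complex.I) = c'
    simp only [det3, Prod.fst_add, Prod.snd_add, Prod.smul_fst, Prod.smul_snd, smul_eq_mul,
      Complex.add_re, Complex.add_im, Complex.smul_re, Complex.smul_im]
    ring

/-- An isometry of the Klein model comes from a linear map preserving the Minkowski form. -/
theorem isOP_mul_self (γ : KD ≃ᵢ KD) : IsOP (γ * γ) := by
  obtain ⟨M, d, hd, h1, h2, h3⟩ := exists_lin_klor γ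
  have key : ∀ x : KD, (M.comp M) (1, x.val) =
      (√(rho x.val x.val) * (√(rho (γ (γ x)).val (γ (γ x)).val))⁻¹) •
        ((1 : ℝ), (γ (γ x)).val) := fun x => by
    have e : ((1 : ℝ), x.val) = √(rho x.val x.val) • hat_klor x := by
      rw [hat_klor, smul_smul, mul_inv_cancel₀ (Real.sqrt_pos.2 x.rho_pos).ne', one_smul]
    rw [e, map_smul, ContinuousLinearMap.comp_apply, h2, h2, hat_klor, smul_smul]
  have pos : ∀ x : KD, 0 < √(rho x.val x.val) * (√(rho (γ (γ x)).val (γ (γ x)).val))⁻¹ :=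
    fun x => mul_pos (Real.sqrt_pos.2 x.rho_pos) (inv_pos.2 (Real.sqrt_pos.2 (KD.rho_pos _)))
  refine ⟨M.comp M, ⟨fun v w => (h1 _ _).trans (h1 _ _), ?_, fun u v w => ?_⟩, fun x => ?_⟩
  · have := key KD.o
    rw [show ((1 : ℝ), (0 : ℂ)) = (1, KD.o.val) from rfl, this, Prod.smul_fst, smul_eq_mul, mul_one]
    exact pos _
  · change det3 (M (M u)) (M (M v)) (M (M w)) = _
    rw [h3, h3, ← mul_assoc, hd, one_mul]
  · rw [kact, kmu, key, Prod.smul_fst, Prod.smul_snd, smul_eq_mul, mul_one, smul_smul,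
      inv_mul_cancel₀ (pos x).ne', one_smul]
    rfl

theorem isOP_one : IsOP 1 := ⟨_, isLor_id, fun _ => (kact_id _).symm⟩

theorem IsOP.mul {γ δ : KD ≃ᵢ KD} (h : IsOP γ) (h' : IsOP δ) : IsOP (γ * δ) := by
  obtain ⟨M, hM, e⟩ := h
  obtain ⟨M', hM', e'⟩ := h'
  exact ⟨_, hM.comp hM', fun x => by rw [hM.kact_comp hM' x.lt.le, ← e', ← e]; rfl⟩

theorem IsOP.inv {γ : KD ≃ᵢ KD} (h : IsOP γ) : IsOP γ⁻¹ := by
  obtain ⟨M, hM, e⟩ := h
  obtain ⟨M', hM', h1, -⟩ := hM.exists_inv
  refine ⟨M', hM', fun x => ?_⟩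
  have : x.val = kact M (γ⁻¹ x).val := by rw [← e, IsometryEquiv.apply_inv_self]
  rw [this, ← hM'.kact_comp hM (γ⁻¹ x).lt.le, h1, kact_id]

theorem IsLor.ext (h : IsLor L) (h' : IsLor L') (e : ∀ x : KD, kact L x.val = kact L' x.val) :
    L = L' := by
  have k : ∀ x : ℂ, ‖x‖ < 1 → L (1, x) = L' (1, x) := fun x hx => by
    have e1 : kact L x = kact L' x := e ⟨x, hx⟩
    have r1 := h.rho_kact hx.le hx.le
    have r2 := h'.rho_kact hx.le hx.le
    rw [e1, ← r2] at r1
    have r3 := mul_right_cancel₀ (rho_self_pos (h'.norm_kact_lt hx)).ne' r1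
    rw [h.apply_eq hx.le, h'.apply_eq hx.le, e1,
      (mul_self_inj (h.kmu_pos hx.le).le (h'.kmu_pos hx.le).le).1 r3]
  refine ContinuousLinearMap.ext fun v => ?_
  have hv : v = (v.1 - 2 * v.2.re - 2 * v.2.im) • ((1 : ℝ), (0 : ℂ)) +
      (2 * v.2.re) • ((1 : ℝ), (⟨1 / 2, 0⟩ : ℂ)) + (2 * v.2.im) • ((1 : ℝ), (⟨0, 1 / 2⟩ : ℂ)) := by
    refine Prod.ext ?_ (Complex.ext ?_ ?_)
    · simp only [Prod.fst_add, Prod.smul_fst, smul_eq_mul]
      ring
    · simp only [Prod.snd_add, Prod.smul_snd, Complex.add_re, Complex.smul_re, smul_eq_mul,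
        Complex.zero_re]
      ring
    · simp only [Prod.snd_add, Prod.smul_snd, Complex.add_im, Complex.smul_im, smul_eq_mul,
        Complex.zero_im]
      ring
  rw [hv]
  simp only [map_add, map_smul]
  rw [k 0 (by simp), k _ (norm_lt_one_of_rho (by norm_num [rho])),
    k _ (norm_lt_one_of_rho (by norm_num [rho]))]

end Pool.Agent.P.MP_788ef7_an
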