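import Pool.Agent.P.MP_788ef7_an.CDefs
import Pool.Agent.P.MP_788ef7_an.KLor

set_option autoImplicit false
set_option linter.unusedSectionVars false

open Set Filter Topology Metric

namespace Pool.Agent.P.MP_788ef7_an

theorem finite_fibre_deck {X S : Type*} [TopologicalSpace X] {q : X → S}
    (hq : IsLocallyInjective q) {K : Set X} (hK : IsCompact K) (s : S) :
    (K ∩ q ⁻¹' {s}).Finite := by
  refine hK.induction_on (p := fun T => (T ∩ q ⁻¹' {s}).Finite) (by simp)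
    (fun _ _ h h' => h'.subset (inter_subset_inter_left _ h))
    (fun _ _ h h' => by rw [union_inter_distrib_right]; exact h.union h') fun x _ => ?_
  obtain ⟨U, hU, hx, hi⟩ := hq x
  refine ⟨U, mem_nhdsWithin_of_mem_nhds (hU.mem_nhds hx), Set.Subsingleton.finite ?_⟩
  intro a ha b hb
  exact hi ha.1 hb.1 (ha.2.trans hb.2.symm)

theorem exists_finite_sq_deck {G : Type*} [Group G] [Group.FG G] : ∃ T : Set G, T.Finite ∧
    ∀ g : G, ∃ d ∈ Subgroup.closure {d : G | ∃ g, d = g * g}, ∃ f ∈ T, g = f * d := by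
  set N := Subgroup.closure {d : G | ∃ g, d = g * g}
  have hsq : ∀ g : G, g * g ∈ N := fun g => Subgroup.subset_closure ⟨g, rfl⟩
  have hN : N.Normal := ⟨fun n hn g => by
    have e : g * n * g⁻¹ = (g * n * (g * n)) * n⁻¹ * (g⁻¹ * g⁻¹) := by group
    rw [e]
    exact N.mul_mem (N.mul_mem (hsq _) (N.inv_mem hn)) (hsq _)⟩
  have h2 : ∀ a : G ⧸ N, a * a = 1 := fun a => by
    obtain ⟨g, rfl⟩ := QuotientGroup.mk_surjective a
    rw [← QuotientGroup.mk_mul, QuotientGroup.eq_one_iff]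
    exact hsq g
  have h3 : ∀ a : G ⧸ N, a⁻¹ = a := fun a => inv_eq_of_mul_eq_one_right (h2 a)
  let : CommGroup (G ⧸ N) :=
    { (inferInstance : Group (G ⧸ N)) with
      mul_comm := fun a b => by rw [← h3 (a * b), mul_inv_rev, h3, h3] }
  have : Finite (G ⧸ N) := CommGroup.finite_of_fg_isMulTorsion (G ⧸ N) fun a =>
    isOfFinOrder_iff_pow_eq_one.2 ⟨2, two_pos, by rw [pow_two, h2]⟩
  refine ⟨range fun a : G ⧸ N => a.out, finite_range _, fun g => ?_⟩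
  refine ⟨(g : G ⧸ N).out⁻¹ * g, QuotientGroup.eq.1 (QuotientGroup.out_eq' _), _, ⟨g, rfl⟩, ?_⟩
  rw [mul_inv_cancel_left]

section

variable {X : Type*} [MetricSpace X] [ProperSpace X]

theorem deck_lat [PreconnectedSpace X] [Nonempty X] {S : Type*} [TopologicalSpace S] [CompactSpace S]
    {q : X → S} (hq : IsCoveringMap q) (hs : Function.Surjective q)
    (ht : ∀ x y, q x = q y → ∃ γ : X ≃ᵢ X, (∀ z, q (γ z) = q z) ∧ γ x = y) : Lat (deck q) univ := by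
  have hfree : ∀ γ ∈ deck q, ∀ x, γ x = x → γ = 1 := fun γ hγ x hx => by
    have := hq.eq_of_comp_eq (g₁ := γ) (g₂ := id) γ.continuous continuous_id (funext hγ) x hx
    exact IsometryEquiv.ext fun z => congrFun this z
  refine ⟨hfree, fun x R => ?_, ?_⟩
  · refine Set.Finite.of_finite_image (f := fun γ : X ≃ᵢ X => γ x)
      ((finite_fibre_deck hq.isLocalHomeomorph.isLocallyInjective (isCompact_closedBall x R)
        (q x)).subset ?_) ?_
    · rintro _ ⟨γ, hγ, rfl⟩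
      exact ⟨hγ.2, hγ.1 x⟩
    · intro γ hγ δ hδ e
      have e' : γ x = δ x := e
      have := hfree (δ⁻¹ * γ) ((deck q).mul_mem ((deck q).inv_mem hδ.1) hγ.1) x (by
        rw [IsometryEquiv.mul_apply, e']; exact δ.symm_apply_apply x)
      exact (inv_mul_eq_one.1 this).symm
  · obtain ⟨x₀⟩ := ‹Nonempty X›
    obtain ⟨n, hn⟩ := isCompact_univ.elim_directed_cover (fun n : ℕ => q '' ball x₀ n)
      (fun n => hq.isOpenMap _ isOpen_ball) (fun s _ => by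
        obtain ⟨x, rfl⟩ := hs s
        obtain ⟨n, hn⟩ := exists_nat_gt (dist x x₀)
        exact mem_iUnion.2 ⟨n, x, hn, rfl⟩)
      (Monotone.directed_le fun n m h => image_mono (ball_subset_ball (Nat.cast_le.2 h)))
    refine ⟨x₀, n, fun x _ => ?_⟩
    obtain ⟨y, hy, e⟩ := hn (mem_univ (q x))
    obtain ⟨γ, hγ, rfl⟩ := ht x y e.symm
    exact ⟨γ, hγ, (mem_ball.1 hy).le⟩

theorem Lat.fg [PreconnectedSpace X] {Γ : Subgroup (X ≃ᵢ X)} (h : Lat Γ univ) : Γ.FG := by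
  obtain ⟨x₀, R, hR⟩ := h.cocpt
  have R0 : 0 < R + 1 := by
    obtain ⟨γ, -, hγ⟩ := hR x₀ (mem_univ _)
    linarith [dist_nonneg.trans hγ]
  have hT := h.proper x₀ (2 * (R + 1))
  set T := {γ | γ ∈ Γ ∧ dist (γ x₀) x₀ ≤ 2 * (R + 1)}
  have hle : Subgroup.closure T ≤ Γ := (Subgroup.closure_le Γ).2 fun _ hγ => hγ.1
  refine (Subgroup.fg_iff Γ).2 ⟨T, le_antisymm hle fun γ hγ => ?_, hT⟩
  by_contra hn
  have := isPreconnected_univ (α := X) (⋃ δ ∈ Subgroup.closure T, ball (δ x₀) (R + 1))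
    (⋃ δ ∈ {δ | δ ∈ Γ ∧ δ ∉ Subgroup.closure T}, ball (δ x₀) (R + 1))
    (isOpen_biUnion fun _ _ => isOpen_ball) (isOpen_biUnion fun _ _ => isOpen_ball)
    (fun x _ => by
      obtain ⟨δ, hδ, hd⟩ := hR x (mem_univ _)
      have hx : x ∈ ball (δ⁻¹ x₀) (R + 1) := by
        rw [mem_ball, ← δ.dist_eq, IsometryEquiv.apply_inv_self]
        linarith
      by_cases hc : δ⁻¹ ∈ Subgroup.closure T
      · exact Or.inl (mem_biUnion hc hx)
      · exact Or.inr (mem_biUnion (t := fun δ : X ≃ᵢ X => ball (δ x₀) (R + 1))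
          (show δ⁻¹ ∈ {δ | δ ∈ Γ ∧ δ ∉ Subgroup.closure T} from ⟨Γ.inv_mem hδ, hc⟩) hx))
    ⟨x₀, mem_univ _, mem_biUnion (Subgroup.closure T).one_mem (mem_ball_self R0)⟩
    ⟨γ x₀, mem_univ _, mem_biUnion (t := fun δ : X ≃ᵢ X => ball (δ x₀) (R + 1))
      (show γ ∈ {δ | δ ∈ Γ ∧ δ ∉ Subgroup.closure T} from ⟨hγ, hn⟩) (mem_ball_self R0)⟩
  obtain ⟨z, -, h1, h2⟩ := this
  obtain ⟨a, ha, h1⟩ := mem_iUnion₂.1 h1
  obtain ⟨b, hb, h2⟩ := mem_iUnion₂.1 h2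
  have hab : a⁻¹ * b ∈ T := by
    refine ⟨Γ.mul_mem (Γ.inv_mem (hle ha)) hb.1, ?_⟩
    rw [IsometryEquiv.mul_apply, ← a.dist_eq, IsometryEquiv.apply_inv_self]
    linarith [dist_triangle_left (b x₀) (a x₀) z, mem_ball.1 h1, mem_ball.1 h2]
  have := (Subgroup.closure T).mul_mem ha (Subgroup.subset_closure hab)
  rw [mul_inv_cancel_left] at this
  exact hb.2 this

theorem sq_le (Γ : Subgroup (X ≃ᵢ X)) : Sq Γ ≤ Γ :=
  (Subgroup.closure_le Γ).2 fun _ ⟨_, hγ, e⟩ => e ▸ Γ.mul_mem hγ hγ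

theorem exists_finite_sq {Γ : Subgroup (X ≃ᵢ X)} (h : Γ.FG) : ∃ T : Set (X ≃ᵢ X), T.Finite ∧
    ∀ γ ∈ Γ, ∃ δ ∈ Sq Γ, ∃ φ ∈ T, γ = φ * δ := by
  have := (Group.fg_iff_subgroup_fg Γ).2 h
  obtain ⟨T, hT, H⟩ := exists_finite_sq_deck (G := Γ)
  refine ⟨Γ.subtype '' T, hT.image _, fun γ hγ => ?_⟩
  obtain ⟨d, hd, f, hf, e⟩ := H ⟨γ, hγ⟩
  refine ⟨d, ?_, f, ⟨f, hf, rfl⟩, congrArg Subtype.val e⟩
  have : Subgroup.closure {d : Γ | ∃ g, d = g * g} ≤ (Sq Γ).comap Γ.subtype :=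
    (Subgroup.closure_le _).2 fun _ ⟨g, e⟩ => Subgroup.subset_closure ⟨g, g.2, congrArg Subtype.val e⟩
  exact this hd

theorem Lat.sq [PreconnectedSpace X] {Γ : Subgroup (X ≃ᵢ X)} (h : Lat Γ univ) : Lat (Sq Γ) univ := by
  refine ⟨fun γ hγ => h.free γ (sq_le Γ hγ),
    fun x R => (h.proper x R).subset fun γ hγ => ⟨sq_le Γ hγ.1, hγ.2⟩, ?_⟩
  obtain ⟨x₀, R, hR⟩ := h.cocpt
  obtain ⟨T, hT, H⟩ := exists_finite_sq h.fg
  obtain ⟨M, hM⟩ := (hT.image fun φ => dist x₀ (φ x₀)).bddAbove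
  refine ⟨x₀, R + M, fun x hx => ?_⟩
  obtain ⟨γ, hγ, hd⟩ := hR x hx
  obtain ⟨δ, hδ, φ, hφ, rfl⟩ := H γ hγ
  refine ⟨δ, hδ, ?_⟩
  have h1 : dist x₀ (φ x₀) ≤ M := hM ⟨φ, hφ, rfl⟩
  rw [IsometryEquiv.mul_apply] at hd
  rw [← φ.dist_eq]
  linarith [dist_triangle (φ (δ x)) x₀ (φ x₀)]

end

theorem isOP_of_sq {Γ : Subgroup (KD ≃ᵢ KD)} {γ : KD ≃ᵢ KD} (h : γ ∈ Sq Γ) : IsOP γ := by
  induction h using Subgroup.closure_induction with
  | mem x hx =>
    obtain ⟨γ, -, rfl⟩ := hx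
    exact isOP_mul_self γ
  | one => exact isOP_one
  | mul _ _ _ _ h h' => exact h.mul h'
  | inv _ _ h => exact h.inv

theorem sq_affine_deck (γ : ℂ ≃ᵢ ℂ) : ∃ a b : ℂ, ∀ z, γ (γ z) = a * z + b := by
  obtain ⟨a, h⟩ := linear_isometry_complex γ.toRealLinearIsometryEquiv
  have e : ∀ z, γ z = γ.toRealLinearIsometryEquiv z + γ 0 := fun z => by
    rw [IsometryEquiv.toRealLinearIsometryEquiv_apply, sub_add_cancel]
  generalize γ 0 = b at e
  rcases h with h | h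
  · refine ⟨a * a, a * b + b, fun z => ?_⟩
    rw [e, e z, h, rotation_apply, rotation_apply]
    ring
  · refine ⟨a * (starRingEnd ℂ) a, a * (starRingEnd ℂ) b + b, fun z => ?_⟩
    rw [e, e z, h]
    simp only [LinearIsometryEquiv.trans_apply, rotation_apply, Complex.conjLIE_apply, map_add,
      map_mul, Complex.conj_conj]
    ring

theorem Lat.sq_plane {Γ : Subgroup (ℂ ≃ᵢ ℂ)} (h : Lat Γ univ) {γ : ℂ ≃ᵢ ℂ} (hγ : γ ∈ Sq Γ) (y : ℂ) :
    γ y = y + γ 0 := by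
  induction hγ using Subgroup.closure_induction generalizing y with
  | mem x hx =>
    obtain ⟨γ, hγ, rfl⟩ := hx
    obtain ⟨a, b, e⟩ := sq_affine_deck γ
    by_cases ha : a = 1
    · simp only [IsometryEquiv.mul_apply, e, ha]
      ring
    · have h1 : 1 - a ≠ 0 := sub_ne_zero.2 (Ne.symm ha)
      rw [h.free _ (Γ.mul_mem hγ hγ) (b / (1 - a)) (by
        rw [IsometryEquiv.mul_apply, e]; field_simp; ring)]
      simp
  | one => simp
  | mul a b _ _ h h' =>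
    rw [IsometryEquiv.mul_apply, IsometryEquiv.mul_apply, h (b y), h (b 0), h' y]
    ring
  | inv a _ h =>
    have h1 := h (a⁻¹ y)
    have h2 := h (a⁻¹ 0)
    rw [IsometryEquiv.apply_inv_self] at h1 h2
    linear_combination h2 - h1

theorem inner_sphere_deck (γ : sphere (0 : E3) 1 ≃ᵢ sphere (0 : E3) 1) (x y : sphere (0 : E3) 1) :
    inner ℝ (γ x : E3) (γ y : E3) = inner ℝ (x : E3) (y : E3) := by
  have h := γ.dist_eq x y
  rw [Subtype.dist_eq, Subtype.dist_eq, dist_eq_norm, dist_eq_norm] at h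
  have h1 := norm_sub_sq_real (γ x : E3) (γ y : E3)
  have h2 := norm_sub_sq_real (x : E3) (y : E3)
  simp only [norm_eq_of_mem_sphere] at h1 h2
  rw [h] at h1
  linarith

theorem exists_matrix_deck (γ : sphere (0 : E3) 1 ≃ᵢ sphere (0 : E3) 1) :
    ∃ A : Matrix (Fin 3) (Fin 3) ℝ, A.transpose * A = 1 ∧
      ∀ x, (γ x : E3).ofLp = A.mulVec (x : E3).ofLp := by
  let e : Fin 3 → sphere (0 : E3) 1 := fun j => ⟨EuclideanSpace.single j 1, by simp⟩
  let A : Matrix (Fin 3) (Fin 3) ℝ := Matrix.of fun i j => (γ (e j) : E3) i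
  have key : ∀ x, A.transpose.mulVec (γ x : E3).ofLp = (x : E3).ofLp := fun x => by
    funext j
    have := inner_sphere_deck γ (e j) x
    rw [EuclideanSpace.inner_single_left, PiLp.inner_apply] at this
    simp only [map_one, one_mul] at this
    rw [← this]
    change ∑ i, (γ (e j) : E3) i * (γ x : E3) i = _
    refine Finset.sum_congr rfl fun i _ => ?_
    rw [RCLike.inner_apply, conj_trivial, mul_comm]
  have h1 : A.transpose * A = 1 := by
    ext i j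
    have := congrFun (key (e j)) i
    simp only [e, PiLp.ofLp_single] at this
    rw [Matrix.one_apply, ← Pi.single_apply, ← this]
    rfl
  refine ⟨A, h1, fun x => ?_⟩
  rw [← key x, Matrix.mulVec_mulVec, mul_eq_one_comm.1 h1, Matrix.one_mulVec]

theorem exists_fix_deck (γ : sphere (0 : E3) 1 ≃ᵢ sphere (0 : E3) 1) : ∃ x, γ (γ x) = x := by
  obtain ⟨A, hA, h⟩ := exists_matrix_deck γ
  have h1 : (A * A).det = 1 := by
    have := congrArg Matrix.det hA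
    rwa [Matrix.det_mul, Matrix.det_transpose, Matrix.det_one, ← Matrix.det_mul] at this
  have h2 : (A * A).transpose * (A * A - 1) = -(A * A - 1).transpose := by
    rw [mul_sub, Matrix.transpose_mul, mul_assoc, ← mul_assoc A.transpose A A, hA, one_mul, hA]
    simp
  have h3 : (A * A - 1).det = 0 := by
    have := congrArg Matrix.det h2
    rw [Matrix.det_mul, Matrix.det_transpose, h1, Matrix.det_neg, Matrix.det_transpose,
      Fintype.card_fin] at this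
    linarith
  obtain ⟨v, hv, e⟩ := Matrix.exists_mulVec_eq_zero_iff.2 h3
  rw [Matrix.sub_mulVec, Matrix.one_mulVec, sub_eq_zero] at e
  have hw : (WithLp.toLp 2 v : E3) ≠ 0 := fun h => hv (congrArg WithLp.ofLp h)
  refine ⟨⟨‖(WithLp.toLp 2 v : E3)‖⁻¹ • WithLp.toLp 2 v,
    mem_sphere_zero_iff_norm.2 (norm_smul_inv_norm hw)⟩, Subtype.ext (WithLp.ofLp_injective 2 ?_)⟩
  rw [h, h, Matrix.mulVec_mulVec]
  simp only [WithLp.ofLp_smul, Matrix.mulVec_smul, e]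

theorem Lat.sq_sphere {Γ : Subgroup (sphere (0 : E3) 1 ≃ᵢ sphere (0 : E3) 1)} (h : Lat Γ univ) :
    Sq Γ = ⊥ := by
  refine eq_bot_iff.2 ((Subgroup.closure_le _).2 ?_)
  rintro _ ⟨γ, hγ, rfl⟩
  obtain ⟨x, hx⟩ := exists_fix_deck γ
  exact Subgroup.mem_bot.2 (h.free _ (Γ.mul_mem hγ hγ) x hx)

theorem Nrm.sq {X Y : Type*} [MetricSpace X] [MetricSpace Y] {F : Equiv.Perm (X × Y)}
    {Γ₁ : Subgroup (X ≃ᵢ X)} {Γ₂ : Subgroup (Y ≃ᵢ Y)} (h : Nrm F Γ₁ Γ₂) :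
    Nrm F (Sq Γ₁) (Sq Γ₂) := by
  let P : (X ≃ᵢ X) → (Y ≃ᵢ Y) → Prop := fun a b => ∃ a' ∈ Sq Γ₁, ∃ b' ∈ Sq Γ₂, ∀ x y,
    F (a x, b y) = (a' (F (x, y)).1, b' (F (x, y)).2)
  have P1 : P 1 1 := ⟨1, one_mem _, 1, one_mem _, fun _ _ => rfl⟩
  have Pm : ∀ a b c d, P a b → P c d → P (a * c) (b * d) := by
    rintro a b c d ⟨a', ha, b', hb, e⟩ ⟨c', hc, d', hd, e'⟩
    refine ⟨a' * c', mul_mem ha hc, b' * d', mul_mem hb hd, fun x y => ?_⟩
    simp only [IsometryEquiv.mul_apply, e, e']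
  have Pi : ∀ a b, P a b → P a⁻¹ b⁻¹ := by
    rintro a b ⟨a', ha, b', hb, e⟩
    refine ⟨a'⁻¹, inv_mem ha, b'⁻¹, inv_mem hb, fun x y => ?_⟩
    have := e (a⁻¹ x) (b⁻¹ y)
    rw [IsometryEquiv.apply_inv_self, IsometryEquiv.apply_inv_self] at this
    rw [this]
    simp only [IsometryEquiv.inv_apply_self]
  have Ps : ∀ a ∈ Γ₁, ∀ b ∈ Γ₂, P (a * a) (b * b) := by
    intro a ha b hb
    obtain ⟨a', ha', b', hb', e⟩ := h a ha b hb
    refine ⟨a' * a', Subgroup.subset_closure ⟨a', ha', rfl⟩, b' * b',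
      Subgroup.subset_closure ⟨b', hb', rfl⟩, fun x y => ?_⟩
    simp only [IsometryEquiv.mul_apply, e]
  have Pl : ∀ a ∈ Sq Γ₁, P a 1 := by
    intro a ha
    induction ha using Subgroup.closure_induction with
    | mem x hx =>
      obtain ⟨γ, hγ, rfl⟩ := hx
      simpa only [mul_one] using Ps γ hγ 1 (one_mem _)
    | one => exact P1
    | mul _ _ _ _ h h' => simpa only [mul_one] using Pm _ _ _ _ h h'
    | inv _ _ h => simpa only [inv_one] using Pi _ _ h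
  have Pr : ∀ b ∈ Sq Γ₂, P 1 b := by
    intro b hb
    induction hb using Subgroup.closure_induction with
    | mem x hx =>
      obtain ⟨γ, hγ, rfl⟩ := hx
      simpa only [mul_one] using Ps 1 (one_mem _) γ hγ
    | one => exact P1
    | mul _ _ _ _ h h' => simpa only [mul_one] using Pm _ _ _ _ h h'
    | inv _ _ h => simpa only [inv_one] using Pi _ _ h
  intro a ha b hb
  simpa only [mul_one, one_mul] using Pm _ _ _ _ (Pl a ha) (Pr b hb)

theorem Nrm.mul {X Y : Type*} [MetricSpace X] [MetricSpace Y] {F F' : Equiv.Perm (X × Y)}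
    {Γ₁ : Subgroup (X ≃ᵢ X)} {Γ₂ : Subgroup (Y ≃ᵢ Y)} (h : Nrm F Γ₁ Γ₂) (h' : Nrm F' Γ₁ Γ₂) :
    Nrm (F * F') Γ₁ Γ₂ := by
  intro a ha b hb
  obtain ⟨a', ha', b', hb', e'⟩ := h' a ha b hb
  obtain ⟨c, hc, d, hd, e⟩ := h a' ha' b' hb'
  refine ⟨c, hc, d, hd, fun x y => ?_⟩
  simp only [Equiv.Perm.mul_apply, e', e]

end Pool.Agent.P.MP_788ef7_an
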