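import Pool.Agent.P.MP_788ef7_an.LiftS1
import Pool.Agent.P.MP_788ef7_an.AnoD

set_option autoImplicit false
set_option linter.unusedSectionVars false

open Set Filter Topology Metric

namespace Pool.Agent.P.MP_788ef7_an

open Bundle
open scoped Manifold ContDiff

variable {EM : Type*} [NormedAddCommGroup EM] [NormedSpace ℝ EM] {HM : Type*} [TopologicalSpace HM]
  {I : ModelWithCorners ℝ EM HM} {M : Type*} [TopologicalSpace M] [ChartedSpace HM M]
  {X E W : Type*} [TopologicalSpace X] [NormedAddCommGroup E] [NormedSpace ℝ E]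
  [NormedAddCommGroup W] [NormedSpace ℝ W] [FiniteDimensional ℝ EM] [FiniteDimensional ℝ E]
  [FiniteDimensional ℝ W] [I.Boundaryless] [IsManifold I 1 M] {e : X → E} {q : E → M} {τ : E → W}

theorem Model.ext_liftS (h : Model I e q τ) (x : X) {v w : E}
    (h₁ : (mfderiv 𝓘(ℝ, E) I q (e x) v : EM) = mfderiv 𝓘(ℝ, E) I q (e x) w)
    (h₂ : fderiv ℝ τ (e x) v = fderiv ℝ τ (e x) w) : v = w :=
  (h.bij x).1 (Prod.ext h₁ h₂)

theorem Model.cont_liftS (h : Model I e q τ) : Continuous fun x => q (e x) :=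
  continuous_iff_continuousAt.2 fun x =>
    (h.cq_liftS1 x).continuousAt.comp (f := e) h.emb.continuous.continuousAt

theorem Model.src_liftS (h : Model I e q τ) (x : X) :
    ∀ᶠ z in 𝓝 x, q (e z) ∈ (chartAt HM (q (e x))).source :=
  (h.cont_liftS.tendsto x).eventually (chart_source_mem_nhds HM (q (e x)))

theorem proj_cont_liftS {Pm : ∀ x : M, TangentSpace I x →L[ℝ] TangentSpace I x}
    (hP : Continuous fun p : TangentBundle I M => (⟨p.proj, Pm p.proj p.2⟩ : TangentBundle I M))
    (m : M) : ContinuousAt (fun y : M =>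
      (((trivializationAt EM (TangentSpace I : M → Type _) m).continuousLinearMapAt ℝ y).comp
        ((Pm y).comp ((trivializationAt EM (TangentSpace I : M → Type _) m).symmL ℝ y)) :
          EM →L[ℝ] EM)) m := by
  set T := trivializationAt EM (TangentSpace I : M → Type _) m with hT
  have hb : T.baseSet ∈ 𝓝 m := T.open_baseSet.mem_nhds (FiberBundle.mem_baseSet_trivializationAt' m)
  refine continuousAt_clm_apply.2 fun u => ?_
  have t1 : ContinuousAt (fun x : M => (TotalSpace.mk' EM x (T.symm x u) : TangentBundle I M)) m :=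
    (T.continuousOn_symm.continuousAt (x := (m, u)) (prod_mem_nhds hb univ_mem)).comp
      (f := fun x : M => (x, u)) (by fun_prop)
  have t2 := ((FiberBundle.continuousAt_totalSpace EM _).1 (hP.continuousAt.comp t1)).2
  refine t2.congr ?_
  filter_upwards [hb] with x hx
  rw [ContinuousLinearMap.comp_apply, ContinuousLinearMap.comp_apply,
    Trivialization.continuousLinearMapAt_apply_of_mem _ _ hx, T.symmL_apply hx]
  rfl

/-- The lift of a continuous field of endomorphisms. -/
theorem Model.exists_Q (h : Model I e q τ)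
    {Pm : ∀ x : M, TangentSpace I x →L[ℝ] TangentSpace I x}
    (hP : Continuous fun p : TangentBundle I M => (⟨p.proj, Pm p.proj p.2⟩ : TangentBundle I M)) :
    ∃ Q : X → E →L[ℝ] E, Continuous Q ∧ ∀ x v,
      mfderiv 𝓘(ℝ, E) I q (e x) (Q x v) = Pm (q (e x)) (mfderiv 𝓘(ℝ, E) I q (e x) v) ∧
        fderiv ℝ τ (e x) (Q x v) = 0 := by
  let D : M → X → E →L[ℝ] EM × W := fun m x =>
    fderiv ℝ (fun y => (extChartAt I m (q y), τ y)) (e x)
  let R : M → M → EM →L[ℝ] EM := fun m y =>
    ((trivializationAt EM (TangentSpace I : M → Type _) m).continuousLinearMapAt ℝ y).comp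
      ((Pm y).comp ((trivializationAt EM (TangentSpace I : M → Type _) m).symmL ℝ y))
  let Q : M → X → E →L[ℝ] E := fun m x => (D m x).inverse.comp
    ((ContinuousLinearMap.inl ℝ EM W).comp ((R m (q (e x))).comp
      ((ContinuousLinearMap.fst ℝ EM W).comp (D m x))))
  have key : ∀ m x, q (e x) ∈ (chartAt HM m).source → ∀ v,
      mfderiv 𝓘(ℝ, E) I q (e x) (Q m x v) = Pm (q (e x)) (mfderiv 𝓘(ℝ, E) I q (e x) v) ∧
        fderiv ℝ τ (e x) (Q m x v) = 0 := fun m x hx v => by
    have hb : q (e x) ∈ (trivializationAt EM (TangentSpace I : M → Type _) m).baseSet := by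
      simpa using hx
    obtain ⟨L, hL⟩ := h.equiv_liftS1 m hx
    have e1 : D m x (Q m x v) = (R m (q (e x)) (D m x v).1, 0) := by
      show D m x ((D m x).inverse (R m (q (e x)) (D m x v).1, 0)) = _
      rw [show D m x = L from hL.symm, ContinuousLinearMap.inverse_equiv]
      exact L.apply_symm_apply _
    have e2 : ∀ w, D m x w = _ := h.dphi_liftS1 m hx
    rw [e2, e2, Prod.mk.injEq] at e1
    refine ⟨?_, e1.2⟩
    have e3 := congrArg ((trivializationAt EM (TangentSpace I : M → Type _) m).symmL ℝ (q (e x)))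
      e1.1
    simp only [R, ContinuousLinearMap.comp_apply,
      Trivialization.symmL_continuousLinearMapAt _ hb] at e3
    exact e3
  refine ⟨fun x => Q (q (e x)) x, continuous_iff_continuousAt.2 fun x => ?_,
    fun x => key _ x (mem_chart_source _ _)⟩
  have : CompleteSpace E := FiniteDimensional.complete ℝ E
  have hm : q (e x) ∈ (chartAt HM (q (e x))).source := mem_chart_source _ _
  have cD : ContinuousAt (D (q (e x))) x :=
    ((h.phi_liftS1 _ hm).continuousAt_fderiv one_ne_zero).comp (f := e)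
      h.emb.continuous.continuousAt
  have cR : ContinuousAt (fun z => R (q (e x)) (q (e z))) x :=
    (proj_cont_liftS hP (q (e x))).comp (f := fun z => q (e z)) h.cont_liftS.continuousAt
  have cI : ContinuousAt (fun z => (D (q (e x)) z).inverse) x := by
    obtain ⟨L, hL⟩ := h.equiv_liftS1 _ hm
    have := (contDiffAt_map_inverse (n := 0) L).continuousAt
    rw [hL] at this
    exact this.comp (f := D (q (e x))) cD
  have cQ : ContinuousAt (Q (q (e x))) x :=
    cI.clm_comp (continuousAt_const.clm_comp (cR.clm_comp (continuousAt_const.clm_comp cD)))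
  refine cQ.congr ?_
  filter_upwards [h.src_liftS x] with z hz
  refine ContinuousLinearMap.ext fun v => ?_
  have a := key _ z hz v
  have b := key _ z (mem_chart_source _ _) v
  exact h.ext_liftS z (a.1.trans b.1.symm) (a.2.trans b.2.symm)

theorem Model.tan_liftS (h : Model I e q τ) : Continuous fun p : X × E =>
    (⟨q (e p.1), mfderiv 𝓘(ℝ, E) I q (e p.1) p.2⟩ : TangentBundle I M) := by
  refine continuous_iff_continuousAt.2 fun p => (FiberBundle.continuousAt_totalSpace EM _).2
    ⟨(h.cont_liftS.comp continuous_fst).continuousAt, ?_⟩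
  have hm : q (e p.1) ∈ (chartAt HM (q (e p.1))).source := mem_chart_source _ _
  have c1 : ContinuousAt (fun p' : X × E =>
      fderiv ℝ (fun y => extChartAt I (q (e p.1)) (q y)) (e p'.1) p'.2) p :=
    (((h.chart_liftS1 _ hm).continuousAt_fderiv one_ne_zero).comp (f := fun p' : X × E => e p'.1)
      (h.emb.continuous.comp continuous_fst).continuousAt).clm_apply continuousAt_snd
  refine c1.congr ?_
  filter_upwards [(continuous_fst.tendsto p).eventually (h.src_liftS p.1)] with z hz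
  rw [h.dchart_liftS1 _ hz, Trivialization.continuousLinearMapAt_apply_of_mem _ _
    (by simpa using hz)]

theorem cmp_liftS {F : X × E → ℝ} (hF : Continuous F)
    (hs : ∀ x (c : ℝ) v, F (x, c • v) = |c| * F (x, v)) (hp : ∀ x v, v ≠ 0 → 0 < F (x, v))
    {K : Set X} (hK : IsCompact K) :
    ∃ c > 0, ∀ x ∈ K, ∀ v : E, ‖v‖ ≤ c * F (x, v) ∧ F (x, v) ≤ c * ‖v‖ := by
  have hK' : IsCompact (K ×ˢ sphere (0 : E) 1) := hK.prod (isCompact_sphere 0 1)
  obtain ⟨a, a0, ha⟩ := hK'.exists_forall_le' hF.continuousOn (a := 0) fun p hp' =>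
    hp p.1 p.2 (ne_zero_of_mem_unit_sphere ⟨p.2, hp'.2⟩)
  obtain ⟨b, hb⟩ := hK'.bddAbove_image hF.continuousOn
  refine ⟨max a⁻¹ b, lt_max_of_lt_left (inv_pos.2 a0), fun x hx v => ?_⟩
  rcases eq_or_ne v 0 with rfl | hv
  · have := hs x 0 0
    rw [zero_smul, abs_zero, zero_mul] at this
    simp [this]
  have n0 : 0 < ‖v‖ := norm_pos_iff.2 hv
  have m : (x, ‖v‖⁻¹ • v) ∈ K ×ˢ sphere (0 : E) 1 :=
    ⟨hx, mem_sphere_zero_iff_norm.2 (norm_smul_inv_norm hv)⟩
  have e1 : F (x, v) = ‖v‖ * F (x, ‖v‖⁻¹ • v) := by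
    rw [hs, abs_of_pos (inv_pos.2 n0), ← mul_assoc, mul_inv_cancel₀ n0.ne', one_mul]
  have h1 := ha _ m
  have h2 := hb (mem_image_of_mem F m)
  constructor
  · calc ‖v‖ = a⁻¹ * (‖v‖ * a) := by field_simp
      _ ≤ max a⁻¹ b * F (x, v) := by
        rw [e1]
        exact mul_le_mul (le_max_left _ _) (mul_le_mul_of_nonneg_left h1 n0.le) (by positivity)
          (le_max_of_le_left (inv_pos.2 a0).le)
  · rw [e1, mul_comm]
    exact mul_le_mul_of_nonneg_right (h2.trans (le_max_right _ _)) n0.le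

theorem Model.norm_cmp (h : Model I e q τ) {ν : ∀ x : M, TangentSpace I x → ℝ}
    (hν : Continuous fun p : TangentBundle I M => ν p.proj p.2)
    (hs : ∀ x (c : ℝ) v, ν x (c • v) = |c| * ν x v) (hp : ∀ x v, v ≠ 0 → 0 < ν x v) {K : Set X}
    (hK : IsCompact K) : ∃ c > 0, ∀ x ∈ K, ∀ v : E,
      ‖v‖ ≤ c * (ν (q (e x)) (mfderiv 𝓘(ℝ, E) I q (e x) v) + ‖fderiv ℝ τ (e x) v‖) ∧
      ν (q (e x)) (mfderiv 𝓘(ℝ, E) I q (e x) v) + ‖fderiv ℝ τ (e x) v‖ ≤ c * ‖v‖ := by
  have c1 : Continuous fun x => fderiv ℝ τ (e x) := continuous_iff_continuousAt.2 fun x =>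
    ((h.cτ_liftS1 x).continuousAt_fderiv one_ne_zero).comp (f := e) h.emb.continuous.continuousAt
  have c2 : Continuous fun p : X × E => ν (q (e p.1)) (mfderiv 𝓘(ℝ, E) I q (e p.1) p.2) +
      ‖fderiv ℝ τ (e p.1) p.2‖ :=
    (hν.comp h.tan_liftS).add ((c1.comp continuous_fst).clm_apply continuous_snd).norm
  refine cmp_liftS c2 (fun x c v => ?_) (fun x v hv => ?_) hK
  · have e1 : mfderiv 𝓘(ℝ, E) I q (e x) (c • v) = c • mfderiv 𝓘(ℝ, E) I q (e x) v :=
      (mfderiv 𝓘(ℝ, E) I q (e x)).map_smul c v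
    simp only
    rw [e1, hs, map_smul, norm_smul, Real.norm_eq_abs, mul_add]
  · simp only
    rcases eq_or_ne (mfderiv 𝓘(ℝ, E) I q (e x) v) 0 with h0 | h0
    · have h1 : fderiv ℝ τ (e x) v ≠ 0 := fun h1 => hv (h.ext_liftS x
        (h0.trans (mfderiv 𝓘(ℝ, E) I q (e x)).map_zero.symm) (h1.trans (map_zero _).symm))
      have h2 := hs (q (e x)) 0 0
      rw [zero_smul, abs_zero, zero_mul] at h2
      rw [h0, h2, zero_add]
      exact norm_pos_iff.2 h1
    · exact add_pos_of_pos_of_nonneg (hp _ _ h0) (norm_nonneg _)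

end Pool.Agent.P.MP_788ef7_an
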