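import Pool.Agent.P.MP_788ef7_an.LiftS1
import Pool.Agent.P.MP_788ef7_an.LiftSA

set_option autoImplicit false
set_option linter.unusedSectionVars false

open Set Filter Topology Metric

namespace Pool.Agent.P.MP_788ef7_an

open Bundle
open scoped Manifold ContDiff

variable {EM : Type*} [NormedAddCommGroup EM] [NormedSpace ℝ EM] {HM : Type*} [TopologicalSpace HM]
  {I : ModelWithCorners ℝ EM HM} {M : Type*} [TopologicalSpace M] [ChartedSpace HM M]
  {X E W : Type*} [TopologicalSpace X] [NormedAddCommGroup E] [NormedSpace ℝ E]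
  [NormedAddCommGroup W] [NormedSpace ℝ W] [FiniteDimensional ℝ EM] [FiniteDimensional ℝ E]
  [FiniteDimensional ℝ W] [I.Boundaryless] [IsManifold I 1 M] {e : X → E} {q : E → M} {τ : E → W}

theorem iter_liftS {g : M → M} (hg : ContMDiff I I 1 g)
    {Pm : ∀ x : M, TangentSpace I x →L[ℝ] TangentSpace I x}
    (hc : ∀ x v, Pm (g x) (mfderiv I I g x v) = mfderiv I I g x (Pm x v)) (n : ℕ) :
    ContMDiff I I 1 g^[n] ∧
      ∀ x v, Pm (g^[n] x) (mfderiv I I g^[n] x v) = mfderiv I I g^[n] x (Pm x v) := by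
  induction n with
  | zero =>
    refine ⟨contMDiff_id, fun x v => ?_⟩
    show Pm x (mfderiv I I id x v) = mfderiv I I id x (Pm x v)
    rw [mfderiv_id]
    rfl
  | succ n ih =>
    rw [Function.iterate_succ']
    refine ⟨hg.comp ih.1, fun x v => ?_⟩
    have d1 := (hg (g^[n] x)).mdifferentiableAt one_ne_zero
    have d2 := (ih.1 x).mdifferentiableAt one_ne_zero
    rw [mfderiv_comp_apply x d1 d2, mfderiv_comp_apply x d1 d2, ← ih.2]
    exact hc _ _

theorem zpow_pos_liftS (f : M ≃ₘ^1⟮I, I⟯ M) (N n : ℕ) (y : M) :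
    ((f.toEquiv : Equiv.Perm M) ^ ((N : ℤ) * (n : ℤ))) y = f^[N * n] y := by
  rw [← Nat.cast_mul, zpow_natCast, Equiv.Perm.coe_pow]
  rfl

theorem zpow_neg_liftS (f : M ≃ₘ^1⟮I, I⟯ M) (N n : ℕ) (y : M) :
    ((f.toEquiv : Equiv.Perm M) ^ ((N : ℤ) * (-n : ℤ))) y = f.symm^[N * n] y := by
  rw [mul_neg, ← Nat.cast_mul, zpow_neg, zpow_natCast, ← inv_pow, Equiv.Perm.coe_pow]
  rfl

theorem zpow_liftS {f : M ≃ₘ^1⟮I, I⟯ M} {Pm : ∀ x : M, TangentSpace I x →L[ℝ] TangentSpace I x}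
    (hc : ∀ x v, Pm (f x) (mfderiv I I f x v) = mfderiv I I f x (Pm x v)) (N : ℕ) (k : ℤ) :
    ∃ g : M → M, ContMDiff I I 1 g ∧
      (∀ x v, Pm (g x) (mfderiv I I g x v) = mfderiv I I g x (Pm x v)) ∧
      ∀ y, ((f.toEquiv : Equiv.Perm M) ^ ((N : ℤ) * k)) y = g y := by
  obtain ⟨n, rfl | rfl⟩ := k.eq_nat_or_neg
  · exact ⟨_, (iter_liftS f.contMDiff hc (N * n)).1, (iter_liftS f.contMDiff hc (N * n)).2,
      zpow_pos_liftS f N n⟩
  · exact ⟨_, (iter_liftS f.symm.contMDiff (comm_symm_anoD hc) (N * n)).1,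
      (iter_liftS f.symm.contMDiff (comm_symm_anoD hc) (N * n)).2, zpow_neg_liftS f N n⟩

theorem rank_liftS {A : E →ₗ[ℝ] EM} {B : E →ₗ[ℝ] W} (hb : Function.Bijective fun v => (A v, B v))
    {Q : E →ₗ[ℝ] E} {P : EM →ₗ[ℝ] EM} (h₁ : ∀ v, A (Q v) = P (A v)) (h₂ : ∀ v, B (Q v) = 0) :
    Module.finrank ℝ (LinearMap.range Q) = Module.finrank ℝ (LinearMap.range P) := by
  have e1 : (LinearMap.range Q).map (A.prod B) =
      (LinearMap.range P).map (LinearMap.inl ℝ EM W) := by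
    ext w
    constructor
    · rintro ⟨_, ⟨v, rfl⟩, rfl⟩
      exact ⟨_, ⟨A v, rfl⟩, Prod.ext (h₁ v).symm (h₂ v).symm⟩
    · rintro ⟨_, ⟨u, rfl⟩, rfl⟩
      obtain ⟨v, hv⟩ := hb.2 (u, 0)
      exact ⟨_, ⟨v, rfl⟩, Prod.ext ((h₁ v).trans (congrArg P (congrArg Prod.fst hv))) (h₂ v)⟩
  rw [(Submodule.equivMapOfInjective (A.prod B) hb.1 _).finrank_eq, e1,
    ← (Submodule.equivMapOfInjective _ LinearMap.inl_injective _).finrank_eq]

theorem congr_liftS {ν : ∀ x : M, TangentSpace I x → ℝ} {a b : M} (hab : a = b) {v w : EM}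
    (hv : v = w) : ν a v = ν b w := by
  subst hab hv
  rfl

theorem congrP_liftS {Pm : ∀ x : M, TangentSpace I x →L[ℝ] TangentSpace I x} {a b : M}
    (hab : a = b) {v w : EM} (hv : v = w) : (Pm a v : EM) = Pm b w := by
  subst hab hv
  rfl

theorem bound_liftS {c C l a a' t t' n n' : ℝ} (hc : 0 < c) (hl : 0 ≤ l) (ha : 0 ≤ a) (ht : 0 ≤ t)
    (h1 : n' ≤ c * (a' + t')) (h2 : a + t ≤ c * n) (h3 : a' ≤ C * l * a) (h4 : t' ≤ l * t) :
    n' ≤ c * max C 1 * c * l * n := by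
  have m0 : 0 ≤ max C 1 := le_max_of_le_right zero_le_one
  have h5 : a' ≤ max C 1 * l * a := h3.trans (by gcongr; exact le_max_left _ _)
  have h6 : t' ≤ max C 1 * l * t := h4.trans (by
    rw [mul_assoc]
    exact le_mul_of_one_le_left (mul_nonneg hl ht) (le_max_right _ _))
  calc n' ≤ c * (max C 1 * l * (a + t)) := h1.trans (by rw [mul_add (max C 1 * l)]; gcongr)
    _ ≤ c * (max C 1 * l * (c * n)) := by gcongr
    _ = _ := by ring

/-- The hyperbolic structure lifts to the model. -/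
theorem Model.hypD [PreconnectedSpace X] (h : Model I e q τ) {f : M ≃ₘ^1⟮I, I⟯ M}
    {Pm : ∀ x : M, TangentSpace I x →L[ℝ] TangentSpace I x} {ν : ∀ x : M, TangentSpace I x → ℝ}
    {C lam : ℝ} (hf : AData I f Pm ν C lam) {N : ℕ} (hN : 1 ≤ N) (x₀ : X) :
    ∃ Q s lam', HypD e (Cov e q τ f.toEquiv N) Q (Module.finrank ℝ (LinearMap.range
      (Pm (q (e x₀)) : TangentSpace I (q (e x₀)) →ₗ[ℝ] TangentSpace I (q (e x₀))))) s lam' := by
  obtain ⟨Q, cQ, hQ⟩ := h.exists_Q hf.contP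
  have idem : ∀ x v, Q x (Q x v) = Q x v := fun x v => h.ext_liftS x
    (by rw [(hQ x _).1, (hQ x _).1, hf.idem]) ((hQ x _).2.trans (hQ x _).2.symm)
  have ru : ∀ x, Module.finrank ℝ (LinearMap.range (Q x : E →ₗ[ℝ] E)) =
      Module.finrank ℝ (LinearMap.range
        (Pm (q (e x₀)) : TangentSpace I (q (e x₀)) →ₗ[ℝ] TangentSpace I (q (e x₀)))) := fun x =>
    (rank_const cQ idem x x₀).trans (rank_liftS (EM := EM) (E := E) (W := W)
      (A := (mfderiv 𝓘(ℝ, E) I q (e x₀) : E →L[ℝ] EM).toLinearMap)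
      (B := (fderiv ℝ τ (e x₀)).toLinearMap) (h.bij x₀) (fun v => (hQ x₀ v).1)
      fun v => (hQ x₀ v).2)
  have l0 : 0 < max lam (1 / 2) := lt_max_of_lt_left hf.lam_pos
  have n0 : ∀ x v, 0 ≤ ν x v := fun x v => by
    rcases eq_or_ne v 0 with rfl | hv
    · have := hf.ν_smul x 0 0
      rw [zero_smul, abs_zero, zero_mul] at this
      exact this.ge
    · exact (hf.ν_pos x v hv).le
  refine ⟨Q, Module.finrank ℝ E - Module.finrank ℝ (LinearMap.range (Q x₀ : E →ₗ[ℝ] E)),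
    max lam (1 / 2), cQ, idem, ru, fun x => ?_, l0, max_lt hf.lam_lt (by norm_num),
    fun n k hk => ?_, fun n k hk x v => ?_, fun K hK => ?_⟩
  · rw [← LinearMap.finrank_range_add_finrank_ker (Q x : E →ₗ[ℝ] E), rank_const cQ idem x x₀,
      Nat.add_sub_cancel_left]
  · obtain ⟨g, hg, -, e1⟩ := zpow_liftS hf.comm N n
    exact h.c1 hg hk.cont (fun x => (hk.eq_q x).trans (e1 _)) hk.eq_τ
  · obtain ⟨g, hg, hc, e1⟩ := zpow_liftS hf.comm N n
    have e2 : ∀ x, q (e (k x)) = g (q (e x)) := fun x => (hk.eq_q x).trans (e1 _)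
    have d := h.fderiv_eq hg hk.cont e2 hk.eq_τ x
    refine h.ext_liftS (k x) ?_ ?_
    · exact (hQ _ _).1.trans ((congrP_liftS (EM := EM) (I := I) (Pm := Pm) (e2 x) (d v).1).trans ((hc _ _).trans
        ((congrArg (mfderiv I I g (q (e x))) (hQ x v).1.symm).trans (d _).1.symm)))
    · rw [(hQ _ _).2, (d _).2, (hQ _ _).2, smul_zero]
  · obtain ⟨c, c0, hc⟩ := h.norm_cmp hf.contν hf.ν_smul hf.ν_pos hK
    refine ⟨c * max C 1 * c, fun k g n hg x hx hx' v hv => ?_⟩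
    have p1 : C * lam ^ (N * n) ≤ C * max lam (1 / 2) ^ n :=
      mul_le_mul_of_nonneg_left ((pow_le_pow_of_le_one hf.lam_pos.le hf.lam_lt.le
        (Nat.le_mul_of_pos_left n hN)).trans
          (pow_le_pow_left₀ hf.lam_pos.le (le_max_left _ _) n)) hf.C_pos.le
    refine bound_liftS c0 (pow_nonneg l0.le n) (n0 _ _) (norm_nonneg _) (hc _ hx' _).1
      (hc _ hx v).2 ?_ ?_
    · refine le_trans ?_ (mul_le_mul_of_nonneg_right p1 (n0 _ _))
      rcases hv with ⟨rfl, hv⟩ | ⟨rfl, hv⟩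
      · have e2 : ∀ x, q (e (g x)) = f^[N * n] (q (e x)) := fun x =>
          (hg.eq_q x).trans (zpow_pos_liftS f N n _)
        have d := h.fderiv_eq (iter_liftS f.contMDiff hf.comm (N * n)).1 hg.cont e2 hg.eq_τ x v
        refine (congr_liftS (EM := EM) (I := I) (ν := ν) (e2 x) d.1).trans_le (hf.rate_s _ _ _ ?_)
        rw [← (hQ x v).1, hv]
        exact (mfderiv 𝓘(ℝ, E) I q (e x)).map_zero
      · have e2 : ∀ x, q (e (g x)) = f.symm^[N * n] (q (e x)) := fun x =>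
          (hg.eq_q x).trans (zpow_neg_liftS f N n _)
        have d := h.fderiv_eq (iter_liftS f.symm.contMDiff (comm_symm_anoD hf.comm) (N * n)).1
          hg.cont e2 hg.eq_τ x v
        refine (congr_liftS (EM := EM) (I := I) (ν := ν) (e2 x) d.1).trans_le (hf.rate_u _ _ _ ?_)
        rw [← (hQ x v).1, hv]
    · obtain ⟨g', hg', -, e1⟩ := zpow_liftS hf.comm N k
      rw [(h.fderiv_eq hg' hg.cont (fun x => (hg.eq_q x).trans (e1 _)) hg.eq_τ x v).2]
      rcases hv with ⟨rfl, hv⟩ | ⟨rfl, hv⟩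
      · rw [norm_smul, Real.norm_eq_abs, abs_of_pos (zpow_pos two_pos _), zpow_neg, zpow_natCast,
          ← inv_pow]
        gcongr
        exact le_max_of_le_right (by norm_num)
      · rw [← hv, (hQ x v).2, smul_zero, norm_zero, mul_zero]

end Pool.Agent.P.MP_788ef7_an
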