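import Pool.Agent.P.MP_788ef7_an.BuildH
import Pool.Agent.P.MP_788ef7_an.BuildT
import Pool.Agent.P.MP_788ef7_an.BuildS
import Pool.Agent.P.MP_788ef7_an.AnoD
import Pool.Agent.P.MP_788ef7_an.LiftS
import Pool.Agent.P.MP_788ef7_an.Deck

set_option autoImplicit false
set_option linter.unusedSectionVars false

open Set Filter Topology Metric

namespace Pool.Agent.P.MP_788ef7_an

theorem connected_cases : ConnectedSpace KD := by
  refine connectedSpace_iff_univ.2 ⟨univ_nonempty, ?_⟩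
  rw [← KD.isOpenEmbedding_val.isInducing.isPreconnected_image, image_univ, KD.range_val]
  exact (convex_ball _ _).isPreconnected

theorem sphere_cases : ConnectedSpace (sphere (0 : E3) 1) := by
  refine isConnected_iff_connectedSpace.1 (isConnected_sphere ?_ _ zero_le_one)
  rw [← Module.finrank_eq_rank, finrank_euclideanSpace_fin]
  norm_num

theorem Nrm₂.mul_cases {X Y : Type*} [MetricSpace X] [MetricSpace Y] {G G' : Equiv.Perm (X × Y)}
    {Γ : Subgroup (Y ≃ᵢ Y)} (h : Nrm₂ G Γ) (h' : Nrm₂ G' Γ) : Nrm₂ (G * G') Γ := by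
  intro γ hγ
  obtain ⟨δ, hδ, e⟩ := h' γ hγ
  obtain ⟨u, hu, e'⟩ := h δ hδ
  exact ⟨u, hu, fun x y => by rw [Equiv.Perm.mul_apply, e, e']; rfl⟩

theorem lift_cases {Y E : Type*} [TopologicalSpace Y] [NormedAddCommGroup E] [NormedSpace ℝ E]
    {e : Y → E} (he : IsOpenEmbedding e) (hc : TwoStar (ball (0 : ℂ) 1 ×ˢ range e)) :
    TwoSC (KD × Y) ∧ LocallyPathConnectedSpace (KD × Y) := by
  have h := KD.isOpenEmbedding_val.prodMap he
  refine ⟨twoSC_of_twoStar h ?_, h.locallyPathConnectedSpace⟩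
  rwa [range_prodMap, KD.range_val]

open Bundle
open scoped Manifold ContDiff UpperHalfPlane

variable {F S : Type*} [TopologicalSpace F] [CompactSpace F]
  [ChartedSpace (EuclideanSpace ℝ (Fin 2)) F] [IsManifold (𝓡 2) ∞ F]
  [TopologicalSpace S] [CompactSpace S]
  [ChartedSpace (EuclideanSpace ℝ (Fin 2)) S] [IsManifold (𝓡 2) ∞ S]
  {f : (F × S) ≃ₘ^1⟮(𝓡 2).prod (𝓡 2), (𝓡 2).prod (𝓡 2)⟯ (F × S)}
  {Pm : ∀ x : F × S, TangentSpace ((𝓡 2).prod (𝓡 2)) x →L[ℝ] TangentSpace ((𝓡 2).prod (𝓡 2)) x}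
  {ν : ∀ x : F × S, TangentSpace ((𝓡 2).prod (𝓡 2)) x → ℝ} {C lam : ℝ}

theorem klein_data (h : Lib.Unif.Unif1 ℍ ℂ F) : ∃ (p : KD → F) (q : ℂ → F), IsCoveringMap p ∧
    Function.Surjective p ∧ (∀ x y, p x = p y → ∃ γ : KD ≃ᵢ KD, (∀ z, p (γ z) = p z) ∧ γ x = y) ∧
    Model (𝓡 2) KD.val q (fun _ => (0 : Fin 0 → ℝ)) ∧ ∀ x : KD, q x.val = p x := by
  obtain ⟨q₀, hc, hs, hl, hj, ht⟩ := h
  obtain ⟨q, hm, hq⟩ := model_klein hl hj
  refine ⟨q₀ ∘ KD.isoH.toHomeomorph, q, hc.comp_homeomorph _, hs.comp KD.isoH.surjective,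
    fun x y hxy => ?_, hm, hq⟩
  obtain ⟨γ, h1, h2⟩ := ht _ _ hxy
  refine ⟨(KD.isoH.trans γ).trans KD.isoH.symm, fun z => ?_, ?_⟩
  · exact (congrArg q₀ (KD.isoH.apply_symm_apply _)).trans (h1 _)
  · exact (congrArg KD.isoH.symm h2).trans (KD.isoH.symm_apply_apply y)

theorem case_hh (hF : Lib.Unif.Unif1 ℍ ℂ F) (hS : Lib.Unif.Unif1 ℍ ℂ S)
    (h : AData ((𝓡 2).prod (𝓡 2)) f Pm ν C lam) : False := by
  have := connected_cases
  obtain ⟨p, q, hc, hs, ht, hm, hq⟩ := klein_data hF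
  obtain ⟨p', q', hc', hs', ht', hm', hq'⟩ := klein_data hS
  obtain ⟨tw, lp⟩ := lift_cases KD.isOpenEmbedding_val (by
    rw [KD.range_val]
    exact twoStar_of_convex (isOpen_ball.prod isOpen_ball)
      ((convex_ball _ _).prod (convex_ball _ _))
      ((nonempty_ball.2 one_pos).prod (nonempty_ball.2 one_pos)))
  obtain ⟨G, g1, g2, hG, n, n'⟩ := raw_lift hc hc' hs hs' ht ht'
    (fun _ _ _ a b => tw.lift (isCoveringMap_prodMap hc hc') a b) f.toEquiv f.continuous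
    f.symm.continuous
  have L := (deck_lat hc hs ht).sq
  have L' := (deck_lat hc' hs' ht').sq
  have a := L.alg fun _ => isOP_of_sq
  have a' := L'.alg fun _ => isOP_of_sq
  have b := n.sq.hh n'.sq a.1 a'.1 a.2 a'.2
  have b' := n'.sq.hh (by rw [inv_inv]; exact n.sq) a.1 a'.1 a.2 a'.2
  have m' := n'.sq.mul n'.sq
  rw [← mul_inv_rev] at b' m'
  have e : ∀ z, Prod.map q q' (Prod.map KD.val KD.val z) = Prod.map p p' z :=
    fun z => Prod.ext (hq _) (hq' _)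
  obtain ⟨Q, s, lam', hH⟩ := (hm.prod hm').hypD h (N := 2) one_le_two (KD.o, KD.o)
  refine false_hh (F := G * G) L L' (fun _ => isOP_of_sq) (fun _ => isOP_of_sq) (g1.comp g1) ?_
    (n.sq.mul n.sq) m' b.1 b'.1 b.2 b'.2 hH (fun z => ?_) fun γ hγ δ hδ x y => ?_
  · rw [mul_inv_rev]
    exact g2.comp g2
  · rw [e, e, sq]
    exact (hG _).trans (congrArg f.toEquiv (hG z))
  · exact Prod.ext ((hq _).trans ((sq_le _ hγ x).trans (hq _).symm))
      ((hq' _).trans ((sq_le _ hδ y).trans (hq' _).symm))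

theorem case_t (hF : Lib.Unif.Unif1 ℍ ℂ F) (hS : Lib.Unif.Unif1 ℂ ℂ S)
    (h : AData ((𝓡 2).prod (𝓡 2)) f Pm ν C lam) : False := by
  have := connected_cases
  obtain ⟨p, q, hc, hs, ht, hm, hq⟩ := klein_data hF
  obtain ⟨p', hc', hs', hl', hj', ht'⟩ := hS
  obtain ⟨tw, lp⟩ := lift_cases (IsOpenEmbedding.id (X := ℂ)) (by
    rw [range_id]
    exact twoStar_of_convex (isOpen_ball.prod isOpen_univ) ((convex_ball _ _).prod convex_univ)
      ((nonempty_ball.2 one_pos).prod univ_nonempty))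
  obtain ⟨G, g1, g2, hG, n, n'⟩ := raw_lift hc hc' hs hs' ht ht'
    (fun _ _ _ a b => tw.lift (isCoveringMap_prodMap hc hc') a b) f.toEquiv f.continuous
    f.symm.continuous
  have L := (deck_lat hc hs ht).sq
  have L₀ := deck_lat hc' hs' ht'
  have L' := L₀.sq
  have o : ∀ γ ∈ Sq (deck p'), ∀ y, γ y = y + γ 0 := fun _ => L₀.sq_plane
  obtain ⟨⟨u, hu, v, hv, huv⟩, a⟩ := L.alg fun _ => isOP_of_sq
  have hA : ∀ γ ∈ Sq (deck p), (∀ δ ∈ Sq (deck p), γ * δ = δ * γ) → γ = 1 := fun γ hγ hz => by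
    by_contra h1
    exact huv (a γ hγ h1 u hu v hv (hz u hu).symm (hz v hv).symm)
  have hB : ∀ γ ∈ Sq (deck p'), ∀ δ ∈ Sq (deck p'), γ * δ = δ * γ := fun γ hγ δ hδ => by
    ext y
    rw [IsometryEquiv.mul_apply, IsometryEquiv.mul_apply, o γ hγ, o δ hδ (γ y), o δ hδ y, o γ hγ y]
    ring
  have b := n.sq.centre n'.sq hA hB
  have b' := n'.sq.centre (by rw [inv_inv]; exact n.sq) hA hB
  obtain ⟨B, τ, t1, t2, t3, t4⟩ := exists_B L' o b b'
  have m' := n'.sq.mul n'.sq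
  have c' := b'.mul_cases b'
  rw [← mul_inv_rev] at c' m'
  have e : ∀ z, Prod.map q p' (Prod.map KD.val id z) = Prod.map p p' z :=
    fun z => Prod.ext (hq _) rfl
  obtain ⟨Q, s, lam', hH⟩ := (hm.prod (model_plane hl' hj')).hypD h (N := 2) one_le_two (KD.o, 0)
  refine false_t (F := G * G) L L' (fun _ => isOP_of_sq) o (g1.comp g1) ?_ (n.sq.mul n.sq) m'
    (b.mul_cases b)
    c' t1 t2 t3 t4 hH (fun z => ?_) fun γ hγ δ hδ x y => ?_
  · rw [mul_inv_rev]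
    exact g2.comp g2
  · rw [e, e, sq]
    exact (hG _).trans (congrArg f.toEquiv (hG z))
  · exact Prod.ext ((hq _).trans ((sq_le _ hγ x).trans (hq _).symm)) (sq_le _ hδ y)

theorem case_s (hF : Lib.Unif.Unif1 ℍ ℂ F)
    (hS : Lib.Unif.Unif1 (sphere (0 : E3) 1) (EuclideanSpace ℝ (Fin 2)) S)
    (h : AData ((𝓡 2).prod (𝓡 2)) f Pm ν C lam) : False := by
  have := connected_cases
  have := sphere_cases
  obtain ⟨p, q, hc, hs, ht, hm, hq⟩ := klein_data hF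
  obtain ⟨p', hc', hs', hl', hj', ht'⟩ := hS
  obtain ⟨q', hm', hq'⟩ := model_sphere hl' hj'
  obtain ⟨tw, lp⟩ := lift_cases isOpenEmbedding_polar (by
    rw [range_polar]
    exact twoStar_punctured)
  have L := (deck_lat hc hs ht).sq
  have L' := (deck_lat hc' hs' ht').sq_sphere
  obtain ⟨x₀⟩ : Nonempty (KD × sphere (0 : E3) 1 × ℝ) := inferInstance
  have key : ∀ f Pm, AData ((𝓡 2).prod (𝓡 2)) f Pm ν C lam → ∀ w, w = Prod.map q q'
      (Prod.map KD.val (fun p : sphere (0 : E3) 1 × ℝ => Real.exp p.2 • (p.1 : E3)) x₀) →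
      Module.finrank ℝ (LinearMap.range (Pm w : TangentSpace ((𝓡 2).prod (𝓡 2)) w →ₗ[ℝ]
        TangentSpace ((𝓡 2).prod (𝓡 2)) w)) < 2 := by
    rintro f Pm h _ rfl
    by_contra hu
    obtain ⟨G, g1, g2, hG, n, n'⟩ := raw_lift hc hc' hs hs' ht ht'
      (fun _ _ _ a b => tw.lift_retract (i := fun z => (z.1, z.2, 0)) (r := fun z => (z.1, z.2.1))
        (by fun_prop) (by fun_prop) (fun _ => rfl) (isCoveringMap_prodMap hc hc') a b) f.toEquiv
      f.continuous f.symm.continuous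
    obtain ⟨Q, s, lam', hH⟩ := (hm.prod hm').hypD h (N := 1) le_rfl x₀
    exact false_s (p := Prod.map p p') L (fun _ => isOP_of_sq) g1 g2 (L' ▸ n.sq) (L' ▸ n'.sq) rfl hH
      (not_lt.1 hu) (fun x y r => Prod.ext (hq _) (hq' (y, r))) hG
      fun γ hγ x y => Prod.ext (sq_le _ hγ x) rfl
  have h1 := key _ _ h _ rfl
  have h2 := key _ _ h.symm _ rfl
  have h3 := (Nat.add_lt_add h1 h2).trans_eq' (h.rank_add _)
  simp at h3

end Pool.Agent.P.MP_788ef7_an
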