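import Pool.Agent.P.MP_788ef7_an.Attr

set_option autoImplicit false

open Set Filter Topology Metric

namespace Pool.Agent.P.MP_788ef7_an

namespace Fuchs

variable {𝔊 : Type*} [Group 𝔊] [MulAction 𝔊 Circle] {Φ : Fuchs 𝔊} {g g' γ δ u u' G g₀ : 𝔊}
  {H : Subgroup 𝔊} {ξ η ζ a b c d p q a₁ a₂ r₁ r₂ a₁' a₂' r₁' r₂' : Circle} {k : ℕ} {T : Set 𝔊}

theorem ht_conj_classes (u g : 𝔊) : Φ.ht (u * g * u⁻¹) = Φ.ht g := by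
  rw [Φ.ht_mul, Φ.ht_mul, Φ.toPreFuchs.ht_inv]
  omega

theorem NR.conj (h : Φ.NR k g) (u : 𝔊) : Φ.NR k (u * g * u⁻¹) := by
  obtain ⟨h1, h2, h3, h4⟩ := h
  refine ⟨(ht_conj_classes u g).trans h1, h2.conj Φ.cont u, h3.conj u, fun hr => h4 ?_⟩
  have := hr.conj u⁻¹
  have e : u⁻¹ * (u * g * u⁻¹) * u⁻¹⁻¹ = g := by group
  rwa [e] at this

theorem Nb.symm (h : Φ.Nb k g g') : Φ.Nb k g' g := by
  obtain ⟨h1, h2, δ, h3, h4, h5⟩ := h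
  exact ⟨h2, h1, δ, h3, h5, h4⟩

theorem cen_conj_classes (h : δ ∈ Φ.Cen g) (u : 𝔊) : u * δ * u⁻¹ ∈ Φ.Cen (u * g * u⁻¹) := by
  obtain ⟨h1, h2⟩ := h
  refine ⟨(ht_conj_classes u δ).trans h1, ?_⟩
  calc u * δ * u⁻¹ * (u * g * u⁻¹) = u * (δ * g) * u⁻¹ := by group
    _ = u * (g * δ) * u⁻¹ := by rw [h2]
    _ = u * g * u⁻¹ * (u * δ * u⁻¹) := by group

theorem Nb.conj (h : Φ.Nb k g g') (u : 𝔊) : Φ.Nb k (u * g * u⁻¹) (u * g' * u⁻¹) := by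
  obtain ⟨h1, h2, δ, h3, h4, h5⟩ := h
  refine ⟨h1.conj u, h2.conj u, u * δ * u⁻¹, fun e => h3 ?_, cen_conj_classes h4 u,
    cen_conj_classes h5 u⟩
  calc δ = u⁻¹ * (u * δ * u⁻¹) * u := by group
    _ = 1 := by rw [e]; group

theorem cpt_nr (h₀ : Φ.NR k g₀) (h : g ∈ Φ.Cpt k g₀) : Φ.NR k g := by
  have h' : Relation.ReflTransGen (Φ.Nb k) g₀ g := h
  induction h' with
  | refl => exact h₀
  | tail _ hb _ => exact hb.2.1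

theorem cpt_self_classes (Φ : Fuchs 𝔊) (k : ℕ) (g₀ : 𝔊) : g₀ ∈ Φ.Cpt k g₀ :=
  Relation.ReflTransGen.refl

theorem cpt_symm_classes (h : g ∈ Φ.Cpt k g₀) : g₀ ∈ Φ.Cpt k g := by
  have h' : Relation.ReflTransGen (Φ.Nb k) g₀ g := h
  show Relation.ReflTransGen (Φ.Nb k) g g₀
  clear h
  induction h' with
  | refl => exact Relation.ReflTransGen.refl
  | tail _ hb ih => exact Relation.ReflTransGen.head hb.symm ih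

theorem cpt_trans_classes (h : g ∈ Φ.Cpt k g₀) (h' : g' ∈ Φ.Cpt k g) : g' ∈ Φ.Cpt k g₀ :=
  Relation.ReflTransGen.trans h h'

theorem cpt_eq (h : g ∈ Φ.Cpt k g₀) : Φ.Cpt k g = Φ.Cpt k g₀ :=
  Set.Subset.antisymm (fun _ hx => cpt_trans_classes h hx)
    fun _ hx => cpt_trans_classes (cpt_symm_classes h) hx

theorem cpt_map_classes (h : g ∈ Φ.Cpt k g₀) (u : 𝔊) : u * g * u⁻¹ ∈ Φ.Cpt k (u * g₀ * u⁻¹) := by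
  have h' : Relation.ReflTransGen (Φ.Nb k) g₀ g := h
  show Relation.ReflTransGen (Φ.Nb k) (u * g₀ * u⁻¹) (u * g * u⁻¹)
  clear h
  induction h' with
  | refl => exact Relation.ReflTransGen.refl
  | tail _ hb ih => exact ih.tail (hb.conj u)

theorem cpt_conj (h : g ∈ Φ.Cpt k g₀) (hu : u * g₀ * u⁻¹ ∈ Φ.Cpt k g₀) :
    u * g * u⁻¹ ∈ Φ.Cpt k g₀ := cpt_trans_classes hu (cpt_map_classes h u)

theorem cpt_cen_ne_bot (h₀ : Φ.Cen g₀ ≠ ⊥) (h : g ∈ Φ.Cpt k g₀) : Φ.Cen g ≠ ⊥ := by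
  have h' : Relation.ReflTransGen (Φ.Nb k) g₀ g := h
  clear h
  induction h' with
  | refl => exact h₀
  | tail _ hb _ =>
    obtain ⟨_, _, δ, h1, _, h3⟩ := hb
    intro e
    rw [e] at h3
    exact h1 (Subgroup.mem_bot.1 h3)

theorem exists_isStab (Φ : Fuchs 𝔊) (k : ℕ) (g₀ : 𝔊) : ∃ H, Φ.IsStab k g₀ H := by
  refine ⟨{ carrier := {γ | Φ.ht γ = 0 ∧ γ * g₀ * γ⁻¹ ∈ Φ.Cpt k g₀}
            one_mem' := ⟨Φ.toPreFuchs.ht_one, ?_⟩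
            mul_mem' := fun {x y} hx hy => ⟨?_, ?_⟩
            inv_mem' := fun {x} hx => ⟨?_, ?_⟩ }, fun γ => Iff.rfl⟩
  · rw [Φ.ht_mul, hx.1, hy.1]; rfl
  · have := cpt_conj hy.2 hx.2
    have e : x * (y * g₀ * y⁻¹) * x⁻¹ = x * y * g₀ * (x * y)⁻¹ := by group
    rwa [e] at this
  · have e : 1 * g₀ * 1⁻¹ = g₀ := by group
    rw [e]
    exact cpt_self_classes Φ k g₀
  · rw [Φ.toPreFuchs.ht_inv, hx.1]; rfl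
  · have := cpt_map_classes hx.2 x⁻¹
    have e : x⁻¹ * (x * g₀ * x⁻¹) * x⁻¹⁻¹ = g₀ := by group
    rw [e] at this
    exact cpt_symm_classes this

theorem IsStab.conj_mem (hH : Φ.IsStab k g₀ H) (hγ : γ ∈ H) (h : g ∈ Φ.Cpt k g₀) :
    γ * g * γ⁻¹ ∈ Φ.Cpt k g₀ := cpt_conj h ((hH γ).1 hγ).2

theorem IsStab.mem_classes (hH : Φ.IsStab k g₀ H) (h0 : Φ.ht γ = 0) (h : g ∈ Φ.Cpt k g₀)
    (h' : γ * g * γ⁻¹ ∈ Φ.Cpt k g₀) : γ ∈ H := by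
  refine (hH γ).2 ⟨h0, ?_⟩
  exact cpt_trans_classes h' (cpt_map_classes (cpt_symm_classes h) γ)

theorem IsStab.cen_le (hH : Φ.IsStab k g₀ H) (h : g ∈ Φ.Cpt k g₀) : Φ.Cen g ≤ H := by
  intro γ hγ
  obtain ⟨h1, h2⟩ := hγ
  refine hH.mem_classes h1 h ?_
  rw [h2, mul_inv_cancel_right]
  exact h

theorem IsStab.norm (hH : Φ.IsStab k g₀ H) (h : 𝔊) : h ∈ H ↔ g₀ * h * g₀⁻¹ ∈ H := by
  rw [hH h, hH (g₀ * h * g₀⁻¹), ht_conj_classes]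
  refine and_congr_right fun _ => ⟨fun hc => ?_, fun hc => ?_⟩
  · have := cpt_conj (u := g₀) hc (by rw [mul_inv_cancel_right]; exact cpt_self_classes Φ k g₀)
    have e : g₀ * (h * g₀ * h⁻¹) * g₀⁻¹ = g₀ * h * g₀⁻¹ * g₀ * (g₀ * h * g₀⁻¹)⁻¹ := by group
    rwa [e] at this
  · have e₀ : g₀⁻¹ * g₀ * g₀⁻¹⁻¹ = g₀ := by group
    have := cpt_conj (u := g₀⁻¹) hc (by rw [e₀]; exact cpt_self_classes Φ k g₀)
    have e : g₀⁻¹ * (g₀ * h * g₀⁻¹ * g₀ * (g₀ * h * g₀⁻¹)⁻¹) * g₀⁻¹⁻¹ = h * g₀ * h⁻¹ := by group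
    rwa [e] at this

theorem Nb.mul_inv_classes (h : Φ.Nb k g g') : g' * g⁻¹ ∈ Φ.Cen g := by
  obtain ⟨h1, h2, δ, h3, h4, h5⟩ := h
  by_cases hv : g' * g⁻¹ = 1
  · rw [hv]; exact Subgroup.one_mem _
  obtain ⟨a, b, hab⟩ := exists_ax h4.1 h3
  have ha : g • a = a := (hab.fix_of_comm h4.2).1
  have ha' : g' • a = a := (hab.fix_of_comm h5.2).1
  have h0 : Φ.ht (g' * g⁻¹) = 0 := by
    rw [Φ.ht_mul, Φ.toPreFuchs.ht_inv, h1.1, h2.1]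
    omega
  have hf : (g' * g⁻¹) • a = a := by
    rw [mul_smul, inv_smul_eq_iff.2 ha.symm, ha']
  exact ⟨h0, comm_of_fix_end h0 hv hf ha⟩

theorem cpt_mul_inv_mem (h₀ : Φ.NR k g₀) (hk : 1 ≤ k) (h : g ∈ Φ.Cpt k g₀) :
    g * g₀⁻¹ ∈ Subgroup.closure (⋃ g' ∈ Φ.Cpt k g₀, (Φ.Cen g' : Set 𝔊)) := by
  have h' : Relation.ReflTransGen (Φ.Nb k) g₀ g := h
  clear h
  induction h' with
  | refl => rw [mul_inv_cancel]; exact Subgroup.one_mem _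
  | @tail x y hx hb ih =>
    have e : y * g₀⁻¹ = y * x⁻¹ * (x * g₀⁻¹) := by group
    rw [e]
    refine Subgroup.mul_mem _ (Subgroup.subset_closure ?_) ih
    exact mem_biUnion (show x ∈ Φ.Cpt k g₀ from hx) hb.mul_inv_classes

theorem IsStab.closure_le_classes (hH : Φ.IsStab k g₀ H) :
    Subgroup.closure (⋃ g' ∈ Φ.Cpt k g₀, (Φ.Cen g' : Set 𝔊)) ≤ H :=
  (Subgroup.closure_le _).2 (iUnion₂_subset fun _ hg => hH.cen_le hg)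

theorem IsStab.mul_inv_mem (hH : Φ.IsStab k g₀ H) (h₀ : Φ.NR k g₀) (hk : 1 ≤ k)
    (h : g ∈ Φ.Cpt k g₀) : g * g₀⁻¹ ∈ H := hH.closure_le_classes (cpt_mul_inv_mem h₀ hk h)

theorem IsStab.finite (hH : Φ.IsStab k g₀ H) (hT : Φ.Classes k T) (h₀ : Φ.NR k g₀) :
    ∃ T' : Set 𝔊, T'.Finite ∧ T' ⊆ Φ.Cpt k g₀ ∧
      ∀ g ∈ Φ.Cpt k g₀, ∃ E ∈ T', ∃ h ∈ H, g = h * E * h⁻¹ := by
  have hch : ∀ E : 𝔊, ∃ x ∈ Φ.Cpt k g₀, (∃ y ∈ Φ.Cpt k g₀, ∃ γ, Φ.ht γ = 0 ∧ y = γ * E * γ⁻¹) →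
      ∃ γ, Φ.ht γ = 0 ∧ x = γ * E * γ⁻¹ := by
    intro E
    by_cases hE : ∃ y ∈ Φ.Cpt k g₀, ∃ γ, Φ.ht γ = 0 ∧ y = γ * E * γ⁻¹
    · obtain ⟨y, hy, hγ⟩ := hE
      exact ⟨y, hy, fun _ => hγ⟩
    · exact ⟨g₀, cpt_self_classes Φ k g₀, fun h => (hE h).elim⟩
  choose f hf hf' using hch
  refine ⟨f '' T, hT.fin.image f, ?_, fun g hg => ?_⟩
  · rintro _ ⟨E, _, rfl⟩
    exact hf E
  · obtain ⟨E, hE, γ, hγ, e⟩ := hT.conj g (cpt_nr h₀ hg)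
    obtain ⟨γ', hγ', e'⟩ := hf' E ⟨g, hg, γ, hγ, e⟩
    have e₂ : g = γ * γ'⁻¹ * f E * (γ * γ'⁻¹)⁻¹ := by
      rw [e', e]; group
    refine ⟨f E, mem_image_of_mem f hE, γ * γ'⁻¹, ?_, e₂⟩
    refine hH.mem_classes ?_ (hf E) (e₂ ▸ hg)
    rw [Φ.ht_mul, Φ.toPreFuchs.ht_inv, hγ, hγ']
    rfl

theorem IsStab.uni (hH : Φ.IsStab k g₀ H) (h₀ : Φ.NR k g₀) (hk : 1 ≤ k) (θ : 𝔊 → ℂ)
    (hθ : ∀ a ∈ H, ∀ b ∈ H, θ (a * b) = θ a + θ b) (hγ : γ ∈ H) :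
    θ (g₀ ^ 2 * γ * (g₀ ^ 2)⁻¹) - θ (g₀ * γ * g₀⁻¹) = θ (g₀ * γ * g₀⁻¹) - θ γ := by
  have h1 : θ 1 = 0 := by
    have := hθ 1 H.one_mem 1 H.one_mem
    rw [one_mul] at this
    linear_combination -this
  have hinv : ∀ x ∈ H, θ x⁻¹ = -θ x := fun x hx => by
    have := hθ x hx x⁻¹ (H.inv_mem hx)
    rw [mul_inv_cancel, h1] at this
    linear_combination -this
  have hK : ∀ x ∈ Subgroup.closure (⋃ g' ∈ Φ.Cpt k g₀, (Φ.Cen g' : Set 𝔊)),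
      θ (g₀ * x * g₀⁻¹) = θ x := by
    intro x hx
    induction hx using Subgroup.closure_induction with
    | mem y hy =>
      obtain ⟨g', hg', hy'⟩ := mem_iUnion₂.1 hy
      have hv : g' * g₀⁻¹ ∈ H := hH.mul_inv_mem h₀ hk hg'
      have hyH : y ∈ H := hH.cen_le hg' hy'
      have hc : y * g' = g' * y := hy'.2
      have e : g₀ * y * g₀⁻¹ = (g' * g₀⁻¹)⁻¹ * (y * (g' * g₀⁻¹)) := by
        calc g₀ * y * g₀⁻¹ = g₀ * g'⁻¹ * (g' * y) * g₀⁻¹ := by group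
          _ = g₀ * g'⁻¹ * (y * g') * g₀⁻¹ := by rw [hc]
          _ = _ := by group
      rw [e, hθ _ (H.inv_mem hv) _ (H.mul_mem hyH hv), hθ _ hyH _ hv, hinv _ hv]
      ring
    | one => rw [mul_one, mul_inv_cancel]
    | mul y z hy hz ihy ihz =>
      have hy' := hH.closure_le_classes hy
      have hz' := hH.closure_le_classes hz
      have e : g₀ * (y * z) * g₀⁻¹ = g₀ * y * g₀⁻¹ * (g₀ * z * g₀⁻¹) := by group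
      rw [e, hθ _ ((hH.norm y).1 hy') _ ((hH.norm z).1 hz'), hθ _ hy' _ hz', ihy, ihz]
    | inv y hy ihy =>
      have hy' := hH.closure_le_classes hy
      have e : g₀ * y⁻¹ * g₀⁻¹ = (g₀ * y * g₀⁻¹)⁻¹ := by group
      rw [e, hinv _ ((hH.norm y).1 hy'), hinv _ hy', ihy]
  have hw := Subgroup.inv_mem _ (cpt_mul_inv_mem h₀ hk ((hH γ).1 hγ).2)
  have hwH := hH.closure_le_classes hw
  have hα : g₀ * γ * g₀⁻¹ ∈ H := (hH.norm γ).1 hγ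
  have e₁ : g₀ * γ * g₀⁻¹ = (γ * g₀ * γ⁻¹ * g₀⁻¹)⁻¹ * γ := by group
  have e₂ : g₀ ^ 2 * γ * (g₀ ^ 2)⁻¹ =
      g₀ * (γ * g₀ * γ⁻¹ * g₀⁻¹)⁻¹ * g₀⁻¹ * (g₀ * γ * g₀⁻¹) := by
    rw [pow_two]; group
  have t₁ : θ (g₀ * γ * g₀⁻¹) = θ (γ * g₀ * γ⁻¹ * g₀⁻¹)⁻¹ + θ γ := by
    rw [← hθ _ hwH _ hγ, ← e₁]
  rw [e₂, hθ _ ((hH.norm _).1 hwH) _ hα, hK _ hw]
  linear_combination -t₁

end Fuchs

end Pool.Agent.P.MP_788ef7_an
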