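import Pool.Agent.P.MP_788ef7_an.NC

set_option autoImplicit false

open Set Filter Topology Metric

namespace Pool.Agent.P.MP_788ef7_an

namespace Fuchs

variable {𝔊 : Type*} [Group 𝔊] [MulAction 𝔊 Circle] {Φ : Fuchs 𝔊} {g g' γ δ u u' G g₀ : 𝔊}
  {H : Subgroup 𝔊} {ξ η ζ a b c d p q a₁ a₂ r₁ r₂ a₁' a₂' r₁' r₂' : Circle} {k : ℕ} {T : Set 𝔊}

private theorem arc_ne_cls1 (h : Cyc a b c) (h1 : ξ ∈ arc a b) (h2 : η ∈ arc b c) : ξ ≠ η := by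
  rintro rfl
  exact (Cyc.trans' h1 h).asymm (Cyc.rot (Cyc.rot h2))

private theorem three_att_cls1 (hg : Stable g) (ha : Φ.Att g a) (hb : Φ.Att g b) (hc : Φ.Att g c)
    (h : Cyc a b c) :
    ∃ a ∈ Φ.RSet g, ∃ b ∈ Φ.RSet g, ∃ c ∈ Φ.RSet g, a ≠ b ∧ b ≠ c ∧ a ≠ c := by
  obtain ⟨x, hx, hx'⟩ := alt_att hg ha hb h.ne₁₂
  obtain ⟨y, hy, hy'⟩ := alt_att hg hb hc h.ne₂₃
  obtain ⟨z, hz, hz'⟩ := alt_att hg hc ha h.ne₁₃.symm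
  exact ⟨x, hx', y, hy', z, hz', arc_ne_cls1 h hx hy, arc_ne_cls1 h.rot hy hz,
    (arc_ne_cls1 h.rot.rot hz hx).symm⟩

private theorem two_att_cls1 (hg : Stable g) (hc : Φ.Cen g = ⊥) (ha : Φ.Att g a) (hb : Φ.Att g b)
    (h : a ≠ b) : ∃ x y, Φ.Att g⁻¹ x ∧ Φ.Att g⁻¹ y ∧ x ≠ y := by
  obtain ⟨x, hx, hx'⟩ := alt_att hg ha hb h
  obtain ⟨y, hy, hy'⟩ := alt_att hg hb ha h.symm
  have key : ∀ z ∈ Φ.RSet g, Φ.Att g⁻¹ z := by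
    intro z hz
    rcases hz with hz | hz
    · rw [hc, Φ.lim_bot] at hz
      exact hz.elim
    · exact hz
  refine ⟨x, y, key x hx', key y hy', ?_⟩
  rintro rfl
  exact Set.disjoint_left.1 (disjoint_arc a b) hx hy

private theorem inner_cls1 (hg : Stable g) (hδ : δ ∈ Φ.Cen g) (hp : δ • p = p) (hq : δ • q = q)
    (hξ : ξ ∈ arc p q) (hne : δ • ξ ≠ ξ) (ha : Φ.Att g ξ) : ∃ η ∈ arc p q, η ∈ Φ.RSet g := by
  have h1 : δ • ξ ∈ arc p q := by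
    have := (Φ.op_of_ht (Φ.mem_cen.1 hδ).1).stay hp hq hξ 1
    rwa [zpow_one] at this
  have hb := ha.smul_cen hδ
  rcases arc_subset_of_mem (subset_closure hξ) (subset_closure h1) hne.symm with h | h
  · obtain ⟨x, hx, hx'⟩ := alt_att hg ha hb hne.symm
    exact ⟨x, h hx, hx'⟩
  · obtain ⟨x, hx, hx'⟩ := alt_att hg hb ha hne
    exact ⟨x, h hx, hx'⟩

theorem rset_three (hg : Stable g) (he : Ess g) (hr : ¬ Φ.Regular g) :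
    ∃ a ∈ Φ.RSet g, ∃ b ∈ Φ.RSet g, ∃ c ∈ Φ.RSet g, a ≠ b ∧ b ≠ c ∧ a ≠ c := by
  obtain ⟨a, ha, b, hb, c, hc, hab, hbc, hac⟩ := he
  by_cases hC : Φ.Cen g = ⊥
  · by_contra hn
    have hor : ∀ ξ, g • ξ = ξ → Φ.Att g ξ ∨ Φ.Att g⁻¹ ξ := fun ξ h =>
      att_or h (by rw [hC, Φ.lim_bot]; exact Set.notMem_empty _)
    have hC' : Φ.Cen g⁻¹ = ⊥ := by rw [Φ.cen_inv, hC]
    have both : (∃ x y, Φ.Att g x ∧ Φ.Att g y ∧ x ≠ y) ∧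
        ∃ x y, Φ.Att g⁻¹ x ∧ Φ.Att g⁻¹ y ∧ x ≠ y := by
      have h1 : (∃ x y, Φ.Att g x ∧ Φ.Att g y ∧ x ≠ y) ∨
          ∃ x y, Φ.Att g⁻¹ x ∧ Φ.Att g⁻¹ y ∧ x ≠ y := by
        rcases hor a ha with h1 | h1 <;> rcases hor b hb with h2 | h2 <;>
          rcases hor c hc with h3 | h3
        · exact Or.inl ⟨a, b, h1, h2, hab⟩
        · exact Or.inl ⟨a, b, h1, h2, hab⟩
        · exact Or.inl ⟨a, c, h1, h3, hac⟩
        · exact Or.inr ⟨b, c, h2, h3, hbc⟩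
        · exact Or.inl ⟨b, c, h2, h3, hbc⟩
        · exact Or.inr ⟨a, c, h1, h3, hac⟩
        · exact Or.inr ⟨a, b, h1, h2, hab⟩
        · exact Or.inr ⟨a, b, h1, h2, hab⟩
      rcases h1 with ⟨x, y, hx, hy, hxy⟩ | ⟨x, y, hx, hy, hxy⟩
      · exact ⟨⟨x, y, hx, hy, hxy⟩, two_att_cls1 hg hC hx hy hxy⟩
      · refine ⟨?_, ⟨x, y, hx, hy, hxy⟩⟩
        have := two_att_cls1 hg.inv hC' hx hy hxy
        rwa [_root_.inv_inv] at this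
    obtain ⟨⟨x, y, hx, hy, hxy⟩, ⟨z, w, hz, hw, hzw⟩⟩ := both
    refine hr ⟨x, y, z, w, hg.1, hC, fun ξ hξ => ?_, hx, hy, hz, hw, hxy, hzw⟩
    by_contra hcon
    simp only [not_or] at hcon
    obtain ⟨n1, n2, n3, n4⟩ := hcon
    rcases hor ξ hξ with h | h
    · rcases cyc_total hxy (Ne.symm n2) (Ne.symm n1) with h' | h'
      · exact hn (three_att_cls1 hg hx hy h h')
      · exact hn (three_att_cls1 hg h hy hx h')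
    · exact hn ⟨z, Or.inr hz, w, Or.inr hw, ξ, Or.inr h, hzw, Ne.symm n4, Ne.symm n3⟩
  · obtain ⟨⟨δ, hδ⟩, h1⟩ := Subgroup.ne_bot_iff_exists_ne_one.1 hC
    have h1' : δ ≠ 1 := fun h => h1 (Subtype.ext h)
    obtain ⟨p, q, hax⟩ := exists_ax (Φ.mem_cen.1 hδ).1 h1'
    have hp : p ∈ Φ.RSet g := Or.inl (hax.mem_lim hδ).1
    have hq : q ∈ Φ.RSet g := Or.inl (hax.mem_lim hδ).2
    obtain ⟨ξ, hξ, hξp, hξq⟩ : ∃ ξ ∈ Fix g, ξ ≠ p ∧ ξ ≠ q := by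
      by_cases a1 : a = p
      · by_cases b1 : b = q
        · exact ⟨c, hc, a1 ▸ hac.symm, b1 ▸ hbc.symm⟩
        · exact ⟨b, hb, a1 ▸ hab.symm, b1⟩
      · by_cases a2 : a = q
        · by_cases b1 : b = p
          · exact ⟨c, hc, b1 ▸ hbc.symm, a2 ▸ hac.symm⟩
          · exact ⟨b, hb, b1, a2 ▸ hab.symm⟩
        · exact ⟨a, ha, a1, a2⟩
    rcases fix_subset (Φ := Φ) hξ with h | h
    · exact ⟨p, hp, q, hq, ξ, h, hax.ne, hξq.symm, hξp.symm⟩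
    · have hne : δ • ξ ≠ ξ := fun e => (hax.fix e).elim hξp hξq
      rcases arc_trichotomy hax.ne ξ with e | e | e | e
      · exact (hξp e).elim
      · exact (hξq e).elim
      · obtain ⟨η, h2, h3⟩ := inner_cls1 hg hδ hax.fa hax.fb e hne h
        exact ⟨p, hp, q, hq, η, h3, hax.ne, (Cyc.ne₂₃ h2).symm, Cyc.ne₁₂ h2⟩
      · obtain ⟨η, h2, h3⟩ := inner_cls1 hg hδ hax.fb hax.fa e hne h
        exact ⟨p, hp, q, hq, η, h3, hax.ne, Cyc.ne₁₂ h2, (Cyc.ne₂₃ h2).symm⟩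

theorem fix_eq_of_three (hg : Stable g) (hg' : Stable g') (h0 : Φ.ht g ≠ 0) (h0' : Φ.ht g' ≠ 0)
    (ha : a ∈ Fix g ∩ Fix g') (hb : b ∈ Fix g ∩ Fix g') (hc : c ∈ Fix g ∩ Fix g') (hab : a ≠ b)
    (hbc : b ≠ c) (hac : a ≠ c) : Fix g = Fix g' := by
  have key : ∀ ξ ∈ Fix g ∩ Fix g', ξ ∈ Fix (g ^ Φ.ht g' * (g' ^ Φ.ht g)⁻¹) := by
    intro ξ h
    have h1 : ξ ∈ Fix (g ^ Φ.ht g') := by rw [hg.fix_zpow h0']; exact h.1
    have h2 : ξ ∈ Fix (g' ^ Φ.ht g)⁻¹ := by rw [fix_inv, hg'.fix_zpow h0]; exact h.2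
    show (g ^ Φ.ht g' * (g' ^ Φ.ht g)⁻¹) • ξ = ξ
    rw [mul_smul, h2, h1]
  have h1 : g ^ Φ.ht g' * (g' ^ Φ.ht g)⁻¹ = 1 := by
    refine eq_one_of_three (Φ := Φ) ?_ ⟨a, key a ha, b, key b hb, c, key c hc, hab, hbc, hac⟩
    rw [Φ.ht_mul, Φ.ht_inv, Φ.ht_zpow, Φ.ht_zpow]
    ring
  rw [← hg.fix_zpow h0', ← hg'.fix_zpow h0, mul_inv_eq_one.1 h1]

private theorem fix_conj_cls1 (h : Fix g = Fix g') (u : 𝔊) :
    Fix (u * g * u⁻¹) = Fix (u * g' * u⁻¹) := by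
  ext ξ
  rw [← smul_inv_smul u ξ, mem_fix_conj, mem_fix_conj, h]

private theorem finite_cls1 (Φ : Fuchs 𝔊) : ∃ F : Finset 𝔊,
    (∀ G ∈ F, 0 < Φ.ht G ∧ Stable G ∧ Ess G ∧ ¬ Φ.Regular G) ∧
    ∀ G', (0 < Φ.ht G' ∧ Stable G' ∧ Ess G' ∧ ¬ Φ.Regular G') →
      ∃ G ∈ F, ∃ γ, Φ.ht γ = 0 ∧ Fix G' = Fix (γ * G * γ⁻¹) := by
  by_contra hcon
  obtain ⟨f, hf, hr⟩ := exists_seq_of_forall_finset_exists
    (fun G => 0 < Φ.ht G ∧ Stable G ∧ Ess G ∧ ¬ Φ.Regular G)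
    (fun G G' => ¬ ∃ γ, Φ.ht γ = 0 ∧ Fix G' = Fix (γ * G * γ⁻¹)) (by
      intro s hs
      by_contra h2
      refine hcon ⟨s, hs, fun G' hG' => ?_⟩
      by_contra h3
      exact h2 ⟨G', hG', fun x hx h4 => h3 ⟨x, hx, h4⟩⟩)
  obtain ⟨c, hc, htri⟩ := Φ.tri
  choose a ha b hb d hd hab hbd had using fun n => rset_three (hf n).2.1 (hf n).2.2.1 (hf n).2.2.2
  choose γ hγ hrho using fun n => htri (a n) (b n) (d n) (hab n) (hbd n) (had n)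
  obtain ⟨n, m, hnm, h⟩ := packing hc (fun n => γ n • a n) (fun n => γ n • b n)
    (fun n => γ n • d n) hrho
  have hS : ∀ n, Stable (γ n * f n * (γ n)⁻¹) := fun n => (hf n).2.1.conj Φ.cont _
  have hE : ∀ n, Ess (γ n * f n * (γ n)⁻¹) := fun n => (hf n).2.2.1.conj _
  have hH : ∀ n, 0 < Φ.ht (γ n * f n * (γ n)⁻¹) := fun n => by
    rw [Φ.ht_conj]; exact (hf n).1
  have hR : ∀ n, ∀ x ∈ ({γ n • a n, γ n • b n, γ n • d n} : Set Circle),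
      x ∈ Φ.RSet (γ n * f n * (γ n)⁻¹) := by
    intro n x hx
    rcases hx with rfl | rfl | rfl
    · exact mem_rset_conj (ha n) _
    · exact mem_rset_conj (hb n) _
    · exact mem_rset_conj (hd n) _
  have hfix : Fix (γ n * f n * (γ n)⁻¹) = Fix (γ m * f m * (γ m)⁻¹) := by
    rcases h with ⟨e1, e2, e3⟩ | ⟨x, hx, y, hy, x', hx', y', hy', hl⟩
    · refine fix_eq_of_three (a := γ n • a n) (b := γ n • b n) (c := γ n • d n) (hS n) (hS m)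
        (hH n).ne' (hH m).ne' ⟨?_, ?_⟩ ⟨?_, ?_⟩ ⟨?_, ?_⟩ ?_ ?_ ?_
      · exact rset_subset _ (mem_rset_conj (ha n) _)
      · rw [e1]; exact rset_subset _ (mem_rset_conj (ha m) _)
      · exact rset_subset _ (mem_rset_conj (hb n) _)
      · rw [e2]; exact rset_subset _ (mem_rset_conj (hb m) _)
      · exact rset_subset _ (mem_rset_conj (hd n) _)
      · rw [e3]; exact rset_subset _ (mem_rset_conj (hd m) _)
      · exact fun e => hab n (MulAction.injective _ e)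
      · exact fun e => hbd n (MulAction.injective _ e)
      · exact fun e => had n (MulAction.injective _ e)
    · by_contra hne
      exact nc (hS n) (hS m) (hE n) (hE m) (hH n) (hH m) hne (hR n x hx) (hR n y hy)
        (hR m x' hx') (hR m y' hy') hl
  refine hr n m hnm ⟨(γ m)⁻¹ * γ n, ?_, ?_⟩
  · rw [Φ.ht_mul, Φ.ht_inv, hγ, hγ]; rfl
  · have h1 := fix_conj_cls1 hfix (γ m)⁻¹
    have e1 : (γ m)⁻¹ * (γ m * f m * (γ m)⁻¹) * (γ m)⁻¹⁻¹ = f m := by group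
    have e2 : (γ m)⁻¹ * (γ n * f n * (γ n)⁻¹) * (γ m)⁻¹⁻¹ =
        (γ m)⁻¹ * γ n * f n * ((γ m)⁻¹ * γ n)⁻¹ := by group
    rw [e1, e2] at h1
    exact h1.symm

private theorem nr_conj_cls1 (h : Φ.NR k g) (u : 𝔊) : Φ.NR k (u * g * u⁻¹) := by
  refine ⟨by rw [Φ.ht_conj]; exact h.1, h.2.1.conj Φ.cont u, h.2.2.1.conj u, fun hr => h.2.2.2 ?_⟩
  have h1 := hr.conj u⁻¹
  have e : u⁻¹ * (u * g * u⁻¹) * u⁻¹⁻¹ = g := by group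
  rwa [e] at h1

theorem exists_classes (Φ : Fuchs 𝔊) : ∃ k T, Φ.Classes k T := by
  obtain ⟨F, hF, hrep⟩ := finite_cls1 Φ
  have hk : 0 < ∏ G ∈ F, (Φ.ht G).toNat := by
    refine Finset.prod_pos fun G hG => ?_
    have := (hF G hG).1
    omega
  obtain ⟨k, hkd⟩ : ∃ k, k = ∏ G ∈ F, (Φ.ht G).toNat := ⟨_, rfl⟩
  rw [← hkd] at hk
  have hE : ∀ G ∈ F, ∃ E, Φ.NR k E ∧ Fix E = Fix G := by
    intro G hG
    obtain ⟨h0, hs, he, hr⟩ := hF G hG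
    obtain ⟨n, hn⟩ : (Φ.ht G).toNat ∣ k := hkd ▸ Finset.dvd_prod_of_mem _ hG
    have hn1 : 1 ≤ n := by
      rcases Nat.eq_zero_or_pos n with rfl | h
      · omega
      · exact h
    have hht : Φ.ht (G ^ n) = k := by
      rw [Φ.ht_pow, hn, Nat.cast_mul, Int.toNat_of_nonneg h0.le, mul_comm]
    refine ⟨G ^ n, ⟨hht, hs.pow n, he.pow n, fun h => hr ?_⟩, hs.fix_pow hn1⟩
    exact h.of_fix_eq hs (hs.fix_pow hn1) (by rw [hht]; exact_mod_cast hk) h0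
  choose! E hE hE' using hE
  refine ⟨k, E '' F, hk, F.finite_toSet.image E, ?_, ?_, ?_⟩
  · rintro _ ⟨G, hG, rfl⟩
    exact hE G hG
  · intro g hg
    obtain ⟨G, hG, γ, hγ, h⟩ := hrep g ⟨by rw [hg.1]; exact_mod_cast hk, hg.2⟩
    refine ⟨E G, ⟨G, hG, rfl⟩, γ, hγ, eq_of_fix_eq (Φ := Φ) hg.2.2.1 ?_ ?_⟩
    · rw [h, fix_conj_cls1 (hE' G hG)]
    · rw [Φ.ht_conj, hg.1, (hE G hG).1]
  · intro G' h0 hs he hr
    obtain ⟨G, hG, γ, hγ, h⟩ := hrep G' ⟨h0, hs, he, hr⟩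
    exact ⟨γ * E G * γ⁻¹, nr_conj_cls1 (hE G hG) γ, by rw [h, fix_conj_cls1 (hE' G hG)]⟩

end Fuchs

end Pool.Agent.P.MP_788ef7_an
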