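import Pool.Agent.P.MP_788ef7_an.Dyn
import Pool.Agent.P.MP_788ef7_an.LeafF

set_option autoImplicit false

open Set Filter Topology Metric

namespace Pool.Agent.P.MP_788ef7_an

namespace Setting

variable {𝔾 X E : Type*} [Group 𝔾] [MetricSpace X] [MulAction 𝔾 X] [ProperSpace X]
  [NormedAddCommGroup E] [NormedSpace ℝ E] [FiniteDimensional ℝ E] {S : Setting 𝔾 X E}
  {g g' G G' γ c w : 𝔾} {p p' q x y z : X} {C : Subgroup 𝔾} {K : Set X} {R : ℝ}
  {V U : Type*} [NormedAddCommGroup V] [NormedSpace ℝ V] [FiniteDimensional ℝ V]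
  [NormedAddCommGroup U] [NormedSpace ℝ U] [FiniteDimensional ℝ U]

/-- A large stable disc through a given point whose boundary leaves the region. -/
theorem FinPer.disc (h : S.FinPer C G) (hG : 0 < S.ht G) (hp : G • p = p)
    (hV : Module.finrank ℝ V = S.s) (hK : IsCompact K) (hz : z ∈ S.Ws p) :
    ∃ (σ : V → X) (σ' : V → V →L[ℝ] E), ContinuousOn σ (closedBall 0 1) ∧
      (∀ v ∈ closedBall (0 : V) 1, σ v ∈ S.Ws p) ∧ (∃ v ∈ ball (0 : V) 1, σ v = z) ∧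
      (∀ v ∈ sphere (0 : V) 1, σ v ∉ Stay G (Tr C K)) ∧
      (∀ v ∈ ball (0 : V) 1, HasFDerivAt (fun v => S.e (σ v)) (σ' v) v) ∧
      ContinuousOn σ' (ball 0 1) ∧ ∀ v ∈ ball (0 : V) 1, IsFrame (1 - S.Q (σ v)) (σ' v) := by
  have hpΛ : p ∈ S.Λ := mem_of_fix hG.ne' hp
  obtain ⟨ε₀, hε₀, hws⟩ := S.ws_of_close
  obtain ⟨r, σ₀, σ₀', hL⟩ := S.exists_leaf hV hpΛ hε₀
  have hG' : 0 < S.inv.ht G⁻¹ := by
    change 0 < -S.ht G⁻¹
    rw [S.ht_inv, neg_neg]; exact hG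
  have hc : (S.Ws p ∩ Stay G⁻¹ (Tr C K)).Countable := by
    have := h.inv.countable hG' hK (p := p) hpΛ
    rwa [S.inv_wu] at this
  have hW : ∀ w ∈ closedBall (0 : V) r, σ₀ w ∈ S.Ws p := fun w hw => hws p hpΛ _ (hL.close w hw)
  have hc2 : {w | w ∈ closedBall (0 : V) r ∧ σ₀ w ∈ Stay G⁻¹ (Tr C K)}.Countable :=
    MapsTo.countable_of_injOn (f := σ₀) (fun w hw => mem_inter (hW w hw.1) hw.2)
      (hL.inj.mono fun w hw => hw.1) hc
  obtain ⟨r₁, hr₁, h0, hr⟩ := ((hc2.image fun w => ‖w‖).dense_compl ℝ).exists_between hL.pos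
  have hcl : IsClosed (Tr C K) := isClosed_tr h.le hK
  have hsub : sphere (0 : V) r₁ ⊆ closedBall 0 r :=
    sphere_subset_closedBall.trans (closedBall_subset_closedBall hr.le)
  have h1 : ∀ᶠ n in atTop, ∀ w ∈ sphere (0 : V) r₁, ∃ j ≤ n, G⁻¹ ^ j • σ₀ w ∉ Tr C K := by
    refine (isCompact_sphere (0 : V) r₁).induction_on
      (p := fun s => ∀ᶠ n in atTop, ∀ w ∈ s, ∃ j ≤ n, G⁻¹ ^ j • σ₀ w ∉ Tr C K)
      (Eventually.of_forall fun _ _ hw => hw.elim)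
      (fun s t hst ht => ht.mono fun n hn w hw => hn w (hst hw))
      (fun s t hs ht => (hs.and ht).mono fun n hn w hw => hw.elim (hn.1 w) (hn.2 w)) ?_
    intro w hw
    have hns : σ₀ w ∉ Stay G⁻¹ (Tr C K) := fun hs =>
      hr₁ ⟨w, ⟨hsub hw, hs⟩, mem_sphere_zero_iff_norm.1 hw⟩
    obtain ⟨j, hj⟩ := not_forall.1 hns
    have hcw : ContinuousWithinAt (fun w => G⁻¹ ^ j • σ₀ w) (sphere 0 r₁) w :=
      (S.cont_smul (G⁻¹ ^ j)).continuousAt.comp_continuousWithinAt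
        ((hL.cont w (hsub hw)).mono hsub)
    refine ⟨_, hcw (hcl.isOpen_compl.mem_nhds hj), ?_⟩
    filter_upwards [eventually_ge_atTop j] with n hn w' hw'
    exact ⟨j, hn, hw'⟩
  obtain ⟨ε₁, hε₁, hon⟩ := hL.onto r₁ h0
  obtain ⟨N, hN⟩ := eventually_atTop.1 (hz.eventually (eventually_le_nhds hε₁))
  obtain ⟨n, hn1, hn2⟩ := (h1.and (eventually_ge_atTop N)).exists
  obtain ⟨k, hk⟩ := Int.eq_ofNat_of_zero_le hG.le
  have hk1 : 1 ≤ k := by omega
  have hpn : G ^ n • p = p := MulAction.mem_stabilizer_iff.1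
    (pow_mem (MulAction.mem_stabilizer_iff.2 hp) n)
  obtain ⟨w₀, hw₀, -, hw⟩ := hon (G ^ n • z) fun m => by
    have e : S.ht (S.t ^ m * G ^ n) = S.ht (S.t ^ (m + n * k)) := by
      rw [S.ht_mul, S.ht_pow, S.ht_pow, S.ht_pow, S.ht_t, hk]; push_cast; ring
    have e2 := dist_smul_eq e z p
    rw [mul_smul, mul_smul, hpn] at e2
    rw [e2]
    exact hN _ (by nlinarith)
  have hsm : ∀ v : V, ‖r₁ • v‖ = r₁ * ‖v‖ := fun v => by
    rw [norm_smul, Real.norm_of_nonneg h0.le]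
  have hb : ∀ v ∈ closedBall (0 : V) 1, r₁ • v ∈ ball (0 : V) r := fun v hv => by
    rw [mem_ball_zero_iff, hsm]
    have := mem_closedBall_zero_iff.1 hv
    nlinarith
  have hcσ : ContinuousOn (fun v : V => σ₀ (r₁ • v)) (closedBall 0 1) :=
    hL.cont.comp (by fun_prop) fun v hv => ball_subset_closedBall (hb v hv)
  refine ⟨fun v => (G ^ n)⁻¹ • σ₀ (r₁ • v), fun v => (S.D (G ^ n)⁻¹ (σ₀ (r₁ • v))).comp
    ((σ₀' (r₁ • v)).comp (r₁ • ContinuousLinearMap.id ℝ V)),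
    (S.cont_smul _).comp_continuousOn hcσ, fun v hv => ?_, ⟨r₁⁻¹ • w₀, ?_, ?_⟩, fun v hv hs => ?_,
    fun v hv => ?_, ?_, fun v hv => ?_⟩
  · have := ws_zpow hp (hW _ (ball_subset_closedBall (hb v hv))) (-n)
    rwa [zpow_neg, zpow_natCast] at this
  · rw [mem_ball_zero_iff, norm_smul, Real.norm_of_nonneg (inv_pos.2 h0).le, inv_mul_lt_one₀ h0]
    exact hw₀
  · show (G ^ n)⁻¹ • σ₀ (r₁ • r₁⁻¹ • w₀) = z
    rw [smul_inv_smul₀ h0.ne', hw, inv_smul_smul]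
  · obtain ⟨j, hj, hj'⟩ := hn1 (r₁ • v) (by
      rw [mem_sphere_zero_iff_norm, hsm, mem_sphere_zero_iff_norm.1 hv, mul_one])
    obtain ⟨i, rfl⟩ := Nat.exists_eq_add_of_le hj
    refine hj' ?_
    have := hs i
    rwa [smul_smul, pow_add, mul_inv_rev, mul_inv_cancel_left, ← inv_pow] at this
  · have h2 := (S.hasFDerivAt_A (G ^ n)⁻¹ (σ₀ (r₁ • v))).comp v
      ((hL.deriv _ (hb v (ball_subset_closedBall hv))).comp v ((hasFDerivAt_id v).const_smul r₁))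
    refine h2.congr_of_eventuallyEq (Eventually.of_forall fun v' => ?_)
    exact (S.A_e _ _).symm
  · refine ContinuousOn.clm_comp (((S.continuous_D _).comp_continuousOn hcσ).mono
      ball_subset_closedBall) (ContinuousOn.clm_comp ?_ continuousOn_const)
    exact hL.cont'.comp (by fun_prop) fun v hv => hb v (ball_subset_closedBall hv)
  · have hf := hL.frame _ (hb v (ball_subset_closedBall hv))
    have hbij : Function.Bijective (r₁ • ContinuousLinearMap.id ℝ V) :=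
      MulAction.bijective (Units.mk0 r₁ h0.ne')
    refine isFrame_D (S := S.inv) (G ^ n)⁻¹ ⟨hf.1.comp hbij.1, ?_⟩
    exact (hbij.2.range_comp _).trans hf.2

end Setting

end Pool.Agent.P.MP_788ef7_an
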