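import Mathlib

/-!
Definitions used in the statement: Anosov diffeomorphisms, Euler characteristic.
-/

set_option autoImplicit false

open Bundle
open scoped Manifold ContDiff

namespace Pool.Agent.P.MP_788ef7_an

/-- The projection onto `A` along a complement `B`. -/
noncomputable def along {V : Type*} [AddCommGroup V] [Module ℝ V] (A B : Submodule ℝ V)
    (h : IsCompl A B) (v : V) : V := A.projection B h v

variable {E : Type*} [NormedAddCommGroup E] [NormedSpace ℝ E] {H : Type*} [TopologicalSpace H]
  (I : ModelWithCorners ℝ E H) {M : Type*} [TopologicalSpace M] [ChartedSpace H M]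

/-- The differential of `f` at `x`, as a map of tangent vectors. -/
noncomputable def dif (f : M → M) (x : M) (v : TangentSpace I x) : TangentSpace I (f x) :=
  mfderiv I I f x v

/-- The Riemannian norm of a tangent vector. -/
noncomputable def len [RiemannianBundle (fun x : M => TangentSpace I x)] {x : M}
    (v : TangentSpace I x) : ℝ := ‖v‖

/-- `TM = Es ⊕ Eu` is a continuous splitting: the subspaces are complementary at every point, and
the projection onto `Eu` along `Es` is a continuous map of the tangent bundle. -/
def ContSplit [IsManifold I 1 M] (Es Eu : ∀ x : M, Submodule ℝ (TangentSpace I x)) : Prop :=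
  ∃ h : ∀ x, IsCompl (Eu x) (Es x), Continuous fun p : TangentBundle I M =>
    (⟨p.proj, along (Eu p.proj) (Es p.proj) (h p.proj) p.2⟩ : TangentBundle I M)

/-- The differential of `f` maps `A x` onto `A (f x)`. -/
def Invariant (f : M → M) (A : ∀ x : M, Submodule ℝ (TangentSpace I x)) : Prop :=
  ∀ x, dif I f x '' (A x : Set (TangentSpace I x)) = A (f x)

/-- The iterates of `f` contract the vectors of `A` exponentially. -/
def Contracts [RiemannianBundle (fun x : M => TangentSpace I x)] (f : M → M)
    (A : ∀ x : M, Submodule ℝ (TangentSpace I x)) (C lam : ℝ) : Prop :=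
  ∀ (n : ℕ) (x : M), ∀ v ∈ A x, len I (dif I f^[n] x v) ≤ C * lam ^ n * len I v

/-- `f` is Anosov: there is a continuous invariant splitting `TM = Es ⊕ Eu` such that the forward
iterates contract `Es` and the backward iterates contract `Eu` exponentially. -/
def IsAnosov [IsManifold I 1 M] [RiemannianBundle (fun x : M => TangentSpace I x)]
    (f : M ≃ₘ^1⟮I, I⟯ M) : Prop :=
  ∃ Es Eu : ∀ x : M, Submodule ℝ (TangentSpace I x), ContSplit I Es Eu ∧ Invariant I f Es ∧
    Invariant I f Eu ∧ ∃ C lam : ℝ, 0 < C ∧ 0 < lam ∧ lam < 1 ∧ Contracts I f Es C lam ∧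
      Contracts I f.symm Eu C lam

/-- Some `C¹` diffeomorphism of `M` is Anosov for some continuous Riemannian metric. -/
def SupportsAnosov (M : Type*) [TopologicalSpace M] [ChartedSpace H M] [IsManifold I 1 M] : Prop :=
  ∃ (_ : RiemannianBundle (fun x : M => TangentSpace I x))
    (_ : IsContinuousRiemannianBundle E (fun x : M => TangentSpace I x)) (f : M ≃ₘ^1⟮I, I⟯ M),
    IsAnosov I f

/-- The product manifold `F × S` supports an Anosov diffeomorphism. -/
def ProdSupportsAnosov (F S : Type*) [TopologicalSpace F] [ChartedSpace H F] [IsManifold I ∞ F]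
    [TopologicalSpace S] [ChartedSpace H S] [IsManifold I ∞ S] : Prop :=
  SupportsAnosov (I.prod I) (F × S)

universe u

/-- The `n`-th Betti number: the dimension of singular homology with rational coefficients. -/
noncomputable def betti (X : Type u) [TopologicalSpace X] (n : ℕ) : ℕ :=
  Module.finrank ℚ (((AlgebraicTopology.singularHomologyFunctor (ModuleCat.{u} ℚ) n).obj
    (ModuleCat.of ℚ (ULift.{u} ℚ))).obj (TopCat.of X))

/-- The Euler characteristic `b₀ - b₁ + b₂` of a surface. -/
noncomputable def eulerChar (X : Type u) [TopologicalSpace X] : ℤ :=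
  (betti X 0 : ℤ) - betti X 1 + betti X 2

end Pool.Agent.P.MP_788ef7_an
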