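import Pool.Agent.P.MP_788ef7_an.NullLag

set_option autoImplicit false

open Set Filter Topology Metric

namespace Pool.Agent.P.MP_788ef7_an

variable {E : Type*} [NormedAddCommGroup E] [NormedSpace ℝ E] [FiniteDimensional ℝ E]

theorem anti_deg1 {D : E →L[ℝ] E} (hD : D.det ≠ 0) : ∃ c > 0, ∀ v, c * ‖v‖ ≤ ‖D v‖ := by
  set e := D.toContinuousLinearEquivOfDetNeZero hD
  refine ⟨(‖(e.symm : E →L[ℝ] E)‖ + 1)⁻¹, by positivity, fun v => ?_⟩
  rw [inv_mul_le_iff₀ (by positivity)]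
  have h1 := (e.symm : E →L[ℝ] E).le_opNorm (e v)
  have h2 : (e.symm : E →L[ℝ] E) (e v) = v := e.symm_apply_apply v
  have h3 : e v = D v := rfl
  rw [h2, h3] at h1
  nlinarith [norm_nonneg (D v)]

theorem approx_deg1 {f : E → E} {D : E →L[ℝ] E} {x : E} (hf : HasFDerivAt f D x) (h0 : f x = 0)
    (hD : D.det ≠ 0) : ∀ᶠ y in 𝓝 x, ‖D (y - x) - f y‖ ≤ ‖D (y - x)‖ / 3 := by
  obtain ⟨c, hc, h⟩ := anti_deg1 hD
  filter_upwards [hf.isLittleO.bound (show 0 < c / 3 by positivity)] with y hy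
  rw [h0, sub_zero, norm_sub_rev] at hy
  have := h (y - x)
  linarith

theorem finite_zeros {K : Set E} (hK : IsCompact K) {f : E → E} (hf : ContinuousOn f K)
    (hd : ∀ x ∈ K, f x = 0 → ∃ D : E →L[ℝ] E, HasFDerivAt f D x ∧ D.det ≠ 0) :
    {x | x ∈ K ∧ f x = 0}.Finite := by
  have hc : IsCompact {x | x ∈ K ∧ f x = 0} :=
    hK.of_isClosed_subset (hf.preimage_isClosed_of_isClosed hK.isClosed isClosed_singleton)
      fun _ h => h.1
  refine hc.finite (isDiscrete_iff_nhdsNE.2 fun x hx => ?_)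
  obtain ⟨D, h1, h2⟩ := hd x hx.1 hx.2
  obtain ⟨c, hc, h⟩ := anti_deg1 h2
  rw [inf_principal_eq_bot]
  filter_upwards [mem_nhdsWithin_of_mem_nhds (approx_deg1 h1 hx.2 h2), self_mem_nhdsWithin]
    with y hy hne hy'
  rw [hy'.2, sub_zero] at hy
  have h3 := h (y - x)
  have h4 : 0 < c * ‖y - x‖ := mul_pos hc (norm_pos_iff.2 (sub_ne_zero.2 hne))
  linarith

open MeasureTheory in
theorem lin_deg1 {n : ℕ} {D : (Fin n → ℝ) →L[ℝ] Fin n → ℝ} (hD : D.det ≠ 0) (x : Fin n → ℝ)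
    {φ : (Fin n → ℝ) → ℝ} (hφ : ∫ y, φ y = 1) : ∫ y, φ (D (y - x)) * D.det = (sgn D : ℝ) := by
  set e := D.toContinuousLinearEquivOfDetNeZero hD
  have h1 := integral_image_eq_integral_abs_det_fderiv_smul volume MeasurableSet.univ
    (f := fun y => D y) (f' := fun _ => D) (fun y _ => D.hasFDerivAt.hasFDerivWithinAt)
    e.injective.injOn φ
  have h2 : (fun y => D y) '' univ = univ := by
    rw [image_univ]
    exact e.surjective.range_eq
  rw [h2, Measure.restrict_univ, hφ, integral_smul, smul_eq_mul] at h1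
  rw [integral_mul_const, integral_sub_right_eq_self (fun y => φ (D y)) x, sgn]
  split_ifs with h
  · rw [abs_of_pos h] at h1
    push_cast
    linarith
  · rw [abs_of_nonpos (not_lt.1 h)] at h1
    push_cast
    linarith

omit [NormedSpace ℝ E] [FiniteDimensional ℝ E] in
theorem near_deg1 {K : Set E} (hK : IsClosed K) {f : E → E} (hf : ContinuousOn f K) (x : E)
    {P : E → E → Prop} (hP : x ∈ K → ∀ᶠ w in 𝓝 (f x), P (f x) w) :
    ∀ᶠ y in 𝓝 x, y ∈ K → P (f x) (f y) := by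
  by_cases hx : x ∈ K
  · exact eventually_nhdsWithin_iff.1 ((hf x hx).eventually (hP hx))
  · filter_upwards [hK.isOpen_compl.mem_nhds hx] with y hy h
    exact absurd h hy

theorem smooth_deg1 {K : Set E} (hK : IsClosed K) {f : E → E} (hf : ContinuousOn f K) {η : ℝ}
    (hη : 0 < η) : ∃ Ψ : E → E, ContDiff ℝ 1 Ψ ∧ ∀ y ∈ K, ‖Ψ y - f y‖ ≤ η := by
  obtain ⟨g, hg⟩ := exists_contMDiffMap_forall_mem_convex_of_local_const (n := 1)
    (modelWithCornersSelf ℝ E) (t := fun y => {w | y ∈ K → w ∈ closedBall (f y) η})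
    (fun y => by
      rw [ofPred_forall]
      exact convex_iInter fun _ => convex_closedBall _ _)
    fun x => ⟨f x, near_deg1 hK hf x (P := fun a w => a ∈ closedBall w η) fun _ => by
      filter_upwards [closedBall_mem_nhds (f x) hη] with w hw
      exact mem_closedBall_comm.1 hw⟩
  exact ⟨g, g.contMDiff.contDiff, fun y hy => mem_closedBall_iff_norm.1 (hg y hy)⟩

open MeasureTheory in
theorem end_deg1 {n : ℕ} {Ω : Set (Fin n → ℝ)} (hΩ : IsOpen Ω) (hb : Bornology.IsBounded Ω)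
    {f : (Fin n → ℝ) → Fin n → ℝ} (hf : ContinuousOn f (closure Ω))
    (hne : ∀ x ∈ frontier Ω, f x ≠ 0) {F : Finset (Fin n → ℝ)}
    {D : (Fin n → ℝ) → (Fin n → ℝ) →L[ℝ] Fin n → ℝ} (h : ∀ x, x ∈ F ↔ x ∈ Ω ∧ f x = 0)
    (d : ∀ x ∈ F, HasFDerivAt f (D x) x ∧ (D x).det ≠ 0) {η : ℝ} (hη : 0 < η) :
    ∃ Ψ : (Fin n → ℝ) → Fin n → ℝ, ContDiff ℝ 1 Ψ ∧ (∀ y ∈ closure Ω, ‖Ψ y - f y‖ ≤ η) ∧
      ∀ᶠ ε in 𝓝[>] (0 : ℝ), ∀ φ : (Fin n → ℝ) → ℝ, Continuous φ → (∀ y, ε ≤ ‖y‖ → φ y = 0) →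
        ∫ y, φ y = 1 → ∫ y in Ω, φ (Ψ y) * (fderiv ℝ Ψ y).det = ∑ x ∈ F, (sgn (D x) : ℝ) := by
  have hr : ∀ᶠ r in 𝓝[>] (0 : ℝ), ∀ x ∈ F, ∀ y, dist y x < 2 * r → y ∈ Ω ∧
      D x (y - x) ∈ closedBall (f y) (‖f y‖ / 2) ∩ closedBall (f y) η ∧
      ∀ x' ∈ F, dist y x' ≤ r → x' = x := by
    refine (eventually_all_finset F).2 fun x hx => ?_
    have h1 : ∀ᶠ y in 𝓝 x, ‖D x (y - x)‖ < η := by
      have : Continuous fun y => ‖D x (y - x)‖ := by fun_prop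
      exact this.continuousAt.eventually (gt_mem_nhds (by simpa using hη))
    have h2 : ∀ᶠ y in 𝓝 x, ∀ x' ∈ F, y = x' → x' = x := by
      refine (eventually_all_finset F).2 fun x' _ => ?_
      by_cases e : x' = x
      · exact .of_forall fun _ _ => e
      · filter_upwards [isOpen_ne.mem_nhds (Ne.symm e)] with y hy h
        exact absurd h hy
    obtain ⟨δ, hδ, h3⟩ := Metric.eventually_nhds_iff.1 (h1.and (h2.and
      ((approx_deg1 (d x hx).1 ((h x).1 hx).2 (d x hx).2).and (hΩ.mem_nhds ((h x).1 hx).1))))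
    filter_upwards [Ioo_mem_nhdsGT (show 0 < δ / 3 by positivity)] with r hr y hy
    obtain ⟨a1, -, a3, a4⟩ := h3 (show dist y x < δ by linarith [hr.1, hr.2])
    refine ⟨a4, ⟨mem_closedBall_iff_norm.2 ?_, mem_closedBall_iff_norm.2 (by linarith)⟩,
      fun x' hx' hy' => (h3 ?_).2.1 x' hx' rfl⟩
    · have := norm_sub_norm_le (D x (y - x)) (f y)
      linarith
    · have := dist_triangle_left x' x y
      linarith [hr.2]
  obtain ⟨r, hr, r0⟩ := (hr.and self_mem_nhdsWithin).exists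
  have r0 : 0 < r := r0
  have hz : ∀ y ∈ closure Ω, (∀ x ∈ F, r ≤ dist y x) → f y ≠ 0 := fun y hy h1 h0 => by
    by_cases hyΩ : y ∈ Ω
    · have := h1 y ((h y).2 ⟨hyΩ, h0⟩)
      rw [dist_self] at this
      linarith
    · exact hne y (by rw [hΩ.frontier_eq]; exact ⟨hy, hyΩ⟩) h0
  obtain ⟨g, hg⟩ := exists_contMDiffMap_forall_mem_convex_of_local (n := 1)
    (modelWithCornersSelf ℝ (Fin n → ℝ))
    (t := fun y => {w | ∀ x ∈ F, dist y x ≤ r → w ∈ ({D x (y - x)} : Set _)} ∩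
      {w | y ∈ closure Ω → w ∈ closedBall (f y) (‖f y‖ / 2) ∩ closedBall (f y) η})
    (fun y => by
      refine Convex.inter ?_ ?_
      · simp only [ofPred_forall]
        exact convex_iInter fun _ => convex_iInter fun _ => convex_iInter fun _ =>
          convex_singleton _
      · rw [ofPred_forall]
        exact convex_iInter fun _ => (convex_closedBall _ _).inter (convex_closedBall _ _))
    fun y₀ => by
      by_cases hy : ∃ x ∈ F, dist y₀ x < 2 * r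
      · obtain ⟨x, hx, hy⟩ := hy
        refine ⟨ball x (2 * r), isOpen_ball.mem_nhds hy, fun y => D x (y - x), ?_,
          fun y hy => ⟨fun x' hx' h1 => ?_, fun _ => (hr x hx y hy).2.1⟩⟩
        · exact ((D x).contDiff.comp (contDiff_id.sub contDiff_const)).contMDiff.contMDiffOn
        · rw [(hr x hx y hy).2.2 x' hx' h1]
          rfl
      · push Not at hy
        have h1 : ∀ᶠ y in 𝓝 y₀, ∀ x ∈ F, r < dist y x := by
          refine (eventually_all_finset F).2 fun x hx => ?_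
          have : Continuous fun y => dist y x := by fun_prop
          exact this.continuousAt.eventually (lt_mem_nhds (by linarith [hy x hx]))
        have h2 := near_deg1 isClosed_closure hf y₀
          (P := fun a w => a ∈ closedBall w (‖w‖ / 2) ∩ closedBall w η) fun h0 => by
            have h3 : 0 < ‖f y₀‖ := norm_pos_iff.2 (hz y₀ h0 fun x hx => by linarith [hy x hx])
            filter_upwards [closedBall_mem_nhds (f y₀) hη,
              closedBall_mem_nhds (f y₀) (show 0 < ‖f y₀‖ / 3 by positivity)] with w w1 w2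
            refine ⟨mem_closedBall_iff_norm.2 ?_, mem_closedBall_comm.1 w1⟩
            have h4 := mem_closedBall_iff_norm'.1 w2
            have h5 := norm_sub_norm_le (f y₀) w
            linarith
        exact ⟨_, h1.and h2, fun _ => f y₀, contMDiffOn_const,
          fun y hy => ⟨fun x hx h3 => absurd h3 (hy.1 x hx).not_ge, hy.2⟩⟩
  have gc : ContDiff ℝ 1 g := g.contMDiff.contDiff
  refine ⟨g, gc, fun y hy => mem_closedBall_iff_norm.1 ((hg y).2 hy).2, ?_⟩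
  have hK : IsCompact (closure Ω ∩ {y | ∀ x ∈ F, r ≤ dist y x}) := by
    refine hb.isCompact_closure.inter_right ?_
    simp only [ofPred_forall]
    exact isClosed_iInter fun x => isClosed_iInter fun _ =>
      isClosed_le continuous_const (by fun_prop)
  obtain ⟨μ, μ0, hμ⟩ := hK.exists_forall_le' (hf.mono inter_subset_left).norm (a := 0)
    fun y hy => norm_pos_iff.2 (hz y hy.1 hy.2)
  have h1 : ∀ᶠ ε in 𝓝[>] (0 : ℝ), ∀ x ∈ F, ∀ y, r ≤ dist y x → ε ≤ ‖D x (y - x)‖ := by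
    refine (eventually_all_finset F).2 fun x hx => ?_
    obtain ⟨c, c0, hc⟩ := anti_deg1 (d x hx).2
    filter_upwards [Ioo_mem_nhdsGT (mul_pos c0 r0)] with ε hε y hy
    rw [dist_eq_norm] at hy
    exact hε.2.le.trans ((mul_le_mul_of_nonneg_left hy c0.le).trans (hc _))
  filter_upwards [h1, Ioo_mem_nhdsGT (half_pos μ0)] with ε e1 e2 φ φc φ0 φ1
  have hpt : EqOn (fun y => φ (g y) * (fderiv ℝ g y).det)
      (fun y => ∑ x ∈ F, φ (D x (y - x)) * (D x).det) Ω := fun y hy => by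
    by_cases hx : ∃ x ∈ F, dist y x < r
    · obtain ⟨x, hx, hxy⟩ := hx
      have e : g =ᶠ[𝓝 y] fun y => D x (y - x) := by
        filter_upwards [isOpen_ball.mem_nhds (show y ∈ ball x r from hxy)] with z hz
        exact (hg z).1 x hx (le_of_lt hz)
      have e' : HasFDerivAt (fun y => D x (y - x)) (D x) y :=
        ((D x).hasFDerivAt.comp y ((hasFDerivAt_id y).sub_const x)).congr_fderiv
          (ContinuousLinearMap.comp_id _)
      simp only [e.fderiv_eq, e.eq_of_nhds, e'.fderiv]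
      refine (Finset.sum_eq_single_of_mem (f := fun x => φ (D x (y - x)) * (D x).det) x hx
        fun x' hx' hne' => ?_).symm
      rw [φ0 _ (e1 x' hx' y (not_lt.1 fun h => hne' ?_)), zero_mul]
      exact (hr x hx y (by linarith)).2.2 x' hx' h.le
    · push Not at hx
      have a1 := hμ y ⟨subset_closure hy, hx⟩
      have a2 := mem_closedBall_iff_norm'.1 ((hg y).2 (subset_closure hy)).1
      have a3 := norm_sub_norm_le (f y) (g y)
      simp only [φ0 (g y) (by linarith [e2.2]), zero_mul]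
      exact (Finset.sum_eq_zero fun x hx' => by rw [φ0 _ (e1 x hx' y (hx x hx')), zero_mul]).symm
  rw [setIntegral_congr_fun hΩ.measurableSet hpt, integral_finsetSum]
  · refine Finset.sum_congr rfl fun x hx => ?_
    rw [setIntegral_eq_integral_of_forall_compl_eq_zero fun y hy => ?_, lin_deg1 (d x hx).2 x φ1]
    rw [φ0 _ (e1 x hx y (not_lt.1 fun h => hy (hr x hx y (by linarith)).1)), zero_mul]
  · intro x _
    refine (ContinuousOn.integrableOn_compact hb.isCompact_closure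
      (Continuous.continuousOn ?_)).mono_set subset_closure
    fun_prop

theorem deg_eq_pi {n : ℕ} {Ω : Set (Fin n → ℝ)} (hΩ : IsOpen Ω) (hb : Bornology.IsBounded Ω)
    {H : ℝ → (Fin n → ℝ) → Fin n → ℝ}
    (hH : ContinuousOn (fun p : ℝ × (Fin n → ℝ) => H p.1 p.2) (Icc 0 1 ×ˢ closure Ω))
    (hne : ∀ τ ∈ Icc (0 : ℝ) 1, ∀ x ∈ frontier Ω, H τ x ≠ 0) {F₀ F₁ : Finset (Fin n → ℝ)}
    {D₀ D₁ : (Fin n → ℝ) → (Fin n → ℝ) →L[ℝ] Fin n → ℝ} (h₀ : ∀ x, x ∈ F₀ ↔ x ∈ Ω ∧ H 0 x = 0)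
    (h₁ : ∀ x, x ∈ F₁ ↔ x ∈ Ω ∧ H 1 x = 0)
    (d₀ : ∀ x ∈ F₀, HasFDerivAt (H 0) (D₀ x) x ∧ (D₀ x).det ≠ 0)
    (d₁ : ∀ x ∈ F₁, HasFDerivAt (H 1) (D₁ x) x ∧ (D₁ x).det ≠ 0) :
    ∑ x ∈ F₀, sgn (D₀ x) = ∑ x ∈ F₁, sgn (D₁ x) := by
  rcases Nat.eq_zero_or_pos n with rfl | hn
  · have e : F₀ = F₁ := Finset.ext fun x => by
      rw [h₀, h₁, Subsingleton.elim (H 0 x) (H 1 x)]
    rw [e]
    exact Finset.sum_congr rfl fun x _ => by rw [Subsingleton.elim (D₀ x) (D₁ x)]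
  have hsub : Icc (0 : ℝ) 1 ×ˢ frontier Ω ⊆ Icc 0 1 ×ˢ closure Ω :=
    prod_mono_right frontier_subset_closure
  have hK : IsCompact (Icc (0 : ℝ) 1 ×ˢ frontier Ω) :=
    isCompact_Icc.prod (hb.isCompact_closure.of_isClosed_subset isClosed_frontier
      frontier_subset_closure)
  obtain ⟨m, m0, hm⟩ := hK.exists_forall_le' (hH.mono hsub).norm (a := 0)
    fun p hp => norm_pos_iff.2 (hne _ hp.1 _ hp.2)
  have hc : ∀ τ ∈ Icc (0 : ℝ) 1, ContinuousOn (H τ) (closure Ω) := fun τ hτ =>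
    hH.comp (f := fun x => (τ, x)) (by fun_prop) fun x hx => ⟨hτ, hx⟩
  have m4 : 0 < m / 4 := by positivity
  have i0 : (0 : ℝ) ∈ Icc (0 : ℝ) 1 := ⟨le_rfl, zero_le_one⟩
  have i1 : (1 : ℝ) ∈ Icc (0 : ℝ) 1 := ⟨zero_le_one, le_rfl⟩
  obtain ⟨Ψ₀, a1, a2, a3⟩ := end_deg1 hΩ hb (hc 0 i0) (hne 0 i0) h₀ d₀ m4
  obtain ⟨Ψ₁, b1, b2, b3⟩ := end_deg1 hΩ hb (hc 1 i1) (hne 1 i1) h₁ d₁ m4
  obtain ⟨ε, ⟨e1, e2⟩, e3⟩ := ((a3.and b3).and (Ioo_mem_nhdsGT (half_pos m0))).exists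
  obtain ⟨G, g1, g2, g3⟩ := exists_bump_map n e3.1
  have gc : Continuous fun y => (fderiv ℝ G y).det :=
    ContinuousLinearMap.continuous_det.comp (g1.continuous_fderiv one_ne_zero)
  have seg : ∀ τ ∈ Icc (0 : ℝ) 1, ∀ Ψ Ψ' : (Fin n → ℝ) → Fin n → ℝ, ContDiff ℝ 1 Ψ →
      ContDiff ℝ 1 Ψ' → (∀ x ∈ frontier Ω, ‖Ψ x - H τ x‖ ≤ m / 2) →
      (∀ x ∈ frontier Ω, ‖Ψ' x - H τ x‖ ≤ m / 2) →
      ∫ x in Ω, (fderiv ℝ G (Ψ x)).det * (fderiv ℝ Ψ x).det =
        ∫ x in Ω, (fderiv ℝ G (Ψ' x)).det * (fderiv ℝ Ψ' x).det := by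
    intro τ hτ Ψ Ψ' c1 c2 c3 c4
    refine integral_eq_of_segment hn hΩ hb c1 c2 g1 g2 fun x hx s hs => ?_
    have h1 : (1 - s) • Ψ x + s • Ψ' x ∈ closedBall (H τ x) (m / 2) :=
      convex_closedBall _ _ (mem_closedBall_iff_norm.2 (c3 x hx))
        (mem_closedBall_iff_norm.2 (c4 x hx)) (sub_nonneg.2 hs.2) hs.1 (sub_add_cancel _ _)
    have h2 := mem_closedBall_iff_norm'.1 h1
    have h3 := norm_sub_norm_le (H τ x) ((1 - s) • Ψ x + s • Ψ' x)
    have h4 : m ≤ ‖H τ x‖ := hm (τ, x) ⟨hτ, hx⟩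
    linarith [e3.2]
  choose Φ Φ1 Φ2 using fun τ : Icc (0 : ℝ) 1 => smooth_deg1 isClosed_closure (hc τ τ.2) m4
  have half : ∀ {Ψ f : (Fin n → ℝ) → Fin n → ℝ}, (∀ y ∈ closure Ω, ‖Ψ y - f y‖ ≤ m / 4) →
      ∀ x ∈ frontier Ω, ‖Ψ x - f x‖ ≤ m / 2 := fun h x hx =>
    (h x (frontier_subset_closure hx)).trans (by linarith)
  obtain ⟨δ, δ0, hδ⟩ := Metric.uniformContinuousOn_iff.1
    (hK.uniformContinuousOn_of_continuous (hH.mono hsub)) _ m4
  have lc : IsLocallyConstant fun τ : Icc (0 : ℝ) 1 =>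
      ∫ x in Ω, (fderiv ℝ G (Φ τ x)).det * (fderiv ℝ (Φ τ) x).det := by
    refine (IsLocallyConstant.iff_eventually_eq _).2 fun τ => ?_
    filter_upwards [ball_mem_nhds τ δ0] with τ' hτ'
    refine seg τ τ.2 _ _ (Φ1 τ') (Φ1 τ) (fun x hx => ?_) (half (Φ2 τ))
    have h1 := hδ (τ', x) ⟨τ'.2, hx⟩ (τ, x) ⟨τ.2, hx⟩ (by
      rw [Prod.dist_eq, dist_self]
      exact max_lt hτ' δ0)
    have h2 := Φ2 τ' x (frontier_subset_closure hx)
    have h3 := norm_sub_le_norm_sub_add_norm_sub (Φ τ' x) (H τ' x) (H τ x)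
    rw [dist_eq_norm] at h1
    linarith
  have k1 := lc.apply_eq_of_preconnectedSpace ⟨0, i0⟩ ⟨1, i1⟩
  have k2 := seg 0 i0 _ _ a1 (Φ1 ⟨0, i0⟩) (half a2) (half (Φ2 ⟨0, i0⟩))
  have k3 := seg 1 i1 _ _ b1 (Φ1 ⟨1, i1⟩) (half b2) (half (Φ2 ⟨1, i1⟩))
  have k4 := (e1 _ gc g2 g3).symm.trans (k2.trans (k1.trans (k3.symm.trans (e2 _ gc g2 g3))))
  exact_mod_cast k4

end Pool.Agent.P.MP_788ef7_an
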