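import Pool.Agent.P.MP_788ef7_an.Shad

set_option autoImplicit false

open Set Filter Topology Metric

namespace Pool.Agent.P.MP_788ef7_an

namespace Setting

variable {𝔾 X E : Type*} [Group 𝔾] [MetricSpace X] [MulAction 𝔾 X] [ProperSpace X]
  [NormedAddCommGroup E] [NormedSpace ℝ E] [FiniteDimensional ℝ E] {S : Setting 𝔾 X E}
  {g g' G G' γ c w : 𝔾} {p p' q x y z : X} {C : Subgroup 𝔾} {K : Set X} {R : ℝ}

theorem unif_contr (S : Setting 𝔾 X E) : ∃ ε₀ > 0, ∀ η > 0, ∃ N : ℕ, ∀ x ∈ S.Λ, ∀ y,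
    (∀ n : ℤ, |n| ≤ N → dist (S.t ^ n • y) (S.t ^ n • x) ≤ ε₀) → dist y x ≤ η := by
  obtain ⟨ε₀, h₀, H⟩ := S.expansive
  refine ⟨ε₀, h₀, fun η hη => ?_⟩
  by_contra hc
  push Not at hc
  choose x hx y hy hd using hc
  obtain ⟨K, hK, HK⟩ := S.exists_cpt ε₀
  choose γ hγ hm using fun N => HK (x N) (hx N)
  have h1 : ∀ N, (γ N • x N, γ N • y N) ∈ K ×ˢ K := fun N =>
    ⟨hm N _ (by rw [dist_self]; exact h₀.le), hm N _ (by simpa using hy N 0 (by simp))⟩
  obtain ⟨⟨a, b⟩, -, φ, hφ, hlim⟩ := (hK.prod hK).tendsto_subseq h1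
  have ha : Tendsto (fun k => γ (φ k) • x (φ k)) atTop (𝓝 a) := hlim.fst_nhds
  have hb : Tendsto (fun k => γ (φ k) • y (φ k)) atTop (𝓝 b) := hlim.snd_nhds
  have haΛ : a ∈ S.Λ :=
    S.closed.mem_of_tendsto ha (Eventually.of_forall fun k => S.smul_mem _ _ (hx _))
  have h2 : b = a := by
    refine H a haΛ b fun n => ?_
    refine le_of_tendsto ((((S.cont_smul (S.t ^ n)).tendsto b).comp hb).dist
      (((S.cont_smul (S.t ^ n)).tendsto a).comp ha)) ?_
    filter_upwards [eventually_ge_atTop n.natAbs] with k hk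
    have h3 : |n| ≤ (φ k : ℤ) := by
      have h4 := hk.trans (hφ.id_le k)
      rw [Int.abs_eq_natAbs]
      exact_mod_cast h4
    simp only [Function.comp_apply, ← mul_smul]
    rw [dist_smul_eq (S := S) (g' := S.t ^ n) (by rw [S.ht_mul, hγ, add_zero])]
    exact hy _ n h3
  have h3 := ge_of_tendsto' (hb.dist ha) (b := η) fun k => by
    rw [S.iso _ (hγ _)]
    exact (hd _).le
  rw [h2, dist_self] at h3
  exact absurd h3 (not_le.2 hη)

theorem ws_of_close (S : Setting 𝔾 X E) : ∃ ε₀ > 0, ∀ x ∈ S.Λ, ∀ y,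
    (∀ n : ℕ, dist (S.t ^ n • y) (S.t ^ n • x) ≤ ε₀) → y ∈ S.Ws x := by
  obtain ⟨ε₀, h₀, H⟩ := S.unif_contr
  refine ⟨ε₀, h₀, fun x hx y hy => Metric.tendsto_atTop.2 fun η hη => ?_⟩
  obtain ⟨N, hN⟩ := H (η / 2) (half_pos hη)
  refine ⟨N, fun n hn => ?_⟩
  rw [Real.dist_0_eq_abs, abs_of_nonneg dist_nonneg]
  refine (hN _ (S.smul_mem _ _ hx) _ fun k hk => ?_).trans_lt (half_lt_self hη)
  obtain ⟨j, hj⟩ := Int.eq_ofNat_of_zero_le (show 0 ≤ k + n by have := abs_le.1 hk; omega)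
  rw [← mul_smul, ← mul_smul, ← zpow_natCast, ← zpow_add, hj, zpow_natCast]
  exact hy j

theorem bracket (S : Setting 𝔾 X E) {ε : ℝ} (hε : 0 < ε) : ∃ δ > 0, ∀ x ∈ S.Λ, ∀ y ∈ S.Λ,
    dist x y ≤ δ → ∃ b ∈ S.Λ, b ∈ S.Wu x ∧ b ∈ S.Ws y ∧
      (∀ n : ℕ, dist (S.t⁻¹ ^ n • b) (S.t⁻¹ ^ n • x) ≤ ε) ∧
      ∀ n : ℕ, dist (S.t ^ n • b) (S.t ^ n • y) ≤ ε := by
  obtain ⟨ε₁, h₁, H₁⟩ := S.ws_of_close
  obtain ⟨ε₂, h₂, H₂⟩ := S.inv.ws_of_close
  set e := min ε (min ε₁ ε₂) with he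
  have he0 : 0 < e := lt_min hε (lt_min h₁ h₂)
  obtain ⟨δ, hδ, H⟩ := S.shadowing (half_pos he0)
  refine ⟨min δ (e / 2), lt_min hδ (half_pos he0), fun x hx y hy hxy => ?_⟩
  obtain ⟨z, hz, Hz⟩ := H (fun n => S.t ^ n • if n < 0 then x else y)
    (fun n => S.smul_mem _ _ (by split_ifs <;> assumption)) (fun n => by
      rw [← mul_smul, ← zpow_one_add, add_comm 1 n]
      rcases lt_trichotomy (n + 1) 0 with h | h | h
      · rw [if_pos h, if_pos (by omega), dist_self]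
        exact hδ.le
      · rw [h, if_pos (by omega), if_neg (lt_irrefl 0), zpow_zero, one_smul, one_smul]
        exact hxy.trans (min_le_left _ _)
      · rw [if_neg (by omega), if_neg (by omega), dist_self]
        exact hδ.le)
  have hu : ∀ n : ℕ, dist (S.t⁻¹ ^ n • z) (S.t⁻¹ ^ n • x) ≤ e := by
    intro n
    rcases Nat.eq_zero_or_pos n with rfl | hn
    · have h3 := Hz 0
      rw [if_neg (lt_irrefl 0), zpow_zero, one_smul, one_smul] at h3
      rw [pow_zero, one_smul, one_smul]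
      have h4 := hxy.trans (min_le_right _ _)
      have h5 := dist_triangle_right z x y
      linarith
    · have h3 := Hz (-n)
      rw [if_pos (by omega), zpow_neg, zpow_natCast, ← inv_pow] at h3
      linarith
  have hs : ∀ n : ℕ, dist (S.t ^ n • z) (S.t ^ n • y) ≤ e := by
    intro n
    have h3 := Hz n
    rw [if_neg (by omega), zpow_natCast] at h3
    linarith
  exact ⟨z, hz, H₂ x hx z fun n => (hu n).trans ((min_le_right _ _).trans (min_le_right _ _)),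
    H₁ y hy z fun n => (hs n).trans ((min_le_right _ _).trans (min_le_left _ _)),
    fun n => (hu n).trans (min_le_left _ _), fun n => (hs n).trans (min_le_left _ _)⟩

theorem closing (S : Setting 𝔾 X E) {ε : ℝ} (hε : 0 < ε) : ∃ δ > 0, ∀ x ∈ S.Λ, ∀ G,
    0 < S.ht G → dist (G • x) x ≤ δ → ∃ q, G • q = q ∧
      ∀ n : ℕ, (n : ℤ) ≤ S.ht G → dist (S.t ^ n • q) (S.t ^ n • x) ≤ ε := by
  obtain ⟨ε₀, h₀, H₀⟩ := S.expansive
  set e := min ε ε₀ with he
  have he0 : 0 < e := lt_min hε h₀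
  obtain ⟨δ, hδ, H⟩ := S.shadowing (half_pos he0)
  refine ⟨min δ (e / 2), lt_min hδ (half_pos he0), fun x hx G hG hd => ?_⟩
  set m := S.ht G with hm
  have hht : ∀ n k : ℤ, S.ht (S.t ^ n * G ^ k) = n + k * m := fun n k => by
    rw [S.ht_mul, S.ht_zpow, S.ht_zpow, S.ht_t, mul_one]
  obtain ⟨z, hz, Hz⟩ := H (fun n => (S.t ^ n * G ^ (-(n / m))) • x)
    (fun n => S.smul_mem _ _ hx) (fun n => by
      rw [← mul_smul, ← mul_assoc, ← zpow_one_add, add_comm 1 n]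
      have h1 := Int.emod_add_mul_ediv n m
      have h2 := Int.emod_nonneg n hG.ne'
      have h3 := Int.emod_lt_of_pos n hG
      rcases (show n % m + 1 ≤ m by omega).lt_or_eq with h | h
      · have h4 : (n + 1) / m = n / m :=
          ((Int.ediv_emod_unique (r := n % m + 1) hG).2 ⟨by omega, by omega, h⟩).1
        rw [h4, dist_self]
        exact hδ.le
      · have h4 : (n + 1) / m = n / m + 1 :=
          ((Int.ediv_emod_unique (r := 0) hG).2 ⟨by linear_combination h1 - h, le_rfl, hG⟩).1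
        rw [h4, show S.t ^ (n + 1) * G ^ (-(n / m)) = S.t ^ (n + 1) * G ^ (-(n / m + 1)) * G by
          group, mul_smul _ G, S.iso _ (by rw [hht]; linear_combination h - h1)]
        exact hd.trans (min_le_left _ _))
  refine ⟨z, H₀ z hz _ fun n => ?_, fun n hn => ?_⟩
  · have h1 := Hz (n + m)
    rw [← S.iso (S.t ^ n * G * S.t ^ (-(n + m)))
      (by rw [S.ht_mul, S.ht_mul, S.ht_zpow, S.ht_zpow, S.ht_t]; ring), ← mul_smul, ← mul_smul,
      Int.add_ediv_of_dvd_right dvd_rfl, Int.ediv_self hG.ne',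
      show S.t ^ n * G * S.t ^ (-(n + m)) * S.t ^ (n + m) = S.t ^ n * G by group,
      show S.t ^ n * G * S.t ^ (-(n + m)) * (S.t ^ (n + m) * G ^ (-(n / m + 1))) =
        S.t ^ n * G ^ (-(n / m)) by group, mul_smul] at h1
    have h2 := Hz n
    have h3 := dist_triangle_right (S.t ^ n • G • z) (S.t ^ n • z) ((S.t ^ n * G ^ (-(n / m))) • x)
    have h4 : e ≤ ε₀ := min_le_right _ _
    linarith
  · have h1 := Hz n
    have h4 : e ≤ ε := min_le_left _ _
    rcases hn.lt_or_eq with h | h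
    · rw [Int.ediv_eq_zero_of_lt (by omega) h, neg_zero, zpow_zero, mul_one, zpow_natCast] at h1
      linarith
    · have h2 := hd.trans (min_le_right _ _)
      rw [← S.iso (S.t ^ (n : ℤ) * G ^ (-1 : ℤ)) (by rw [hht, h]; ring), ← mul_smul,
        show S.t ^ (n : ℤ) * G ^ (-1 : ℤ) * G = S.t ^ (n : ℤ) by group] at h2
      rw [show (n : ℤ) / m = 1 by rw [h, Int.ediv_self hG.ne']] at h1
      have h3 := dist_triangle_right (S.t ^ (n : ℤ) • z) (S.t ^ (n : ℤ) • x)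
        ((S.t ^ (n : ℤ) * G ^ (-1 : ℤ)) • x)
      rw [← zpow_natCast]
      linarith

end Setting

end Pool.Agent.P.MP_788ef7_an
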