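import Pool.Agent.P.MP_788ef7_an.PBasic
import Pool.Agent.P.MP_788ef7_an.CDyn
import Pool.Agent.P.MP_788ef7_an.KLor

set_option autoImplicit false

open Set Filter Topology Metric

namespace Pool.Agent.P.MP_788ef7_an

namespace Fuchs

variable {𝔊 : Type*} [Group 𝔊] [MulAction 𝔊 Circle] (Φ : Fuchs 𝔊) {g g' γ δ u : 𝔊} {x y : KD}
  {C R : ℝ} {H : Subgroup 𝔊} {ξ ζ a b c : Circle}

theorem inv_inv : Φ.inv.inv = Φ := by
  have key : ∀ Ψ Ψ' : Fuchs 𝔊, Ψ.toPreFuchs = Ψ'.toPreFuchs → Ψ = Ψ' := by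
    rintro ⟨P, _, _, _⟩ ⟨Q, _, _, _⟩ h
    obtain rfl : P = Q := h
    rfl
  exact key _ _ Φ.toPreFuchs.inv_inv

theorem op_of_ht (h : Φ.ht γ = 0) : OP γ := by
  intro a b c habc
  unfold Cyc at habc ⊢
  rw [Φ.bd_eq γ a h, Φ.bd_eq γ b h, Φ.bd_eq γ c h]
  have hL := Φ.lor γ
  rw [← hL.ori_kact a.norm_coe.le b.norm_coe.le c.norm_coe.le] at habc
  exact (mul_pos_iff_of_pos_left (mul_pos (mul_pos (hL.kmu_pos a.norm_coe.le)
    (hL.kmu_pos b.norm_coe.le)) (hL.kmu_pos c.norm_coe.le))).1 habc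

theorem segment_mv (h : Φ.ht γ = 0) (hx : x.val ∈ segment ℝ (a : ℂ) b) :
    (Φ.mv γ x).val ∈ segment ℝ ((γ • a : Circle) : ℂ) (γ • b : Circle) := by
  rw [Φ.bd_eq γ a h, Φ.bd_eq γ b h, Φ.mv_val]
  exact (Φ.lor γ).segment a.norm_coe.le b.norm_coe.le hx

theorem vis_mv (h : Φ.ht γ = 0) (x : KD) (a b : Circle) :
    vis (Φ.mv γ x).val (γ • a : Circle) (γ • b : Circle) = vis x.val a b := by
  rw [Φ.bd_eq γ a h, Φ.bd_eq γ b h, Φ.mv_val]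
  exact (Φ.lor γ).vis_kact x.lt a.norm_coe.le b.norm_coe.le

theorem bus_mv_fbasic (h : Φ.ht γ = 0) (x : KD) (a : Circle) :
    bus (Φ.mv γ x).val (γ • a : Circle) * kmu (Φ.L γ) a ^ 2 = bus x.val a := by
  rw [Φ.bd_eq γ a h, Φ.mv_val]
  exact (Φ.lor γ).bus_kact x.lt a.norm_coe.le

theorem centre_fbasic : ∃ R, ∀ x : KD, ∃ γ, Φ.ht γ = 0 ∧ dist (Φ.mv γ x) KD.o ≤ R := by
  obtain ⟨R, hR⟩ := Φ.exists_pt_near
  refine ⟨R, fun x => ?_⟩
  obtain ⟨γ, h0, h1⟩ := hR x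
  refine ⟨γ⁻¹, by rw [Φ.ht_inv, h0, neg_zero], ?_⟩
  rwa [← Φ.mv_inv_mv h0 KD.o, Φ.dist_mv]

theorem step_nhds (g : 𝔊) (C : ℝ) (ξ : Circle) {ε : ℝ} (hε : 0 < ε) : ∃ δ > 0, ∀ x y : KD,
    Φ.Step g C x y → ‖x.val - ξ‖ < δ → ‖y.val - (g • ξ : Circle)‖ < ε := by
  obtain ⟨δ₁, h₁, H₁⟩ := near_of_dist_le C hε
  obtain ⟨δ₂, h₂, H₂⟩ := Φ.bc g ξ δ₁ h₁
  obtain ⟨δ₃, h₃, H₃⟩ := near_of_dist_le C h₂
  refine ⟨δ₃, h₃, fun x y ⟨u, hx, hy⟩ h => ?_⟩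
  exact H₁ _ y _ (by rwa [dist_comm]) (H₂ u (H₃ x _ ξ hx h))

theorem step_tendsto {ι : Type*} {l : Filter ι} {x y : ι → KD} (h : ∀ i, Φ.Step g C (x i) (y i))
    (hx : Tendsto (fun i => (x i).val) l (𝓝 ξ)) :
    Tendsto (fun i => (y i).val) l (𝓝 (g • ξ : Circle)) := by
  rw [Metric.tendsto_nhds] at hx ⊢
  intro ε hε
  obtain ⟨δ, hδ, H⟩ := Φ.step_nhds g C ξ hε
  filter_upwards [hx δ hδ] with i hi
  rw [dist_eq_norm] at hi ⊢
  exact H _ _ (h i) hi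

theorem po_nhds (g : 𝔊) (C : ℝ) (ξ : Circle) (N : ℕ) {ε : ℝ} (hε : 0 < ε) : ∃ δ > 0,
    ∀ x : ℤ → KD, Φ.PO g C x → ‖(x 0).val - ξ‖ < δ → ‖(x N).val - (g ^ N • ξ : Circle)‖ < ε := by
  induction N generalizing ε with
  | zero => exact ⟨ε, hε, fun x _ h => by simpa using h⟩
  | succ N ih =>
    obtain ⟨δ₁, h₁, H₁⟩ := Φ.step_nhds g C (g ^ N • ξ) hε
    obtain ⟨δ₂, h₂, H₂⟩ := ih h₁
    refine ⟨δ₂, h₂, fun x hx h => ?_⟩
    rw [pow_succ', mul_smul, Nat.cast_succ]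
    exact H₁ _ _ (hx N) (H₂ x hx h)

theorem step_vis (g : 𝔊) (C : ℝ) {c : ℝ} (hc : 0 < c) : ∃ c' > 0, ∀ (x y : KD) (a b : Circle),
    Φ.Step g C x y → c ≤ vis x.val a b → c' ≤ vis y.val (g • a : Circle) (g • b : Circle) := by
  obtain ⟨R, hR⟩ := Φ.centre_fbasic
  obtain ⟨R', hR'⟩ := Φ.step_dist g C R
  obtain ⟨c₁, hc₁, H₁⟩ := vis_cmp R
  obtain ⟨c₂, hc₂, H₂⟩ := vis_cmp (R' + dist (Φ.pt g) KD.o)
  have hco : Continuous ((↑) : Circle → ℂ) := continuous_subtype_val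
  have hK : IsCompact {p : Circle × Circle | c / c₁ ≤ rho p.1 p.2} :=
    IsClosed.isCompact (X := Circle × Circle) (isClosed_le continuous_const
      (continuous_rho (hco.comp continuous_fst) (hco.comp continuous_snd)))
  obtain ⟨m, hm, Hm⟩ := hK.exists_forall_le' (a := 0)
    (f := fun p => rho (g • p.1 : Circle) (g • p.2 : Circle))
    (continuous_rho (hco.comp ((Φ.cont g).comp continuous_fst))
      (hco.comp ((Φ.cont g).comp continuous_snd))).continuousOn (by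
      rintro ⟨a, b⟩ hab
      refine rho_pos_of_ne (g • a).norm_coe.le fun h => ?_
      obtain rfl : a = b := MulAction.injective g (Circle.ext h)
      have h1 : c / c₁ ≤ rho a a := hab
      rw [rho_circle_self] at h1
      exact absurd h1 (not_le.2 (div_pos hc hc₁)))
  refine ⟨m / c₂, div_pos hm hc₂, fun x y a b hs hv => ?_⟩
  obtain ⟨γ, h0, h1⟩ := hR x
  have h0' : Φ.ht (g * γ * g⁻¹) = 0 := by rw [Φ.ht_conj, h0]
  have hC : 0 ≤ C := by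
    obtain ⟨u, hu, -⟩ := hs
    exact dist_nonneg.trans hu
  have h2 := hs.move _ h0 h0'
  rw [show g * γ * g⁻¹ * g * γ⁻¹ = g by group] at h2
  have h3 : Φ.Step g C KD.o (Φ.pt g) :=
    ⟨1, by rwa [Φ.pt_one, dist_self], by rwa [mul_one, dist_self]⟩
  have h4 : dist KD.o (Φ.mv (g * γ * g⁻¹) y) ≤ R' + dist (Φ.pt g) KD.o := by
    rw [dist_comm]
    exact (dist_triangle _ (Φ.pt g) _).trans (add_le_add (hR' _ _ _ _ h2 h3 h1) le_rfl)
  have h5 := H₁ _ _ h1 _ _ (γ • a).norm_coe.le (γ • b).norm_coe.le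
  have h6 := H₂ _ _ h4 _ _ ((g * γ * g⁻¹) • g • a).norm_coe.le ((g * γ * g⁻¹) • g • b).norm_coe.le
  rw [Φ.vis_mv h0] at h5
  rw [Φ.vis_mv h0'] at h6
  have h7 : ∀ η : Circle, (g * γ * g⁻¹) • g • η = g • γ • η := fun η => by
    rw [mul_smul, mul_smul, inv_smul_smul]
  rw [h7, h7] at h6
  have e : KD.o.val = 0 := rfl
  rw [e, vis_zero] at h5 h6
  have h8 := Hm (γ • a, γ • b) ((div_le_iff₀' hc₁).2 (hv.trans h5))
  exact (div_le_iff₀' hc₂).2 (h8.trans h6)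

omit Φ in
theorem centre_tri_fbasic {a b d : Circle} (hab : a ≠ b) (hbd : b ≠ d) (had : a ≠ d) :
    ∃ x : KD, 1 ≤ vis x.val a b ∧ 1 ≤ vis x.val b d ∧ 1 ≤ vis x.val a d := by
  have hr : 0 < rho a b := rho_pos_of_ne a.norm_coe.le fun h => hab (Circle.ext h)
  have hA : 0 < rho a d := rho_pos_of_ne a.norm_coe.le fun h => had (Circle.ext h)
  have hB : 0 < rho b d := rho_pos_of_ne b.norm_coe.le fun h => hbd (Circle.ext h)
  set s := rho a d / (rho a d + rho b d) with hs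
  have hs' : 1 - s = rho b d / (rho a d + rho b d) := by
    rw [hs]
    field_simp
    ring
  set x : ℂ := (1 - s) • (a : ℂ) + s • (b : ℂ) with hx
  have h1 : rho x a = s * rho a b := by
    rw [hx, rho_affine, rho_circle_self, rho_comm b a, mul_zero, zero_add]
  have h2 : rho x b = (1 - s) * rho a b := by
    rw [hx, rho_affine, rho_circle_self, mul_zero, add_zero]
  have h3 : rho x d = (1 - s) * rho a d + s * rho b d := rho_affine _ _ _ _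
  have h4 : rho x x = (1 - s) * (s * rho a b) + s * ((1 - s) * rho a b) := by
    rw [← h1, ← h2, rho_comm x a, rho_comm x b]
    exact rho_affine _ _ _ _
  rw [hs'] at h2 h3 h4
  rw [hs] at h1 h3 h4
  refine ⟨⟨x, norm_lt_one_of_rho (by rw [h4]; positivity)⟩, ?_, ?_, ?_⟩
  · change 1 ≤ vis x a b
    rw [vis, h1, h2, h4, one_le_div (by positivity)]
    refine le_of_sub_nonneg (le_of_le_of_eq (b := rho a d / (rho a d + rho b d) * rho a b *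
      (rho b d / (rho a d + rho b d) * rho a b)) (by positivity) (by ring))
  · change 1 ≤ vis x b d
    rw [vis, h2, h3, h4, one_le_div (by positivity)]
    exact le_of_eq (by ring)
  · change 1 ≤ vis x a d
    rw [vis, h1, h3, h4, one_le_div (by positivity)]
    exact le_of_eq (by ring)

/-- Cocompactness on triples. -/
theorem tri : ∃ c > 0, ∀ a b d : Circle, a ≠ b → b ≠ d → a ≠ d → ∃ γ, Φ.ht γ = 0 ∧
    c ≤ rho (γ • a : Circle) (γ • b : Circle) ∧ c ≤ rho (γ • b : Circle) (γ • d : Circle) ∧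
    c ≤ rho (γ • a : Circle) (γ • d : Circle) := by
  obtain ⟨R, hR⟩ := Φ.centre_fbasic
  obtain ⟨c, hc, H⟩ := vis_cmp R
  refine ⟨1 / c, by positivity, fun a b d hab hbd had => ?_⟩
  obtain ⟨x, h1, h2, h3⟩ := centre_tri_fbasic hab hbd had
  obtain ⟨γ, h0, h4⟩ := hR x
  have key : ∀ p q : Circle, 1 ≤ vis x.val p q → 1 / c ≤ rho (γ • p : Circle) (γ • q : Circle) := by
    intro p q h
    have h5 := H _ _ h4 _ _ (γ • p).norm_coe.le (γ • q).norm_coe.le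
    have e : KD.o.val = 0 := rfl
    rw [Φ.vis_mv h0, e, vis_zero] at h5
    exact (div_le_iff₀' hc).2 (h.trans h5)
  exact ⟨γ, h0, key _ _ h1, key _ _ h2, key _ _ h3⟩

theorem conv_smul {ι : Type*} {l : Filter ι} {f : ι → 𝔊} {η : ι → Circle} {α β : Circle} {c : ℝ}
    (h0 : ∀ i, Φ.ht (f i) = 0) (hα : Tendsto (fun i => (Φ.pt (f i)).val) l (𝓝 α))
    (hβ : Tendsto (fun i => (Φ.pt (f i)⁻¹).val) l (𝓝 β)) (hc : 0 < c)
    (hη : ∀ᶠ i in l, c ≤ rho (η i) β) : Tendsto (fun i => f i • η i) l (𝓝 α) := by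
  have h1 := Φ.conv h0 hα hβ hc (fun i => (η i).norm_coe.le) hη
  refine tendsto_subtype_rng.2 (h1.congr fun i => ?_)
  exact (Φ.bd_eq _ _ (h0 i)).symm

theorem smul_mem_lim {H' : Subgroup 𝔊} (u : 𝔊) (h0 : ∀ h ∈ H, Φ.ht h = 0)
    (hH : ∀ h ∈ H, u * h * u⁻¹ ∈ H') (hξ : ξ ∈ Φ.Lim H) : u • ξ ∈ Φ.Lim H' := by
  obtain ⟨z, hz, hlim⟩ := mem_closure_iff_seq_limit.1 hξ
  choose h hh he using hz
  have h1 : Tendsto (fun n => (Φ.pt (h n)).val) atTop (𝓝 ξ) := hlim.congr fun n => (he n).symm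
  refine Φ.mem_lim_of_near (R := dist (Φ.pt u) KD.o) (x := fun n => Φ.pt (u * h n))
    (fun n => ⟨_, hH _ (hh n), ?_⟩)
    (Φ.step_tendsto (C := 0) (fun n => ⟨h n, (dist_self _).le, (dist_self _).le⟩) h1)
  have h2 : Φ.ht (u * h n * u⁻¹) = 0 := by rw [Φ.ht_conj, h0 _ (hh n)]
  have h3 := Φ.pt_mul h2 u
  rw [inv_mul_cancel_right] at h3
  rw [h3]
  exact (Φ.dist_mv _ _ _).le

theorem smul_mem_lim_cen (u : 𝔊) : u • ξ ∈ Φ.Lim (Φ.Cen (u * g * u⁻¹)) ↔ ξ ∈ Φ.Lim (Φ.Cen g) := by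
  constructor
  · intro h
    have h1 := Φ.smul_mem_lim (H' := Φ.Cen g) u⁻¹ (fun k hk => (Φ.mem_cen.1 hk).1) (fun k hk => ?_) h
    · rwa [inv_smul_smul] at h1
    · rw [← Φ.mem_cen_conj u, show u * (u⁻¹ * k * u⁻¹⁻¹) * u⁻¹ = k by group]
      exact hk
  · exact Φ.smul_mem_lim u (fun k hk => hk.1) fun k hk => (Φ.mem_cen_conj u).2 hk

theorem hbfree_conj {H' : Subgroup 𝔊} (hγ : Φ.ht γ = 0) (hH : ∀ h ∈ H, Φ.ht h = 0)
    (hH' : ∀ h ∈ H', γ⁻¹ * h * γ ∈ H) (h : Φ.HBfree H ζ) : Φ.HBfree H' (γ • ζ) := by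
  obtain ⟨β, hβ, Hβ⟩ := h.bus_near _ (dist (Φ.pt γ⁻¹) KD.o)
  have hk := (Φ.lor γ).kmu_pos ζ.norm_coe.le
  refine ⟨β / kmu (Φ.L γ) ζ ^ 2, by positivity, fun k hk' => ?_⟩
  have h1 := hH' k hk'
  have h2 : Φ.pt k = Φ.mv γ (Φ.mv (γ⁻¹ * k * γ) (Φ.pt γ⁻¹)) := by
    rw [← Φ.pt_mul (hH _ h1), ← Φ.pt_mul hγ, show γ * (γ⁻¹ * k * γ * γ⁻¹) = k by group]
  rw [div_le_iff₀ (by positivity), h2, Φ.bus_mv_fbasic hγ]
  exact Hβ _ ((Φ.near_self H _).mv _ h1 (hH _ h1))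

set_option linter.unusedVariables false in
/-- A subgroup acts properly on the complement of its limit set in the closed disc. -/
theorem finite_meet (hH : ∀ h ∈ H, Φ.ht h = 0) {K K' : Set ℂ} (hK : IsCompact K)
    (hK' : IsCompact K') (h1 : K ⊆ closedBall 0 1) (h1' : K' ⊆ closedBall 0 1)
    (hd : ∀ ξ ∈ Φ.Lim H, (ξ : ℂ) ∉ K) (hd' : ∀ ξ ∈ Φ.Lim H, (ξ : ℂ) ∉ K') :
    {h | h ∈ H ∧ ∃ x ∈ K, kact (Φ.L h) x ∈ K'}.Finite := by
  by_contra hinf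
  let f := Set.Infinite.natEmbedding _ hinf
  have hf : ∀ n, (f n).1 ∈ H := fun n => (f n).2.1
  choose x hx hx' using fun n => (f n).2.2
  have h0 : ∀ n, Φ.ht (f n).1 = 0 := fun n => hH _ (hf n)
  obtain ⟨α, β, φ, -, hα, hβ⟩ := Φ.exists_conv h0
    (Φ.tendsto_dist_of_injective h0 (Subtype.val_injective.comp f.injective))
  have hαH : α ∈ Φ.Lim H :=
    Φ.mem_lim_of_near (R := 0) (fun n => ⟨_, hf (φ n), (dist_self _).le⟩) hα
  have hβH : β ∈ Φ.Lim H :=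
    Φ.mem_lim_of_near (R := 0) (fun n => ⟨_, H.inv_mem (hf (φ n)), (dist_self _).le⟩) hβ
  obtain ⟨m, hm, Hm⟩ := hK.exists_forall_le' (a := 0) (f := fun z => rho z β)
    (continuous_rho continuous_id continuous_const).continuousOn fun z hz =>
      rho_pos_of_ne (mem_closedBall_zero_iff.1 (h1 hz)) fun h => hd β hβH (h ▸ hz)
  have h2 := Φ.conv (y := fun n => x (φ n)) (fun n => h0 (φ n)) hα hβ hm
    (fun n => mem_closedBall_zero_iff.1 (h1 (hx _))) (Eventually.of_forall fun n => Hm _ (hx _))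
  exact hd' α hαH (hK'.isClosed.mem_of_tendsto h2 (Eventually.of_forall fun n => hx' _))

theorem exists_dirichlet_bd (hH : ∀ h ∈ H, Φ.ht h = 0) (hζ : ζ ∉ Φ.Lim H) :
    ∃ h ∈ H, ∀ h' ∈ H, 1 ≤ bus (Φ.pt h').val (h • ζ : Circle) := by
  obtain ⟨ε, hε, Hε⟩ := Φ.not_near_of_notMem hζ 0
  obtain ⟨R, hR⟩ := dist_le_of_rho (1 / ε ^ 2)
  have e : KD.o.val = 0 := rfl
  have hb : ∀ η : Circle, bus KD.o.val η = 1 := fun η => by
    rw [e, bus, rho_zero_left, rho_zero_left, one_pow, div_one]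
  have hfin : {h | h ∈ H ∧ bus (Φ.pt h).val ζ ≤ 1}.Finite := by
    refine (Φ.finite_pt KD.o R).subset fun h hh => ⟨hH h hh.1, hR _ _ ?_⟩
    have h1 : ε ≤ rho (Φ.pt h).val ζ := not_lt.1 fun h2 => Hε _ h2 ⟨h, hh.1, (dist_self _).le⟩
    have h2 := hh.2
    rw [bus, div_le_one (Φ.pt h).rho_pos] at h2
    rw [e, rho_comm _ 0, rho_zero_left, rho_zero_left, mul_one, one_pow, div_mul_eq_mul_div,
      one_mul, one_le_div (by positivity)]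
    exact (pow_le_pow_left₀ hε.le h1 2).trans h2
  have hone : (1 : 𝔊) ∈ {h | h ∈ H ∧ bus (Φ.pt h).val ζ ≤ 1} :=
    ⟨H.one_mem, by rw [Φ.pt_one, hb]⟩
  obtain ⟨k, hk, Hk⟩ := Set.exists_min_image _ (fun h => bus (Φ.pt h).val ζ) hfin ⟨1, hone⟩
  have hmin : ∀ h ∈ H, bus (Φ.pt k).val ζ ≤ bus (Φ.pt h).val ζ := fun h hh =>
    (le_total (bus (Φ.pt h).val ζ) 1).elim (fun h1 => Hk h ⟨hh, h1⟩) fun h1 => hk.2.trans h1
  have h0 := hH _ (H.inv_mem hk.1)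
  refine ⟨k⁻¹, H.inv_mem hk.1, fun h hh => ?_⟩
  have h1 := Φ.bus_mv_fbasic h0 (Φ.pt k) ζ
  have h2 := Φ.bus_mv_fbasic h0 (Φ.pt (k * h)) ζ
  rw [← Φ.pt_mul h0, inv_mul_cancel, Φ.pt_one, hb] at h1
  rw [← Φ.pt_mul h0, inv_mul_cancel_left] at h2
  have h3 := hmin _ (H.mul_mem hk.1 hh)
  rw [← h1, ← h2] at h3
  exact le_of_mul_le_mul_right h3 (pow_pos ((Φ.lor _).kmu_pos ζ.norm_coe.le) 2)

theorem isCompact_dirichlet_bd (H : Subgroup 𝔊) :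
    IsCompact {ζ : Circle | ∀ h ∈ H, 1 ≤ bus (Φ.pt h).val ζ} := by
  refine IsClosed.isCompact ?_
  simp only [ofPred_forall]
  refine isClosed_iInter fun h => isClosed_iInter fun _ => isClosed_le continuous_const ?_
  exact ((continuous_rho continuous_const continuous_subtype_val).pow 2).div_const _

end Fuchs

end Pool.Agent.P.MP_788ef7_an
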