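import Pool.Agent.P.MP_788ef7_an.KDefs

/-!
A cocompact torsion-free Fuchsian group `Γ` extended by an automorphism, acting on the circle.
The group `Γ` is the kernel of the height `ht`.
-/

set_option autoImplicit false

open Set Filter Topology

namespace Pool.Agent.P.MP_788ef7_an

noncomputable section

/-- A group with a height whose kernel acts as a cocompact Fuchsian group. For `u = γ * t ^ k`
with `ht γ = 0` the matrix `L u` is the matrix of `γ`. -/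
structure PreFuchs (𝔊 : Type*) [Group 𝔊] where
  ht : 𝔊 → ℤ
  ht_mul : ∀ g h, ht (g * h) = ht g + ht h
  t : 𝔊
  ht_t : ht t = 1
  L : 𝔊 → (ℝ × ℂ →L[ℝ] ℝ × ℂ)
  lor : ∀ g, IsLor (L g)
  L_one : L 1 = ContinuousLinearMap.id ℝ _
  L_mul : ∀ γ u, ht γ = 0 → L (γ * u) = (L γ).comp (L u)
  L_t : ∀ u, L (u * t) = L u
  proper : ∀ R : ℝ, {γ | ht γ = 0 ∧ dist (lmv (L γ) (lor γ) KD.o) KD.o ≤ R}.Finite
  free : ∀ γ x, ht γ = 0 → lmv (L γ) (lor γ) x = x → γ = 1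
  cocpt : ∃ R : ℝ, ∀ x, ∃ γ, ht γ = 0 ∧ dist x (lmv (L γ) (lor γ) KD.o) ≤ R

namespace PreFuchs

variable {𝔊 : Type*} [Group 𝔊] (Φ : PreFuchs 𝔊)

/-- The action on the Klein model (an action only on elements of height zero). -/
def mv (g : 𝔊) (x : KD) : KD := lmv (Φ.L g) (Φ.lor g) x

/-- The orbit map. -/
def pt (g : 𝔊) : KD := Φ.mv g KD.o

theorem ht_one : Φ.ht 1 = 0 := by
  have := Φ.ht_mul 1 1
  rw [one_mul] at this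
  omega

theorem ht_inv (g : 𝔊) : Φ.ht g⁻¹ = -Φ.ht g := by
  have := Φ.ht_mul g g⁻¹
  rw [mul_inv_cancel, Φ.ht_one] at this
  omega

/-- The centraliser of `g` in `Γ`. -/
def Cen (g : 𝔊) : Subgroup 𝔊 where
  carrier := {γ | Φ.ht γ = 0 ∧ γ * g = g * γ}
  one_mem' := ⟨Φ.ht_one, by simp⟩
  mul_mem' := fun {a b} ha hb => ⟨by rw [Φ.ht_mul, ha.1, hb.1]; rfl, by
    rw [mul_assoc, hb.2, ← mul_assoc, ha.2, mul_assoc]⟩
  inv_mem' := fun {a} ha => ⟨by rw [Φ.ht_inv, ha.1]; rfl,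
    (Commute.inv_left (show Commute a g from ha.2)).eq⟩

/-- The limit set of a subgroup of `Γ`. -/
def Lim (H : Subgroup 𝔊) : Set Circle :=
  {ξ | (ξ : ℂ) ∈ closure ((fun h => (Φ.pt h).val) '' (H : Set 𝔊))}

/-- `y` is coarsely the image of `x` under `g`. -/
def Step (g : 𝔊) (C : ℝ) (x y : KD) : Prop :=
  ∃ u, dist x (Φ.pt u) ≤ C ∧ dist y (Φ.pt (g * u)) ≤ C

/-- A coarse orbit of `g`. -/
def PO (g : 𝔊) (C : ℝ) (x : ℤ → KD) : Prop := ∀ n, Φ.Step g C (x n) (x (n + 1))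

/-- `x` is within `R` of the orbit of `H`. -/
def Near (H : Subgroup 𝔊) (R : ℝ) (x : KD) : Prop := ∃ h ∈ H, dist x (Φ.pt h) ≤ R

/-- `ξ` attracts coarse orbits of `g` arbitrarily strongly. -/
def SAttr (g : 𝔊) (ξ : Circle) : Prop :=
  ∀ C θ : ℝ, 0 < θ → ∃ ε > 0, ∀ x y : KD, Φ.Step g C x y → rho x.val ξ < ε →
    rho y.val ξ ≤ θ * rho x.val ξ

/-- Some horoball at `ζ` misses the orbit of `H`. -/
def HBfree (H : Subgroup 𝔊) (ζ : Circle) : Prop := ∃ β > 0, ∀ h ∈ H, β ≤ bus (Φ.pt h).val ζ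

/-- The same data with the height reversed. -/
def inv : PreFuchs 𝔊 where
  ht g := -Φ.ht g
  ht_mul g h := by rw [Φ.ht_mul]; ring
  t := Φ.t⁻¹
  ht_t := by rw [Φ.ht_inv, Φ.ht_t]; rfl
  L := Φ.L
  lor := Φ.lor
  L_one := Φ.L_one
  L_mul γ u h := Φ.L_mul γ u (by omega)
  L_t u := by rw [← Φ.L_t (u * Φ.t⁻¹), inv_mul_cancel_right]
  proper R := by simpa only [neg_eq_zero] using Φ.proper R
  free γ x h := Φ.free γ x (by omega)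
  cocpt := by simpa only [neg_eq_zero] using Φ.cocpt

end PreFuchs

section Circ

variable {𝔊 : Type*} [Group 𝔊] [MulAction 𝔊 Circle]

/-- `g` preserves the cyclic order. -/
def OP (g : 𝔊) : Prop := ∀ a b c : Circle, Cyc a b c → Cyc (g • a) (g • b) (g • c)

/-- The fixed points on the circle. -/
def Fix (g : 𝔊) : Set Circle := {ξ | g • ξ = ξ}

/-- `g` preserves the cyclic order and has a fixed point. -/
def Stable (g : 𝔊) : Prop := OP g ∧ (Fix g).Nonempty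

/-- `g` has three fixed points. -/
def Ess (g : 𝔊) : Prop := ∃ a ∈ Fix g, ∃ b ∈ Fix g, ∃ c ∈ Fix g, a ≠ b ∧ b ≠ c ∧ a ≠ c

/-- `ξ` has arbitrarily small forward invariant neighbourhoods that it attracts. -/
def TAttr (g : 𝔊) (ξ : Circle) : Prop :=
  ∀ V ∈ 𝓝 ξ, ∃ W ∈ 𝓝 ξ, W ⊆ V ∧
    ∀ η ∈ W, g • η ∈ W ∧ Tendsto (fun n : ℕ => g ^ n • η) atTop (𝓝 ξ)

end Circ

/-- A `PreFuchs` with its action on the circle at infinity. -/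
structure Fuchs (𝔊 : Type*) [Group 𝔊] [MulAction 𝔊 Circle] extends PreFuchs 𝔊 where
  cont : ∀ g : 𝔊, Continuous fun ξ : Circle => g • ξ
  bd_eq : ∀ (γ : 𝔊) (ξ : Circle), ht γ = 0 → ((γ • ξ : Circle) : ℂ) = kact (L γ) ξ
  bc : ∀ (g : 𝔊) (ξ : Circle) (ε : ℝ), 0 < ε → ∃ δ > 0, ∀ u,
    ‖(toPreFuchs.pt u).val - ξ‖ < δ → ‖(toPreFuchs.pt (g * u)).val - (g • ξ : Circle)‖ < ε

namespace Fuchs

variable {𝔊 : Type*} [Group 𝔊] [MulAction 𝔊 Circle] (Φ : Fuchs 𝔊)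

/-- The same data with the height reversed. -/
def inv : Fuchs 𝔊 where
  toPreFuchs := Φ.toPreFuchs.inv
  cont := Φ.cont
  bd_eq γ ξ h := Φ.bd_eq γ ξ (neg_eq_zero.1 h)
  bc := Φ.bc

/-- `γ ∈ Γ` is hyperbolic with attracting point `a` and repelling point `b`. -/
structure Ax (γ : 𝔊) (a b : Circle) : Prop where
  ht0 : Φ.ht γ = 0
  ne : a ≠ b
  fa : γ • a = a
  fb : γ • b = b
  mu : 1 < kmu (Φ.L γ) a

/-- Attracting fixed points outside the limit set of the centraliser. -/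
def Att (g : 𝔊) (ξ : Circle) : Prop := g • ξ = ξ ∧ ξ ∉ Φ.Lim (Φ.Cen g) ∧ TAttr g ξ

/-- The limit set of the centraliser together with the repelling points. -/
def RSet (g : 𝔊) : Set Circle := Φ.Lim (Φ.Cen g) ∪ {ξ | Φ.Att g⁻¹ ξ}

/-- `g` has trivial centraliser, two attracting and two repelling points. -/
structure Reg (g : 𝔊) (a₁ a₂ r₁ r₂ : Circle) : Prop where
  op : OP g
  cen : Φ.Cen g = ⊥
  fix : ∀ ξ, g • ξ = ξ → ξ = a₁ ∨ ξ = a₂ ∨ ξ = r₁ ∨ ξ = r₂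
  att₁ : Φ.Att g a₁
  att₂ : Φ.Att g a₂
  rep₁ : Φ.Att g⁻¹ r₁
  rep₂ : Φ.Att g⁻¹ r₂
  ne_a : a₁ ≠ a₂
  ne_r : r₁ ≠ r₂

/-- Regular elements. -/
def Regular (g : 𝔊) : Prop := ∃ a₁ a₂ r₁ r₂, Φ.Reg g a₁ a₂ r₁ r₂

/-- The data of a maximal piece of zero entropy. -/
structure Core (H : Subgroup 𝔊) (g : 𝔊) : Prop where
  le : ∀ h ∈ H, Φ.ht h = 0
  pos : 0 < Φ.ht g
  op : OP g
  norm : ∀ h, h ∈ H ↔ g * h * g⁻¹ ∈ H
  star : ∀ ζ, Φ.HBfree H ζ → ∃ u ∈ H, ∃ a ∉ Φ.Lim H,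
    (Φ.Att (u * g) a ∧ Tendsto (fun n : ℕ => (u * g) ^ n • ζ) atTop (𝓝 a)) ∨
    (Φ.Att (u * g)⁻¹ a ∧ Tendsto (fun n : ℕ => (u * g)⁻¹ ^ n • ζ) atTop (𝓝 a))
  fin : ∃ T : Set 𝔊, T.Finite ∧ (∀ E ∈ T, 0 < Φ.ht E ∧ Stable E ∧ Φ.Cen E ≤ H) ∧
    ∀ h ∈ H, ∀ j : ℕ, 1 ≤ j → Stable (h * g ^ j) → Ess (h * g ^ j) →
      ∃ E ∈ T, ∃ h' ∈ H, ∃ a b : ℕ, 1 ≤ a ∧ 1 ≤ b ∧ (h * g ^ j) ^ a = h' * E ^ b * h'⁻¹
  uni : ∀ θ : 𝔊 → ℂ, (∀ a ∈ H, ∀ b ∈ H, θ (a * b) = θ a + θ b) → ∀ γ ∈ H,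
    θ (g ^ 2 * γ * (g ^ 2)⁻¹) - θ (g * γ * g⁻¹) = θ (g * γ * g⁻¹) - θ γ

/-- Stable essential elements of height `k` that are not regular. -/
def NR (k : ℕ) (g : 𝔊) : Prop := Φ.ht g = k ∧ Stable g ∧ Ess g ∧ ¬ Φ.Regular g

/-- Every stable essential non-regular element has the fixed points of an element of height `k`,
and these form finitely many conjugacy classes under `Γ`. -/
structure Classes (k : ℕ) (T : Set 𝔊) : Prop where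
  pos : 1 ≤ k
  fin : T.Finite
  nr : ∀ E ∈ T, Φ.NR k E
  conj : ∀ g, Φ.NR k g → ∃ E ∈ T, ∃ γ, Φ.ht γ = 0 ∧ g = γ * E * γ⁻¹
  rep : ∀ G, 0 < Φ.ht G → Stable G → Ess G → ¬ Φ.Regular G → ∃ g, Φ.NR k g ∧ Fix g = Fix G

/-- Neighbours: both centralise a common nontrivial element of `Γ`. -/
def Nb (k : ℕ) (g g' : 𝔊) : Prop :=
  Φ.NR k g ∧ Φ.NR k g' ∧ ∃ δ, δ ≠ 1 ∧ δ ∈ Φ.Cen g ∧ δ ∈ Φ.Cen g'

/-- The component of `g₀`. -/
def Cpt (k : ℕ) (g₀ : 𝔊) : Set 𝔊 := {g | Relation.ReflTransGen (Φ.Nb k) g₀ g}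

/-- `H` is the stabiliser in `Γ` of the component of `g₀`. -/
def IsStab (k : ℕ) (g₀ : 𝔊) (H : Subgroup 𝔊) : Prop :=
  ∀ γ, γ ∈ H ↔ Φ.ht γ = 0 ∧ γ * g₀ * γ⁻¹ ∈ Φ.Cpt k g₀

end Fuchs

end

end Pool.Agent.P.MP_788ef7_an
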