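import Pool.Agent.P.MP_788ef7_an.Niel1

set_option autoImplicit false

open Set Filter Topology Metric

namespace Pool.Agent.P.MP_788ef7_an

namespace Fuchs

variable {𝔊 : Type*} [Group 𝔊] [MulAction 𝔊 Circle] {Φ : Fuchs 𝔊} {g g' γ δ u u' G g₀ : 𝔊}
  {H : Subgroup 𝔊} {ξ η ζ a b c d p q a₁ a₂ r₁ r₂ a₁' a₂' r₁' r₂' : Circle} {k : ℕ} {T : Set 𝔊}

theorem zfix_nielgap (h : g • p = p) (n : ℤ) : g ^ n • p = p :=
  MulAction.mem_fixedBy_zpow (α := Circle) h n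

theorem fund_nielgap (h : Φ.Ax δ q p) (hξ : ξ ∈ arc p q) :
    ∃ K₀ K₁ : Set Circle, IsCompact K₀ ∧ IsCompact K₁ ∧ ξ ∈ K₀ ∧
      K₀ ⊆ arc p q ∧ K₁ ⊆ arc p q ∧ (∀ η ∈ arc p q, ∃ n : ℤ, δ ^ n • η ∈ K₀) ∧
      ∀ g : 𝔊, OP g → g • p = p → δ * g = g * δ → g • ξ ∈ K₀ → ∀ η ∈ K₀, g⁻¹ • η ∈ K₁ := by
  obtain ⟨s, s', c', -, ss', s's, s'n, hc, -⟩ := exists_chart p
  have lt : ∀ x y, x ≠ p → y ≠ p → (Cyc p x y ↔ s x < s y) := fun x y hx hy => by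
    rw [← hc, s's x hx, s's y hy]
  have ne : ∀ u : 𝔊, u • p = p → ∀ x, x ≠ p → u • x ≠ p := fun u hu x hx e =>
    hx (smul_left_cancel u (e.trans hu.symm))
  have le : ∀ u : 𝔊, OP u → u • p = p → ∀ x y, x ≠ p → y ≠ p →
      s x ≤ s y → s (u • x) ≤ s (u • y) := fun u ho hu x y hx hy hxy => by
    rw [← not_lt, ← lt _ _ (ne u hu y hy) (ne u hu x hx), ← hu, ho.cyc_iff, lt _ _ hy hx]
    exact hxy.not_gt
  have mem : ∀ x a b, x ∈ s' '' Icc a b ↔ x ≠ p ∧ a ≤ s x ∧ s x ≤ b := fun x a b =>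
    ⟨fun ⟨r, hr, e⟩ => e ▸ ⟨s'n r, by rwa [ss']⟩, fun hx => ⟨s x, hx.2, s's x hx.1⟩⟩
  have ho := Φ.op_of_ht h.ht0
  have st := fun n : ℤ => ho.stay h.fb h.fa hξ n
  have np : ∀ x ∈ arc p q, x ≠ p := fun x hx => (Cyc.ne₁₂ hx).symm
  have fz : ∀ n : ℤ, δ ^ n • p = p := fun n => zfix_nielgap h.fb n
  have s1 : δ • ξ ∈ arc p q := by simpa using st 1
  have sub : ∀ a, s' '' Icc a (s (δ • ξ)) ⊆ arc p q := fun a x hx => by
    obtain ⟨x1, -, x2⟩ := (mem _ _ _).1 hx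
    exact (lt _ _ x1 h.ne).2 (x2.trans_lt ((lt _ _ (np _ s1) h.ne).1 s1))
  have cov : ∀ η ∈ arc p q, ∃ n : ℤ, δ ^ n • η ∈ s' '' Icc (s ξ) (s (δ • ξ)) := by
    intro η hη
    have : ∃ m : ℤ, s (δ ^ m • ξ) ≤ s η ∧ s η ≤ s (δ ^ (m + 1) • ξ) := by
      by_contra! hn
      obtain ⟨n, hn₀⟩ := (Cyc.eventually hη (h.symm.tendsto (Cyc.ne₂₃ hξ)) tendsto_const_nhds
        tendsto_const_nhds).exists
      obtain ⟨m, hm⟩ := (Cyc.eventually hη tendsto_const_nhds tendsto_const_nhds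
        (h.tendsto (np ξ hξ))).exists
      rw [inv_pow, ← zpow_natCast, ← zpow_neg] at hn₀
      have h1 : s (δ ^ (-(n : ℤ)) • ξ) ≤ s η :=
        ((lt _ _ (np _ (st _)) (np _ hη)).1
          ((Cyc.rot (Cyc.rot (st _))).trans' hn₀.rot.rot)).le
      have h2 : ∀ k : ℤ, -(n : ℤ) ≤ k → s (δ ^ k • ξ) ≤ s η := fun k hk =>
        Int.leInduction h1 (fun k _ ih => (hn k ih).le) k hk
      rw [← zpow_natCast, lt _ _ (np _ hη) (np _ (st _))] at hm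
      exact hm.not_ge (h2 m (by omega))
    obtain ⟨m, m1, m2⟩ := this
    have a1 := le _ (ho.zpow (-m)) (fz _) _ _ (np _ (st _)) (np _ hη) m1
    have a2 := le _ (ho.zpow (-m)) (fz _) _ _ (np _ hη) (np _ (st _)) m2
    rw [← mul_smul, ← zpow_add] at a1 a2
    simp only [neg_add_cancel, zpow_zero, one_smul, neg_add_cancel_left, zpow_one] at a1 a2
    exact ⟨-m, (mem _ _ _).2 ⟨ne _ (fz _) _ (np _ hη), a1, a2⟩⟩
  refine ⟨s' '' Icc (s ξ) (s (δ • ξ)), s' '' Icc (s (δ⁻¹ • ξ)) (s (δ • ξ)),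
    isCompact_Icc.image c', isCompact_Icc.image c', ?_, sub _, sub _, cov, ?_⟩
  · obtain ⟨n, hn⟩ := cov ξ hξ
    obtain ⟨-, a1, a2⟩ := (mem _ _ _).1 hn
    exact (mem _ _ _).2 ⟨np _ hξ, le_rfl, a1.trans a2⟩
  · intro g hg gp hgc h₀ η hη
    obtain ⟨x0, x1, x2⟩ := (mem _ _ _).1 h₀
    obtain ⟨y0, y1, y2⟩ := (mem _ _ _).1 hη
    have gp' : g⁻¹ • p = p := inv_smul_eq_iff.2 gp.symm
    have dp' : δ⁻¹ • p = p := inv_smul_eq_iff.2 h.fb.symm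
    have e : g⁻¹ • δ • ξ = δ • g⁻¹ • ξ := by
      rw [← mul_smul, ← mul_smul, (Commute.inv_right (show Commute δ g from hgc)).eq]
    have b1 := le _ hg.inv gp' _ _ (np _ hξ) y0 y1
    have b2 := le _ hg.inv gp' _ _ y0 (np _ s1) y2
    have b3 := le _ hg.inv gp' _ _ (np _ hξ) x0 x1
    have b4 := le _ hg.inv gp' _ _ x0 (np _ s1) x2
    have n1 := ne _ gp' _ (np _ hξ)
    rw [inv_smul_smul] at b3 b4
    rw [e] at b2 b4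
    have b5 := le _ ho.inv dp' _ _ (np _ hξ) (ne _ h.fb _ n1) b4
    rw [inv_smul_smul] at b5
    exact (mem _ _ _).2 ⟨ne _ gp' _ y0, b5.trans b1, b2.trans (le _ ho h.fb _ _ n1 (np _ hξ) b3)⟩

theorem exists_fund (h0 : Φ.ht δ = 0) (h1 : δ ≠ 1) (hp : δ • p = p) (hq : δ • q = q)
    (hξ : ξ ∈ arc p q) : ∃ K₀ K₁ : Set Circle, IsCompact K₀ ∧ IsCompact K₁ ∧ ξ ∈ K₀ ∧
      K₀ ⊆ arc p q ∧ K₁ ⊆ arc p q ∧ (∀ η ∈ arc p q, ∃ n : ℤ, δ ^ n • η ∈ K₀) ∧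
      ∀ g : 𝔊, OP g → g • p = p → g • q = q → δ * g = g * δ → g • ξ ∈ K₀ →
        ∀ η ∈ K₀, g⁻¹ • η ∈ K₁ := by
  rcases ax_of_fix h0 h1 hq hp (Cyc.ne₁₃ hξ).symm with h | h
  · obtain ⟨K₀, K₁, a1, a2, a3, a4, a5, a6, a7⟩ := fund_nielgap h hξ
    exact ⟨K₀, K₁, a1, a2, a3, a4, a5, a6, fun g hg gp _ => a7 g hg gp⟩
  · obtain ⟨K₀, K₁, a1, a2, a3, a4, a5, a6, a7⟩ := fund_nielgap h.symm hξ
    refine ⟨K₀, K₁, a1, a2, a3, a4, a5, fun η hη => ?_, fun g hg gp _ hc =>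
      a7 g hg gp (Commute.inv_left (show Commute δ g from hc)).eq⟩
    obtain ⟨n, hn⟩ := a6 η hη
    exact ⟨-n, by rwa [zpow_neg, ← inv_zpow]⟩

/-- The same on one side of an invariant axis. -/
theorem nielsen_gap (h0 : Φ.ht δ = 0) (h1 : δ ≠ 1) (hp : δ • p = p) (hq : δ • q = q) (hpq : p ≠ q)
    (hg : OP g) (hgp : g • p = p) (hgq : g • q = q) : ∃ (u : 𝔊) (j : ℕ), Φ.ht u = 0 ∧ u • p = p ∧
      u • q = q ∧ 1 ≤ j ∧ ∃ ξ ∈ arc p q, (u * g ^ j) • ξ = ξ := by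
  by_contra hno
  have hc : Commute δ g := comm_of_fix_end h0 h1 hp hgp
  have ho := Φ.op_of_ht h0
  have mu : ∀ a j a' j' : ℤ, δ ^ a * g ^ j * (δ ^ a' * g ^ j') = δ ^ (a + a') * g ^ (j + j') :=
    fun a j a' j' => by
      rw [zpow_add, zpow_add, (hc.zpow_zpow a' j).symm.mul_mul_mul_comm]
  have iv : ∀ a j : ℤ, (δ ^ a * g ^ j)⁻¹ = δ ^ (-a) * g ^ (-j) := fun a j =>
    inv_eq_of_mul_eq_one_right (by rw [mu]; simp)
  let A : Subgroup 𝔊 :=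
    { carrier := {x | ∃ a j : ℤ, x = δ ^ a * g ^ j}
      one_mem' := ⟨0, 0, by simp⟩
      mul_mem' := by
        rintro _ _ ⟨a, j, rfl⟩ ⟨a', j', rfl⟩
        exact ⟨_, _, mu ..⟩
      inv_mem' := by
        rintro _ ⟨a, j, rfl⟩
        exact ⟨_, _, iv ..⟩ }
  have Ac : ∀ x ∈ A, ∀ y ∈ A, x * y = y * x := by
    rintro _ ⟨a, j, rfl⟩ _ ⟨a', j', rfl⟩
    rw [mu, mu, add_comm a, add_comm j]
  have fx : ∀ x : Circle, δ • x = x → g • x = x → ∀ a j : ℤ, (δ ^ a * g ^ j) • x = x :=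
    fun x hd hx a j => by
      rw [mul_smul, zfix_nielgap hx, zfix_nielgap hd]
  have fr : ∀ a j : ℤ, j ≠ 0 → ∀ ξ ∈ arc p q, (δ ^ a * g ^ j) • ξ ≠ ξ := by
    intro a j hj ξ hξ e
    wlog hj' : 0 < j generalizing a j
    · refine this (-a) (-j) (by omega) ?_ (by omega)
      rw [← iv, inv_smul_eq_iff, e]
    obtain ⟨j, rfl⟩ := Int.eq_ofNat_of_zero_le hj'.le
    exact hno ⟨δ ^ a, j, by rw [Φ.ht_zpow, h0, mul_zero], zfix_nielgap hp a,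
      zfix_nielgap hq a, by omega, ξ, hξ, by rwa [zpow_natCast] at e⟩
  obtain ⟨ξ₀, hξ₀⟩ := arc_nonempty hpq
  obtain ⟨K₀, K₁, c₀, c₁, m₀, s₀, s₁, cov, hK⟩ := exists_fund h0 h1 hp hq hξ₀
  have ch : ∀ η ∈ arc p q, ∃ n : ℕ → ℤ, ∀ j : ℕ, (δ ^ n j * g ^ (j : ℤ)) • η ∈ K₀ := fun η hη => by
    choose n hn using fun j : ℕ => cov _ (hg.stay hgp hgq hη j)
    exact ⟨n, fun j => mul_smul (δ ^ n j) _ η ▸ hn j⟩
  obtain ⟨N, Nc, Ni, ⟨ξ₁, h₁, h₁'⟩, Nm⟩ := exists_minimal Φ.cont A c₀ ⟨ξ₀, m₀⟩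
  have hi : (N ∩ K₀).Infinite := by
    obtain ⟨n, hn⟩ := ch ξ₁ (s₀ h₁')
    refine infinite_of_injective_forall_mem (f := fun j : ℕ => (δ ^ n j * g ^ (j : ℤ)) • ξ₁)
      (fun i j e => ?_) fun j => ⟨Ni _ ⟨_, _, rfl⟩ _ h₁, hn j⟩
    by_contra hij
    simp only at e
    rw [← inv_smul_eq_iff, ← mul_smul, iv, mu] at e
    exact fr _ _ (by omega) _ (s₀ h₁') e
  obtain ⟨ζ, hζ, ha⟩ := hi.exists_accPt_of_subset_isCompact c₀ inter_subset_right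
  obtain ⟨n, hn⟩ := ch ξ₀ hξ₀
  refine pack (Φ := Φ) (H := Φ.Cen δ) (M := N ∩ arc p q) (fun h hh => hh.1)
    (ha.mono (principal_mono.2 (inter_subset_inter_right _ s₀))) (fun hl => ?_) fun γ γ0 γ1 => ?_
  · have h2 := lim_cen_subset δ hl
    rcases ax_of_fix h0 h1 hp hq hpq with h | h <;> rcases h.fix h2 with rfl | rfl <;>
      first | exact left_notMem_arc _ _ (s₀ hζ) | exact right_notMem_arc _ _ (s₀ hζ)
  by_cases hj : Function.Injective fun j : ℕ =>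
    δ ^ n j * g ^ (j : ℤ) * γ * (δ ^ n j * g ^ (j : ℤ))⁻¹
  · refine nocross (f := fun j : ℕ => δ ^ n j * g ^ (j : ℤ)) γ0 hj ?_
    intro φ _ ξ₁ ξ₂ α h₁ h₂ m hm m' hm'
    refine not_linked_of_tendsto Φ.cont (f := fun j => δ ^ n (φ j) * g ^ (φ j : ℤ))
      (fun j => (ho.zpow _).mul (hg.zpow _)) hi ?_ h₁ h₂ hm hm'
    intro J Jo Jn
    obtain ⟨S, hS⟩ := (c₁.inter_left Nc).elim_finite_subcover
      (fun a : A => (fun ξ : Circle => a.1 • ξ) ⁻¹' J)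
      (fun a => Jo.preimage (Φ.cont _)) fun ξ hξ => by
        obtain ⟨z, hz⟩ := cov ξ (s₁ hξ.2)
        obtain ⟨a, ha, h⟩ := Nm ξ hξ.1 ⟨δ ^ z, ⟨z, 0, by simp⟩, hz⟩ J Jo
          (Jn.mono (inter_subset_inter_right _ inter_subset_left))
        exact mem_iUnion.2 ⟨⟨a, ha⟩, h⟩
    refine ⟨Subtype.val '' (S : Set A), S.finite_toSet.image _, fun j ξ hξ => ?_⟩
    have hA : (δ ^ n (φ j) * g ^ (φ j : ℤ))⁻¹ ∈ A := inv_mem ⟨_, _, rfl⟩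
    obtain ⟨s, hs, h⟩ := mem_iUnion₂.1 (hS ⟨Ni _ hA ξ hξ.1, hK _ ((ho.zpow _).mul (hg.zpow _))
      (fx p hp hgp _ _) (fx q hq hgq _ _) (Ac _ ⟨1, 0, by simp⟩ _ ⟨_, _, rfl⟩) (hn _) ξ hξ.2⟩)
    refine ⟨_, ⟨_, hs, rfl⟩, ?_⟩
    rw [← mul_smul, Ac _ hA _ s.2, mul_smul]
    exact h
  · obtain ⟨i, j, e, hij⟩ := Function.not_injective_iff.1 hj
    have e' : Commute (δ ^ (-n j + n i) * g ^ (-(j : ℤ) + i)) γ := by
      rw [← mu, ← iv]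
      generalize δ ^ n i * g ^ (i : ℤ) = x, δ ^ n j * g ^ (j : ℤ) = y at e
      show y⁻¹ * x * γ = γ * (y⁻¹ * x)
      calc y⁻¹ * x * γ = y⁻¹ * (x * γ * x⁻¹) * x := by group
        _ = γ * (y⁻¹ * x) := by rw [e]; group
    have out : ∀ v, Commute (δ ^ (-n j + n i) * g ^ (-(j : ℤ) + i)) v → v • p ∉ arc p q ∧
        v • q ∉ arc p q := fun v hv =>
      ⟨fun h => fr _ (-j + i) (by omega) _ h (by rw [← mul_smul, hv.eq, mul_smul, fx p hp hgp]),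
        fun h => fr _ (-j + i) (by omega) _ h (by rw [← mul_smul, hv.eq, mul_smul, fx q hq hgq])⟩
    have og := Φ.op_of_ht γ0
    have o1 := out _ e'
    have o2 := out _ e'.inv_right
    rw [← og.mem_arc, ← og.mem_arc (ξ := γ⁻¹ • q), smul_inv_smul, smul_inv_smul] at o2
    rcases arc_eq_or_disjoint o2.1 o2.2 o1.1 o1.2 with h | h
    · exact absurd ⟨γ0, comm_of_fix γ0 h0 h.1.symm hp⟩ γ1
    · exact ⟨fun x hx y hy x' hx' y' hy' => not_linked_of_disjoint h hpq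
        (fun e => hpq (smul_left_cancel γ e)) (subset_closure hx.2) (subset_closure hy.2)
        (subset_closure (og.mem_arc.2 hx'.2)) (subset_closure (og.mem_arc.2 hy'.2)),
        fun a ha _ _ _ _ _ _ _ ha' _ _ => disjoint_left.1 h ha'.2 (og.mem_arc.2 ha.2)⟩

end Fuchs

end Pool.Agent.P.MP_788ef7_an
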