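import Pool.Agent.P.MP_788ef7_an.Classes
import Pool.Agent.P.MP_788ef7_an.Cls1
import Pool.Agent.P.MP_788ef7_an.NielGap

set_option autoImplicit false

open Set Filter Topology Metric

namespace Pool.Agent.P.MP_788ef7_an

namespace Fuchs

variable {𝔊 : Type*} [Group 𝔊] [MulAction 𝔊 Circle] {Φ : Fuchs 𝔊} {g g' γ δ u u' G g₀ : 𝔊}
  {H : Subgroup 𝔊} {ξ η ζ a b c d p q a₁ a₂ r₁ r₂ a₁' a₂' r₁' r₂' : Circle} {k : ℕ} {T : Set 𝔊}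

theorem lim_subset_of_cpt (hH : Φ.IsStab k g₀ H) (h₀ : Φ.Cen g₀ ≠ ⊥) {s : Set Circle}
    (hs : IsClosed s) (h : ∀ g ∈ Φ.Cpt k g₀, Φ.Lim (Φ.Cen g) ⊆ s) : Φ.Lim H ⊆ s := by
  intro ξ hξ
  by_contra hn
  obtain ⟨δ, hδ, a, b, hax, ha⟩ :=
    lim_dense (fun h hh => ((hH h).1 hh).1) hξ (hs.isOpen_compl.mem_nhds hn)
  obtain ⟨c, hc, hcb⟩ := (lim_nontrivial (Φ := Φ) (H := Φ.Cen g₀) (fun _ hh => hh.1) h₀).exists_ne b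
  exact ha (hs.mem_of_tendsto (hax.tendsto hcb) (Eventually.of_forall fun n =>
    h _ ((hH _).1 (pow_mem hδ n)).2 ((Φ.smul_mem_lim_cen _).2 hc)))

theorem gap_freeGap (hH : Φ.IsStab k g₀ H) (hc : Φ.Cen g₀ ≠ ⊥) (hζ : Φ.HBfree H ζ)
    (hg : g ∈ Φ.Cpt k g₀) : ∃ p ∈ Φ.Lim (Φ.Cen g), ∃ q ∈ Φ.Lim (Φ.Cen g),
      ζ ∈ arc p q ∧ Disjoint (arc p q) (Φ.Lim (Φ.Cen g)) :=
  exists_gap (Φ.isClosed_lim _) (lim_nontrivial (fun _ hh => hh.1) (cpt_cen_ne_bot hc hg))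
    fun h => not_hbfree_cen h (hζ.of_le _ (hH.cen_le hg))

theorem finite_freeGap (hH : ∀ h ∈ H, Φ.ht h = 0) (hζ : Φ.HBfree H ζ) (hg : Φ.Cen g ≤ H)
    (hpq : p ≠ q) : {g' | (∃ h ∈ H, g' = h * g * h⁻¹) ∧ ∃ p' ∈ Φ.Lim (Φ.Cen g'),
      ∃ q' ∈ Φ.Lim (Φ.Cen g'), ζ ∈ arc p' q' ∧ arc p' q' ⊆ arc p q}.Finite := by
  obtain ⟨x₀, hx₀⟩ : ∃ x₀ : KD, x₀.val ∈ segment ℝ (p : ℂ) q :=
    ⟨⟨_, mem_ball_zero_iff.1 (combo_mem_ball_of_ne (mem_closedBall_zero_iff.2 p.norm_coe.le)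
      (mem_closedBall_zero_iff.2 q.norm_coe.le) (fun e => hpq (Circle.ext e)) one_half_pos
      one_half_pos (add_halves 1))⟩, _, _, one_half_pos.le, one_half_pos.le, add_halves 1, rfl⟩
  obtain ⟨R, hR⟩ := Φ.chord_near_cen g
  obtain ⟨β, hβ, hb⟩ := hζ.bus_near _ R
  obtain ⟨R', hR'⟩ := bus_segment x₀ ζ hβ
  refine ((Φ.finite_pt KD.o (R + R')).image fun γ => γ * g * γ⁻¹).subset ?_
  rintro _ ⟨⟨h, hh, rfl⟩, p', hp', q', hq', hζ', hsub⟩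
  have hne : p' ≠ q' := Cyc.ne₁₃ hζ'
  obtain ⟨h1, h2⟩ := arc_subset_ends hsub hne
  obtain ⟨y, hy, hy'⟩ := exists_mem_chord hζ' (ori_nonneg_of_segment hne h1 h2 hx₀)
  obtain ⟨c, hcc, hd⟩ := hR (h⁻¹ • p') ((Φ.smul_mem_lim_cen h).1 (by rwa [smul_inv_smul]))
    (h⁻¹ • q') ((Φ.smul_mem_lim_cen h).1 (by rwa [smul_inv_smul])) _
    (Φ.segment_mv (hH _ (inv_mem hh)) hy')
  rw [← Φ.dist_mv h, Φ.mv_mv_inv (hH h hh), ← Φ.pt_mul (hH h hh)] at hd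
  have hm := mul_mem hh (hg hcc)
  refine ⟨h * c, ⟨hH _ hm, ?_⟩, ?_⟩
  · linarith [dist_triangle_left (Φ.pt (h * c)) KD.o y, hR' y hy (hb y ⟨_, hm, hd⟩)]
  · beta_reduce
    rw [mul_assoc h, hcc.2, mul_inv_rev, ← mul_assoc, ← mul_assoc, mul_inv_cancel_right]

theorem exists_min_gap (hH : Φ.IsStab k g₀ H) (hT : Φ.Classes k T) (h₀ : Φ.NR k g₀)
    (hc : Φ.Cen g₀ ≠ ⊥) (hζ : Φ.HBfree H ζ) : ∃ g ∈ Φ.Cpt k g₀, ∃ p ∈ Φ.Lim (Φ.Cen g),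
      ∃ q ∈ Φ.Lim (Φ.Cen g), ζ ∈ arc p q ∧ Disjoint (arc p q) (Φ.Lim (Φ.Cen g)) ∧
      ∀ g' ∈ Φ.Cpt k g₀, ∀ p' ∈ Φ.Lim (Φ.Cen g'), ∀ q' ∈ Φ.Lim (Φ.Cen g'), ζ ∈ arc p' q' →
        Disjoint (arc p' q') (Φ.Lim (Φ.Cen g')) → arc p' q' ⊆ arc p q → arc p' q' = arc p q := by
  obtain ⟨p₀, hp₀, q₀, hq₀, hζ₀, hd₀⟩ := gap_freeGap hH hc hζ Relation.ReflTransGen.refl
  obtain ⟨T', hT', hsub, hrep⟩ := hH.finite hT h₀
  have hG := hT'.biUnion fun E hE => finite_freeGap (fun h hh => ((hH h).1 hh).1) hζ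
    (hH.cen_le (hsub hE)) (Cyc.ne₁₃ hζ₀)
  have hA : {A | A ⊆ arc p₀ q₀ ∧ ∃ g ∈ Φ.Cpt k g₀, ∃ p ∈ Φ.Lim (Φ.Cen g), ∃ q ∈ Φ.Lim (Φ.Cen g),
      ζ ∈ arc p q ∧ Disjoint (arc p q) (Φ.Lim (Φ.Cen g)) ∧ A = arc p q}.Finite := by
    refine (hG.biUnion (t := fun g => {A | ∃ p ∈ Φ.Lim (Φ.Cen g), ∃ q ∈ Φ.Lim (Φ.Cen g),
      ζ ∈ arc p q ∧ Disjoint (arc p q) (Φ.Lim (Φ.Cen g)) ∧ A = arc p q})
      fun g _ => Set.Subsingleton.finite ?_).subset ?_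
    · rintro _ ⟨p, hp, q, hq, h1, h2, rfl⟩ _ ⟨p', hp', q', hq', h1', h2', rfl⟩
      exact (arc_subset h1' h1 (disjoint_right.1 h2 hp') (disjoint_right.1 h2 hq')).antisymm
        (arc_subset h1 h1' (disjoint_right.1 h2' hp) (disjoint_right.1 h2' hq))
    · rintro _ ⟨hs, g, hg, p, hp, q, hq, h1, h2, rfl⟩
      obtain ⟨E, hE, h, hh, e⟩ := hrep g hg
      exact mem_biUnion (mem_biUnion hE ⟨⟨h, hh, e⟩, p, hp, q, hq, h1, hs⟩)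
        ⟨p, hp, q, hq, h1, h2, rfl⟩
  obtain ⟨_, ⟨hs, g, hg, p, hp, q, hq, h1, h2, rfl⟩, hmin⟩ := hA.exists_minimal
    ⟨_, Subset.rfl, g₀, Relation.ReflTransGen.refl, p₀, hp₀, q₀, hq₀, hζ₀, hd₀, rfl⟩
  exact ⟨g, hg, p, hp, q, hq, h1, h2, fun g' hg' p' hp' q' hq' h1' h2' hs' =>
    hs'.antisymm (hmin ⟨hs'.trans hs, g', hg', p', hp', q', hq', h1', h2', rfl⟩ hs')⟩

/-- A point with a free horoball lies in a gap of the whole component. -/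
theorem free_gap (hH : Φ.IsStab k g₀ H) (hT : Φ.Classes k T) (h₀ : Φ.NR k g₀)
    (hc : Φ.Cen g₀ ≠ ⊥) (hζ : Φ.HBfree H ζ) : ∃ g ∈ Φ.Cpt k g₀, ∃ p q, ∃ δ ∈ Φ.Cen g, δ ≠ 1 ∧
      δ • p = p ∧ δ • q = q ∧ ζ ∈ arc p q ∧ Disjoint (arc p q) (Φ.Lim H) ∧
      ∃ ξ ∈ arc p q, g • ξ = ξ := by
  obtain ⟨g, hg, p, hp, q, hq, h1, h2, hmin⟩ := exists_min_gap hH hT h₀ hc hζ
  have hpq : p ≠ q := Cyc.ne₁₃ h1
  have hk : (0 : ℤ) < k := by exact_mod_cast hT.pos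
  have hn := cpt_nr h₀ hg
  obtain ⟨δ, hδ, hδ1, hδp, hδq⟩ := gap_axis hp hq hpq h2
  have hall : ∀ g' ∈ Φ.Cpt k g, Disjoint (arc p q) (Φ.Lim (Φ.Cen g')) := fun g' hg' => by
    induction hg' with
    | refl => exact h2
    | @tail g₁ g₂ hg₁ hnb ih =>
      have hg₂ : g₂ ∈ Φ.Cpt k g₀ := cpt_eq hg ▸ Relation.ReflTransGen.tail hg₁ hnb
      obtain ⟨-, hn₂, ε, hε1, hε, hε'⟩ := hnb
      refine disjoint_left.2 fun ξ hξ hξ' => ?_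
      obtain ⟨a, b, hax⟩ := exists_ax hε.1 hε1
      have hne : Fix g ≠ Fix g₂ := fun e =>
        disjoint_left.1 h2 hξ (by rwa [cen_of_fix_eq e])
      have hcl := subset_closure_of_not_linked hpq (fun x hx y hy =>
        nc hn.2.1 hn₂.2.1 hn.2.2.1 hn₂.2.2.1 (hn.1 ▸ hk) (hn₂.1 ▸ hk) hne (Or.inl hp) (Or.inl hq)
          (Or.inl hx) (Or.inl hy)) hξ' hξ
      rw [closure_arc hpq] at hcl
      have ha := (hax.mem_lim hε').1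
      have hb := (hax.mem_lim hε').2
      have hends : p ∈ Φ.Lim (Φ.Cen g₂) ∧ q ∈ Φ.Lim (Φ.Cen g₂) := by
        rcases hcl ha with ea | ea | ea
        · rcases hcl hb with eb | eb | eb
          · exact (hax.ne (ea.trans eb.symm)).elim
          · exact ⟨ea ▸ ha, eb ▸ hb⟩
          · exact (disjoint_left.1 ih eb (hax.mem_lim hε).2).elim
        · rcases hcl hb with eb | eb | eb
          · exact ⟨eb ▸ hb, ea ▸ ha⟩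
          · exact (hax.ne (ea.trans eb.symm)).elim
          · exact (disjoint_left.1 ih eb (hax.mem_lim hε).2).elim
        · exact (disjoint_left.1 ih ea (hax.mem_lim hε).1).elim
      obtain ⟨p', hp', q', hq', h1', h2'⟩ := gap_freeGap hH hc hζ hg₂
      rw [hmin g₂ hg₂ p' hp' q' hq' h1' h2' (arc_subset h1 h1' (disjoint_right.1 h2' hends.1)
        (disjoint_right.1 h2' hends.2))] at h2'
      exact disjoint_left.1 h2' hξ hξ'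
  have hdis : Disjoint (arc p q) (Φ.Lim H) :=
    (subset_compl_iff_disjoint_left.1 (lim_subset_of_cpt hH hc (isOpen_arc p q).isClosed_compl
      fun g' hg' => subset_compl_iff_disjoint_left.2 (hall g' (cpt_eq hg ▸ hg'))))
  have hgp : g • p = p := lim_cen_subset g hp
  have hgq : g • q = q := lim_cen_subset g hq
  obtain ⟨u, j, hu, hup, huq, hj, ξ, hξ, hfix⟩ :=
    nielsen_gap hδ.1 hδ1 hδp hδq hpq hn.2.1.1 hgp hgq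
  have hGp : (u * g ^ j) • p = p := by
    rw [mul_smul, pow_mem (show g ∈ MulAction.stabilizer 𝔊 p from hgp) j, hup]
  have hGq : (u * g ^ j) • q = q := by
    rw [mul_smul, pow_mem (show g ∈ MulAction.stabilizer 𝔊 q from hgq) j, huq]
  have hδG : δ ∈ Φ.Cen (u * g ^ j) := ⟨hδ.1, comm_of_fix_end hδ.1 hδ1 hδp hGp⟩
  obtain ⟨g', hn', e⟩ := hT.rep (u * g ^ j)
    (by
      rw [Φ.ht_mul, hu, Φ.ht_pow, hn.1, zero_add]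
      exact mul_pos (by exact_mod_cast hj) hk)
    ⟨(Φ.op_of_ht hu).mul (hn.2.1.1.pow j), p, hGp⟩
    ⟨p, hGp, ξ, hfix, q, hGq, Cyc.ne₁₂ hξ, Cyc.ne₂₃ hξ, hpq⟩
    fun ⟨_, _, _, _, hr⟩ => hδ1 (by rwa [hr.cen] at hδG)
  have hδ' : δ ∈ Φ.Cen g' := by rwa [cen_of_fix_eq e]
  exact ⟨g', Relation.ReflTransGen.tail hg ⟨hn, hn', δ, hδ1, hδ, hδ'⟩, p, q, δ, hδ', hδ1, hδp, hδq,
    h1, hdis, ξ, hξ, (e.symm ▸ hfix : ξ ∈ Fix g')⟩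

end Fuchs

end Pool.Agent.P.MP_788ef7_an
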