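import Pool.Agent.P.MP_788ef7_an.SBasic
import Pool.Agent.P.MP_788ef7_an.FBasic

set_option autoImplicit false
set_option linter.unusedSectionVars false

open Set Filter Topology Metric

namespace Pool.Agent.P.MP_788ef7_an

namespace Setting

variable {𝔾 X E : Type*} [Group 𝔾] [MetricSpace X] [MulAction 𝔾 X] [ProperSpace X]
  [NormedAddCommGroup E] [NormedSpace ℝ E] [FiniteDimensional ℝ E] {S : Setting 𝔾 X E}
  {g g' G G' γ c w : 𝔾} {p p' q x y z : X} {C : Subgroup 𝔾} {K : Set X} {R : ℝ}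
  {𝔊 : Type*} [Group 𝔊] [MulAction 𝔊 Circle] {Φ : Fuchs 𝔊} {pj : 𝔾 →* 𝔊} {pr : X → KD}
  {set : X → KD → X} {H : Subgroup 𝔊} {a₁ a₂ r₁ r₂ : Circle}

theorem HF.inv (h : S.HF Φ pj pr set) : S.inv.HF Φ.inv pj pr set :=
  ⟨fun g => congrArg Neg.neg (h.ht_eq g), h.surj, fun γ z e => h.eqv γ z (neg_eq_zero.1 e), h.lip,
    h.step, h.pr_set, h.set_pr, h.set_set, h.cont⟩

theorem HF.continuous_pr (h : S.HF Φ pj pr set) : Continuous pr :=
  (LipschitzWith.mk_one h.lip).continuous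

theorem HF.pr_ker (h : S.HF Φ pj pr set) (hc : pj c = 1) (z : X) : pr (c • z) = pr z := by
  rw [h.eqv c z (by rw [← h.ht_eq, hc, Φ.ht_one]), hc, Φ.mv_one]

theorem HF.pr_eq (h : S.HF Φ pj pr set) (e : pj g = pj g') (z : X) : pr (g • z) = pr (g' • z) := by
  rw [← h.pr_ker (c := g * g'⁻¹) (by rw [map_mul, map_inv, e, mul_inv_cancel]) (g' • z), smul_smul,
    inv_mul_cancel_right]

theorem HF.po (h : S.HF Φ pj pr set) (G : 𝔾) :
    ∃ C₀, ∀ z, Φ.PO (pj G) C₀ fun n : ℤ => pr (G ^ n • z) := by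
  obtain ⟨C, hC⟩ := h.step G
  refine ⟨C, fun z n => ?_⟩
  have := hC (G ^ n • z)
  rwa [smul_smul, ← zpow_one_add, add_comm] at this

theorem HF.mem_cen (h : S.HF Φ pj pr set) (hc : c ∈ S.Cen G) : pj c ∈ Φ.Cen (pj G) :=
  ⟨(h.ht_eq c).trans hc.1, by rw [← map_mul, ← map_mul, hc.2]⟩

theorem inv_nearP (H : Subgroup 𝔊) (R : ℝ) : NearP Φ.inv pr H R = NearP Φ pr H R := rfl

theorem mem_nearP_bot : z ∈ NearP Φ pr ⊥ R ↔ dist (pr z) KD.o ≤ R := Φ.near_bot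

theorem nearP_mono {R' : ℝ} (h : R ≤ R') : NearP Φ pr H R ⊆ NearP Φ pr H R' :=
  fun _ hz => PreFuchs.Near.mono _ hz h

theorem HF.stay_eq (h : S.HF Φ pj pr set) (e : pj g = pj g') :
    Stay g (NearP Φ pr H R) = Stay g' (NearP Φ pr H R) := by
  ext z
  refine forall_congr' fun n => ?_
  change Φ.Near H R _ ↔ Φ.Near H R _
  rw [h.pr_eq (g := g ^ n) (g' := g' ^ n) (by rw [map_pow, map_pow, e])]

theorem HF.stay_of_pow (h : S.HF Φ pj pr set) (hH : ∀ a ∈ H, Φ.ht a = 0)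
    (hn : ∀ a ∈ H, pj g * a * (pj g)⁻¹ ∈ H) {j : ℕ} (hj : 1 ≤ j) (R : ℝ) :
    ∃ R', Stay (g ^ j) (NearP Φ pr H R) ⊆ Stay g (NearP Φ pr H R') := by
  obtain ⟨C, hC⟩ := h.step g
  have key : ∀ i : ℕ, ∃ R', ∀ z ∈ NearP Φ pr H R, ∀ i' ≤ i, g ^ i' • z ∈ NearP Φ pr H R' := by
    intro i
    induction i with
    | zero => exact ⟨R, fun z hz i' hi => by rwa [Nat.le_zero.1 hi, pow_zero, one_smul]⟩
    | succ i ih =>
      obtain ⟨R₁, h1⟩ := ih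
      obtain ⟨R₂, h2⟩ := Φ.step_near hH hn C R₁
      refine ⟨max R₁ R₂, fun z hz i' hi => ?_⟩
      rcases Nat.of_le_succ hi with hi | rfl
      · exact nearP_mono (le_max_left _ _) (h1 z hz i' hi)
      · rw [pow_succ', mul_smul]
        exact nearP_mono (le_max_right _ _) (h2 _ _ (hC _) (h1 z hz i le_rfl))
  obtain ⟨R', hR⟩ := key j
  refine ⟨R', fun z hz n => ?_⟩
  have := hR _ (hz (n / j)) (n % j) (Nat.mod_lt n hj).le
  rwa [smul_smul, ← pow_mul, ← pow_add, Nat.mod_add_div] at this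

theorem HF.region (h : S.HF Φ pj pr set) (hc : Φ.Core H (pj g)) :
    S.Region (H.comap pj) g (NearP Φ pr H) := by
  have h0 : ∀ c ∈ H.comap pj, S.ht c = 0 := fun c hc' => (h.ht_eq c).symm.trans (hc.le _ hc')
  refine ⟨h0, h.ht_eq g ▸ hc.pos, fun c => ?_, fun c hc' R z hz => ?_,
    fun R r z z' hz hd => PreFuchs.Near.perturb _ hz ((h.lip _ _).trans hd), fun x R => ?_⟩
  · rw [Subgroup.mem_comap, Subgroup.mem_comap, map_mul, map_mul, map_inv]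
    exact hc.norm _
  · change Φ.Near H R _
    rw [h.eqv c z (h0 c hc')]
    exact PreFuchs.Near.mv _ hz hc' (hc.le _ hc')
  · choose σ hσ using h.surj
    refine ⟨_, (Φ.finite_mv (pr x) KD.o R).image σ, fun γ hγ ⟨a, ha, hd⟩ => ?_⟩
    have a0 := hc.le a ha
    have a1 : Φ.ht a⁻¹ = 0 := by rw [Φ.ht_inv, a0, neg_zero]
    refine ⟨γ * (σ (a⁻¹ * pj γ))⁻¹, ?_, _, ⟨a⁻¹ * pj γ, ⟨?_, ?_⟩, rfl⟩,
      (inv_mul_cancel_right _ _).symm⟩
    · rw [Subgroup.mem_comap, map_mul, map_inv, hσ]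
      simpa using ha
    · rw [Φ.ht_mul, a1, h.ht_eq, hγ, add_zero]
    · rw [h.eqv γ x hγ, ← Φ.dist_mv a⁻¹, PreFuchs.pt, Φ.mv_inv_mv a0] at hd
      rwa [Φ.mv_mul a1]

/-- The coarse step property from cocompactness. -/
theorem step_of (hs : ∀ g, Φ.ht (pj g) = S.ht g) (hc : Continuous pr)
    (he : ∀ γ z, S.ht γ = 0 → pr (γ • z) = Φ.mv (pj γ) (pr z))
    (hρ : ∀ (G : 𝔾) z, ∃ z' ∈ S.Λ, pr z' = pr z ∧ pr (G • z') = pr (G • z)) (G : 𝔾) :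
    ∃ C₀, ∀ z, Φ.Step (pj G) C₀ (pr z) (pr (G • z)) := by
  obtain ⟨K, hK, h⟩ := S.exists_cpt 0
  obtain ⟨C₁, h1⟩ := (hK.image hc).isBounded.subset_closedBall (Φ.pt 1)
  obtain ⟨C₂, h2⟩ := (hK.image (hc.comp (S.cont_smul G))).isBounded.subset_closedBall
    (Φ.pt (pj G * 1))
  refine ⟨max C₁ C₂, fun z => ?_⟩
  obtain ⟨z', hz, e1, e2⟩ := hρ G z
  obtain ⟨γ, h0, hγ⟩ := h z' hz
  have hw := hγ z' (dist_self _).le
  have s : Φ.Step (pj G) (max C₁ C₂) (pr (γ • z')) (pr (G • γ • z')) :=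
    ⟨1, le_max_of_le_left (h1 ⟨_, hw, rfl⟩), le_max_of_le_right (h2 ⟨_, hw, rfl⟩)⟩
  have a1 : S.ht γ⁻¹ = 0 := by rw [S.ht_inv, h0, neg_zero]
  have a2 : S.ht (G * γ⁻¹ * G⁻¹) = 0 := by rw [S.ht_conj, a1]
  have := PreFuchs.Step.move _ s ((hs _).trans a1) ((hs _).trans a2)
  rw [← he _ _ a1, ← he _ _ a2, inv_smul_smul, ← map_inv, ← map_mul, ← map_mul, smul_smul,
    smul_smul] at this
  simpa [e1, e2] using this

end Setting

end Pool.Agent.P.MP_788ef7_an
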