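import Pool.Agent.P.MP_788ef7_an.Model1

set_option autoImplicit false

open Set Filter Topology Metric

namespace Pool.Agent.P.MP_788ef7_an

namespace Fuchs

variable {𝔊 : Type*} [Group 𝔊] [MulAction 𝔊 Circle] {Φ : Fuchs 𝔊} {g g' γ δ u u' G g₀ : 𝔊}
  {H : Subgroup 𝔊} {ξ η ζ a b c d p q a₁ a₂ r₁ r₂ a₁' a₂' r₁' r₂' : Circle} {k : ℕ} {T : Set 𝔊}

/-- A common model for the displacement fields of all powers of a stable element. -/
theorem model (hg : Stable g) : ∃ Adm : ℂ → ℂ → Prop,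
    Cone (ball 0 1) (fun h : Φ.Cen g => kact (Φ.L h)) Adm ∧
    ∀ b : ℕ, 1 ≤ b → ∀ C, ∃ R, ∀ x y : KD, Φ.Step (g ^ b) C x y → ∀ w, Adm x.val w →
      ∀ s ∈ Icc (0 : ℝ) 1, (1 - s) • vec1 x.val y.val + s • w = 0 → Φ.Near (Φ.Cen g) R x := by
  obtain ⟨Q, hconv, hsub, hloc, heqv, hlast⟩ := model_geom (Φ := Φ) hg
  refine ⟨fun x w => ∃ z ∈ Q x, ∃ e : ℝ, 0 < e ∧ w = e • (z - x), ⟨?_, ?_, ?_, ?_⟩, ?_⟩
  · rintro x - w w' ⟨z, hz, e, he, rfl⟩ ⟨z', hz', e', he', rfl⟩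
    have hs : 0 < e + e' := add_pos he he'
    refine ⟨(e / (e + e')) • z + (e' / (e + e')) • z',
      hconv x hz hz' (by positivity) (by positivity) (by field_simp), e + e', hs, ?_⟩
    have h1 : (e + e') * (e / (e + e')) = e := by field_simp
    have h2 : (e + e') * (e' / (e + e')) = e' := by field_simp
    rw [smul_sub (e + e'), smul_add, smul_smul, smul_smul, h1, h2, add_smul, smul_sub, smul_sub]
    abel
  · rintro x - w s hs ⟨z, hz, e, he, rfl⟩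
    exact ⟨z, hz, s * e, mul_pos hs he, by rw [smul_smul]⟩
  · rintro h x hx w ⟨z, hz, e, he, rfl⟩
    have hx1 : ‖x‖ < 1 := mem_ball_zero_iff.1 hx
    have hz1 : ‖z‖ ≤ 1 := mem_closedBall_zero_iff.1 (hsub x hz)
    have hL := Φ.lor h
    have hx2 := hL.norm_kact_lt hx1
    have hz2 := hL.norm_kact_le hz1
    have p1 := rho_self_pos hx1
    have p2 := rho_pos hx1 hz1
    have p3 := rho_self_pos hx2
    have p4 := rho_pos hx2 hz2
    refine ⟨kact (Φ.L h) z, heqv h h.2 ⟨x, hx1⟩ z hz,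
      e * (rho x z / rho x x) * (rho (kact (Φ.L h) x) (kact (Φ.L h) x) /
        rho (kact (Φ.L h) x) (kact (Φ.L h) z)), by positivity, ?_⟩
    have e1 : e • (z - x) = (e * (rho x z / rho x x)) • vec1 x z := by
      rw [vec1, smul_smul]
      congr 1
      field_simp
    rw [e1, map_smul, ← hL.vec1_eqv hx1 hz1, vec1, smul_smul]
  · intro x₀ hx₀
    obtain ⟨z, hz⟩ := hloc ⟨x₀, mem_ball_zero_iff.1 hx₀⟩
    refine ⟨fun x => z - x, (contDiff_const.sub contDiff_id).contDiffOn, hz.mono ?_⟩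
    intro x hx
    exact ⟨z, hx, 1, one_pos, (one_smul _ _).symm⟩
  · intro n hn C
    obtain ⟨R, hR⟩ := hlast n hn C
    refine ⟨R, ?_⟩
    rintro x y hxy w ⟨z, hz, e, he, rfl⟩ s hs h0
    exact hR x y hxy z hz (vec1_segment x.lt y.lt.le hs he h0)

end Fuchs

end Pool.Agent.P.MP_788ef7_an
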