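import Pool.Agent.P.MP_788ef7_an.VG
import Pool.Agent.P.MP_788ef7_an.Model
import Pool.Agent.P.MP_788ef7_an.HFBasic
import Pool.Agent.P.MP_788ef7_an.CDefs

set_option autoImplicit false
set_option linter.unusedSectionVars false

open Set Filter Topology Metric

namespace Pool.Agent.P.MP_788ef7_an

namespace Setting

variable {𝔾 X E : Type*} [Group 𝔾] [MetricSpace X] [MulAction 𝔾 X] [ProperSpace X]
  [NormedAddCommGroup E] [NormedSpace ℝ E] [FiniteDimensional ℝ E] {S : Setting 𝔾 X E}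
  {g g' G G' γ c w : 𝔾} {p p' q x y z : X} {C : Subgroup 𝔾} {K : Set X} {R : ℝ}
  {𝔊 : Type*} [Group 𝔊] [MulAction 𝔊 Circle] {Φ : Fuchs 𝔊} {pj : 𝔾 →* 𝔊} {pr : X → KD}
  {set : X → KD → X} {H : Subgroup 𝔊} {a₁ a₂ r₁ r₂ : Circle}
  {𝔊' : Type*} [Group 𝔊'] [MulAction 𝔊' Circle] {Φ' : Fuchs 𝔊'} {pj' : 𝔾 →* 𝔊'} {pr' : X → KD}
  {set' : X → KD → X} {H' : Subgroup 𝔊'} {j : E ≃L[ℝ] ℂ × ℂ}

theorem HH.swap (h : S.HH Φ pj pr set Φ' pj' pr' set' j) :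
    S.HH Φ' pj' pr' set' Φ pj pr set (j.trans (ContinuousLinearEquiv.prodComm ℝ ℂ ℂ)) where
  univ := h.univ
  hf := h.hf'
  hf' := h.hf
  je z := by
    show (j (S.e z)).swap = _
    rw [h.je]
    rfl
  range_eq := by
    rw [h.range_eq]
    ext x
    exact and_comm
  dist_le z z' := by
    rw [max_comm]
    exact h.dist_le z z'
  pair g g' e := by
    obtain ⟨G, h1, h2⟩ := h.pair g' g e.symm
    exact ⟨G, h2, h1⟩
  inj G h1 h2 := h.inj G h2 h1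
  pr'_set := h.pr_set'
  pr_set' := h.pr'_set

theorem HH.inv (h : S.HH Φ pj pr set Φ' pj' pr' set' j) :
    S.inv.HH Φ.inv pj pr set Φ'.inv pj' pr' set' j where
  univ := h.univ
  hf := h.hf.inv
  hf' := h.hf'.inv
  je := h.je
  range_eq := h.range_eq
  dist_le := h.dist_le
  pair g g' e := h.pair g g' (neg_inj.1 e)
  inj := h.inj
  pr'_set := h.pr'_set
  pr_set' := h.pr_set'

theorem HH.sf (h : S.HH Φ pj pr set Φ' pj' pr' set' j) :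
    S.SF pr j (ball 0 1) (fun γ => kact (Φ'.L (pj' γ))) vec1 where
  fst z := by rw [h.je]
  range_eq := h.range_eq
  isOpen := isOpen_ball
  act γ z hγ := by
    rw [h.je, h.je, h.hf'.eqv γ z hγ]
    rfl
  diff γ _ := (Φ'.lor _).contDiffOn_kact.differentiableOn (by norm_num)
  c1 := contDiffOn_vec1
  zero y hy y' hy' := vec1_eq_zero (mem_ball_zero_iff.1 hy) (mem_ball_zero_iff.1 hy').le
  eqv γ _ y hy y' hy' := (Φ'.lor _).vec1_eqv (mem_ball_zero_iff.1 hy) (mem_ball_zero_iff.1 hy').le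
  diag y hy := vec1_diag (mem_ball_zero_iff.1 hy)
  dist_le z z' e := by
    rw [h.je, h.je] at e
    have := h.dist_le z z'
    rwa [KD.ext e, dist_self, max_eq_left dist_nonneg] at this

theorem HH.iness (h : S.HH Φ pj pr set Φ' pj' pr' set' j) : S.Iness pj := h.sf.iness h.hf

theorem HF.dist_o_hh1 (h : S.HF Φ pj pr set) {a : 𝔊} (ha : Φ.ht a = 0) (hc : pj c = a⁻¹) (z : X) :
    dist (pr (c • z)) KD.o = dist (pr z) (Φ.pt a) := by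
  have h0 : S.ht c = 0 := by rw [← h.ht_eq, hc, Φ.ht_inv, ha, neg_zero]
  rw [h.eqv c z h0, hc, ← Φ.dist_mv a, Φ.mv_mv_inv ha]
  rfl

theorem HH.tr (h : S.HH Φ pj pr set Φ' pj' pr' set' j) (R : ℝ) : ∃ K, IsCompact K ∧
    ∀ (H : Subgroup 𝔊) (H' : Subgroup 𝔊'), (∀ a ∈ H, Φ.ht a = 0) → (∀ a ∈ H', Φ'.ht a = 0) →
      NearP Φ pr H R ∩ NearP Φ' pr' H' R ⊆ Tr (H.comap pj ⊓ H'.comap pj') K := by
  refine ⟨_, h.sf.compact R ((isCompact_closedBall KD.o R).image KD.continuous_val)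
    (KD.range_val ▸ image_subset_range _ _), ?_⟩
  rintro H H' hH hH' z ⟨⟨a, ha, hz⟩, ⟨a', ha', hz'⟩⟩
  obtain ⟨c, hc, hc'⟩ := h.pair a⁻¹ a'⁻¹ (by rw [Φ.ht_inv, Φ'.ht_inv, hH a ha, hH' a' ha'])
  refine ⟨c, ⟨?_, ?_⟩, ?_, ?_⟩
  · show pj c ∈ H
    rw [hc]
    exact H.inv_mem ha
  · show pj' c ∈ H'
    rw [hc']
    exact H'.inv_mem ha'
  · rwa [h.hf.dist_o_hh1 (hH a ha) hc]
  · rw [h.je]
    refine ⟨_, ?_, rfl⟩
    rwa [mem_closedBall, h.hf'.dist_o_hh1 (hH' a' ha') hc']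

theorem HH.ext_hh1 (h : S.HH Φ pj pr set Φ' pj' pr' set' j) (e : pj g = pj g')
    (e' : pj' g = pj' g') : g = g' :=
  mul_inv_eq_one.1 (h.inj _ (by rw [map_mul, map_inv, e, mul_inv_cancel])
    (by rw [map_mul, map_inv, e', mul_inv_cancel]))

theorem HH.cen (h : S.HH Φ pj pr set Φ' pj' pr' set' j) (G : 𝔾) :
    S.Cen G = (Φ.Cen (pj G)).comap pj ⊓ (Φ'.Cen (pj' G)).comap pj' := by
  ext γ
  refine ⟨fun hγ => ⟨h.hf.mem_cen hγ, h.hf'.mem_cen hγ⟩, fun ⟨h1, h2⟩ => ⟨?_, ?_⟩⟩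
  · rw [← h.hf.ht_eq]
    exact h1.1
  · exact h.ext_hh1 (by rw [map_mul, map_mul]; exact h1.2) (by rw [map_mul, map_mul]; exact h2.2)

theorem HH.cone_hh1 (h : S.HH Φ pj pr set Φ' pj' pr' set' j) {A₁ A₂ : ℂ → ℂ → Prop}
    (h₁ : Cone (ball 0 1) (fun b : Φ.Cen (pj G) => kact (Φ.L b)) A₁)
    (h₂ : Cone (ball 0 1) (fun b : Φ'.Cen (pj' G) => kact (Φ'.L b)) A₂) :
    Cone (range S.e) (fun c : S.Cen G => S.A c) fun ζ u =>
      A₁ (j ζ).1 (j u).1 ∧ A₂ (j ζ).2 (j u).2 := by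
  have hm : ∀ x ∈ range S.e, (j x).1 ∈ ball (0 : ℂ) 1 ∧ (j x).2 ∈ ball (0 : ℂ) 1 := fun x hx => by
    rw [h.range_eq] at hx
    exact hx
  refine ⟨fun x hx u u' hu hu' => ?_, fun x hx u s hs hu => ?_, ?_, fun x₀ hx₀ => ?_⟩
  · rw [map_add]
    exact ⟨h₁.add _ (hm x hx).1 _ _ hu.1 hu'.1, h₂.add _ (hm x hx).2 _ _ hu.2 hu'.2⟩
  · rw [map_smul]
    exact ⟨h₁.smul _ (hm x hx).1 _ s hs hu.1, h₂.smul _ (hm x hx).2 _ s hs hu.2⟩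
  · rintro c _ ⟨z, rfl⟩ u hu
    have e := h.sf.D_prod h.hf c.2.1 z u
    have e1 := h₁.eqv ⟨_, h.hf.mem_cen c.2⟩ _ (hm _ (mem_range_self z)).1 _ hu.1
    have e2 := h₂.eqv ⟨_, h.hf'.mem_cen c.2⟩ _ (hm _ (mem_range_self z)).2 _ hu.2
    show A₁ (j (S.A c (S.e z))).1 (j (S.D c z u)).1 ∧ A₂ (j (S.A c (S.e z))).2 (j (S.D c z u)).2
    rw [e, S.A_e, h.je (c.1 • z), h.hf.eqv _ z c.2.1, h.hf'.eqv _ z c.2.1]
    rw [h.je] at e1 e2 ⊢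
    exact ⟨e1, e2⟩
  · obtain ⟨W₁, c₁, e₁⟩ := h₁.loc _ (hm x₀ hx₀).1
    obtain ⟨W₂, c₂, e₂⟩ := h₂.loc _ (hm x₀ hx₀).2
    refine ⟨fun ζ => j.symm (W₁ (j ζ).1, W₂ (j ζ).2), ?_, ?_⟩
    · exact j.symm.contDiff.comp_contDiffOn
        ((c₁.comp j.contDiff.fst.contDiffOn fun x hx => (hm x hx).1).prodMk
          (c₂.comp j.contDiff.snd.contDiffOn fun x hx => (hm x hx).2))
    · filter_upwards [j.continuous.fst.continuousAt.eventually e₁,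
        j.continuous.snd.continuousAt.eventually e₂] with x a1 a2
      rw [j.apply_symm_apply]
      exact ⟨a1, a2⟩

theorem HH.fix_fin (h : S.HH Φ pj pr set Φ' pj' pr' set' j) (hG : 0 < S.ht G)
    (hs : Stable (pj G)) (hs' : Stable (pj' G)) : ∃ F : Set X, F.Finite ∧
      ∀ b : ℕ, 1 ≤ b → ∀ q, G ^ b • q = q → ∃ c ∈ S.Cen G, c • q ∈ F := by
  obtain ⟨A₁, c₁, m₁⟩ := Φ.model hs
  obtain ⟨A₂, c₂, m₂⟩ := Φ'.model hs'
  refine h.sf.fix_fin h.hf hG le_rfl (h.cone_hh1 c₁ c₂) fun b hb => ?_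
  obtain ⟨C₁, s₁⟩ := h.hf.step (G ^ b)
  obtain ⟨C₂, s₂⟩ := h.hf'.step (G ^ b)
  rw [map_pow] at s₁ s₂
  obtain ⟨R₁, r₁⟩ := m₁ b hb C₁
  obtain ⟨R₂, r₂⟩ := m₂ b hb C₂
  obtain ⟨K, hK, hT⟩ := h.tr (max R₁ R₂)
  refine ⟨K, hK, fun z hz u hu s hs e => hz ?_⟩
  have e' := congrArg j e
  rw [map_add, map_smul, map_smul, map_zero, h.sf.vG_e, h.je, h.je] at e'
  rw [h.je] at hu
  rw [h.cen]
  have e1 : (1 - s) • vec1 (pr z).val (pr (G ^ b • z)).val + s • (j u).1 = 0 :=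
    congrArg Prod.fst e'
  have e2 : (1 - s) • vec1 (pr' z).val (pr' (G ^ b • z)).val + s • (j u).2 = 0 :=
    congrArg Prod.snd e'
  have n1 : z ∈ NearP Φ pr (Φ.Cen (pj G)) R₁ := r₁ _ _ (s₁ z) _ hu.1 s hs e1
  have n2 : z ∈ NearP Φ' pr' (Φ'.Cen (pj' G)) R₂ := r₂ _ _ (s₂ z) _ hu.2 s hs e2
  exact hT (Φ.Cen (pj G)) (Φ'.Cen (pj' G)) (fun a ha => ha.1) (fun a ha => ha.1)
    ⟨nearP_mono (le_max_left _ _) n1, nearP_mono (le_max_right _ _) n2⟩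

theorem HH.pair_hh1 (h : S.HH Φ pj pr set Φ' pj' pr' set' j) {a : 𝔊} {a' : 𝔊'}
    (h0 : 0 < Φ.ht a) (h0' : 0 < Φ'.ht a') (hs : Stable a) (hs' : Stable a') :
    ∃ F : Set X, F.Finite ∧ ∀ (w : 𝔾) (m m' : ℕ), 1 ≤ m → pj w = a ^ m → pj' w = a' ^ m' →
      ∀ q, w • q = q → ∃ c, pj c ∈ Φ.Cen a ∧ pj' c ∈ Φ'.Cen a' ∧ c • q ∈ F := by
  obtain ⟨k, hk⟩ := Int.eq_ofNat_of_zero_le h0.le
  obtain ⟨k', hk'⟩ := Int.eq_ofNat_of_zero_le h0'.le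
  have k1 : 1 ≤ k := by omega
  have k1' : 1 ≤ k' := by omega
  obtain ⟨E₀, e₀, e₀'⟩ := h.pair (a ^ k') (a' ^ k) (by rw [Φ.ht_pow, Φ'.ht_pow, hk, hk', mul_comm])
  obtain ⟨F, hF, hfix⟩ := h.fix_fin (G := E₀)
    (by rw [← h.hf.ht_eq, e₀, Φ.ht_pow]; positivity) (e₀ ▸ hs.pow _) (e₀' ▸ hs'.pow _)
  refine ⟨F, hF, fun w m m' hm hw hw' q hq => ?_⟩
  have hh : m * k = m' * k' := by
    have := h.hf.ht_eq w
    rw [← h.hf'.ht_eq w, hw, hw', Φ.ht_pow, Φ'.ht_pow, hk, hk'] at this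
    exact_mod_cast this
  have e : E₀ ^ m = w ^ k' := h.ext_hh1
    (by rw [map_pow, map_pow, e₀, hw, ← pow_mul, ← pow_mul, mul_comm])
    (by rw [map_pow, map_pow, e₀', hw', ← pow_mul, ← pow_mul, mul_comm, hh])
  obtain ⟨c, hc, hcq⟩ := hfix m hm q (by
    rw [e]
    exact MulAction.mem_stabilizer_iff.1
      (Subgroup.pow_mem _ (MulAction.mem_stabilizer_iff.2 hq) k'))
  refine ⟨c, ?_, ?_, hcq⟩
  · rw [← Φ.cen_pow hs k1', ← e₀]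
    exact h.hf.mem_cen hc
  · rw [← Φ'.cen_pow hs' k1, ← e₀']
    exact h.hf'.mem_cen hc

theorem HH.finPer (h : S.HH Φ pj pr set Φ' pj' pr' set' j) (hc : Φ.Core H (pj G))
    (hc' : Φ'.Core H' (pj' G)) : S.FinPer (H.comap pj ⊓ H'.comap pj') G := by
  have hle : ∀ c ∈ H.comap pj ⊓ H'.comap pj', S.ht c = 0 := fun c hc₁ => by
    rw [← h.hf.ht_eq]
    exact hc.le _ hc₁.1
  have hnorm : ∀ c, c ∈ H.comap pj ⊓ H'.comap pj' ↔ G * c * G⁻¹ ∈ H.comap pj ⊓ H'.comap pj' := by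
    intro c
    simp only [Subgroup.mem_inf, Subgroup.mem_comap, map_mul, map_inv]
    rw [← hc.norm, ← hc'.norm]
  refine ⟨hle, hnorm, ?_⟩
  obtain ⟨T, hT, hT1, hT2⟩ := hc.fin
  obtain ⟨T', hT', hT1', hT2'⟩ := hc'.fin
  have key := fun (a : T) (a' : T') => h.pair_hh1 (hT1 a a.2).1 (hT1' a' a'.2).1 (hT1 a a.2).2.1
    (hT1' a' a'.2).2.1
  choose F hF hfix using key
  have := hT.to_subtype
  have := hT'.to_subtype
  refine ⟨⋃ a, ⋃ a', F a a', finite_iUnion fun a => finite_iUnion fun a' => hF a a',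
    fun c hcC i hi q hq => ?_⟩
  have hG : 0 < S.ht G := h.hf.ht_eq G ▸ hc.pos
  have hg : 0 < S.ht (c * G ^ i) := by
    rw [S.ht_mul, hle c hcC, S.ht_pow, zero_add]
    positivity
  obtain ⟨n, hn, hns⟩ := h.iness.exists_pow Φ hg hq
  obtain ⟨n', hn', hns'⟩ := h.swap.iness.exists_pow Φ' hg hq
  obtain ⟨c₁, hc₁, e₁⟩ := exists_mul_pow (conj_pow_sbasic (fun c hc => (hnorm c).1 hc) i) hcC
    (n * n')
  have s₁ := hns n' hn'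
  have s₂ := hns' n hn
  rw [mul_comm n' n] at s₂
  rw [← pow_mul] at e₁
  rw [e₁, map_mul, map_pow] at s₁ s₂
  have hi' : 1 ≤ i * (n * n') := Nat.mul_pos hi (Nat.mul_pos hn hn')
  obtain ⟨a, ha, u, hu, α, β, hα, hβ, e⟩ := hT2 _ hc₁.1 _ hi' s₁.1 s₁.2
  obtain ⟨a', ha', u', hu', α', β', hα', hβ', e'⟩ := hT2' _ hc₁.2 _ hi' s₂.1 s₂.2
  rw [← map_pow, ← map_mul, ← e₁] at e e'
  obtain ⟨v, hv, hv'⟩ := h.pair u u' (by rw [hc.le u hu, hc'.le u' hu'])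
  have hvC : v ∈ H.comap pj ⊓ H'.comap pj' := ⟨by
    show pj v ∈ H
    rwa [hv], by
    show pj' v ∈ H'
    rwa [hv']⟩
  obtain ⟨d, hd, hd', hdq⟩ := hfix ⟨a, ha⟩ ⟨a', ha'⟩
    (v⁻¹ * ((c * G ^ i) ^ (n * n')) ^ (α * α') * v) (β * α') (β' * α) (Nat.mul_pos hβ hα')
    (by
      rw [map_mul, map_mul, map_inv, map_pow, pow_mul, e, hv, conj_pow, ← pow_mul]
      group)
    (by
      rw [map_mul, map_mul, map_inv, map_pow, mul_comm α, pow_mul, e', hv', conj_pow, ← pow_mul]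
      group)
    (v⁻¹ • q) (by
      rw [mul_smul, mul_smul, smul_inv_smul, ← pow_mul]
      congr 1
      exact MulAction.mem_stabilizer_iff.1
        (Subgroup.pow_mem _ (MulAction.mem_stabilizer_iff.2 hq) _))
  refine ⟨d * v⁻¹, Subgroup.mul_mem _ ⟨(hT1 a ha).2.2 hd, (hT1' a' ha').2.2 hd'⟩
    (Subgroup.inv_mem _ hvC), ?_⟩
  rw [mul_smul]
  exact mem_iUnion.2 ⟨_, mem_iUnion.2 ⟨_, hdq⟩⟩

end Setting

end Pool.Agent.P.MP_788ef7_an
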