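import Pool.Agent.P.MP_788ef7_an.Attr

set_option autoImplicit false

open Set Filter Topology Metric

namespace Pool.Agent.P.MP_788ef7_an

private theorem seg_split_hull {a b x y : ℂ} (hx : x ∈ segment ℝ a b) (hy : y ∈ segment ℝ a b) :
    y ∈ segment ℝ x a ∨ y ∈ segment ℝ x b := by
  rw [segment_eq_image_lineMap] at hx hy
  obtain ⟨s, hs, rfl⟩ := hx
  obtain ⟨t, ht, rfl⟩ := hy
  rcases le_total t s with h | h
  · left
    have e := image_segment ℝ (AffineMap.lineMap a b : ℝ →ᵃ[ℝ] ℂ) s 0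
    rw [AffineMap.lineMap_apply_zero] at e
    rw [← e]
    refine mem_image_of_mem _ ?_
    rw [segment_symm, segment_eq_Icc hs.1]
    exact ⟨ht.1, h⟩
  · right
    have e := image_segment ℝ (AffineMap.lineMap a b : ℝ →ᵃ[ℝ] ℂ) s 1
    rw [AffineMap.lineMap_apply_one] at e
    rw [← e]
    refine mem_image_of_mem _ ?_
    rw [segment_eq_Icc hs.2]
    exact ⟨h, ht.2⟩

namespace Fuchs

variable {𝔊 : Type*} [Group 𝔊] [MulAction 𝔊 Circle] {Φ : Fuchs 𝔊} {g g' γ δ u u' G g₀ : 𝔊}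
  {H : Subgroup 𝔊} {ξ η ζ a b c d p q a₁ a₂ r₁ r₂ a₁' a₂' r₁' r₂' : Circle} {k : ℕ} {T : Set 𝔊}

private theorem mem_lim_hull {L : ℝ} {z : ℕ → ℂ}
    (hz : ∀ n, (∃ ξ ∈ Φ.Lim H, z n = ξ) ∨ ∃ y : KD, Φ.Near H L y ∧ z n = y.val)
    (h : Tendsto z atTop (𝓝 (ζ : ℂ))) : ζ ∈ Φ.Lim H := by
  by_contra hn
  obtain ⟨ε, hε, h1⟩ := Φ.not_near_of_notMem hn L
  obtain ⟨δ, hδ, h2⟩ := Metric.isOpen_iff.1 (Φ.isClosed_lim H).isOpen_compl ζ hn
  have e1 : ∀ᶠ n in atTop, rho (z n) ζ < ε := by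
    have := tendsto_rho h (tendsto_const_nhds (x := (ζ : ℂ)))
    rw [rho_circle_self] at this
    exact this.eventually (gt_mem_nhds hε)
  have e2 : ∀ᶠ n in atTop, dist (z n) ζ < δ := Metric.tendsto_nhds.1 h δ hδ
  obtain ⟨n, hn1, hn2⟩ := (e1.and e2).exists
  rcases hz n with ⟨ξ, hξ, e⟩ | ⟨y, hy, e⟩
  · rw [e] at hn2
    exact h2 (show ξ ∈ ball ζ δ from hn2) hξ
  · rw [e] at hn1
    exact h1 y hn1 hy

theorem chord_near (hH : ∀ h ∈ H, Φ.ht h = 0) (hb : ∀ ξ ∈ Φ.Lim H, ¬ Φ.HBfree H ξ) (L : ℝ) :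
    ∃ R, ∀ v w : ℂ, ((∃ ξ ∈ Φ.Lim H, v = ξ) ∨ ∃ y : KD, Φ.Near H L y ∧ v = y.val) →
      ((∃ ξ ∈ Φ.Lim H, w = ξ) ∨ ∃ y : KD, Φ.Near H L y ∧ w = y.val) →
      ∀ x : KD, x.val ∈ segment ℝ v w → Φ.Near H R x := by
  by_contra hc
  have hc' : ∀ n : ℕ, ∃ v w : ℂ, ∃ x : KD,
      ((∃ ξ ∈ Φ.Lim H, v = ξ) ∨ ∃ y : KD, Φ.Near H L y ∧ v = y.val) ∧
      ((∃ ξ ∈ Φ.Lim H, w = ξ) ∨ ∃ y : KD, Φ.Near H L y ∧ w = y.val) ∧
      x.val ∈ segment ℝ v w ∧ ¬ Φ.Near H n x := by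
    intro n
    by_contra h
    refine hc ⟨n, fun v w hv hw x hx => ?_⟩
    by_contra h'
    exact h ⟨v, w, x, hv, hw, hx, h'⟩
  choose v w x hv hw hx hn using hc'
  have nrm : ∀ z : ℂ, ((∃ ξ ∈ Φ.Lim H, z = ξ) ∨ ∃ y : KD, Φ.Near H L y ∧ z = y.val) →
      ‖z‖ ≤ 1 := by
    rintro z (⟨ξ, -, rfl⟩ | ⟨y, -, rfl⟩)
    · exact (Circle.norm_coe ξ).le
    · exact y.lt.le
  have mvP : ∀ h ∈ H, ∀ z : ℂ, ((∃ ξ ∈ Φ.Lim H, z = ξ) ∨ ∃ y : KD, Φ.Near H L y ∧ z = y.val) →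
      ((∃ ξ ∈ Φ.Lim H, kact (Φ.L h) z = ξ) ∨
        ∃ y : KD, Φ.Near H L y ∧ kact (Φ.L h) z = y.val) := by
    rintro h hh z (⟨ξ, hξ, rfl⟩ | ⟨y, hy, rfl⟩)
    · exact Or.inl ⟨h • ξ, Φ.smul_mem_lim h hH
        (fun k hk => H.mul_mem (H.mul_mem hh hk) (H.inv_mem hh)) hξ, (Φ.bd_eq h ξ (hH h hh)).symm⟩
    · exact Or.inr ⟨Φ.mv h y, PreFuchs.Near.mv _ hy hh (hH h hh), rfl⟩
  obtain ⟨h, φ, ζ, -, hh, -, hlim, hfree⟩ := Φ.exists_dirichlet_limit hH hn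
  have hv' := fun n => mvP (h n) (hh n) _ (hv (φ n))
  have hw' := fun n => mvP (h n) (hh n) _ (hw (φ n))
  have hK : IsCompact (closedBall (0 : ℂ) 1 ×ˢ closedBall (0 : ℂ) 1) :=
    (isCompact_closedBall _ _).prod (isCompact_closedBall _ _)
  obtain ⟨⟨v₀, w₀⟩, hm, ψ, hψ, ht⟩ := hK.tendsto_subseq
    (x := fun n => (kact (Φ.L (h n)) (v (φ n)), kact (Φ.L (h n)) (w (φ n))))
    fun n => ⟨mem_closedBall_zero_iff.2 (nrm _ (hv' n)), mem_closedBall_zero_iff.2 (nrm _ (hw' n))⟩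
  have t1 : Tendsto (fun n => kact (Φ.L (h (ψ n))) (v (φ (ψ n)))) atTop (𝓝 v₀) :=
    (continuous_fst.tendsto _).comp ht
  have t2 : Tendsto (fun n => kact (Φ.L (h (ψ n))) (w (φ (ψ n)))) atTop (𝓝 w₀) :=
    (continuous_snd.tendsto _).comp ht
  have hs : (ζ : ℂ) ∈ segment ℝ v₀ w₀ :=
    mem_segment_of_tendsto (x := fun n => (Φ.mv (h (ψ n)) (x (φ (ψ n)))).val)
      (fun n => (Φ.lor (h (ψ n))).segment (nrm _ (hv _)) (nrm _ (hw _)) (hx _))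
      (hlim.comp hψ.tendsto_atTop) t1 t2
  rcases extreme (mem_closedBall_zero_iff.1 hm.1) (mem_closedBall_zero_iff.1 hm.2) hs with e | e
  · exact hb ζ (mem_lim_hull (fun n => hv' (ψ n)) (e ▸ t1)) hfree
  · exact hb ζ (mem_lim_hull (fun n => hw' (ψ n)) (e ▸ t2)) hfree

theorem chord_near_cen (Φ : Fuchs 𝔊) (g : 𝔊) : ∃ R, ∀ p ∈ Φ.Lim (Φ.Cen g), ∀ q ∈ Φ.Lim (Φ.Cen g),
    ∀ x : KD, x.val ∈ segment ℝ (p : ℂ) q → Φ.Near (Φ.Cen g) R x := by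
  obtain ⟨R, hR⟩ := chord_near (Φ := Φ) (H := Φ.Cen g) (fun h hh => hh.1)
    (fun ξ hξ => not_hbfree_cen hξ) 0
  exact ⟨R, fun p hp q hq x hx => hR p q (Or.inl ⟨p, hp, rfl⟩) (Or.inl ⟨q, hq, rfl⟩) x hx⟩

theorem gap_axis (hp : p ∈ Φ.Lim (Φ.Cen g)) (hq : q ∈ Φ.Lim (Φ.Cen g)) (hpq : p ≠ q)
    (hd : Disjoint (arc p q) (Φ.Lim (Φ.Cen g))) :
    ∃ δ ∈ Φ.Cen g, δ ≠ 1 ∧ δ • p = p ∧ δ • q = q := by
  obtain ⟨R, hR⟩ := chord_near_cen Φ g
  obtain ⟨c, hc, hcmp⟩ := vis_cmp R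
  have hH : ∀ h ∈ Φ.Cen g, Φ.ht h = 0 := fun h hh => hh.1
  have hpq' : (p : ℂ) ≠ q := fun e => hpq (Circle.ext e)
  let S : Set 𝔊 := {h | h ∈ Φ.Cen g ∧ ∃ x : KD, x.val ∈ segment ℝ (p : ℂ) q ∧ dist x (Φ.pt h) ≤ R}
  have hS : S.Infinite := by
    intro hfin
    obtain ⟨M, hM⟩ := (hfin.image fun h => dist (Φ.pt h) KD.o).bddAbove
    let s : ℕ → ℝ := fun n => 1 / ((n : ℝ) + 1 + 1)
    have s0 : ∀ n, 0 < s n := fun n => by positivity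
    have s1 : ∀ n, s n < 1 := fun n => by
      have : (0 : ℝ) ≤ n := n.cast_nonneg
      exact (div_lt_one (by positivity)).2 (by linarith)
    have hlt : ∀ n, ‖(1 - s n) • (p : ℂ) + s n • (q : ℂ)‖ < 1 := fun n =>
      norm_combo_lt_of_ne (Circle.norm_coe p).le (Circle.norm_coe q).le hpq'
        (sub_pos.2 (s1 n)) (s0 n) (by ring)
    let x : ℕ → KD := fun n => ⟨_, hlt n⟩
    have hxs : ∀ n, (x n).val ∈ segment ℝ (p : ℂ) q := fun n =>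
      ⟨1 - s n, s n, (sub_pos.2 (s1 n)).le, (s0 n).le, by ring, rfl⟩
    have ts : Tendsto s atTop (𝓝 0) := by
      have := (tendsto_one_div_add_atTop_nhds_zero_nat (𝕜 := ℝ)).comp (tendsto_add_atTop_nat 1)
      refine this.congr fun n => ?_
      simp only [s, Function.comp, Nat.cast_add, Nat.cast_one]
    have tx : Tendsto (fun n => (x n).val) atTop (𝓝 (p : ℂ)) := by
      have := ((tendsto_const_nhds (x := (1 : ℝ))).sub ts).smul_const (p : ℂ) |>.add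
        (ts.smul_const (q : ℂ))
      simpa only [sub_zero, one_smul, zero_smul, add_zero] using this
    obtain ⟨n, hn⟩ := ((tendsto_dist_atTop tx).eventually_gt_atTop (R + M)).exists
    obtain ⟨h, hh, hx⟩ := hR p hp q hq (x n) (hxs n)
    have h1 : dist (Φ.pt h) KD.o ≤ M := hM ⟨h, ⟨hh, x n, hxs n, hx⟩, rfl⟩
    linarith [dist_triangle (x n) (Φ.pt h) KD.o]
  let f : ℕ → 𝔊 := fun n => (hS.natEmbedding S n).1
  have hf : ∀ n, f n ∈ S := fun n => (hS.natEmbedding S n).2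
  have hfi : Function.Injective f := Subtype.val_injective.comp (hS.natEmbedding S).injective
  have key : ∀ n, 2 / c ≤ rho ((f n)⁻¹ • p : Circle) ((f n)⁻¹ • q : Circle) := by
    intro n
    obtain ⟨hh, x, hx, hdist⟩ := hf n
    have h0 := hH _ hh
    have h0' := hH _ ((Φ.Cen g).inv_mem hh)
    have e1 := Φ.vis_mv h0' x p q
    rw [vis_chord x.lt hx] at e1
    have e2 : dist (Φ.mv (f n)⁻¹ x) KD.o ≤ R := by
      rw [← Φ.mv_inv_mv h0 KD.o, Φ.dist_mv]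
      exact hdist
    have e3 := hcmp _ _ e2 _ _ (Circle.norm_coe ((f n)⁻¹ • p)).le (Circle.norm_coe ((f n)⁻¹ • q)).le
    rw [e1, show KD.o.val = 0 from rfl, vis_zero] at e3
    rw [div_le_iff₀ hc]
    linarith
  obtain ⟨n, m, hnm, hmeet⟩ := arcs_meet (by positivity) _ _ key
  have out : ∀ i j, ∀ r ∈ Φ.Lim (Φ.Cen g), (f i)⁻¹ • r ∉ arc ((f j)⁻¹ • p) ((f j)⁻¹ • q) := by
    intro i j r hr hmem
    have hm : f j * (f i)⁻¹ ∈ Φ.Cen g := (Φ.Cen g).mul_mem (hf j).1 ((Φ.Cen g).inv_mem (hf i).1)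
    have e : (f i)⁻¹ • r = (f j)⁻¹ • (f j * (f i)⁻¹) • r := by
      rw [← mul_smul, inv_mul_cancel_left]
    rw [e, (Φ.op_of_ht (hH _ ((Φ.Cen g).inv_mem (hf j).1))).mem_arc] at hmem
    exact Set.disjoint_left.1 hd hmem (Φ.smul_mem_lim _ hH (fun k hk =>
      (Φ.Cen g).mul_mem ((Φ.Cen g).mul_mem hm hk) ((Φ.Cen g).inv_mem hm)) hr)
  rcases arc_eq_or_disjoint (out n m p hp) (out n m q hq) (out m n p hp) (out m n q hq) with
    ⟨e1, e2⟩ | h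
  · refine ⟨f m * (f n)⁻¹, (Φ.Cen g).mul_mem (hf m).1 ((Φ.Cen g).inv_mem (hf n).1),
      fun e => hnm.ne' (hfi (mul_inv_eq_one.1 e)), ?_, ?_⟩
    · rw [mul_smul, e1, smul_inv_smul]
    · rw [mul_smul, e2, smul_inv_smul]
  · exact (hmeet h).elim

private theorem cross_aux_hull (ha : a ∈ Φ.Lim (Φ.Cen g)) (hab : b ≠ a) {x₀ : KD} {x : ℕ → KD}
    (h₀ : x₀.val ∈ segment ℝ (a : ℂ) b) (hx : ∀ n, (x n).val ∈ segment ℝ (a : ℂ) b)
    (ht : Tendsto (fun n => (x n).val) atTop (𝓝 (a : ℂ))) :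
    ∃ R, ∀ᶠ n in atTop, Φ.Near (Φ.Cen g) R (x n) := by
  obtain ⟨R, hR⟩ := chord_near (Φ := Φ) (H := Φ.Cen g) (fun h hh => hh.1)
    (fun ξ hξ => not_hbfree_cen hξ) (dist x₀ KD.o)
  refine ⟨R, ?_⟩
  have p1 : 0 < rho x₀.val a := rho_pos x₀.lt (Circle.norm_coe a).le
  have p2 : 0 < rho b a := rho_pos_of_ne (Circle.norm_coe b).le fun e => hab (Circle.ext e)
  have e1 : ∀ᶠ n in atTop, rho (x n).val a < min (rho x₀.val a) (rho b a) := by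
    have := tendsto_rho ht (tendsto_const_nhds (x := (a : ℂ)))
    rw [rho_circle_self] at this
    exact this.eventually (gt_mem_nhds (lt_min p1 p2))
  filter_upwards [e1] with n hn
  rcases seg_split_hull h₀ (hx n) with h | h
  · exact hR _ _ (Or.inr ⟨x₀, Φ.near_self _ _, rfl⟩) (Or.inl ⟨a, ha, rfl⟩) _ h
  · exact (hn.not_ge (le_rho_of_segment h (min_le_left _ _) (min_le_right _ _))).elim

/-- Crossing points of a chord of `RSet g` with the images of a linked chord stay near the orbit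
of the centraliser. -/
theorem cross_near (hg : Stable g) (ha : a ∈ Φ.RSet g) (hb : b ∈ Φ.RSet g) (h : Linked a b c d)
    {x : ℕ → KD} (hx : ∀ n, (x n).val ∈ segment ℝ (a : ℂ) b)
    (hx' : ∀ n, (x n).val ∈ segment ℝ ((g ^ n • c : Circle) : ℂ) (g ^ n • d : Circle)) :
    ∃ R, ∀ n, Φ.Near (Φ.Cen g) R (x n) := by
  by_contra hc
  have hc' : ∀ k : ℕ, ∃ n, ¬ Φ.Near (Φ.Cen g) k (x n) := by
    intro k
    by_contra h'
    refine hc ⟨k, fun n => ?_⟩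
    by_contra h''
    exact h' ⟨n, h''⟩
  choose φ hφ using hc'
  have hd : ∀ k : ℕ, (k : ℝ) < dist (x (φ k)) KD.o := fun k => by
    by_contra h'
    exact hφ k (PreFuchs.Near.mono _ (Φ.near_self _ _) (not_lt.1 h'))
  have t0 : Tendsto (fun k => dist (x (φ k)) KD.o) atTop atTop :=
    tendsto_atTop_mono (fun k => (hd k).le) tendsto_natCast_atTop_atTop
  have tφ : Tendsto φ atTop atTop := by
    refine tendsto_atTop.2 fun N => ?_
    obtain ⟨M, hM⟩ := ((finite_Iio N).image fun n => dist (x n) KD.o).bddAbove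
    filter_upwards [t0.eventually_gt_atTop M] with k hk
    by_contra h'
    exact hk.not_ge (hM ⟨φ k, not_le.1 h', rfl⟩)
  obtain ⟨ξ, ψ, hψ, hξ⟩ := exists_limit (fun k => x (φ k)) t0
  have tt : Tendsto (fun k => φ (ψ k)) atTop atTop := tφ.comp hψ.tendsto_atTop
  obtain ⟨c', -, hc'⟩ := Stable.conv Φ.cont hg c
  obtain ⟨d', -, hd'⟩ := Stable.conv Φ.cont hg d
  have cc : Continuous fun z : Circle => (z : ℂ) := continuous_subtype_val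
  have s1 : (ξ : ℂ) ∈ segment ℝ (a : ℂ) b :=
    mem_segment_of_tendsto (fun k => hx (φ (ψ k))) hξ tendsto_const_nhds tendsto_const_nhds
  have s2 : (ξ : ℂ) ∈ segment ℝ (c' : ℂ) d' :=
    mem_segment_of_tendsto (fun k => hx' (φ (ψ k))) hξ ((cc.tendsto _).comp (hc'.comp tt))
      ((cc.tendsto _).comp (hd'.comp tt))
  obtain ⟨n1, -, n2, n3, n4, n5⟩ := h.ne
  have lim : ξ ∈ Φ.RSet g → ξ ≠ c → ξ ≠ d → ξ ∈ Φ.Lim (Φ.Cen g) := by
    rintro (h1 | h1) h2 h3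
    · exact h1
    · rcases extreme (Circle.norm_coe c').le (Circle.norm_coe d').le s2 with e | e
      · exact (TAttr.not_limit h1.2.2 h2.symm (Circle.ext e ▸ hc')).elim
      · exact (TAttr.not_limit h1.2.2 h3.symm (Circle.ext e ▸ hd')).elim
  have fin : ¬ ∃ R, ∀ᶠ k in atTop, Φ.Near (Φ.Cen g) R (x (φ (ψ k))) := by
    rintro ⟨R, hR⟩
    have : ∀ᶠ k in atTop, R ≤ (ψ k : ℝ) :=
      (tendsto_natCast_atTop_atTop.comp hψ.tendsto_atTop).eventually_ge_atTop R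
    obtain ⟨k, h1, h2⟩ := (hR.and this).exists
    exact hφ (ψ k) (PreFuchs.Near.mono _ h1 h2)
  rcases extreme (Circle.norm_coe a).le (Circle.norm_coe b).le s1 with e | e
  · obtain rfl : a = ξ := Circle.ext e
    exact fin (cross_aux_hull (lim ha n2 n3) n1.symm (hx 0) (fun k => hx (φ (ψ k))) hξ)
  · obtain rfl : b = ξ := Circle.ext e
    have hy : ∀ n, (x n).val ∈ segment ℝ (b : ℂ) a := fun n => by
      rw [segment_symm]
      exact hx n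
    exact fin (cross_aux_hull (lim hb n4 n5) n1 (hy 0) (fun k => hy (φ (ψ k))) hξ)

end Fuchs

end Pool.Agent.P.MP_788ef7_an
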