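import Pool.Agent.P.MP_788ef7_an.Hyp1

set_option autoImplicit false

open Set Filter Topology Metric

namespace Pool.Agent.P.MP_788ef7_an

namespace Fuchs

variable {𝔊 : Type*} [Group 𝔊] [MulAction 𝔊 Circle] {Φ : Fuchs 𝔊} {g g' γ δ u : 𝔊}
  {H : Subgroup 𝔊} {ξ η ζ a b c a' b' p q : Circle}

theorem kmu_mul_hyp (hγ : Φ.ht γ = 0) (hδ : Φ.ht δ = 0) (h' : δ • a = a) :
    kmu (Φ.L (γ * δ)) a = kmu (Φ.L γ) a * kmu (Φ.L δ) a := by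
  rw [Φ.L_mul γ δ hγ, (Φ.lor δ).kmu_comp a.norm_coe.le, ← Φ.bd_eq δ a hδ, h']

theorem ht_div_hyp (h : Φ.ht γ = Φ.ht δ) : Φ.ht (γ * δ⁻¹) = 0 := by
  rw [Φ.ht_mul, Φ.ht_inv, h, add_neg_cancel]

theorem fix_div_hyp (h : γ • a = a) (h' : δ • a = a) : (γ * δ⁻¹) • a = a := by
  rw [mul_smul, inv_smul_eq_iff.2 h'.symm, h]

theorem kmu_div_hyp (hγ : Φ.ht γ = 0) (hδ : Φ.ht δ = 0) (h' : δ • a = a) :
    kmu (Φ.L γ) a = kmu (Φ.L (γ * δ⁻¹)) a * kmu (Φ.L δ) a := by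
  rw [← kmu_mul_hyp (ht_div_hyp (hγ.trans hδ.symm)) hδ h', inv_mul_cancel_right]

theorem eq_of_kmu_hyp (hγ : Φ.ht γ = 0) (hδ : Φ.ht δ = 0) (h : γ • a = a) (h' : δ • a = a)
    (e : kmu (Φ.L γ) a = kmu (Φ.L δ) a) : γ = δ := by
  have h1 := kmu_div_hyp hγ hδ h'
  rw [e, right_eq_mul₀ ((Φ.lor δ).kmu_pos a.norm_coe.le).ne'] at h1
  exact mul_inv_eq_one.1 (eq_one_of_kmu (ht_div_hyp (hγ.trans hδ.symm)) (fix_div_hyp h h') h1)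

theorem comm_of_fix (hγ : Φ.ht γ = 0) (hδ : Φ.ht δ = 0) (h : γ • a = a) (h' : δ • a = a) :
    γ * δ = δ * γ := by
  refine eq_of_kmu_hyp (Φ := Φ) (a := a) (by rw [Φ.ht_mul, hγ, hδ]; rfl)
    (by rw [Φ.ht_mul, hγ, hδ]; rfl) (by rw [mul_smul, h', h]) (by rw [mul_smul, h, h']) ?_
  rw [kmu_mul_hyp hγ hδ h', kmu_mul_hyp hδ hγ h, mul_comm]

theorem finite_ax_hyp (Φ : Fuchs 𝔊) (a b : Circle) (M : ℝ) :
    {δ | Φ.Ax δ a b ∧ kmu (Φ.L δ) a ≤ M}.Finite := by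
  by_cases hab : a = b
  · exact finite_empty.subset fun δ h => (h.1.ne hab).elim
  have hr : 0 < rho a b := rho_pos_of_ne a.norm_coe.le fun e => hab (Circle.ext e)
  have e1 : rho ((1 / 2 : ℝ) • (a : ℂ) + (1 / 2 : ℝ) • (b : ℂ))
      ((1 / 2 : ℝ) • (a : ℂ) + (1 / 2 : ℝ) • (b : ℂ)) = rho a b / 2 := by
    have h1 := rho_circle_self a
    have h2 := rho_circle_self b
    simp only [rho, Complex.add_re, Complex.add_im, Complex.smul_re, Complex.smul_im,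
      smul_eq_mul] at h1 h2 ⊢
    linarith
  let x : KD := ⟨_, norm_lt_one_of_rho (e1 ▸ half_pos hr)⟩
  obtain ⟨R, hR⟩ := dist_le_of_rho (M ^ 2 / (rho a b / 2))
  refine (Φ.finite_mv x KD.o R).subset fun δ ⟨h, hM⟩ => ⟨h.ht0, hR _ _ ?_⟩
  have h1 := (Φ.lor δ).rho_kact a.norm_coe.le b.norm_coe.le
  rw [← Φ.bd_eq δ a h.ht0, ← Φ.bd_eq δ b h.ht0, h.fa, h.fb, mul_eq_right₀ hr.ne'] at h1
  have h2 := (Φ.lor δ).rho_kact x.lt.le x.lt.le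
  have h3 : kmu (Φ.L δ) x.val = (kmu (Φ.L δ) a + kmu (Φ.L δ) b) / 2 := by
    have : ((1 : ℝ), x.val) = (1 / 2 : ℝ) • ((1 : ℝ), (a : ℂ)) + (1 / 2 : ℝ) • ((1 : ℝ), (b : ℂ)) :=
      Prod.ext (by norm_num) rfl
    rw [kmu, this, map_add, map_smul, map_smul, kmu, kmu, Prod.fst_add, Prod.smul_fst,
      Prod.smul_fst, smul_eq_mul, smul_eq_mul]
    ring
  have h4 := (Φ.lor δ).kmu_pos x.lt.le
  have h5 := h.mu
  have h6 := (Φ.lor δ).kmu_pos b.norm_coe.le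
  have h7 : kmu (Φ.L δ) x.val ≤ M := by nlinarith
  have h8 := (Φ.mv δ x).rho_pos
  rw [rho_o_kb2, rho_o_kb2, mul_one, one_pow, div_mul_eq_mul_div, le_div_iff₀ (half_pos hr),
    one_mul, ← e1, ← h2, ← sq]
  exact mul_le_mul_of_nonneg_right (pow_le_pow_left₀ h4.le h7 2) h8.le

theorem mono_hyp (h : Φ.Ax γ a b) (h' : Φ.Ax δ a b) (ha : g • a = a)
    (hl : kmu (Φ.L δ) a < kmu (Φ.L γ) a) :
    kmu (Φ.L (g * δ * g⁻¹)) a < kmu (Φ.L (g * γ * g⁻¹)) a := by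
  have h1 : Φ.Ax (γ * δ⁻¹) a b := by
    refine ⟨ht_div_hyp (h.ht0.trans h'.ht0.symm), h.ne, fix_div_hyp h.fa h'.fa,
      fix_div_hyp h.fb h'.fb, ?_⟩
    rw [kmu_div_hyp h.ht0 h'.ht0 h'.fa] at hl
    exact (lt_mul_iff_one_lt_left (one_pos.trans h'.mu)).1 hl
  have h2 := h1.conj g
  have h3 := h'.conj g
  rw [ha] at h2 h3
  have e : g * γ * g⁻¹ = g * (γ * δ⁻¹) * g⁻¹ * (g * δ * g⁻¹) := by group
  rw [e, kmu_mul_hyp h2.ht0 h3.ht0 h3.fa]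
  exact (lt_mul_iff_one_lt_left (one_pos.trans h3.mu)).2 h2.mu

theorem not_lt_hyp (h : Φ.Ax γ a b) (ha : g • a = a) (hb : g • b = b) :
    ¬ kmu (Φ.L (g * γ * g⁻¹)) a < kmu (Φ.L γ) a := fun hl => by
  obtain ⟨δ, ⟨h1, h2, h3⟩, hm⟩ := Set.exists_min_image
    {δ | Φ.Ax δ a b ∧ kmu (Φ.L δ) a ≤ kmu (Φ.L γ) a ∧ kmu (Φ.L (g * δ * g⁻¹)) a < kmu (Φ.L δ) a}
    (fun δ => kmu (Φ.L δ) a) ((Φ.finite_ax_hyp a b _).subset fun δ h => ⟨h.1, h.2.1⟩)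
    ⟨γ, h, le_rfl, hl⟩
  have h4 := h1.conj g
  rw [ha, hb] at h4
  exact (hm _ ⟨h4, h3.le.trans h2, mono_hyp h1 h4 ha h3⟩).not_gt h3

theorem comm_of_ax_hyp (h : Φ.Ax γ a b) (ha : g • a = a) : γ * g = g * γ := by
  have h1 := h.conj g
  rw [ha] at h1
  have hb : g • b = b :=
    ((h1.fix (h.fix_of_comm (comm_of_fix h.ht0 h1.ht0 h.fa h1.fa)).2).resolve_left h.ne.symm).symm
  have ha' : g⁻¹ • a = a := inv_smul_eq_iff.2 ha.symm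
  have hb' : g⁻¹ • b = b := inv_smul_eq_iff.2 hb.symm
  rw [hb] at h1
  have e : g * γ * g⁻¹ = γ := by
    refine eq_of_kmu_hyp h1.ht0 h.ht0 h1.fa h.fa
      (le_antisymm (not_lt.1 fun hl => ?_) (not_lt.1 (not_lt_hyp h ha hb)))
    have h2 := mono_hyp h1 h ha' hl
    rw [show g⁻¹ * (g * γ * g⁻¹) * g⁻¹⁻¹ = γ by group] at h2
    exact not_lt_hyp h ha' hb' h2
  exact (mul_inv_eq_iff_eq_mul.1 e).symm

/-- An element fixing an end of the axis of `γ` commutes with `γ`. -/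
theorem comm_of_fix_end (hγ : Φ.ht γ = 0) (h1 : γ ≠ 1) (h : γ • ξ = ξ) (hg : g • ξ = ξ) :
    γ * g = g * γ := by
  obtain ⟨a, b, hx⟩ := exists_ax hγ h1
  rcases hx.fix h with rfl | rfl
  · exact comm_of_ax_hyp hx hg
  · exact (Commute.inv_left_iff.1 (comm_of_ax_hyp hx.symm hg)).eq

theorem exists_seq_hyp (hξ : ξ ∈ Φ.Lim H) : ∃ f : ℕ → 𝔊, (∀ n, f n ∈ H) ∧
    Tendsto (fun n => (Φ.pt (f n)).val) atTop (𝓝 ξ) := by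
  obtain ⟨x, hx, ht⟩ := mem_closure_iff_seq_limit.1 hξ
  choose f hf he using hx
  exact ⟨f, hf, by simpa only [he] using ht⟩

theorem exists_ne_hyp (hξ : ξ ∈ Φ.Lim H) : ∃ δ ∈ H, δ ≠ 1 := by
  by_contra hc
  have e : H = ⊥ := (Subgroup.eq_bot_iff_forall _).2 fun δ hδ => not_not.1 fun h => hc ⟨δ, hδ, h⟩
  rw [e, Φ.lim_bot] at hξ
  exact hξ

theorem lim_dense (hH : ∀ h ∈ H, Φ.ht h = 0) (hξ : ξ ∈ Φ.Lim H) {V : Set Circle} (hV : V ∈ 𝓝 ξ) :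
    ∃ δ ∈ H, ∃ a b, Φ.Ax δ a b ∧ a ∈ V := by
  obtain ⟨f, hf, ht⟩ := exists_seq_hyp hξ
  obtain ⟨α, β, φ, hφ, hα, hβ⟩ := Φ.exists_conv (fun n => hH _ (hf n)) (tendsto_dist_atTop ht)
  obtain rfl : α = ξ := Circle.ext (tendsto_nhds_unique hα (ht.comp hφ.tendsto_atTop))
  have key : ∀ δ ∈ H, ∀ a b, Φ.Ax δ a b → a ≠ β → ∃ δ ∈ H, ∃ a b, Φ.Ax δ a b ∧ a ∈ V :=
    fun δ hδ a b hx hne => by
      have h1 := Φ.conv_smul (η := fun _ => a) (fun n => hH _ (hf (φ n))) hα hβ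
        (rho_pos_of_ne a.norm_coe.le fun e => hne (Circle.ext e)) (Eventually.of_forall fun _ => le_rfl)
      obtain ⟨n, hn⟩ := (h1.eventually hV).exists
      exact ⟨_, H.mul_mem (H.mul_mem (hf _) hδ) (H.inv_mem (hf _)), _, _, hx.conj _, hn⟩
  obtain ⟨δ, hδ, h1⟩ := exists_ne_hyp hξ
  obtain ⟨a, b, hx⟩ := exists_ax (hH δ hδ) h1
  by_cases e : a = β
  · exact key _ (H.inv_mem hδ) _ _ hx.symm (e ▸ hx.ne.symm)
  · exact key _ hδ _ _ hx e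

theorem lim_nontrivial (hH : ∀ h ∈ H, Φ.ht h = 0) (h : H ≠ ⊥) : (Φ.Lim H).Nontrivial := by
  obtain ⟨δ, hδ, h1⟩ := (Subgroup.bot_or_exists_ne_one H).resolve_left h
  obtain ⟨a, b, hx⟩ := exists_ax (hH δ hδ) h1
  exact ⟨a, (hx.mem_lim hδ).1, b, (hx.mem_lim hδ).2, hx.ne⟩

theorem lim_cen_subset (g : 𝔊) : Φ.Lim (Φ.Cen g) ⊆ Fix g := fun ξ hξ => by
  obtain ⟨f, hf, ht⟩ := exists_seq_hyp hξ
  refine Circle.ext (tendsto_nhds_unique (Φ.step_tendsto (g := g) (C := dist KD.o (Φ.pt g))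
    (fun n => ⟨f n, ?_, ?_⟩) ht) ht)
  · rw [dist_self]
    exact dist_nonneg
  · rw [← (hf n).2, Φ.pt_mul (hf n).1]
    exact (Φ.dist_mv _ _ _).le

theorem cen_le_hyp (h : Fix g ⊆ Fix g') : Φ.Cen g ≤ Φ.Cen g' := fun γ hγ => by
  by_cases h1 : γ = 1
  · exact h1 ▸ one_mem _
  · obtain ⟨a, b, hx⟩ := exists_ax hγ.1 h1
    exact ⟨hγ.1, comm_of_fix_end hγ.1 h1 hx.fa (h (hx.fix_of_comm hγ.2).1)⟩

theorem cen_of_fix_eq (h : Fix g = Fix g') : Φ.Cen g = Φ.Cen g' :=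
  le_antisymm (cen_le_hyp h.subset) (cen_le_hyp h.symm.subset)

theorem cen_pow (hg : Stable g) {n : ℕ} (hn : 1 ≤ n) : Φ.Cen (g ^ n) = Φ.Cen g :=
  cen_of_fix_eq (hg.fix_pow hn)

theorem eq_of_sub_hyp (hg : Ess g) (h : Fix g ⊆ Fix γ) (h' : Fix g ⊆ Fix δ)
    (hh : Φ.ht γ = Φ.ht δ) : γ = δ := by
  obtain ⟨a, ha, b, hb, c, hc, hne⟩ := hg
  exact mul_inv_eq_one.1 (eq_one_of_three (ht_div_hyp hh) ⟨a, fix_div_hyp (h ha) (h' ha),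
    b, fix_div_hyp (h hb) (h' hb), c, fix_div_hyp (h hc) (h' hc), hne⟩)

theorem pow_eq_of_fix (hg : Ess g) (h : Fix g = Fix g') : g ^ Φ.ht g' = g' ^ Φ.ht g :=
  eq_of_sub_hyp (Φ := Φ) hg (fun _ hx => zpow_fix_cd1 hx _)
    (fun _ hx => zpow_fix_cd1 (h.subset hx) _) (by rw [Φ.ht_zpow, Φ.ht_zpow, mul_comm])

theorem eq_of_fix_eq (hg : Ess g) (h : Fix g = Fix g') (hh : Φ.ht g = Φ.ht g') : g = g' :=
  eq_of_sub_hyp hg subset_rfl h.subset hh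

theorem exists_pow_eq (hg : Ess g) (h : Fix g = Fix g') (h0 : 0 < Φ.ht g) (h0' : 0 < Φ.ht g') :
    ∃ m n : ℕ, 1 ≤ m ∧ 1 ≤ n ∧ g ^ m = g' ^ n := by
  refine ⟨(Φ.ht g').toNat, (Φ.ht g).toNat, by omega, by omega, ?_⟩
  rw [← zpow_natCast, ← zpow_natCast, Int.toNat_of_nonneg h0.le, Int.toNat_of_nonneg h0'.le]
  exact pow_eq_of_fix hg h

/-- A common fixed point of two different classes is an end of a common centralising element. -/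
theorem common_fix (hg : Stable g) (hg' : Stable g') (h0 : Φ.ht g ≠ 0) (h0' : Φ.ht g' ≠ 0)
    (hne : Fix g ≠ Fix g') (h : ξ ∈ Fix g) (h' : ξ ∈ Fix g') :
    ∃ v, v ≠ 1 ∧ v ∈ Φ.Cen g ∧ v ∈ Φ.Cen g' ∧ v • ξ = ξ := by
  have h1 : Φ.ht (g ^ Φ.ht g' * (g' ^ Φ.ht g)⁻¹) = 0 :=
    ht_div_hyp (by rw [Φ.ht_zpow, Φ.ht_zpow, mul_comm])
  have h2 : (g ^ Φ.ht g' * (g' ^ Φ.ht g)⁻¹) • ξ = ξ :=
    fix_div_hyp (zpow_fix_cd1 h _) (zpow_fix_cd1 h' _)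
  have h3 : g ^ Φ.ht g' * (g' ^ Φ.ht g)⁻¹ ≠ 1 := fun e => hne (by
    rw [← hg.fix_zpow h0', mul_inv_eq_one.1 e, hg'.fix_zpow h0])
  exact ⟨_, h3, ⟨h1, comm_of_fix_end h1 h3 h2 h⟩, ⟨h1, comm_of_fix_end h1 h3 h2 h'⟩, h2⟩

theorem mem_lim_of_fix (hγ : γ ∈ H) (h0 : Φ.ht γ = 0) (h1 : γ ≠ 1) (h : γ • ξ = ξ) :
    ξ ∈ Φ.Lim H := by
  obtain ⟨a, b, hx⟩ := exists_ax h0 h1
  rcases hx.fix h with rfl | rfl
  exacts [(hx.mem_lim hγ).1, (hx.mem_lim hγ).2]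

theorem seq_hyp (h : Φ.Ax δ p q ∨ Φ.Ax δ q p) (hξ : ξ ≠ q) :
    ∃ m : ℕ → ℤ, Tendsto (fun k => δ ^ m k • ξ) atTop (𝓝 p) := by
  rcases h with h | h
  · exact ⟨fun k => k, by simpa only [zpow_natCast] using h.tendsto hξ⟩
  · exact ⟨fun k => -k, by simpa only [zpow_neg, zpow_natCast, inv_pow] using h.symm.tendsto hξ⟩

theorem exists_between_orbit (h0 : Φ.ht δ = 0) (h1 : δ ≠ 1) (hp : δ • p = p) (hq : δ • q = q)
    (hξ : ξ ∈ arc p q) (hζ : ζ ∈ arc p q) : ∃ m n : ℤ, ζ ∈ arc (δ ^ m • ξ) (δ ^ n • ξ) ∧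
      closure (arc (δ ^ m • ξ) (δ ^ n • ξ)) ⊆ arc p q := by
  have hx := ax_of_fix h0 h1 hp hq (Cyc.ne₁₃ hξ)
  obtain ⟨m, hm⟩ := seq_hyp hx (Cyc.ne₂₃ hξ)
  obtain ⟨n, hn⟩ := seq_hyp hx.symm (Cyc.ne₁₂ hξ).symm
  obtain ⟨i, hi⟩ := (Cyc.eventually hζ hm tendsto_const_nhds tendsto_const_nhds).exists
  obtain ⟨k, hk⟩ := (Cyc.eventually hζ tendsto_const_nhds tendsto_const_nhds hn).exists
  have h2 := (Φ.op_of_ht h0).stay hp hq hξ (m i)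
  have h3 := (Φ.op_of_ht h0).stay hp hq hξ (n k)
  refine ⟨m i, n k, ?_⟩
  generalize δ ^ m i • ξ = p' at *
  generalize δ ^ n k • ξ = q' at *
  obtain ⟨θ, -, hθ, ha⟩ := exists_theta_arc1 p
  have k0 : ∀ x y, x ∈ arc p y → θ p < θ x ∧ θ x < θ y := fun x y h => by
    rcases (ha _ _ _).1 h with h | h | h
    exacts [h, (h.2.not_ge (hθ _)).elim, (h.1.not_ge (hθ _)).elim]
  have k1 := k0 _ _ h2
  have k2 := k0 _ _ h3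
  have k3 := k0 _ _ hk
  have k4 : θ p' < θ ζ := by
    rcases (ha _ _ _).1 hi with h | h | h
    exacts [h.1, (h.2.not_gt k1.2).elim, (h.1.not_gt k1.2).elim]
  have k5 : ζ ∈ arc p' q' := (ha _ _ _).2 (Or.inl ⟨k4, k3.2⟩)
  refine ⟨k5, ?_⟩
  rw [closure_arc (Cyc.ne₁₃ k5)]
  rintro x (rfl | rfl | hx)
  · exact h2
  · exact h3
  · rcases (ha _ _ _).1 hx with h | h | h
    · exact (ha _ _ _).2 (Or.inl ⟨k1.1.trans h.1, h.2.trans k2.2⟩)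
    · exact (h.2.not_gt (k4.trans k3.2)).elim
    · exact (h.1.not_gt (k4.trans k3.2)).elim

/-- Two lifts differing by a translation along an axis have no fixed points on the same side. -/
theorem rc (hu : u ∈ Φ.Cen g) (h1 : u ≠ 1) (hg : OP g) (hp : u • p = p) (hq : u • q = q)
    (hξ : ξ ∈ arc p q) (hη : η ∈ arc p q) (h : g • ξ = ξ) (h' : (u * g) • η = η) : False := by
  obtain ⟨m, n, h2, h3⟩ := exists_between_orbit hu.1 h1 hp hq hξ hη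
  have hc : Commute u g := hu.2
  have hf : ∀ k : ℤ, g • u ^ k • ξ = u ^ k • ξ := fun k => by
    rw [← mul_smul, ← (hc.zpow_left k).eq, mul_smul, h]
  have he : ∀ k : ℕ, u⁻¹ ^ k • η = g ^ (k : ℤ) • η := fun k => by
    rw [zpow_natCast, inv_pow, inv_smul_eq_iff, ← mul_smul, ← hc.mul_pow, pow_fix_cdyn h']
  have hs : ∀ a, Tendsto (fun k : ℕ => u⁻¹ ^ k • η) atTop (𝓝 a) → a ∈ arc p q := fun a ha =>
    h3 (mem_closure_of_tendsto ha (Eventually.of_forall fun k =>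
      he k ▸ hg.stay (hf m) (hf n) h2 k))
  rcases ax_of_fix hu.1 h1 hp hq (Cyc.ne₁₃ hξ) with hx | hx
  · exact right_notMem_arc p q (hs _ (hx.symm.tendsto (Cyc.ne₁₂ hη).symm))
  · exact left_notMem_arc p q (hs _ (hx.symm.tendsto (Cyc.ne₂₃ hη)))

theorem mem_lim_univ_hyp (Φ : Fuchs 𝔊) (ξ : Circle) : ξ ∈ Φ.Lim (Φ.Cen 1) := by
  obtain ⟨f, hf, ht⟩ := Φ.exists_tendsto_pt ξ
  exact mem_closure_of_tendsto ht (Eventually.of_forall fun n =>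
    ⟨f n, ⟨hf n, by rw [mul_one, one_mul]⟩, rfl⟩)

theorem exists_other_hyp (h : Φ.Ax γ a b) : ∃ δ a' b', Φ.Ax δ a' b' ∧ γ * δ ≠ δ * γ ∧ a' ≠ b := by
  obtain ⟨ξ, hξ⟩ := arc_nonempty h.ne
  obtain ⟨δ, -, a', b', hx, hV⟩ := lim_dense (H := Φ.Cen 1) (fun _ h => h.1) (Φ.mem_lim_univ_hyp ξ)
    ((isOpen_arc a b).mem_nhds hξ)
  refine ⟨δ, a', b', hx, fun e => ?_, Cyc.ne₂₃ hV⟩
  rcases h.fix (hx.fix_of_comm e.symm).1 with rfl | rfl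
  exacts [left_notMem_arc _ _ hV, right_notMem_arc _ _ hV]

theorem not_comm (Φ : Fuchs 𝔊) : ∃ γ δ, Φ.ht γ = 0 ∧ Φ.ht δ = 0 ∧ γ * δ ≠ δ * γ := by
  obtain ⟨γ, -, a, b, hx, -⟩ := lim_dense (H := Φ.Cen 1) (fun _ h => h.1) (Φ.mem_lim_univ_hyp 1) univ_mem
  obtain ⟨δ, a', b', hx', hne, -⟩ := exists_other_hyp hx
  exact ⟨γ, δ, hx.ht0, hx'.ht0, hne⟩

theorem comm_trans (h0 : Φ.ht γ = 0) (h1 : γ ≠ 1) (hδ : δ ∈ Φ.Cen γ) (hu : u ∈ Φ.Cen γ) :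
    δ * u = u * δ := by
  obtain ⟨a, b, hx⟩ := exists_ax h0 h1
  exact comm_of_fix hδ.1 hu.1 (hx.fix_of_comm hδ.2.symm).1 (hx.fix_of_comm hu.2.symm).1

theorem orbit_small (Φ : Fuchs 𝔊) (a b ω : Circle) {ε : ℝ} (hε : 0 < ε) :
    ∃ γ, Φ.ht γ = 0 ∧ dist (γ • a) ω < ε ∧ dist (γ • b) ω < ε := by
  obtain ⟨γ, -, p, q, hx, hp⟩ := lim_dense (H := Φ.Cen 1) (fun _ h => h.1) (Φ.mem_lim_univ_hyp ω)
    (ball_mem_nhds ω hε)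
  obtain ⟨δ, p', q', hx', hne, hp'⟩ := exists_other_hyp hx
  have hq' : q' ≠ q := fun e => hne (comm_of_fix hx.ht0 hx'.ht0 hx.fb (e ▸ hx'.fb))
  have h1 : ∀ c : Circle, ∀ᶠ n : ℕ in atTop, δ ^ n • c ≠ q := fun c => by
    by_cases e : c = q'
    · exact Eventually.of_forall fun n => by rwa [e, pow_fix_cdyn hx'.fb]
    · exact (hx'.tendsto e).eventually_ne hp'
  obtain ⟨n, ha, hb⟩ := ((h1 a).and (h1 b)).exists
  have hV := isOpen_ball.mem_nhds hp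
  obtain ⟨m, ha', hb'⟩ := (((hx.tendsto ha).eventually hV).and ((hx.tendsto hb).eventually hV)).exists
  refine ⟨γ ^ m * δ ^ n, ?_, by rwa [mul_smul], by rwa [mul_smul]⟩
  rw [Φ.ht_mul, Φ.ht_pow, Φ.ht_pow, hx.ht0, hx'.ht0, mul_zero, mul_zero, add_zero]

end Fuchs

end Pool.Agent.P.MP_788ef7_an
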