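import Pool.Agent.P.MP_788ef7_an.FBasic

set_option autoImplicit false

open Set Filter Topology Metric

namespace Pool.Agent.P.MP_788ef7_an

namespace Fuchs

variable {𝔊 : Type*} [Group 𝔊] [MulAction 𝔊 Circle] {Φ : Fuchs 𝔊} {g g' γ δ u : 𝔊}
  {H : Subgroup 𝔊} {ξ η ζ a b c a' b' p q : Circle}

theorem mu_mul_hyp1 (h : Φ.ht γ = 0) (h' : Φ.ht δ = 0) (ξ : Circle) :
    kmu (Φ.L (γ * δ)) ξ = kmu (Φ.L γ) (δ • ξ : Circle) * kmu (Φ.L δ) ξ := by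
  rw [Φ.L_mul γ δ h, (Φ.lor δ).kmu_comp ξ.norm_coe.le, Φ.bd_eq δ ξ h']

theorem mu_one_hyp1 (x : ℂ) : kmu (Φ.L 1) x = 1 := by
  rw [Φ.L_one, kmu_id]

theorem rho_smul_hyp1 (h : Φ.ht γ = 0) (ξ η : Circle) :
    kmu (Φ.L γ) ξ * kmu (Φ.L γ) η * rho (γ • ξ : Circle) (γ • η : Circle) = rho ξ η := by
  rw [Φ.bd_eq γ ξ h, Φ.bd_eq γ η h]
  exact (Φ.lor γ).rho_kact ξ.norm_coe.le η.norm_coe.le

theorem ht_inv_hyp1 (h : Φ.ht γ = 0) : Φ.ht γ⁻¹ = 0 := by rw [Φ.ht_inv, h, neg_zero]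

theorem ht_pow_hyp1 (h : Φ.ht γ = 0) (n : ℕ) : Φ.ht (γ ^ n) = 0 := by rw [Φ.ht_pow, h, mul_zero]

theorem mu_inv_hyp1 (h : Φ.ht γ = 0) (ha : γ • a = a) :
    kmu (Φ.L γ⁻¹) a * kmu (Φ.L γ) a = 1 := by
  have := mu_mul_hyp1 (ht_inv_hyp1 h) h a
  rwa [inv_mul_cancel, mu_one_hyp1, ha, eq_comm] at this

theorem mu_pow_hyp1 (h : Φ.ht γ = 0) (ha : γ • a = a) (n : ℕ) :
    kmu (Φ.L (γ ^ n)) a = kmu (Φ.L γ) a ^ n := by
  induction n with
  | zero => rw [pow_zero, pow_zero, mu_one_hyp1]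
  | succ n ih => rw [pow_succ, mu_mul_hyp1 (ht_pow_hyp1 h n) h, ha, ih, pow_succ]

theorem rho_pos_hyp1 (h : a ≠ b) : 0 < rho a b :=
  rho_pos_of_ne a.norm_coe.le fun e => h (Circle.ext e)

theorem Ax.mu_mul_hyp1 (h : Φ.Ax γ a b) : kmu (Φ.L γ) a * kmu (Φ.L γ) b = 1 := by
  have := rho_smul_hyp1 h.ht0 a b
  rw [h.fa, h.fb] at this
  exact mul_right_cancel₀ (rho_pos_hyp1 h.ne).ne' (this.trans (one_mul _).symm)

theorem eq_one_of_kmu (h : Φ.ht γ = 0) (ha : γ • a = a) (hμ : kmu (Φ.L γ) a = 1) : γ = 1 := by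
  by_contra h1
  obtain ⟨σ, hσ, Hσ⟩ := Φ.systole
  have hL := Φ.lor γ
  have hA : Φ.L γ (1, (a : ℂ)) = (1, (a : ℂ)) := by
    rw [hL.apply_eq a.norm_coe.le, hμ, one_smul, ← Φ.bd_eq γ a h, ha]
  have h0 := hL.mink_eq (1, 0) (1, (a : ℂ))
  rw [hA, mink_one, rho_zero_left] at h0
  have haa := rho_circle_self a
  have key : Ico (0 : ℝ) 1 ⊆ {s | Real.cosh σ ^ 2 * (1 + s) ^ 2 ≤
      ((1 - s) * (Φ.L γ (1, 0)).1 + 2 * s) ^ 2} := by
    intro s hs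
    have hn : ‖s • (a : ℂ)‖ < 1 := by
      rw [norm_smul, a.norm_coe, mul_one, Real.norm_of_nonneg hs.1]
      exact hs.2
    let x : KD := ⟨s • (a : ℂ), hn⟩
    have e1 := cosh_sq_kb2 (Φ.mv γ x) x
    have e2 := hL.rho_kact hn.le hn.le
    have e3 := hL.apply_eq hn.le
    have e4 : ((1 : ℝ), s • (a : ℂ)) = (1 - s) • ((1 : ℝ), (0 : ℂ)) + s • ((1 : ℝ), (a : ℂ)) := by
      simp
    have e5 : rho (s • (a : ℂ)) (s • (a : ℂ)) = (1 - s) * (1 + s) := by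
      rw [rho_self, norm_smul, a.norm_coe, mul_one, Real.norm_of_nonneg hs.1]
      ring
    have e6 : kmu (Φ.L γ) (s • (a : ℂ)) * rho (kact (Φ.L γ) (s • (a : ℂ))) (s • (a : ℂ)) =
        (1 - s) * ((1 - s) * (Φ.L γ (1, 0)).1 + 2 * s) := by
      have : mink (Φ.L γ (1, s • (a : ℂ))) (1, s • (a : ℂ)) =
          (1 - s) * ((1 - s) * (Φ.L γ (1, 0)).1 + 2 * s) := by
        nth_rewrite 1 [e4]
        rw [map_add, map_smul, map_smul, hA]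
        simp only [mink, rho, Prod.fst_add, Prod.snd_add, Prod.smul_fst, Prod.smul_snd, smul_eq_mul,
          Complex.add_re, Complex.add_im, Complex.smul_re, Complex.smul_im] at h0 haa ⊢
        linear_combination (1 - s) * s * h0 + s ^ 2 * haa
      rw [← this, e3]
      simp only [mink, rho, Prod.smul_fst, Prod.smul_snd, smul_eq_mul, Complex.smul_re,
        Complex.smul_im]
      ring
    have e8 : Real.cosh σ ^ 2 ≤ Real.cosh (dist (Φ.mv γ x) x) ^ 2 :=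
      pow_le_pow_left₀ (Real.cosh_pos _).le (Real.cosh_le_cosh.2 (by
        rw [abs_of_pos hσ, abs_of_nonneg dist_nonneg]
        exact Hσ γ x h h1)) 2
    rw [Φ.mv_val] at e1
    change _ * (rho (kact (Φ.L γ) (s • (a : ℂ))) (kact (Φ.L γ) (s • (a : ℂ))) *
      rho (s • (a : ℂ)) (s • (a : ℂ))) = rho (kact (Φ.L γ) (s • (a : ℂ))) (s • (a : ℂ)) ^ 2 at e1
    have e9 : (1 - s) ^ 2 * (Real.cosh (dist (Φ.mv γ x) x) ^ 2 * (1 + s) ^ 2) =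
        (1 - s) ^ 2 * ((1 - s) * (Φ.L γ (1, 0)).1 + 2 * s) ^ 2 := by
      rw [← mul_pow (1 - s), ← e6, mul_pow, ← e1, e5]
      rw [e5] at e2
      linear_combination (-(Real.cosh (dist (Φ.mv γ x) x) ^ 2 * ((1 - s) * (1 + s)))) * e2
    have e10 := mul_left_cancel₀ (pow_ne_zero 2 (sub_pos.2 hs.2).ne') e9
    exact (mul_le_mul_of_nonneg_right e8 (sq_nonneg _)).trans e10.le
  have k2 := (IsClosed.closure_subset_iff (isClosed_le (by fun_prop) (by fun_prop))).2 key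
  rw [closure_Ico zero_ne_one] at k2
  have k3 : Real.cosh σ ^ 2 * (1 + 1) ^ 2 ≤ ((1 - 1) * (Φ.L γ (1, 0)).1 + 2 * 1) ^ 2 :=
    k2 ⟨zero_le_one, le_rfl⟩
  have k4 := Real.one_lt_cosh.2 hσ.ne'
  nlinarith

theorem Ax.ne_one (h : Φ.Ax γ a b) : γ ≠ 1 := by
  rintro rfl
  have := h.mu
  rw [mu_one_hyp1] at this
  exact lt_irrefl _ this

theorem Ax.symm (h : Φ.Ax γ a b) : Φ.Ax γ⁻¹ b a := by
  refine ⟨ht_inv_hyp1 h.ht0, h.ne.symm, inv_smul_eq_iff.2 h.fb.symm, inv_smul_eq_iff.2 h.fa.symm, ?_⟩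
  have e := (mu_inv_hyp1 h.ht0 h.fb).trans h.mu_mul_hyp1.symm
  rw [mul_right_cancel₀ ((Φ.lor γ).kmu_pos b.norm_coe.le).ne' e]
  exact h.mu

theorem not_fin_hyp1 (h : Φ.ht γ = 0) (h1 : γ ≠ 1) : ¬ IsOfFinOrder γ := by
  rw [isOfFinOrder_iff_pow_eq_one]
  rintro ⟨n, hn, e⟩
  set v : ℝ × ℂ := ∑ k ∈ Finset.range n, Φ.L (γ ^ k) (1, 0) with hv
  have v1 : Φ.L γ v = v := by
    have e1 : ∀ k : ℕ, Φ.L γ (Φ.L (γ ^ k) (1, 0)) = Φ.L (γ ^ (k + 1)) (1, 0) := fun k => by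
      rw [pow_succ', Φ.L_mul γ _ h]
      rfl
    have e2 := Finset.sum_range_succ' (fun k => Φ.L (γ ^ k) ((1 : ℝ), (0 : ℂ))) n
    rw [Finset.sum_range_succ, e, pow_zero] at e2
    rw [hv, map_sum]
    simp only [e1]
    exact (add_right_cancel e2).symm
  have v2 : ‖v.2‖ < v.1 := by
    rw [hv, Prod.fst_sum, Prod.snd_sum]
    refine (norm_sum_le _ _).trans_lt (Finset.sum_lt_sum_of_nonempty
      (Finset.nonempty_range_iff.2 hn.ne') fun k _ => ?_)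
    have z : ‖(0 : ℂ)‖ < 1 := by simp
    have p := (Φ.lor (γ ^ k)).kmu_pos z.le
    rw [(Φ.lor (γ ^ k)).apply_eq z.le, Prod.smul_snd, Prod.smul_fst, norm_smul, smul_eq_mul,
      Real.norm_of_nonneg p.le]
    exact mul_lt_mul_of_pos_left ((Φ.lor (γ ^ k)).norm_kact_lt z) p
  have v3 : 0 < v.1 := (norm_nonneg _).trans_lt v2
  have v4 : ‖v.1⁻¹ • v.2‖ < 1 := by
    rw [norm_smul, Real.norm_of_nonneg (inv_pos.2 v3).le, inv_mul_lt_one₀ v3]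
    exact v2
  have v5 : ((1 : ℝ), v.1⁻¹ • v.2) = v.1⁻¹ • v :=
    Prod.ext (inv_mul_cancel₀ v3.ne').symm rfl
  have v6 : Φ.L γ (1, v.1⁻¹ • v.2) = (1, v.1⁻¹ • v.2) := by rw [v5, map_smul, v1]
  refine h1 (Φ.free γ ⟨_, v4⟩ h (KD.ext ?_))
  show kact (Φ.L γ) (v.1⁻¹ • v.2) = v.1⁻¹ • v.2
  rw [kact, kmu, v6, inv_one, one_smul]

theorem exists_fix_hyp1 (h : Φ.ht γ = 0) (h1 : γ ≠ 1) : ∃ a : Circle, γ • a = a := by
  obtain ⟨α, φ, -, hα⟩ := exists_limit (fun n => Φ.pt (γ ^ n)) (Φ.tendsto_dist_of_injective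
    (ht_pow_hyp1 h) (injective_pow_iff_not_isOfFinOrder.2 (not_fin_hyp1 h h1)))
  have t1 := Φ.step_tendsto (g := γ) (C := 0) (y := fun n => Φ.pt (γ * γ ^ φ n))
    (fun n => ⟨γ ^ φ n, (dist_self _).le, (dist_self _).le⟩) hα
  have t2 := tendsto_of_dist_le (y := fun n => Φ.pt (γ * γ ^ φ n)) (R := dist KD.o (Φ.pt γ))
    (fun n => by
      rw [← pow_succ', pow_succ, Φ.pt_mul (ht_pow_hyp1 h _)]
      exact (Φ.dist_mv _ _ _).le) hα
  exact ⟨α, Circle.ext (tendsto_nhds_unique t1 t2)⟩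

theorem ax_of_mu_hyp1 (h : Φ.ht γ = 0) (ha : γ • a = a) (hμ : 1 < kmu (Φ.L γ) a) :
    ∃ b, Φ.Ax γ a b := by
  have h' := ht_inv_hyp1 h
  have ha' : γ⁻¹ • a = a := inv_smul_eq_iff.2 ha.symm
  have hξ : -a ≠ a := a.neg_ne_self
  obtain ⟨b, hb, t⟩ := Stable.conv Φ.cont (g := γ⁻¹) ⟨Φ.op_of_ht h', a, ha'⟩ (-a)
  refine ⟨b, h, ?_, ha, (inv_smul_eq_iff.1 hb).symm, hμ⟩
  rintro rfl
  have hco : Continuous ((↑) : Circle → ℂ) := continuous_subtype_val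
  have tc := (hco.tendsto a).comp t
  have m1 : kmu (Φ.L γ⁻¹) a < 1 := by
    have := mu_inv_hyp1 h ha
    have := (Φ.lor γ⁻¹).kmu_pos a.norm_coe.le
    nlinarith
  have m2 : Continuous (kmu (Φ.L γ⁻¹)) := by
    unfold kmu
    fun_prop
  obtain ⟨N, hN⟩ := eventually_atTop.1 (((m2.tendsto _).comp tc).eventually_lt_const m1)
  have r0 : ∀ n : ℕ, 0 < rho (γ⁻¹ ^ n • -a : Circle) a := fun n =>
    rho_pos_hyp1 fun e => hξ (MulAction.injective (γ⁻¹ ^ n) (e.trans (pow_fix_cdyn ha' n).symm))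
  have r1 : ∀ n, N ≤ n → rho (γ⁻¹ ^ N • -a : Circle) a ≤ rho (γ⁻¹ ^ n • -a : Circle) a := by
    intro n hn
    induction n, hn using Nat.le_induction with
    | base => exact le_rfl
    | succ n hn ih =>
      refine ih.trans ?_
      have e := rho_smul_hyp1 h' (γ⁻¹ ^ n • -a) a
      rw [ha', ← mul_smul, ← pow_succ'] at e
      rw [← e]
      exact mul_le_of_le_one_left (r0 _).le (mul_le_one₀ (hN n hn).le
        ((Φ.lor γ⁻¹).kmu_pos a.norm_coe.le).le m1.le)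
  have r2 := tendsto_rho tc (tendsto_const_nhds (x := (a : ℂ)))
  rw [rho_circle_self] at r2
  exact absurd (ge_of_tendsto r2 (eventually_atTop.2 ⟨N, r1⟩)) (not_le.2 (r0 N))

theorem exists_ax (h : Φ.ht γ = 0) (h1 : γ ≠ 1) : ∃ a b, Φ.Ax γ a b := by
  obtain ⟨a, ha⟩ := exists_fix_hyp1 h h1
  rcases lt_trichotomy 1 (kmu (Φ.L γ) a) with m | m | m
  · exact ⟨a, ax_of_mu_hyp1 h ha m⟩
  · exact absurd (eq_one_of_kmu h ha m.symm) h1
  · obtain ⟨b, hb⟩ := ax_of_mu_hyp1 (ht_inv_hyp1 h) (inv_smul_eq_iff.2 ha.symm) (by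
      have := mu_inv_hyp1 h ha
      have := (Φ.lor γ⁻¹).kmu_pos a.norm_coe.le
      nlinarith)
    exact ⟨b, a, _root_.inv_inv γ ▸ hb.symm⟩

theorem Ax.bus (h : Φ.Ax γ a b) :
    Tendsto (fun n : ℕ => bus (Φ.pt (γ ^ n)).val a) atTop (𝓝 0) := by
  have p : 0 < kmu (Φ.L γ) a := zero_lt_one.trans h.mu
  refine (tendsto_pow_atTop_nhds_zero_of_lt_one (r := (kmu (Φ.L γ) a ^ 2)⁻¹) (by positivity)
    (inv_lt_one_of_one_lt₀ (one_lt_pow₀ h.mu two_ne_zero))).congr fun n => ?_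
  have e := Φ.bus_mv_fbasic (ht_pow_hyp1 h.ht0 n) KD.o a
  have e0 : MP_788ef7_an.bus KD.o.val a = 1 := by
    rw [show KD.o.val = 0 from rfl, MP_788ef7_an.bus, rho_zero_left, rho_zero_left, one_pow, div_one]
  rw [pow_fix_cdyn h.fa, mu_pow_hyp1 h.ht0 h.fa, e0, ← pow_mul, mul_comm n, pow_mul] at e
  rw [inv_pow]
  exact (eq_inv_of_mul_eq_one_left e).symm

theorem Ax.tendsto_pt (h : Φ.Ax γ a b) :
    Tendsto (fun n : ℕ => (Φ.pt (γ ^ n)).val) atTop (𝓝 a) := by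
  rw [tendsto_iff_norm_sub_tendsto_zero]
  have t := ((h.bus.sqrt.const_mul 2).sqrt)
  rw [Real.sqrt_zero, mul_zero, Real.sqrt_zero] at t
  refine squeeze_zero (fun n => norm_nonneg _) (fun n => Real.le_sqrt_of_sq_le ?_) t
  refine (norm_sub_sq_le (Φ.pt _).lt.le a.norm_coe.le).trans
    (mul_le_mul_of_nonneg_left (Real.le_sqrt_of_sq_le ?_) zero_le_two)
  rw [MP_788ef7_an.bus, le_div_iff₀ (Φ.pt _).rho_pos]
  refine mul_le_of_le_one_right (sq_nonneg _) ?_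
  rw [rho_self]
  exact sub_le_self _ (sq_nonneg _)

theorem Ax.tendsto (h : Φ.Ax γ a b) (hξ : ξ ≠ b) :
    Tendsto (fun n : ℕ => γ ^ n • ξ) atTop (𝓝 a) :=
  Φ.conv_smul (η := fun _ => ξ) (ht_pow_hyp1 h.ht0) h.tendsto_pt
    (by simpa only [inv_pow] using h.symm.tendsto_pt) (rho_pos_hyp1 hξ)
    (Eventually.of_forall fun _ => le_rfl)

theorem Ax.fix (h : Φ.Ax γ a b) (hξ : γ • ξ = ξ) : ξ = a ∨ ξ = b := by
  refine or_iff_not_imp_right.2 fun hb => ?_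
  have t := h.tendsto hb
  simp only [pow_fix_cdyn hξ] at t
  exact tendsto_const_nhds_iff.1 t

theorem Ax.unique (h : Φ.Ax γ a b) (h' : Φ.Ax γ a' b') : a = a' ∧ b = b' := by
  have e : a' = a := (h.fix h'.fa).resolve_right fun e => by
    have m := h'.mu
    rw [e] at m
    have := h.mu
    have := h.mu_mul_hyp1
    nlinarith
  exact ⟨e.symm, ((h.fix h'.fb).resolve_left fun e' => h'.ne (e.trans e'.symm)).symm⟩

theorem Ax.conj (h : Φ.Ax γ a b) (g : 𝔊) : Φ.Ax (g * γ * g⁻¹) (g • a) (g • b) := by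
  have h0 : Φ.ht (g * γ * g⁻¹) = 0 := by rw [Φ.ht_conj, h.ht0]
  obtain ⟨a', b', k⟩ := exists_ax h0 (by simpa using h.ne_one)
  have fa : (g * γ * g⁻¹) • g • a = g • a := by rw [mul_smul, mul_smul, inv_smul_smul, h.fa]
  have fb : (g * γ * g⁻¹) • g • b = g • b := by rw [mul_smul, mul_smul, inv_smul_smul, h.fb]
  have hne : g • a ≠ g • b := fun e => h.ne (MulAction.injective g e)
  refine ⟨h0, hne, fa, fb, ?_⟩
  rcases k.fix fa with e | e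
  · rw [e]
    exact k.mu
  · obtain ⟨ξ, hξ⟩ := arc_nonempty h.ne
    have t1 := k.tendsto (ξ := g • ξ) fun e' =>
      Cyc.ne₁₂ hξ (MulAction.injective g (e'.trans e.symm)).symm
    have t2 := ((Φ.cont g).tendsto a).comp (h.tendsto (Cyc.ne₂₃ hξ))
    have e2 : a' = g • a := tendsto_nhds_unique t1 (t2.congr fun n => by
      simp only [Function.comp, conj_pow, mul_smul, inv_smul_smul])
    exact absurd (e2.trans e) k.ne

theorem ax_of_fix (h : Φ.ht γ = 0) (h1 : γ ≠ 1) (hp : γ • p = p) (hq : γ • q = q) (hpq : p ≠ q) :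
    Φ.Ax γ p q ∨ Φ.Ax γ q p := by
  obtain ⟨a, b, k⟩ := exists_ax h h1
  rcases k.fix hp with rfl | rfl <;> rcases k.fix hq with rfl | rfl
  exacts [absurd rfl hpq, Or.inl k, Or.inr k, absurd rfl hpq]

theorem eq_one_of_three (h : Φ.ht γ = 0) (hg : Ess γ) : γ = 1 := by
  by_contra h1
  obtain ⟨x, hx, y, hy, z, hz, n1, n2, n3⟩ := hg
  rcases ax_of_fix h h1 hx hy n1 with k | k <;> rcases k.fix hz with e | e
  exacts [n3 e.symm, n2 e.symm, n2 e.symm, n3 e.symm]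

theorem Ax.fix_of_comm (h : Φ.Ax γ a b) (hc : γ * g = g * γ) : g • a = a ∧ g • b = b := by
  have k := h.conj g
  rw [← hc, mul_inv_cancel_right] at k
  exact k.unique h

theorem Ax.mem_lim (h : Φ.Ax γ a b) (hγ : γ ∈ H) : a ∈ Φ.Lim H ∧ b ∈ Φ.Lim H :=
  ⟨Φ.mem_lim_of_near (R := 0) (fun n => ⟨_, H.pow_mem hγ n, (dist_self _).le⟩) h.tendsto_pt,
    Φ.mem_lim_of_near (R := 0) (fun n => ⟨_, H.pow_mem (H.inv_mem hγ) n, (dist_self _).le⟩)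
      h.symm.tendsto_pt⟩

end Fuchs

end Pool.Agent.P.MP_788ef7_an
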