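import Mathlib

/-!
Definitions for the index of equivariant vector fields and for orientations.
-/

set_option autoImplicit false

open Set Filter Topology

namespace Pool.Agent.P.MP_788ef7_an

noncomputable section

variable {E : Type*} [NormedAddCommGroup E] [NormedSpace ℝ E]

open Classical in
/-- The sign of the determinant. -/
def sgn (D : E →L[ℝ] E) : ℤ := if 0 < D.det then 1 else -1

/-- A free, properly discontinuous action of `C` on the open set `O` by `C²` maps. -/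
structure DAct {C : Type*} [Group C] (O : Set E) (a : C → E → E) : Prop where
  isOpen : IsOpen O
  maps : ∀ c, MapsTo (a c) O O
  one : ∀ x ∈ O, a 1 x = x
  mul : ∀ c c', ∀ x ∈ O, a (c * c') x = a c (a c' x)
  c2 : ∀ c, ContDiffOn ℝ 2 (a c) O
  proper : ∀ K, IsCompact K → K ⊆ O → {c | ∃ x ∈ K, a c x ∈ K}.Finite
  free : ∀ c, ∀ x ∈ O, a c x = x → c = 1

variable {C : Type*}

/-- Equivariant vector fields. -/
def Eqv (O : Set E) (a : C → E → E) (v : E → E) : Prop :=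
  ∀ c, ∀ x ∈ O, v (a c x) = fderiv ℝ (a c) x (v x)

/-- `C¹` vector fields with nondegenerate zeros. -/
def Gen (O : Set E) (v : E → E) : Prop :=
  ContDiffOn ℝ 1 v O ∧ ∀ x ∈ O, v x = 0 → (fderiv ℝ v x).det ≠ 0

/-- The union of the translates of `K`. -/
def Orb (a : C → E → E) (K : Set E) : Set E := {x | ∃ c, ∃ k ∈ K, x = a c k}

/-- `F` is a set of representatives of the orbits of zeros of `v`. -/
structure IsRep (O : Set E) (a : C → E → E) (v : E → E) (F : Finset E) : Prop where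
  zero : ∀ x ∈ F, x ∈ O ∧ v x = 0
  cover : ∀ x ∈ O, v x = 0 → ∃ c, ∃ k ∈ F, x = a c k
  uniq : ∀ x ∈ F, ∀ c, a c x ∈ F → a c x = x

/-- An equivariant field of convex cones with local `C¹` sections. -/
structure Cone (O : Set E) (a : C → E → E) (Adm : E → E → Prop) : Prop where
  add : ∀ x ∈ O, ∀ w w', Adm x w → Adm x w' → Adm x (w + w')
  smul : ∀ x ∈ O, ∀ w, ∀ s : ℝ, 0 < s → Adm x w → Adm x (s • w)
  eqv : ∀ c, ∀ x ∈ O, ∀ w, Adm x w → Adm (a c x) (fderiv ℝ (a c) x w)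
  loc : ∀ x₀ ∈ O, ∃ W : E → E, ContDiffOn ℝ 1 W O ∧ ∀ᶠ x in 𝓝 x₀, Adm x (W x)

/-- Outside the translates of `K` the segments from `v` to the cone miss zero. -/
def Avoid (O : Set E) (a : C → E → E) (Adm : E → E → Prop) (K : Set E) (v : E → E) : Prop :=
  ∀ x ∈ O, x ∉ Orb a K → ∀ w, Adm x w → ∀ s ∈ Icc (0 : ℝ) 1, (1 - s) • v x + s • w ≠ 0

variable {U : Type*} [NormedAddCommGroup U] [NormedSpace ℝ U]

/-- `A` is an isomorphism from `U` onto the range of `Q`. -/
def IsFrame (Q : E →L[ℝ] E) (A : U →L[ℝ] E) : Prop :=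
  Function.Injective A ∧ Set.range A = Set.range Q

/-- An orientation of the family of ranges of `Q`: `o z A` says that the frame `A` is positive. -/
structure Orient {X : Type*} [TopologicalSpace X] (Q : X → E →L[ℝ] E)
    (o : X → (U →L[ℝ] E) → Prop) : Prop where
  comp : ∀ z A (B : U →L[ℝ] U), IsFrame (Q z) A → B.det ≠ 0 →
    (o z (A.comp B) ↔ (o z A ↔ 0 < B.det))
  loc : ∀ z A, IsFrame (Q z) A →
    ∀ᶠ p : X × (U →L[ℝ] E) in 𝓝 (z, A), IsFrame (Q p.1) p.2 → (o p.1 p.2 ↔ o z A)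

/-- `O` is a union of two open star-shaped sets with connected intersection. -/
def TwoStar (O : Set E) : Prop :=
  ∃ (W₁ W₂ : Set E) (c₁ c₂ : E), IsOpen W₁ ∧ IsOpen W₂ ∧ c₁ ∈ W₁ ∧ c₂ ∈ W₂ ∧ StarConvex ℝ c₁ W₁ ∧
    StarConvex ℝ c₂ W₂ ∧ W₁ ∪ W₂ = O ∧ IsConnected (W₁ ∩ W₂)

end

end Pool.Agent.P.MP_788ef7_an
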