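import Pool.Agent.P.MP_788ef7_an.Push
import Pool.Agent.P.MP_788ef7_an.Deg

set_option autoImplicit false

open Set Filter Topology Metric

namespace Pool.Agent.P.MP_788ef7_an

variable {E : Type*} [NormedAddCommGroup E] [NormedSpace ℝ E] [FiniteDimensional ℝ E]
  {C : Type*} [Group C] {O : Set E} {a : C → E → E} {v v' : E → E} {F F' : Finset E} {K : Set E}

omit [FiniteDimensional ℝ E] in
theorem DAct.inv_apply_idx1 (h : DAct O a) (c : C) {x : E} (hx : x ∈ O) : a c⁻¹ (a c x) = x := by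
  rw [← h.mul _ _ _ hx, inv_mul_cancel, h.one _ hx]

theorem DAct.zero_iff_idx1 (h : DAct O a) (hv : Eqv O a v) (c : C) {x : E} (hx : x ∈ O) :
    v (a c x) = 0 ↔ v x = 0 := by
  rw [hv c x hx, h.fderiv_eq_zero c hx]

omit [FiniteDimensional ℝ E] in
theorem hasFDerivAt_idx1 (ho : IsOpen O) (hv : ContDiffOn ℝ 1 v O) {x : E} (hx : x ∈ O) :
    HasFDerivAt v (fderiv ℝ v x) x :=
  ((hv.contDiffAt (ho.mem_nhds hx)).differentiableAt one_ne_zero).hasFDerivAt

theorem Gen.finite_idx1 (ho : IsOpen O) (hg : Gen O v) (hK : IsCompact K) (hKO : K ⊆ O) :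
    {x | x ∈ K ∧ v x = 0}.Finite :=
  finite_zeros hK (hg.1.continuousOn.mono hKO) fun x hx h0 =>
    ⟨_, hasFDerivAt_idx1 ho hg.1 (hKO hx), hg.2 x (hKO hx) h0⟩

theorem DAct.exists_rep (h : DAct O a) (hv : Eqv O a v) (hg : Gen O v) (hK : IsCompact K)
    (hKO : K ⊆ O) (hz : ∀ x ∈ O, v x = 0 → x ∈ Orb a K) : ∃ F, IsRep O a v F := by
  classical
  have hfin := hg.finite_idx1 h.isOpen hK hKO
  set S : E → Set E := fun x => {y | (y ∈ K ∧ v y = 0) ∧ ∃ c, y = a c x} with hS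
  have hrep : ∀ x, x ∈ K ∧ v x = 0 → Classical.epsilon (fun y => y ∈ S x) ∈ S x := fun x hx =>
    Classical.epsilon_spec (p := fun y => y ∈ S x) ⟨x, hx, 1, (h.one x (hKO hx.1)).symm⟩
  have hSS : ∀ c, ∀ x ∈ O, S (a c x) = S x := by
    intro c x hx
    ext y
    refine and_congr_right fun _ => ⟨?_, ?_⟩
    · rintro ⟨c', rfl⟩
      exact ⟨c' * c, (h.mul _ _ _ hx).symm⟩
    · rintro ⟨c', rfl⟩
      exact ⟨c' * c⁻¹, by rw [← h.mul _ _ _ hx, inv_mul_cancel_right]⟩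
  refine ⟨hfin.toFinset.image fun x => Classical.epsilon (fun y => y ∈ S x), ?_, ?_, ?_⟩
  · intro y hy
    obtain ⟨x, hx, rfl⟩ := Finset.mem_image.1 hy
    have := hrep x (hfin.mem_toFinset.1 hx)
    exact ⟨hKO this.1.1, this.1.2⟩
  · intro x hx h0
    obtain ⟨c, k, hk, rfl⟩ := hz x hx h0
    have hk0 := (h.zero_iff_idx1 hv c (hKO hk)).1 h0
    obtain ⟨-, c', hc'⟩ := hrep k ⟨hk, hk0⟩
    refine ⟨c * c'⁻¹, _, Finset.mem_image_of_mem _ (hfin.mem_toFinset.2 ⟨hk, hk0⟩), ?_⟩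
    rw [hc', ← h.mul _ _ _ (hKO hk), inv_mul_cancel_right]
  · intro y hy c hc
    obtain ⟨x, hx, rfl⟩ := Finset.mem_image.1 hy
    obtain ⟨x', hx', e⟩ := Finset.mem_image.1 hc
    have hxK := hfin.mem_toFinset.1 hx
    have hxK' := hfin.mem_toFinset.1 hx'
    obtain ⟨-, c₁, h1⟩ := hrep x hxK
    obtain ⟨-, c₂, h2⟩ := hrep x' hxK'
    have e2 : S x' = S x := by
      rw [← hSS c₂ x' (hKO hxK'.1), ← h2, e, h1, ← h.mul _ _ _ (hKO hxK.1), hSS _ _ (hKO hxK.1)]
    rw [← e, e2]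

theorem DAct.sum_eq (h : DAct O a) (hv : Eqv O a v) (hg : Gen O v) (hF : IsRep O a v F)
    (hF' : IsRep O a v F') :
    ∑ x ∈ F, sgn (fderiv ℝ v x) = ∑ x ∈ F', sgn (fderiv ℝ v x) ∧ F.card = F'.card := by
  have hex : ∀ x ∈ F, ∃ k ∈ F', ∃ c, x = a c k := fun x hx => by
    obtain ⟨c, k, hk, e⟩ := hF'.cover x (hF.zero x hx).1 (hF.zero x hx).2
    exact ⟨k, hk, c, e⟩
  choose φ hφ c hc using hex
  have hinj : ∀ x hx y hy, φ x hx = φ y hy → x = y := by
    intro x hx y hy e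
    have e1 : a (c y hy * (c x hx)⁻¹) x = y := by
      have hO := (hF'.zero _ (hφ x hx)).1
      rw [h.mul _ _ _ (hF.zero x hx).1]
      conv_lhs => arg 2; arg 2; rw [hc x hx]
      rw [h.inv_apply_idx1 _ hO, e, ← hc y hy]
    have := hF.uniq x hx (c y hy * (c x hx)⁻¹) (by rwa [e1])
    rw [← e1, this]
  have hsurj : ∀ k ∈ F', ∃ x hx, φ x hx = k := by
    intro k hk
    obtain ⟨c', x, hx, e⟩ := hF.cover k (hF'.zero k hk).1 (hF'.zero k hk).2
    refine ⟨x, hx, ?_⟩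
    have e1 : a (c' * c x hx) (φ x hx) = k := by
      rw [h.mul _ _ _ (hF'.zero _ (hφ x hx)).1, ← hc x hx, ← e]
    have := hF'.uniq _ (hφ x hx) (c' * c x hx) (by rwa [e1])
    rw [← this, e1]
  refine ⟨Finset.sum_bij φ hφ hinj hsurj fun x hx => ?_, Finset.card_bij φ hφ hinj hsurj⟩
  have := h.det_eq hv hg.1 (c x hx) (hF'.zero _ (hφ x hx)).1 (hF'.zero _ (hφ x hx)).2
  rw [← hc x hx] at this
  simp only [sgn, this]

theorem DAct.rep_union_idx1 [DecidableEq E] (h : DAct O a) (hv : Eqv O a v) {B : Set E}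
    (hB : B ⊆ O) (hfree : ∀ c, ∀ y ∈ B, a c y ∈ B → c = 1) {F₀ G : Finset E}
    (h₀ : ∀ x, x ∈ F₀ ↔ x ∈ B ∧ v x = 0) (hG : ∀ x ∈ G, (x ∈ O ∧ v x = 0) ∧ x ∉ Orb a B)
    (hc : ∀ x ∈ O, v x = 0 → x ∉ Orb a B → ∃ c, ∃ k ∈ G, x = a c k)
    (hu : ∀ x ∈ G, ∀ c, a c x ∈ G → a c x = x) : IsRep O a v (F₀ ∪ G) ∧ Disjoint F₀ G := by
  refine ⟨⟨fun x hx => ?_, fun x hx h0 => ?_, fun x hx c hcx => ?_⟩, ?_⟩
  · rcases Finset.mem_union.1 hx with hx | hx
    · exact ⟨hB ((h₀ x).1 hx).1, ((h₀ x).1 hx).2⟩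
    · exact (hG x hx).1
  · by_cases ho : x ∈ Orb a B
    · obtain ⟨c, k, hk, rfl⟩ := ho
      exact ⟨c, k, Finset.mem_union_left _
        ((h₀ k).2 ⟨hk, (h.zero_iff_idx1 hv c (hB hk)).1 h0⟩), rfl⟩
    · obtain ⟨c, k, hk, e⟩ := hc x hx h0 ho
      exact ⟨c, k, Finset.mem_union_right _ hk, e⟩
  · rcases Finset.mem_union.1 hx with hx | hx <;> rcases Finset.mem_union.1 hcx with hcx | hcx
    · rw [hfree c x ((h₀ x).1 hx).1 ((h₀ _).1 hcx).1, h.one x (hB ((h₀ x).1 hx).1)]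
    · exact absurd ⟨c, x, ((h₀ x).1 hx).1, rfl⟩ (hG _ hcx).2
    · exact absurd ((h.mem_orb hB c (hG x hx).1.1).1 (h.subset_orb hB ((h₀ _).1 hcx).1))
        (hG x hx).2
    · exact hu x hx c hcx
  · exact Finset.disjoint_left.2 fun x hx hx' => (hG x hx').2 (h.subset_orb hB ((h₀ x).1 hx).1)

/-- A change supported in the translates of one small ball. -/
theorem DAct.idx_local (h : DAct O a) (hv : Eqv O a v) (hv' : Eqv O a v') (hg : Gen O v)
    (hg' : Gen O v') {x₀ : E} {r r' : ℝ} (hr : 0 < r') (hrr : r' < r) (hB : closedBall x₀ r ⊆ O)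
    (hfree : ∀ c, ∀ y ∈ closedBall x₀ r, a c y ∈ closedBall x₀ r → c = 1)
    (he : ∀ x ∈ O, x ∉ Orb a (closedBall x₀ r') → v x = v' x) (hF : IsRep O a v F)
    (hF' : IsRep O a v' F') : ∑ x ∈ F, sgn (fderiv ℝ v x) = ∑ x ∈ F', sgn (fderiv ℝ v' x) := by
  classical
  have hfin := hg.finite_idx1 h.isOpen (isCompact_closedBall x₀ r) hB
  have hfin' := hg'.finite_idx1 h.isOpen (isCompact_closedBall x₀ r) hB
  obtain ⟨ρ, ⟨hρ1, hρ2⟩, hρ⟩ := (Set.Ioo_infinite hrr).exists_notMem_finite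
    (hfin.image fun x => dist x x₀)
  have hbB : ball x₀ ρ ⊆ closedBall x₀ r := ball_subset_closedBall.trans
    (closedBall_subset_closedBall hρ2.le)
  have hbO : ball x₀ ρ ⊆ O := hbB.trans hB
  have hsm : closedBall x₀ r' ⊆ ball x₀ ρ := closedBall_subset_ball hρ1
  have horb : ∀ x, x ∉ Orb a (ball x₀ ρ) → x ∉ Orb a (closedBall x₀ r') :=
    fun x hx ⟨c, k, hk, e⟩ => hx ⟨c, k, hsm hk, e⟩
  have hf0 : {x | x ∈ ball x₀ ρ ∧ v x = 0}.Finite := hfin.subset fun x hx => ⟨hbB hx.1, hx.2⟩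
  have hf1 : {x | x ∈ ball x₀ ρ ∧ v' x = 0}.Finite := hfin'.subset fun x hx => ⟨hbB hx.1, hx.2⟩
  have e0 : (fun x => (1 - (0 : ℝ)) • v x + (0 : ℝ) • v' x) = v := by funext x; simp
  have e1 : (fun x => (1 - (1 : ℝ)) • v x + (1 : ℝ) • v' x) = v' := by funext x; simp
  have hcl : closure (ball x₀ ρ) ⊆ O :=
    closure_ball_subset_closedBall.trans ((closedBall_subset_closedBall hρ2.le).trans hB)
  have hdeg := deg_eq (Ω := ball x₀ ρ) isOpen_ball isBounded_ball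
    (H := fun τ x => (1 - τ) • v x + τ • v' x) (F₀ := hf0.toFinset) (F₁ := hf1.toFinset)
    (D₀ := fderiv ℝ v) (D₁ := fderiv ℝ v')
    (((continuousOn_const.sub continuousOn_fst).smul
        (hg.1.continuousOn.comp continuousOn_snd fun p hp => hcl hp.2)).add
      (continuousOn_fst.smul (hg'.1.continuousOn.comp continuousOn_snd fun p hp => hcl hp.2)))
    (by
      intro τ _ x hx
      have hs : dist x x₀ = ρ := frontier_ball_subset_sphere hx
      have hxB : x ∈ closedBall x₀ r := by rw [mem_closedBall, hs]; exact hρ2.le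
      have hvv : v x = v' x := by
        refine he x (hB hxB) ?_
        rintro ⟨c, k, hk, e⟩
        have hc := hfree c k (closedBall_subset_closedBall hrr.le hk) (e ▸ hxB)
        rw [hc, h.one k (hbO (hsm hk))] at e
        have := mem_closedBall.1 hk
        rw [← e, hs] at this
        exact absurd hρ1 (not_lt.2 this)
      rw [← hvv, ← add_smul, sub_add_cancel, one_smul]
      exact fun h0 => hρ ⟨x, ⟨hxB, h0⟩, hs⟩)
    (fun x => by rw [hf0.mem_toFinset]; simp)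
    (fun x => by rw [hf1.mem_toFinset]; simp)
    (fun x hx => by
      have hx' := hf0.mem_toFinset.1 hx
      rw [e0]
      exact ⟨hasFDerivAt_idx1 h.isOpen hg.1 (hbO hx'.1), hg.2 x (hbO hx'.1) hx'.2⟩)
    (fun x hx => by
      have hx' := hf1.mem_toFinset.1 hx
      rw [e1]
      exact ⟨hasFDerivAt_idx1 h.isOpen hg'.1 (hbO hx'.1), hg'.2 x (hbO hx'.1) hx'.2⟩)
  have hfree' : ∀ c, ∀ y ∈ ball x₀ ρ, a c y ∈ ball x₀ ρ → c = 1 :=
    fun c y hy hc => hfree c y (hbB hy) (hbB hc)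
  set G := F.filter fun x => x ∉ Orb a (ball x₀ ρ) with hG
  have hGc : ∀ x ∈ O, v x = 0 → x ∉ Orb a (ball x₀ ρ) → ∃ c, ∃ k ∈ G, x = a c k := by
    intro x hx h0 ho
    obtain ⟨c, k, hk, rfl⟩ := hF.cover x hx h0
    exact ⟨c, k, Finset.mem_filter.2
      ⟨hk, fun hk' => ho ((h.mem_orb hbO c (hF.zero k hk).1).2 hk')⟩, rfl⟩
  have hGu : ∀ x ∈ G, ∀ c, a c x ∈ G → a c x = x := fun x hx c hc =>
    hF.uniq x (Finset.mem_filter.1 hx).1 c (Finset.mem_filter.1 hc).1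
  obtain ⟨r0, d0⟩ := h.rep_union_idx1 hv hbO hfree' (F₀ := hf0.toFinset) (G := G)
    (fun x => hf0.mem_toFinset)
    (fun x hx => ⟨hF.zero x (Finset.mem_filter.1 hx).1, (Finset.mem_filter.1 hx).2⟩) hGc hGu
  obtain ⟨r1, d1⟩ := h.rep_union_idx1 hv' hbO hfree' (F₀ := hf1.toFinset) (G := G)
    (fun x => hf1.mem_toFinset)
    (fun x hx => by
      obtain ⟨a1, a2⟩ := Finset.mem_filter.1 hx
      have := hF.zero x a1
      exact ⟨⟨this.1, by rw [← he x this.1 (horb x a2), this.2]⟩, a2⟩)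
    (fun x hx h0 ho => hGc x hx (by rw [he x hx (horb x ho), h0]) ho) hGu
  rw [(h.sum_eq hv hg hF r0).1, (h.sum_eq hv' hg' hF' r1).1, Finset.sum_union d0,
    Finset.sum_union d1, hdeg]
  congr 1
  refine Finset.sum_congr rfl fun x hx => ?_
  obtain ⟨a1, a2⟩ := Finset.mem_filter.1 hx
  have hev : v =ᶠ[𝓝 x] v' := by
    filter_upwards [(h.isOpen_diff_orb (hsm.trans hbO) (isCompact_closedBall x₀ r')).mem_nhds
      ⟨(hF.zero x a1).1, horb x a2⟩] with y hy using he y hy.1 hy.2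
  rw [hev.fderiv_eq]

/-- Nondegeneracy of the zeros on a compact set persists under small perturbations. -/
theorem persist_idx1 (ho : IsOpen O) {u : E → E} (hu : ContDiffOn ℝ 1 u O) {n : ℕ}
    {P : Fin n → E → E} (hP : ∀ k, ContDiffOn ℝ 1 (P k) O) (l : Fin n → E →ₗ[ℝ] ℝ) {A : Set E}
    (hA : IsCompact A) (hAO : A ⊆ O) (hg : ∀ x ∈ A, u x = 0 → (fderiv ℝ u x).det ≠ 0) :
    ∀ᶠ ε in 𝓝 (0 : E), ∀ x ∈ A, u x + ∑ k, l k ε • P k x = 0 →
      (fderiv ℝ (fun y => u y + ∑ k, l k ε • P k y) x).det ≠ 0 := by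
  have hl : ∀ k, Continuous fun z : E × E => l k z.1 := fun k =>
    (l k).continuous_of_finiteDimensional.comp continuous_fst
  have key : ∀ᶠ ε in 𝓝 (0 : E), ∀ x ∈ A, u x + ∑ k, l k ε • P k x = 0 →
      (fderiv ℝ u x + ∑ k, l k ε • fderiv ℝ (P k) x).det ≠ 0 := by
    refine hA.eventually_forall_of_forall_eventually fun y hy => ?_
    have hy' := ho.mem_nhds (hAO hy)
    have c0 : ∀ w : E → E, ContDiffOn ℝ 1 w O →
        ContinuousAt (fun z : E × E => w z.2) (0, y) := fun w hw =>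
      ContinuousAt.comp (f := Prod.snd) (hw.continuousOn.continuousAt hy') continuousAt_snd
    have c1 : ∀ w : E → E, ContDiffOn ℝ 1 w O →
        ContinuousAt (fun z : E × E => fderiv ℝ w z.2) (0, y) := fun w hw =>
      ContinuousAt.comp (f := Prod.snd)
        ((hw.continuousOn_fderiv_of_isOpen ho le_rfl).continuousAt hy') continuousAt_snd
    by_cases h0 : u y = 0
    · have c2 : ContinuousAt (fun z : E × E =>
          (fderiv ℝ u z.2 + ∑ k, l k z.1 • fderiv ℝ (P k) z.2).det) (0, y) :=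
        ContinuousLinearMap.continuous_det.continuousAt.comp ((c1 u hu).add
          (tendsto_finsetSum _ fun k _ => (hl k).continuousAt.smul (c1 _ (hP k))))
      exact (c2.eventually_ne (by simpa using hg y hy h0)).mono fun z hz _ => hz
    · have c2 : ContinuousAt (fun z : E × E => u z.2 + ∑ k, l k z.1 • P k z.2) (0, y) :=
        (c0 u hu).add (tendsto_finsetSum _ fun k _ => (hl k).continuousAt.smul (c0 _ (hP k)))
      exact (c2.eventually_ne (y := 0) (by simpa using h0)).mono fun z hz h1 => absurd h1 hz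
  refine key.mono fun ε hε x hx h0 => ?_
  have : HasFDerivAt (fun y => u y + ∑ k, l k ε • P k y)
      (fderiv ℝ u x + ∑ k, l k ε • fderiv ℝ (P k) x) x :=
    (hasFDerivAt_idx1 ho hu (hAO hx)).add (HasFDerivAt.fun_sum fun k _ =>
      (hasFDerivAt_idx1 ho (hP k) (hAO hx)).const_smul (l k ε))
  rw [this.fderiv]
  exact hε x hx h0

/-- A small perturbation in the translates of one ball making finitely many fields generic. -/
theorem DAct.step (h : DAct O a) {ι : Type*} [Finite ι] {u : ι → E → E} (hu : ∀ i, Eqv O a (u i))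
    (hu' : ∀ i, ContDiffOn ℝ 1 (u i) O) {A : ι → Set E} (hA : ∀ i, IsCompact (A i))
    (hAO : ∀ i, A i ⊆ O) (hg : ∀ i, ∀ x ∈ A i, u i x = 0 → (fderiv ℝ (u i) x).det ≠ 0) {x₀ : E}
    {r r' : ℝ} (hr : 0 < r') (hrr : r' < r) (hB : closedBall x₀ r ⊆ O)
    (hfree : ∀ c, ∀ y ∈ closedBall x₀ r, a c y ∈ closedBall x₀ r → c = 1) :
    ∃ P : E → E, ContDiffOn ℝ 1 P O ∧ Eqv O a P ∧
      (∀ x ∈ O, x ∉ Orb a (closedBall x₀ r) → P x = 0) ∧
      ∀ i, ∀ x ∈ A i ∪ closedBall x₀ r', u i x + P x = 0 →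
        (fderiv ℝ (fun y => u i y + P y) x).det ≠ 0 := by
  let χ : ContDiffBump x₀ := ⟨(r' + r) / 2, r, by linarith, by linarith⟩
  let b := Module.finBasis ℝ E
  have hW0 : ∀ (w : E) (x : E), x ∉ closedBall x₀ r → χ x • w = 0 := fun w x hx => by
    rw [χ.zero_of_le_dist (le_of_lt (not_le.1 hx)), zero_smul]
  choose P hP1 hP2 hP3 hP4 using fun k => h.push_field (isCompact_closedBall x₀ r) hB
    (W := fun x => χ x • b k) (χ.contDiff.smul contDiff_const).contDiffOn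
    (fun x _ hx => hW0 _ x hx)
  have hev := (eventually_all.2 fun i =>
    persist_idx1 h.isOpen (hu' i) hP1 b.coord (hA i) (hAO i) (hg i))
  obtain ⟨t, ht, hto, ht0⟩ := _root_.eventually_nhds_iff.1 hev
  obtain ⟨y, hy, hreg⟩ := exists_regular (O := fun _ : ι => O) (fun _ => h.isOpen) hu'
    (V := (fun y => -y) ⁻¹' t) (hto.preimage continuous_neg) ⟨0, by simpa using ht0⟩
  refine ⟨fun x => ∑ k, b.coord k (-y) • P k x, ContDiffOn.sum fun k _ => (hP1 k).const_smul _,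
    fun c x hx => ?_, fun x hx hxo => ?_, fun i x hx h0 => ?_⟩
  · simp only [map_sum, map_smul, hP2 _ c x hx]
  · refine Finset.sum_eq_zero fun k _ => ?_
    obtain ⟨T, -, e⟩ := hP3 k x hx
    rw [e, Finset.sum_eq_zero, smul_zero]
    intro c _
    rw [hW0 _ _ fun hc => hxo ((h.mem_orb hB c hx).1 (h.subset_orb hB hc)), map_zero]
  · rcases hx with hx | hx
    · exact ht (-y) hy i x hx h0
    · have hconst : ∀ z ∈ ball x₀ ((r' + r) / 2), ∑ k, b.coord k (-y) • P k z = -y := by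
        intro z hz
        have hzB : z ∈ closedBall x₀ r :=
          closedBall_subset_closedBall (by linarith) (ball_subset_closedBall hz)
        conv_rhs => rw [← b.sum_repr (-y)]
        refine Finset.sum_congr rfl fun k _ => ?_
        rw [hP4 k z (hB hzB) fun c hc => hfree c z hzB hc,
          χ.one_of_mem_closedBall (ball_subset_closedBall hz), one_smul]
        rfl
      have hxb : x ∈ ball x₀ ((r' + r) / 2) := closedBall_subset_ball (by linarith) hx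
      have hloc : (fun z => u i z + ∑ k, b.coord k (-y) • P k z) =ᶠ[𝓝 x] fun z => u i z + -y := by
        filter_upwards [isOpen_ball.mem_nhds hxb] with z hz
        rw [hconst z hz]
      rw [hloc.fderiv_eq, fderiv_add_const]
      refine hreg i x (hB (closedBall_subset_closedBall hrr.le hx)) ?_
      have h1 : u i x + ∑ k, b.coord k (-y) • P k x = 0 := h0
      rw [hconst x hxb] at h1
      exact add_neg_eq_zero.1 h1

end Pool.Agent.P.MP_788ef7_an
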