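import Pool.Agent.P.MP_788ef7_an.KDefs

set_option autoImplicit false

open Set Filter Topology Metric

namespace Pool.Agent.P.MP_788ef7_an

theorem norm_sub_sq_kb1 (x y : ℂ) : ‖x - y‖ ^ 2 = 2 * rho x y - rho x x - rho y y := by
  rw [Complex.sq_norm, Complex.normSq_apply, Complex.sub_re, Complex.sub_im]
  unfold rho
  ring

theorem norm_sub_sq_le {x y : ℂ} (hx : ‖x‖ ≤ 1) (hy : ‖y‖ ≤ 1) : ‖x - y‖ ^ 2 ≤ 2 * rho x y := by
  rw [norm_sub_sq_kb1]
  linarith [rho_self_nonneg hx, rho_self_nonneg hy]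

theorem rho_nonneg {x y : ℂ} (hx : ‖x‖ ≤ 1) (hy : ‖y‖ ≤ 1) : 0 ≤ rho x y := by
  linarith [norm_sub_sq_le hx hy, sq_nonneg ‖x - y‖]

theorem rho_le_two {x y : ℂ} (hx : ‖x‖ ≤ 1) (hy : ‖y‖ ≤ 1) : rho x y ≤ 2 := by
  have h := rho_nonneg hx (y := -y) (by rwa [norm_neg])
  simp only [rho, Complex.neg_re, Complex.neg_im] at h ⊢
  linarith

theorem rho_pos {x y : ℂ} (hx : ‖x‖ < 1) (hy : ‖y‖ ≤ 1) : 0 < rho x y := by
  linarith [norm_sub_sq_kb1 x y, sq_nonneg ‖x - y‖, rho_self_pos hx, rho_self_nonneg hy]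

theorem rho_zero_left (y : ℂ) : rho 0 y = 1 := by simp [rho]

theorem rho_circle_self (ξ : Circle) : rho ξ ξ = 0 := by
  rw [rho_self, Circle.norm_coe]
  norm_num

theorem rho_pos_of_ne {x : ℂ} {ξ : Circle} (hx : ‖x‖ ≤ 1) (h : x ≠ ξ) : 0 < rho x ξ := by
  have h1 := norm_sub_sq_le hx (Circle.norm_coe ξ).le
  have h2 : 0 < ‖x - ξ‖ ^ 2 := pow_pos (norm_pos_iff.2 (sub_ne_zero.2 h)) 2
  linarith

theorem rho_le_norm_sub (x : ℂ) (ξ : Circle) : rho x ξ ≤ ‖x - ξ‖ := by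
  have h0 := rho_circle_self ξ
  have h1 := norm_sub_sq_kb1 x ξ
  refine le_trans (le_abs_self _) (abs_le_of_sq_le_sq ?_ (norm_nonneg _))
  rw [h1]
  unfold rho at h0 ⊢
  generalize (ξ : ℂ).re = a at *
  generalize (ξ : ℂ).im = b at *
  have e : (x.re * x.re + x.im * x.im) * (a * a + b * b) = x.re * x.re + x.im * x.im := by
    rw [show a * a + b * b = 1 by linarith, mul_one]
  nlinarith [sq_nonneg (x.re * b - x.im * a)]

theorem rho_circle (a b : Circle) : 2 * rho a b = ‖(a : ℂ) - b‖ ^ 2 := by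
  rw [norm_sub_sq_kb1, rho_circle_self, rho_circle_self]
  ring

theorem rho_tri {a b : ℂ} (ha : ‖a‖ ≤ 1) (hb : ‖b‖ ≤ 1) (ξ : Circle) :
    rho a b ≤ 2 * rho a ξ + 2 * rho b ξ := by
  have h0 := rho_circle_self ξ
  have h1 := rho_self_nonneg ha
  have h2 := rho_self_nonneg hb
  unfold rho at *
  nlinarith [sq_nonneg (a.re + b.re - 2 * (ξ : ℂ).re), sq_nonneg (a.im + b.im - 2 * (ξ : ℂ).im)]

theorem rev_cs_kb1 {x y : ℂ} (hx : ‖x‖ ≤ 1) : rho x x * rho y y ≤ rho x y ^ 2 := by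
  have h := rho_self_nonneg hx
  have e : rho x y ^ 2 - rho x x * rho y y =
      rho x x * ((x.re - y.re) ^ 2 + (x.im - y.im) ^ 2) +
        (x.re * (x.re - y.re) + x.im * (x.im - y.im)) ^ 2 := by
    unfold rho
    ring
  have : 0 ≤ rho x x * ((x.re - y.re) ^ 2 + (x.im - y.im) ^ 2) := by positivity
  nlinarith [sq_nonneg (x.re * (x.re - y.re) + x.im * (x.im - y.im))]

theorem rho_trib {x x' w : ℂ} (hx : ‖x‖ ≤ 1) (hx' : ‖x'‖ ≤ 1) (hw : ‖w‖ ≤ 1) :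
    rho x w * rho x' x' ≤ 2 * rho x x' * rho x' w := by
  have e : (rho x x' ^ 2 - rho x x * rho x' x') * (rho x' w ^ 2 - rho w w * rho x' x') =
      (rho x w * rho x' x' - rho x x' * rho x' w) ^ 2 + rho x' x' * ori x x' w ^ 2 := by
    unfold rho ori
    ring
  have h1 := rev_cs_kb1 (y := x') hx
  have h2 := mul_nonneg (rho_self_nonneg hx) (rho_self_nonneg hx')
  have h3 := mul_nonneg (rho_self_nonneg hw) (rho_self_nonneg hx')
  have h4 := mul_nonneg (rho_self_nonneg hx') (sq_nonneg (ori x x' w))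
  have h5 := mul_nonneg (rho_nonneg hx hx') (rho_nonneg hx' hw)
  have h6 : (rho x w * rho x' x' - rho x x' * rho x' w) ^ 2 ≤ (rho x x' * rho x' w) ^ 2 := by
    have h7 := mul_nonneg (sub_nonneg.2 h1) h3
    have h8 := mul_nonneg h2 (sq_nonneg (rho x' w))
    linarith
  linarith [abs_le_of_sq_le_sq' h6 h5]

theorem rho_affine (p q ζ : ℂ) (s : ℝ) :
    rho ((1 - s) • p + s • q) ζ = (1 - s) * rho p ζ + s * rho q ζ := by
  simp only [rho, Complex.add_re, Complex.add_im, Complex.smul_re, Complex.smul_im, smul_eq_mul]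
  ring

theorem le_rho_of_segment {p q x ζ : ℂ} {c : ℝ} (h : x ∈ segment ℝ p q) (hp : c ≤ rho p ζ)
    (hq : c ≤ rho q ζ) : c ≤ rho x ζ := by
  rw [segment_eq_image] at h
  obtain ⟨s, ⟨h0, h1⟩, rfl⟩ := h
  rw [rho_affine]
  nlinarith [mul_nonneg h0 (sub_nonneg.2 hq), mul_nonneg (sub_nonneg.2 h1) (sub_nonneg.2 hp)]

theorem rho_le_of_segment {p q x ζ : ℂ} {c : ℝ} (h : x ∈ segment ℝ p q) (hp : rho p ζ ≤ c)
    (hq : rho q ζ ≤ c) : rho x ζ ≤ c := by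
  rw [segment_eq_image] at h
  obtain ⟨s, ⟨h0, h1⟩, rfl⟩ := h
  rw [rho_affine]
  nlinarith [mul_nonneg h0 (sub_nonneg.2 hq), mul_nonneg (sub_nonneg.2 h1) (sub_nonneg.2 hp)]

theorem le_rho_of_convexHull {s : Set ℂ} {x ζ : ℂ} {c : ℝ} (h : x ∈ convexHull ℝ s)
    (hs : ∀ p ∈ s, c ≤ rho p ζ) : c ≤ rho x ζ :=
  convexHull_min (t := {p | c ≤ rho p ζ}) hs
    (convex_iff_segment_subset.2 fun _ hp _ hq _ hx => le_rho_of_segment hx hp hq) h

@[fun_prop] theorem continuous_rho {α : Type*} [TopologicalSpace α] {f g : α → ℂ}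
    (hf : Continuous f) (hg : Continuous g) : Continuous fun a => rho (f a) (g a) := by
  unfold rho
  fun_prop

theorem tendsto_rho {ι : Type*} {l : Filter ι} {f g : ι → ℂ} {a b : ℂ} (hf : Tendsto f l (𝓝 a))
    (hg : Tendsto g l (𝓝 b)) : Tendsto (fun i => rho (f i) (g i)) l (𝓝 (rho a b)) :=
  ((continuous_rho continuous_fst continuous_snd).tendsto (a, b)).comp (hf.prodMk_nhds hg)

end Pool.Agent.P.MP_788ef7_an
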