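import Pool.Agent.P.MP_788ef7_an.KB1

set_option autoImplicit false

open Set Filter Topology Metric

namespace Pool.Agent.P.MP_788ef7_an

theorem cosh_dist_o (x : KD) : Real.cosh (dist x KD.o) = (√(rho x.val x.val))⁻¹ := by
  rw [KD.cosh_dist]
  simp [KD.o, rho]

theorem cosh_sq_kb2 (x y : KD) :
    Real.cosh (dist x y) ^ 2 * (rho x.val x.val * rho y.val y.val) = rho x.val y.val ^ 2 := by
  have h1 := (Real.sqrt_pos.2 x.rho_pos).ne'
  have h2 := (Real.sqrt_pos.2 y.rho_pos).ne'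
  rw [KD.cosh_dist, div_pow, mul_pow, Real.sq_sqrt x.rho_pos.le, Real.sq_sqrt y.rho_pos.le,
    div_mul_cancel₀ _ (mul_pos x.rho_pos y.rho_pos).ne']

theorem cosh_le_kb2 {x y : KD} {R : ℝ} (h : dist x y ≤ R) :
    Real.cosh (dist x y) ^ 2 ≤ Real.cosh R ^ 2 := by
  refine pow_le_pow_left₀ (Real.cosh_pos _).le (Real.cosh_le_cosh.2 ?_) 2
  rw [abs_of_nonneg dist_nonneg]
  exact h.trans (le_abs_self R)

theorem rho_o_kb2 (x : ℂ) : rho x KD.o.val = 1 := by simp [KD.o, rho]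

theorem exists_norm_le (R : ℝ) : ∃ r < 1, ∀ x : KD, dist x KD.o ≤ R → ‖x.val‖ ≤ r := by
  have hc : 0 < Real.cosh R ^ 2 := pow_pos (Real.cosh_pos R) 2
  have hm : 0 < (Real.cosh R ^ 2)⁻¹ := inv_pos.2 hc
  refine ⟨1 - (Real.cosh R ^ 2)⁻¹ / 2, by linarith, fun x hx => ?_⟩
  have h1 := cosh_sq_kb2 x KD.o
  rw [rho_o_kb2, rho_o_kb2, mul_one, one_pow] at h1
  have h2 := mul_le_mul_of_nonneg_right (cosh_le_kb2 hx) x.rho_pos.le
  rw [h1, ← inv_mul_le_iff₀ hc, mul_one, rho_self] at h2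
  nlinarith [sq_nonneg (1 - ‖x.val‖)]

theorem dist_le_of_rho (K : ℝ) : ∃ R, ∀ x y : KD,
    rho x.val y.val ^ 2 ≤ K * (rho x.val x.val * rho y.val y.val) → dist x y ≤ R := by
  refine ⟨2 * K, fun x y h => ?_⟩
  rw [← cosh_sq_kb2] at h
  have h1 := le_of_mul_le_mul_right h (mul_pos x.rho_pos y.rho_pos)
  have h2 := Real.one_le_cosh (dist x y)
  have h3 := Real.add_one_le_exp (dist x y)
  have h4 := Real.exp_pos (-dist x y)
  have h5 := Real.cosh_eq (dist x y)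
  nlinarith

theorem exists_dist_le {r : ℝ} (hr : r < 1) : ∃ R, ∀ x : KD, ‖x.val‖ ≤ r → dist x KD.o ≤ R := by
  obtain ⟨R, hR⟩ := dist_le_of_rho (1 - r)⁻¹
  refine ⟨R, fun x hx => hR x KD.o ?_⟩
  rw [rho_o_kb2, rho_o_kb2, mul_one, one_pow, le_inv_mul_iff₀ (sub_pos.2 hr), mul_one, rho_self]
  nlinarith [norm_nonneg x.val, x.lt]

theorem rho_sq_le (R : ℝ) : ∃ K, ∀ x y : KD, dist x y ≤ R →
    rho x.val y.val ^ 2 ≤ K * (rho x.val x.val * rho y.val y.val) := by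
  refine ⟨Real.cosh R ^ 2, fun x y h => ?_⟩
  rw [← cosh_sq_kb2]
  exact mul_le_mul_of_nonneg_right (cosh_le_kb2 h) (mul_pos x.rho_pos y.rho_pos).le

theorem rho_self_cmp (R : ℝ) : ∃ c > 0, ∀ x x' : KD, dist x x' ≤ R →
    rho x.val x.val ≤ c * rho x'.val x'.val := by
  obtain ⟨K, hK⟩ := rho_sq_le R
  refine ⟨4 * (|K| + 1), by positivity, fun x y h => ?_⟩
  have h1 := hK x y h
  have ha := x.rho_pos
  have hb := y.rho_pos
  have h2 : rho x.val x.val ≤ 2 * rho x.val y.val := by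
    have := y.rho_pos
    unfold rho at this ⊢
    nlinarith [sq_nonneg (x.val.re - y.val.re), sq_nonneg (x.val.im - y.val.im)]
  have h3 : rho x.val x.val * rho x.val x.val ≤
      rho x.val x.val * (4 * (|K| + 1) * rho y.val y.val) := by
    have h4 := mul_le_mul_of_nonneg_right (le_abs_self K) (mul_pos ha hb).le
    have h5 := mul_pos ha hb
    nlinarith [mul_self_le_mul_self ha.le h2]
  exact le_of_mul_le_mul_left h3 ha

theorem rho_cmp (R : ℝ) : ∃ c > 0, ∀ x x' : KD, dist x x' ≤ R → ∀ w : ℂ, ‖w‖ ≤ 1 →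
    rho x.val w ≤ c * rho x'.val w := by
  obtain ⟨K, hK⟩ := rho_sq_le R
  obtain ⟨c, hc, hcmp⟩ := rho_self_cmp R
  refine ⟨2 * (|K| * c + 1), by positivity, fun x y h w hw => ?_⟩
  have ha := x.rho_pos
  have hb := y.rho_pos
  have h1 : rho x.val y.val ^ 2 ≤ |K| * c * rho y.val y.val ^ 2 := by
    refine (hK x y h).trans ((mul_le_mul_of_nonneg_right (le_abs_self K) (mul_pos ha hb).le).trans ?_)
    rw [mul_assoc, sq, ← mul_assoc c]
    exact mul_le_mul_of_nonneg_left (mul_le_mul_of_nonneg_right (hcmp x y h) hb.le) (abs_nonneg K)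
  have h2 : rho x.val y.val ≤ (|K| * c + 1) * rho y.val y.val := by
    refine (pow_le_pow_iff_left₀ (rho_nonneg x.lt.le y.lt.le) (by positivity) two_ne_zero).1
      (h1.trans ?_)
    rw [mul_pow]
    refine mul_le_mul_of_nonneg_right ?_ (sq_nonneg _)
    have : 0 ≤ |K| * c := by positivity
    nlinarith
  have h3 := rho_trib x.lt.le y.lt.le hw
  have h4 := rho_nonneg y.lt.le hw
  refine le_of_mul_le_mul_right (h3.trans ?_) hb
  nlinarith [mul_le_mul_of_nonneg_right h2 h4]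

theorem bus_cmp (R : ℝ) : ∃ c > 0, ∀ x x' : KD, dist x x' ≤ R → ∀ w : ℂ, ‖w‖ ≤ 1 →
    bus x.val w ≤ c * bus x'.val w := by
  obtain ⟨c, hc, h1⟩ := rho_cmp R
  obtain ⟨d, hd, h2⟩ := rho_self_cmp R
  refine ⟨c ^ 2 * d, by positivity, fun x y h w hw => ?_⟩
  have ha := x.rho_pos
  have hb := y.rho_pos
  have h3 := pow_le_pow_left₀ (rho_nonneg x.lt.le hw) (h1 x y h w hw) 2
  have h4 := h2 y x (by rwa [dist_comm])
  rw [bus, bus, ← mul_div_assoc, div_le_div_iff₀ ha hb]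
  calc rho x.val w ^ 2 * rho y.val y.val
      ≤ (c * rho y.val w) ^ 2 * (d * rho x.val x.val) :=
        mul_le_mul h3 h4 hb.le (sq_nonneg _)
    _ = c ^ 2 * d * rho y.val w ^ 2 * rho x.val x.val := by ring

theorem vis_cmp (R : ℝ) : ∃ c > 0, ∀ x x' : KD, dist x x' ≤ R → ∀ a b : ℂ, ‖a‖ ≤ 1 → ‖b‖ ≤ 1 →
    vis x.val a b ≤ c * vis x'.val a b := by
  obtain ⟨c, hc, h1⟩ := rho_cmp R
  obtain ⟨d, hd, h2⟩ := rho_self_cmp R
  refine ⟨c ^ 2 * d, by positivity, fun x y h a b ha hb => ?_⟩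
  have hxa := rho_pos x.lt ha
  have hxb := rho_pos x.lt hb
  have hya := rho_pos y.lt ha
  have hyb := rho_pos y.lt hb
  have hab := rho_nonneg ha hb
  have hy := y.rho_pos
  have h' : dist y x ≤ R := by rwa [dist_comm]
  have h3 := mul_le_mul (h1 y x h' a ha) (h1 y x h' b hb) hyb.le (by positivity)
  have h4 := mul_le_mul_of_nonneg_left (h2 x y h) hab
  rw [vis, vis, ← mul_div_assoc, div_le_div_iff₀ (mul_pos hxa hxb) (mul_pos hya hyb)]
  calc rho a b * rho x.val x.val * (rho y.val a * rho y.val b)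
      ≤ rho a b * (d * rho y.val y.val) * (c * rho x.val a * (c * rho x.val b)) :=
        mul_le_mul h4 h3 (by positivity) (by positivity)
    _ = c ^ 2 * d * (rho a b * rho y.val y.val) * (rho x.val a * rho x.val b) := by ring

theorem near_of_dist_le (R : ℝ) {ε : ℝ} (hε : 0 < ε) : ∃ δ > 0, ∀ (x y : KD) (ξ : Circle),
    dist x y ≤ R → ‖x.val - ξ‖ < δ → ‖y.val - ξ‖ < ε := by
  obtain ⟨c, hc, h1⟩ := rho_cmp R
  refine ⟨ε ^ 2 / (2 * c), by positivity, fun x y ξ h hx => ?_⟩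
  have hξ : ‖(ξ : ℂ)‖ ≤ 1 := ξ.norm_coe.le
  have h2 := norm_sub_sq_le y.lt.le hξ
  have h3 := h1 y x (by rwa [dist_comm]) ξ hξ
  have h4 := mul_le_mul_of_nonneg_left (rho_le_norm_sub x.val ξ) hc.le
  rw [lt_div_iff₀ (by positivity)] at hx
  exact lt_of_pow_lt_pow_left₀ 2 hε.le (by linarith)

theorem tendsto_of_dist_le {ι : Type*} {l : Filter ι} {x y : ι → KD} {R : ℝ} {ξ : Circle}
    (h : ∀ i, dist (x i) (y i) ≤ R) (hx : Tendsto (fun i => (x i).val) l (𝓝 ξ)) :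
    Tendsto (fun i => (y i).val) l (𝓝 ξ) := by
  rw [Metric.tendsto_nhds] at hx ⊢
  intro ε hε
  obtain ⟨δ, hδ, h1⟩ := near_of_dist_le R hε
  filter_upwards [hx δ hδ] with i hi
  rw [dist_eq_norm] at hi ⊢
  exact h1 _ _ ξ (h i) hi

theorem exists_limit (x : ℕ → KD) (h : Tendsto (fun n => dist (x n) KD.o) atTop atTop) :
    ∃ (ξ : Circle) (φ : ℕ → ℕ), StrictMono φ ∧
      Tendsto (fun n => (x (φ n)).val) atTop (𝓝 ξ) := by
  obtain ⟨a, ha, φ, hφ, hl⟩ := (isCompact_closedBall (0 : ℂ) 1).tendsto_subseq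
    (x := fun n => (x n).val) fun n => mem_closedBall_zero_iff.2 (x n).lt.le
  have h1 : ‖a‖ = 1 := by
    refine le_antisymm (mem_closedBall_zero_iff.1 ha) (not_lt.1 fun hlt => ?_)
    obtain ⟨r, hr1, hr2⟩ := exists_between hlt
    obtain ⟨R, hR⟩ := exists_dist_le hr2
    have h2 := hl.norm.eventually (eventually_le_nhds hr1)
    have h3 := (h.comp hφ.tendsto_atTop).eventually (eventually_gt_atTop R)
    obtain ⟨n, hn1, hn2⟩ := (h2.and h3).exists
    exact absurd (hR _ hn1) (not_le.2 hn2)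
  exact ⟨⟨a, mem_sphere_zero_iff_norm.2 h1⟩, φ, hφ, hl⟩

theorem tendsto_dist_atTop {ι : Type*} {l : Filter ι} {x : ι → KD} {ξ : Circle}
    (h : Tendsto (fun i => (x i).val) l (𝓝 ξ)) :
    Tendsto (fun i => dist (x i) KD.o) l atTop := by
  refine tendsto_atTop.2 fun R => ?_
  obtain ⟨r, hr, hR⟩ := exists_norm_le R
  have h1 := h.norm
  rw [ξ.norm_coe] at h1
  filter_upwards [h1.eventually (eventually_gt_nhds hr)] with i hi
  exact le_of_lt (not_le.1 fun hle => absurd (hR _ hle) (not_le.2 hi))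

end Pool.Agent.P.MP_788ef7_an
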