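import Mathlib

/-!
The Klein model of the hyperbolic plane.
-/

set_option autoImplicit false

open Set Filter Topology

namespace Pool.Agent.P.MP_788ef7_an

noncomputable section

/-- `1 - ⟨x, y⟩`. -/
def rho (x y : ℂ) : ℝ := 1 - (x.re * y.re + x.im * y.im)

/-- Twice the signed area of the triangle `a b c`. -/
def ori (a b c : ℂ) : ℝ := (b.re - a.re) * (c.im - a.im) - (b.im - a.im) * (c.re - a.re)

/-- The Minkowski form. -/
def mink (v w : ℝ × ℂ) : ℝ := v.1 * w.1 - (v.2.re * w.2.re + v.2.im * w.2.im)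

/-- The determinant of three vectors. -/
def det3 (u v w : ℝ × ℂ) : ℝ :=
  u.1 * (v.2.re * w.2.im - v.2.im * w.2.re) - v.1 * (u.2.re * w.2.im - u.2.im * w.2.re) +
    w.1 * (u.2.re * v.2.im - u.2.im * v.2.re)

/-- Elements of the identity component of the Lorentz group. -/
structure IsLor (L : ℝ × ℂ →L[ℝ] ℝ × ℂ) : Prop where
  mink_eq : ∀ v w, mink (L v) (L w) = mink v w
  pos : 0 < (L (1, 0)).1
  det_eq : ∀ u v w, det3 (L u) (L v) (L w) = det3 u v w

/-- The cocycle of the projective action. -/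
def kmu (L : ℝ × ℂ →L[ℝ] ℝ × ℂ) (x : ℂ) : ℝ := (L (1, x)).1

/-- The projective action on the closed disc. -/
def kact (L : ℝ × ℂ →L[ℝ] ℝ × ℂ) (x : ℂ) : ℂ := (kmu L x)⁻¹ • (L (1, x)).2

theorem rho_self (x : ℂ) : rho x x = 1 - ‖x‖ ^ 2 := by
  rw [Complex.sq_norm, Complex.normSq_apply, rho]

theorem rho_comm (x y : ℂ) : rho x y = rho y x := by unfold rho; ring

theorem rho_self_pos {x : ℂ} (h : ‖x‖ < 1) : 0 < rho x x := by
  rw [rho_self]; nlinarith [norm_nonneg x]

theorem rho_self_nonneg {x : ℂ} (h : ‖x‖ ≤ 1) : 0 ≤ rho x x := by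
  rw [rho_self]; nlinarith [norm_nonneg x]

theorem norm_lt_one_of_rho {x : ℂ} (h : 0 < rho x x) : ‖x‖ < 1 := by
  rw [rho_self] at h; nlinarith [norm_nonneg x]

theorem norm_le_one_of_rho {x : ℂ} (h : 0 ≤ rho x x) : ‖x‖ ≤ 1 := by
  rw [rho_self] at h; nlinarith [norm_nonneg x]

theorem mink_one (x y : ℂ) : mink (1, x) (1, y) = rho x y := by simp [mink, rho]

theorem IsLor.kmu_pos {L : ℝ × ℂ →L[ℝ] ℝ × ℂ} (h : IsLor L) {x : ℂ} (hx : ‖x‖ ≤ 1) :
    0 < kmu L x := by
  have h0 := h.mink_eq (1, 0) (1, 0)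
  have h1 := h.mink_eq (1, 0) (1, x)
  have h2 := h.mink_eq (1, x) (1, x)
  have h3 := rho_self_nonneg hx
  have h4 := h.pos
  rw [mink_one] at h0 h1 h2
  rw [← h2] at h3
  unfold kmu
  simp only [mink, rho, Complex.zero_re, Complex.zero_im] at h0 h1 h3
  generalize L (1, 0) = a at *
  generalize L (1, x) = b at *
  by_contra hc
  have hb : b.1 ≤ 0 := not_lt.1 hc
  have c1 : a.1 * b.1 ≤ 0 := mul_nonpos_of_nonneg_of_nonpos h4.le hb
  have c2 : (a.2.re * b.2.re + a.2.im * b.2.im) ^ 2 ≤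
      (a.2.re * a.2.re + a.2.im * a.2.im) * (b.2.re * b.2.re + b.2.im * b.2.im) := by
    nlinarith [sq_nonneg (a.2.re * b.2.im - a.2.im * b.2.re)]
  have c3 : (a.2.re * a.2.re + a.2.im * a.2.im) * (b.2.re * b.2.re + b.2.im * b.2.im) ≤
      (a.1 * a.1) * (b.1 * b.1) := by
    apply mul_le_mul <;> nlinarith [mul_self_nonneg a.2.re, mul_self_nonneg a.2.im,
      mul_self_nonneg b.2.re, mul_self_nonneg b.2.im]
  have c4 : a.2.re * b.2.re + a.2.im * b.2.im = a.1 * b.1 - 1 := by linarith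
  rw [c4] at c2
  nlinarith

theorem IsLor.apply_eq {L : ℝ × ℂ →L[ℝ] ℝ × ℂ} (h : IsLor L) {x : ℂ} (hx : ‖x‖ ≤ 1) :
    L (1, x) = kmu L x • ((1 : ℝ), kact L x) := by
  have := (h.kmu_pos hx).ne'
  refine Prod.ext (by simp [kmu]) ?_
  simp only [kact, Prod.smul_snd, smul_smul, mul_inv_cancel₀ this, one_smul]

theorem IsLor.rho_kact {L : ℝ × ℂ →L[ℝ] ℝ × ℂ} (h : IsLor L) {x y : ℂ} (hx : ‖x‖ ≤ 1)
    (hy : ‖y‖ ≤ 1) : kmu L x * kmu L y * rho (kact L x) (kact L y) = rho x y := by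
  have := h.mink_eq (1, x) (1, y)
  rw [h.apply_eq hx, h.apply_eq hy, mink_one] at this
  rw [← this]
  simp only [mink, rho, Prod.smul_fst, Prod.smul_snd, smul_eq_mul, Complex.smul_re,
    Complex.smul_im]
  ring

theorem IsLor.norm_kact_lt {L : ℝ × ℂ →L[ℝ] ℝ × ℂ} (h : IsLor L) {x : ℂ} (hx : ‖x‖ < 1) :
    ‖kact L x‖ < 1 := by
  apply norm_lt_one_of_rho
  have h1 := h.rho_kact hx.le hx.le
  have h2 := h.kmu_pos hx.le
  have h3 := rho_self_pos hx
  rw [← h1] at h3
  exact (mul_pos_iff_of_pos_left (mul_pos h2 h2)).1 h3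

/-- The open disc, to be given the hyperbolic metric of the Klein model. -/
structure KD where
  /-- The point of the disc. -/
  val : ℂ
  lt : ‖val‖ < 1

attribute [coe] KD.val

instance : CoeOut KD ℂ := ⟨KD.val⟩

@[ext] theorem KD.ext {x y : KD} (h : x.val = y.val) : x = y := by
  cases x; cases y; congr

/-- The centre of the disc. -/
def KD.o : KD := ⟨0, by simp⟩

instance : Inhabited KD := ⟨KD.o⟩

theorem KD.re_lt (x : KD) : x.val.re < 1 :=
  ((le_abs_self _).trans (Complex.abs_re_le_norm _)).trans_lt x.lt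

theorem KD.rho_pos (x : KD) : 0 < rho x.val x.val := rho_self_pos x.lt

/-- From the Klein model to the upper half plane. -/
def KD.toH (x : KD) : UpperHalfPlane :=
  ⟨⟨x.val.im / (1 - x.val.re), √(rho x.val x.val) / (1 - x.val.re)⟩,
    div_pos (Real.sqrt_pos.2 x.rho_pos) (sub_pos.2 x.re_lt)⟩

/-- From the upper half plane to the Klein model. -/
def KD.ofH (z : UpperHalfPlane) : KD :=
  ⟨⟨(z.re ^ 2 + z.im ^ 2 - 1) / (z.re ^ 2 + z.im ^ 2 + 1), 2 * z.re / (z.re ^ 2 + z.im ^ 2 + 1)⟩, by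
    apply norm_lt_one_of_rho
    have := z.im_pos
    have e : rho ⟨(z.re ^ 2 + z.im ^ 2 - 1) / (z.re ^ 2 + z.im ^ 2 + 1),
        2 * z.re / (z.re ^ 2 + z.im ^ 2 + 1)⟩ ⟨(z.re ^ 2 + z.im ^ 2 - 1) / (z.re ^ 2 + z.im ^ 2 + 1),
        2 * z.re / (z.re ^ 2 + z.im ^ 2 + 1)⟩ = (2 * z.im / (z.re ^ 2 + z.im ^ 2 + 1)) ^ 2 := by
      simp only [rho]; field_simp; ring
    rw [e]; positivity⟩

theorem KD.ofH_toH (x : KD) : KD.ofH x.toH = x := by
  have h1 : 1 - x.val.re ≠ 0 := (sub_pos.2 x.re_lt).ne'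
  have h2 : √(rho x.val x.val) ^ 2 = 1 - (x.val.re * x.val.re + x.val.im * x.val.im) :=
    Real.sq_sqrt x.rho_pos.le
  have h3 : (x.val.im / (1 - x.val.re)) ^ 2 + (√(rho x.val x.val) / (1 - x.val.re)) ^ 2 =
      (1 + x.val.re) / (1 - x.val.re) := by
    rw [div_pow, div_pow, h2]; field_simp; ring
  apply KD.ext
  apply Complex.ext
  · show ((x.val.im / (1 - x.val.re)) ^ 2 + (√(rho x.val x.val) / (1 - x.val.re)) ^ 2 - 1) /
      ((x.val.im / (1 - x.val.re)) ^ 2 + (√(rho x.val x.val) / (1 - x.val.re)) ^ 2 + 1) = _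
    rw [h3]; field_simp; ring
  · show 2 * (x.val.im / (1 - x.val.re)) /
      ((x.val.im / (1 - x.val.re)) ^ 2 + (√(rho x.val x.val) / (1 - x.val.re)) ^ 2 + 1) = _
    rw [h3]; field_simp; ring

theorem KD.toH_ofH (z : UpperHalfPlane) : (KD.ofH z).toH = z := by
  have := z.im_pos
  have e : rho (KD.ofH z).val (KD.ofH z).val = (2 * z.im / (z.re ^ 2 + z.im ^ 2 + 1)) ^ 2 := by
    simp only [rho, KD.ofH]; field_simp; ring
  apply UpperHalfPlane.ext_re_im
  · show (2 * z.re / (z.re ^ 2 + z.im ^ 2 + 1)) /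
      (1 - (z.re ^ 2 + z.im ^ 2 - 1) / (z.re ^ 2 + z.im ^ 2 + 1)) = _
    field_simp; ring
  · show √(rho (KD.ofH z).val (KD.ofH z).val) /
      (1 - (z.re ^ 2 + z.im ^ 2 - 1) / (z.re ^ 2 + z.im ^ 2 + 1)) = _
    rw [e, Real.sqrt_sq (by positivity)]
    field_simp; ring

theorem KD.toH_injective : Function.Injective KD.toH :=
  Function.LeftInverse.injective KD.ofH_toH

instance : MetricSpace KD := MetricSpace.induced KD.toH KD.toH_injective inferInstance

/-- The Klein model is isometric to the upper half plane. -/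
def KD.isoH : KD ≃ᵢ UpperHalfPlane where
  toFun := KD.toH
  invFun := KD.ofH
  left_inv := KD.ofH_toH
  right_inv := KD.toH_ofH
  isometry_toFun := Isometry.of_dist_eq fun _ _ => rfl

instance : ProperSpace KD :=
  LipschitzWith.properSpace KD.isoH.toHomeomorph.isProperMap KD.isoH.isometry.lipschitz

theorem KD.cosh_dist (x y : KD) :
    Real.cosh (dist x y) = rho x.val y.val / (√(rho x.val x.val) * √(rho y.val y.val)) := by
  have e : dist x y = dist x.toH y.toH := rfl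
  have h1 : 1 - x.val.re ≠ 0 := (sub_pos.2 x.re_lt).ne'
  have h1' : 1 - y.val.re ≠ 0 := (sub_pos.2 y.re_lt).ne'
  have h2 : √(rho x.val x.val) ^ 2 = 1 - (x.val.re * x.val.re + x.val.im * x.val.im) :=
    Real.sq_sqrt x.rho_pos.le
  have h2' : √(rho y.val y.val) ^ 2 = 1 - (y.val.re * y.val.re + y.val.im * y.val.im) :=
    Real.sq_sqrt y.rho_pos.le
  have h3 := (Real.sqrt_pos.2 x.rho_pos).ne'
  have h3' := (Real.sqrt_pos.2 y.rho_pos).ne'
  rw [e, UpperHalfPlane.cosh_dist']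
  show ((x.val.im / (1 - x.val.re) - y.val.im / (1 - y.val.re)) ^ 2 +
    (√(rho x.val x.val) / (1 - x.val.re)) ^ 2 + (√(rho y.val y.val) / (1 - y.val.re)) ^ 2) /
    (2 * (√(rho x.val x.val) / (1 - x.val.re)) * (√(rho y.val y.val) / (1 - y.val.re))) = _
  rw [div_pow, div_pow, h2, h2']
  simp only [rho] at h3 h3' ⊢
  field_simp
  ring

theorem KD.isOpenEmbedding_val : IsOpenEmbedding KD.val := by
  have hO : IsOpen (Metric.ball (0 : ℂ) 1) := Metric.isOpen_ball
  let f : KD → Metric.ball (0 : ℂ) 1 := fun x => ⟨x.val, mem_ball_zero_iff.2 x.lt⟩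
  let g : Metric.ball (0 : ℂ) 1 → KD := fun x => ⟨x.1, mem_ball_zero_iff.1 x.2⟩
  have hf : Continuous KD.val := by
    have e : KD.val = (fun z => (KD.ofH z).val) ∘ KD.isoH := by
      funext x
      exact congrArg KD.val (KD.ofH_toH x).symm
    rw [e]
    refine Continuous.comp ?_ KD.isoH.continuous
    have p : ∀ z : UpperHalfPlane, z.re ^ 2 + z.im ^ 2 + 1 ≠ 0 := fun z => by positivity
    have c1 := UpperHalfPlane.continuous_re
    have c2 := UpperHalfPlane.continuous_im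
    have e2 : (fun z => (KD.ofH z).val) = fun z : UpperHalfPlane =>
        Complex.equivRealProdCLM.symm ((z.re ^ 2 + z.im ^ 2 - 1) / (z.re ^ 2 + z.im ^ 2 + 1),
          2 * z.re / (z.re ^ 2 + z.im ^ 2 + 1)) := rfl
    rw [e2]
    fun_prop (disch := assumption)
  have hg : Continuous g := by
    have e : g = KD.isoH.symm ∘ fun x => (g x).toH := by
      funext x
      exact (KD.ofH_toH _).symm
    rw [e]
    refine KD.isoH.symm.continuous.comp ?_
    refine UpperHalfPlane.isOpenEmbedding_coe.continuous_iff.2 ?_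
    have p : ∀ x : Metric.ball (0 : ℂ) 1, 1 - x.1.re ≠ 0 := fun x => (sub_pos.2 (g x).re_lt).ne'
    have e2 : (UpperHalfPlane.coe ∘ fun x => (g x).toH) = fun x : Metric.ball (0 : ℂ) 1 =>
        Complex.equivRealProdCLM.symm (x.1.im / (1 - x.1.re),
          √(1 - (x.1.re * x.1.re + x.1.im * x.1.im)) / (1 - x.1.re)) := rfl
    rw [e2]
    fun_prop (disch := assumption)
  let h : KD ≃ₜ Metric.ball (0 : ℂ) 1 :=
    { toFun := f, invFun := g, left_inv := fun _ => rfl, right_inv := fun _ => rfl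
      continuous_toFun := hf.subtype_mk _, continuous_invFun := hg }
  exact hO.isOpenEmbedding_subtypeVal.comp h.isOpenEmbedding

theorem KD.continuous_val : Continuous KD.val := KD.isOpenEmbedding_val.continuous

theorem KD.range_val : range KD.val = Metric.ball 0 1 := by
  ext z
  exact ⟨fun ⟨x, hx⟩ => hx ▸ mem_ball_zero_iff.2 x.lt, fun h => ⟨⟨z, mem_ball_zero_iff.1 h⟩, rfl⟩⟩

/-- The action of a Lorentz transformation on the Klein model. -/
def lmv (L : ℝ × ℂ →L[ℝ] ℝ × ℂ) (h : IsLor L) (x : KD) : KD := ⟨kact L x.val, h.norm_kact_lt x.lt⟩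

/-- Orientation preserving isometries of the Klein model. -/
def IsOP (γ : KD ≃ᵢ KD) : Prop := ∃ L, IsLor L ∧ ∀ x, (γ x).val = kact L x.val

/-- The tangent vector at `x` pointing to `y`, normalised so that it is equivariant. -/
def vec1 (x y : ℂ) : ℂ := (rho x x / rho x y) • (y - x)

/-- Counterclockwise cyclic order on the circle. -/
def Cyc (a b c : Circle) : Prop := 0 < ori a b c

/-- The open counterclockwise arc from `p` to `q`. -/
def arc (p q : Circle) : Set Circle := {ξ | Cyc p ξ q}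

/-- The pair `a, b` separates `c` from `d`. -/
def Linked (a b c d : Circle) : Prop := ori a b c * ori a b d < 0

/-- Visual distance of `a` and `b` seen from `x`. -/
def vis (x a b : ℂ) : ℝ := rho a b * rho x x / (rho x a * rho x b)

/-- Square of the Busemann cocycle. -/
def bus (x ζ : ℂ) : ℝ := rho x ζ ^ 2 / rho x x

/-- Coordinate along the geodesic from `b` to `a`. -/
def kap (a b x : ℂ) : ℝ := Real.log (rho x b / rho x a)

/-- Coordinate across the geodesic from `b` to `a`. -/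
def sig (a b x : ℂ) : ℝ := ori a b x / √(rho x x)

end

end Pool.Agent.P.MP_788ef7_an
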