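import Pool.Agent.P.MP_788ef7_an.KB1

set_option autoImplicit false

open Set Filter Topology Metric

namespace Pool.Agent.P.MP_788ef7_an

variable {L L' : ℝ × ℂ →L[ℝ] ℝ × ℂ}

theorem isLor_id : IsLor (ContinuousLinearMap.id ℝ (ℝ × ℂ)) :=
  ⟨fun _ _ => rfl, one_pos, fun _ _ _ => rfl⟩

theorem kact_id (x : ℂ) : kact (ContinuousLinearMap.id ℝ (ℝ × ℂ)) x = x := by
  simp [kact, kmu]

theorem kmu_id (x : ℂ) : kmu (ContinuousLinearMap.id ℝ (ℝ × ℂ)) x = 1 := rfl

theorem IsLor.comp (h : IsLor L) (h' : IsLor L') : IsLor (L.comp L') := by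
  refine ⟨fun v w => (h.mink_eq _ _).trans (h'.mink_eq v w), ?_,
    fun u v w => (h.det_eq _ _ _).trans (h'.det_eq u v w)⟩
  have h0 : ‖(0 : ℂ)‖ < 1 := by simp
  rw [ContinuousLinearMap.comp_apply, h'.apply_eq h0.le, map_smul]
  exact mul_pos (h'.kmu_pos h0.le) (h.kmu_pos (h'.norm_kact_lt h0).le)

theorem IsLor.exists_inv (h : IsLor L) : ∃ L', IsLor L' ∧
    L'.comp L = ContinuousLinearMap.id ℝ _ ∧ L.comp L' = ContinuousLinearMap.id ℝ _ := by
  have hinj : Function.Injective (L : ℝ × ℂ →ₗ[ℝ] ℝ × ℂ) := by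
    rw [injective_iff_map_eq_zero]
    intro v hv
    have hv' : L v = 0 := hv
    have h1 := h.mink_eq v (1, 0)
    have h2 := h.mink_eq v (0, 1)
    have h3 := h.mink_eq v (0, Complex.I)
    rw [hv'] at h1 h2 h3
    simp [mink] at h1 h2 h3
    exact Prod.ext h1.symm (Complex.ext h2 h3)
  let e := (LinearEquiv.ofInjectiveEndo _ hinj).toContinuousLinearEquiv
  have he : ∀ v, L (e.symm v) = v := e.apply_symm_apply
  have he' : ∀ v, e.symm (L v) = v := e.symm_apply_apply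
  refine ⟨e.symm, ⟨fun v w => ?_, ?_, fun u v w => ?_⟩, ContinuousLinearMap.ext he',
    ContinuousLinearMap.ext he⟩
  · rw [← h.mink_eq]
    exact congrArg₂ mink (he v) (he w)
  · have h1 := h.mink_eq (1, 0) (e.symm (1, 0))
    rw [he] at h1
    have h2 := h.pos
    simp only [mink, Complex.zero_re, Complex.zero_im, mul_zero, zero_mul, add_zero, sub_zero,
      mul_one, one_mul] at h1
    exact h1 ▸ h2
  · rw [← h.det_eq]
    simp only [ContinuousLinearEquiv.coe_coe, he]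

theorem IsLor.norm_kact_le (h : IsLor L) {x : ℂ} (hx : ‖x‖ ≤ 1) : ‖kact L x‖ ≤ 1 := by
  apply norm_le_one_of_rho
  have h2 := h.kmu_pos hx
  have h3 := rho_self_nonneg hx
  rw [← h.rho_kact hx hx] at h3
  exact (mul_nonneg_iff_of_pos_left (mul_pos h2 h2)).1 h3

theorem IsLor.norm_kact_eq (h : IsLor L) {x : ℂ} (hx : ‖x‖ = 1) : ‖kact L x‖ = 1 := by
  have h1 := h.rho_kact hx.le hx.le
  have h2 := h.kmu_pos hx.le
  rw [rho_self x, hx, one_pow, sub_self, mul_eq_zero, rho_self] at h1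
  have h3 := h1.resolve_left (mul_pos h2 h2).ne'
  exact (pow_eq_one_iff_of_nonneg (norm_nonneg _) two_ne_zero).1 (by linarith)

theorem IsLor.kact_comp (h : IsLor L) (h' : IsLor L') {x : ℂ} (hx : ‖x‖ ≤ 1) :
    kact (L.comp L') x = kact L (kact L' x) := by
  have h1 := (h'.kmu_pos hx).ne'
  have _ := h
  have e : (L.comp L') (1, x) = kmu L' x • L (1, kact L' x) := by
    rw [ContinuousLinearMap.comp_apply, h'.apply_eq hx, map_smul]
  rw [kact, kmu, e, kact.eq_1 L, kmu.eq_1 L, Prod.smul_fst, Prod.smul_snd, smul_smul, smul_eq_mul,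
    mul_inv, mul_right_comm, inv_mul_cancel₀ h1, one_mul]

theorem IsLor.kmu_comp (h' : IsLor L') {x : ℂ} (hx : ‖x‖ ≤ 1) :
    kmu (L.comp L') x = kmu L (kact L' x) * kmu L' x := by
  rw [kmu, ContinuousLinearMap.comp_apply, h'.apply_eq hx, map_smul, mul_comm]
  rfl

theorem IsLor.ori_kact (h : IsLor L) {a b c : ℂ} (ha : ‖a‖ ≤ 1) (hb : ‖b‖ ≤ 1) (hc : ‖c‖ ≤ 1) :
    kmu L a * kmu L b * kmu L c * ori (kact L a) (kact L b) (kact L c) = ori a b c := by
  have h1 := h.det_eq (1, a) (1, b) (1, c)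
  rw [h.apply_eq ha, h.apply_eq hb, h.apply_eq hc] at h1
  simp only [det3, Prod.smul_fst, Prod.smul_snd, smul_eq_mul, Complex.smul_re,
    Complex.smul_im] at h1
  simp only [ori]
  linear_combination h1

theorem IsLor.segment (h : IsLor L) {x p q : ℂ} (hp : ‖p‖ ≤ 1) (hq : ‖q‖ ≤ 1)
    (hx : x ∈ segment ℝ p q) : kact L x ∈ segment ℝ (kact L p) (kact L q) := by
  obtain ⟨a, b, ha, hb, hab, rfl⟩ := hx
  have e0 : ((1 : ℝ), a • p + b • q) = a • ((1 : ℝ), p) + b • ((1 : ℝ), q) :=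
    Prod.ext (by simp [hab]) rfl
  have e : L (1, a • p + b • q) =
      (a * kmu L p) • ((1 : ℝ), kact L p) + (b * kmu L q) • ((1 : ℝ), kact L q) := by
    rw [e0, map_add, map_smul, map_smul, h.apply_eq hp, h.apply_eq hq, smul_smul, smul_smul]
  have hm : kmu L (a • p + b • q) = a * kmu L p + b * kmu L q := by
    rw [kmu, e]
    simp
  have hp' := mul_nonneg ha (h.kmu_pos hp).le
  have hq' := mul_nonneg hb (h.kmu_pos hq).le
  have hpos : 0 < kmu L (a • p + b • q) :=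
    h.kmu_pos (mem_closedBall_zero_iff.1 (convex_closedBall (0 : ℂ) 1
      (mem_closedBall_zero_iff.2 hp) (mem_closedBall_zero_iff.2 hq) ha hb hab))
  refine ⟨(kmu L (a • p + b • q))⁻¹ * (a * kmu L p), (kmu L (a • p + b • q))⁻¹ * (b * kmu L q),
    mul_nonneg (inv_nonneg.2 hpos.le) hp', mul_nonneg (inv_nonneg.2 hpos.le) hq', ?_, ?_⟩
  · rw [← mul_add, ← hm, inv_mul_cancel₀ hpos.ne']
  · rw [kact.eq_1 L (a • p + b • q), e, Prod.snd_add, Prod.smul_snd, Prod.smul_snd, smul_add,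
      smul_smul, smul_smul]

theorem IsLor.convexHull (h : IsLor L) {s : Set ℂ} (hs : s ⊆ closedBall 0 1) {x : ℂ}
    (hx : x ∈ convexHull ℝ s) : kact L x ∈ convexHull ℝ (kact L '' s) := by
  have hc : Convex ℝ {x : ℂ | x ∈ closedBall (0 : ℂ) 1 ∧
      kact L x ∈ _root_.convexHull ℝ (kact L '' s)} := by
    rw [convex_iff_segment_subset]
    intro p hp q hq y hy
    exact ⟨(convex_closedBall (0 : ℂ) 1).segment_subset hp.1 hq.1 hy,
      (convex_convexHull ℝ _).segment_subset hp.2 hq.2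
        (h.segment (mem_closedBall_zero_iff.1 hp.1) (mem_closedBall_zero_iff.1 hq.1) hy)⟩
  have hsub : s ⊆ {x : ℂ | x ∈ closedBall (0 : ℂ) 1 ∧
      kact L x ∈ _root_.convexHull ℝ (kact L '' s)} := fun p hp =>
    And.intro (hs hp) (subset_convexHull ℝ (kact L '' s) (mem_image_of_mem _ hp))
  exact (convexHull_min hsub hc hx).2

theorem IsLor.dist_lmv (h : IsLor L) (x y : KD) : dist (lmv L h x) (lmv L h y) = dist x y := by
  refine Real.cosh_strictMonoOn.injOn (mem_Ici.2 dist_nonneg) (mem_Ici.2 dist_nonneg) ?_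
  have hx := h.kmu_pos x.lt.le
  have hy := h.kmu_pos y.lt.le
  rw [KD.cosh_dist, KD.cosh_dist x y, ← h.rho_kact x.lt.le y.lt.le, ← h.rho_kact x.lt.le x.lt.le,
    ← h.rho_kact y.lt.le y.lt.le, Real.sqrt_mul (mul_self_nonneg _),
    Real.sqrt_mul (mul_self_nonneg _), Real.sqrt_mul_self hx.le, Real.sqrt_mul_self hy.le,
    mul_mul_mul_comm, mul_div_mul_left _ _ (mul_pos hx hy).ne']
  rfl

theorem IsLor.continuousOn_kact (h : IsLor L) : ContinuousOn (kact L) (closedBall 0 1) := by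
  have h1 : Continuous (kmu L) := by
    unfold kmu
    fun_prop
  have h2 : Continuous fun x : ℂ => (L (1, x)).2 := by fun_prop
  exact (h1.continuousOn.inv₀ fun x hx =>
    (h.kmu_pos (mem_closedBall_zero_iff.1 hx)).ne').smul h2.continuousOn

theorem IsLor.contDiffOn_kact (h : IsLor L) : ContDiffOn ℝ 2 (kact L) (ball 0 1) := by
  have h0 : ContDiff ℝ 2 fun x : ℂ => L (1, x) := L.contDiff.comp (contDiff_const.prodMk contDiff_id)
  exact (h0.fst.contDiffOn.inv fun x hx =>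
    (h.kmu_pos (mem_ball_zero_iff.1 hx).le).ne').smul h0.snd.contDiffOn

theorem IsLor.vis_kact (h : IsLor L) {x a b : ℂ} (hx : ‖x‖ < 1) (ha : ‖a‖ ≤ 1) (hb : ‖b‖ ≤ 1) :
    vis (kact L x) (kact L a) (kact L b) = vis x a b := by
  have h1 := h.kmu_pos hx.le
  have h2 := h.kmu_pos ha
  have h3 := h.kmu_pos hb
  rw [vis, vis, ← h.rho_kact ha hb, ← h.rho_kact hx.le hx.le, ← h.rho_kact hx.le ha,
    ← h.rho_kact hx.le hb, ← mul_div_mul_left _ _ (show kmu L x * kmu L x * kmu L a * kmu L b ≠ 0 by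
      positivity)]
  congr 1 <;> ring

theorem IsLor.bus_kact (h : IsLor L) {x ζ : ℂ} (hx : ‖x‖ < 1) (hζ : ‖ζ‖ ≤ 1) :
    bus (kact L x) (kact L ζ) * kmu L ζ ^ 2 = bus x ζ := by
  have h1 := h.kmu_pos hx.le
  rw [bus, bus, ← h.rho_kact hx.le hζ, ← h.rho_kact hx.le hx.le, div_mul_eq_mul_div,
    ← mul_div_mul_left _ _ (mul_pos h1 h1).ne']
  congr 1
  ring

theorem IsLor.rho_pt (h : IsLor L) (h' : IsLor L') (hi : L'.comp L = ContinuousLinearMap.id ℝ _)
    {y : ℂ} (hy : ‖y‖ ≤ 1) :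
    rho (kact L y) (kact L 0) * rho y (kact L' 0) = rho (kact L 0) (kact L 0) := by
  have h0 : ‖(0 : ℂ)‖ ≤ 1 := by simp
  have key : ∀ z : ℂ, kmu L' 0 * rho z (kact L' 0) = kmu L z := by
    intro z
    have h1 := h'.mink_eq (L (1, z)) (1, 0)
    have h2 : L' (L (1, z)) = (1, z) := DFunLike.congr_fun hi (1, z)
    rw [h2, h'.apply_eq h0] at h1
    simp only [mink, Prod.smul_fst, Prod.smul_snd, smul_eq_mul, Complex.smul_re, Complex.smul_im,
      Complex.zero_re, Complex.zero_im] at h1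
    simp only [rho, kmu.eq_1 L]
    linear_combination h1
  have h1 := key 0
  have h2 := key y
  have h3 := h.rho_kact hy h0
  have h4 := h.rho_kact h0 h0
  rw [rho_zero_left, mul_one] at h1
  rw [rho_comm y 0, rho_zero_left] at h3
  rw [rho_zero_left] at h4
  rw [h1] at h2
  have h5 := h.kmu_pos h0
  apply mul_left_cancel₀ (mul_pos h5 h5).ne'
  rw [h4, ← h3, ← h2]
  ring

end Pool.Agent.P.MP_788ef7_an
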