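import Pool.Agent.P.MP_788ef7_an.Shad

set_option autoImplicit false
set_option linter.unusedSectionVars false

open Set Filter Topology Metric

namespace Pool.Agent.P.MP_788ef7_an

namespace Setting

variable {𝔾 X E : Type*} [Group 𝔾] [MetricSpace X] [MulAction 𝔾 X] [ProperSpace X]
  [NormedAddCommGroup E] [NormedSpace ℝ E] [FiniteDimensional ℝ E] {S : Setting 𝔾 X E}
  {g g' G G' γ c w : 𝔾} {p p' q x y z : X} {C : Subgroup 𝔾} {K : Set X} {R : ℝ}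
  {V U : Type*} [NormedAddCommGroup V] [NormedSpace ℝ V] [FiniteDimensional ℝ V]
  [NormedAddCommGroup U] [NormedSpace ℝ U] [FiniteDimensional ℝ U]
  {N : ℕ} {γ₀ : X → 𝔾} {L : X → (V × U) ≃L[ℝ] E} {κ : X → X → V × U} {τ : X → V × U → X} {ρ r : ℝ}

theorem step_leaf1 (T : 𝔾) (x : X) (k : ℕ) : T • T ^ k • x = T ^ (k + 1) • x := by
  rw [pow_succ', mul_smul]

theorem Atl.orbit_leaf1 (h : S.Atl N γ₀ L κ τ ρ r) (x : X) (k : ℕ) :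
    dist (S.t ^ N • (S.t ^ N) ^ k • x) ((S.t ^ N) ^ (k + 1) • x) ≤ ρ := by
  rw [step_leaf1, dist_self]
  exact h.ρ_pos.le

theorem Atl.cone_leaf1 (h : S.Atl N γ₀ L κ τ ρ r) (hx : x ∈ S.Λ) {a b : X}
    (ha : ∀ k : ℕ, ‖κ ((S.t ^ N) ^ k • x) ((S.t ^ N) ^ k • a)‖ ≤ r)
    (hb : ∀ k : ℕ, ‖κ ((S.t ^ N) ^ k • x) ((S.t ^ N) ^ k • b)‖ ≤ r) (k : ℕ) :
    ‖κ ((S.t ^ N) ^ k • x) ((S.t ^ N) ^ k • a) - κ ((S.t ^ N) ^ k • x) ((S.t ^ N) ^ k • b)‖ =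
      ‖(κ ((S.t ^ N) ^ k • x) ((S.t ^ N) ^ k • a) -
        κ ((S.t ^ N) ^ k • x) ((S.t ^ N) ^ k • b)).1‖ :=
  (h.cone (x := fun k => (S.t ^ N) ^ k • x) (fun _ => S.smul_mem _ x hx) (h.orbit_leaf1 x)
    ha hb k).1

theorem Atl.exists_leaf1 (h : S.Atl N γ₀ L κ τ ρ r) (hx : x ∈ S.Λ) {r' : ℝ} (h0 : 0 < r')
    (hr : r' ≤ r) {a : V} (ha : ‖a‖ ≤ 5 / 8 * r') : ∃ b : U, ‖(a, b)‖ ≤ r' ∧ ∀ k : ℕ,
      ‖κ ((S.t ^ N) ^ k • x) ((S.t ^ N) ^ k • τ x (a, b))‖ ≤ r' := by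
  have hΛ : ∀ k : ℕ, (S.t ^ N) ^ k • x ∈ S.Λ := fun k => S.smul_mem _ x hx
  choose As Au hB hF using fun k : ℕ => h.hyp _ (hΛ k) _ (hΛ (k + 1)) (h.orbit_leaf1 x k)
  have hB0 : Blk (1 / 4) 4 (0 : V →L[ℝ] V) (Au 0) := ⟨fun v => by simp, (hB 0).u2⟩
  let F : ℤ → V × U → V × U := fun k => match k with
    | Int.ofNat n => fun v => κ ((S.t ^ N) ^ (n + 1) • x) (S.t ^ N • τ ((S.t ^ N) ^ n • x) v)
    | Int.negSucc 0 => fun v => (a, Au 0 v.2)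
    | Int.negSucc (_ + 1) => fun v => (0, Au 0 v.2)
  let As' : ℤ → V →L[ℝ] V := fun k => match k with
    | Int.ofNat n => As n
    | Int.negSucc _ => 0
  let Au' : ℤ → U ≃L[ℝ] U := fun k => match k with
    | Int.ofNat n => Au n
    | Int.negSucc _ => Au 0
  obtain ⟨v, v1, v2⟩ := shadow (F := F) (As := As') (Au := Au') (l2 := 1 / 4) (m2 := 4)
    (η := 1 / 8) (r := r') (δ := 5 / 8 * r') (q := 3 / 8)
    (fun k => match k with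
      | Int.ofNat n => hB n
      | Int.negSucc _ => hB0)
    (fun k => match k with
      | Int.ofNat n => fun v w hv hw => by
        have e1 := h.κτ _ (hΛ n) v (hv.trans hr)
        have e2 := h.κτ _ (hΛ n) w (hw.trans hr)
        have := hF n (τ _ v) (τ _ w) (by rw [e1]; exact hv.trans hr)
          (by rw [e2]; exact hw.trans hr)
        rw [e1, e2] at this
        exact this
      | Int.negSucc 0 => fun v w _ _ => by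
        change ‖(a, Au 0 v.2) - (a, Au 0 w.2) - ((0 : V →L[ℝ] V) (v - w).1, Au 0 (v - w).2)‖ ≤ _
        simp
      | Int.negSucc (_ + 1) => fun v w _ _ => by
        change ‖((0 : V), Au 0 v.2) - (0, Au 0 w.2) -
          ((0 : V →L[ℝ] V) (v - w).1, Au 0 (v - w).2)‖ ≤ _
        simp)
    (fun k => match k with
      | Int.ofNat n => by
        change ‖κ ((S.t ^ N) ^ (n + 1) • x) (S.t ^ N • τ ((S.t ^ N) ^ n • x) 0)‖ ≤ _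
        rw [← h.κ_self ((S.t ^ N) ^ n • x), h.τκ, step_leaf1, h.κ_self, norm_zero]
        positivity
      | Int.negSucc 0 => by
        change ‖(a, Au 0 0)‖ ≤ _
        simpa using ha
      | Int.negSucc (_ + 1) => by
        change ‖((0 : V), Au 0 0)‖ ≤ _
        simpa using h0.le)
    (by norm_num) (by norm_num) (by norm_num) (by norm_num) (by norm_num) (by norm_num)
    (by linarith)
  have w3 : (a, (v 0).2) = v 0 := by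
    have e : (a, Au 0 (v (Int.negSucc 0)).2) = v 0 := v2 (Int.negSucc 0)
    rw [← e]
  have z3 : ∀ n : ℕ, (S.t ^ N) ^ n • τ x (v 0) = τ ((S.t ^ N) ^ n • x) (v n) := by
    intro n
    induction n with
    | zero => simp
    | succ n ih =>
      have e : κ ((S.t ^ N) ^ (n + 1) • x) (S.t ^ N • τ ((S.t ^ N) ^ n • x) (v n)) =
        v ((n + 1 : ℕ) : ℤ) := v2 (Int.ofNat n)
      rw [← step_leaf1, ih, ← e, h.τκ]
  refine ⟨(v 0).2, by rw [w3]; exact v1 0, fun k => ?_⟩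
  rw [w3, z3, h.κτ _ (hΛ k) _ ((v1 k).trans hr)]
  exact v1 k

/-- The local stable set is a Lipschitz graph in the chart. -/
theorem Atl.graph (h : S.Atl N γ₀ L κ τ ρ r) (hx : x ∈ S.Λ) {r' : ℝ} (h0 : 0 < r') (hr : r' ≤ r) :
    ∃ r₁ > 0, ∃ φ : V → U, φ 0 = 0 ∧ LipschitzOnWith 1 φ (closedBall 0 r₁) ∧
      (∀ a ∈ closedBall (0 : V) r₁, ‖(a, φ a)‖ ≤ r' ∧ ∀ k : ℕ,
        ‖κ ((S.t ^ N) ^ k • x) ((S.t ^ N) ^ k • τ x (a, φ a))‖ ≤ r') ∧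
      ∀ z, (∀ k : ℕ, ‖κ ((S.t ^ N) ^ k • x) ((S.t ^ N) ^ k • z)‖ ≤ r) → ‖(κ x z).1‖ ≤ r₁ →
        z = τ x ((κ x z).1, φ (κ x z).1) := by
  choose! φ h1 h2 using fun (a : V) (ha : ‖a‖ ≤ 5 / 8 * r') => h.exists_leaf1 hx h0 hr ha
  have cone : ∀ {a b : X}, (∀ k : ℕ, ‖κ ((S.t ^ N) ^ k • x) ((S.t ^ N) ^ k • a)‖ ≤ r) →
      (∀ k : ℕ, ‖κ ((S.t ^ N) ^ k • x) ((S.t ^ N) ^ k • b)‖ ≤ r) →
      ‖κ x a - κ x b‖ = ‖(κ x a - κ x b).1‖ := fun ha hb => by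
    simpa only [pow_zero, one_smul] using h.cone_leaf1 hx ha hb 0
  have h3 : ∀ a : V, ‖a‖ ≤ 5 / 8 * r' → κ x (τ x (a, φ a)) = (a, φ a) := fun a ha =>
    h.κτ x hx _ ((h1 a ha).trans hr)
  have h4 : ∀ a : V, ‖a‖ ≤ 5 / 8 * r' →
      ∀ k : ℕ, ‖κ ((S.t ^ N) ^ k • x) ((S.t ^ N) ^ k • τ x (a, φ a))‖ ≤ r :=
    fun a ha k => (h2 a ha k).trans hr
  refine ⟨5 / 8 * r', by positivity, φ, ?_, ?_,
    fun a ha => ⟨h1 a (mem_closedBall_zero_iff.1 ha), h2 a (mem_closedBall_zero_iff.1 ha)⟩,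
    fun z hz hz' => ?_⟩
  · have h5 : ‖(0 : V)‖ ≤ 5 / 8 * r' := by
      rw [norm_zero]
      positivity
    have := cone (b := x) (h4 0 h5) fun k => by
      rw [h.κ_self, norm_zero]
      exact h.r_pos.le
    rw [h3 0 h5, h.κ_self, sub_zero, norm_zero, norm_eq_zero] at this
    exact congrArg Prod.snd this
  · refine LipschitzOnWith.of_dist_le_mul fun a ha b hb => ?_
    have ha' := mem_closedBall_zero_iff.1 ha
    have hb' := mem_closedBall_zero_iff.1 hb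
    have := cone (h4 a ha') (h4 b hb')
    rw [h3 a ha', h3 b hb'] at this
    rw [NNReal.coe_one, one_mul, dist_eq_norm, dist_eq_norm]
    exact (norm_snd_le ((a, φ a) - (b, φ b))).trans this.le
  · have := cone hz (h4 _ hz')
    rw [h3 _ hz', Prod.fst_sub, sub_self, norm_zero, norm_eq_zero, sub_eq_zero] at this
    rw [← this, h.τκ]

theorem lin_leaf1 {Q : E →L[ℝ] E} {L : (V × U) ≃L[ℝ] E} {c : ℝ} (hc : 0 ≤ c)
    (h1 : ∀ v, ‖L v‖ ≤ c * ‖v‖) (h2 : ∀ w, ‖L.symm w‖ ≤ c * ‖w‖)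
    (hp : ∀ v : V × U, ‖L.symm (Q (L v)) - (0, v.2)‖ ≤ 1 / 8 * ‖v‖) {w : E}
    (hw : ‖L.symm w‖ = ‖(L.symm w).1‖) : ‖Q w‖ ≤ 2 * c ^ 2 * ‖w - Q w‖ := by
  have e1 := hp (L.symm w)
  have e2 := h1 (L.symm (Q w))
  have e3 := h2 (w - Q w)
  rw [L.apply_symm_apply] at e1 e2
  rw [map_sub] at e3
  generalize L.symm w = Δ at *
  generalize L.symm (Q w) = P at *
  have e4 : ‖P‖ ≤ 9 / 8 * ‖Δ‖ := by
    have e5 := norm_le_insert' P ((0 : V), Δ.2)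
    have e6 : ‖((0 : V), Δ.2)‖ ≤ ‖Δ‖ := by simpa using norm_snd_le Δ
    linarith
  have e7 : 7 / 8 * ‖Δ‖ ≤ ‖Δ - P‖ := by
    have e8 := norm_fst_le (Δ - P)
    have e9 := norm_fst_le (P - ((0 : V), Δ.2))
    have e10 := norm_le_insert' Δ.1 P.1
    simp only [Prod.fst_sub, sub_zero] at e8 e9
    linarith
  have e11 : ‖P‖ ≤ 2 * (c * ‖w - Q w‖) := by linarith [norm_nonneg Δ]
  refine e2.trans ((mul_le_mul_of_nonneg_left e11 hc).trans (le_of_eq ?_))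
  ring

theorem est_leaf1 {Q Q' D : E →L[ℝ] E} {θ c ε : ℝ} (hθ : 0 ≤ θ) (hc : 0 ≤ c) {u w : E}
    (hQ : Q' (D u) = D (Q u)) (h1 : ‖Q u‖ ≤ θ * ‖D (Q u)‖) (h2 : ‖D (u - Q u)‖ ≤ θ * ‖u - Q u‖)
    (h3 : ‖Q' w‖ ≤ c * ‖w - Q' w‖) (h4 : ‖w - D u‖ ≤ ε * ‖u‖) :
    ‖Q u‖ ≤ (θ ^ 2 * (c * (1 + ‖Q‖)) + ε * (θ * (c * (1 + ‖Q'‖) + ‖Q'‖))) * ‖u‖ := by
  have e1 : D (Q u) = Q' w - Q' (w - D u) := by rw [map_sub, hQ, sub_sub_cancel]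
  have e2 : w - Q' w = D (u - Q u) + ((w - D u) - Q' (w - D u)) := by
    rw [map_sub, map_sub, hQ]
    abel
  have e3 : ‖Q' (w - D u)‖ ≤ ‖Q'‖ * (ε * ‖u‖) :=
    (Q'.le_opNorm _).trans (mul_le_mul_of_nonneg_left h4 (norm_nonneg _))
  have e4 : ‖u - Q u‖ ≤ (1 + ‖Q‖) * ‖u‖ := by
    have := norm_sub_le u (Q u)
    have := Q.le_opNorm u
    linarith
  have e5 : ‖w - Q' w‖ ≤ θ * ((1 + ‖Q‖) * ‖u‖) + (ε * ‖u‖ + ‖Q'‖ * (ε * ‖u‖)) := by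
    rw [e2]
    refine (norm_add_le _ _).trans (add_le_add (h2.trans (mul_le_mul_of_nonneg_left e4 hθ)) ?_)
    exact (norm_sub_le _ _).trans (add_le_add h4 e3)
  have e6 : ‖D (Q u)‖ ≤ c * (θ * ((1 + ‖Q‖) * ‖u‖) + (ε * ‖u‖ + ‖Q'‖ * (ε * ‖u‖))) +
      ‖Q'‖ * (ε * ‖u‖) := by
    rw [e1]
    exact (norm_sub_le _ _).trans (add_le_add (h3.trans (mul_le_mul_of_nonneg_left e5 hc)) e3)
  refine h1.trans ((mul_le_mul_of_nonneg_left e6 hθ).trans (le_of_eq ?_))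
  ring

/-- Differences of nearby points of a local stable set are almost stable vectors. -/
theorem Atl.tangent (h : S.Atl N γ₀ L κ τ ρ r) (hx : x ∈ S.Λ)
    (hy : ∀ k : ℕ, ‖κ ((S.t ^ N) ^ k • x) ((S.t ^ N) ^ k • y)‖ ≤ r) {η : ℝ} (hη : 0 < η) :
    ∀ᶠ z in 𝓝 y, (∀ k : ℕ, ‖κ ((S.t ^ N) ^ k • x) ((S.t ^ N) ^ k • z)‖ ≤ r) →
      ‖S.Q (γ₀ x • y) (S.e (γ₀ x • z) - S.e (γ₀ x • y))‖ ≤
        η * ‖S.e (γ₀ x • z) - S.e (γ₀ x • y)‖ := by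
  obtain ⟨K, hK, hcpt⟩ := h.cpt
  obtain ⟨c, hc⟩ := h.bdd
  obtain ⟨C₀, hC⟩ := S.rate K hK
  have hΛ : ∀ k : ℕ, (S.t ^ N) ^ k • x ∈ S.Λ := fun k => S.smul_mem _ x hx
  have hl : S.lam ^ N < 1 := pow_lt_one₀ S.lam_pos.le S.lam_lt (by have := h.N_pos; omega)
  have lim : Tendsto (fun k : ℕ => (|C₀| * (S.lam ^ N) ^ k) ^ 2 *
      (2 * |c| ^ 2 * (1 + ‖S.Q (γ₀ x • y)‖))) atTop
      (𝓝 ((|C₀| * 0) ^ 2 * (2 * |c| ^ 2 * (1 + ‖S.Q (γ₀ x • y)‖)))) :=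
    (((tendsto_pow_atTop_nhds_zero_of_lt_one (pow_nonneg S.lam_pos.le N) hl).const_mul _).pow
      2).mul_const _
  rw [mul_zero, zero_pow two_ne_zero, zero_mul] at lim
  obtain ⟨k, hk⟩ := (lim.eventually (gt_mem_nhds (half_pos hη))).exists
  rw [← pow_mul] at hk
  obtain ⟨θ, hθ⟩ : ∃ θ, θ = |C₀| * S.lam ^ (N * k) := ⟨_, rfl⟩
  rw [← hθ] at hk
  have hlam : 0 ≤ S.lam ^ (N * k) := pow_nonneg S.lam_pos.le _
  have hθ0 : 0 ≤ θ := by rw [hθ]; positivity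
  have hθ1 : C₀ * S.lam ^ (N * k) ≤ θ := by
    rw [hθ]
    exact mul_le_mul_of_nonneg_right (le_abs_self _) hlam
  obtain ⟨g, hg⟩ : ∃ g, g = γ₀ ((S.t ^ N) ^ k • x) * (S.t ^ N) ^ k * (γ₀ x)⁻¹ := ⟨_, rfl⟩
  have hg1 : S.ht g = (N * k : ℕ) := by
    rw [hg, S.ht_mul, S.ht_mul, S.ht_inv, h.ht0, h.ht0, S.ht_pow, S.ht_pow, S.ht_t]
    push_cast
    ring
  have hg2 : ∀ a : X, g • γ₀ x • a = γ₀ ((S.t ^ N) ^ k • x) • (S.t ^ N) ^ k • a := fun a => by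
    rw [hg, mul_smul, mul_smul, inv_smul_smul]
  have hy0 : γ₀ x • y ∈ K := hcpt x hx y (by simpa only [pow_zero, one_smul] using hy 0)
  have hyk : g • γ₀ x • y ∈ K := by
    rw [hg2]
    exact hcpt _ (hΛ k) _ (hy k)
  obtain ⟨M, hM⟩ : ∃ M, M = θ * (2 * |c| ^ 2 * (1 + ‖S.Q (g • γ₀ x • y)‖) +
    ‖S.Q (g • γ₀ x • y)‖) := ⟨_, rfl⟩
  have hM0 : 0 ≤ M := by rw [hM]; positivity
  have hε : 0 < η / 2 / (M + 1) := by positivity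
  have hε' : η / 2 / (M + 1) * M ≤ η / 2 := by
    rw [div_mul_eq_mul_div, div_le_iff₀ (by positivity)]
    nlinarith
  have ht : Tendsto (fun z : X => S.e (γ₀ x • z)) (𝓝 y) (𝓝 (S.e (γ₀ x • y))) :=
    (S.emb.continuous.comp (S.cont_smul (γ₀ x))).tendsto y
  filter_upwards [ht.eventually ((S.hasFDerivAt_A g (γ₀ x • y)).isLittleO.bound hε)] with z hz hz'
  rw [S.A_e, S.A_e] at hz
  have hw : (L ((S.t ^ N) ^ k • x)).symm (S.e (g • γ₀ x • z) - S.e (g • γ₀ x • y)) =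
      κ ((S.t ^ N) ^ k • x) ((S.t ^ N) ^ k • z) - κ ((S.t ^ N) ^ k • x) ((S.t ^ N) ^ k • y) := by
    rw [h.eq, h.eq, ← map_sub, sub_sub_sub_cancel_right, hg2, hg2]
  have h3 := lin_leaf1 (Q := S.Q (g • γ₀ x • y)) (L := L ((S.t ^ N) ^ k • x)) (abs_nonneg c)
    (fun v => ((hc _ (hΛ k)).1 v).trans (mul_le_mul_of_nonneg_right (le_abs_self c)
      (norm_nonneg _)))
    (fun v => ((hc _ (hΛ k)).2 v).trans (mul_le_mul_of_nonneg_right (le_abs_self c)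
      (norm_nonneg _)))
    (by rw [hg2]; exact h.proj _ (hΛ k) _ (hy k))
    (w := S.e (g • γ₀ x • z) - S.e (g • γ₀ x • y))
    (by rw [hw]; exact h.cone_leaf1 hx hz' hy k)
  generalize S.e (γ₀ x • z) - S.e (γ₀ x • y) = u at hz ⊢
  have h1 : ‖S.Q (γ₀ x • y) u‖ ≤ θ * ‖S.D g (γ₀ x • y) (S.Q (γ₀ x • y) u)‖ := by
    have e := hC g⁻¹ (N * k) _ hyk (by rwa [inv_smul_smul]) (S.D g (γ₀ x • y) (S.Q (γ₀ x • y) u))
      (Or.inr ⟨by rw [S.ht_inv, hg1], by rw [S.Q_D, S.idem]⟩)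
    have e' : ‖S.D g⁻¹ (g • γ₀ x • y) (S.D g (γ₀ x • y) (S.Q (γ₀ x • y) u))‖ ≤ _ := e
    rw [S.D_inv_apply] at e'
    exact e'.trans (mul_le_mul_of_nonneg_right hθ1 (norm_nonneg _))
  have h2 : ‖S.D g (γ₀ x • y) (u - S.Q (γ₀ x • y) u)‖ ≤ θ * ‖u - S.Q (γ₀ x • y) u‖ :=
    (hC g (N * k) _ hy0 hyk _ (Or.inl ⟨hg1, by rw [map_sub, S.idem, sub_self]⟩)).trans
      (mul_le_mul_of_nonneg_right hθ1 (norm_nonneg _))
  refine (est_leaf1 hθ0 (by positivity) (S.Q_D g _ u) h1 h2 h3 hz).trans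
    (mul_le_mul_of_nonneg_right ?_ (norm_nonneg _))
  rw [← hM]
  linarith

end Setting

end Pool.Agent.P.MP_788ef7_an
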