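import Pool.Agent.P.MP_788ef7_an.Orient1

set_option autoImplicit false
set_option linter.unusedSectionVars false

open Set Filter Topology Metric

namespace Pool.Agent.P.MP_788ef7_an

variable {E : Type*} [NormedAddCommGroup E] [NormedSpace ℝ E] [FiniteDimensional ℝ E]
  {U : Type*} [NormedAddCommGroup U] [NormedSpace ℝ U] [FiniteDimensional ℝ U]
  {X : Type*} [TopologicalSpace X]

theorem iff_const_orient {α : Type*} [TopologicalSpace α] {T : Set α} (hT : IsPreconnected T)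
    (P : α → Prop) (h : ∀ x ∈ T, ∀ᶠ y in 𝓝[T] x, (P y ↔ P x)) {x y : α} (hx : x ∈ T)
    (hy : y ∈ T) : P x ↔ P y :=
  hT.induction₂ (fun a b => P a ↔ P b) (fun a ha => (h a ha).mono fun _ hb => hb.symm)
    (fun _ _ _ _ _ _ h1 h2 => h1.trans h2) (fun _ _ _ _ h1 => h1.symm) hx hy

theorem pos_iff_ev_orient {α : Type*} {l : Filter α} {f : α → ℝ} {a : ℝ} (hf : Tendsto f l (𝓝 a))
    (ha : a ≠ 0) : ∀ᶠ y in l, (0 < f y ↔ 0 < a) := by
  rcases lt_or_gt_of_ne ha with h | h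
  · filter_upwards [hf.eventually (gt_mem_nhds h)] with y hy
    exact ⟨fun h' => absurd h' (not_lt.2 hy.le), fun h' => absurd h' (not_lt.2 h.le)⟩
  · filter_upwards [hf.eventually (lt_mem_nhds h)] with y hy
    exact ⟨fun _ => h, fun _ => hy⟩

theorem det_comp_orient (A B : U →L[ℝ] U) : (A.comp B).det = A.det * B.det :=
  LinearMap.det_comp (A : U →ₗ[ℝ] U) (B : U →ₗ[ℝ] U)

theorem pos_mul_iff_orient {a b : ℝ} (ha : a ≠ 0) (hb : b ≠ 0) :
    0 < a * b ↔ (0 < a ↔ 0 < b) := by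
  rcases lt_or_gt_of_ne ha with h | h <;> rcases lt_or_gt_of_ne hb with h' | h'
  · exact ⟨fun _ => ⟨fun e => absurd e (not_lt.2 h.le), fun e => absurd e (not_lt.2 h'.le)⟩,
      fun _ => mul_pos_of_neg_of_neg h h'⟩
  · exact ⟨fun e => absurd e (not_lt.2 (mul_neg_of_neg_of_pos h h').le),
      fun e => absurd (e.2 h') (not_lt.2 h.le)⟩
  · exact ⟨fun e => absurd e (not_lt.2 (mul_neg_of_pos_of_neg h h').le),
      fun e => absurd (e.1 h) (not_lt.2 h'.le)⟩
  · exact ⟨fun _ => ⟨fun _ => h', fun _ => h⟩, fun _ => mul_pos h h'⟩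

theorem IsFrame.map_orient {Q Q' T : E →L[ℝ] E} {A : U →L[ℝ] E} (h : IsFrame Q A) (hT : IsUnit T)
    (hc : T.comp Q = Q'.comp T) : IsFrame Q' (T.comp A) := by
  have hb : Function.Bijective T := ContinuousLinearMap.isUnit_iff_bijective.1 hT
  refine ⟨hb.1.comp h.1, ?_⟩
  have e1 : range (T.comp A) = T '' range A := range_comp T A
  have e2 : range (T.comp Q) = T '' range Q := range_comp T Q
  have e3 : range (Q'.comp T) = range Q' := hb.2.range_comp Q'
  rw [e1, h.2, ← e2, hc, e3]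

theorem IsFrame.left_orient {Q : E →L[ℝ] E} {A₀ A : U →L[ℝ] E} {L : E →L[ℝ] U}
    (h₀ : IsFrame Q A₀) (hL : L.comp A₀ = ContinuousLinearMap.id ℝ U) (h : IsFrame Q A) :
    (L.comp A).det ≠ 0 ∧ A₀.comp (L.comp A) = A := by
  obtain ⟨B, hB, rfl⟩ := h₀.exists_comp h
  rw [← ContinuousLinearMap.comp_assoc, hL, ContinuousLinearMap.id_comp]
  exact ⟨hB, rfl⟩

/-- A transport over `K`. -/
def TrOrient (Q : E → E →L[ℝ] E) (c : E) (K : Set E) (T : E → E →L[ℝ] E) : Prop :=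
  ContinuousOn T K ∧ T c = 1 ∧ ∀ x ∈ K, IsUnit (T x) ∧ (T x).comp (Q x) = (Q c).comp (T x)

theorem TrOrient.mono {Q : E → E →L[ℝ] E} {c : E} {K K' : Set E} {T : E → E →L[ℝ] E}
    (h : TrOrient Q c K T) (hK : K' ⊆ K) : TrOrient Q c K' T :=
  ⟨h.1.mono hK, h.2.1, fun x hx => h.2.2 x (hK hx)⟩

theorem TrOrient.indep {Q : E → E →L[ℝ] E} {c y : E} {T T' : E → E →L[ℝ] E}
    (h : TrOrient Q c (segment ℝ c y) T) (h' : TrOrient Q c (segment ℝ c y) T')
    {A₀ A : U →L[ℝ] E} {L : E →L[ℝ] U} (h₀ : IsFrame (Q c) A₀)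
    (hL : L.comp A₀ = ContinuousLinearMap.id ℝ U) (hA : IsFrame (Q y) A) :
    0 < (L.comp ((T y).comp A)).det ↔ 0 < (L.comp ((T' y).comp A)).det := by
  have hfr : ∀ x ∈ segment ℝ c y, IsFrame (Q x) ((Ring.inverse (T x)).comp A₀) := by
    intro x hx
    obtain ⟨hu, hc⟩ := h.2.2 x hx
    refine h₀.map_orient (isUnit_ringInverse.2 hu) ?_
    have e : T x * Q x = Q c * T x := hc
    show Ring.inverse (T x) * Q c = Q x * Ring.inverse (T x)
    calc Ring.inverse (T x) * Q c = Ring.inverse (T x) * (Q c * T x) * Ring.inverse (T x) := by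
          rw [mul_assoc, mul_assoc, Ring.mul_inverse_cancel _ hu, mul_one]
      _ = Q x * Ring.inverse (T x) := by
          rw [← e, ← mul_assoc, Ring.inverse_mul_cancel _ hu, one_mul]
  let M : E → U →L[ℝ] U := fun x => L.comp ((T' x).comp ((Ring.inverse (T x)).comp A₀))
  have hM : ∀ x ∈ segment ℝ c y, (M x).det ≠ 0 := fun x hx =>
    (h₀.left_orient hL ((hfr x hx).map_orient (h'.2.2 x hx).1 (h'.2.2 x hx).2)).1
  have hinv : ContinuousOn (fun x => Ring.inverse (T x)) (segment ℝ c y) := by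
    intro x hx
    obtain ⟨u, hu⟩ := (h.2.2 x hx).1
    have := NormedRing.inverse_continuousAt u
    rw [hu] at this
    exact this.comp_continuousWithinAt (h.1 x hx)
  have hMc : ContinuousOn (fun x => (M x).det) (segment ℝ c y) :=
    ContinuousLinearMap.continuous_det.comp_continuousOn
      (continuousOn_const.clm_comp (h'.1.clm_comp (hinv.clm_comp continuousOn_const)))
  have hcy : (0 < (M c).det) ↔ 0 < (M y).det :=
    iff_const_orient (convex_segment c y).isPreconnected (fun x => 0 < (M x).det)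
      (fun x hx => pos_iff_ev_orient (hMc x hx) (hM x hx)) (left_mem_segment ℝ c y)
      (right_mem_segment ℝ c y)
  have hc1 : M c = ContinuousLinearMap.id ℝ U := by
    show L.comp ((T' c).comp ((Ring.inverse (T c)).comp A₀)) = _
    rw [h.2.1, h'.2.1, Ring.inverse_one, ← hL]
    rfl
  have hpos : 0 < (M y).det := by
    refine hcy.1 ?_
    rw [hc1]
    have : (ContinuousLinearMap.id ℝ U).det = 1 := LinearMap.det_id
    rw [this]
    exact one_pos
  obtain ⟨hu, hc⟩ := h.2.2 y (right_mem_segment ℝ c y)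
  obtain ⟨hne, he⟩ := h₀.left_orient hL (hA.map_orient hu hc)
  have e : L.comp ((T' y).comp A) = (M y).comp (L.comp ((T y).comp A)) := by
    show _ = (L.comp ((T' y).comp ((Ring.inverse (T y)).comp A₀))).comp _
    rw [ContinuousLinearMap.comp_assoc, ContinuousLinearMap.comp_assoc,
      ContinuousLinearMap.comp_assoc, he, ← ContinuousLinearMap.comp_assoc _ (T y)]
    have : (Ring.inverse (T y)).comp (T y) = 1 := Ring.inverse_mul_cancel _ hu
    rw [this]
    rfl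
  rw [e, det_comp_orient]
  exact (mul_pos_iff_of_pos_left hpos).symm

/-- An orientation over the set `W`. -/
structure OrientOn (W : Set X) (Q : X → E →L[ℝ] E) (o : X → (U →L[ℝ] E) → Prop) : Prop where
  comp : ∀ z ∈ W, ∀ A (B : U →L[ℝ] U), IsFrame (Q z) A → B.det ≠ 0 →
    (o z (A.comp B) ↔ (o z A ↔ 0 < B.det))
  loc : ∀ z ∈ W, ∀ A, IsFrame (Q z) A →
    ∀ᶠ p : X × (U →L[ℝ] E) in 𝓝 (z, A), IsFrame (Q p.1) p.2 → (o p.1 p.2 ↔ o z A)

theorem isCompact_segment_orient (c y : E) : IsCompact (segment ℝ c y) := by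
  rw [segment_eq_image]
  exact isCompact_Icc.image (by fun_prop)

theorem exists_orientOn_star {W : Set E} (hW : IsOpen W) {c : E} (_hc : c ∈ W)
    (hs : StarConvex ℝ c W) {Q : E → E →L[ℝ] E} (hQ : ContinuousOn Q W)
    (hi : ∀ x ∈ W, ∀ v, Q x (Q x v) = Q x v)
    (hr : Module.finrank ℝ (LinearMap.range (Q c : E →ₗ[ℝ] E)) = Module.finrank ℝ U) :
    ∃ o : E → (U →L[ℝ] E) → Prop, OrientOn W Q o := by
  obtain ⟨A₀, h₀⟩ := exists_frame hr
  obtain ⟨L', hL'⟩ := (A₀ : U →ₗ[ℝ] E).exists_leftInverse_of_injective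
    (LinearMap.ker_eq_bot.2 h₀.1)
  let L : E →L[ℝ] U := LinearMap.toContinuousLinearMap L'
  have hL : L.comp A₀ = ContinuousLinearMap.id ℝ U := by
    ext v
    exact LinearMap.congr_fun hL' v
  let o : E → (U →L[ℝ] E) → Prop := fun y A =>
    ∃ T, TrOrient Q c (segment ℝ c y) T ∧ 0 < (L.comp ((T y).comp A)).det
  have ho : ∀ y T A, TrOrient Q c (segment ℝ c y) T → IsFrame (Q y) A →
      (o y A ↔ 0 < (L.comp ((T y).comp A)).det) := fun y T A hT hA =>
    ⟨fun ⟨T', hT', hp⟩ => (hT'.indep hT h₀ hL hA).1 hp, fun hp => ⟨T, hT, hp⟩⟩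
  refine ⟨o, fun z hz A B hA hB => ?_, fun z hz A hA => ?_⟩
  · have hsub := hs.segment_subset hz
    obtain ⟨T, hT⟩ : ∃ T, TrOrient Q c (segment ℝ c z) T :=
      exists_transport (isCompact_segment_orient c z)
        ((convex_segment c z).starConvex (left_mem_segment ℝ c z)) (left_mem_segment ℝ c z)
        (hQ.mono hsub) fun x hx => hi x (hsub hx)
    have hAB : IsFrame (Q z) (A.comp B) := by
      have hb : Function.Bijective B :=
        (LinearMap.isUnit_iff_ker_eq_bot (B : U →ₗ[ℝ] U)).1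
          ((LinearMap.isUnit_iff_isUnit_det _).2 (Ne.isUnit hB)) |> fun k =>
          ⟨LinearMap.ker_eq_bot.1 k, LinearMap.injective_iff_surjective.1 (LinearMap.ker_eq_bot.1 k)⟩
      refine ⟨hA.1.comp hb.1, ?_⟩
      rw [← hA.2]
      exact hb.2.range_comp A
    obtain ⟨hu, hcm⟩ := hT.2.2 z (right_mem_segment ℝ c z)
    rw [ho z T _ hT hAB, ho z T _ hT hA, ← ContinuousLinearMap.comp_assoc (T z),
      ← ContinuousLinearMap.comp_assoc L, det_comp_orient]
    exact pos_mul_iff_orient (h₀.left_orient hL (hA.map_orient hu hcm)).1 hB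
  · obtain ⟨r, hr0, hrW⟩ := nhds_basis_closedBall.mem_iff.1 (hW.mem_nhds hz)
    let K : Set E := (fun p : ℝ × E => (1 - p.1) • c + p.1 • p.2) '' (Icc 0 1 ×ˢ closedBall z r)
    have hK : IsCompact K := (isCompact_Icc.prod (isCompact_closedBall z r)).image (by fun_prop)
    have hseg : ∀ y ∈ closedBall z r, segment ℝ c y ⊆ K := by
      intro y hy
      rw [segment_eq_image]
      rintro _ ⟨s, hs', rfl⟩
      exact ⟨(s, y), ⟨hs', hy⟩, rfl⟩
    have hmem : ∀ x ∈ K, ∃ y ∈ closedBall z r, x ∈ segment ℝ c y := by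
      rintro _ ⟨⟨s, y⟩, ⟨hs', hy⟩, rfl⟩
      refine ⟨y, hy, ?_⟩
      rw [segment_eq_image]
      exact ⟨s, hs', rfl⟩
    have hKW : K ⊆ W := fun x hx => by
      obtain ⟨y, hy, hxy⟩ := hmem x hx
      exact hs.segment_subset (hrW hy) hxy
    have hst : StarConvex ℝ c K := by
      rw [starConvex_iff_segment_subset]
      intro x hx
      obtain ⟨y, hy, hxy⟩ := hmem x hx
      exact ((convex_segment c y).segment_subset (left_mem_segment ℝ c y) hxy).trans (hseg y hy)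
    have hzr : z ∈ closedBall z r := mem_closedBall_self hr0.le
    obtain ⟨T, hT⟩ : ∃ T, TrOrient Q c K T :=
      exists_transport hK hst (hseg z hzr (left_mem_segment ℝ c z)) (hQ.mono hKW)
        fun x hx => hi x (hKW hx)
    have hKn : K ∈ 𝓝 z := mem_of_superset (closedBall_mem_nhds z hr0) fun y hy =>
      hseg y hy (right_mem_segment ℝ c y)
    have hTz : ContinuousAt T z := hT.1.continuousAt hKn
    have hcont : ContinuousAt (fun p : E × (U →L[ℝ] E) => (L.comp ((T p.1).comp p.2)).det)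
        (z, A) :=
      ContinuousLinearMap.continuous_det.continuousAt.comp
        (continuousAt_const.clm_comp ((ContinuousAt.comp (f := Prod.fst) hTz
          continuousAt_fst).clm_comp continuousAt_snd))
    obtain ⟨hu, hcm⟩ := hT.2.2 z (mem_of_mem_nhds hKn)
    have hev := pos_iff_ev_orient hcont (h₀.left_orient hL (hA.map_orient hu hcm)).1
    have hb : ∀ᶠ p : E × (U →L[ℝ] E) in 𝓝 (z, A), p.1 ∈ closedBall z r :=
      continuousAt_fst.eventually (closedBall_mem_nhds z hr0)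
    filter_upwards [hev, hb] with p hp hpb hf
    rw [ho p.1 T p.2 (hT.mono (hseg _ hpb)) hf, ho z T A (hT.mono (hseg _ hzr)) hA]
    exact hp

theorem OrientOn.not {W : Set X} {Q : X → E →L[ℝ] E} {o : X → (U →L[ℝ] E) → Prop}
    (h : OrientOn W Q o) : OrientOn W Q fun x A => ¬ o x A :=
  ⟨fun z hz A B hA hB => by have := h.comp z hz A B hA hB; tauto,
    fun z hz A hA => (h.loc z hz A hA).mono fun p hp hf => not_congr (hp hf)⟩

theorem OrientOn.glue {W₁ W₂ : Set X} (h₁ : IsOpen W₁) (h₂ : IsOpen W₂) (hU : W₁ ∪ W₂ = univ)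
    {Q : X → E →L[ℝ] E} {o₁ o₂ : X → (U →L[ℝ] E) → Prop} (ho₁ : OrientOn W₁ Q o₁)
    (ho₂ : OrientOn W₂ Q o₂)
    (h : ∀ x ∈ W₁ ∩ W₂, ∀ A, IsFrame (Q x) A → (o₁ x A ↔ o₂ x A)) :
    ∃ o : X → (U →L[ℝ] E) → Prop, Orient Q o := by
  let o : X → (U →L[ℝ] E) → Prop := fun x A => (x ∈ W₁ ∧ o₁ x A) ∨ (x ∉ W₁ ∧ o₂ x A)
  have e₁ : ∀ x ∈ W₁, ∀ A, o x A ↔ o₁ x A := fun x hx A => by simp only [o]; tauto
  have e₂ : ∀ x ∉ W₁, ∀ A, o x A ↔ o₂ x A := fun x hx A => by simp only [o]; tauto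
  have m₂ : ∀ x ∉ W₁, x ∈ W₂ := fun x hx => ((hU.symm ▸ mem_univ x : x ∈ W₁ ∪ W₂)).resolve_left hx
  refine ⟨o, fun z A B hA hB => ?_, fun z A hA => ?_⟩
  · by_cases hz : z ∈ W₁
    · rw [e₁ z hz, e₁ z hz]
      exact ho₁.comp z hz A B hA hB
    · rw [e₂ z hz, e₂ z hz]
      exact ho₂.comp z (m₂ z hz) A B hA hB
  · by_cases hz : z ∈ W₁
    · have hb : ∀ᶠ p : X × (U →L[ℝ] E) in 𝓝 (z, A), p.1 ∈ W₁ :=
        continuousAt_fst.eventually (h₁.mem_nhds hz)
      filter_upwards [hb, ho₁.loc z hz A hA] with p hp hl hf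
      rw [e₁ _ hp, e₁ _ hz]
      exact hl hf
    · have hb : ∀ᶠ p : X × (U →L[ℝ] E) in 𝓝 (z, A), p.1 ∈ W₂ :=
        continuousAt_fst.eventually (h₂.mem_nhds (m₂ z hz))
      filter_upwards [hb, ho₂.loc z (m₂ z hz) A hA] with p hp hl hf
      rw [e₂ _ hz, ← hl hf]
      by_cases hp1 : p.1 ∈ W₁
      · rw [e₁ _ hp1]
        exact h _ ⟨hp1, hp⟩ _ hf
      · exact e₂ _ hp1 _

theorem exists_orientOn_pull {e : X → E} (he : IsOpenEmbedding e) {W : Set E} (hW : IsOpen W)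
    {c : E} (hc : c ∈ W) (hs : StarConvex ℝ c W) (hWe : W ⊆ range e)
    {Q : X → E →L[ℝ] E} (hQ : Continuous Q) (hi : ∀ x v, Q x (Q x v) = Q x v)
    (hr : ∀ x, Module.finrank ℝ (LinearMap.range (Q x : E →ₗ[ℝ] E)) = Module.finrank ℝ U) :
    ∃ o : X → (U →L[ℝ] E) → Prop, OrientOn (e ⁻¹' W) Q o := by
  obtain ⟨x₀, -⟩ := hWe hc
  have : Nonempty X := ⟨x₀⟩
  let φ := he.toOpenPartialHomeomorph e
  have hl : ∀ x, φ.symm (e x) = x := fun x => φ.left_inv (mem_univ x)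
  have hφ : ContinuousOn φ.symm W := φ.continuousOn_symm.mono (by
    rw [he.toOpenPartialHomeomorph_target]; exact hWe)
  obtain ⟨o, ho⟩ := exists_orientOn_star (U := U) hW hc hs (Q := fun y => Q (φ.symm y))
    (hQ.comp_continuousOn hφ) (fun x _ v => hi _ v) (hr _)
  refine ⟨fun x A => o (e x) A, fun z hz A B hA hB => ho.comp _ hz A B (by rwa [hl]) hB,
    fun z hz A hA => ?_⟩
  have ht : Tendsto (fun p : X × (U →L[ℝ] E) => (e p.1, p.2)) (𝓝 (z, A)) (𝓝 (e z, A)) :=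
    ((he.continuous.comp continuous_fst).prodMk continuous_snd).tendsto (z, A)
  filter_upwards [ht.eventually (ho.loc _ hz A (by rwa [hl]))] with p hp hf
  exact hp (by rwa [hl])

theorem exists_orient {e : X → E} (he : IsOpenEmbedding e) (hs : TwoStar (range e))
    {Q : X → E →L[ℝ] E} (hQ : Continuous Q) (hi : ∀ x v, Q x (Q x v) = Q x v)
    (hr : ∀ x, Module.finrank ℝ (LinearMap.range (Q x : E →ₗ[ℝ] E)) = Module.finrank ℝ U) :
    ∃ o : X → (U →L[ℝ] E) → Prop, Orient Q o := by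
  obtain ⟨W₁, W₂, c₁, c₂, o1, o2, m1, m2, s1, s2, hU, hc⟩ := hs
  have u1 : W₁ ⊆ range e := hU ▸ subset_union_left
  have u2 : W₂ ⊆ range e := hU ▸ subset_union_right
  obtain ⟨o₁, ho₁⟩ := exists_orientOn_pull he o1 m1 s1 u1 hQ hi hr
  obtain ⟨o₂, ho₂⟩ := exists_orientOn_pull he o2 m2 s2 u2 hQ hi hr
  have hU' : e ⁻¹' W₁ ∪ e ⁻¹' W₂ = univ := by rw [← preimage_union, hU, preimage_range]
  have hp : IsPreconnected (e ⁻¹' W₁ ∩ e ⁻¹' W₂) := by
    rw [← he.isInducing.isPreconnected_image, ← preimage_inter,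
      image_preimage_eq_of_subset (inter_subset_left.trans u1)]
    exact hc.isPreconnected
  let P : X → Prop := fun x => ∀ A, IsFrame (Q x) A → (o₁ x A ↔ o₂ x A)
  have hP : ∀ x ∈ e ⁻¹' W₁ ∩ e ⁻¹' W₂, ∀ A, IsFrame (Q x) A → (P x ↔ (o₁ x A ↔ o₂ x A)) := by
    intro x hx A hA
    refine ⟨fun h => h A hA, fun h A' hA' => ?_⟩
    obtain ⟨B, hB, rfl⟩ := hA.exists_comp hA'
    rw [ho₁.comp x hx.1 A B hA hB, ho₂.comp x hx.2 A B hA hB, h]
  have hloc : ∀ x ∈ e ⁻¹' W₁ ∩ e ⁻¹' W₂, ∀ᶠ y in 𝓝[e ⁻¹' W₁ ∩ e ⁻¹' W₂] x, (P y ↔ P x) := by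
    intro x hx
    obtain ⟨A, hA⟩ := exists_frame (hr x)
    have hQA : (Q x).comp A = A := by
      ext v
      obtain ⟨w, hw⟩ : A v ∈ range (Q x) := hA.2 ▸ mem_range_self v
      show Q x (A v) = A v
      rw [← hw, hi]
    have ht : Tendsto (fun y => (y, (Q y).comp A)) (𝓝 x) (𝓝 (x, A)) := by
      have := (continuous_id.prodMk (hQ.clm_comp (continuous_const (y := A)))).tendsto x
      simpa only [id, hQA] using this
    filter_upwards [nhdsWithin_le_nhds (hA.eventually hQ hi),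
      nhdsWithin_le_nhds (ht.eventually (ho₁.loc x hx.1 A hA)),
      nhdsWithin_le_nhds (ht.eventually (ho₂.loc x hx.2 A hA)), self_mem_nhdsWithin]
      with y hf h1 h2 hy
    rw [hP y hy _ hf, hP x hx A hA, h1 hf, h2 hf]
  by_cases hall : ∀ x ∈ e ⁻¹' W₁ ∩ e ⁻¹' W₂, P x
  · exact ho₁.glue (o1.preimage he.continuous) (o2.preimage he.continuous) hU' ho₂ hall
  · push Not at hall
    obtain ⟨x, hx, hnx⟩ := hall
    refine ho₁.glue (o1.preimage he.continuous) (o2.preimage he.continuous) hU' ho₂.not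
      fun y hy A hA => ?_
    have := (iff_const_orient hp P hloc hy hx).not.2 hnx
    rw [hP y hy A hA] at this
    tauto

theorem TwoStar.preconnectedSpace {e : X → E} (he : IsOpenEmbedding e) (hs : TwoStar (range e)) :
    PreconnectedSpace X := by
  obtain ⟨W₁, W₂, c₁, c₂, -, -, m1, m2, s1, s2, hU, hc⟩ := hs
  obtain ⟨x, hx1, hx2⟩ := hc.nonempty
  have := IsPreconnected.union x hx1 hx2 (s1.isPathConnected m1).isConnected.isPreconnected
    (s2.isPathConnected m2).isConnected.isPreconnected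
  rw [hU, ← image_univ, he.isInducing.isPreconnected_image] at this
  exact ⟨this⟩

theorem Orient.const {Q : X → E →L[ℝ] E} {o : X → (U →L[ℝ] E) → Prop} (ho : Orient Q o)
    {α : Type*} [TopologicalSpace α] {T : Set α} (hT : IsPreconnected T) {z : α → X}
    {A : α → U →L[ℝ] E} (hz : ContinuousOn z T) (hA : ContinuousOn A T)
    (hf : ∀ w ∈ T, IsFrame (Q (z w)) (A w)) {w w' : α} (hw : w ∈ T) (hw' : w' ∈ T) :
    o (z w) (A w) ↔ o (z w') (A w') := by
  refine iff_const_orient hT (fun w => o (z w) (A w)) (fun x hx => ?_) hw hw'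
  have ht : Tendsto (fun y => (z y, A y)) (𝓝[T] x) (𝓝 (z x, A x)) := (hz x hx).prodMk (hA x hx)
  filter_upwards [ht.eventually (ho.loc _ _ (hf x hx)), self_mem_nhdsWithin] with y hy hyT
  exact hy (hf y hyT)

end Pool.Agent.P.MP_788ef7_an
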