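import Pool.Agent.P.MP_788ef7_an.CDefs
import Pool.Agent.P.MP_788ef7_an.Orient

set_option autoImplicit false
set_option linter.unusedSectionVars false

open Set Filter Topology Metric

namespace Pool.Agent.P.MP_788ef7_an

open Bundle
open scoped Manifold ContDiff

variable {EM : Type*} [NormedAddCommGroup EM] [NormedSpace ℝ EM] {HM : Type*} [TopologicalSpace HM]
  {I : ModelWithCorners ℝ EM HM} {M : Type*} [TopologicalSpace M] [ChartedSpace HM M]
  {X E W : Type*} [TopologicalSpace X] [NormedAddCommGroup E] [NormedSpace ℝ E]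
  [NormedAddCommGroup W] [NormedSpace ℝ W]

section Aux

variable {e : X → E} {q : E → M} {τ : E → W}

theorem Model.nhds_liftS1 (h : Model I e q τ) (x : X) : range e ∈ 𝓝 (e x) :=
  h.emb.isOpen_range.mem_nhds (mem_range_self x)

theorem Model.cq_liftS1 (h : Model I e q τ) (x : X) : ContMDiffAt 𝓘(ℝ, E) I 1 q (e x) :=
  h.cq.contMDiffAt (h.nhds_liftS1 x)

theorem Model.cτ_liftS1 (h : Model I e q τ) (x : X) : ContDiffAt ℝ 1 τ (e x) :=
  h.cτ.contDiffAt (h.nhds_liftS1 x)

theorem Model.chartMap_liftS1 (h : Model I e q τ) (k : X → X) (x : X) :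
    chartMap e k (e x) = e (k x) := h.emb.injective.extend_apply _ _ x

theorem Model.ev_liftS1 (h : Model I e q τ) {x : X} {p : E → Prop}
    (hp : ∀ᶠ z in 𝓝 x, p (e z)) : ∀ᶠ y in 𝓝 (e x), p y := by
  rw [← h.emb.map_nhds_eq x]
  exact hp

variable [IsManifold I 1 M]

theorem Model.chart_liftS1 (h : Model I e q τ) (m : M) {x : X}
    (hx : q (e x) ∈ (chartAt HM m).source) :
    ContDiffAt ℝ 1 (fun y => extChartAt I m (q y)) (e x) :=
  contMDiffAt_iff_contDiffAt.1 ((contMDiffAt_extChartAt' hx).comp (e x) (h.cq_liftS1 x))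

theorem Model.phi_liftS1 (h : Model I e q τ) (m : M) {x : X}
    (hx : q (e x) ∈ (chartAt HM m).source) :
    ContDiffAt ℝ 1 (fun y => (extChartAt I m (q y), τ y)) (e x) :=
  (h.chart_liftS1 m hx).prodMk (h.cτ_liftS1 x)

theorem Model.dchart_liftS1 (h : Model I e q τ) (m : M) {x : X}
    (hx : q (e x) ∈ (chartAt HM m).source) (v : E) :
    fderiv ℝ (fun y => extChartAt I m (q y)) (e x) v =
      (trivializationAt EM (TangentSpace I) m).continuousLinearMapAt ℝ (q (e x))
        (mfderiv 𝓘(ℝ, E) I q (e x) v) := by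
  have e2 := mfderiv_comp_apply (e x) (mdifferentiableAt_extChartAt hx)
    ((h.cq_liftS1 x).mdifferentiableAt one_ne_zero) v
  rw [mfderiv_eq_fderiv, ← TangentBundle.continuousLinearMapAt_trivializationAt hx] at e2
  exact e2

theorem Model.dphi_liftS1 (h : Model I e q τ) (m : M) {x : X}
    (hx : q (e x) ∈ (chartAt HM m).source) (v : E) :
    fderiv ℝ (fun y => (extChartAt I m (q y), τ y)) (e x) v =
      ((trivializationAt EM (TangentSpace I) m).continuousLinearMapAt ℝ (q (e x))
        (mfderiv 𝓘(ℝ, E) I q (e x) v), fderiv ℝ τ (e x) v) := by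
  rw [((h.chart_liftS1 m hx).differentiableAt one_ne_zero).fderiv_prodMk
    ((h.cτ_liftS1 x).differentiableAt one_ne_zero), ContinuousLinearMap.prod_apply,
    h.dchart_liftS1 m hx]

theorem Model.bij_liftS1 (h : Model I e q τ) (m : M) {x : X}
    (hx : q (e x) ∈ (chartAt HM m).source) :
    Function.Bijective (fderiv ℝ (fun y => (extChartAt I m (q y), τ y)) (e x)) := by
  have hb : q (e x) ∈ (trivializationAt EM (TangentSpace I : M → Type _) m).baseSet := by
    simpa using hx
  have b1 : Function.Bijective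
      ((trivializationAt EM (TangentSpace I : M → Type _) m).continuousLinearMapAt ℝ (q (e x))) :=
    Function.bijective_iff_has_inverse.2
      ⟨(trivializationAt EM (TangentSpace I : M → Type _) m).symmL ℝ (q (e x)),
        fun v => Trivialization.symmL_continuousLinearMapAt _ hb v,
        fun v => Trivialization.continuousLinearMapAt_symmL _ hb v⟩
  have b2 := (b1.prodMap (Function.bijective_id (α := W))).comp (h.bij x)
  have e1 : (fderiv ℝ (fun y => (extChartAt I m (q y), τ y)) (e x) : E → EM × W) = _ :=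
    funext (h.dphi_liftS1 m hx)
  rw [e1]
  exact b2

theorem Model.equiv_liftS1 [FiniteDimensional ℝ E] (h : Model I e q τ) (m : M) {x : X}
    (hx : q (e x) ∈ (chartAt HM m).source) : ∃ L : E ≃L[ℝ] EM × W,
      (L : E →L[ℝ] EM × W) = fderiv ℝ (fun y => (extChartAt I m (q y), τ y)) (e x) :=
  ⟨(LinearEquiv.ofBijective (fderiv ℝ (fun y => (extChartAt I m (q y), τ y)) (e x)).toLinearMap
    (h.bij_liftS1 m hx)).toContinuousLinearEquiv, ContinuousLinearMap.ext fun _ => rfl⟩

end Aux

variable [FiniteDimensional ℝ EM] [FiniteDimensional ℝ E]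
  [FiniteDimensional ℝ W] [I.Boundaryless] [IsManifold I 1 M] {e : X → E} {q : E → M} {τ : E → W}

/-- A continuous map covering a `C¹` map is `C¹`. -/
theorem Model.c1 (h : Model I e q τ) {g : M → M} (hg : ContMDiff I I 1 g) {c : ℝ} {k : X → X}
    (hk : Continuous k) (h₁ : ∀ x, q (e (k x)) = g (q (e x))) (h₂ : ∀ x, τ (e (k x)) = c • τ (e x)) :
    ContDiffOn ℝ 1 (chartMap e k) (range e) := by
  rintro _ ⟨x, rfl⟩
  refine ContDiffAt.contDiffWithinAt ?_
  have : CompleteSpace E := FiniteDimensional.complete ℝ E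
  have hm : q (e (k x)) ∈ (chartAt HM (q (e (k x)))).source := mem_chart_source _ _
  obtain ⟨L, hL⟩ := h.equiv_liftS1 _ hm
  have c1 := h.phi_liftS1 _ hm
  have d1 := (c1.differentiableAt one_ne_zero).hasFDerivAt
  rw [← hL] at d1
  have c2 := c1.to_localInverse d1 one_ne_zero
  have l1 := (c1.hasStrictFDerivAt' d1 one_ne_zero).eventually_left_inverse
  have hm' : g (q (e x)) ∈ (chartAt HM (q (e (k x)))).source := h₁ x ▸ hm
  have c3 : ContDiffAt ℝ 1 (fun y => (extChartAt I (q (e (k x))) (g (q y)), c • τ y)) (e x) :=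
    (contMDiffAt_iff_contDiffAt.1 ((contMDiffAt_extChartAt' hm').comp (e x)
      ((hg _).comp (e x) (h.cq_liftS1 x)))).prodMk ((h.cτ_liftS1 x).const_smul c)
  have e1 : ∀ z, (extChartAt I (q (e (k x))) (q (e (k z))), τ (e (k z))) =
      (extChartAt I (q (e (k x))) (g (q (e z))), c • τ (e z)) := fun z => by rw [h₁ z, h₂ z]
  rw [e1 x] at c2
  refine (c2.comp (e x) c3).congr_of_eventuallyEq (h.ev_liftS1 ?_)
  filter_upwards [((h.emb.continuous.comp hk).tendsto x).eventually l1] with z hz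
  rw [h.chartMap_liftS1, Function.comp_apply, ← e1 z]
  exact hz.symm

theorem Model.fderiv_eq (h : Model I e q τ) {g : M → M} (hg : ContMDiff I I 1 g) {c : ℝ}
    {k : X → X} (hk : Continuous k) (h₁ : ∀ x, q (e (k x)) = g (q (e x)))
    (h₂ : ∀ x, τ (e (k x)) = c • τ (e x)) (x : X) (v : E) :
    (mfderiv 𝓘(ℝ, E) I q (e (k x)) (fderiv ℝ (chartMap e k) (e x) v) : EM) =
        (mfderiv I I g (q (e x)) (mfderiv 𝓘(ℝ, E) I q (e x) v) : EM) ∧
      fderiv ℝ τ (e (k x)) (fderiv ℝ (chartMap e k) (e x) v) = c • fderiv ℝ τ (e x) v := by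
  have d1 : HasFDerivAt (chartMap e k) (fderiv ℝ (chartMap e k) (e x)) (e x) :=
    (((h.c1 hg hk h₁ h₂).contDiffAt (h.nhds_liftS1 x)).differentiableAt one_ne_zero).hasFDerivAt
  have e0 := h.chartMap_liftS1 k x
  constructor
  · have e1 : q ∘ chartMap e k =ᶠ[𝓝 (e x)] g ∘ q := h.ev_liftS1 (Eventually.of_forall fun z => by
      rw [Function.comp_apply, h.chartMap_liftS1, h₁, Function.comp_apply])
    have d2 : HasMFDerivAt 𝓘(ℝ, E) I q (chartMap e k (e x))
        (mfderiv 𝓘(ℝ, E) I q (e (k x)) : E →L[ℝ] EM) := by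
      rw [e0]
      exact ((h.cq_liftS1 (k x)).mdifferentiableAt one_ne_zero).hasMFDerivAt
    have d3 := (d2.comp (e x) d1.hasMFDerivAt).mfderiv
    have d4 := mfderiv_comp (e x) ((hg (q (e x))).mdifferentiableAt one_ne_zero)
      ((h.cq_liftS1 x).mdifferentiableAt one_ne_zero)
    have d5 : (mfderiv 𝓘(ℝ, E) I (q ∘ chartMap e k) (e x) : E →L[ℝ] EM) =
        mfderiv 𝓘(ℝ, E) I (g ∘ q) (e x) := e1.mfderiv_eq
    exact congrArg (fun L : E →L[ℝ] EM => L v) (d3.symm.trans (d5.trans d4))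
  · have e1 : τ ∘ chartMap e k =ᶠ[𝓝 (e x)] fun y => c • τ y :=
      h.ev_liftS1 (Eventually.of_forall fun z => by
        rw [Function.comp_apply, h.chartMap_liftS1, h₂])
    have d2 : HasFDerivAt τ (fderiv ℝ τ (e (k x))) (chartMap e k (e x)) := by
      rw [e0]
      exact ((h.cτ_liftS1 (k x)).differentiableAt one_ne_zero).hasFDerivAt
    have d3 := (d2.comp (e x) d1).fderiv
    have d4 := (((h.cτ_liftS1 x).differentiableAt one_ne_zero).hasFDerivAt.const_smul c).fderiv
    exact congrArg (fun L : E →L[ℝ] W => L v) (d3.symm.trans (e1.fderiv_eq.trans d4))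

end Pool.Agent.P.MP_788ef7_an
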