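import Pool.Agent.P.MP_788ef7_an.NI

set_option autoImplicit false
set_option linter.unusedSectionVars false

open Set Filter Topology Metric

namespace Pool.Agent.P.MP_788ef7_an

namespace Setting

variable {𝔾 X E : Type*} [Group 𝔾] [MetricSpace X] [MulAction 𝔾 X] [ProperSpace X]
  [NormedAddCommGroup E] [NormedSpace ℝ E] [FiniteDimensional ℝ E] {S : Setting 𝔾 X E}
  {g g' G G' γ c w : 𝔾} {p p' q x y z : X} {C : Subgroup 𝔾} {K : Set X} {R : ℝ}
  {𝔊 : Type*} [Group 𝔊] [MulAction 𝔊 Circle] {Φ : Fuchs 𝔊} {pj : 𝔾 →* 𝔊} {pr : X → KD}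
  {set : X → KD → X} {H : Subgroup 𝔊} {a₁ a₂ r₁ r₂ : Circle}
  {Good : 𝔾 → Prop} {F F' : Fam 𝔾 X} {a₁' a₂' r₁' r₂' : Circle}

/-- In dimension at most one a sphere whose points are joined in `B` bounds a disc in `B`. -/
theorem fill_low {n : ℕ} (hn : n ≤ 1) {B : Set X} (hB : B.Nonempty)
    {σ : EuclideanSpace ℝ (Fin n) → X}
    (h : ∀ v ∈ sphere (0 : EuclideanSpace ℝ (Fin n)) 1,
      ∀ v' ∈ sphere (0 : EuclideanSpace ℝ (Fin n)) 1, JoinedIn B (σ v) (σ v')) :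
    ∃ σ₁ : EuclideanSpace ℝ (Fin n) → X, Continuous σ₁ ∧ (∀ v, σ₁ v ∈ B) ∧
      ∀ v ∈ sphere (0 : EuclideanSpace ℝ (Fin n)) 1, σ₁ v = σ v := by
  obtain rfl | rfl : n = 0 ∨ n = 1 := by omega
  · obtain ⟨b, hb⟩ := hB
    refine ⟨fun _ => b, continuous_const, fun _ => hb, fun v hv => ?_⟩
    rw [mem_sphere_zero_iff_norm, Subsingleton.elim v 0, norm_zero] at hv
    exact absurd hv zero_ne_one
  · have hn1 : ∀ v : EuclideanSpace ℝ (Fin 1), ‖v‖ = |v 0| := fun v => by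
      rw [EuclideanSpace.norm_eq, Fin.sum_univ_one, Real.sqrt_sq (norm_nonneg _), Real.norm_eq_abs]
    have hext : ∀ v v' : EuclideanSpace ℝ (Fin 1), v 0 = v' 0 → v = v' := fun v v' e => by
      ext i
      rwa [Subsingleton.elim i 0]
    have hm : ∀ t : ℝ, |t| = 1 →
        EuclideanSpace.single (0 : Fin 1) t ∈ sphere (0 : EuclideanSpace ℝ (Fin 1)) 1 :=
      fun t ht => by
        rw [mem_sphere_zero_iff_norm, hn1]
        simpa using ht
    obtain ⟨π, hπ⟩ := h _ (hm (-1) (by simp)) _ (hm 1 (by simp))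
    refine ⟨fun v => π.extend ((v 0 + 1) / 2), π.continuous_extend.comp (by fun_prop),
      fun v => ?_, fun v hv => ?_⟩
    · have : π.extend ((v 0 + 1) / 2) ∈ range π := π.extend_range ▸ mem_range_self _
      obtain ⟨t, ht⟩ := this
      show π.extend ((v 0 + 1) / 2) ∈ B
      rw [← ht]
      exact hπ t
    · rw [mem_sphere_zero_iff_norm, hn1] at hv
      rcases abs_eq (zero_le_one) |>.1 hv with e | e
      · have e2 : v = EuclideanSpace.single (0 : Fin 1) (1 : ℝ) := hext _ _ (by simpa using e)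
        have e3 : (v 0 + 1) / 2 = 1 := by rw [e]; norm_num
        show π.extend ((v 0 + 1) / 2) = σ v
        rw [e3, π.extend_one, ← e2]
      · have e2 : v = EuclideanSpace.single (0 : Fin 1) (-1 : ℝ) := hext _ _ (by simpa using e)
        have e3 : (v 0 + 1) / 2 = 0 := by rw [e]; norm_num
        show π.extend ((v 0 + 1) / 2) = σ v
        rw [e3, π.extend_zero, ← e2]

theorem Half.path (h : S.Half Φ pj pr set Good F) {P : Set KD} (hP : IsPathConnected P) :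
    IsPathConnected (pr ⁻¹' P) := by
  obtain ⟨ℓ, hℓ, h0, h1, -⟩ := exists_line (S := S) h.conv
  obtain ⟨z₀, -⟩ := S.nonempty
  obtain ⟨x₀, hx₀, hP'⟩ := hP
  refine ⟨set z₀ x₀, by rwa [mem_preimage, h.hf.pr_set], fun {z} hz => ?_⟩
  have j1 : JoinedIn (pr ⁻¹' P) (set z₀ x₀) (set z x₀) := by
    refine JoinedIn.ofLine (f := fun s => set (ℓ s z₀ z) x₀) ?_ (by rw [h0]) (by rw [h1]) ?_
    · have c1 : Continuous fun s : ℝ => (ℓ s z₀ z, x₀) :=
        (hℓ.comp (by fun_prop : Continuous fun s : ℝ => (s, z₀, z))).prodMk continuous_const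
      exact (h.hf.cont.comp c1).continuousOn
    · rintro _ ⟨s, -, rfl⟩
      rwa [mem_preimage, h.hf.pr_set]
  obtain ⟨π, hπ⟩ := hP' hz
  have c2 : Continuous fun x : KD => set z x := h.hf.cont.comp (Continuous.prodMk_right z)
  have j2 : JoinedIn (pr ⁻¹' P) (set z x₀) (set z (pr z)) :=
    ⟨π.map c2, fun t => by
      rw [mem_preimage, Path.map_coe, Function.comp_apply, h.hf.pr_set]
      exact hπ t⟩
  rw [h.hf.set_pr] at j2
  exact j1.trans j2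

theorem line_low (h : S.HF Φ pj pr set) {ψ : ℝ → KD → KD}
    (hψ : Continuous fun p : ℝ × KD => ψ p.1 p.2) (h0 : ∀ x, ψ 0 x = x) {B : Set X}
    (hz : ∀ s, set z (ψ s (pr z)) ∈ B) (τ : ℝ) : JoinedIn B z (set z (ψ τ (pr z))) := by
  refine JoinedIn.ofLine (f := fun s => set z (ψ (s * τ) (pr z))) ?_
    (by rw [zero_mul, h0, h.set_pr]) (by rw [one_mul]) ?_
  · have c1 : Continuous fun s : ℝ => (z, ψ (s * τ) (pr z)) :=
      continuous_const.prodMk (hψ.comp (by fun_prop : Continuous fun s : ℝ => (s * τ, pr z)))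
    exact (h.cont.comp c1).continuousOn
  · rintro _ ⟨s, -, rfl⟩
    exact hz _

theorem sig_far_low {a b r : Circle} (h : r ∈ arc a b ∨ r ∈ arc b a) (M : ℝ) :
    ∃ ε > 0, ∀ x : KD, |sig a b x.val| ≤ M → ε ≤ rho x.val r := by
  rcases h with h | h
  · obtain ⟨ε, hε, h1⟩ := sig_small (a := a) (b := b) h M
    refine ⟨ε, hε, fun x hx => not_lt.1 fun hlt => ?_⟩
    linarith [h1 x hlt, (abs_le.1 hx).1]
  · obtain ⟨ε, hε, h1⟩ := sig_large (a := a) (b := b) (Cyc.rot (Cyc.rot h)) M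
    refine ⟨ε, hε, fun x hx => not_lt.1 fun hlt => ?_⟩
    linarith [h1 x hlt, (abs_le.1 hx).2]

/-- Points of the unstable manifold that are not trapped are joined off the stable manifold. -/
theorem Half.joined (h : S.Half Φ pj pr set Good F) (d : S.DR Φ pj Good G p a₁ a₂ r₁ r₂) :
    ∃ (K : Set X) (y : X), IsCompact K ∧ y ∉ S.Ws p ∧ ∀ z ∈ S.Wu p, z ∉ Stay G⁻¹ K →
      JoinedIn (S.Ws p)ᶜ z y := by
  obtain ⟨M₀, hM₀⟩ := h.hf.ws_kap d.reg d.pos d.fix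
  obtain ⟨ψ, hψ, h0, hk, hs⟩ := exists_flow d.reg.ne_a
  obtain ⟨R₁, hR₁⟩ := h.hf.wu_kap d.reg d.pos d.fix M₀
  obtain ⟨M₁, hM₁⟩ := kap_sig_bdd a₁ a₂ (max R₁ 0)
  have hl := linked_iff.1 d.reg.linked
  obtain ⟨ε₁, hε₁, e₁⟩ := sig_far_low (a := a₁) (b := a₂) (r := r₁) (hl.imp And.left And.right) M₁
  obtain ⟨ε₂, hε₂, e₂⟩ := sig_far_low (a := a₁) (b := a₂) (r := r₂)
    (hl.symm.imp And.left And.right) M₁
  obtain ⟨R₂, hR₂⟩ := h.hf.ws_near d.reg d.pos d.fix (lt_min hε₁ hε₂)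
  obtain ⟨K, hK, hlink⟩ := h.fac.link G G p p d.pos d.pos d.good d.good d.fix d.fix (max R₁ R₂)
  obtain ⟨y₀, hy₀⟩ := h.fac.hole G p d.pos d.good d.fix (max R₁ R₂)
  have near : ∀ (z : X) (s : ℝ), dist (pr z) KD.o ≤ max R₁ 0 → set z (ψ s (pr z)) ∈ S.Ws p →
      set z (ψ s (pr z)) ∈ Stay G (NearP Φ pr ⊥ (max R₁ R₂)) := fun z s hz hw => by
    have h1 : |sig a₁ a₂ (pr (set z (ψ s (pr z)))).val| ≤ M₁ := by
      rw [h.hf.pr_set, hs]
      exact (hM₁ _ hz).2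
    exact stay_mono (nearP_mono (le_max_right _ _))
      (hR₂ _ hw ((min_le_left _ _).trans (e₁ _ h1)) ((min_le_right _ _).trans (e₂ _ h1)))
  have hy : ∀ s, set (set y₀ KD.o) (ψ s (pr (set y₀ KD.o))) ∈ (S.Ws p)ᶜ := fun s hw => by
    refine hy₀ _ hw (near _ s ?_ hw) ?_
    · rw [h.hf.pr_set, dist_self]
      exact le_max_right _ _
    · rw [h.hf.pr_set, h.hf.set_set]
  have hup : pr ⁻¹' {x : KD | M₀ < kap a₁ a₂ x.val} ⊆ (S.Ws p)ᶜ := fun z hz hw =>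
    absurd (abs_le.1 (hM₀ z hw)).2 (not_le.2 hz)
  have hdn : pr ⁻¹' {x : KD | M₀ < kap a₂ a₁ x.val} ⊆ (S.Ws p)ᶜ := fun z hz hw => by
    have h1 : M₀ < kap a₂ a₁ (pr z).val := hz
    rw [kap_swap] at h1
    linarith [(abs_le.1 (hM₀ z hw)).1]
  have jup : ∀ z, M₀ < kap a₁ a₂ (pr z).val → JoinedIn (S.Ws p)ᶜ z (set y₀ KD.o) := fun z hz => by
    refine JoinedIn.trans (((h.path (kap_path d.reg.ne_a M₀)).joinedIn z hz _ ?_).mono hup)
      (line_low h.hf hψ h0 hy (M₀ + 1 - kap a₁ a₂ (pr (set y₀ KD.o)).val)).symm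
    show M₀ < kap a₁ a₂ (pr _).val
    rw [h.hf.pr_set (set y₀ KD.o), hk]
    linarith
  have jdn : ∀ z, M₀ < kap a₂ a₁ (pr z).val → JoinedIn (S.Ws p)ᶜ z (set y₀ KD.o) := fun z hz => by
    refine JoinedIn.trans (((h.path (kap_path d.reg.ne_a.symm M₀)).joinedIn z hz _ ?_).mono hdn)
      (line_low h.hf hψ h0 hy (-M₀ - 1 - kap a₁ a₂ (pr (set y₀ KD.o)).val)).symm
    show M₀ < kap a₂ a₁ (pr _).val
    rw [h.hf.pr_set (set y₀ KD.o), kap_swap, hk]
    linarith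
  refine ⟨K, set y₀ KD.o, hK, ?_, fun z hz hzK => ?_⟩
  · have := hy 0
    rwa [h0, h.hf.set_pr] at this
  by_cases hb : |kap a₁ a₂ (pr z).val| ≤ M₀
  · have h1 := hR₁ z hz hb
    have h2 : dist (pr z) KD.o ≤ max R₁ 0 := by
      have h3 := h1 0
      rw [pow_zero, one_smul, mem_nearP_bot] at h3
      exact h3.trans (le_max_left _ _)
    have h4 : ∀ s, set z (ψ s (pr z)) ∈ (S.Ws p)ᶜ := fun s hw =>
      hzK (hlink z hz _ hw (stay_mono (nearP_mono (le_max_left _ _)) h1) (near z s h2 hw)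
        (by rw [h.hf.pr_set]))
    refine (line_low h.hf hψ h0 h4 (M₀ + 1 - kap a₁ a₂ (pr z).val)).trans (jup _ ?_)
    rw [h.hf.pr_set, hk]
    linarith
  · rcases lt_abs.1 (not_le.1 hb) with h1 | h1
    · exact jup z h1
    · exact jdn z (by rwa [kap_swap])

theorem Half.low (h : S.Half Φ pj pr set Good F) (d : S.DR Φ pj Good G p a₁ a₂ r₁ r₂) :
    2 ≤ S.u := by
  by_contra hu
  obtain ⟨C, hC, htrap⟩ := d.trap h
  obtain ⟨K, y, hK, hy, hj⟩ := h.joined d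
  obtain ⟨ℓ, hℓ, h0, h1, h2⟩ := exists_line (S := S) h.conv
  obtain ⟨σ, hσ, hσu, hσK, hH⟩ := dl (U := EuclideanSpace ℝ (Fin S.u)) hC hC d.pos d.pos d.fix
    d.fix finrank_euclideanSpace_fin hK (S.inv.ws_refl p) (S.ws_refl p)
  have j : ∀ v ∈ sphere (0 : EuclideanSpace ℝ (Fin S.u)) 1, JoinedIn (S.Ws p)ᶜ (σ v) y :=
    fun v hv => hj _ (hσu v (sphere_subset_closedBall hv))
      fun hs => hσK v hv (stay_mono (subset_tr C K) hs)
  obtain ⟨σ₁, c₁, m₁, e₁⟩ := fill_low (B := (S.Ws p)ᶜ) (σ := σ) (by omega) ⟨y, hy⟩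
    fun v hv v' hv' => (j v hv).trans (j v' hv').symm
  have hc : ContinuousOn (fun q : ℝ × EuclideanSpace ℝ (Fin S.u) => ℓ q.1 (σ q.2) (σ₁ q.2))
      (Icc 0 1 ×ˢ closedBall 0 1) := by
    refine hℓ.comp_continuousOn (f := fun q : ℝ × EuclideanSpace ℝ (Fin S.u) =>
      (q.1, σ q.2, σ₁ q.2)) (continuousOn_fst.prodMk (ContinuousOn.prodMk ?_ ?_))
    · exact hσ.comp continuousOn_snd fun q hq => hq.2
    · exact (c₁.comp continuous_snd).continuousOn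
  obtain ⟨K', hK', hT⟩ := htrap _
    ((isCompact_Icc.prod (isCompact_closedBall _ _)).image_of_continuousOn hc)
  obtain ⟨v, -, hv⟩ := hH (fun s v => ℓ s (σ v) (σ₁ v)) K' hK' hc (fun v _ => h0 _ _)
    (fun s hs v hv hw => hT _ ⟨hw, (s, v), ⟨hs, hv⟩, rfl⟩)
    (fun s _ v hv hw => by
      rw [← e₁ v hv, h2] at hw
      exact m₁ v hw)
  rw [h1] at hv
  exact m₁ v hv

end Setting

end Pool.Agent.P.MP_788ef7_an
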