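import Pool.Agent.P.MP_788ef7_an.CDefs
import Pool.Agent.P.MP_788ef7_an.Bd
import Pool.Agent.P.MP_788ef7_an.Hyp

set_option autoImplicit false

open Set Filter Topology Metric

namespace Pool.Agent.P.MP_788ef7_an

theorem exists_mat_mkf {Γ : Subgroup (KD ≃ᵢ KD)} (ho : ∀ γ ∈ Γ, IsOP γ) :
    ∃ M : (KD ≃ᵢ KD) → (ℝ × ℂ →L[ℝ] ℝ × ℂ), (∀ γ ∈ Γ, IsLor (M γ)) ∧
      (∀ γ ∈ Γ, ∀ h x, lmv (M γ) h x = γ x) ∧ M 1 = ContinuousLinearMap.id ℝ _ ∧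
      ∀ γ ∈ Γ, ∀ δ ∈ Γ, M (γ * δ) = (M γ).comp (M δ) := by
  have ho' : ∀ γ ∈ Γ, ∃ L, IsLor L ∧ ∀ x : KD, (γ x).val = kact L x.val := ho
  choose! M h1 h2 using ho'
  refine ⟨M, h1, fun γ hγ h x => KD.ext (h2 γ hγ x).symm,
    (h1 1 Γ.one_mem).ext isLor_id fun x => ?_,
    fun γ hγ δ hδ => (h1 _ (Γ.mul_mem hγ hδ)).ext ((h1 γ hγ).comp (h1 δ hδ)) fun x => ?_⟩
  · rw [kact_id, ← h2 1 Γ.one_mem]
    rfl
  · rw [(h1 γ hγ).kact_comp (h1 δ hδ) x.lt.le, ← h2 _ (Γ.mul_mem hγ hδ), ← h2 δ hδ, ← h2 γ hγ]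
    rfl

/-- The Fuchsian group with automorphism attached to a hyperbolic factor. -/
theorem mkf {𝔾 : Type} [Group 𝔾] {ht : 𝔾 → ℤ} {t : 𝔾} {l : 𝔾 → KD ≃ᵢ KD}
    {Γ : Subgroup (KD ≃ᵢ KD)} (hm : ∀ g h, ht (g * h) = ht g + ht h) (h1 : ht t = 1)
    (hl : ∀ γ δ, ht γ = 0 → ht δ = 0 → l (γ * δ) = l γ * l δ) (hmem : ∀ γ, ht γ = 0 → l γ ∈ Γ)
    (hs : ∀ γ₁ ∈ Γ, ∃ γ, ht γ = 0 ∧ l γ = γ₁)
    (hN : ∀ g ν, ht ν = 0 → l ν = 1 → l (g * ν * g⁻¹) = 1) (hΓ : Lat Γ univ)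
    (ho : ∀ γ ∈ Γ, IsOP γ) : ∃ (𝔊 : Type) (_ : Group 𝔊) (_ : MulAction 𝔊 Circle) (Φ : Fuchs 𝔊)
      (pj : 𝔾 →* 𝔊), Function.Surjective pj ∧ (∀ g, Φ.ht (pj g) = ht g) ∧
      (∀ γ, ht γ = 0 → ∀ x, Φ.mv (pj γ) x = l γ x) ∧ ∀ g, pj g = 1 ↔ ht g = 0 ∧ l g = 1 := by
  have h0 : ht 1 = 0 := by
    have := hm 1 1
    rw [one_mul] at this
    omega
  have hi : ∀ g, ht g⁻¹ = -ht g := fun g => by
    have := hm g g⁻¹
    rw [mul_inv_cancel, h0] at this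
    omega
  have hz : ∀ n : ℤ, ht (t ^ n) = n := fun n => by
    induction n using Int.induction_on with
    | zero => rw [zpow_zero, h0]
    | succ n ih => rw [zpow_add_one, hm, ih, h1]
    | pred n ih => rw [zpow_sub_one, hm, ih, hi, h1, sub_eq_add_neg]
  have hd : ∀ g, ht (g * t ^ (-ht g)) = 0 := fun g => by rw [hm, hz, add_neg_cancel]
  have l0 : l 1 = 1 := by
    have := hl 1 1 h0 h0
    rw [one_mul] at this
    exact left_eq_mul.1 this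
  have li : ∀ γ, ht γ = 0 → l γ⁻¹ = (l γ)⁻¹ := fun γ h => by
    have := hl γ γ⁻¹ h (by rw [hi, h, neg_zero])
    rw [mul_inv_cancel, l0] at this
    exact eq_inv_of_mul_eq_one_right this.symm
  let N : Subgroup 𝔾 :=
    { carrier := {g | ht g = 0 ∧ l g = 1}
      one_mem' := ⟨h0, l0⟩
      mul_mem' := fun {a b} ha hb =>
        ⟨by rw [hm, ha.1, hb.1, add_zero], by rw [hl a b ha.1 hb.1, ha.2, hb.2, one_mul]⟩
      inv_mem' := fun {a} ha => ⟨by rw [hi, ha.1, neg_zero], by rw [li a ha.1, ha.2, inv_one]⟩ }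
  have hc : ∀ g ν, ht ν = 0 → ht (g * ν * g⁻¹) = 0 := fun g ν h => by
    rw [hm, hm, hi, h, add_zero, add_neg_cancel]
  have hn : N.Normal := ⟨fun ν hν g => ⟨hc g ν hν.1, hN g ν hν.1 hν.2⟩⟩
  obtain ⟨ht', e₁⟩ : ∃ ht' : 𝔾 ⧸ N → ℤ, ∀ g : 𝔾, ht' g = ht g := by
    refine ⟨fun q => ht q.out, fun g => ?_⟩
    obtain ⟨ν, e⟩ := QuotientGroup.mk_out_eq_mul N g
    change ht (g : 𝔾 ⧸ N).out = _
    rw [e, hm, ν.2.1, add_zero]
  obtain ⟨l', e₂⟩ : ∃ l' : 𝔾 ⧸ N → KD ≃ᵢ KD, ∀ g : 𝔾, l' g = l (g * t ^ (-ht g)) := by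
    refine ⟨fun q => l (q.out * t ^ (-ht' q)), fun g => ?_⟩
    obtain ⟨ν, e⟩ := QuotientGroup.mk_out_eq_mul N g
    change l ((g : 𝔾 ⧸ N).out * t ^ (-ht' g)) = _
    rw [e, e₁, show g * ν * t ^ (-ht g) = g * ν * g⁻¹ * (g * t ^ (-ht g)) by group,
      hl _ _ (hc g ν ν.2.1) (hd g), hN g ν ν.2.1 ν.2.2, one_mul]
  have e₃ : ∀ g : 𝔾, ht g = 0 → l' g = l g := fun g h => by
    rw [e₂, h, neg_zero, zpow_zero, mul_one]
  have m' : ∀ q, l' q ∈ Γ := fun q => by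
    obtain ⟨g, rfl⟩ := QuotientGroup.mk_surjective q
    rw [e₂]
    exact hmem _ (hd g)
  obtain ⟨M, M1, M2, M3, M4⟩ := exists_mat_mkf ho
  let Φ₀ : PreFuchs (𝔾 ⧸ N) :=
    { ht := ht'
      ht_mul := fun a b => by
        obtain ⟨a, rfl⟩ := QuotientGroup.mk_surjective a
        obtain ⟨b, rfl⟩ := QuotientGroup.mk_surjective b
        rw [← QuotientGroup.mk_mul, e₁, e₁, e₁, hm]
      t := t
      ht_t := by rw [e₁, h1]
      L := fun q => M (l' q)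
      lor := fun q => M1 _ (m' q)
      L_one := by rw [← QuotientGroup.mk_one, e₃ 1 h0, l0, M3]
      L_mul := fun a b h => by
        obtain ⟨a, rfl⟩ := QuotientGroup.mk_surjective a
        obtain ⟨b, rfl⟩ := QuotientGroup.mk_surjective b
        rw [e₁] at h
        rw [← M4 _ (m' _) _ (m' _), ← QuotientGroup.mk_mul, e₃ a h, e₂, e₂, hm, h, zero_add,
          mul_assoc, hl _ _ h (hd b)]
      L_t := fun b => by
        obtain ⟨b, rfl⟩ := QuotientGroup.mk_surjective b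
        rw [← QuotientGroup.mk_mul, e₂, e₂, hm, h1,
          show b * t * t ^ (-(ht b + 1)) = b * t ^ (-ht b) by group]
      proper := fun R => by
        refine Finite.of_injOn (f := l') (fun q hq => ?_) (fun a ha b hb e => ?_)
          (hΓ.proper KD.o R)
        · refine ⟨m' q, ?_⟩
          rw [← M2 _ (m' q) (M1 _ (m' q))]
          exact hq.2
        · obtain ⟨a, rfl⟩ := QuotientGroup.mk_surjective a
          obtain ⟨b, rfl⟩ := QuotientGroup.mk_surjective b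
          have ha' : ht a = 0 := (e₁ a).symm.trans ha.1
          have hb' : ht b = 0 := (e₁ b).symm.trans hb.1
          have ha'' : ht a⁻¹ = 0 := by rw [hi, ha', neg_zero]
          rw [e₃ a ha', e₃ b hb'] at e
          exact QuotientGroup.eq.2 ⟨by rw [hm, ha'', hb', add_zero],
            by rw [hl _ _ ha'' hb', li a ha', e, inv_mul_cancel]⟩
      free := fun a x h e => by
        rw [M2 _ (m' a)] at e
        have e' := hΓ.free _ (m' a) x e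
        obtain ⟨a, rfl⟩ := QuotientGroup.mk_surjective a
        rw [e₁] at h
        rw [e₃ a h] at e'
        exact (QuotientGroup.eq_one_iff a).2 ⟨h, e'⟩
      cocpt := by
        obtain ⟨x₀, R, h⟩ := hΓ.cocpt
        refine ⟨R + dist x₀ KD.o, fun x => ?_⟩
        obtain ⟨γ, hγ, d⟩ := h x (mem_univ x)
        obtain ⟨a, ha, e⟩ := hs γ⁻¹ (Γ.inv_mem hγ)
        refine ⟨a, (e₁ a).trans ha, ?_⟩
        rw [M2 _ (m' _), e₃ a ha, e, ← γ.dist_eq]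
        have : γ (γ⁻¹ KD.o) = KD.o := γ.apply_symm_apply _
        rw [this]
        linarith [dist_triangle (γ x) x₀ KD.o] }
  obtain ⟨i, Φ, hΦ⟩ := Φ₀.exists_fuchs
  refine ⟨𝔾 ⧸ N, inferInstance, i, Φ, QuotientGroup.mk' N, QuotientGroup.mk'_surjective N,
    fun g => ?_, fun γ h x => ?_, fun g => QuotientGroup.eq_one_iff g⟩
  · rw [hΦ]
    exact e₁ g
  · rw [hΦ, ← e₃ γ h]
    exact M2 _ (m' _) _ x

/-- Algebraic properties of a cocompact torsion-free Fuchsian group. -/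
theorem Lat.alg {Γ : Subgroup (KD ≃ᵢ KD)} (h : Lat Γ univ) (ho : ∀ γ ∈ Γ, IsOP γ) :
    (∃ γ ∈ Γ, ∃ δ ∈ Γ, γ * δ ≠ δ * γ) ∧ ∀ γ ∈ Γ, γ ≠ 1 → ∀ δ ∈ Γ, ∀ u ∈ Γ, δ * γ = γ * δ →
      u * γ = γ * u → δ * u = u * δ := by
  obtain ⟨𝔊, i₁, i₂, Φ, pj, hs, hh, -, hk⟩ := mkf (𝔾 := Γ × Multiplicative ℤ)
    (ht := fun g => g.2.toAdd) (t := (1, Multiplicative.ofAdd 1)) (l := fun g => g.1.1) (Γ := Γ)
    (fun _ _ => rfl) rfl (fun _ _ _ _ => rfl) (fun γ _ => γ.1.2)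
    (fun γ hγ => ⟨(⟨γ, hγ⟩, 1), rfl, rfl⟩)
    (fun g ν _ e => by
      change g.1.1 * ν.1.1 * g.1.1⁻¹ = 1
      rw [e, mul_one, mul_inv_cancel]) h ho
  refine ⟨?_, fun γ hγ h1 δ hδ u hu e e' => ?_⟩
  · obtain ⟨γ, δ, -, -, hn⟩ := Φ.not_comm
    obtain ⟨a, rfl⟩ := hs γ
    obtain ⟨b, rfl⟩ := hs δ
    refine ⟨a.1.1, a.1.2, b.1.1, b.1.2, fun e => hn ?_⟩
    rw [← map_mul, ← map_mul]
    exact congrArg pj (Prod.ext (Subtype.ext e) (mul_comm _ _))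
  · have c : ∀ v (hv : v ∈ Γ), v * γ = γ * v → pj (⟨v, hv⟩, 1) ∈ Φ.Cen (pj (⟨γ, hγ⟩, 1)) :=
      fun v hv e => ⟨hh _, by
        rw [← map_mul, ← map_mul]
        exact congrArg pj (Prod.ext (Subtype.ext e) rfl)⟩
    have k := Fuchs.comm_trans (Φ := Φ) (hh _) (fun e => h1 ((hk _).1 e).2) (c δ hδ e) (c u hu e')
    rw [← mul_inv_eq_one, ← map_mul, ← map_mul, ← map_inv, ← map_mul] at k
    exact mul_inv_eq_one.1 ((hk _).1 k).2

end Pool.Agent.P.MP_788ef7_an
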