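import Pool.Agent.P.MP_788ef7_an.Pres
import Pool.Agent.P.MP_788ef7_an.Mkf
import Pool.Agent.P.MP_788ef7_an.HF1

set_option autoImplicit false
set_option linter.unusedSectionVars false

open Set Filter Topology Metric

namespace Pool.Agent.P.MP_788ef7_an

variable {Y E₂ : Type} [MetricSpace Y] [ProperSpace Y] [NormedAddCommGroup E₂] [NormedSpace ℝ E₂]
  [FiniteDimensional ℝ E₂] {F : Equiv.Perm (KD × Y)} {Γ₁ : Subgroup (KD ≃ᵢ KD)}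
  {Γ₂ : Subgroup (Y ≃ᵢ Y)} {e₂ : Y → E₂} {a₂ : (Y ≃ᵢ Y) → E₂ → E₂} {vec₂ : E₂ → E₂ → E₂}
  {η : Y → ℝ} {ρ : Y → Y} {𝔾 : Type} [Group 𝔾] [MulAction 𝔾 (KD × Y)] {ht : 𝔾 → ℤ} {t : 𝔾}
  {l₁ : 𝔾 → KD ≃ᵢ KD} {l₂ : 𝔾 → Y ≃ᵢ Y}

theorem smul_zpow_mk {Z W : Type*} [NormedAddCommGroup W] [NormedSpace ℝ W] {F : Equiv.Perm Z}
    {φ : Z → W} (h : ∀ z, φ (F z) = (2 : ℝ)⁻¹ • φ z) (n : ℤ) (z : Z) :
    φ ((F ^ n) z) = (2 : ℝ) ^ (-n) • φ z := by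
  have h' : ∀ z, φ (F⁻¹ z) = (2 : ℝ) • φ z := fun z => by
    have e := h (F⁻¹ z)
    rw [show F (F⁻¹ z) = z from F.apply_symm_apply z] at e
    rw [e, smul_smul]
    norm_num
  induction n using Int.induction_on generalizing z with
  | zero => simp
  | succ n ih =>
    rw [zpow_add_one, Equiv.Perm.mul_apply, ih, h, smul_smul, neg_add, ← sub_eq_add_neg,
      zpow_sub_one₀ two_ne_zero]
  | pred n ih =>
    rw [zpow_sub_one, Equiv.Perm.mul_apply, ih, h', smul_smul, neg_sub', sub_neg_eq_add,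
      zpow_add_one₀ two_ne_zero]

theorem semiconj_zpow_mk {Z M : Type*} {F : Equiv.Perm Z} {f : Equiv.Perm M} {φ : Z → M}
    (h : ∀ z, φ (F z) = f (φ z)) (n : ℤ) (z : Z) : φ ((F ^ n) z) = (f ^ n) (φ z) := by
  have h' : ∀ z, φ (F⁻¹ z) = f⁻¹ (φ z) := fun z => by
    have e := h (F⁻¹ z)
    rw [show F (F⁻¹ z) = z from F.apply_symm_apply z] at e
    rw [e]
    exact (f.symm_apply_apply _).symm
  induction n using Int.induction_on generalizing z with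
  | zero => simp
  | succ n ih => rw [zpow_add_one, zpow_add_one, Equiv.Perm.mul_apply, Equiv.Perm.mul_apply, ih, h]
  | pred n ih => rw [zpow_sub_one, zpow_sub_one, Equiv.Perm.mul_apply, Equiv.Perm.mul_apply, ih, h']

theorem continuous_zpow_mk {Z : Type*} [TopologicalSpace Z] {F : Equiv.Perm Z} (hF : Continuous F)
    (hF' : Continuous (F⁻¹ : Equiv.Perm Z)) (n : ℤ) : Continuous (F ^ n : Equiv.Perm Z) := by
  induction n using Int.induction_on with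
  | zero => exact continuous_id
  | succ n ih =>
    rw [zpow_add_one]
    exact ih.comp hF
  | pred n ih =>
    rw [zpow_sub_one]
    exact ih.comp hF'

theorem eta_smul_mk (hp : Pres F Γ₁ Γ₂ ht t l₁ l₂) (hr : Raw F Γ₁ Γ₂ e₂ a₂ vec₂ η ρ) (g : 𝔾)
    (z : KD × Y) : η (g • z).2 = (2 : ℝ) ^ (-ht g) * η z.2 := by
  have := hr.nonempty
  obtain ⟨γ₁, -, γ₂, h₂, e⟩ := hp.exists_eq g
  rw [e, hr.η_inv γ₂ h₂]
  exact smul_zpow_mk (φ := fun z : KD × Y => η z.2)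
    (fun z => by rw [hr.η_F, smul_eq_mul, div_eq_inv_mul]) _ z

theorem ht_one_mk (hp : Pres F Γ₁ Γ₂ ht t l₁ l₂) : ht 1 = 0 := by
  have := hp.ht_mul 1 1
  rw [one_mul] at this
  omega

theorem ht_inv_mk (hp : Pres F Γ₁ Γ₂ ht t l₁ l₂) (g : 𝔾) : ht g⁻¹ = -ht g := by
  have := hp.ht_mul g g⁻¹
  rw [mul_inv_cancel, ht_one_mk hp] at this
  omega

theorem inj_mk [Nonempty Y] (hp : Pres F Γ₁ Γ₂ ht t l₁ l₂) {γ δ : 𝔾} (hγ : ht γ = 0)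
    (hδ : ht δ = 0) (e₁ : l₁ γ = l₁ δ) (e₂ : l₂ γ = l₂ δ) : γ = δ := by
  have h0 : ht (γ * δ⁻¹) = 0 := by rw [hp.ht_mul, ht_inv_mk hp, hγ, hδ]; rfl
  have h := hp.l_mul h0 hδ
  rw [inv_mul_cancel_right, e₁, e₂] at h
  exact mul_inv_eq_one.1 (hp.inj _ h0 (right_eq_mul.1 h.1) (right_eq_mul.1 h.2))

theorem mk_setting (hp : Pres F Γ₁ Γ₂ ht t l₁ l₂) (hr : Raw F Γ₁ Γ₂ e₂ a₂ vec₂ η ρ)
    {𝓗 : ℤ → (KD × Y → KD × Y) → Prop} {Q : KD × Y → ℂ × E₂ →L[ℝ] ℂ × E₂} {u s : ℕ} {lam : ℝ}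
    (hh : HypD (Prod.map KD.val e₂) 𝓗 Q u s lam) (hc : ∀ g : 𝔾, 𝓗 (ht g) fun z => g • z) :
    ∃ S : Setting 𝔾 (KD × Y) (ℂ × E₂), S.ht = ht ∧ S.t = t ∧ S.e = Prod.map KD.val e₂ ∧
      S.Λ = {z | η z.2 = 0} ∧ S.u = u := by
  have := hr.nonempty
  have hη : Continuous η := (LipschitzWith.of_dist_le_mul (K := 1) fun y y' => by
    rw [Real.dist_eq, NNReal.coe_one, one_mul]
    exact hr.η_lip y y').continuous
  have emb : IsOpenEmbedding (Prod.map KD.val e₂) := KD.isOpenEmbedding_val.prodMap hr.emb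
  have rng : range (Prod.map KD.val e₂) = ball 0 1 ×ˢ range e₂ := by
    rw [range_prodMap, KD.range_val]
  refine ⟨{
    ht := ht
    ht_mul := hp.ht_mul
    t := t
    ht_t := hp.ht_t
    iso := fun γ h x y => ?_
    proper := fun x R => ?_
    free := fun γ x h e => ?_
    Λ := {z | η z.2 = 0}
    closed := isClosed_eq (hη.comp continuous_snd) continuous_const
    nonempty := ⟨(KD.o, ρ (Classical.arbitrary Y)), hr.η_ρ _⟩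
    smul_mem := fun g x hx => ?_
    cocpt := ?_
    lm := fun R z h => ?_
    disp := fun g R h => ?_
    e := Prod.map KD.val e₂
    emb := emb
    star := rng ▸ hr.star
    c1 := fun g => hh.c1 _ _ (hc g)
    c2 := fun γ h => ?_
    Q := Q
    contQ := hh.contQ
    idem := hh.idem
    comm := fun g => hh.comm _ _ (hc g)
    u := u
    s := s
    rank_u := hh.rank_u
    rank_s := hh.rank_s
    lam := lam
    lam_pos := hh.lam_pos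
    lam_lt := hh.lam_lt
    rate := fun K hK => ?_ }, rfl, rfl, rfl, rfl, rfl⟩
  · obtain ⟨x, x'⟩ := x
    obtain ⟨y, y'⟩ := y
    rw [hp.smul γ h, hp.smul γ h, Prod.dist_eq, Prod.dist_eq, IsometryEquiv.dist_eq,
      IsometryEquiv.dist_eq]
  · obtain ⟨x, y⟩ := x
    refine Finite.of_injOn (f := fun γ => (l₁ γ, l₂ γ)) (fun γ hγ => ?_) (fun γ hγ δ hδ e => ?_)
      ((hr.lat₁.proper x R).prod (hr.lat₂.proper y R))
    · have h := hγ.2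
      rw [hp.smul γ hγ.1, Prod.dist_eq, max_le_iff] at h
      exact ⟨⟨hp.mem₁ γ hγ.1, h.1⟩, hp.mem₂ γ hγ.1, h.2⟩
    · exact inj_mk hp hγ.1 hδ.1 (congrArg Prod.fst e) (congrArg Prod.snd e)
  · obtain ⟨x, y⟩ := x
    rw [hp.smul γ h] at e
    exact hp.inj γ h (hr.lat₁.free _ (hp.mem₁ γ h) x (congrArg Prod.fst e))
      (hr.lat₂.free _ (hp.mem₂ γ h) y (congrArg Prod.snd e))
  · have e : η x.2 = 0 := hx
    change η (g • x).2 = 0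
    rw [eta_smul_mk hp hr, e, mul_zero]
  · obtain ⟨x₀, R, h₁⟩ := hr.lat₁.cocpt
    obtain ⟨y₀, R', h₂⟩ := hr.lat₂.cocpt
    refine ⟨(x₀, y₀), max R R', fun ⟨x, y⟩ hz => ?_⟩
    obtain ⟨γ₁, m₁, d₁⟩ := h₁ x (mem_univ x)
    obtain ⟨γ₂, m₂, d₂⟩ := h₂ y hz
    obtain ⟨γ, h, rfl, rfl⟩ := hp.surj γ₁ m₁ γ₂ m₂
    refine ⟨γ, h, ?_⟩
    rw [hp.smul γ h, Prod.dist_eq]
    exact max_le_max d₁ d₂
  · by_contra hz
    have hz' : 0 < |η z.2| := abs_pos.2 hz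
    obtain ⟨n, hn⟩ := pow_unbounded_of_one_lt (R / |η z.2|) (one_lt_two (α := ℝ))
    obtain ⟨x, hx, d⟩ := h (-n)
    have e : η x.2 = 0 := hx
    have h1 := hr.η_lip (t ^ (-n : ℤ) • z).2 x.2
    have h2 : η (t ^ (-n : ℤ) • z).2 = (2 : ℝ) ^ n * η z.2 := by
      rw [hp.zpow_smul]
      simpa using smul_zpow_mk (φ := fun z : KD × Y => η z.2)
        (fun z => by rw [hr.η_F, smul_eq_mul, div_eq_inv_mul]) (-n) z
    rw [e, sub_zero, h2, abs_mul, abs_of_pos (by positivity : (0 : ℝ) < 2 ^ n)] at h1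
    rw [div_lt_iff₀ hz'] at hn
    rw [Prod.dist_eq, max_le_iff] at d
    linarith [d.2]
  · have hc : 0 < |(2 : ℝ) ^ (-ht g) - 1| := by
      rw [abs_pos, sub_ne_zero]
      exact fun e => h (neg_eq_zero.1 ((zpow_eq_one_iff_right₀ (by norm_num) (by norm_num)).1 e))
    refine ⟨R / |(2 : ℝ) ^ (-ht g) - 1|, fun z d => ⟨(z.1, ρ z.2), hr.η_ρ _, ?_⟩⟩
    have h1 := hr.η_lip (g • z).2 z.2
    rw [eta_smul_mk hp hr, ← sub_one_mul, abs_mul] at h1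
    rw [Prod.dist_eq, max_le_iff] at d
    have h2 : |η z.2| ≤ R / |(2 : ℝ) ^ (-ht g) - 1| := by
      rw [le_div_iff₀ hc]
      linarith [d.2]
    rw [Prod.dist_eq, dist_self]
    exact max_le ((abs_nonneg _).trans h2) ((hr.dist_ρ _).trans h2)
  · obtain ⟨L, hL, e⟩ := hr.op₁ _ (hp.mem₁ γ h)
    refine ContDiffOn.congr (f := Prod.map (kact L) (a₂ (l₂ γ))) ?_ ?_
    · rw [rng]
      exact hL.contDiffOn_kact.prodMap (hr.c2 _ (hp.mem₂ γ h))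
    · rintro _ ⟨⟨x, y⟩, rfl⟩
      rw [chartMap, emb.injective.extend_apply, hp.smul γ h]
      exact Prod.ext (e x) (hr.act _ (hp.mem₂ γ h) y)
  · obtain ⟨C, hC⟩ := hh.rate K hK
    exact ⟨C, fun g n => hC _ _ n (hc g)⟩

theorem mk_sf (hp : Pres F Γ₁ Γ₂ ht t l₁ l₂) (hr : Raw F Γ₁ Γ₂ e₂ a₂ vec₂ η ρ)
    {S : Setting 𝔾 (KD × Y) (ℂ × E₂)} (h1 : S.ht = ht) (h2 : S.e = Prod.map KD.val e₂) :
    S.SF Prod.fst (ContinuousLinearEquiv.refl ℝ _) (range e₂) (fun γ => a₂ (l₂ γ)) vec₂ where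
  fst z := by rw [h2]; rfl
  range_eq := by rw [h2, range_prodMap, KD.range_val]; rfl
  isOpen := hr.emb.isOpen_range
  act γ z h := by
    obtain ⟨x, y⟩ := z
    rw [h1] at h
    rw [h2, hp.smul γ h]
    exact hr.act _ (hp.mem₂ γ h) y
  diff γ h := (hr.c2 _ (hp.mem₂ γ (h1 ▸ h))).differentiableOn two_ne_zero
  c1 := hr.c1
  zero := hr.zero
  eqv γ h := hr.eqv _ (hp.mem₂ γ (h1 ▸ h))
  diag := hr.diag
  dist_le z z' h := by
    rw [h2] at h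
    have e : z.2 = z'.2 := hr.emb.injective h
    rw [Prod.dist_eq, e, dist_self]
    exact max_le le_rfl dist_nonneg

theorem mk_hf (hp : Pres F Γ₁ Γ₂ ht t l₁ l₂) (hr : Raw F Γ₁ Γ₂ e₂ a₂ vec₂ η ρ)
    {S : Setting 𝔾 (KD × Y) (ℂ × E₂)} (h1 : S.ht = ht) (h3 : S.Λ = {z | η z.2 = 0}) :
    ∃ (𝔊 : Type) (_ : Group 𝔊) (_ : MulAction 𝔊 Circle) (Φ : Fuchs 𝔊) (pj : 𝔾 →* 𝔊),
      S.HF Φ pj Prod.fst (fun z x => (x, z.2)) ∧ ∀ g, pj g = 1 ↔ ht g = 0 ∧ l₁ g = 1 := by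
  have := hr.nonempty
  obtain ⟨𝔊, i₁, i₂, Φ, pj, hs, hh, hm, hk⟩ := mkf hp.ht_mul hp.ht_t
    (fun γ δ hγ hδ => (hp.l_mul hγ hδ).1) hp.mem₁
    (fun γ₁ h => (hp.surj γ₁ h 1 Γ₂.one_mem).imp fun γ hγ => ⟨hγ.1, hγ.2.1⟩)
    (hp.ker₁ hr.nrm₂ hr.nrm₂') hr.lat₁ hr.op₁
  have a₁ : ∀ g, Φ.ht (pj g) = S.ht g := by rw [h1]; exact hh
  have a₂ : ∀ γ (z : KD × Y), S.ht γ = 0 → (γ • z).1 = Φ.mv (pj γ) z.1 := by
    rintro γ ⟨x, y⟩ h
    rw [h1] at h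
    rw [hp.smul γ h, hm γ h]
  refine ⟨𝔊, i₁, i₂, Φ, pj, ⟨a₁, hs, a₂, fun z z' => le_max_left _ _,
    Setting.step_of a₁ continuous_fst a₂ fun G z => ⟨(z.1, ρ z.2), ?_, rfl, ?_⟩,
    fun _ _ => rfl, fun _ => rfl, fun _ _ _ => rfl, by fun_prop⟩, hk⟩
  · rw [h3]
    exact hr.η_ρ _
  · obtain ⟨γ₁, -, γ₂, -, e⟩ := hp.exists_eq G
    rw [e, e]
    exact congrArg γ₁ (hr.fst_ρ _ z.1 z.2).symm

/-- The elements of the group cover the iterates of `f`. -/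
theorem Pres.cov (hp : Pres F Γ₁ Γ₂ ht t l₁ l₂) (hF : Continuous F)
    (hF' : Continuous (F⁻¹ : Equiv.Perm (KD × Y))) {M W : Type*} [NormedAddCommGroup W]
    [NormedSpace ℝ W] {e : KD × Y → ℂ × E₂} {q : ℂ × E₂ → M} {τ : ℂ × E₂ → W} {f : Equiv.Perm M}
    {N : ℕ} (h₁ : ∀ z, q (e (F z)) = (f ^ N) (q (e z)))
    (h₂ : ∀ z, τ (e (F z)) = (2 : ℝ)⁻¹ • τ (e z))
    (h₃ : ∀ γ₁ ∈ Γ₁, ∀ γ₂ ∈ Γ₂, ∀ x y, q (e (γ₁ x, γ₂ y)) = q (e (x, y)) ∧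
      τ (e (γ₁ x, γ₂ y)) = τ (e (x, y))) (g : 𝔾) : Cov e q τ f N (ht g) fun z => g • z := by
  rcases isEmpty_or_nonempty Y with hY | hY
  · exact ⟨continuous_of_discreteTopology, fun z => hY.elim z.2, fun z => hY.elim z.2⟩
  obtain ⟨γ₁, m₁, γ₂, m₂, eg⟩ := hp.exists_eq g
  have hc := continuous_zpow_mk hF hF' (ht g)
  refine ⟨?_, fun z => ?_, fun z => ?_⟩
  · rw [funext eg]
    exact (γ₁.continuous.comp hc.fst).prodMk (γ₂.continuous.comp hc.snd)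
  · rw [eg, (h₃ γ₁ m₁ γ₂ m₂ _ _).1, zpow_mul, zpow_natCast]
    exact semiconj_zpow_mk (φ := fun z => q (e z)) h₁ _ z
  · rw [eg, (h₃ γ₁ m₁ γ₂ m₂ _ _).2]
    exact smul_zpow_mk (φ := fun z => τ (e z)) h₂ _ z

end Pool.Agent.P.MP_788ef7_an
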