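import Pool.Agent.P.MP_788ef7_an.Attr

set_option autoImplicit false

open Set Filter Topology Metric

namespace Pool.Agent.P.MP_788ef7_an

namespace Fuchs

variable {𝔊 : Type*} [Group 𝔊] [MulAction 𝔊 Circle] {Φ : Fuchs 𝔊} {g g' γ δ u u' G g₀ : 𝔊}
  {H : Subgroup 𝔊} {ξ η ζ a b c d p q a₁ a₂ r₁ r₂ a₁' a₂' r₁' r₂' : Circle} {k : ℕ} {T : Set 𝔊}

theorem fin_att_model1 (Φ : Fuchs 𝔊) (g : 𝔊) : ∃ A₀ : Set Circle, A₀.Finite ∧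
    (∀ a ∈ A₀, a ∉ Φ.Lim (Φ.Cen g)) ∧ ∀ a, Φ.Att g a → ∃ h ∈ Φ.Cen g, h • a ∈ A₀ := by
  have hd : ∀ a ∈ {ζ : Circle | ∀ h ∈ Φ.Cen g, 1 ≤ bus (Φ.pt h).val ζ}, a ∉ Φ.Lim (Φ.Cen g) :=
    fun a ha h => not_hbfree_cen h ⟨1, one_pos, ha⟩
  refine ⟨_, finite_fix_inter (Φ.isCompact_dirichlet_bd (Φ.Cen g)) (disjoint_left.2 hd),
    fun a ha => hd a ha.2, fun a ha => ?_⟩
  obtain ⟨h, hh, e⟩ := Φ.exists_dirichlet_bd (fun h (hh : h ∈ Φ.Cen g) => hh.1) ha.2.1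
  exact ⟨h, hh, (ha.smul_cen hh).1, e⟩

theorem sep_model1 {L : ℝ × ℂ →L[ℝ] ℝ × ℂ} (hL : IsLor L) {a a' : ℂ} (ha : ‖a‖ ≤ 1)
    (h : kact L a ≠ a') : ∀ᶠ ε in 𝓝[>] (0 : ℝ), ∀ x : ℂ, ‖x‖ ≤ 1 → ‖x - a‖ ≤ ε →
      ε < ‖kact L x - a'‖ := by
  have hd : 0 < ‖kact L a - a'‖ / 2 := half_pos (norm_pos_iff.2 (sub_ne_zero.2 h))
  obtain ⟨δ, hδ, e⟩ := Metric.continuousWithinAt_iff.1
    (hL.continuousOn_kact a (mem_closedBall_zero_iff.2 ha)) _ hd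
  filter_upwards [Ioo_mem_nhdsGT (lt_min hδ hd)] with ε hε x hx hxa
  have h1 := e (mem_closedBall_zero_iff.2 hx)
    (by rw [dist_eq_norm]; exact hxa.trans_lt (hε.2.trans_le (min_le_left _ _)))
  have h2 := hε.2.trans_le (min_le_right _ _)
  have h3 := dist_triangle_left (kact L a) a' (kact L x)
  rw [dist_eq_norm (kact L a), dist_eq_norm (kact L x) a'] at h3
  linarith

theorem caps_model1 (hH : ∀ h ∈ H, Φ.ht h = 0) {A₀ : Set Circle} (hf : A₀.Finite)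
    (hd : ∀ a ∈ A₀, a ∉ Φ.Lim H) : ∃ ε > 0,
      (∀ k ∈ H, ∀ a ∈ A₀, ∀ a' ∈ A₀, ∀ x : ℂ, ‖x‖ ≤ 1 → ‖x - a‖ ≤ ε →
        ‖kact (Φ.L k) x - a'‖ ≤ ε → k • a = a') ∧
      ∀ x₀ : KD, ∀ᶠ x in 𝓝 x₀.val, ∀ h ∈ H, ∀ a ∈ A₀, ‖kact (Φ.L h) x - a‖ ≤ ε →
        ‖kact (Φ.L h) x₀.val - a‖ ≤ ε := by
  have s1 : ∀ᶠ ε in 𝓝[>] (0 : ℝ), ∀ a ∈ A₀, ∀ ξ ∈ Φ.Lim H, ε < ‖(ξ : ℂ) - a‖ := by
    refine (eventually_all_finite hf).2 fun a ha => ?_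
    obtain ⟨δ, hδ, e⟩ := Metric.isOpen_iff.1 (Φ.isClosed_lim H).isOpen_compl a (hd a ha)
    filter_upwards [Ioo_mem_nhdsGT hδ] with ε hε ξ hξ
    refine hε.2.trans_le (not_lt.1 fun h => e (show ξ ∈ ball a δ from ?_) hξ)
    exact (dist_eq_norm (ξ : ℂ) a).trans_lt h
  obtain ⟨ε₀, h₀, hε₀⟩ := (s1.and self_mem_nhdsWithin).exists
  set K : Set ℂ := closedBall 0 1 ∩ ⋃ a ∈ A₀, closedBall (a : ℂ) ε₀ with hK
  have cK : IsCompact K := (isCompact_closedBall 0 1).inter_right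
    (hf.isClosed_biUnion fun _ _ => isClosed_closedBall)
  have dK : ∀ ξ ∈ Φ.Lim H, (ξ : ℂ) ∉ K := by
    intro ξ hξ hk
    obtain ⟨a, ha, e⟩ := mem_iUnion₂.1 hk.2
    exact (h₀ a ha ξ hξ).not_ge (mem_closedBall_iff_norm.1 e)
  have mK : ∀ {ε : ℝ}, ε ≤ ε₀ → ∀ a ∈ A₀, ∀ x : ℂ, ‖x‖ ≤ 1 → ‖x - a‖ ≤ ε → x ∈ K :=
    fun hε a ha x hx e => ⟨mem_closedBall_zero_iff.2 hx,
      mem_iUnion₂.2 ⟨a, ha, mem_closedBall_iff_norm.2 (e.trans hε)⟩⟩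
  have hF := Φ.finite_meet hH cK cK inter_subset_left inter_subset_left dK dK
  have s2 : ∀ᶠ ε in 𝓝[>] (0 : ℝ), ∀ k ∈ {h | h ∈ H ∧ ∃ x ∈ K, kact (Φ.L h) x ∈ K}, ∀ a ∈ A₀,
      ∀ a' ∈ A₀, k • a ≠ a' → ∀ x : ℂ, ‖x‖ ≤ 1 → ‖x - a‖ ≤ ε → ε < ‖kact (Φ.L k) x - a'‖ := by
    refine (eventually_all_finite hF).2 fun k hk => (eventually_all_finite hf).2 fun a _ =>
      (eventually_all_finite hf).2 fun a' _ => eventually_imp_distrib_left.2 fun hne => ?_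
    refine sep_model1 (Φ.lor k) a.norm_coe.le fun e => hne (Subtype.ext ?_)
    exact (Φ.bd_eq k a (hH k hk.1)).trans e
  obtain ⟨ε, h₂, hε, hε'⟩ := (s2.and (Ioc_mem_nhdsGT hε₀)).exists
  refine ⟨ε, hε, fun k hk a ha a' ha' x hx e e' => ?_, fun x₀ => ?_⟩
  · by_contra hne
    exact (h₂ k ⟨hk, x, mK hε' a ha x hx e, mK hε' a' ha' _ ((Φ.lor k).norm_kact_le hx) e'⟩ a ha
      a' ha' hne x hx e).not_ge e'
  · obtain ⟨K₀, c₀, i₀, s₀⟩ := exists_compact_subset isOpen_ball (mem_ball_zero_iff.2 x₀.lt)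
    have hF₀ := Φ.finite_meet hH c₀ cK (s₀.trans ball_subset_closedBall) inter_subset_left
      (fun ξ _ h => (mem_ball_zero_iff.1 (s₀ h)).ne ξ.norm_coe) dK
    have s3 : ∀ᶠ x in 𝓝 x₀.val, ∀ h ∈ {h | h ∈ H ∧ ∃ x ∈ K₀, kact (Φ.L h) x ∈ K}, ∀ a ∈ A₀,
        ε < ‖kact (Φ.L h) x₀.val - a‖ → ε < ‖kact (Φ.L h) x - a‖ := by
      refine (eventually_all_finite hF₀).2 fun h _ => (eventually_all_finite hf).2 fun a _ =>
        eventually_imp_distrib_left.2 fun e => ?_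
      have c : ContinuousAt (kact (Φ.L h)) x₀.val := (Φ.lor h).continuousOn_kact.continuousAt
        (closedBall_mem_nhds_of_mem (mem_ball_zero_iff.2 x₀.lt))
      exact (c.sub continuousAt_const).norm.eventually (lt_mem_nhds e)
    filter_upwards [s3, mem_interior_iff_mem_nhds.1 i₀] with x h₃ hx h hh a ha e
    refine not_lt.1 fun e' => (h₃ h ⟨hh, x, hx, mK hε' a ha _ ?_ e⟩ a ha e').not_ge e
    exact (Φ.lor h).norm_kact_le (mem_ball_zero_iff.1 (s₀ hx)).le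

theorem away_model1 (hζ : ζ ∉ Φ.Lim (Φ.Cen g)) (h : ¬ Φ.Att g ζ) : ∃ c > 0,
    (∀ h ∈ Φ.Cen g, c ≤ rho (Φ.pt h).val ζ) ∧ ∀ a, Φ.Att g a → c ≤ rho a ζ := by
  obtain ⟨ε, hε, e⟩ := Φ.exists_le_pbasic hζ
  obtain ⟨K, c₀, i₀, s₀⟩ := exists_compact_subset (Φ.isClosed_lim _).isOpen_compl hζ
  have hf := (finite_fix_inter c₀ (subset_compl_iff_disjoint_right.1 s₀)).sdiff (t := {ζ})
  obtain ⟨δ, hδ, e'⟩ := Metric.mem_nhds_iff.1 (inter_mem (mem_interior_iff_mem_nhds.1 i₀)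
    (hf.isClosed.isOpen_compl.mem_nhds fun h => h.2 rfl))
  have key : ∀ (x : ℂ) (r : ℝ), ‖x‖ ≤ 1 → min ε δ ≤ r → r ≤ ‖x - ζ‖ →
      min ε δ ^ 2 / 2 ≤ rho x ζ := fun x r hx h1 h2 => by
    have := norm_sub_sq_le hx ζ.norm_coe.le
    have := pow_le_pow_left₀ (lt_min hε hδ).le (h1.trans h2) 2
    linarith
  refine ⟨min ε δ ^ 2 / 2, half_pos (pow_pos (lt_min hε hδ) 2), fun h hh =>
    key _ ε (Φ.pt h).lt.le (min_le_left _ _) (e h hh), fun a ha =>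
    key _ δ a.norm_coe.le (min_le_right _ _) (not_lt.1 fun hlt => ?_)⟩
  have hb : a ∈ ball ζ δ := (dist_eq_norm (a : ℂ) ζ).trans_lt hlt
  exact (e' hb).2 ⟨⟨ha.1, (e' hb).1⟩, fun e => h (mem_singleton_iff.1 e ▸ ha)⟩

theorem limit_model1 (hg : Stable g) {b : ℕ} (hb : 1 ≤ b) {C : ℝ} {x y : ℕ → KD} {q : ℕ → ℂ}
    (hζ : ζ ∉ Φ.Lim (Φ.Cen g)) (hs : ∀ n, Φ.Step (g ^ b) C (x n) (y n))
    (hx : Tendsto (fun n => (x n).val) atTop (𝓝 ζ))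
    (hq : ∀ n, (x n).val ∈ segment ℝ (y n).val (q n))
    (h1 : Φ.Att g ζ → ∀ᶠ n in atTop, q n = ζ)
    (h2 : ¬ Φ.Att g ζ → ∃ c > 0, ∀ n, c ≤ rho (q n) ζ) : False := by
  have hx0 : Tendsto (fun n => rho (x n).val ζ) atTop (𝓝 0) :=
    rho_circle_self ζ ▸ tendsto_rho hx tendsto_const_nhds
  have pos : ∀ z : KD, 0 < rho z.val ζ := fun z => rho_pos z.lt ζ.norm_coe.le
  by_cases hA : Φ.Att g ζ
  · obtain ⟨ε, hε, e⟩ := ((att_pow hg hb).2 hA).sattr C (1 / 2) one_half_pos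
    obtain ⟨n, hn, hn'⟩ := ((h1 hA).and (hx0.eventually (gt_mem_nhds hε))).exists
    have h3 := e _ _ (hs n) hn'
    have h4 := rho_le_of_segment (ζ := ζ) (hq n) le_rfl
      (by rw [hn, rho_circle_self]; exact (pos _).le)
    linarith [pos (x n)]
  · obtain ⟨c, hc, e⟩ := h2 hA
    have h3 : ∀ᶠ n in atTop, rho (y n).val ζ ≤ rho (x n).val ζ := by
      filter_upwards [hx0.eventually (gt_mem_nhds hc)] with n hn
      have := le_rho_of_segment (ζ := ζ) (hq n) (min_le_left _ c) ((min_le_right _ _).trans (e n))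
      exact (min_le_iff.1 this).resolve_right hn.not_ge
    have hy := tendsto_rho (Φ.step_tendsto hs hx) (tendsto_const_nhds (x := (ζ : ℂ)))
    have h4 : g ^ b • ζ = ζ := by
      by_contra hne
      exact (rho_pos_of_ne (g ^ b • ζ).norm_coe.le fun e => hne (Subtype.ext e)).not_ge
        (le_of_tendsto_of_tendsto hy hx0 h3)
    have h5 : g • ζ = ζ := by
      have : ζ ∈ Fix (g ^ b) := h4
      rwa [hg.fix_pow hb] at this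
    obtain ⟨ε, hε, e'⟩ := ((att_inv_pow hg hb).2 ((att_or h5 hζ).resolve_left hA)).sattr C (1 / 2)
      one_half_pos
    obtain ⟨n, hn, hn'⟩ := (h3.and (hx0.eventually (gt_mem_nhds hε))).exists
    have h6 := e' _ _ (PreFuchs.Step.symm _ (hs n)) (hn.trans_lt hn')
    linarith [pos (x n)]

theorem model_geom (hg : Stable g) : ∃ Q : ℂ → Set ℂ, (∀ x, Convex ℝ (Q x)) ∧
    (∀ x, Q x ⊆ closedBall 0 1) ∧ (∀ x₀ : KD, ∃ q, ∀ᶠ x in 𝓝 x₀.val, q ∈ Q x) ∧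
    (∀ h ∈ Φ.Cen g, ∀ x : KD, ∀ q ∈ Q x.val, kact (Φ.L h) q ∈ Q (kact (Φ.L h) x.val)) ∧
    ∀ b : ℕ, 1 ≤ b → ∀ C, ∃ R, ∀ x y : KD, Φ.Step (g ^ b) C x y → ∀ q ∈ Q x.val,
      x.val ∈ segment ℝ y.val q → Φ.Near (Φ.Cen g) R x := by
  have hH : ∀ h ∈ Φ.Cen g, Φ.ht h = 0 := fun h hh => hh.1
  obtain ⟨A₀, hf, hd, hA⟩ := Φ.fin_att_model1 g
  obtain ⟨ε, hε, c1, c2⟩ := caps_model1 hH hf hd
  set S : Set ℂ := {z | (∃ h ∈ Φ.Cen g, z = (Φ.pt h).val) ∨ ∃ a, Φ.Att g a ∧ z = a} with hS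
  have sS : S ⊆ closedBall 0 1 := by
    rintro _ (⟨h, -, rfl⟩ | ⟨a, -, rfl⟩)
    · exact mem_closedBall_zero_iff.2 (Φ.pt h).lt.le
    · exact mem_closedBall_zero_iff.2 a.norm_coe.le
  have sC : convexHull ℝ S ⊆ closedBall 0 1 := convexHull_min sS (convex_closedBall 0 1)
  have mul : ∀ h ∈ Φ.Cen g, ∀ (u : 𝔊) (x : KD),
      kact (Φ.L (h * u)) x.val = kact (Φ.L h) (kact (Φ.L u) x.val) := fun h hh u x =>
    congrArg KD.val (Φ.mv_mul hh.1 u x)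
  set Q : ℂ → Set ℂ := fun x => {q | q ∈ convexHull ℝ S ∧ ∀ a, Φ.Att g a → ∀ h ∈ Φ.Cen g,
    h • a ∈ A₀ → ‖kact (Φ.L h) x - (h • a : Circle)‖ ≤ ε → q = a} with hQ
  have eqv : ∀ h ∈ Φ.Cen g, ∀ x : KD, ∀ q ∈ Q x.val,
      kact (Φ.L h) q ∈ Q (kact (Φ.L h) x.val) := by
    intro h hh x q hq
    refine ⟨convexHull_mono ?_ ((Φ.lor h).convexHull sS hq.1), fun a ha k hk hka e => ?_⟩
    · rintro _ ⟨_, ⟨k, hk, rfl⟩ | ⟨a, ha, rfl⟩, rfl⟩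
      · exact Or.inl ⟨h * k, mul_mem hh hk, (mul h hh k KD.o).symm⟩
      · exact Or.inr ⟨h • a, ha.smul_cen hh, (Φ.bd_eq h a hh.1).symm⟩
    · have e1 : (k * h) • h⁻¹ • a = k • a := by rw [smul_smul, mul_inv_cancel_right]
      rw [hq.2 (h⁻¹ • a) (ha.smul_cen (inv_mem hh)) (k * h) (mul_mem hk hh) (e1.symm ▸ hka)
        (by rw [e1, mul k hk]; exact e), ← Φ.bd_eq h _ hh.1, smul_inv_smul]
  refine ⟨Q, fun x => ?_, fun x q hq => sC hq.1, fun x₀ => ?_, eqv, fun b hb C => ?_⟩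
  · intro q hq q' hq' s t hs ht hst
    refine ⟨convex_convexHull ℝ S hq.1 hq'.1 hs ht hst, fun a ha h hh h1 h2 => ?_⟩
    rw [hq.2 a ha h hh h1 h2, hq'.2 a ha h hh h1 h2, ← add_smul, hst, one_smul]
  · have : ∃ q, q ∈ Q x₀.val := by
      by_cases hx : ∃ a, Φ.Att g a ∧ ∃ h ∈ Φ.Cen g, h • a ∈ A₀ ∧
          ‖kact (Φ.L h) x₀.val - (h • a : Circle)‖ ≤ ε
      · obtain ⟨a, ha, h, hh, h1, h2⟩ := hx
        refine ⟨a, subset_convexHull ℝ S (Or.inr ⟨a, ha, rfl⟩), fun a' _ h' hh' h1' h2' => ?_⟩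
        have e := c1 (h' * h⁻¹) (mul_mem hh' (inv_mem hh)) _ h1 _ h1' (Φ.mv h x₀).val
          (Φ.mv h x₀).lt.le h2 (by
            rw [mul h' hh', ← Φ.mv_val h⁻¹, Φ.mv_inv_mv hh.1]
            exact h2')
        rw [smul_smul, inv_mul_cancel_right, smul_left_cancel_iff] at e
        rw [e]
      · exact ⟨_, subset_convexHull ℝ S (Or.inl ⟨1, one_mem _, rfl⟩),
          fun a ha h hh h1 h2 => (hx ⟨a, ha, h, hh, h1, h2⟩).elim⟩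
    obtain ⟨q, hq⟩ := this
    exact ⟨q, (c2 x₀).mono fun x hx =>
      ⟨hq.1, fun a ha h hh h1 h2 => hq.2 a ha h hh h1 (hx h hh _ h1 h2)⟩⟩
  · by_contra hc
    have hc' : ∀ n : ℕ, ∃ x y : KD, ∃ q, Φ.Step (g ^ b) C x y ∧ q ∈ Q x.val ∧
        x.val ∈ segment ℝ y.val q ∧ ¬ Φ.Near (Φ.Cen g) n x := by
      intro n
      by_contra h
      exact hc ⟨n, fun x y h1 q h2 h3 => by_contra fun h4 => h ⟨x, y, q, h1, h2, h3, h4⟩⟩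
    choose x y q h1 h2 h3 h4 using hc'
    obtain ⟨h, φ, ζ, -, hh, -, ht, hb'⟩ := Φ.exists_dirichlet_limit hH h4
    have hζ : ζ ∉ Φ.Lim (Φ.Cen g) := fun e => not_hbfree_cen e hb'
    have hq := fun n => eqv _ (hh n) _ _ (h2 (φ n))
    refine limit_model1 hg hb (C := C) (y := fun n => Φ.mv (h n) (y (φ n)))
      (q := fun n => kact (Φ.L (h n)) (q (φ n))) hζ (fun n => ?_) ht (fun n => ?_) (fun ha => ?_)
      fun ha => ?_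
    · have := PreFuchs.Step.move _ (h1 (φ n)) (hh n).1 (hh n).1
      rwa [(Φ.cen_le_pow g b (hh n)).2, mul_inv_cancel_right] at this
    · exact (Φ.lor _).segment (y _).lt.le (mem_closedBall_zero_iff.1 (sC (h2 _).1)) (h3 _)
    · obtain ⟨k, hk, e⟩ := hA ζ ha
      have c := ((Φ.lor k).continuousOn_kact ζ (mem_closedBall_zero_iff.2 ζ.norm_coe.le)).tendsto.comp
        (tendsto_nhdsWithin_iff.2 ⟨ht, Eventually.of_forall fun n =>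
          mem_closedBall_zero_iff.2 (Φ.mv _ _).lt.le⟩)
      rw [← Φ.bd_eq k ζ hk.1] at c
      filter_upwards [c.eventually (closedBall_mem_nhds _ hε)] with n hn
      exact (hq n).2 ζ ha k hk e (mem_closedBall_iff_norm.1 hn)
    · obtain ⟨c, hc, e, e'⟩ := away_model1 hζ ha
      refine ⟨c, hc, fun n => le_rho_of_convexHull (hq n).1 ?_⟩
      rintro _ (⟨k, hk, rfl⟩ | ⟨a, ha, rfl⟩)
      · exact e k hk
      · exact e' a ha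

end Fuchs

end Pool.Agent.P.MP_788ef7_an
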