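import Pool.Agent.P.MP_788ef7_an.NC1
import Pool.Agent.P.MP_788ef7_an.Hull

set_option autoImplicit false

open Set Filter Topology Metric

namespace Pool.Agent.P.MP_788ef7_an

namespace Fuchs

variable {𝔊 : Type*} [Group 𝔊] [MulAction 𝔊 Circle] {Φ : Fuchs 𝔊} {g g' γ δ u u' G g₀ : 𝔊}
  {H : Subgroup 𝔊} {ξ η ζ a b c d p q a₁ a₂ r₁ r₂ a₁' a₂' r₁' r₂' : Circle} {k : ℕ} {T : Set 𝔊}

theorem pow_fix_nc (h : ξ ∈ Fix g) (n : ℕ) : g ^ n • ξ = ξ :=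
  MulAction.mem_stabilizer_iff.1 (pow_mem (MulAction.mem_stabilizer_iff.2 h) n)

omit [MulAction 𝔊 Circle] in
theorem alg_nc {A B A' B' P P' Q Q' : 𝔊} (e1 : A * B⁻¹ * P = P * (A * B⁻¹))
    (e2 : A' * B'⁻¹ * P' = P' * (A' * B'⁻¹))
    (e : A⁻¹ * (P * P'⁻¹ * A') = B⁻¹ * (P * Q * (P' * Q')⁻¹ * B')) :
    A * B⁻¹ * Q = A' * B'⁻¹ * Q' := by
  calc A * B⁻¹ * Q = P⁻¹ * (A * B⁻¹ * P) * Q := by rw [e1]; group
    _ = P⁻¹ * (A * (B⁻¹ * (P * Q * (P' * Q')⁻¹ * B')) * B'⁻¹ * (P' * Q')) := by group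
    _ = P'⁻¹ * (A' * B'⁻¹ * P') * Q' := by rw [← e]; group
    _ = A' * B'⁻¹ * Q' := by rw [e2]; group

theorem eq_ht_nc (hg : Stable g) (hg' : Stable g') (he : Ess g) (he' : Ess g')
    (hh : Φ.ht g = Φ.ht g') (hne : Fix g ≠ Fix g') (ha : a ∈ Φ.RSet g) (hb : b ∈ Φ.RSet g)
    (hc : c ∈ Φ.RSet g') (hd : d ∈ Φ.RSet g') : ¬ Linked a b c d := by
  intro h
  have fa := rset_subset g ha
  have fb := rset_subset g hb
  have fc := rset_subset g' hc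
  have fd := rset_subset g' hd
  have hl : ∀ n : ℕ, Linked a b (g ^ n • c) (g ^ n • d) := fun n => by
    have := (linked_smul Φ.cont (g ^ n)).2 h
    rwa [pow_fix_nc fa, pow_fix_nc fb] at this
  choose x hx hx' using fun n => (hl n).cross
  have h0 : ∀ n : ℕ, Φ.ht (g ^ n * (g' ^ n)⁻¹) = 0 := fun n => by
    rw [Φ.ht_mul, Φ.ht_inv, Φ.ht_pow, Φ.ht_pow, hh, add_neg_cancel]
  have h0' : ∀ n : ℕ, Φ.ht (g ^ n * (g' ^ n)⁻¹)⁻¹ = 0 := fun n => by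
    rw [Φ.ht_inv, h0, neg_zero]
  have hs : ∀ (n : ℕ) (ξ : Circle), (g ^ n * (g' ^ n)⁻¹)⁻¹ • g ^ n • ξ = g' ^ n • ξ :=
    fun n ξ => by rw [mul_inv_rev, _root_.inv_inv, mul_smul, inv_smul_smul]
  obtain ⟨R, hR⟩ := cross_near hg ha hb h hx hx'
  obtain ⟨R', hR'⟩ := cross_near (x := fun n => Φ.mv (g ^ n * (g' ^ n)⁻¹)⁻¹ (x n)) hg' hc hd
    h.symm (fun n => by
      have := Φ.segment_mv (h0' n) (hx' n)
      rwa [hs, hs, pow_fix_nc fc, pow_fix_nc fd] at this) fun n => by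
      have := hx n
      rw [← pow_fix_nc fa n, ← pow_fix_nc fb n] at this
      have := Φ.segment_mv (h0' n) this
      rwa [hs, hs] at this
  choose A hA hA' using hR
  choose B hB hB' using hR'
  obtain ⟨n, m, hnm, e⟩ := Set.Finite.exists_lt_map_eq_of_forall_mem
    (f := fun n => (A n)⁻¹ * (g ^ n * (g' ^ n)⁻¹ * B n)) (fun n => by
      have hi : Φ.ht (A n)⁻¹ = 0 := by rw [Φ.ht_inv, (hA n).1, neg_zero]
      refine ⟨by rw [Φ.ht_mul, Φ.ht_mul, hi, h0, (hB n).1]; rfl, ?_⟩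
      have e1 := hB' n
      rw [← Φ.dist_mv (g ^ n * (g' ^ n)⁻¹), Φ.mv_mv_inv (h0 n), ← Φ.pt_mul (h0 n)] at e1
      rw [← Φ.dist_mv (A n), ← Φ.pt_mul (hA n).1, mul_inv_cancel_left]
      exact (dist_triangle_left _ _ (x n)).trans (add_le_add e1 (hA' n)))
    (Φ.finite_pt KD.o (R' + R))
  obtain ⟨k, rfl⟩ := Nat.exists_eq_add_of_le hnm.le
  have hk : 1 ≤ k := by omega
  have hu := mul_mem (hA n) (inv_mem (hA (n + k)))
  have hu' := mul_mem (hB n) (inv_mem (hB (n + k)))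
  simp only [pow_add] at e
  refine key (hg.pow k) (hg'.pow k) (he.pow k) (he'.pow k) (Φ.cen_le_pow g k hu)
    (Φ.cen_le_pow g' k hu') (alg_nc (Φ.cen_le_pow g n hu).2 (Φ.cen_le_pow g' n hu').2 e) ?_
    (pow_fix_nc fa k) (pow_fix_nc fb k) (pow_fix_nc fc k) (pow_fix_nc fd k) h
  rwa [hg.fix_pow hk, hg'.fix_pow hk]

theorem att_mem_nc (h : Φ.Att g ξ) : ξ ∈ Φ.RSet g⁻¹ :=
  Or.inr (show Φ.Att g⁻¹⁻¹ ξ by rwa [_root_.inv_inv])

theorem lim_mem_nc (h : ξ ∈ Φ.Lim (Φ.Cen g)) : ξ ∈ Φ.RSet g⁻¹ :=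
  Or.inl (by rwa [Φ.cen_inv])

theorem side_nc (hg : Stable g) (hc : Φ.Att g c) (hd : d ∈ Fix g) (hne : c ≠ d)
    (h1 : c ∈ arc p q) (h2 : d ∈ arc p q) : ∃ r ∈ arc p q, r ∈ Φ.RSet g := by
  rcases fix_subset (Φ := Φ) hd with h | h
  · exact ⟨d, h2, h⟩
  rcases arc_subset_of_mem (subset_closure h1) (subset_closure h2) hne with h3 | h3
  · obtain ⟨r, h4, h5⟩ := alt_att hg hc h hne
    exact ⟨r, h3 h4, h5⟩
  · obtain ⟨r, h4, h5⟩ := alt_att hg h hc hne.symm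
    exact ⟨r, h3 h4, h5⟩

/-- No crossing. -/
theorem nc (hg : Stable g) (hg' : Stable g') (he : Ess g) (he' : Ess g') (h0 : 0 < Φ.ht g)
    (h0' : 0 < Φ.ht g') (hne : Fix g ≠ Fix g') (ha : a ∈ Φ.RSet g) (hb : b ∈ Φ.RSet g)
    (hc : c ∈ Φ.RSet g') (hd : d ∈ Φ.RSet g') : ¬ Linked a b c d := by
  obtain ⟨m, hm⟩ := Int.eq_ofNat_of_zero_le h0.le
  obtain ⟨m', hm'⟩ := Int.eq_ofNat_of_zero_le h0'.le
  have h1 : 1 ≤ m := by omega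
  have h1' : 1 ≤ m' := by omega
  refine eq_ht_nc (Φ := Φ) (hg.pow m') (hg'.pow m) (he.pow m') (he'.pow m) ?_ ?_ ?_ ?_ ?_ ?_
  · rw [Φ.ht_pow, Φ.ht_pow, hm, hm', mul_comm]
  · rwa [hg.fix_pow h1', hg'.fix_pow h1]
  · rwa [rset_pow hg h1']
  · rwa [rset_pow hg h1']
  · rwa [rset_pow hg' h1]
  · rwa [rset_pow hg' h1]

theorem nc_inv (hg : Stable g) (hg' : Stable g') (he : Ess g) (he' : Ess g') (h0 : 0 < Φ.ht g)
    (h0' : 0 < Φ.ht g') (hne : Fix g ≠ Fix g') (ha : a ∈ Φ.RSet g⁻¹) (hb : b ∈ Φ.RSet g⁻¹)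
    (hc : c ∈ Φ.RSet g'⁻¹) (hd : d ∈ Φ.RSet g'⁻¹) : ¬ Linked a b c d := by
  have e : ∀ g : 𝔊, Φ.inv.ht g⁻¹ = Φ.ht g := fun g => by
    show -Φ.ht g⁻¹ = _
    rw [Φ.ht_inv, neg_neg]
  rw [← inv_rset] at ha hb hc hd
  exact nc hg.inv hg'.inv he.inv he'.inv (e g ▸ h0) (e g' ▸ h0') (by rwa [fix_inv, fix_inv])
    ha hb hc hd

theorem Reg.nc (h : Φ.Reg g a₁ a₂ r₁ r₂) (h' : Φ.Reg g' a₁' a₂' r₁' r₂') (h0 : 0 < Φ.ht g)
    (h0' : 0 < Φ.ht g') : (a₁ = a₁' ∧ a₂ = a₂') ∨ (a₁ = a₂' ∧ a₂ = a₁') ∨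
      (a₁ ≠ a₁' ∧ a₁ ≠ a₂' ∧ a₂ ≠ a₁' ∧ a₂ ≠ a₂' ∧ ¬ Linked a₁ a₂ a₁' a₂') := by
  by_cases e : Fix g = Fix g'
  · have e1 := h'.att_iff.1 ((att_of_fix_eq h.stable h'.stable h.ess e h0 h0').1 h.att₁)
    have e2 := h'.att_iff.1 ((att_of_fix_eq h.stable h'.stable h.ess e h0 h0').1 h.att₂)
    rcases e1 with e1 | e1 <;> rcases e2 with e2 | e2
    · exact (h.ne_a (e1.trans e2.symm)).elim
    · exact Or.inl ⟨e1, e2⟩
    · exact Or.inr (Or.inl ⟨e1, e2⟩)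
    · exact (h.ne_a (e1.trans e2.symm)).elim
  · have hn : ∀ ξ η : Circle, Φ.Att g ξ → Φ.Att g' η → ξ ≠ η := by
      rintro ξ _ h1 h2 rfl
      obtain ⟨v, hv, hv', -⟩ := common_fix h.stable h'.stable h0.ne' h0'.ne' e h1.1 h2.1
      rw [h.cen] at hv'
      exact hv (Subgroup.mem_bot.1 hv')
    exact Or.inr (Or.inr ⟨hn _ _ h.att₁ h'.att₁, hn _ _ h.att₁ h'.att₂, hn _ _ h.att₂ h'.att₁,
      hn _ _ h.att₂ h'.att₂, nc_inv h.stable h'.stable h.ess h'.ess h0 h0' e (att_mem_nc h.att₁)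
        (att_mem_nc h.att₂) (att_mem_nc h'.att₁) (att_mem_nc h'.att₂)⟩)

/-- The limit set of the centraliser of another class is not separated by the fixed points. -/
theorem not_sep (hg : Stable g) (hG : Stable G) (he : Ess g) (he' : Ess G) (h0 : 0 < Φ.ht g)
    (h0' : 0 < Φ.ht G) (hd : Disjoint (Fix g) (Fix G)) (ha : a ∈ Φ.Lim (Φ.Cen g))
    (hb : b ∈ Φ.Lim (Φ.Cen g)) (hc : c ∈ Fix G) (hd' : d ∈ Fix G) : ¬ Linked a b c d := by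
  have hne : Fix g ≠ Fix G := fun e => by
    obtain ⟨ξ, hξ⟩ := hg.2
    exact Set.disjoint_left.1 hd hξ (e ▸ hξ)
  have P : ∀ a b c d : Circle, a ∈ Φ.Lim (Φ.Cen g) → b ∈ Φ.Lim (Φ.Cen g) → Φ.Att G c →
      Φ.Att G⁻¹ d → c ∈ arc a b → d ∈ arc b a → False := by
    intro a b c d ha hb hc hd' h1 h2
    obtain ⟨e, he1, he2, he3⟩ : ∃ e ∈ Fix G, c ≠ e ∧ d ≠ e := by
      obtain ⟨x, hx, y, hy, z, hz, e1, e2, e3⟩ := he'
      by_contra hcon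
      have : ∀ e ∈ Fix G, c = e ∨ d = e := fun e he => by
        by_contra h3
        exact hcon ⟨e, he, (not_or.1 h3).1, (not_or.1 h3).2⟩
      rcases this x hx with rfl | rfl <;> rcases this y hy with rfl | rfl <;>
        rcases this z hz with rfl | rfl <;> simp at e1 e2 e3
    have hab : a ≠ b := Cyc.ne₁₃ h1
    rcases arc_trichotomy hab e with h3 | h3 | h3 | h3
    · exact Set.disjoint_left.1 hd (lim_cen_subset g ha) (h3 ▸ he1)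
    · exact Set.disjoint_left.1 hd (lim_cen_subset g hb) (h3 ▸ he1)
    · obtain ⟨r, h4, h5⟩ := side_nc hG hc he1 he2 h1 h3
      exact nc hg hG he he' h0 h0' hne (Or.inl ha) (Or.inl hb) h5 (Or.inr hd')
        (linked_iff.2 (Or.inl ⟨h4, h2⟩))
    · obtain ⟨r, h4, h5⟩ := side_nc hG.inv hd' (by rwa [fix_inv]) he3 h2 h3
      exact nc_inv hg hG he he' h0 h0' hne (lim_mem_nc ha) (lim_mem_nc hb) (att_mem_nc hc) h5
        (linked_iff.2 (Or.inl ⟨h1, h4⟩))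
  have P' : ∀ c d : Circle, Φ.Att G c → d ∈ Φ.RSet G → ¬ Linked a b c d := by
    rintro c d h1 (h2 | h2) h
    · exact nc_inv hg hG he he' h0 h0' hne (lim_mem_nc ha) (lim_mem_nc hb) (att_mem_nc h1)
        (lim_mem_nc h2) h
    · rcases linked_iff.1 h with h | h
      · exact P a b c d ha hb h1 h2 h.1 h.2
      · exact P b a c d hb ha h1 h2 h.2 h.1
  intro h
  rcases fix_subset (Φ := Φ) hc with h1 | h1 <;> rcases fix_subset (Φ := Φ) hd' with h2 | h2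
  · exact nc hg hG he he' h0 h0' hne (Or.inl ha) (Or.inl hb) h1 h2 h
  · exact P' d c h2 h1 h.swap_right
  · exact P' c d h1 h2 h
  · exact nc_inv hg hG he he' h0 h0' hne (lim_mem_nc ha) (lim_mem_nc hb) (att_mem_nc h1)
      (att_mem_nc h2) h

end Fuchs

end Pool.Agent.P.MP_788ef7_an
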