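import Pool.Agent.P.MP_788ef7_an.Hyp
import Pool.Agent.P.MP_788ef7_an.Arc1

set_option autoImplicit false

open Set Filter Topology Metric

namespace Pool.Agent.P.MP_788ef7_an

namespace Fuchs

variable {𝔊 : Type*} [Group 𝔊] [MulAction 𝔊 Circle] {Φ : Fuchs 𝔊} {g g' γ δ u u' G g₀ : 𝔊}
  {H : Subgroup 𝔊} {ξ η ζ a b c d p q a₁ a₂ r₁ r₂ a₁' a₂' r₁' r₂' : Circle} {k : ℕ} {T : Set 𝔊}

theorem fix_of_cen_nc1 (hu : u ∈ Φ.Cen g) (h1 : u ≠ 1) (h : u • ξ = ξ) : g • ξ = ξ := by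
  obtain ⟨a, b, hab⟩ := exists_ax (Φ := Φ) hu.1 h1
  obtain ⟨ha, hb⟩ := hab.fix_of_comm hu.2
  rcases hab.fix h with rfl | rfl
  · exact ha
  · exact hb

theorem ess_arc_nc1 (he : Ess g) (h : p ≠ q) :
    ∃ ξ, g • ξ = ξ ∧ (ξ ∈ arc p q ∨ ξ ∈ arc q p) := by
  obtain ⟨a, ha, b, hb, c, hc, h1, h2, h3⟩ := he
  rcases arc_trichotomy h a with e1 | e1 | e1
  · rcases arc_trichotomy h b with e2 | e2 | e2
    · exact absurd (e1.trans e2.symm) h1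
    · rcases arc_trichotomy h c with e3 | e3 | e3
      · exact absurd (e1.trans e3.symm) h3
      · exact absurd (e2.trans e3.symm) h2
      · exact ⟨c, hc, e3⟩
    · exact ⟨b, hb, e2⟩
  · rcases arc_trichotomy h b with e2 | e2 | e2
    · rcases arc_trichotomy h c with e3 | e3 | e3
      · exact absurd (e2.trans e3.symm) h2
      · exact absurd (e1.trans e3.symm) h3
      · exact ⟨c, hc, e3⟩
    · exact absurd (e1.trans e2.symm) h1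
    · exact ⟨b, hb, e2⟩
  · exact ⟨a, ha, e1⟩

theorem mem_closure_nc1 (h : p ≠ q) : ξ ∈ closure (arc q p) ↔ ξ ∉ arc p q := by
  rw [closure_arc h.symm, insert_comm, ← compl_arc h, mem_compl_iff]

theorem rc_side_nc1 (hu : u ∈ Φ.Cen g) (h1 : u ≠ 1) (hg : Stable g) (he' : Ess (u * g))
    (hpq : p ≠ q) (hp : u • p = p) (hq : u • q = q) (hξ : ξ ∈ arc p q) (h : g • ξ = ξ) :
    Fix g ⊆ closure (arc p q) ∧ Fix (u * g) ⊆ closure (arc q p) := by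
  have h2 : ∀ η, (u * g) • η = η → η ∉ arc p q := fun η hη hη' =>
    rc hu h1 hg.1 hp hq hξ hη' h hη
  obtain ⟨η, hη, h3⟩ := ess_arc_nc1 he' hpq
  have h4 : η ∈ arc q p := h3.resolve_left (h2 η hη)
  exact ⟨fun ζ hζ => (mem_closure_nc1 hpq.symm).2 fun h5 => rc hu h1 hg.1 hq hp h5 h4 hζ hη,
    fun ζ hζ => (mem_closure_nc1 hpq).2 (h2 ζ hζ)⟩

theorem rc' (hu : u ∈ Φ.Cen g) (h1 : u ≠ 1) (hg : Stable g) (he : Ess g) (he' : Ess (u * g)) :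
    ∃ p q, p ≠ q ∧ u • p = p ∧ u • q = q ∧ Fix g ⊆ closure (arc p q) ∧
      Fix (u * g) ⊆ closure (arc q p) := by
  obtain ⟨a, b, hab⟩ := exists_ax (Φ := Φ) hu.1 h1
  obtain ⟨ξ, h, h2 | h2⟩ := ess_arc_nc1 he hab.ne
  · exact ⟨a, b, hab.ne, hab.fa, hab.fb, rc_side_nc1 hu h1 hg he' hab.ne hab.fa hab.fb h2 h⟩
  · exact ⟨b, a, hab.ne.symm, hab.fb, hab.fa,
      rc_side_nc1 hu h1 hg he' hab.ne.symm hab.fb hab.fa h2 h⟩

theorem key_one_nc1 (hg : Stable g) (he : Ess g) (he' : Ess g') (hu : u ∈ Φ.Cen g)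
    (h : g' = u * g) (hne : Fix g ≠ Fix g') (ha : a ∈ Fix g)
    (hb : b ∈ Fix g) (hc : c ∈ Fix g') (hd : d ∈ Fix g') : ¬ Linked a b c d := by
  subst h
  have h1 : u ≠ 1 := fun h => hne (by rw [h, one_mul])
  obtain ⟨p, q, hpq, -, -, h2, h3⟩ := rc' hu h1 hg he he'
  exact not_linked_of_disjoint (disjoint_arc p q) hpq hpq.symm (h2 ha) (h2 hb) (h3 hc) (h3 hd)

theorem key (hg : Stable g) (hg' : Stable g') (he : Ess g) (he' : Ess g') (hu : u ∈ Φ.Cen g)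
    (hu' : u' ∈ Φ.Cen g') (h : u * g = u' * g') (hne : Fix g ≠ Fix g') (ha : a ∈ Fix g)
    (hb : b ∈ Fix g) (hc : c ∈ Fix g') (hd : d ∈ Fix g') : ¬ Linked a b c d := by
  by_cases h1 : u = 1
  · rw [h1, one_mul] at h
    exact fun hl => key_one_nc1 hg' he' he hu' h hne.symm hc hd ha hb hl.symm
  by_cases h1' : u' = 1
  · rw [h1', one_mul] at h
    exact key_one_nc1 hg he he' hu h.symm hne ha hb hc hd
  by_cases h2 : ∃ ξ : Circle, u • ξ = ξ ∧ u' • ξ = ξ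
  · obtain ⟨ξ, h2, h3⟩ := h2
    have h4 : u' ∈ Φ.Cen g :=
      ⟨hu'.1, comm_of_fix_end hu'.1 h1' h3 (fix_of_cen_nc1 hu h1 h2)⟩
    refine key_one_nc1 hg he he' ((Φ.Cen g).mul_mem ((Φ.Cen g).inv_mem h4) hu) ?_ hne ha hb hc hd
    rw [mul_assoc, h, inv_mul_cancel_left]
  have f1 : ∀ ξ : Circle, u • ξ = ξ → ξ ∈ Fix (u * g) := fun ξ hξ => by
    change (u * g) • ξ = ξ
    rw [mul_smul, fix_of_cen_nc1 hu h1 hξ, hξ]
  have f2 : ∀ ξ : Circle, u' • ξ = ξ → ξ ∈ Fix (u' * g') := fun ξ hξ => by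
    change (u' * g') • ξ = ξ
    rw [mul_smul, fix_of_cen_nc1 hu' h1' hξ, hξ]
  have hE : Ess (u * g) := by
    obtain ⟨p, q, hpq⟩ := exists_ax (Φ := Φ) hu.1 h1
    obtain ⟨p', q', hpq'⟩ := exists_ax (Φ := Φ) hu'.1 h1'
    refine ⟨p, f1 p hpq.fa, q, f1 q hpq.fb, p', h ▸ f2 p' hpq'.fa, hpq.ne, ?_, ?_⟩
    · rintro rfl
      exact h2 ⟨_, hpq.fb, hpq'.fa⟩
    · rintro rfl
      exact h2 ⟨_, hpq.fa, hpq'.fa⟩
  obtain ⟨p, q, hpq, hp, hq, s1, s2⟩ := rc' hu h1 hg he hE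
  obtain ⟨p', q', hpq', hp', hq', s1', s2'⟩ := rc' hu' h1' hg' he' (h ▸ hE)
  rcases arc_eq_or_disjoint ((mem_closure_nc1 hpq').1 (s2' (h ▸ f1 p hp)))
    ((mem_closure_nc1 hpq').1 (s2' (h ▸ f1 q hq))) ((mem_closure_nc1 hpq).1 (s2 (h ▸ f2 p' hp')))
    ((mem_closure_nc1 hpq).1 (s2 (h ▸ f2 q' hq'))) with h3 | h3
  · exact absurd ⟨p, hp, h3.1 ▸ hp'⟩ h2
  · exact not_linked_of_disjoint h3 hpq hpq' (s1 ha) (s1 hb) (s1' hc) (s1' hd)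

end Fuchs

end Pool.Agent.P.MP_788ef7_an
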