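import Pool.Agent.P.MP_788ef7_an.Fam
import Pool.Agent.P.MP_788ef7_an.Baire
import Pool.Agent.P.MP_788ef7_an.DL

set_option autoImplicit false

open Set Filter Topology Metric

namespace Pool.Agent.P.MP_788ef7_an

namespace Setting

variable {𝔾 X E : Type*} [Group 𝔾] [MetricSpace X] [MulAction 𝔾 X] [ProperSpace X]
  [NormedAddCommGroup E] [NormedSpace ℝ E] [FiniteDimensional ℝ E] {S : Setting 𝔾 X E}
  {g g' G G' γ c w : 𝔾} {p p' q x y z : X} {C : Subgroup 𝔾} {K : Set X} {R : ℝ}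
  {𝔊 : Type*} [Group 𝔊] [MulAction 𝔊 Circle] {Φ : Fuchs 𝔊} {pj : 𝔾 →* 𝔊} {pr : X → KD}
  {set : X → KD → X} {H : Subgroup 𝔊} {a₁ a₂ r₁ r₂ : Circle}
  {Good : 𝔾 → Prop} {F F' : Fam 𝔾 X} {a₁' a₂' r₁' r₂' : Circle}

omit [ProperSpace X] [FiniteDimensional ℝ E] in
theorem pow_fix_ni (hp : G • p = p) (n : ℕ) : G ^ n • p = p :=
  pow_mem (show G ∈ MulAction.stabilizer 𝔾 p from hp) n

theorem pow_pos_ni (hG : 0 < S.ht G) {n : ℕ} (hn : 1 ≤ n) : 0 < S.ht (G ^ n) := by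
  rw [S.ht_pow]
  exact mul_pos (by exact_mod_cast hn) hG

omit [ProperSpace X] [FiniteDimensional ℝ E] in
theorem conj_fix_ni (hp : G • p = p) (w : 𝔾) : (w * G * w⁻¹) • w • p = w • p := by
  rw [mul_smul, mul_smul, inv_smul_smul, hp]

omit [ProperSpace X] [FiniteDimensional ℝ E] in
theorem DR.core_ni (h : S.Half Φ pj pr set Good F) (d : S.DR Φ pj Good G p a₁ a₂ r₁ r₂) :
    Φ.Core ⊥ (pj G) :=
  Fuchs.Regular.core ⟨_, _, _, _, d.reg⟩ (by rw [h.hf.ht_eq]; exact d.pos)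

omit [ProperSpace X] [FiniteDimensional ℝ E] in
theorem Half.bad_conj_ni (h : S.Half Φ pj pr set Good F) (w G : 𝔾)
    (hb : ∀ a : ℕ, 1 ≤ a → ¬ Good (G ^ a)) (a : ℕ) (ha : 1 ≤ a) : ¬ Good ((w * G * w⁻¹) ^ a) :=
  fun hg => hb a ha (by
    rw [conj_pow] at hg
    simpa [mul_assoc] using h.fac.conj w⁻¹ _ hg)

theorem DR.pow (h : S.Half Φ pj pr set Good F) (d : S.DR Φ pj Good G p a₁ a₂ r₁ r₂) {n : ℕ}
    (hn : 1 ≤ n) : S.DR Φ pj Good (G ^ n) p a₁ a₂ r₁ r₂ :=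
  ⟨pow_pos_ni d.pos hn, pow_fix_ni d.fix n, by rw [map_pow]; exact d.reg.pow hn,
    h.fac.pow G n hn d.good⟩

theorem DR.conj (h : S.Half Φ pj pr set Good F) (d : S.DR Φ pj Good G p a₁ a₂ r₁ r₂) (w : 𝔾) :
    S.DR Φ pj Good (w * G * w⁻¹) (w • p) (pj w • a₁) (pj w • a₂) (pj w • r₁) (pj w • r₂) :=
  ⟨by rw [S.ht_conj]; exact d.pos, conj_fix_ni d.fix w,
    by rw [map_mul, map_mul, map_inv]; exact d.reg.conj _, h.fac.conj w G d.good⟩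

theorem DR.inv (hi : ∀ G, Good G → Good G⁻¹) (d : S.DR Φ pj Good G p a₁ a₂ r₁ r₂) :
    S.inv.DR Φ.inv pj Good G⁻¹ p r₁ r₂ a₁ a₂ :=
  ⟨show 0 < -S.ht G⁻¹ by rw [S.ht_inv, neg_neg]; exact d.pos, inv_smul_eq_iff.2 d.fix.symm,
    Fuchs.inv_reg.2 (by rw [map_inv]; exact d.reg.inv), hi G d.good⟩

theorem DR.of_inv (hi : ∀ G, Good G → Good G⁻¹) (d : S.inv.DR Φ.inv pj Good G p a₁ a₂ r₁ r₂) :
    S.DR Φ pj Good G⁻¹ p r₁ r₂ a₁ a₂ :=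
  ⟨by rw [S.ht_inv]; exact d.pos, inv_smul_eq_iff.2 d.fix.symm,
    by rw [map_inv]; exact (Fuchs.inv_reg.1 d.reg).inv, hi G d.good⟩

theorem DR.swap_a (d : S.DR Φ pj Good G p a₁ a₂ r₁ r₂) : S.DR Φ pj Good G p a₂ a₁ r₁ r₂ :=
  ⟨d.pos, d.fix, d.reg.swap_a, d.good⟩

theorem DR.swap_r (d : S.DR Φ pj Good G p a₁ a₂ r₁ r₂) : S.DR Φ pj Good G p a₁ a₂ r₂ r₁ :=
  ⟨d.pos, d.fix, d.reg.swap_r, d.good⟩

/-- A good fixed point gives a group with finitely many periodic orbits that traps the compact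
parts of the stable manifold. -/
theorem DR.trap (h : S.Half Φ pj pr set Good F) (d : S.DR Φ pj Good G p a₁ a₂ r₁ r₂) :
    ∃ C, S.FinPer C G ∧ ∀ T, IsCompact T → ∃ K, IsCompact K ∧ ∀ z ∈ S.Ws p ∩ T,
      z ∈ Stay G (Tr C K) := by
  obtain ⟨C, κ, ψ, hf, -, -, -, -, -, -, -, e3⟩ := h.fac.esc ⊥ G p (d.core_ni h) d.good d.fix
  refine ⟨C, hf, fun T hT => ?_⟩
  obtain ⟨L, hL⟩ := (hT.image h.hf.continuous_pr).isBounded.subset_closedBall KD.o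
  obtain ⟨R, hR⟩ := h.hf.core_ws (d.core_ni h) d.fix L
  obtain ⟨K, hK, e⟩ := e3 R T hT
  exact ⟨K, hK, fun z hz => e z hz (hR z hz.1 (mem_nearP_bot.2 (hL ⟨z, hz.2, rfl⟩)))⟩

/-- No unstable manifold of a good fixed point stays near a core. -/
theorem Half.not_wu (h : S.Half Φ pj pr set Good F) (hu : 2 ≤ S.u) (hc : Φ.Core H (pj G))
    (hg : Good G) (hp : G • p = p) (R : ℝ) : ¬ S.Wu p ⊆ NearP Φ pr H R := fun hW => by
  obtain ⟨C, κ, ψ, hf, c1, c2, c3, c4, c5, e1, e2, e3'⟩ := h.fac.esc H G p hc hg hp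
  obtain ⟨R', hR'⟩ := h.hf.core_ws hc hp R
  refine e3 hf (by rw [← h.hf.ht_eq]; exact hc.pos) hp hu c1 c2 c3 c4 (B := NearP Φ pr H R)
    (fun s z hz => ?_) ?_ (fun M => ?_) fun T hT => ?_
  · change Φ.Near H R (pr (ψ s z))
    rw [c5]
    exact hW hz
  · obtain ⟨M, hM⟩ := e1 R'
    exact ⟨M, fun z hz hB => hM z hz (hR' z hz hB)⟩
  · obtain ⟨K, hK, e⟩ := e2 R M
    refine ⟨K, hK, fun z hz => e z hz fun n => hW ?_⟩
    have := wu_zpow hp hz (-n)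
    rwa [zpow_neg, zpow_natCast, ← inv_pow] at this
  · obtain ⟨K, hK, e⟩ := e3' R' T hT
    exact ⟨K, hK, fun z hz hB => e z hz (hR' z hz.1 hB)⟩

/-- No interior. -/
theorem Half.ni (h : S.Half Φ pj pr set Good F) (hu : 2 ≤ S.u) (hc : Φ.Core H (pj g)) (R : ℝ) :
    S.Thin (Stay g (NearP Φ pr H R)) := fun U hU hs => by
  by_contra hne
  have hs' : U ⊆ Stay g (NearP Φ pr H R) := fun z hz => hs ⟨hz, h.univ ▸ mem_univ z⟩
  have hk := h.fac.bad.k_pos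
  have hg : 0 < S.ht g := by rw [← h.hf.ht_eq]; exact hc.pos
  obtain ⟨j, hj⟩ : ∃ j : ℕ, S.ht g = (j + 1 : ℕ) := ⟨(S.ht g).toNat - 1, by omega⟩
  have hc1 : Φ.Core H (pj (g ^ F.k)) := by simpa using hc.pow H.one_mem hk
  obtain ⟨G, p, hG, hp, hb, hm⟩ := baire h.fac.bad.region h.bad_conj_ni h.fac.bad.trap hk hU
    (nonempty_iff_ne_empty.2 hne) fun i w n hw R' => by
      refine ((h.fac.dt hu H _ hc1 i (j + 1) (by omega) (by rw [S.ht_pow, hj])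
        (F.g i ^ (n * j) * w * ((g ^ F.k) ^ n)⁻¹) ?_ R R').smul ((g ^ F.k) ^ n)).mono ?_
      · rw [S.ht_mul, S.ht_mul, S.ht_inv, S.ht_pow, S.ht_pow, S.ht_pow, hw, hj, h.fac.bad.ht_g]
        push_cast
        ring
      · rintro z ⟨⟨hz, hw'⟩, -⟩
        refine ⟨stay_smul (stay_pow _ (hs' hz)) n, stay_pow _ ?_⟩
        rw [mul_smul, inv_smul_smul, mul_smul]
        exact stay_smul hw' _
  push Not at hb
  obtain ⟨a₀, ha₀, hgood⟩ := hb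
  obtain ⟨w, a, j', c, hcC, ha, hj', e, hW⟩ := uy h.univ (h.hf.region hc) hU hs'
    (pow_pos_ni hG ha₀) (pow_fix_ni hp a₀) hm
  refine h.not_wu hu (H := H) (G := w * (G ^ a₀) ^ a * w⁻¹) ?_
    (h.fac.conj w _ (h.fac.pow _ a ha hgood)) (conj_fix_ni (pow_fix_ni (pow_fix_ni hp a₀) a) w)
    (R + 2) fun z hz => by simpa using hW hz 0
  rw [e, map_mul, map_pow]
  exact hc.pow hcC hj'

/-- Stable manifolds of doubly regular points are dense. -/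
theorem Half.dens (h : S.Half Φ pj pr set Good F) (hu : 2 ≤ S.u) (ht : S.ThinFam F) {U : Set X}
    (hU : IsOpen U) (hne : U.Nonempty) : ∃ G p a₁ a₂ r₁ r₂, S.DR Φ pj Good G p a₁ a₂ r₁ r₂ ∧
      (S.Ws p ∩ U).Nonempty := by
  obtain ⟨F₁, H₁, hb, hF⟩ := h.hf.fam h.iness
  obtain ⟨R₁, t₁⟩ := hb.trap
  obtain ⟨R₂, t₂⟩ := h.fac.bad.trap
  obtain ⟨G, p, hG, hp, hbad, hm⟩ := baire (S := S) (C := Sum.elim F₁.C F.C)
    (g := Sum.elim F₁.g F.g) (A := Sum.elim F₁.A F.A)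
    (Bad := fun G => (∀ a : ℕ, 1 ≤ a → ¬ Φ.Regular (pj (G ^ a))) ∨ ∀ a : ℕ, 1 ≤ a → ¬ Good (G ^ a))
    (fun i => match i with
      | .inl i => hb.region i
      | .inr i => h.fac.bad.region i)
    (fun w G hG => hG.imp (fun hG a ha hr => hG a ha (by
      rw [conj_pow] at hr
      simpa [mul_assoc] using hr.conj (pj w)⁻¹)) (h.bad_conj_ni w G))
    ⟨max R₁ R₂, fun G p hG h0 hp => hG.elim
      (fun hG => let ⟨i, γ, e, m⟩ := t₁ G p hG h0 hp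
        ⟨.inl i, γ, e, stay_mono ((hb.region i).mono (le_max_left _ _)) m⟩)
      fun hG => let ⟨i, γ, e, m⟩ := t₂ G p hG h0 hp
        ⟨.inr i, γ, e, stay_mono ((h.fac.bad.region i).mono (le_max_right _ _)) m⟩⟩
    le_rfl hU (by rwa [h.univ, inter_univ]) fun i w n _ R => match i with
      | .inl i => ((h.ni hu (hF i).1 R).smul w).mono fun z hz => by
          have := hz.1.2
          rwa [Sum.elim_inl, Sum.elim_inl, (hF i).2] at this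
      | .inr i => ((ht i R).smul w).mono fun z hz => hz.1.2
  push Not at hbad
  obtain ⟨⟨a, ha, hr⟩, b, hb', hg⟩ := hbad
  obtain ⟨a₁, a₂, r₁, r₂, hr'⟩ := hr.pow hb'
  refine ⟨(G ^ a) ^ b, p, a₁, a₂, r₁, r₂, ⟨pow_pos_ni (pow_pos_ni hG ha) hb',
    pow_fix_ni (pow_fix_ni hp a) b, by rwa [map_pow], ?_⟩, hm⟩
  rw [← pow_mul, mul_comm, pow_mul]
  exact h.fac.pow _ a ha hg

theorem Half.two (h : S.Half Φ pj pr set Good F) (hu : 2 ≤ S.u) (ht : S.ThinFam F) {U : Set X}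
    (hU : IsOpen U) (hne : U.Nonempty) : ∃ G p a₁ a₂ r₁ r₂ G' p' a₁' a₂' r₁' r₂',
      S.DR Φ pj Good G p a₁ a₂ r₁ r₂ ∧ S.DR Φ pj Good G' p' a₁' a₂' r₁' r₂' ∧
      (S.Ws p ∩ U).Nonempty ∧ (S.Ws p' ∩ U).Nonempty ∧
      r₁ ≠ r₁' ∧ r₁ ≠ r₂' ∧ r₂ ≠ r₁' ∧ r₂ ≠ r₂' := by
  obtain ⟨z₀, hz₀⟩ := hne
  have hU₁ : IsOpen (U ∩ pr ⁻¹' ball KD.o (dist (pr z₀) KD.o + 1)) :=
    hU.inter (isOpen_ball.preimage h.hf.continuous_pr)
  have hz₁ : z₀ ∈ U ∩ pr ⁻¹' ball KD.o (dist (pr z₀) KD.o + 1) :=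
    ⟨hz₀, mem_ball.2 (lt_add_one _)⟩
  obtain ⟨G, p, a₁, a₂, r₁, r₂, d, z, hz, hzU⟩ := h.dens hu ht hU₁ ⟨z₀, hz₁⟩
  have hc := d.core_ni h
  obtain ⟨R, hR⟩ := h.hf.core_fwd hc (dist (pr z₀) KD.o + 1)
  obtain ⟨G', p', a₁', a₂', r₁', r₂', d', z', hz', hzU', hcl⟩ := h.dens hu ht
    (hU₁.sdiff (isClosed_closure (s := Stay G (NearP Φ pr ⊥ R)))) (by
      rw [diff_nonempty]
      intro hsub
      have := h.ni hu hc (R + 1) _ hU₁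
        (inter_subset_left.trans (hsub.trans ((h.hf.region hc).closure_stay R)))
      rw [h.univ, inter_univ] at this
      exact (this ▸ hz₁ : z₀ ∈ (∅ : Set X)))
  have hc' := d'.core_ni h
  have key : ∀ ξ : Circle, (pj G)⁻¹ • ξ = ξ → (pj G')⁻¹ • ξ = ξ → False := fun ξ h1 h2 => by
    by_cases e : Fix (pj G) = Fix (pj G')
    · obtain ⟨m, n, hm, hn, e'⟩ := Fuchs.exists_pow_eq d.reg.ess e hc.pos hc'.pos
      obtain ⟨L, hL⟩ := h.hf.ws_stay d'.pos d'.fix hz' ⊥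
      obtain ⟨R', hR'⟩ := h.hf.stay_of_pow (g := G) hc.le (fun a ha => (hc.norm a).1 ha) hm L
      refine hcl (subset_closure (hR z' (mem_nearP_bot.2 (le_of_lt hzU'.2)) ⟨R', hR' ?_⟩))
      rw [h.hf.stay_eq (g' := G' ^ n) (by rw [map_pow, map_pow, e'])]
      exact stay_pow n hL
    · obtain ⟨v, hv, hv', -⟩ := Fuchs.common_fix d.reg.stable d'.reg.stable hc.pos.ne' hc'.pos.ne'
        e (inv_smul_eq_iff.1 h1).symm (inv_smul_eq_iff.1 h2).symm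
      rw [d.reg.cen] at hv'
      exact hv hv'
  exact ⟨G, p, a₁, a₂, r₁, r₂, G', p', a₁', a₂', r₁', r₂', d, d', ⟨z, hz, hzU.1⟩,
    ⟨z', hz', hzU'.1⟩, fun e => key r₁ d.reg.rep₁.1 (e ▸ d'.reg.rep₁.1),
    fun e => key r₁ d.reg.rep₁.1 (e ▸ d'.reg.rep₂.1),
    fun e => key r₂ d.reg.rep₂.1 (e ▸ d'.reg.rep₁.1),
    fun e => key r₂ d.reg.rep₂.1 (e ▸ d'.reg.rep₂.1)⟩

end Setting

end Pool.Agent.P.MP_788ef7_an
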