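import Pool.Agent.P.MP_788ef7_an.Hyp

set_option autoImplicit false

open Set Filter Topology Metric

namespace Pool.Agent.P.MP_788ef7_an

theorem exists_minimal {G : Type*} [Group G] [MulAction G Circle]
    (hc : ∀ g : G, Continuous fun ξ : Circle => g • ξ) (A : Subgroup G) {K : Set Circle}
    (hK : IsCompact K) (hne : K.Nonempty) : ∃ N : Set Circle, IsClosed N ∧
      (∀ a ∈ A, ∀ ξ ∈ N, a • ξ ∈ N) ∧ (N ∩ K).Nonempty ∧ ∀ ξ ∈ N, (∃ a ∈ A, a • ξ ∈ K) →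
        ∀ J : Set Circle, IsOpen J → (J ∩ N).Nonempty → ∃ a ∈ A, a • ξ ∈ J := by
  obtain ⟨N, -, hN⟩ := zorn_superset_nonempty
    {N : Set Circle | IsClosed N ∧ (∀ a ∈ A, ∀ ξ ∈ N, a • ξ ∈ N) ∧ (N ∩ K).Nonempty}
    (fun c hcS hch hcn => by
      refine ⟨⋂₀ c, ⟨isClosed_sInter fun s hs => (hcS hs).1, fun a ha ξ hξ s hs =>
        (hcS hs).2.1 a ha ξ (hξ s hs), ?_⟩, fun s hs => sInter_subset_of_mem hs⟩
      have : Nonempty c := hcn.to_subtype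
      have hd : Directed (· ⊇ ·) fun s : c => (s : Set Circle) ∩ K := fun s s' => by
        rcases hch.total s.2 s'.2 with h | h
        · exact ⟨s, Subset.rfl, inter_subset_inter_left _ h⟩
        · exact ⟨s', inter_subset_inter_left _ h, Subset.rfl⟩
      obtain ⟨x, hx⟩ := IsCompact.nonempty_iInter_of_directed_nonempty_isCompact_isClosed _ hd
        (fun s => (hcS s.2).2.2) (fun s => hK.inter_left (hcS s.2).1)
        fun s => (hcS s.2).1.inter hK.isClosed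
      rw [mem_iInter] at hx
      exact ⟨x, fun s hs => (hx ⟨s, hs⟩).1, (hx (Classical.arbitrary c)).2⟩)
    univ ⟨isClosed_univ, fun _ _ _ _ => mem_univ _, by rwa [univ_inter]⟩
  obtain ⟨h1, h2, h3⟩ := hN.prop
  refine ⟨N, h1, h2, h3, fun ξ hξ ⟨a, ha, haK⟩ J hJ ⟨η, hηJ, hηN⟩ => ?_⟩
  have hsub : closure {η | ∃ b ∈ A, b • ξ = η} ⊆ N :=
    closure_minimal (by rintro _ ⟨b, hb, rfl⟩; exact h2 b hb ξ hξ) h1
  have hmem : N ⊆ closure {η | ∃ b ∈ A, b • ξ = η} := by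
    refine hN.le_of_le ⟨isClosed_closure, fun b hb η hη => ?_, a • ξ,
      subset_closure ⟨a, ha, rfl⟩, haK⟩ hsub
    refine map_mem_closure (hc b) hη ?_
    rintro _ ⟨d, hd, rfl⟩
    exact ⟨b * d, A.mul_mem hb hd, mul_smul _ _ _⟩
  obtain ⟨_, h4, b, hb, rfl⟩ := mem_closure_iff.1 (hmem hηN) J hJ hηJ
  exact ⟨b, hb, h4⟩

set_option linter.unusedVariables false in
/-- Two points with the same limit are not separated by a minimal set. -/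
theorem not_linked_of_tendsto {G : Type*} [Group G] [MulAction G Circle]
    (hc : ∀ g : G, Continuous fun ξ : Circle => g • ξ) {f : ℕ → G} (ho : ∀ n, OP (f n))
    {M M₀ : Set Circle} (hi : M₀.Infinite) (hm : ∀ J : Set Circle, IsOpen J → (J ∩ M).Nonempty →
      ∃ S : Set G, S.Finite ∧ ∀ n, ∀ ξ ∈ M₀, ∃ s ∈ S, (f n)⁻¹ • s • ξ ∈ J) {ξ₁ ξ₂ α m m' : Circle}
    (h₁ : Tendsto (fun n => f n • ξ₁) atTop (𝓝 α)) (h₂ : Tendsto (fun n => f n • ξ₂) atTop (𝓝 α))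
    (hm₁ : m ∈ M) (hm₂ : m' ∈ M) : ¬ Linked ξ₁ ξ₂ m m' := by
  intro hl
  have hJ : (arc ξ₁ ξ₂ ∩ M).Nonempty ∧ (arc ξ₂ ξ₁ ∩ M).Nonempty := by
    rcases linked_iff.1 hl with ⟨k1, k2⟩ | ⟨k1, k2⟩
    · exact ⟨⟨m, k1, hm₁⟩, m', k2, hm₂⟩
    · exact ⟨⟨m', k1, hm₂⟩, m, k2, hm₁⟩
  obtain ⟨S₁, f₁, H₁⟩ := hm _ (isOpen_arc _ _) hJ.1
  obtain ⟨S₂, f₂, H₂⟩ := hm _ (isOpen_arc _ _) hJ.2
  refine hi (((f₁.union f₂).image fun s => s⁻¹ • α).subset fun ξ hξ => ?_)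
  by_contra hno
  have hV : ((fun s => s • ξ) '' (S₁ ∪ S₂))ᶜ ∈ 𝓝 α := by
    refine ((f₁.union f₂).image _).isClosed.isOpen_compl.mem_nhds ?_
    rintro ⟨s, hs, e⟩
    exact hno ⟨s, hs, by simp only [← e, inv_smul_smul]⟩
  obtain ⟨δ, hδ, H⟩ := small_arc α hV
  obtain ⟨n, k1, k2⟩ :=
    ((Metric.tendsto_nhds.1 h₁ δ hδ).and (Metric.tendsto_nhds.1 h₂ δ hδ)).exists
  rcases H _ _ k1 k2 with h | h
  · obtain ⟨s, hs, k⟩ := H₁ n ξ hξ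
    have := (ho n).mem_arc.2 k
    rw [smul_inv_smul] at this
    exact h this ⟨s, Or.inl hs, rfl⟩
  · obtain ⟨s, hs, k⟩ := H₂ n ξ hξ
    have := (ho n).mem_arc.2 k
    rw [smul_inv_smul] at this
    exact h this ⟨s, Or.inr hs, rfl⟩

theorem four_niel1 {x y X Y : Circle} (h : X ∈ arc x y) (h' : Y ∈ arc y x) :
    ∃ t₁ t₂ t₃ t₄ : Circle, (Linked t₁ t₃ x y ∧ Linked t₁ t₄ x y ∧ Linked t₂ t₃ x y ∧
      Linked t₂ t₄ x y) ∧ Linked t₁ t₂ X Y ∧ Linked t₁ t₃ X Y ∧ Linked t₂ t₄ X Y ∧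
      Linked t₃ t₄ X Y := by
  obtain ⟨t₁, k₁⟩ := arc_nonempty (Cyc.ne₁₂ h)
  obtain ⟨t₂, k₂⟩ := arc_nonempty (Cyc.ne₂₃ h)
  obtain ⟨t₃, k₃⟩ := arc_nonempty (Cyc.ne₁₂ h')
  obtain ⟨t₄, k₄⟩ := arc_nonempty (Cyc.ne₂₃ h')
  obtain ⟨θ, -, m, H⟩ := exists_theta_arc1 x
  have m1 := m y
  have m2 := m X
  have m3 := m Y
  have m4 := m t₁
  have m5 := m t₂
  have m6 := m t₃
  have m7 := m t₄
  rw [H] at h h' k₁ k₂ k₃ k₄
  have e : θ x < θ t₁ ∧ θ t₁ < θ X ∧ θ X < θ t₂ ∧ θ t₂ < θ y ∧ θ y < θ t₃ ∧ θ t₃ < θ Y ∧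
    θ Y < θ t₄ := by grind
  clear h h' k₁ k₂ k₃ k₄
  refine ⟨t₁, t₂, t₃, t₄, ?_⟩
  simp only [linked_iff, H]
  grind

theorem three_niel1 {a b d : Circle} (hab : a ≠ b) (hbd : b ≠ d) (had : a ≠ d) :
    ∃ u v w : Circle, Linked u v a b ∧ Linked v w b d ∧ Linked u w a d := by
  have key : ∀ a b d : Circle, b ∈ arc a d →
      ∃ u v w : Circle, Linked u v a b ∧ Linked v w b d ∧ Linked u w a d ∧ Linked u v b d ∧
        Linked v w a d ∧ Linked u w a b := fun a b d h => by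
    obtain ⟨u, k₁⟩ := arc_nonempty (Cyc.ne₁₂ h)
    obtain ⟨v, k₂⟩ := arc_nonempty (Cyc.ne₂₃ h)
    obtain ⟨w, k₃⟩ := arc_nonempty (Cyc.ne₁₃ h).symm
    obtain ⟨θ, -, m, H⟩ := exists_theta_arc1 a
    have m1 := m b
    have m2 := m d
    have m4 := m u
    have m5 := m v
    have m6 := m w
    rw [H] at h k₁ k₂ k₃
    have e : θ a < θ u ∧ θ u < θ b ∧ θ b < θ v ∧ θ v < θ d ∧ θ d < θ w := by grind
    clear h k₁ k₂ k₃
    refine ⟨u, v, w, ?_⟩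
    simp only [linked_iff, H]
    grind
  rcases cyc_total hab hbd had with h | h
  · obtain ⟨u, v, w, h1, h2, h3, -⟩ := key a b d h
    exact ⟨u, v, w, h1, h2, h3⟩
  · obtain ⟨u, v, w, h1, h2, h3, -⟩ := key d b a h
    exact ⟨w, v, u, h2.swap_left.swap_right, h1.swap_left.swap_right, h3.swap_left.swap_right⟩

theorem rho_lim_niel1 {x y : ℕ → Circle} {α : Circle} {c : ℝ} (hc : 0 < c)
    (hx : Tendsto x atTop (𝓝 α)) (hy : Tendsto y atTop (𝓝 α)) :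
    ∀ᶠ n in atTop, rho (x n) (y n) < c := by
  have := tendsto_rho ((continuous_subtype_val.tendsto α).comp hx)
    ((continuous_subtype_val.tendsto α).comp hy)
  have e : rho (α : ℂ) α = 0 := rho_circle_self α
  exact this.eventually_lt_const (e.trans_lt hc)

theorem rho_ge_niel1 {x : ℕ → Circle} {w β : Circle} (h : w ≠ β) (hx : Tendsto x atTop (𝓝 w)) :
    ∃ c > 0, ∀ᶠ n in atTop, c ≤ rho (x n) β := by
  have h0 : 0 < rho w β := rho_pos_of_ne w.norm_coe.le fun e => h (Circle.ext e)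
  have := tendsto_rho ((continuous_subtype_val.tendsto w).comp hx)
    (tendsto_const_nhds (x := (β : ℂ)))
  exact ⟨rho w β / 2, half_pos h0, this.eventually_const_le (half_lt_self h0)⟩

namespace Fuchs

variable {𝔊 : Type*} [Group 𝔊] [MulAction 𝔊 Circle] {Φ : Fuchs 𝔊} {g g' γ δ u u' G g₀ : 𝔊}
  {H : Subgroup 𝔊} {ξ η ζ a b c d p q a₁ a₂ r₁ r₂ a₁' a₂' r₁' r₂' : Circle} {k : ℕ} {T : Set 𝔊}

theorem types_niel1 {f : ℕ → 𝔊} {M : Set Circle} (hγ : Φ.ht γ = 0)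
    (hi : Function.Injective fun n => f n * γ * (f n)⁻¹)
    (hM : ∀ φ : ℕ → ℕ, StrictMono φ → ∀ ξ₁ ξ₂ α : Circle,
      Tendsto (fun n => f (φ n) • ξ₁) atTop (𝓝 α) → Tendsto (fun n => f (φ n) • ξ₂) atTop (𝓝 α) →
        ∀ m ∈ M, ∀ m' ∈ M, ¬ Linked ξ₁ ξ₂ m m') (t₁ t₂ t₃ t₄ : Circle) :
    ∃ P Q : Circle → Prop, (P t₁ ∨ Q t₁) ∧ (P t₂ ∨ Q t₂) ∧ (P t₃ ∨ Q t₃) ∧ (P t₄ ∨ Q t₄) ∧
      (∀ s s', P s → P s' → ∀ m ∈ M, ∀ m' ∈ M, ¬ Linked s s' m m') ∧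
      ∀ s s', Q s → Q s' → ∀ m ∈ M, ∀ m' ∈ M, ¬ Linked s s' (γ • m) (γ • m') := by
  have h0 : ∀ n, Φ.ht (f n * γ * (f n)⁻¹ * γ⁻¹) = 0 := fun n => by
    rw [Φ.ht_mul, Φ.ht_conj, Φ.ht_inv, hγ]; rfl
  obtain ⟨α, β, φ, hφ, hα, hβ⟩ := Φ.exists_conv h0 (Φ.tendsto_dist_of_injective h0
    fun n m e => hi (mul_right_cancel e))
  obtain ⟨v, -, ψ, hψ, hv⟩ := (isCompact_univ (X := Circle × Circle × Circle × Circle)).tendsto_subseq
    (x := fun n => (f (φ n) • γ⁻¹ • t₁, f (φ n) • γ⁻¹ • t₂, f (φ n) • γ⁻¹ • t₃, f (φ n) • γ⁻¹ • t₄))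
    fun _ => mem_univ _
  have key : ∀ t w : Circle, Tendsto (fun n => f (φ (ψ n)) • γ⁻¹ • t) atTop (𝓝 w) →
      Tendsto (fun n => f (φ (ψ n)) • t) atTop (𝓝 α) ∨
      Tendsto (fun n => f (φ (ψ n)) • γ⁻¹ • t) atTop (𝓝 (γ⁻¹ • β)) := fun t w hw => by
    by_cases e : γ • w = β
    · exact Or.inr (by rwa [← e, inv_smul_smul])
    · obtain ⟨c, hc, H⟩ := rho_ge_niel1 e (((Φ.cont γ).tendsto w).comp hw)
      refine Or.inl ((Φ.conv_smul (fun n => h0 (φ (ψ n))) (hα.comp hψ.tendsto_atTop)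
        (hβ.comp hψ.tendsto_atTop) hc H).congr fun n => ?_)
      simp only [Function.comp, mul_smul, inv_smul_smul, smul_inv_smul]
  refine ⟨fun t => Tendsto (fun n => f (φ (ψ n)) • t) atTop (𝓝 α),
    fun t => Tendsto (fun n => f (φ (ψ n)) • γ⁻¹ • t) atTop (𝓝 (γ⁻¹ • β)),
    key _ _ hv.fst_nhds, key _ _ hv.snd_nhds.fst_nhds, key _ _ hv.snd_nhds.snd_nhds.fst_nhds,
    key _ _ hv.snd_nhds.snd_nhds.snd_nhds, fun s s' hs hs' => hM _ (hφ.comp hψ) _ _ _ hs hs',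
    fun s s' hs hs' m hm m' hm' hl => hM _ (hφ.comp hψ) _ _ _ hs hs' m hm m' hm' ?_⟩
  rw [← linked_smul Φ.cont γ, smul_inv_smul, smul_inv_smul]
  exact hl

theorem nocross {f : ℕ → 𝔊} {M : Set Circle} (hγ : Φ.ht γ = 0)
    (hi : Function.Injective fun n => f n * γ * (f n)⁻¹)
    (hM : ∀ φ : ℕ → ℕ, StrictMono φ → ∀ ξ₁ ξ₂ α : Circle,
      Tendsto (fun n => f (φ n) • ξ₁) atTop (𝓝 α) → Tendsto (fun n => f (φ n) • ξ₂) atTop (𝓝 α) →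
        ∀ m ∈ M, ∀ m' ∈ M, ¬ Linked ξ₁ ξ₂ m m') :
    (∀ x ∈ M, ∀ y ∈ M, ∀ x' ∈ M, ∀ y' ∈ M, ¬ Linked x y (γ • x') (γ • y')) ∧
      ∀ a ∈ M, ∀ b ∈ M, ∀ d ∈ M, a ≠ b → b ≠ d → a ≠ d → γ • a ∈ M → γ • b ∈ M → γ • d ∉ M := by
  have key : ∀ x ∈ M, ∀ y ∈ M, ∀ x' ∈ M, ∀ y' ∈ M, γ • x' ∈ arc x y → γ • y' ∈ arc y x → False := by
    intro x hx y hy x' hx' y' hy' h h'
    obtain ⟨t₁, t₂, t₃, t₄, ⟨l1, l2, l3, l4⟩, l5, l6, l7, l8⟩ := four_niel1 h h'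
    obtain ⟨P, Q, h1, h2, h3, h4, HP, HQ⟩ := types_niel1 hγ hi hM t₁ t₂ t₃ t₄
    have p1 := fun k k' => HP _ _ k k' x hx y hy l1
    have p2 := fun k k' => HP _ _ k k' x hx y hy l2
    have p3 := fun k k' => HP _ _ k k' x hx y hy l3
    have p4 := fun k k' => HP _ _ k k' x hx y hy l4
    have p5 := fun k k' => HQ _ _ k k' x' hx' y' hy' l5
    have p6 := fun k k' => HQ _ _ k k' x' hx' y' hy' l6
    have p7 := fun k k' => HQ _ _ k k' x' hx' y' hy' l7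
    have p8 := fun k k' => HQ _ _ k k' x' hx' y' hy' l8
    rcases h1 with h1 | h1 <;> rcases h3 with h3 | h3
    · exact p1 h1 h3
    · exact h4.elim (p2 h1) (p8 h3)
    · exact h2.elim (fun h2 => p3 h2 h3) (p5 h1)
    · exact p6 h1 h3
  refine ⟨fun x hx y hy x' hx' y' hy' hl => ?_, fun a ha b hb d hd hab hbd had ka kb kd => ?_⟩
  · rcases linked_iff.1 hl with ⟨h, h'⟩ | ⟨h, h'⟩
    · exact key x hx y hy x' hx' y' hy' h h'
    · exact key x hx y hy y' hy' x' hx' h h'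
  · obtain ⟨u, v, w, l1, l2, l3⟩ := three_niel1 (fun e => hab (MulAction.injective γ e))
      (fun e => hbd (MulAction.injective γ e)) fun e => had (MulAction.injective γ e)
    obtain ⟨P, Q, h1, h2, h3, -, HP, HQ⟩ := types_niel1 hγ hi hM u v w w
    rcases h1 with h1 | h1 <;> rcases h2 with h2 | h2
    · exact HP _ _ h1 h2 _ ka _ kb l1
    · exact h3.elim (fun h3 => HP _ _ h1 h3 _ ka _ kd l3) fun h3 => HQ _ _ h2 h3 b hb d hd l2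
    · exact h3.elim (fun h3 => HP _ _ h2 h3 _ kb _ kd l2) fun h3 => HQ _ _ h1 h3 a ha d hd l3
    · exact HQ _ _ h1 h2 a ha b hb l1

theorem coset_niel1 (hH : ∀ h ∈ H, Φ.ht h = 0) (hl : ζ ∉ Φ.Lim H) {x y : ℕ → Circle} {c : ℝ}
    (hc : 0 < c) (hx : Tendsto x atTop (𝓝 ζ)) (hy : Tendsto y atTop (𝓝 ζ)) {h : ℕ → 𝔊}
    (hh : ∀ n, h n ∈ H) (g : 𝔊) :
    ¬ ∀ n, c ≤ rho (g • h n • x n : Circle) (g • h n • y n : Circle) := by
  intro hr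
  have h0 : ∀ n, Φ.ht (h n) = 0 := fun n => hH _ (hh n)
  by_cases ht : Tendsto (fun n => dist (Φ.pt (h n)) KD.o) atTop atTop
  · obtain ⟨α, β, φ, hφ, hα, hβ⟩ := Φ.exists_conv h0 ht
    have hβH : β ∈ Φ.Lim H :=
      Φ.mem_lim_of_near (R := 0) (fun n => ⟨_, H.inv_mem (hh (φ n)), (dist_self _).le⟩) hβ
    have key : ∀ z : ℕ → Circle, Tendsto z atTop (𝓝 ζ) →
        Tendsto (fun n => g • h (φ n) • z (φ n)) atTop (𝓝 (g • α)) := fun z hz => by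
      obtain ⟨c', hc', H'⟩ := rho_ge_niel1 (fun e : ζ = β => hl (e ▸ hβH))
        (hz.comp hφ.tendsto_atTop)
      exact ((Φ.cont g).tendsto α).comp (Φ.conv_smul (fun n => h0 (φ n)) hα hβ hc' H')
    obtain ⟨n, hn⟩ := (rho_lim_niel1 hc (key x hx) (key y hy)).exists
    exact hn.not_ge (hr _)
  · rw [Filter.tendsto_atTop, not_forall] at ht
    obtain ⟨R, hR⟩ := ht
    have hev : ∀ᶠ n in atTop, ∀ s ∈ {γ | Φ.ht γ = 0 ∧ dist (Φ.pt γ) KD.o ≤ R},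
        rho (g • s • x n : Circle) (g • s • y n : Circle) < c := by
      refine (eventually_all_finite (Φ.finite_pt KD.o R)).2 fun s _ => ?_
      have := ((Φ.cont g).comp (Φ.cont s)).tendsto ζ
      exact rho_lim_niel1 hc (this.comp hx) (this.comp hy)
    refine hR (hev.mono fun n hn => ?_)
    by_contra hlt
    exact (hn _ ⟨h0 n, (not_le.1 hlt).le⟩).not_ge (hr n)

theorem pack {M : Set Circle} (hH : ∀ h ∈ H, Φ.ht h = 0) (hm : AccPt ζ (𝓟 M)) (hl : ζ ∉ Φ.Lim H)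
    (hn : ∀ γ, Φ.ht γ = 0 → γ ∉ H →
      (∀ x ∈ M, ∀ y ∈ M, ∀ x' ∈ M, ∀ y' ∈ M, ¬ Linked x y (γ • x') (γ • y')) ∧
      ∀ a ∈ M, ∀ b ∈ M, ∀ d ∈ M, a ≠ b → b ≠ d → a ≠ d → γ • a ∈ M → γ • b ∈ M → γ • d ∉ M) :
    False := by
  have h3 : ∀ n : ℕ, ∃ e : ℕ → Circle, Function.Injective e ∧
      ∀ i, e i ∈ ball ζ (1 / ((n : ℝ) + 1)) ∩ M := fun n => by
    have := Set.Infinite.of_accPt (hm.nhds_inter (ball_mem_nhds ζ
      (show (0 : ℝ) < 1 / ((n : ℝ) + 1) by positivity)))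
    exact ⟨fun i => (this.natEmbedding _ i).1,
      Subtype.val_injective.comp (this.natEmbedding _).injective, fun i => (this.natEmbedding _ i).2⟩
  choose e he hb using h3
  have hne : ∀ n i j, i ≠ j → e n i ≠ e n j := fun n i j h k => h (he n k)
  have ht : ∀ i, Tendsto (fun n => e n i) atTop (𝓝 ζ) := fun i => by
    rw [tendsto_iff_dist_tendsto_zero]
    exact squeeze_zero (fun _ => dist_nonneg) (fun n => (hb n i).1.le)
      tendsto_one_div_add_atTop_nhds_zero_nat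
  obtain ⟨c, hc, Hc⟩ := Φ.tri
  choose γ h0 hr using fun n => Hc (e n 0) (e n 1) (e n 2) (hne n _ _ (by decide))
    (hne n _ _ (by decide)) (hne n _ _ (by decide))
  have hev : ∀ g : 𝔊, ∀ᶠ n in atTop, g⁻¹ * γ n ∉ H := fun g => by
    by_contra hno
    obtain ⟨φ, hφ, k⟩ := extraction_of_frequently_atTop (not_eventually.1 hno)
    refine coset_niel1 hH hl hc ((ht 0).comp hφ.tendsto_atTop) ((ht 1).comp hφ.tendsto_atTop)
      (fun n => not_not.1 (k n)) g fun n => ?_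
    simp only [mul_smul, smul_inv_smul]
    exact (hr _).1
  obtain ⟨ψ, -, hψ⟩ := exists_seq_of_forall_finset_exists (fun _ : ℕ => True)
    (fun n m => (γ n)⁻¹ * γ m ∉ H) fun s _ => by
      obtain ⟨y, hy⟩ := ((eventually_all_finset s).2 fun n _ => hev (γ n)).exists
      exact ⟨y, trivial, hy⟩
  obtain ⟨n, m, hnm, h⟩ := packing hc (fun n => γ (ψ n) • e (ψ n) 0) (fun n => γ (ψ n) • e (ψ n) 1)
    (fun n => γ (ψ n) • e (ψ n) 2) fun n => hr _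
  obtain ⟨k1, k2⟩ := hn _ (by rw [Φ.ht_mul, Φ.ht_inv, h0, h0]; rfl) (hψ n m hnm)
  have hs : ∀ j, ∀ x ∈ ({γ j • e j 0, γ j • e j 1, γ j • e j 2} : Set Circle),
      ∃ z ∈ M, x = γ j • z := by
    rintro j _ (rfl | rfl | rfl) <;> exact ⟨_, (hb j _).2, rfl⟩
  rcases h with ⟨e0, e1, e2⟩ | ⟨x, hx, y, hy, x', hx', y', hy', h⟩
  · have hq : ∀ i, γ (ψ n) • e (ψ n) i = γ (ψ m) • e (ψ m) i →
        ((γ (ψ n))⁻¹ * γ (ψ m)) • e (ψ m) i ∈ M := fun i k => by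
      rw [mul_smul, ← k, inv_smul_smul]
      exact (hb _ _).2
    exact k2 _ (hb _ 0).2 _ (hb _ 1).2 _ (hb _ 2).2 (hne _ _ _ (by decide)) (hne _ _ _ (by decide))
      (hne _ _ _ (by decide)) (hq 0 e0) (hq 1 e1) (hq 2 e2)
  · obtain ⟨x, kx, rfl⟩ := hs _ x hx
    obtain ⟨y, ky, rfl⟩ := hs _ y hy
    obtain ⟨x', kx', rfl⟩ := hs _ x' hx'
    obtain ⟨y', ky', rfl⟩ := hs _ y' hy'
    refine k1 x kx y ky x' kx' y' ky' ?_
    rw [← linked_smul Φ.cont (γ (ψ n)), mul_smul, mul_smul, smul_inv_smul, smul_inv_smul]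
    exact h

end Fuchs

end Pool.Agent.P.MP_788ef7_an
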