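import Pool.Agent.P.MP_788ef7_an.IDefs

set_option autoImplicit false

open Set Filter Topology Metric

namespace Pool.Agent.P.MP_788ef7_an

variable {E : Type*} [NormedAddCommGroup E] [NormedSpace ℝ E] [FiniteDimensional ℝ E]
  {U : Type*} [NormedAddCommGroup U] [NormedSpace ℝ U] [FiniteDimensional ℝ U]
  {X : Type*} [TopologicalSpace X]

/-- The intertwiner of two projections. -/
def itw_orient1 (P P' : E →L[ℝ] E) : E →L[ℝ] E := P' * P + (1 - P') * (1 - P)

theorem itw_mul_orient1 {P P' : E →L[ℝ] E} (h : P * P = P) (h' : P' * P' = P') :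
    itw_orient1 P P' * P = P' * itw_orient1 P P' := by
  have e1 : (1 - P) * P = 0 := by rw [sub_mul, one_mul, h, sub_self]
  have e2 : P' * (1 - P') = 0 := by rw [mul_sub, mul_one, h', sub_self]
  rw [itw_orient1, add_mul, mul_add, mul_assoc, h, mul_assoc, e1, ← mul_assoc, h', ← mul_assoc, e2,
    mul_zero, zero_mul]

theorem itw_eq_orient1 {P : E →L[ℝ] E} (P' : E →L[ℝ] E) (h : P * P = P) :
    itw_orient1 P P' = 1 - (P - P') * (P + P - 1) := by
  rw [itw_orient1]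
  simp only [mul_sub, sub_mul, mul_add, mul_one, one_mul, h]
  abel

theorem itw_unit_orient1 {P P' : E →L[ℝ] E} (h : P * P = P)
    (hn : ‖P - P'‖ * (2 * ‖P‖ + ‖(1 : E →L[ℝ] E)‖) < 1) : IsUnit (itw_orient1 P P') := by
  haveI : CompleteSpace E := FiniteDimensional.complete ℝ E
  rw [itw_eq_orient1 P' h]
  refine isUnit_one_sub_of_norm_lt_one (((norm_mul_le _ _).trans ?_).trans_lt hn)
  refine mul_le_mul_of_nonneg_left ((norm_sub_le _ _).trans ?_) (norm_nonneg _)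
  have := norm_add_le P P
  linarith

theorem idem_orient1 {P : E →L[ℝ] E} (h : ∀ v, P (P v) = P v) : P * P = P :=
  ContinuousLinearMap.ext h

theorem IsFrame.finrank_orient1 {Q : E →L[ℝ] E} {A : U →L[ℝ] E} (h : IsFrame Q A) :
    Module.finrank ℝ (LinearMap.range (Q : E →ₗ[ℝ] E)) = Module.finrank ℝ U := by
  have e : LinearMap.range (Q : E →ₗ[ℝ] E) = LinearMap.range (A : U →ₗ[ℝ] E) :=
    SetLike.coe_injective h.2.symm
  rw [e]
  exact LinearMap.finrank_range_of_inj h.1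

theorem exists_frame {Q : E →L[ℝ] E}
    (h : Module.finrank ℝ (LinearMap.range (Q : E →ₗ[ℝ] E)) = Module.finrank ℝ U) :
    ∃ A : U →L[ℝ] E, IsFrame Q A := by
  let e := LinearEquiv.ofFinrankEq U (LinearMap.range (Q : E →ₗ[ℝ] E)) h.symm
  refine ⟨LinearMap.toContinuousLinearMap ((LinearMap.range (Q : E →ₗ[ℝ] E)).subtype ∘ₗ e.toLinearMap),
    Subtype.val_injective.comp e.injective, ?_⟩
  ext v
  constructor
  · rintro ⟨u, rfl⟩
    exact (e u).2
  · intro hv
    exact ⟨e.symm ⟨v, hv⟩, congrArg Subtype.val (e.apply_symm_apply ⟨v, hv⟩)⟩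

theorem IsFrame.exists_comp {Q : E →L[ℝ] E} {A A' : U →L[ℝ] E} (h : IsFrame Q A)
    (h' : IsFrame Q A') : ∃ B : U →L[ℝ] U, B.det ≠ 0 ∧ A' = A.comp B := by
  obtain ⟨L, hL⟩ := (A : U →ₗ[ℝ] E).exists_leftInverse_of_injective (LinearMap.ker_eq_bot.2 h.1)
  have hL' : ∀ u, L (A u) = u := fun u => LinearMap.congr_fun hL u
  have key : ∀ u, A' u = A (L (A' u)) := by
    intro u
    have : A' u ∈ Set.range A := by rw [h.2, ← h'.2]; exact ⟨u, rfl⟩
    obtain ⟨w, hw⟩ := this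
    rw [← hw, hL']
  refine ⟨LinearMap.toContinuousLinearMap (L ∘ₗ (A' : U →ₗ[ℝ] E)), ?_, ContinuousLinearMap.ext key⟩
  refine (LinearMap.isUnit_det (L ∘ₗ (A' : U →ₗ[ℝ] E))
    ((LinearMap.isUnit_iff_ker_eq_bot _).2 (LinearMap.ker_eq_bot.2 fun u u' hu => h'.1 ?_))).ne_zero
  have hu' : L (A' u) = L (A' u') := hu
  rw [key u, key u', hu']

theorem IsFrame.eventually {Q : X → E →L[ℝ] E} (hQ : Continuous Q)
    (hi : ∀ x v, Q x (Q x v) = Q x v) {x₀ : X} {A : U →L[ℝ] E} (h : IsFrame (Q x₀) A) :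
    ∀ᶠ x in 𝓝 x₀, IsFrame (Q x) ((Q x).comp A) := by
  have hc : Continuous fun x => ‖Q x₀ - Q x‖ * (2 * ‖Q x₀‖ + ‖(1 : E →L[ℝ] E)‖) := by fun_prop
  have h1 : ∀ᶠ x in 𝓝 x₀, ‖Q x₀ - Q x‖ * (2 * ‖Q x₀‖ + ‖(1 : E →L[ℝ] E)‖) < 1 :=
    hc.continuousAt.eventually_lt continuousAt_const (by simp)
  filter_upwards [h1] with x hx
  have h0 := idem_orient1 (hi x₀)
  obtain ⟨S, hS⟩ := itw_unit_orient1 h0 hx
  have hm := itw_mul_orient1 h0 (idem_orient1 (hi x))
  have hA : ∀ u, Q x₀ (A u) = A u := by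
    intro u
    have : A u ∈ Set.range (Q x₀) := h.2 ▸ ⟨u, rfl⟩
    obtain ⟨w, hw⟩ := this
    rw [← hw, hi]
  have hSA : ∀ u, Q x (A u) = (S : E →L[ℝ] E) (A u) := by
    intro u
    rw [hS, itw_orient1]
    simp [hA]
  have hinv : ∀ v, (↑S⁻¹ : E →L[ℝ] E) ((S : E →L[ℝ] E) v) = v := fun v => by
    rw [← ContinuousLinearMap.mul_apply, Units.inv_mul, ContinuousLinearMap.one_apply]
  have hinv' : ∀ v, (S : E →L[ℝ] E) ((↑S⁻¹ : E →L[ℝ] E) v) = v := fun v => by
    rw [← ContinuousLinearMap.mul_apply, Units.mul_inv, ContinuousLinearMap.one_apply]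
  refine ⟨fun u u' hu => h.1 ?_, Set.Subset.antisymm ?_ ?_⟩
  · have hu' : Q x (A u) = Q x (A u') := hu
    rw [← hinv (A u), ← hinv (A u'), ← hSA, ← hSA, hu']
  · rintro _ ⟨u, rfl⟩
    exact ⟨A u, rfl⟩
  · rintro _ ⟨v, rfl⟩
    have : Q x₀ ((↑S⁻¹ : E →L[ℝ] E) v) ∈ Set.range A := h.2 ▸ ⟨_, rfl⟩
    obtain ⟨u, hu⟩ := this
    refine ⟨u, ?_⟩
    rw [ContinuousLinearMap.comp_apply, hSA, hu, ← ContinuousLinearMap.mul_apply, hS, hm, ← hS,
      ContinuousLinearMap.mul_apply, hinv']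

theorem rank_const [PreconnectedSpace X] {Q : X → E →L[ℝ] E} (hQ : Continuous Q)
    (hi : ∀ x v, Q x (Q x v) = Q x v) (x y : X) :
    Module.finrank ℝ (LinearMap.range (Q x : E →ₗ[ℝ] E)) =
      Module.finrank ℝ (LinearMap.range (Q y : E →ₗ[ℝ] E)) := by
  refine IsLocallyConstant.apply_eq_of_preconnectedSpace
    (f := fun x => Module.finrank ℝ (LinearMap.range (Q x : E →ₗ[ℝ] E)))
    ((IsLocallyConstant.iff_eventually_eq _).2 fun x₀ => ?_) x y
  obtain ⟨A, hA⟩ := exists_frame (Q := Q x₀) (U := LinearMap.range (Q x₀ : E →ₗ[ℝ] E)) rfl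
  filter_upwards [hA.eventually hQ hi] with z hz
  exact hz.finrank_orient1

/-- Transport of a continuous family of projections over a compact star-shaped set. -/
theorem exists_transport {K : Set E} (hK : IsCompact K) {c : E} (hc : StarConvex ℝ c K)
    (hcK : c ∈ K) {Q : E → E →L[ℝ] E} (hQ : ContinuousOn Q K)
    (hi : ∀ x ∈ K, ∀ v, Q x (Q x v) = Q x v) : ∃ T : E → E →L[ℝ] E, ContinuousOn T K ∧
      T c = 1 ∧ ∀ x ∈ K, IsUnit (T x) ∧ (T x).comp (Q x) = (Q c).comp (T x) := by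
  obtain ⟨M, hM⟩ := hK.exists_bound_of_continuousOn hQ
  obtain ⟨R, hR⟩ := hK.exists_bound_of_continuousOn (f := fun x => x - c) (by fun_prop)
  have hM0 : 0 ≤ M := (norm_nonneg _).trans (hM c hcK)
  have hb : 0 < 2 * M + ‖(1 : E →L[ℝ] E)‖ + 1 := by positivity
  obtain ⟨δ, hδ, hu⟩ := Metric.uniformContinuousOn_iff.1 (hK.uniformContinuousOn_of_continuous hQ)
    _ (inv_pos.2 hb)
  obtain ⟨N, hN⟩ := exists_nat_gt (max (R / δ) 0)
  have hN0 : (0 : ℝ) < N := (le_max_right _ _).trans_lt hN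
  have hN1 : R < δ * N := by
    have := (div_lt_iff₀ hδ).1 ((le_max_left _ _).trans_lt hN)
    linarith
  let p : ℕ → E → E := fun j x => c + ((j : ℝ) / N) • (x - c)
  have hp : ∀ j ≤ N, MapsTo (p j) K K := fun j hj x hx =>
    hc.add_smul_sub_mem hx (by positivity) ((div_le_one hN0).2 (by exact_mod_cast hj))
  have hpc : ∀ j, ContinuousOn (p j) K := fun j => by fun_prop
  have hd : ∀ j, ∀ x ∈ K, dist (p (j + 1) x) (p j x) < δ := by
    intro j x hx
    have e : p (j + 1) x - p j x = (N : ℝ)⁻¹ • (x - c) := by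
      simp only [p, add_sub_add_left_eq_sub, ← sub_smul]
      congr 1
      push_cast
      ring
    rw [dist_eq_norm, e, norm_smul, Real.norm_of_nonneg (by positivity), inv_mul_lt_iff₀ hN0]
    have := hR x hx
    linarith
  have key : ∀ j ≤ N, ∃ T : E → E →L[ℝ] E, ContinuousOn T K ∧ T c = 1 ∧
      ∀ x ∈ K, IsUnit (T x) ∧ T x * Q (p j x) = Q c * T x := by
    intro j
    induction j with
    | zero => exact fun _ => ⟨fun _ => 1, continuousOn_const, rfl, fun x _ => by simp [p]⟩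
    | succ j ih =>
      intro hj
      obtain ⟨T, hT, hTc, hT'⟩ := ih (by omega)
      have h1 := hQ.comp (hpc (j + 1)) (hp _ hj)
      have h2 := hQ.comp (hpc j) (hp j (by omega))
      refine ⟨fun x => T x * itw_orient1 (Q (p (j + 1) x)) (Q (p j x)), ?_, ?_, fun x hx => ?_⟩
      · exact hT.mul ((h2.mul h1).add ((continuousOn_const.sub h2).mul (continuousOn_const.sub h1)))
      · have e : ∀ i, p i c = c := fun i => by simp [p]
        simp only [e, hTc, one_mul]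
        rw [itw_eq_orient1 _ (idem_orient1 (hi c hcK)), sub_self, zero_mul, sub_zero]
      · have hx1 := hp _ hj hx
        have hx2 := hp j (by omega) hx
        have i1 := idem_orient1 (hi _ hx1)
        refine ⟨(hT' x hx).1.mul (itw_unit_orient1 i1 ?_), ?_⟩
        · have h3 := hu _ hx1 _ hx2 (hd j x hx)
          rw [dist_eq_norm] at h3
          have h4 := hM _ hx1
          calc _ ≤ (2 * M + ‖(1 : E →L[ℝ] E)‖ + 1)⁻¹ * (2 * M + ‖(1 : E →L[ℝ] E)‖) := by
                gcongr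
            _ < 1 := by rw [inv_mul_lt_iff₀ hb]; linarith
        · rw [mul_assoc, itw_mul_orient1 i1 (idem_orient1 (hi _ hx2)), ← mul_assoc, (hT' x hx).2,
            mul_assoc]
  obtain ⟨T, hT, hTc, hT'⟩ := key N le_rfl
  refine ⟨T, hT, hTc, fun x hx => ⟨(hT' x hx).1, ?_⟩⟩
  have e : p N x = x := by simp [p, div_self hN0.ne']
  have := (hT' x hx).2
  rwa [e] at this

end Pool.Agent.P.MP_788ef7_an
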