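import Pool.Agent.P.MP_788ef7_an.FDefs
import Pool.Agent.P.MP_788ef7_an.IDefs
import Pool.Agent.P.MP_788ef7_an.KL1
import Pool.Agent.P.MP_788ef7_an.KB2

set_option autoImplicit false

open Set Filter Topology Metric

namespace Pool.Agent.P.MP_788ef7_an

namespace PreFuchs

variable {𝔊 : Type*} [Group 𝔊] (Φ : PreFuchs 𝔊) {g g' γ γ' u : 𝔊} {x y : KD} {C R : ℝ}
  {H : Subgroup 𝔊} {ξ ζ : Circle}

theorem ht_pow (g : 𝔊) (n : ℕ) : Φ.ht (g ^ n) = n * Φ.ht g := by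
  induction n with
  | zero => simp [Φ.ht_one]
  | succ n ih => rw [pow_succ, Φ.ht_mul, ih]; push_cast; ring

theorem ht_zpow (g : 𝔊) (n : ℤ) : Φ.ht (g ^ n) = n * Φ.ht g := by
  obtain ⟨m, rfl | rfl⟩ := Int.eq_nat_or_neg n
  · rw [zpow_natCast, Φ.ht_pow]
  · rw [zpow_neg, zpow_natCast, Φ.ht_inv, Φ.ht_pow]; ring

theorem ht_conj (u g : 𝔊) : Φ.ht (u * g * u⁻¹) = Φ.ht g := by
  rw [Φ.ht_mul, Φ.ht_mul, Φ.ht_inv]; ring

theorem mv_val (g : 𝔊) (x : KD) : (Φ.mv g x).val = kact (Φ.L g) x.val := rfl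

theorem mv_one (x : KD) : Φ.mv 1 x = x := by
  apply KD.ext
  rw [mv_val, Φ.L_one, kact_id]

theorem mv_mul (h : Φ.ht γ = 0) (u : 𝔊) (x : KD) : Φ.mv (γ * u) x = Φ.mv γ (Φ.mv u x) := by
  apply KD.ext
  rw [mv_val, mv_val, mv_val, Φ.L_mul γ u h]
  exact (Φ.lor γ).kact_comp (Φ.lor u) x.lt.le

theorem mv_inv_mv (h : Φ.ht γ = 0) (x : KD) : Φ.mv γ⁻¹ (Φ.mv γ x) = x := by
  rw [← Φ.mv_mul (by rw [Φ.ht_inv, h]; rfl), inv_mul_cancel, mv_one]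

theorem mv_mv_inv (h : Φ.ht γ = 0) (x : KD) : Φ.mv γ (Φ.mv γ⁻¹ x) = x := by
  rw [← Φ.mv_mul h, mul_inv_cancel, mv_one]

theorem dist_mv (g : 𝔊) (x y : KD) : dist (Φ.mv g x) (Φ.mv g y) = dist x y := (Φ.lor g).dist_lmv x y

theorem L_inv (h : Φ.ht γ = 0) : (Φ.L γ⁻¹).comp (Φ.L γ) = ContinuousLinearMap.id ℝ _ := by
  rw [← Φ.L_mul γ⁻¹ γ (by rw [Φ.ht_inv, h]; rfl), inv_mul_cancel, Φ.L_one]

theorem L_zpow_t (u : 𝔊) (n : ℤ) : Φ.L (u * Φ.t ^ n) = Φ.L u := by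
  induction n using Int.induction_on with
  | zero => simp
  | succ n ih => rw [zpow_add_one, ← mul_assoc, Φ.L_t, ih]
  | pred n ih => rw [← Φ.L_t, mul_assoc, ← zpow_add_one, sub_add_cancel, ih]

theorem pt_one : Φ.pt 1 = KD.o := Φ.mv_one _

theorem pt_mul (h : Φ.ht γ = 0) (u : 𝔊) : Φ.pt (γ * u) = Φ.mv γ (Φ.pt u) := Φ.mv_mul h u _

theorem pt_zpow_t (u : 𝔊) (n : ℤ) : Φ.pt (u * Φ.t ^ n) = Φ.pt u := by
  apply KD.ext
  show kact (Φ.L (u * Φ.t ^ n)) _ = kact (Φ.L u) _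
  rw [L_zpow_t]

theorem finite_pt (x : KD) (R : ℝ) : {γ | Φ.ht γ = 0 ∧ dist (Φ.pt γ) x ≤ R}.Finite := by
  refine (Φ.proper (R + dist x KD.o)).subset fun γ h => ⟨h.1, ?_⟩
  have := dist_triangle (Φ.pt γ) x KD.o
  have h2 := h.2
  show dist (Φ.pt γ) KD.o ≤ _
  linarith

theorem finite_mv (x y : KD) (R : ℝ) : {γ | Φ.ht γ = 0 ∧ dist (Φ.mv γ x) y ≤ R}.Finite := by
  refine (Φ.finite_pt y (R + dist KD.o x)).subset fun γ h => ⟨h.1, ?_⟩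
  have := dist_triangle (Φ.pt γ) (Φ.mv γ x) y
  have h2 := h.2
  have h3 : dist (Φ.pt γ) (Φ.mv γ x) = dist KD.o x := Φ.dist_mv γ _ _
  linarith

include Φ in
theorem countable : Countable 𝔊 := by
  have h1 : {γ : 𝔊 | Φ.ht γ = 0}.Countable := by
    refine (countable_iUnion fun n : ℕ => (Φ.finite_pt KD.o n).countable).mono fun γ h => ?_
    obtain ⟨n, hn⟩ := exists_nat_ge (dist (Φ.pt γ) KD.o)
    exact mem_iUnion.2 ⟨n, h, hn⟩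
  have := h1.to_subtype
  refine Function.Surjective.countable
    (f := fun p : {γ : 𝔊 | Φ.ht γ = 0} × ℤ => p.1.1 * Φ.t ^ p.2) fun g => ?_
  refine ⟨(⟨g * Φ.t ^ (-Φ.ht g), ?_⟩, Φ.ht g), by simp⟩
  show Φ.ht _ = 0
  rw [Φ.ht_mul, ht_zpow, Φ.ht_t]; ring

theorem exists_pt_near : ∃ R, ∀ x, ∃ γ, Φ.ht γ = 0 ∧ dist x (Φ.pt γ) ≤ R := Φ.cocpt

theorem systole : ∃ s > 0, ∀ γ x, Φ.ht γ = 0 → γ ≠ 1 → s ≤ dist (Φ.mv γ x) x := by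
  obtain ⟨R, hR⟩ := Φ.exists_pt_near
  have hF := Φ.finite_pt KD.o (2 * R + 1)
  have h1 : ∀ γ ∈ {γ | Φ.ht γ = 0 ∧ dist (Φ.pt γ) KD.o ≤ 2 * R + 1}, ∀ᶠ s in 𝓝[>] (0 : ℝ),
      γ ≠ 1 → ∀ x ∈ closedBall KD.o R, s ≤ dist (Φ.mv γ x) x := by
    intro γ hγ
    by_cases h : γ = 1
    · exact Eventually.of_forall fun _ h' => (h' h).elim
    have hc : Continuous fun x => dist (Φ.mv γ x) x :=
      (Isometry.of_dist_eq (Φ.dist_mv γ)).continuous.dist continuous_id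
    obtain ⟨a, ha, hb⟩ := (isCompact_closedBall KD.o R).exists_forall_le' hc.continuousOn
      (a := 0) fun x _ => dist_pos.2 fun e => h (Φ.free γ x hγ.1 e)
    filter_upwards [Ioo_mem_nhdsGT ha] with s hs _ x hx
    exact hs.2.le.trans (hb x hx)
  obtain ⟨s, hs1, hs2⟩ := (((eventually_all_finite hF).2 h1).and
    (Ioo_mem_nhdsGT (zero_lt_one' ℝ))).exists
  refine ⟨s, hs2.1, fun γ x h0 h => ?_⟩
  obtain ⟨δ, hδ, hx⟩ := hR x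
  have hδ' : Φ.ht δ⁻¹ = 0 := by rw [Φ.ht_inv, hδ]; rfl
  have hc : Φ.ht (δ⁻¹ * (γ * δ)) = 0 := by rw [Φ.ht_mul, Φ.ht_mul, hδ', hδ, h0]; rfl
  have e1 : dist (Φ.mv δ⁻¹ x) KD.o ≤ R := by
    rw [← Φ.dist_mv δ, Φ.mv_mv_inv hδ]; exact hx
  have e2 : dist (Φ.mv (δ⁻¹ * (γ * δ)) (Φ.mv δ⁻¹ x)) (Φ.mv δ⁻¹ x) = dist (Φ.mv γ x) x := by
    rw [Φ.mv_mul hδ', Φ.mv_mul h0, Φ.mv_mv_inv hδ, Φ.dist_mv]
  by_contra hlt
  have hlt := not_le.1 hlt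
  have hne : δ⁻¹ * (γ * δ) ≠ 1 := fun e => h (by
    rw [inv_mul_eq_one] at e
    exact mul_eq_right.1 e.symm)
  have e3 : dist (Φ.pt (δ⁻¹ * (γ * δ))) (Φ.mv (δ⁻¹ * (γ * δ)) (Φ.mv δ⁻¹ x)) =
      dist KD.o (Φ.mv δ⁻¹ x) := Φ.dist_mv _ _ _
  have e4 := dist_triangle4 (Φ.pt (δ⁻¹ * (γ * δ))) (Φ.mv (δ⁻¹ * (γ * δ)) (Φ.mv δ⁻¹ x))
    (Φ.mv δ⁻¹ x) KD.o
  rw [e3, e2, dist_comm KD.o] at e4
  have := hs1 _ ⟨hc, by linarith [hs2.2]⟩ hne _ (mem_closedBall.2 e1)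
  rw [e2] at this
  linarith

theorem lip (g : 𝔊) (C : ℝ) : ∃ C', ∀ u u', dist (Φ.pt u) (Φ.pt u') ≤ C →
    dist (Φ.pt (g * u)) (Φ.pt (g * u')) ≤ C' := by
  obtain ⟨C', hC⟩ := ((Φ.finite_pt KD.o C).image fun δ => dist (Φ.pt g) (Φ.pt (g * δ))).bddAbove
  refine ⟨C', fun u u' h => ?_⟩
  have h0 : ∀ v, Φ.ht (v * Φ.t ^ (-Φ.ht v)) = 0 := fun v => by
    rw [Φ.ht_mul, ht_zpow, Φ.ht_t]; ring
  rw [← Φ.pt_zpow_t u (-Φ.ht u), ← Φ.pt_zpow_t u' (-Φ.ht u')] at h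
  rw [← Φ.pt_zpow_t (g * u) (-Φ.ht u), ← Φ.pt_zpow_t (g * u') (-Φ.ht u'), mul_assoc, mul_assoc]
  have ha := h0 u
  have hb := h0 u'
  generalize u * Φ.t ^ (-Φ.ht u) = a at *
  generalize u' * Φ.t ^ (-Φ.ht u') = b at *
  have ha' : Φ.ht a⁻¹ = 0 := by rw [Φ.ht_inv, ha]; rfl
  have hc : Φ.ht (g * a * g⁻¹) = 0 := by rw [ht_conj, ha]
  have e1 : g * a = g * a * g⁻¹ * g := by group
  have e2 : g * b = g * a * g⁻¹ * (g * (a⁻¹ * b)) := by group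
  rw [e2, e1, Φ.pt_mul hc, ← e1, Φ.pt_mul hc, dist_mv]
  refine hC ⟨a⁻¹ * b, ⟨by rw [Φ.ht_mul, ha', hb]; rfl, ?_⟩, rfl⟩
  rw [← Φ.dist_mv a, ← Φ.pt_mul ha, mul_inv_cancel_left, dist_comm]
  exact h

theorem tendsto_dist_of_injective {f : ℕ → 𝔊} (h0 : ∀ n, Φ.ht (f n) = 0)
    (hf : Function.Injective f) : Tendsto (fun n => dist (Φ.pt (f n)) KD.o) atTop atTop := by
  rw [← Nat.cofinite_eq_atTop]
  refine tendsto_atTop.2 fun b => ?_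
  refine ((Φ.finite_pt KD.o b).preimage hf.injOn).subset fun n hn => ⟨h0 n, ?_⟩
  exact (not_le.1 (show ¬ b ≤ _ from hn)).le

theorem exists_tendsto_pt (ξ : Circle) : ∃ f : ℕ → 𝔊, (∀ n, Φ.ht (f n) = 0) ∧
    Tendsto (fun n => (Φ.pt (f n)).val) atTop (𝓝 ξ) := by
  obtain ⟨R, hR⟩ := Φ.exists_pt_near
  have hn : ∀ n : ℕ, ‖((1 - 1 / ((n : ℝ) + 1) : ℝ) : ℂ) * ξ‖ < 1 := fun n => by
    have h1 : (0 : ℝ) < 1 / ((n : ℝ) + 1) := by positivity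
    have h2 : 1 / ((n : ℝ) + 1) ≤ 1 := by
      rw [div_le_one (by positivity)]; linarith [n.cast_nonneg (α := ℝ)]
    rw [norm_mul, Circle.norm_coe, mul_one, Complex.norm_real, Real.norm_of_nonneg (by linarith)]
    linarith
  choose f hf hd using fun n : ℕ => hR ⟨_, hn n⟩
  refine ⟨f, hf, tendsto_of_dist_le hd ?_⟩
  have h1 : Tendsto (fun n : ℕ => (1 - 1 / ((n : ℝ) + 1) : ℝ)) atTop (𝓝 (1 - 0)) :=
    tendsto_const_nhds.sub tendsto_one_div_add_atTop_nhds_zero_nat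
  have h2 := ((Complex.continuous_ofReal.tendsto _).comp h1).mul_const (ξ : ℂ)
  rw [sub_zero, Complex.ofReal_one, one_mul] at h2
  exact h2

/-- The convergence property. -/
theorem conv {ι : Type*} {l : Filter ι} {f : ι → 𝔊} {y : ι → ℂ} {α β : Circle} {c : ℝ}
    (h0 : ∀ i, Φ.ht (f i) = 0) (hα : Tendsto (fun i => (Φ.pt (f i)).val) l (𝓝 α))
    (hβ : Tendsto (fun i => (Φ.pt (f i)⁻¹).val) l (𝓝 β)) (hc : 0 < c) (hy : ∀ i, ‖y i‖ ≤ 1)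
    (hyβ : ∀ᶠ i in l, c ≤ rho (y i) β) :
    Tendsto (fun i => kact (Φ.L (f i)) (y i)) l (𝓝 α) := by
  have h1 : Tendsto (fun i => rho (Φ.pt (f i)).val (Φ.pt (f i)).val) l (𝓝 0) := by
    have := tendsto_rho hα hα
    rwa [rho_circle_self] at this
  have h2 : ∀ᶠ i in l, c / 2 ≤ rho (y i) (Φ.pt (f i)⁻¹).val := by
    filter_upwards [hyβ, hβ.eventually (ball_mem_nhds _ (half_pos hc))] with i hi hb
    have hb' : ‖(Φ.pt (f i)⁻¹).val - β‖ < c / 2 := mem_ball_iff_norm.1 hb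
    have e : rho (y i) (Φ.pt (f i)⁻¹).val =
        rho (y i) β - (starRingEnd ℂ (y i) * ((Φ.pt (f i)⁻¹).val - β)).re := by
      simp [rho]; ring
    have h3 := Complex.re_le_norm (starRingEnd ℂ (y i) * ((Φ.pt (f i)⁻¹).val - β))
    rw [norm_mul, Complex.norm_conj] at h3
    have h4 := mul_le_of_le_one_left (norm_nonneg ((Φ.pt (f i)⁻¹).val - β)) (hy i)
    rw [e]; linarith
  have h3 : Tendsto (fun i => ‖kact (Φ.L (f i)) (y i) - (Φ.pt (f i)).val‖ ^ 2) l (𝓝 0) := by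
    have h4 := h1.const_mul (4 / c)
    rw [mul_zero] at h4
    refine squeeze_zero' (Eventually.of_forall fun i => by positivity) ?_ h4
    filter_upwards [h2] with i hi
    have e : rho (kact (Φ.L (f i)) (y i)) (Φ.pt (f i)).val * rho (y i) (Φ.pt (f i)⁻¹).val =
        rho (Φ.pt (f i)).val (Φ.pt (f i)).val :=
      (Φ.lor (f i)).rho_pt (Φ.lor (f i)⁻¹) (Φ.L_inv (h0 i)) (hy i)
    have hk := (Φ.lor (f i)).norm_kact_le (hy i)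
    have h5 := norm_sub_sq_le hk (Φ.pt (f i)).lt.le
    have h6 := mul_le_mul_of_nonneg_left hi (rho_nonneg hk (Φ.pt (f i)).lt.le)
    rw [e] at h6
    rw [div_mul_eq_mul_div, le_div_iff₀ hc]
    nlinarith
  have h4 : Tendsto (fun i => kact (Φ.L (f i)) (y i) - (Φ.pt (f i)).val) l (𝓝 0) := by
    rw [tendsto_zero_iff_norm_tendsto_zero]
    have := h3.sqrt
    simpa only [Real.sqrt_sq (norm_nonneg _), Real.sqrt_zero] using this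
  simpa only [sub_add_cancel, zero_add] using h4.add hα

theorem exists_conv {f : ℕ → 𝔊} (h0 : ∀ n, Φ.ht (f n) = 0)
    (hf : Tendsto (fun n => dist (Φ.pt (f n)) KD.o) atTop atTop) :
    ∃ (α β : Circle) (φ : ℕ → ℕ), StrictMono φ ∧
      Tendsto (fun n => (Φ.pt (f (φ n))).val) atTop (𝓝 α) ∧
      Tendsto (fun n => (Φ.pt (f (φ n))⁻¹).val) atTop (𝓝 β) := by
  obtain ⟨α, φ, hφ, hα⟩ := exists_limit _ hf
  have e : ∀ n, dist (Φ.pt (f n)⁻¹) KD.o = dist (Φ.pt (f n)) KD.o := fun n => by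
    rw [← Φ.dist_mv (f n), ← Φ.pt_mul (h0 n), mul_inv_cancel, pt_one, dist_comm]
    rfl
  obtain ⟨β, ψ, hψ, hβ⟩ := exists_limit (fun n => Φ.pt (f (φ n))⁻¹) (by
    simp only [e]
    exact hf.comp hφ.tendsto_atTop)
  exact ⟨α, β, φ ∘ ψ, hφ.comp hψ, hα.comp hψ.tendsto_atTop, hβ⟩

end PreFuchs

end Pool.Agent.P.MP_788ef7_an
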