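import Pool.Agent.P.MP_788ef7_an.PB1

set_option autoImplicit false

open Set Filter Topology Metric

namespace Pool.Agent.P.MP_788ef7_an

namespace PreFuchs

variable {𝔊 : Type*} [Group 𝔊] (Φ : PreFuchs 𝔊) {g g' γ γ' u : 𝔊} {x y : KD} {C R : ℝ}
  {H : Subgroup 𝔊} {ξ ζ : Circle}

theorem ht_red_pb2 (v : 𝔊) : Φ.ht (v * Φ.t ^ (-Φ.ht v)) = 0 := by
  rw [Φ.ht_mul, ht_zpow, Φ.ht_t]; ring

theorem mem_cen : γ ∈ Φ.Cen g ↔ Φ.ht γ = 0 ∧ γ * g = g * γ := Iff.rfl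

theorem cen_inv (g : 𝔊) : Φ.Cen g⁻¹ = Φ.Cen g := by
  ext γ
  rw [mem_cen, mem_cen]
  exact and_congr_right fun _ => Commute.inv_right_iff (a := γ) (b := g)

theorem cen_le_pow (g : 𝔊) (n : ℕ) : Φ.Cen g ≤ Φ.Cen (g ^ n) := fun γ h =>
  ⟨h.1, (Commute.pow_right (show Commute γ g from h.2) n).eq⟩

theorem mem_cen_conj (u : 𝔊) : u * γ * u⁻¹ ∈ Φ.Cen (u * g * u⁻¹) ↔ γ ∈ Φ.Cen g := by
  rw [mem_cen, mem_cen, ht_conj]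
  refine and_congr_right fun _ => ?_
  have e1 : u * γ * u⁻¹ * (u * g * u⁻¹) = u * (γ * g) * u⁻¹ := by group
  have e2 : u * g * u⁻¹ * (u * γ * u⁻¹) = u * (g * γ) * u⁻¹ := by group
  rw [e1, e2, mul_left_inj, mul_right_inj]

theorem inv_cen (g : 𝔊) : Φ.inv.Cen g = Φ.Cen g := by
  ext γ
  rw [mem_cen, mem_cen]
  exact and_congr_left fun _ => neg_eq_zero

theorem inv_inv : Φ.inv.inv = Φ := by
  cases Φ
  simp only [inv, neg_neg, _root_.inv_inv]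

theorem Step.mono {C' : ℝ} (h : Φ.Step g C x y) (hC : C ≤ C') : Φ.Step g C' x y := by
  obtain ⟨u, h1, h2⟩ := h
  exact ⟨u, h1.trans hC, h2.trans hC⟩

theorem Step.symm (h : Φ.Step g C x y) : Φ.Step g⁻¹ C y x := by
  obtain ⟨u, h1, h2⟩ := h
  exact ⟨g * u, h2, by rwa [inv_mul_cancel_left]⟩

theorem Step.move (h : Φ.Step g C x y) (hγ : Φ.ht γ = 0) (hγ' : Φ.ht γ' = 0) :
    Φ.Step (γ' * g * γ⁻¹) C (Φ.mv γ x) (Φ.mv γ' y) := by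
  obtain ⟨u, h1, h2⟩ := h
  refine ⟨γ * u, by rwa [Φ.pt_mul hγ, dist_mv], ?_⟩
  have e : γ' * g * γ⁻¹ * (γ * u) = γ' * (g * u) := by group
  rwa [e, Φ.pt_mul hγ', dist_mv]

theorem Step.perturb {x' y' : KD} {r : ℝ} (h : Φ.Step g C x y) (hx : dist x' x ≤ r)
    (hy : dist y' y ≤ r) : Φ.Step g (C + r) x' y' := by
  obtain ⟨u, h1, h2⟩ := h
  have := dist_triangle x' x (Φ.pt u)
  have := dist_triangle y' y (Φ.pt (g * u))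
  exact ⟨u, by linarith, by linarith⟩

theorem step_comp (g g' : 𝔊) (C : ℝ) : ∃ C', ∀ x y z, Φ.Step g C x y → Φ.Step g' C y z →
    Φ.Step (g' * g) C' x z := by
  obtain ⟨D, hD⟩ := Φ.lip g' (2 * C)
  refine ⟨C + max D 0, fun x y z ⟨u, h1, h2⟩ ⟨v, h3, h4⟩ => ⟨u, ?_, ?_⟩⟩
  · linarith [le_max_right D 0]
  · have h5 := dist_triangle_left (Φ.pt v) (Φ.pt (g * u)) y
    have h6 := hD v (g * u) (by linarith)
    have h7 := dist_triangle z (Φ.pt (g' * v)) (Φ.pt (g' * (g * u)))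
    rw [mul_assoc]
    linarith [le_max_left D 0]

theorem step_split (g g' : 𝔊) {x z : KD} (h : Φ.Step (g' * g) C x z) (hC : 0 ≤ C) :
    ∃ y, Φ.Step g C x y ∧ Φ.Step g' C y z := by
  obtain ⟨u, h1, h2⟩ := h
  refine ⟨Φ.pt (g * u), ⟨u, h1, by rwa [dist_self]⟩, g * u, by rwa [dist_self], ?_⟩
  rwa [← mul_assoc]

theorem step_dist (g : 𝔊) (C R : ℝ) : ∃ R', ∀ x y x' y', Φ.Step g C x y → Φ.Step g C x' y' →
    dist x x' ≤ R → dist y y' ≤ R' := by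
  obtain ⟨D, hD⟩ := Φ.lip g (2 * C + R)
  refine ⟨2 * C + D, fun x y x' y' ⟨u, h1, h2⟩ ⟨v, h3, h4⟩ h => ?_⟩
  have h5 := dist_triangle4 (Φ.pt u) x x' (Φ.pt v)
  rw [dist_comm _ x] at h5
  have h6 := hD u v (by linarith)
  have h7 := dist_triangle4 y (Φ.pt (g * u)) (Φ.pt (g * v)) y'
  rw [dist_comm (Φ.pt (g * v)) y'] at h7
  linarith

theorem exists_step (g : 𝔊) : ∃ C, ∀ x, ∃ y, Φ.Step g C x y := by
  obtain ⟨R, hR⟩ := Φ.exists_pt_near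
  refine ⟨R, fun x => ?_⟩
  obtain ⟨γ, -, h⟩ := hR x
  exact ⟨Φ.pt (g * γ), γ, h, by rw [dist_self]; exact dist_nonneg.trans h⟩

theorem step_near_cen (g : 𝔊) (C R : ℝ) : ∃ R', ∀ x y, Φ.Step g C x y → dist x y ≤ R →
    Φ.Near (Φ.Cen g) R' x := by
  have hc : ∀ δ : 𝔊, ∃ a, (∃ b, Φ.ht b = 0 ∧ b⁻¹ * g * b * Φ.t ^ (-Φ.ht g) = δ) →
      Φ.ht a = 0 ∧ a⁻¹ * g * a * Φ.t ^ (-Φ.ht g) = δ := fun δ => by
    by_cases h : ∃ b, Φ.ht b = 0 ∧ b⁻¹ * g * b * Φ.t ^ (-Φ.ht g) = δ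
    · obtain ⟨b, hb⟩ := h
      exact ⟨b, fun _ => hb⟩
    · exact ⟨1, fun h' => (h h').elim⟩
  choose a ha using hc
  obtain ⟨M, hM⟩ :=
    ((Φ.finite_pt KD.o (2 * C + R)).image fun δ => dist (Φ.pt (a δ)) KD.o).bddAbove
  refine ⟨C + M, fun x y ⟨u, h1, h2⟩ h => ?_⟩
  rw [← Φ.pt_zpow_t u (-Φ.ht u)] at h1
  rw [← Φ.pt_zpow_t (g * u) (-Φ.ht u), mul_assoc] at h2
  have hb := Φ.ht_red_pb2 u
  generalize u * Φ.t ^ (-Φ.ht u) = b at *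
  obtain ⟨ha0, ha1⟩ := ha _ ⟨b, hb, rfl⟩
  have hδ : Φ.ht (b⁻¹ * g * b * Φ.t ^ (-Φ.ht g)) = 0 := by
    rw [Φ.ht_mul, Φ.ht_mul, Φ.ht_mul, Φ.ht_inv, ht_zpow, Φ.ht_t]; ring
  have hd : dist (Φ.pt (b⁻¹ * g * b * Φ.t ^ (-Φ.ht g))) KD.o ≤ 2 * C + R := by
    have e : b * (b⁻¹ * g * b) = g * b := by group
    rw [pt_zpow_t, ← Φ.dist_mv b, ← Φ.pt_mul hb, e]
    have h5 := dist_triangle4 (Φ.pt b) x y (Φ.pt (g * b))
    rw [dist_comm _ x, dist_comm] at h5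
    exact h5.trans (by linarith)
  have hM' := hM ⟨_, ⟨hδ, hd⟩, rfl⟩
  simp only at hM'
  generalize a (b⁻¹ * g * b * Φ.t ^ (-Φ.ht g)) = c at *
  have h0 : Φ.ht (b * c⁻¹) = 0 := by rw [Φ.ht_mul, Φ.ht_inv, hb, ha0]; rfl
  refine ⟨b * c⁻¹, ⟨h0, ?_⟩, ?_⟩
  · have e := mul_right_cancel ha1
    calc b * c⁻¹ * g = b * (c⁻¹ * g * c) * c⁻¹ := by group
      _ = g * (b * c⁻¹) := by rw [e]; group
  · have e : dist (Φ.pt b) (Φ.pt (b * c⁻¹)) = dist (Φ.pt c) KD.o := by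
      rw [← Φ.dist_mv (b * c⁻¹) (Φ.pt c), ← Φ.pt_mul h0, inv_mul_cancel_right]
      rfl
    have := dist_triangle x (Φ.pt b) (Φ.pt (b * c⁻¹))
    linarith

theorem step_dist_le (g : 𝔊) (C R : ℝ) : ∃ R', ∀ x y, Φ.Step g C x y → Φ.Near (Φ.Cen g) R x →
    dist x y ≤ R' := by
  obtain ⟨D, hD⟩ := Φ.lip g (C + R)
  refine ⟨R + dist KD.o (Φ.pt g) + D + C, fun x y ⟨u, h1, h2⟩ ⟨c, hc, h3⟩ => ?_⟩
  have h4 := dist_triangle_left (Φ.pt c) (Φ.pt u) x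
  have h5 := hD c u (by linarith)
  have h6 : dist (Φ.pt c) (Φ.pt (g * c)) = dist KD.o (Φ.pt g) := by
    rw [← hc.2, Φ.pt_mul hc.1]
    exact Φ.dist_mv c _ _
  have h7 := dist_triangle4 x (Φ.pt c) (Φ.pt (g * c)) (Φ.pt (g * u))
  have h8 := dist_triangle_right x y (Φ.pt (g * u))
  linarith

theorem step_near (hH : ∀ h ∈ H, Φ.ht h = 0) (hn : ∀ h ∈ H, g * h * g⁻¹ ∈ H) (C R : ℝ) :
    ∃ R', ∀ x y, Φ.Step g C x y → Φ.Near H R x → Φ.Near H R' y := by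
  obtain ⟨D, hD⟩ := Φ.lip g (C + R)
  refine ⟨C + D + dist (Φ.pt g) KD.o, fun x y ⟨u, h1, h2⟩ ⟨c, hc, h3⟩ =>
    ⟨g * c * g⁻¹, hn c hc, ?_⟩⟩
  have h4 := dist_triangle_left (Φ.pt u) (Φ.pt c) x
  have h5 := hD u c (by linarith)
  have h6 : dist (Φ.pt (g * c)) (Φ.pt (g * c * g⁻¹)) = dist (Φ.pt g) KD.o := by
    rw [← Φ.dist_mv (g * c * g⁻¹) (Φ.pt g), ← Φ.pt_mul (hH _ (hn c hc)), inv_mul_cancel_right]
    rfl
  have h7 := dist_triangle4 y (Φ.pt (g * u)) (Φ.pt (g * c)) (Φ.pt (g * c * g⁻¹))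
  linarith

theorem PO.rev {x : ℤ → KD} (h : Φ.PO g C x) : Φ.PO g⁻¹ C fun n => x (-n) := fun n => by
  have := Step.symm Φ (h (-(n + 1)))
  rwa [show -(n + 1) + 1 = -n by ring] at this

theorem PO.shift {x : ℤ → KD} (h : Φ.PO g C x) (i : ℤ) : Φ.PO g C fun n => x (n + i) := fun n => by
  have := h (n + i)
  rwa [add_right_comm] at this

theorem Near.mono {R' : ℝ} (h : Φ.Near H R x) (hR : R ≤ R') : Φ.Near H R' x := by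
  obtain ⟨c, hc, h⟩ := h
  exact ⟨c, hc, h.trans hR⟩

theorem Near.of_le {H' : Subgroup 𝔊} (h : Φ.Near H R x) (hH : H ≤ H') : Φ.Near H' R x := by
  obtain ⟨c, hc, h⟩ := h
  exact ⟨c, hH hc, h⟩

theorem Near.perturb {r : ℝ} (h : Φ.Near H R x) (hy : dist y x ≤ r) : Φ.Near H (R + r) y := by
  obtain ⟨c, hc, h⟩ := h
  have := dist_triangle y x (Φ.pt c)
  exact ⟨c, hc, by linarith⟩

theorem Near.mv (h : Φ.Near H R x) (hγ : γ ∈ H) (h0 : Φ.ht γ = 0) : Φ.Near H R (Φ.mv γ x) := by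
  obtain ⟨c, hc, h⟩ := h
  exact ⟨γ * c, H.mul_mem hγ hc, by rwa [Φ.pt_mul h0, dist_mv]⟩

theorem near_bot : Φ.Near ⊥ R x ↔ dist x KD.o ≤ R := by
  refine ⟨fun ⟨c, hc, h⟩ => ?_, fun h => ⟨1, Subgroup.one_mem _, by rwa [pt_one]⟩⟩
  rwa [Subgroup.mem_bot.1 hc, pt_one] at h

theorem near_self (H : Subgroup 𝔊) (x : KD) : Φ.Near H (dist x KD.o) x :=
  ⟨1, H.one_mem, by rw [pt_one]⟩

end PreFuchs

end Pool.Agent.P.MP_788ef7_an
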