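import Pool.Agent.P.MP_788ef7_an.PB2
import Pool.Agent.P.MP_788ef7_an.KBasic

set_option autoImplicit false
set_option linter.unusedVariables false

open Set Filter Topology Metric

namespace Pool.Agent.P.MP_788ef7_an

namespace PreFuchs

variable {𝔊 : Type*} [Group 𝔊] (Φ : PreFuchs 𝔊) {g g' γ γ' u : 𝔊} {x y : KD} {C R : ℝ}
  {H : Subgroup 𝔊} {ξ ζ : Circle}

theorem dist_mv_o_pbasic (h : Φ.ht γ = 0) (x : KD) :
    dist (Φ.mv γ⁻¹ x) KD.o = dist x (Φ.pt γ) := by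
  rw [← Φ.dist_mv γ, Φ.mv_mv_inv h, pt]

theorem exists_le_pbasic (h : ξ ∉ Φ.Lim H) : ∃ ε > 0, ∀ h ∈ H, ε ≤ ‖(Φ.pt h).val - ξ‖ := by
  by_contra hc
  refine h (Metric.mem_closure_iff.2 fun ε hε => ?_)
  by_contra hn
  refine hc ⟨ε, hε, fun g hg => not_lt.1 fun hl => hn ⟨_, ⟨g, hg, rfl⟩, ?_⟩⟩
  rwa [dist_comm, dist_eq_norm]

theorem exists_bd_pbasic {K : Set ℂ} (hK : IsCompact K) (hK' : K ⊆ ball 0 1) :
    ∃ R, ∀ x : KD, x.val ∈ K → dist x KD.o ≤ R := by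
  rcases K.eq_empty_or_nonempty with rfl | hne
  · exact ⟨0, fun _ h => h.elim⟩
  · obtain ⟨z, hz, hm⟩ := hK.exists_isMaxOn hne continuous_norm.continuousOn
    obtain ⟨R, hR⟩ := exists_dist_le (mem_ball_zero_iff.1 (hK' hz))
    exact ⟨R, fun x hx => hR x (hm hx)⟩

/-- Every point has a translate in the Dirichlet domain. -/
theorem exists_dirichlet (hH : ∀ h ∈ H, Φ.ht h = 0) (x : KD) : ∃ h ∈ H, ∀ h' ∈ H,
    dist (Φ.mv h x) KD.o ≤ dist (Φ.mv h x) (Φ.pt h') := by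
  have hf : {h | h ∈ H ∧ dist (Φ.mv h x) KD.o ≤ dist x KD.o}.Finite :=
    (Φ.finite_mv x KD.o (dist x KD.o)).subset fun h hh => ⟨hH h hh.1, hh.2⟩
  obtain ⟨h, hh, hm⟩ := Set.exists_min_image _ (fun h => dist (Φ.mv h x) KD.o) hf
    ⟨1, H.one_mem, by rw [Φ.mv_one]⟩
  refine ⟨h, hh.1, fun h' hh' => ?_⟩
  have hi := H.inv_mem hh'
  rw [← Φ.dist_mv_o_pbasic (hH h' hh'), ← Φ.mv_mul (hH _ hi)]
  by_cases hc : dist (Φ.mv (h'⁻¹ * h) x) KD.o ≤ dist x KD.o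
  · exact hm _ ⟨H.mul_mem hi hh.1, hc⟩
  · exact hh.2.trans (not_le.1 hc).le

theorem hbfree_of_dirichlet {ι : Type*} {l : Filter ι} [l.NeBot] {x : ι → KD}
    (hx : ∀ i, ∀ h ∈ H, dist (x i) KD.o ≤ dist (x i) (Φ.pt h))
    (h : Tendsto (fun i => (x i).val) l (𝓝 ζ)) : Φ.HBfree H ζ := by
  refine ⟨1, one_pos, fun g hg => ?_⟩
  have hp := (Φ.pt g).rho_pos
  have h1 : ∀ i, √(rho (Φ.pt g).val (Φ.pt g).val) ≤ rho (x i).val (Φ.pt g).val := fun i => by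
    have h2 : Real.cosh (dist (x i) KD.o) ≤ Real.cosh (dist (x i) (Φ.pt g)) := by
      rw [Real.cosh_le_cosh, abs_of_nonneg dist_nonneg, abs_of_nonneg dist_nonneg]
      exact hx i g hg
    have a := Real.sqrt_pos.2 (x i).rho_pos
    have b := Real.sqrt_pos.2 hp
    rw [cosh_dist_o, KD.cosh_dist, le_div_iff₀ (mul_pos a b), inv_mul_cancel_left₀ a.ne'] at h2
    exact h2
  have h2 := ge_of_tendsto' (tendsto_rho h tendsto_const_nhds) h1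
  rw [bus, le_div_iff₀ hp, one_mul, rho_comm _ (ζ : ℂ)]
  exact (Real.sqrt_le_left ((Real.sqrt_nonneg _).trans h2)).1 h2

/-- Points far from the orbit have translates converging to a point with a free horoball. -/
theorem exists_dirichlet_limit (hH : ∀ h ∈ H, Φ.ht h = 0) {x : ℕ → KD}
    (hx : ∀ n : ℕ, ¬ Φ.Near H n (x n)) : ∃ (h : ℕ → 𝔊) (φ : ℕ → ℕ) (ζ : Circle), StrictMono φ ∧
      (∀ n, h n ∈ H) ∧
      (∀ n, ∀ h' ∈ H, dist (Φ.mv (h n) (x (φ n))) KD.o ≤ dist (Φ.mv (h n) (x (φ n))) (Φ.pt h')) ∧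
      Tendsto (fun n => (Φ.mv (h n) (x (φ n))).val) atTop (𝓝 ζ) ∧ Φ.HBfree H ζ := by
  choose h hh hd using fun n => Φ.exists_dirichlet hH (x n)
  have h1 : ∀ n : ℕ, (n : ℝ) ≤ dist (Φ.mv (h n) (x n)) KD.o := fun n => by
    have hi := H.inv_mem (hh n)
    have := Φ.dist_mv_o_pbasic (hH _ hi) (x n)
    rw [_root_.inv_inv] at this
    rw [this]
    exact (not_le.1 fun hc => hx n ⟨_, hi, hc⟩).le
  obtain ⟨ζ, φ, hφ, ht⟩ := exists_limit (fun n => Φ.mv (h n) (x n))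
    (tendsto_atTop_mono h1 tendsto_natCast_atTop_atTop)
  exact ⟨fun n => h (φ n), φ, ζ, hφ, fun n => hh _, fun n => hd _, ht,
    Φ.hbfree_of_dirichlet (fun n => hd (φ n)) ht⟩

theorem HBfree.of_le {H' : Subgroup 𝔊} (h : Φ.HBfree H' ζ) (hH : H ≤ H') : Φ.HBfree H ζ := by
  obtain ⟨β, hβ, h⟩ := h
  exact ⟨β, hβ, fun g hg => h g (hH hg)⟩

theorem HBfree.bus_near (h : Φ.HBfree H ζ) (R : ℝ) :
    ∃ β > 0, ∀ x, Φ.Near H R x → β ≤ bus x.val ζ := by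
  obtain ⟨β, hβ, h⟩ := h
  obtain ⟨c, hc, hb⟩ := bus_cmp R
  refine ⟨β / c, div_pos hβ hc, fun x ⟨g, hg, hd⟩ => ?_⟩
  rw [div_le_iff₀' hc]
  exact (h g hg).trans (hb _ _ (dist_comm x _ ▸ hd) _ ζ.norm_coe.le)

theorem hbfree_of_notMem (hH : ∀ h ∈ H, Φ.ht h = 0) (h : ζ ∉ Φ.Lim H) : Φ.HBfree H ζ := by
  obtain ⟨ε, hε, h⟩ := Φ.exists_le_pbasic h
  refine ⟨(ε ^ 2 / 2) ^ 2, by positivity, fun g hg => ?_⟩
  have h1 := norm_sub_sq_le (Φ.pt g).lt.le ζ.norm_coe.le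
  have h2 := pow_le_pow_left₀ hε.le (h g hg) 2
  have h3 : (ε ^ 2 / 2) ^ 2 ≤ rho (Φ.pt g).val ζ ^ 2 :=
    pow_le_pow_left₀ (by positivity) (by linarith) 2
  have h4 : rho (Φ.pt g).val (Φ.pt g).val ≤ 1 := by
    rw [rho_self]
    exact sub_le_self _ (sq_nonneg _)
  rw [bus, le_div_iff₀ (Φ.pt g).rho_pos]
  exact (mul_le_of_le_one_right (by positivity) h4).trans h3

theorem isClosed_lim (H : Subgroup 𝔊) : IsClosed (Φ.Lim H) :=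
  isClosed_closure.preimage continuous_subtype_val

theorem lim_mono {H' : Subgroup 𝔊} (h : H ≤ H') : Φ.Lim H ⊆ Φ.Lim H' :=
  fun _ hξ => closure_mono (image_mono h) hξ

theorem lim_bot : Φ.Lim ⊥ = ∅ := by
  refine eq_empty_of_forall_notMem fun ξ h => ξ.coe_ne_zero ?_
  simp only [Lim, Subgroup.coe_bot, image_singleton, closure_singleton, Φ.pt_one] at h
  exact h

theorem mem_lim_of_near {ι : Type*} {l : Filter ι} [l.NeBot] {x : ι → KD}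
    (hx : ∀ i, Φ.Near H R (x i)) (h : Tendsto (fun i => (x i).val) l (𝓝 ξ)) : ξ ∈ Φ.Lim H := by
  choose g hg hd using hx
  exact mem_closure_of_tendsto (tendsto_of_dist_le hd h)
    (Eventually.of_forall fun i => ⟨g i, hg i, rfl⟩)

theorem not_near_of_notMem (h : ξ ∉ Φ.Lim H) (R : ℝ) :
    ∃ ε > 0, ∀ x : KD, rho x.val ξ < ε → ¬ Φ.Near H R x := by
  obtain ⟨ε, hε, h⟩ := Φ.exists_le_pbasic h
  obtain ⟨δ, hδ, hn⟩ := near_of_dist_le R hε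
  refine ⟨δ ^ 2 / 2, by positivity, fun x hx ⟨g, hg, hd⟩ => ?_⟩
  have h1 := norm_sub_sq_le x.lt.le ξ.norm_coe.le
  exact (hn x _ ξ hd (lt_of_pow_lt_pow_left₀ 2 hδ.le (by linarith))).not_ge (h g hg)

theorem dact (hH : ∀ h ∈ H, Φ.ht h = 0) :
    DAct (ball (0 : ℂ) 1) fun h : H => kact (Φ.L h) := by
  refine ⟨isOpen_ball, fun c x hx => ?_, fun x _ => ?_, fun c c' x hx => ?_,
    fun c => (Φ.lor c).contDiffOn_kact, fun K hK hK' => ?_, fun c x hx e => ?_⟩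
  · exact mem_ball_zero_iff.2 ((Φ.lor c).norm_kact_lt (mem_ball_zero_iff.1 hx))
  · rw [OneMemClass.coe_one, Φ.L_one, kact_id]
  · rw [Subgroup.coe_mul, Φ.L_mul _ _ (hH _ c.2),
      (Φ.lor c).kact_comp (Φ.lor c') (mem_ball_zero_iff.1 hx).le]
  · obtain ⟨R, hR⟩ := exists_bd_pbasic hK hK'
    refine ((Φ.finite_pt KD.o (R + R)).preimage Subtype.val_injective.injOn).subset ?_
    rintro c ⟨x, hx, hc⟩
    refine ⟨hH _ c.2, ?_⟩
    let y : KD := ⟨x, mem_ball_zero_iff.1 (hK' hx)⟩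
    refine (dist_triangle _ (Φ.mv c y) _).trans (add_le_add ?_ (hR _ hc))
    rw [pt, Φ.dist_mv, dist_comm]
    exact hR y hx
  · exact Subtype.ext (Φ.free c ⟨x, mem_ball_zero_iff.1 hx⟩ (hH _ c.2) (KD.ext e))

theorem orb_near (hH : ∀ h ∈ H, Φ.ht h = 0) (R : ℝ) : ∃ K : Set ℂ, IsCompact K ∧ K ⊆ ball 0 1 ∧
    ∀ x : KD, Φ.Near H R x → x.val ∈ Orb (fun h : H => kact (Φ.L h)) K := by
  refine ⟨KD.val '' closedBall KD.o R, (isCompact_closedBall _ _).image KD.continuous_val, ?_,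
    fun x ⟨g, hg, hd⟩ => ⟨⟨g, hg⟩, _, ⟨Φ.mv g⁻¹ x, ?_, rfl⟩, ?_⟩⟩
  · rintro _ ⟨x, -, rfl⟩
    exact mem_ball_zero_iff.2 x.lt
  · rwa [mem_closedBall, Φ.dist_mv_o_pbasic (hH g hg)]
  · exact (congrArg KD.val (Φ.mv_mv_inv (hH g hg) x)).symm

theorem near_orb (hH : ∀ h ∈ H, Φ.ht h = 0) {K : Set ℂ} (hK : IsCompact K) (hK' : K ⊆ ball 0 1) :
    ∃ R, ∀ x : KD, x.val ∈ Orb (fun h : H => kact (Φ.L h)) K → Φ.Near H R x := by
  obtain ⟨R, hR⟩ := exists_bd_pbasic hK hK'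
  refine ⟨R, fun x ⟨c, k, hk, e⟩ => ⟨c, c.2, ?_⟩⟩
  let y : KD := ⟨k, mem_ball_zero_iff.1 (hK' hk)⟩
  have e' : x = Φ.mv c y := KD.ext e
  rw [e', pt, Φ.dist_mv]
  exact hR y hk

end PreFuchs

end Pool.Agent.P.MP_788ef7_an
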