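import Pool.Agent.P.MP_788ef7_an.AutP

set_option autoImplicit false
set_option linter.unusedSectionVars false

open Set Filter Topology Metric

namespace Pool.Agent.P.MP_788ef7_an

variable {X Y : Type} [MetricSpace X] [MetricSpace Y] [Nonempty X] [Nonempty Y]
  {F : Equiv.Perm (X × Y)} {Γ₁ : Subgroup (X ≃ᵢ X)} {Γ₂ : Subgroup (Y ≃ᵢ Y)}

/-- The product action. -/
def prm_pres (Γ₁ : Subgroup (X ≃ᵢ X)) (Γ₂ : Subgroup (Y ≃ᵢ Y)) : Γ₁ × Γ₂ →* Equiv.Perm (X × Y) where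
  toFun γ := Equiv.prodCongr γ.1.1.toEquiv γ.2.1.toEquiv
  map_one' := Equiv.ext fun _ => rfl
  map_mul' _ _ := Equiv.ext fun _ => rfl

theorem ext_pres {a a' : X ≃ᵢ X} {b b' : Y ≃ᵢ Y} (h : ∀ x y, (a x, b y) = (a' x, b' y)) :
    a = a' ∧ b = b' :=
  ⟨IsometryEquiv.ext fun x => congrArg Prod.fst (h x (Classical.arbitrary Y)),
    IsometryEquiv.ext fun y => congrArg Prod.snd (h (Classical.arbitrary X) y)⟩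

theorem inj_pres : Function.Injective (prm_pres Γ₁ Γ₂) := by
  intro γ δ h
  obtain ⟨h1, h2⟩ := ext_pres (a := γ.1.1) (a' := δ.1.1) (b := γ.2.1) (b' := δ.2.1)
    fun x y => Equiv.congr_fun h (x, y)
  exact Prod.ext (Subtype.ext h1) (Subtype.ext h2)

theorem conj_pres (h : Nrm F Γ₁ Γ₂) (γ : Γ₁ × Γ₂) :
    ∃ δ, prm_pres Γ₁ Γ₂ δ = F * prm_pres Γ₁ Γ₂ γ * F⁻¹ := by
  obtain ⟨a, ha, b, hb, h1⟩ := h _ γ.1.2 _ γ.2.2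
  refine ⟨(⟨a, ha⟩, ⟨b, hb⟩), eq_mul_inv_of_mul_eq (Equiv.ext fun z => ?_)⟩
  exact (h1 z.1 z.2).symm

theorem Nrm.exists_aut (h : Nrm F Γ₁ Γ₂) (h' : Nrm F⁻¹ Γ₁ Γ₂) : ∃ θ : Γ₁ × Γ₂ ≃* Γ₁ × Γ₂,
    (∀ γ x y, F (γ.1.1 x, γ.2.1 y) = ((θ γ).1.1 (F (x, y)).1, (θ γ).2.1 (F (x, y)).2)) ∧
      ∀ γ x y, F⁻¹ (γ.1.1 x, γ.2.1 y) =
        ((θ.symm γ).1.1 (F⁻¹ (x, y)).1, (θ.symm γ).2.1 (F⁻¹ (x, y)).2) := by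
  choose f hf using conj_pres h
  choose g hg using conj_pres h'
  refine ⟨⟨⟨f, g, fun γ => inj_pres ?_, fun γ => inj_pres ?_⟩, fun γ δ => inj_pres ?_⟩,
    fun γ x y => ?_, fun γ x y => ?_⟩
  · rw [hg, hf]; group
  · rw [hf, hg]; group
  · change prm_pres Γ₁ Γ₂ (f (γ * δ)) = prm_pres Γ₁ Γ₂ (f γ * f δ)
    rw [map_mul, hf, hf, hf, map_mul]; group
  · exact (Equiv.congr_fun (mul_eq_of_eq_mul_inv (hf γ)) (x, y)).symm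
  · exact (Equiv.congr_fun (mul_eq_of_eq_mul_inv (hg γ)) (x, y)).symm

theorem Nrm.hh (h : Nrm F Γ₁ Γ₂) (h' : Nrm F⁻¹ Γ₁ Γ₂) (hA : ∃ γ ∈ Γ₁, ∃ δ ∈ Γ₁, γ * δ ≠ δ * γ)
    (hB : ∃ γ ∈ Γ₂, ∃ δ ∈ Γ₂, γ * δ ≠ δ * γ)
    (cA : ∀ γ ∈ Γ₁, γ ≠ 1 → ∀ δ ∈ Γ₁, ∀ u ∈ Γ₁, δ * γ = γ * δ → u * γ = γ * u → δ * u = u * δ)
    (cB : ∀ γ ∈ Γ₂, γ ≠ 1 → ∀ δ ∈ Γ₂, ∀ u ∈ Γ₂, δ * γ = γ * δ → u * γ = γ * u → δ * u = u * δ) :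
    Nrm₁ (F * F) Γ₁ ∧ Nrm₂ (F * F) Γ₂ := by
  obtain ⟨θ, h1, -⟩ := h.exists_aut h'
  obtain ⟨a, ha, a', ha', hA⟩ := hA
  obtain ⟨b, hb, b', hb', hB⟩ := hB
  obtain ⟨g1, g2⟩ := aut_prod (A := Γ₁) (B := Γ₂)
    ⟨⟨a, ha⟩, ⟨a', ha'⟩, fun e => hA (congrArg Subtype.val e)⟩
    ⟨⟨b, hb⟩, ⟨b', hb'⟩, fun e => hB (congrArg Subtype.val e)⟩
    (fun a ha u v e1 e2 => Subtype.ext (cA _ a.2 (fun e => ha (Subtype.ext e)) _ u.2 _ v.2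
      (congrArg Subtype.val e1) (congrArg Subtype.val e2)))
    (fun a ha u v e1 e2 => Subtype.ext (cB _ a.2 (fun e => ha (Subtype.ext e)) _ u.2 _ v.2
      (congrArg Subtype.val e1) (congrArg Subtype.val e2))) θ
  have h2 : ∀ (γ : Γ₁ × Γ₂) x y, (F * F) (γ.1.1 x, γ.2.1 y) =
      ((θ (θ γ)).1.1 ((F * F) (x, y)).1, (θ (θ γ)).2.1 ((F * F) (x, y)).2) := by
    intro γ x y
    rw [Equiv.Perm.mul_apply, h1, h1]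
    rfl
  refine ⟨fun γ hγ => ⟨_, (θ (θ (⟨γ, hγ⟩, 1))).1.2, fun x y => ?_⟩,
    fun γ hγ => ⟨_, (θ (θ (1, ⟨γ, hγ⟩))).2.2, fun x y => ?_⟩⟩
  · have := h2 (⟨γ, hγ⟩, 1) x y
    rw [g1] at this
    exact this
  · have := h2 (1, ⟨γ, hγ⟩) x y
    rw [g2] at this
    exact this

theorem Nrm.centre (h : Nrm F Γ₁ Γ₂) (h' : Nrm F⁻¹ Γ₁ Γ₂)
    (hA : ∀ γ ∈ Γ₁, (∀ δ ∈ Γ₁, γ * δ = δ * γ) → γ = 1) (hB : ∀ γ ∈ Γ₂, ∀ δ ∈ Γ₂, γ * δ = δ * γ) :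
    Nrm₂ F Γ₂ := by
  obtain ⟨θ, h1, -⟩ := h.exists_aut h'
  intro γ hγ
  refine ⟨_, (θ (1, ⟨γ, hγ⟩)).2.2, fun x y => ?_⟩
  have h2 : (θ (1, ⟨γ, hγ⟩)).1.1 = 1 := by
    refine hA _ (θ (1, ⟨γ, hγ⟩)).1.2 fun δ hδ => ?_
    obtain ⟨u, hu⟩ := θ.surjective (⟨δ, hδ⟩, 1)
    have : θ (1, ⟨γ, hγ⟩) * θ u = θ u * θ (1, ⟨γ, hγ⟩) := by
      rw [← map_mul, ← map_mul]
      exact congrArg θ (Prod.ext (by simp) (Subtype.ext (hB _ hγ _ u.2.2)))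
    rw [hu] at this
    exact congrArg (fun p : Γ₁ × Γ₂ => p.1.1) this
  have := h1 (1, ⟨γ, hγ⟩) x y
  rw [h2] at this
  exact this

theorem mk_pres (h : Nrm F Γ₁ Γ₂) (h' : Nrm F⁻¹ Γ₁ Γ₂) : ∃ (𝔾 : Type) (_ : Group 𝔾)
    (_ : MulAction 𝔾 (X × Y)) (ht : 𝔾 → ℤ) (t : 𝔾) (l₁ : 𝔾 → X ≃ᵢ X) (l₂ : 𝔾 → Y ≃ᵢ Y),
      Pres F Γ₁ Γ₂ ht t l₁ l₂ := by
  classical
  set R := (prm_pres Γ₁ Γ₂).range with hR
  have hF : F ∈ Subgroup.normalizer (R : Set (Equiv.Perm (X × Y))) := by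
    refine Subgroup.mem_normalizer_iff.2 fun φ => ⟨?_, ?_⟩
    · rintro ⟨γ, rfl⟩
      exact conj_pres h γ
    · rintro ⟨γ, hγ⟩
      obtain ⟨δ, hδ⟩ := conj_pres h' γ
      exact ⟨δ, by rw [hδ, hγ]; group⟩
  have hn : ∀ (n : ℤ) φ, φ ∈ R → F ^ n * φ * (F ^ n)⁻¹ ∈ R := fun n φ hφ =>
    (Subgroup.mem_normalizer_iff.1 (zpow_mem hF n) φ).1 hφ
  let H : Subgroup (Equiv.Perm (X × Y) × Multiplicative ℤ) :=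
    { carrier := {p | p.1 * (F ^ p.2.toAdd)⁻¹ ∈ R}
      one_mem' := by simp
      mul_mem' := fun {p q} hp hq => by
        have := R.mul_mem hp (hn p.2.toAdd _ hq)
        change p.1 * q.1 * (F ^ (p.2.toAdd + q.2.toAdd))⁻¹ ∈ R
        rwa [show p.1 * q.1 * (F ^ (p.2.toAdd + q.2.toAdd))⁻¹ = p.1 * (F ^ p.2.toAdd)⁻¹ *
          (F ^ p.2.toAdd * (q.1 * (F ^ q.2.toAdd)⁻¹) * (F ^ p.2.toAdd)⁻¹) by group]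
      inv_mem' := fun {p} hp => by
        have := hn (-p.2.toAdd) _ (R.inv_mem hp)
        change p.1⁻¹ * (F ^ (-p.2.toAdd))⁻¹ ∈ R
        rwa [show p.1⁻¹ * (F ^ (-p.2.toAdd))⁻¹ = F ^ (-p.2.toAdd) * (p.1 * (F ^ p.2.toAdd)⁻¹)⁻¹ *
          (F ^ (-p.2.toAdd))⁻¹ by group] }
  have hH : ∀ g : H, ∃ γ, prm_pres Γ₁ Γ₂ γ = g.1.1 * (F ^ g.1.2.toAdd)⁻¹ := fun g => g.2
  choose l hl using hH
  have hl0 : ∀ g : H, g.1.2.toAdd = 0 → prm_pres Γ₁ Γ₂ (l g) = g.1.1 := fun g hg => by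
    rw [hl, hg, zpow_zero, inv_one, mul_one]
  let act : MulAction H (X × Y) := MulAction.compHom (X × Y)
    ((MonoidHom.fst (Equiv.Perm (X × Y)) (Multiplicative ℤ)).comp H.subtype)
  refine ⟨H, inferInstance, act,
    fun g => g.1.2.toAdd, ⟨(F, Multiplicative.ofAdd 1), by
      change F * (F ^ (1 : ℤ))⁻¹ ∈ R
      simp⟩, fun g => (l g).1.1, fun g => (l g).2.1, ?_⟩
  refine ⟨fun _ _ => rfl, rfl,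
    fun _ => rfl, fun g _ => (l g).1.2, fun g _ => (l g).2.2, fun g hg x y => ?_,
    fun a ha b hb => ?_, fun g hg h1 h2 => ?_⟩
  · exact (Equiv.congr_fun (hl0 g hg) (x, y)).symm
  · let g : H := ⟨(prm_pres Γ₁ Γ₂ (⟨a, ha⟩, ⟨b, hb⟩), 1), by
      change prm_pres Γ₁ Γ₂ (⟨a, ha⟩, ⟨b, hb⟩) * (F ^ (0 : ℤ))⁻¹ ∈ R
      rw [zpow_zero, inv_one, mul_one]
      exact ⟨_, rfl⟩⟩
    have : l g = (⟨a, ha⟩, ⟨b, hb⟩) := inj_pres (hl0 g rfl)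
    exact ⟨g, rfl, by rw [this], by rw [this]⟩
  · have : l g = 1 := Prod.ext (Subtype.ext h1) (Subtype.ext h2)
    refine Subtype.ext (Prod.ext ?_ hg)
    rw [← hl0 g hg, this, map_one]
    rfl

variable {𝔾 : Type} [Group 𝔾] [MulAction 𝔾 (X × Y)] {ht : 𝔾 → ℤ} {t : 𝔾} {l₁ : 𝔾 → X ≃ᵢ X}
  {l₂ : 𝔾 → Y ≃ᵢ Y}

theorem Pres.l_mul (h : Pres F Γ₁ Γ₂ ht t l₁ l₂) {γ δ : 𝔾} (hγ : ht γ = 0) (hδ : ht δ = 0) :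
    l₁ (γ * δ) = l₁ γ * l₁ δ ∧ l₂ (γ * δ) = l₂ γ * l₂ δ := by
  refine ext_pres fun x y => ?_
  rw [← h.smul _ (by rw [h.ht_mul, hγ, hδ, add_zero]), mul_smul, h.smul _ hδ, h.smul _ hγ]
  rfl

theorem Pres.zpow_smul (h : Pres F Γ₁ Γ₂ ht t l₁ l₂) (n : ℤ) (z : X × Y) :
    t ^ n • z = (F ^ n) z := by
  have : MulAction.toPermHom 𝔾 (X × Y) t = F := Equiv.ext h.t_smul
  rw [← this, ← map_zpow]
  rfl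

theorem Pres.ht_zpow_pres (h : Pres F Γ₁ Γ₂ ht t l₁ l₂) (n : ℤ) : ht (t ^ n) = n := by
  let φ : 𝔾 →* Multiplicative ℤ := MonoidHom.mk' (fun g => Multiplicative.ofAdd (ht g))
    fun a b => congrArg Multiplicative.ofAdd (h.ht_mul a b)
  have : φ (t ^ n) = Multiplicative.ofAdd n := by
    rw [map_zpow, show φ t = Multiplicative.ofAdd 1 from congrArg Multiplicative.ofAdd h.ht_t,
      ← ofAdd_zsmul, smul_eq_mul, mul_one]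
  exact this

theorem Pres.exists_eq (h : Pres F Γ₁ Γ₂ ht t l₁ l₂) (g : 𝔾) : ∃ γ₁ ∈ Γ₁, ∃ γ₂ ∈ Γ₂, ∀ z,
    g • z = (γ₁ ((F ^ ht g) z).1, γ₂ ((F ^ ht g) z).2) := by
  have h0 : ht (g * t ^ (-ht g)) = 0 := by rw [h.ht_mul, h.ht_zpow_pres, add_neg_cancel]
  refine ⟨_, h.mem₁ _ h0, _, h.mem₂ _ h0, fun z => ?_⟩
  rw [← h.smul _ h0, Prod.mk.eta, ← h.zpow_smul, ← mul_smul]
  congr 1
  group

theorem Pres.ht_conj_pres (h : Pres F Γ₁ Γ₂ ht t l₁ l₂) (g ν : 𝔾) (h0 : ht ν = 0) :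
    ht (g * ν * g⁻¹) = 0 := by
  have h1 := h.ht_zpow_pres 0
  have h2 := h.ht_mul g g⁻¹
  rw [zpow_zero] at h1
  rw [mul_inv_cancel, h1] at h2
  rw [h.ht_mul, h.ht_mul, h0]
  omega

theorem Nrm₂.zpow_pres (h₂ : Nrm₂ F Γ₂) (h₂' : Nrm₂ F⁻¹ Γ₂) (n : ℤ) : Nrm₂ (F ^ n) Γ₂ := by
  have hm : ∀ F F' : Equiv.Perm (X × Y), Nrm₂ F Γ₂ → Nrm₂ F' Γ₂ → Nrm₂ (F * F') Γ₂ := by
    intro F F' a b γ hγ
    obtain ⟨δ, hδ, e⟩ := b γ hγ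
    obtain ⟨ε, hε, e'⟩ := a δ hδ
    exact ⟨ε, hε, fun x y => by rw [Equiv.Perm.mul_apply, e, e']; rfl⟩
  induction n using Int.induction_on with
  | zero => exact fun γ hγ => ⟨γ, hγ, fun _ _ => rfl⟩
  | succ n ih => rw [zpow_add_one]; exact hm _ _ ih h₂
  | pred n ih => rw [zpow_sub_one]; exact hm _ _ ih h₂'

theorem Nrm₁.zpow_pres (h₁ : Nrm₁ F Γ₁) (h₁' : Nrm₁ F⁻¹ Γ₁) (n : ℤ) : Nrm₁ (F ^ n) Γ₁ := by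
  have hm : ∀ F F' : Equiv.Perm (X × Y), Nrm₁ F Γ₁ → Nrm₁ F' Γ₁ → Nrm₁ (F * F') Γ₁ := by
    intro F F' a b γ hγ
    obtain ⟨δ, hδ, e⟩ := b γ hγ
    obtain ⟨ε, hε, e'⟩ := a δ hδ
    exact ⟨ε, hε, fun x y => by rw [Equiv.Perm.mul_apply, e, e']; rfl⟩
  induction n using Int.induction_on with
  | zero => exact fun γ hγ => ⟨γ, hγ, fun _ _ => rfl⟩
  | succ n ih => rw [zpow_add_one]; exact hm _ _ ih h₁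
  | pred n ih => rw [zpow_sub_one]; exact hm _ _ ih h₁'

theorem Pres.ker₁ (h : Pres F Γ₁ Γ₂ ht t l₁ l₂) (h₂ : Nrm₂ F Γ₂) (h₂' : Nrm₂ F⁻¹ Γ₂) (g ν : 𝔾)
    (h0 : ht ν = 0) (h1 : l₁ ν = 1) : l₁ (g * ν * g⁻¹) = 1 := by
  obtain ⟨a, -, b, -, e⟩ := h.exists_eq g
  obtain ⟨δ, -, hδ⟩ := h₂.zpow_pres h₂' (ht g) _ (h.mem₂ ν h0)
  refine IsometryEquiv.ext fun x => ?_
  have e1 := h.smul _ (h.ht_conj_pres g ν h0) x (Classical.arbitrary Y)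
  have e2 := e (g⁻¹ • (x, Classical.arbitrary Y))
  rw [smul_inv_smul] at e2
  rw [mul_smul, mul_smul, ← Prod.mk.eta (p := g⁻¹ • _), h.smul _ h0, h1, e] at e1
  have e3 := congrArg Prod.fst e1
  rw [IsometryEquiv.coe_one, id, hδ] at e3
  exact e3.symm.trans (congrArg Prod.fst e2).symm

theorem Pres.ker₂ (h : Pres F Γ₁ Γ₂ ht t l₁ l₂) (h₁ : Nrm₁ F Γ₁) (h₁' : Nrm₁ F⁻¹ Γ₁) (g ν : 𝔾)
    (h0 : ht ν = 0) (h1 : l₂ ν = 1) : l₂ (g * ν * g⁻¹) = 1 := by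
  obtain ⟨a, -, b, -, e⟩ := h.exists_eq g
  obtain ⟨δ, -, hδ⟩ := h₁.zpow_pres h₁' (ht g) _ (h.mem₁ ν h0)
  refine IsometryEquiv.ext fun y => ?_
  have e1 := h.smul _ (h.ht_conj_pres g ν h0) (Classical.arbitrary X) y
  have e2 := e (g⁻¹ • (Classical.arbitrary X, y))
  rw [smul_inv_smul] at e2
  rw [mul_smul, mul_smul, ← Prod.mk.eta (p := g⁻¹ • _), h.smul _ h0, h1, e] at e1
  have e3 := congrArg Prod.snd e1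
  rw [IsometryEquiv.coe_one, id, hδ] at e3
  exact e3.symm.trans (congrArg Prod.snd e2).symm

theorem exists_B {F : Equiv.Perm (X × ℂ)} {Γ₂ : Subgroup (ℂ ≃ᵢ ℂ)} (hΓ : Lat Γ₂ univ)
    (ht : ∀ γ ∈ Γ₂, ∀ y, γ y = y + γ 0) (h : Nrm₂ F Γ₂) (h' : Nrm₂ F⁻¹ Γ₂) :
    ∃ (B : ℂ ≃L[ℝ] ℂ) (τ : ℤ), (∀ γ ∈ Γ₂, ∀ x y,
      (F * F) (x, γ y) = (((F * F) (x, y)).1, ((F * F) (x, y)).2 + B (γ 0))) ∧
      (∀ y, B y + B.symm y = (τ : ℝ) • y) ∧ (B : ℂ →L[ℝ] ℂ).det = 1 ∧ -2 ≤ τ := by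
  have hi : ∀ γ ∈ Γ₂, γ⁻¹ 0 = -γ 0 := by
    intro γ hγ
    have := ht γ hγ (γ⁻¹ 0)
    rw [IsometryEquiv.apply_inv_self] at this
    exact eq_neg_of_add_eq_zero_left this.symm
  let Λ : AddSubgroup ℂ :=
    { carrier := {v | ∃ γ ∈ Γ₂, γ 0 = v}
      zero_mem' := ⟨1, Γ₂.one_mem, rfl⟩
      add_mem' := by
        rintro _ _ ⟨γ, hγ, rfl⟩ ⟨δ, hδ, rfl⟩
        exact ⟨δ * γ, Γ₂.mul_mem hδ hγ, ht δ hδ _⟩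
      neg_mem' := by
        rintro _ ⟨γ, hγ, rfl⟩
        exact ⟨γ⁻¹, Γ₂.inv_mem hγ, hi γ hγ⟩ }
  have key : ∀ F : Equiv.Perm (X × ℂ), Nrm₂ F Γ₂ → ∀ v : Λ, ∃ w : Λ, ∀ x y,
      F (x, y + v) = ((F (x, y)).1, (F (x, y)).2 + w) := by
    rintro F hF ⟨_, γ, hγ, rfl⟩
    obtain ⟨δ, hδ, e⟩ := hF γ hγ
    exact ⟨⟨δ 0, δ, hδ, rfl⟩, fun x y => by rw [← ht γ hγ, e, ht δ hδ]⟩
  choose f hf using key F h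
  choose g hg using key F⁻¹ h'
  have x₀ := Classical.arbitrary X
  have inv : ∀ (F F' : Equiv.Perm (X × ℂ)) (f g : Λ → Λ), (∀ z, F' (F z) = z) →
      (∀ (v : Λ) x y, F (x, y + v) = ((F (x, y)).1, (F (x, y)).2 + f v)) →
      (∀ (v : Λ) x y, F' (x, y + v) = ((F' (x, y)).1, (F' (x, y)).2 + g v)) →
      ∀ v, g (f v) = v := by
    intro F F' f g e hf hg v
    have := e (x₀, 0 + v)
    rw [hf, hg, Prod.mk.eta, e] at this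
    exact Subtype.ext (add_left_cancel (congrArg Prod.snd this))
  let θ : Λ ≃+ Λ := ⟨⟨f, g, inv F F⁻¹ f g F.symm_apply_apply hf hg,
    inv F⁻¹ F g f F.apply_symm_apply hg hf⟩, fun v w => by
      have := hf (v + w) x₀ 0
      rw [AddSubgroup.coe_add, ← add_assoc, hf, hf] at this
      have h2 := congrArg Prod.snd this
      simp only [add_assoc, add_right_inj] at h2
      exact Subtype.ext h2.symm⟩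
  obtain ⟨B, τ, b1, b2⟩ := exists_lattice_map (Λ := Λ) (fun R => by
    refine ((hΓ.proper 0 R).image fun γ => γ 0).subset ?_
    rintro _ ⟨⟨γ, hγ, rfl⟩, h2⟩
    exact ⟨γ, ⟨hγ, by rwa [dist_zero_right]⟩, rfl⟩) (by
    obtain ⟨y₀, R, hR⟩ := hΓ.cocpt
    refine ⟨R, fun y => ?_⟩
    obtain ⟨γ, hγ, h2⟩ := hR (y + y₀) (mem_univ _)
    refine ⟨-γ 0, Λ.neg_mem ⟨γ, hγ, rfl⟩, ?_⟩
    rw [ht γ hγ, dist_eq_norm] at h2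
    rwa [show y - -γ 0 = y + y₀ + γ 0 - y₀ by ring]) θ
  refine ⟨B, τ, fun γ hγ x y => ?_, b2⟩
  have := b1 ⟨γ 0, γ, hγ, rfl⟩
  rw [ht γ hγ, this, Equiv.Perm.mul_apply, hf ⟨γ 0, γ, hγ, rfl⟩, hf]
  rfl

end Pool.Agent.P.MP_788ef7_an
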