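import Pool.Agent.P.MP_788ef7_an.Push1

set_option autoImplicit false

open Set Filter Topology Metric

namespace Pool.Agent.P.MP_788ef7_an

variable {E : Type*} [NormedAddCommGroup E] [NormedSpace ℝ E] [FiniteDimensional ℝ E]
  {C : Type*} [Group C] {O : Set E} {a : C → E → E}

omit [FiniteDimensional ℝ E] in
theorem DAct.finite_push (h : DAct O a) {K N : Set E} (hK : IsCompact K) (hKO : K ⊆ O)
    (hN : IsCompact N) (hNO : N ⊆ O) : {c | ∃ y ∈ N, a c y ∈ K}.Finite :=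
  (h.proper (N ∪ K) (hN.union hK) (union_subset hNO hKO)).subset
    fun _ ⟨y, hy, hc⟩ => ⟨y, Or.inl hy, Or.inr hc⟩

omit [FiniteDimensional ℝ E] in
theorem DAct.support_push (h : DAct O a) {K : Set E} (hK : IsCompact K) (hKO : K ⊆ O)
    {F : Type*} [Zero F] {g : C → F} {x : E} (hx : x ∈ O) (hs : ∀ c, a c x ∉ K → g c = 0) :
    Function.HasFiniteSupport g :=
  (h.finite_push hK hKO isCompact_singleton (singleton_subset_iff.2 hx)).subset
    fun c hc => ⟨x, rfl, not_not.1 fun h' => hc (hs c h')⟩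

theorem DAct.contDiffOn_push (h : DAct O a) {K : Set E} (hK : IsCompact K) (hKO : K ⊆ O)
    {F : Type*} [NormedAddCommGroup F] [NormedSpace ℝ F] {g : C → E → F}
    (hg : ∀ c, ContDiffOn ℝ 1 (g c) O) (hs : ∀ c, ∀ x ∈ O, a c x ∉ K → g c x = 0) :
    ContDiffOn ℝ 1 (fun x => ∑ᶠ c, g c x) O := fun x hx => by
  obtain ⟨N, hN, hxN, hNO⟩ := exists_compact_subset h.isOpen hx
  have hT := h.finite_push hK hKO hN hNO
  have e : ∀ y ∈ N, ∑ᶠ c, g c y = ∑ c ∈ hT.toFinset, g c y := fun y hy =>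
    finsum_eq_sum_of_support_subset _ fun c hc => by
      rw [Finite.coe_toFinset]
      exact ⟨y, hy, not_not.1 fun h' => hc (hs c y (hNO hy) h')⟩
  refine (ContDiffOn.sum (s := hT.toFinset) (fun c _ => hg c) x hx).congr_of_eventuallyEq ?_
    (e x (interior_subset hxN))
  exact mem_nhdsWithin_of_mem_nhds (mem_of_superset (mem_interior_iff_mem_nhds.1 hxN) e)

/-- The sum of the translates of a function with compact support. -/
theorem DAct.push_fun (h : DAct O a) {K : Set E} (hK : IsCompact K) (hKO : K ⊆ O) {χ : E → ℝ}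
    (hχ : ContDiffOn ℝ 1 χ O) (h0 : ∀ x, 0 ≤ χ x) (hs : ∀ x ∈ O, x ∉ K → χ x = 0) :
    ∃ θ : E → ℝ, ContDiffOn ℝ 1 θ O ∧ (∀ c, ∀ x ∈ O, θ (a c x) = θ x) ∧ (∀ x ∈ O, χ x ≤ θ x) ∧
      (∀ x ∈ O, θ x ≠ 0 → ∃ c, χ (a c x) ≠ 0) ∧
      ∀ x ∈ O, (∀ c, a c x ∈ K → c = 1) → θ x = χ x := by
  refine ⟨fun x => ∑ᶠ c, χ (a c x), h.contDiffOn_push hK hKO
    (fun c => hχ.comp ((h.c2 c).of_le (by norm_num)) (h.maps c))
    (fun c x hx => hs _ (h.maps c hx)), fun c x hx => ?_, fun x hx => ?_, fun x hx hne => ?_,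
    fun x hx h1 => ?_⟩
  · refine Eq.trans ?_ (finsum_comp_equiv (Equiv.mulRight c) (f := fun c' => χ (a c' x)))
    exact finsum_congr fun c' => congrArg χ (h.mul c' c x hx).symm
  · have := single_le_finsum (1 : C) (f := fun c => χ (a c x))
      (h.support_push hK hKO hx fun c => hs _ (h.maps c hx)) fun c => h0 _
    rwa [h.one x hx] at this
  · by_contra hc
    exact hne (finsum_eq_zero_of_forall_eq_zero fun c => not_not.1 fun h' => hc ⟨c, h'⟩)
  · exact (finsum_eq_single (fun c => χ (a c x)) 1 fun c hc =>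
      hs _ (h.maps c hx) fun h' => hc (h1 c h')).trans (by rw [h.one x hx])

/-- The sum of the translates of a vector field with compact support. -/
theorem DAct.push_field (h : DAct O a) {K : Set E} (hK : IsCompact K) (hKO : K ⊆ O) {W : E → E}
    (hW : ContDiffOn ℝ 1 W O) (hs : ∀ x ∈ O, x ∉ K → W x = 0) :
    ∃ V : E → E, ContDiffOn ℝ 1 V O ∧ Eqv O a V ∧
      (∀ x ∈ O, ∃ T : Finset C, (∀ c, W (a c x) ≠ 0 → c ∈ T) ∧
        V x = ∑ c ∈ T, fderiv ℝ (a c⁻¹) (a c x) (W (a c x))) ∧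
      ∀ x ∈ O, (∀ c, a c x ∈ K → c = 1) → V x = W x := by
  have hz : ∀ c, ∀ x ∈ O, a c x ∉ K → fderiv ℝ (a c⁻¹) (a c x) (W (a c x)) = 0 :=
    fun c x hx h' => by rw [hs _ (h.maps c hx) h', map_zero]
  refine ⟨fun x => ∑ᶠ c, fderiv ℝ (a c⁻¹) (a c x) (W (a c x)), h.contDiffOn_push hK hKO
    (fun c => ?_) hz, fun c x hx => ?_, fun x hx => ?_, fun x hx h1 => ?_⟩
  · exact (((h.c2 c⁻¹).fderiv_of_isOpen h.isOpen (by norm_num)).clm_apply hW).comp
      ((h.c2 c).of_le (by norm_num)) (h.maps c)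
  · rw [map_finsum _ (h.support_push hK hKO hx fun c => hz c x hx)]
    refine (finsum_comp_equiv (Equiv.mulRight c⁻¹)).symm.trans (finsum_congr fun c' => ?_)
    simp only [Equiv.coe_mulRight]
    rw [← h.mul _ _ _ hx, inv_mul_cancel_right, mul_inv_rev, inv_inv,
      h.fderiv_mul _ _ (h.maps c' hx), ← h.mul _ _ _ hx, inv_mul_cancel, h.one x hx]
    rfl
  · have hT := h.support_push hK hKO hx (g := fun c => W (a c x)) fun c => hs _ (h.maps c hx)
    refine ⟨Finite.toFinset hT, fun c hc => (Finite.mem_toFinset hT).2 hc,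
      finsum_eq_sum_of_support_subset _ fun c hc => ?_⟩
    exact (Finite.mem_toFinset hT).2 fun h' => hc (by
      beta_reduce
      rw [show W (a c x) = 0 from h', map_zero])
  · refine (finsum_eq_single (fun c => fderiv ℝ (a c⁻¹) (a c x) (W (a c x))) 1 fun c hc =>
      hz c x hx fun h' => hc (h1 c h')).trans ?_
    rw [inv_one, h.one x hx, h.fderiv_one hx]
    rfl

theorem exists_bump_push {K U : Set E} (hK : IsCompact K) (hU : IsOpen U) (hKU : K ⊆ U) :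
    ∃ (L L' : Set E) (χ : E → ℝ), IsOpen L ∧ IsCompact L' ∧ K ⊆ L ∧ L ⊆ L' ∧ L' ⊆ U ∧
      ContDiff ℝ 1 χ ∧ (∀ x, 0 ≤ χ x) ∧ (∀ x ∈ L, χ x = 1) ∧ ∀ x ∉ L', χ x = 0 := by
  obtain ⟨L', hL', h1, h2⟩ := exists_compact_between hK hU hKU
  obtain ⟨L, hL, h3, h4⟩ := exists_compact_between hK isOpen_interior h1
  obtain ⟨f, f0, f1, f2⟩ := exists_contMDiffMap_zero_one_of_isClosed (modelWithCornersSelf ℝ E)
    (n := 1) isOpen_interior.isClosed_compl hL.isClosed (disjoint_left.2 fun x hx hx' => hx (h4 hx'))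
  exact ⟨interior L, L', f, isOpen_interior, hL', h3,
    interior_subset.trans (h4.trans interior_subset), h2, f.contMDiff.contDiff, fun x => (f2 x).1,
    fun x hx => f1 (interior_subset hx), fun x hx => f0 fun h' => hx (interior_subset h')⟩

/-- Invariant cut-off functions. -/
theorem DAct.cutoff (h : DAct O a) {K : Set E} (hK : IsCompact K) (hKO : K ⊆ O) :
    ∃ (K' : Set E) (θ : E → ℝ), IsCompact K' ∧ K' ⊆ O ∧ K ⊆ K' ∧ ContDiffOn ℝ 1 θ O ∧
      (∀ c, ∀ x ∈ O, θ (a c x) = θ x) ∧ (∀ x ∈ O, θ x ∈ Icc (0 : ℝ) 1) ∧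
      (∀ x ∈ Orb a K, ∀ᶠ y in 𝓝 x, θ y = 1) ∧ ∀ x ∈ O, x ∉ Orb a K' → θ x = 0 := by
  obtain ⟨L, L', χ, hL, hL', h1, h2, h3, hχ, h0, hone, hz⟩ := exists_bump_push hK h.isOpen hKO
  obtain ⟨θ, t1, t2, t3, t4, -⟩ := h.push_fun hL' h3 hχ.contDiffOn h0 fun x _ => hz x
  refine ⟨L', fun x => Real.smoothTransition (θ x), hL', h3, h1.trans h2,
    Real.smoothTransition.contDiff.comp_contDiffOn t1, fun c x hx => congrArg _ (t2 c x hx),
    fun x _ => ⟨Real.smoothTransition.nonneg _, Real.smoothTransition.le_one _⟩,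
    fun x ⟨c, k, hk, hx⟩ => ?_, fun x hx hx' => ?_⟩
  · filter_upwards [(h.isOpen_orb (h2.trans h3) hL).mem_nhds ⟨c, k, h1 hk, hx⟩]
    rintro _ ⟨c', k', hk', rfl⟩
    rw [t2 c' k' (h3 (h2 hk'))]
    exact Real.smoothTransition.one_of_one_le ((hone k' hk').ge.trans (t3 k' (h3 (h2 hk'))))
  · have : θ x = 0 := not_not.1 fun hne => by
      obtain ⟨c, hc⟩ := t4 x hx hne
      exact hx' ((h.mem_orb h3 c hx).1 (h.subset_orb h3 (not_not.1 fun h' => hc (hz _ h'))))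
    exact (congrArg _ this).trans Real.smoothTransition.zero

omit [FiniteDimensional ℝ E] [Group C] in
theorem Cone.add_push {Adm : E → E → Prop} (hA : Cone O a Adm) {x : E} (hx : x ∈ O) {w w' : E}
    (hw : Adm x w) (hw' : w' = 0 ∨ Adm x w') : Adm x (w + w') := by
  rcases hw' with rfl | hw'
  · rwa [add_zero]
  · exact hA.add x hx _ _ hw hw'

omit [FiniteDimensional ℝ E] [Group C] in
theorem Cone.add_push' {Adm : E → E → Prop} (hA : Cone O a Adm) {x : E} (hx : x ∈ O) {w w' : E}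
    (hw : w = 0 ∨ Adm x w) (hw' : w' = 0 ∨ Adm x w') : w + w' = 0 ∨ Adm x (w + w') := by
  rcases hw with rfl | hw
  · rwa [zero_add]
  · exact Or.inr (hA.add_push hx hw hw')

theorem DAct.section_loc_push (h : DAct O a) {Adm : E → E → Prop} (hA : Cone O a Adm) {x₀ : E}
    (hx₀ : x₀ ∈ O) : ∃ L ∈ 𝓝 x₀, ∃ V : E → E, ContDiffOn ℝ 1 V O ∧ Eqv O a V ∧
      (∀ x ∈ O, V x = 0 ∨ Adm x (V x)) ∧ ∀ x ∈ L, x ∈ O → Adm x (V x) := by
  classical
  obtain ⟨W, hW, hev⟩ := hA.loc x₀ hx₀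
  obtain ⟨U, hU, hUo, hxU⟩ := _root_.mem_nhds_iff.1 (inter_mem hev (h.isOpen.mem_nhds hx₀))
  obtain ⟨L, L', χ, hL, hL', h1, h2, h3, hχ, h0, hone, hz⟩ :=
    exists_bump_push isCompact_singleton hUo (singleton_subset_iff.2 hxU)
  obtain ⟨V, v1, v2, v3, -⟩ := h.push_field hL' (fun x hx => (hU (h3 hx)).2)
    (W := fun x => χ x • W x) (hχ.contDiffOn.smul hW) fun x _ hx => by rw [hz x hx, zero_smul]
  have ht : ∀ x ∈ O, ∀ c, χ (a c x) ≠ 0 →
      Adm x (fderiv ℝ (a c⁻¹) (a c x) (χ (a c x) • W (a c x))) := fun x hx c hc => by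
    have hy : a c x ∈ L' := not_not.1 fun h' => hc (hz _ h')
    have := hA.eqv c⁻¹ _ (h.maps c hx) _
      (hA.smul _ (h.maps c hx) _ _ ((h0 _).lt_of_ne' hc) (hU (h3 hy)).1)
    rwa [← h.mul _ _ _ hx, inv_mul_cancel, h.one x hx] at this
  have hsum : ∀ x ∈ O, ∀ T : Finset C,
      ∑ c ∈ T, fderiv ℝ (a c⁻¹) (a c x) (χ (a c x) • W (a c x)) = 0 ∨
        Adm x (∑ c ∈ T, fderiv ℝ (a c⁻¹) (a c x) (χ (a c x) • W (a c x))) := fun x hx T =>
    Finset.sum_induction _ (fun w => w = 0 ∨ Adm x w) (fun _ _ => hA.add_push' hx) (Or.inl rfl)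
      fun c _ => (eq_or_ne (χ (a c x)) 0).imp (fun h' => by rw [h', zero_smul, map_zero]) (ht x hx c)
  have hV : ∀ x ∈ O, V x = 0 ∨ Adm x (V x) := fun x hx => by
    obtain ⟨T, -, e⟩ := v3 x hx
    rw [e]
    exact hsum x hx T
  refine ⟨L, hL.mem_nhds (h1 rfl), V, v1, v2, hV, fun x hxL hx => ?_⟩
  obtain ⟨T, hT, e⟩ := v3 x hx
  have h1x := ht x hx 1 (by rw [h.one x hx, hone x hxL]; exact one_ne_zero)
  by_cases h1T : (1 : C) ∈ T
  · rw [e, ← Finset.add_sum_erase _ _ h1T]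
    exact hA.add_push hx h1x (hsum x hx _)
  · rw [show χ (a 1 x) • W (a 1 x) = 0 from not_not.1 fun h' => h1T (hT 1 h'), map_zero] at h1x
    exact (hV x hx).elim (fun h' => h' ▸ h1x) id

/-- Equivariant sections of a cone field over a cocompact set. -/
theorem DAct.section (h : DAct O a) {Adm : E → E → Prop} (hA : Cone O a Adm) {K : Set E}
    (hK : IsCompact K) (hKO : K ⊆ O) :
    ∃ V : E → E, ContDiffOn ℝ 1 V O ∧ Eqv O a V ∧ ∀ x ∈ Orb a K, Adm x (V x) := by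
  have key : ∃ V : E → E, ContDiffOn ℝ 1 V O ∧ Eqv O a V ∧
      (∀ x ∈ O, V x = 0 ∨ Adm x (V x)) ∧ ∀ x ∈ K, x ∈ O → Adm x (V x) := by
    refine hK.induction_on (p := fun S => ∃ V : E → E, ContDiffOn ℝ 1 V O ∧ Eqv O a V ∧
      (∀ x ∈ O, V x = 0 ∨ Adm x (V x)) ∧ ∀ x ∈ S, x ∈ O → Adm x (V x)) ?_ ?_ ?_ ?_
    · exact ⟨fun _ => 0, contDiffOn_const, fun c x _ => (map_zero _).symm, fun _ _ => Or.inl rfl,
        fun _ hx => hx.elim⟩
    · exact fun s t hst ⟨V, h1, h2, h3, h4⟩ => ⟨V, h1, h2, h3, fun x hx => h4 x (hst hx)⟩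
    · rintro s t ⟨V, h1, h2, h3, h4⟩ ⟨V', h1', h2', h3', h4'⟩
      refine ⟨fun x => V x + V' x, h1.add h1', fun c x hx => ?_,
        fun x hx => hA.add_push' hx (h3 x hx) (h3' x hx), fun x hx hxO => hx.elim
          (fun hx => hA.add_push hxO (h4 x hx hxO) (h3' x hxO)) fun hx => ?_⟩
      · rw [map_add, ← h2 c x hx, ← h2' c x hx]
      · beta_reduce
        rw [add_comm]
        exact hA.add_push hxO (h4' x hx hxO) (h3 x hxO)
    · intro x hx
      obtain ⟨L, hL, hV⟩ := h.section_loc_push hA (hKO hx)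
      exact ⟨L, mem_nhdsWithin_of_mem_nhds hL, hV⟩
  obtain ⟨V, h1, h2, -, h4⟩ := key
  refine ⟨V, h1, h2, ?_⟩
  rintro _ ⟨c, k, hk, rfl⟩
  rw [h2 c k (hKO hk)]
  exact hA.eqv c k (hKO hk) _ (h4 k hk (hKO hk))

end Pool.Agent.P.MP_788ef7_an
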