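import Pool.Agent.P.MP_788ef7_an.IDefs

set_option autoImplicit false
set_option linter.unusedSectionVars false

open Set Filter Topology Metric

namespace Pool.Agent.P.MP_788ef7_an

variable {E : Type*} [NormedAddCommGroup E] [NormedSpace ℝ E] [FiniteDimensional ℝ E]
  {C : Type*} [Group C] {O : Set E} {a : C → E → E}

theorem DAct.contDiffAt_push1 (h : DAct O a) (c : C) {x : E} (hx : x ∈ O) :
    ContDiffAt ℝ 2 (a c) x := (h.c2 c).contDiffAt (h.isOpen.mem_nhds hx)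

theorem DAct.diffAt_push1 (h : DAct O a) (c : C) {x : E} (hx : x ∈ O) :
    DifferentiableAt ℝ (a c) x := (h.contDiffAt_push1 c hx).differentiableAt (by simp)

theorem DAct.inv_push1 (h : DAct O a) (c : C) {x : E} (hx : x ∈ O) : a c⁻¹ (a c x) = x := by
  rw [← h.mul _ _ x hx, inv_mul_cancel, h.one x hx]

theorem DAct.orb_iff_push1 (h : DAct O a) {K : Set E} (hK : K ⊆ O) {x : E} :
    x ∈ Orb a K ↔ x ∈ O ∧ ∃ c, a c x ∈ K := by
  constructor
  · rintro ⟨c, k, hk, rfl⟩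
    exact ⟨h.maps c (hK hk), c⁻¹, by rwa [h.inv_push1 c (hK hk)]⟩
  · rintro ⟨hx, c, hc⟩
    exact ⟨c⁻¹, a c x, hc, (h.inv_push1 c hx).symm⟩

theorem DAct.fderiv_mul (h : DAct O a) (c c' : C) {x : E} (hx : x ∈ O) :
    fderiv ℝ (a (c * c')) x = (fderiv ℝ (a c) (a c' x)).comp (fderiv ℝ (a c') x) := by
  have e : a (c * c') =ᶠ[𝓝 x] a c ∘ a c' := by
    filter_upwards [h.isOpen.mem_nhds hx] with y hy using h.mul c c' y hy
  rw [e.fderiv_eq, fderiv_comp x (h.diffAt_push1 c (h.maps c' hx)) (h.diffAt_push1 c' hx)]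

theorem DAct.fderiv_one (h : DAct O a) {x : E} (hx : x ∈ O) :
    fderiv ℝ (a 1) x = ContinuousLinearMap.id ℝ E := by
  have e : a 1 =ᶠ[𝓝 x] id := by
    filter_upwards [h.isOpen.mem_nhds hx] with y hy using h.one y hy
  rw [e.fderiv_eq, fderiv_id]

theorem DAct.fderiv_eq_zero (h : DAct O a) (c : C) {x : E} (hx : x ∈ O) {v : E} :
    fderiv ℝ (a c) x v = 0 ↔ v = 0 := by
  refine ⟨fun h0 => ?_, fun h0 => by rw [h0, map_zero]⟩
  have e := h.fderiv_mul c⁻¹ c hx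
  rw [inv_mul_cancel, h.fderiv_one hx] at e
  have e' : v = fderiv ℝ (a c⁻¹) (a c x) (fderiv ℝ (a c) x v) := congrArg (fun L => L v) e
  rw [e', h0, map_zero]

theorem DAct.countable (h : DAct O a) (hO : O.Nonempty) : Countable C := by
  obtain ⟨x, hx⟩ := hO
  choose! K hK using fun y (hy : y ∈ O) => exists_compact_subset h.isOpen hy
  obtain ⟨t, ht, htc, hcov⟩ := TopologicalSpace.countable_cover_nhdsWithin (f := K) (s := O)
    fun y hy => mem_nhdsWithin_of_mem_nhds (mem_interior_iff_mem_nhds.1 (hK y hy).2.1)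
  rw [← countable_univ_iff]
  refine (htc.biUnion fun y hy => (h.proper (insert x (K y)) ((hK y (ht hy)).1.insert x)
    (insert_subset hx (hK y (ht hy)).2.2)).countable).mono fun c _ => ?_
  obtain ⟨y, hy, hy'⟩ := mem_iUnion₂.1 (hcov (h.maps c hx))
  exact mem_iUnion₂.2 ⟨y, hy, x, mem_insert _ _, mem_insert_of_mem _ hy'⟩

theorem DAct.mem_orb (h : DAct O a) {K : Set E} (hK : K ⊆ O) (c : C) {x : E} (hx : x ∈ O) :
    a c x ∈ Orb a K ↔ x ∈ Orb a K := by
  rw [h.orb_iff_push1 hK, h.orb_iff_push1 hK]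
  constructor
  · rintro ⟨-, c', hc'⟩
    exact ⟨hx, c' * c, by rwa [h.mul _ _ x hx]⟩
  · rintro ⟨-, c', hc'⟩
    exact ⟨h.maps c hx, c' * c⁻¹, by rwa [h.mul _ _ _ (h.maps c hx), h.inv_push1 c hx]⟩

theorem DAct.subset_orb (h : DAct O a) {K : Set E} (hK : K ⊆ O) : K ⊆ Orb a K := by
  exact fun x hx => ⟨1, x, hx, (h.one x (hK hx)).symm⟩

theorem DAct.orb_subset (h : DAct O a) {K : Set E} (hK : K ⊆ O) : Orb a K ⊆ O := by
  exact fun x hx => ((h.orb_iff_push1 hK).1 hx).1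

theorem DAct.isOpen_orb (h : DAct O a) {K : Set E} (hK : K ⊆ O) (ho : IsOpen K) :
    IsOpen (Orb a K) := by
  have e : Orb a K = ⋃ c, O ∩ a c ⁻¹' K := by
    ext x
    rw [h.orb_iff_push1 hK, mem_iUnion]
    exact ⟨fun ⟨h1, c, h2⟩ => ⟨c, h1, h2⟩, fun ⟨c, h1, h2⟩ => ⟨h1, c, h2⟩⟩
  rw [e]
  exact isOpen_iUnion fun c => (h.c2 c).continuousOn.isOpen_inter_preimage h.isOpen ho

theorem DAct.isOpen_diff_orb (h : DAct O a) {K : Set E} (hK : K ⊆ O) (hc : IsCompact K) :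
    IsOpen (O \ Orb a K) := by
  refine isOpen_iff_mem_nhds.2 fun x ⟨hx, hx'⟩ => ?_
  obtain ⟨N, hN, hxN, hNO⟩ := exists_compact_subset h.isOpen hx
  have hS := h.proper (N ∪ K) (hN.union hc) (union_subset hNO hK)
  have h1 : ∀ᶠ y in 𝓝 x, ∀ c ∈ {c | ∃ z ∈ N ∪ K, a c z ∈ N ∪ K}, a c y ∉ K := by
    refine (eventually_all_finite hS).2 fun c _ => ?_
    refine (h.diffAt_push1 c hx).continuousAt.eventually (hc.isClosed.isOpen_compl.mem_nhds ?_)
    exact fun hk => hx' ((h.orb_iff_push1 hK).2 ⟨hx, c, hk⟩)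
  filter_upwards [h1, mem_interior_iff_mem_nhds.1 hxN] with y hy hyN
  refine ⟨hNO hyN, fun ho => ?_⟩
  obtain ⟨-, c, hk⟩ := (h.orb_iff_push1 hK).1 ho
  exact hy c ⟨y, Or.inl hyN, Or.inr hk⟩ hk

theorem DAct.exists_ball (h : DAct O a) {x : E} (hx : x ∈ O) : ∃ r > 0, closedBall x r ⊆ O ∧
    ∀ c, ∀ y ∈ closedBall x r, a c y ∈ closedBall x r → c = 1 := by
  obtain ⟨N, hN, hxN, hNO⟩ := exists_compact_subset h.isOpen hx
  have hS := h.proper N hN hNO
  have h1 : ∀ᶠ r in 𝓝 (0 : ℝ), ∀ c ∈ {c | ∃ z ∈ N, a c z ∈ N},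
      ∀ y ∈ closedBall x r, a c y ∈ closedBall x r → c = 1 := by
    refine (eventually_all_finite hS).2 fun c _ => ?_
    by_cases hc : c = 1
    · exact Eventually.of_forall fun _ _ _ _ => hc
    have hd : 0 < dist (a c x) x := dist_pos.2 fun e => hc (h.free c x hx e)
    have h2 : ∀ᶠ y in 𝓝 x, dist (a c x) x / 2 < dist (a c y) x :=
      ((h.diffAt_push1 c hx).continuousAt.dist continuousAt_const).eventually
        (lt_mem_nhds (half_lt_self hd))
    filter_upwards [eventually_closedBall_subset h2, gt_mem_nhds (half_pos hd)] with r hr hr' y hy hy'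
    have h3 : dist (a c x) x / 2 < dist (a c y) x := hr hy
    exact absurd (mem_closedBall.1 hy') (by linarith)
  have h2 := eventually_closedBall_subset (mem_interior_iff_mem_nhds.1 hxN)
  obtain ⟨r, ⟨hr1, hr2⟩, hr⟩ :=
    (((h1.and h2).filter_mono nhdsWithin_le_nhds).and (self_mem_nhdsWithin (s := Ioi 0))).exists
  exact ⟨r, hr, hr2.trans hNO, fun c y hy hy' => hr1 c ⟨y, hr2 hy, hr2 hy'⟩ y hy hy'⟩

/-- The determinant at a zero is constant along orbits. -/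
theorem DAct.det_eq (h : DAct O a) {v : E → E} (hv : Eqv O a v) (hv' : ContDiffOn ℝ 1 v O) (c : C)
    {x : E} (hx : x ∈ O) (h0 : v x = 0) : (fderiv ℝ v (a c x)).det = (fderiv ℝ v x).det := by
  have hd : ∀ y ∈ O, DifferentiableAt ℝ v y := fun y hy =>
    (hv'.contDiffAt (h.isOpen.mem_nhds hy)).differentiableAt (by simp)
  have e : v ∘ a c =ᶠ[𝓝 x] fun y => fderiv ℝ (a c) y (v y) := by
    filter_upwards [h.isOpen.mem_nhds hx] with y hy using hv c y hy
  have h1 : DifferentiableAt ℝ (fderiv ℝ (a c)) x :=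
    ((h.contDiffAt_push1 c hx).fderiv_right (m := 1) (by norm_num)).differentiableAt (by simp)
  have h2 := e.fderiv_eq (𝕜 := ℝ)
  rw [fderiv_comp x (hd _ (h.maps c hx)) (h.diffAt_push1 c hx),
    (h1.hasFDerivAt.clm_apply (hd x hx).hasFDerivAt).fderiv, h0, map_zero, add_zero] at h2
  have h3 := h.fderiv_mul c⁻¹ c hx
  rw [inv_mul_cancel, h.fderiv_one hx] at h3
  have hm : ∀ A B : E →L[ℝ] E, (A.comp B).det = A.det * B.det := fun A B =>
    LinearMap.det_comp (A : E →ₗ[ℝ] E) (B : E →ₗ[ℝ] E)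
  have h4 := congrArg ContinuousLinearMap.det h2
  have h5 := congrArg ContinuousLinearMap.det h3
  rw [hm, hm, mul_comm] at h4
  have h6 : (ContinuousLinearMap.id ℝ E).det = 1 := LinearMap.det_id
  rw [hm, h6] at h5
  exact mul_left_cancel₀ (right_ne_zero_of_mul_eq_one h5.symm) h4

end Pool.Agent.P.MP_788ef7_an
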