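import Pool.Agent.P.MP_788ef7_an.SDefs
import Pool.Agent.P.MP_788ef7_an.Orient

set_option autoImplicit false
set_option linter.unusedSectionVars false

open Set Filter Topology Metric

namespace Pool.Agent.P.MP_788ef7_an

namespace Setting

variable {𝔾 X E : Type*} [Group 𝔾] [MetricSpace X] [MulAction 𝔾 X] [ProperSpace X]
  [NormedAddCommGroup E] [NormedSpace ℝ E] [FiniteDimensional ℝ E] {S : Setting 𝔾 X E}
  {g g' G G' γ c w : 𝔾} {p p' q x y z : X} {C : Subgroup 𝔾} {K : Set X} {R : ℝ}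

theorem ht_pow (S : Setting 𝔾 X E) (g : 𝔾) (n : ℕ) : S.ht (g ^ n) = n * S.ht g := by
  induction n with
  | zero => simp [S.ht_one]
  | succ n ih => rw [pow_succ, S.ht_mul, ih]; push_cast; ring

theorem ht_zpow (S : Setting 𝔾 X E) (g : 𝔾) (n : ℤ) : S.ht (g ^ n) = n * S.ht g := by
  obtain ⟨m, rfl | rfl⟩ := n.eq_nat_or_neg
  · rw [zpow_natCast, S.ht_pow]
  · rw [zpow_neg, zpow_natCast, S.ht_inv, S.ht_pow]; ring

theorem ht_conj (S : Setting 𝔾 X E) (w g : 𝔾) : S.ht (w * g * w⁻¹) = S.ht g := by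
  rw [S.ht_mul, S.ht_mul, S.ht_inv]; ring

theorem cont_smul (S : Setting 𝔾 X E) (g : 𝔾) : Continuous fun x : X => g • x := by
  rw [S.emb.isInducing.continuous_iff]
  have h : (S.e ∘ fun x : X => g • x) = fun x => S.A g (S.e x) := by
    funext x
    exact (S.A_e g x).symm
  rw [h]
  exact (S.c1 g).continuousOn.comp_continuous S.emb.continuous fun x => mem_range_self x

theorem countable (S : Setting 𝔾 X E) : Countable 𝔾 := by
  obtain ⟨x, -⟩ := S.nonempty
  have h0 : {γ : 𝔾 | S.ht γ = 0}.Countable := by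
    refine (countable_iUnion fun n : ℕ => (S.proper x n).countable).mono fun γ hγ => ?_
    obtain ⟨n, hn⟩ := exists_nat_ge (dist (γ • x) x)
    exact mem_iUnion.2 ⟨n, hγ, hn⟩
  have h1 : (⋃ n : ℤ, (fun γ : 𝔾 => γ * S.t ^ n) '' {γ : 𝔾 | S.ht γ = 0}).Countable :=
    countable_iUnion fun n => h0.image _
  refine countable_univ_iff.1 (h1.mono fun g _ => ?_)
  refine mem_iUnion.2 ⟨S.ht g, g * S.t ^ (-S.ht g), ?_, ?_⟩
  · show S.ht (g * S.t ^ (-S.ht g)) = 0
    rw [S.ht_mul, S.ht_zpow, S.ht_t]; ring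
  · show g * S.t ^ (-S.ht g) * S.t ^ S.ht g = g
    rw [mul_assoc, ← zpow_add, neg_add_cancel, zpow_zero, mul_one]

theorem inv_inv (S : Setting 𝔾 X E) : S.inv.inv = S := by
  cases S
  simp only [Setting.inv, neg_neg, _root_.inv_inv, sub_sub_cancel]

theorem u_add_s (S : Setting 𝔾 X E) : S.u + S.s = Module.finrank ℝ E := by
  obtain ⟨x, -⟩ := S.nonempty
  rw [← S.rank_u x, ← S.rank_s x]
  exact LinearMap.finrank_range_add_finrank_ker _

theorem preconn (S : Setting 𝔾 X E) : PreconnectedSpace X :=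
  TwoStar.preconnectedSpace S.emb S.star

theorem mem_cen : γ ∈ S.Cen g ↔ S.ht γ = 0 ∧ γ * g = g * γ := Iff.rfl

theorem mem_Γ : γ ∈ S.Γ ↔ S.ht γ = 0 := by
  rw [Γ, mem_cen]
  simp

theorem cen_le_pow (S : Setting 𝔾 X E) (g : 𝔾) (n : ℕ) : S.Cen g ≤ S.Cen (g ^ n) :=
  fun γ h => ⟨h.1, ((show Commute γ g from h.2).pow_right n).eq⟩

theorem inv_cen (S : Setting 𝔾 X E) (g : 𝔾) : S.inv.Cen g = S.Cen g := by
  ext γ
  rw [mem_cen, mem_cen]
  exact and_congr_left' neg_eq_zero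

theorem hasFDerivAt_A (S : Setting 𝔾 X E) (g : 𝔾) (x : X) :
    HasFDerivAt (S.A g) (S.D g x) (S.e x) :=
  (((S.c1 g).differentiableOn one_ne_zero).differentiableAt
    (S.emb.isOpen_range.mem_nhds (mem_range_self x))).hasFDerivAt

theorem D_mul (S : Setting 𝔾 X E) (g h : 𝔾) (x : X) :
    S.D (g * h) x = (S.D g (h • x)).comp (S.D h x) := by
  have h1 : HasFDerivAt (S.A g) (S.D g (h • x)) (S.A h (S.e x)) := by
    rw [S.A_e]
    exact S.hasFDerivAt_A g (h • x)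
  have h2 := h1.comp (S.e x) (S.hasFDerivAt_A h x)
  have h3 : S.A (g * h) =ᶠ[𝓝 (S.e x)] S.A g ∘ S.A h := by
    filter_upwards [S.emb.isOpen_range.mem_nhds (mem_range_self x)]
    rintro _ ⟨y, rfl⟩
    rw [Function.comp_apply, S.A_e, S.A_e, S.A_e, mul_smul]
  exact (S.hasFDerivAt_A (g * h) x).unique (h2.congr_of_eventuallyEq h3)

theorem D_one (S : Setting 𝔾 X E) (x : X) : S.D 1 x = ContinuousLinearMap.id ℝ E := by
  have h3 : S.A 1 =ᶠ[𝓝 (S.e x)] id := by
    filter_upwards [S.emb.isOpen_range.mem_nhds (mem_range_self x)]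
    rintro _ ⟨y, rfl⟩
    rw [S.A_e, one_smul, id]
  exact (S.hasFDerivAt_A 1 x).unique ((hasFDerivAt_id _).congr_of_eventuallyEq h3)

theorem D_inv_apply (S : Setting 𝔾 X E) (g : 𝔾) (x : X) (v : E) :
    S.D g⁻¹ (g • x) (S.D g x v) = v := by
  have h := S.D_mul g⁻¹ g x
  rw [inv_mul_cancel, S.D_one] at h
  exact (DFunLike.congr_fun h v).symm

theorem continuous_D (S : Setting 𝔾 X E) (g : 𝔾) : Continuous (S.D g) :=
  ((S.c1 g).continuousOn_fderiv_of_isOpen S.emb.isOpen_range le_rfl).comp_continuous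
    S.emb.continuous fun x => mem_range_self x

theorem Q_D (S : Setting 𝔾 X E) (g : 𝔾) (x : X) (v : E) :
    S.Q (g • x) (S.D g x v) = S.D g x (S.Q x v) := S.comm g x v

theorem isFrame_D {U : Type*} [NormedAddCommGroup U] [NormedSpace ℝ U] {A : U →L[ℝ] E} (g : 𝔾)
    (h : IsFrame (S.Q x) A) : IsFrame (S.Q (g • x)) ((S.D g x).comp A) := by
  refine ⟨fun a b hab => h.1 ?_, ?_⟩
  · have := congrArg (S.D g⁻¹ (g • x)) hab
    simpa only [ContinuousLinearMap.comp_apply, S.D_inv_apply] using this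
  · ext v
    constructor
    · rintro ⟨a, rfl⟩
      obtain ⟨w, hw⟩ : A a ∈ range (S.Q x) := h.2 ▸ mem_range_self a
      refine ⟨S.D g x w, ?_⟩
      rw [S.Q_D, hw, ContinuousLinearMap.comp_apply]
    · rintro ⟨w, rfl⟩
      have hw : S.D g x (S.D g⁻¹ (g • x) w) = w := by
        have := S.D_inv_apply g⁻¹ (g • x) w
        rwa [_root_.inv_inv, inv_smul_smul] at this
      obtain ⟨a, ha⟩ : S.Q x (S.D g⁻¹ (g • x) w) ∈ range A := h.2 ▸ mem_range_self _
      refine ⟨a, ?_⟩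
      rw [ContinuousLinearMap.comp_apply, ha, ← S.Q_D, hw]

theorem isCompact_preimage (S : Setting 𝔾 X E) {K : Set E} (hK : IsCompact K)
    (h : K ⊆ range S.e) : IsCompact (S.e ⁻¹' K) :=
  (S.emb.isInducing.isCompact_preimage_iff h).2 hK

end Setting

end Pool.Agent.P.MP_788ef7_an
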