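import Pool.Agent.P.MP_788ef7_an.SB1

set_option autoImplicit false
set_option linter.unusedSectionVars false

open Set Filter Topology Metric

namespace Pool.Agent.P.MP_788ef7_an

namespace Setting

variable {𝔾 X E : Type*} [Group 𝔾] [MetricSpace X] [MulAction 𝔾 X] [ProperSpace X]
  [NormedAddCommGroup E] [NormedSpace ℝ E] [FiniteDimensional ℝ E] {S : Setting 𝔾 X E}
  {g g' G G' γ c w : 𝔾} {p p' q x y z : X} {C : Subgroup 𝔾} {K : Set X} {R : ℝ}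

theorem ht_t_sb2 (S : Setting 𝔾 X E) (n : ℤ) : S.ht (S.t ^ n) = n := by
  rw [S.ht_zpow, S.ht_t, mul_one]

theorem zpow_fix_sb2 (h : G • p = p) (n : ℤ) : G ^ n • p = p :=
  MulAction.mem_stabilizer_iff.1 (Subgroup.zpow_mem _ (MulAction.mem_stabilizer_iff.2 h) n)

theorem ws_iff_sb2 : z ∈ S.Ws p ↔
    Tendsto (fun n : ℤ => dist (S.t ^ n • z) (S.t ^ n • p)) atTop (𝓝 0) := by
  rw [← Nat.map_cast_int_atTop, tendsto_map'_iff]
  simp only [Function.comp_def, zpow_natCast]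
  rfl

/-- The distance between images depends only on the height. -/
theorem dist_smul_eq (h : S.ht g = S.ht g') (x y : X) :
    dist (g • x) (g • y) = dist (g' • x) (g' • y) := by
  have h0 : S.ht (g * g'⁻¹) = 0 := by rw [S.ht_mul, S.ht_inv, h]; ring
  rw [← S.iso _ h0 (g' • x) (g' • y), smul_smul, smul_smul, inv_mul_cancel_right]

theorem finite_meet (S : Setting 𝔾 X E) {K K' : Set X} (hK : IsCompact K) (hK' : IsCompact K')
    (n : ℤ) : {g | S.ht g = n ∧ ∃ x ∈ K, g • x ∈ K'}.Finite := by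
  obtain ⟨x₀, -⟩ := S.nonempty
  obtain ⟨R, hR⟩ := ((hK.image (S.cont_smul (S.t ^ n))).union hK').isBounded.subset_closedBall x₀
  refine ((S.proper x₀ (R + R)).image (· * S.t ^ n)).subset ?_
  rintro g ⟨hg, x, hx, hx'⟩
  have h0 : S.ht (g * (S.t ^ n)⁻¹) = 0 := by rw [S.ht_mul, S.ht_inv, S.ht_t_sb2, hg]; ring
  refine ⟨g * (S.t ^ n)⁻¹, ⟨h0, ?_⟩, inv_mul_cancel_right _ _⟩
  have h1 := S.iso _ h0 x₀ (S.t ^ n • x)
  rw [smul_smul, inv_mul_cancel_right] at h1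
  have h2 : dist (S.t ^ n • x) x₀ ≤ R := hR (Or.inl ⟨x, hx, rfl⟩)
  have h3 : dist (g • x) x₀ ≤ R := hR (Or.inr hx')
  rw [dist_comm] at h2
  linarith [dist_triangle ((g * (S.t ^ n)⁻¹) • x₀) (g • x) x₀]

theorem exists_cpt (S : Setting 𝔾 X E) (R : ℝ) : ∃ K : Set X, IsCompact K ∧
    ∀ x ∈ S.Λ, ∃ γ, S.ht γ = 0 ∧ ∀ z, dist z x ≤ R → γ • z ∈ K := by
  obtain ⟨x₀, R₀, h⟩ := S.cocpt
  refine ⟨closedBall x₀ (R + R₀), isCompact_closedBall _ _, fun x hx => ?_⟩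
  obtain ⟨γ, h0, h1⟩ := h x hx
  refine ⟨γ, h0, fun z hz => ?_⟩
  rw [← S.iso γ h0] at hz
  exact (dist_triangle _ (γ • x) _).trans (add_le_add hz h1)

/-- Uniform continuity near `Λ`. -/
theorem unif (S : Setting 𝔾 X E) (n : ℕ) (R : ℝ) {ε : ℝ} (hε : 0 < ε) : ∃ δ > 0, ∀ g,
    |S.ht g| ≤ n → ∀ x ∈ S.Λ, ∀ z z', dist z x ≤ R → dist z' z ≤ δ → dist (g • z') (g • z) ≤ ε := by
  obtain ⟨K, hK, h⟩ := S.exists_cpt (R + 1)
  have key : ∀ k ∈ Icc (-(n : ℤ)) n, ∀ᶠ δ in 𝓝[>] (0 : ℝ), ∀ a ∈ K, ∀ b ∈ K, dist a b ≤ δ →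
      dist (S.t ^ k • a) (S.t ^ k • b) ≤ ε := fun k _ => by
    obtain ⟨δ, hδ, h⟩ := Metric.uniformContinuousOn_iff_le.1
      (hK.uniformContinuousOn_of_continuous (S.cont_smul (S.t ^ k)).continuousOn) ε hε
    filter_upwards [Ioc_mem_nhdsGT hδ] with δ' h' a ha b hb hab using h a ha b hb (hab.trans h'.2)
  obtain ⟨δ, h1, h2, h3⟩ :=
    ((((finite_Icc _ _).eventually_all).2 key).and (Ioc_mem_nhdsGT zero_lt_one)).exists
  refine ⟨δ, h2, fun g hg x hx z z' hz hz' => ?_⟩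
  obtain ⟨γ, h0, hγ⟩ := h x hx
  rw [dist_smul_eq (S := S) (g' := S.t ^ S.ht g * γ) (by rw [S.ht_mul, S.ht_t_sb2, h0, add_zero]),
    mul_smul, mul_smul]
  refine h1 _ (abs_le.1 hg) _ (hγ _ ?_) _ (hγ _ (by linarith)) (by rwa [S.iso γ h0])
  linarith [dist_triangle z' z x]

theorem coarse (S : Setting 𝔾 X E) (n : ℕ) (R : ℝ) : ∃ R', ∀ g, |S.ht g| ≤ n → ∀ x ∈ S.Λ, ∀ z,
    dist z x ≤ R → dist (g • z) (g • x) ≤ R' := by
  obtain ⟨K, hK, h⟩ := S.exists_cpt R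
  obtain ⟨C, hC⟩ := Metric.isBounded_iff.1 ((finite_Icc (-(n : ℤ)) n).isCompact_biUnion
    fun k _ => hK.image (S.cont_smul (S.t ^ k))).isBounded
  refine ⟨C, fun g hg x hx z hz => ?_⟩
  obtain ⟨γ, h0, hγ⟩ := h x hx
  rw [dist_smul_eq (S := S) (g' := S.t ^ S.ht g * γ) (by rw [S.ht_mul, S.ht_t_sb2, h0, add_zero]),
    mul_smul, mul_smul]
  refine hC (mem_biUnion (abs_le.1 hg) ⟨_, hγ _ hz, rfl⟩) (mem_biUnion (abs_le.1 hg) ⟨_, hγ _ ?_, rfl⟩)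
  rw [dist_self]
  exact dist_nonneg.trans hz

/-- Local maximality along the orbit of an element of nonzero height. -/
theorem mem_of_orbit (hG : S.ht G ≠ 0) (h : ∀ n : ℤ, ∃ x ∈ S.Λ, dist (G ^ n • z) x ≤ R) :
    z ∈ S.Λ := by
  obtain ⟨R', hR⟩ := S.coarse (S.ht G).natAbs R
  refine S.lm R' z fun m => ?_
  obtain ⟨x, hx, h1⟩ := h (m / S.ht G)
  have h2 := hR (S.t ^ m * (G ^ (m / S.ht G))⁻¹) ?_ x hx _ h1
  · rw [smul_smul, inv_mul_cancel_right] at h2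
    exact ⟨_, S.smul_mem _ x hx, h2⟩
  · rw [S.ht_mul, S.ht_inv, S.ht_t_sb2, S.ht_zpow, Int.natCast_natAbs]
    have e : m + -(m / S.ht G * S.ht G) = m % S.ht G := by rw [Int.emod_def]; ring
    rw [e, abs_of_nonneg (Int.emod_nonneg _ hG)]
    exact (Int.emod_lt_abs _ hG).le

theorem mem_of_fix (hG : S.ht G ≠ 0) (h : G • p = p) : p ∈ S.Λ := by
  obtain ⟨R', hR⟩ := S.disp G 0 hG
  refine mem_of_orbit (R := R') hG fun n => ?_
  rw [zpow_fix_sb2 h]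
  exact hR p (by rw [h, dist_self])

/-- Points moved a bounded distance lie in the translates of a compact set. -/
theorem tr_of_disp (hG : S.ht G ≠ 0) (R : ℝ) : ∃ K : Set X, IsCompact K ∧
    ∀ z, dist (G • z) z ≤ R → z ∈ Tr (S.Cen G) K := by
  obtain ⟨R', hR⟩ := S.disp G R hG
  obtain ⟨K, hK, h⟩ := S.exists_cpt R'
  have ex : ∀ g : 𝔾, ∃ γ, (∃ γ, S.ht γ = 0 ∧ γ * G * γ⁻¹ = g) → S.ht γ = 0 ∧ γ * G * γ⁻¹ = g :=
    fun g => by
      by_cases hg : ∃ γ, S.ht γ = 0 ∧ γ * G * γ⁻¹ = g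
      · exact hg.imp fun γ h _ => h
      · exact ⟨1, fun h => absurd h hg⟩
  choose f hf using ex
  refine ⟨_, (S.finite_meet hK (hK.cthickening (r := R)) (S.ht G)).isCompact_biUnion
    fun g _ => hK.image (S.cont_smul (f g)⁻¹), fun z hz => ?_⟩
  obtain ⟨x, hx, h1⟩ := hR z hz
  obtain ⟨γ, h0, hγ⟩ := h x hx
  obtain ⟨h2, h3⟩ := hf (γ * G * γ⁻¹) ⟨γ, h0, rfl⟩
  refine ⟨(f (γ * G * γ⁻¹))⁻¹ * γ, mem_cen.2 ⟨by rw [S.ht_mul, S.ht_inv, h2, h0]; rfl, ?_⟩,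
    mem_biUnion (x := γ * G * γ⁻¹) ⟨S.ht_conj _ _, γ • z, hγ z h1, ?_⟩
      ⟨γ • z, hγ z h1, (mul_smul _ _ _).symm⟩⟩
  · generalize f (γ * G * γ⁻¹) = c at h3
    calc c⁻¹ * γ * G = c⁻¹ * (γ * G * γ⁻¹) * γ := by group
      _ = G * (c⁻¹ * γ) := by rw [← h3]; group
  · refine mem_cthickening_of_dist_le _ (γ • z) _ _ (hγ z h1) ?_
    rwa [smul_smul, inv_mul_cancel_right, mul_smul, S.iso γ h0]

theorem ws_refl (S : Setting 𝔾 X E) (p : X) : p ∈ S.Ws p := by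
  simp [Ws]

theorem ws_symm (h : z ∈ S.Ws p) : p ∈ S.Ws z :=
  Tendsto.congr (fun _ => dist_comm _ _) h

theorem ws_trans (h : z ∈ S.Ws y) (h' : y ∈ S.Ws p) : z ∈ S.Ws p := by
  refine squeeze_zero (fun _ => dist_nonneg) (fun n => dist_triangle _ (S.t ^ n • y) _) ?_
  simpa using Tendsto.add h h'

theorem smul_mem_ws (g : 𝔾) : g • z ∈ S.Ws (g • p) ↔ z ∈ S.Ws p := by
  have key : ∀ (g : 𝔾) (z p : X), z ∈ S.Ws p → g • z ∈ S.Ws (g • p) := fun g z p h => by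
    rw [ws_iff_sb2] at h ⊢
    refine (h.comp (tendsto_atTop_add_const_right _ (S.ht g) tendsto_id)).congr fun m => ?_
    rw [smul_smul, smul_smul]
    exact dist_smul_eq (S := S) (by rw [S.ht_mul, S.ht_t_sb2, S.ht_t_sb2]; rfl) _ _
  exact ⟨fun h => by simpa using key g⁻¹ _ _ h, key g z p⟩

theorem smul_mem_wu (g : 𝔾) : g • z ∈ S.Wu (g • p) ↔ z ∈ S.Wu p :=
  smul_mem_ws (S := S.inv) g

theorem inv_ws (S : Setting 𝔾 X E) (p : X) : S.inv.Ws p = S.Wu p := rfl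

theorem inv_wu (S : Setting 𝔾 X E) (p : X) : S.inv.Wu p = S.Ws p := by
  rw [Wu, S.inv_inv]

theorem mem_wu : z ∈ S.Wu p ↔
    Tendsto (fun n : ℕ => dist (S.t⁻¹ ^ n • z) (S.t⁻¹ ^ n • p)) atTop (𝓝 0) := Iff.rfl

theorem ws_tendsto_dist (hG : 0 < S.ht G) (h : z ∈ S.Ws p) :
    Tendsto (fun n : ℕ => dist (G ^ n • z) (G ^ n • p)) atTop (𝓝 0) := by
  rw [ws_iff_sb2] at h
  have l : Tendsto (fun n : ℕ => (n : ℤ) * S.ht G) atTop atTop :=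
    tendsto_atTop_mono (fun n => le_mul_of_one_le_right (Int.natCast_nonneg n) hG)
      tendsto_natCast_atTop_atTop
  exact (h.comp l).congr fun n => dist_smul_eq (S := S) (by rw [S.ht_t_sb2, S.ht_pow]) _ _

theorem mem_ws_of_tendsto (hG : 0 < S.ht G) (hp : p ∈ S.Λ)
    (h : Tendsto (fun n : ℕ => dist (G ^ n • z) (G ^ n • p)) atTop (𝓝 0)) : z ∈ S.Ws p := by
  obtain ⟨k, hk⟩ := Int.eq_ofNat_of_zero_le hG.le
  have k0 : k ≠ 0 := by omega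
  refine (nhds_basis_closedBall.tendsto_right_iff).2 fun ε hε => ?_
  obtain ⟨δ, hδ, h1⟩ := S.unif k 0 hε
  filter_upwards [(h.comp (Nat.tendsto_div_const_atTop k0)).eventually (Iic_mem_nhds hδ)] with m hm
  have h2 := h1 (S.t ^ m * (G ^ (m / k))⁻¹) ?_ _ (S.smul_mem (G ^ (m / k)) p hp) _ _
    (dist_self _).le hm
  · rw [smul_smul, smul_smul, inv_mul_cancel_right] at h2
    simpa using h2
  · rw [S.ht_mul, S.ht_inv, S.ht_pow, S.ht_pow, S.ht_t, hk]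
    have e := Nat.div_add_mod' m k
    have e' := Nat.mod_lt m (Nat.pos_of_ne_zero k0)
    generalize m / k = a at e
    generalize m % k = b at e e'
    subst e
    push_cast
    rw [abs_le]
    constructor <;> omega

theorem mem_ws_iff (hG : 0 < S.ht G) (hp : G • p = p) :
    z ∈ S.Ws p ↔ Tendsto (fun n : ℕ => G ^ n • z) atTop (𝓝 p) := by
  have e : ∀ n : ℕ, G ^ n • p = p := fun n => by
    rw [← zpow_natCast]; exact zpow_fix_sb2 hp n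
  rw [tendsto_iff_dist_tendsto_zero]
  refine ⟨fun h => ?_, fun h => mem_ws_of_tendsto hG (mem_of_fix hG.ne' hp) ?_⟩
  · simpa only [e] using ws_tendsto_dist hG h
  · simpa only [e] using h

theorem mem_wu_iff (hG : 0 < S.ht G) (hp : G • p = p) :
    z ∈ S.Wu p ↔ Tendsto (fun n : ℕ => G⁻¹ ^ n • z) atTop (𝓝 p) :=
  mem_ws_iff (S := S.inv) (show 0 < -S.ht G⁻¹ by rw [S.ht_inv, neg_neg]; exact hG)
    (inv_smul_eq_iff.2 hp.symm)

theorem ws_zpow (hp : G • p = p) (h : z ∈ S.Ws p) (n : ℤ) : G ^ n • z ∈ S.Ws p := by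
  have := (smul_mem_ws (G ^ n)).2 h
  rwa [zpow_fix_sb2 hp] at this

theorem wu_zpow (hp : G • p = p) (h : z ∈ S.Wu p) (n : ℤ) : G ^ n • z ∈ S.Wu p :=
  ws_zpow (S := S.inv) hp h n

theorem ws_bdd (hG : 0 < S.ht G) (hp : G • p = p) (h : z ∈ S.Ws p) :
    ∃ L, ∀ n : ℕ, dist (G ^ n • z) p ≤ L := by
  obtain ⟨L, hL⟩ := (tendsto_iff_dist_tendsto_zero.1 ((mem_ws_iff hG hp).1 h)).bddAbove_range
  exact ⟨L, fun n => hL ⟨n, rfl⟩⟩

theorem wu_bdd (hG : 0 < S.ht G) (hp : G • p = p) (h : z ∈ S.Wu p) :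
    ∃ L, ∀ n : ℕ, dist (G⁻¹ ^ n • z) p ≤ L := by
  obtain ⟨L, hL⟩ := (tendsto_iff_dist_tendsto_zero.1 ((mem_wu_iff hG hp).1 h)).bddAbove_range
  exact ⟨L, fun n => hL ⟨n, rfl⟩⟩

end Setting

end Pool.Agent.P.MP_788ef7_an
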