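import Mathlib

/-!
The cone lemma and the shadowing lemma for sequences of almost linear hyperbolic maps.
-/

set_option autoImplicit false

open Set Metric Filter Topology

namespace Pool.Agent.P.MP_788ef7_an

variable {S U : Type*} [NormedAddCommGroup S] [NormedAddCommGroup U]
  [NormedSpace ℝ S] [NormedSpace ℝ U]

/-- A block diagonal hyperbolic linear map. -/
structure Blk (l2 m2 : ℝ) (As : S →L[ℝ] S) (Au : U ≃L[ℝ] U) : Prop where
  s2 : ∀ v, ‖As v‖ ≤ l2 * ‖v‖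
  u2 : ∀ w, m2 * ‖w‖ ≤ ‖Au w‖

theorem step_fst {As : S →L[ℝ] S} {Au : U ≃L[ℝ] U} {Δ Δ' : S × U} {e : ℝ}
    (h : ‖Δ' - (As Δ.1, Au Δ.2)‖ ≤ e) : ‖Δ'.1 - As Δ.1‖ ≤ e :=
  (norm_fst_le (Δ' - (As Δ.1, Au Δ.2))).trans h

theorem step_snd {As : S →L[ℝ] S} {Au : U ≃L[ℝ] U} {Δ Δ' : S × U} {e : ℝ}
    (h : ‖Δ' - (As Δ.1, Au Δ.2)‖ ≤ e) : ‖Δ'.2 - Au Δ.2‖ ≤ e :=
  (norm_snd_le (Δ' - (As Δ.1, Au Δ.2))).trans h

theorem cone_seq {l2 m2 η B : ℝ} (hl2 : 0 ≤ l2) (h1 : l2 + η ≤ 1) (h2 : 1 < m2 - η)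
    {Δ : ℕ → S × U} (hB : ∀ k, ‖Δ k‖ ≤ B)
    (hΔ : ∀ k, ∃ As Au, Blk l2 m2 As Au ∧
      ‖Δ (k + 1) - (As (Δ k).1, Au (Δ k).2)‖ ≤ η * ‖Δ k‖) (k : ℕ) :
    ‖Δ k‖ = ‖(Δ k).1‖ ∧ ‖Δ (k + 1)‖ ≤ (l2 + η) * ‖Δ k‖ := by
  have cone : ∀ k, ‖(Δ k).2‖ ≤ ‖(Δ k).1‖ := by
    intro k
    by_contra hc
    push Not at hc
    have key : ∀ j, ‖(Δ (k + j)).1‖ ≤ ‖(Δ (k + j)).2‖ ∧
        (m2 - η) ^ j * ‖(Δ k).2‖ ≤ ‖(Δ (k + j)).2‖ := by
      intro j
      induction j with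
      | zero => exact ⟨hc.le, by simp⟩
      | succ j ih =>
        obtain ⟨As, Au, hA, he⟩ := hΔ (k + j)
        have e0 : ‖Δ (k + j)‖ = ‖(Δ (k + j)).2‖ := by rw [Prod.norm_def, max_eq_right ih.1]
        rw [e0] at he
        have e1 := step_fst he
        have e2 := step_snd he
        have e3 := hA.s2 (Δ (k + j)).1
        have e4 := hA.u2 (Δ (k + j)).2
        have e5 := norm_le_insert' (Δ (k + j + 1)).1 (As (Δ (k + j)).1)
        have e6 := norm_le_insert (Δ (k + j + 1)).2 (Au (Δ (k + j)).2)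
        have e7 := mul_le_mul_of_nonneg_left ih.1 hl2
        have e8 := norm_nonneg (Δ (k + j)).2
        have e9 : (m2 - η) * ‖(Δ (k + j)).2‖ ≤ ‖(Δ (k + j + 1)).2‖ := by linarith
        rw [← add_assoc]
        refine ⟨by nlinarith, le_trans ?_ e9⟩
        rw [pow_succ', mul_assoc]
        exact mul_le_mul_of_nonneg_left ih.2 (by linarith)
    have hpos : 0 < ‖(Δ k).2‖ := (norm_nonneg _).trans_lt hc
    obtain ⟨j, hj⟩ := pow_unbounded_of_one_lt (B / ‖(Δ k).2‖) h2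
    rw [div_lt_iff₀ hpos] at hj
    have := (key j).2.trans ((norm_snd_le _).trans (hB (k + j)))
    linarith
  have e0 : ∀ k, ‖Δ k‖ = ‖(Δ k).1‖ := fun k => by rw [Prod.norm_def, max_eq_left (cone k)]
  obtain ⟨As, Au, hA, he⟩ := hΔ k
  have e1 := step_fst he
  have e4 := hA.s2 (Δ k).1
  have e5 := norm_le_insert' (Δ (k + 1)).1 (As (Δ k).1)
  rw [e0 k] at e1 ⊢
  rw [e0 (k + 1)]
  exact ⟨rfl, by linarith⟩

theorem shadow [CompleteSpace S] [CompleteSpace U] {F : ℤ → S × U → S × U}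
    {As : ℤ → S →L[ℝ] S} {Au : ℤ → U ≃L[ℝ] U} {l2 m2 η r δ q : ℝ}
    (hA : ∀ k, Blk l2 m2 (As k) (Au k))
    (hF : ∀ k v w, ‖v‖ ≤ r → ‖w‖ ≤ r →
      ‖F k v - F k w - (As k (v - w).1, Au k (v - w).2)‖ ≤ η * ‖v - w‖)
    (h0 : ∀ k, ‖F k 0‖ ≤ δ) (hl : 0 ≤ l2) (hη : 0 ≤ η) (hq1 : l2 + η ≤ q) (hq2 : 1 + η ≤ q * m2)
    (hq : q < 1) (hm : 1 ≤ m2) (hδ : δ ≤ (1 - q) * r) :
    ∃ v : ℤ → S × U, (∀ k, ‖v k‖ ≤ r) ∧ ∀ k, F k (v k) = v (k + 1) := by
  have hq0 : 0 ≤ q := by linarith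
  have hδ0 : 0 ≤ δ := (norm_nonneg _).trans (h0 0)
  have hr : 0 ≤ r := by
    by_contra hc
    nlinarith
  let T : (ℤ → S × U) → ℤ → S × U := fun v k =>
    ((F (k - 1) (v (k - 1))).1, (Au k).symm ((v (k + 1)).2 - (F k (v k)).2 + Au k (v k).2))
  have lip : ∀ v w : ℤ → S × U, ∀ d, (∀ k, ‖v k‖ ≤ r) → (∀ k, ‖w k‖ ≤ r) →
      (∀ k, ‖v k - w k‖ ≤ d) → ∀ k, ‖T v k - T w k‖ ≤ q * d := by
    intro v w d hv hw hd k
    have hd0 : 0 ≤ d := (norm_nonneg _).trans (hd 0)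
    refine norm_prod_le_iff.2 ⟨?_, ?_⟩
    · have e1 := step_fst (hF (k - 1) _ _ (hv (k - 1)) (hw (k - 1)))
      have e2 := (hA (k - 1)).s2 (v (k - 1) - w (k - 1)).1
      have e3 := (norm_fst_le (v (k - 1) - w (k - 1))).trans (hd (k - 1))
      have e4 := norm_le_insert' (F (k - 1) (v (k - 1)) - F (k - 1) (w (k - 1))).1
        (As (k - 1) (v (k - 1) - w (k - 1)).1)
      have e5 := mul_le_mul_of_nonneg_left e3 hl
      have e6 := mul_le_mul_of_nonneg_left (hd (k - 1)) hη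
      have e7 := mul_le_mul_of_nonneg_right hq1 hd0
      show ‖(F (k - 1) (v (k - 1)) - F (k - 1) (w (k - 1))).1‖ ≤ q * d
      linarith
    · have e1 := step_snd (hF k _ _ (hv k) (hw k))
      have e2 := (hA k).u2 (T v k - T w k).2
      have e3 : Au k (T v k - T w k).2 = (v (k + 1) - w (k + 1)).2 -
          ((F k (v k) - F k (w k)).2 - Au k (v k - w k).2) := by
        simp only [T, Prod.snd_sub, map_sub, ContinuousLinearEquiv.apply_symm_apply]
        abel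
      rw [e3] at e2
      have e4 := norm_sub_le (v (k + 1) - w (k + 1)).2
        ((F k (v k) - F k (w k)).2 - Au k (v k - w k).2)
      have e5 := (norm_snd_le (v (k + 1) - w (k + 1))).trans (hd (k + 1))
      have e6 := mul_le_mul_of_nonneg_left (hd k) hη
      have e7 := mul_le_mul_of_nonneg_right hq2 hd0
      have e8 : m2 * ‖(T v k - T w k).2‖ ≤ m2 * (q * d) := by linarith
      exact le_of_mul_le_mul_left e8 (by linarith)
  have t0 : ∀ k, ‖T 0 k‖ ≤ δ := by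
    intro k
    refine norm_prod_le_iff.2 ⟨(norm_fst_le (F (k - 1) 0)).trans (h0 (k - 1)), ?_⟩
    have e2 := (hA k).u2 (T 0 k).2
    have e3 : Au k (T 0 k).2 = -(F k 0).2 := by simp [T]
    rw [e3, norm_neg] at e2
    have e4 := (norm_snd_le (F k 0)).trans (h0 k)
    have := norm_nonneg (T 0 k).2
    nlinarith
  have self : ∀ v : ℤ → S × U, (∀ k, ‖v k‖ ≤ r) → ∀ k, ‖T v k‖ ≤ r := by
    intro v hv k
    have e1 := lip v 0 r hv (by simpa using hr) (by simpa using hv) k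
    have e2 := norm_le_insert' (T v k) (T 0 k)
    have := t0 k
    linarith
  have b1 : ∀ n k, ‖T^[n] 0 k‖ ≤ r := by
    intro n
    induction n with
    | zero => simpa using hr
    | succ n ih => rw [Function.iterate_succ_apply']; exact self _ ih
  have b2 : ∀ n k, ‖T^[n] 0 k - T^[n + 1] 0 k‖ ≤ r * q ^ n := by
    intro n
    induction n with
    | zero => intro k; simpa using b1 1 k
    | succ n ih =>
      intro k
      have := lip _ _ _ (b1 n) (b1 (n + 1)) ih k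
      rw [← Function.iterate_succ_apply' T, ← Function.iterate_succ_apply' T] at this
      refine this.trans (le_of_eq ?_)
      ring
  have b2' : ∀ k n, dist (T^[n] 0 k) (T^[n + 1] 0 k) ≤ r * q ^ n := fun k n => by
    rw [dist_eq_norm]; exact b2 n k
  have ex : ∀ k, ∃ a, Tendsto (fun n => T^[n] 0 k) atTop (𝓝 a) := fun k =>
    cauchySeq_tendsto_of_complete (cauchySeq_of_le_geometric q r hq (b2' k))
  choose v hv using ex
  have b3 : ∀ k, ‖v k‖ ≤ r := fun k => le_of_tendsto' (hv k).norm fun n => b1 n k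
  have b4 : ∀ n k, ‖T^[n] 0 k - v k‖ ≤ r * q ^ n / (1 - q) := fun n k => by
    rw [← dist_eq_norm]
    exact dist_le_of_le_geometric_of_tendsto q r hq (b2' k) (hv k) n
  have fix : ∀ k, T v k = v k := by
    intro k
    refine tendsto_nhds_unique ?_ ((hv k).comp (tendsto_add_atTop_nat 1))
    rw [tendsto_iff_norm_sub_tendsto_zero]
    have lim : Tendsto (fun n : ℕ => q * (r * q ^ n / (1 - q))) atTop (𝓝 (q * (r * 0 / (1 - q)))) :=
      (((tendsto_pow_atTop_nhds_zero_of_lt_one hq0 hq).const_mul r).div_const _).const_mul q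
    simp only [mul_zero, zero_div] at lim
    refine squeeze_zero (fun n => norm_nonneg _) (fun n => ?_) lim
    simp only [Function.comp, Function.iterate_succ_apply']
    exact lip _ _ _ (b1 n) b3 (b4 n) k
  refine ⟨v, b3, fun k => Prod.ext ?_ ?_⟩
  · have := congrArg Prod.fst (fix (k + 1))
    simpa [T] using this
  · have := congrArg (fun p : S × U => Au k p.2) (fix k)
    simp only [T, ContinuousLinearEquiv.apply_symm_apply, add_eq_right] at this
    exact (sub_eq_zero.1 this).symm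

end Pool.Agent.P.MP_788ef7_an
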