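import Pool.Agent.P.MP_788ef7_an.FDefs
import Pool.Agent.P.MP_788ef7_an.IDefs
import Pool.Agent.P.MP_788ef7_an.Shadow

/-!
The lifted Anosov system: a group `𝔾` with a height acting on a proper metric space `X` that is
an open subset of a vector space `E`. Elements of height zero are the deck transformations.
-/

set_option autoImplicit false

open Set Filter Topology Metric

namespace Pool.Agent.P.MP_788ef7_an

noncomputable section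

/-- The map `h` read in the chart `e`. -/
def chartMap {X E : Type*} [Zero E] (e : X → E) (h : X → X) : E → E :=
  Function.extend e (fun x => e (h x)) 0

/-- The lifted Anosov system. `Q x` is the projection onto the unstable space along the stable
space. -/
structure Setting (𝔾 X E : Type*) [Group 𝔾] [MetricSpace X] [MulAction 𝔾 X]
    [NormedAddCommGroup E] [NormedSpace ℝ E] where
  ht : 𝔾 → ℤ
  ht_mul : ∀ g h, ht (g * h) = ht g + ht h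
  t : 𝔾
  ht_t : ht t = 1
  iso : ∀ γ, ht γ = 0 → ∀ x y : X, dist (γ • x) (γ • y) = dist x y
  proper : ∀ (x : X) (R : ℝ), {γ | ht γ = 0 ∧ dist (γ • x) x ≤ R}.Finite
  free : ∀ γ (x : X), ht γ = 0 → γ • x = x → γ = 1
  Λ : Set X
  closed : IsClosed Λ
  nonempty : Λ.Nonempty
  smul_mem : ∀ (g : 𝔾), ∀ x ∈ Λ, g • x ∈ Λ
  cocpt : ∃ (x₀ : X) (R : ℝ), ∀ x ∈ Λ, ∃ γ, ht γ = 0 ∧ dist (γ • x) x₀ ≤ R
  lm : ∀ (R : ℝ) (z : X), (∀ n : ℤ, ∃ x ∈ Λ, dist (t ^ n • z) x ≤ R) → z ∈ Λ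
  disp : ∀ (g : 𝔾) (R : ℝ), ht g ≠ 0 → ∃ R', ∀ z : X, dist (g • z) z ≤ R → ∃ x ∈ Λ, dist z x ≤ R'
  e : X → E
  emb : IsOpenEmbedding e
  star : TwoStar (range e)
  c1 : ∀ g : 𝔾, ContDiffOn ℝ 1 (chartMap e fun x => g • x) (range e)
  c2 : ∀ γ : 𝔾, ht γ = 0 → ContDiffOn ℝ 2 (chartMap e fun x => γ • x) (range e)
  Q : X → E →L[ℝ] E
  contQ : Continuous Q
  idem : ∀ x v, Q x (Q x v) = Q x v
  comm : ∀ (g : 𝔾) x v, Q (g • x) (fderiv ℝ (chartMap e fun x => g • x) (e x) v) =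
    fderiv ℝ (chartMap e fun x => g • x) (e x) (Q x v)
  u : ℕ
  s : ℕ
  rank_u : ∀ x, Module.finrank ℝ (LinearMap.range (Q x : E →ₗ[ℝ] E)) = u
  rank_s : ∀ x, Module.finrank ℝ (LinearMap.ker (Q x : E →ₗ[ℝ] E)) = s
  lam : ℝ
  lam_pos : 0 < lam
  lam_lt : lam < 1
  rate : ∀ K : Set X, IsCompact K → ∃ C : ℝ, ∀ (g : 𝔾) (n : ℕ), ∀ x ∈ K, g • x ∈ K → ∀ v,
    ((ht g = n ∧ Q x v = 0) ∨ (ht g = -n ∧ Q x v = v)) →
      ‖fderiv ℝ (chartMap e fun x => g • x) (e x) v‖ ≤ C * lam ^ n * ‖v‖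

namespace Setting

variable {𝔾 X E : Type*} [Group 𝔾] [MetricSpace X] [MulAction 𝔾 X]
  [NormedAddCommGroup E] [NormedSpace ℝ E] (S : Setting 𝔾 X E)

/-- The action read in the chart. -/
def A (g : 𝔾) : E → E := chartMap S.e fun x => g • x

/-- The derivative of the action. -/
def D (g : 𝔾) (x : X) : E →L[ℝ] E := fderiv ℝ (S.A g) (S.e x)

theorem A_e (g : 𝔾) (x : X) : S.A g (S.e x) = S.e (g • x) :=
  S.emb.injective.extend_apply (fun x => S.e (g • x)) 0 x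

theorem ht_one : S.ht 1 = 0 := by
  have := S.ht_mul 1 1
  rw [one_mul] at this
  omega

theorem ht_inv (g : 𝔾) : S.ht g⁻¹ = -S.ht g := by
  have := S.ht_mul g g⁻¹
  rw [mul_inv_cancel, S.ht_one] at this
  omega

/-- The system with time reversed. -/
def inv : Setting 𝔾 X E where
  ht g := -S.ht g
  ht_mul g h := by rw [S.ht_mul]; ring
  t := S.t⁻¹
  ht_t := by rw [S.ht_inv, S.ht_t]; rfl
  iso γ h := S.iso γ (neg_eq_zero.1 h)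
  proper x R := by simpa only [neg_eq_zero] using S.proper x R
  free γ x h := S.free γ x (neg_eq_zero.1 h)
  Λ := S.Λ
  closed := S.closed
  nonempty := S.nonempty
  smul_mem := S.smul_mem
  cocpt := by simpa only [neg_eq_zero] using S.cocpt
  lm R z h := S.lm R z fun n => by simpa using h (-n)
  disp g R h := S.disp g R (neg_ne_zero.1 h)
  e := S.e
  emb := S.emb
  star := S.star
  c1 := S.c1
  c2 γ h := S.c2 γ (neg_eq_zero.1 h)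
  Q x := 1 - S.Q x
  contQ := continuous_const.sub S.contQ
  idem x v := by simp [S.idem]
  comm g x v := by simp [S.comm]
  u := S.s
  s := S.u
  rank_u x := by
    have h : LinearMap.range ((1 - S.Q x : E →L[ℝ] E) : E →ₗ[ℝ] E) =
        LinearMap.ker (S.Q x : E →ₗ[ℝ] E) := by
      ext v
      constructor
      · rintro ⟨w, rfl⟩
        simp [S.idem]
      · intro h
        exact ⟨v, by simpa using h⟩
    rw [h, S.rank_s x]
  rank_s x := by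
    have h : LinearMap.ker ((1 - S.Q x : E →L[ℝ] E) : E →ₗ[ℝ] E) =
        LinearMap.range (S.Q x : E →ₗ[ℝ] E) := by
      ext v
      constructor
      · intro h
        exact ⟨v, (sub_eq_zero.1 h).symm⟩
      · rintro ⟨w, rfl⟩
        simp [S.idem]
    rw [h, S.rank_u x]
  lam := S.lam
  lam_pos := S.lam_pos
  lam_lt := S.lam_lt
  rate K hK := by
    obtain ⟨C, hC⟩ := S.rate K hK
    refine ⟨C, fun g n x hx hg v h => hC g n x hx hg v ?_⟩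
    rcases h with ⟨h1, h2⟩ | ⟨h1, h2⟩
    · exact Or.inr ⟨by omega, (sub_eq_zero.1 h2).symm⟩
    · exact Or.inl ⟨by omega, by simpa using h2⟩

/-- The stable manifold. -/
def Ws (p : X) : Set X := {z | Tendsto (fun n : ℕ => dist (S.t ^ n • z) (S.t ^ n • p)) atTop (𝓝 0)}

/-- The unstable manifold. -/
def Wu (p : X) : Set X := S.inv.Ws p

/-- The centraliser of `g` in the deck group. -/
def Cen (g : 𝔾) : Subgroup 𝔾 where
  carrier := {γ | S.ht γ = 0 ∧ γ * g = g * γ}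
  one_mem' := ⟨S.ht_one, by simp⟩
  mul_mem' := fun {a b} ha hb => ⟨by rw [S.ht_mul, ha.1, hb.1]; rfl, by
    rw [mul_assoc, hb.2, ← mul_assoc, ha.2, mul_assoc]⟩
  inv_mem' := fun {a} ha => ⟨by rw [S.ht_inv, ha.1]; rfl,
    (Commute.inv_left (show Commute a g from ha.2)).eq⟩

/-- The deck group. -/
def Γ : Subgroup 𝔾 := S.Cen 1

/-- A local stable leaf through `x`, parametrised by a ball of `V`. -/
structure Leaf (x : X) (ε : ℝ) {V : Type*} [NormedAddCommGroup V] [NormedSpace ℝ V] (r : ℝ)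
    (σ : V → X) (σ' : V → V →L[ℝ] E) : Prop where
  pos : 0 < r
  zero : σ 0 = x
  cont : ContinuousOn σ (closedBall 0 r)
  inj : InjOn σ (closedBall 0 r)
  close : ∀ w ∈ closedBall (0 : V) r, ∀ n : ℕ, dist (S.t ^ n • σ w) (S.t ^ n • x) ≤ ε
  onto : ∀ r' > 0, ∃ ε₁ > 0, ∀ z, (∀ n : ℕ, dist (S.t ^ n • z) (S.t ^ n • x) ≤ ε₁) →
    ∃ w, ‖w‖ < r' ∧ ‖w‖ ≤ r ∧ σ w = z
  deriv : ∀ w ∈ ball (0 : V) r, HasFDerivAt (fun w => S.e (σ w)) (σ' w) w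
  cont' : ContinuousOn σ' (ball 0 r)
  frame : ∀ w ∈ ball (0 : V) r, IsFrame (1 - S.Q (σ w)) (σ' w)

/-- `C` is a group of deck transformations normalised by `G`, and the periodic points of the
elements `c * G ^ j` lie in finitely many orbits of `C`. -/
structure FinPer (C : Subgroup 𝔾) (G : 𝔾) : Prop where
  le : ∀ c ∈ C, S.ht c = 0
  norm : ∀ c, c ∈ C ↔ G * c * G⁻¹ ∈ C
  fin : ∃ F : Set X, F.Finite ∧ ∀ c ∈ C, ∀ j : ℕ, 1 ≤ j → ∀ q : X, (c * G ^ j) • q = q →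
    ∃ c' ∈ C, c' • q ∈ F

end Setting

section Tr

variable {𝔾 X : Type*} [Group 𝔾] [MulAction 𝔾 X]

/-- The union of the translates of `K` under `C`. -/
def Tr (C : Subgroup 𝔾) (K : Set X) : Set X := {z | ∃ c ∈ C, c • z ∈ K}

/-- Points whose forward orbit under `g` stays in `A`. -/
def Stay (g : 𝔾) (A : Set X) : Set X := {z | ∀ n : ℕ, g ^ n • z ∈ A}

end Tr

/-- A finite family of regions in which bad periodic orbits stay. -/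
structure Fam (𝔾 X : Type*) [Group 𝔾] where
  n : ℕ
  k : ℕ
  C : Fin n → Subgroup 𝔾
  g : Fin n → 𝔾
  A : Fin n → ℝ → Set X

namespace Setting

variable {𝔾 X E : Type*} [Group 𝔾] [MetricSpace X] [MulAction 𝔾 X]
  [NormedAddCommGroup E] [NormedSpace ℝ E] (S : Setting 𝔾 X E)

/-- A growing family of `C`-invariant regions, each meeting finitely many cosets. -/
structure Region (C : Subgroup 𝔾) (g : 𝔾) (A : ℝ → Set X) : Prop where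
  le : ∀ c ∈ C, S.ht c = 0
  pos : 0 < S.ht g
  norm : ∀ c, c ∈ C ↔ g * c * g⁻¹ ∈ C
  inv : ∀ c ∈ C, ∀ R, ∀ z ∈ A R, c • z ∈ A R
  grow : ∀ R r z z', z ∈ A R → dist z' z ≤ r → z' ∈ A (R + r)
  cofin : ∀ (x : X) R, ∃ T : Set 𝔾, T.Finite ∧ ∀ γ, S.ht γ = 0 → γ • x ∈ A R →
    ∃ c ∈ C, ∃ φ ∈ T, γ = c * φ

/-- Periodic points of elements that are `Bad` stay in a translate of a region of the family. -/
structure BadFam (Bad : 𝔾 → Prop) (F : Fam 𝔾 X) : Prop where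
  k_pos : 1 ≤ F.k
  ht_g : ∀ i, S.ht (F.g i) = F.k
  region : ∀ i, S.Region (F.C i) (F.g i) (F.A i)
  trap : ∃ R, ∀ G p, Bad G → 0 < S.ht G → G • p = p →
    ∃ i γ, S.ht γ = 0 ∧ γ • p ∈ Stay (F.g i) (F.A i R)

/-- `B` contains no nonempty open subset of `Λ`. -/
def Thin (B : Set X) : Prop := ∀ U : Set X, IsOpen U → U ∩ S.Λ ⊆ B → U ∩ S.Λ = ∅

variable {𝔊 : Type*} [Group 𝔊] [MulAction 𝔊 Circle]

/-- A hyperbolic factor of `X`: `pr` is the projection and `set z x` replaces the coordinate of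
`z` in the factor by `x`. -/
structure HF (Φ : Fuchs 𝔊) (pj : 𝔾 →* 𝔊) (pr : X → KD) (set : X → KD → X) : Prop where
  ht_eq : ∀ g, Φ.ht (pj g) = S.ht g
  surj : Function.Surjective pj
  eqv : ∀ γ z, S.ht γ = 0 → pr (γ • z) = Φ.mv (pj γ) (pr z)
  lip : ∀ z z', dist (pr z) (pr z') ≤ dist z z'
  step : ∀ G, ∃ C, ∀ z, Φ.Step (pj G) C (pr z) (pr (G • z))
  pr_set : ∀ z x, pr (set z x) = x
  set_pr : ∀ z, set z (pr z) = z
  set_set : ∀ z x x', set (set z x) x' = set z x'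
  cont : Continuous fun p : X × KD => set p.1 p.2

/-- The smooth product structure of `X`. -/
structure SF (pr : X → KD) {E₂ : Type*} [NormedAddCommGroup E₂] [NormedSpace ℝ E₂]
    (j : E ≃L[ℝ] ℂ × E₂) (O₂ : Set E₂) (a₂ : 𝔾 → E₂ → E₂) (vec₂ : E₂ → E₂ → E₂) : Prop where
  fst : ∀ z, (j (S.e z)).1 = (pr z).val
  range_eq : range S.e = j ⁻¹' (ball 0 1 ×ˢ O₂)
  isOpen : IsOpen O₂
  act : ∀ γ z, S.ht γ = 0 → (j (S.e (γ • z))).2 = a₂ γ (j (S.e z)).2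
  diff : ∀ γ, S.ht γ = 0 → DifferentiableOn ℝ (a₂ γ) O₂
  c1 : ContDiffOn ℝ 1 (fun p : E₂ × E₂ => vec₂ p.1 p.2) (O₂ ×ˢ O₂)
  zero : ∀ y ∈ O₂, ∀ y' ∈ O₂, vec₂ y y' = 0 ↔ y = y'
  eqv : ∀ γ, S.ht γ = 0 → ∀ y ∈ O₂, ∀ y' ∈ O₂,
    vec₂ (a₂ γ y) (a₂ γ y') = fderiv ℝ (a₂ γ) y (vec₂ y y')
  diag : ∀ y ∈ O₂, HasFDerivAt (fun p : E₂ × E₂ => vec₂ p.1 p.2)
    (ContinuousLinearMap.snd ℝ E₂ E₂ - ContinuousLinearMap.fst ℝ E₂ E₂) (y, y)
  dist_le : ∀ z z', (j (S.e z)).2 = (j (S.e z')).2 → dist z z' ≤ dist (pr z) (pr z')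

/-- The displacement vector field of `G`. -/
def vG {E₂ : Type*} [NormedAddCommGroup E₂] [NormedSpace ℝ E₂] (j : E ≃L[ℝ] ℂ × E₂)
    (vec₂ : E₂ → E₂ → E₂) (G : 𝔾) (ζ : E) : E :=
  j.symm (vec1 (j ζ).1 (j (S.A G ζ)).1, vec₂ (j ζ).2 (j (S.A G ζ)).2)

/-- Elements with a fixed point are essential in the factor. -/
def Iness (pj : 𝔾 →* 𝔊) : Prop :=
  ∀ (G : 𝔾) (p : X), 0 < S.ht G → G • p = p → Stable (pj G) → Ess (pj G)

/-- The region of a subgroup `H` of the factor group. -/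
def NearP (Φ : Fuchs 𝔊) (pr : X → KD) (H : Subgroup 𝔊) (R : ℝ) : Set X := {z | Φ.Near H R (pr z)}

/-- What the main argument uses about the second factor. -/
structure Fac2 (Φ : Fuchs 𝔊) (pj : 𝔾 →* 𝔊) (pr : X → KD) (set : X → KD → X) (Good : 𝔾 → Prop)
    (F : Fam 𝔾 X) : Prop where
  conj : ∀ g G, Good G → Good (g * G * g⁻¹)
  pow : ∀ G (j : ℕ), 1 ≤ j → Good G → Good (G ^ j)
  bad : S.BadFam (fun G => ∀ a : ℕ, 1 ≤ a → ¬ Good (G ^ a)) F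
  dt : 2 ≤ S.u → ∀ H G, Φ.Core H (pj G) → ∀ i (j : ℕ), 1 ≤ j → S.ht G = F.k * j →
    ∀ γ, S.ht γ = 0 → ∀ R R',
      S.Thin (Stay G (NearP Φ pr H R) ∩ {z | γ • z ∈ Stay (F.g i ^ j) (F.A i R')})
  esc : ∀ H G (p : X), Φ.Core H (pj G) → Good G → G • p = p →
    ∃ (C : Subgroup 𝔾) (κ : X → ℝ) (ψ : ℝ → X → X), S.FinPer C G ∧ Continuous κ ∧
      Continuous (fun q : ℝ × X => ψ q.1 q.2) ∧ (∀ z, ψ 0 z = z) ∧
      (∀ τ z, κ (ψ τ z) = κ z + τ) ∧ (∀ τ z, pr (ψ τ z) = pr z) ∧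
      (∀ R, ∃ M, ∀ z ∈ S.Ws p, z ∈ Stay G (NearP Φ pr H R) → |κ z| ≤ M) ∧
      (∀ R M, ∃ K, IsCompact K ∧ ∀ z ∈ S.Wu p, z ∈ Stay G⁻¹ (NearP Φ pr H R) → |κ z| ≤ M →
        z ∈ Stay G⁻¹ (Tr C K)) ∧
      (∀ R T, IsCompact T → ∃ K, IsCompact K ∧ ∀ z ∈ S.Ws p ∩ T, z ∈ Stay G (NearP Φ pr H R) →
        z ∈ Stay G (Tr C K))
  link : ∀ G G' (p p' : X), 0 < S.ht G → 0 < S.ht G' → Good G → Good G' → G • p = p →
    G' • p' = p' → ∀ R, ∃ K, IsCompact K ∧ ∀ z ∈ S.Wu p, ∀ z' ∈ S.Ws p',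
      z ∈ Stay G⁻¹ (NearP Φ pr ⊥ R) → z' ∈ Stay G' (NearP Φ pr ⊥ R) → set z (pr z') = z' →
      z ∈ Stay G⁻¹ K
  hole : ∀ G (p : X), 0 < S.ht G → Good G → G • p = p → ∀ R, ∃ y : X, ∀ z' ∈ S.Ws p,
    z' ∈ Stay G (NearP Φ pr ⊥ R) → set y (pr z') ≠ z'

/-- The regions of the family have thin staying sets. -/
def ThinFam (F : Fam 𝔾 X) : Prop := ∀ i R, S.Thin (Stay (F.g i) (F.A i R))

/-- The hypotheses of the main argument for one direction of time. -/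
structure Half (Φ : Fuchs 𝔊) (pj : 𝔾 →* 𝔊) (pr : X → KD) (set : X → KD → X) (Good : 𝔾 → Prop)
    (F : Fam 𝔾 X) : Prop where
  univ : S.Λ = univ
  conv : Convex ℝ (range S.e)
  hf : S.HF Φ pj pr set
  iness : S.Iness pj
  fac : S.Fac2 Φ pj pr set Good F

/-- `p` is a fixed point of the doubly regular element `G`. -/
structure DR (Φ : Fuchs 𝔊) (pj : 𝔾 →* 𝔊) (Good : 𝔾 → Prop) (G : 𝔾) (p : X)
    (a₁ a₂ r₁ r₂ : Circle) : Prop where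
  pos : 0 < S.ht G
  fix : G • p = p
  reg : Φ.Reg (pj G) a₁ a₂ r₁ r₂
  good : Good G

/-- Charts centred at the points of `Λ` in which `t ^ N` is almost linear and hyperbolic. -/
structure Atl {V U : Type*} [NormedAddCommGroup V] [NormedSpace ℝ V] [NormedAddCommGroup U]
    [NormedSpace ℝ U] (N : ℕ) (γ : X → 𝔾) (L : X → (V × U) ≃L[ℝ] E) (κ : X → X → V × U)
    (τ : X → V × U → X) (ρ r : ℝ) : Prop where
  N_pos : 1 ≤ N
  ρ_pos : 0 < ρ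
  r_pos : 0 < r
  ht0 : ∀ x, S.ht (γ x) = 0
  eq : ∀ x a, κ x a = (L x).symm (S.e (γ x • a) - S.e (γ x • x))
  τκ : ∀ x a, τ x (κ x a) = a
  κτ : ∀ x ∈ S.Λ, ∀ v, ‖v‖ ≤ r → κ x (τ x v) = v
  small : ∀ r' > 0, ∃ ρ' > 0, ∀ x ∈ S.Λ, ∀ a, dist a x ≤ ρ' → ‖κ x a‖ ≤ r'
  near : ∀ ρ' > 0, ∃ r' > 0, ∀ x ∈ S.Λ, ∀ v, ‖v‖ ≤ r' → dist (τ x v) x ≤ ρ'
  hyp : ∀ x ∈ S.Λ, ∀ x' ∈ S.Λ, dist (S.t ^ N • x) x' ≤ ρ → ∃ As Au, Blk (1 / 4) 4 As Au ∧
    ∀ a b, ‖κ x a‖ ≤ r → ‖κ x b‖ ≤ r → ‖κ x' (S.t ^ N • a) - κ x' (S.t ^ N • b) -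
      (As (κ x a - κ x b).1, Au (κ x a - κ x b).2)‖ ≤ 1 / 8 * ‖κ x a - κ x b‖
  proj : ∀ x ∈ S.Λ, ∀ a, ‖κ x a‖ ≤ r → ∀ v : V × U,
    ‖(L x).symm (S.Q (γ x • a) (L x v)) - (0, v.2)‖ ≤ 1 / 8 * ‖v‖
  bdd : ∃ K : ℝ, ∀ x ∈ S.Λ, (∀ v, ‖L x v‖ ≤ K * ‖v‖) ∧ ∀ w, ‖(L x).symm w‖ ≤ K * ‖w‖
  cpt : ∃ K : Set X, IsCompact K ∧ ∀ x ∈ S.Λ, ∀ a, ‖κ x a‖ ≤ r → γ x • a ∈ K

end Setting

end

end Pool.Agent.P.MP_788ef7_an
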