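import Pool.Agent.P.MP_788ef7_an.Deg

set_option autoImplicit false

open Set Filter Topology Metric

namespace Pool.Agent.P.MP_788ef7_an

variable {V : Type*} [NormedAddCommGroup V] [InnerProductSpace ℝ V] [FiniteDimensional ℝ V]
  [Nontrivial V]

set_option linter.unusedSectionVars false

theorem cone_norm_sph {f : V → V} (h1 : ∀ y, y ≠ 0 → ‖f y‖ = 1) (y : V) :
    ‖‖y‖ • f y‖ = ‖y‖ := by
  by_cases hy : y = 0
  · simp [hy]
  · rw [norm_smul, h1 y hy, norm_norm, mul_one]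

theorem cone_diff_sph {f : V → V} (hf : ContDiffOn ℝ 1 f {0}ᶜ) :
    ContDiffOn ℝ 1 (fun y => ‖y‖ • f y) {0}ᶜ := fun y hy =>
  ((contDiffAt_norm ℝ (x := y) hy).contDiffWithinAt).smul (hf y hy)

theorem cone_at_sph {g : V → V} (hg : ContDiffOn ℝ 1 g {0}ᶜ) {y : V} (hy : y ≠ 0) :
    HasFDerivAt g (fderiv ℝ g y) y :=
  ((hg.contDiffAt (isOpen_compl_singleton.mem_nhds hy)).differentiableAt one_ne_zero).hasFDerivAt

theorem cone_cont_sph {g : V → V} (hg : ContDiffOn ℝ 1 g {0}ᶜ) (hn : ∀ y, ‖g y‖ = ‖y‖) :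
    Continuous g := by
  rw [continuous_iff_continuousAt]
  intro y
  by_cases hy : y = 0
  · subst hy
    have h0 : g 0 = 0 := by simpa using hn 0
    rw [ContinuousAt, h0, tendsto_zero_iff_norm_tendsto_zero]
    simp only [hn]
    simpa using (continuous_norm (E := V)).tendsto 0
  · exact (cone_at_sph hg hy).continuousAt

theorem sgn_comp_sph {A B : V →L[ℝ] V} (h : (A.comp B).det ≠ 0) :
    B.det ≠ 0 ∧ sgn (A.comp B) = sgn A * sgn B := by
  have e : (A.comp B).det = A.det * B.det := LinearMap.det_comp (A : V →ₗ[ℝ] V) (B : V →ₗ[ℝ] V)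
  rw [e] at h
  have hA := left_ne_zero_of_mul h
  have hB := right_ne_zero_of_mul h
  refine ⟨hB, ?_⟩
  unfold sgn
  rw [e]
  rcases lt_or_gt_of_ne hA with a | a <;> rcases lt_or_gt_of_ne hB with b | b
  · rw [if_pos (mul_pos_of_neg_of_neg a b), if_neg a.not_gt, if_neg b.not_gt]; norm_num
  · rw [if_neg (mul_neg_of_neg_of_pos a b).not_gt, if_neg a.not_gt, if_pos b]; norm_num
  · rw [if_neg (mul_neg_of_pos_of_neg a b).not_gt, if_pos a, if_neg b.not_gt]; norm_num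
  · rw [if_pos (mul_pos a b), if_pos a, if_pos b]; norm_num

theorem abs_sgn_sph (A : V →L[ℝ] V) : |sgn A| = 1 := by
  unfold sgn
  split_ifs <;> simp

theorem fin_sph {g : V → V} (hg : ContDiffOn ℝ 1 g {0}ᶜ) (hn : ∀ y, ‖g y‖ = ‖y‖) {v : V}
    (hv : v ≠ 0) (hr : ∀ y, y ≠ 0 → g y = v → (fderiv ℝ g y).det ≠ 0) :
    ∃ F : Finset V, ∀ y, y ∈ F ↔ g y = v := by
  have h := finite_zeros (isCompact_sphere (0 : V) ‖v‖) (f := fun y => g y - v)
    ((cone_cont_sph hg hn).sub continuous_const).continuousOn (fun x hx h0 => by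
      have hx0 : x ≠ 0 := by
        rintro rfl
        exact hv (by simpa using hx.symm)
      exact ⟨_, (cone_at_sph hg hx0).sub_const v, hr x hx0 (sub_eq_zero.1 h0)⟩)
  refine ⟨h.toFinset, fun y => ?_⟩
  rw [Set.Finite.mem_toFinset, Set.mem_ofPred_eq, sub_eq_zero, mem_sphere_zero_iff_norm]
  exact ⟨fun h => h.2, fun h => ⟨by rw [← h, hn], h⟩⟩

theorem indep_sph {g : V → V} (hg : ContDiffOn ℝ 1 g {0}ᶜ) (hn : ∀ y, ‖g y‖ = ‖y‖) {u v : V}
    {r : ℝ} (hr : 0 < r) (hu : ‖u‖ = r) (hv : ‖v‖ = r) {F G : Finset V}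
    (hF : ∀ y, y ∈ F ↔ g y = u) (hG : ∀ y, y ∈ G ↔ g y = v)
    (dF : ∀ y ∈ F, (fderiv ℝ g y).det ≠ 0) (dG : ∀ y ∈ G, (fderiv ℝ g y).det ≠ 0) :
    ∑ y ∈ F, sgn (fderiv ℝ g y) = ∑ y ∈ G, sgn (fderiv ℝ g y) := by
  have hc := cone_cont_sph hg hn
  have key : ∀ (z : V) (y : V), ‖z‖ = r → g y = z → y ≠ 0 ∧ y ∈ ball (0 : V) (2 * r) := by
    intro z y hz hy
    have : ‖y‖ = r := by rw [← hn, hy, hz]
    refine ⟨fun h => ?_, by rw [mem_ball_zero_iff]; linarith⟩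
    rw [h, norm_zero] at this
    exact hr.ne this
  refine deg_eq (Ω := ball (0 : V) (2 * r)) isOpen_ball isBounded_ball
    (H := fun s x => g x - ((1 - s) • u + s • v)) (Continuous.continuousOn (by fun_prop))
    (fun s hs x hx h0 => ?_) (fun x => ?_) (fun x => ?_) (fun x hx => ?_) (fun x hx => ?_)
  · have h1 : ‖x‖ = 2 * r := mem_sphere_zero_iff_norm.1 (frontier_ball_subset_sphere hx)
    have h2 : ‖(1 - s) • u + s • v‖ ≤ r := by
      refine (norm_add_le _ _).trans ?_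
      rw [norm_smul, norm_smul, hu, hv, Real.norm_of_nonneg hs.1,
        Real.norm_of_nonneg (sub_nonneg.2 hs.2)]
      linarith
    rw [← sub_eq_zero.1 h0, hn] at h2
    linarith
  · simp only [sub_zero, one_smul, zero_smul, add_zero, sub_eq_zero, hF]
    exact ⟨fun h => ⟨(key u x hu h).2, h⟩, fun h => h.2⟩
  · simp only [sub_self, one_smul, zero_smul, zero_add, sub_eq_zero, hG]
    exact ⟨fun h => ⟨(key v x hv h).2, h⟩, fun h => h.2⟩
  · exact ⟨(cone_at_sph hg (key u x hu ((hF x).1 hx)).1).sub_const _, dF x hx⟩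
  · exact ⟨(cone_at_sph hg (key v x hv ((hG x).1 hx)).1).sub_const _, dG x hx⟩

theorem unit_sph {y : V} (hy : y ≠ 0) : ‖y‖⁻¹ • y ∈ sphere (0 : V) 1 := by
  rw [mem_sphere_zero_iff_norm, norm_smul, norm_inv, norm_norm,
    inv_mul_cancel₀ (norm_ne_zero_iff.2 hy)]

theorem hom_norm_sph {h : ℝ → V → V}
    (hh1 : ∀ s ∈ Icc (0 : ℝ) 1, ∀ y ∈ sphere (0 : V) 1, ‖h s y‖ = 1) {s : ℝ}
    (hs : s ∈ Icc (0 : ℝ) 1) (y : V) : ‖‖y‖ • h s (‖y‖⁻¹ • y)‖ = ‖y‖ := by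
  by_cases hy : y = 0
  · simp [hy]
  · rw [norm_smul, hh1 s hs _ (unit_sph hy), norm_norm, mul_one]

theorem hom_cont_sph {h : ℝ → V → V}
    (hh : ContinuousOn (fun p : ℝ × V => h p.1 p.2) (Icc 0 1 ×ˢ sphere 0 1))
    (hh1 : ∀ s ∈ Icc (0 : ℝ) 1, ∀ y ∈ sphere (0 : V) 1, ‖h s y‖ = 1) :
    ContinuousOn (fun p : ℝ × V => ‖p.2‖ • h p.1 (‖p.2‖⁻¹ • p.2)) (Icc 0 1 ×ˢ univ) := by
  rintro ⟨s, y⟩ hp
  by_cases hy : y = 0
  · subst hy
    rw [ContinuousWithinAt]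
    simp only [norm_zero, zero_smul]
    rw [tendsto_zero_iff_norm_tendsto_zero]
    have h2 : Tendsto (fun p : ℝ × V => ‖p.2‖) (𝓝[Icc 0 1 ×ˢ univ] (s, 0)) (𝓝 0) := by
      have : Continuous (fun p : ℝ × V => ‖p.2‖) := by fun_prop
      simpa using (this.tendsto (s, 0)).mono_left nhdsWithin_le_nhds
    refine h2.congr' ?_
    filter_upwards [self_mem_nhdsWithin] with p hp
    exact (hom_norm_sph hh1 hp.1 p.2).symm
  · have hU : (univ ×ˢ ({0}ᶜ : Set V) : Set (ℝ × V)) ∈ 𝓝 (s, y) :=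
      (isOpen_univ.prod isOpen_compl_singleton).mem_nhds ⟨trivial, hy⟩
    rw [← continuousWithinAt_inter hU]
    have h3 : ContinuousOn (fun p : ℝ × V => (p.1, ‖p.2‖⁻¹ • p.2))
        ((Icc 0 1 ×ˢ univ) ∩ (univ ×ˢ ({0}ᶜ : Set V))) := by
      refine continuousOn_fst.prodMk (ContinuousOn.smul (ContinuousOn.inv₀ (by fun_prop) ?_)
        continuousOn_snd)
      exact fun p hp => norm_ne_zero_iff.2 hp.2.2
    have h4 := hh.comp h3 (fun p hp => ⟨hp.1.1, unit_sph hp.2.2⟩)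
    exact (ContinuousOn.smul (f := fun p : ℝ × V => ‖p.2‖) (by fun_prop) h4) _ ⟨hp, trivial, hy⟩

/-- The cone over a homotopy equivalence of the sphere has degree `1` or `-1`. -/
theorem cone_deg {ψ φ : V → V} (hψ : ContDiffOn ℝ 1 ψ {0}ᶜ)
    (hφ : ContDiffOn ℝ 1 φ {0}ᶜ) (hψ0 : ∀ c : ℝ, 0 < c → ∀ y, ψ (c • y) = ψ y)
    (hψ1 : ∀ y, y ≠ 0 → ‖ψ y‖ = 1) (hφ0 : ∀ c : ℝ, 0 < c → ∀ y, φ (c • y) = φ y)
    (hφ1 : ∀ y, y ≠ 0 → ‖φ y‖ = 1) {h : ℝ → V → V}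
    (hh : ContinuousOn (fun p : ℝ × V => h p.1 p.2) (Icc 0 1 ×ˢ sphere 0 1))
    (hh1 : ∀ s ∈ Icc (0 : ℝ) 1, ∀ y ∈ sphere (0 : V) 1, ‖h s y‖ = 1)
    (h0 : ∀ y ∈ sphere (0 : V) 1, h 0 y = ψ (φ y)) (h1 : ∀ y ∈ sphere (0 : V) 1, h 1 y = y)
    {ρ : ℝ} (hρ : 0 < ρ) : ∃ (v : V) (F : Finset V), ‖v‖ < ρ ∧ (∀ y, y ∈ F ↔ ‖y‖ • ψ y = v) ∧
      (∀ y ∈ F, y ≠ 0 ∧ (fderiv ℝ (fun y => ‖y‖ • ψ y) y).det ≠ 0) ∧
      |∑ y ∈ F, sgn (fderiv ℝ (fun y => ‖y‖ • ψ y) y)| = 1 := by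
  classical
  set P : V → V := fun y => ‖y‖ • ψ y with hP
  set Q : V → V := fun y => ‖y‖ • φ y with hQ
  have Pn : ∀ y, ‖P y‖ = ‖y‖ := cone_norm_sph hψ1
  have Qn : ∀ y, ‖Q y‖ = ‖y‖ := cone_norm_sph hφ1
  have Pd : ContDiffOn ℝ 1 P {0}ᶜ := cone_diff_sph hψ
  have Qd : ContDiffOn ℝ 1 Q {0}ᶜ := cone_diff_sph hφ
  have Q0 : ∀ y, y ≠ 0 → Q y ≠ 0 := fun y hy h => hy (by simpa [h] using (Qn y).symm)
  have Cd : ContDiffOn ℝ 1 (P ∘ Q) {0}ᶜ := Pd.comp Qd (fun y hy => Q0 y hy)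
  have Cn : ∀ y, ‖(P ∘ Q) y‖ = ‖y‖ := fun y => by rw [Function.comp, Pn, Qn]
  have hne : (ball (0 : V) ρ ∩ {0}ᶜ).Nonempty := by
    obtain ⟨x, hx⟩ := exists_ne (0 : V)
    refine ⟨(ρ / 2) • (‖x‖⁻¹ • x), ?_, ?_⟩
    · rw [mem_ball_zero_iff, norm_smul, mem_sphere_zero_iff_norm.1 (unit_sph hx),
        Real.norm_of_nonneg (by positivity)]
      linarith
    · exact smul_ne_zero (by positivity) (smul_ne_zero (inv_ne_zero (norm_ne_zero_iff.2 hx)) hx)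
  obtain ⟨v, ⟨hv1, hv⟩, hreg⟩ := exists_regular (ι := Bool) (O := fun _ => ({0}ᶜ : Set V))
    (fun _ => isOpen_compl_singleton) (f := fun b => if b then P else P ∘ Q)
    (fun b => by cases b <;> simpa) (isOpen_ball.inter isOpen_compl_singleton) hne
  have hv0 : v ≠ 0 := hv
  have r1 : ∀ y, y ≠ 0 → P y = v → (fderiv ℝ P y).det ≠ 0 := fun y a b => hreg true y a b
  have r2 : ∀ y, y ≠ 0 → (P ∘ Q) y = v → (fderiv ℝ (P ∘ Q) y).det ≠ 0 :=
    fun y a b => hreg false y a b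
  obtain ⟨F, hF⟩ := fin_sph Pd Pn hv0 r1
  obtain ⟨G, hG⟩ := fin_sph Cd Cn hv0 r2
  have hr : 0 < ‖v‖ := norm_pos_iff.2 hv0
  have Fn : ∀ y ∈ F, ‖y‖ = ‖v‖ := fun y hy => by rw [← (hF y).1 hy, Pn]
  have Gn : ∀ y ∈ G, ‖y‖ = ‖v‖ := fun y hy => by rw [← (hG y).1 hy, Cn]
  have F0 : ∀ y ∈ F, y ≠ 0 := fun y hy => norm_pos_iff.1 (by rw [Fn y hy]; exact hr)
  have G0 : ∀ y ∈ G, y ≠ 0 := fun y hy => norm_pos_iff.1 (by rw [Gn y hy]; exact hr)
  refine ⟨v, F, mem_ball_zero_iff.1 hv1, hF, fun y hy => ⟨F0 y hy, r1 y (F0 y hy) ((hF y).1 hy)⟩, ?_⟩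
  have e0 : (fun x : V => ‖x‖ • h 0 (‖x‖⁻¹ • x) - v) = fun x => (P ∘ Q) x - v := by
    funext x
    congr 1
    by_cases hx : x = 0
    · simp [hx, hP, hQ]
    · have hx' : 0 < ‖x‖ := norm_pos_iff.2 hx
      rw [h0 _ (unit_sph hx), hφ0 _ (inv_pos.2 hx')]
      change _ = ‖Q x‖ • ψ (‖x‖ • φ x)
      rw [Qn, hψ0 _ hx']
  have e1 : (fun x : V => ‖x‖ • h 1 (‖x‖⁻¹ • x) - v) = fun x => x - v := by
    funext x
    congr 1
    by_cases hx : x = 0
    · simp [hx]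
    · rw [h1 _ (unit_sph hx), smul_smul, mul_inv_cancel₀ (norm_ne_zero_iff.2 hx), one_smul]
  have hone : ∑ x ∈ G, sgn (fderiv ℝ (P ∘ Q) x) =
      ∑ _x ∈ ({v} : Finset V), sgn (ContinuousLinearMap.id ℝ V) := by
    refine deg_eq (Ω := ball (0 : V) (2 * ‖v‖)) isOpen_ball isBounded_ball
      (H := fun s x => ‖x‖ • h s (‖x‖⁻¹ • x) - v)
      (((hom_cont_sph hh hh1).mono (prod_mono le_rfl (subset_univ _))).sub continuousOn_const)
      (fun s hs x hx h0 => ?_) (fun x => ?_) (fun x => ?_) (fun x hx => ?_) (fun x hx => ?_)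
    · have h1 : ‖x‖ = 2 * ‖v‖ := mem_sphere_zero_iff_norm.1 (frontier_ball_subset_sphere hx)
      have h2 := hom_norm_sph hh1 hs x
      rw [sub_eq_zero.1 h0] at h2
      linarith
    · rw [congrFun e0 x, sub_eq_zero]
      refine ⟨fun h => ⟨?_, (hG x).1 h⟩, fun h => (hG x).2 h.2⟩
      rw [mem_ball_zero_iff, Gn x h]
      linarith
    · rw [congrFun e1 x, sub_eq_zero, Finset.mem_singleton]
      refine ⟨fun h => ⟨?_, h⟩, fun h => h.2⟩
      rw [mem_ball_zero_iff, h]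
      linarith
    · rw [e0]
      exact ⟨(cone_at_sph Cd (G0 x hx)).sub_const _, r2 x (G0 x hx) ((hG x).1 hx)⟩
    · rw [e1]
      refine ⟨(hasFDerivAt_id x).sub_const _, ?_⟩
      simp [ContinuousLinearMap.det]
  have hid : sgn (ContinuousLinearMap.id ℝ V) = 1 := by
    simp [sgn, ContinuousLinearMap.det]
  rw [Finset.sum_singleton, hid] at hone
  have hch : ∀ x ∈ G, (fderiv ℝ Q x).det ≠ 0 ∧
      sgn (fderiv ℝ (P ∘ Q) x) = sgn (fderiv ℝ P (Q x)) * sgn (fderiv ℝ Q x) := by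
    intro x hx
    have e := ((cone_at_sph Pd (Q0 x (G0 x hx))).comp x (cone_at_sph Qd (G0 x hx))).fderiv
    have d := r2 x (G0 x hx) ((hG x).1 hx)
    rw [e] at d ⊢
    exact sgn_comp_sph d
  have hfib : ∀ y ∈ F, ∀ x, x ∈ G.filter (fun x => Q x = y) ↔ Q x = y := by
    intro y hy x
    rw [Finset.mem_filter]
    refine ⟨fun h => h.2, fun h => ⟨(hG x).2 ?_, h⟩⟩
    rw [Function.comp, h]
    exact (hF y).1 hy
  rw [← Finset.sum_fiberwise_of_maps_to (g := Q) (t := F)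
    (fun x hx => (hF _).2 ((hG x).1 hx))] at hone
  rcases F.eq_empty_or_nonempty with hE | ⟨y₀, hy₀⟩
  · simp [hE] at hone
  have hsum : ∀ y ∈ F, ∑ x ∈ G.filter (fun x => Q x = y), sgn (fderiv ℝ (P ∘ Q) x) =
      sgn (fderiv ℝ P y) * ∑ x ∈ G.filter (fun x => Q x = y₀), sgn (fderiv ℝ Q x) := by
    intro y hy
    rw [← indep_sph Qd Qn hr (Fn y hy) (Fn y₀ hy₀) (hfib y hy) (hfib y₀ hy₀)
      (fun x hx => (hch x (Finset.mem_filter.1 hx).1).1)
      (fun x hx => (hch x (Finset.mem_filter.1 hx).1).1), Finset.mul_sum]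
    refine Finset.sum_congr rfl fun x hx => ?_
    rw [(hch x (Finset.mem_filter.1 hx).1).2, (Finset.mem_filter.1 hx).2]
  rw [Finset.sum_congr rfl hsum, ← Finset.sum_mul] at hone
  exact Int.isUnit_iff_abs_eq.1 (IsUnit.of_mul_eq_one _ hone)

theorem sgn_smul_sph {L : ℝ} (hL : 0 < L) (A : V →L[ℝ] V) :
    (L • A).det = L ^ Module.finrank ℝ V * A.det ∧ sgn (L • A) = sgn A := by
  have e : (L • A).det = L ^ Module.finrank ℝ V * A.det :=
    LinearMap.det_smul L (A : V →ₗ[ℝ] V)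
  refine ⟨e, ?_⟩
  unfold sgn
  rw [e]
  simp only [mul_pos_iff_of_pos_left (pow_pos hL _)]

theorem diff_of_det_sph {w : V → V} {y : V} (h : (fderiv ℝ w y).det ≠ 0) :
    HasFDerivAt w (fderiv ℝ w y) y := by
  by_contra hc
  have : ¬ DifferentiableAt ℝ w y := fun h' => hc h'.hasFDerivAt
  rw [fderiv_zero_of_not_differentiableAt this] at h
  exact h (LinearMap.det_zero'' (R := ℝ) (M := V))

theorem radii_sph {θ t : ℝ} (hθ : θ < 1) (ht0 : 0 ≤ t) (ht : t < 1) : ∃ a b : ℝ, 0 < a ∧ a < b ∧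
    a ^ (θ - 1) = 9 ∧ b ^ (θ - 1) = (1 - t) / 2 ∧
    ∀ x : ℝ, 0 < x → 1 - t ≤ x ^ (θ - 1) → x ^ (θ - 1) ≤ 1 + t → a < x ∧ x < b := by
  have hn : θ - 1 < 0 := by linarith
  have ha : (0 : ℝ) < 9 ^ (θ - 1)⁻¹ := by positivity
  have ht' : 0 < (1 - t) / 2 := by linarith
  have hb : (0 : ℝ) < ((1 - t) / 2) ^ (θ - 1)⁻¹ := by positivity
  have ea := Real.rpow_inv_rpow (x := 9) (by norm_num) hn.ne
  have eb := Real.rpow_inv_rpow ht'.le hn.ne
  refine ⟨_, _, ha, ?_, ea, eb, fun x hx h1 h2 => ⟨?_, ?_⟩⟩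
  · rw [← Real.rpow_lt_rpow_iff_of_neg hb ha hn, ea, eb]
    linarith
  · rw [← Real.rpow_lt_rpow_iff_of_neg hx ha hn, ea]
    linarith
  · rw [← Real.rpow_lt_rpow_iff_of_neg hb hx hn, eb]
    linarith

/-- The signed number of fixed points of the radial extension of a homotopy equivalence of the
sphere is at most two in absolute value. -/
theorem sph {ψ φ : V → V} (hψ : ContDiffOn ℝ 1 ψ {0}ᶜ)
    (hφ : ContDiffOn ℝ 1 φ {0}ᶜ) (hψ0 : ∀ c : ℝ, 0 < c → ∀ y, ψ (c • y) = ψ y)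
    (hφ0 : ∀ c : ℝ, 0 < c → ∀ y, φ (c • y) = φ y) (hψ1 : ∀ y, y ≠ 0 → ‖ψ y‖ = 1)
    (hφ1 : ∀ y, y ≠ 0 → ‖φ y‖ = 1) {h : ℝ → V → V}
    (hh : ContinuousOn (fun p : ℝ × V => h p.1 p.2) (Icc 0 1 ×ˢ sphere 0 1))
    (hh1 : ∀ s ∈ Icc (0 : ℝ) 1, ∀ y ∈ sphere (0 : V) 1, ‖h s y‖ = 1)
    (h0 : ∀ y ∈ sphere (0 : V) 1, h 0 y = ψ (φ y)) (h1 : ∀ y ∈ sphere (0 : V) 1, h 1 y = y)
    {θ : ℝ} (hθ : θ < 1) {τ : V} (hτ : ‖τ‖ < 1) {w : V → V}
    (hw : ∀ y, y ≠ 0 → w y = ‖y‖ ^ θ • ψ y - y + ‖y‖ • τ) {F : Finset V}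
    (hF : ∀ y, y ∈ F ↔ y ≠ 0 ∧ w y = 0) (hd : ∀ y ∈ F, (fderiv ℝ w y).det ≠ 0) :
    |∑ y ∈ F, sgn (fderiv ℝ w y)| ≤ 2 := by
  classical
  obtain ⟨a, b, ha, hab, ea, eb, hrad⟩ := radii_sph hθ (norm_nonneg τ) hτ
  obtain ⟨v, G, hv, hG, dG, hs⟩ := cone_deg hψ hφ hψ0 hψ1 hφ0 hφ1 hh hh1 h0 h1
    (ρ := a / 4) (by positivity)
  set P : V → V := fun y => ‖y‖ • ψ y with hP
  have Pn : ∀ y, ‖P y‖ = ‖y‖ := cone_norm_sph hψ1
  have Pd : ContDiffOn ℝ 1 P {0}ᶜ := cone_diff_sph hψ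
  have Pc := cone_cont_sph Pd Pn
  have hG' : ∀ y, y ∈ G ↔ P y = v := hG
  have hw' : ∀ y, y ≠ 0 → w y = ‖y‖ ^ (θ - 1) • P y - (y - ‖y‖ • τ) := by
    intro y hy
    have hy' : 0 < ‖y‖ := norm_pos_iff.2 hy
    rw [hw y hy, hP, smul_smul, Real.rpow_sub_one hy'.ne', div_mul_cancel₀ _ hy'.ne']
    abel
  have hlo : ∀ y : V, (1 - ‖τ‖) * ‖y‖ ≤ ‖y - ‖y‖ • τ‖ := fun y => by
    have := norm_sub_norm_le y (‖y‖ • τ)
    rw [norm_smul, norm_norm] at this
    linarith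
  have hup : ∀ y : V, ‖y - ‖y‖ • τ‖ ≤ (1 + ‖τ‖) * ‖y‖ := fun y => by
    have := norm_sub_le y (‖y‖ • τ)
    rw [norm_smul, norm_norm] at this
    linarith
  have Fr : ∀ y ∈ F, a < ‖y‖ ∧ ‖y‖ < b := by
    intro y hy
    obtain ⟨hy0, hy1⟩ := (hF y).1 hy
    have hy' : 0 < ‖y‖ := norm_pos_iff.2 hy0
    rw [hw' y hy0, sub_eq_zero] at hy1
    have e := congrArg norm hy1
    rw [norm_smul, Pn, Real.norm_of_nonneg (by positivity)] at e
    refine hrad _ hy' (le_of_mul_le_mul_right ?_ hy') (le_of_mul_le_mul_right ?_ hy')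
    · rw [e]; exact hlo y
    · rw [e]; exact hup y
  have Gr : ∀ y ∈ G, ‖y‖ < a / 2 := fun y hy => by
    rw [← Pn, (hG' y).1 hy]
    linarith
  set β : V → ℝ := fun y => max 0 (min 1 (2 * ‖y‖ / a - 1)) with hβ
  have β0 : ∀ y, 0 ≤ β y := fun y => le_max_left _ _
  have β1 : ∀ y, β y ≤ 1 := fun y => max_le zero_le_one (min_le_left _ _)
  set u : V → V := fun y => (max ‖y‖ a) ^ (θ - 1) • P y - β y • (y - ‖y‖ • τ) -
    (1 - β y) • ((9 : ℝ) • v) with hu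
  have uc : Continuous u := by
    have c1 : Continuous fun y : V => (max ‖y‖ a) ^ (θ - 1) :=
      (continuous_norm.max continuous_const).rpow_const
        (fun y => Or.inl (lt_of_lt_of_le ha (le_max_right _ _)).ne')
    have c2 : Continuous β := by
      rw [hβ]
      fun_prop
    exact ((c1.smul Pc).sub (c2.smul (by fun_prop))).sub
      ((continuous_const.sub c2).smul continuous_const)
  have uhi : ∀ y, a ≤ ‖y‖ → u y = w y := by
    intro y hy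
    have hb1 : β y = 1 := by
      have : 1 ≤ 2 * ‖y‖ / a - 1 := by
        rw [le_sub_iff_add_le, le_div_iff₀ ha]
        linarith
      simp only [hβ, min_eq_left this, max_eq_right zero_le_one]
    rw [hw' y (norm_pos_iff.1 (ha.trans_le hy))]
    simp only [hu, hb1, max_eq_left hy, one_smul, sub_self, zero_smul, sub_zero]
  have ulo : ∀ y, ‖y‖ < a / 2 → u y = (9 : ℝ) • (P y - v) := by
    intro y hy
    have hb0 : β y = 0 := by
      have : 2 * ‖y‖ / a - 1 ≤ 0 := by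
        rw [sub_nonpos, div_le_one ha]
        linarith
      exact max_eq_left ((min_le_right _ _).trans this)
    have hm : max ‖y‖ a = a := max_eq_right (by linarith)
    simp only [hu, hb0, hm, ea, zero_smul, sub_zero, one_smul, smul_sub]
  have umid : ∀ y, a / 2 ≤ ‖y‖ → ‖y‖ ≤ a → u y ≠ 0 := by
    intro y h1 h2 h3
    simp only [hu, max_eq_right h2, ea] at h3
    rw [sub_sub, sub_eq_zero] at h3
    have e := congrArg norm h3
    have e2 := norm_add_le (β y • (y - ‖y‖ • τ)) ((1 - β y) • ((9 : ℝ) • v))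
    rw [← e, norm_smul, Pn, norm_smul, norm_smul, norm_smul, Real.norm_of_nonneg (β0 y),
      Real.norm_of_nonneg (sub_nonneg.2 (β1 y)), Real.norm_of_nonneg (by norm_num)] at e2
    have e3 : β y * ‖y - ‖y‖ • τ‖ ≤ 2 * ‖y‖ := by
      have := hup y
      have := mul_le_of_le_one_left (norm_nonneg (y - ‖y‖ • τ)) (β1 y)
      nlinarith [norm_nonneg y]
    have e4 : (1 - β y) * (9 * ‖v‖) ≤ 9 * ‖v‖ :=
      mul_le_of_le_one_left (by positivity) (by linarith [β0 y])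
    linarith
  have dF : ∀ y ∈ F, HasFDerivAt u (fderiv ℝ w y) y := fun y hy =>
    (diff_of_det_sph (hd y hy)).congr_of_eventuallyEq (by
      filter_upwards [(isOpen_lt continuous_const continuous_norm).mem_nhds (Fr y hy).1] with x hx
      exact uhi x (le_of_lt hx))
  have dG' : ∀ y ∈ G, HasFDerivAt u ((9 : ℝ) • fderiv ℝ P y) y := fun y hy =>
    (((cone_at_sph Pd (dG y hy).1).sub_const v).const_smul (9 : ℝ)).congr_of_eventuallyEq (by
      filter_upwards [(isOpen_lt continuous_norm continuous_const).mem_nhds (Gr y hy)] with x hx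
      exact ulo x hx)
  have hdis : Disjoint F G := Finset.disjoint_left.2 fun y h1 h2 => by
    linarith [(Fr y h1).1, Gr y h2]
  have e0 : (fun x : V => (1 - (0 : ℝ)) • u x + (0 : ℝ) • (-x)) = u := by
    funext x
    simp
  have e1 : (fun x : V => (1 - (1 : ℝ)) • u x + (1 : ℝ) • (-x)) = fun x => -x := by
    funext x
    simp
  have hb : 0 < b := ha.trans hab
  have key : ∑ x ∈ F ∪ G, sgn (if x ∈ F then fderiv ℝ w x else (9 : ℝ) • fderiv ℝ P x) =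
      ∑ _x ∈ ({0} : Finset V), sgn (-ContinuousLinearMap.id ℝ V) := by
    refine deg_eq (Ω := ball (0 : V) b) isOpen_ball isBounded_ball
      (H := fun s x => (1 - s) • u x + s • (-x)) (Continuous.continuousOn (by fun_prop))
      (fun s hs x hx h0 => ?_) (fun x => ?_) (fun x => ?_) (fun x hx => ?_) (fun x hx => ?_)
    · have h1 : ‖x‖ = b := mem_sphere_zero_iff_norm.1 (frontier_ball_subset_sphere hx)
      have hx0 : x ≠ 0 := norm_pos_iff.1 (by rw [h1]; exact hb)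
      simp only [uhi x (by rw [h1]; exact hab.le), hw' x hx0, h1, eb] at h0
      have h2 : x = (1 - s) • (((1 - ‖τ‖) / 2) • P x + b • τ) := by
        rw [← sub_eq_zero, ← neg_eq_zero, ← h0]
        module
      have h3 := congrArg norm h2
      have h4 := norm_add_le (((1 - ‖τ‖) / 2) • P x) (b • τ)
      rw [norm_smul, Pn, norm_smul, h1, Real.norm_of_nonneg (by linarith),
        Real.norm_of_nonneg hb.le] at h4
      rw [norm_smul, h1, Real.norm_of_nonneg (sub_nonneg.2 hs.2)] at h3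
      have h5 := mul_le_of_le_one_left (norm_nonneg (((1 - ‖τ‖) / 2) • P x + b • τ))
        (show 1 - s ≤ 1 by linarith [hs.1])
      nlinarith
    · rw [congrFun e0 x, Finset.mem_union, mem_ball_zero_iff]
      constructor
      · rintro (h | h)
        · exact ⟨(Fr x h).2, by rw [uhi x (Fr x h).1.le]; exact ((hF x).1 h).2⟩
        · exact ⟨by linarith [Gr x h], by rw [ulo x (Gr x h), (hG' x).1 h, sub_self, smul_zero]⟩
      · rintro ⟨-, h⟩
        rcases lt_or_ge ‖x‖ (a / 2) with h1 | h1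
        · rw [ulo x h1, smul_eq_zero, sub_eq_zero] at h
          exact Or.inr ((hG' x).2 (h.resolve_left (by norm_num)))
        rcases le_total ‖x‖ a with h2 | h2
        · exact absurd h (umid x h1 h2)
        · exact Or.inl ((hF x).2 ⟨norm_pos_iff.1 (ha.trans_le h2), by rw [← uhi x h2, h]⟩)
    · rw [congrFun e1 x, Finset.mem_singleton, neg_eq_zero]
      exact ⟨fun h => ⟨by rw [h]; exact mem_ball_self hb, h⟩, fun h => h.2⟩
    · rw [e0]
      split_ifs with h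
      · exact ⟨dF x h, hd x h⟩
      · have hx' := (Finset.mem_union.1 hx).resolve_left h
        refine ⟨dG' x hx', ?_⟩
        rw [(sgn_smul_sph (by norm_num) _).1]
        exact mul_ne_zero (by positivity) (dG x hx').2
    · rw [e1]
      refine ⟨(hasFDerivAt_id x).neg, ?_⟩
      have : (-ContinuousLinearMap.id ℝ V).det = (-1 : ℝ) ^ Module.finrank ℝ V * LinearMap.det
          (LinearMap.id : V →ₗ[ℝ] V) := by
        rw [← LinearMap.det_smul, neg_one_smul]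
        rfl
      rw [this, LinearMap.det_id]
      simp
  rw [Finset.sum_union hdis, Finset.sum_singleton,
    Finset.sum_congr rfl (fun x hx => by rw [if_pos hx]),
    Finset.sum_congr (s₁ := G) rfl (fun x hx => by
      rw [if_neg (Finset.disjoint_right.1 hdis hx), (sgn_smul_sph (by norm_num) _).2])] at key
  have h2 := abs_sgn_sph (-ContinuousLinearMap.id ℝ V)
  rw [← key] at h2
  rw [abs_eq (by norm_num)] at h2 hs
  rw [abs_le]
  omega

end Pool.Agent.P.MP_788ef7_an
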