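import Pool.Agent.P.MP_788ef7_an.VG1
import Pool.Agent.P.MP_788ef7_an.Sph
import Pool.Agent.P.MP_788ef7_an.CDefs

set_option autoImplicit false
set_option linter.unusedSectionVars false

open Set Filter Topology Metric

namespace Pool.Agent.P.MP_788ef7_an

namespace Setting

variable {𝔾 X E : Type*} [Group 𝔾] [MetricSpace X] [MulAction 𝔾 X] [ProperSpace X]
  [NormedAddCommGroup E] [NormedSpace ℝ E] [FiniteDimensional ℝ E] {S : Setting 𝔾 X E}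
  {g g' G G' γ c w : 𝔾} {p p' q x y z : X} {C : Subgroup 𝔾} {K : Set X} {R : ℝ}
  {𝔊 : Type*} [Group 𝔊] [MulAction 𝔊 Circle] {Φ : Fuchs 𝔊} {pj : 𝔾 →* 𝔊} {pr : X → KD}
  {set : X → KD → X} {H : Subgroup 𝔊} {a₁ a₂ r₁ r₂ : Circle}
  {j : E ≃L[ℝ] ℂ × E3}

theorem SS.pos_ss1 (h : S.SS Φ pj pr set j) (z : X) : 0 < ‖(j (S.e z)).2‖ :=
  norm_pos_iff.2 (h.sf.snd_mem z)

theorem SS.log_ss1 (h : S.SS Φ pj pr set j) (g : 𝔾) (z : X) :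
    Real.log ‖(j (S.e (g • z))).2‖ = (2 : ℝ) ^ (-S.ht g) * Real.log ‖(j (S.e z)).2‖ := by
  rw [h.rad, Real.log_rpow (h.pos_ss1 z)]

theorem SS.wu_subset (h : S.SS Φ pj pr set j) (hx : x ∈ S.Λ) : S.Wu x ⊆ S.Λ := by
  intro z hz
  obtain ⟨K, hK, hK'⟩ := S.exists_cpt 1
  have hc : Continuous fun z : X => Real.log ‖(j (S.e z)).2‖ :=
    ((j.continuous.comp S.emb.continuous).snd.norm).log fun z => (h.pos_ss1 z).ne'
  obtain ⟨L, hL⟩ := hK.exists_bound_of_continuousOn hc.continuousOn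
  have key : ∀ᶠ n : ℕ in atTop, (2 : ℝ) ^ n * |Real.log ‖(j (S.e z)).2‖| ≤ L := by
    filter_upwards [(mem_wu.1 hz).eventually (ge_mem_nhds one_pos)] with n hn
    obtain ⟨γ, h0, hγ⟩ := hK' _ (S.smul_mem (S.t⁻¹ ^ n) x hx)
    have h1 := hL _ (hγ _ hn)
    rw [h.log_ss1, h.log_ss1, h0, S.ht_pow, S.ht_inv, S.ht_t] at h1
    simpa [abs_mul] using h1
  have h0 : Real.log ‖(j (S.e z)).2‖ = 0 := by
    by_contra hne
    have ht : Tendsto (fun n : ℕ => (2 : ℝ) ^ n * |Real.log ‖(j (S.e z)).2‖|) atTop atTop :=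
      (tendsto_pow_atTop_atTop_of_one_lt one_lt_two).atTop_mul_const (abs_pos.2 hne)
    obtain ⟨n, h1, h2⟩ := (key.and (ht.eventually_gt_atTop L)).exists
    exact absurd h1 (not_le.2 h2)
  rw [h.mem]
  exact Real.eq_one_of_pos_of_log_eq_zero (h.pos_ss1 z) h0

theorem SS.cen (h : S.SS Φ pj pr set j) (G : 𝔾) : S.Cen G = (Φ.Cen (pj G)).comap pj := by
  ext γ
  refine ⟨fun hγ => h.hf.mem_cen hγ, fun hγ => ⟨(h.hf.ht_eq γ).symm.trans hγ.1, ?_⟩⟩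
  refine (injective_iff_map_eq_one pj).2 h.inj ?_
  rw [map_mul, map_mul]
  exact hγ.2

theorem cpt_ss1 (m M : ℝ) : IsCompact {y : E3 | m ≤ ‖y‖ ∧ ‖y‖ ≤ M} := by
  refine (isCompact_closedBall (0 : E3) M).of_isClosed_subset ?_ fun y hy => ?_
  · exact (isClosed_le continuous_const continuous_norm).inter
      (isClosed_le continuous_norm continuous_const)
  · exact mem_closedBall_zero_iff.2 hy.2

theorem sub_ss1 {m : ℝ} (hm : 0 < m) (M : ℝ) : {y : E3 | m ≤ ‖y‖ ∧ ‖y‖ ≤ M} ⊆ {0}ᶜ :=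
  fun _ hy => norm_pos_iff.1 (hm.trans_le hy.1)

theorem SS.move_ss1 (h : S.SS Φ pj pr set j) {a : 𝔊} (ha : Φ.ht a = 0) : ∃ γ, pj γ = a⁻¹ ∧
    S.ht γ = 0 ∧ ∀ z, dist (pr (γ • z)) KD.o = dist (pr z) (Φ.pt a) ∧
      (j (S.e (γ • z))).2 = (j (S.e z)).2 := by
  obtain ⟨γ, hγ⟩ := h.hf.surj a⁻¹
  have h0 : S.ht γ = 0 := by rw [← h.hf.ht_eq, hγ, Φ.ht_inv, ha, neg_zero]
  refine ⟨γ, hγ, h0, fun z => ⟨?_, h.sf.act γ z h0⟩⟩
  rw [h.hf.eqv γ z h0, hγ, ← Φ.dist_mv a⁻¹ (pr z), PreFuchs.pt, Φ.mv_inv_mv ha]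

theorem SS.tr (h : S.SS Φ pj pr set j) (R m M : ℝ) (hm : 0 < m) : ∃ K, IsCompact K ∧
    ∀ H : Subgroup 𝔊, (∀ a ∈ H, Φ.ht a = 0) → ∀ z ∈ NearP Φ pr H R, m ≤ ‖(j (S.e z)).2‖ →
      ‖(j (S.e z)).2‖ ≤ M → z ∈ Tr (H.comap pj) K := by
  refine ⟨_, h.sf.compact R (cpt_ss1 m M) (sub_ss1 hm M), fun H hH z ⟨a, ha, hd⟩ h1 h2 => ?_⟩
  obtain ⟨γ, hγ, -, h3⟩ := h.move_ss1 (hH a ha)
  refine ⟨γ, ?_, ?_, ?_⟩
  · rw [Subgroup.mem_comap, hγ]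
    exact H.inv_mem ha
  · rw [(h3 z).1]
    exact hd
  · rw [(h3 z).2]
    exact ⟨h1, h2⟩

theorem theta_ss1 (hG : 0 < S.ht G) : (2 : ℝ) ^ (-S.ht G) ≤ 1 / 2 := by
  have : (2 : ℝ) ^ (-S.ht G) ≤ (2 : ℝ) ^ (-1 : ℤ) := zpow_le_zpow_right₀ one_le_two (by omega)
  simpa using this

theorem bound_ss1 {N θ : ℝ} (hN : 0 < N) (hθ : θ ≤ 1 / 2) (h1 : N / 2 ≤ N ^ θ)
    (h2 : N ^ θ ≤ 2 * N) : 1 / 4 ≤ N ∧ N ≤ 4 := by
  have hs := Real.mul_self_sqrt hN.le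
  have hp := Real.sqrt_pos.2 hN
  rcases le_total N 1 with h | h
  · have := Real.rpow_le_rpow_of_exponent_ge hN h hθ
    rw [← Real.sqrt_eq_rpow] at this
    refine ⟨?_, by linarith⟩
    nlinarith
  · have := Real.rpow_le_rpow_of_exponent_le h hθ
    rw [← Real.sqrt_eq_rpow] at this
    refine ⟨by linarith, ?_⟩
    nlinarith

theorem SS.disp (h : S.SS Φ pj pr set j) (hG : 0 < S.ht G) (R : ℝ) : ∃ R', ∀ z,
    dist (pr (G • z)) (pr z) ≤ R → ∀ u : E3, ‖u‖ ≤ 1 / 2 →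
      (j (S.e (G • z))).2 - (j (S.e z)).2 = ‖(j (S.e z)).2‖ • u → dist (G • z) z ≤ R' := by
  obtain ⟨R₀, hR₀⟩ := Φ.exists_pt_near
  obtain ⟨R', hR'⟩ := Metric.isBounded_iff.1 (h.sf.compact (|R| + R₀) (cpt_ss1 (1 / 8) 8)
    (sub_ss1 (by norm_num) 8)).isBounded
  refine ⟨R', fun z hd u hu e => ?_⟩
  obtain ⟨a, ha, h1⟩ := hR₀ (pr z)
  obtain ⟨γ, -, h0, h3⟩ := h.move_ss1 ha
  have hN := h.pos_ss1 z
  have n1 : ‖(j (S.e (G • z))).2 - (j (S.e z)).2‖ ≤ ‖(j (S.e z)).2‖ / 2 := by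
    rw [e, norm_smul, norm_norm]
    nlinarith
  have n2 := abs_le.1 ((abs_norm_sub_norm_le _ _).trans n1)
  have n3 := bound_ss1 hN (theta_ss1 hG) (by rw [← h.rad]; linarith [n2.1])
    (by rw [← h.rad]; linarith [n2.2])
  rw [← S.iso γ h0]
  refine hR' ⟨?_, ?_⟩ ⟨?_, ?_⟩
  · rw [(h3 _).1]
    linarith [dist_triangle (pr (G • z)) (pr z) (Φ.pt a), le_abs_self R]
  · rw [(h3 _).2]
    exact ⟨by linarith [n2.1, n3.1], by linarith [n2.2, n3.2]⟩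
  · rw [(h3 _).1]
    linarith [abs_nonneg R]
  · rw [(h3 _).2]
    exact ⟨by linarith [n3.1], by linarith [n3.2]⟩

theorem SS.pt_ss1 (h : S.SS Φ pj pr set j) {ζ : ℂ} (hζ : ‖ζ‖ < 1) {y : E3} (hy : y ≠ 0) :
    ∃ z, S.e z = j.symm (ζ, y) := by
  have : j.symm (ζ, y) ∈ range S.e := by
    rw [h.sf.range_eq, mem_preimage, j.apply_symm_apply]
    exact ⟨mem_ball_zero_iff.2 hζ, hy⟩
  exact this

theorem SS.c1_ss1 (h : S.SS Φ pj pr set j) (g : 𝔾) :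
    ContDiffOn ℝ 1 (fun p : ℂ × E3 => j (S.A g (j.symm p))) (ball 0 1 ×ˢ {0}ᶜ) :=
  j.contDiff.comp_contDiffOn ((S.c1 g).comp j.symm.contDiff.contDiffOn fun _ hp =>
    h.pt_ss1 (mem_ball_zero_iff.1 hp.1) hp.2)

theorem SS.norm_ss1 (h : S.SS Φ pj pr set j) (g : 𝔾) {ζ : ℂ} (hζ : ‖ζ‖ < 1) {y : E3}
    (hy : y ≠ 0) : ‖(j (S.A g (j.symm (ζ, y)))).2‖ = ‖y‖ ^ ((2 : ℝ) ^ (-S.ht g)) := by
  obtain ⟨z, hz⟩ := h.pt_ss1 hζ hy
  rw [← hz, S.A_e, h.rad, hz, j.apply_symm_apply]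

theorem SS.psi_ss1 (h : S.SS Φ pj pr set j) (g : 𝔾) (x : KD) {ψ : E3 → E3}
    (hψ : ψ = fun y => (‖y‖ ^ ((2 : ℝ) ^ (-S.ht g)))⁻¹ • (j (S.A g (j.symm (x.val, y)))).2) :
    ContDiffOn ℝ 1 ψ {0}ᶜ ∧ (∀ c : ℝ, 0 < c → ∀ y, ψ (c • y) = ψ y) ∧ ∀ y, y ≠ 0 → ‖ψ y‖ = 1 := by
  subst hψ
  refine ⟨?_, fun c hc y => ?_, fun y hy => ?_⟩
  · have h1 : ContDiffOn ℝ 1 (fun y : E3 => ‖y‖) {0}ᶜ := fun y hy =>
      (contDiffAt_norm ℝ hy).contDiffWithinAt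
    refine ContDiffOn.smul ((h1.rpow_const_of_ne fun y hy => norm_ne_zero_iff.2 hy).inv
      fun y hy => (Real.rpow_pos_of_pos (norm_pos_iff.2 hy) _).ne') ?_
    exact ((h.c1_ss1 g).comp (contDiff_const.prodMk contDiff_id).contDiffOn fun y hy =>
      ⟨mem_ball_zero_iff.2 x.lt, hy⟩).snd
  · by_cases hy : y = 0
    · rw [hy, smul_zero]
    obtain ⟨z, hz⟩ := h.pt_ss1 x.lt hy
    obtain ⟨z', hz'⟩ := h.pt_ss1 x.lt (smul_ne_zero hc.ne' hy)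
    have e := (h.scale g z z' c hc (KD.ext (by
      rw [← h.sf.fst, ← h.sf.fst, hz, hz', j.apply_symm_apply, j.apply_symm_apply])) (by
      rw [hz, hz', j.apply_symm_apply, j.apply_symm_apply])).2
    simp only
    rw [← hz, ← hz', S.A_e, S.A_e, e, smul_smul, norm_smul, Real.norm_of_nonneg hc.le,
      Real.mul_rpow hc.le (norm_nonneg y)]
    congr 1
    have := (Real.rpow_pos_of_pos hc ((2 : ℝ) ^ (-S.ht g))).ne'
    field_simp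
  · have := Real.rpow_pos_of_pos (norm_pos_iff.2 hy) ((2 : ℝ) ^ (-S.ht g))
    rw [norm_smul, h.norm_ss1 g x.lt hy, norm_inv, Real.norm_of_nonneg this.le,
      inv_mul_cancel₀ this.ne']

theorem reg_ss1 {a : E3 → E3} (ha : ContDiffOn ℝ 1 a {0}ᶜ) : ∃ τ : E3, ‖τ‖ < 1 / 2 ∧ ∀ y, y ≠ 0 →
    a y - y + ‖y‖ • τ = 0 → (fderiv ℝ (fun y => a y - y + ‖y‖ • τ) y).det ≠ 0 := by
  have h1 : ContDiffOn ℝ 1 (fun y : E3 => ‖y‖) {0}ᶜ := fun y hy =>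
    (contDiffAt_norm ℝ hy).contDiffWithinAt
  have hf : ContDiffOn ℝ 1 (fun y : E3 => ‖y‖⁻¹ • (y - a y)) {0}ᶜ :=
    (h1.inv fun y hy => norm_ne_zero_iff.2 hy).smul (contDiffOn_id.sub ha)
  obtain ⟨τ, hτ, hr⟩ := exists_regular (ι := Unit) (O := fun _ => ({0}ᶜ : Set E3))
    (fun _ => isOpen_compl_singleton) (f := fun _ y => ‖y‖⁻¹ • (y - a y)) (fun _ => hf)
    isOpen_ball (nonempty_ball.2 (show (0 : ℝ) < 1 / 2 by norm_num) : (ball (0 : E3) _).Nonempty)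
  refine ⟨τ, mem_ball_zero_iff.1 hτ, fun y hy h0 => ?_⟩
  have key : ∀ y : E3, y ≠ 0 → a y - y + ‖y‖ • τ = (-‖y‖) • (‖y‖⁻¹ • (y - a y) - τ) := by
    intro y hy
    rw [smul_sub, smul_smul, neg_mul, mul_inv_cancel₀ (norm_ne_zero_iff.2 hy)]
    simp only [neg_smul, one_smul, neg_sub, sub_neg_eq_add]
  have hn := neg_ne_zero.2 (norm_ne_zero_iff.2 hy)
  have e : ‖y‖⁻¹ • (y - a y) - τ = 0 := by
    rw [key y hy] at h0
    exact (smul_eq_zero.1 h0).resolve_left hn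
  have hm : ({0}ᶜ : Set E3) ∈ 𝓝 y := isOpen_compl_singleton.mem_nhds hy
  have d1 := ((h1.contDiffAt hm).differentiableAt one_ne_zero).hasFDerivAt.neg
  have d2 := ((hf.contDiffAt hm).differentiableAt one_ne_zero).hasFDerivAt.sub_const τ
  have d3 := (d1.smul d2).congr_of_eventuallyEq (f₁ := fun y => a y - y + ‖y‖ • τ) (by
    filter_upwards [hm] with y hy
    exact key y hy)
  rw [d3.fderiv, e, ContinuousLinearMap.smulRight_zero, add_zero]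
  have hd := hr () y hy (sub_eq_zero.1 e)
  rw [ContinuousLinearMap.det, ContinuousLinearMap.toLinearMap_smul, LinearMap.det_smul]
  exact mul_ne_zero (pow_ne_zero _ hn) hd

/-- The index on one slice is at most two. -/
theorem SS.slice (h : S.SS Φ pj pr set j) (hG : 0 < S.ht G) (x : KD) : ∃ (τ : E3) (W : E3 → E3),
    ‖τ‖ ≤ 1 / 2 ∧ (∀ z, pr z = x → W (j (S.e z)).2 =
      (j (S.e (G • z))).2 - (j (S.e z)).2 + ‖(j (S.e z)).2‖ • τ) ∧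
    (∀ y, y ≠ 0 → W y = 0 → (fderiv ℝ W y).det ≠ 0) ∧
    ∀ F : Finset E3, (∀ y, y ∈ F ↔ y ≠ 0 ∧ W y = 0) → |∑ y ∈ F, sgn (fderiv ℝ W y)| ≤ 2 := by
  have c1 : ∀ g : 𝔾, ContDiffOn ℝ 1 (fun y : E3 => j (S.A g (j.symm (x.val, y)))) {0}ᶜ := fun g =>
    (h.c1_ss1 g).comp (contDiff_const.prodMk contDiff_id).contDiffOn fun y hy =>
      ⟨mem_ball_zero_iff.2 x.lt, hy⟩
  obtain ⟨τ, hτ, hr⟩ := reg_ss1 (c1 G).snd
  refine ⟨τ, _, hτ.le, fun z hz => ?_, hr, fun F hF => ?_⟩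
  · have e : j.symm (x.val, (j (S.e z)).2) = S.e z := by
      rw [← hz, ← h.sf.fst, Prod.mk.eta, j.symm_apply_apply]
    simp only [e, S.A_e]
  obtain ⟨p1, p2, p3⟩ := h.psi_ss1 G x rfl
  obtain ⟨q1, q2, q3⟩ := h.psi_ss1 G⁻¹ x rfl
  have ne : ∀ y ∈ sphere (0 : E3) 1, y ≠ 0 := fun y hy => ne_zero_of_mem_unit_sphere ⟨y, hy⟩
  have m : ∀ s ∈ Icc (0 : ℝ) 1, ∀ y ∈ sphere (0 : E3) 1,
      ‖(1 - s) • x.val + s • (j (S.A G⁻¹ (j.symm (x.val, y)))).1‖ < 1 ∧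
        ‖(j (S.A G⁻¹ (j.symm (x.val, y)))).2‖ = 1 := fun s hs y hy => by
    refine ⟨?_, by rw [h.norm_ss1 _ x.lt (ne y hy), mem_sphere_zero_iff_norm.1 hy, Real.one_rpow]⟩
    obtain ⟨z, hz⟩ := h.pt_ss1 x.lt (ne y hy)
    rw [← hz, S.A_e, h.sf.fst]
    exact mem_ball_zero_iff.1 (convex_ball (0 : ℂ) 1 (mem_ball_zero_iff.2 x.lt)
      (mem_ball_zero_iff.2 (pr _).lt) (sub_nonneg.2 hs.2) hs.1 (sub_add_cancel _ _))
  refine sph p1 q1 p2 q2 p3 q3 (h := fun s y => (j (S.A G (j.symm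
    ((1 - s) • x.val + s • (j (S.A G⁻¹ (j.symm (x.val, y)))).1,
      (j (S.A G⁻¹ (j.symm (x.val, y)))).2)))).2) ?_ (fun s hs y hy => ?_) (fun y hy => ?_)
    (fun y hy => ?_) (θ := (2 : ℝ) ^ (-S.ht G)) ((theta_ss1 hG).trans_lt (by norm_num))
    (τ := τ) (hτ.trans (by norm_num)) (fun y hy => ?_) hF fun y hy =>
      hr y ((hF y).1 hy).1 ((hF y).1 hy).2
  · have c2 : ContinuousOn (fun p : ℝ × E3 => j (S.A G⁻¹ (j.symm (x.val, p.2))))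
        (Icc 0 1 ×ˢ sphere 0 1) :=
      (c1 G⁻¹).continuousOn.comp continuousOn_snd fun p hp => ne _ hp.2
    refine ((h.c1_ss1 G).continuousOn.comp (ContinuousOn.prodMk (ContinuousOn.add (by fun_prop)
      (continuousOn_fst.smul c2.fst)) c2.snd) fun p hp => ?_).snd
    have := m p.1 hp.1 p.2 hp.2
    exact ⟨mem_ball_zero_iff.2 this.1, norm_ne_zero_iff.1 (this.2.trans_ne one_ne_zero)⟩
  · have := m s hs y hy
    rw [h.norm_ss1 G this.1 (norm_ne_zero_iff.1 (this.2.trans_ne one_ne_zero)), this.2,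
      Real.one_rpow]
  · have := (m 0 ⟨le_rfl, zero_le_one⟩ y hy).2
    simp only [mem_sphere_zero_iff_norm.1 hy, Real.one_rpow, inv_one, one_smul, this, sub_zero,
      zero_smul, add_zero]
  · obtain ⟨z, hz⟩ := h.pt_ss1 x.lt (ne y hy)
    simp only [sub_self, zero_smul, one_smul, zero_add, Prod.mk.eta, j.symm_apply_apply]
    rw [← hz, S.A_e, S.A_e, smul_inv_smul, hz, j.apply_symm_apply]
  · simp only [smul_smul,
      mul_inv_cancel₀ (Real.rpow_pos_of_pos (norm_pos_iff.2 hy) ((2 : ℝ) ^ (-S.ht G))).ne', one_smul]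

end Setting

end Pool.Agent.P.MP_788ef7_an
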