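import Pool.Agent.P.MP_788ef7_an.Atl

set_option autoImplicit false
set_option linter.unusedSectionVars false

open Set Filter Topology Metric

namespace Pool.Agent.P.MP_788ef7_an

namespace Setting

variable {𝔾 X E : Type*} [Group 𝔾] [MetricSpace X] [MulAction 𝔾 X] [ProperSpace X]
  [NormedAddCommGroup E] [NormedSpace ℝ E] [FiniteDimensional ℝ E] {S : Setting 𝔾 X E}
  {g g' G G' γ c w : 𝔾} {p p' q x y z : X} {C : Subgroup 𝔾} {K : Set X} {R : ℝ}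
  {V U : Type*} [NormedAddCommGroup V] [NormedSpace ℝ V] [FiniteDimensional ℝ V]
  [NormedAddCommGroup U] [NormedSpace ℝ U] [FiniteDimensional ℝ U]
  {N : ℕ} {γ₀ : X → 𝔾} {L : X → (V × U) ≃L[ℝ] E} {κ : X → X → V × U} {τ : X → V × U → X} {ρ r : ℝ}

theorem Atl.κ_self (h : S.Atl N γ₀ L κ τ ρ r) (x : X) : κ x x = 0 := by
  rw [h.eq, sub_self, map_zero]

theorem Atl.inj (h : S.Atl N γ₀ L κ τ ρ r) {a b : X} (e : κ x a = κ x b) : a = b := by
  rw [← h.τκ x a, e, h.τκ]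

/-- Orbits staying in the charts along a pseudo-orbit: the difference lies in the stable cone. -/
theorem Atl.cone (h : S.Atl N γ₀ L κ τ ρ r) {x : ℕ → X} (hx : ∀ k, x k ∈ S.Λ)
    (hp : ∀ k, dist (S.t ^ N • x k) (x (k + 1)) ≤ ρ) {a b : X}
    (ha : ∀ k : ℕ, ‖κ (x k) ((S.t ^ N) ^ k • a)‖ ≤ r)
    (hb : ∀ k : ℕ, ‖κ (x k) ((S.t ^ N) ^ k • b)‖ ≤ r) (k : ℕ) :
    ‖κ (x k) ((S.t ^ N) ^ k • a) - κ (x k) ((S.t ^ N) ^ k • b)‖ =
      ‖(κ (x k) ((S.t ^ N) ^ k • a) - κ (x k) ((S.t ^ N) ^ k • b)).1‖ ∧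
    ‖κ (x k) ((S.t ^ N) ^ k • a) - κ (x k) ((S.t ^ N) ^ k • b)‖ ≤
      (3 / 8) ^ k * ‖κ (x 0) a - κ (x 0) b‖ := by
  have key := cone_seq (l2 := 1 / 4) (m2 := 4) (η := 1 / 8) (B := r + r) (by norm_num)
    (by norm_num) (by norm_num)
    (Δ := fun k => κ (x k) ((S.t ^ N) ^ k • a) - κ (x k) ((S.t ^ N) ^ k • b))
    (fun k => (norm_sub_le _ _).trans (add_le_add (ha k) (hb k))) fun k => by
      obtain ⟨As, Au, hA, he⟩ := h.hyp _ (hx k) _ (hx (k + 1)) (hp k)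
      refine ⟨As, Au, hA, ?_⟩
      simpa only [pow_succ' (S.t ^ N), mul_smul] using he _ _ (ha k) (hb k)
  refine ⟨(key k).1, ?_⟩
  induction k with
  | zero => simp
  | succ k ih =>
    have := (key k).2
    rw [pow_succ' (3 / 8 : ℝ), mul_assoc]
    linarith

theorem pseudo_shad (S : Setting 𝔾 X E) (n : ℕ) : ∀ η > 0, ∃ δ > 0, ∀ x : ℤ → X,
    (∀ m, x m ∈ S.Λ) → (∀ m, dist (S.t • x m) (x (m + 1)) ≤ δ) → ∀ i : ℕ, i ≤ n → ∀ m : ℤ,
      dist (S.t ^ i • x m) (x (m + i)) ≤ η := by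
  induction n with
  | zero =>
    intro η hη
    refine ⟨1, one_pos, fun x _ _ i hi m => ?_⟩
    obtain rfl : i = 0 := by omega
    simpa using hη.le
  | succ n ih =>
    intro η hη
    obtain ⟨δ₁, h₁, u⟩ := S.unif 1 0 (half_pos hη)
    obtain ⟨δ₂, h₂, ih⟩ := ih δ₁ h₁
    refine ⟨min δ₂ (η / 2), lt_min h₂ (half_pos hη), fun x hx hp i hi m => ?_⟩
    rcases i with _ | i
    · simpa using hη.le
    · have e1 := ih x hx (fun m => (hp m).trans (min_le_left _ _)) i (by omega) m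
      have e2 := u S.t (by simp [S.ht_t]) _ (hx (m + i)) _ _ (dist_self _).le e1
      have e3 := (hp (m + i)).trans (min_le_right _ _)
      have e4 := dist_triangle (S.t • S.t ^ i • x m) (S.t • x (m + i)) (x (m + i + 1))
      rw [pow_succ', mul_smul, Nat.cast_succ, ← add_assoc]
      linarith

theorem expansive (S : Setting 𝔾 X E) : ∃ ε₀ > 0, ∀ x ∈ S.Λ, ∀ y,
    (∀ n : ℤ, dist (S.t ^ n • y) (S.t ^ n • x) ≤ ε₀) → y = x := by
  obtain ⟨N, γ₀, L, κ, τ, ρ, r, h⟩ := S.exists_atl (V := Fin S.s → ℝ) (U := Fin S.u → ℝ)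
    (Module.finrank_fin_fun ℝ) (Module.finrank_fin_fun ℝ)
  obtain ⟨ε, hε, hs⟩ := h.small r h.r_pos
  refine ⟨ε, hε, fun x hx y hy => ?_⟩
  have e : ∀ (k j : ℕ) (z : X), (S.t ^ N) ^ k • ((S.t ^ N) ^ j)⁻¹ • z =
      S.t ^ ((N * k : ℕ) - (N * j : ℕ) : ℤ) • z := fun k j z => by
    rw [← mul_smul, zpow_sub, zpow_natCast, zpow_natCast, pow_mul, pow_mul]
  have key : ∀ j : ℕ, ‖κ x y - κ x x‖ ≤ (3 / 8) ^ j * r := fun j => by
    have hm : ∀ k : ℕ, (S.t ^ N) ^ k • ((S.t ^ N) ^ j)⁻¹ • x ∈ S.Λ := fun k =>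
      S.smul_mem _ _ (S.smul_mem _ _ hx)
    have ha : ∀ k : ℕ, ‖κ ((S.t ^ N) ^ k • ((S.t ^ N) ^ j)⁻¹ • x)
        ((S.t ^ N) ^ k • ((S.t ^ N) ^ j)⁻¹ • y)‖ ≤ r := fun k =>
      hs _ (hm k) _ (by rw [e, e]; exact hy _)
    have := (h.cone (x := fun k => (S.t ^ N) ^ k • ((S.t ^ N) ^ j)⁻¹ • x) hm
      (fun k => by simpa [pow_succ' (S.t ^ N), mul_smul] using h.ρ_pos.le)
      (b := ((S.t ^ N) ^ j)⁻¹ • x) ha (fun k => by simpa [h.κ_self] using h.r_pos.le) j).2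
    simp only [smul_inv_smul] at this
    refine this.trans (mul_le_mul_of_nonneg_left ?_ (by positivity))
    simpa [h.κ_self] using ha 0
  have lim : Tendsto (fun j : ℕ => (3 / 8 : ℝ) ^ j * r) atTop (𝓝 (0 * r)) :=
    (tendsto_pow_atTop_nhds_zero_of_lt_one (by norm_num) (by norm_num)).mul_const r
  have := ge_of_tendsto' lim key
  rw [zero_mul, norm_le_zero_iff, sub_eq_zero] at this
  exact h.inj this

theorem shadowing (S : Setting 𝔾 X E) {ε : ℝ} (hε : 0 < ε) : ∃ δ > 0, ∀ x : ℤ → X,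
    (∀ n, x n ∈ S.Λ) → (∀ n, dist (S.t • x n) (x (n + 1)) ≤ δ) →
      ∃ z ∈ S.Λ, ∀ n : ℤ, dist (S.t ^ n • z) (x n) ≤ ε := by
  obtain ⟨N, γ₀, L, κ, τ, ρ, r, h⟩ := S.exists_atl (V := Fin S.s → ℝ) (U := Fin S.u → ℝ)
    (Module.finrank_fin_fun ℝ) (Module.finrank_fin_fun ℝ)
  obtain ⟨ρ₁, hρ₁, u⟩ := S.unif N 0 (half_pos hε)
  obtain ⟨r₁, hr₁, hn⟩ := h.near ρ₁ hρ₁
  have hr' : 0 < min r r₁ := lt_min h.r_pos hr₁
  obtain ⟨ρ₂, hρ₂, hs⟩ := h.small ((1 - 3 / 8) * min r r₁) (by positivity)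
  obtain ⟨δ, hδ, hps⟩ := S.pseudo_shad N _ (lt_min (lt_min h.ρ_pos hρ₂) (half_pos hε))
  refine ⟨δ, hδ, fun x hx hp => ?_⟩
  have p1 : ∀ k : ℤ, dist (S.t ^ N • x (N * k)) (x (N * (k + 1))) ≤ min ρ ρ₂ := fun k => by
    rw [mul_add_one]
    exact (hps x hx hp N le_rfl _).trans (min_le_left _ _)
  choose As Au hA he using fun k : ℤ => h.hyp _ (hx _) _ (hx _) ((p1 k).trans (min_le_left _ _))
  obtain ⟨v, hv, hF⟩ := shadow (F := fun k v => κ (x (N * (k + 1))) (S.t ^ N • τ (x (N * k)) v))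
    (η := 1 / 8) (r := min r r₁) (q := 3 / 8) hA
    (fun k v w hv hw => by
      have e1 := h.κτ _ (hx (N * k)) v (hv.trans (min_le_left _ _))
      have e2 := h.κτ _ (hx (N * k)) w (hw.trans (min_le_left _ _))
      have := he k (τ _ v) (τ _ w) (by rw [e1]; exact hv.trans (min_le_left _ _))
        (by rw [e2]; exact hw.trans (min_le_left _ _))
      rwa [e1, e2] at this)
    (fun k => by
      rw [← h.κ_self (x (N * k)), h.τκ]
      exact hs _ (hx _) _ ((p1 k).trans (min_le_right _ _)))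
    (by norm_num) (by norm_num) (by norm_num) (by norm_num) (by norm_num) (by norm_num) le_rfl
  have st : ∀ k : ℤ, S.t ^ N • τ (x (N * k)) (v k) = τ (x (N * (k + 1))) (v (k + 1)) := fun k => by
    rw [← hF k, h.τκ]
  have orb : ∀ k : ℤ, S.t ^ (N * k) • τ (x (N * (0 : ℤ))) (v 0) = τ (x (N * k)) (v k) := fun k => by
    induction k using Int.induction_on with
    | zero => simp
    | succ k ih => rw [← st, ← ih, ← mul_smul, mul_add_one, add_comm, zpow_add, zpow_natCast]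
    | pred k ih =>
      have := st (-(k : ℤ) - 1)
      rw [sub_add_cancel, ← ih] at this
      rw [eq_inv_smul_iff.2 this, ← mul_smul, mul_sub_one, sub_eq_neg_add, zpow_add, zpow_neg,
        zpow_natCast]
  have fin : ∀ n : ℤ, dist (S.t ^ n • τ (x (N * (0 : ℤ))) (v 0)) (x n) ≤ ε := fun n => by
    have hN : (0 : ℤ) < N := by exact_mod_cast h.N_pos
    obtain ⟨i, hi⟩ := Int.eq_ofNat_of_zero_le (Int.emod_nonneg n hN.ne')
    have hi' : i ≤ N := by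
      have := Int.emod_lt_of_pos n hN
      omega
    have e : n = N * (n / N) + i := by rw [← hi, Int.mul_ediv_add_emod]
    generalize n / N = k at e
    subst e
    have e1 := (hps x hx hp i hi' (N * k)).trans (min_le_right _ _)
    have e2 := u (S.t ^ i) (by simpa [S.ht_pow, S.ht_t] using hi') _ (hx (N * k)) _ _
      (dist_self _).le (hn _ (hx (N * k)) _ ((hv k).trans (min_le_right _ _)))
    have e3 := dist_triangle (S.t ^ i • τ (x (N * k)) (v k)) (S.t ^ i • x (N * k)) (x (N * k + i))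
    rw [add_comm (N * k) (i : ℤ), zpow_add, mul_smul, orb, zpow_natCast, add_comm (i : ℤ)]
    linarith
  exact ⟨_, S.lm ε _ fun n => ⟨x n, hx n, fin n⟩, fin⟩

end Setting

end Pool.Agent.P.MP_788ef7_an
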