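import Pool.Agent.P.MP_788ef7_an.VG1
import Pool.Agent.P.MP_788ef7_an.Idx
import Pool.Agent.P.MP_788ef7_an.Model

set_option autoImplicit false
set_option linter.unusedSectionVars false

open Set Filter Topology Metric

namespace Pool.Agent.P.MP_788ef7_an

namespace Setting

variable {𝔾 X E : Type*} [Group 𝔾] [MetricSpace X] [MulAction 𝔾 X] [ProperSpace X]
  [NormedAddCommGroup E] [NormedSpace ℝ E] [FiniteDimensional ℝ E] {S : Setting 𝔾 X E}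
  {g g' G G' γ c w : 𝔾} {p p' q x y z : X} {C : Subgroup 𝔾} {K : Set X} {R : ℝ}
  {𝔊 : Type*} [Group 𝔊] [MulAction 𝔊 Circle] {Φ : Fuchs 𝔊} {pj : 𝔾 →* 𝔊} {pr : X → KD}
  {set : X → KD → X} {H : Subgroup 𝔊} {a₁ a₂ r₁ r₂ : Circle}
  {E₂ : Type*} [NormedAddCommGroup E₂] [NormedSpace ℝ E₂] {j : E ≃L[ℝ] ℂ × E₂} {O₂ : Set E₂}
  {a : 𝔾 → E₂ → E₂} {vec : E₂ → E₂ → E₂}
  {tr : 𝔾 → E₂}

/-- A lift that fixes the second coordinate. -/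
theorem exists_lift_slice1 (h : S.SF pr j O₂ (fun γ y => y + tr γ) fun y y' => y' - y)
    (hf : S.HF Φ pj pr set) (hs : ∀ γ, S.ht γ = 0 → ∃ ν, pj ν = 1 ∧ tr ν = tr γ) {u : 𝔊}
    (hu : Φ.ht u = 0) : ∃ γ, pj γ = u ∧ S.ht γ = 0 ∧ ∀ z, (j (S.e (γ • z))).2 = (j (S.e z)).2 := by
  obtain ⟨γ, rfl⟩ := hf.surj u
  rw [hf.ht_eq] at hu
  obtain ⟨ν, h1, h2⟩ := hs γ hu
  have h3 : S.ht ν = 0 := by rw [← hf.ht_eq, h1, Φ.ht_one]
  refine ⟨ν⁻¹ * γ, by rw [map_mul, map_inv, h1, inv_one, one_mul],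
    by rw [S.ht_mul, S.ht_inv, h3, hu]; rfl, fun z => ?_⟩
  have e1 := h.act ν ((ν⁻¹ * γ) • z) h3
  rw [mul_smul, smul_inv_smul, h.act γ z hu, h2] at e1
  rw [mul_smul]
  exact (add_right_cancel e1).symm

/-- A generic model field on the hyperbolic factor. -/
theorem slice_model (h : S.SF pr j O₂ (fun γ y => y + tr γ) fun y y' => y' - y)
    (hf : S.HF Φ pj pr set) (hs : ∀ γ, S.ht γ = 0 → ∃ ν, pj ν = 1 ∧ tr ν = tr γ)
    (hg : Stable (pj G)) : ∃ (Adm : ℂ → ℂ → Prop) (V : ℂ → ℂ) (K₁ : Set ℂ) (Z : Finset ℂ),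
      Cone (ball 0 1) (fun b : Φ.Cen (pj G) => kact (Φ.L b)) Adm ∧
      (∀ b : ℕ, 1 ≤ b → ∀ C₀, ∃ R, ∀ x y : KD, Φ.Step (pj G ^ b) C₀ x y → ∀ u, Adm x.val u →
        ∀ s ∈ Icc (0 : ℝ) 1, (1 - s) • vec1 x.val y.val + s • u = 0 →
          Φ.Near (Φ.Cen (pj G)) R x) ∧
      Eqv (ball 0 1) (fun b : Φ.Cen (pj G) => kact (Φ.L b)) V ∧ Gen (ball 0 1) V ∧
      IsCompact K₁ ∧ K₁ ⊆ ball 0 1 ∧
      Avoid (ball 0 1) (fun b : Φ.Cen (pj G) => kact (Φ.L b)) Adm K₁ V ∧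
      IsRep (ball 0 1) (fun b : Φ.Cen (pj G) => kact (Φ.L b)) V Z := by
  obtain ⟨Adm, hA, hM⟩ := Fuchs.model (Φ := Φ) hg
  obtain ⟨z₀, -⟩ := S.nonempty
  have hy := h.snd_mem z₀
  generalize (j (S.e z₀)).2 = y₀ at hy
  have h0 : ∀ b ∈ Φ.Cen (pj G), Φ.ht b = 0 := fun b hb => hb.1
  have hd := Φ.dact h0
  have key : ∀ z, (j (S.e z)).2 = y₀ →
      (j (S.A G (j.symm ((pr z).val, y₀)))).1 = (pr (G • z)).val := fun z hz => by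
    have e : j.symm ((pr z).val, y₀) = S.e z := by
      rw [j.symm_apply_eq]
      exact Prod.ext (h.fst z).symm hz.symm
    rw [e, S.A_e, h.fst]
  have hc : ContDiffOn ℝ 1 (fun ζ => vec1 ζ (j (S.A G (j.symm (ζ, y₀)))).1) (ball 0 1) := by
    have c1 : ContDiffOn ℝ 1 (fun ζ : ℂ => S.A G (j.symm (ζ, y₀))) (ball 0 1) := by
      refine (S.c1 G).comp (j.symm.contDiff.comp (contDiff_id.prodMk contDiff_const)).contDiffOn
        fun ζ hζ => ?_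
      rw [h.range_eq]
      show j (j.symm (ζ, y₀)) ∈ ball (0 : ℂ) 1 ×ˢ O₂
      rw [j.apply_symm_apply]
      exact ⟨hζ, hy⟩
    refine contDiffOn_vec1.comp (f := fun ζ => (ζ, (j (S.A G (j.symm (ζ, y₀)))).1))
      (contDiffOn_id.prodMk ((contDiff_fst.comp j.contDiff).comp_contDiffOn c1)) fun ζ hζ => ⟨hζ, ?_⟩
    obtain ⟨z, h1, h2⟩ := h.exists_pt ⟨ζ, mem_ball_zero_iff.1 hζ⟩ hy
    have := key z h2
    rw [h1] at this
    show (j (S.A G (j.symm (ζ, y₀)))).1 ∈ _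
    rw [this]
    exact mem_ball_zero_iff.2 (pr _).lt
  have he : Eqv (ball 0 1) (fun b : Φ.Cen (pj G) => kact (Φ.L b))
      fun ζ => vec1 ζ (j (S.A G (j.symm (ζ, y₀)))).1 := by
    rintro ⟨u, hu⟩ ζ hζ
    obtain ⟨z, h1, h2⟩ := h.exists_pt ⟨ζ, mem_ball_zero_iff.1 hζ⟩ hy
    obtain rfl : (pr z).val = ζ := by rw [h1]
    obtain ⟨γ, rfl, g1, g2⟩ := exists_lift_slice1 h hf hs hu.1
    have e1 := key (γ • z) ((g2 z).trans h2)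
    have e2 : pr (G • γ • z) = Φ.mv (pj γ) (pr (G • z)) := by
      rw [← hf.eqv γ _ g1, ← mul_smul, ← mul_smul]
      exact hf.pr_eq (by rw [map_mul, map_mul, hu.2]) z
    rw [hf.eqv γ z g1, e2] at e1
    show vec1 (Φ.mv (pj γ) (pr z)).val (j (S.A G (j.symm ((Φ.mv (pj γ) (pr z)).val, y₀)))).1 =
      fderiv ℝ (kact (Φ.L (pj γ))) (pr z).val
        (vec1 (pr z).val (j (S.A G (j.symm ((pr z).val, y₀)))).1)
    rw [e1, key z h2]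
    exact (Φ.lor _).vec1_eqv (pr z).lt (pr _).lt.le
  obtain ⟨C₀, hC⟩ := hf.step G
  obtain ⟨R, hR⟩ := hM 1 le_rfl C₀
  rw [pow_one] at hR
  obtain ⟨K, hK, hKO, hK'⟩ := Φ.orb_near h0 R
  have ha : Avoid (ball 0 1) (fun b : Φ.Cen (pj G) => kact (Φ.L b)) Adm K
      fun ζ => vec1 ζ (j (S.A G (j.symm (ζ, y₀)))).1 := by
    intro ζ hζ hn w hw s hs e
    obtain ⟨z, h1, h2⟩ := h.exists_pt ⟨ζ, mem_ball_zero_iff.1 hζ⟩ hy
    obtain rfl : (pr z).val = ζ := by rw [h1]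
    simp only [key z h2] at e
    exact hn (hK' _ (hR _ _ (hC z) w hw s hs e))
  obtain ⟨V, K₁, k1, k2, k3, v1, v2, v3⟩ := hd.perturb he hc hK hKO
    fun x hx e => ha.zero_mem hA hx e
  have ha' : Avoid (ball 0 1) (fun b : Φ.Cen (pj G) => kact (Φ.L b)) Adm K₁ V := by
    intro ζ hζ hn w hw s hs
    rw [v3 ζ hζ hn]
    exact ha ζ hζ (fun ⟨c, k, hk, e⟩ => hn ⟨c, k, k3 hk, e⟩) w hw s hs
  obtain ⟨Z, hZ⟩ := hd.exists_rep v1 v2 k1 k2 fun x hx e => ha'.zero_mem hA hx e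
  exact ⟨Adm, V, K₁, Z, hA, hM, v1, v2, k1, k2, ha', hZ⟩

theorem bump_slice1 {H₁ : Subgroup 𝔊} (hH : ∀ b ∈ H₁, Φ.ht b = 0) (x : KD) {r : ℝ} (hr : 0 < r) :
    ∃ θ : ℂ → ℝ, ContDiffOn ℝ 1 θ (ball 0 1) ∧ (∀ w, θ w ∈ Icc (0 : ℝ) 1) ∧ θ x.val = 1 ∧
      (∀ b ∈ H₁, ∀ w : KD, θ (Φ.mv b w).val = θ w.val) ∧
      ∀ w : KD, θ w.val ≠ 0 → ∃ b ∈ H₁, dist (Φ.mv b w) x < r := by
  have hd := Φ.dact hH
  obtain ⟨L, L', χ, -, hL', h1, -, h3, hχ, h0, hone, hz⟩ := exists_bump_push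
    (isCompact_singleton (x := x.val)) (KD.isOpenEmbedding_val.isOpenMap _ isOpen_ball)
    (singleton_subset_iff.2 ⟨x, mem_ball_self hr, rfl⟩)
  have hb : ∀ w : KD, w.val ∈ ball (0 : ℂ) 1 := fun w => mem_ball_zero_iff.2 w.lt
  obtain ⟨θ, t1, t2, t3, t4, -⟩ := hd.push_fun hL' (fun y hy => by
    obtain ⟨w, -, rfl⟩ := h3 hy
    exact hb w) hχ.contDiffOn h0 fun y _ => hz y
  refine ⟨fun w => Real.smoothTransition (θ w), Real.smoothTransition.contDiff.comp_contDiffOn t1,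
    fun w => ⟨Real.smoothTransition.nonneg _, Real.smoothTransition.le_one _⟩,
    Real.smoothTransition.one_of_one_le ((hone _ (h1 rfl)).ge.trans (t3 _ (hb x))),
    fun b hb' w => congrArg Real.smoothTransition (t2 ⟨b, hb'⟩ _ (hb w)), fun w hw => ?_⟩
  obtain ⟨c, hc⟩ := t4 _ (hb w) fun e => hw (by simp only [e, Real.smoothTransition.zero])
  obtain ⟨w', hw', e⟩ := h3 (not_not.1 fun h' => hc (hz _ h'))
  obtain rfl : w' = Φ.mv c w := KD.ext e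
  exact ⟨c, c.2, hw'⟩

/-- An equivariant interpolation of vectors given at finitely many orbits of a discrete set. -/
theorem slice_bump {H₁ : Subgroup 𝔊} (hH : ∀ b ∈ H₁, Φ.ht b = 0) {D : Set KD}
    (hD : ∀ x ∈ D, ∀ᶠ x' in 𝓝 x, x' ∈ D → x' = x) (hi : ∀ b ∈ H₁, ∀ x ∈ D, Φ.mv b x ∈ D)
    {Z : Finset KD} (hZ : ∀ x ∈ Z, x ∈ D)
    (hZ' : ∀ x ∈ Z, ∀ b ∈ H₁, Φ.mv b x ∈ Z → Φ.mv b x = x) {β : ℝ} (hβ : 0 ≤ β) {τ : KD → E₂}
    (hτ : ∀ x ∈ Z, ‖τ x‖ ≤ β) : ∃ P : ℂ → E₂, ContDiffOn ℝ 1 P (ball 0 1) ∧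
      (∀ x : KD, ‖P x.val‖ ≤ β) ∧ (∀ b ∈ H₁, ∀ x : KD, P (Φ.mv b x).val = P x.val) ∧
      (∀ x ∈ Z, P x.val = τ x) ∧
      ∀ x ∈ D, (∀ b ∈ H₁, Φ.mv b x ∉ Z) → P x.val = 0 := by
  have h1 : ∀ᶠ r in 𝓝[>] (0 : ℝ), ∀ x ∈ Z, ∀ x' ∈ D, dist x' x < r + r → x' = x := by
    refine (Z.eventually_all).2 fun x hx => ?_
    obtain ⟨ε, hε, h2⟩ := Metric.eventually_nhds_iff.1 (hD x (hZ x hx))
    filter_upwards [Ioo_mem_nhdsGT (half_pos hε)] with r hr x' hx' h3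
    exact h2 (by linarith [hr.2]) hx'
  obtain ⟨r, hr', hr⟩ := (h1.and self_mem_nhdsWithin).exists
  replace hr : 0 < r := hr
  choose θ t1 t2 t3 t4 t5 using fun x => bump_slice1 (Φ := Φ) hH x hr
  have uniq : ∀ w : KD, ∀ x ∈ Z, ∀ x' ∈ Z, θ x w.val ≠ 0 → θ x' w.val ≠ 0 → x' = x := by
    intro w x hx x' hx' e e'
    obtain ⟨b, hb, d⟩ := t5 x w e
    obtain ⟨b', hb', d'⟩ := t5 x' w e'
    have hm := H₁.mul_mem hb' (H₁.inv_mem hb)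
    have e1 : Φ.mv (b' * b⁻¹) x = x' := by
      refine hr' x' hx' _ (hi _ hm x (hZ x hx)) ?_
      refine (dist_triangle _ (Φ.mv b' w) _).trans_lt (add_lt_add ?_ d')
      rw [Φ.mv_mul (hH _ hb'), Φ.dist_mv, ← Φ.dist_mv b, Φ.mv_mv_inv (hH _ hb), dist_comm]
      exact d
    rw [← e1]
    exact hZ' x hx _ hm (e1 ▸ hx')
  have single : ∀ w : KD, ∀ x ∈ Z, θ x w.val ≠ 0 →
      ∑ x ∈ Z, θ x w.val • τ x = θ x w.val • τ x := fun w x hx e =>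
    Finset.sum_eq_single_of_mem x hx fun x' hx' hne => by
      rw [not_not.1 fun e' => hne (uniq w x hx x' hx' e e'), zero_smul]
  have zero : ∀ w : KD, (∀ x ∈ Z, θ x w.val = 0) → ∑ x ∈ Z, θ x w.val • τ x = 0 := fun w e =>
    Finset.sum_eq_zero fun x hx => by rw [e x hx, zero_smul]
  refine ⟨fun w => ∑ x ∈ Z, θ x w • τ x, ContDiffOn.sum fun x _ => (t1 x).smul contDiffOn_const,
    fun w => ?_, fun b hb w => Finset.sum_congr rfl fun x _ => by rw [t4 x b hb],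
    fun x hx => ?_, fun w hw hn => zero w fun x hx => not_not.1 fun e => ?_⟩
  · show ‖∑ x ∈ Z, θ x w.val • τ x‖ ≤ β
    by_cases e : ∀ x ∈ Z, θ x w.val = 0
    · rw [zero w e, norm_zero]
      exact hβ
    · push Not at e
      obtain ⟨x, hx, e⟩ := e
      rw [single w x hx e, norm_smul, Real.norm_of_nonneg (t2 x _).1]
      exact (mul_le_of_le_one_left (norm_nonneg _) (t2 x _).2).trans (hτ x hx)
  · show ∑ x' ∈ Z, θ x' x.val • τ x' = τ x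
    rw [single x x hx (by rw [t3]; exact one_ne_zero), t3, one_smul]
  · obtain ⟨b, hb, d⟩ := t5 x w e
    have := hr' x hx _ (hi b hb w hw) (by linarith)
    exact hn b hb (this ▸ hx)

theorem sgn_triangular {E₁ : Type*} [NormedAddCommGroup E₁] [NormedSpace ℝ E₁]
    [FiniteDimensional ℝ E₁] [FiniteDimensional ℝ E₂] (j : E ≃L[ℝ] E₁ × E₂) {D : E →L[ℝ] E}
    {D₁ : E₁ →L[ℝ] E₁} {D₂ : E₂ →L[ℝ] E₂} (h₁ : ∀ v, (j (D v)).1 = D₁ (j v).1)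
    (h₂ : ∀ v, (j v).1 = 0 → (j (D v)).2 = D₂ (j v).2) : D.det = D₁.det * D₂.det := by
  classical
  let b₁ := Module.finBasis ℝ E₁
  let b₂ := Module.finBasis ℝ E₂
  let D' : E₁ × E₂ →ₗ[ℝ] E₁ × E₂ :=
    (j.toLinearEquiv : E →ₗ[ℝ] E₁ × E₂) ∘ₗ (D : E →ₗ[ℝ] E) ∘ₗ
      (j.toLinearEquiv.symm : E₁ × E₂ →ₗ[ℝ] E)
  have e0 : D.det = LinearMap.det D' := (LinearMap.det_conj (D : E →ₗ[ℝ] E) j.toLinearEquiv).symm
  have f1 : ∀ v, (D' v).1 = D₁ v.1 := fun v => by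
    have := h₁ (j.symm v)
    rwa [j.apply_symm_apply] at this
  have f2 : ∀ v, (D' (0, v)).2 = D₂ v := fun v => by
    have := h₂ (j.symm (0, v)) (by rw [j.apply_symm_apply])
    rwa [j.apply_symm_apply] at this
  have e1 : LinearMap.toMatrix (b₁.prod b₂) (b₁.prod b₂) D' = Matrix.fromBlocks
      (LinearMap.toMatrix b₁ b₁ (D₁ : E₁ →ₗ[ℝ] E₁)) 0
      (LinearMap.toMatrix b₁ b₂ (LinearMap.snd ℝ E₁ E₂ ∘ₗ D' ∘ₗ LinearMap.inl ℝ E₁ E₂))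
      (LinearMap.toMatrix b₂ b₂ (D₂ : E₂ →ₗ[ℝ] E₂)) := by
    ext (i | i) (k | k) <;> simp [LinearMap.toMatrix_apply, f1, f2]
  rw [e0, ← LinearMap.det_toMatrix (b₁.prod b₂), e1, Matrix.det_fromBlocks_zero₁₂,
    LinearMap.det_toMatrix, LinearMap.det_toMatrix]

end Setting

end Pool.Agent.P.MP_788ef7_an
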