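import Pool.Agent.P.MP_788ef7_an.HF1
import Pool.Agent.P.MP_788ef7_an.Sign

set_option autoImplicit false
set_option linter.unusedSectionVars false

open Set Filter Topology Metric

namespace Pool.Agent.P.MP_788ef7_an

namespace Setting

variable {𝔾 X E : Type*} [Group 𝔾] [MetricSpace X] [MulAction 𝔾 X] [ProperSpace X]
  [NormedAddCommGroup E] [NormedSpace ℝ E] [FiniteDimensional ℝ E] {S : Setting 𝔾 X E}
  {g g' G G' γ c w : 𝔾} {p p' q x y z : X} {C : Subgroup 𝔾} {K : Set X} {R : ℝ}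
  {𝔊 : Type*} [Group 𝔊] [MulAction 𝔊 Circle] {Φ : Fuchs 𝔊} {pj : 𝔾 →* 𝔊} {pr : X → KD}
  {set : X → KD → X} {H : Subgroup 𝔊} {a₁ a₂ r₁ r₂ : Circle}
  {E₂ : Type*} [NormedAddCommGroup E₂] [NormedSpace ℝ E₂] {j : E ≃L[ℝ] ℂ × E₂} {O₂ : Set E₂}
  {a : 𝔾 → E₂ → E₂} {vec : E₂ → E₂ → E₂}

theorem SF.snd_mem (h : S.SF pr j O₂ a vec) (z : X) : (j (S.e z)).2 ∈ O₂ := by
  have : S.e z ∈ j ⁻¹' (ball 0 1 ×ˢ O₂) := h.range_eq ▸ mem_range_self z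
  exact this.2

theorem SF.ext (h : S.SF pr j O₂ a vec) {z z' : X} (h₁ : pr z = pr z')
    (h₂ : (j (S.e z)).2 = (j (S.e z')).2) : z = z' :=
  S.emb.injective (j.injective (Prod.ext (by rw [h.fst, h.fst, h₁]) h₂))

theorem SF.exists_pt (h : S.SF pr j O₂ a vec) (x : KD) {y : E₂} (hy : y ∈ O₂) :
    ∃ z, pr z = x ∧ (j (S.e z)).2 = y := by
  have : j.symm (x.val, y) ∈ range S.e := by
    rw [h.range_eq, mem_preimage, j.apply_symm_apply]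
    exact ⟨mem_ball_zero_iff.2 x.lt, hy⟩
  obtain ⟨z, hz⟩ := this
  refine ⟨z, KD.ext ?_, by rw [hz, j.apply_symm_apply]⟩
  rw [← h.fst, hz, j.apply_symm_apply]

theorem SF.compact (h : S.SF pr j O₂ a vec) (R : ℝ) {K₂ : Set E₂} (hK : IsCompact K₂)
    (hO : K₂ ⊆ O₂) : IsCompact {z | dist (pr z) KD.o ≤ R ∧ (j (S.e z)).2 ∈ K₂} := by
  have h1 : IsCompact (j ⁻¹' ((KD.val '' closedBall KD.o R) ×ˢ K₂)) :=
    j.toHomeomorph.isCompact_preimage.2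
      (((isCompact_closedBall KD.o R).image KD.continuous_val).prod hK)
  have h2 : j ⁻¹' ((KD.val '' closedBall KD.o R) ×ˢ K₂) ⊆ range S.e := by
    rw [h.range_eq]
    refine preimage_mono (prod_mono ?_ hO)
    rintro _ ⟨x, -, rfl⟩
    exact mem_ball_zero_iff.2 x.lt
  have h3 := S.isCompact_preimage h1 h2
  have e : {z | dist (pr z) KD.o ≤ R ∧ (j (S.e z)).2 ∈ K₂} =
      S.e ⁻¹' (j ⁻¹' ((KD.val '' closedBall KD.o R) ×ˢ K₂)) := by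
    ext z
    simp only [mem_ofPred_eq, mem_preimage, mem_prod, h.fst]
    refine and_congr_left' ⟨fun hz => ⟨pr z, hz, rfl⟩, ?_⟩
    rintro ⟨x, hx, e⟩
    rw [← KD.ext e]
    exact hx
  rw [e]
  exact h3

theorem SF.inv (h : S.SF pr j O₂ a vec) : S.inv.SF pr j O₂ a vec :=
  ⟨h.fst, h.range_eq, h.isOpen, fun γ z e => h.act γ z (neg_eq_zero.1 e),
    fun γ e => h.diff γ (neg_eq_zero.1 e), h.c1, h.zero, fun γ e => h.eqv γ (neg_eq_zero.1 e),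
    h.diag, h.dist_le⟩

theorem SF.vG_e (h : S.SF pr j O₂ a vec) (G : 𝔾) (z : X) : j (S.vG j vec G (S.e z)) =
    (vec1 (pr z).val (pr (G • z)).val, vec (j (S.e z)).2 (j (S.e (G • z))).2) := by
  rw [vG, j.apply_symm_apply, S.A_e, h.fst, h.fst]

theorem SF.vG_zero (h : S.SF pr j O₂ a vec) : S.vG j vec G (S.e z) = 0 ↔ G • z = z := by
  rw [← j.map_eq_zero_iff, h.vG_e, Prod.mk_eq_zero, vec1_eq_zero (pr z).lt (pr (G • z)).lt.le,
    h.zero _ (h.snd_mem z) _ (h.snd_mem _)]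
  exact ⟨fun e => (h.ext (KD.ext e.1) e.2).symm, fun e => by rw [e]; exact ⟨rfl, rfl⟩⟩

theorem SF.vG_c1 (h : S.SF pr j O₂ a vec) (G : 𝔾) : ContDiffOn ℝ 1 (S.vG j vec G) (range S.e) := by
  have c0 : ContDiffOn ℝ 1 (fun ζ => j ζ) (range S.e) := j.contDiff.contDiffOn
  have c1 : ContDiffOn ℝ 1 (fun ζ => j (S.A G ζ)) (range S.e) :=
    j.contDiff.comp_contDiffOn (S.c1 G)
  have m1 : MapsTo (fun ζ => ((j ζ).1, (j (S.A G ζ)).1)) (range S.e) (ball 0 1 ×ˢ ball 0 1) := by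
    rintro _ ⟨z, rfl⟩
    simp only [mem_prod, S.A_e, h.fst]
    exact ⟨mem_ball_zero_iff.2 (pr z).lt, mem_ball_zero_iff.2 (pr _).lt⟩
  have m2 : MapsTo (fun ζ => ((j ζ).2, (j (S.A G ζ)).2)) (range S.e) (O₂ ×ˢ O₂) := by
    rintro _ ⟨z, rfl⟩
    simp only [mem_prod, S.A_e]
    exact ⟨h.snd_mem z, h.snd_mem _⟩
  have d1 := contDiffOn_vec1.comp (c0.fst.prodMk c1.fst) m1
  have d2 := h.c1.comp (c0.snd.prodMk c1.snd) m2
  exact j.symm.contDiff.comp_contDiffOn (d1.prodMk d2)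

theorem SF.vG_fderiv (h : S.SF pr j O₂ a vec) (hp : G • p = p) :
    fderiv ℝ (S.vG j vec G) (S.e p) = S.D G p - 1 := by
  have c0 : HasFDerivAt (fun ζ => j ζ) (j : E →L[ℝ] ℂ × E₂) (S.e p) := j.hasFDerivAt
  have c1 : HasFDerivAt (fun ζ => j (S.A G ζ)) ((j : E →L[ℝ] ℂ × E₂).comp (S.D G p)) (S.e p) :=
    j.hasFDerivAt.comp _ (S.hasFDerivAt_A G p)
  have e : S.A G (S.e p) = S.e p := by rw [S.A_e, hp]
  have v1 : HasFDerivAt (fun p : ℂ × ℂ => vec1 p.1 p.2)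
      (ContinuousLinearMap.snd ℝ ℂ ℂ - ContinuousLinearMap.fst ℝ ℂ ℂ)
      ((j (S.e p)).1, (j (S.A G (S.e p))).1) := by
    rw [e, h.fst]
    exact vec1_diag (pr p).lt
  have v2 : HasFDerivAt (fun p : E₂ × E₂ => vec p.1 p.2)
      (ContinuousLinearMap.snd ℝ E₂ E₂ - ContinuousLinearMap.fst ℝ E₂ E₂)
      ((j (S.e p)).2, (j (S.A G (S.e p))).2) := by
    rw [e]
    exact h.diag _ (h.snd_mem p)
  have d1 := v1.comp (S.e p) (c0.fst.prodMk c1.fst)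
  have d2 := v2.comp (S.e p) (c0.snd.prodMk c1.snd)
  have d := j.symm.hasFDerivAt.comp (S.e p) (d1.prodMk d2)
  refine d.fderiv.trans ?_
  ext v
  apply j.injective
  simp [Prod.ext_iff]

theorem SF.vG_gen (h : S.SF pr j O₂ a vec) (hG : 0 < S.ht G) :
    Gen (range S.e) (S.vG j vec G) := by
  refine ⟨h.vG_c1 G, ?_⟩
  rintro _ ⟨z, rfl⟩ hz
  obtain ⟨σ, hσ⟩ := S.sign_fix hG
  rw [h.vG_fderiv (h.vG_zero.1 hz)]
  exact (hσ z (h.vG_zero.1 hz)).1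

theorem SF.D_prod (h : S.SF pr j O₂ a vec) (hf : S.HF Φ pj pr set) (hγ : S.ht γ = 0) (z : X)
    (v : E) : j (S.D γ z v) = (fderiv ℝ (kact (Φ.L (pj γ))) (pr z).val (j v).1,
      fderiv ℝ (a γ) (j (S.e z)).2 (j v).2) := by
  have c0 : HasFDerivAt (fun ζ => j ζ) (j : E →L[ℝ] ℂ × E₂) (S.e z) := j.hasFDerivAt
  have k1 : HasFDerivAt (kact (Φ.L (pj γ))) (fderiv ℝ (kact (Φ.L (pj γ))) (pr z).val)
      (j (S.e z)).1 := by
    rw [h.fst]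
    exact ((((Φ.lor (pj γ)).contDiffOn_kact.differentiableOn (by simp)).differentiableAt
      (isOpen_ball.mem_nhds (mem_ball_zero_iff.2 (pr z).lt)))).hasFDerivAt
  have k2 : HasFDerivAt (a γ) (fderiv ℝ (a γ) (j (S.e z)).2) (j (S.e z)).2 :=
    ((h.diff γ hγ).differentiableAt (h.isOpen.mem_nhds (h.snd_mem z))).hasFDerivAt
  have d := (k1.comp (S.e z) c0.fst).prodMk (k2.comp (S.e z) c0.snd)
  have d' : HasFDerivAt (fun ζ => j (S.A γ ζ)) ((j : E →L[ℝ] ℂ × E₂).comp (S.D γ z)) (S.e z) :=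
    j.hasFDerivAt.comp _ (S.hasFDerivAt_A γ z)
  have e : (fun ζ => j (S.A γ ζ)) =ᶠ[𝓝 (S.e z)]
      fun ζ => (kact (Φ.L (pj γ)) (j ζ).1, a γ (j ζ).2) := by
    filter_upwards [S.emb.isOpen_range.mem_nhds (mem_range_self z)]
    rintro _ ⟨y, rfl⟩
    rw [S.A_e]
    refine Prod.ext ?_ (h.act γ y hγ)
    rw [h.fst, hf.eqv γ y hγ, h.fst]
    rfl
  exact DFunLike.congr_fun (d'.unique (d.congr_of_eventuallyEq e)) v

theorem SF.vG_eqv (h : S.SF pr j O₂ a vec) (hf : S.HF Φ pj pr set) (hC : C ≤ S.Cen G) :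
    Eqv (range S.e) (fun c : C => S.A c) (S.vG j vec G) := by
  rintro ⟨c, hc⟩ _ ⟨z, rfl⟩
  have h0 : S.ht c = 0 := (hC hc).1
  have h1 : G • c • z = c • G • z := by rw [smul_smul, smul_smul, (hC hc).2]
  apply j.injective
  change j (S.vG j vec G (S.A c (S.e z))) = j (S.D c z (S.vG j vec G (S.e z)))
  rw [S.A_e, h.D_prod hf h0, h.vG_e, h.vG_e, h1, hf.eqv c _ h0, hf.eqv c _ h0, h.act c _ h0,
    h.act c _ h0, h.eqv c h0 _ (h.snd_mem _) _ (h.snd_mem _)]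
  exact Prod.ext ((Φ.lor (pj c)).vec1_eqv (pr z).lt (pr _).lt.le) rfl

end Setting

end Pool.Agent.P.MP_788ef7_an
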