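import Pool.Agent.P.MP_788ef7_an.TLin
import Pool.Agent.P.MP_788ef7_an.VG1
import Pool.Agent.P.MP_788ef7_an.CDefs

set_option autoImplicit false
set_option linter.unusedSectionVars false

open Set Filter Topology Metric

namespace Pool.Agent.P.MP_788ef7_an

namespace Setting

variable {𝔾 X E : Type*} [Group 𝔾] [MetricSpace X] [MulAction 𝔾 X] [ProperSpace X]
  [NormedAddCommGroup E] [NormedSpace ℝ E] [FiniteDimensional ℝ E] {S : Setting 𝔾 X E}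
  {g g' G G' γ c w : 𝔾} {p p' q x y z : X} {C : Subgroup 𝔾} {K : Set X} {R : ℝ}
  {𝔊 : Type*} [Group 𝔊] [MulAction 𝔊 Circle] {Φ : Fuchs 𝔊} {pj : 𝔾 →* 𝔊} {pr : X → KD}
  {set : X → KD → X} {H : Subgroup 𝔊} {a₁ a₂ r₁ r₂ : Circle}
  {j : E ≃L[ℝ] ℂ × ℂ} {tr : 𝔾 → ℂ} {B : ℂ ≃L[ℝ] ℂ} {τ : ℤ} {ν : 𝔾}

theorem TT.ht0_tbasic (h : S.TT Φ pj pr set j tr B τ) (hν : pj ν = 1) : S.ht ν = 0 := by
  rw [← h.hf.ht_eq, hν, Φ.ht_one]

theorem TT.act_tbasic (h : S.TT Φ pj pr set j tr B τ) (hγ : S.ht γ = 0) (z : X) :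
    (j (S.e (γ • z))).2 = (j (S.e z)).2 + tr γ := h.sf.act γ z hγ

theorem TT.conj_inv_tbasic (h : S.TT Φ pj pr set j tr B τ) (hν : pj ν = 1) :
    tr (S.t⁻¹ * ν * S.t⁻¹⁻¹) = B.symm (tr ν) := by
  have h1 := h.conj (S.t⁻¹ * ν * S.t⁻¹⁻¹) (by simp [hν])
  rw [show S.t * (S.t⁻¹ * ν * S.t⁻¹⁻¹) * S.t⁻¹ = ν by group] at h1
  rw [h1, B.symm_apply_apply]

theorem TT.inv (h : S.TT Φ pj pr set j tr B τ) : S.inv.TT Φ.inv pj pr set j tr B.symm τ :=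
  ⟨h.univ, h.hf.inv, h.sf.inv, h.snd_set, h.lip, h.dist_le,
    fun γ e => h.split γ (neg_eq_zero.1 e), h.cocpt, fun _ hν => h.conj_inv_tbasic hν,
    fun y => by rw [add_comm]; exact h.trace y,
    by rw [ContinuousLinearEquiv.det_coe_symm, h.det, inv_one], h.le⟩

theorem TT.tr_mul (h : S.TT Φ pj pr set j tr B τ) {γ' : 𝔾} (hγ : S.ht γ = 0) (hγ' : S.ht γ' = 0) :
    tr (γ * γ') = tr γ + tr γ' := by
  obtain ⟨z, -⟩ := S.nonempty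
  have h1 := h.act_tbasic (γ := γ * γ') (by rw [S.ht_mul, hγ, hγ', add_zero]) z
  rw [mul_smul, h.act_tbasic hγ, h.act_tbasic hγ'] at h1
  linear_combination -h1

theorem TT.tr_one (h : S.TT Φ pj pr set j tr B τ) : tr 1 = 0 := by
  have h1 := h.tr_mul S.ht_one S.ht_one
  rw [one_mul] at h1
  linear_combination -h1

theorem TT.tr_inv (h : S.TT Φ pj pr set j tr B τ) (hγ : S.ht γ = 0) : tr γ⁻¹ = -tr γ := by
  have h1 := h.tr_mul (γ' := γ⁻¹) hγ (by rw [S.ht_inv, hγ, neg_zero])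
  rw [mul_inv_cancel, h.tr_one] at h1
  linear_combination -h1

theorem TT.eq_one (h : S.TT Φ pj pr set j tr B τ) (hν : pj ν = 1) (h0 : tr ν = 0) : ν = 1 := by
  obtain ⟨z, -⟩ := S.nonempty
  refine S.free ν z (h.ht0_tbasic hν) (h.sf.ext (h.hf.pr_ker hν z) ?_)
  rw [h.act_tbasic (h.ht0_tbasic hν), h0, add_zero]

theorem TT.conj_zpow_tbasic (h : S.TT Φ pj pr set j tr B τ) (n : ℤ) :
    ∀ ν, pj ν = 1 → tr (S.t ^ n * ν * (S.t ^ n)⁻¹) = (B ^ n) (tr ν) := by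
  induction n using Int.induction_on with
  | zero => intro ν _; simp only [zpow_zero, one_mul, inv_one, mul_one]; rfl
  | succ n ih =>
    intro ν hν
    have h1 := ih (S.t * ν * S.t⁻¹) (by simp [hν])
    rw [h.conj ν hν] at h1
    rw [zpow_add_one B, zpow_add_one, show S.t ^ (n : ℤ) * S.t * ν * (S.t ^ (n : ℤ) * S.t)⁻¹ =
      S.t ^ (n : ℤ) * (S.t * ν * S.t⁻¹) * (S.t ^ (n : ℤ))⁻¹ by group, h1]
    rfl
  | pred n ih =>
    intro ν hν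
    have h1 := ih (S.t⁻¹ * ν * S.t⁻¹⁻¹) (by simp [hν])
    rw [h.conj_inv_tbasic hν] at h1
    rw [zpow_sub_one B, zpow_sub_one, show S.t ^ (-n : ℤ) * S.t⁻¹ * ν *
      (S.t ^ (-n : ℤ) * S.t⁻¹)⁻¹ =
      S.t ^ (-n : ℤ) * (S.t⁻¹ * ν * S.t⁻¹⁻¹) * (S.t ^ (-n : ℤ))⁻¹ by group, h1]
    rfl

theorem TT.tr_conj (h : S.TT Φ pj pr set j tr B τ) (G : 𝔾) (hν : pj ν = 1) :
    tr (G * ν * G⁻¹) = (B ^ S.ht G) (tr ν) := by
  have h0 : S.ht (G * (S.t ^ S.ht G)⁻¹) = 0 := by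
    rw [S.ht_mul, S.ht_inv, S.ht_t_sb2, add_neg_cancel]
  have h1 : S.ht (S.t ^ S.ht G * ν * (S.t ^ S.ht G)⁻¹) = 0 := by
    rw [S.ht_conj, h.ht0_tbasic hν]
  rw [← h.conj_zpow_tbasic _ ν hν, show G * ν * G⁻¹ = G * (S.t ^ S.ht G)⁻¹ *
    (S.t ^ S.ht G * ν * (S.t ^ S.ht G)⁻¹) * (G * (S.t ^ S.ht G)⁻¹)⁻¹ by group,
    h.tr_mul (by rw [S.ht_mul, h0, h1, add_zero]) (by rw [S.ht_inv, h0, neg_zero]),
    h.tr_mul h0 h1, h.tr_inv h0]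
  ring

theorem TT.finite (h : S.TT Φ pj pr set j tr B τ) (R : ℝ) :
    {ν | pj ν = 1 ∧ ‖tr ν‖ ≤ R}.Finite := by
  obtain ⟨z, -⟩ := S.nonempty
  refine (S.proper z R).subset fun ν hν => ⟨h.ht0_tbasic hν.1, ?_⟩
  refine (h.dist_le _ _ (h.hf.pr_ker hν.1 z)).trans ?_
  rw [h.act_tbasic (h.ht0_tbasic hν.1), add_sub_cancel_left]
  exact hν.2

theorem TT.affine (h : S.TT Φ pj pr set j tr B τ) (G : 𝔾) (R : ℝ) : ∃ M, ∀ z,
    dist (pr z) KD.o ≤ R → ‖(j (S.e (G • z))).2 - (B ^ S.ht G) (j (S.e z)).2‖ ≤ M := by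
  obtain ⟨R₀, hR⟩ := h.cocpt
  have hK := h.sf.compact R (isCompact_closedBall (0 : ℂ) R₀) (subset_univ _)
  have c1 := S.emb.continuous
  have c2 := S.cont_smul G
  have hc : Continuous fun z => (j (S.e (G • z))).2 - (B ^ S.ht G) (j (S.e z)).2 := by fun_prop
  obtain ⟨M, hM⟩ := hK.exists_bound_of_continuousOn hc.continuousOn
  refine ⟨M, fun z hz => ?_⟩
  obtain ⟨ν, hν, hd⟩ := hR (j (S.e z)).2
  have h0 := h.ht0_tbasic hν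
  have hν' : pj ν⁻¹ = 1 := by rw [map_inv, hν, inv_one]
  have e1 : (j (S.e (ν⁻¹ • z))).2 = (j (S.e z)).2 - tr ν := by
    rw [h.act_tbasic (h.ht0_tbasic hν'), h.tr_inv h0, sub_eq_add_neg]
  have h2 := hM (ν⁻¹ • z) ⟨by rwa [h.hf.pr_ker hν'], by rwa [mem_closedBall_zero_iff, e1]⟩
  have e2 : G • z = (G * ν * G⁻¹) • G • ν⁻¹ • z := by
    simp only [mul_smul, inv_smul_smul, smul_inv_smul]
  rw [e1, map_sub] at h2
  rw [e2, h.act_tbasic (by rw [S.ht_conj, h0]), h.tr_conj G hν]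
  refine le_of_eq_of_le (congrArg norm ?_) h2
  ring

theorem TT.dist_le' (h : S.TT Φ pj pr set j tr B τ) (z z' : X) :
    dist z z' ≤ dist (pr z) (pr z') + ‖(j (S.e z)).2 - (j (S.e z')).2‖ := by
  have h1 := h.sf.dist_le z (set z (pr z')) (h.snd_set _ _).symm
  have h2 := h.dist_le (set z (pr z')) z' (h.hf.pr_set _ _)
  rw [h.hf.pr_set] at h1
  rw [h.snd_set] at h2
  linarith [dist_triangle z (set z (pr z')) z']

theorem TT.exists_shift (h : S.TT Φ pj pr set j tr B τ) (v : ℂ) : ∃ ψ : ℝ → X → X,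
    Continuous (fun q : ℝ × X => ψ q.1 q.2) ∧ (∀ z, ψ 0 z = z) ∧ (∀ s z, pr (ψ s z) = pr z) ∧
      ∀ s z, (j (S.e (ψ s z))).2 = (j (S.e z)).2 + s • v := by
  choose ψ h1 h2 using fun (s : ℝ) (z : X) =>
    h.sf.exists_pt (pr z) (mem_univ ((j (S.e z)).2 + s • v))
  refine ⟨ψ, ?_, fun z => h.sf.ext (h1 _ _) (by rw [h2, zero_smul, add_zero]), h1, h2⟩
  rw [S.emb.isInducing.continuous_iff]
  have e : (S.e ∘ fun q : ℝ × X => ψ q.1 q.2) =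
      fun q => j.symm ((j (S.e q.2)).1, (j (S.e q.2)).2 + q.1 • v) := by
    funext q
    rw [Function.comp_apply, ContinuousLinearEquiv.eq_symm_apply]
    exact Prod.ext (by rw [h.sf.fst, h.sf.fst, h1]) (h2 _ _)
  have c1 := S.emb.continuous
  rw [e]
  fun_prop

/-- The lattice of translations. -/
def TT.lat_tbasic (h : S.TT Φ pj pr set j tr B τ) : AddSubgroup ℂ where
  carrier := {w | ∃ ν, pj ν = 1 ∧ tr ν = w}
  zero_mem' := ⟨1, map_one _, h.tr_one⟩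
  add_mem' := by
    rintro _ _ ⟨a, ha, rfl⟩ ⟨b, hb, rfl⟩
    exact ⟨a * b, by rw [map_mul, ha, hb, one_mul],
      h.tr_mul (h.ht0_tbasic ha) (h.ht0_tbasic hb)⟩
  neg_mem' := by
    rintro _ ⟨a, ha, rfl⟩
    exact ⟨a⁻¹, by rw [map_inv, ha, inv_one], h.tr_inv (h.ht0_tbasic ha)⟩

theorem TT.lat_conj_tbasic (h : S.TT Φ pj pr set j tr B τ) (G : 𝔾) {w : ℂ}
    (hw : w ∈ h.lat_tbasic) : (B ^ S.ht G) w ∈ h.lat_tbasic := by
  obtain ⟨ν, hν, rfl⟩ := hw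
  exact ⟨G * ν * G⁻¹, by simp [hν], h.tr_conj G hν⟩

/-- The cocycle measuring how far conjugation by `G` is from the linear map. -/
theorem TT.exists_rho_tbasic (h : S.TT Φ pj pr set j tr B τ) (G : 𝔾) : ∃ ρ : 𝔊 → ℂ,
    (∀ a b, Φ.ht a = 0 → Φ.ht b = 0 → ρ (a * b) = ρ a + ρ b) ∧
    (∀ γ, S.ht γ = 0 → ρ (pj γ) = tr (G * γ * G⁻¹) - (B ^ S.ht G) (tr γ)) ∧
    ∀ a, Φ.ht a = 0 → ρ a ∈ h.lat_tbasic := by
  let δ : 𝔾 → ℂ := fun γ => tr (G * γ * G⁻¹) - (B ^ S.ht G) (tr γ)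
  have add : ∀ γ γ', S.ht γ = 0 → S.ht γ' = 0 → δ (γ * γ') = δ γ + δ γ' := by
    intro γ γ' h1 h2
    simp only [δ]
    rw [show G * (γ * γ') * G⁻¹ = G * γ * G⁻¹ * (G * γ' * G⁻¹) by group,
      h.tr_mul (by rw [S.ht_conj, h1]) (by rw [S.ht_conj, h2]), h.tr_mul h1 h2, map_add]
    ring
  have eq : ∀ γ γ', S.ht γ = 0 → pj γ' = pj γ → δ γ' = δ γ := by
    intro γ γ' h1 h2
    have h3 : pj (γ⁻¹ * γ') = 1 := by rw [map_mul, map_inv, h2, inv_mul_cancel]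
    have h4 : δ (γ⁻¹ * γ') = 0 := sub_eq_zero.2 (h.tr_conj G h3)
    rw [← mul_inv_cancel_left γ γ', add _ _ h1 (h.ht0_tbasic h3), h4, add_zero]
  choose s hs using h.hf.surj
  have hs0 : ∀ a, Φ.ht a = 0 → S.ht (s a) = 0 := fun a ha => by rw [← h.hf.ht_eq, hs, ha]
  refine ⟨fun a => δ (s a), fun a b ha hb => ?_, fun γ hγ => eq _ _ hγ (hs _), fun a ha => ?_⟩
  · rw [← add _ _ (hs0 a ha) (hs0 b hb)]
    exact eq _ _ (by rw [S.ht_mul, hs0 a ha, hs0 b hb, add_zero]) (by rw [hs, map_mul, hs, hs])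
  · exact sub_mem (h.split _ (by rw [S.ht_conj, hs0 a ha]))
      (h.lat_conj_tbasic G (h.split _ (hs0 a ha)))

/-- An additive function with a multiple in the lattice is a translation part up to finite index. -/
theorem TT.fin_tbasic (h : S.TT Φ pj pr set j tr B τ) (hH : ∀ a ∈ H, Φ.ht a = 0) {θ : 𝔊 → ℂ}
    (hθ : ∀ a ∈ H, ∀ b ∈ H, θ (a * b) = θ a + θ b) {m : ℤ} (hm : m ≠ 0)
    (hl : ∀ a ∈ H, m • θ a ∈ h.lat_tbasic) :
    ∃ D : Set 𝔊, D.Finite ∧ (∀ d ∈ D, d ∈ H) ∧ ∀ a ∈ H, ∃ d ∈ D, ∃ c, pj c ∈ H ∧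
      tr c = θ (pj c) ∧ a = pj c * d := by
  obtain ⟨R₀, hR⟩ := h.cocpt
  choose ν hν hd using fun a => hR (θ a)
  have hW : ((fun a => θ a - tr (ν a)) '' (H : Set 𝔊)).Finite := by
    refine Finite.of_finite_image (f := fun w : ℂ => m • w)
      (((h.finite (‖m‖ * R₀)).image tr).subset ?_) (smul_right_injective ℂ hm).injOn
    rintro _ ⟨_, ⟨a, ha, rfl⟩, rfl⟩
    have h1 : m • (θ a - tr (ν a)) ∈ h.lat_tbasic := by
      rw [smul_sub]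
      exact sub_mem (hl a ha) (zsmul_mem (show tr (ν a) ∈ h.lat_tbasic from ⟨_, hν a, rfl⟩) m)
    obtain ⟨ν', h2, h3⟩ := h1
    refine ⟨ν', ⟨h2, ?_⟩, h3⟩
    rw [h3]
    exact (norm_zsmul_le _ _).trans (mul_le_mul_of_nonneg_left (hd a) (norm_nonneg _))
  choose! d hd1 hd2 using fun w (hw : w ∈ (fun a => θ a - tr (ν a)) '' (H : Set 𝔊)) => hw
  refine ⟨_, hW.image d, ?_, fun a ha => ?_⟩
  · rintro _ ⟨w, hw, rfl⟩
    exact hd1 w hw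
  · have hw : θ a - tr (ν a) ∈ (fun a => θ a - tr (ν a)) '' (H : Set 𝔊) := ⟨a, ha, rfl⟩
    have h1 := hd1 _ hw
    have h2 := hd2 _ hw
    refine ⟨_, ⟨_, hw, rfl⟩, ?_⟩
    generalize d (θ a - tr (ν a)) = b at h1 h2
    have hab : a * b⁻¹ ∈ H := H.mul_mem ha (H.inv_mem h1)
    obtain ⟨γ, hγ⟩ := h.hf.surj (a * b⁻¹)
    have h0 : S.ht γ = 0 := by rw [← h.hf.ht_eq, hγ, hH _ hab]
    have h3 : tr (ν a) - tr (ν b) - tr γ ∈ h.lat_tbasic :=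
      sub_mem (sub_mem ⟨_, hν a, rfl⟩ ⟨_, hν b, rfl⟩) (h.split γ h0)
    obtain ⟨ν', h4, h5⟩ := h3
    have h6 : pj (γ * ν') = a * b⁻¹ := by rw [map_mul, h4, hγ, mul_one]
    have h7 := hθ _ hab _ h1
    rw [inv_mul_cancel_right] at h7
    refine ⟨γ * ν', h6 ▸ hab, ?_, by rw [h6, inv_mul_cancel_right]⟩
    rw [h6, h.tr_mul h0 (h.ht0_tbasic h4), h5]
    simp only at h2
    linear_combination h2 + h7

/-- The invariant graph over a subgroup on which the action on homomorphisms is unipotent. -/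
theorem TT.graph (h : S.TT Φ pj pr set j tr B τ) (hτ : 2 < τ) (hG : S.ht G ≠ 0)
    (hH : ∀ a ∈ H, Φ.ht a = 0) (hn : ∀ a ∈ H, pj G * a * (pj G)⁻¹ ∈ H)
    (hu : ∀ θ : 𝔊 → ℂ, (∀ a ∈ H, ∀ b ∈ H, θ (a * b) = θ a + θ b) → ∀ a ∈ H,
      θ (pj G ^ 2 * a * (pj G ^ 2)⁻¹) - θ (pj G * a * (pj G)⁻¹) = θ (pj G * a * (pj G)⁻¹) - θ a) :
    ∃ θ : 𝔊 → ℂ, (∀ a ∈ H, ∀ b ∈ H, θ (a * b) = θ a + θ b) ∧
      (∀ γ, pj γ ∈ H → tr (G * γ * G⁻¹) - θ (pj (G * γ * G⁻¹)) =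
        (B ^ S.ht G) (tr γ - θ (pj γ))) ∧
      ∃ D : Set 𝔊, D.Finite ∧ (∀ d ∈ D, d ∈ H) ∧ ∀ a ∈ H, ∃ d ∈ D, ∃ c, pj c ∈ H ∧
        tr c = θ (pj c) ∧ a = pj c * d := by
  obtain ⟨ρ, ρ1, ρ2, ρ3⟩ := h.exists_rho_tbasic G
  obtain ⟨τ', hτ'⟩ := exists_trace_zpow h.trace (S.ht G)
  obtain ⟨μ, lu, ls, eu, es, he⟩ := exists_eig h.trace h.det (by exact_mod_cast hτ)
  have hk : 2 - τ' ≠ 0 := by
    intro h0
    have h1 := congrArg lu (hτ' eu)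
    have h2 : (τ' : ℝ) = 2 := by exact_mod_cast (sub_eq_zero.1 h0).symm
    have hp : 0 < μ := one_pos.trans he.one_lt
    have h3 : μ ^ S.ht G * μ ^ (-S.ht G) = 1 := by rw [← zpow_add₀ hp.ne', add_neg_cancel, zpow_zero]
    rw [map_add, he.lu_B, he.lu_B, map_smul, he.lu_eu, h2, smul_eq_mul] at h1
    have h4 : (μ ^ S.ht G - 1) ^ 2 = 0 := by
      linear_combination (μ ^ S.ht G) * h1 - h3
    exact hG ((zpow_eq_one_iff_right₀ hp.le he.one_lt.ne').1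
      (sub_eq_zero.1 (pow_eq_zero_iff two_ne_zero |>.1 h4)))
  have hk' : ((2 - τ' : ℤ) : ℝ) ≠ 0 := by exact_mod_cast hk
  let T : ℂ →L[ℝ] ℂ := 1 - (B ^ (-S.ht G) : ℂ ≃L[ℝ] ℂ)
  have T1 : ∀ y, T y = y - (B ^ (-S.ht G)) y := fun _ => rfl
  have T2 : ∀ y, T y - (B ^ S.ht G) (T y) = ((2 - τ' : ℤ) : ℝ) • y := by
    intro y
    have e : (B ^ S.ht G) ((B ^ (-S.ht G)) y) = y := by
      rw [zpow_neg]
      exact (B ^ S.ht G).apply_symm_apply y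
    rw [T1, map_sub, e, Int.cast_sub, sub_smul, ← hτ', Int.cast_ofNat, two_smul]
    ring
  have T3 : ∀ w ∈ h.lat_tbasic, T w ∈ h.lat_tbasic := fun w hw =>
    sub_mem hw (by rw [← S.ht_inv]; exact h.lat_conj_tbasic G⁻¹ hw)
  let Rr : ℂ →L[ℝ] ℂ := ((2 - τ' : ℤ) : ℝ)⁻¹ • T
  have R1 : ∀ y, (B ^ S.ht G) (Rr y) = Rr y - y := by
    intro y
    have e : Rr y - (B ^ S.ht G) (Rr y) = y := by
      show ((2 - τ' : ℤ) : ℝ)⁻¹ • T y - (B ^ S.ht G) (((2 - τ' : ℤ) : ℝ)⁻¹ • T y) = y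
      rw [map_smul, ← smul_sub, T2, inv_smul_smul₀ hk']
    linear_combination -e
  have R2 : ∀ y, (2 - τ') • Rr y = T y := by
    intro y
    rw [← Int.cast_smul_eq_zsmul ℝ]
    exact smul_inv_smul₀ hk' _
  have ρ4 : ∀ a ∈ H, ∀ b ∈ H, ρ (a * b) = ρ a + ρ b := fun a ha b hb =>
    ρ1 a b (hH a ha) (hH b hb)
  have add : ∀ a ∈ H, ∀ b ∈ H, Rr (ρ (a * b)) - Rr (Rr (ρ (pj G * (a * b) * (pj G)⁻¹) - ρ (a * b))) =
      (Rr (ρ a) - Rr (Rr (ρ (pj G * a * (pj G)⁻¹) - ρ a))) +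
        (Rr (ρ b) - Rr (Rr (ρ (pj G * b * (pj G)⁻¹) - ρ b))) := by
    intro a ha b hb
    rw [show pj G * (a * b) * (pj G)⁻¹ = pj G * a * (pj G)⁻¹ * (pj G * b * (pj G)⁻¹) by group,
      ρ4 _ (hn a ha) _ (hn b hb), ρ4 a ha b hb]
    simp only [map_add, map_sub]
    ring
  refine ⟨fun a => Rr (ρ a) - Rr (Rr (ρ (pj G * a * (pj G)⁻¹) - ρ a)), add, fun γ hγ => ?_,
    h.fin_tbasic hH (θ := fun a => Rr (ρ a) - Rr (Rr (ρ (pj G * a * (pj G)⁻¹) - ρ a))) add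
      (mul_ne_zero hk hk) fun a ha => ?_⟩
  · have h0 : S.ht γ = 0 := by rw [← h.hf.ht_eq, hH _ hγ]
    have h1 := hu ρ ρ4 _ hγ
    have h2 := ρ2 γ h0
    rw [show pj G ^ 2 * pj γ * (pj G ^ 2)⁻¹ = pj G * (pj G * pj γ * (pj G)⁻¹) * (pj G)⁻¹ by
      rw [pow_two]; group] at h1
    simp only [map_mul, map_inv]
    rw [h1, map_sub (B ^ S.ht G), map_sub (B ^ S.ht G), R1, R1, map_sub Rr (ρ _) (ρ _)]
    linear_combination -h2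
  · have e : ∀ y w : ℂ, ((2 - τ') * (2 - τ')) • (Rr y - Rr (Rr w)) = (2 - τ') • T y - T (T w) := by
      intro y w
      rw [mul_smul, smul_sub, R2, R2, smul_sub, ← map_zsmul T, ← map_zsmul T (2 - τ') (Rr w), R2]
    show ((2 - τ') * (2 - τ')) • (Rr _ - Rr (Rr _)) ∈ _
    rw [e]
    exact sub_mem (zsmul_mem (T3 _ (ρ3 a (hH a ha))) _)
      (T3 _ (T3 _ (sub_mem (ρ3 _ (hH _ (hn a ha))) (ρ3 a (hH a ha)))))

end Setting

end Pool.Agent.P.MP_788ef7_an
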