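import Pool.Agent.P.MP_788ef7_an.TFinA
import Pool.Agent.P.MP_788ef7_an.Model
import Pool.Agent.P.MP_788ef7_an.VG
import Pool.Agent.P.MP_788ef7_an.HFBasic

set_option autoImplicit false

open Set Filter Topology Metric

namespace Pool.Agent.P.MP_788ef7_an

namespace Setting

variable {𝔾 X E : Type*} [Group 𝔾] [MetricSpace X] [MulAction 𝔾 X] [ProperSpace X]
  [NormedAddCommGroup E] [NormedSpace ℝ E] [FiniteDimensional ℝ E] {S : Setting 𝔾 X E}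
  {g g' G G' γ c w : 𝔾} {p p' q x y z : X} {C : Subgroup 𝔾} {K : Set X} {R : ℝ}
  {𝔊 : Type*} [Group 𝔊] [MulAction 𝔊 Circle] {Φ : Fuchs 𝔊} {pj : 𝔾 →* 𝔊} {pr : X → KD}
  {set : X → KD → X} {H : Subgroup 𝔊} {a₁ a₂ r₁ r₂ : Circle}
  {j : E ≃L[ℝ] ℂ × ℂ} {tr : 𝔾 → ℂ} {B : ℂ ≃L[ℝ] ℂ} {τ : ℤ} {ν : 𝔾}
  {μ : ℝ} {lu ls : ℂ →L[ℝ] ℝ} {eu es : ℂ} {θ : 𝔊 → ℂ}

theorem TT.fix_fin (h : S.TT Φ pj pr set j tr B τ) (hτ : 2 < τ) (hG : 0 < S.ht G)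
    (hs : Stable (pj G)) : ∃ F : Set X, F.Finite ∧
      ∀ b : ℕ, 1 ≤ b → ∀ q, G ^ b • q = q → ∃ c ∈ S.Cen G, c • q ∈ F := by
  obtain ⟨μ, lu, ls, eu, es, hE⟩ := exists_eig h.trace h.det (by exact_mod_cast hτ)
  have hH : ∀ a ∈ Φ.Cen (pj G), Φ.ht a = 0 := fun a ha => ha.1
  have hcj : ∀ a ∈ Φ.Cen (pj G), pj G * a * (pj G)⁻¹ = a := fun a ha => by
    rw [← ha.2, mul_inv_cancel_right]
  obtain ⟨θ, hθ, he, D, hD, hD', hd⟩ := h.graph (H := Φ.Cen (pj G)) hτ hG.ne' hH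
    (fun a ha => by rw [hcj a ha]; exact ha) (fun θ _ a ha => by
      have : pj G ^ 2 * a * (pj G ^ 2)⁻¹ = pj G * (pj G * a * (pj G)⁻¹) * (pj G)⁻¹ := by
        rw [pow_two]; group
      rw [this, hcj a ha, hcj a ha])
  have hA : ∀ c, pj c ∈ Φ.Cen (pj G) → tr c = θ (pj c) → c ∈ S.Cen G := by
    intro c h1 h2
    have h0 : S.ht c = 0 := by rw [← h.hf.ht_eq]; exact h1.1
    have h3 : pj (G * c * G⁻¹) = pj c := by rw [map_mul, map_mul, map_inv, hcj _ h1]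
    have h4 := he c h1
    rw [h2, sub_self, map_zero, h3, sub_eq_zero, ← h2] at h4
    have h5 := h.ext_tfin (by rw [S.ht_conj, h0]) h3 h4
    exact ⟨h0, (mul_inv_eq_iff_eq_mul.1 h5).symm⟩
  have hB : ∀ c ∈ S.Cen G, tr c = θ (pj c) := by
    intro c hc
    have h4 := he c (h.hf.mem_cen hc)
    have h5 : G * c * G⁻¹ = c := by rw [← hc.2, mul_inv_cancel_right]
    rw [h5] at h4
    exact sub_eq_zero.1 (hE.eq_zero_tfin hG h4.symm)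
  obtain ⟨Adm, hAd, hAv⟩ := Φ.model hs
  obtain ⟨Q, q1, q2, q3, q4⟩ := Φ.exists_convex hH hθ
  refine h.sf.fix_fin h.hf hG le_rfl
    (h.cone_tfin hAd hB q1 q2 q3 (lu.smulRight eu - ls.smulRight es)) fun b hb => ?_
  obtain ⟨C₀, hC₀⟩ := h.hf.step (G ^ b)
  obtain ⟨R, hR⟩ := hAv b hb C₀
  obtain ⟨R₁, hR₁⟩ := (hD.image fun d => dist (Φ.pt d) KD.o).bddAbove
  obtain ⟨M', hM'⟩ := q4 (R + R₁)
  obtain ⟨M, hM⟩ := h.affine (G ^ b) (R + R₁)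
  have hb' : 0 < S.ht (G ^ b) := by rw [S.ht_pow]; positivity
  obtain ⟨M'', hM''⟩ := hE.bound_tfin hb' M M'
  refine ⟨_, h.sf.compact (R + R₁) (isCompact_closedBall (0 : ℂ) M'') (subset_univ _), ?_⟩
  rintro z hz u ⟨a1, t, ht, x, hx, r, hr, e⟩ s hs0 h0
  apply hz
  obtain rfl : x = pr z := KD.ext (hx.trans (h.sf.fst z))
  have h1 := congrArg j h0
  rw [map_add, map_smul, map_smul, map_zero, h.sf.vG_e] at h1
  have h2 := congrArg Prod.fst h1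
  have h3 := congrArg Prod.snd h1
  simp only [Prod.fst_add, Prod.smul_fst, Prod.fst_zero, Prod.snd_add, Prod.smul_snd,
    Prod.snd_zero] at h2 h3
  rw [h.sf.fst] at a1
  have h4 := hC₀ z
  rw [map_pow] at h4
  obtain ⟨a, ha, h5⟩ := hR _ _ h4 _ a1 s hs0 h2
  obtain ⟨d, hd1, c, hc1, hc2, rfl⟩ := hd a ha
  have hc : c⁻¹ ∈ S.Cen G := inv_mem (hA c hc1 hc2)
  have hp : pr (c⁻¹ • z) = Φ.mv (pj c⁻¹) (pr z) := h.hf.eqv _ _ hc.1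
  have h6 : dist (pr (c⁻¹ • z)) KD.o ≤ R + R₁ := by
    have k1 : dist (pr (c⁻¹ • z)) (Φ.pt d) ≤ R := by
      rw [Φ.pt_mul hc1.1, ← Φ.dist_mv (pj c)⁻¹, Φ.mv_inv_mv hc1.1, ← map_inv, ← hp] at h5
      exact h5
    exact (dist_triangle _ _ _).trans (add_le_add k1 (hR₁ ⟨d, hd1, rfl⟩))
  refine ⟨c⁻¹, hc, h6, mem_closedBall_zero_iff.2 ?_⟩
  have h7 := q3 _ (h.hf.mem_cen hc) _ _ hr
  rw [← hp] at h7
  refine hM'' _ _ _ s t ht hs0 (hM _ h6) (hM' _ h6 _ h7) ?_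
  have h8 : G ^ b • c⁻¹ • z = c⁻¹ • G ^ b • z := by
    rw [smul_smul, smul_smul, (S.cen_le_pow G b hc).2]
  rw [h8, h.sf.act _ _ hc.1, h.sf.act _ _ hc.1, hB _ hc, add_sub_add_right_eq_sub,
    add_sub_add_right_eq_sub]
  rw [e] at h3
  exact h3

theorem TT.finPer (h : S.TT Φ pj pr set j tr B τ) (hτ : 2 < τ) (hc : Φ.Core H (pj G))
    (hθ : ∀ a ∈ H, ∀ b ∈ H, θ (a * b) = θ a + θ b)
    (he : ∀ γ, pj γ ∈ H → tr (G * γ * G⁻¹) - θ (pj (G * γ * G⁻¹)) = (B ^ S.ht G) (tr γ - θ (pj γ)))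
    {D : Set 𝔊} (hD : D.Finite) (hD' : ∀ d ∈ D, d ∈ H)
    (hd : ∀ a ∈ H, ∃ d ∈ D, ∃ c, pj c ∈ H ∧ tr c = θ (pj c) ∧ a = pj c * d)
    (hC : ∀ c, c ∈ C ↔ pj c ∈ H ∧ tr c = θ (pj c)) : S.FinPer C G := by
  obtain ⟨μ, lu, ls, eu, es, hE⟩ := exists_eig h.trace h.det (by exact_mod_cast hτ)
  have hG : 0 < S.ht G := by rw [← h.hf.ht_eq]; exact hc.pos
  have h0 : ∀ γ, pj γ ∈ H → S.ht γ = 0 := fun γ hγ => by rw [← h.hf.ht_eq]; exact hc.le _ hγ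
  have hle : ∀ c ∈ C, S.ht c = 0 := fun c hc' => h0 c ((hC c).1 hc').1
  have hn : ∀ γ, pj γ ∈ H ↔ pj (G * γ * G⁻¹) ∈ H := fun γ => by
    rw [map_mul, map_mul, map_inv]; exact hc.norm _
  have hnorm : ∀ c, c ∈ C ↔ G * c * G⁻¹ ∈ C := by
    intro c
    rw [hC, hC, ← hn]
    refine and_congr_right fun h1 => ?_
    rw [← sub_eq_zero, ← sub_eq_zero (a := tr (G * c * G⁻¹)), he c h1, map_eq_zero_iff _
      (B ^ S.ht G).injective]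
  have hpow : ∀ (m : ℕ) γ, pj γ ∈ H → pj (G ^ m * γ * (G ^ m)⁻¹) ∈ H ∧
      tr (G ^ m * γ * (G ^ m)⁻¹) - θ (pj (G ^ m * γ * (G ^ m)⁻¹)) =
        (B ^ (m * S.ht G)) (tr γ - θ (pj γ)) := by
    intro m γ hγ
    induction m with
    | zero =>
      rw [pow_zero, inv_one, one_mul, mul_one, Nat.cast_zero, zero_mul, zpow_zero]
      exact ⟨hγ, rfl⟩
    | succ m ih =>
      have e : G ^ (m + 1) * γ * (G ^ (m + 1))⁻¹ = G * (G ^ m * γ * (G ^ m)⁻¹) * G⁻¹ := by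
        rw [pow_succ']; group
      have e' : ((m + 1 : ℕ) : ℤ) * S.ht G = S.ht G + m * S.ht G := by push_cast; ring
      rw [e, he _ ih.1, ih.2, e', zpow_add]
      exact ⟨(hn _).1 ih.1, rfl⟩
  have hnp : ∀ (m : ℕ), ∀ c ∈ C, G ^ m * c * (G ^ m)⁻¹ ∈ C := by
    intro m c hc'
    obtain ⟨h1, h2⟩ := (hC c).1 hc'
    obtain ⟨h3, h4⟩ := hpow m c h1
    rw [h2, sub_self, map_zero, sub_eq_zero] at h4
    exact (hC _).2 ⟨h3, h4⟩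
  have hcj : ∀ c ∈ C, ∀ γ, pj γ ∈ H → tr (c * γ * c⁻¹) - θ (pj (c * γ * c⁻¹)) =
      tr γ - θ (pj γ) := by
    intro c hc' γ hγ
    have h1 := (hC c).1 hc'
    have h2 := (hC _).1 (inv_mem hc')
    have h3 : pj (c * γ) ∈ H := by rw [map_mul]; exact mul_mem h1.1 hγ
    have h4 := h.tr_inv (hle c hc')
    rw [h.tr_mul (h0 _ h3) (h0 _ h2.1), h.tr_mul (h0 _ h1.1) (h0 _ hγ), map_mul pj _ c⁻¹,
      hθ _ h3 _ h2.1, map_mul, hθ _ h1.1 _ hγ, ← h1.2, ← h2.2]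
    ring
  have key : ∀ E' : 𝔊, ∃ F : Set X, F.Finite ∧ (Stable E' → Φ.Cen E' ≤ H → ∀ c ∈ C, ∀ m b : ℕ,
      1 ≤ m → 1 ≤ b → pj (c * G ^ m) = E' ^ b → ∀ q, (c * G ^ m) • q = q →
      ∃ c' ∈ C, c' • q ∈ F) := by
    intro E'
    by_cases hex : Stable E' ∧ Φ.Cen E' ≤ H ∧ ∃ c ∈ C, ∃ m b : ℕ, 1 ≤ m ∧ 1 ≤ b ∧
        pj (c * G ^ m) = E' ^ b
    swap
    · exact ⟨∅, finite_empty, fun k1 k2 c k3 m b k4 k5 k6 =>
        (hex ⟨k1, k2, c, k3, m, b, k4, k5, k6⟩).elim⟩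
    obtain ⟨k1, k2, c', k3, m', b', k4, k5, k6⟩ := hex
    have k7 : 0 < S.ht (c' * G ^ m') := by
      rw [S.ht_mul, hle c' k3, S.ht_pow, zero_add]; positivity
    obtain ⟨F, hF, hF'⟩ := h.fix_fin hτ k7 (by rw [k6]; exact k1.pow b')
    refine ⟨F, hF, fun _ _ c l3 m b l4 l5 l6 q hq => ?_⟩
    obtain ⟨c₃, m3, e3⟩ := exists_mul_pow (hnp m) l3 b'
    obtain ⟨c₄, m4, e4⟩ := exists_mul_pow (hnp m') k3 b
    have e5 : pj ((c * G ^ m) ^ b') = pj ((c' * G ^ m') ^ b) := by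
      rw [map_pow, map_pow, l6, k6, ← pow_mul, ← pow_mul, mul_comm]
    have e6 : m * b' = m' * b := by
      have := congrArg Φ.ht e5
      rw [h.hf.ht_eq, h.hf.ht_eq, e3, e4, S.ht_mul, S.ht_mul, hle _ m3, hle _ m4, ← pow_mul,
        ← pow_mul, S.ht_pow, S.ht_pow, zero_add, zero_add] at this
      exact_mod_cast mul_right_cancel₀ hG.ne' this
    have e7 : pj c₃ = pj c₄ := by
      rw [e3, e4, ← pow_mul, ← pow_mul, e6, map_mul, map_mul] at e5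
      exact mul_right_cancel e5
    have e8 : c₃ = c₄ := h.ext_tfin (hle _ m3) e7 (by
      rw [((hC _).1 m3).2, ((hC _).1 m4).2, e7])
    have e9 : (c' * G ^ m') ^ b • q = q := by
      rw [e4, ← e8, ← pow_mul, ← e6, pow_mul, ← e3, ← zpow_natCast]
      exact MulAction.mem_fixedBy.1 (MulAction.fixedBy_subset_fixedBy_zpow X _ (b' : ℤ) hq)
    obtain ⟨c₅, n1, n2⟩ := hF' b l5 q e9
    refine ⟨c₅, ?_, n2⟩
    have n3 : pj c₅ ∈ H := by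
      have := h.hf.mem_cen n1
      rw [k6, Φ.cen_pow k1 k5] at this
      exact k2 this
    obtain ⟨n4, n5⟩ := hpow m' c₅ n3
    have n6 := hcj c' k3 _ n4
    have n7 : c' * (G ^ m' * c₅ * (G ^ m')⁻¹) * c'⁻¹ = c₅ := by
      calc _ = (c' * G ^ m') * c₅ * (c' * G ^ m')⁻¹ := by group
        _ = c₅ := by rw [← n1.2, mul_inv_cancel_right]
    rw [n7, n5] at n6
    exact (hC _).2 ⟨n3, sub_eq_zero.1 (hE.eq_zero_tfin (by positivity) n6.symm)⟩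
  choose F hF hF' using key
  obtain ⟨T, hT, hT', hT''⟩ := hc.fin
  refine ⟨hle, hnorm, ⋃ d ∈ D, ⋃ E' ∈ T, F (d * E' * d⁻¹),
    hD.biUnion fun d _ => hT.biUnion fun E' _ => hF _, fun c hc' i hi q hq => ?_⟩
  have k7 : 0 < S.ht (c * G ^ i) := by
    rw [S.ht_mul, hle c hc', S.ht_pow, zero_add]; positivity
  obtain ⟨n, hn1, hn2⟩ := (h.sf.iness h.hf).exists_pow Φ k7 hq
  obtain ⟨k1, k2⟩ := hn2 1 le_rfl
  obtain ⟨c₁, m1, e1⟩ := exists_mul_pow (hnp i) hc' n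
  rw [mul_one, e1, ← pow_mul, map_mul, map_pow] at k1 k2
  obtain ⟨E', hE', h', hh', a, b, ha, hb, e2⟩ :=
    hT'' _ ((hC _).1 m1).1 _ (Nat.mul_pos hi hn1) k1 k2
  obtain ⟨d, hd1, c₂, hc₂, hc₂', rfl⟩ := hd h' hh'
  have m2 : c₂ ∈ C := (hC _).2 ⟨hc₂, hc₂'⟩
  obtain ⟨c₃, m3, e3⟩ := exists_mul_pow (hnp (i * n)) m1 a
  obtain ⟨l1, l2, l3⟩ := hT' E' hE'
  have e4 : c₂⁻¹ * c₃ * (G ^ (i * n * a) * c₂ * (G ^ (i * n * a))⁻¹) * G ^ (i * n * a) =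
      c₂⁻¹ * (c * G ^ i) ^ (n * a) * c₂ := by
    rw [pow_mul (c * G ^ i), e1, ← pow_mul G, e3, ← pow_mul G]
    group
  obtain ⟨c₅, n1, n2⟩ := hF' (d * E' * d⁻¹) (l2.conj Φ.cont d) (fun γ hγ => by
      have : d⁻¹ * γ * d ∈ H := l3 ((Φ.mem_cen_conj d).1 (by simpa [mul_assoc] using hγ))
      have h2 := mul_mem (mul_mem (hD' d hd1) this) (inv_mem (hD' d hd1))
      simpa [mul_assoc] using h2)
    _ (mul_mem (mul_mem (inv_mem m2) m3) (hnp (i * n * a) _ m2)) (i * n * a) b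
    (Nat.mul_pos (Nat.mul_pos hi hn1) ha) hb (by
      rw [e4, pow_mul, e1, ← pow_mul G, map_mul, map_mul, map_pow, map_mul, map_pow, e2, map_inv,
        conj_pow]
      group) (c₂⁻¹ • q) (by
      rw [e4, smul_smul, mul_inv_cancel_right, mul_smul, ← zpow_natCast,
        MulAction.mem_fixedBy.1 (MulAction.fixedBy_subset_fixedBy_zpow X _ _ hq)])
  refine ⟨c₅ * c₂⁻¹, mul_mem n1 (inv_mem m2), ?_⟩
  rw [mul_smul]
  exact mem_biUnion hd1 (mem_biUnion hE' n2)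

end Setting

end Pool.Agent.P.MP_788ef7_an
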