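import Pool.Agent.P.MP_788ef7_an.TBasic

set_option autoImplicit false

open Set Filter Topology Metric

namespace Pool.Agent.P.MP_788ef7_an

theorem bound_tfin {κ c s ε r w A A' : ℝ} (hκ : 0 < κ) (hc : 0 < c) (hs : s ∈ Icc (0 : ℝ) 1)
    (hε : |ε| ≤ A) (hr : |r| ≤ A') (h : (1 - s) * (κ * w + ε) + s * c * (w - r) = 0) :
    |w| ≤ A / κ + A' := by
  obtain ⟨s0, s1⟩ := hs
  obtain ⟨e0, e1⟩ := abs_le.1 hε
  obtain ⟨r0, r1⟩ := abs_le.1 hr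
  have hA : 0 ≤ A := (abs_nonneg _).trans hε
  have hA' : 0 ≤ A' := (abs_nonneg _).trans hr
  have hd : 0 ≤ A / κ := div_nonneg hA hκ.le
  have hk : κ * (A / κ) = A := by field_simp
  have key : ∀ a b : ℝ, 0 < a → 0 < b → 0 < (1 - s) * a + s * c * b := by
    intro a b ha hb
    rcases s0.eq_or_lt with h0 | h0
    · rw [← h0]; simpa using ha
    · have h1 := mul_pos (mul_pos h0 hc) hb
      have h2 := mul_nonneg (sub_nonneg.2 s1) ha.le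
      linarith
  by_contra hn
  rcases lt_abs.1 (not_le.1 hn) with h1 | h1
  · have h2 : κ * (A / κ) < κ * w := mul_lt_mul_of_pos_left (by linarith) hκ
    have := key (κ * w + ε) (w - r) (by linarith) (by linarith)
    linarith
  · have h2 : κ * (A / κ) < κ * (-w) := mul_lt_mul_of_pos_left (by linarith) hκ
    have := key (-(κ * w + ε)) (-(w - r)) (by linarith) (by linarith)
    linarith

theorem Eig.eq_zero_tfin {B : ℂ ≃L[ℝ] ℂ} {μ : ℝ} {lu ls : ℂ →L[ℝ] ℝ} {eu es : ℂ}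
    (h : Eig B μ lu ls eu es) {n : ℤ} (hn : 0 < n) {y : ℂ} (hy : (B ^ n) y = y) : y = 0 := by
  have h1 := h.lu_B n y
  have h2 := h.ls_B n y
  rw [hy] at h1 h2
  have h3 : 1 < μ ^ n := one_lt_zpow₀ h.one_lt hn
  have h4 : μ ^ (-n) < 1 := zpow_lt_one_of_neg₀ h.one_lt (by omega)
  have h5 : lu y = 0 := by
    have : (μ ^ n - 1) * lu y = 0 := by linarith
    exact (mul_eq_zero.1 this).resolve_left (by linarith)
  have h6 : ls y = 0 := by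
    have : (1 - μ ^ (-n)) * ls y = 0 := by linarith
    exact (mul_eq_zero.1 this).resolve_left (by linarith)
  rw [h.eq y, h5, h6]
  simp

theorem lin_le_tfin (l : ℂ →L[ℝ] ℝ) {v : ℂ} {M : ℝ} (h : ‖v‖ ≤ M) : |l v| ≤ ‖l‖ * M :=
  (l.le_opNorm v).trans (mul_le_mul_of_nonneg_left h (norm_nonneg _))

theorem Eig.bound_tfin {B : ℂ ≃L[ℝ] ℂ} {μ : ℝ} {lu ls : ℂ →L[ℝ] ℝ} {eu es : ℂ}
    (h : Eig B μ lu ls eu es) {n : ℤ} (hn : 0 < n) (M M' : ℝ) : ∃ M'' : ℝ,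
      ∀ (w w' r : ℂ) (s c : ℝ), 0 < c → s ∈ Icc (0 : ℝ) 1 → ‖w' - (B ^ n) w‖ ≤ M → ‖r‖ ≤ M' →
        (1 - s) • (w' - w) + s • c • (lu (w - r) • eu - ls (w - r) • es) = 0 → ‖w‖ ≤ M'' := by
  have h3 : 1 < μ ^ n := one_lt_zpow₀ h.one_lt hn
  have h4 : μ ^ (-n) < 1 := zpow_lt_one_of_neg₀ h.one_lt (by omega)
  refine ⟨(‖lu‖ * M / (μ ^ n - 1) + ‖lu‖ * M') * ‖eu‖ +
    (‖ls‖ * M / (1 - μ ^ (-n)) + ‖ls‖ * M') * ‖es‖, fun w w' r s c hc hs h1 h2 h0 => ?_⟩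
  have a1 := congrArg lu h0
  have a2 := congrArg ls h0
  simp only [map_add, map_sub, map_smul, smul_eq_mul, map_zero, h.lu_eu, h.lu_es, h.ls_eu,
    h.ls_es] at a1 a2
  have b1 := lin_le_tfin lu h1
  have b2 := lin_le_tfin ls h1
  rw [map_sub, h.lu_B] at b1
  rw [map_sub, h.ls_B, abs_sub_comm] at b2
  have c1 := Pool.Agent.P.MP_788ef7_an.bound_tfin (w := lu w) (sub_pos.2 h3) hc hs b1
    (lin_le_tfin lu h2) (by linarith)
  have c2 := Pool.Agent.P.MP_788ef7_an.bound_tfin (w := ls w) (sub_pos.2 h4) hc hs b2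
    (lin_le_tfin ls h2) (by linarith)
  calc ‖w‖ = ‖lu w • eu + ls w • es‖ := congrArg norm (h.eq w)
    _ ≤ ‖lu w • eu‖ + ‖ls w • es‖ := norm_add_le _ _
    _ = |lu w| * ‖eu‖ + |ls w| * ‖es‖ := by rw [norm_smul, norm_smul]; rfl
    _ ≤ _ := add_le_add (mul_le_mul_of_nonneg_right c1 (norm_nonneg _))
      (mul_le_mul_of_nonneg_right c2 (norm_nonneg _))

namespace Setting

variable {𝔾 X E : Type*} [Group 𝔾] [MetricSpace X] [MulAction 𝔾 X] [ProperSpace X]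
  [NormedAddCommGroup E] [NormedSpace ℝ E] [FiniteDimensional ℝ E] {S : Setting 𝔾 X E}
  {g g' G G' γ c w : 𝔾} {p p' q x y z : X} {C : Subgroup 𝔾} {K : Set X} {R : ℝ}
  {𝔊 : Type*} [Group 𝔊] [MulAction 𝔊 Circle] {Φ : Fuchs 𝔊} {pj : 𝔾 →* 𝔊} {pr : X → KD}
  {set : X → KD → X} {H : Subgroup 𝔊} {a₁ a₂ r₁ r₂ : Circle}
  {j : E ≃L[ℝ] ℂ × ℂ} {tr : 𝔾 → ℂ} {B : ℂ ≃L[ℝ] ℂ} {τ : ℤ} {ν : 𝔾}
  {μ : ℝ} {lu ls : ℂ →L[ℝ] ℝ} {eu es : ℂ} {θ : 𝔊 → ℂ}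

theorem TT.ext_tfin (h : S.TT Φ pj pr set j tr B τ) {c c' : 𝔾} (h0 : S.ht c = 0)
    (h1 : pj c = pj c') (h2 : tr c = tr c') : c = c' := by
  have h0' : S.ht c' = 0 := by rw [← h.hf.ht_eq, ← h1, h.hf.ht_eq, h0]
  have h3 : S.ht c'⁻¹ = 0 := by rw [S.ht_inv, h0']; rfl
  refine mul_inv_eq_one.1 (h.eq_one ?_ ?_)
  · rw [map_mul, map_inv, h1, mul_inv_cancel]
  · rw [h.tr_mul h0 h3, h.tr_inv h0', h2, add_neg_cancel]

theorem TT.cone_tfin (h : S.TT Φ pj pr set j tr B τ) {Adm₁ : ℂ → ℂ → Prop}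
    (hA : Cone (ball 0 1) (fun a : Φ.Cen (pj G) => kact (Φ.L a)) Adm₁)
    (hc : ∀ c ∈ S.Cen G, tr c = θ (pj c)) {Q : KD → Set ℂ} (h1 : ∀ x, Convex ℝ (Q x))
    (h2 : ∀ x₀, ∃ q, ∀ᶠ x in 𝓝 x₀, q ∈ Q x)
    (h3 : ∀ a ∈ Φ.Cen (pj G), ∀ x, ∀ q ∈ Q x, q + θ a ∈ Q (Φ.mv a x)) (J : ℂ →L[ℝ] ℂ) :
    Cone (range S.e) (fun c : S.Cen G => S.A c) fun ζ u => Adm₁ (j ζ).1 (j u).1 ∧
      ∃ s : ℝ, 0 < s ∧ ∃ x : KD, x.val = (j ζ).1 ∧ ∃ r ∈ Q x, (j u).2 = s • J ((j ζ).2 - r) := by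
  have hb : ∀ z, (j (S.e z)).1 ∈ ball (0 : ℂ) 1 := fun z => by
    rw [h.sf.fst, mem_ball_zero_iff]; exact (pr z).lt
  refine ⟨?_, ?_, ?_, ?_⟩
  · rintro _ ⟨z, rfl⟩ u u' ⟨a1, s, hs, x, hx, r, hr, e⟩ ⟨a2, s', hs', x', hx', r', hr', e'⟩
    obtain rfl : x = x' := KD.ext (hx.trans hx'.symm)
    have hss : 0 < s + s' := add_pos hs hs'
    refine ⟨by rw [map_add]; exact hA.add _ (hb z) _ _ a1 a2, s + s', hss, x, hx,
      (s / (s + s')) • r + (s' / (s + s')) • r',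
      h1 x hr hr' (by positivity) (by positivity) (by field_simp), ?_⟩
    rw [map_add, Prod.snd_add, e, e', ← map_smul, ← map_smul, ← map_smul, ← map_add]
    refine congrArg J ?_
    have k1 : (s + s') * (s / (s + s')) = s := by field_simp
    have k2 : (s + s') * (s' / (s + s')) = s' := by field_simp
    rw [smul_sub (s + s'), smul_add (s + s'), smul_smul, smul_smul, k1, k2, add_smul, smul_sub,
      smul_sub]
    abel
  · rintro _ ⟨z, rfl⟩ u t ht ⟨a1, s, hs, x, hx, r, hr, e⟩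
    refine ⟨by rw [map_smul]; exact hA.smul _ (hb z) _ _ ht a1, t * s, mul_pos ht hs, x, hx, r,
      hr, ?_⟩
    rw [map_smul, Prod.smul_snd, e, smul_smul]
  · rintro ⟨c, hc'⟩ _ ⟨z, rfl⟩ u ⟨a1, s, hs, x, hx, r, hr, e⟩
    have h0 : S.ht c = 0 := hc'.1
    have hm := h.hf.mem_cen hc'
    have hD := h.sf.D_prod h.hf h0 z u
    obtain rfl : x = pr z := KD.ext (hx.trans (h.sf.fst z))
    change Adm₁ (j (S.A c (S.e z))).1 (j (S.D c z u)).1 ∧ ∃ s : ℝ, 0 < s ∧ ∃ x : KD,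
      x.val = (j (S.A c (S.e z))).1 ∧ ∃ r ∈ Q x,
        (j (S.D c z u)).2 = s • J ((j (S.A c (S.e z))).2 - r)
    rw [S.A_e, hD, h.sf.fst, h.sf.act c z h0, h.hf.eqv c z h0]
    refine ⟨?_, s, hs, _, rfl, _, h3 _ hm _ _ hr, ?_⟩
    · rw [h.sf.fst] at a1
      rw [Φ.mv_val]
      exact hA.eqv ⟨pj c, hm⟩ _ (by rw [mem_ball_zero_iff]; exact (pr z).lt) _ a1
    · rw [fderiv_add_const, fderiv_fun_id, hc c hc', add_sub_add_right_eq_sub]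
      exact e
  · rintro _ ⟨z, rfl⟩
    obtain ⟨W, hW, hW'⟩ := hA.loc _ (hb z)
    obtain ⟨r, hr⟩ := h2 (pr z)
    refine ⟨fun ζ => j.symm (W (j ζ).1, J ((j ζ).2 - r)), ?_, ?_⟩
    · refine j.symm.contDiff.comp_contDiffOn (ContDiffOn.prodMk ?_ ?_)
      · refine hW.comp (contDiff_fst.comp j.contDiff).contDiffOn ?_
        rintro _ ⟨z', rfl⟩
        exact hb z'
      · exact (J.contDiff.comp ((contDiff_snd.comp j.contDiff).sub contDiff_const)).contDiffOn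
    · have t1 : Tendsto (fun z' => (j (S.e z')).1) (𝓝 z) (𝓝 (j (S.e z)).1) :=
        (continuous_fst.comp (j.continuous.comp S.emb.continuous)).tendsto z
      rw [← S.emb.map_nhds_eq, eventually_map]
      filter_upwards [t1.eventually hW', (h.hf.continuous_pr.tendsto z).eventually hr] with z' b1 b2
      rw [j.apply_symm_apply]
      exact ⟨b1, 1, one_pos, pr z', (h.sf.fst z').symm, r, b2, (one_smul _ _).symm⟩

end Setting

end Pool.Agent.P.MP_788ef7_an
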