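import Pool.Agent.P.MP_788ef7_an.PBasic

set_option autoImplicit false

open Set Filter Topology Metric

namespace Pool.Agent.P.MP_788ef7_an

/-- Eigenvectors of a hyperbolic map of the plane. -/
structure Eig (B : ℂ ≃L[ℝ] ℂ) (μ : ℝ) (lu ls : ℂ →L[ℝ] ℝ) (eu es : ℂ) : Prop where
  one_lt : 1 < μ
  lu_B : ∀ (n : ℤ) y, lu ((B ^ n) y) = μ ^ n * lu y
  ls_B : ∀ (n : ℤ) y, ls ((B ^ n) y) = μ ^ (-n) * ls y
  lu_eu : lu eu = 1
  ls_eu : ls eu = 0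
  lu_es : lu es = 0
  ls_es : ls es = 1
  eq : ∀ y, y = lu y • eu + ls y • es

theorem succ_apply_tlin (B : ℂ ≃L[ℝ] ℂ) (n : ℤ) (y : ℂ) : (B ^ (n + 1)) y = B ((B ^ n) y) := by
  rw [add_comm, zpow_one_add]
  rfl

theorem pred_apply_tlin (B : ℂ ≃L[ℝ] ℂ) (n : ℤ) (y : ℂ) :
    (B ^ (n - 1)) y = B.symm ((B ^ n) y) := by
  rw [ContinuousLinearEquiv.eq_symm_apply, ← succ_apply_tlin, sub_add_cancel]

theorem fun_zpow_tlin {B : ℂ ≃L[ℝ] ℂ} {l : ℂ →L[ℝ] ℝ} {c : ℝ} (hc : c ≠ 0)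
    (h : ∀ y, l (B y) = c * l y) (n : ℤ) (y : ℂ) : l ((B ^ n) y) = c ^ n * l y := by
  induction n using Int.induction_on with
  | zero => rw [zpow_zero, zpow_zero, one_mul]; rfl
  | succ n ih => rw [succ_apply_tlin, h, ih, zpow_add_one₀ hc]; ring
  | pred n ih =>
    have h1 := h ((B ^ (-(n : ℤ) - 1)) y)
    rw [← succ_apply_tlin, sub_add_cancel, ih] at h1
    rw [zpow_sub_one₀ hc]
    field_simp
    linarith

/-- The area form. -/
noncomputable def om_tlin (u : ℂ) : ℂ →L[ℝ] ℝ := u.re • Complex.imCLM - u.im • Complex.reCLM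

theorem om_apply_tlin (u v : ℂ) : om_tlin u v = u.re * v.im - u.im * v.re := by
  simp [om_tlin]

theorem exists_vec_tlin {B : ℂ ≃L[ℝ] ℂ} {a b : ℝ} (h : ∀ y, B y + B.symm y = (a + b) • y)
    (hd : (B : ℂ →L[ℝ] ℂ).det = 1) (hab : a * b = 1) (hb : b ^ 2 ≠ 1) :
    ∃ v, v ≠ 0 ∧ B v = a • v := by
  by_cases hc : ∀ y, B y - b • y = 0
  · exfalso
    have e : ((B : ℂ →L[ℝ] ℂ) : ℂ →ₗ[ℝ] ℂ) = b • LinearMap.id := by
      ext1 y
      exact sub_eq_zero.1 (hc y)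
    rw [ContinuousLinearMap.det, e, LinearMap.det_smul, LinearMap.det_id,
      Complex.finrank_real_complex, mul_one] at hd
    exact hb hd
  · obtain ⟨y, hy⟩ := not_forall.1 hc
    refine ⟨_, hy, ?_⟩
    have h1 := h (B y)
    rw [ContinuousLinearEquiv.symm_apply_apply] at h1
    rw [map_sub, map_smul, smul_sub, smul_smul, hab, one_smul, eq_sub_of_add_eq h1, add_smul]
    abel

/-- Traces of powers. -/
def trc_tlin (τ : ℤ) : ℕ → ℤ
  | 0 => 2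
  | 1 => τ
  | n + 2 => τ * trc_tlin τ (n + 1) - trc_tlin τ n

theorem trc_spec_tlin {B : ℂ ≃L[ℝ] ℂ} {τ : ℤ} (h : ∀ y, B y + B.symm y = (τ : ℝ) • y) (y : ℂ) :
    ∀ n : ℕ, (B ^ (n : ℤ)) y + (B ^ (-(n : ℤ))) y = (trc_tlin τ n : ℝ) • y
  | 0 => by
    rw [Nat.cast_zero, neg_zero, zpow_zero, trc_tlin, Int.cast_ofNat, two_smul]
    rfl
  | 1 => by
    rw [Nat.cast_one, zpow_neg, zpow_one, trc_tlin]
    exact h y
  | n + 2 => by
    have h0 := trc_spec_tlin h y n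
    have h1 := trc_spec_tlin h y (n + 1)
    have h2 := h ((B ^ ((n + 1 : ℕ) : ℤ)) y)
    have h3 := h ((B ^ (-((n + 1 : ℕ) : ℤ))) y)
    rw [← succ_apply_tlin, ← pred_apply_tlin] at h2 h3
    have e1 : ((n + 1 : ℕ) : ℤ) + 1 = ((n + 2 : ℕ) : ℤ) := by push_cast; ring
    have e2 : ((n + 1 : ℕ) : ℤ) - 1 = (n : ℤ) := by push_cast; ring
    have e3 : -((n + 1 : ℕ) : ℤ) + 1 = -(n : ℤ) := by push_cast; ring
    have e4 : -((n + 1 : ℕ) : ℤ) - 1 = -((n + 2 : ℕ) : ℤ) := by push_cast; ring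
    rw [e1, e2] at h2
    rw [e3, e4] at h3
    rw [trc_tlin, Int.cast_sub, Int.cast_mul, sub_smul, mul_smul, ← h1, ← h0, smul_add, ← h2, ← h3]
    abel

theorem exists_eig {B : ℂ ≃L[ℝ] ℂ} {τ : ℝ} (h : ∀ y, B y + B.symm y = τ • y)
    (hd : (B : ℂ →L[ℝ] ℂ).det = 1) (hτ : 2 < τ) : ∃ μ lu ls eu es, Eig B μ lu ls eu es := by
  have hs : √(τ ^ 2 - 4) ^ 2 = τ ^ 2 - 4 := Real.sq_sqrt (by nlinarith)
  have hs0 : 0 ≤ √(τ ^ 2 - 4) := Real.sqrt_nonneg _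
  obtain ⟨μ, ν, hμ, hs, hp⟩ : ∃ μ ν : ℝ, 1 < μ ∧ τ = μ + ν ∧ μ * ν = 1 :=
    ⟨(τ + √(τ ^ 2 - 4)) / 2, (τ - √(τ ^ 2 - 4)) / 2, by linarith, by ring, by nlinarith⟩
  have hν0 : 0 < ν := by
    by_contra hc
    nlinarith [not_lt.1 hc]
  have hν1 : ν < 1 := by
    by_contra hc
    nlinarith [not_lt.1 hc]
  subst hs
  obtain ⟨u, hu0, hu⟩ := exists_vec_tlin h hd hp (by nlinarith)
  obtain ⟨v, hv0, hv⟩ := exists_vec_tlin (a := ν) (b := μ) (by rwa [add_comm ν])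
    hd (by rwa [mul_comm]) (by nlinarith)
  have hD : u.re * v.im - u.im * v.re ≠ 0 := fun hD => by
    have e : (u.re * u.re + u.im * u.im) • v = (u.re * v.re + u.im * v.im) • u := by
      apply Complex.ext
      · simp only [Complex.smul_re, smul_eq_mul]
        linear_combination (-u.im) * hD
      · simp only [Complex.smul_im, smul_eq_mul]
        linear_combination u.re * hD
    have e2 := congrArg B e
    rw [map_smul, map_smul, hu, hv, smul_comm _ μ, ← e, smul_comm _ ν, ← sub_eq_zero,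
      ← sub_smul, smul_eq_zero, smul_eq_zero] at e2
    rcases e2 with e2 | e2 | e2
    · linarith
    · exact hu0 (Complex.normSq_eq_zero.1 e2)
    · exact hv0 e2
  obtain ⟨lu, hlu⟩ : ∃ lu : ℂ →L[ℝ] ℝ, ∀ y, lu y =
      (y.re * v.im - y.im * v.re) / (u.re * v.im - u.im * v.re) :=
    ⟨(-(u.re * v.im - u.im * v.re)⁻¹) • om_tlin v, fun y => by
      rw [smul_apply, om_apply_tlin, smul_eq_mul, div_eq_mul_inv]
      ring⟩
  obtain ⟨ls, hls⟩ : ∃ ls : ℂ →L[ℝ] ℝ, ∀ y, ls y =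
      (u.re * y.im - u.im * y.re) / (u.re * v.im - u.im * v.re) :=
    ⟨(u.re * v.im - u.im * v.re)⁻¹ • om_tlin u, fun y => by
      rw [smul_apply, om_apply_tlin, smul_eq_mul, div_eq_mul_inv]
      ring⟩
  have h1 : lu u = 1 := by rw [hlu, div_self hD]
  have h2 : ls u = 0 := by rw [hls, mul_comm u.re, sub_self, zero_div]
  have h3 : lu v = 0 := by rw [hlu, mul_comm v.re, sub_self, zero_div]
  have h4 : ls v = 1 := by rw [hls, div_self hD]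
  have h5 : ∀ y, y = lu y • u + ls y • v := fun y => by
    rw [hlu, hls]
    apply Complex.ext
    · simp only [Complex.add_re, Complex.smul_re, smul_eq_mul]
      rw [div_mul_eq_mul_div, div_mul_eq_mul_div, ← add_div, eq_div_iff hD]
      ring
    · simp only [Complex.add_im, Complex.smul_im, smul_eq_mul]
      rw [div_mul_eq_mul_div, div_mul_eq_mul_div, ← add_div, eq_div_iff hD]
      ring
  have h6 : ∀ y, B y = (μ * lu y) • u + (ν * ls y) • v := fun y => by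
    conv_lhs => rw [h5 y]
    rw [map_add, map_smul, map_smul, hu, hv, smul_smul, smul_smul, mul_comm μ, mul_comm ν]
  refine ⟨μ, lu, ls, u, v, hμ, fun_zpow_tlin (by linarith) fun y => ?_, fun n y => ?_,
    h1, h2, h3, h4, h5⟩
  · rw [h6, map_add, map_smul, map_smul, h1, h3, smul_eq_mul, smul_zero, mul_one, add_zero]
  · rw [fun_zpow_tlin hν0.ne' (fun y => ?_), zpow_neg, ← inv_zpow, eq_inv_of_mul_eq_one_right hp]
    rw [h6, map_add, map_smul, map_smul, h2, h4, smul_eq_mul, smul_eq_mul, mul_zero, mul_one,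
      zero_add]

theorem Eig.symm {B : ℂ ≃L[ℝ] ℂ} {μ : ℝ} {lu ls : ℂ →L[ℝ] ℝ} {eu es : ℂ}
    (h : Eig B μ lu ls eu es) : Eig B.symm μ ls lu es eu := by
  have e : ∀ n : ℤ, B.symm ^ n = B ^ (-n) := fun n => inv_zpow' B n
  refine ⟨h.one_lt, fun n y => ?_, fun n y => ?_, h.ls_es, h.lu_es, h.ls_eu, h.lu_eu, fun y => ?_⟩
  · rw [e, h.ls_B, neg_neg]
  · rw [e, h.lu_B]
  · rw [add_comm]
    exact h.eq y

theorem exists_inv_functional {B : ℂ ≃L[ℝ] ℂ} {τ : ℤ} (h : ∀ y, B y + B.symm y = (τ : ℝ) • y)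
    (h₁ : -2 ≤ τ) (h₂ : τ ≤ 2) : ∃ (l : ℂ →L[ℝ] ℝ) (e : ℂ), l e = 1 ∧
      ∀ (n : ℤ) y, l ((B ^ (12 * n)) y) = l y := by
  have ht : trc_tlin τ 12 = 2 := by interval_cases τ <;> decide
  obtain ⟨C, hC⟩ : ∃ C, C = B ^ (12 : ℤ) := ⟨_, rfl⟩
  have h2 : ∀ y, C y + C.symm y = (2 : ℝ) • y := fun y => by
    have := trc_spec_tlin h y 12
    rw [ht, zpow_neg, Nat.cast_ofNat, ← hC, Int.cast_ofNat] at this
    exact this
  let N : ℂ →ₗ[ℝ] ℂ := ((C : ℂ →L[ℝ] ℂ) : ℂ →ₗ[ℝ] ℂ) - LinearMap.id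
  have hN : ∀ y, N y = C y - y := fun _ => rfl
  have hNN : ∀ y, N (N y) = 0 := fun y => by
    have := h2 (C y)
    rw [ContinuousLinearEquiv.symm_apply_apply, two_smul] at this
    rw [hN, hN, map_sub, eq_sub_of_add_eq this]
    abel
  have hlt : LinearMap.range N < ⊤ := lt_top_iff_ne_top.2 fun e => by
    have hs := LinearMap.range_eq_top.1 e
    obtain ⟨y, hy⟩ := hs 1
    obtain ⟨z, rfl⟩ := hs y
    exact one_ne_zero (hy.symm.trans (hNN z))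
  obtain ⟨f, hf0, hf⟩ := Submodule.exists_le_ker_of_lt_top _ hlt
  obtain ⟨w, hw⟩ : ∃ w, f w ≠ 0 := by
    by_contra hc
    exact hf0 (LinearMap.ext fun w => not_not.1 fun hw => hc ⟨w, hw⟩)
  refine ⟨LinearMap.toContinuousLinearMap f, (f w)⁻¹ • w, ?_, fun n y => ?_⟩
  · rw [map_smul, smul_eq_mul]
    exact inv_mul_cancel₀ hw
  · rw [zpow_mul, ← hC, fun_zpow_tlin one_ne_zero (fun y => ?_), one_zpow, one_mul]
    have := hf (LinearMap.mem_range_self N y)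
    rw [LinearMap.mem_ker, hN, map_sub, sub_eq_zero] at this
    rw [one_mul]
    exact this

theorem exists_trace_zpow {B : ℂ ≃L[ℝ] ℂ} {τ : ℤ} (h : ∀ y, B y + B.symm y = (τ : ℝ) • y) (n : ℤ) :
    ∃ τ' : ℤ, ∀ y, (B ^ n) y + (B ^ (-n)) y = (τ' : ℝ) • y := by
  obtain ⟨m, rfl | rfl⟩ := Int.eq_nat_or_neg n
  · exact ⟨_, fun y => trc_spec_tlin h y m⟩
  · refine ⟨trc_tlin τ m, fun y => ?_⟩
    rw [neg_neg, add_comm]
    exact trc_spec_tlin h y m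

/-- Bounded orbits of a perturbed expansion are uniformly bounded. -/
theorem bound_of_expand {μ M : ℝ} (hμ : 1 < μ) {a : ℕ → ℝ} (h : ∀ n, |a (n + 1) - μ * a n| ≤ M)
    (hb : ∃ L, ∀ n, |a n| ≤ L) (n : ℕ) : |a n| ≤ M / (μ - 1) := by
  have hbd : BddAbove (range fun n => |a n|) := by
    obtain ⟨L, hL⟩ := hb
    exact ⟨L, by rintro _ ⟨n, rfl⟩; exact hL n⟩
  have h0 : 0 < μ := by linarith
  have h1 : ∀ n, |a n| ≤ ⨆ n, |a n| := le_ciSup hbd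
  have h2 : ⨆ n, |a n| ≤ ((⨆ n, |a n|) + M) / μ := ciSup_le fun n => by
    rw [le_div_iff₀ h0, mul_comm, ← abs_of_pos h0, ← abs_mul]
    have := abs_sub_abs_le_abs_sub (μ * a n) (a (n + 1))
    rw [abs_sub_comm] at this
    linarith [h n, h1 (n + 1)]
  rw [le_div_iff₀ h0] at h2
  refine (h1 n).trans ?_
  rw [le_div_iff₀ (by linarith)]
  linarith

theorem bound_of_contract {μ M M' : ℝ} (hμ : 1 < μ) {a : ℕ → ℝ}
    (h : ∀ n, |a (n + 1) - μ⁻¹ * a n| ≤ M) (h0 : |a 0| ≤ M') (n : ℕ) :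
    |a n| ≤ max M' (M * μ / (μ - 1)) := by
  induction n with
  | zero => exact h0.trans (le_max_left _ _)
  | succ n ih =>
    have hp : 0 < μ := by linarith
    have h1 := le_max_right M' (M * μ / (μ - 1))
    rw [div_le_iff₀ (by linarith)] at h1
    have h2 := abs_sub_abs_le_abs_sub (a (n + 1)) (μ⁻¹ * a n)
    rw [abs_mul, abs_of_pos (inv_pos.2 hp)] at h2
    have h3 := mul_le_mul_of_nonneg_left ih (inv_pos.2 hp).le
    have h4 : M ≤ max M' (M * μ / (μ - 1)) - μ⁻¹ * max M' (M * μ / (μ - 1)) := by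
      refine le_of_mul_le_mul_right (h1.trans_eq ?_) hp
      field_simp
    linarith [h n]

/-- An equivariant field of convex sets for an additive function on a subgroup. -/
theorem PreFuchs.exists_convex {𝔊 : Type*} [Group 𝔊] (Φ : PreFuchs 𝔊) {H : Subgroup 𝔊}
    (hH : ∀ a ∈ H, Φ.ht a = 0) {θ : 𝔊 → ℂ} (hθ : ∀ a ∈ H, ∀ b ∈ H, θ (a * b) = θ a + θ b) :
    ∃ Q : KD → Set ℂ, (∀ x, Convex ℝ (Q x)) ∧ (∀ x₀, ∃ q, ∀ᶠ x in 𝓝 x₀, q ∈ Q x) ∧
      (∀ a ∈ H, ∀ x, ∀ q ∈ Q x, q + θ a ∈ Q (Φ.mv a x)) ∧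
      ∀ R, ∃ M, ∀ x, dist x KD.o ≤ R → ∀ q ∈ Q x, ‖q‖ ≤ M := by
  have h1 : θ 1 = 0 := by
    have := hθ 1 H.one_mem 1 H.one_mem
    rwa [mul_one, left_eq_add] at this
  have hsub : ∀ a ∈ H, ∀ b ∈ H, θ (a⁻¹ * b) = θ b - θ a := fun a ha b hb => by
    have := hθ a ha _ (H.mul_mem (H.inv_mem ha) hb)
    rw [mul_inv_cancel_left] at this
    rw [this, add_sub_cancel_left]
  have hd : ∀ a ∈ H, ∀ b x, dist x (Φ.pt (a⁻¹ * b)) = dist (Φ.mv a x) (Φ.pt b) :=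
    fun a ha b x => by
      rw [Φ.pt_mul (hH _ (H.inv_mem ha)), ← Φ.dist_mv a, Φ.mv_mv_inv (hH a ha)]
  refine ⟨fun x => {q | ∀ h ∈ H, ∀ M : ℝ,
    (∀ h' ∈ H, dist KD.o (Φ.pt h') ≤ 2 * (dist x (Φ.pt h) + 1) → ‖θ h'‖ ≤ M) → ‖q - θ h‖ ≤ M},
    fun x => ?_, fun x₀ => ?_, fun a ha x q hq h hh M hM => ?_, fun R => ?_⟩
  · intro p hp q hq s t hs ht hst h hh M hM
    have := convex_closedBall (θ h) M (mem_closedBall_iff_norm.2 (hp h hh M hM))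
      (mem_closedBall_iff_norm.2 (hq h hh M hM)) hs ht hst
    exact mem_closedBall_iff_norm.1 this
  · obtain ⟨g, hg, hm⟩ := Φ.exists_dirichlet hH x₀
    have hi := H.inv_mem hg
    have h2 : ∀ h ∈ H, dist x₀ (Φ.pt g⁻¹) ≤ dist x₀ (Φ.pt h) := fun h hh => by
      have := hm _ (H.mul_mem hg hh)
      rwa [← Φ.pt_one, ← hd g hg, ← hd g hg, mul_one, inv_mul_cancel_left] at this
    refine ⟨θ g⁻¹, ?_⟩
    filter_upwards [closedBall_mem_nhds x₀ one_pos] with x hx h hh M hM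
    rw [← hsub h hh _ hi]
    refine hM _ (H.mul_mem (H.inv_mem hh) hi) ?_
    rw [hd h hh]
    have h3 := dist_triangle_left (Φ.pt h) (Φ.pt g⁻¹) x₀
    have h4 := dist_triangle_left x₀ (Φ.pt h) x
    have h5 := h2 h hh
    have h6 := mem_closedBall.1 hx
    show dist (Φ.pt h) _ ≤ _
    linarith
  · have := hq _ (H.mul_mem (H.inv_mem ha) hh) M (by rwa [hd a ha])
    rwa [hsub a ha h hh, ← sub_add, sub_add_eq_add_sub] at this
  · obtain ⟨M, hM⟩ := ((Φ.finite_pt KD.o (2 * (R + 1))).image fun h => ‖θ h‖).bddAbove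
    refine ⟨M, fun x hx q hq => ?_⟩
    have := hq 1 H.one_mem M fun h hh hb => hM ⟨h, ⟨hH h hh, ?_⟩, rfl⟩
    · rwa [h1, sub_zero] at this
    · rw [Φ.pt_one, dist_comm] at hb
      linarith

/-- A continuous interpolation of an additive function on a subgroup. -/
theorem PreFuchs.exists_section {𝔊 : Type*} [Group 𝔊] (Φ : PreFuchs 𝔊) {H : Subgroup 𝔊}
    (hH : ∀ a ∈ H, Φ.ht a = 0) {θ : 𝔊 → ℂ} (hθ : ∀ a ∈ H, ∀ b ∈ H, θ (a * b) = θ a + θ b) :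
    ∃ s : KD → ℂ, Continuous s ∧ ∀ R, ∃ M, ∀ a ∈ H, ∀ x, dist x (Φ.pt a) ≤ R →
      ‖s x - θ a‖ ≤ M := by
  obtain ⟨Q, hc, hl, he, hb⟩ := Φ.exists_convex hH hθ
  obtain ⟨s, hs⟩ := exists_continuous_forall_mem_convex_of_local_const hc hl
  refine ⟨s, s.continuous, fun R => ?_⟩
  obtain ⟨M, hM⟩ := hb R
  refine ⟨M, fun a ha x hx => ?_⟩
  have h1 : θ 1 = 0 := by
    have := hθ 1 H.one_mem 1 H.one_mem
    rwa [mul_one, left_eq_add] at this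
  have h2 := hθ a ha _ (H.inv_mem ha)
  rw [mul_inv_cancel, h1] at h2
  have h3 := hM _ (by rwa [Φ.dist_mv_o_pbasic (hH a ha)]) _ (he _ (H.inv_mem ha) x _ (hs x))
  rwa [eq_neg_of_add_eq_zero_right h2.symm, ← sub_eq_add_neg] at h3

end Pool.Agent.P.MP_788ef7_an
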